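import Pool.Agent.DST.Ev

/-!
# Project DST: abstract difference systems (common definitions, interface between the blocks)

`N × N` complex matrices; `q = e^{2πiy}`.
-/

open scoped BigOperators Topology
open Filter

namespace Pool.Agent.DST

/-- The coefficients are integers. -/
def IntL (f : LaurentPolynomial ℂ) : Prop := ∀ n : ℤ, ∃ m : ℤ, f.coeff n = (m : ℂ)

/-- Filter: `|y| → ∞` in the closed right half plane. -/
noncomputable def rhp : Filter ℂ := Bornology.cobounded ℂ ⊓ 𝓟 {y : ℂ | 0 ≤ y.re}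

/-- One difference system `F(y) = A(1/y) F(y - 1)` with a fundamental solution `F` on the slit
plane, and with an invariant pairing. -/
structure DSys (N : ℕ) where
  F : ℂ → Matrix (Fin N) (Fin N) ℂ
  A : ℂ → Matrix (Fin N) (Fin N) ℂ
  g : Matrix (Fin N) (Fin N) ℂ
  χ : Matrix (Fin N) (Fin N) (LaurentPolynomial ℂ)
  r : ℝ
  r_pos : 0 < r
  F_hol : ∀ y ∈ Complex.slitPlane, ∀ i j, DifferentiableAt ℂ (fun y => F y i j) y
  F_det : ∀ y ∈ Complex.slitPlane, (F y).det ≠ 0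
  A_hol : ∀ ε ∈ Metric.ball (0 : ℂ) r, ∀ i j, DifferentiableAt ℂ (fun ε => A ε i j) ε
  A_det : (A 0).det ≠ 0
  rel : ∀ y ∈ Complex.slitPlane, y - 1 ∈ Complex.slitPlane → r⁻¹ < ‖y‖ →
    F y = A y⁻¹ * F (y - 1)
  /-- at most exponential growth on vertical strips -/
  growth : ∀ a : ℝ, ∃ C : ℝ, ∀ y : ℂ, |y.re| ≤ a → 1 ≤ |y.im| → ∀ i j,
    ‖F y i j‖ ≤ Real.exp (C * |y.im|) ∧ ‖(F y)⁻¹ i j‖ ≤ Real.exp (C * |y.im|)
  g_symm : g.transpose = g
  g_det : g.det ≠ 0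
  χ_det : IsUnit χ.det
  /-- unitarity -/
  pair : ∀ y : ℂ, 0 < y.im → (F (-y)).transpose * g * F y = χ.map (evq y)

/-- Eigenvalues `e^{G_j}` (pairwise distinct) and orthonormal eigenvectors of `A₀`. -/
structure Eig {N : ℕ} (A₀ g : Matrix (Fin N) (Fin N) ℂ) (Ψ : Matrix (Fin N) (Fin N) ℂ)
    (G : Fin N → ℂ) : Prop where
  eig : A₀ * Ψ = Ψ * Matrix.diagonal fun j => Complex.exp (G j)
  norm : Ψ.transpose * g * Ψ = 1
  inj : Function.Injective fun j => Complex.exp (G j)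

/-- No wall: no two eigenvalues have a positive quotient. -/
def OffWall {N : ℕ} (G : Fin N → ℂ) : Prop :=
  ∀ i j, i ≠ j → ∀ n : ℤ, (G i - G j).im ≠ 2 * Real.pi * n

/-- The columns of `F X` are the right-canonical solutions: `F(y) X(y) ~ Ψ e^{y G}` as `|y| → ∞` in
the closed right half plane. -/
def IsBirk {N : ℕ} (F : ℂ → Matrix (Fin N) (Fin N) ℂ) (Ψ : Matrix (Fin N) (Fin N) ℂ)
    (G : Fin N → ℂ) (X : ℂ → Matrix (Fin N) (Fin N) ℂ) : Prop :=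
  ∀ i j, Tendsto (fun y => (F y * X y * Matrix.diagonal fun k => Complex.exp (-y * G k)) i j)
    rhp (𝓝 (Ψ i j))

/-- The connection matrix between `F` and the right-canonical basis is integral. -/
def Int0 {N : ℕ} (D : DSys N) : Prop :=
  ∀ (Ψ : Matrix (Fin N) (Fin N) ℂ) (G : Fin N → ℂ)
    (X : Matrix (Fin N) (Fin N) (LaurentPolynomial ℂ)), Eig (D.A 0) D.g Ψ G →
    IsBirk D.F Ψ G (fun y => X.map (evq y)) → ∀ i j, IntL (X i j)

/-- `D` is not on a wall. -/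
def OffPt {N : ℕ} (D : DSys N) : Prop := ∃ Ψ G, Eig (D.A 0) D.g Ψ G ∧ OffWall G

/-- A holomorphic family of difference systems over the open set `Ω`, with comparable fundamental
solutions. -/
structure IsFam {N : ℕ} (Ω : Set ℂ) (D : ℂ → DSys N)
    (χ : Matrix (Fin N) (Fin N) (LaurentPolynomial ℂ)) : Prop where
  open_Ω : IsOpen Ω
  conn : ∀ Z : Set ℂ, Z.Countable → IsPreconnected (Ω \ Z)
  χ_eq : ∀ s ∈ Ω, (D s).χ = χ
  χ_int : ∀ i j, IntL (χ i j)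
  A_hol : ∀ s ∈ Ω, ∀ i j, DifferentiableAt ℂ (fun s => (D s).A 0 i j) s
  comp : ∀ s₀ ∈ Ω, ∃ δ > 0, ∃ C : ℝ, ∀ s ∈ Metric.ball s₀ δ, ∀ s' ∈ Metric.ball s₀ δ,
    ∀ y ∈ Complex.slitPlane, 1 ≤ ‖y‖ → ∀ i j,
      ‖((D s').F y * ((D s).F y)⁻¹) i j‖ ≤ C * Real.exp (C * ‖s - s'‖ * ‖y‖)

/-- A quantum system: the equivariant quantum differential equation
`d_w J = (θ - e^{-w} C(y e^w)) J` (`w = log z`, `λ = y z`), the shift operator
`J(y,w) = S(y e^w, e^w) J(y-1,w)` and the pairing `g(λ)`, over the open set `Λ` of values of `λ`.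
The columns of `J(y, ·)` form a fundamental solution. -/
structure QSys (N : ℕ) where
  Λ : Set ℂ
  open_Λ : IsOpen Λ
  θ : Fin N → ℂ
  C : ℂ → Matrix (Fin N) (Fin N) ℂ
  g : ℂ → Matrix (Fin N) (Fin N) ℂ
  S : ℂ → ℂ → Matrix (Fin N) (Fin N) ℂ
  J : ℂ → ℂ → Matrix (Fin N) (Fin N) ℂ
  χ : Matrix (Fin N) (Fin N) (LaurentPolynomial ℂ)
  C_hol : ∀ x ∈ Λ, ∀ i j, DifferentiableAt ℂ (fun x => C x i j) x
  g_hol : ∀ x ∈ Λ, ∀ i j, HasDerivAt (fun x => g x i j) (deriv (fun x => g x i j) x) x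
  /-- homogeneity of the pairing: `λ g' = - θ g - g θ` -/
  g_hom : ∀ x ∈ Λ, ∀ i j, x * deriv (fun x => g x i j) x = -(θ i + θ j) * g x i j
  g_symm : ∀ x ∈ Λ, (g x).transpose = g x
  g_det : ∀ x ∈ Λ, (g x).det ≠ 0
  C_self : ∀ x ∈ Λ, g x * C x = (C x).transpose * g x
  S_hol : ∀ x ∈ Λ, ∀ z, x - z ∈ Λ → ∀ i j,
    DifferentiableAt ℂ (fun p : ℂ × ℂ => S p.1 p.2 i j) (x, z)
  S_det : ∀ x ∈ Λ, ∀ z, x - z ∈ Λ → (S x z).det ≠ 0
  J_hol : ∀ y w, y * Complex.exp w ∈ Λ → ∀ i j,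
    DifferentiableAt ℂ (fun p : ℂ × ℂ => J p.1 p.2 i j) (y, w)
  J_ode : ∀ y w, y * Complex.exp w ∈ Λ → ∀ i j, HasDerivAt (fun w => J y w i j)
    (((Matrix.diagonal θ - Complex.exp (-w) • C (y * Complex.exp w)) * J y w) i j) w
  J_shift : ∀ y w, y * Complex.exp w ∈ Λ → (y - 1) * Complex.exp w ∈ Λ →
    J y w = S (y * Complex.exp w) (Complex.exp w) * J (y - 1) w
  J_pair : ∀ y w, y * Complex.exp w ∈ Λ →
    (J (-y) (w + Real.pi * Complex.I)).transpose * g (y * Complex.exp w) * J y w =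
      χ.map (evq y)
  /-- at most exponential growth on vertical strips -/
  J_growth : ∀ l, Complex.exp l ∈ Λ → ∀ a : ℝ, ∃ C : ℝ, ∀ y : ℂ, |y.re| ≤ a → 1 ≤ |y.im| →
    ∀ i j, ‖J y (l - Complex.log y) i j‖ ≤ Real.exp (C * |y.im|) ∧
      ‖(J y (l - Complex.log y))⁻¹ i j‖ ≤ Real.exp (C * |y.im|)
  χ_det : IsUnit χ.det
  χ_int : ∀ i j, IntL (χ i j)

/-- The fundamental solution at fixed `l = log λ`. -/
noncomputable def QSys.f {N : ℕ} (Q : QSys N) (l y : ℂ) : Matrix (Fin N) (Fin N) ℂ :=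
  Q.J y (l - Complex.log y)

/-- The leading term of the transfer matrix at fixed `λ`: `S(λ,0) exp(C(λ)/λ)`. -/
noncomputable def QSys.A0 {N : ℕ} (Q : QSys N) (l : ℂ) : Matrix (Fin N) (Fin N) ℂ :=
  Q.S (Complex.exp l) 0 * NormedSpace.exp (Complex.exp (-l) • Q.C (Complex.exp l))

end Pool.Agent.DST
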