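import Pool.Agent.DST.Gamma

/-!
# Project DST: equivariant big quantum cohomology near `t ∈ H^2(X)`, and the statement
-/

open scoped BigOperators Topology
open Filter

namespace Pool.Agent.DST

open Pool.Agent.Helper18.Dub Pool.Agent.Helper7.DubStokes Pool.Agent.SHF

section bulk

variable {N : ℕ} {X : FanoGW (Fin N)} (T : EquivData X) (t : Fin N → ℂ)

/-- `⟨⟨φ_{i_1}, …, φ_{i_n}⟩⟩` near the point `t ∈ H^2(X)`: a power series in the coordinates of the
point relative to `t`, with coefficients in `ℂ[λ]`. -/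
noncomputable def serAt (s : Multiset (Fin N)) : MvPowerSeries (Fin N) (Polynomial ℂ) :=
  fun m => Polynomial.C (∏ i, ((m i).factorial : ℂ))⁻¹ * corrAt T t (s + Finsupp.toMultiset m)

/-- The matrix of equivariant big quantum multiplication `φ_a •` near `t`. -/
noncomputable def mulAt (a : Fin N) : Matrix (Fin N) (Fin N) (MvPowerSeries (Fin N) (Polynomial ℂ)) :=
  Matrix.of fun k b => ∑ l, MvPowerSeries.C (T.pairT⁻¹ k l) * serAt T t {a, b, l}

end bulk

/-- `GammaGW` together with the equivariant big quantum cohomology near `t ∈ H^2(X)`: divisor axiom,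
WDVV equations (with the class `β` weighted by `e^{∫_β t'}`, `t' ∈ H^2(X)`), and the shift operator
over `ℂ[λ][z][[t]]`. -/
structure BulkGW {N : ℕ} (X : FanoGW (Fin N)) (t : Fin N → ℂ) extends GammaGW X t where
  divisorT : ∀ β s i, β ≠ X.zero → 3 ≤ Multiset.card s → X.deg i = 1 →
    invT β (i ::ₘ s) = Polynomial.C (X.period β i) * invT β s
  degree_zeroT : ∀ s, 4 ≤ Multiset.card s → invT X.zero s = 0
  wdvvAt : ∀ t' : Fin N → ℂ, (∀ i, t' i ≠ 0 → X.deg i = 1) → ∀ a b c d,
    ∑ e, ∑ f, MvPowerSeries.C (pairT⁻¹ e f) * serAt toEquivData t' {a, b, e} *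
        serAt toEquivData t' {f, c, d} =
      ∑ e, ∑ f, MvPowerSeries.C (pairT⁻¹ e f) * serAt toEquivData t' {b, c, e} *
        serAt toEquivData t' {f, a, d}
  /-- the shift operator near `t` -/
  Sb : Matrix (Fin N) (Fin N) (MvPowerSeries (Fin N) (Polynomial (Polynomial ℂ)))
  Sb_zero : ∀ i j, MvPowerSeries.constantCoeff (Sb i j) = S i j
  /-- it intertwines the connections `z ∂_a - φ_a •` at `λ - z` and `λ` -/
  intertwine : ∀ a,
    (MvPowerSeries.C (Polynomial.X : Polynomial (Polynomial ℂ)) :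
        MvPowerSeries (Fin N) (Polynomial (Polynomial ℂ))) •
        Sb.map (MvPowerSeries.pderiv (Polynomial (Polynomial ℂ)) a) =
      (mulAt toEquivData t a).map (MvPowerSeries.map Polynomial.C) * Sb -
        Sb * (mulAt toEquivData t a).map (MvPowerSeries.map (shiftHom 1))

section statement

variable {N : ℕ} (X : FanoGW (Fin N))

/-- The matrix of multiplication by the class `v = ∑ v_a φ_a` in the quantum cohomology algebra at
the point `p`. -/
noncomputable def prodMat (p v : Fin N → ℂ) : Matrix (Fin N) (Fin N) ℂ :=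
  Matrix.of fun k b => ∑ a, v a * ∑ l, X.pair⁻¹ k l * ∑' m, term X p {a, b, l} m

/-- The oriented line `ℝ e^{iφ}` is admissible at `p`: it contains no ray `i (u - u') ℝ_{>0}`,
`u ≠ u'` canonical coordinates at `p`. -/
def IsAdmissible (p : Fin N → ℂ) (φ : ℝ) : Prop :=
  ∀ x y, (eulerMat X p).charpoly.IsRoot x → (eulerMat X p).charpoly.IsRoot y → x ≠ y →
    ((x - y) * Complex.exp (-φ * Complex.I)).re ≠ 0

/-- The integral combinations `v_j = ∑_i U_ij c_i` of the classes `c_i`. -/
def comb (U : Matrix (Fin N) (Fin N) ℤ) (c : Fin N → Fin N → ℂ) : Fin N → Fin N → ℂ :=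
  fun j a => ∑ i, (U i j : ℂ) * c i a

variable {X}

/-- `Y` is the continuation to the point `p` of the `Γ`-solutions `J(0, ·)` at the point `t`, by
parallel transport along `t + s (p - t)`, `|s| ≤ 1`, for the flat connection `z ∂_a - φ_a •`,
`z = e^w`. -/
def IsContinuation {t : Fin N → ℂ} (T : GammaGW X t) (p : Fin N → ℂ)
    (Y : ℂ → Matrix (Fin N) (Fin N) ℂ) : Prop :=
  ∃ F : ℂ → ℂ → Matrix (Fin N) (Fin N) ℂ, (∀ w, F 0 w = T.J 0 w) ∧ (∀ w, F 1 w = Y w) ∧
    ∀ s : ℂ, ‖s‖ ≤ 1 → ∀ w i j, HasDerivAt (fun s => F s w i j) (Complex.exp (-w) *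
      (prodMat X (fun a => t a + s * (p a - t a)) (fun a => p a - t a) * F s w) i j) s

end statement

end Pool.Agent.DST
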