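import Mathlib

/-!
# DST-DScal: a scalar differential equation (Mathlib only)

Gronwall's inequality along horizontal rays (in the variable `v = 1 - exp (-s)`) and along vertical
segments; the limit `β` is the limit of `b (x0 + n)`, and `‖b l - β‖ ≤ ‖β‖ (exp (K' exp (-re l)) - 1)`.
-/

open scoped BigOperators Topology
open Filter

namespace Pool.Agent.DST

private theorem scal_path {g g' : ℝ → ℂ} {k T : ℝ} (hk : 0 < k) (hT : 0 ≤ T)
    (hg : ∀ v ∈ Set.Icc (0 : ℝ) T, HasDerivAt g (g' v) v)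
    (hb : ∀ v ∈ Set.Icc (0 : ℝ) T, ‖g' v‖ ≤ k * ‖g v‖) :
    ‖g T - g 0‖ ≤ ‖g 0‖ * (Real.exp (k * T) - 1) := by
  have h := norm_le_gronwallBound_of_norm_deriv_right_le (f := fun v => g v - g 0) (f' := g')
    (δ := 0) (K := k) (ε := k * ‖g 0‖) (a := 0) (b := T)
    (fun v hv => ((hg v hv).continuousAt.sub continuousAt_const).continuousWithinAt)
    (fun v hv => ((hg v (Set.Ico_subset_Icc_self hv)).sub_const (g 0)).hasDerivWithinAt)
    (by simp)
    (fun v hv => by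
      have h1 := hb v (Set.Ico_subset_Icc_self hv)
      have h2 : ‖g v‖ ≤ ‖g v - g 0‖ + ‖g 0‖ := by
        have := norm_add_le (g v - g 0) (g 0)
        rwa [sub_add_cancel] at this
      nlinarith [mul_le_mul_of_nonneg_left h2 hk.le])
    T ⟨hT, le_refl T⟩
  rw [gronwallBound_of_K_ne_0 hk.ne'] at h
  simp only [sub_zero, zero_mul, zero_add] at h
  rw [mul_div_cancel_left₀ _ hk.ne'] at h
  exact h

private theorem scal_path' {g g' : ℝ → ℂ} {k T : ℝ} (hk : 0 < k) (hT : 0 ≤ T)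
    (hg : ∀ v ∈ Set.Icc (0 : ℝ) T, HasDerivAt g (g' v) v)
    (hb : ∀ v ∈ Set.Icc (0 : ℝ) T, ‖g' v‖ ≤ k * ‖g v‖) :
    ‖g T - g 0‖ ≤ ‖g T‖ * (Real.exp (k * T) - 1) := by
  have hmem : ∀ v ∈ Set.Icc (0 : ℝ) T, T - v ∈ Set.Icc (0 : ℝ) T := by
    intro v hv
    exact ⟨by linarith [hv.2], by linarith [hv.1]⟩
  have h := scal_path (g := fun v => g (T - v)) (g' := fun v => -g' (T - v)) hk hT
    (fun v hv => by
      have h1 : HasDerivAt (fun v : ℝ => T - v) (-1) v := by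
        simpa using (hasDerivAt_id v).const_sub T
      have h2 := (hg (T - v) (hmem v hv)).scomp v h1
      have h3 : ((-1 : ℝ) • g' (T - v)) = -g' (T - v) := by simp
      rw [h3] at h2
      exact h2)
    (fun v hv => by
      simpa using hb (T - v) (hmem v hv))
  simp only [sub_self, sub_zero] at h
  rwa [norm_sub_rev]

/-- the horizontal path -/
private theorem scal_hor {L K : ℝ} {b κ : ℂ → ℂ} (hK : 0 < K)
    (hb : ∀ l : ℂ, L < l.re → HasDerivAt b (κ l * b l) l)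
    (hκ : ∀ l : ℂ, L < l.re → ‖κ l‖ ≤ K * Real.exp (-l.re)) {l : ℂ} (hl : L < l.re) {s : ℝ}
    (hs : 0 ≤ s) :
    ‖b (l + s) - b l‖ ≤ ‖b l‖ * (Real.exp (K * Real.exp (-l.re)) - 1) ∧
    ‖b (l + s) - b l‖ ≤ ‖b (l + s)‖ * (Real.exp (K * Real.exp (-l.re)) - 1) := by
  set T : ℝ := 1 - Real.exp (-s) with hTdef
  have hes : Real.exp (-s) ≤ 1 := Real.exp_le_one_iff.2 (by linarith)
  have hes0 : 0 < Real.exp (-s) := Real.exp_pos _
  have hT0 : 0 ≤ T := by rw [hTdef]; linarith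
  have hT1 : T ≤ 1 := by rw [hTdef]; linarith
  set k : ℝ := K * Real.exp (-l.re) with hkdef
  have hk : 0 < k := mul_pos hK (Real.exp_pos _)
  set p : ℝ → ℂ := fun v => l - ((Real.log (1 - v) : ℝ) : ℂ) with hp
  have hpos : ∀ v ∈ Set.Icc (0 : ℝ) T, 0 < 1 - v := by
    intro v hv
    have := hv.2
    rw [hTdef] at this
    linarith
  have hpre : ∀ v ∈ Set.Icc (0 : ℝ) T, (p v).re = l.re - Real.log (1 - v) := by
    intro v hv
    simp [hp]
  have hpL : ∀ v ∈ Set.Icc (0 : ℝ) T, L < (p v).re := by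
    intro v hv
    rw [hpre v hv]
    have : Real.log (1 - v) ≤ 0 := Real.log_nonpos (hpos v hv).le (by linarith [hv.1])
    linarith
  have hpd : ∀ v ∈ Set.Icc (0 : ℝ) T, HasDerivAt p ((((1 - v)⁻¹ : ℝ)) : ℂ) v := by
    intro v hv
    have h1 : HasDerivAt (fun v : ℝ => 1 - v) (-1) v := by
      simpa using (hasDerivAt_id v).const_sub 1
    have h2 := (h1.log (hpos v hv).ne').ofReal_comp.const_sub l
    have h3 : -((((-1 : ℝ) / (1 - v) : ℝ)) : ℂ) = ((((1 - v)⁻¹ : ℝ)) : ℂ) := by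
      rw [← Complex.ofReal_neg]
      congr 1
      rw [neg_div, neg_neg, one_div]
    rw [h3] at h2
    exact h2
  have hgd : ∀ v ∈ Set.Icc (0 : ℝ) T,
      HasDerivAt (fun v => b (p v)) (κ (p v) * b (p v) * ((((1 - v)⁻¹ : ℝ)) : ℂ)) v := by
    intro v hv
    exact (hb (p v) (hpL v hv)).comp v (hpd v hv)
  have hbd : ∀ v ∈ Set.Icc (0 : ℝ) T,
      ‖κ (p v) * b (p v) * ((((1 - v)⁻¹ : ℝ)) : ℂ)‖ ≤ k * ‖b (p v)‖ := by
    intro v hv
    have hv0 := hpos v hv
    rw [norm_mul, norm_mul, Complex.norm_real, Real.norm_eq_abs, abs_of_pos (inv_pos.2 hv0)]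
    have h1 := hκ (p v) (hpL v hv)
    rw [hpre v hv] at h1
    have h2 : Real.exp (-(l.re - Real.log (1 - v))) = Real.exp (-l.re) * (1 - v) := by
      rw [show -(l.re - Real.log (1 - v)) = -l.re + Real.log (1 - v) by ring, Real.exp_add,
        Real.exp_log hv0]
    rw [h2] at h1
    calc ‖κ (p v)‖ * ‖b (p v)‖ * (1 - v)⁻¹
        ≤ (K * (Real.exp (-l.re) * (1 - v))) * ‖b (p v)‖ * (1 - v)⁻¹ := by
          gcongr
      _ = k * ‖b (p v)‖ := by
          rw [hkdef]
          field_simp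
  have hp0 : p 0 = l := by simp [hp]
  have hpT : p T = l + s := by
    simp only [hp, hTdef]
    rw [show (1 : ℝ) - (1 - Real.exp (-s)) = Real.exp (-s) by ring, Real.log_exp]
    push_cast
    ring
  have e1 := scal_path (g := fun v => b (p v)) hk hT0 hgd hbd
  have e2 := scal_path' (g := fun v => b (p v)) hk hT0 hgd hbd
  simp only [hp0, hpT] at e1 e2
  have hexp : Real.exp (k * T) ≤ Real.exp k :=
    Real.exp_le_exp.2 (by nlinarith)
  constructor
  · exact e1.trans (mul_le_mul_of_nonneg_left (by linarith) (norm_nonneg _))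
  · exact e2.trans (mul_le_mul_of_nonneg_left (by linarith) (norm_nonneg _))

/-- the vertical path -/
private theorem scal_ver {L K : ℝ} {b κ : ℂ → ℂ} (hK : 0 < K)
    (hb : ∀ l : ℂ, L < l.re → HasDerivAt b (κ l * b l) l)
    (hκ : ∀ l : ℂ, L < l.re → ‖κ l‖ ≤ K * Real.exp (-l.re)) {l : ℂ} (hl : L < l.re) (y : ℝ) :
    ‖b (l + y * Complex.I) - b l‖ ≤
      ‖b l‖ * (Real.exp (K * Real.exp (-l.re) * (|y| + 1)) - 1) := by
  set k : ℝ := K * Real.exp (-l.re) * (|y| + 1) with hkdef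
  have hy1 : 0 < |y| + 1 := by positivity
  have hk : 0 < k := mul_pos (mul_pos hK (Real.exp_pos _)) hy1
  set p : ℝ → ℂ := fun v => l + (v : ℂ) * (y * Complex.I) with hp
  have hpre : ∀ v : ℝ, (p v).re = l.re := by
    intro v
    simp [hp]
  have hpd : ∀ v : ℝ, HasDerivAt p (y * Complex.I) v := by
    intro v
    have h1 : HasDerivAt (fun v : ℝ => (v : ℂ)) 1 v := by
      simpa using (hasDerivAt_id v).ofReal_comp
    have h2 := (h1.mul_const ((y : ℂ) * Complex.I)).const_add l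
    rw [one_mul] at h2
    exact h2
  have e1 := scal_path (g := fun v => b (p v)) (g' := fun v => κ (p v) * b (p v) * (y * Complex.I))
    (T := 1) hk zero_le_one
    (fun v _ => (hb (p v) (by rw [hpre]; exact hl)).comp v (hpd v))
    (fun v _ => by
      rw [norm_mul, norm_mul, norm_mul, Complex.norm_I, mul_one, Complex.norm_real,
        Real.norm_eq_abs]
      have h1 := hκ (p v) (by rw [hpre]; exact hl)
      rw [hpre] at h1
      calc ‖κ (p v)‖ * ‖b (p v)‖ * |y|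
          ≤ (K * Real.exp (-l.re)) * ‖b (p v)‖ * (|y| + 1) := by
            gcongr
            linarith
        _ = k * ‖b (p v)‖ := by
            rw [hkdef]
            ring)
  have hp0 : p 0 = l := by simp [hp]
  have hp1 : p 1 = l + y * Complex.I := by simp [hp]
  simp only [hp0, hp1, mul_one] at e1
  exact e1

private theorem scal_tend {K c : ℝ} (x : ℝ) :
    Tendsto (fun n : ℕ => c * (Real.exp (K * Real.exp (-(x + n))) - 1)) atTop (𝓝 0) := by
  have h1 : Tendsto (fun n : ℕ => Real.exp (-(x + n))) atTop (𝓝 0) := by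
    refine Real.tendsto_exp_neg_atTop_nhds_zero.comp ?_
    exact tendsto_atTop_add_const_left _ _ tendsto_natCast_atTop_atTop
  have h2 : Tendsto (fun n : ℕ => Real.exp (K * Real.exp (-(x + n)))) atTop (𝓝 1) := by
    have h := (Real.continuous_exp.tendsto (K * 0)).comp (h1.const_mul K)
    rw [mul_zero, Real.exp_zero] at h
    exact h
  have h3 := (h2.sub_const 1).const_mul c
  simpa using h3

theorem scal {L K : ℝ} {b κ : ℂ → ℂ} (hK : 0 ≤ K)
    (hb : ∀ l : ℂ, L < l.re → HasDerivAt b (κ l * b l) l) (h0 : ∀ l : ℂ, L < l.re → b l ≠ 0)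
    (hκ : ∀ l : ℂ, L < l.re → ‖κ l‖ ≤ K * Real.exp (-l.re)) :
    ∃ β : ℂ, β ≠ 0 ∧ ∀ ε > 0, ∃ L' : ℝ, ∀ l : ℂ, L' ≤ l.re → ‖b l - β‖ ≤ ε := by
  set M : ℝ := K + 1 with hM
  have hM0 : 0 < M := by rw [hM]; linarith
  have hκ' : ∀ l : ℂ, L < l.re → ‖κ l‖ ≤ M * Real.exp (-l.re) := by
    intro l hl
    refine (hκ l hl).trans ?_
    have := Real.exp_pos (-l.re)
    rw [hM]
    nlinarith
  -- the base point
  set x0 : ℝ := max (L + 1) (Real.log (4 * M)) with hx0
  have hx0L : L < x0 := lt_of_lt_of_le (by linarith) (le_max_left _ _)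
  have hx0M : M * Real.exp (-x0) ≤ 1 / 4 := by
    have h1 : Real.log (4 * M) ≤ x0 := le_max_right _ _
    have h2 : 4 * M ≤ Real.exp x0 := by
      rw [← Real.exp_log (show (0 : ℝ) < 4 * M by positivity)]
      exact Real.exp_le_exp.2 h1
    rw [Real.exp_neg]
    have h3 : 0 < Real.exp x0 := Real.exp_pos _
    rw [← div_eq_mul_inv, div_le_iff₀ h3]
    linarith
  have hhalf : Real.exp (M * Real.exp (-x0)) - 1 ≤ 1 / 2 := by
    have h1 : 0 ≤ M * Real.exp (-x0) := by positivity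
    have h2 := Real.exp_bound' h1 (by linarith : M * Real.exp (-x0) ≤ 1) (n := 1) (by norm_num)
    simp at h2
    linarith
  have hxre : ∀ x : ℝ, ((x : ℂ)).re = x := fun x => Complex.ofReal_re x
  set a : ℕ → ℂ := fun n => b ((x0 : ℂ) + (n : ℝ)) with ha
  have hup : ∀ n : ℕ, ‖a n‖ ≤ 2 * ‖b (x0 : ℂ)‖ := by
    intro n
    have h1 := (scal_hor hM0 hb hκ' (l := (x0 : ℂ)) (by rw [hxre]; exact hx0L)
      (s := (n : ℝ)) (Nat.cast_nonneg n)).1
    rw [hxre] at h1
    have h2 : ‖a n‖ ≤ ‖a n - b (x0 : ℂ)‖ + ‖b (x0 : ℂ)‖ := by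
      have := norm_add_le (a n - b (x0 : ℂ)) (b (x0 : ℂ))
      rwa [sub_add_cancel] at this
    have h3 := norm_nonneg (b (x0 : ℂ))
    have h4 : ‖a n - b (x0 : ℂ)‖ ≤ ‖b (x0 : ℂ)‖ * (Real.exp (M * Real.exp (-x0)) - 1) := h1
    nlinarith
  have hlow : ∀ n : ℕ, ‖b (x0 : ℂ)‖ ≤ 2 * ‖a n‖ := by
    intro n
    have h1 := (scal_hor hM0 hb hκ' (l := (x0 : ℂ)) (by rw [hxre]; exact hx0L)
      (s := (n : ℝ)) (Nat.cast_nonneg n)).2
    rw [hxre] at h1
    have h4 : ‖a n - b (x0 : ℂ)‖ ≤ ‖a n‖ * (Real.exp (M * Real.exp (-x0)) - 1) := h1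
    have h2 : ‖b (x0 : ℂ)‖ ≤ ‖a n‖ + ‖a n - b (x0 : ℂ)‖ := by
      have := norm_sub_le (a n) (a n - b (x0 : ℂ))
      rwa [sub_sub_cancel] at this
    have h3 := norm_nonneg (a n)
    nlinarith
  have hcauchy : CauchySeq a := by
    refine cauchySeq_of_le_tendsto_0
      (fun n : ℕ => 2 * (2 * ‖b (x0 : ℂ)‖ * (Real.exp (M * Real.exp (-(x0 + n))) - 1))) ?_ ?_
    · have key : ∀ N m : ℕ, N ≤ m → ‖a m - a N‖ ≤
          2 * ‖b (x0 : ℂ)‖ * (Real.exp (M * Real.exp (-(x0 + N))) - 1) := by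
        intro N m hNm
        have hre : ((x0 : ℂ) + ((N : ℝ) : ℂ)).re = x0 + N := by simp
        have h1 := (scal_hor hM0 hb hκ' (l := (x0 : ℂ) + ((N : ℝ) : ℂ))
          (by
            rw [hre]
            have : (0 : ℝ) ≤ N := Nat.cast_nonneg N
            linarith)
          (s := (m : ℝ) - N) (by
            have : (N : ℝ) ≤ m := by exact_mod_cast hNm
            linarith)).1
        rw [hre] at h1
        have h2 : (x0 : ℂ) + ((N : ℝ) : ℂ) + (((m : ℝ) - N : ℝ) : ℂ) = (x0 : ℂ) + ((m : ℝ) : ℂ) := by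
          push_cast
          ring
        rw [h2] at h1
        have h3 : 0 ≤ Real.exp (M * Real.exp (-(x0 + N))) - 1 := by
          have := Real.one_le_exp (show 0 ≤ M * Real.exp (-(x0 + N)) by positivity)
          linarith
        exact h1.trans (mul_le_mul_of_nonneg_right (hup N) h3)
      intro n m N hn hm
      rw [dist_eq_norm]
      have h1 := key N n hn
      have h2 := key N m hm
      calc ‖a n - a m‖ = ‖(a n - a N) - (a m - a N)‖ := by rw [sub_sub_sub_cancel_right]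
        _ ≤ ‖a n - a N‖ + ‖a m - a N‖ := norm_sub_le _ _
        _ ≤ _ := by linarith
    · have := (scal_tend (K := M) (c := 2 * ‖b (x0 : ℂ)‖) x0).const_mul 2
      simpa using this
  obtain ⟨β, hβ⟩ := cauchySeq_tendsto_of_complete hcauchy
  have hβ0 : β ≠ 0 := by
    have h1 : ‖b (x0 : ℂ)‖ ≤ 2 * ‖β‖ :=
      ge_of_tendsto (hβ.norm.const_mul 2) (Eventually.of_forall hlow)
    have h2 : 0 < ‖b (x0 : ℂ)‖ := norm_pos_iff.2 (h0 _ (by rw [hxre]; exact hx0L))
    exact norm_pos_iff.1 (by linarith)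
  refine ⟨β, hβ0, ?_⟩
  -- real points
  have hreal : ∀ x : ℝ, x0 ≤ x → Tendsto (fun n : ℕ => b ((x : ℂ) + (n : ℝ))) atTop (𝓝 β) := by
    intro x hx
    have hdiff : Tendsto (fun n : ℕ => b ((x : ℂ) + (n : ℝ)) - a n) atTop (𝓝 0) := by
      refine squeeze_zero_norm (fun n => ?_) (scal_tend (K := M) (c := 2 * ‖b (x0 : ℂ)‖) x0)
      have hre : ((x0 : ℂ) + ((n : ℝ) : ℂ)).re = x0 + n := by simp
      have h1 := (scal_hor hM0 hb hκ' (l := (x0 : ℂ) + ((n : ℝ) : ℂ))
        (by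
          rw [hre]
          have : (0 : ℝ) ≤ n := Nat.cast_nonneg n
          linarith)
        (s := x - x0) (by linarith)).1
      rw [hre] at h1
      have h2 : (x0 : ℂ) + ((n : ℝ) : ℂ) + ((x - x0 : ℝ) : ℂ) = (x : ℂ) + ((n : ℝ) : ℂ) := by
        push_cast
        ring
      rw [h2] at h1
      have h3 : 0 ≤ Real.exp (M * Real.exp (-(x0 + n))) - 1 := by
        have := Real.one_le_exp (show 0 ≤ M * Real.exp (-(x0 + n)) by positivity)
        linarith
      exact h1.trans (mul_le_mul_of_nonneg_right (hup n) h3)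
    have := hdiff.add hβ
    simpa using this
  -- all points
  have hall : ∀ l : ℂ, x0 ≤ l.re → Tendsto (fun n : ℕ => b (l + (n : ℝ))) atTop (𝓝 β) := by
    intro l hl
    have hx := hreal l.re hl
    have hdiff : Tendsto (fun n : ℕ => b (l + (n : ℝ)) - b ((l.re : ℂ) + (n : ℝ))) atTop
        (𝓝 0) := by
      have hbd : ∀ n : ℕ, ‖b (l + (n : ℝ)) - b ((l.re : ℂ) + (n : ℝ))‖ ≤
          ‖b ((l.re : ℂ) + (n : ℝ))‖ *
            (Real.exp (M * (|l.im| + 1) * Real.exp (-(l.re + n))) - 1) := by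
        intro n
        have hre : ((l.re : ℂ) + ((n : ℝ) : ℂ)).re = l.re + n := by simp
        have h1 := scal_ver hM0 hb hκ' (l := (l.re : ℂ) + ((n : ℝ) : ℂ))
          (by
            rw [hre]
            have : (0 : ℝ) ≤ n := Nat.cast_nonneg n
            linarith) l.im
        rw [hre] at h1
        have h2 : (l.re : ℂ) + ((n : ℝ) : ℂ) + l.im * Complex.I = l + ((n : ℝ) : ℂ) := by
          nth_rewrite 3 [← Complex.re_add_im l]
          ring
        rw [h2] at h1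
        rw [show M * (|l.im| + 1) * Real.exp (-(l.re + n)) =
          M * Real.exp (-(l.re + n)) * (|l.im| + 1) by ring]
        exact h1
      refine squeeze_zero_norm hbd ?_
      have h1 := hx.norm.mul (scal_tend (K := M * (|l.im| + 1)) (c := 1) l.re)
      simpa using h1
    have := hdiff.add hx
    simpa using this
  intro ε hε
  have htend : Tendsto (fun n : ℕ => ‖β‖ * (Real.exp (M * Real.exp (-(x0 + n))) - 1)) atTop
      (𝓝 0) := scal_tend x0
  obtain ⟨N, hN⟩ := (htend.eventually (eventually_le_nhds hε)).exists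
  refine ⟨x0 + N, fun l hl => ?_⟩
  have hN0 : (0 : ℝ) ≤ N := Nat.cast_nonneg N
  have h1 : ∀ n : ℕ, ‖b (l + (n : ℝ)) - b l‖ ≤
      ‖b (l + (n : ℝ))‖ * (Real.exp (M * Real.exp (-l.re)) - 1) := fun n =>
    (scal_hor hM0 hb hκ' (l := l) (by linarith) (s := (n : ℝ)) (Nat.cast_nonneg n)).2
  have h2 := hall l (by linarith)
  have h3 : ‖β - b l‖ ≤ ‖β‖ * (Real.exp (M * Real.exp (-l.re)) - 1) :=
    le_of_tendsto_of_tendsto (h2.sub_const (b l)).norm (h2.norm.mul_const _)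
      (Eventually.of_forall h1)
  rw [norm_sub_rev]
  refine h3.trans (le_trans ?_ hN)
  refine mul_le_mul_of_nonneg_left ?_ (norm_nonneg _)
  have h4 : Real.exp (-l.re) ≤ Real.exp (-(x0 + N)) := Real.exp_le_exp.2 (by linarith)
  have h5 : Real.exp (M * Real.exp (-l.re)) ≤ Real.exp (M * Real.exp (-(x0 + N))) :=
    Real.exp_le_exp.2 (mul_le_mul_of_nonneg_left h4 hM0.le)
  linarith

end Pool.Agent.DST
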