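import Pool.Agent.DST.DEigA
import Pool.Agent.DST.DScal

/-!
# DST-DEig: eigenvalues of the transfer matrix `A₀` for large `λ`

The eigenvalue `a l j` behaves as `exp(-cw j * l + b j)` for `re l → ∞` (scalar differential equation),
and the eigenvectors, which are also eigenvectors of the quantum multiplication by `c_1^T`, are
orthogonal and can be normalised.
-/

open scoped BigOperators Topology
open Filter

namespace Pool.Agent.DST

open Pool.Agent.Helper18.Dub Pool.Agent.Helper7.DubStokes Pool.Agent.SHF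

variable {N : ℕ} {X : FanoGW (Fin N)} {t : Fin N → ℂ}

private theorem norm_frame {A g C V : Matrix (Fin N) (Fin N) ℂ} {a v : Fin N → ℂ}
    (hg : g.det ≠ 0) (hV : V.det ≠ 0) (hC : g * C = C.transpose * g)
    (hA : A * V = V * Matrix.diagonal a) (hCV : C * V = V * Matrix.diagonal v)
    (hv : Function.Injective v) :
    ∃ Ψ : Matrix (Fin N) (Fin N) ℂ, A * Ψ = Ψ * Matrix.diagonal a ∧
      Ψ.transpose * g * Ψ = 1 := by
  set D : Matrix (Fin N) (Fin N) ℂ := V.transpose * g * V with hD
  have h1 : D * Matrix.diagonal v = Matrix.diagonal v * D := by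
    have e1 : V.transpose * (g * C) * V = D * Matrix.diagonal v := by
      rw [hD, ← Matrix.mul_assoc, Matrix.mul_assoc, hCV, ← Matrix.mul_assoc]
    have e2 : V.transpose * (C.transpose * g) * V = Matrix.diagonal v * D := by
      rw [← Matrix.mul_assoc, ← Matrix.transpose_mul, hCV, Matrix.transpose_mul,
        Matrix.diagonal_transpose, hD, Matrix.mul_assoc, Matrix.mul_assoc, Matrix.mul_assoc]
    rw [← e1, hC, e2]
  have hoff : ∀ i j, i ≠ j → D i j = 0 := by
    intro i j hij
    have h2 := congrFun (congrFun h1 i) j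
    rw [Matrix.mul_diagonal, Matrix.diagonal_mul] at h2
    have h3 : D i j * (v j - v i) = 0 := by
      rw [mul_sub, h2]
      ring
    rcases mul_eq_zero.1 h3 with h4 | h4
    · exact h4
    · exact absurd (hv (sub_eq_zero.1 h4)).symm hij
  have hDd : D = Matrix.diagonal fun j => D j j := by
    ext i j
    by_cases hij : i = j
    · subst hij
      rw [Matrix.diagonal_apply_eq]
    · rw [Matrix.diagonal_apply_ne _ hij, hoff i j hij]
  have hdet : D.det ≠ 0 := by
    rw [hD, Matrix.det_mul, Matrix.det_mul, Matrix.det_transpose]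
    exact mul_ne_zero (mul_ne_zero hV hg) hV
  have hdj : ∀ j, D j j ≠ 0 := by
    intro j hj
    apply hdet
    rw [hDd, Matrix.det_diagonal]
    exact Finset.prod_eq_zero (Finset.mem_univ j) hj
  have hn : ∀ j, ∃ n : ℂ, n ^ 2 = D j j := fun j =>
    IsAlgClosed.exists_pow_nat_eq (D j j) two_pos
  choose n hn using hn
  have hn0 : ∀ j, n j ≠ 0 := by
    intro j hj
    apply hdj j
    rw [← hn j, hj]
    norm_num
  refine ⟨V * Matrix.diagonal fun j => (n j)⁻¹, ?_, ?_⟩
  · rw [← Matrix.mul_assoc, hA, Matrix.mul_assoc, Matrix.mul_assoc,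
      Matrix.diagonal_mul_diagonal, Matrix.diagonal_mul_diagonal]
    congr 2
    funext j
    ring
  · rw [Matrix.transpose_mul, Matrix.diagonal_transpose]
    have e3 : (Matrix.diagonal fun j => (n j)⁻¹) * V.transpose * g *
        (V * Matrix.diagonal fun j => (n j)⁻¹) =
        (Matrix.diagonal fun j => (n j)⁻¹) * D * Matrix.diagonal fun j => (n j)⁻¹ := by
      rw [hD]
      simp only [Matrix.mul_assoc]
    rw [e3, hDd, Matrix.diagonal_mul_diagonal, Matrix.diagonal_mul_diagonal,
      ← Matrix.diagonal_one]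
    congr 1
    funext j
    rw [← hn j]
    have := hn0 j
    field_simp

private theorem frame_at (T : GammaGW X t) {l : ℂ} {Q : Matrix (Fin N) (Fin N) ℂ}
    {u a : Fin N → ℂ} (hQ : Q.det ≠ 0) (h1 : T.Ah l * Q = Q * Matrix.diagonal u)
    (h2 : th X (-l) * T.A0 l * th X l * Q = Q * Matrix.diagonal a) (hu : Function.Injective u) :
    ∃ Ψ : Matrix (Fin N) (Fin N) ℂ, T.A0 l * Ψ = Ψ * Matrix.diagonal a ∧
      Ψ.transpose * evm T.pairT (Complex.exp l) * Ψ = 1 := by
  have hth : th X l * th X (-l) = 1 := by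
    rw [← th_add, add_neg_cancel, th_zero]
  have hA : T.A0 l * (th X l * Q) = th X l * Q * Matrix.diagonal a := by
    have e : th X l * (th X (-l) * T.A0 l * th X l * Q) = T.A0 l * (th X l * Q) := by
      rw [← Matrix.mul_assoc, ← Matrix.mul_assoc, ← Matrix.mul_assoc, hth, Matrix.one_mul,
        Matrix.mul_assoc]
    rw [← e, h2, ← Matrix.mul_assoc]
  have hC : evm (chernT T.toEquivData t T.κ) (Complex.exp l) * (th X l * Q) =
      th X l * Q * Matrix.diagonal fun j => Complex.exp l * u j := by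
    have e : th X l * (T.Ah l * Q) = Complex.exp (-l) •
        (evm (chernT T.toEquivData t T.κ) (Complex.exp l) * (th X l * Q)) := by
      rw [GammaGW.Ah, ← Matrix.mul_assoc, ← Matrix.mul_assoc, ← Matrix.mul_assoc, hth,
        Matrix.one_mul, Matrix.mul_assoc, Matrix.smul_mul]
    have e2 : evm (chernT T.toEquivData t T.κ) (Complex.exp l) * (th X l * Q) =
        Complex.exp l • (th X l * (T.Ah l * Q)) := by
      rw [e, smul_smul, ← Complex.exp_add, add_neg_cancel, Complex.exp_zero, one_smul]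
    have e3 : (Matrix.diagonal fun j => Complex.exp l * u j) =
        Complex.exp l • Matrix.diagonal u := by
      rw [← Matrix.diagonal_smul]
      rfl
    rw [e2, h1, e3, Matrix.mul_smul, Matrix.mul_assoc]
  refine norm_frame (T.pair_det _) ?_ (T.C_self _) hA hC ?_
  · rw [Matrix.det_mul]
    exact mul_ne_zero (th_det l) hQ
  · intro i j hij
    exact hu (mul_left_cancel₀ (Complex.exp_ne_zero l) hij)

theorem GammaGW.eig_large (T : GammaGW X t) : ∃ b : Fin N → ℂ, ∀ ε > 0, ∃ L : ℝ, ∀ l : ℂ,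
    L ≤ l.re → ∃ (Ψ : Matrix (Fin N) (Fin N) ℂ) (G : Fin N → ℂ),
      Eig (T.A0 l) (evm T.pairT (Complex.exp l)) Ψ G ∧
        ∀ j, ‖G j + (T.cw j : ℂ) * l - b j‖ ≤ ε := by
  obtain ⟨L0, K, hK, Q, u, a, hfr⟩ := T.eig_frame
  have hscal : ∀ j, ∃ β : ℂ, β ≠ 0 ∧ ∀ ε > 0, ∃ L' : ℝ, ∀ l : ℂ, L' ≤ l.re →
      ‖a l j * Complex.exp ((T.cw j : ℂ) * l) - β‖ ≤ ε := by
    intro j
    refine scal (L := L0) (K := K) (b := fun l => a l j * Complex.exp ((T.cw j : ℂ) * l))
      (κ := fun l => (T.cw j : ℂ) - u l j) hK ?_ ?_ ?_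
    · intro l hl
      obtain ⟨_, _, _, _, h5⟩ := hfr l hl
      obtain ⟨_, h6, _⟩ := h5 j
      have h7 : HasDerivAt (fun l => Complex.exp ((T.cw j : ℂ) * l))
          (Complex.exp ((T.cw j : ℂ) * l) * ((T.cw j : ℂ) * 1)) l :=
        ((hasDerivAt_id l).const_mul _).cexp
      have h8 := h6.mul h7
      refine h8.congr_deriv ?_
      ring
    · intro l hl
      obtain ⟨_, _, _, _, h5⟩ := hfr l hl
      exact mul_ne_zero (h5 j).1 (Complex.exp_ne_zero _)
    · intro l hl
      obtain ⟨_, _, _, _, h5⟩ := hfr l hl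
      change ‖(T.cw j : ℂ) - u l j‖ ≤ _
      rw [norm_sub_rev]
      exact (h5 j).2.2
  choose β hβ0 hβ using hscal
  refine ⟨fun j => Complex.log (β j), fun ε hε => ?_⟩
  set ε' : ℝ := min ε 1 with hε'
  have hε'0 : 0 < ε' := lt_min hε one_pos
  -- the logarithm near `1`
  obtain ⟨δ, hδ0, hδ⟩ : ∃ δ > 0, ∀ z : ℂ, ‖z - 1‖ < δ → ‖Complex.log z‖ ≤ ε' := by
    have h1 : ContinuousAt Complex.log 1 := continuousAt_clog (by simp [Complex.slitPlane])
    have h2 := Metric.continuousAt_iff.1 h1 ε' hε'0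
    obtain ⟨δ, hδ0, hδ⟩ := h2
    refine ⟨δ, hδ0, fun z hz => ?_⟩
    have h3 := hδ (x := z) (by rwa [dist_eq_norm])
    rw [Complex.log_one, dist_zero_right] at h3
    exact h3.le
  have hL : ∀ j, ∃ L' : ℝ, ∀ l : ℂ, L' ≤ l.re →
      ‖a l j * Complex.exp ((T.cw j : ℂ) * l) / β j - 1‖ < δ := by
    intro j
    have hb : 0 < ‖β j‖ := norm_pos_iff.2 (hβ0 j)
    obtain ⟨L', hL'⟩ := hβ j (δ * ‖β j‖ / 2) (by positivity)
    refine ⟨L', fun l hl => ?_⟩
    have h1 := hL' l hl
    have h2 : a l j * Complex.exp ((T.cw j : ℂ) * l) / β j - 1 =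
        (a l j * Complex.exp ((T.cw j : ℂ) * l) - β j) / β j := by
      rw [sub_div, div_self (hβ0 j)]
    rw [h2, norm_div, div_lt_iff₀ hb]
    have h3 : 0 < δ * ‖β j‖ := by positivity
    linarith
  choose L' hL' using hL
  set B : ℝ := ∑ j, ‖Complex.log (β j)‖ with hB
  have hB0 : ∀ j, |(Complex.log (β j)).re| ≤ B := by
    intro j
    refine (Complex.abs_re_le_norm _).trans ?_
    exact Finset.single_le_sum (f := fun j => ‖Complex.log (β j)‖)
      (fun _ _ => norm_nonneg _) (Finset.mem_univ j)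
  have hBn : 0 ≤ B := Finset.sum_nonneg fun _ _ => norm_nonneg _
  refine ⟨max (L0 + 1) (2 * B + 3) + ∑ j, |L' j|, fun l hl => ?_⟩
  have hs0 : 0 ≤ ∑ j, |L' j| := Finset.sum_nonneg fun _ _ => abs_nonneg _
  have hl0 : L0 < l.re := by
    have := le_max_left (L0 + 1) (2 * B + 3)
    linarith
  have hlB : 2 * B + 3 ≤ l.re := by
    have := le_max_right (L0 + 1) (2 * B + 3)
    linarith
  have hlj : ∀ j, L' j ≤ l.re := by
    intro j
    have h1 : |L' j| ≤ ∑ j, |L' j| :=
      Finset.single_le_sum (f := fun j => |L' j|) (fun _ _ => abs_nonneg _) (Finset.mem_univ j)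
    have h2 := le_abs_self (L' j)
    have h3 := le_max_right (L0 + 1) (2 * B + 3)
    linarith
  obtain ⟨h1, h2, h3, h4, h5⟩ := hfr l hl0
  obtain ⟨Ψ, hΨ1, hΨ2⟩ := frame_at T h1 h2 h3 h4
  set G : Fin N → ℂ := fun j => -(T.cw j : ℂ) * l + Complex.log (β j) +
    Complex.log (a l j * Complex.exp ((T.cw j : ℂ) * l) / β j) with hG
  have hlog : ∀ j, ‖Complex.log (a l j * Complex.exp ((T.cw j : ℂ) * l) / β j)‖ ≤ ε' :=
    fun j => hδ _ (hL' j l (hlj j))
  have hexp : ∀ j, Complex.exp (G j) = a l j := by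
    intro j
    have hne : a l j * Complex.exp ((T.cw j : ℂ) * l) / β j ≠ 0 :=
      div_ne_zero (mul_ne_zero (h5 j).1 (Complex.exp_ne_zero _)) (hβ0 j)
    rw [hG]
    simp only
    rw [Complex.exp_add, Complex.exp_add, Complex.exp_log (hβ0 j), Complex.exp_log hne]
    have h6 : Complex.exp (-(T.cw j : ℂ) * l) * Complex.exp ((T.cw j : ℂ) * l) = 1 := by
      rw [← Complex.exp_add, ← Complex.exp_zero]
      congr 1
      ring
    have h7 : Complex.exp (-(T.cw j : ℂ) * l) * β j *
        (a l j * Complex.exp ((T.cw j : ℂ) * l) / β j) =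
        a l j * (Complex.exp (-(T.cw j : ℂ) * l) * Complex.exp ((T.cw j : ℂ) * l)) *
          (β j / β j) := by ring
    rw [h7, h6, div_self (hβ0 j), mul_one, mul_one]
  have hclose : ∀ j, ‖G j + (T.cw j : ℂ) * l - Complex.log (β j)‖ ≤ ε' := by
    intro j
    have e : G j + (T.cw j : ℂ) * l - Complex.log (β j) =
        Complex.log (a l j * Complex.exp ((T.cw j : ℂ) * l) / β j) := by
      rw [hG]
      ring
    rw [e]
    exact hlog j
  refine ⟨Ψ, G, ⟨?_, hΨ2, ?_⟩, fun j => (hclose j).trans (min_le_left _ _)⟩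
  · rw [hΨ1]
    congr 2
    funext j
    exact (hexp j).symm
  · intro i j hij
    by_contra hne
    have h6 : (G i).re = (G j).re := by
      have h7 := congrArg (fun z : ℂ => ‖z‖) hij
      simp only [Complex.norm_exp] at h7
      exact Real.exp_injective h7
    have hre : ∀ j, |(G j).re + (T.cw j : ℝ) * l.re - (Complex.log (β j)).re| ≤ 1 := by
      intro j
      have h7 := (Complex.abs_re_le_norm _).trans ((hclose j).trans (min_le_right _ _))
      rw [Complex.sub_re, Complex.add_re] at h7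
      have h8 : ((T.cw j : ℂ) * l).re = (T.cw j : ℝ) * l.re := by
        rw [Complex.mul_re, Complex.intCast_re, Complex.intCast_im]
        ring
      rw [h8] at h7
      exact h7
    have hcw : T.cw i ≠ T.cw j := by
      intro h7
      exact hne (T.cw_inj (by
        change (T.cw i : ℂ) = (T.cw j : ℂ)
        rw [h7]))
    have hi := abs_le.1 (hre i)
    have hj := abs_le.1 (hre j)
    have hbi := abs_le.1 (hB0 i)
    have hbj := abs_le.1 (hB0 j)
    have hlpos : 0 < l.re := by linarith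
    rcases lt_or_gt_of_ne hcw with h7 | h7
    · have h8 : (T.cw i : ℝ) + 1 ≤ T.cw j := by exact_mod_cast h7
      have h9 := mul_le_mul_of_nonneg_right h8 hlpos.le
      nlinarith [hi.1, hi.2, hj.1, hj.2]
    · have h8 : (T.cw j : ℝ) + 1 ≤ T.cw i := by exact_mod_cast h7
      have h9 := mul_le_mul_of_nonneg_right h8 hlpos.le
      nlinarith [hi.1, hi.2, hj.1, hj.2]

end Pool.Agent.DST
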