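import Mathlib

/-!
# DST-DGen: a generic direction (Mathlib only)

PLAN. For `i ≠ j` (`c i ≠ c j`) the set of `φ` with `-(c i - c j) φ + β i - β j = 2π n` for some integer
`n` is countable, so the union over the pairs is countable and there is `φ ∈ [0,1]` outside
(`Set.Countable` vs. `Cardinal`/`not_countable` of `Set.Icc 0 1`; `Set.Countable.dense_compl` gives a
point of the complement in the open interval `(0,1)`). For this `φ` and each pair the numbers
`r_ij - 2π n` are nonzero and `|r_ij - 2π n| ≥ η_ij > 0` for all `n`: take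
`η_ij = min (Int.fract (r/2π)) (1 - Int.fract (r/2π)) * 2π` (`r/2π` is not an integer;
`round_le`/`Int.fract`). `η` = minimum over the finitely many pairs (and `1`).
-/

namespace Pool.Agent.DST

private theorem dist_int_mul {r : ℝ} (hr : ∀ n : ℤ, r ≠ 2 * Real.pi * n) :
    ∃ η : ℝ, 0 < η ∧ ∀ n : ℤ, η ≤ |r - 2 * Real.pi * n| := by
  have hpi : (0 : ℝ) < 2 * Real.pi := by positivity
  obtain ⟨x, hx⟩ : ∃ x : ℝ, x = r / (2 * Real.pi) := ⟨_, rfl⟩
  have hrx : r = 2 * Real.pi * x := by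
    rw [hx]
    field_simp
  have hf : 0 < Int.fract x := by
    refine lt_of_le_of_ne (Int.fract_nonneg x) fun h => ?_
    apply hr ⌊x⌋
    have h1 : x = ⌊x⌋ := by
      have h2 := Int.floor_add_fract x
      rw [← h, add_zero] at h2
      exact h2.symm
    rw [hrx, ← h1]
  have hf1 := Int.fract_lt_one x
  refine ⟨2 * Real.pi * min (Int.fract x) (1 - Int.fract x),
    mul_pos hpi (lt_min hf (by linarith)), fun n => ?_⟩
  have h1 : r - 2 * Real.pi * n = 2 * Real.pi * (x - n) := by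
    rw [hrx]
    ring
  rw [h1, abs_mul, abs_of_pos hpi]
  refine mul_le_mul_of_nonneg_left ?_ hpi.le
  have h2 := Int.floor_add_fract x
  rcases le_or_gt n ⌊x⌋ with h | h
  · have h3 : (n : ℝ) ≤ ⌊x⌋ := by exact_mod_cast h
    refine (min_le_left _ _).trans (le_trans ?_ (le_abs_self _))
    linarith
  · have h3 : ((⌊x⌋ : ℤ) : ℝ) + 1 ≤ (n : ℝ) := by exact_mod_cast h
    refine (min_le_right _ _).trans (le_trans ?_ (neg_le_abs _))
    linarith

theorem exists_phi {N : ℕ} {c : Fin N → ℤ} (hc : Function.Injective c) (β : Fin N → ℝ) :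
    ∃ φ : ℝ, 0 ≤ φ ∧ φ ≤ 1 ∧ ∃ η > 0, ∀ i j, i ≠ j → ∀ n : ℤ,
      η ≤ |-((c i : ℝ) - c j) * φ + (β i - β j) - 2 * Real.pi * n| := by
  have hcount : (Set.range fun q : (Fin N × Fin N) × ℤ =>
      ((β q.1.1 - β q.1.2) - 2 * Real.pi * q.2) / ((c q.1.1 : ℝ) - c q.1.2)).Countable :=
    Set.countable_range _
  obtain ⟨φ, hφ, hφ0, hφ1⟩ := (hcount.dense_compl ℝ).exists_between (zero_lt_one (α := ℝ))
  refine ⟨φ, hφ0.le, hφ1.le, ?_⟩
  have hpair : ∀ q : Fin N × Fin N, ∃ η : ℝ, 0 < η ∧ (q.1 ≠ q.2 → ∀ n : ℤ,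
      η ≤ |-((c q.1 : ℝ) - c q.2) * φ + (β q.1 - β q.2) - 2 * Real.pi * n|) := by
    intro q
    by_cases hq : q.1 = q.2
    · exact ⟨1, one_pos, fun h => absurd hq h⟩
    · have hcq : (c q.1 : ℝ) - c q.2 ≠ 0 := by
        intro h
        apply hq
        apply hc
        have h1 : (c q.1 : ℝ) = c q.2 := by linarith
        exact_mod_cast h1
      obtain ⟨η, hη, h⟩ := dist_int_mul
        (r := -((c q.1 : ℝ) - c q.2) * φ + (β q.1 - β q.2)) (by
          intro n hn
          apply hφ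
          refine ⟨(q, n), ?_⟩
          show ((β q.1 - β q.2) - 2 * Real.pi * n) / ((c q.1 : ℝ) - c q.2) = φ
          rw [div_eq_iff hcq]
          linarith)
      exact ⟨η, hη, fun _ => h⟩
  choose f hf hfn using hpair
  have hev : ∀ᶠ η in nhdsWithin (0 : ℝ) (Set.Ioi 0), ∀ q, η ≤ f q := by
    rw [Filter.eventually_all]
    intro q
    exact (eventually_le_nhds (hf q)).filter_mono nhdsWithin_le_nhds
  obtain ⟨η, h1, h2⟩ := (hev.and self_mem_nhdsWithin).exists
  exact ⟨η, h2, fun i j hij n => (h1 (i, j)).trans (hfn (i, j) hij n)⟩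

end Pool.Agent.DST
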