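import Pool.Agent.DST.DDiv

/-!
# DST-DInt: integrality of the coordinates up to a factor in every column

`gM Y p j = ∑ i, toC (B i p) * Y i j`, and `B i p = 0` for `p < i`. The entries of a column are determined by division
with remainder by the diagonal entries `B p p`, which are monic up to sign with integral coefficients.
-/

open scoped BigOperators Topology
open Filter

namespace Pool.Agent.DST

open Pool.Agent.Helper18.Dub Pool.Agent.Helper7.DubStokes Pool.Agent.SHF

variable {N : ℕ} {X : FanoGW (Fin N)} {t : Fin N → ℂ}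

private theorem di_toC_zero {f : LaurentPolynomial ℤ} (h : toC f = 0) : f = 0 := by
  refine LaurentPolynomial.ext fun n => ?_
  have h1 := coeff_toC f n
  rw [h] at h1
  have h2 : ((f.coeff n : ℤ) : ℂ) = 0 := h1.symm
  exact_mod_cast h2

private theorem di_toC_T (m : ℤ) : toC (LaurentPolynomial.T m) = LaurentPolynomial.T m := by
  refine LaurentPolynomial.ext fun n => ?_
  rw [coeff_toC, LaurentPolynomial.T_apply, LaurentPolynomial.T_apply]
  split_ifs <;> simp

private theorem di_C_coeff (c : ℂ) (f : LaurentPolynomial ℂ) (n : ℤ) :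
    (LaurentPolynomial.C c * f).coeff n = c * f.coeff n := by
  rw [← LaurentPolynomial.smul_eq_C_mul]
  rfl

private theorem di_C_zero {c : ℂ} (hc : c ≠ 0) {f : LaurentPolynomial ℂ}
    (h : LaurentPolynomial.C c * f = 0) : f = 0 := by
  refine LaurentPolynomial.ext fun n => ?_
  have h1 := di_C_coeff c f n
  rw [h] at h1
  have h2 : c * f.coeff n = 0 := h1.symm
  exact (mul_eq_zero.1 h2).resolve_left hc

/-- the diagonal entries -/
private theorem di_diag (T : GammaGW X t) (p : Fin N) :
    (toC (T.B p p)).coeff 0 ≠ 0 ∧ (toC (T.B p p)).coeff ((T.pl p : ℕ) : ℤ) ≠ 0 ∧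
      ∀ m ∈ (toC (T.B p p)).coeff.support, 0 ≤ m ∧ m ≤ ((T.pl p : ℕ) : ℤ) := by
  have h := prod_coeff (T.wt p)
  rw [← T.B_diag p] at h
  obtain ⟨h1, h2, h3⟩ := h
  have h2' : (T.B p p).coeff ((T.pl p : ℕ) : ℤ) = 1 ∨ (T.B p p).coeff ((T.pl p : ℕ) : ℤ) = -1 := h2
  refine ⟨?_, ?_, fun m hm => ?_⟩
  · rw [coeff_toC, h1]
    simp
  · rw [coeff_toC]
    rcases h2' with h4 | h4 <;> rw [h4] <;> simp
  · apply h3 m
    rw [Finsupp.mem_support_iff] at hm ⊢
    intro h5
    rw [coeff_toC, h5] at hm
    simp at hm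

private theorem di_ne (T : GammaGW X t) (p : Fin N) : toC (T.B p p) ≠ 0 := by
  intro h
  have h1 := (di_diag T p).1
  rw [h] at h1
  exact h1 rfl

/-- the entries of `gM` -/
private theorem di_gM (T : GammaGW X t) (Y : Matrix (Fin N) (Fin N) (LaurentPolynomial ℂ)) (p j : Fin N) :
    T.gM Y p j = toC (T.B p p) * Y p j +
      ∑ i ∈ Finset.univ.filter (fun i => i < p), toC (T.B i p) * Y i j := by
  have h0 : T.gM Y p j = ∑ i, toC (T.B i p) * Y i j := rfl
  rw [h0]
  have hp : p ∉ Finset.univ.filter (fun i : Fin N => i < p) := by simp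
  rw [← Finset.sum_insert (f := fun i => toC (T.B i p) * Y i j) hp]
  symm
  apply Finset.sum_subset (Finset.subset_univ _)
  intro i _ hi
  rw [Finset.mem_insert, Finset.mem_filter, not_or, not_and] at hi
  have h1 : p < i := lt_of_le_of_ne (not_lt.1 (hi.2 (Finset.mem_univ i))) (Ne.symm hi.1)
  rw [T.B_tri i p h1, map_zero, zero_mul]

theorem GammaGW.low_tri (T : GammaGW X t) {Y : Matrix (Fin N) (Fin N) (LaurentPolynomial ℂ)}
    (h : ∀ p j, p < j → T.gM Y p j = 0) : ∀ i j, i < j → Y i j = 0 := by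
  intro i j
  induction i using WellFoundedLT.induction with
  | ind i ih =>
    intro hij
    have h1 := h i j hij
    rw [di_gM] at h1
    have h2 : ∑ i' ∈ Finset.univ.filter (fun i' => i' < i), toC (T.B i' i) * Y i' j = 0 := by
      apply Finset.sum_eq_zero
      intro i' hi'
      have h3 : i' < i := (Finset.mem_filter.1 hi').2
      rw [ih i' h3 (h3.trans hij), mul_zero]
    rw [h2, add_zero] at h1
    exact (mul_eq_zero.1 h1).resolve_left (di_ne T i)

theorem GammaGW.diag_mono (T : GammaGW X t) {Y : Matrix (Fin N) (Fin N) (LaurentPolynomial ℂ)}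
    (h : ∀ p j, p < j → T.gM Y p j = 0) (hdet : IsUnit Y.det) (α : Fin N → ℝ)
    (hα : ∀ j, ∀ n ∈ (T.gM Y j j).coeff.support,
      α j - 1 / 4 ≤ n ∧ (n : ℝ) ≤ α j + T.pl j + 1 / 4) :
    ∃ (m : Fin N → ℤ) (κ : Fin N → ℂ), ∀ j, κ j ≠ 0 ∧
      Y j j = LaurentPolynomial.C (κ j) * LaurentPolynomial.T (m j) ∧
        |(m j : ℝ) - α j| ≤ 1 / 4 := by
  have hlow := T.low_tri h
  have hdet2 : Y.det = ∏ i, Y i i := Matrix.det_of_lowerTriangular Y (by
    intro i j hij
    exact hlow i j hij)
  have hex : ∀ j, ∃ (m : ℤ) (κ : ℂ), κ ≠ 0 ∧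
      Y j j = LaurentPolynomial.C κ * LaurentPolynomial.T m ∧ |(m : ℝ) - α j| ≤ 1 / 4 := by
    intro j
    have hY : Y j j ≠ 0 := by
      rw [hdet2] at hdet
      have h1 := hdet.ne_zero
      exact Finset.prod_ne_zero_iff.1 h1 j (Finset.mem_univ j)
    have hg : T.gM Y j j = toC (T.B j j) * Y j j := by
      rw [di_gM]
      have h2 : ∑ i ∈ Finset.univ.filter (fun i => i < j), toC (T.B i j) * Y i j = 0 := by
        apply Finset.sum_eq_zero
        intro i hi
        rw [hlow i j (Finset.mem_filter.1 hi).2, mul_zero]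
      rw [h2, add_zero]
    obtain ⟨d1, d2, d3⟩ := di_diag T j
    refine div_mono d1 d2 d3 hY fun n hn => ?_
    rw [← hg] at hn
    exact hα j n hn
  choose m κ hmk using hex
  exact ⟨m, κ, hmk⟩

theorem GammaGW.int_cols (T : GammaGW X t) {Y : Matrix (Fin N) (Fin N) (LaurentPolynomial ℂ)}
    (h : ∀ p j, p < j → T.gM Y p j = 0) (m : Fin N → ℤ) (κ : Fin N → ℂ) (hκ : ∀ j, κ j ≠ 0)
    (hd : ∀ j, Y j j = LaurentPolynomial.C (κ j) * LaurentPolynomial.T (m j))
    (a : Fin N → Fin N → ℤ)
    (ha : ∀ p j, j < p → ∀ n ∈ (T.gM Y p j).coeff.support, a p j ≤ n ∧ n < a p j + T.pl p) :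
    ∃ x : Matrix (Fin N) (Fin N) (LaurentPolynomial ℤ),
      (∀ i j, Y i j = LaurentPolynomial.C (κ j) * toC (x i j)) ∧ (∀ i j, i < j → x i j = 0) ∧
      (∀ j, x j j = LaurentPolynomial.T (m j)) ∧
      ∀ p j, j < p → ∀ n ∈ (∑ i, T.B i p * x i j).coeff.support,
        a p j ≤ n ∧ n < a p j + T.pl p := by
  have hlow := T.low_tri h
  have hex : ∀ p j : Fin N, ∃ z : LaurentPolynomial ℤ, Y p j = LaurentPolynomial.C (κ j) * toC z := by
    intro p j
    induction p using WellFoundedLT.induction with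
    | ind p ih =>
      rcases lt_trichotomy p j with hpj | hpj | hpj
      · exact ⟨0, by rw [hlow p j hpj, map_zero, mul_zero]⟩
      · subst hpj
        exact ⟨LaurentPolynomial.T (m p), by rw [hd p, di_toC_T]⟩
      · have hch : ∀ i : Fin N, ∃ z : LaurentPolynomial ℤ,
            i < p → Y i j = LaurentPolynomial.C (κ j) * toC z := by
          intro i
          by_cases hi : i < p
          · obtain ⟨z, hz⟩ := ih i hi
            exact ⟨z, fun _ => hz⟩
          · exact ⟨0, fun h' => absurd h' hi⟩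
        choose z hz using hch
        obtain ⟨r, hr⟩ : ∃ r, r = ∑ i ∈ Finset.univ.filter (fun i => i < p), T.B i p * z i := ⟨_, rfl⟩
        have hB := prod_coeff (T.wt p)
        rw [← T.B_diag p] at hB
        obtain ⟨x, hx⟩ := div_exists (ℓ := T.pl p) hB.1 hB.2.1 hB.2.2 r (a p j)
        refine ⟨x, ?_⟩
        have hg : T.gM Y p j = toC (T.B p p) * Y p j + LaurentPolynomial.C (κ j) * toC r := by
          rw [di_gM, hr, map_sum, Finset.mul_sum]
          congr 1
          apply Finset.sum_congr rfl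
          intro i hi
          rw [hz i (Finset.mem_filter.1 hi).2, map_mul]
          ring
        obtain ⟨d1, d2, d3⟩ := di_diag T p
        have hkey : Y p j - LaurentPolynomial.C (κ j) * toC x = 0 := by
          refine div_unique (a := a p j) d1 d2 d3 fun n hn => ?_
          have e : toC (T.B p p) * (Y p j - LaurentPolynomial.C (κ j) * toC x) =
              T.gM Y p j - LaurentPolynomial.C (κ j) * toC (T.B p p * x + r) := by
            rw [hg, map_add, map_mul]
            ring
          rw [e] at hn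
          rw [Finsupp.mem_support_iff] at hn
          have hn2 : (T.gM Y p j).coeff n - (LaurentPolynomial.C (κ j) * toC (T.B p p * x + r)).coeff n ≠ 0 := hn
          by_cases h1 : (T.gM Y p j).coeff n = 0
          · apply hx n
            rw [Finsupp.mem_support_iff]
            intro h2
            apply hn2
            rw [h1, di_C_coeff, coeff_toC, h2]
            simp
          · exact ha p j hpj n (Finsupp.mem_support_iff.2 h1)
        exact sub_eq_zero.1 hkey
  choose x hx using hex
  refine ⟨x, hx, fun i j hij => ?_, fun j => ?_, fun p j hpj n hn => ?_⟩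
  · have h1 := hx i j
    rw [hlow i j hij] at h1
    exact di_toC_zero (di_C_zero (hκ j) h1.symm)
  · have h1 := hx j j
    rw [hd j] at h1
    have h2 : LaurentPolynomial.C (κ j) * toC (x j j - LaurentPolynomial.T (m j)) = 0 := by
      rw [map_sub, mul_sub, ← h1, di_toC_T, sub_self]
    exact sub_eq_zero.1 (di_toC_zero (di_C_zero (hκ j) h2))
  · have e : T.gM Y p j = LaurentPolynomial.C (κ j) * toC (∑ i, T.B i p * x i j) := by
      have h0 : T.gM Y p j = ∑ i, toC (T.B i p) * Y i j := rfl
      rw [h0, map_sum, Finset.mul_sum]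
      apply Finset.sum_congr rfl
      intro i _
      rw [hx i j, map_mul]
      ring
    apply ha p j hpj n
    rw [Finsupp.mem_support_iff, e, di_C_coeff, coeff_toC]
    rw [Finsupp.mem_support_iff] at hn
    exact mul_ne_zero (hκ j) (by exact_mod_cast hn)

end Pool.Agent.DST
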