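import Pool.Agent.DST.DDefs

/-!
# DST-DDiv: division with remainder of Laurent polynomials
-/

open scoped BigOperators Topology
open Filter

namespace Pool.Agent.DST

private theorem coeff_mul_CT {R : Type*} [CommRing R] (f : LaurentPolynomial R) (c : R) (w n : ℤ) :
    (f * (LaurentPolynomial.C c * LaurentPolynomial.T w)).coeff n = f.coeff (n - w) * c := by
  rw [← LaurentPolynomial.single_eq_C_mul_T]
  exact AddMonoidAlgebra.coeff_mul_single_eq_coeff_mul (n - w)
    (fun m _ => by constructor <;> intro h <;> omega)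

private theorem coeff_mul_T {R : Type*} [CommRing R] (f : LaurentPolynomial R) (w n : ℤ) :
    (f * LaurentPolynomial.T w).coeff n = f.coeff (n - w) := by
  have h := coeff_mul_CT f 1 w n
  rwa [map_one, one_mul, mul_one] at h

private theorem coeff_ns {R : Type*} [CommRing R] {f : LaurentPolynomial R} {n : ℤ}
    (h : n ∉ f.coeff.support) : f.coeff n = 0 := Finsupp.notMem_support_iff.1 h

private theorem coeff_mul_eq {R : Type*} [CommRing R] (P x : LaurentPolynomial R) (n m : ℤ)
    (h : ∀ i ∈ P.coeff.support, ∀ j ∈ x.coeff.support, i + j = n → i = n - m) :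
    (P * x).coeff n = P.coeff (n - m) * x.coeff m := by
  rw [AddMonoidAlgebra.coeff_mul, Finsupp.sum, Finset.sum_eq_single (n - m)]
  · rw [Finsupp.sum, Finset.sum_eq_single m]
    · rw [if_pos (by ring)]
    · intro j _ hjm
      rw [if_neg]
      intro h2
      apply hjm
      omega
    · intro hm
      rw [Finsupp.notMem_support_iff.1 hm, mul_zero, ite_self]
  · intro i hi hin
    rw [Finsupp.sum]
    apply Finset.sum_eq_zero
    intro j hj
    rw [if_neg]
    intro h2
    exact hin (h i hi j hj h2)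
  · intro h2
    rw [Finsupp.notMem_support_iff.1 h2, Finsupp.sum]
    apply Finset.sum_eq_zero
    intro j _
    rw [zero_mul, ite_self]

private theorem extreme {R : Type*} [CommRing R] [NoZeroDivisors R] {P : LaurentPolynomial R}
    {ℓ : ℕ} (h0 : P.coeff 0 ≠ 0) (hℓ : P.coeff ℓ ≠ 0)
    (hs : ∀ m ∈ P.coeff.support, 0 ≤ m ∧ m ≤ ℓ) {x : LaurentPolynomial R} (hx : x ≠ 0) :
    ∃ m M : ℤ, m ∈ x.coeff.support ∧ M ∈ x.coeff.support ∧
      (∀ n ∈ x.coeff.support, m ≤ n ∧ n ≤ M) ∧ m ∈ (P * x).coeff.support ∧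
      M + ℓ ∈ (P * x).coeff.support := by
  have hne : x.coeff.support.Nonempty := by
    rw [Finsupp.support_nonempty_iff]
    intro h
    exact hx (AddMonoidAlgebra.coeff_eq_zero.1 h)
  obtain ⟨m, hm, hmin⟩ := x.coeff.support.exists_min_image id hne
  obtain ⟨M, hM, hmax⟩ := x.coeff.support.exists_max_image id hne
  simp only [id] at hmin hmax
  refine ⟨m, M, hm, hM, fun n hn => ⟨hmin n hn, hmax n hn⟩, ?_, ?_⟩
  · rw [Finsupp.mem_support_iff, coeff_mul_eq P x m m, sub_self]
    · exact mul_ne_zero h0 (Finsupp.mem_support_iff.1 hm)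
    · intro i hi j hj hij
      have h1 := (hs i hi).1
      have h2 := hmin j hj
      omega
  · rw [Finsupp.mem_support_iff, coeff_mul_eq P x (M + ℓ) M, add_sub_cancel_left]
    · exact mul_ne_zero hℓ (Finsupp.mem_support_iff.1 hM)
    · intro i hi j hj hij
      have h1 := (hs i hi).2
      have h2 := hmax j hj
      omega

private theorem prod_fin {d : ℕ} (w : Fin d → ℤ) (s : Finset (Fin d)) :
    (∏ k ∈ s, if 0 < w k then 1 - LaurentPolynomial.T (w k) else 1 :
      LaurentPolynomial ℤ).coeff 0 = 1 ∧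
    ((∏ k ∈ s, if 0 < w k then 1 - LaurentPolynomial.T (w k) else 1 :
        LaurentPolynomial ℤ).coeff ((∑ k ∈ s, (w k).toNat : ℕ) : ℤ) = 1 ∨
      (∏ k ∈ s, if 0 < w k then 1 - LaurentPolynomial.T (w k) else 1 :
        LaurentPolynomial ℤ).coeff ((∑ k ∈ s, (w k).toNat : ℕ) : ℤ) = -1) ∧
    ∀ m ∈ (∏ k ∈ s, if 0 < w k then 1 - LaurentPolynomial.T (w k) else 1 :
      LaurentPolynomial ℤ).coeff.support, 0 ≤ m ∧ m ≤ ((∑ k ∈ s, (w k).toNat : ℕ) : ℤ) := by
  induction s using Finset.induction_on with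
  | empty =>
    rw [Finset.prod_empty, Finset.sum_empty]
    have h1 : (1 : LaurentPolynomial ℤ).coeff 0 = 1 := by
      rw [← LaurentPolynomial.T_zero, LaurentPolynomial.T_apply, if_pos rfl]
    refine ⟨h1, Or.inl h1, fun m hm => ?_⟩
    rw [Finsupp.mem_support_iff, ← LaurentPolynomial.T_zero, LaurentPolynomial.T_apply] at hm
    have h2 : (0 : ℤ) = m := by
      by_contra h2
      exact hm (if_neg h2)
    subst h2
    exact ⟨le_refl _, le_refl _⟩
  | insert a s ha ih =>
    rw [Finset.prod_insert ha, Finset.sum_insert ha]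
    by_cases hw : 0 < w a
    · rw [if_pos hw]
      generalize (∏ k ∈ s, if 0 < w k then 1 - LaurentPolynomial.T (w k) else 1 :
        LaurentPolynomial ℤ) = Q at ih ⊢
      generalize (∑ k ∈ s, (w k).toNat) = L at ih ⊢
      obtain ⟨i1, i2, i3⟩ := ih
      have hc : ∀ n : ℤ, ((1 - LaurentPolynomial.T (w a)) * Q).coeff n =
          Q.coeff n - Q.coeff (n - w a) := by
        intro n
        have e : (1 - LaurentPolynomial.T (w a)) * Q = Q - Q * LaurentPolynomial.T (w a) := by
          ring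
        have e2 : (Q - Q * LaurentPolynomial.T (w a)).coeff n =
          Q.coeff n - (Q * LaurentPolynomial.T (w a)).coeff n := rfl
        rw [e, e2, coeff_mul_T]
      have hL : (((w a).toNat + L : ℕ) : ℤ) = w a + L := by
        rw [Nat.cast_add, Int.toNat_of_nonneg hw.le]
      rw [hL]
      refine ⟨?_, ?_, ?_⟩
      · rw [hc, i1, coeff_ns, sub_zero]
        intro h
        have := (i3 _ h).1
        omega
      · rw [hc, coeff_ns (f := Q) (n := w a + L), add_sub_cancel_left]
        · rcases i2 with h | h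
          · right
            rw [h]
            norm_num
          · left
            rw [h]
            norm_num
        · intro h
          have := (i3 _ h).2
          omega
      · intro m hm
        rw [Finsupp.mem_support_iff, hc] at hm
        by_cases h1 : m ∈ Q.coeff.support
        · have := i3 _ h1
          omega
        · by_cases h2 : m - w a ∈ Q.coeff.support
          · have := i3 _ h2
            omega
          · rw [coeff_ns h1, coeff_ns h2, sub_zero] at hm
            exact absurd rfl hm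
    · rw [if_neg hw, one_mul, Int.toNat_of_nonpos (not_lt.1 hw), zero_add]
      exact ih

theorem prod_coeff {d : ℕ} (w : Fin d → ℤ) :
    (∏ k, if 0 < w k then 1 - LaurentPolynomial.T (w k) else 1 : LaurentPolynomial ℤ).coeff 0 = 1 ∧
    ((∏ k, if 0 < w k then 1 - LaurentPolynomial.T (w k) else 1 : LaurentPolynomial ℤ).coeff
        ((∑ k, (w k).toNat : ℕ) : ℤ) = 1 ∨
      (∏ k, if 0 < w k then 1 - LaurentPolynomial.T (w k) else 1 : LaurentPolynomial ℤ).coeff
        ((∑ k, (w k).toNat : ℕ) : ℤ) = -1) ∧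
    ∀ m ∈ (∏ k, if 0 < w k then 1 - LaurentPolynomial.T (w k) else 1 :
      LaurentPolynomial ℤ).coeff.support, 0 ≤ m ∧ m ≤ ((∑ k, (w k).toNat : ℕ) : ℤ) :=
  prod_fin w Finset.univ

private theorem div_ind {P : LaurentPolynomial ℤ} {ℓ : ℕ} (h0 : P.coeff 0 = 1)
    (hℓ : P.coeff ℓ = 1 ∨ P.coeff ℓ = -1) (hs : ∀ m ∈ P.coeff.support, 0 ≤ m ∧ m ≤ ℓ)
    (hℓ1 : 1 ≤ ℓ) (a : ℤ) : ∀ (K k k' : ℕ), k + k' = K → ∀ r : LaurentPolynomial ℤ,
      (∀ n ∈ r.coeff.support, a - k ≤ n ∧ n < a + ℓ + k') →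
      ∃ x, ∀ n ∈ (P * x + r).coeff.support, a ≤ n ∧ n < a + ℓ := by
  have hP : ∀ n : ℤ, n < 0 ∨ (ℓ : ℤ) < n → P.coeff n = 0 := by
    intro n hn
    apply coeff_ns
    intro h
    have := hs n h
    omega
  -- one step
  have hstep : ∀ (r : LaurentPolynomial ℤ) (c : ℤ) (w : ℤ) (Q : ℤ → Prop),
      (∃ x, ∀ n ∈ (P * x + (r - P * (LaurentPolynomial.C c * LaurentPolynomial.T w))).coeff.support,
        Q n) → ∃ x, ∀ n ∈ (P * x + r).coeff.support, Q n := by
    rintro r c w Q ⟨x, hx⟩
    refine ⟨x - LaurentPolynomial.C c * LaurentPolynomial.T w, ?_⟩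
    have e : P * (x - LaurentPolynomial.C c * LaurentPolynomial.T w) + r =
        P * x + (r - P * (LaurentPolynomial.C c * LaurentPolynomial.T w)) := by ring
    rw [e]
    exact hx
  have hco : ∀ (r : LaurentPolynomial ℤ) (c w n : ℤ),
      (r - P * (LaurentPolynomial.C c * LaurentPolynomial.T w)).coeff n =
        r.coeff n - P.coeff (n - w) * c := by
    intro r c w n
    have e2 : (r - P * (LaurentPolynomial.C c * LaurentPolynomial.T w)).coeff n =
      r.coeff n - (P * (LaurentPolynomial.C c * LaurentPolynomial.T w)).coeff n := rfl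
    rw [e2, coeff_mul_CT]
  intro K
  induction K with
  | zero =>
    intro k k' hK r hr
    refine ⟨0, fun n hn => ?_⟩
    rw [mul_zero, zero_add] at hn
    have := hr n hn
    omega
  | succ K ih =>
    intro k k' hK r hr
    have hr0 : ∀ n : ℤ, n < a - k ∨ a + ℓ + k' ≤ n → r.coeff n = 0 := by
      intro n hn
      apply coeff_ns
      intro h
      have := hr n h
      omega
    rcases Nat.eq_zero_or_pos k with hk | hk
    · have hk' : 1 ≤ k' := by omega
      obtain ⟨ε, hε, hεε⟩ : ∃ ε : ℤ, P.coeff ℓ = ε ∧ ε * ε = 1 := by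
        rcases hℓ with h | h
        · exact ⟨1, h, by norm_num⟩
        · exact ⟨-1, h, by norm_num⟩
      apply hstep r (ε * r.coeff (a + ℓ + k' - 1)) (a + k' - 1)
      apply ih k (k' - 1) (by omega)
      intro n hn
      rw [Finsupp.mem_support_iff, hco] at hn
      by_contra hcon
      apply hn
      have h3 : n < a - k ∨ n = a + ℓ + k' - 1 ∨ a + ℓ + k' ≤ n := by
        have h4 : ((k' - 1 : ℕ) : ℤ) = (k' : ℤ) - 1 := by
          rw [Nat.cast_sub hk']
          norm_num
        rw [h4] at hcon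
        omega
      rcases h3 with h3 | h3 | h3
      · rw [hr0 n (Or.inl h3), hP _ (Or.inl (by omega)), zero_mul, sub_zero]
      · rw [h3, show a + ℓ + k' - 1 - (a + k' - 1) = (ℓ : ℤ) by ring, hε, ← mul_assoc, hεε,
          one_mul, sub_self]
      · rw [hr0 n (Or.inr h3), hP _ (Or.inr (by omega)), zero_mul, sub_zero]
    · apply hstep r (r.coeff (a - k)) (a - k)
      apply ih (k - 1) k' (by omega)
      intro n hn
      rw [Finsupp.mem_support_iff, hco] at hn
      by_contra hcon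
      apply hn
      have h3 : n < a - k ∨ n = a - k ∨ a + ℓ + k' ≤ n := by
        have h4 : ((k - 1 : ℕ) : ℤ) = (k : ℤ) - 1 := by
          rw [Nat.cast_sub hk]
          norm_num
        rw [h4] at hcon
        omega
      rcases h3 with h3 | h3 | h3
      · rw [hr0 n (Or.inl h3), hP _ (Or.inl (by omega)), zero_mul, sub_zero]
      · rw [h3, sub_self, h0, one_mul, sub_self]
      · rw [hr0 n (Or.inr h3), hP _ (Or.inr (by omega)), zero_mul, sub_zero]

theorem div_exists {P : LaurentPolynomial ℤ} {ℓ : ℕ} (h0 : P.coeff 0 = 1)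
    (hℓ : P.coeff ℓ = 1 ∨ P.coeff ℓ = -1) (hs : ∀ m ∈ P.coeff.support, 0 ≤ m ∧ m ≤ ℓ)
    (r : LaurentPolynomial ℤ) (a : ℤ) :
    ∃ x, ∀ n ∈ (P * x + r).coeff.support, a ≤ n ∧ n < a + ℓ := by
  rcases Nat.eq_zero_or_pos ℓ with h | h
  · have hP1 : P = 1 := by
      apply LaurentPolynomial.ext
      intro n
      rw [← LaurentPolynomial.T_zero, LaurentPolynomial.T_apply]
      by_cases hn : (0 : ℤ) = n
      · rw [if_pos hn, ← hn, h0]
      · rw [if_neg hn]
        apply coeff_ns
        intro h1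
        have := hs n h1
        omega
    refine ⟨-r, fun n hn => ?_⟩
    rw [hP1, one_mul, neg_add_cancel] at hn
    exact absurd rfl (Finsupp.mem_support_iff.1 hn)
  · refine div_ind h0 hℓ hs h a _ (r.coeff.support.sup Int.natAbs + a.natAbs)
      (r.coeff.support.sup Int.natAbs + a.natAbs + 1) rfl r fun n hn => ?_
    have h1 : n.natAbs ≤ r.coeff.support.sup Int.natAbs := Finset.le_sup hn
    omega

theorem div_unique {P : LaurentPolynomial ℂ} {ℓ : ℕ} (h0 : P.coeff 0 ≠ 0)
    (hℓ : P.coeff ℓ ≠ 0) (hs : ∀ m ∈ P.coeff.support, 0 ≤ m ∧ m ≤ ℓ)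
    {x : LaurentPolynomial ℂ} {a : ℤ} (hx : ∀ n ∈ (P * x).coeff.support, a ≤ n ∧ n < a + ℓ) :
    x = 0 := by
  by_contra hx0
  obtain ⟨m, M, hm, hM, hmM, h1, h2⟩ := extreme h0 hℓ hs hx0
  have h3 := hx _ h1
  have h4 := hx _ h2
  have h5 := hmM m hm
  omega

theorem div_mono {P : LaurentPolynomial ℂ} {ℓ : ℕ} (h0 : P.coeff 0 ≠ 0)
    (hℓ : P.coeff ℓ ≠ 0) (hs : ∀ m ∈ P.coeff.support, 0 ≤ m ∧ m ≤ ℓ)
    {x : LaurentPolynomial ℂ} (hx0 : x ≠ 0) {α : ℝ}
    (hx : ∀ n ∈ (P * x).coeff.support, α - 1 / 4 ≤ n ∧ (n : ℝ) ≤ α + ℓ + 1 / 4) :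
    ∃ (m : ℤ) (κ : ℂ), κ ≠ 0 ∧ x = LaurentPolynomial.C κ * LaurentPolynomial.T m ∧
      |(m : ℝ) - α| ≤ 1 / 4 := by
  obtain ⟨m, M, hm, hM, hmM, h1, h2⟩ := extreme h0 hℓ hs hx0
  have h3 := (hx _ h1).1
  have h4 := (hx _ h2).2
  push_cast at h4
  have h5 : m ≤ M := (hmM m hm).2
  have h6 : (M : ℝ) < m + 1 := by linarith
  have h7 : M = m := by
    have : M < m + 1 := by exact_mod_cast h6
    omega
  subst h7
  refine ⟨M, x.coeff M, Finsupp.mem_support_iff.1 hm, ?_, ?_⟩
  · apply LaurentPolynomial.ext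
    intro n
    rw [← LaurentPolynomial.single_eq_C_mul_T, AddMonoidAlgebra.coeff_single_apply]
    by_cases hn : M = n
    · rw [if_pos hn, hn]
    · rw [if_neg hn]
      apply coeff_ns
      intro h
      have := hmM n h
      omega
  · rw [abs_le]
    constructor <;> linarith

end Pool.Agent.DST
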