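import Pool.Agent.DST.DLau
import Pool.Agent.DST.DDiv

/-!
# DST-DKap: the self-pairing of the classes with small windows tends to `1` as `q → 0`
-/

open scoped BigOperators Topology
open Filter

namespace Pool.Agent.DST

open Pool.Agent.Helper18.Dub Pool.Agent.Helper7.DubStokes Pool.Agent.SHF

variable {N : ℕ} {X : FanoGW (Fin N)} {t : Fin N → ℂ}

private theorem kap_swap {N : ℕ} (xm xp : Fin N → ℂ) (Bm Bp : Fin N → Fin N → ℂ) (D : Fin N → ℂ) :
    ∑ i', (∑ i, xm i * ∑ p, Bm i p * Bp i' p / D p) * xp i' =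
      ∑ p, (∑ i, Bm i p * xm i) * (∑ i', Bp i' p * xp i') / D p := by
  have e1 : ∀ i', (∑ i, xm i * ∑ p, Bm i p * Bp i' p / D p) * xp i' =
      ∑ p, ∑ i, (Bm i p * xm i) * (Bp i' p * xp i') / D p := by
    intro i'
    rw [Finset.sum_comm, Finset.sum_mul]
    refine Finset.sum_congr rfl fun i _ => ?_
    rw [Finset.mul_sum, Finset.sum_mul]
    refine Finset.sum_congr rfl fun p _ => ?_
    ring
  simp only [e1]
  rw [Finset.sum_comm]
  refine Finset.sum_congr rfl fun p _ => ?_
  rw [Finset.sum_mul_sum, Finset.sum_div, Finset.sum_comm]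
  refine Finset.sum_congr rfl fun i _ => ?_
  rw [Finset.sum_div]

private theorem kap_supp {f : LaurentPolynomial ℤ} {n : ℤ} (h : n ∈ (toC f).coeff.support) :
    n ∈ f.coeff.support := by
  rw [Finsupp.mem_support_iff, coeff_toC] at h
  rw [Finsupp.mem_support_iff]
  exact fun h0 => h (by rw [h0]; simp)

private theorem kap_norm (n : ℤ) (τ : ℝ) :
    ‖Complex.exp (2 * Real.pi * Complex.I * n * (τ * Complex.I))‖ = Real.exp (-(2 * Real.pi * n) * τ) := by
  rw [Complex.norm_exp]
  congr 1
  have e : (2 * Real.pi * Complex.I * n * (τ * Complex.I) : ℂ) = ((-(2 * Real.pi * n) * τ : ℝ) : ℂ) := by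
    push_cast
    linear_combination (2 * (Real.pi : ℂ) * n * τ) * Complex.I_mul_I
  rw [e, Complex.ofReal_re]

private theorem kap_upper (f : LaurentPolynomial ℤ) {m : ℤ} (h : ∀ n ∈ f.coeff.support, m ≤ n) :
    ∃ C : ℝ, 0 ≤ C ∧ ∀ τ : ℝ, 0 ≤ τ → ‖evZ (τ * Complex.I) f‖ ≤ C * Real.exp (-(2 * Real.pi * m) * τ) := by
  refine ⟨∑ n ∈ (toC f).coeff.support, ‖(toC f).coeff n‖, Finset.sum_nonneg fun _ _ => norm_nonneg _,
    fun τ hτ => ?_⟩
  rw [← evq_toC, evq_sum, Finset.sum_mul]
  refine (norm_sum_le _ _).trans (Finset.sum_le_sum fun n hn => ?_)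
  rw [norm_mul, kap_norm]
  refine mul_le_mul_of_nonneg_left (Real.exp_le_exp.2 ?_) (norm_nonneg _)
  have h1 : (m : ℝ) ≤ n := by exact_mod_cast h n (kap_supp hn)
  have h2 : 2 * Real.pi * m ≤ 2 * Real.pi * n := mul_le_mul_of_nonneg_left h1 (by positivity)
  exact mul_le_mul_of_nonneg_right (neg_le_neg h2) hτ

private theorem kap_lower (f : LaurentPolynomial ℤ) {M : ℤ} (h : ∀ n ∈ f.coeff.support, n ≤ M) :
    ∃ C : ℝ, 0 ≤ C ∧ ∀ τ : ℝ, 0 ≤ τ → ‖evZ (-(τ * Complex.I)) f‖ ≤ C * Real.exp (2 * Real.pi * M * τ) := by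
  refine ⟨∑ n ∈ (toC f).coeff.support, ‖(toC f).coeff n‖, Finset.sum_nonneg fun _ _ => norm_nonneg _,
    fun τ hτ => ?_⟩
  rw [← evq_toC, evq_sum, Finset.sum_mul]
  refine (norm_sum_le _ _).trans (Finset.sum_le_sum fun n hn => ?_)
  have e : (-(τ * Complex.I) : ℂ) = ((-τ : ℝ) : ℂ) * Complex.I := by push_cast; ring
  rw [norm_mul, e, kap_norm]
  refine mul_le_mul_of_nonneg_left (Real.exp_le_exp.2 ?_) (norm_nonneg _)
  have h1 : (n : ℝ) ≤ M := by exact_mod_cast h n (kap_supp hn)
  have h2 : 2 * Real.pi * n ≤ 2 * Real.pi * M := mul_le_mul_of_nonneg_left h1 (by positivity)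
  calc -(2 * Real.pi * n) * -τ = 2 * Real.pi * n * τ := by ring
    _ ≤ 2 * Real.pi * M * τ := mul_le_mul_of_nonneg_right h2 hτ

private theorem kap_T (n : ℤ) (y : ℂ) : evZ y (LaurentPolynomial.T n) =
    Complex.exp (2 * Real.pi * Complex.I * n * y) := by
  have h1 : evZ y (LaurentPolynomial.T n) = evq y (toC (LaurentPolynomial.T n)) := (evq_toC y _).symm
  rw [h1, evq_sum]
  have h2 : ∀ k : ℤ, (toC (LaurentPolynomial.T n)).coeff k = if n = k then 1 else 0 := by
    intro k
    rw [coeff_toC]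
    have h3 : (LaurentPolynomial.T n : LaurentPolynomial ℤ) = LaurentPolynomial.C 1 * LaurentPolynomial.T n := by
      simp
    rw [h3, ← LaurentPolynomial.single_eq_C_mul_T, AddMonoidAlgebra.coeff_single, Finsupp.single_apply]
    split_ifs <;> simp
  have h3 : (toC (LaurentPolynomial.T n)).coeff.support = {n} := by
    ext k
    rw [Finsupp.mem_support_iff, h2, Finset.mem_singleton]
    constructor
    · intro h
      by_contra hne
      exact h (if_neg fun e => hne e.symm)
    · rintro rfl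
      rw [if_pos rfl]
      exact one_ne_zero
  rw [h3, Finset.sum_singleton, h2, if_pos rfl, one_mul]

/-- real form of the factors of the denominator -/
private theorem kap_den (w : ℤ) (τ : ℝ) :
    (1 - Complex.exp (-(2 * Real.pi * Complex.I * (τ * Complex.I) * w)) : ℂ) =
      ((1 - Real.exp (2 * Real.pi * w * τ) : ℝ) : ℂ) := by
  push_cast
  congr 2
  linear_combination -(2 * (Real.pi : ℂ) * w * τ) * Complex.I_mul_I

private theorem kap_den_low {w : ℤ} (hw : w ≠ 0) {τ : ℝ} (hτ : 2 ≤ Real.exp (2 * Real.pi * τ)) (h0 : 0 ≤ τ) :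
    Real.exp (2 * Real.pi * (w.toNat : ℝ) * τ) / 2 ≤ |1 - Real.exp (2 * Real.pi * w * τ)| := by
  rcases lt_or_gt_of_ne hw with h | h
  · have h1 : (w.toNat : ℝ) = 0 := by
      have : w.toNat = 0 := Int.toNat_of_nonpos h.le
      rw [this]; simp
    rw [h1, mul_zero, zero_mul, Real.exp_zero]
    have h2 : Real.exp (2 * Real.pi * w * τ) ≤ 1 / 2 := by
      have h3 : (w : ℝ) ≤ -1 := by exact_mod_cast (by omega : w ≤ -1)
      have h4 : 2 * Real.pi * w * τ ≤ -(2 * Real.pi * τ) := by
        have : 2 * Real.pi * τ * w ≤ 2 * Real.pi * τ * (-1) := mul_le_mul_of_nonneg_left h3 (by positivity)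
        linarith
      calc Real.exp (2 * Real.pi * w * τ) ≤ Real.exp (-(2 * Real.pi * τ)) := Real.exp_le_exp.2 h4
        _ = (Real.exp (2 * Real.pi * τ))⁻¹ := Real.exp_neg _
        _ ≤ (2 : ℝ)⁻¹ := inv_anti₀ (by norm_num) hτ
        _ = 1 / 2 := by norm_num
    rw [abs_of_nonneg (by linarith)]
    linarith
  · have h1 : (w.toNat : ℝ) = w := by
      have : ((w.toNat : ℕ) : ℤ) = w := Int.toNat_of_nonneg h.le
      exact_mod_cast this
    rw [h1]
    have h2 : 2 ≤ Real.exp (2 * Real.pi * w * τ) := by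
      refine hτ.trans (Real.exp_le_exp.2 ?_)
      have h3 : (1 : ℝ) ≤ w := by exact_mod_cast (by omega : 1 ≤ w)
      have : 2 * Real.pi * τ * 1 ≤ 2 * Real.pi * τ * w := mul_le_mul_of_nonneg_left h3 (by positivity)
      linarith
    rw [abs_of_nonpos (by linarith)]
    linarith

/-- real form of the factors of the numerator -/
private theorem kap_num (w : ℤ) (τ : ℝ) :
    evZ (τ * Complex.I) (1 - LaurentPolynomial.T w) = ((1 - Real.exp (-(2 * Real.pi * w) * τ) : ℝ) : ℂ) := by
  rw [map_sub, map_one, kap_T]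
  push_cast
  congr 2
  linear_combination (2 * (Real.pi : ℂ) * w * τ) * Complex.I_mul_I

private theorem kap_num' (w : ℤ) (τ : ℝ) :
    evZ (-(τ * Complex.I)) (1 - LaurentPolynomial.T w) = ((1 - Real.exp (2 * Real.pi * w * τ) : ℝ) : ℂ) := by
  have e : (-(τ * Complex.I) : ℂ) = ((-τ : ℝ) : ℂ) * Complex.I := by push_cast; ring
  rw [e, kap_num]
  congr 3
  ring

private theorem kap_exp_lim {c : ℝ} (hc : c < 0) : Tendsto (fun τ : ℝ => Real.exp (c * τ)) atTop (𝓝 0) :=
  Real.tendsto_exp_atBot.comp (tendsto_id.const_mul_atTop_of_neg hc)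

private theorem kap_prod {d : ℕ} {w : Fin d → ℤ} (hw : ∀ k, w k ≠ 0) {τ : ℝ}
    (hτ : 2 ≤ Real.exp (2 * Real.pi * τ)) (h0 : 0 ≤ τ) :
    Real.exp (2 * Real.pi * (∑ k, (w k).toNat : ℕ) * τ) / 2 ^ d ≤
      ‖∏ k, ((1 - Real.exp (2 * Real.pi * w k * τ) : ℝ) : ℂ)‖ := by
  rw [norm_prod]
  have h1 : Real.exp (2 * Real.pi * (∑ k, (w k).toNat : ℕ) * τ) / 2 ^ d =
      ∏ k : Fin d, Real.exp (2 * Real.pi * ((w k).toNat : ℝ) * τ) / 2 := by
    rw [Finset.prod_div_distrib, Finset.prod_const, Finset.card_univ, Fintype.card_fin,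
      ← Real.exp_sum]
    congr 2
    push_cast
    rw [Finset.mul_sum, Finset.sum_mul]
  rw [h1]
  refine Finset.prod_le_prod (fun k _ => by positivity) fun k _ => ?_
  rw [Complex.norm_real, Real.norm_eq_abs]
  exact kap_den_low (hw k) hτ h0

theorem GammaGW.kap (T : GammaGW X t) {x : Matrix (Fin N) (Fin N) (LaurentPolynomial ℤ)}
    {m : Fin N → ℤ} {a : Fin N → Fin N → ℤ} (hlow : ∀ i j, i < j → x i j = 0)
    (hd : ∀ j, x j j = LaurentPolynomial.T (m j))
    (hw : ∀ p j, j < p → ∀ n ∈ (∑ i, T.B i p * x i j).coeff.support,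
      a p j ≤ n ∧ n < a p j + T.pl p) (j : Fin N) :
    Tendsto (fun τ : ℝ => ((x.map (evZ (-(τ * Complex.I)))).transpose *
      T.χ.map (evZ (τ * Complex.I)) * x.map (evZ (τ * Complex.I))) j j) atTop (𝓝 1) := by
  have key : ∀ τ : ℝ, 0 < τ → ((x.map (evZ (-(τ * Complex.I)))).transpose *
      T.χ.map (evZ (τ * Complex.I)) * x.map (evZ (τ * Complex.I))) j j =
      ∑ p, evZ (-(τ * Complex.I)) (∑ i, T.B i p * x i j) *
        evZ (τ * Complex.I) (∑ i, T.B i p * x i j) /
        ∏ k, ((1 - Real.exp (2 * Real.pi * T.wt p k * τ) : ℝ) : ℂ) := by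
    intro τ hτ
    have him : ((τ : ℂ) * Complex.I).im ≠ 0 := by simp [hτ.ne']
    simp only [Matrix.mul_apply, Matrix.transpose_apply, Matrix.map_apply]
    simp only [T.χ_loc _ him, kap_den]
    rw [kap_swap (fun i => evZ (-(τ * Complex.I)) (x i j)) (fun i => evZ (τ * Complex.I) (x i j))
      (fun i p => evZ (-(τ * Complex.I)) (T.B i p)) (fun i p => evZ (τ * Complex.I) (T.B i p))
      (fun p => ∏ k, ((1 - Real.exp (2 * Real.pi * T.wt p k * τ) : ℝ) : ℂ))]
    refine Finset.sum_congr rfl fun p _ => ?_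
    simp only [map_sum, map_mul]
  have hsum : Tendsto (fun τ : ℝ => ∑ p, evZ (-(τ * Complex.I)) (∑ i, T.B i p * x i j) *
        evZ (τ * Complex.I) (∑ i, T.B i p * x i j) /
        ∏ k, ((1 - Real.exp (2 * Real.pi * T.wt p k * τ) : ℝ) : ℂ)) atTop
      (𝓝 (∑ p, if p = j then 1 else 0)) := by
    refine tendsto_finsetSum _ fun p _ => ?_
    rcases lt_trichotomy p j with h | h | h
    · have hb : ∑ i, T.B i p * x i j = 0 := by
        refine Finset.sum_eq_zero fun i _ => ?_
        rcases le_or_gt i p with h1 | h1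
        · rw [hlow i j (lt_of_le_of_lt h1 h), mul_zero]
        · rw [T.B_tri i p h1, zero_mul]
      rw [if_neg h.ne]
      simp only [hb, map_zero, mul_zero, zero_div]
      exact tendsto_const_nhds
    · subst h
      have hb : ∑ i, T.B i p * x i p = T.B p p * LaurentPolynomial.T (m p) := by
        rw [Finset.sum_eq_single p, hd]
        · intro i _ hi
          rcases lt_or_gt_of_ne hi with h1 | h1
          · rw [hlow i p h1, mul_zero]
          · rw [T.B_tri i p h1, zero_mul]
        · intro h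
          exact absurd (Finset.mem_univ _) h
      rw [if_pos rfl, hb]
      have e : ∀ τ : ℝ, 0 < τ → evZ (-(τ * Complex.I)) (T.B p p * LaurentPolynomial.T (m p)) *
          evZ (τ * Complex.I) (T.B p p * LaurentPolynomial.T (m p)) /
          ∏ k, ((1 - Real.exp (2 * Real.pi * T.wt p k * τ) : ℝ) : ℂ) =
          ((∏ k, if 0 < T.wt p k then 1 - Real.exp (-(2 * Real.pi * T.wt p k) * τ) else
            (1 - Real.exp (2 * Real.pi * T.wt p k * τ))⁻¹ : ℝ) : ℂ) := by
        intro τ hτ
        have h1 : evZ (-(τ * Complex.I)) (LaurentPolynomial.T (m p)) *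
            evZ (τ * Complex.I) (LaurentPolynomial.T (m p)) = 1 := by
          rw [kap_T, kap_T, ← Complex.exp_add]
          rw [show (2 * Real.pi * Complex.I * (m p) * -(τ * Complex.I) +
            2 * Real.pi * Complex.I * (m p) * (τ * Complex.I) : ℂ) = 0 by ring, Complex.exp_zero]
        have h2 : evZ (τ * Complex.I) (T.B p p) = ∏ k, if 0 < T.wt p k then
            ((1 - Real.exp (-(2 * Real.pi * T.wt p k) * τ) : ℝ) : ℂ) else 1 := by
          rw [T.B_diag, map_prod]
          refine Finset.prod_congr rfl fun k _ => ?_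
          split_ifs with hk
          · exact kap_num _ _
          · exact map_one _
        have h3 : evZ (-(τ * Complex.I)) (T.B p p) = ∏ k, if 0 < T.wt p k then
            ((1 - Real.exp (2 * Real.pi * T.wt p k * τ) : ℝ) : ℂ) else 1 := by
          rw [T.B_diag, map_prod]
          refine Finset.prod_congr rfl fun k _ => ?_
          split_ifs with hk
          · exact kap_num' _ _
          · exact map_one _
        rw [map_mul, map_mul, mul_mul_mul_comm, h1, mul_one, h2, h3, ← Finset.prod_mul_distrib,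
          ← Finset.prod_div_distrib, Complex.ofReal_prod]
        refine Finset.prod_congr rfl fun k _ => ?_
        have hne : ((1 - Real.exp (2 * Real.pi * T.wt p k * τ) : ℝ) : ℂ) ≠ 0 := by
          rw [Complex.ofReal_ne_zero, sub_ne_zero]
          intro h4
          have h5 := (Real.exp_eq_one_iff _).1 h4.symm
          have h6 : (T.wt p k : ℝ) ≠ 0 := by exact_mod_cast T.wt_ne p k
          have h7 : 2 * Real.pi * T.wt p k * τ ≠ 0 := by
            have := Real.pi_pos
            positivity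
          exact h7 h5
        split_ifs with hk
        · rw [mul_comm, mul_div_assoc, div_self hne, mul_one]
        · rw [one_mul, one_div, Complex.ofReal_inv]
      refine Tendsto.congr' (f₁ := fun τ : ℝ => ((∏ k, if 0 < T.wt p k then
        1 - Real.exp (-(2 * Real.pi * T.wt p k) * τ) else
            (1 - Real.exp (2 * Real.pi * T.wt p k * τ))⁻¹ : ℝ) : ℂ)) ?_ ?_
      · filter_upwards [eventually_gt_atTop 0] with τ hτ
        exact (e τ hτ).symm
      · have h1 : (1 : ℂ) = ((∏ k : Fin X.dim, (1 : ℝ) : ℝ) : ℂ) := by simp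
        rw [h1]
        refine (Complex.continuous_ofReal.tendsto _).comp (tendsto_finsetProd _ fun k _ => ?_)
        rcases lt_or_gt_of_ne (T.wt_ne p k) with hk | hk
        · simp only [if_neg (not_lt.2 hk.le)]
          have hk' : (T.wt p k : ℝ) < 0 := by exact_mod_cast hk
          have := (kap_exp_lim (mul_neg_of_pos_of_neg (by positivity : 0 < 2 * Real.pi) hk'))
          have h2 := (tendsto_const_nhds (x := (1 : ℝ))).sub this
          rw [sub_zero] at h2
          have h3 := h2.inv₀ one_ne_zero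
          rwa [inv_one] at h3
        · simp only [if_pos hk]
          have hk' : (0 : ℝ) < T.wt p k := by exact_mod_cast hk
          have := (kap_exp_lim (neg_neg_of_pos (mul_pos (by positivity : 0 < 2 * Real.pi) hk')))
          have h2 := (tendsto_const_nhds (x := (1 : ℝ))).sub this
          rwa [sub_zero] at h2
    · rw [if_neg h.ne']
      obtain ⟨C1, hC1, h1⟩ := kap_upper (∑ i, T.B i p * x i j) (m := a p j)
        (fun n hn => (hw p j h n hn).1)
      obtain ⟨C2, hC2, h2⟩ := kap_lower (∑ i, T.B i p * x i j) (M := a p j + T.pl p - 1)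
        (fun n hn => by have := (hw p j h n hn).2; omega)
      have hlim : Tendsto (fun τ : ℝ => C2 * C1 * 2 ^ X.dim * Real.exp (-(2 * Real.pi) * τ)) atTop
          (𝓝 0) := by
        have := (kap_exp_lim (c := -(2 * Real.pi)) (by
          have := Real.pi_pos
          linarith)).const_mul (C2 * C1 * 2 ^ X.dim)
        rwa [mul_zero] at this
      refine squeeze_zero_norm' ?_ hlim
      have hev : ∀ᶠ τ : ℝ in atTop, 2 ≤ Real.exp (2 * Real.pi * τ) := by
        have h3 : Tendsto (fun τ : ℝ => Real.exp (2 * Real.pi * τ)) atTop atTop :=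
          Real.tendsto_exp_atTop.comp (tendsto_id.const_mul_atTop (by positivity))
        exact h3.eventually_ge_atTop 2
      filter_upwards [eventually_ge_atTop 0, hev] with τ hτ hτ2
      have h3 := kap_prod (T.wt_ne p) hτ2 hτ
      have h4 := h1 τ hτ
      have h5 := h2 τ hτ
      rw [norm_div, norm_mul]
      have hpos : 0 < Real.exp (2 * Real.pi * (∑ k, (T.wt p k).toNat : ℕ) * τ) / 2 ^ X.dim := by
        positivity
      calc ‖evZ (-(τ * Complex.I)) (∑ i, T.B i p * x i j)‖ *
            ‖evZ (τ * Complex.I) (∑ i, T.B i p * x i j)‖ /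
            ‖∏ k, ((1 - Real.exp (2 * Real.pi * T.wt p k * τ) : ℝ) : ℂ)‖
          ≤ (C2 * Real.exp (2 * Real.pi * ((a p j + T.pl p - 1 : ℤ) : ℝ) * τ)) *
            (C1 * Real.exp (-(2 * Real.pi * a p j) * τ)) /
            (Real.exp (2 * Real.pi * (∑ k, (T.wt p k).toNat : ℕ) * τ) / 2 ^ X.dim) := by
            refine div_le_div₀ (by positivity) ?_ hpos h3
            exact mul_le_mul h5 h4 (norm_nonneg _) (by positivity)
        _ = C2 * C1 * 2 ^ X.dim * Real.exp (-(2 * Real.pi) * τ) := by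
            rw [div_div_eq_mul_div, div_eq_iff (Real.exp_pos _).ne']
            have e1 : Real.exp (-(2 * Real.pi) * τ) *
                Real.exp (2 * Real.pi * (∑ k, (T.wt p k).toNat : ℕ) * τ) =
                Real.exp (2 * Real.pi * ((a p j + T.pl p - 1 : ℤ) : ℝ) * τ) *
                Real.exp (-(2 * Real.pi * a p j) * τ) := by
              rw [← Real.exp_add, ← Real.exp_add]
              congr 1
              have e2 : ((∑ k, (T.wt p k).toNat : ℕ) : ℝ) = (T.pl p : ℝ) := rfl
              rw [e2]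
              push_cast
              ring
            linear_combination -(C2 * C1 * 2 ^ X.dim) * e1
  have hfin : (∑ p : Fin N, if p = j then (1 : ℂ) else 0) = 1 := by
    simp
  rw [hfin] at hsum
  refine hsum.congr' ?_
  filter_upwards [eventually_gt_atTop 0] with τ hτ
  exact (key τ hτ).symm

end Pool.Agent.DST
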