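import Pool.Agent.DST.KUniq

/-!
# Project DST, module K-Eig: uniqueness of the eigenvector data, independence of integrality

Two choices of the eigenvectors differ by a permutation, signs and integral multiples of `2πi`; the
connection matrices differ accordingly.
-/

open scoped BigOperators Topology
open Filter

namespace Pool.Agent.DST

variable {N : ℕ}

theorem eig_unique {A₀ g Ψ Ψ' : Matrix (Fin N) (Fin N) ℂ} {G G' : Fin N → ℂ} (hE : Eig A₀ g Ψ G)
    (hE' : Eig A₀ g Ψ' G') : ∃ (σ : Equiv.Perm (Fin N)) (ε : Fin N → ℤ) (k : Fin N → ℤ),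
      (∀ j, ε j * ε j = 1) ∧ (∀ i j, Ψ' i j = ε j * Ψ i (σ j)) ∧
        ∀ j, G' j = G (σ j) + 2 * Real.pi * Complex.I * k j := by
  set L := Ψ.transpose * g with hL
  set L' := Ψ'.transpose * g with hL'
  have hLΨ : L * Ψ = 1 := hE.norm
  have hΨL : Ψ * L = 1 := mul_eq_one_comm.1 hLΨ
  have hL'Ψ' : L' * Ψ' = 1 := hE'.norm
  set C := L * Ψ' with hC
  set C' := L' * Ψ with hC'
  have hΨC : Ψ * C = Ψ' := by rw [hC, ← Matrix.mul_assoc, hΨL, Matrix.one_mul]
  have hC'C : C' * C = 1 := by
    rw [hC', Matrix.mul_assoc, hΨC, hL'Ψ']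
  have hCtC : C.transpose * C = 1 := by
    have h1 := hE'.norm
    rw [← hΨC, Matrix.transpose_mul] at h1
    have h2 : C.transpose * Ψ.transpose * g * (Ψ * C) = C.transpose * (L * Ψ) * C := by
      rw [hL]
      simp only [Matrix.mul_assoc]
    rw [h2, hLΨ, Matrix.mul_one] at h1
    exact h1
  have hcomm : Matrix.diagonal (fun j => Complex.exp (G j)) * C =
      C * Matrix.diagonal fun j => Complex.exp (G' j) := by
    have h1 : Matrix.diagonal (fun j => Complex.exp (G j)) = L * (A₀ * Ψ) := by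
      rw [hE.eig, ← Matrix.mul_assoc, hLΨ, Matrix.one_mul]
    rw [h1, Matrix.mul_assoc L (A₀ * Ψ) C, Matrix.mul_assoc A₀ Ψ C, hΨC, hE'.eig,
      ← Matrix.mul_assoc]
  have hent : ∀ i j, Complex.exp (G i) * C i j = C i j * Complex.exp (G' j) := by
    intro i j
    have h1 := congrFun (congrFun hcomm i) j
    rwa [Matrix.diagonal_mul, Matrix.mul_diagonal] at h1
  have hex : ∀ j, ∃ i, C i j ≠ 0 := by
    intro j
    by_contra hcon
    push Not at hcon
    have h1 := congrFun (congrFun hC'C j) j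
    rw [Matrix.mul_apply, Matrix.one_apply_eq, Finset.sum_eq_zero] at h1
    · exact zero_ne_one h1
    · intro i _
      rw [hcon i, mul_zero]
  choose σ0 hσ0 using hex
  have hexp : ∀ i j, C i j ≠ 0 → Complex.exp (G' j) = Complex.exp (G i) := by
    intro i j hij
    have h1 := hent i j
    rw [mul_comm] at h1
    exact (mul_left_cancel₀ hij h1).symm
  have hzero : ∀ i j, i ≠ σ0 j → C i j = 0 := by
    intro i j hij
    by_contra h
    apply hij
    apply hE.inj
    change Complex.exp (G i) = Complex.exp (G (σ0 j))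
    rw [← hexp i j h, hexp (σ0 j) j (hσ0 j)]
  have hinj : Function.Injective σ0 := by
    intro j j' h
    apply hE'.inj
    change Complex.exp (G' j) = Complex.exp (G' j')
    rw [hexp (σ0 j) j (hσ0 j), hexp (σ0 j') j' (hσ0 j'), h]
  set σ : Equiv.Perm (Fin N) := Equiv.ofBijective σ0 (Finite.injective_iff_bijective.1 hinj)
  have hσ : ∀ j, σ j = σ0 j := fun j => rfl
  have hsq : ∀ j, C (σ0 j) j * C (σ0 j) j = 1 := by
    intro j
    have h1 := congrFun (congrFun hCtC j) j
    rw [Matrix.mul_apply, Matrix.one_apply_eq, Finset.sum_eq_single (σ0 j)] at h1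
    · exact h1
    · intro i _ hi
      rw [hzero i j hi, mul_zero]
    · intro h
      exact absurd (Finset.mem_univ _) h
  have hε : ∀ j, ∃ e : ℤ, e * e = 1 ∧ C (σ0 j) j = e := by
    intro j
    rcases mul_self_eq_one_iff.1 (hsq j) with h | h
    · exact ⟨1, by norm_num, by rw [h, Int.cast_one]⟩
    · exact ⟨-1, by norm_num, by rw [h, Int.cast_neg, Int.cast_one]⟩
  choose ε hε1 hε2 using hε
  have hk : ∀ j, ∃ n : ℤ, G' j = G (σ0 j) + n * (2 * Real.pi * Complex.I) := fun j =>
    Complex.exp_eq_exp_iff_exists_int.1 (hexp (σ0 j) j (hσ0 j))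
  choose k hk using hk
  refine ⟨σ, ε, k, hε1, ?_, ?_⟩
  · intro i j
    rw [← hΨC, Matrix.mul_apply, Finset.sum_eq_single (σ0 j)]
    · rw [hσ, hε2, mul_comm]
    · intro l _ hl
      rw [hzero l j hl, mul_zero]
    · intro h
      exact absurd (Finset.mem_univ _) h
  · intro j
    rw [hσ, hk j]
    ring

private theorem birk_entry (M : Matrix (Fin N) (Fin N) ℂ) {G G' : Fin N → ℂ}
    (σ : Equiv.Perm (Fin N)) (ε : Fin N → ℤ) (k : Fin N → ℤ)
    (h₂ : ∀ j, G' j = G (σ j) + 2 * Real.pi * Complex.I * k j)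
    (X : Matrix (Fin N) (Fin N) (LaurentPolynomial ℂ)) (y : ℂ) (i j : Fin N) :
    (ε j : ℂ) * (M * X.map (evq y) * Matrix.diagonal fun k => Complex.exp (-y * G k)) i (σ j) =
      (M * (Matrix.of fun i j => LaurentPolynomial.C (ε j : ℂ) *
        LaurentPolynomial.T (k j) * X i (σ j)).map (evq y) *
          Matrix.diagonal fun k => Complex.exp (-y * G' k)) i j := by
  rw [Matrix.mul_diagonal, Matrix.mul_diagonal, Matrix.mul_apply, Matrix.mul_apply,
    Finset.sum_mul, Finset.sum_mul, Finset.mul_sum]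
  refine Finset.sum_congr rfl fun l _ => ?_
  rw [Matrix.map_apply, Matrix.map_apply, Matrix.of_apply, map_mul, map_mul, evq_C, evq_T, h₂]
  have h3 : Complex.exp (-y * G (σ j)) = Complex.exp (2 * Real.pi * Complex.I * k j * y) *
      Complex.exp (-y * (G (σ j) + 2 * Real.pi * Complex.I * k j)) := by
    rw [← Complex.exp_add]
    congr 1
    ring
  rw [h3]
  ring

theorem birk_congr {F : ℂ → Matrix (Fin N) (Fin N) ℂ} {Ψ Ψ' : Matrix (Fin N) (Fin N) ℂ}
    {G G' : Fin N → ℂ} (σ : Equiv.Perm (Fin N)) (ε : Fin N → ℤ) (k : Fin N → ℤ)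
    (h₁ : ∀ i j, Ψ' i j = ε j * Ψ i (σ j))
    (h₂ : ∀ j, G' j = G (σ j) + 2 * Real.pi * Complex.I * k j)
    {X : Matrix (Fin N) (Fin N) (LaurentPolynomial ℂ)}
    (bX : IsBirk F Ψ G (fun y => X.map (evq y))) :
    IsBirk F Ψ' G' (fun y => (Matrix.of fun i j => LaurentPolynomial.C (ε j : ℂ) *
      LaurentPolynomial.T (k j) * X i (σ j)).map (evq y)) := by
  intro i j
  rw [h₁]
  have h := (bX i (σ j)).const_mul (ε j : ℂ)
  have h4 : (fun y => (ε j : ℂ) * (F y * X.map (evq y) *
      Matrix.diagonal fun k => Complex.exp (-y * G k)) i (σ j)) =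
      fun y => (F y * (Matrix.of fun i j => LaurentPolynomial.C (ε j : ℂ) *
        LaurentPolynomial.T (k j) * X i (σ j)).map (evq y) *
          Matrix.diagonal fun k => Complex.exp (-y * G' k)) i j :=
    funext fun y => birk_entry (F y) σ ε k h₂ X y i j
  rw [h4] at h
  exact h

private theorem intL_twist {f : LaurentPolynomial ℂ} (hf : IntL f) (e k : ℤ) :
    IntL (LaurentPolynomial.C (e : ℂ) * LaurentPolynomial.T k * f) := by
  intro n
  obtain ⟨m, hm⟩ := hf (-k + n)
  refine ⟨e * m, ?_⟩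
  rw [← LaurentPolynomial.single_eq_C_mul_T, AddMonoidAlgebra.coeff_single_mul_apply, hm]
  push_cast
  rfl

/-- It is enough to check integrality for one choice of the eigenvectors. -/
theorem int0_of (D : DSys N) {Ψ : Matrix (Fin N) (Fin N) ℂ} {G : Fin N → ℂ}
    (hE : Eig (D.A 0) D.g Ψ G) {X : Matrix (Fin N) (Fin N) (LaurentPolynomial ℂ)}
    (bX : IsBirk D.F Ψ G (fun y => X.map (evq y))) (hX : ∀ i j, IntL (X i j)) : Int0 D := by
  intro Ψ' G' X' hE' bX'
  obtain ⟨σ, ε, k, _, h1, h2⟩ := eig_unique hE hE'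
  have bX'' := birk_congr σ ε k h1 h2 bX
  set X'' : Matrix (Fin N) (Fin N) (LaurentPolynomial ℂ) :=
    Matrix.of fun i j => LaurentPolynomial.C (ε j : ℂ) * LaurentPolynomial.T (k j) * X i (σ j)
    with hX''
  have hper : ∀ (Z : Matrix (Fin N) (Fin N) (LaurentPolynomial ℂ)) (y : ℂ),
      Z.map (evq (y - 1)) = Z.map (evq y) := by
    intro Z y
    rw [evq_sub_one]
  have heq := birk_unique D hE' (X := fun y => X'.map (evq y)) (X' := fun y => X''.map (evq y))
    (fun i j => differentiable_evq (X' i j)) (fun i j => differentiable_evq (X'' i j))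
    (hper X') (hper X'') bX' bX''
  intro i j
  have h3 : X' i j = X'' i j := evq_inj fun y => congrFun (congrFun (congrFun heq y) i) j
  rw [h3]
  exact intL_twist (hX i (σ j)) (ε j) (k j)

end Pool.Agent.DST
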