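import Pool.Agent.DST.KBirk
import Pool.Agent.DST.KEig

/-!
# Project DST, block K: collects `birkhoff`, `birk_unique`, `int0_of`
-/
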