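import Mathlib

/-!
# DST-SLim: solutions of linear differential equations with almost constant coefficients (abstract)

Only Mathlib.

PLAN. Use `open scoped Matrix.Norms.Operator` (linfty operator norm: a complete normed algebra; its
topology is the entrywise one, and `‖M i j‖ ≤ ‖M‖`, `‖M‖ ≤ ∑ entries`). Let `E τ = exp(-τ K)`,
which has derivative `-K E = -E K`, and `E 0 = 1`.
(1) Bound for `U`: for `ε = 1` in `hc`: `‖c a τ‖ ≤ C₀ := ‖K‖ + N²` eventually, so by Gronwall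
    (`norm_le_gronwallBound_of_norm_deriv_right_le` applied to `τ ↦ U a τ`, or to each column)
    `‖U a τ‖ ≤ ‖1‖ e^{C₀} =: C₁` for `τ ∈ [0,1]`, eventually.
(2) `P τ = E τ * U a τ` has derivative `E (c a τ - K) U`, of norm `≤ e^{‖K‖} N² ε C₁`; mean value
    inequality (`norm_image_sub_le_of_norm_deriv_le_segment'`-type): `‖P 1 - 1‖ ≤ C₂ ε`.
(3) `U a 1 = exp K * P 1` (as `exp K * exp(-K) = 1`), so `‖U a 1 - exp K‖ ≤ e^{‖K‖} C₂ ε`.
Everything for `a` eventually in `l`; conclude with `Metric.tendsto_nhds`.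
(The hypotheses `hU` give `HasDerivAt` of the entries; a matrix valued function has a derivative
iff its entries have: `hasDerivAt_pi` twice, or `HasDerivAt.matrix`-free: `hasDerivAt_pi.2`.)
-/

open scoped BigOperators Topology
open Filter

namespace Pool.Agent.DST

variable {N : ℕ}

section
open scoped Matrix.Norms.Operator

private theorem entry_le (M : Matrix (Fin N) (Fin N) ℂ) (i j : Fin N) : ‖M i j‖ ≤ ‖M‖ := by
  rw [Matrix.linfty_opNorm_def]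
  have h1 : ‖M i j‖₊ ≤ ∑ j, ‖M i j‖₊ :=
    Finset.single_le_sum (f := fun j => ‖M i j‖₊) (fun _ _ => zero_le) (Finset.mem_univ j)
  have h2 : ∑ j, ‖M i j‖₊ ≤ (Finset.univ : Finset (Fin N)).sup fun i => ∑ j, ‖M i j‖₊ :=
    Finset.le_sup (f := fun i => ∑ j, ‖M i j‖₊) (Finset.mem_univ i)
  exact_mod_cast h1.trans h2

private theorem norm_le_ent (M : Matrix (Fin N) (Fin N) ℂ) {k : ℝ} (hk : 0 ≤ k)
    (h : ∀ i j, ‖M i j‖ ≤ k) : ‖M‖ ≤ N * k := by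
  rw [Matrix.linfty_opNorm_def]
  lift k to NNReal using hk
  have : (Finset.univ : Finset (Fin N)).sup (fun i => ∑ j, ‖M i j‖₊) ≤ (N : NNReal) * k := by
    refine Finset.sup_le fun i _ => ?_
    calc ∑ j, ‖M i j‖₊ ≤ ∑ _j : Fin N, k := Finset.sum_le_sum fun j _ => h i j
      _ = (N : NNReal) * k := by simp
  exact_mod_cast this

private theorem norm_one_le' : ‖(1 : Matrix (Fin N) (Fin N) ℂ)‖ ≤ 1 := by
  rw [← Matrix.diagonal_one, Matrix.linfty_opNorm_diagonal]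
  exact (pi_norm_const_le (1 : ℂ)).trans (by simp)

private theorem has_mat (f : ℝ → Matrix (Fin N) (Fin N) ℂ) (f' : Matrix (Fin N) (Fin N) ℂ) (τ : ℝ)
    (h : ∀ i j, HasDerivAt (fun τ => f τ i j) (f' i j) τ) : HasDerivAt f f' τ :=
  hasDerivAt_pi.2 fun i => hasDerivAt_pi.2 fun j => h i j

private theorem gron (c U : ℝ → Matrix (Fin N) (Fin N) ℂ) {C : ℝ}
    (hU : ∀ τ ∈ Set.Icc (0 : ℝ) 1, HasDerivAt U (c τ * U τ) τ)
    (h0 : U 0 = 1) (hc : ∀ τ ∈ Set.Icc (0 : ℝ) 1, ‖c τ‖ ≤ C) :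
    ∀ τ ∈ Set.Icc (0 : ℝ) 1, ‖U τ‖ ≤ Real.exp (C * τ) := by
  intro τ hτ
  have h := norm_le_gronwallBound_of_norm_deriv_right_le (f := U) (f' := fun τ => c τ * U τ)
    (δ := 1) (K := C) (ε := 0) (a := 0) (b := 1)
    (fun τ hτ => (hU τ hτ).continuousAt.continuousWithinAt)
    (fun τ hτ => (hU τ (Set.Ico_subset_Icc_self hτ)).hasDerivWithinAt)
    (by rw [h0]; exact norm_one_le')
    (fun τ hτ => by
      rw [add_zero]
      exact (norm_mul_le _ _).trans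
        (mul_le_mul_of_nonneg_right (hc τ (Set.Ico_subset_Icc_self hτ)) (norm_nonneg _))) τ hτ
  rw [gronwallBound_ε0, sub_zero, one_mul] at h
  exact h

private theorem key (K : Matrix (Fin N) (Fin N) ℂ) : ∃ D : ℝ, 0 ≤ D ∧
    ∀ (c U : ℝ → Matrix (Fin N) (Fin N) ℂ) (δ : ℝ), 0 ≤ δ → δ ≤ 1 →
    (∀ τ ∈ Set.Icc (0 : ℝ) 1, HasDerivAt U (c τ * U τ) τ) → U 0 = 1 →
    (∀ τ ∈ Set.Icc (0 : ℝ) 1, ∀ i j, ‖c τ i j - K i j‖ ≤ δ) →
    ‖U 1 - NormedSpace.exp K‖ ≤ D * δ := by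
  have hEd : ∀ τ : ℝ, HasDerivAt (fun u : ℝ => NormedSpace.exp (u • (-K)))
      (NormedSpace.exp (τ • (-K)) * (-K)) τ := fun τ => hasDerivAt_exp_smul_const (-K) τ
  obtain ⟨C₂, hC₂⟩ := isCompact_Icc.exists_bound_of_continuousOn
    (f := fun u : ℝ => NormedSpace.exp (u • (-K))) (s := Set.Icc (0 : ℝ) 1)
    (fun τ _ => (hEd τ).continuousAt.continuousWithinAt)
  have hC₂0 : 0 ≤ C₂ := (norm_nonneg _).trans (hC₂ 0 ⟨le_rfl, zero_le_one⟩)
  refine ⟨‖NormedSpace.exp K‖ * (C₂ * (N * Real.exp (‖K‖ + N))), by positivity,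
    fun c U δ hδ0 hδ1 hU h0 hc => ?_⟩
  have hcK : ∀ τ ∈ Set.Icc (0 : ℝ) 1, ‖c τ - K‖ ≤ N * δ := fun τ hτ =>
    norm_le_ent _ hδ0 fun i j => by rw [Matrix.sub_apply]; exact hc τ hτ i j
  have hcn : ∀ τ ∈ Set.Icc (0 : ℝ) 1, ‖c τ‖ ≤ ‖K‖ + N := fun τ hτ => by
    have h1 : ‖c τ‖ ≤ ‖c τ - K‖ + ‖K‖ := by
      have := norm_add_le (c τ - K) K
      rwa [sub_add_cancel] at this
    have h2 : (N : ℝ) * δ ≤ N := by
      have : (N : ℝ) * δ ≤ N * 1 := mul_le_mul_of_nonneg_left hδ1 (Nat.cast_nonneg N)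
      linarith
    linarith [hcK τ hτ]
  have hUn : ∀ τ ∈ Set.Icc (0 : ℝ) 1, ‖U τ‖ ≤ Real.exp (‖K‖ + N) := fun τ hτ => by
    refine (gron c U hU h0 hcn τ hτ).trans (Real.exp_le_exp.2 ?_)
    have : 0 ≤ ‖K‖ + (N : ℝ) := by positivity
    nlinarith [hτ.2]
  have hP : ∀ τ ∈ Set.Icc (0 : ℝ) 1, HasDerivAt (fun u => NormedSpace.exp (u • (-K)) * U u)
      (NormedSpace.exp (τ • (-K)) * ((c τ - K) * U τ)) τ := fun τ hτ => by
    have h := (hEd τ).mul (hU τ hτ)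
    have e : NormedSpace.exp (τ • (-K)) * ((c τ - K) * U τ) =
        NormedSpace.exp (τ • (-K)) * (-K) * U τ +
          NormedSpace.exp (τ • (-K)) * (c τ * U τ) := by
      rw [mul_assoc, ← mul_add, neg_mul, sub_mul, neg_add_eq_sub]
    rw [e]
    exact h
  have hb := norm_image_sub_le_of_norm_deriv_le_segment'
    (f := fun u => NormedSpace.exp (u • (-K)) * U u)
    (f' := fun τ => NormedSpace.exp (τ • (-K)) * ((c τ - K) * U τ))
    (a := 0) (b := 1) (C := C₂ * (N * δ * Real.exp (‖K‖ + N)))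
    (fun τ hτ => (hP τ hτ).hasDerivWithinAt)
    (fun τ hτ => by
      have hτ' := Set.Ico_subset_Icc_self hτ
      refine (norm_mul_le _ _).trans (mul_le_mul (hC₂ τ hτ') ?_ (norm_nonneg _) hC₂0)
      exact (norm_mul_le _ _).trans (mul_le_mul (hcK τ hτ') (hUn τ hτ') (norm_nonneg _)
        (by positivity))) 1 ⟨zero_le_one, le_rfl⟩
  simp only [one_smul, zero_smul, NormedSpace.exp_zero, h0, mul_one, sub_zero] at hb
  have hinv : NormedSpace.exp K * NormedSpace.exp (-K) = 1 := by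
    have h := Matrix.exp_add_of_commute K (-K) (Commute.refl K).neg_right
    rw [add_neg_cancel, NormedSpace.exp_zero] at h
    exact h.symm
  have hid : U 1 - NormedSpace.exp K =
      NormedSpace.exp K * (NormedSpace.exp (-K) * U 1 - 1) := by
    rw [mul_sub, mul_one, ← mul_assoc, hinv, one_mul]
  rw [hid]
  refine (norm_mul_le _ _).trans ?_
  calc ‖NormedSpace.exp K‖ * ‖NormedSpace.exp (-K) * U 1 - 1‖
      ≤ ‖NormedSpace.exp K‖ * (C₂ * (N * δ * Real.exp (‖K‖ + N))) :=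
        mul_le_mul_of_nonneg_left hb (norm_nonneg _)
    _ = ‖NormedSpace.exp K‖ * (C₂ * (N * Real.exp (‖K‖ + N))) * δ := by ring

private theorem lin_limit' {α : Type} {l : Filter α} (c U : α → ℝ → Matrix (Fin N) (Fin N) ℂ)
    (K : Matrix (Fin N) (Fin N) ℂ)
    (hU : ∀ᶠ a in l, ∀ τ ∈ Set.Icc (0 : ℝ) 1, ∀ i j,
      HasDerivAt (fun τ => U a τ i j) ((c a τ * U a τ) i j) τ)
    (h0 : ∀ᶠ a in l, U a 0 = 1)
    (hc : ∀ ε > 0, ∀ᶠ a in l, ∀ τ ∈ Set.Icc (0 : ℝ) 1, ∀ i j, ‖c a τ i j - K i j‖ < ε) :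
    ∀ i j, Tendsto (fun a => U a 1 i j) l (𝓝 (NormedSpace.exp K i j)) := by
  intro i j
  obtain ⟨D, hD, hk⟩ := key K
  rw [Metric.tendsto_nhds]
  intro ε hε
  have hδ : 0 < min 1 (ε / (D + 1)) := lt_min one_pos (by positivity)
  filter_upwards [hU, h0, hc _ hδ] with a h1 h2 h3
  have h4 := hk (c a) (U a) (min 1 (ε / (D + 1))) hδ.le (min_le_left _ _)
    (fun τ hτ => has_mat _ _ _ (h1 τ hτ)) h2 (fun τ hτ i j => (h3 τ hτ i j).le)
  rw [dist_eq_norm]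
  have h5 : ‖U a 1 i j - NormedSpace.exp K i j‖ ≤ ‖U a 1 - NormedSpace.exp K‖ := by
    rw [← Matrix.sub_apply]; exact entry_le _ i j
  have h6 : D * min 1 (ε / (D + 1)) ≤ D * (ε / (D + 1)) :=
    mul_le_mul_of_nonneg_left (min_le_right _ _) hD
  have h7 : D * (ε / (D + 1)) < ε := by
    rw [mul_div_assoc', div_lt_iff₀ (by positivity)]
    nlinarith
  linarith

private theorem lin_bound' (c U : ℝ → Matrix (Fin N) (Fin N) ℂ) {k : ℝ}
    (hU : ∀ τ ∈ Set.Icc (0 : ℝ) 1, ∀ i j,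
      HasDerivAt (fun τ => U τ i j) ((c τ * U τ) i j) τ)
    (h0 : U 0 = 1) (hc : ∀ τ ∈ Set.Icc (0 : ℝ) 1, ∀ i j, ‖c τ i j‖ ≤ k) (i j : Fin N) :
    ‖U 1 i j‖ ≤ Real.exp (N * k) := by
  have hk : 0 ≤ k := (norm_nonneg _).trans (hc 0 ⟨le_rfl, zero_le_one⟩ i j)
  have h := gron c U (C := N * k) (fun τ hτ => has_mat _ _ _ (hU τ hτ)) h0
    (fun τ hτ => norm_le_ent _ hk (hc τ hτ)) 1 ⟨zero_le_one, le_rfl⟩
  rw [mul_one] at h
  exact (entry_le _ i j).trans h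

end

theorem lin_limit {α : Type} {l : Filter α} (c U : α → ℝ → Matrix (Fin N) (Fin N) ℂ)
    (K : Matrix (Fin N) (Fin N) ℂ)
    (hU : ∀ᶠ a in l, ∀ τ ∈ Set.Icc (0 : ℝ) 1, ∀ i j,
      HasDerivAt (fun τ => U a τ i j) ((c a τ * U a τ) i j) τ)
    (h0 : ∀ᶠ a in l, U a 0 = 1)
    (hc : ∀ ε > 0, ∀ᶠ a in l, ∀ τ ∈ Set.Icc (0 : ℝ) 1, ∀ i j, ‖c a τ i j - K i j‖ < ε) :
    ∀ i j, Tendsto (fun a => U a 1 i j) l (𝓝 (NormedSpace.exp K i j)) :=
  lin_limit' c U K hU h0 hc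

/-- Gronwall for matrices, entrywise: if `U' = c U` on `[0,1]`, `U 0 = 1`, and the entries of `c`
are at most `k`, then the entries of `U 1` are at most `e^{N k}`. -/
theorem lin_bound (c U : ℝ → Matrix (Fin N) (Fin N) ℂ) {k : ℝ}
    (hU : ∀ τ ∈ Set.Icc (0 : ℝ) 1, ∀ i j,
      HasDerivAt (fun τ => U τ i j) ((c τ * U τ) i j) τ)
    (h0 : U 0 = 1) (hc : ∀ τ ∈ Set.Icc (0 : ℝ) 1, ∀ i j, ‖c τ i j‖ ≤ k) (i j : Fin N) :
    ‖U 1 i j‖ ≤ Real.exp (N * k) :=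
  lin_bound' c U hU h0 hc i j

end Pool.Agent.DST
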