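import Pool.Agent.DST.SDet
import Pool.Agent.DST.SLim

/-!
# DST-SComp: comparison of the fundamental solutions at different `λ` (Gronwall)

PLAN. Choose `δ > 0` such that `exp l ∈ Λ` for `‖l - l₀‖ < 2δ` and the entries of `C(exp l)` and
`exp(-l)` are bounded by a constant `K` there (continuity at `exp l₀`, `Λ` open). For
`l, l' ∈ ball l₀ δ`, `y ∈ slitPlane`, `1 ≤ ‖y‖` put `v τ = l - log y + τ (l' - l)`, which is in the
domain: `y exp(v τ) = exp(l + τ(l'-l)) ∈ Λ` (the ball is convex). `U τ = Q.J y (v τ) *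
(Q.J y (l - log y))⁻¹` satisfies `U 0 = 1`, `U' = c τ U`,
`c τ = (l'-l) • (diagonal θ - exp(-v τ) • C(y exp (v τ)))`, `exp(-v τ) = y exp(-(l+τ(l'-l)))`, so the
entries of `c` are at most `‖l'-l‖ (‖θ‖ + ‖y‖ K²) ≤ ‖l'-l‖ ‖y‖ K'`. By `lin_bound` the entries of
`U 1 = Q.f l' y * (Q.f l y)⁻¹` are at most `exp (N K' ‖l'-l‖ ‖y‖)`. Take `C = max 1 (N K')`.
-/

open scoped BigOperators Topology
open Filter

namespace Pool.Agent.DST

variable {N : ℕ}

/-- Block S. Comparison of the fundamental solutions at different `λ`. -/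
theorem comp_f (Q : QSys N) {l₀ : ℂ} (hl : Complex.exp l₀ ∈ Q.Λ) :
    ∃ δ > 0, ∃ C : ℝ, ∀ l ∈ Metric.ball l₀ δ, ∀ l' ∈ Metric.ball l₀ δ,
      ∀ y ∈ Complex.slitPlane, 1 ≤ ‖y‖ → ∀ i j,
        ‖(Q.f l' y * (Q.f l y)⁻¹) i j‖ ≤ C * Real.exp (C * ‖l - l'‖ * ‖y‖) := by
  have hC : ∀ i j, ∀ᶠ l in 𝓝 l₀, ‖Q.C (Complex.exp l) i j‖ <
      ‖Q.C (Complex.exp l₀) i j‖ + 1 := by
    intro i j
    have h1 : ContinuousAt (fun l => Q.C (Complex.exp l) i j) l₀ :=
      ContinuousAt.comp (f := Complex.exp) (g := fun x => Q.C x i j)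
        (Q.C_hol _ hl i j).continuousAt Complex.continuous_exp.continuousAt
    exact h1.norm.eventually_lt_const (lt_add_one _)
  have hE : ∀ᶠ l in 𝓝 l₀, ‖Complex.exp (-l)‖ < ‖Complex.exp (-l₀)‖ + 1 := by
    have h1 : ContinuousAt (fun l : ℂ => Complex.exp (-l)) l₀ := by fun_prop
    exact h1.norm.eventually_lt_const (lt_add_one _)
  have hL : ∀ᶠ l in 𝓝 l₀, Complex.exp l ∈ Q.Λ :=
    Complex.continuous_exp.continuousAt.eventually_mem (Q.open_Λ.mem_nhds hl)
  obtain ⟨δ, hδ, hball⟩ := Metric.eventually_nhds_iff_ball.1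
    ((hL.and hE).and (Filter.eventually_all.2 fun i => Filter.eventually_all.2 fun j => hC i j))
  set K₁ : ℝ := (∑ i, ∑ j, ‖Q.C (Complex.exp l₀) i j‖) + 1 with hK₁
  set K₂ : ℝ := ‖Complex.exp (-l₀)‖ + 1 with hK₂
  set T : ℝ := ∑ i, ‖Q.θ i‖ with hT
  have hT0 : 0 ≤ T := Finset.sum_nonneg fun i _ => norm_nonneg _
  have hK₁0 : 0 ≤ K₁ := add_nonneg
    (Finset.sum_nonneg fun i _ => Finset.sum_nonneg fun j _ => norm_nonneg _) zero_le_one
  have hK₂0 : 0 ≤ K₂ := add_nonneg (norm_nonneg _) zero_le_one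
  refine ⟨δ, hδ, max 1 (N * (T + K₁ * K₂)), fun l hl1 l' hl2 y hy hy1 i j => ?_⟩
  have hy0 : y ≠ 0 := Complex.slitPlane_ne_zero hy
  set h : ℂ := l' - l with hh
  have hmem : ∀ τ ∈ Set.Icc (0 : ℝ) 1, l + (τ : ℂ) * h ∈ Metric.ball l₀ δ := by
    intro τ hτ
    have h1 := (convex_ball l₀ δ).add_smul_sub_mem hl1 hl2 hτ
    rwa [Complex.real_smul] at h1
  have hyv : ∀ τ : ℝ, y * Complex.exp (l - Complex.log y + τ * h) =
      Complex.exp (l + τ * h) := by
    intro τ
    have h1 : l - Complex.log y + τ * h = (l + τ * h) - Complex.log y := by ring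
    rw [h1, Complex.exp_sub, Complex.exp_log hy0]
    field_simp
  have hev : ∀ τ : ℝ, Complex.exp (-(l - Complex.log y + τ * h)) =
      y * Complex.exp (-(l + τ * h)) := by
    intro τ
    have h1 : -(l - Complex.log y + τ * h) = Complex.log y + -(l + τ * h) := by ring
    rw [h1, Complex.exp_add, Complex.exp_log hy0]
  set B : ℝ → Matrix (Fin N) (Fin N) ℂ := fun τ =>
    Matrix.diagonal Q.θ - Complex.exp (-(l - Complex.log y + τ * h)) •
      Q.C (y * Complex.exp (l - Complex.log y + τ * h)) with hB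
  set M : Matrix (Fin N) (Fin N) ℂ := (Q.J y (l - Complex.log y))⁻¹ with hM
  set U : ℝ → Matrix (Fin N) (Fin N) ℂ := fun τ =>
    Q.J y (l - Complex.log y + τ * h) * M with hU
  have hder : ∀ τ ∈ Set.Icc (0 : ℝ) 1, ∀ i j,
      HasDerivAt (fun τ => U τ i j) (((h • B τ) * U τ) i j) τ := by
    intro τ hτ a b
    have hΛ : y * Complex.exp (l - Complex.log y + τ * h) ∈ Q.Λ := by
      rw [hyv τ]
      exact (hball _ (hmem τ hτ)).1.1
    have hv : HasDerivAt (fun t : ℝ => l - Complex.log y + (t : ℂ) * h) h τ := by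
      have h1 : HasDerivAt (fun t : ℝ => (t : ℂ)) 1 τ := Complex.ofRealCLM.hasDerivAt
      have h2 := (h1.mul_const h).const_add (l - Complex.log y)
      simpa only [one_mul] using h2
    have h3 : ∀ k, HasDerivAt (fun t : ℝ => Q.J y (l - Complex.log y + (t : ℂ) * h) a k * M k b)
        ((B τ * Q.J y (l - Complex.log y + τ * h)) a k * h * M k b) τ := by
      intro k
      have h4 := HasDerivAt.comp (h₂ := fun w => Q.J y w a k)
        (h := fun t : ℝ => l - Complex.log y + (t : ℂ) * h) τ (Q.J_ode y _ hΛ a k) hv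
      exact h4.mul_const (M k b)
    have h5 : HasDerivAt (fun t : ℝ => ∑ k, Q.J y (l - Complex.log y + (t : ℂ) * h) a k * M k b)
        (∑ k, (B τ * Q.J y (l - Complex.log y + τ * h)) a k * h * M k b) τ :=
      HasDerivAt.fun_sum fun k _ => h3 k
    have h6 : ((h • B τ) * U τ) a b =
        ∑ k, (B τ * Q.J y (l - Complex.log y + τ * h)) a k * h * M k b := by
      rw [hU]
      simp only
      rw [Matrix.smul_mul, ← Matrix.mul_assoc, Matrix.smul_apply, Matrix.mul_apply,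
        smul_eq_mul, Finset.mul_sum]
      exact Finset.sum_congr rfl fun k _ => by ring
    rw [h6]
    exact h5
  have hU0 : U 0 = 1 := by
    have h1 : l - Complex.log y + ((0 : ℝ) : ℂ) * h = l - Complex.log y := by
      rw [Complex.ofReal_zero, zero_mul, add_zero]
    have h2 : y * Complex.exp (l - Complex.log y) ∈ Q.Λ := by
      have h3 := hyv 0
      rw [h1] at h3
      rw [h3, Complex.ofReal_zero, zero_mul, add_zero]
      exact (hball _ hl1).1.1
    rw [hU]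
    simp only
    rw [h1, hM]
    exact Matrix.mul_nonsing_inv _ (isUnit_iff_ne_zero.2 (Q.det_J h2))
  have hU1 : U 1 = Q.f l' y * (Q.f l y)⁻¹ := by
    have h1 : l - Complex.log y + ((1 : ℝ) : ℂ) * h = l' - Complex.log y := by
      rw [Complex.ofReal_one, one_mul, hh]
      ring
    rw [hU]
    simp only
    rw [h1, hM]
    rfl
  have hcb : ∀ τ ∈ Set.Icc (0 : ℝ) 1, ∀ i j, ‖(h • B τ) i j‖ ≤
      ‖l - l'‖ * ‖y‖ * (T + K₁ * K₂) := by
    intro τ hτ a b
    have hm := hball _ (hmem τ hτ)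
    have h1 : ‖(Matrix.diagonal Q.θ : Matrix (Fin N) (Fin N) ℂ) a b‖ ≤ T := by
      by_cases hab : a = b
      · subst hab
        rw [Matrix.diagonal_apply_eq]
        exact Finset.single_le_sum (f := fun i => ‖Q.θ i‖) (fun i _ => norm_nonneg _)
          (Finset.mem_univ a)
      · rw [Matrix.diagonal_apply_ne _ hab, norm_zero]
        exact hT0
    have h2 : ‖Q.C (Complex.exp (l + τ * h)) a b‖ ≤ K₁ := by
      refine (hm.2 a b).le.trans (add_le_add_left ?_ 1)
      exact (Finset.single_le_sum (f := fun j => ‖Q.C (Complex.exp l₀) a j‖)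
        (fun j _ => norm_nonneg _) (Finset.mem_univ b)).trans
        (Finset.single_le_sum (f := fun i => ∑ j, ‖Q.C (Complex.exp l₀) i j‖)
        (fun i _ => Finset.sum_nonneg fun j _ => norm_nonneg _) (Finset.mem_univ a))
    have h3 : ‖Complex.exp (-(l + τ * h))‖ ≤ K₂ := hm.1.2.le
    have h4 : ‖h‖ = ‖l - l'‖ := by rw [hh, norm_sub_rev]
    have h5 : ‖B τ a b‖ ≤ ‖y‖ * (T + K₁ * K₂) := by
      rw [hB]
      simp only
      rw [Matrix.sub_apply, Matrix.smul_apply, smul_eq_mul, hyv τ, hev τ]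
      calc _ ≤ ‖(Matrix.diagonal Q.θ : Matrix (Fin N) (Fin N) ℂ) a b‖ +
            ‖y * Complex.exp (-(l + τ * h)) * Q.C (Complex.exp (l + τ * h)) a b‖ :=
            norm_sub_le _ _
        _ ≤ ‖y‖ * T + ‖y‖ * K₂ * K₁ := by
            refine add_le_add (h1.trans ?_) ?_
            · exact le_mul_of_one_le_left hT0 hy1
            · rw [norm_mul, norm_mul]
              exact mul_le_mul (mul_le_mul_of_nonneg_left h3 (norm_nonneg _)) h2
                (norm_nonneg _) (mul_nonneg (norm_nonneg _) hK₂0)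
        _ = ‖y‖ * (T + K₁ * K₂) := by ring
    rw [Matrix.smul_apply, smul_eq_mul, norm_mul, h4, mul_assoc]
    exact mul_le_mul_of_nonneg_left h5 (norm_nonneg _)
  have hfin := lin_bound (fun τ => h • B τ) U hder hU0 hcb i j
  rw [hU1] at hfin
  refine hfin.trans ?_
  have h7 : (N : ℝ) * (‖l - l'‖ * ‖y‖ * (T + K₁ * K₂)) ≤
      max 1 (N * (T + K₁ * K₂)) * ‖l - l'‖ * ‖y‖ := by
    calc (N : ℝ) * (‖l - l'‖ * ‖y‖ * (T + K₁ * K₂)) =
        (N * (T + K₁ * K₂)) * ‖l - l'‖ * ‖y‖ := by ring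
      _ ≤ _ := mul_le_mul_of_nonneg_right (mul_le_mul_of_nonneg_right (le_max_right _ _)
          (norm_nonneg _)) (norm_nonneg _)
  calc Real.exp ((N : ℝ) * (‖l - l'‖ * ‖y‖ * (T + K₁ * K₂))) ≤
      Real.exp (max 1 (N * (T + K₁ * K₂)) * ‖l - l'‖ * ‖y‖) := Real.exp_le_exp.2 h7
    _ ≤ max 1 (N * (T + K₁ * K₂)) *
        Real.exp (max 1 (N * (T + K₁ * K₂)) * ‖l - l'‖ * ‖y‖) :=
        le_mul_of_one_le_left (Real.exp_pos _).le (le_max_left _ _)

end Pool.Agent.DST
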