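import Pool.Agent.DST.TDense

/-!
# Project DST, block T: transport (assembly)

PLAN. `Z = {s ∈ Ω | no eigenvector data}` is countable (`bad_countable` at `s₀`, which has data by `off₀`), so
`U = Ω \ Z` is preconnected (`hf.conn`). Every point of `U` has data, and by `dichotomy`, `local_transport` every
`s ∈ U` has a ball `B_s ⊆ Ω` (all points with data, so `B_s ⊆ U`), either without off-wall points or in which
the off-wall points are dense, and on which `Int0` is constant on the off-wall points.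
Step 1: `W = {s | some ball around s, contained in U, has dense off-wall points}` and
`W' = {s | some ball around s, contained in U, has no off-wall point}` are open, cover `U` and are disjoint on
`U` (a small ball in the intersection has both properties); `s₀ ∈ W` (`s₀` itself is an off-wall point of every
ball around it; so the first alternative fails). So `U ⊆ W` (`IsPreconnected.subset_left_of_subset_union` or the
definition of preconnectedness).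
Step 2: `P = {s | some ball around s, contained in U, all off-wall points s' in it satisfy Int0 (D s')}`, `P'`
likewise with `¬ Int0 (D s')`. Both open, `U ⊆ P ∪ P'` (`local_transport`, choose an off-wall point in the ball
by density, decide), disjoint on `U` by density. `s₀ ∈ P` (`s₀` is off-wall with `hint`, and `local_transport`
from `s₀`), so `U ⊆ P`, `s₁ ∈ P` and `s₁` is an off-wall point: `Int0 (D s₁)`.
-/

open scoped BigOperators Topology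
open Filter

namespace Pool.Agent.DST

variable {N : ℕ}

private theorem ball_sub_of {x t : ℂ} {ρ : ℝ} (ht : t ∈ Metric.ball x ρ) :
    ∃ ρ' > 0, Metric.ball t ρ' ⊆ Metric.ball x ρ := by
  obtain ⟨ε, h1, h2⟩ := Metric.isOpen_iff.1 Metric.isOpen_ball t ht
  exact ⟨ε, h1, h2⟩

private theorem isOpen_loc (U : Set ℂ) (Q : Set ℂ → Prop)
    (hQ : ∀ s t : Set ℂ, s ⊆ t → Q t → Q s) :
    IsOpen {s : ℂ | ∃ ρ > 0, Metric.ball s ρ ⊆ U ∧ Q (Metric.ball s ρ)} := by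
  rw [Metric.isOpen_iff]
  rintro s ⟨ρ, hρ, h1, h2⟩
  refine ⟨ρ, hρ, fun t ht => ?_⟩
  obtain ⟨ρ', h3, h4⟩ := ball_sub_of ht
  exact ⟨ρ', h3, h4.trans h1, hQ _ _ h4 h2⟩

/-- Block T. Transport of integrality. -/
theorem transport {Ω : Set ℂ} {D : ℂ → DSys N} {χ : Matrix (Fin N) (Fin N) (LaurentPolynomial ℂ)}
    (hf : IsFam Ω D χ) {s₀ s₁ : ℂ} (h₀ : s₀ ∈ Ω) (h₁ : s₁ ∈ Ω) (off₀ : OffPt (D s₀))
    (off₁ : OffPt (D s₁)) (hint : Int0 (D s₀)) : Int0 (D s₁) := by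
  obtain ⟨Ψ₀, G₀, hE₀, -⟩ := id off₀
  obtain ⟨Ψ₁, G₁, hE₁, -⟩ := id off₁
  set Z : Set ℂ := {s | s ∈ Ω ∧ ¬ ∃ Ψ G, Eig ((D s).A 0) (D s).g Ψ G} with hZ
  have hZc : Z.Countable := bad_countable hf h₀ hE₀
  set U : Set ℂ := Ω \ Z with hU
  have hconn : IsPreconnected U := hf.conn Z hZc
  have hdat : ∀ s ∈ U, ∃ Ψ G, Eig ((D s).A 0) (D s).g Ψ G := by
    rintro s ⟨h1, h2⟩
    by_contra h3
    exact h2 ⟨h1, h3⟩
  have hU₀ : s₀ ∈ U := ⟨h₀, fun h => h.2 ⟨Ψ₀, G₀, hE₀⟩⟩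
  have hU₁ : s₁ ∈ U := ⟨h₁, fun h => h.2 ⟨Ψ₁, G₁, hE₁⟩⟩
  have key : ∀ s ∈ U, ∃ ρ > 0, Metric.ball s ρ ⊆ U ∧
      ((∀ s' ∈ Metric.ball s ρ, ¬ OffPt (D s')) ∨
        ∀ V ⊆ Metric.ball s ρ, IsOpen V → V.Nonempty → ∃ s' ∈ V, OffPt (D s')) ∧
      (∀ s' ∈ Metric.ball s ρ, ∀ s'' ∈ Metric.ball s ρ,
        OffPt (D s') → OffPt (D s'') → Int0 (D s') → Int0 (D s'')) := by
    intro s hs
    obtain ⟨Ψ, G, hE⟩ := hdat s hs
    obtain ⟨ρ₁, hρ₁, b1, d1, a1⟩ := dichotomy hf hs.1 hE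
    obtain ⟨ρ₂, hρ₂, b2, t2⟩ := local_transport hf hs.1 hE
    have e1 : Metric.ball s (min ρ₁ ρ₂) ⊆ Metric.ball s ρ₁ := Metric.ball_subset_ball (min_le_left _ _)
    have e2 : Metric.ball s (min ρ₁ ρ₂) ⊆ Metric.ball s ρ₂ := Metric.ball_subset_ball (min_le_right _ _)
    refine ⟨min ρ₁ ρ₂, lt_min hρ₁ hρ₂, fun x hx => ⟨b1 (e1 hx), fun h => h.2 (d1 x (e1 hx))⟩, ?_,
      fun s' h' s'' h'' => t2 s' (e2 h') s'' (e2 h'')⟩
    rcases a1 with a1 | a1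
    · exact Or.inl fun s' h' => a1 s' (e1 h')
    · exact Or.inr fun V hV => a1 V (hV.trans e1)
  -- Step 1
  set W : Set ℂ := {s : ℂ | ∃ ρ > 0, Metric.ball s ρ ⊆ U ∧
    (fun B : Set ℂ => ∀ V ⊆ B, IsOpen V → V.Nonempty → ∃ s' ∈ V, OffPt (D s'))
      (Metric.ball s ρ)} with hW
  set W' : Set ℂ := {s : ℂ | ∃ ρ > 0, Metric.ball s ρ ⊆ U ∧
    (fun B : Set ℂ => ∀ s' ∈ B, ¬ OffPt (D s')) (Metric.ball s ρ)} with hW'
  have oW : IsOpen W := isOpen_loc U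
    (fun B : Set ℂ => ∀ V ⊆ B, IsOpen V → V.Nonempty → ∃ s' ∈ V, OffPt (D s'))
    (fun s t hst h V hV => h V (hV.trans hst))
  have oW' : IsOpen W' := isOpen_loc U (fun B : Set ℂ => ∀ s' ∈ B, ¬ OffPt (D s'))
    (fun s t hst h s' hs' => h s' (hst hs'))
  have cW : U ⊆ W ∪ W' := by
    intro s hs
    obtain ⟨ρ, hρ, b, a, -⟩ := key s hs
    rcases a with a | a
    · exact Or.inr ⟨ρ, hρ, b, a⟩
    · exact Or.inl ⟨ρ, hρ, b, a⟩
  have hW₀ : s₀ ∈ W := by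
    rcases cW hU₀ with h | ⟨ρ, hρ, b, a⟩
    · exact h
    · exact absurd off₀ (a s₀ (Metric.mem_ball_self hρ))
  have hUW : ∀ s ∈ U, s ∈ W := by
    intro s hs
    by_contra hn
    have hs' : s ∈ W' := (cW hs).resolve_left hn
    obtain ⟨x, hx, ⟨ρ, hρ, b, a⟩, ⟨ρ', hρ', b', a'⟩⟩ :=
      hconn W W' oW oW' cW ⟨s₀, hU₀, hW₀⟩ ⟨s, hs, hs'⟩
    obtain ⟨y, hy, hy'⟩ := a (Metric.ball x (min ρ ρ')) (Metric.ball_subset_ball (min_le_left _ _))
      Metric.isOpen_ball ⟨x, Metric.mem_ball_self (lt_min hρ hρ')⟩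
    exact a' y (Metric.ball_subset_ball (min_le_right _ _) hy) hy'
  -- Step 2
  set P : Set ℂ := {s : ℂ | ∃ ρ > 0, Metric.ball s ρ ⊆ U ∧
    (fun B : Set ℂ => ∀ s' ∈ B, OffPt (D s') → Int0 (D s')) (Metric.ball s ρ)} with hP
  set P' : Set ℂ := {s : ℂ | ∃ ρ > 0, Metric.ball s ρ ⊆ U ∧
    (fun B : Set ℂ => ∀ s' ∈ B, OffPt (D s') → ¬ Int0 (D s')) (Metric.ball s ρ)} with hP'
  have oP : IsOpen P := isOpen_loc U
    (fun B : Set ℂ => ∀ s' ∈ B, OffPt (D s') → Int0 (D s'))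
    (fun s t hst h s' hs' => h s' (hst hs'))
  have oP' : IsOpen P' := isOpen_loc U
    (fun B : Set ℂ => ∀ s' ∈ B, OffPt (D s') → ¬ Int0 (D s'))
    (fun s t hst h s' hs' => h s' (hst hs'))
  have cP : U ⊆ P ∪ P' := by
    intro s hs
    obtain ⟨ρ, hρ, b, -, t⟩ := key s hs
    obtain ⟨ρ', hρ', b', a'⟩ := hUW s hs
    obtain ⟨y, hy, hy'⟩ := a' (Metric.ball s (min ρ ρ')) (Metric.ball_subset_ball (min_le_right _ _))
      Metric.isOpen_ball ⟨s, Metric.mem_ball_self (lt_min hρ hρ')⟩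
    have hyρ : y ∈ Metric.ball s ρ := Metric.ball_subset_ball (min_le_left _ _) hy
    by_cases hI : Int0 (D y)
    · exact Or.inl ⟨ρ, hρ, b, fun s' h' ho => t y hyρ s' h' hy' ho hI⟩
    · exact Or.inr ⟨ρ, hρ, b, fun s' h' ho hI' => hI (t s' h' y hyρ ho hy' hI')⟩
  have hP₀ : s₀ ∈ P := by
    obtain ⟨ρ, hρ, b, -, t⟩ := key s₀ hU₀
    exact ⟨ρ, hρ, b, fun s' h' ho => t s₀ (Metric.mem_ball_self hρ) s' h' off₀ ho hint⟩
  have hP₁ : s₁ ∈ P := by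
    by_contra hn
    have hs' : s₁ ∈ P' := (cP hU₁).resolve_left hn
    obtain ⟨x, hx, ⟨ρ, hρ, b, a⟩, ⟨ρ', hρ', b', a'⟩⟩ :=
      hconn P P' oP oP' cP ⟨s₀, hU₀, hP₀⟩ ⟨s₁, hU₁, hs'⟩
    obtain ⟨σ, hσ, c, e⟩ := hUW x hx
    obtain ⟨y, hy, hy'⟩ := e (Metric.ball x (min σ (min ρ ρ')))
      (Metric.ball_subset_ball (min_le_left _ _))
      Metric.isOpen_ball ⟨x, Metric.mem_ball_self (lt_min hσ (lt_min hρ hρ'))⟩
    have h2 : y ∈ Metric.ball x (min ρ ρ') := Metric.ball_subset_ball (min_le_right _ _) hy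
    exact a' y (Metric.ball_subset_ball (min_le_right _ _) h2) hy'
      (a y (Metric.ball_subset_ball (min_le_left _ _) h2) hy')
  obtain ⟨ρ, hρ, b, a⟩ := hP₁
  exact a s₁ (Metric.mem_ball_self hρ) off₁

end Pool.Agent.DST
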