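import Pool.Agent.DST.ZW

/-!
# Project DST, module Z-Asy: asymptotics at `y = 0`

PLAN. `ε = arctan κ` (or `κ/2`; need: `cos α + κ|sin α| > 0` for `|α| < π/2 + ε`: for `|α| ≤ π/2` both terms are
`≥ 0` and not both `0`; for `|α| = π/2 + β`, `0 < β < ε`: `-sin β + κ cos β > 0` iff `tan β < κ`), `ε < π/2`. With
`α = φ - φ'`, `|α| < π/2 + ε < π`, `ξ = exp (-r + α i)`: `Q.J 0 (r + φ' i) = Jt φ 0 ξ` (`J_zero_eq`), and
`Re ξ + κ|Im ξ| = e^{-r} (cos α + κ|sin α|) → ∞` as `r → -∞`, so eventually `(0, ξ) ∈ dom` (`c₁ (1 + 0) < ...`), and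
`J X(0) = W(0, ξ)`. `A_j(0, ξ) = ω⁻¹ u_j ξ = u_j exp (-(r + φ' i))` (`ω⁻¹ ξ = exp (-φ i - r + α i)`), `lam 0 ξ = 0`, so
by `W_tail` the expression is `P 0 (1 + H(0, ξ)) → Ψ₀` (`‖h‖ ≤ M/‖ξ‖`, `‖ξ‖ = e^{-r} → ∞`).
-/

open scoped BigOperators Topology
open Filter

namespace Pool.Agent.DST

variable {N : ℕ} {Q : QSys N} {Ψ₀ : Matrix (Fin N) (Fin N) ℂ} {φ : ℝ} {s : SD N}
  {P : ℂ → Matrix (Fin N) (Fin N) ℂ} {σ : Fin N → ℂ} {c₁ M : ℝ} {h : Fin N → Fin N → ℂ → ℂ → ℂ}

private theorem cos_sin_pos {κ α : ℝ} (hκ : 0 < κ) (hα : |α| < Real.pi / 2 + Real.arctan κ) :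
    0 < Real.cos α + κ * |Real.sin α| := by
  have hpi := Real.pi_pos
  have hε : Real.arctan κ < Real.pi / 2 := Real.arctan_lt_pi_div_two κ
  have h0 : 0 ≤ |α| := abs_nonneg α
  have hs : |Real.sin α| = Real.sin |α| := by
    rcases abs_cases α with ⟨h1, h2⟩ | ⟨h1, h2⟩
    · rw [h1]
      apply abs_of_nonneg
      apply Real.sin_nonneg_of_nonneg_of_le_pi h2
      linarith
    · rw [h1, Real.sin_neg]
      apply abs_of_nonpos
      apply Real.sin_nonpos_of_nonpos_of_neg_pi_le h2.le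
      linarith
  rw [hs, ← Real.cos_abs α]
  set a := |α| with ha
  by_cases h : a ≤ Real.pi / 2
  · have h1 : 0 ≤ Real.cos a := Real.cos_nonneg_of_neg_pi_div_two_le_of_le (by linarith) h
    have h2 : 0 ≤ Real.sin a := Real.sin_nonneg_of_nonneg_of_le_pi h0 (by linarith)
    have h3 := Real.sin_sq_add_cos_sq a
    by_contra hcon
    push Not at hcon
    have h4 : 0 ≤ κ * Real.sin a := mul_nonneg hκ.le h2
    have h5 : Real.cos a = 0 := by linarith
    have h6 : κ * Real.sin a = 0 := by linarith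
    have h7 : Real.sin a = 0 := by
      rcases mul_eq_zero.1 h6 with h8 | h8
      · exact absurd h8 hκ.ne'
      · exact h8
    rw [h5, h7] at h3
    norm_num at h3
  · push Not at h
    set β := a - Real.pi / 2 with hβ
    have hβ0 : 0 < β := by linarith
    have hβ1 : β < Real.arctan κ := by linarith
    have h1 : Real.cos a = -Real.sin β := by
      have : a = β + Real.pi / 2 := by rw [hβ]; ring
      rw [this, Real.cos_add_pi_div_two]
    have h2 : Real.sin a = Real.cos β := by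
      have : a = β + Real.pi / 2 := by rw [hβ]; ring
      rw [this, Real.sin_add_pi_div_two]
    have h3 : 0 < Real.cos β := Real.cos_pos_of_mem_Ioo ⟨by linarith, by linarith⟩
    have h4 : Real.tan β < κ := by
      have h5 := Real.tan_lt_tan_of_lt_of_lt_pi_div_two (show -(Real.pi / 2) < β by linarith)
        hε hβ1
      rwa [Real.tan_arctan] at h5
    rw [Real.tan_eq_sin_div_cos, div_lt_iff₀ h3] at h4
    rw [h1, h2]
    linarith

theorem asy_zero (hs : IsSD Q Ψ₀ φ s P σ) (hH : s.IsH c₁ M h) {X : Matrix (Fin N) (Fin N) ℂ}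
    (hX : ∀ ξ, ((0 : ℂ), ξ) ∈ s.dom c₁ → Q.Jt φ 0 ξ * X = s.W P h 0 ξ) :
    ∃ ε > 0, ∀ φ' ∈ Set.Ioo (φ - Real.pi / 2 - ε) (φ + Real.pi / 2 + ε), ∀ i j,
      Tendsto (fun r : ℝ => (Q.J 0 (r + φ' * Complex.I) * X *
        Matrix.diagonal fun k => Complex.exp (-s.u k * Complex.exp (-(r + φ' * Complex.I)))) i j)
        atBot (𝓝 (Ψ₀ i j)) := by
  have hκ := s.κ_pos
  have hpi := Real.pi_pos
  refine ⟨Real.arctan s.κ, Real.arctan_pos.2 hκ, fun φ' hφ' i j => ?_⟩
  have hε : Real.arctan s.κ < Real.pi / 2 := Real.arctan_lt_pi_div_two _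
  have ha : |φ - φ'| < Real.pi / 2 + Real.arctan s.κ := by
    rw [abs_lt]
    constructor <;> linarith [hφ'.1, hφ'.2]
  have haπ : |φ - φ'| < Real.pi := by linarith
  have hm := cos_sin_pos hκ ha
  have hexp : Tendsto (fun r : ℝ => Real.exp (-r)) atBot atTop :=
    Real.tendsto_exp_atTop.comp tendsto_neg_atBot_atTop
  have hz1 : ∀ r : ℝ, (-(r : ℂ) + ((φ : ℂ) - φ') * Complex.I).re = -r := by
    intro r
    simp
  have hz2 : ∀ r : ℝ, (-(r : ℂ) + ((φ : ℂ) - φ') * Complex.I).im = φ - φ' := by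
    intro r
    simp
  have hnorm : ∀ r : ℝ, ‖Complex.exp (-r + (φ - φ') * Complex.I)‖ = Real.exp (-r) := by
    intro r
    rw [Complex.norm_exp, hz1]
  have hdom : ∀ᶠ r : ℝ in atBot, ((0 : ℂ), Complex.exp (-r + (φ - φ') * Complex.I)) ∈ s.dom c₁ := by
    filter_upwards [(hexp.atTop_mul_const hm).eventually_gt_atTop c₁] with r hr
    show c₁ * (1 + ‖(0 : ℂ)‖) < (Complex.exp (-r + (φ - φ') * Complex.I)).re +
      s.κ * |(Complex.exp (-r + (φ - φ') * Complex.I)).im|
    rw [Complex.exp_re, Complex.exp_im, hz1, hz2, norm_zero, add_zero, mul_one, abs_mul,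
      abs_of_pos (Real.exp_pos (-r))]
    linarith
  have hh : ∀ k, Tendsto (fun r : ℝ => h k j 0 (Complex.exp (-r + (φ - φ') * Complex.I))) atBot
      (𝓝 0) := by
    intro k
    have h1 : Tendsto (fun r : ℝ => M / Real.exp (-r)) atBot (𝓝 0) := hexp.const_div_atTop M
    apply squeeze_zero_norm' _ h1
    filter_upwards [hdom] with r hr
    have h2 := (hH.good k j).le 0 _ hr
    rw [hnorm, pow_one] at h2
    exact h2
  have hfin : Tendsto (fun r : ℝ => Ψ₀ i j +
      ∑ k, Ψ₀ i k * h k j 0 (Complex.exp (-r + (φ - φ') * Complex.I))) atBot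
      (𝓝 (Ψ₀ i j + ∑ k, Ψ₀ i k * 0)) := by
    apply Tendsto.const_add
    apply tendsto_finsetSum
    intro k _
    exact (hh k).const_mul _
  simp only [mul_zero, Finset.sum_const_zero, add_zero] at hfin
  refine hfin.congr' ?_
  filter_upwards [hdom] with r hr
  have hA : ∀ k, Complex.exp (-s.u k * Complex.exp (-(r + φ' * Complex.I))) =
      Complex.exp (-s.Ax k 0 (Complex.exp (-r + (φ - φ') * Complex.I))) := by
    intro k
    congr 1
    unfold SD.Ax
    rw [hs.ω, zero_mul, sub_zero, ← Complex.exp_neg]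
    have h3 : Complex.exp (-(r + φ' * Complex.I)) = Complex.exp (-(φ * Complex.I)) *
        Complex.exp (-r + (φ - φ') * Complex.I) := by
      rw [← Complex.exp_add]
      congr 1
      ring
    rw [h3]
    ring
  have hd : (Matrix.diagonal fun k => Complex.exp (-s.u k * Complex.exp (-(r + φ' * Complex.I)))) =
      Matrix.diagonal fun k => Complex.exp (-s.Ax k 0 (Complex.exp (-r + (φ - φ') * Complex.I))) := by
    congr 1
    funext k
    exact hA k
  rw [QSys.J_zero_eq Q haπ, hX _ hr, hd, W_tail]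
  have hl : s.lam 0 (Complex.exp (-r + (φ - φ') * Complex.I)) = 0 := by
    unfold SD.lam
    rw [zero_mul, zero_div]
  rw [hl, hs.P0, mul_add, mul_one, Matrix.add_apply, Matrix.mul_apply]
  rfl

end Pool.Agent.DST
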