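import Pool.Agent.DST.SHol

/-!
# DST-SMain: the difference system at fixed `λ`

`D.F = Q.f l`, `D.A = Q.tr l`, `D.g = Q.g (exp l)`, `D.χ = Q.χ`. The entries of `Q.tr l` are differentiable off `0` (`V_hol`,
`S_hol`) and continuous at `0` (`V_tendsto`), so differentiable. The relation is `Q.J_shift`, with
`log (y - 1) = log y + log (1 - 1/y)` on the slit plane.
-/

open scoped BigOperators Topology
open Filter

namespace Pool.Agent.DST

variable {N : ℕ}

private theorem y_exp {l y : ℂ} (hy : y ≠ 0) :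
    y * Complex.exp (l - Complex.log y) = Complex.exp l := by
  rw [Complex.exp_sub, Complex.exp_log hy]
  field_simp

private theorem good_mem {Q : QSys N} {l : ℂ} {r : ℝ} (hr : Q.Good l r) {ε : ℂ} (hε : ‖ε‖ < r) :
    Complex.exp l - ε * Complex.exp l ∈ Q.Λ ∧ 1 - ε ≠ 0 := by
  have h1 : 1 - ε ≠ 0 := by
    intro h
    have h2 : ε = 1 := (sub_eq_zero.1 h).symm
    rw [h2, norm_one] at hε
    have := hr.2.1
    linarith
  have h2 := hr.2.2 ε hε 1 ⟨zero_le_one, le_rfl⟩
  rw [Complex.ofReal_one, one_mul, Complex.exp_log h1] at h2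
  have e : Complex.exp l - ε * Complex.exp l = Complex.exp l * (1 - ε) := by ring
  rw [e]
  exact ⟨h2, h1⟩

private theorem tr_ne {Q : QSys N} {l ε : ℂ} (h : ε ≠ 0) :
    Q.tr l ε = Q.S (Complex.exp l) (ε * Complex.exp l) * Q.V l ε := by
  rw [QSys.tr, if_neg h]

private theorem tr_zero {Q : QSys N} {l : ℂ} : Q.tr l 0 = Q.A0 l := by
  rw [QSys.tr, if_pos rfl]

private theorem S_diff {Q : QSys N} {l : ℂ} (hl : Complex.exp l ∈ Q.Λ) {ε : ℂ}
    (h : Complex.exp l - ε * Complex.exp l ∈ Q.Λ) (i j : Fin N) :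
    DifferentiableAt ℂ (fun ε => Q.S (Complex.exp l) (ε * Complex.exp l) i j) ε := by
  have h1 := Q.S_hol (Complex.exp l) hl (ε * Complex.exp l) h i j
  have h2 : DifferentiableAt ℂ (fun ε : ℂ => (Complex.exp l, ε * Complex.exp l)) ε :=
    (differentiableAt_const _).prodMk (differentiableAt_id.mul_const _)
  exact DifferentiableAt.comp (g := fun p : ℂ × ℂ => Q.S p.1 p.2 i j)
    (f := fun ε : ℂ => (Complex.exp l, ε * Complex.exp l)) ε h1 h2

private theorem tr_diff_ne {Q : QSys N} {l : ℂ} (hl : Complex.exp l ∈ Q.Λ) {r : ℝ}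
    (hr : Q.Good l r) {ε : ℂ} (hε : ‖ε‖ < r) (h0 : ε ≠ 0) (i j : Fin N) :
    DifferentiableAt ℂ (fun ε => Q.tr l ε i j) ε := by
  have h1 : DifferentiableAt ℂ
      (fun ε => (Q.S (Complex.exp l) (ε * Complex.exp l) * Q.V l ε) i j) ε :=
    diffAt_mul (fun i j => S_diff hl (good_mem hr hε).1 i j)
      (fun i j => Q.V_hol hr h0 hε i j) i j
  refine h1.congr_of_eventuallyEq ?_
  filter_upwards [isOpen_ne.mem_nhds h0] with e he
  rw [tr_ne he]

private theorem tr_cont {Q : QSys N} {l : ℂ} (hl : Complex.exp l ∈ Q.Λ) (i j : Fin N) :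
    ContinuousAt (fun ε => Q.tr l ε i j) 0 := by
  rw [continuousAt_iff_punctured_nhds]
  have h1 : Tendsto (fun ε => (Q.S (Complex.exp l) (ε * Complex.exp l) * Q.V l ε) i j)
      (𝓝[≠] 0) (𝓝 (Q.A0 l i j)) := by
    unfold QSys.A0
    simp only [Matrix.mul_apply]
    refine tendsto_finsetSum _ fun k _ => ?_
    refine Tendsto.mul ?_ (Q.V_tendsto hl k j)
    have h2 : Complex.exp l - 0 * Complex.exp l ∈ Q.Λ := by
      rw [zero_mul, sub_zero]
      exact hl
    have h3 := (S_diff hl h2 i k).continuousAt.tendsto.mono_left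
      (nhdsWithin_le_nhds (s := {(0 : ℂ)}ᶜ))
    rw [zero_mul] at h3
    exact h3
  rw [tr_zero]
  refine h1.congr' ?_
  filter_upwards [self_mem_nhdsWithin] with e he
  rw [tr_ne he]

private theorem tr_diff {Q : QSys N} {l : ℂ} (hl : Complex.exp l ∈ Q.Λ) {r : ℝ}
    (hr : Q.Good l r) {ε : ℂ} (hε : ‖ε‖ < r) (i j : Fin N) :
    DifferentiableAt ℂ (fun ε => Q.tr l ε i j) ε := by
  have h1 : DifferentiableOn ℂ (fun ε => Q.tr l ε i j) (Metric.ball 0 r) := by
    rw [← Complex.differentiableOn_compl_singleton_and_continuousAt_iff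
      (Metric.ball_mem_nhds (0 : ℂ) hr.1)]
    refine ⟨fun e he => ?_, tr_cont hl i j⟩
    exact (tr_diff_ne hl hr (mem_ball_zero_iff.1 he.1) he.2 i j).differentiableWithinAt
  exact (h1 ε (mem_ball_zero_iff.2 hε)).differentiableAt
    (Metric.isOpen_ball.mem_nhds (mem_ball_zero_iff.2 hε))

private theorem arg_pos' {z : ℂ} (h : 0 < z.im) : 0 < Complex.arg z ∧ Complex.arg z < Real.pi := by
  have h1 : 0 ≤ Complex.arg z := Complex.arg_nonneg_iff.2 h.le
  have h2 := Complex.arg_le_pi z
  constructor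
  · refine lt_of_le_of_ne h1 fun h3 => ?_
    rw [eq_comm, Complex.arg_eq_zero_iff] at h3
    linarith [h3.2]
  · refine lt_of_le_of_ne h2 fun h3 => ?_
    rw [Complex.arg_eq_pi_iff] at h3
    linarith [h3.2]

private theorem arg_neg' {z : ℂ} (h : z.im < 0) :
    -Real.pi < Complex.arg z ∧ Complex.arg z < 0 :=
  ⟨Complex.neg_pi_lt_arg z, Complex.arg_neg_iff.2 h⟩

private theorem log_pred {y : ℂ} (hy : y ∈ Complex.slitPlane) (hy1 : y - 1 ∈ Complex.slitPlane) :
    Complex.log (y - 1) = Complex.log y + Complex.log (1 - y⁻¹) := by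
  have h0 : y ≠ 0 := Complex.slitPlane_ne_zero hy
  have h1 : y - 1 ≠ 0 := Complex.slitPlane_ne_zero hy1
  have e1 : y - 1 = y * (1 - y⁻¹) := by field_simp
  have h2 : 1 - y⁻¹ ≠ 0 := by
    intro h2
    rw [h2, mul_zero] at e1
    exact h1 e1
  have h3 : Complex.exp (Complex.log y + Complex.log (1 - y⁻¹)) =
      Complex.exp (Complex.log (y - 1)) := by
    rw [Complex.exp_add, Complex.exp_log h0, Complex.exp_log h2, Complex.exp_log h1, e1]
  obtain ⟨n, hn⟩ := Complex.exp_eq_exp_iff_exists_int.1 h3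
  have h4 := congrArg Complex.im hn
  rw [Complex.add_im, Complex.add_im, Complex.log_im, Complex.log_im, Complex.log_im] at h4
  have e2 : ((n : ℂ) * (2 * Real.pi * Complex.I)).im = n * (2 * Real.pi) := by
    have e3 : (n : ℂ) * (2 * Real.pi * Complex.I) = ((n * (2 * Real.pi) : ℝ) : ℂ) * Complex.I := by
      push_cast
      ring
    rw [e3, Complex.mul_I_im, Complex.ofReal_re]
  rw [e2] at h4
  have him : (1 - y⁻¹).im = y.im / Complex.normSq y := by
    rw [Complex.sub_im, Complex.one_im, Complex.inv_im]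
    ring
  have hns : 0 < Complex.normSq y := Complex.normSq_pos.2 h0
  have him1 : (y - 1).im = y.im := by
    rw [Complex.sub_im, Complex.one_im, sub_zero]
  have hpi := Real.pi_pos
  have hn0 : n = 0 := by
    rcases lt_trichotomy y.im 0 with h5 | h5 | h5
    · have a1 := arg_neg' h5
      have a2 := arg_neg' (z := 1 - y⁻¹) (by rw [him]; exact div_neg_of_neg_of_pos h5 hns)
      have a3 := arg_neg' (z := y - 1) (by rw [him1]; exact h5)
      have b1 : (n : ℝ) * (2 * Real.pi) < 1 * (2 * Real.pi) := by linarith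
      have b2 : (-1 : ℝ) * (2 * Real.pi) < n * (2 * Real.pi) := by linarith
      have c1 := lt_of_mul_lt_mul_right b1 (by positivity)
      have c2 := lt_of_mul_lt_mul_right b2 (by positivity)
      have d1 : n < 1 := by exact_mod_cast c1
      have d2 : -1 < n := by exact_mod_cast c2
      omega
    · have h6 : 0 < (y - 1).re := by
        rw [Complex.mem_slitPlane_iff] at hy1
        rcases hy1 with h6 | h6
        · exact h6
        · rw [him1] at h6
          exact absurd h5 h6
      have h7 : 0 < y.re := by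
        rw [Complex.sub_re, Complex.one_re] at h6
        linarith
      have a1 : Complex.arg y = 0 := Complex.arg_eq_zero_iff.2 ⟨h7.le, h5⟩
      have a3 : Complex.arg (y - 1) = 0 :=
        Complex.arg_eq_zero_iff.2 ⟨h6.le, by rw [him1]; exact h5⟩
      have a2 := Complex.neg_pi_lt_arg (1 - y⁻¹)
      have a2' := Complex.arg_le_pi (1 - y⁻¹)
      rw [a1, a3] at h4
      have b1 : (n : ℝ) * (2 * Real.pi) < 1 * (2 * Real.pi) := by linarith
      have b2 : (-1 : ℝ) * (2 * Real.pi) < n * (2 * Real.pi) := by linarith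
      have c1 := lt_of_mul_lt_mul_right b1 (by positivity)
      have c2 := lt_of_mul_lt_mul_right b2 (by positivity)
      have d1 : n < 1 := by exact_mod_cast c1
      have d2 : -1 < n := by exact_mod_cast c2
      omega
    · have a1 := arg_pos' h5
      have a2 := arg_pos' (z := 1 - y⁻¹) (by rw [him]; exact div_pos h5 hns)
      have a3 := arg_pos' (z := y - 1) (by rw [him1]; exact h5)
      have b1 : (n : ℝ) * (2 * Real.pi) < 1 * (2 * Real.pi) := by linarith
      have b2 : (-1 : ℝ) * (2 * Real.pi) < n * (2 * Real.pi) := by linarith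
      have c1 := lt_of_mul_lt_mul_right b1 (by positivity)
      have c2 := lt_of_mul_lt_mul_right b2 (by positivity)
      have d1 : n < 1 := by exact_mod_cast c1
      have d2 : -1 < n := by exact_mod_cast c2
      omega
  rw [hn0] at hn
  rw [hn]
  push_cast
  ring

private theorem tr_rel {Q : QSys N} {l : ℂ} (hl : Complex.exp l ∈ Q.Λ) {r : ℝ}
    (hr : Q.Good l r) {y : ℂ} (hy : y ∈ Complex.slitPlane) (hy1 : y - 1 ∈ Complex.slitPlane)
    (hry : r⁻¹ < ‖y‖) : Q.f l y = Q.tr l y⁻¹ * Q.f l (y - 1) := by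
  have h0 : y ≠ 0 := Complex.slitPlane_ne_zero hy
  have h1 : y - 1 ≠ 0 := Complex.slitPlane_ne_zero hy1
  have hε : ‖y⁻¹‖ < r := by
    rw [norm_inv]
    exact inv_lt_of_inv_lt₀ hr.1 hry
  have hε0 : y⁻¹ ≠ 0 := inv_ne_zero h0
  have hlog : Complex.log y⁻¹ = -Complex.log y := by
    apply Complex.log_inv
    intro h2
    rw [Complex.arg_eq_pi_iff] at h2
    rw [Complex.mem_slitPlane_iff] at hy
    rcases hy with h3 | h3
    · linarith [h2.1]
    · exact h3 h2.2
  have hmem : (y - 1) * Complex.exp (l - Complex.log (y - 1)) ∈ Q.Λ := by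
    rw [y_exp h1]
    exact hl
  have hdet : (Q.J (y - 1) (l - Complex.log (y - 1))).det ≠ 0 := Q.det_J hmem
  have hexp : Complex.exp (l - Complex.log y) = y⁻¹ * Complex.exp l := by
    rw [Complex.exp_sub, Complex.exp_log h0]
    field_simp
  have hgm := (good_mem hr hε).1
  have hsh := Q.J_shift y (l - Complex.log y) (by rw [y_exp h0]; exact hl) (by
    have e : (y - 1) * Complex.exp (l - Complex.log y) =
        Complex.exp l - y⁻¹ * Complex.exp l := by
      rw [hexp]
      field_simp
    rw [e]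
    exact hgm)
  rw [y_exp h0, hexp] at hsh
  unfold QSys.f
  rw [tr_ne hε0, hsh]
  unfold QSys.V
  rw [inv_inv, hlog, ← sub_eq_add_neg]
  have e1 : l - Complex.log y - Complex.log (1 - y⁻¹) = l - Complex.log (y - 1) := by
    rw [log_pred hy hy1]
    ring
  rw [e1, Matrix.mul_assoc, Matrix.mul_assoc]
  rw [Matrix.nonsing_inv_mul _ (isUnit_iff_ne_zero.2 hdet), Matrix.mul_one]

private theorem log_neg' {y : ℂ} (h : 0 < y.im) :
    Complex.log (-y) = Complex.log y - Real.pi * Complex.I := by
  unfold Complex.log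
  rw [norm_neg, Complex.arg_neg_eq_arg_sub_pi_of_im_pos h]
  push_cast
  ring

/-- Block S. The difference system of a quantum system at fixed `λ`. -/
theorem exists_dsys (Q : QSys N) {l : ℂ} (hl : Complex.exp l ∈ Q.Λ) :
    ∃ D : DSys N, D.F = Q.f l ∧ D.A 0 = Q.A0 l ∧ D.g = Q.g (Complex.exp l) ∧ D.χ = Q.χ := by
  obtain ⟨r, hr⟩ := Q.exists_good hl
  have hF : ∀ y ∈ Complex.slitPlane, y * Complex.exp (l - Complex.log y) ∈ Q.Λ := by
    intro y hy
    rw [y_exp (Complex.slitPlane_ne_zero hy)]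
    exact hl
  have hFh : ∀ y ∈ Complex.slitPlane, ∀ i j, DifferentiableAt ℂ (fun y => Q.f l y i j) y := by
    intro y hy i j
    have h1 := Q.J_hol y (l - Complex.log y) (hF y hy) i j
    have h2 : DifferentiableAt ℂ (fun y : ℂ => (y, l - Complex.log y)) y :=
      differentiableAt_id.prodMk ((differentiableAt_const _).sub (Complex.differentiableAt_log hy))
    exact DifferentiableAt.comp (g := fun p : ℂ × ℂ => Q.J p.1 p.2 i j)
      (f := fun y : ℂ => (y, l - Complex.log y)) y h1 h2
  have hA0 : (Q.tr l 0).det ≠ 0 := by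
    rw [tr_zero, QSys.A0, Matrix.det_mul]
    refine mul_ne_zero (Q.S_det _ hl 0 (by rw [sub_zero]; exact hl)) ?_
    exact ((Matrix.isUnit_iff_isUnit_det _).1 (Matrix.isUnit_exp _)).ne_zero
  have hpair : ∀ y : ℂ, 0 < y.im → (Q.f l (-y)).transpose * Q.g (Complex.exp l) * Q.f l y =
      Q.χ.map (evq y) := by
    intro y hy
    have hy' : y ∈ Complex.slitPlane := Complex.mem_slitPlane_iff.2 (Or.inr hy.ne')
    have h1 := Q.J_pair y (l - Complex.log y) (hF y hy')
    rw [y_exp (Complex.slitPlane_ne_zero hy')] at h1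
    unfold QSys.f
    rw [log_neg' hy]
    have e : l - (Complex.log y - Real.pi * Complex.I) =
        l - Complex.log y + Real.pi * Complex.I := by ring
    rw [e]
    exact h1
  exact ⟨{ F := Q.f l
           A := Q.tr l
           g := Q.g (Complex.exp l)
           χ := Q.χ
           r := r
           r_pos := hr.1
           F_hol := hFh
           F_det := fun y hy => Q.det_J (hF y hy)
           A_hol := fun ε hε i j => tr_diff hl hr (mem_ball_zero_iff.1 hε) i j
           A_det := hA0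
           rel := fun y hy hy1 hry => tr_rel hl hr hy hy1 hry
           growth := Q.J_growth l hl
           g_symm := Q.g_symm _ hl
           g_det := Q.g_det _ hl
           χ_det := Q.χ_det
           pair := hpair }, rfl, tr_zero, rfl, rfl⟩

end Pool.Agent.DST
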