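import Pool.Agent.DST.ZW
import Pool.Agent.DST.SMain

/-!
# Project DST, module Z-Birk: the Stokes families are right-canonical at fixed small `λ`

`λ = exp (t + φ i) = e^t ω`; on the closed right half plane the points `(y, e^{-t} y)` are in the domain of the Stokes
families if `e^t` is small, and there `Q.f = Jt`. The leading term of the difference equation along `y = n + 1`, `n → ∞`,
gives the eigenvector equation.
-/

open scoped BigOperators Topology
open Filter

namespace Pool.Agent.DST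

variable {N : ℕ} {Q : QSys N} {Ψ₀ : Matrix (Fin N) (Fin N) ℂ} {φ : ℝ} {s : SD N}
  {P : ℂ → Matrix (Fin N) (Fin N) ℂ} {σ : Fin N → ℂ} {c₁ M : ℝ} {h : Fin N → Fin N → ℂ → ℂ → ℂ}

private theorem zb_dom (s : SD N) {c₁ t : ℝ} (hc : 2 ≤ c₁) (ht : 2 * c₁ < Real.exp (-t) * s.κ) {y : ℂ}
    (hy : 0 ≤ y.re) (hy1 : 1 ≤ ‖y‖) : (y, (Real.exp (-t) : ℂ) * y) ∈ s.dom c₁ := by
  show c₁ * (1 + ‖y‖) < ((Real.exp (-t) : ℂ) * y).re + s.κ * |((Real.exp (-t) : ℂ) * y).im|
  rw [Complex.re_ofReal_mul, Complex.im_ofReal_mul, abs_mul, abs_of_pos (Real.exp_pos _)]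
  have h1 : ‖y‖ ≤ y.re + |y.im| := by
    have := Complex.norm_le_abs_re_add_abs_im y
    rwa [abs_of_nonneg hy] at this
  have h2 : s.κ * ‖y‖ ≤ y.re + s.κ * |y.im| := by
    have h3 := mul_le_mul_of_nonneg_left h1 s.κ_pos.le
    have h4 : s.κ * y.re ≤ y.re := mul_le_of_le_one_left hy s.κ_le
    nlinarith
  have h5 := mul_le_mul_of_nonneg_left h2 (Real.exp_pos (-t)).le
  have h6 : 2 * c₁ * ‖y‖ < Real.exp (-t) * s.κ * ‖y‖ := mul_lt_mul_of_pos_right ht (by linarith)
  have h7 : c₁ * 1 ≤ c₁ * ‖y‖ := mul_le_mul_of_nonneg_left hy1 (by linarith)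
  nlinarith

theorem family_birk (hs : IsSD Q Ψ₀ φ s P σ) (hH : s.IsH c₁ M h)
    {X : ℂ → Matrix (Fin N) (Fin N) ℂ}
    (hX : ∀ y ξ, (y, ξ) ∈ s.dom c₁ → Q.Jt φ y ξ * X y = s.W P h y ξ) :
    ∃ L : ℝ, ∀ t < L, Real.exp t * s.ω ∈ Metric.ball (0 : ℂ) s.r ∧
      IsBirk (Q.f (t + φ * Complex.I)) (P (Real.exp t * s.ω)) (s.Gx σ t)
        (fun y => X y * Matrix.diagonal fun j => Complex.exp (σ j * y)) := by
  have hc : 2 ≤ c₁ := hH.adm.1
  refine ⟨min (Real.log (s.κ / (2 * c₁))) (Real.log s.r), fun t ht => ?_⟩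
  have ht1 := lt_of_lt_of_le ht (min_le_left _ _)
  have ht2 := lt_of_lt_of_le ht (min_le_right _ _)
  have hq : 0 < s.κ / (2 * c₁) := div_pos s.κ_pos (by linarith)
  have e1 : Real.exp t < s.κ / (2 * c₁) := by
    rw [← Real.exp_log hq]
    exact Real.exp_lt_exp.mpr ht1
  have e2 : Real.exp t < s.r := by
    rw [← Real.exp_log s.r_pos]
    exact Real.exp_lt_exp.mpr ht2
  have e3 : 2 * c₁ < Real.exp (-t) * s.κ := by
    rw [lt_div_iff₀ (by linarith)] at e1
    rw [Real.exp_neg, inv_mul_eq_div, lt_div_iff₀ (Real.exp_pos t)]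
    linarith
  refine ⟨?_, ?_⟩
  · rw [Metric.mem_ball, dist_zero_right, norm_mul, s.ω_norm, mul_one, Complex.norm_real, Real.norm_eq_abs,
      abs_of_pos (Real.exp_pos t)]
    exact e2
  -- eventually the product is `P (1 + H)`
  have hω : s.ω ≠ 0 := by
    intro h0
    have := s.ω_norm
    rw [h0, norm_zero] at this
    exact zero_ne_one this
  have hev : ∀ᶠ y in rhp, 0 ≤ y.re ∧ 1 ≤ ‖y‖ := by
    unfold rhp
    have h1 : ∀ᶠ y in Bornology.cobounded ℂ, 1 ≤ ‖y‖ := tendsto_norm_cobounded_atTop.eventually_ge_atTop 1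
    filter_upwards [mem_inf_of_right (mem_principal_self _), mem_inf_of_left h1] with y hy1 hy2
    exact ⟨hy1, hy2⟩
  have hnorm : Tendsto (fun y : ℂ => ‖y‖) rhp atTop := tendsto_norm_cobounded_atTop.mono_left inf_le_left
  have hH0 : Tendsto (fun y : ℂ => (Matrix.of fun i j => h i j y ((Real.exp (-t) : ℂ) * y) :
      Matrix (Fin N) (Fin N) ℂ)) rhp (𝓝 0) := by
    refine tendsto_pi_nhds.mpr fun i => tendsto_pi_nhds.mpr fun j => ?_
    have h1 : Tendsto (fun y : ℂ => M / (Real.exp (-t) * ‖y‖)) rhp (𝓝 0) :=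
      (Tendsto.const_mul_atTop (Real.exp_pos (-t)) hnorm).const_div_atTop M
    refine squeeze_zero_norm' (a := fun y : ℂ => M / (Real.exp (-t) * ‖y‖)) ?_ h1
    filter_upwards [hev] with y hy
    have h2 := (hH.good i j).le y _ (zb_dom s hc e3 hy.1 hy.2)
    rw [pow_one, norm_mul, Complex.norm_real, Real.norm_eq_abs, abs_of_pos (Real.exp_pos _)] at h2
    exact h2
  have hlim : Tendsto (fun y : ℂ => P (Real.exp t * s.ω) *
      (1 + Matrix.of fun i j => h i j y ((Real.exp (-t) : ℂ) * y))) rhp (𝓝 (P (Real.exp t * s.ω))) := by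
    have h1 := (tendsto_const_nhds (x := P (Real.exp t * s.ω)) (f := rhp)).mul
      ((tendsto_const_nhds (x := (1 : Matrix (Fin N) (Fin N) ℂ)) (f := rhp)).add hH0)
    rw [add_zero, Matrix.mul_one] at h1
    exact h1
  intro i j
  refine (tendsto_pi_nhds.mp (tendsto_pi_nhds.mp hlim i) j).congr' ?_
  filter_upwards [hev] with y hy
  have hy0 : y ≠ 0 := by
    intro h0
    have := hy.2
    rw [h0, norm_zero] at this
    linarith
  have het : (Real.exp (-t) : ℂ) ≠ 0 := by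
    exact_mod_cast (Real.exp_pos (-t)).ne'
  have hett : (Real.exp t : ℂ) * (Real.exp (-t) : ℂ) = 1 := by
    rw [← Complex.ofReal_mul, ← Real.exp_add, add_neg_cancel, Real.exp_zero, Complex.ofReal_one]
  have hlam : s.lam y ((Real.exp (-t) : ℂ) * y) = Real.exp t * s.ω := by
    unfold SD.lam
    rw [div_eq_iff (mul_ne_zero het hy0)]
    calc y * s.ω = ((Real.exp t : ℂ) * (Real.exp (-t) : ℂ)) * (s.ω * y) := by rw [hett]; ring
      _ = _ := by ring
  have hAx : ∀ j, s.Ax j y ((Real.exp (-t) : ℂ) * y) = y * (s.Gx σ t j - σ j) := by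
    intro j
    unfold SD.Ax
    rw [hlam]
    unfold SD.Gx
    ring
  have hW := hX y _ (zb_dom s hc e3 hy.1 hy.2)
  have htail := W_tail s P h y ((Real.exp (-t) : ℂ) * y)
  rw [hlam] at htail
  show (P (Real.exp t * s.ω) * (1 + Matrix.of fun i j => h i j y ((Real.exp (-t) : ℂ) * y))) i j =
    (Q.f (t + φ * Complex.I) y * (X y * Matrix.diagonal fun j => Complex.exp (σ j * y)) *
      Matrix.diagonal fun k => Complex.exp (-y * s.Gx σ t k)) i j
  rw [Q.f_eq_Jt hy0, ← Matrix.mul_assoc, hW, Matrix.mul_assoc, Matrix.diagonal_mul_diagonal, ← htail]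
  have hd : (fun j => Complex.exp (-s.Ax j y ((Real.exp (-t) : ℂ) * y))) =
      fun j => Complex.exp (σ j * y) * Complex.exp (-y * s.Gx σ t j) := by
    funext j
    rw [hAx, ← Complex.exp_add]
    congr 1
    ring
  rw [hd]

theorem family_eig (Q : QSys N) {l : ℂ} (hl : Complex.exp l ∈ Q.Λ)
    {Ψ : Matrix (Fin N) (Fin N) ℂ} {G : Fin N → ℂ} (hoff : OffWall G)
    (hn : Ψ.transpose * Q.g (Complex.exp l) * Ψ = 1) {X : ℂ → Matrix (Fin N) (Fin N) ℂ}
    (pX : ∀ y, X (y - 1) = X y) (bX : IsBirk (Q.f l) Ψ G X) :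
    Eig (Q.A0 l) (Q.g (Complex.exp l)) Ψ G := by
  obtain ⟨D, hF, hA, _, _⟩ := exists_dsys Q hl
  rw [← hF] at bX
  rw [← hA]
  refine ⟨?_, hn, ?_⟩
  · obtain ⟨Y, hY⟩ : ∃ Y : ℂ → Matrix (Fin N) (Fin N) ℂ, Y = fun y => D.F y * X y *
        Matrix.diagonal fun k => Complex.exp (-y * G k) := ⟨_, rfl⟩
    have hYlim : Tendsto Y rhp (𝓝 Ψ) := by
      rw [hY]
      exact tendsto_pi_nhds.mpr fun i => tendsto_pi_nhds.mpr fun j => bX i j
    have hn1 : Tendsto (fun n : ℕ => (n : ℂ)) atTop rhp := by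
      unfold rhp
      refine tendsto_inf.mpr ⟨?_, ?_⟩
      · rw [← tendsto_norm_atTop_iff_cobounded]
        simp only [Complex.norm_natCast]
        exact tendsto_natCast_atTop_atTop
      · exact tendsto_principal.mpr (Filter.Eventually.of_forall fun n => by simp)
    have hn2 : Tendsto (fun n : ℕ => ((n + 1 : ℕ) : ℂ)) atTop rhp := hn1.comp (tendsto_add_atTop_nat 1)
    have hinv : Tendsto (fun n : ℕ => (((n + 1 : ℕ) : ℂ))⁻¹) atTop (𝓝 0) := by
      have h1 : Tendsto (fun n : ℕ => ((n + 1 : ℕ) : ℂ)) atTop (Bornology.cobounded ℂ) :=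
        hn2.mono_right inf_le_left
      exact (tendsto_inv₀_cobounded (α := ℂ)).comp h1
    have hAlim : Tendsto (fun n : ℕ => D.A (((n + 1 : ℕ) : ℂ))⁻¹) atTop (𝓝 (D.A 0)) := by
      refine tendsto_pi_nhds.mpr fun i => tendsto_pi_nhds.mpr fun j => ?_
      have h1 : ContinuousAt (fun ε => D.A ε i j) 0 :=
        (D.A_hol 0 (Metric.mem_ball_self D.r_pos) i j).continuousAt
      exact h1.tendsto.comp hinv
    obtain ⟨Λi, hΛi⟩ : ∃ Λi : Matrix (Fin N) (Fin N) ℂ, Λi = Matrix.diagonal fun k => Complex.exp (-G k) :=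
      ⟨_, rfl⟩
    have hrel : ∀ᶠ n : ℕ in atTop, D.A (((n + 1 : ℕ) : ℂ))⁻¹ * Y n * Λi = Y ((n + 1 : ℕ) : ℂ) := by
      obtain ⟨n₀, hn₀⟩ := exists_nat_gt D.r⁻¹
      filter_upwards [eventually_ge_atTop 1, eventually_ge_atTop n₀] with n hn1 hn2
      have h1 : (((n + 1 : ℕ) : ℂ)) ∈ Complex.slitPlane := by
        refine Or.inl ?_
        rw [Complex.natCast_re]
        exact_mod_cast Nat.succ_pos n
      have e : ((n + 1 : ℕ) : ℂ) - 1 = n := by push_cast; ring
      have h2 : (((n + 1 : ℕ) : ℂ)) - 1 ∈ Complex.slitPlane := by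
        rw [e]
        refine Or.inl ?_
        rw [Complex.natCast_re]
        exact_mod_cast hn1
      have h3 : D.r⁻¹ < ‖((n + 1 : ℕ) : ℂ)‖ := by
        rw [Complex.norm_natCast]
        have h4 : (n₀ : ℝ) ≤ n := by exact_mod_cast hn2
        push_cast
        linarith
      have h4 := D.rel _ h1 h2 h3
      have h5 := pX ((n + 1 : ℕ) : ℂ)
      rw [e] at h4 h5
      rw [hY]
      simp only
      rw [h4, ← h5, hΛi]
      have h6 : (Matrix.diagonal fun k => Complex.exp (-(((n + 1 : ℕ) : ℂ)) * G k) : Matrix (Fin N) (Fin N) ℂ) =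
          (Matrix.diagonal fun k => Complex.exp (-(n : ℂ) * G k)) * Matrix.diagonal fun k => Complex.exp (-G k) := by
        rw [Matrix.diagonal_mul_diagonal]
        congr 1
        funext k
        rw [← Complex.exp_add]
        congr 1
        push_cast
        ring
      rw [h6]
      simp only [Matrix.mul_assoc]
    have hL : Tendsto (fun n : ℕ => D.A (((n + 1 : ℕ) : ℂ))⁻¹ * Y n * Λi) atTop (𝓝 (D.A 0 * Ψ * Λi)) :=
      (hAlim.mul (hYlim.comp hn1)).mul tendsto_const_nhds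
    have hR : Tendsto (fun n : ℕ => Y ((n + 1 : ℕ) : ℂ)) atTop (𝓝 Ψ) := hYlim.comp hn2
    have heq : D.A 0 * Ψ * Λi = Ψ := tendsto_nhds_unique (hL.congr' hrel) hR
    have hΛ : Λi * (Matrix.diagonal fun j => Complex.exp (G j)) = 1 := by
      rw [hΛi, Matrix.diagonal_mul_diagonal, ← Matrix.diagonal_one]
      congr 1
      funext k
      rw [← Complex.exp_add, neg_add_cancel, Complex.exp_zero]
    calc D.A 0 * Ψ = D.A 0 * Ψ * (Λi * Matrix.diagonal fun j => Complex.exp (G j)) := by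
          rw [hΛ, Matrix.mul_one]
      _ = (D.A 0 * Ψ * Λi) * Matrix.diagonal fun j => Complex.exp (G j) := by
          rw [Matrix.mul_assoc (D.A 0 * Ψ)]
      _ = _ := by rw [heq]
  · intro i j hij
    by_contra hne
    obtain ⟨n, hn⟩ := Complex.exp_eq_exp_iff_exists_int.mp hij
    apply hoff i j hne n
    rw [hn]
    simp
    ring

end Pool.Agent.DST
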