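import Pool.Agent.DST.ZDefs

/-!
# Project DST, module Z-Skew: the matrix `B = P⁻¹ (θ P - x P')`

Its diagonal vanishes, because it is antisymmetric (`Pᵀ g P = 1`, homogeneity of `g`).
-/

open scoped BigOperators Topology
open Filter

namespace Pool.Agent.DST

variable {N : ℕ}

private theorem zs_mul {A B : ℂ → Matrix (Fin N) (Fin N) ℂ} {A' B' : Matrix (Fin N) (Fin N) ℂ} {x : ℂ}
    (hA : ∀ i j, HasDerivAt (fun x => A x i j) (A' i j) x)
    (hB : ∀ i j, HasDerivAt (fun x => B x i j) (B' i j) x) (i j : Fin N) :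
    HasDerivAt (fun x => (A x * B x) i j) ((A' * B x + A x * B') i j) x := by
  have h1 : HasDerivAt (fun x => ∑ k, A x i k * B x k j) (∑ k, (A' i k * B x k j + A x i k * B' k j)) x :=
    HasDerivAt.fun_sum fun k _ => (hA i k).mul (hB k j)
  have h2 : (A' * B x + A x * B') i j = ∑ k, (A' i k * B x k j + A x i k * B' k j) := by
    rw [Matrix.add_apply, Matrix.mul_apply, Matrix.mul_apply, Finset.sum_add_distrib]
  have h3 : (fun x => (A x * B x) i j) = fun x => ∑ k, A x i k * B x k j := by
    funext x
    rw [Matrix.mul_apply]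
  rw [h2, h3]
  exact h1

theorem exists_B (Q : QSys N) {r : ℝ} (hb : Metric.ball (0 : ℂ) r ⊆ Q.Λ)
    {P : ℂ → Matrix (Fin N) (Fin N) ℂ}
    (hP : ∀ x ∈ Metric.ball (0 : ℂ) r, ∀ i j, DifferentiableAt ℂ (fun x => P x i j) x)
    (hn : ∀ x ∈ Metric.ball (0 : ℂ) r, (P x).transpose * Q.g x * P x = 1) :
    ∃ B : ℂ → Matrix (Fin N) (Fin N) ℂ, ∀ x ∈ Metric.ball (0 : ℂ) r,
      (∀ i j, DifferentiableAt ℂ (fun x => B x i j) x) ∧ (∀ j, B x j j = 0) ∧
        P x * B x = Matrix.diagonal Q.θ * P x -
          x • Matrix.of fun i j => deriv (fun x => P x i j) x := by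
  obtain ⟨P', hP'⟩ : ∃ P' : ℂ → Matrix (Fin N) (Fin N) ℂ,
      P' = fun x => Matrix.of fun i j => deriv (fun x => P x i j) x := ⟨_, rfl⟩
  have hPd : ∀ x ∈ Metric.ball (0 : ℂ) r, ∀ i j, HasDerivAt (fun x => P x i j) (P' x i j) x := by
    intro x hx i j
    rw [hP']
    exact (hP x hx i j).hasDerivAt
  have hP'd : ∀ x ∈ Metric.ball (0 : ℂ) r, ∀ i j, DifferentiableAt ℂ (fun x => P' x i j) x := by
    intro x hx i j
    have h1 : DifferentiableOn ℂ (fun x => P x i j) (Metric.ball 0 r) := fun y hy =>
      (hP y hy i j).differentiableWithinAt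
    have h2 := (h1.deriv Metric.isOpen_ball).differentiableAt (Metric.isOpen_ball.mem_nhds hx)
    rw [hP']
    exact h2
  have hgd : ∀ x ∈ Metric.ball (0 : ℂ) r, ∀ i j, HasDerivAt (fun x => Q.g x i j)
      ((Matrix.of fun i j => deriv (fun x => Q.g x i j) x : Matrix (Fin N) (Fin N) ℂ) i j) x := fun x hx i j =>
    Q.g_hol x (hb hx) i j
  obtain ⟨B, hB⟩ : ∃ B : ℂ → Matrix (Fin N) (Fin N) ℂ, B = fun x =>
      (P x).transpose * Q.g x * (Matrix.diagonal Q.θ * P x - x • P' x) := ⟨_, rfl⟩
  have dmul : ∀ {A C : ℂ → Matrix (Fin N) (Fin N) ℂ} {x : ℂ},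
      (∀ i j, DifferentiableAt ℂ (fun x => A x i j) x) → (∀ i j, DifferentiableAt ℂ (fun x => C x i j) x) →
      ∀ i j, DifferentiableAt ℂ (fun x => (A x * C x) i j) x := by
    intro A C x hA hC i j
    simp only [Matrix.mul_apply]
    exact DifferentiableAt.fun_sum fun k _ => (hA i k).mul (hC k j)
  refine ⟨B, fun x hx => ⟨fun i j => ?_, fun j => ?_, ?_⟩⟩
  · rw [hB]
    refine dmul (A := fun x => (P x).transpose * Q.g x) (C := fun x => Matrix.diagonal Q.θ * P x - x • P' x)
      (dmul (A := fun x => (P x).transpose) (C := Q.g) (fun a b => hP x hx b a)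
        (fun a b => (hgd x hx a b).differentiableAt)) (fun a b => ?_) i j
    simp only [Matrix.sub_apply, Matrix.smul_apply, smul_eq_mul]
    refine DifferentiableAt.sub ?_ (differentiableAt_id.mul (hP'd x hx a b))
    exact dmul (A := fun _ => Matrix.diagonal Q.θ) (C := P) (fun _ _ => differentiableAt_const _) (hP x hx) a b
  · -- antisymmetry
    have hsym : (Q.g x).transpose = Q.g x := Q.g_symm x (hb hx)
    obtain ⟨g', hg'⟩ : ∃ g' : Matrix (Fin N) (Fin N) ℂ,
        g' = Matrix.of fun i j => deriv (fun x => Q.g x i j) x := ⟨_, rfl⟩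
    have hder : (P' x).transpose * Q.g x * P x + (P x).transpose * g' * P x +
        (P x).transpose * Q.g x * P' x = 0 := by
      ext a b
      have h1 := zs_mul (A := fun x => (P x).transpose * Q.g x) (B := P)
        (A' := (P' x).transpose * Q.g x + (P x).transpose * g') (B' := P' x) (x := x)
        (zs_mul (A := fun x => (P x).transpose) (B := Q.g) (A' := (P' x).transpose) (B' := g') (x := x)
          (fun a b => hPd x hx b a) (fun a b => by rw [hg']; exact hgd x hx a b)) (hPd x hx) a b
      have h2 : HasDerivAt (fun x => ((P x).transpose * Q.g x * P x) a b) 0 x := by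
        refine (hasDerivAt_const x ((1 : Matrix (Fin N) (Fin N) ℂ) a b)).congr_of_eventuallyEq ?_
        filter_upwards [Metric.isOpen_ball.mem_nhds hx] with y hy
        rw [hn y hy]
      have h3 := h1.unique h2
      rw [Matrix.zero_apply, ← h3, Matrix.add_mul]
    have hhom : Q.g x * Matrix.diagonal Q.θ + Matrix.diagonal Q.θ * Q.g x + x • g' = 0 := by
      ext a b
      rw [hg']
      simp only [Matrix.add_apply, Matrix.mul_diagonal, Matrix.diagonal_mul, Matrix.smul_apply, smul_eq_mul,
        Matrix.of_apply, Matrix.zero_apply]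
      rw [Q.g_hom x (hb hx) a b]
      ring
    have hskew : B x + (B x).transpose = 0 := by
      have h1 : (B x).transpose = (P x).transpose * Matrix.diagonal Q.θ * Q.g x * P x -
          x • ((P' x).transpose * Q.g x * P x) := by
        rw [hB]
        simp only
        rw [Matrix.transpose_mul, Matrix.transpose_mul, Matrix.transpose_sub, Matrix.transpose_mul,
          Matrix.transpose_smul, Matrix.diagonal_transpose, Matrix.transpose_transpose, hsym, Matrix.sub_mul,
          Matrix.smul_mul]
        simp only [Matrix.mul_assoc]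
      have h2 : B x = (P x).transpose * Q.g x * Matrix.diagonal Q.θ * P x -
          x • ((P x).transpose * Q.g x * P' x) := by
        rw [hB]
        simp only
        rw [Matrix.mul_sub, Matrix.mul_smul]
        simp only [Matrix.mul_assoc]
      have h3 : (P x).transpose * (Q.g x * Matrix.diagonal Q.θ + Matrix.diagonal Q.θ * Q.g x + x • g') * P x = 0 := by
        rw [hhom, Matrix.mul_zero, Matrix.zero_mul]
      have h4 : x • ((P' x).transpose * Q.g x * P x + (P x).transpose * g' * P x +
          (P x).transpose * Q.g x * P' x) = 0 := by rw [hder, smul_zero]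
      rw [Matrix.mul_add, Matrix.mul_add, Matrix.add_mul, Matrix.add_mul, Matrix.mul_smul, Matrix.smul_mul] at h3
      rw [smul_add, smul_add] at h4
      rw [h1, h2]
      simp only [← Matrix.mul_assoc] at h3 h4 ⊢
      have h5 : ∀ a b c d e f g : Matrix (Fin N) (Fin N) ℂ, a + b + c = 0 → d + c + e = 0 →
          a - e + (b - d) = 0 := by
        intro a b c d e f g h h'
        have : a - e + (b - d) = (a + b + c) - (d + c + e) := by abel
        rw [this, h, h', sub_zero]
      exact h5 _ _ _ _ _ 0 0 h3 h4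
    have h1 := congrFun (congrFun hskew j) j
    rw [Matrix.add_apply, Matrix.transpose_apply, Matrix.zero_apply, ← two_mul] at h1
    exact (mul_eq_zero.mp h1).resolve_left two_ne_zero
  · have h1 : P x * ((P x).transpose * Q.g x) = 1 := mul_eq_one_comm.mp (hn x hx)
    rw [hB]
    simp only
    rw [← Matrix.mul_assoc, h1, Matrix.one_mul, hP']

end Pool.Agent.DST
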