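import Pool.Agent.DST.ZDefs

/-!
# Project DST, module Z-U: the shift operator at `λ = 0`; the derivative of the eigenvalues at `0` vanishes

The difference equation `J(0, w) = S(0, e^w) J(-1, w)` and the differential equation give, for `T z = S(0, z)` and small `z ≠ 0`,
`T(z) C(-z) - C(0) T(z) = z² T'(z) - z [θ, T(z)]`. The value and the derivative of both sides at `z = 0` show that `T(0)` commutes
with `C(0)` and `T(0) C'(0) = [θ, T(0)] + [T'(0), C(0)]`, so `C'(0)` has zero diagonal in the eigenbasis of `C(0)`. Differentiation of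
`C P = P U` gives the derivatives of the eigenvalues.
-/

open scoped BigOperators Topology
open Filter

namespace Pool.Agent.DST

variable {N : ℕ}

section norms

open scoped Matrix.Norms.Operator

private theorem has_mat (f : ℂ → Matrix (Fin N) (Fin N) ℂ) (f' : Matrix (Fin N) (Fin N) ℂ) (z : ℂ)
    (h : ∀ i j, HasDerivAt (fun z => f z i j) (f' i j) z) : HasDerivAt f f' z :=
  hasDerivAt_pi.2 fun i => hasDerivAt_pi.2 fun j => h i j

private theorem det_J' (Q : QSys N) {y w : ℂ} (h : y * Complex.exp w ∈ Q.Λ) : (Q.J y w).det ≠ 0 := by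
  intro h0
  have h1 := congrArg Matrix.det (Q.J_pair y w h)
  rw [Matrix.det_mul, h0, mul_zero] at h1
  have h2 : (Q.χ.map (evq y)).det = evq y Q.χ.det := by
    rw [RingHom.map_det]
    rfl
  rw [h2] at h1
  exact (Q.χ_det.map (evq y)).ne_zero h1.symm

/-- the derivative of `S(0, z)` -/
private noncomputable def T' (Q : QSys N) (z : ℂ) : Matrix (Fin N) (Fin N) ℂ :=
  Matrix.of fun i j => deriv (fun z => Q.S 0 z i j) z

private theorem T_diff (Q : QSys N) (h0 : (0 : ℂ) ∈ Q.Λ) {z : ℂ} (hz : -z ∈ Q.Λ) (i j : Fin N) :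
    DifferentiableAt ℂ (fun z => Q.S 0 z i j) z := by
  have h1 := Q.S_hol 0 h0 z (by rw [zero_sub]; exact hz) i j
  exact DifferentiableAt.comp z h1 (f := fun z : ℂ => ((0 : ℂ), z))
    ((differentiableAt_const _).prodMk differentiableAt_id)

private theorem T_has (Q : QSys N) (h0 : (0 : ℂ) ∈ Q.Λ) {z : ℂ} (hz : -z ∈ Q.Λ) :
    HasDerivAt (fun z => Q.S 0 z) (T' Q z) z :=
  has_mat _ _ _ fun i j => (T_diff Q h0 hz i j).hasDerivAt

private theorem key (Q : QSys N) (h0 : (0 : ℂ) ∈ Q.Λ) {z : ℂ} (hz : -z ∈ Q.Λ) (hz0 : z ≠ 0) :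
    Q.S 0 z * Q.C (-z) - Q.C 0 * Q.S 0 z =
      z • (z • T' Q z - (Matrix.diagonal Q.θ * Q.S 0 z - Q.S 0 z * Matrix.diagonal Q.θ)) := by
  set w := Complex.log z with hw
  have hexp : Complex.exp w = z := Complex.exp_log hz0
  have h1 : HasDerivAt (fun w => Q.J 0 w) ((Matrix.diagonal Q.θ - z⁻¹ • Q.C 0) * Q.J 0 w) w := by
    refine has_mat _ _ _ fun i j => ?_
    have h := Q.J_ode 0 w (by rw [zero_mul]; exact h0) i j
    rw [zero_mul, Complex.exp_neg, hexp] at h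
    exact h
  have hm : (-1 : ℂ) * Complex.exp w ∈ Q.Λ := by rw [hexp, neg_one_mul]; exact hz
  have h2 : HasDerivAt (fun w => Q.J (-1) w) ((Matrix.diagonal Q.θ - z⁻¹ • Q.C (-z)) * Q.J (-1) w) w := by
    refine has_mat _ _ _ fun i j => ?_
    have h := Q.J_ode (-1) w hm i j
    rw [Complex.exp_neg, hexp, neg_one_mul] at h
    exact h
  have h3 : HasDerivAt (fun w => Q.S 0 (Complex.exp w)) (z • T' Q z) w := by
    refine has_mat _ _ _ fun i j => ?_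
    have h4 : DifferentiableAt ℂ (fun z => Q.S 0 z i j) (Complex.exp w) := by
      rw [hexp]; exact T_diff Q h0 hz i j
    have h5 := h4.hasDerivAt.comp w (Complex.hasDerivAt_exp w)
    rw [hexp] at h5
    rw [Matrix.smul_apply, smul_eq_mul, mul_comm]
    exact h5
  have h4 : (fun w => Q.J 0 w) =ᶠ[𝓝 w] fun w => Q.S 0 (Complex.exp w) * Q.J (-1) w := by
    have hcont : ContinuousAt (fun w : ℂ => (-1 : ℂ) * Complex.exp w) w := by fun_prop
    have h5 := hcont.eventually (Q.open_Λ.mem_nhds hm)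
    filter_upwards [h5] with w' hw'
    have h6 := Q.J_shift 0 w' (by rw [zero_mul]; exact h0) (by rw [zero_sub]; exact hw')
    rw [zero_mul, zero_sub] at h6
    exact h6
  have h5 := (h3.mul h2).congr_of_eventuallyEq h4
  have h6 := h1.unique h5
  have h7 := h4.eq_of_nhds
  simp only [hexp] at h6 h7
  rw [h7] at h6
  have hJ : IsUnit (Q.J (-1) w) := by
    rw [Matrix.isUnit_iff_isUnit_det, isUnit_iff_ne_zero]
    exact det_J' Q hm
  have h8 : (Matrix.diagonal Q.θ - z⁻¹ • Q.C 0) * Q.S 0 z =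
      z • T' Q z + Q.S 0 z * (Matrix.diagonal Q.θ - z⁻¹ • Q.C (-z)) := by
    apply hJ.mul_right_cancel
    rw [Matrix.mul_assoc, h6, Matrix.add_mul, Matrix.mul_assoc]
  have h9 : z • ((Matrix.diagonal Q.θ - z⁻¹ • Q.C 0) * Q.S 0 z) = z • (Matrix.diagonal Q.θ * Q.S 0 z) - Q.C 0 * Q.S 0 z := by
    rw [Matrix.sub_mul, smul_sub, Matrix.smul_mul, smul_smul, mul_inv_cancel₀ hz0, one_smul]
  have h10 : z • (z • T' Q z + Q.S 0 z * (Matrix.diagonal Q.θ - z⁻¹ • Q.C (-z))) =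
      z • (z • T' Q z) + z • (Q.S 0 z * Matrix.diagonal Q.θ) - Q.S 0 z * Q.C (-z) := by
    rw [Matrix.mul_sub, smul_add, smul_sub, Matrix.mul_smul, smul_smul z z⁻¹, mul_inv_cancel₀ hz0, one_smul]
    abel
  have h11 := congrArg (fun M => z • M) h8
  rw [h9, h10] at h11
  rw [smul_sub, smul_sub]
  have h12 : Q.S 0 z * Q.C (-z) - Q.C 0 * Q.S 0 z =
      (z • (Matrix.diagonal Q.θ * Q.S 0 z) - Q.C 0 * Q.S 0 z) + Q.S 0 z * Q.C (-z) -
        z • (Matrix.diagonal Q.θ * Q.S 0 z) := by abel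
  rw [h12, h11]
  abel

/-- the value and the derivative at `0` -/
private theorem key0 (Q : QSys N) (h0 : (0 : ℂ) ∈ Q.Λ) :
    Q.S 0 0 * Q.C 0 = Q.C 0 * Q.S 0 0 ∧
      Q.S 0 0 * (Matrix.of fun i k => deriv (fun x => Q.C x i k) 0) =
        (Matrix.diagonal Q.θ * Q.S 0 0 - Q.S 0 0 * Matrix.diagonal Q.θ) + (T' Q 0 * Q.C 0 - Q.C 0 * T' Q 0) := by
  set C' : Matrix (Fin N) (Fin N) ℂ := Matrix.of fun i k => deriv (fun x => Q.C x i k) 0 with hC'
  have hn0 : -(0 : ℂ) ∈ Q.Λ := by rw [neg_zero]; exact h0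
  obtain ⟨ρ, hρ, hball⟩ := Metric.isOpen_iff.mp Q.open_Λ 0 h0
  have hneg : ∀ z ∈ Metric.ball (0 : ℂ) ρ, -z ∈ Q.Λ := fun z hz => hball (by simpa using hz)
  have hT := T_has Q h0 hn0
  have hTc : ContinuousAt (fun z => Q.S 0 z) 0 := hT.continuousAt
  have hT'c : ContinuousAt (fun z => T' Q z) 0 := by
    refine continuousAt_pi.2 fun i => continuousAt_pi.2 fun j => ?_
    have h1 : DifferentiableOn ℂ (fun z => Q.S 0 z i j) (Metric.ball (0 : ℂ) ρ) := fun z hz =>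
      (T_diff Q h0 (hneg z hz) i j).differentiableWithinAt
    have h2 := (h1.deriv Metric.isOpen_ball).differentiableAt (Metric.isOpen_ball.mem_nhds (Metric.mem_ball_self hρ))
    exact h2.continuousAt
  have hCn : HasDerivAt (fun z => Q.C (-z)) (-C') 0 := by
    refine has_mat _ _ _ fun i j => ?_
    have h1 : HasDerivAt (fun x => Q.C x i j) (C' i j) (-(0 : ℂ)) := by
      rw [neg_zero]
      exact (Q.C_hol 0 h0 i j).hasDerivAt
    have h2 := h1.comp (0 : ℂ) (hasDerivAt_neg (0 : ℂ))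
    rw [mul_neg_one] at h2
    exact h2
  set Φ : ℂ → Matrix (Fin N) (Fin N) ℂ := fun z => Q.S 0 z * Q.C (-z) - Q.C 0 * Q.S 0 z with hΦ
  set Ψ : ℂ → Matrix (Fin N) (Fin N) ℂ := fun z =>
    z • T' Q z - (Matrix.diagonal Q.θ * Q.S 0 z - Q.S 0 z * Matrix.diagonal Q.θ) with hΨ
  have hΦd : HasDerivAt Φ (T' Q 0 * Q.C (-0) + Q.S 0 0 * -C' - Q.C 0 * T' Q 0) 0 :=
    (hT.mul hCn).sub (hT.const_mul (Q.C 0))
  have hΨc : ContinuousAt Ψ 0 := by
    refine (continuousAt_id.smul hT'c).sub ((continuousAt_const.mul hTc).sub (hTc.mul continuousAt_const))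
  have hev : ∀ᶠ z in 𝓝[≠] (0 : ℂ), Φ z = z • Ψ z := by
    filter_upwards [self_mem_nhdsWithin, mem_nhdsWithin_of_mem_nhds (Metric.ball_mem_nhds (0 : ℂ) hρ)] with z hz hz'
    exact key Q h0 (hneg z hz') hz
  have hΦ0 : Φ 0 = 0 := by
    have h1 : Tendsto Φ (𝓝[≠] (0 : ℂ)) (𝓝 (Φ 0)) := hΦd.continuousAt.tendsto.mono_left nhdsWithin_le_nhds
    have h2 : Tendsto (fun z => z • Ψ z) (𝓝[≠] (0 : ℂ)) (𝓝 ((0 : ℂ) • Ψ 0)) :=
      (continuousAt_id.smul hΨc).tendsto.mono_left nhdsWithin_le_nhds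
    rw [zero_smul] at h2
    exact tendsto_nhds_unique h1 (h2.congr' (hev.mono fun z hz => hz.symm))
  have hcomm : Q.S 0 0 * Q.C 0 = Q.C 0 * Q.S 0 0 := by
    have h1 : Q.S 0 0 * Q.C (-0) - Q.C 0 * Q.S 0 0 = 0 := hΦ0
    rw [neg_zero] at h1
    exact sub_eq_zero.mp h1
  refine ⟨hcomm, ?_⟩
  have hΦd2 : HasDerivAt Φ (Ψ 0) 0 := by
    refine hasDerivAt_iff_tendsto_slope.mpr ?_
    refine (hΨc.tendsto.mono_left nhdsWithin_le_nhds).congr' ?_
    filter_upwards [hev, self_mem_nhdsWithin] with z hz hz0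
    have hz0' : z ≠ 0 := hz0
    rw [slope_def_module, hΦ0, hz, sub_zero, sub_zero, smul_smul, inv_mul_cancel₀ hz0', one_smul]
  have h1 := hΦd.unique hΦd2
  have h2 : Ψ 0 = -(Matrix.diagonal Q.θ * Q.S 0 0 - Q.S 0 0 * Matrix.diagonal Q.θ) := by
    show (0 : ℂ) • T' Q 0 - _ = _
    rw [zero_smul, zero_sub]
  rw [h2, neg_zero, Matrix.mul_neg] at h1
  have h3 : Q.S 0 0 * C' = (T' Q 0 * Q.C 0 - Q.C 0 * T' Q 0) -
      (T' Q 0 * Q.C 0 + -(Q.S 0 0 * C') - Q.C 0 * T' Q 0) := by abel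
  rw [h3, h1]
  abel

end norms

private theorem inv_eig {C₀ Ψ₀ : Matrix (Fin N) (Fin N) ℂ} {u : Fin N → ℂ}
    (heig : C₀ * Ψ₀ = Ψ₀ * Matrix.diagonal u) (hdet : Ψ₀.det ≠ 0) :
    Ψ₀⁻¹ * C₀ = Matrix.diagonal u * Ψ₀⁻¹ := by
  have hu : IsUnit Ψ₀.det := isUnit_iff_ne_zero.mpr hdet
  calc Ψ₀⁻¹ * C₀ = Ψ₀⁻¹ * (C₀ * Ψ₀) * Ψ₀⁻¹ := by
        rw [Matrix.mul_assoc, Matrix.mul_assoc C₀, Matrix.mul_nonsing_inv _ hu, Matrix.mul_one]
    _ = Matrix.diagonal u * Ψ₀⁻¹ := by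
        rw [heig, ← Matrix.mul_assoc, Matrix.nonsing_inv_mul _ hu, Matrix.one_mul]

theorem shift_zero (Q : QSys N) (h0 : (0 : ℂ) ∈ Q.Λ) {u : Fin N → ℂ}
    (inj : Function.Injective u) {Ψ₀ : Matrix (Fin N) (Fin N) ℂ}
    (heig : Q.C 0 * Ψ₀ = Ψ₀ * Matrix.diagonal u) (hdet : Ψ₀.det ≠ 0) :
    (∃ σ : Fin N → ℂ, Q.S 0 0 * Ψ₀ = Ψ₀ * Matrix.diagonal fun j => Complex.exp (σ j)) ∧
      ∀ j, (Ψ₀⁻¹ * (Matrix.of fun i k => deriv (fun x => Q.C x i k) 0) * Ψ₀) j j = 0 := by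
  obtain ⟨hcomm, hmain⟩ := key0 Q h0
  set T := Q.S 0 0 with hT
  set C' : Matrix (Fin N) (Fin N) ℂ := Matrix.of fun i k => deriv (fun x => Q.C x i k) 0 with hC'
  set Θ : Matrix (Fin N) (Fin N) ℂ := Matrix.diagonal Q.θ with hΘ
  have hu : IsUnit Ψ₀.det := isUnit_iff_ne_zero.mpr hdet
  have hinv := inv_eig heig hdet
  have h1 : Ψ₀ * Ψ₀⁻¹ = 1 := Matrix.mul_nonsing_inv _ hu
  have h2 : Ψ₀⁻¹ * Ψ₀ = 1 := Matrix.nonsing_inv_mul _ hu
  set D := Ψ₀⁻¹ * T * Ψ₀ with hD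
  have hTΨ : T * Ψ₀ = Ψ₀ * D := by
    rw [hD, ← Matrix.mul_assoc, ← Matrix.mul_assoc, h1, Matrix.one_mul]
  have hΨT : Ψ₀⁻¹ * T = D * Ψ₀⁻¹ := by
    rw [hD, Matrix.mul_assoc _ Ψ₀, h1, Matrix.mul_one]
  have hDu : Matrix.diagonal u * D = D * Matrix.diagonal u := by
    calc Matrix.diagonal u * D = (Matrix.diagonal u * Ψ₀⁻¹) * (T * Ψ₀) := by
          rw [hD]; simp only [Matrix.mul_assoc]
      _ = Ψ₀⁻¹ * (Q.C 0 * T) * Ψ₀ := by rw [← hinv]; simp only [Matrix.mul_assoc]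
      _ = Ψ₀⁻¹ * T * (Q.C 0 * Ψ₀) := by rw [← hcomm]; simp only [Matrix.mul_assoc]
      _ = D * Matrix.diagonal u := by rw [heig, hD]; simp only [Matrix.mul_assoc]
  have hDij : ∀ i j, i ≠ j → D i j = 0 := by
    intro i j hij
    have h3 := congrFun (congrFun hDu i) j
    rw [Matrix.diagonal_mul, Matrix.mul_diagonal] at h3
    have h4 : (u i - u j) * D i j = 0 := by linear_combination h3
    rcases mul_eq_zero.mp h4 with h | h
    · exact absurd (inj (sub_eq_zero.mp h)) hij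
    · exact h
  have hDd : D = Matrix.diagonal fun j => D j j := by
    ext i j
    by_cases hij : i = j
    · rw [hij, Matrix.diagonal_apply_eq]
    · rw [hDij i j hij, Matrix.diagonal_apply_ne _ hij]
  have hTdet : T.det ≠ 0 := Q.S_det 0 h0 0 (by rw [sub_zero]; exact h0)
  have hDdet : D.det ≠ 0 := by
    have h3 := congrArg Matrix.det hTΨ
    rw [Matrix.det_mul, Matrix.det_mul] at h3
    intro h4
    rw [h4, mul_zero] at h3
    exact mul_ne_zero hTdet hdet h3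
  have hDj : ∀ j, D j j ≠ 0 := by
    intro j
    rw [hDd, Matrix.det_diagonal] at hDdet
    exact Finset.prod_ne_zero_iff.mp hDdet j (Finset.mem_univ j)
  refine ⟨⟨fun j => Complex.log (D j j), ?_⟩, fun j => ?_⟩
  · have h3 : (fun j => Complex.exp (Complex.log (D j j))) = fun j => D j j :=
      funext fun j => Complex.exp_log (hDj j)
    rw [h3, ← hDd, hTΨ]
  · have h3 : D * (Ψ₀⁻¹ * C' * Ψ₀) = ((Ψ₀⁻¹ * Θ * Ψ₀) * D - D * (Ψ₀⁻¹ * Θ * Ψ₀)) +
        ((Ψ₀⁻¹ * T' Q 0 * Ψ₀) * Matrix.diagonal u - Matrix.diagonal u * (Ψ₀⁻¹ * T' Q 0 * Ψ₀)) := by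
      have e1 : D * (Ψ₀⁻¹ * C' * Ψ₀) = Ψ₀⁻¹ * (T * C') * Ψ₀ := by
        calc D * (Ψ₀⁻¹ * C' * Ψ₀) = (D * Ψ₀⁻¹) * (C' * Ψ₀) := by simp only [Matrix.mul_assoc]
          _ = _ := by rw [← hΨT]; simp only [Matrix.mul_assoc]
      have e2 : (Ψ₀⁻¹ * Θ * Ψ₀) * D = Ψ₀⁻¹ * (Θ * T) * Ψ₀ := by
        calc (Ψ₀⁻¹ * Θ * Ψ₀) * D = (Ψ₀⁻¹ * Θ) * (Ψ₀ * D) := by simp only [Matrix.mul_assoc]
          _ = _ := by rw [← hTΨ]; simp only [Matrix.mul_assoc]
      have e3 : D * (Ψ₀⁻¹ * Θ * Ψ₀) = Ψ₀⁻¹ * (T * Θ) * Ψ₀ := by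
        calc D * (Ψ₀⁻¹ * Θ * Ψ₀) = (D * Ψ₀⁻¹) * (Θ * Ψ₀) := by simp only [Matrix.mul_assoc]
          _ = _ := by rw [← hΨT]; simp only [Matrix.mul_assoc]
      have e4 : (Ψ₀⁻¹ * T' Q 0 * Ψ₀) * Matrix.diagonal u = Ψ₀⁻¹ * (T' Q 0 * Q.C 0) * Ψ₀ := by
        calc (Ψ₀⁻¹ * T' Q 0 * Ψ₀) * Matrix.diagonal u = (Ψ₀⁻¹ * T' Q 0) * (Ψ₀ * Matrix.diagonal u) := by
              simp only [Matrix.mul_assoc]
          _ = _ := by rw [← heig]; simp only [Matrix.mul_assoc]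
      have e5 : Matrix.diagonal u * (Ψ₀⁻¹ * T' Q 0 * Ψ₀) = Ψ₀⁻¹ * (Q.C 0 * T' Q 0) * Ψ₀ := by
        calc Matrix.diagonal u * (Ψ₀⁻¹ * T' Q 0 * Ψ₀) = (Matrix.diagonal u * Ψ₀⁻¹) * (T' Q 0 * Ψ₀) := by
              simp only [Matrix.mul_assoc]
          _ = _ := by rw [← hinv]; simp only [Matrix.mul_assoc]
      rw [e1, e2, e3, e4, e5, hmain]
      simp only [Matrix.mul_add, Matrix.mul_sub, Matrix.add_mul, Matrix.sub_mul]
    have h4 := congrFun (congrFun h3 j) j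
    rw [Matrix.add_apply, Matrix.sub_apply, Matrix.sub_apply] at h4
    rw [hDd] at h4
    rw [Matrix.diagonal_mul, Matrix.mul_diagonal, Matrix.diagonal_mul, Matrix.mul_diagonal, Matrix.diagonal_mul] at h4
    have h5 : D j j * (Ψ₀⁻¹ * C' * Ψ₀) j j = 0 := by
      rw [h4]; ring
    exact (mul_eq_zero.mp h5).resolve_left (hDj j)

theorem deriv_U (Q : QSys N) (h0 : (0 : ℂ) ∈ Q.Λ) {u : Fin N → ℂ}
    (inj : Function.Injective u) {Ψ₀ : Matrix (Fin N) (Fin N) ℂ}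
    (heig : Q.C 0 * Ψ₀ = Ψ₀ * Matrix.diagonal u) (hdet : Ψ₀.det ≠ 0) {r : ℝ} (hr : 0 < r)
    {P : ℂ → Matrix (Fin N) (Fin N) ℂ} {U : Fin N → ℂ → ℂ} (hP0 : P 0 = Ψ₀)
    (hU0 : ∀ j, U j 0 = u j)
    (hP : ∀ i j, DifferentiableAt ℂ (fun x => P x i j) 0) (hU : ∀ j, DifferentiableAt ℂ (U j) 0)
    (he : ∀ x ∈ Metric.ball (0 : ℂ) r, Q.C x * P x = P x * Matrix.diagonal fun j => U j x)
    (j : Fin N) : deriv (U j) 0 = 0 := by
  have hzero := (shift_zero Q h0 inj heig hdet).2 j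
  set C' : Matrix (Fin N) (Fin N) ℂ := Matrix.of fun i k => deriv (fun x => Q.C x i k) 0 with hC'
  set P' : Matrix (Fin N) (Fin N) ℂ := Matrix.of fun i k => deriv (fun x => P x i k) 0 with hP'
  have hu : IsUnit Ψ₀.det := isUnit_iff_ne_zero.mpr hdet
  have hmat : C' * Ψ₀ + Q.C 0 * P' = P' * Matrix.diagonal u + Ψ₀ * Matrix.diagonal (fun j => deriv (U j) 0) := by
    ext a b
    have h1 : HasDerivAt (fun x => (Q.C x * P x) a b) ((C' * P 0 + Q.C 0 * P') a b) 0 := by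
      have h2 : (fun x => (Q.C x * P x) a b) = fun x => ∑ k, Q.C x a k * P x k b := by
        funext x; rw [Matrix.mul_apply]
      rw [h2, Matrix.add_apply, Matrix.mul_apply, Matrix.mul_apply, ← Finset.sum_add_distrib]
      exact HasDerivAt.fun_sum fun k _ => (Q.C_hol 0 h0 a k).hasDerivAt.mul (hP k b).hasDerivAt
    have h3 : HasDerivAt (fun x => (P x * Matrix.diagonal fun j => U j x) a b)
        ((P' * Matrix.diagonal (fun j => U j 0) + P 0 * Matrix.diagonal (fun j => deriv (U j) 0)) a b) 0 := by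
      have h4 : (fun x => (P x * Matrix.diagonal fun j => U j x) a b) = fun x => P x a b * U b x := by
        funext x; rw [Matrix.mul_diagonal]
      rw [h4, Matrix.add_apply, Matrix.mul_diagonal, Matrix.mul_diagonal]
      exact (hP a b).hasDerivAt.mul (hU b).hasDerivAt
    have h5 : (fun x => (Q.C x * P x) a b) =ᶠ[𝓝 (0 : ℂ)] fun x => (P x * Matrix.diagonal fun j => U j x) a b := by
      filter_upwards [Metric.ball_mem_nhds (0 : ℂ) hr] with x hx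
      rw [he x hx]
    have h6 := h1.unique (h3.congr_of_eventuallyEq h5)
    have h7 : (fun j => U j 0) = u := funext hU0
    rw [hP0, h7] at h6
    exact h6
  have hinv := inv_eig heig hdet
  have h8 : Ψ₀⁻¹ * C' * Ψ₀ + Matrix.diagonal u * (Ψ₀⁻¹ * P') =
      (Ψ₀⁻¹ * P') * Matrix.diagonal u + Matrix.diagonal (fun j => deriv (U j) 0) := by
    have h9 := congrArg (fun M => Ψ₀⁻¹ * M) hmat
    simp only [Matrix.mul_add] at h9
    rw [← Matrix.mul_assoc, ← Matrix.mul_assoc, ← Matrix.mul_assoc, ← Matrix.mul_assoc, hinv,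
      Matrix.nonsing_inv_mul _ hu, Matrix.one_mul, Matrix.mul_assoc (Matrix.diagonal u)] at h9
    exact h9
  have h10 := congrFun (congrFun h8 j) j
  rw [Matrix.add_apply, Matrix.add_apply, hzero, Matrix.diagonal_mul, Matrix.mul_diagonal,
    Matrix.diagonal_apply_eq] at h10
  linear_combination -h10

end Pool.Agent.DST
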