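import Pool.Agent.DST.ZEigC
import Pool.Agent.DST.ZSkew
import Pool.Agent.DST.ZU

/-!
# Project DST, module Z-Data: construction of the local data

The holomorphic eigenbasis (`exists_eigC`), the antisymmetric matrix (`exists_B`), the shift operator at `0`
(`shift_zero`); `v j = dslope (dslope (U j) 0) 0` and a primitive of it on the ball; the constants `κ`, `c`, `b`
and a smaller radius by continuity at `0`.
-/

open scoped BigOperators Topology
open Filter

namespace Pool.Agent.DST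

variable {N : ℕ}

/-- the second divided difference -/
private theorem ZData_v {r : ℝ} (hr : 0 < r) {f : ℂ → ℂ}
    (hf : ∀ x ∈ Metric.ball (0 : ℂ) r, DifferentiableAt ℂ f x) (h0 : deriv f 0 = 0) :
    ∃ v V : ℂ → ℂ, (∀ x ∈ Metric.ball (0 : ℂ) r, DifferentiableAt ℂ v x) ∧
      (∀ x, f x = f 0 + x ^ 2 * v x) ∧
      (∀ x ∈ Metric.ball (0 : ℂ) r, HasDerivAt V (v x) x) ∧ V 0 = 0 := by
  have hmem : Metric.ball (0 : ℂ) r ∈ 𝓝 (0 : ℂ) := Metric.ball_mem_nhds 0 hr
  have hf' : DifferentiableOn ℂ f (Metric.ball (0 : ℂ) r) := fun x hx =>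
    (hf x hx).differentiableWithinAt
  have h1 : DifferentiableOn ℂ (dslope (dslope f 0) 0) (Metric.ball (0 : ℂ) r) :=
    (Complex.differentiableOn_dslope hmem).2 ((Complex.differentiableOn_dslope hmem).2 hf')
  obtain ⟨V, hV0, hV⟩ := h1.isExactOn_ball.with_val_at 0 0
  refine ⟨dslope (dslope f 0) 0, V, fun x hx => ?_, fun x => ?_, hV, hV0⟩
  · exact (h1 x hx).differentiableAt (Metric.isOpen_ball.mem_nhds hx)
  · have h2 := sub_smul_dslope f 0 x
    have h3 := sub_smul_dslope (dslope f 0) 0 x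
    rw [dslope_same, h0, sub_zero, sub_zero, smul_eq_mul] at h3
    rw [sub_zero, smul_eq_mul, ← h3] at h2
    rw [pow_two, mul_assoc, h2]
    ring

theorem exists_isSD (Q : QSys N) (h0 : (0 : ℂ) ∈ Q.Λ) {u : Fin N → ℂ}
    {Ψ₀ : Matrix (Fin N) (Fin N) ℂ} (heig : Q.C 0 * Ψ₀ = Ψ₀ * Matrix.diagonal u)
    (hnorm : Ψ₀.transpose * Q.g 0 * Ψ₀ = 1) {φ : ℝ}
    (hadm : ∀ i j, i ≠ j → ((u i - u j) * Complex.exp (-φ * Complex.I)).im ≠ 0) :
    ∃ (s : SD N) (P : ℂ → Matrix (Fin N) (Fin N) ℂ) (σ : Fin N → ℂ), s.u = u ∧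
      IsSD Q Ψ₀ φ s P σ := by
  have inj : Function.Injective u := by
    intro i j hij
    by_contra h1
    refine hadm i j h1 ?_
    rw [hij, sub_self, zero_mul, Complex.zero_im]
  have hdet : Ψ₀.det ≠ 0 := by
    intro h1
    have h2 := congrArg Matrix.det hnorm
    rw [Matrix.det_mul, h1, mul_zero, Matrix.det_one] at h2
    exact zero_ne_one h2
  obtain ⟨r₁, hr₁, hball, P, U, hP0, hU0, hall⟩ := exists_eigC Q.open_Λ h0 Q.C_hol
    (fun x hx i j => (Q.g_hol x hx i j).differentiableAt) Q.C_self inj heig hnorm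
  have hmem : (0 : ℂ) ∈ Metric.ball (0 : ℂ) r₁ := Metric.mem_ball_self hr₁
  obtain ⟨B, hB⟩ := exists_B Q hball (fun x hx => (hall x hx).1) fun x hx => (hall x hx).2.2.2
  obtain ⟨⟨σ, hσ⟩, _⟩ := shift_zero Q h0 inj heig hdet
  have hdU : ∀ j, deriv (U j) 0 = 0 := fun j =>
    deriv_U Q h0 inj heig hdet hr₁ hP0 hU0 (hall 0 hmem).1 (hall 0 hmem).2.1
      (fun x hx => (hall x hx).2.2.1) j
  have hv := fun j => ZData_v hr₁ (fun x hx => (hall x hx).2.1 j) (hdU j)
  choose v V hv1 hv2 hV1 hV0 using hv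
  -- the angle
  obtain ⟨ω, hω⟩ : ∃ ω, ω = Complex.exp (φ * Complex.I) := ⟨_, rfl⟩
  have hωinv : ω⁻¹ = Complex.exp (-φ * Complex.I) := by
    rw [hω, ← Complex.exp_neg, neg_mul]
  obtain ⟨a, ha⟩ : ∃ a : Fin N → Fin N → ℂ, a = fun i j => ω⁻¹ * (u i - u j) := ⟨_, rfl⟩
  have haim : ∀ i j, i ≠ j → (a i j).im ≠ 0 := by
    intro i j hij
    have h1 := hadm i j hij
    rw [ha]
    dsimp only
    rw [hωinv, mul_comm]
    exact h1
  have hκ : ∀ᶠ κ : ℝ in 𝓝[>] 0, κ ≤ 1 ∧ ∀ i j, i ≠ j → κ * |(a i j).re| < |(a i j).im| / 2 := by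
    refine (eventually_nhdsWithin_of_eventually_nhds (eventually_le_nhds one_pos)).and
      (eventually_nhdsWithin_of_eventually_nhds ?_)
    rw [eventually_all]
    intro i
    rw [eventually_all]
    intro j
    by_cases hij : i = j
    · exact Eventually.of_forall fun _ h => absurd hij h
    · have h1 : 0 < |(a i j).im| / 2 := half_pos (abs_pos.2 (haim i j hij))
      have h2 : ContinuousAt (fun κ : ℝ => κ * |(a i j).re|) 0 := by fun_prop
      have h3 := h2.eventually_lt_const (u := |(a i j).im| / 2) (by simpa using h1)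
      filter_upwards [h3] with κ hκ _ using hκ
  obtain ⟨κ, ⟨hκ1, hκ2⟩, hκ0⟩ := (hκ.and self_mem_nhdsWithin).exists
  have hκ0 : 0 < κ := hκ0
  obtain ⟨d, hd⟩ : ∃ d : Fin N → Fin N → ℂ, d = fun i j =>
      if 0 < (a i j).im then (κ : ℂ) - Complex.I else κ + Complex.I := ⟨_, rfl⟩
  have hdre : ∀ i j, i ≠ j → |(a i j).im| / 2 < (a i j * d i j).re := by
    intro i j hij
    have h1 := hκ2 i j hij
    have h2 := neg_abs_le (a i j).re
    have h3 : -(κ * |(a i j).re|) ≤ κ * (a i j).re := by nlinarith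
    rw [hd]
    dsimp only
    split_ifs with h4
    · rw [Complex.mul_re, Complex.sub_re, Complex.sub_im, Complex.ofReal_re, Complex.ofReal_im,
        Complex.I_re, Complex.I_im]
      rw [abs_of_pos h4] at h1 ⊢
      linarith
    · rw [Complex.mul_re, Complex.add_re, Complex.add_im, Complex.ofReal_re, Complex.ofReal_im,
        Complex.I_re, Complex.I_im]
      have h5 : (a i j).im ≤ 0 := not_lt.1 h4
      rw [abs_of_nonpos h5] at h1 ⊢
      linarith
  have hc : ∀ᶠ c : ℝ in 𝓝[>] 0, ∀ i j, i ≠ j → c < |(a i j).im| / 2 := by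
    refine eventually_nhdsWithin_of_eventually_nhds ?_
    rw [eventually_all]
    intro i
    rw [eventually_all]
    intro j
    by_cases hij : i = j
    · exact Eventually.of_forall fun _ h => absurd hij h
    · filter_upwards [eventually_lt_nhds (half_pos (abs_pos.2 (haim i j hij)))] with c hc _ using hc
  obtain ⟨c, hc1, hc0⟩ := (hc.and self_mem_nhdsWithin).exists
  have hc0 : 0 < c := hc0
  -- bounds
  obtain ⟨b, hb⟩ : ∃ b : ℝ, b = 1 + (∑ i, ∑ j, ‖B 0 i j‖ + ∑ j, ‖v j 0‖) := ⟨_, rfl⟩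
  have hbB : ∀ i j, ‖B 0 i j‖ < b := by
    intro i j
    have h1 : ‖B 0 i j‖ ≤ ∑ j, ‖B 0 i j‖ := Finset.single_le_sum (f := fun j => ‖B 0 i j‖)
      (fun _ _ => norm_nonneg _) (Finset.mem_univ j)
    have h2 : ∑ j, ‖B 0 i j‖ ≤ ∑ i, ∑ j, ‖B 0 i j‖ :=
      Finset.single_le_sum (f := fun i => ∑ j, ‖B 0 i j‖)
      (fun _ _ => Finset.sum_nonneg fun _ _ => norm_nonneg _) (Finset.mem_univ i)
    have h3 : 0 ≤ ∑ j, ‖v j 0‖ := Finset.sum_nonneg fun _ _ => norm_nonneg _
    linarith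
  have hbv : ∀ j, ‖v j 0‖ < b := by
    intro j
    have h1 : ‖v j 0‖ ≤ ∑ j, ‖v j 0‖ := Finset.single_le_sum (f := fun j => ‖v j 0‖)
      (fun _ _ => norm_nonneg _) (Finset.mem_univ j)
    have h3 : 0 ≤ ∑ i, ∑ j, ‖B 0 i j‖ :=
      Finset.sum_nonneg fun _ _ => Finset.sum_nonneg fun _ _ => norm_nonneg _
    linarith
  have hev : ∀ᶠ x : ℂ in 𝓝 0, ((∀ i j, ‖B x i j‖ ≤ b) ∧ ∀ j, ‖v j x‖ ≤ b) ∧
      ∀ i j, i ≠ j → c ≤ (ω⁻¹ * ((u i + x ^ 2 * v i x) - (u j + x ^ 2 * v j x)) * d i j).re := by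
    refine (Eventually.and ?_ ?_).and ?_
    · rw [eventually_all]
      intro i
      rw [eventually_all]
      intro j
      have h1 : ContinuousAt (fun x => ‖B x i j‖) 0 := ((hB 0 hmem).1 i j).continuousAt.norm
      filter_upwards [h1.eventually_lt_const (hbB i j)] with x hx using hx.le
    · rw [eventually_all]
      intro j
      have h1 : ContinuousAt (fun x => ‖v j x‖) 0 := (hv1 j 0 hmem).continuousAt.norm
      filter_upwards [h1.eventually_lt_const (hbv j)] with x hx using hx.le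
    · rw [eventually_all]
      intro i
      rw [eventually_all]
      intro j
      by_cases hij : i = j
      · exact Eventually.of_forall fun _ h => absurd hij h
      · have h1 : ContinuousAt (fun x =>
            (ω⁻¹ * ((u i + x ^ 2 * v i x) - (u j + x ^ 2 * v j x)) * d i j).re) 0 := by
          have h2 := (hv1 i 0 hmem).continuousAt
          have h3 := (hv1 j 0 hmem).continuousAt
          refine Complex.continuous_re.continuousAt.comp ?_
          fun_prop
        have h4 : c < (ω⁻¹ * ((u i + (0 : ℂ) ^ 2 * v i 0) - (u j + (0 : ℂ) ^ 2 * v j 0)) *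
            d i j).re := by
          have h5 : ω⁻¹ * ((u i + (0 : ℂ) ^ 2 * v i 0) - (u j + (0 : ℂ) ^ 2 * v j 0)) = a i j := by
            rw [ha]
            ring
          rw [h5]
          exact (hc1 i j hij).trans (hdre i j hij)
        filter_upwards [h1.eventually_const_lt h4] with x hx _ using hx.le
  obtain ⟨r₂, hr₂, hr₂'⟩ := Metric.eventually_nhds_iff_ball.1 hev
  obtain ⟨r, hr⟩ : ∃ r, r = min r₁ r₂ := ⟨_, rfl⟩
  have hrpos : 0 < r := by
    rw [hr]
    exact lt_min hr₁ hr₂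
  have hin1 : ∀ x ∈ Metric.ball (0 : ℂ) r, x ∈ Metric.ball (0 : ℂ) r₁ := fun x hx =>
    Metric.ball_subset_ball (by rw [hr]; exact min_le_left _ _) hx
  have hin2 : ∀ x ∈ Metric.ball (0 : ℂ) r, x ∈ Metric.ball (0 : ℂ) r₂ := fun x hx =>
    Metric.ball_subset_ball (by rw [hr]; exact min_le_right _ _) hx
  refine ⟨{ r := r, r_pos := hrpos, ω := ω, ω_norm := ?_, u := u, v := v, V := V, B := B, b := b
            v_hol := fun x hx j => hv1 j x (hin1 x hx)
            V_deriv := fun x hx j => hV1 j x (hin1 x hx)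
            V_zero := hV0
            B_hol := fun x hx => (hB x (hin1 x hx)).1
            B_diag := fun x hx => (hB x (hin1 x hx)).2.1
            B_le := fun x hx => (hr₂' x (hin2 x hx)).1.1
            v_le := fun x hx => (hr₂' x (hin2 x hx)).1.2
            κ := κ, κ_pos := hκ0, κ_le := hκ1, d := d, d_eq := ?_
            c := c, c_pos := hc0
            d_re := fun x hx => (hr₂' x (hin2 x hx)).2 }, P, σ, rfl, ?_⟩
  · rw [hω, Complex.norm_exp_ofReal_mul_I]
  · intro i j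
    rw [hd]
    dsimp only
    split_ifs
    · exact Or.inr rfl
    · exact Or.inl rfl
  · refine ⟨fun x hx => hball (hin1 x hx), hω, hP0, fun x hx => (hall x (hin1 x hx)).1,
      fun x hx => ?_, fun x hx => (hall x (hin1 x hx)).2.2.2, fun x hx => (hB x (hin1 x hx)).2.2,
      hσ⟩
    rw [(hall x (hin1 x hx)).2.2.1]
    congr 2
    funext j
    rw [hv2 j x, hU0 j]
    rfl

end Pool.Agent.DST
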