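import Pool.Agent.DST.ZDefs

/-!
# Project DST, module Z-Wall: the walls on the ray are countable for small `λ`

PLAN. For `i ≠ j`, `n`: `f t = Im (Gx t i - Gx t j) = const + b e^{-t} - Im (V_i(e^t ω) - V_j(e^t ω))`,
`b = Im (ω⁻¹ (u_i - u_j)) ≠ 0`. Derivative: `f' t = -b e^{-t} - Im ((v_i - v_j)(e^t ω) e^t ω)`, and the second term is
at most `2 b' e^t` in absolute value (`v_le`, `b' = s.b`); for `t < L` with `2 b' e^t < |b| e^{-t}` (all pairs;
also `e^t < r`) `f'` has a constant sign on `(-∞, L)`, so `f` is injective there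
(`strictMonoOn_of_deriv_pos`, `strictAntiOn_of_deriv_neg`), and the set `{t < L | f t = 2πn}` has at most one
element. `Z = ` the union over `i ≠ j`, `n` (countable).
-/

open scoped BigOperators Topology
open Filter

namespace Pool.Agent.DST

private theorem gx_deriv {N : ℕ} (s : SD N) (σ : Fin N → ℂ) (j : Fin N) {t : ℝ}
    (ht : Real.exp t < s.r) :
    HasDerivAt (fun t : ℝ => s.Gx σ t j)
      (s.ω⁻¹ * s.u j * ((Real.exp (-t) * -1 : ℝ) : ℂ) -
        s.v j (Real.exp t * s.ω) * (Real.exp t * s.ω)) t := by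
  have hmem : (Real.exp t : ℂ) * s.ω ∈ Metric.ball (0 : ℂ) s.r := by
    rw [mem_ball_zero_iff, norm_mul, s.ω_norm, mul_one, Complex.norm_real, Real.norm_eq_abs,
      abs_of_pos (Real.exp_pos t)]
    exact ht
  have h1 : HasDerivAt (fun t : ℝ => ((Real.exp (-t) : ℝ) : ℂ)) ((Real.exp (-t) * -1 : ℝ) : ℂ) t :=
    ((Real.hasDerivAt_exp (-t)).comp t (hasDerivAt_neg t)).ofReal_comp
  have h2 : HasDerivAt (fun t : ℝ => ((Real.exp t : ℝ) : ℂ) * s.ω)
      (((Real.exp t : ℝ) : ℂ) * s.ω) t :=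
    (Real.hasDerivAt_exp t).ofReal_comp.mul_const s.ω
  have h3 : HasDerivAt (fun t : ℝ => s.V j (((Real.exp t : ℝ) : ℂ) * s.ω))
      (s.v j (Real.exp t * s.ω) * (Real.exp t * s.ω)) t :=
    HasDerivAt.comp t (s.V_deriv _ hmem j) h2
  have h4 : HasDerivAt (fun t : ℝ => σ j + s.ω⁻¹ * s.u j * ((Real.exp (-t) : ℝ) : ℂ))
      (s.ω⁻¹ * s.u j * ((Real.exp (-t) * -1 : ℝ) : ℂ)) t :=
    (h1.const_mul _).const_add _
  exact h4.sub h3

theorem walls_countable {N : ℕ} (s : SD N) (σ : Fin N → ℂ)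
    (hadm : ∀ i j, i ≠ j → (s.ω⁻¹ * (s.u i - s.u j)).im ≠ 0) :
    ∃ L : ℝ, ∃ Z : Set ℝ, Z.Countable ∧ ∀ t < L, t ∉ Z → OffWall (s.Gx σ t) := by
  have hev : ∀ᶠ t : ℝ in atBot, Real.exp t < s.r ∧ ∀ i j, i ≠ j →
      2 * |s.b| * Real.exp t < |(s.ω⁻¹ * (s.u i - s.u j)).im| * Real.exp (-t) := by
    refine Filter.Eventually.and ?_ ?_
    · exact Real.tendsto_exp_atBot.eventually (gt_mem_nhds s.r_pos)
    · refine eventually_all.2 fun i => eventually_all.2 fun j => ?_
      by_cases hij : i = j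
      · exact Eventually.of_forall fun t h => absurd hij h
      · have hb : 0 < |(s.ω⁻¹ * (s.u i - s.u j)).im| := abs_pos.2 (hadm i j hij)
        have h1 : Tendsto (fun t : ℝ => 2 * |s.b| * Real.exp t) atBot (𝓝 (2 * |s.b| * 0)) :=
          Real.tendsto_exp_atBot.const_mul _
        rw [mul_zero] at h1
        have h2 : Tendsto (fun t : ℝ => |(s.ω⁻¹ * (s.u i - s.u j)).im| * Real.exp (-t)) atBot
            atTop := (Real.tendsto_exp_atTop.comp tendsto_neg_atBot_atTop).const_mul_atTop hb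
        filter_upwards [h1.eventually (gt_mem_nhds one_pos), h2.eventually_gt_atTop 1] with t h3 h4 _
        linarith
  obtain ⟨L, hL⟩ := eventually_atBot.1 hev
  have hder : ∀ i j (t : ℝ), t ≤ L → HasDerivAt (fun t : ℝ => (s.Gx σ t i - s.Gx σ t j).im)
      (-(s.ω⁻¹ * (s.u i - s.u j)).im * Real.exp (-t) -
        ((s.v i (Real.exp t * s.ω) - s.v j (Real.exp t * s.ω)) * (Real.exp t * s.ω)).im) t := by
    intro i j t ht
    have h1 := (gx_deriv s σ i (hL t ht).1).sub (gx_deriv s σ j (hL t ht).1)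
    have h2 := (Complex.imCLM.hasFDerivAt (x := s.Gx σ t i - s.Gx σ t j)).comp_hasDerivAt t h1
    have h3 : Complex.imCLM ((s.ω⁻¹ * s.u i * ((Real.exp (-t) * -1 : ℝ) : ℂ) -
        s.v i (Real.exp t * s.ω) * (Real.exp t * s.ω)) -
        (s.ω⁻¹ * s.u j * ((Real.exp (-t) * -1 : ℝ) : ℂ) -
        s.v j (Real.exp t * s.ω) * (Real.exp t * s.ω))) =
        -(s.ω⁻¹ * (s.u i - s.u j)).im * Real.exp (-t) -
        ((s.v i (Real.exp t * s.ω) - s.v j (Real.exp t * s.ω)) * (Real.exp t * s.ω)).im := by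
      rw [Complex.imCLM_apply]
      have h4 : (s.ω⁻¹ * s.u i * ((Real.exp (-t) * -1 : ℝ) : ℂ) -
        s.v i (Real.exp t * s.ω) * (Real.exp t * s.ω)) -
        (s.ω⁻¹ * s.u j * ((Real.exp (-t) * -1 : ℝ) : ℂ) -
        s.v j (Real.exp t * s.ω) * (Real.exp t * s.ω)) =
          ((Real.exp (-t) * -1 : ℝ) : ℂ) * (s.ω⁻¹ * (s.u i - s.u j)) -
          (s.v i (Real.exp t * s.ω) - s.v j (Real.exp t * s.ω)) * (Real.exp t * s.ω) := by
        ring
      rw [h4, Complex.sub_im, Complex.im_ofReal_mul]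
      ring
    rw [← h3]
    exact h2
  have hsmall : ∀ i j (t : ℝ), t ≤ L →
      |((s.v i (Real.exp t * s.ω) - s.v j (Real.exp t * s.ω)) * (Real.exp t * s.ω)).im| ≤
        2 * |s.b| * Real.exp t := by
    intro i j t ht
    have hn : ‖(Real.exp t : ℂ) * s.ω‖ = Real.exp t := by
      rw [norm_mul, s.ω_norm, mul_one, Complex.norm_real, Real.norm_eq_abs,
        abs_of_pos (Real.exp_pos t)]
    have hmem : (Real.exp t : ℂ) * s.ω ∈ Metric.ball (0 : ℂ) s.r := by
      rw [mem_ball_zero_iff, hn]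
      exact (hL t ht).1
    refine (Complex.abs_im_le_norm _).trans ?_
    rw [norm_mul, hn]
    apply mul_le_mul_of_nonneg_right _ (Real.exp_pos t).le
    refine (norm_sub_le _ _).trans ?_
    have h1 := s.v_le _ hmem i
    have h2 := s.v_le _ hmem j
    have h3 := le_abs_self s.b
    linarith
  have hinj : ∀ i j, i ≠ j → Set.InjOn (fun t : ℝ => (s.Gx σ t i - s.Gx σ t j).im) (Set.Iio L) := by
    intro i j hij
    have hc : ContinuousOn (fun t : ℝ => (s.Gx σ t i - s.Gx σ t j).im) (Set.Iio L) := by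
      intro t ht
      exact (hder i j t (le_of_lt ht)).continuousAt.continuousWithinAt
    rcases lt_or_gt_of_ne (hadm i j hij) with hneg | hpos
    · apply StrictMonoOn.injOn
      apply strictMonoOn_of_deriv_pos (convex_Iio L) hc
      intro t ht
      rw [interior_Iio] at ht
      have ht' : t ≤ L := le_of_lt ht
      rw [(hder i j t ht').deriv]
      have h1 := (hL t ht').2 i j hij
      rw [abs_of_neg hneg] at h1
      have h2 := (abs_le.1 (hsmall i j t ht')).2
      linarith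
    · apply StrictAntiOn.injOn
      apply strictAntiOn_of_deriv_neg (convex_Iio L) hc
      intro t ht
      rw [interior_Iio] at ht
      have ht' : t ≤ L := le_of_lt ht
      rw [(hder i j t ht').deriv]
      have h1 := (hL t ht').2 i j hij
      rw [abs_of_pos hpos] at h1
      have h2 := (abs_le.1 (hsmall i j t ht')).1
      linarith
  refine ⟨L, ⋃ i, ⋃ j, ⋃ (_ : i ≠ j), ⋃ n : ℤ,
    {t : ℝ | t < L ∧ (s.Gx σ t i - s.Gx σ t j).im = 2 * Real.pi * n}, ?_, ?_⟩
  · refine Set.countable_iUnion fun i => Set.countable_iUnion fun j => Set.countable_iUnion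
      fun hij => Set.countable_iUnion fun n => ?_
    apply Set.Subsingleton.countable
    rintro t ⟨h1, h2⟩ t' ⟨h1', h2'⟩
    exact hinj i j hij h1 h1' (h2.trans h2'.symm)
  · intro t ht hZ i j hij n h
    apply hZ
    exact Set.mem_iUnion.2 ⟨i, Set.mem_iUnion.2 ⟨j, Set.mem_iUnion.2 ⟨hij,
      Set.mem_iUnion.2 ⟨n, ht, h⟩⟩⟩⟩

end Pool.Agent.DST
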