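import Pool.Agent.DST.ZW

/-!
# Project DST, module Z-X: the connection matrix is entire and quasi-periodic

`X y = (Jt y ξ)⁻¹ W(y, ξ)` for any `ξ` in the domain, so `X` is entire; the shift relation of `Jt` and the asymptotics of `W`
along the rays `ξ = t d` give `X (y - 1) = X y diag(e^{σ_j})`.
-/

open scoped BigOperators Topology
open Filter

namespace Pool.Agent.DST

variable {N : ℕ} {Q : QSys N} {Ψ₀ : Matrix (Fin N) (Fin N) ℂ} {φ : ℝ} {s : SD N}
  {P : ℂ → Matrix (Fin N) (Fin N) ℂ} {σ : Fin N → ℂ} {c₁ M : ℝ} {h : Fin N → Fin N → ℂ → ℂ → ℂ}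

private theorem zx_mul {M K : ℂ → Matrix (Fin N) (Fin N) ℂ}
    {x : ℂ} (hM : ∀ i j, DifferentiableAt ℂ (fun e => M e i j) x)
    (hK : ∀ i j, DifferentiableAt ℂ (fun e => K e i j) x) (i j : Fin N) :
    DifferentiableAt ℂ (fun e => (M e * K e) i j) x := by
  have h : DifferentiableAt ℂ (fun e => ∑ k, M e i k * K e k j) x :=
    DifferentiableAt.fun_sum fun k _ => (hM i k).mul (hK k j)
  simpa only [Matrix.mul_apply] using h

private theorem zx_det {M : ℂ → Matrix (Fin N) (Fin N) ℂ} {x : ℂ}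
    (hM : ∀ i j, DifferentiableAt ℂ (fun e => M e i j) x) :
    DifferentiableAt ℂ (fun e => (M e).det) x := by
  simp only [Matrix.det_apply']
  refine DifferentiableAt.fun_sum fun σ _ => DifferentiableAt.const_mul ?_ _
  exact DifferentiableAt.fun_finsetProd fun i _ => hM (σ i) i

private theorem zx_inv {M : ℂ → Matrix (Fin N) (Fin N) ℂ} {x : ℂ}
    (hM : ∀ i j, DifferentiableAt ℂ (fun e => M e i j) x) (h0 : (M x).det ≠ 0) (i j : Fin N) :
    DifferentiableAt ℂ (fun e => ((M e)⁻¹) i j) x := by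
  have h1 : ∀ e, ((M e)⁻¹) i j = ((M e).det)⁻¹ * ((M e).updateRow j (Pi.single i 1)).det := by
    intro e
    rw [Matrix.inv_def, Ring.inverse_eq_inv', Matrix.smul_apply, Matrix.adjugate_apply,
      smul_eq_mul]
  simp only [h1]
  refine ((zx_det hM).inv h0).mul (zx_det fun a b => ?_)
  by_cases hab : a = j
  · subst hab
    simp only [Matrix.updateRow_self]
    exact differentiableAt_const _
  · simp only [Matrix.updateRow_ne hab]
    exact hM a b

private theorem zx_lamΛ (hs : IsSD Q Ψ₀ φ s P σ) (hH : s.IsH c₁ M h) {y ξ : ℂ} (hy : (y, ξ) ∈ s.dom c₁) :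
    y * Complex.exp (φ * Complex.I) / ξ ∈ Q.Λ := by
  have h1 := hs.ball (s.lam_mem hH.adm hy)
  rw [SD.lam, hs.ω] at h1
  exact h1

private theorem zx_W_hol (hs : IsSD Q Ψ₀ φ s P σ) (hH : s.IsH c₁ M h) {y ξ : ℂ} (hy : (y, ξ) ∈ s.dom c₁)
    (i j : Fin N) : DifferentiableAt ℂ (fun y => s.W P h y ξ i j) y := by
  have h1 : ∀ i j, DifferentiableAt ℂ (fun y => P (s.lam y ξ) i j) y := fun i j =>
    DifferentiableAt.comp (g := fun x => P x i j) (f := fun y => s.lam y ξ) y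
      (hs.P_hol _ (s.lam_mem hH.adm hy) i j) (s.lam_holy y ξ)
  have h2 : ∀ i j, DifferentiableAt ℂ (fun y => ((1 : Matrix (Fin N) (Fin N) ℂ) +
      Matrix.of fun i j => h i j y ξ) i j) y := fun i j => by
    simp only [Matrix.add_apply, Matrix.of_apply]
    exact (differentiableAt_const _).add ((hH.good i j).holy y ξ hy)
  have h3 : ∀ i j, DifferentiableAt ℂ (fun y => (Matrix.diagonal (fun j => Complex.exp (s.Ax j y ξ)) :
      Matrix (Fin N) (Fin N) ℂ) i j) y := fun i j => by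
    by_cases hij : i = j
    · subst hij
      simp only [Matrix.diagonal_apply_eq]
      exact (s.Ax_holy hH.adm hy i).cexp
    · simp only [Matrix.diagonal_apply_ne _ hij]
      exact differentiableAt_const _
  unfold SD.W SD.Kf
  exact zx_mul h1 (zx_mul h2 h3) i j

theorem X_entire (hs : IsSD Q Ψ₀ φ s P σ) (hH : s.IsH c₁ M h)
    {X : ℂ → Matrix (Fin N) (Fin N) ℂ}
    (hX : ∀ y ξ, (y, ξ) ∈ s.dom c₁ → Q.Jt φ y ξ * X y = s.W P h y ξ) (i j : Fin N) :
    Differentiable ℂ fun y => X y i j := by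
  intro y₀
  have hc : 0 < c₁ := by linarith [hH.adm.1]
  obtain ⟨ξ₀, hξ₀⟩ : ∃ ξ₀ : ℝ, ξ₀ = c₁ * (2 + ‖y₀‖) + 1 := ⟨_, rfl⟩
  have hdom : ∀ y ∈ Metric.ball y₀ 1, (y, (ξ₀ : ℂ)) ∈ s.dom c₁ := by
    intro y hy
    have h1 : ‖y‖ ≤ 1 + ‖y₀‖ := by
      have h2 : ‖y - y₀‖ < 1 := by rwa [Metric.mem_ball, dist_eq_norm] at hy
      calc ‖y‖ = ‖(y - y₀) + y₀‖ := by rw [sub_add_cancel]
        _ ≤ ‖y - y₀‖ + ‖y₀‖ := norm_add_le _ _
        _ ≤ 1 + ‖y₀‖ := by linarith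
    show c₁ * (1 + ‖y‖) < (ξ₀ : ℂ).re + s.κ * |(ξ₀ : ℂ).im|
    rw [Complex.ofReal_re, Complex.ofReal_im, abs_zero, mul_zero, add_zero, hξ₀]
    have h3 : c₁ * (1 + ‖y‖) ≤ c₁ * (2 + ‖y₀‖) := mul_le_mul_of_nonneg_left (by linarith) hc.le
    linarith
  have h0 := hdom y₀ (Metric.mem_ball_self one_pos)
  have hξne : (ξ₀ : ℂ) ≠ 0 := (s.norm_lt hH.adm h0).2.2.1
  have hEq : (fun y => X y i j) =ᶠ[𝓝 y₀] fun y => ((Q.Jt φ y ξ₀)⁻¹ * s.W P h y ξ₀) i j := by
    filter_upwards [Metric.ball_mem_nhds y₀ one_pos] with y hy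
    have hd := hdom y hy
    have hdet : IsUnit (Q.Jt φ y ξ₀).det := isUnit_iff_ne_zero.2 (Q.Jt_det hξne (zx_lamΛ hs hH hd))
    rw [← hX y ξ₀ hd, Matrix.nonsing_inv_mul_cancel_left _ _ hdet]
  refine DifferentiableAt.congr_of_eventuallyEq ?_ hEq
  refine zx_mul (zx_inv (fun i j => Q.Jt_holy hξne (zx_lamΛ hs hH h0) i j) (Q.Jt_det hξne (zx_lamΛ hs hH h0)))
    (fun i j => zx_W_hol hs hH h0 i j) i j

private theorem zx_zero (c : ℂ) {δ : ℂ} (hδ : 0 < δ.re) :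
    Tendsto (fun t : ℝ => c / ((t : ℂ) * δ)) atTop (𝓝 0) := by
  have h1 : Tendsto (fun t : ℝ => (c / δ) * ((t⁻¹ : ℝ) : ℂ)) atTop (𝓝 ((c / δ) * ((0 : ℝ) : ℂ))) :=
    (Complex.continuous_ofReal.continuousAt.tendsto.comp tendsto_inv_atTop_zero).const_mul _
  rw [Complex.ofReal_zero, mul_zero] at h1
  refine h1.congr fun t => ?_
  rw [Complex.ofReal_inv, div_mul_eq_div_div_swap, div_eq_mul_inv (c / δ)]

private theorem zx_dom (s : SD N) (c₁ : ℝ) (y : ℂ) {δ : ℂ} (hδ : 0 < δ.re) :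
    ∀ᶠ t : ℝ in atTop, (y, (t : ℂ) * δ) ∈ s.dom c₁ := by
  have h1 : Tendsto (fun t : ℝ => t * δ.re) atTop atTop := tendsto_id.atTop_mul_const hδ
  filter_upwards [h1.eventually_gt_atTop (c₁ * (1 + ‖y‖))] with t ht
  show c₁ * (1 + ‖y‖) < ((t : ℂ) * δ).re + s.κ * |((t : ℂ) * δ).im|
  rw [Complex.re_ofReal_mul]
  have h2 : 0 ≤ s.κ * |((t : ℂ) * δ).im| := mul_nonneg s.κ_pos.le (abs_nonneg _)
  linarith

private theorem zx_lam0 (s : SD N) (y : ℂ) {δ : ℂ} (hδ : 0 < δ.re) :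
    Tendsto (fun t : ℝ => s.lam y ((t : ℂ) * δ)) atTop (𝓝 0) := zx_zero _ hδ

private theorem zx_H (hH : s.IsH c₁ M h) (y : ℂ) {δ : ℂ} (hδ : 0 < δ.re) (i j : Fin N) :
    Tendsto (fun t : ℝ => h i j y ((t : ℂ) * δ)) atTop (𝓝 0) := by
  have h1 : Tendsto (fun t : ℝ => M / ‖(t : ℂ) * δ‖) atTop (𝓝 0) := by
    have h2 := (zx_zero (M : ℂ) hδ).norm
    rw [norm_zero] at h2
    have h3 : Tendsto (fun t : ℝ => ‖(t : ℂ) * δ‖) atTop atTop := by
      have h4 : 0 < ‖δ‖ := norm_pos_iff.2 (by rintro rfl; simp at hδ)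
      have h5 : Tendsto (fun t : ℝ => |t| * ‖δ‖) atTop atTop := tendsto_abs_atTop_atTop.atTop_mul_const h4
      refine h5.congr fun t => ?_
      rw [norm_mul, Complex.norm_real, Real.norm_eq_abs]
    exact h3.const_div_atTop M
  refine squeeze_zero_norm' ?_ h1
  filter_upwards [zx_dom s c₁ y hδ] with t ht
  have h2 := (hH.good i j).le y _ ht
  rwa [pow_one] at h2

private theorem zx_L (hs : IsSD Q Ψ₀ φ s P σ) (hH : s.IsH c₁ M h) (y : ℂ) {δ : ℂ} (hδ : 0 < δ.re) :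
    Tendsto (fun t : ℝ => P (s.lam y ((t : ℂ) * δ)) * (1 + Matrix.of fun i j => h i j y ((t : ℂ) * δ)))
      atTop (𝓝 Ψ₀) := by
  have h1 : Tendsto (fun t : ℝ => P (s.lam y ((t : ℂ) * δ))) atTop (𝓝 Ψ₀) := by
    rw [← hs.P0]
    refine tendsto_pi_nhds.2 fun i => tendsto_pi_nhds.2 fun j => ?_
    have h2 := (hs.P_hol 0 (Metric.mem_ball_self s.r_pos) i j).continuousAt.tendsto
    exact h2.comp (zx_lam0 s y hδ)
  have h2 : Tendsto (fun t : ℝ => (1 : Matrix (Fin N) (Fin N) ℂ) +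
      Matrix.of fun i j => h i j y ((t : ℂ) * δ)) atTop (𝓝 (1 + 0)) := by
    refine tendsto_const_nhds.add ?_
    exact tendsto_pi_nhds.2 fun i => tendsto_pi_nhds.2 fun j => zx_H hH y hδ i j
  have h3 := h1.mul h2
  rw [add_zero, mul_one] at h3
  exact h3

private theorem zx_S (hs : IsSD Q Ψ₀ φ s P σ) (y : ℂ) {δ : ℂ} (hδ : 0 < δ.re) :
    Tendsto (fun t : ℝ => Q.S (s.lam y ((t : ℂ) * δ)) (s.ω / ((t : ℂ) * δ))) atTop (𝓝 (Q.S 0 0)) := by
  have h0 : (0 : ℂ) ∈ Q.Λ := hs.ball (Metric.mem_ball_self s.r_pos)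
  refine tendsto_pi_nhds.2 fun i => tendsto_pi_nhds.2 fun j => ?_
  have h1 := (Q.S_hol 0 h0 0 (by rwa [sub_zero]) i j).continuousAt.tendsto
  exact h1.comp ((zx_lam0 s y hδ).prodMk_nhds (zx_zero _ hδ))

private theorem zx_psi (hs : IsSD Q Ψ₀ φ s P σ) : Ψ₀.det ≠ 0 := by
  intro h0
  have h1 := hs.norm 0 (Metric.mem_ball_self s.r_pos)
  rw [hs.P0] at h1
  have h2 := congrArg Matrix.det h1
  rw [Matrix.det_mul, h0, mul_zero, Matrix.det_one] at h2
  exact zero_ne_one h2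

private theorem zx_diag (f : Fin N → ℂ) : (Matrix.diagonal fun j => Complex.exp (-f j)) *
    (Matrix.diagonal fun j => Complex.exp (f j)) = 1 := by
  rw [Matrix.diagonal_mul_diagonal, ← Matrix.diagonal_one]
  congr 1
  funext j
  rw [← Complex.exp_add, neg_add_cancel, Complex.exp_zero]

private theorem zx_main (hs : IsSD Q Ψ₀ φ s P σ) (hH : s.IsH c₁ M h)
    {X : ℂ → Matrix (Fin N) (Fin N) ℂ}
    (hX : ∀ y ξ, (y, ξ) ∈ s.dom c₁ → Q.Jt φ y ξ * X y = s.W P h y ξ) (y : ℂ) {δ : ℂ} (hδ : 0 < δ.re) :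
    (X y).det ≠ 0 ∧ ∀ i j, Tendsto (fun t : ℝ =>
      Complex.exp (s.Ax i y ((t : ℂ) * δ) - s.Ax j (y - 1) ((t : ℂ) * δ)) * ((X y)⁻¹ * X (y - 1)) i j)
      atTop (𝓝 ((Matrix.diagonal fun j => Complex.exp (σ j) : Matrix (Fin N) (Fin N) ℂ) i j)) := by
  have hL := zx_L hs hH y hδ
  have hL' := zx_L hs hH (y - 1) hδ
  have hS := zx_S hs y hδ
  have hΨ := zx_psi hs
  have c1 : Continuous fun A : Matrix (Fin N) (Fin N) ℂ => A.det := continuous_id.matrix_det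
  have c2 : Continuous fun A : Matrix (Fin N) (Fin N) ℂ => A.adjugate := continuous_id.matrix_adjugate
  have hLdet := (c1.tendsto Ψ₀).comp hL
  have hev : ∀ᶠ t : ℝ in atTop, (P (s.lam y ((t : ℂ) * δ)) *
      (1 + Matrix.of fun i j => h i j y ((t : ℂ) * δ))).det ≠ 0 :=
    hLdet.eventually_ne hΨ
  have hdet : (X y).det ≠ 0 := by
    obtain ⟨t, ht1, ht2⟩ := (hev.and (zx_dom s c₁ y hδ)).exists
    intro h0
    apply ht1
    rw [← W_tail s P h y, ← hX y _ ht2, Matrix.det_mul, Matrix.det_mul, h0, mul_zero, zero_mul]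
  refine ⟨hdet, ?_⟩
  have hLinv : Tendsto (fun t : ℝ => (P (s.lam y ((t : ℂ) * δ)) *
      (1 + Matrix.of fun i j => h i j y ((t : ℂ) * δ)))⁻¹) atTop (𝓝 Ψ₀⁻¹) := by
    simp only [Matrix.inv_def, Ring.inverse_eq_inv']
    exact (((c1.tendsto Ψ₀).comp hL).inv₀ hΨ).smul ((c2.tendsto Ψ₀).comp hL)
  have hZ : Tendsto (fun t : ℝ => (Matrix.diagonal fun j => Complex.exp (s.Ax j y ((t : ℂ) * δ))) *
      ((X y)⁻¹ * X (y - 1)) * (Matrix.diagonal fun j => Complex.exp (-s.Ax j (y - 1) ((t : ℂ) * δ)))) atTop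
      (𝓝 (Matrix.diagonal fun j => Complex.exp (σ j))) := by
    have h1 := hLinv.mul (hS.mul hL')
    rw [hs.shift, Matrix.nonsing_inv_mul_cancel_left _ _ (isUnit_iff_ne_zero.2 hΨ)] at h1
    refine h1.congr' ?_
    filter_upwards [hev, zx_dom s c₁ y hδ, zx_dom s c₁ (y - 1) hδ] with t ht hd hd'
    obtain ⟨ξ, hξ⟩ : ∃ ξ : ℂ, ξ = (t : ℂ) * δ := ⟨_, rfl⟩
    rw [← hξ] at ht hd hd' ⊢
    have hξ0 : ξ ≠ 0 := (s.norm_lt hH.adm hd).2.2.1
    have hsh : Q.Jt φ y ξ = Q.S (s.lam y ξ) (s.ω / ξ) * Q.Jt φ (y - 1) ξ := by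
      rw [SD.lam, hs.ω]
      exact Q.Jt_shift hξ0 (zx_lamΛ hs hH hd) (zx_lamΛ hs hH hd')
    have hXX : X y * ((X y)⁻¹ * X (y - 1)) = X (y - 1) :=
      Matrix.mul_nonsing_inv_cancel_left _ _ (isUnit_iff_ne_zero.2 hdet)
    have key : (P (s.lam y ξ) * (1 + Matrix.of fun i j => h i j y ξ)) *
        ((Matrix.diagonal fun j => Complex.exp (s.Ax j y ξ)) *
          ((X y)⁻¹ * X (y - 1)) * (Matrix.diagonal fun j => Complex.exp (-s.Ax j (y - 1) ξ))) =
        Q.S (s.lam y ξ) (s.ω / ξ) * (P (s.lam (y - 1) ξ) * (1 + Matrix.of fun i j => h i j (y - 1) ξ)) := by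
      rw [← W_tail s P h y ξ, ← W_tail s P h (y - 1) ξ, ← hX y ξ hd, ← hX (y - 1) ξ hd']
      calc Q.Jt φ y ξ * X y * (Matrix.diagonal fun j => Complex.exp (-s.Ax j y ξ)) *
            ((Matrix.diagonal fun j => Complex.exp (s.Ax j y ξ)) *
              ((X y)⁻¹ * X (y - 1)) * (Matrix.diagonal fun j => Complex.exp (-s.Ax j (y - 1) ξ)))
          = Q.Jt φ y ξ * X y * ((Matrix.diagonal fun j => Complex.exp (-s.Ax j y ξ)) *
            (Matrix.diagonal fun j => Complex.exp (s.Ax j y ξ))) *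
              ((X y)⁻¹ * X (y - 1)) * (Matrix.diagonal fun j => Complex.exp (-s.Ax j (y - 1) ξ)) := by
            simp only [Matrix.mul_assoc]
        _ = Q.Jt φ y ξ * (X y * ((X y)⁻¹ * X (y - 1))) *
              (Matrix.diagonal fun j => Complex.exp (-s.Ax j (y - 1) ξ)) := by
            rw [zx_diag, Matrix.mul_one]
            simp only [Matrix.mul_assoc]
        _ = Q.S (s.lam y ξ) (s.ω / ξ) * (Q.Jt φ (y - 1) ξ * X (y - 1) *
              (Matrix.diagonal fun j => Complex.exp (-s.Ax j (y - 1) ξ))) := by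
            rw [hXX, hsh]
            simp only [Matrix.mul_assoc]
    rw [← key, Matrix.nonsing_inv_mul_cancel_left _ _ (isUnit_iff_ne_zero.2 ht)]
  intro i j
  have h1 := (tendsto_pi_nhds.1 ((tendsto_pi_nhds.1 hZ) i)) j
  refine h1.congr fun t => ?_
  rw [Matrix.mul_diagonal, Matrix.diagonal_mul, Complex.exp_sub, Complex.exp_neg, div_eq_mul_inv]
  ring

private theorem zx_V (s : SD N) (j : Fin N) (y : ℂ) {δ : ℂ} (hδ : 0 < δ.re) :
    Tendsto (fun t : ℝ => s.V j (s.lam y ((t : ℂ) * δ))) atTop (𝓝 0) := by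
  have h1 := (s.V_deriv 0 (Metric.mem_ball_self s.r_pos) j).continuousAt.tendsto
  rw [s.V_zero] at h1
  exact h1.comp (zx_lam0 s y hδ)

theorem X_shift (hs : IsSD Q Ψ₀ φ s P σ) (hH : s.IsH c₁ M h)
    {X : ℂ → Matrix (Fin N) (Fin N) ℂ}
    (hX : ∀ y ξ, (y, ξ) ∈ s.dom c₁ → Q.Jt φ y ξ * X y = s.W P h y ξ) (y : ℂ) :
    X (y - 1) = X y * Matrix.diagonal fun j => Complex.exp (σ j) := by
  have h1re : 0 < (1 : ℂ).re := by simp
  have hdet : (X y).det ≠ 0 := (zx_main hs hH hX y h1re).1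
  have hM : (X y)⁻¹ * X (y - 1) = Matrix.diagonal fun j => Complex.exp (σ j) := by
    ext i j
    by_cases hij : i = j
    · subst hij
      have h2 := (zx_main hs hH hX y h1re).2 i i
      have h3 : Tendsto (fun t : ℝ => Complex.exp (s.Ax i y ((t : ℂ) * 1) - s.Ax i (y - 1) ((t : ℂ) * 1)))
          atTop (𝓝 1) := by
        have h4 : Tendsto (fun t : ℝ => (y - 1) * s.V i (s.lam (y - 1) ((t : ℂ) * 1)) -
            y * s.V i (s.lam y ((t : ℂ) * 1))) atTop (𝓝 ((y - 1) * 0 - y * 0)) :=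
          ((zx_V s i (y - 1) h1re).const_mul _).sub ((zx_V s i y h1re).const_mul _)
        rw [mul_zero, mul_zero, sub_zero] at h4
        have h5 := h4.cexp
        rw [Complex.exp_zero] at h5
        refine h5.congr fun t => ?_
        congr 1
        unfold SD.Ax
        ring
      have h4 := h3.mul_const (((X y)⁻¹ * X (y - 1)) i i)
      rw [one_mul] at h4
      exact tendsto_nhds_unique h4 h2
    · have hdre : 0 < (s.d i j).re := by
        rcases s.d_eq i j with h0 | h0 <;> rw [h0] <;> simp [s.κ_pos]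
      have h2 := (zx_main hs hH hX y hdre).2 i j
      rw [Matrix.diagonal_apply_ne _ hij] at h2 ⊢
      have hc := s.d_re 0 (Metric.mem_ball_self s.r_pos) i j hij
      have h3 : Tendsto (fun t : ℝ => (y - 1) * s.V j (s.lam (y - 1) ((t : ℂ) * s.d i j)) -
            y * s.V i (s.lam y ((t : ℂ) * s.d i j))) atTop (𝓝 ((y - 1) * 0 - y * 0)) :=
          ((zx_V s j (y - 1) hdre).const_mul _).sub ((zx_V s i y hdre).const_mul _)
      rw [mul_zero, mul_zero, sub_zero] at h3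
      have h4 : ∀ᶠ t : ℝ in atTop, -1 < ((y - 1) * s.V j (s.lam (y - 1) ((t : ℂ) * s.d i j)) -
            y * s.V i (s.lam y ((t : ℂ) * s.d i j))).re := by
        have h5 := (Complex.continuous_re.tendsto (0 : ℂ)).comp h3
        exact h5.eventually (lt_mem_nhds (by simp))
      have h6 : ∀ᶠ t : ℝ in atTop, ‖((X y)⁻¹ * X (y - 1)) i j‖ ≤
          ‖Complex.exp (s.Ax i y ((t : ℂ) * s.d i j) - s.Ax j (y - 1) ((t : ℂ) * s.d i j)) *
            ((X y)⁻¹ * X (y - 1)) i j‖ := by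
        filter_upwards [h4, eventually_ge_atTop (1 / s.c)] with t ht1 ht2
        rw [norm_mul]
        refine le_mul_of_one_le_left (norm_nonneg _) ?_
        rw [Complex.norm_exp, Real.one_le_exp_iff]
        have h7 : s.Ax i y ((t : ℂ) * s.d i j) - s.Ax j (y - 1) ((t : ℂ) * s.d i j) =
            (t : ℂ) * (s.ω⁻¹ * ((s.u i + 0 ^ 2 * s.v i 0) - (s.u j + 0 ^ 2 * s.v j 0)) * s.d i j) +
            ((y - 1) * s.V j (s.lam (y - 1) ((t : ℂ) * s.d i j)) -
              y * s.V i (s.lam y ((t : ℂ) * s.d i j))) := by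
          unfold SD.Ax
          ring
        rw [h7, Complex.add_re, Complex.re_ofReal_mul]
        have h8 : 1 ≤ t * s.c := by
          rwa [div_le_iff₀ s.c_pos] at ht2
        have ht0 : 0 ≤ t := le_trans (by have := s.c_pos; positivity) ht2
        have h9 := mul_le_mul_of_nonneg_left hc ht0
        linarith
      have h7 := ge_of_tendsto h2.norm h6
      rw [norm_zero] at h7
      exact norm_le_zero_iff.1 h7
  rw [← hM, Matrix.mul_nonsing_inv_cancel_left _ _ (isUnit_iff_ne_zero.2 hdet)]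

end Pool.Agent.DST
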