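import Pool.Agent.DST.ZIter
import Pool.Agent.DST.ZData
import Pool.Agent.DST.ZX
import Pool.Agent.DST.ZBirk
import Pool.Agent.DST.ZWall
import Pool.Agent.DST.ZAsy

/-!
# Project DST, block Z: the Stokes families (assembly)

PLAN. `exists_isSD` gives `s, P, σ` with `s.u = u`; `exists_isH` gives `c₁, M, h`; `exists_X` gives `X₀`. Put
`X y = X₀ y * diag(e^{σ_j y})`. Entire: `X_entire`. Periodic: `X_shift`:
`X(y-1) = X₀ y diag(e^σ) diag(e^{σ(y-1)}) = X y`. `family_birk` gives `L₁`, `walls_countable` gives `L₂`, `Z`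
(`hadm`, `s.ω = exp (φ i)`), `asy_zero` gives `ε` (`X 0 = X₀ 0`). `L = min L₁ L₂`. For `t < L`, `t ∉ Z`:
`exp (t + φ i) = e^t ω` in the ball, so in `Λ` (`hs.ball`); `Ψ = P(e^t ω)`, `G = Gx σ t`; `Eig` by `family_eig`
(`hs.norm`).
-/

open scoped BigOperators Topology
open Filter

namespace Pool.Agent.DST

variable {N : ℕ}

/-- Block Z. The Stokes families, for all `y` at once, and their values at small `λ` and at
`y = 0`. -/
theorem stokes_family (Q : QSys N) (h0 : (0 : ℂ) ∈ Q.Λ) {u : Fin N → ℂ}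
    {Ψ₀ : Matrix (Fin N) (Fin N) ℂ} (heig : Q.C 0 * Ψ₀ = Ψ₀ * Matrix.diagonal u)
    (hnorm : Ψ₀.transpose * Q.g 0 * Ψ₀ = 1) {φ : ℝ}
    (hadm : ∀ i j, i ≠ j → ((u i - u j) * Complex.exp (-φ * Complex.I)).im ≠ 0) :
    ∃ L : ℝ, ∃ Z : Set ℝ, Z.Countable ∧ ∃ ε > 0, ∀ s < L, s ∉ Z →
      Complex.exp (s + φ * Complex.I) ∈ Q.Λ ∧
      ∃ (Ψ : Matrix (Fin N) (Fin N) ℂ) (G : Fin N → ℂ) (X : ℂ → Matrix (Fin N) (Fin N) ℂ),
        Eig (Q.A0 (s + φ * Complex.I)) (Q.g (Complex.exp (s + φ * Complex.I))) Ψ G ∧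
        OffWall G ∧ (∀ i j, Differentiable ℂ fun y => X y i j) ∧ (∀ y, X (y - 1) = X y) ∧
        IsBirk (Q.f (s + φ * Complex.I)) Ψ G X ∧
        ∀ φ' ∈ Set.Ioo (φ - Real.pi / 2 - ε) (φ + Real.pi / 2 + ε), ∀ i j,
          Tendsto (fun r : ℝ => (Q.J 0 (r + φ' * Complex.I) * X 0 *
            Matrix.diagonal fun k => Complex.exp (-u k * Complex.exp (-(r + φ' * Complex.I)))) i j)
            atBot (𝓝 (Ψ₀ i j)) := by
  obtain ⟨s, P, σ, hsu, hs⟩ := exists_isSD Q h0 heig hnorm hadm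
  obtain ⟨c₁, M, h, hH⟩ := s.exists_isH
  obtain ⟨X₀, hX₀⟩ := exists_X hs hH
  obtain ⟨L₁, hL₁⟩ := family_birk hs hH hX₀
  have hωinv : s.ω⁻¹ = Complex.exp (-φ * Complex.I) := by
    rw [hs.ω, ← Complex.exp_neg, neg_mul]
  obtain ⟨L₂, Z, hZ, hL₂⟩ := walls_countable s σ (by
    intro i j hij
    rw [hωinv, hsu, mul_comm]
    exact hadm i j hij)
  obtain ⟨ε, hε, hasy⟩ := asy_zero hs hH (X := X₀ 0) (fun ξ hξ => hX₀ 0 ξ hξ)
  refine ⟨min L₁ L₂, Z, hZ, ε, hε, ?_⟩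
  intro t ht htZ
  have ht1 : t < L₁ := lt_of_lt_of_le ht (min_le_left _ _)
  have ht2 : t < L₂ := lt_of_lt_of_le ht (min_le_right _ _)
  obtain ⟨hball, hbirk⟩ := hL₁ t ht1
  have hexp : Complex.exp (t + φ * Complex.I) = Real.exp t * s.ω := by
    rw [Complex.exp_add, hs.ω, Complex.ofReal_exp]
  have hΛ : Complex.exp (t + φ * Complex.I) ∈ Q.Λ := by
    rw [hexp]
    exact hs.ball hball
  have hper : ∀ y, X₀ (y - 1) * (Matrix.diagonal fun j => Complex.exp (σ j * (y - 1))) =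
      X₀ y * Matrix.diagonal fun j => Complex.exp (σ j * y) := by
    intro y
    rw [X_shift hs hH hX₀ y, Matrix.mul_assoc, Matrix.diagonal_mul_diagonal]
    have h1 : (fun j => Complex.exp (σ j) * Complex.exp (σ j * (y - 1))) =
        fun j => Complex.exp (σ j * y) := by
      funext j
      rw [← Complex.exp_add]
      ring_nf
    rw [h1]
  refine ⟨hΛ, P (Real.exp t * s.ω), s.Gx σ t,
    fun y => X₀ y * Matrix.diagonal fun j => Complex.exp (σ j * y), ?_, hL₂ t ht2 htZ, ?_, hper,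
    hbirk, ?_⟩
  · refine family_eig Q hΛ (hL₂ t ht2 htZ) ?_ (fun y => hper y) hbirk
    rw [hexp]
    exact hs.norm _ hball
  · intro i j
    have h1 := X_entire hs hH hX₀ i j
    have h2 : (fun y => (X₀ y * Matrix.diagonal fun j => Complex.exp (σ j * y)) i j) =
        fun y => X₀ y i j * Complex.exp (σ j * y) := by
      funext y
      rw [Matrix.mul_diagonal]
    rw [h2]
    fun_prop
  · intro φ' hφ' i j
    have h1 := hasy φ' hφ' i j
    rw [hsu] at h1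
    have h2 : X₀ 0 * (Matrix.diagonal fun j => Complex.exp (σ j * 0)) = X₀ 0 := by
      simp only [mul_zero, Complex.exp_zero, Matrix.diagonal_one, Matrix.mul_one]
    dsimp only
    rw [h2]
    exact h1

end Pool.Agent.DST
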