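import Pool.Agent.DST.SMain
import Pool.Agent.DST.SComp
import Pool.Agent.DST.KMain
import Pool.Agent.DST.TMain
import Pool.Agent.DST.ZMain

/-!
# Project DST: all interface theorems

`DSys.self`, `DSys.skew` (GSkew), `exists_dsys` (SMain), `comp_f` (SComp), `birkhoff`, `birk_unique`
(KMain), `transport` (TMain), `stokes_family` (ZMain).
-/
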