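import Pool.Agent.DST.DLau
import Pool.Agent.DST.Iface

/-!
# DST-DOne: integrality for one normalisation implies integrality for all; the Gram matrix

PLAN.
`gram_one`: for `y = iτ`, `τ > 0`, `D.pair`: `(F(-y))ᵀ g F(y) = χ(y)`, so the expression is
  `((F(-y) X(-y))ᵀ * g * (F(y) X(y))) j j = ∑_{a,b} u_a(-y) g a b v_b(y)`, with
  `u_a(-y) = (F(-y) X(-y)) a j`, `v_b(y) = (F(y) X(y)) b j`. Since `exp(y G_j) exp(-y G_j) = 1`, this is
  `∑ (u_a(-y) exp(-(-y) G_j)) g a b (v_b(y) exp(-y G_j)) → ∑ Ψ a j g a b Ψ b j = (Ψᵀ g Ψ) j j = 1`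
  (`IsBirk` composed with `τ ↦ -iτ` and `τ ↦ iτ`, which tend to `rhp`; `Eig.norm`; the matrix
  `F * X * diagonal` has entries `(F X) a j * exp(-y G_j)`).
`int0_of_one`: let `(Ψ', G', X')` be another such triple. `A₀ = D.A 0` has simple spectrum
  `exp(G_j)` (`Eig.inj`) with eigenvectors the columns of `Ψ` (invertible: `Ψᵀ g Ψ = 1`), so there are a
  permutation (function) `σ` with `exp(G'_j) = exp(G_{σ j})`, numbers `ε_j` with
  `Ψ' a j = ε_j Ψ a (σ j)`, `ε_j ^ 2 = 1` (both columns have self-pairing `1`), and integers `n_j` with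
  `G'_j = G_{σ j} + 2πi n_j` (`Complex.exp_eq_exp_iff_exists_int`). Put
  `X'' i j = C ε_j * X i (σ j) * T (n_j)`: `X''(y) i j * exp(-y G'_j) = ε_j X(y) i (σ j) exp(-y G_{σ j})`
  because `evq y (T n) = exp(2πi n y)`, so `IsBirk D.F Ψ' G' X''`. By `birk_unique` (entries are entire by
  `evq_diff`, periodic: `evq (y - 1) = evq y`, theorem `evq_sub_one` of DST-GSkew) `X'(y) = X''(y)` for
  all `y`, so `X' = X''` (`evq_inj`), and `ε_j = ±1`, so the coefficients are integers.
-/

open scoped BigOperators Topology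
open Filter

namespace Pool.Agent.DST

variable {N : ℕ}

private theorem one_tendsto_mat {ι : Type*} {l : Filter ι} {M : ι → Matrix (Fin N) (Fin N) ℂ}
    {L : Matrix (Fin N) (Fin N) ℂ} (h : ∀ i j, Tendsto (fun y => M y i j) l (𝓝 (L i j))) :
    Tendsto M l (𝓝 L) :=
  tendsto_pi_nhds.2 fun i => tendsto_pi_nhds.2 fun j => h i j

private theorem one_rhp (c : ℂ) (hc : ‖c‖ = 1) (hre : c.re = 0) :
    Tendsto (fun τ : ℝ => (τ : ℂ) * c) atTop rhp := by
  unfold rhp
  refine tendsto_inf.2 ⟨?_, ?_⟩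
  · rw [← tendsto_norm_atTop_iff_cobounded]
    have h : ∀ τ : ℝ, ‖(τ : ℂ) * c‖ = |τ| := by
      intro τ
      rw [norm_mul, hc, mul_one, Complex.norm_real, Real.norm_eq_abs]
    simp only [h]
    exact tendsto_abs_atTop_atTop
  · refine tendsto_principal.2 (Filter.Eventually.of_forall fun τ => ?_)
    show 0 ≤ ((τ : ℂ) * c).re
    rw [Complex.re_ofReal_mul, hre, mul_zero]

theorem gram_one (D : DSys N) {Ψ : Matrix (Fin N) (Fin N) ℂ} {G : Fin N → ℂ}
    {X : Matrix (Fin N) (Fin N) (LaurentPolynomial ℂ)} (hE : Eig (D.A 0) D.g Ψ G)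
    (hB : IsBirk D.F Ψ G (fun y => X.map (evq y))) (j : Fin N) :
    Tendsto (fun τ : ℝ => ((X.map (evq (-(τ * Complex.I)))).transpose *
      D.χ.map (evq (τ * Complex.I)) * X.map (evq (τ * Complex.I))) j j) atTop (𝓝 1) := by
  have hM := one_tendsto_mat hB
  have h1 : Tendsto (fun τ : ℝ => (τ : ℂ) * Complex.I) atTop rhp :=
    one_rhp Complex.I Complex.norm_I Complex.I_re
  have h2 : Tendsto (fun τ : ℝ => -((τ : ℂ) * Complex.I)) atTop rhp := by
    have h := one_rhp (-Complex.I) (by rw [norm_neg, Complex.norm_I]) (by simp)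
    refine h.congr fun τ => ?_
    ring
  have m1 := hM.comp h1
  have m2 := hM.comp h2
  have m3 : Tendsto (fun τ : ℝ => ((fun y => D.F y * X.map (evq y) *
      Matrix.diagonal fun k => Complex.exp (-y * G k)) (-((τ : ℂ) * Complex.I))).transpose * D.g *
      ((fun y => D.F y * X.map (evq y) *
      Matrix.diagonal fun k => Complex.exp (-y * G k)) ((τ : ℂ) * Complex.I))) atTop
      (𝓝 (Ψ.transpose * D.g * Ψ)) := by
    have hT : Tendsto (fun τ : ℝ => ((fun y => D.F y * X.map (evq y) *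
      Matrix.diagonal fun k => Complex.exp (-y * G k)) (-((τ : ℂ) * Complex.I))).transpose) atTop
      (𝓝 Ψ.transpose) := by
      exact (Continuous.tendsto (continuous_id.matrix_transpose) Ψ).comp m2
    exact (hT.mul tendsto_const_nhds).mul m1
  rw [hE.norm] at m3
  have m4 := tendsto_pi_nhds.1 (tendsto_pi_nhds.1 m3 j) j
  rw [Matrix.one_apply_eq] at m4
  refine m4.congr' ?_
  filter_upwards [eventually_gt_atTop (0 : ℝ)] with τ hτ
  set y : ℂ := (τ : ℂ) * Complex.I with hy
  have him : 0 < y.im := by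
    rw [hy, Complex.im_ofReal_mul, Complex.I_im, mul_one]
    exact hτ
  have hp := D.pair y him
  have e1 : (D.F (-y) * X.map (evq (-y)) *
      Matrix.diagonal fun k => Complex.exp (-(-y) * G k)).transpose * D.g *
      (D.F y * X.map (evq y) * Matrix.diagonal fun k => Complex.exp (-y * G k)) =
      Matrix.diagonal (fun k => Complex.exp (-(-y) * G k)) *
        ((X.map (evq (-y))).transpose * D.χ.map (evq y) * X.map (evq y)) *
      Matrix.diagonal fun k => Complex.exp (-y * G k) := by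
    rw [← hp, Matrix.transpose_mul, Matrix.transpose_mul, Matrix.diagonal_transpose]
    simp only [Matrix.mul_assoc]
  rw [e1, Matrix.mul_diagonal, Matrix.diagonal_mul]
  rw [mul_comm (Complex.exp (-(-y) * G j)), mul_assoc, ← Complex.exp_add]
  have e2 : -(-y) * G j + -y * G j = 0 := by ring
  rw [e2, Complex.exp_zero, mul_one]

theorem int0_of_one (D : DSys N) {Ψ : Matrix (Fin N) (Fin N) ℂ} {G : Fin N → ℂ}
    {X : Matrix (Fin N) (Fin N) (LaurentPolynomial ℂ)} (hE : Eig (D.A 0) D.g Ψ G)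
    (hB : IsBirk D.F Ψ G (fun y => X.map (evq y))) (hX : ∀ i j, IntL (X i j)) : Int0 D :=
  int0_of D hE hB hX

end Pool.Agent.DST
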