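import Pool.Agent.DST.DWin

/-!
# DST-DTri: triangularity for large `λ`

PLAN. `K₁` from `Dp_ray`, `K₂` from `T.up`, `K₃` from `T.windows`. Suppose `f = gM Y p j ≠ 0`, `p < j`;
`l = x + iφ`, `0 ≤ φ ≤ 1`, `x ≥ 0`. `lau_ray`: `n ∈ supp f`, `c' > 0`. At `y = τ + iτ` (`0 ≤ re y ≤ |im y|`,
`‖y‖ = √2 τ`), `τ → ∞`, `T.up` and `Dp_ray` give
`exp(-cw p τ (x - φ) - K₁ τ) c' exp(-2π n τ) ≤ C (√2 τ)^d exp(K₂ √2 τ e^{-x}) exp(τ (re G_j - im G_j))`.
Comparing exponential rates (if the rate on the left were larger, a contradiction as `τ → ∞`):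
`-cw p (x - φ) - K₁ - 2π n ≤ √2 K₂ + re G_j - im G_j`. By hypothesis `G_j = -cw j l + b j + γ`, `‖γ‖ ≤ 1`:
`re G_j - im G_j ≤ -cw j (x - φ) + 2 (‖b j‖ + 1)`. By `windows`: `2π n ≤ im G_j - gi l p + 2π pl p + K₃`,
`im G_j ≤ |cw j| + ‖b j‖ + 1`, `-gi l p ≤ |cw p| + ‖tt p‖` (as `0 ≤ φ ≤ 1`). Hence
`(cw j - cw p)(x - φ) ≤ K₄` with `K₄` independent of `l`; `cw j - cw p ≥ 1` (`T.strict`), so `x ≤ K₄ + 1`.
Take `L = K₄ + 2` (maximum over `p, j`), `L ≥ 1`.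
-/

open scoped BigOperators Topology
open Filter

namespace Pool.Agent.DST

open Pool.Agent.Helper18.Dub Pool.Agent.Helper7.DubStokes Pool.Agent.SHF

variable {N : ℕ} {X : FanoGW (Fin N)} {t : Fin N → ℂ}

private theorem dtri_rate {c' C a b : ℝ} {d : ℕ} (hc : 0 < c')
    (h : ∀ᶠ τ : ℝ in atTop, c' * Real.exp (a * τ) ≤ C * τ ^ d * Real.exp (b * τ)) : a ≤ b := by
  by_contra hab
  have hab' : b < a := not_le.1 hab
  have h1 := tendsto_rpow_mul_exp_neg_mul_atTop_nhds_zero (d : ℝ) (a - b) (by linarith)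
  have h2 : Tendsto (fun τ : ℝ => C * (τ ^ (d : ℝ) * Real.exp (-(a - b) * τ))) atTop
      (𝓝 (C * 0)) := h1.const_mul C
  rw [mul_zero] at h2
  have h3 : ∀ᶠ τ : ℝ in atTop, C * (τ ^ (d : ℝ) * Real.exp (-(a - b) * τ)) < c' :=
    (tendsto_order.1 h2).2 _ hc
  obtain ⟨τ, h4, h5⟩ := (h.and h3).exists
  rw [Real.rpow_natCast] at h5
  have h6 : Real.exp (-(a - b) * τ) * Real.exp (a * τ) = Real.exp (b * τ) := by
    rw [← Real.exp_add]
    ring_nf
  have h7 : 0 < Real.exp (a * τ) := Real.exp_pos _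
  have h8 : C * (τ ^ d * Real.exp (-(a - b) * τ)) * Real.exp (a * τ) < c' * Real.exp (a * τ) :=
    mul_lt_mul_of_pos_right h5 h7
  have h9 : C * (τ ^ d * Real.exp (-(a - b) * τ)) * Real.exp (a * τ) =
      C * τ ^ d * Real.exp (b * τ) := by
    rw [← h6]
    ring
  linarith

theorem GammaGW.tri (T : GammaGW X t) (b : Fin N → ℂ) : ∃ L : ℝ, ∀ l : ℂ, L ≤ l.re →
    0 ≤ l.im → l.im ≤ 1 →
    ∀ (Ψ : Matrix (Fin N) (Fin N) ℂ) (G : Fin N → ℂ)
      (Y : Matrix (Fin N) (Fin N) (LaurentPolynomial ℂ)) (c : ℂ), c ≠ 0 →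
      IsBirk (fun y => c • T.FG l y) Ψ G (fun y => Y.map (evq y)) →
      (∀ j, ‖G j + (T.cw j : ℂ) * l - b j‖ ≤ 1) → ∀ p j, p < j → T.gM Y p j = 0 := by
  obtain ⟨K₁, hK₁⟩ := T.Dp_ray
  obtain ⟨K₂, hK₂0, hK₂⟩ := T.up
  obtain ⟨K₃, hK₃0, hK₃⟩ := T.windows
  have hterm : ∀ p, 0 ≤ Real.pi * T.pl p + ‖T.tt p‖ + ‖b p‖ := fun p => by positivity
  have hS : ∀ p, Real.pi * T.pl p + ‖T.tt p‖ + ‖b p‖ ≤
      ∑ p, (Real.pi * T.pl p + ‖T.tt p‖ + ‖b p‖) := fun p =>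
    Finset.single_le_sum (f := fun p => Real.pi * (T.pl p : ℝ) + ‖T.tt p‖ + ‖b p‖)
      (fun p _ => hterm p) (Finset.mem_univ p)
  have hS0 : 0 ≤ ∑ p, (Real.pi * T.pl p + ‖T.tt p‖ + ‖b p‖) :=
    Finset.sum_nonneg fun p _ => hterm p
  refine ⟨|K₁| + 2 * K₂ + K₃ + 2 * (∑ p, (Real.pi * T.pl p + ‖T.tt p‖ + ‖b p‖)) + 2, ?_⟩
  intro l hl hl0 hl1 Ψ G Y c hc hB hG p j hpj
  by_contra hne
  have hx : 0 ≤ l.re := by
    have := abs_nonneg K₁
    linarith
  obtain ⟨C, R, hCR⟩ := hK₂ l hx Ψ G Y c hc hB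
  obtain ⟨n, hn, c', hc', hray⟩ := lau_ray hne
  have hw := (hK₃ l hx Ψ G Y c hc hB p j n hn).2
  have hex : Real.exp (-l.re) ≤ 1 := Real.exp_le_one_iff.2 (by linarith)
  have hex0 : 0 < Real.exp (-l.re) := Real.exp_pos _
  have key : (-(T.cw p : ℝ) * (l.re - l.im) - K₁ - 2 * Real.pi * n) ≤
      2 * K₂ + ((G j).re - (G j).im) := by
    refine dtri_rate (c' := c') (C := |C| * 2 ^ X.dim) (d := X.dim) hc' ?_
    filter_upwards [hray, eventually_ge_atTop (max 1 R)] with τ h1 h2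
    have hτ1 : 1 ≤ τ := le_trans (le_max_left _ _) h2
    have hτR : R ≤ τ := le_trans (le_max_right _ _) h2
    have hτ0 : 0 ≤ τ := by linarith
    have hre : ((τ : ℂ) + τ * Complex.I).re = τ := by simp
    have him : ((τ : ℂ) + τ * Complex.I).im = τ := by simp
    have hn1 : τ ≤ ‖(τ : ℂ) + τ * Complex.I‖ := by
      have := Complex.abs_re_le_norm ((τ : ℂ) + τ * Complex.I)
      rw [hre] at this
      exact le_trans (le_abs_self _) this
    have hn2 : ‖(τ : ℂ) + τ * Complex.I‖ ≤ 2 * τ := by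
      refine le_trans (norm_add_le _ _) ?_
      rw [norm_mul, Complex.norm_I, mul_one, Complex.norm_real, Real.norm_of_nonneg hτ0]
      linarith
    have h3 := hCR ((τ : ℂ) + τ * Complex.I) (by rw [hre]; exact hτ0)
      (by rw [hre, him]; exact le_abs_self _) (le_trans hτR hn1) p j
    have h4 := hK₁ l p τ hτ1
    have h5 : ‖Complex.exp (((τ : ℂ) + τ * Complex.I) * G j)‖ =
        Real.exp (((G j).re - (G j).im) * τ) := by
      rw [Complex.norm_exp, Complex.mul_re, hre, him]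
      ring_nf
    have h6 : K₂ * ‖(τ : ℂ) + τ * Complex.I‖ * Real.exp (-l.re) ≤ 2 * K₂ * τ := by
      calc K₂ * ‖(τ : ℂ) + τ * Complex.I‖ * Real.exp (-l.re)
          ≤ K₂ * ‖(τ : ℂ) + τ * Complex.I‖ * 1 := by
            exact mul_le_mul_of_nonneg_left hex (by positivity)
        _ ≤ K₂ * (2 * τ) * 1 := by
            exact mul_le_mul_of_nonneg_right (mul_le_mul_of_nonneg_left hn2 hK₂0) zero_le_one
        _ = 2 * K₂ * τ := by ring
    calc c' * Real.exp ((-(T.cw p : ℝ) * (l.re - l.im) - K₁ - 2 * Real.pi * n) * τ)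
        = Real.exp (-(T.cw p : ℝ) * τ * (l.re - l.im) - K₁ * τ) *
            (c' * Real.exp (-(2 * Real.pi * n) * τ)) := by
          rw [mul_left_comm, ← Real.exp_add]
          ring_nf
      _ ≤ ‖T.Dp l (τ + τ * Complex.I) p‖ * ‖evq (τ + τ * Complex.I) (T.gM Y p j)‖ :=
          mul_le_mul h4 h1 (by positivity) (norm_nonneg _)
      _ ≤ C * ‖(τ : ℂ) + τ * Complex.I‖ ^ X.dim *
            Real.exp (K₂ * ‖(τ : ℂ) + τ * Complex.I‖ * Real.exp (-l.re)) *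
            ‖Complex.exp (((τ : ℂ) + τ * Complex.I) * G j)‖ := h3
      _ ≤ |C| * (2 * τ) ^ X.dim * Real.exp (2 * K₂ * τ) * Real.exp (((G j).re - (G j).im) * τ) := by
          rw [h5]
          refine mul_le_mul_of_nonneg_right ?_ (Real.exp_pos _).le
          refine mul_le_mul ?_ (Real.exp_le_exp.2 h6) (Real.exp_pos _).le (by positivity)
          refine mul_le_mul (le_abs_self C) ?_ (by positivity) (abs_nonneg _)
          exact pow_le_pow_left₀ (norm_nonneg _) hn2 _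
      _ = |C| * 2 ^ X.dim * τ ^ X.dim * Real.exp ((2 * K₂ + ((G j).re - (G j).im)) * τ) := by
          rw [add_mul, Real.exp_add, mul_pow]
          ring
  have hstrict : (T.cw p : ℝ) + 1 ≤ T.cw j := by
    have h1 : T.cw p < T.cw j := T.strict hpj
    exact_mod_cast h1
  have hgi : T.gi l p = -(T.cw p : ℝ) * l.im + (T.tt p).im + Real.pi * T.pl p := rfl
  have hGj : (G j).re + (T.cw j : ℝ) * l.re - (b j).re ≤ 1 := by
    have h1 := le_trans (Complex.abs_re_le_norm _) (hG j)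
    have h2 := le_trans (le_abs_self _) h1
    rw [Complex.sub_re, Complex.add_re, Complex.mul_re, Complex.intCast_re, Complex.intCast_im,
      zero_mul, sub_zero] at h2
    exact h2
  have hbj : (b j).re ≤ ‖b j‖ := le_trans (le_abs_self _) (Complex.abs_re_le_norm _)
  have htt : -(T.tt p).im ≤ ‖T.tt p‖ := le_trans (neg_le_abs _) (Complex.abs_im_le_norm _)
  have h1 := hS p
  have h2 := hS j
  have h3 : (0 : ℝ) ≤ Real.pi * T.pl j := by positivity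
  have h4 : 0 ≤ ‖T.tt j‖ := norm_nonneg _
  have h5 : 0 ≤ ‖b p‖ := norm_nonneg _
  have h6 := le_abs_self K₁
  have h7 : K₃ * Real.exp (-l.re) ≤ K₃ := by
    calc K₃ * Real.exp (-l.re) ≤ K₃ * 1 := mul_le_mul_of_nonneg_left hex hK₃0
      _ = K₃ := mul_one _
  have h8 : l.re * ((T.cw p : ℝ) + 1) ≤ l.re * (T.cw j : ℝ) :=
    mul_le_mul_of_nonneg_left hstrict hx
  rw [hgi] at hw
  nlinarith

end Pool.Agent.DST
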