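import Pool.Agent.DST.QDef
import Pool.Agent.DST.DEig
import Pool.Agent.DST.DTri
import Pool.Agent.DST.DInt
import Pool.Agent.DST.DKap
import Pool.Agent.DST.DOne
import Pool.Agent.DST.DGen

/-!
# DST-DBase: the base case

For `λ = e^l` with large real part of `l` and generic imaginary part the connection matrix is integral.
-/

open scoped BigOperators Topology
open Filter

namespace Pool.Agent.DST

open Pool.Agent.Helper18.Dub Pool.Agent.Helper7.DubStokes Pool.Agent.SHF

variable {N : ℕ} {X : FanoGW (Fin N)} {t : Fin N → ℂ}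

private theorem db_coeff (f : LaurentPolynomial ℂ) (c : ℂ) (w n : ℤ) :
    (f * (LaurentPolynomial.C c * LaurentPolynomial.T w)).coeff n = f.coeff (n - w) * c := by
  rw [← LaurentPolynomial.single_eq_C_mul_T]
  exact AddMonoidAlgebra.coeff_mul_single_eq_coeff_mul (n - w)
    (fun m _ => by constructor <;> intro h <;> omega)

private theorem db_gM (T : GammaGW X t) {Y : Matrix (Fin N) (Fin N) (LaurentPolynomial ℂ)}
    (h : ∀ p j, p < j → T.gM Y p j = 0) (j : Fin N) :
    T.gM Y j j = toC (T.B j j) * Y j j := by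
  have hlow := T.low_tri h
  have h0 : T.gM Y j j = ∑ i, toC (T.B i j) * Y i j := rfl
  rw [h0, Finset.sum_eq_single j]
  · intro i _ hij
    rcases lt_or_gt_of_ne hij with h1 | h1
    · rw [hlow i j h1, mul_zero]
    · rw [T.B_tri i j h1, map_zero, zero_mul]
  · intro hj
    exact absurd (Finset.mem_univ j) hj

theorem GammaGW.diag_exp (T : GammaGW X t) {Y : Matrix (Fin N) (Fin N) (LaurentPolynomial ℂ)}
    (h : ∀ p j, p < j → T.gM Y p j = 0) {j : Fin N} {κ : ℂ} (hκ : κ ≠ 0) {m : ℤ}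
    (hd : Y j j = LaurentPolynomial.C κ * LaurentPolynomial.T m) :
    m ∈ (T.gM Y j j).coeff.support ∧ m + T.pl j ∈ (T.gM Y j j).coeff.support := by
  have hB := prod_coeff (T.wt j)
  rw [← T.B_diag j] at hB
  obtain ⟨h1, h2, -⟩ := hB
  have h2' : (T.B j j).coeff ((T.pl j : ℕ) : ℤ) = 1 ∨ (T.B j j).coeff ((T.pl j : ℕ) : ℤ) = -1 := h2
  constructor
  · rw [Finsupp.mem_support_iff, db_gM T h, hd, db_coeff, sub_self, coeff_toC, h1, Int.cast_one,
      one_mul]
    exact hκ
  · rw [Finsupp.mem_support_iff, db_gM T h, hd, db_coeff, add_sub_cancel_left, coeff_toC]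
    refine mul_ne_zero ?_ hκ
    rcases h2' with h3 | h3
    · rw [h3, Int.cast_one]
      exact one_ne_zero
    · rw [h3, Int.cast_neg, Int.cast_one]
      exact neg_ne_zero.2 one_ne_zero

/-- a number far from the multiples of `2π` -/
private theorem db_ceil {u η δ : ℝ} {n m : ℤ} {ℓ : ℕ} (hη : 0 < η) (hδ : 8 * δ ≤ η)
    (hu : ∀ k : ℤ, 3 / 4 * η ≤ |u - 2 * Real.pi * k|)
    (h1 : u + 2 * Real.pi * m - 2 * δ ≤ 2 * Real.pi * n)
    (h2 : 2 * Real.pi * n ≤ u + 2 * Real.pi * m + 2 * Real.pi * ℓ + 2 * δ) :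
    ⌈u / (2 * Real.pi)⌉ + m ≤ n ∧ n < ⌈u / (2 * Real.pi)⌉ + m + ℓ := by
  have hpi : (0 : ℝ) < 2 * Real.pi := by positivity
  constructor
  · by_contra hcon
    push Not at hcon
    have h3 : n - m < ⌈u / (2 * Real.pi)⌉ := by omega
    have h4 : ((n - m : ℤ) : ℝ) < u / (2 * Real.pi) := Int.lt_ceil.1 h3
    rw [lt_div_iff₀ hpi] at h4
    have h5 := hu (n - m)
    have h6 : u - 2 * Real.pi * ((n - m : ℤ) : ℝ) = |u - 2 * Real.pi * ((n - m : ℤ) : ℝ)| := by
      rw [abs_of_pos]
      linarith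
    rw [← h6] at h5
    push_cast at h5 h4
    linarith
  · by_contra hcon
    push Not at hcon
    have h3 : ⌈u / (2 * Real.pi)⌉ ≤ n - m - ℓ := by omega
    have h4 : u / (2 * Real.pi) ≤ ((n - m - ℓ : ℤ) : ℝ) := Int.ceil_le.1 h3
    rw [div_le_iff₀ hpi] at h4
    have h5 := hu (n - m - ℓ)
    have h6 : |u - 2 * Real.pi * ((n - m - ℓ : ℤ) : ℝ)| =
        -(u - 2 * Real.pi * ((n - m - ℓ : ℤ) : ℝ)) := by
      rw [abs_of_nonpos]
      linarith
    rw [h6] at h5
    push_cast at h5 h4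
    linarith

/-- `K e^{-x}` is small for large `x` -/
private theorem db_small {K δ : ℝ} (hδ : 0 < δ) (L : ℝ) :
    ∃ x : ℝ, L ≤ x ∧ 0 ≤ x ∧ K * Real.exp (-x) ≤ δ := by
  refine ⟨max L (max 0 (K / δ)), le_max_left _ _, (le_max_left _ _).trans (le_max_right _ _), ?_⟩
  obtain ⟨x, hx⟩ : ∃ x, x = max L (max 0 (K / δ)) := ⟨_, rfl⟩
  rw [← hx]
  have h1 : K / δ ≤ x := by
    rw [hx]
    exact (le_max_right _ _).trans (le_max_right _ _)
  have h2 : x + 1 ≤ Real.exp x := Real.add_one_le_exp x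
  rw [div_le_iff₀ hδ] at h1
  have h3 : K ≤ δ * Real.exp x := by nlinarith
  have h4 := mul_le_mul_of_nonneg_right h3 (Real.exp_pos (-x)).le
  rwa [mul_assoc, ← Real.exp_add, add_neg_cancel, Real.exp_zero, mul_one] at h4

/-- Block D. The base case: for `λ` large in a generic direction the connection matrix is
integral. -/
theorem base_case (T : GammaGW X t) (Q : QSys N) (hQ : IsQ T Q) :
    ∃ l : ℂ, ∃ D : DSys N, D.F = Q.f l ∧ D.A 0 = Q.A0 l ∧ D.g = Q.g (Complex.exp l) ∧
      D.χ = Q.χ ∧ OffPt D ∧ Int0 D := by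
  classical
  obtain ⟨b, hb⟩ := T.eig_large
  have hcw : Function.Injective T.cw := T.strict.injective
  obtain ⟨φ, hφ0, hφ1, η, hη, hgen⟩ := exists_phi hcw (fun i => (b i).im)
  obtain ⟨K, hK, hwin⟩ := T.windows
  obtain ⟨L1, htri⟩ := T.tri b
  have hε : 0 < min 1 (η / 8) := lt_min one_pos (by positivity)
  obtain ⟨ε, hεd⟩ : ∃ ε, ε = min 1 (η / 8) := ⟨_, rfl⟩
  rw [← hεd] at hε
  have hε1 : ε ≤ 1 := by rw [hεd]; exact min_le_left _ _
  have hεη : ε ≤ η / 8 := by rw [hεd]; exact min_le_right _ _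
  obtain ⟨L0, hL0⟩ := hb ε hε
  have hδ0 : 0 < min (η / 8) (Real.pi / 4) := lt_min (by positivity) (by positivity)
  obtain ⟨x, hxL, hx0, hxK⟩ := db_small (K := K) hδ0 (max L0 L1)
  obtain ⟨l, hl⟩ : ∃ l : ℂ, l = (x : ℂ) + (φ : ℂ) * Complex.I := ⟨_, rfl⟩
  have hre : l.re = x := by rw [hl]; simp
  have him : l.im = φ := by rw [hl]; simp
  obtain ⟨δ, hδ⟩ : ∃ δ : ℝ, δ = K * Real.exp (-l.re) := ⟨_, rfl⟩
  have hδ1 : δ ≤ η / 8 := by
    rw [hδ, hre]
    exact hxK.trans (min_le_left _ _)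
  have hδ2 : δ ≤ Real.pi / 4 := by
    rw [hδ, hre]
    exact hxK.trans (min_le_right _ _)
  obtain ⟨D, hDF, hDA, hDg, hDχ⟩ := exists_dsys Q (l := l) (by rw [hQ.Λ]; exact Set.mem_univ _)
  obtain ⟨Ψ, G, hE, hG⟩ := hL0 l (by rw [hre]; exact (le_max_left _ _).trans hxL)
  have hA : D.A 0 = T.A0 l := by
    rw [hDA]
    unfold QSys.A0 GammaGW.A0
    rw [hQ.S, hQ.C]
  have hg : D.g = evm T.pairT (Complex.exp l) := by rw [hDg, hQ.g]
  have hE' : Eig (D.A 0) D.g Ψ G := by
    rw [hA, hg]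
    exact hE
  -- (1) imaginary parts
  have hGim : ∀ j, |(G j).im + T.cw j * φ - (b j).im| ≤ ε := by
    intro j
    have h1 := (Complex.abs_im_le_norm (G j + (T.cw j : ℂ) * l - b j)).trans (hG j)
    have h2 : (G j + (T.cw j : ℂ) * l - b j).im = (G j).im + T.cw j * φ - (b j).im := by
      rw [Complex.sub_im, Complex.add_im, Complex.mul_im, Complex.intCast_re, Complex.intCast_im,
        him]
      ring
    rwa [h2] at h1
  have hfar : ∀ i j, i ≠ j → ∀ k : ℤ,
      3 / 4 * η ≤ |((G i).im - (G j).im) - 2 * Real.pi * k| := by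
    intro i j hij k
    have h1 := hgen i j hij k
    have h2 := abs_le.1 (hGim i)
    have h3 := abs_le.1 (hGim j)
    have h4 : -((T.cw i : ℝ) - T.cw j) * φ + ((b i).im - (b j).im) - 2 * Real.pi * k =
        (((G i).im - (G j).im) - 2 * Real.pi * k) -
          (((G i).im + T.cw i * φ - (b i).im) - ((G j).im + T.cw j * φ - (b j).im)) := by ring
    rw [h4] at h1
    have h5 := h1.trans (abs_sub _ _)
    have h6 : |((G i).im + T.cw i * φ - (b i).im) - ((G j).im + T.cw j * φ - (b j).im)| ≤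
        2 * ε := by
      rw [abs_le]
      constructor <;> linarith
    linarith
  have hoff : OffWall G := by
    intro i j hij n h0
    have h1 := hfar i j hij n
    rw [Complex.sub_im] at h0
    rw [h0, sub_self, abs_zero] at h1
    linarith
  -- (2) the connection matrix
  obtain ⟨Y, hYu, hYB⟩ := birkhoff D hE' hoff
  obtain ⟨c, hc⟩ : ∃ c : ℂ, c = (Complex.I / (Real.sqrt (2 * Real.pi) : ℂ)) ^ X.dim := ⟨_, rfl⟩
  have hc0 : c ≠ 0 := by
    rw [hc]
    refine pow_ne_zero _ (div_ne_zero Complex.I_ne_zero ?_)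
    have : Real.sqrt (2 * Real.pi) ≠ 0 := (Real.sqrt_pos.2 (by positivity)).ne'
    exact_mod_cast this
  have hF : D.F = fun y => c • T.FG l y := by
    rw [hDF]
    funext y
    unfold QSys.f GammaGW.FG
    rw [hQ.J, ← hc]
  have hYB' : IsBirk (fun y => c • T.FG l y) Ψ G (fun y => Y.map (evq y)) := by
    rw [← hF]
    exact hYB
  have hT := htri l (by rw [hre]; exact (le_max_right _ _).trans hxL) (by rw [him]; exact hφ0)
    (by rw [him]; exact hφ1) Ψ G Y c hc0 hYB' (fun j => (hG j).trans hε1)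
  have hW := hwin l (by rw [hre]; exact hx0) Ψ G Y c hc0 hYB'
  rw [← hδ] at hW
  -- (3) the diagonal
  have hpi : (0 : ℝ) < 2 * Real.pi := by positivity
  obtain ⟨m, κ, hmk⟩ := T.diag_mono hT hYu (fun j => ((G j).im - T.gi l j) / (2 * Real.pi)) (by
    intro j n hn
    have h1 := hW j j n hn
    have h2 : ((G j).im - T.gi l j) / (2 * Real.pi) * (2 * Real.pi) = (G j).im - T.gi l j :=
      div_mul_cancel₀ _ hpi.ne'
    constructor
    · have h3 : (((G j).im - T.gi l j) / (2 * Real.pi) - 1 / 4) * (2 * Real.pi) ≤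
          (n : ℝ) * (2 * Real.pi) := by
        rw [sub_mul, h2]
        linarith [Real.pi_pos, h1.1]
      exact le_of_mul_le_mul_right h3 hpi
    · have h3 : (n : ℝ) * (2 * Real.pi) ≤
          (((G j).im - T.gi l j) / (2 * Real.pi) + T.pl j + 1 / 4) * (2 * Real.pi) := by
        rw [add_mul, add_mul, h2]
        linarith [Real.pi_pos, h1.2]
      exact le_of_mul_le_mul_right h3 hpi)
  have hm : ∀ j, |2 * Real.pi * m j - ((G j).im - T.gi l j)| ≤ δ := by
    intro j
    obtain ⟨h1, h2⟩ := T.diag_exp hT (hmk j).1 (hmk j).2.1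
    have h3 := (hW j j _ h1).1
    have h4 := (hW j j _ h2).2
    push_cast at h4
    rw [abs_le]
    constructor <;> linarith
  -- (4) the windows below the diagonal
  have ha : ∀ p j, j < p → ∀ n ∈ (T.gM Y p j).coeff.support,
      ⌈((G j).im - (G p).im) / (2 * Real.pi)⌉ + m p ≤ n ∧
        n < ⌈((G j).im - (G p).im) / (2 * Real.pi)⌉ + m p + T.pl p := by
    intro p j hjp n hn
    have h1 := hW p j n hn
    have h2 := abs_le.1 (hm p)
    refine db_ceil hη (δ := δ) (by linarith) (hfar j p hjp.ne) ?_ ?_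
    · linarith [h1.1, h2.2]
    · linarith [h1.2, h2.1]
  -- (5) integral columns
  obtain ⟨z, hz1, hz2, hz3, hz4⟩ := T.int_cols hT m κ (fun j => (hmk j).1)
    (fun j => (hmk j).2.1) (fun p j => ⌈((G j).im - (G p).im) / (2 * Real.pi)⌉ + m p) ha
  have hYz : ∀ y : ℂ, Y.map (evq y) = z.map (evZ y) * Matrix.diagonal κ := by
    intro y
    ext i j
    rw [Matrix.mul_diagonal, Matrix.map_apply, Matrix.map_apply, hz1 i j, map_mul, evq_toC]
    unfold evq
    rw [LaurentPolynomial.eval₂_C, RingHom.id_apply, mul_comm]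
  have hκ : ∀ j, κ j * κ j = 1 := by
    intro j
    have h1 := gram_one D hE' hYB j
    have h2 := T.kap hz2 hz3 hz4 j
    have h3 : ∀ τ : ℝ, ((Y.map (evq (-(τ * Complex.I)))).transpose *
        D.χ.map (evq (τ * Complex.I)) * Y.map (evq (τ * Complex.I))) j j =
        (κ j * κ j) * ((z.map (evZ (-(τ * Complex.I)))).transpose *
          T.χ.map (evZ (τ * Complex.I)) * z.map (evZ (τ * Complex.I))) j j := by
      intro τ
      rw [hYz, hYz, hDχ, hQ.χ, Matrix.transpose_mul, Matrix.diagonal_transpose]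
      have e : Matrix.diagonal κ * (z.map (evZ (-(τ * Complex.I)))).transpose *
          T.χ.map (evZ (τ * Complex.I)) * (z.map (evZ (τ * Complex.I)) * Matrix.diagonal κ) =
          Matrix.diagonal κ * ((z.map (evZ (-(τ * Complex.I)))).transpose *
          T.χ.map (evZ (τ * Complex.I)) * z.map (evZ (τ * Complex.I))) * Matrix.diagonal κ := by
        simp only [Matrix.mul_assoc]
      rw [e, Matrix.mul_diagonal, Matrix.diagonal_mul]
      ring
    simp only [h3] at h1
    have h4 := tendsto_nhds_unique h1 (h2.const_mul (κ j * κ j))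
    rw [mul_one] at h4
    exact h4.symm
  -- (6) integrality
  have hX : ∀ i j, IntL (Y i j) := by
    intro i j
    rw [hz1 i j]
    rcases mul_self_eq_one_iff.1 (hκ j) with h1 | h1
    · rw [h1, map_one, one_mul]
      exact intL_toC _
    · rw [h1, map_neg, map_one, neg_one_mul]
      exact intL_neg' (intL_toC _)
  exact ⟨l, D, hDF, hDA, hDg, hDχ, ⟨Ψ, G, hE', hoff⟩, int0_of_one D hE' hYB hX⟩

end Pool.Agent.DST
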