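import Mathlib

/-!
# DST-DCone: the cone estimate (Mathlib only)

`M' = -y [diag c, M] + y R` entrywise with `R` small, `M → 1` as `Re l → ∞` in all directions, and
`|re y| ≤ |im y|`: then `‖M‖ ≤ exp(4 K₀ ‖y‖ e^{-Re l})`. Integration along a ray of slope `±1` on which
the exponential factor is bounded halves the constant of an a priori bound; then induction.
-/

open scoped BigOperators Topology
open Filter

namespace Pool.Agent.DST

private theorem exists_dir {y : ℂ} (hy : |y.re| ≤ |y.im|) (Δ : ℝ) :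
    ∃ e : ℂ, e.re = 1 ∧ ‖e‖ ≤ 2 ∧ (e * y).re * Δ ≤ 0 := by
  have n1 : ‖(1 : ℂ) + Complex.I‖ ≤ 2 := by
    refine (norm_add_le _ _).trans ?_
    rw [norm_one, Complex.norm_I]; norm_num
  have n2 : ‖(1 : ℂ) - Complex.I‖ ≤ 2 := by
    refine (norm_sub_le _ _).trans ?_
    rw [norm_one, Complex.norm_I]; norm_num
  have r1 : (((1 : ℂ) + Complex.I) * y).re = y.re - y.im := by simp
  have r2 : (((1 : ℂ) - Complex.I) * y).re = y.re + y.im := by simp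
  have a1 := neg_abs_le y.re
  have a2 := le_abs_self y.re
  rcases le_total 0 y.im with hi | hi
  · rw [abs_of_nonneg hi] at hy
    rcases le_total 0 Δ with hD | hD
    · refine ⟨1 + Complex.I, by simp, n1, ?_⟩
      rw [r1]; exact mul_nonpos_of_nonpos_of_nonneg (by linarith) hD
    · refine ⟨1 - Complex.I, by simp, n2, ?_⟩
      rw [r2]; exact mul_nonpos_of_nonneg_of_nonpos (by linarith) hD
  · rw [abs_of_nonpos hi] at hy
    rcases le_total 0 Δ with hD | hD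
    · refine ⟨1 - Complex.I, by simp, n2, ?_⟩
      rw [r2]; exact mul_nonpos_of_nonpos_of_nonneg (by linarith) hD
    · refine ⟨1 + Complex.I, by simp, n1, ?_⟩
      rw [r1]; exact mul_nonpos_of_nonneg_of_nonpos (by linarith) hD

private theorem stepA {N : ℕ} {c : Fin N → ℤ} {y : ℂ} (hy : |y.re| ≤ |y.im|) {K₀ : ℝ}
    (hK₀ : 0 ≤ K₀) {M R : ℂ → Matrix (Fin N) (Fin N) ℂ}
    (hM : ∀ l : ℂ, 0 ≤ l.re → ∀ p q, HasDerivAt (fun l => M l p q)
      (-(y * ((c p : ℂ) - c q) * M l p q) + y * R l p q) l)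
    (hR : ∀ l : ℂ, 0 ≤ l.re → ∀ m : ℝ, (∀ p q, ‖M l p q‖ ≤ m) →
      ∀ p q, ‖R l p q‖ ≤ K₀ * Real.exp (-l.re) * m)
    (hlim : ∀ ε > 0, ∃ L : ℝ, ∀ l : ℂ, L ≤ l.re →
      ∀ p q, ‖M l p q - (1 : Matrix (Fin N) (Fin N) ℂ) p q‖ < ε)
    {m : ℝ} (hm : 0 ≤ m)
    (hb : ∀ l : ℂ, 0 ≤ l.re → ∀ p q,
      ‖M l p q‖ ≤ m * Real.exp (4 * K₀ * ‖y‖ * Real.exp (-l.re)))
    (l : ℂ) (hl : 0 ≤ l.re) (p q : Fin N) :
    ‖M l p q‖ ≤ 1 + m / 2 * (Real.exp (4 * K₀ * ‖y‖ * Real.exp (-l.re)) - 1) := by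
  obtain ⟨e, he1, he2, he3⟩ := exists_dir hy ((c p : ℝ) - c q)
  set δ : ℂ := (1 : Matrix (Fin N) (Fin N) ℂ) p q with hδ
  have hΔδ : ((c p : ℂ) - c q) * δ = 0 := by
    by_cases hpq : p = q
    · subst hpq; simp
    · rw [hδ, Matrix.one_apply_ne hpq, mul_zero]
  have hδ1 : ‖δ‖ ≤ 1 := by
    by_cases hpq : p = q
    · subst hpq; rw [hδ, Matrix.one_apply_eq, norm_one]
    · rw [hδ, Matrix.one_apply_ne hpq, norm_zero]; exact zero_le_one
  set a : ℂ := e * y * ((c p : ℂ) - c q) with ha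
  have hare : a.re ≤ 0 := by
    have : a.re = (e * y).re * ((c p : ℝ) - c q) := by
      rw [ha]
      have h1 : ((c p : ℂ) - c q) = (((c p : ℝ) - c q : ℝ) : ℂ) := by push_cast; rfl
      rw [h1, Complex.re_mul_ofReal]
    rw [this]; exact he3
  have hexp : ∀ ρ : ℝ, 0 ≤ ρ → ‖Complex.exp (a * ρ)‖ ≤ 1 := by
    intro ρ hρ
    rw [Complex.norm_exp, Complex.re_mul_ofReal]
    exact Real.exp_le_one_iff.2 (mul_nonpos_of_nonpos_of_nonneg hare hρ)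
  let ℓ : ℝ → ℂ := fun ρ => l + e * ρ
  have hℓre : ∀ ρ : ℝ, (ℓ ρ).re = l.re + ρ := by
    intro ρ
    show (l + e * ρ).re = _
    rw [Complex.add_re, Complex.re_mul_ofReal, he1, one_mul]
  have hℓd : ∀ ρ : ℝ, HasDerivAt ℓ e ρ := by
    intro ρ
    have h1 : HasDerivAt (fun ρ : ℝ => (ρ : ℂ)) 1 ρ := Complex.ofRealCLM.hasDerivAt
    have h2 := (h1.const_mul e).const_add l
    rw [mul_one] at h2
    exact h2
  let h : ℝ → ℂ := fun ρ => Complex.exp (a * ρ) * (M (ℓ ρ) p q - δ)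
  have hderiv : ∀ ρ : ℝ, 0 ≤ ρ → HasDerivAt h (Complex.exp (a * ρ) * (e * y * R (ℓ ρ) p q)) ρ := by
    intro ρ hρ
    have h0 : 0 ≤ (ℓ ρ).re := by rw [hℓre]; linarith
    have h1 : HasDerivAt (fun ρ : ℝ => M (ℓ ρ) p q)
        ((-(y * ((c p : ℂ) - c q) * M (ℓ ρ) p q) + y * R (ℓ ρ) p q) * e) ρ :=
      HasDerivAt.comp (𝕜' := ℂ) ρ (h₂ := fun l => M l p q) (h := ℓ) (hM (ℓ ρ) h0 p q) (hℓd ρ)
    have h2 : HasDerivAt (fun ρ : ℝ => Complex.exp (a * ρ)) (Complex.exp (a * ρ) * a) ρ := by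
      have h3 : HasDerivAt (fun ρ : ℝ => a * (ρ : ℂ)) a ρ := by
        have h4 : HasDerivAt (fun ρ : ℝ => (ρ : ℂ)) 1 ρ := Complex.ofRealCLM.hasDerivAt
        have h5 := h4.const_mul a
        rw [mul_one] at h5
        exact h5
      exact h3.cexp
    have h6 := h2.mul (h1.sub_const δ)
    have h7 : Complex.exp (a * ρ) * a * (M (ℓ ρ) p q - δ) +
        Complex.exp (a * ρ) * ((-(y * ((c p : ℂ) - c q) * M (ℓ ρ) p q) + y * R (ℓ ρ) p q) * e) =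
        Complex.exp (a * ρ) * (e * y * R (ℓ ρ) p q) -
          Complex.exp (a * ρ) * (e * y) * (((c p : ℂ) - c q) * δ) := by
      rw [ha]; ring
    rw [hΔδ, mul_zero, sub_zero] at h7
    exact h6.congr_deriv h7
  set x : ℝ := l.re with hx
  let H : ℝ → ℝ := fun ρ => -(m / 2) * Real.exp (4 * K₀ * ‖y‖ * Real.exp (-(x + ρ)))
  have hHd : ∀ ρ : ℝ, HasDerivAt H
      (2 * ‖y‖ * (K₀ * Real.exp (-(x + ρ)) *
        (m * Real.exp (4 * K₀ * ‖y‖ * Real.exp (-(x + ρ)))))) ρ := by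
    intro ρ
    have h1 : HasDerivAt (fun ρ : ℝ => -(x + ρ)) (-1) ρ := ((hasDerivAt_id ρ).const_add x).neg
    have h2 := ((h1.exp.const_mul (4 * K₀ * ‖y‖)).exp).const_mul (-(m / 2))
    refine h2.congr_deriv ?_
    ring
  have hbd : ∀ ρ : ℝ, 0 ≤ ρ → ‖Complex.exp (a * ρ) * (e * y * R (ℓ ρ) p q)‖ ≤
      2 * ‖y‖ * (K₀ * Real.exp (-(x + ρ)) *
        (m * Real.exp (4 * K₀ * ‖y‖ * Real.exp (-(x + ρ))))) := by
    intro ρ hρ
    have h0 : 0 ≤ (ℓ ρ).re := by rw [hℓre]; linarith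
    have h1 := hR (ℓ ρ) h0 _ (hb (ℓ ρ) h0) p q
    rw [hℓre] at h1
    rw [norm_mul, norm_mul, norm_mul]
    have h2 : ‖e‖ * ‖y‖ * ‖R (ℓ ρ) p q‖ ≤ 2 * ‖y‖ * (K₀ * Real.exp (-(x + ρ)) *
        (m * Real.exp (4 * K₀ * ‖y‖ * Real.exp (-(x + ρ))))) :=
      mul_le_mul (mul_le_mul_of_nonneg_right he2 (norm_nonneg _)) h1 (norm_nonneg _)
        (by positivity)
    exact (mul_le_of_le_one_left (by positivity) (hexp ρ hρ)).trans h2
  have hcomp : ∀ ρ : ℝ, 0 ≤ ρ → ‖h ρ - h 0‖ ≤ H ρ - H 0 := by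
    intro ρ hρ
    have h1 := image_norm_le_of_norm_deriv_right_le_deriv_boundary
      (f := fun t => h t - h 0) (a := 0) (b := ρ)
      (f' := fun t => Complex.exp (a * t) * (e * y * R (ℓ t) p q))
      (B := fun t => H t - H 0)
      (B' := fun ρ => 2 * ‖y‖ * (K₀ * Real.exp (-(x + ρ)) *
        (m * Real.exp (4 * K₀ * ‖y‖ * Real.exp (-(x + ρ))))))
      (fun t ht => ((hderiv t ht.1).sub_const (h 0)).continuousAt.continuousWithinAt)
      (fun t ht => ((hderiv t ht.1).sub_const (h 0)).hasDerivWithinAt)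
      (by simp) (fun t => (hHd t).sub_const (H 0)) (fun t ht => hbd t ht.1)
    exact h1 (Set.right_mem_Icc.2 hρ)
  set E : ℝ := Real.exp (4 * K₀ * ‖y‖ * Real.exp (-x)) with hE
  have hh0 : h 0 = M l p q - δ := by
    show Complex.exp (a * ((0 : ℝ) : ℂ)) * (M (l + e * ((0 : ℝ) : ℂ)) p q - δ) = _
    rw [Complex.ofReal_zero, mul_zero, mul_zero, add_zero, Complex.exp_zero, one_mul]
  have hH0 : H 0 = -(m / 2) * E := by
    show -(m / 2) * Real.exp (4 * K₀ * ‖y‖ * Real.exp (-(x + 0))) = _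
    rw [add_zero]
  have hfin : ‖h 0‖ ≤ m / 2 * (E - 1) := by
    refine le_of_forall_pos_le_add fun ε hε => ?_
    obtain ⟨L, hL⟩ := hlim ε hε
    set ρ : ℝ := max 0 (L - x) with hρ
    have hρ0 : 0 ≤ ρ := le_max_left _ _
    have h1 := hcomp ρ hρ0
    have h2 : ‖M (ℓ ρ) p q - δ‖ < ε := by
      apply hL
      rw [hℓre]
      have : L - x ≤ ρ := le_max_right _ _
      linarith
    have h3 : ‖h ρ‖ ≤ ε := by
      show ‖Complex.exp (a * ρ) * (M (ℓ ρ) p q - δ)‖ ≤ ε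
      rw [norm_mul]
      exact (mul_le_of_le_one_left (norm_nonneg _) (hexp ρ hρ0)).trans h2.le
    have h4 : H ρ ≤ -(m / 2) := by
      show -(m / 2) * Real.exp (4 * K₀ * ‖y‖ * Real.exp (-(x + ρ))) ≤ -(m / 2)
      have h5 : 1 ≤ Real.exp (4 * K₀ * ‖y‖ * Real.exp (-(x + ρ))) :=
        Real.one_le_exp (by positivity)
      nlinarith
    have h6 : ‖h 0‖ ≤ ‖h ρ‖ + ‖h ρ - h 0‖ := by
      have : h 0 = h ρ - (h ρ - h 0) := by ring
      rw [this]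
      refine (norm_sub_le _ _).trans ?_
      rw [← this]
    rw [hH0] at h1
    linarith
  have : M l p q = h 0 + δ := by rw [hh0]; ring
  rw [this]
  refine (norm_add_le _ _).trans ?_
  linarith

theorem cone_bound {N : ℕ} {c : Fin N → ℤ} {y : ℂ} (hy : |y.re| ≤ |y.im|) {K₀ : ℝ}
    (hK₀ : 0 ≤ K₀) {M R : ℂ → Matrix (Fin N) (Fin N) ℂ}
    (hM : ∀ l : ℂ, 0 ≤ l.re → ∀ p q, HasDerivAt (fun l => M l p q)
      (-(y * ((c p : ℂ) - c q) * M l p q) + y * R l p q) l)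
    (hR : ∀ l : ℂ, 0 ≤ l.re → ∀ m : ℝ, (∀ p q, ‖M l p q‖ ≤ m) →
      ∀ p q, ‖R l p q‖ ≤ K₀ * Real.exp (-l.re) * m)
    (hb : ∃ m : ℝ, ∀ l : ℂ, 0 ≤ l.re → ∀ p q, ‖M l p q‖ ≤ m)
    (hlim : ∀ ε > 0, ∃ L : ℝ, ∀ l : ℂ, L ≤ l.re →
      ∀ p q, ‖M l p q - (1 : Matrix (Fin N) (Fin N) ℂ) p q‖ < ε)
    (l : ℂ) (hl : 0 ≤ l.re) (p q : Fin N) :
    ‖M l p q‖ ≤ Real.exp (4 * K₀ * ‖y‖ * Real.exp (-l.re)) := by
  have hE1 : ∀ l : ℂ, 1 ≤ Real.exp (4 * K₀ * ‖y‖ * Real.exp (-l.re)) := fun l =>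
    Real.one_le_exp (by positivity)
  have main : ∀ n : ℕ, (∀ l : ℂ, 0 ≤ l.re → ∀ p q,
      ‖M l p q‖ ≤ 2 ^ n * Real.exp (4 * K₀ * ‖y‖ * Real.exp (-l.re))) →
      ∀ l : ℂ, 0 ≤ l.re → ∀ p q,
        ‖M l p q‖ ≤ Real.exp (4 * K₀ * ‖y‖ * Real.exp (-l.re)) := by
    intro n
    induction n with
    | zero =>
      intro h l hl p q
      have := h l hl p q
      rwa [pow_zero, one_mul] at this
    | succ n ih =>
      intro h
      apply ih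
      intro l hl p q
      have h1 := stepA hy hK₀ hM hR hlim (m := 2 ^ (n + 1)) (by positivity) h l hl p q
      have h2 : (2 : ℝ) ^ (n + 1) / 2 = 2 ^ n := by rw [pow_succ]; ring
      rw [h2] at h1
      have h3 : (1 : ℝ) ≤ 2 ^ n := one_le_pow₀ (by norm_num)
      linarith
  obtain ⟨m, hm⟩ := hb
  obtain ⟨n, hn⟩ := pow_unbounded_of_one_lt m (by norm_num : (1 : ℝ) < 2)
  refine main n (fun l hl p q => ?_) l hl p q
  have h1 := hm l hl p q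
  have h2 : (2 : ℝ) ^ n ≤ 2 ^ n * Real.exp (4 * K₀ * ‖y‖ * Real.exp (-l.re)) :=
    le_mul_of_one_le_right (by positivity) (hE1 l)
  linarith

end Pool.Agent.DST
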