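import Pool.Agent.DST.Abs

/-!
# DST-FToC: integral Laurent polynomials inside complex ones

`toC` is the ring homomorphism of coefficients `ℤ → ℂ`.
-/

open scoped BigOperators Topology
open Filter

namespace Pool.Agent.DST

/-- Extension of scalars from `ℤ` to `ℂ`. -/
noncomputable def toC : LaurentPolynomial ℤ →+* LaurentPolynomial ℂ :=
  LaurentPolynomial.eval₂ (LaurentPolynomial.C.comp (Int.castRingHom ℂ))
    (LaurentPolynomial.isUnit_T (R := ℂ) 1).unit

private theorem ftc_zpow (n : ℤ) : (((LaurentPolynomial.isUnit_T (R := ℂ) 1).unit ^ n :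
    (LaurentPolynomial ℂ)ˣ) : LaurentPolynomial ℂ) = LaurentPolynomial.T n := by
  induction n using Int.induction_on with
  | zero => simp
  | succ n ih =>
    rw [zpow_add_one, Units.val_mul, ih, IsUnit.unit_spec, LaurentPolynomial.T_add]
  | pred n ih =>
    have hu := LaurentPolynomial.isUnit_T (R := ℂ) 1
    refine hu.mul_right_cancel ?_
    rw [← LaurentPolynomial.T_add]
    have h0 : ((LaurentPolynomial.isUnit_T (R := ℂ) 1).unit : LaurentPolynomial ℂ) = LaurentPolynomial.T 1 :=
      IsUnit.unit_spec _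
    set v := (LaurentPolynomial.isUnit_T (R := ℂ) 1).unit with hv
    rw [← h0, ← Units.val_mul, ← zpow_add_one, sub_add_cancel, ih]

private theorem ftc_CT (a n : ℤ) : toC (LaurentPolynomial.C a * LaurentPolynomial.T n) =
    LaurentPolynomial.C (a : ℂ) * LaurentPolynomial.T n := by
  unfold toC
  rw [map_mul, LaurentPolynomial.eval₂_C, LaurentPolynomial.eval₂_T, ftc_zpow]
  rfl

private theorem ftc_T (n : ℤ) : toC (LaurentPolynomial.T n) = LaurentPolynomial.T n := by
  unfold toC
  rw [LaurentPolynomial.eval₂_T, ftc_zpow]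

theorem evq_toC (y : ℂ) (f : LaurentPolynomial ℤ) : evq y (toC f) = evZ y f := by
  refine LaurentPolynomial.induction_on' f (fun p q hp hq => ?_) (fun n a => ?_)
  · rw [map_add, map_add, map_add, hp, hq]
  · rw [ftc_CT]
    unfold evq evZ
    rw [LaurentPolynomial.eval₂_C_mul_T, LaurentPolynomial.eval₂_C_mul_T]
    rfl

theorem coeff_toC (f : LaurentPolynomial ℤ) (n : ℤ) : (toC f).coeff n = ((f.coeff n : ℤ) : ℂ) := by
  refine LaurentPolynomial.induction_on' f (fun p q hp hq => ?_) (fun m a => ?_)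
  · rw [map_add, AddMonoidAlgebra.coeff_add, AddMonoidAlgebra.coeff_add, Finsupp.add_apply, Finsupp.add_apply,
      hp, hq, Int.cast_add]
  · rw [ftc_CT, ← LaurentPolynomial.single_eq_C_mul_T, ← LaurentPolynomial.single_eq_C_mul_T,
      AddMonoidAlgebra.coeff_single, AddMonoidAlgebra.coeff_single, Finsupp.single_apply, Finsupp.single_apply]
    split_ifs <;> simp

theorem intL_toC (f : LaurentPolynomial ℤ) : IntL (toC f) := fun n => ⟨f.coeff n, coeff_toC f n⟩

theorem exists_toC {f : LaurentPolynomial ℂ} (hf : IntL f) : ∃ f' : LaurentPolynomial ℤ,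
    toC f' = f := by
  choose m hm using hf
  refine ⟨AddMonoidAlgebra.ofCoeff (Finsupp.onFinset f.coeff.support m fun n hn => ?_), ?_⟩
  · rw [Finsupp.mem_support_iff, hm n]
    exact_mod_cast hn
  · refine LaurentPolynomial.ext fun n => ?_
    rw [coeff_toC, hm n]
    rfl

theorem evq_zero_int {f : LaurentPolynomial ℂ} (hf : IntL f) : ∃ m : ℤ, evq 0 f = m := by
  obtain ⟨f', rfl⟩ := exists_toC hf
  rw [evq_toC]
  have hq : qu 0 = 1 := by
    unfold qu
    ext
    simp
  refine LaurentPolynomial.induction_on' f' (fun p q hp hq => ?_) (fun m a => ?_)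
  · obtain ⟨a, ha⟩ := hp
    obtain ⟨b, hb⟩ := hq
    exact ⟨a + b, by rw [map_add, ha, hb, Int.cast_add]⟩
  · refine ⟨a, ?_⟩
    unfold evZ
    rw [LaurentPolynomial.eval₂_C_mul_T, hq]
    simp

/-- the ring of integral Laurent polynomials -/
theorem intL_add' {f g : LaurentPolynomial ℂ} (hf : IntL f) (hg : IntL g) : IntL (f + g) := by
  obtain ⟨f', rfl⟩ := exists_toC hf
  obtain ⟨g', rfl⟩ := exists_toC hg
  rw [← map_add]
  exact intL_toC _

theorem intL_mul' {f g : LaurentPolynomial ℂ} (hf : IntL f) (hg : IntL g) : IntL (f * g) := by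
  obtain ⟨f', rfl⟩ := exists_toC hf
  obtain ⟨g', rfl⟩ := exists_toC hg
  rw [← map_mul]
  exact intL_toC _

theorem intL_neg' {f : LaurentPolynomial ℂ} (hf : IntL f) : IntL (-f) := by
  obtain ⟨f', rfl⟩ := exists_toC hf
  rw [← map_neg]
  exact intL_toC _

theorem intL_sum' {ι : Type} {s : Finset ι} {f : ι → LaurentPolynomial ℂ}
    (hf : ∀ i ∈ s, IntL (f i)) : IntL (∑ i ∈ s, f i) := by
  classical
  induction s using Finset.induction_on with
  | empty =>
    rw [Finset.sum_empty, ← map_zero toC]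
    exact intL_toC _
  | insert a s ha ih =>
    rw [Finset.sum_insert ha]
    exact intL_add' (hf a (Finset.mem_insert_self a s)) (ih fun i hi => hf i (Finset.mem_insert_of_mem hi))

theorem IntL.T (n : ℤ) : IntL (LaurentPolynomial.T n) := by
  rw [← ftc_T]
  exact intL_toC _

theorem IntL.intCast (n : ℤ) : IntL (n : LaurentPolynomial ℂ) := by
  rw [← map_intCast toC]
  exact intL_toC _

end Pool.Agent.DST
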