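import Pool.Agent.DST.Gamma
import Pool.Agent.DST.FToC

/-!
# DST-DDefs: definitions for block D (`λ → ∞`)

Notation. `d = X.dim`, `c_p = cw p` (weight of `c_1` at the fixed point `p`), `ℓ_p = pl p` (sum of the
positive tangent weights), `t_p = tt p`, `R = Rm = (res p a)`, `W = evm (cupChernT …) 1` (classical
multiplication by `c_1^T` at `λ = 1`), `th l = l^θ` at `λ = e^l`.
-/

open scoped BigOperators Topology
open Filter

namespace Pool.Agent.DST

open Pool.Agent.Helper18.Dub Pool.Agent.Helper7.DubStokes Pool.Agent.SHF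

variable {N : ℕ} {X : FanoGW (Fin N)} {t : Fin N → ℂ}

/-- `e^{lθ}`. -/
noncomputable def th (X : FanoGW (Fin N)) (l : ℂ) : Matrix (Fin N) (Fin N) ℂ :=
  Matrix.diagonal fun a => Complex.exp (l * ((X.dim : ℂ) / 2 - X.deg a))

namespace GammaGW

variable (T : GammaGW X t)

/-- the weight of `c_1(X)` at the fixed point `p` -/
def cw (p : Fin N) : ℤ := ∑ k, T.wt p k

/-- the sum of the positive tangent weights at `p` -/
def pl (p : Fin N) : ℕ := ∑ k, (T.wt p k).toNat

/-- the restriction of `t + iπ c_1 ∈ H^2` to `p` at `λ = 1` -/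
noncomputable def tt (p : Fin N) : ℂ :=
  ∑ a, t a * T.res p a + Real.pi * Complex.I * ∑ k, (T.wt p k : ℂ)

/-- the restriction matrix at `λ = 1` -/
noncomputable def Rm : Matrix (Fin N) (Fin N) ℂ := Matrix.of T.res

/-- the restriction matrix at `λ = y` -/
noncomputable def Ry (y : ℂ) : Matrix (Fin N) (Fin N) ℂ :=
  Matrix.of fun p a => T.res p a * y ^ X.deg a

/-- classical multiplication by `c_1^T` at `λ = 1` -/
noncomputable def W : Matrix (Fin N) (Fin N) ℂ := evm (cupChernT T.toEquivData T.κ) 1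

/-- `λ^{-1} λ^{-θ} C(λ) λ^θ` at `λ = e^l` -/
noncomputable def Ah (l : ℂ) : Matrix (Fin N) (Fin N) ℂ :=
  th X (-l) * (Complex.exp (-l) • evm (chernT T.toEquivData t T.κ) (Complex.exp l)) * th X l

/-- the scalar part of the `Γ`-solutions at the fixed point `p` -/
noncomputable def Dp (l y : ℂ) (p : Fin N) : ℂ :=
  Complex.exp (-(T.cw p : ℂ) * y * (l - Complex.log y) + T.tt p * y) *
    ∏ k, Complex.Gamma (1 - T.wt p k * y)

/-- the matrix `N(l, y) → 1` as `Re l → ∞` -/
noncomputable def Nn (l y : ℂ) : Matrix (Fin N) (Fin N) ℂ :=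
  th X (-Complex.log y) * T.cal y (Complex.exp (l - Complex.log y)) * th X (Complex.log y)

/-- restrictions of the basis of `K_T(X)`: entry `(p, i)` -/
noncomputable def BT (y : ℂ) : Matrix (Fin N) (Fin N) ℂ := (T.B.map (evZ y)).transpose

/-- `Im 𝔤_p(l)`, where `e^{y 𝔤_p(l)}` is the exponential part of `Dp l y p` -/
noncomputable def gi (l : ℂ) (p : Fin N) : ℝ :=
  -(T.cw p : ℝ) * l.im + (T.tt p).im + Real.pi * T.pl p

/-- the leading term of the transfer matrix at `λ = e^l` -/
noncomputable def A0 (l : ℂ) : Matrix (Fin N) (Fin N) ℂ :=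
  evm₂ T.S (Complex.exp l) 0 *
    NormedSpace.exp (Complex.exp (-l) • evm (chernT T.toEquivData t T.κ) (Complex.exp l))

/-- the `Γ`-solutions at `λ = e^l` -/
noncomputable def FG (l y : ℂ) : Matrix (Fin N) (Fin N) ℂ := T.J y (l - Complex.log y)

end GammaGW

/-- `b = B^T X`: the restrictions to the fixed points of the classes with coordinates `X` -/
noncomputable def GammaGW.gM (T : GammaGW X t)
    (Y : Matrix (Fin N) (Fin N) (LaurentPolynomial ℂ)) :
    Matrix (Fin N) (Fin N) (LaurentPolynomial ℂ) :=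
  (T.B.map toC).transpose * Y

end Pool.Agent.DST
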