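import Pool.Agent.DST.DGamP

/-!
# DST-DGamB: bounds for `Γ(1 - w y)`, `w ≠ 0` an integer

`gam_strip` bounds `Γ(1 - w y)` on vertical strips away from the real axis by shifting the argument to
the right half plane; `gam_imag` is a lower bound on the imaginary axis from the reflection formula;
`gam_ray` is a lower bound on the diagonal ray `y = τ + τ i`, again from the reflection formula together
with upper bounds for `Γ` on the diagonal.
-/

open scoped BigOperators Topology
open Filter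

namespace Pool.Agent.DST

/-- A product of factors of norm at least `c ≥ 0` has norm at least `c ^ m`. -/
private theorem norm_prod_ge (s : ℂ) (m : ℕ) {c : ℝ} (hc : 0 ≤ c) (h : c ≤ |s.im|) :
    c ^ m ≤ ‖∏ k ∈ Finset.range m, (s + k)‖ := by
  rw [norm_prod]
  calc c ^ m = ∏ _k ∈ Finset.range m, c := by simp
    _ ≤ ∏ k ∈ Finset.range m, ‖s + (k : ℂ)‖ := by
        refine Finset.prod_le_prod (fun _ _ => hc) fun k _ => ?_
        have h1 : |(s + (k : ℂ)).im| ≤ ‖s + (k : ℂ)‖ := Complex.abs_im_le_norm _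
        have h2 : (s + (k : ℂ)).im = s.im := by simp
        rw [h2] at h1
        exact h.trans h1

private theorem one_le_abs_cast {w : ℤ} (hw : w ≠ 0) : 1 ≤ |(w : ℝ)| := by
  have h : (1 : ℤ) ≤ |w| := Int.one_le_abs hw
  have h2 : ((1 : ℤ) : ℝ) ≤ ((|w| : ℤ) : ℝ) := by exact_mod_cast h
  simpa using h2

theorem gam_strip {w : ℤ} (hw : w ≠ 0) (a : ℝ) : ∃ C : ℝ, ∀ y : ℂ, |y.re| ≤ a → 1 ≤ |y.im| →
    ‖Complex.Gamma (1 - w * y)‖ ≤ C := by
  obtain ⟨m, hm⟩ : ∃ m : ℕ, |(w : ℝ)| * |a| ≤ m := exists_nat_ge _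
  set M : ℝ := 1 + |(w : ℝ)| * |a| + m with hM
  refine ⟨M ^ M, fun y hre him => ?_⟩
  have hw1 := one_le_abs_cast hw
  set s : ℂ := 1 - w * y with hs
  have hsre : s.re = 1 - w * y.re := by simp [hs]
  have hsim : s.im = -(w * y.im) := by simp [hs]
  have hsim1 : 1 ≤ |s.im| := by
    rw [hsim, abs_neg, abs_mul]
    nlinarith [abs_nonneg y.im]
  have hsim0 : s.im ≠ 0 := by
    intro h
    rw [h] at hsim1
    simp at hsim1
    linarith
  have hya : |(w : ℝ) * y.re| ≤ |(w : ℝ)| * |a| := by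
    rw [abs_mul]
    exact mul_le_mul_of_nonneg_left (hre.trans (le_abs_self a)) (abs_nonneg _)
  have hb := abs_le.mp hya
  have hre1 : (s + (m : ℂ)).re = 1 - w * y.re + m := by simp [hsre]
  have h1 : 1 ≤ (s + (m : ℂ)).re := by rw [hre1]; linarith [hb.2]
  have h2 : (s + (m : ℂ)).re ≤ M := by rw [hre1, hM]; linarith [hb.1]
  have hM1 : 1 ≤ M := h1.trans h2
  have h3 : ‖Complex.Gamma (s + m)‖ ≤ M ^ M := by
    refine (norm_Gamma_le (by linarith)).trans ((gamma_le_pow h1).trans ?_)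
    calc (s + (m : ℂ)).re ^ (s + (m : ℂ)).re ≤ M ^ (s + (m : ℂ)).re :=
          Real.rpow_le_rpow (by linarith) h2 (by linarith)
      _ ≤ M ^ M := Real.rpow_le_rpow_of_exponent_le hM1 h2
  have h4 := norm_Gamma_shift s m hsim0
  have h5 : 1 ≤ ‖∏ k ∈ Finset.range m, (s + (k : ℂ))‖ := by
    have := norm_prod_ge s m (c := 1) zero_le_one hsim1
    simpa using this
  rw [h4, norm_mul] at h3
  nlinarith [norm_nonneg (Complex.Gamma s)]

theorem gam_imag {w : ℤ} (hw : w ≠ 0) {τ : ℝ} (hτ : 1 ≤ |τ|) :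
    Real.exp (-(Real.pi * |(w : ℝ)| * |τ|) / 2) ≤ ‖Complex.Gamma (1 - w * (τ * Complex.I))‖ := by
  have hw1 := one_le_abs_cast hw
  set v : ℝ := w * τ with hv
  have hv1 : 1 ≤ |v| := by
    rw [hv, abs_mul]
    nlinarith
  have hv0 : v ≠ 0 := by
    intro h
    rw [h] at hv1
    simp at hv1
    linarith
  have harg : (1 : ℂ) - w * (τ * Complex.I) = 1 - (v : ℂ) * Complex.I := by
    rw [hv]
    push_cast
    ring
  rw [harg]
  have hsq := sq_Gamma_imag hv0
  have heven : Real.pi * v / Real.sinh (Real.pi * v) =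
      Real.pi * |v| / Real.sinh (Real.pi * |v|) := by
    rcases le_total 0 v with h | h
    · rw [abs_of_nonneg h]
    · rw [abs_of_nonpos h]
      rw [mul_neg, Real.sinh_neg, neg_div_neg_eq]
  have hpi := Real.pi_pos
  have hpi3 := Real.pi_gt_three
  have hpos : 0 < Real.pi * |v| := by positivity
  have hsinh : 0 < Real.sinh (Real.pi * |v|) := Real.sinh_pos_iff.mpr hpos
  have hsinh2 : Real.sinh (Real.pi * |v|) ≤ Real.exp (Real.pi * |v|) / 2 := by
    rw [Real.sinh_eq]
    have := Real.exp_pos (-(Real.pi * |v|))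
    linarith
  have hlow : Real.exp (-(Real.pi * |v|)) ≤ Real.pi * |v| / Real.sinh (Real.pi * |v|) := by
    rw [le_div_iff₀ hsinh]
    have he : Real.exp (-(Real.pi * |v|)) * Real.exp (Real.pi * |v|) = 1 := by
      rw [← Real.exp_add]
      simp
    calc Real.exp (-(Real.pi * |v|)) * Real.sinh (Real.pi * |v|)
        ≤ Real.exp (-(Real.pi * |v|)) * (Real.exp (Real.pi * |v|) / 2) :=
          mul_le_mul_of_nonneg_left hsinh2 (Real.exp_pos _).le
      _ = 1 / 2 := by rw [← mul_div_assoc, he]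
      _ ≤ Real.pi * |v| := by nlinarith
  have hexp : Real.exp (-(Real.pi * |(w : ℝ)| * |τ|) / 2) ^ 2 = Real.exp (-(Real.pi * |v|)) := by
    rw [← Real.exp_nat_mul, hv, abs_mul]
    congr 1
    push_cast
    ring
  have hfin : Real.exp (-(Real.pi * |(w : ℝ)| * |τ|) / 2) ^ 2 ≤
      ‖Complex.Gamma (1 - (v : ℂ) * Complex.I)‖ ^ 2 := by
    rw [hexp, hsq, heven]
    exact hlow
  exact (pow_le_pow_iff_left₀ (Real.exp_pos _).le (norm_nonneg _) two_ne_zero).mp hfin

/-- Lower bound for `Γ(1 - z)` from upper bounds for `sin (π z)` and `Γ(z)`. -/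
private theorem refl_low {z : ℂ} {A B : ℝ} (hsin : ‖Complex.sin (Real.pi * z)‖ ≤ Real.exp A)
    (hs0 : Complex.sin (Real.pi * z) ≠ 0)
    (hG : ‖Complex.Gamma z‖ ≤ Real.exp B) :
    Real.exp (-A - B) ≤ ‖Complex.Gamma (1 - z)‖ := by
  have h := Complex.Gamma_mul_Gamma_one_sub z
  have h1 : ‖Complex.Gamma z‖ * ‖Complex.Gamma (1 - z)‖ * ‖Complex.sin (Real.pi * z)‖ = Real.pi := by
    rw [← norm_mul, h, norm_div, Complex.norm_real, Real.norm_of_nonneg Real.pi_pos.le,
      div_mul_cancel₀ _ (norm_ne_zero_iff.mpr hs0)]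
  have h2 : Real.pi ≤ Real.exp B * ‖Complex.Gamma (1 - z)‖ * Real.exp A := by
    rw [← h1]
    gcongr
  have h3 : (1 : ℝ) ≤ Real.exp B * ‖Complex.Gamma (1 - z)‖ * Real.exp A := by
    linarith [Real.pi_gt_three]
  have h4 : Real.exp (-A - B) * (Real.exp B * ‖Complex.Gamma (1 - z)‖ * Real.exp A) =
      ‖Complex.Gamma (1 - z)‖ := by
    have : Real.exp (-A - B) * Real.exp B * Real.exp A = 1 := by
      rw [← Real.exp_add, ← Real.exp_add]
      simp
    calc Real.exp (-A - B) * (Real.exp B * ‖Complex.Gamma (1 - z)‖ * Real.exp A)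
        = (Real.exp (-A - B) * Real.exp B * Real.exp A) * ‖Complex.Gamma (1 - z)‖ := by ring
      _ = _ := by rw [this, one_mul]
  rw [← h4]
  exact le_mul_of_one_le_right (Real.exp_pos _).le h3

private theorem sin_ne {z : ℂ} (hz : z.im ≠ 0) : Complex.sin (Real.pi * z) ≠ 0 := by
  intro h
  rw [Complex.sin_eq_zero_iff] at h
  obtain ⟨k, hk⟩ := h
  have hpi : (Real.pi : ℂ) ≠ 0 := by exact_mod_cast Real.pi_ne_zero
  have hz2 : z = (k : ℂ) := by
    have : (Real.pi : ℂ) * z = (Real.pi : ℂ) * k := by rw [hk]; ring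
    exact mul_left_cancel₀ hpi this
  apply hz
  rw [hz2]
  simp

private theorem exp_mul_log' {x : ℝ} (hx : 0 < x) : x ^ x = Real.exp (x * Real.log x) := by
  rw [Real.rpow_def_of_pos hx, mul_comm]

/-- Upper bound for `Γ` on the diagonal. -/
private theorem diag_up {x : ℝ} (hx : 1 ≤ x) :
    ‖Complex.Gamma ((x : ℂ) + x * Complex.I)‖ ≤ Real.exp (x * Real.log x) := by
  have hre : ((x : ℂ) + x * Complex.I).re = x := by simp
  have h := norm_Gamma_le (s := (x : ℂ) + x * Complex.I) (by rw [hre]; linarith)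
  rw [hre] at h
  rw [← exp_mul_log' (by linarith : 0 < x)]
  exact h.trans (gamma_le_pow hx)

/-- Upper bound for `Γ` on the opposite diagonal. -/
private theorem diag_neg {x : ℝ} (hx : 1 ≤ x) :
    ‖Complex.Gamma (-((x : ℂ) + x * Complex.I))‖ ≤ Real.exp (-(x * Real.log x)) := by
  set s : ℂ := -((x : ℂ) + x * Complex.I) with hs
  set m : ℕ := ⌈x⌉₊ + 1 with hm
  have hsre : s.re = -x := by simp [hs]
  have hsim : s.im = -x := by simp [hs]
  have hc1 : x ≤ (⌈x⌉₊ : ℝ) := Nat.le_ceil x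
  have hc2 : (⌈x⌉₊ : ℝ) < x + 1 := Nat.ceil_lt_add_one (by linarith)
  have hre : (s + (m : ℂ)).re = (⌈x⌉₊ : ℝ) + 1 - x := by
    rw [hm]
    push_cast
    simp [hsre]
    ring
  have h1 : 1 ≤ (s + (m : ℂ)).re := by rw [hre]; linarith
  have h2 : (s + (m : ℂ)).re ≤ 2 := by rw [hre]; linarith
  have h3 : ‖Complex.Gamma (s + m)‖ ≤ 1 :=
    (norm_Gamma_le (by linarith)).trans (gamma_le_one h1 h2)
  have h4 := norm_Gamma_shift s m (by rw [hsim]; linarith)
  have habs : |s.im| = x := by rw [hsim, abs_neg, abs_of_nonneg (by linarith)]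
  have h5 := norm_prod_ge s m (c := x) (by linarith) (by rw [habs])
  have h6 : x ^ x ≤ x ^ m := by
    rw [← Real.rpow_natCast]
    refine Real.rpow_le_rpow_of_exponent_le hx ?_
    rw [hm]
    push_cast
    linarith
  rw [h4, norm_mul] at h3
  have h7 : ‖Complex.Gamma s‖ * Real.exp (x * Real.log x) ≤ 1 := by
    rw [← exp_mul_log' (by linarith : 0 < x)]
    exact (mul_le_mul_of_nonneg_left (h6.trans h5) (norm_nonneg _)).trans h3
  rw [Real.exp_neg]
  rw [← one_div, le_div_iff₀ (Real.exp_pos _)]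
  exact h7

theorem gam_ray {w : ℤ} (hw : w ≠ 0) : ∃ C : ℝ, ∀ τ : ℝ, 1 ≤ τ →
    Real.exp (-(w : ℝ) * τ * Real.log (Real.sqrt 2 * τ) - C * τ) ≤
      ‖Complex.Gamma (1 - w * (τ + τ * Complex.I))‖ := by
  have hw1 := one_le_abs_cast hw
  have hs2 : (1 : ℝ) ≤ Real.sqrt 2 := by
    rw [Real.one_le_sqrt]
    norm_num
  have hls2 : 0 ≤ Real.log (Real.sqrt 2) := Real.log_nonneg hs2
  rcases lt_or_gt_of_ne hw with hneg | hpos
  · -- negative case
    have hnr : |(w : ℝ)| = -(w : ℝ) := abs_of_neg (by exact_mod_cast hneg)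
    rw [hnr] at hw1
    refine ⟨Real.pi * (-(w : ℝ)) + (-(w : ℝ)) * Real.log (Real.sqrt 2), fun τ hτ => ?_⟩
    set n : ℝ := -(w : ℝ) with hn
    set x : ℝ := n * τ with hx
    have hx1 : 1 ≤ x := by rw [hx]; nlinarith
    have harg : (1 : ℂ) - w * (τ + τ * Complex.I) = 1 - (-((x : ℂ) + x * Complex.I)) := by
      rw [hx, hn]
      push_cast
      ring
    rw [harg]
    set z : ℂ := -((x : ℂ) + x * Complex.I) with hz
    have hzim : z.im = -x := by simp [hz]
    have hsin : ‖Complex.sin (Real.pi * z)‖ ≤ Real.exp (Real.pi * x) := by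
      have := norm_sin_le z
      rwa [hzim, abs_neg, abs_of_nonneg (by linarith : 0 ≤ x)] at this
    have hlow := refl_low hsin (sin_ne (by rw [hzim]; linarith)) (diag_neg hx1)
    refine le_trans (Real.exp_le_exp.mpr ?_) hlow
    have hlog1 : Real.log (Real.sqrt 2 * τ) = Real.log (Real.sqrt 2) + Real.log τ :=
      Real.log_mul (by positivity) (by positivity)
    have hlog2 : Real.log x = Real.log n + Real.log τ := by
      rw [hx]
      exact Real.log_mul (by linarith) (by linarith)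
    have hlogn : 0 ≤ Real.log n := Real.log_nonneg hw1
    rw [hlog1, hlog2, hx]
    have h0 : 0 ≤ n * τ * Real.log n := by positivity
    nlinarith
  · -- positive case
    have hnr : |(w : ℝ)| = (w : ℝ) := abs_of_pos (by exact_mod_cast hpos)
    rw [hnr] at hw1
    refine ⟨Real.pi * (w : ℝ) + (w : ℝ) * Real.log w, fun τ hτ => ?_⟩
    set n : ℝ := (w : ℝ) with hn
    set x : ℝ := n * τ with hx
    have hx1 : 1 ≤ x := by rw [hx]; nlinarith
    have harg : (1 : ℂ) - w * (τ + τ * Complex.I) = 1 - ((x : ℂ) + x * Complex.I) := by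
      rw [hx, hn]
      push_cast
      ring
    rw [harg]
    set z : ℂ := (x : ℂ) + x * Complex.I with hz
    have hzim : z.im = x := by simp [hz]
    have hsin : ‖Complex.sin (Real.pi * z)‖ ≤ Real.exp (Real.pi * x) := by
      have := norm_sin_le z
      rwa [hzim, abs_of_nonneg (by linarith : 0 ≤ x)] at this
    have hlow := refl_low hsin (sin_ne (by rw [hzim]; linarith)) (diag_up hx1)
    refine le_trans (Real.exp_le_exp.mpr ?_) hlow
    have hlog1 : Real.log (Real.sqrt 2 * τ) = Real.log (Real.sqrt 2) + Real.log τ :=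
      Real.log_mul (by positivity) (by positivity)
    have hlog2 : Real.log x = Real.log n + Real.log τ := by
      rw [hx]
      exact Real.log_mul (by linarith) (by linarith)
    rw [hlog1, hlog2, hx]
    have h0 : 0 ≤ n * τ * Real.log (Real.sqrt 2) := by positivity
    nlinarith

end Pool.Agent.DST
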