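import Pool.Agent.DST.DDefs
import Pool.Agent.DST.DGamB

/-!
# DST-DDp: bounds for the scalar factors `Dp l y p`

Exact real part of the exponent and the bounds for the Gamma function of DST-DGamB.
-/

open scoped BigOperators Topology
open Filter

namespace Pool.Agent.DST

open Pool.Agent.Helper18.Dub Pool.Agent.Helper7.DubStokes Pool.Agent.SHF

variable {N : ℕ} {X : FanoGW (Fin N)} {t : Fin N → ℂ}

private lemma dp_norm (T : GammaGW X t) (l y : ℂ) (p : Fin N) : ‖T.Dp l y p‖ =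
    Real.exp (-(T.cw p : ℝ) * (y.re * (l.re - Real.log ‖y‖) - y.im * (l.im - y.arg)) +
      ((T.tt p).re * y.re - (T.tt p).im * y.im)) *
      ∏ k, ‖Complex.Gamma (1 - T.wt p k * y)‖ := by
  unfold GammaGW.Dp
  rw [norm_mul, Complex.norm_exp, norm_prod]
  congr 2
  have h1 : (-(T.cw p : ℂ)) = ((-(T.cw p : ℝ) : ℝ) : ℂ) := by push_cast; rfl
  rw [h1, mul_assoc, Complex.add_re, Complex.re_ofReal_mul, Complex.mul_re, Complex.mul_re,
    Complex.sub_re, Complex.sub_im, Complex.log_re, Complex.log_im]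

private lemma dp_cw (T : GammaGW X t) (p : Fin N) :
    (T.cw p : ℝ) + ∑ k, |(T.wt p k : ℝ)| = 2 * T.pl p := by
  unfold GammaGW.cw GammaGW.pl
  push_cast
  rw [← Finset.sum_add_distrib, Finset.mul_sum]
  refine Finset.sum_congr rfl fun k _ => ?_
  rcases le_total 0 (T.wt p k) with h | h
  · have h1 : ((T.wt p k).toNat : ℝ) = (T.wt p k : ℝ) := by
      exact_mod_cast Int.toNat_of_nonneg h
    have h2 : (0 : ℝ) ≤ (T.wt p k : ℝ) := by exact_mod_cast h
    rw [h1, abs_of_nonneg h2]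
    ring
  · have h1 : (T.wt p k).toNat = 0 := Int.toNat_of_nonpos h
    have h2 : (T.wt p k : ℝ) ≤ 0 := by exact_mod_cast h
    rw [h1, abs_of_nonpos h2]
    simp

theorem GammaGW.Dp_strip (T : GammaGW X t) (l : ℂ) (a : ℝ) : ∃ C : ℝ, ∀ y : ℂ, |y.re| ≤ a →
    1 ≤ |y.im| → ∀ p, ‖T.Dp l y p‖ ≤ Real.exp (C * |y.im|) := by
  have h1 : ∀ p k, ∃ C : ℝ, ∀ y : ℂ, |y.re| ≤ a → 1 ≤ |y.im| →
      ‖Complex.Gamma (1 - T.wt p k * y)‖ ≤ C := fun p k => gam_strip (T.wt_ne p k) a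
  choose C hC using h1
  let K : Fin N → ℝ := fun p => |(T.cw p : ℝ)| * (a * |l.re| + a * (1 + a) + (|l.im| + Real.pi)) +
    (|(T.tt p).re| * a + |(T.tt p).im|) + ∑ k, |C p k|
  refine ⟨∑ p, |K p|, fun y hy1 hy2 p => ?_⟩
  have ha : 0 ≤ a := (abs_nonneg _).trans hy1
  have him : 0 ≤ |y.im| := abs_nonneg _
  have hy0 : 1 ≤ ‖y‖ := hy2.trans (Complex.abs_im_le_norm y)
  have hlog0 : 0 ≤ Real.log ‖y‖ := Real.log_nonneg hy0
  have hny : ‖y‖ ≤ (1 + a) * |y.im| := by
    have := Complex.norm_le_abs_re_add_abs_im y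
    nlinarith
  have hlog : Real.log ‖y‖ ≤ (1 + a) * |y.im| := by
    have := Real.log_le_sub_one_of_pos (show (0 : ℝ) < ‖y‖ by linarith)
    linarith
  have harg : |y.arg| ≤ Real.pi := Complex.abs_arg_le_pi y
  rw [dp_norm]
  have hprod : ∏ k, ‖Complex.Gamma (1 - T.wt p k * y)‖ ≤
      Real.exp ((∑ k, |C p k|) * |y.im|) := by
    rw [Finset.sum_mul, Real.exp_sum]
    refine Finset.prod_le_prod (fun _ _ => norm_nonneg _) fun k _ => ?_
    calc ‖Complex.Gamma (1 - T.wt p k * y)‖ ≤ C p k := hC p k y hy1 hy2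
      _ ≤ |C p k| := le_abs_self _
      _ ≤ |C p k| * |y.im| := le_mul_of_one_le_right (abs_nonneg _) hy2
      _ ≤ Real.exp (|C p k| * |y.im|) := by
        have := Real.add_one_le_exp (|C p k| * |y.im|)
        linarith
  have hA : |y.re * (l.re - Real.log ‖y‖) - y.im * (l.im - y.arg)| ≤
      (a * |l.re| + a * (1 + a) + (|l.im| + Real.pi)) * |y.im| := by
    have e1 : |y.re * (l.re - Real.log ‖y‖)| ≤ a * (|l.re| * |y.im| + (1 + a) * |y.im|) := by
      rw [abs_mul]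
      refine mul_le_mul hy1 ?_ (abs_nonneg _) ha
      calc |l.re - Real.log ‖y‖| ≤ |l.re| + |Real.log ‖y‖| := abs_sub _ _
        _ ≤ |l.re| * |y.im| + (1 + a) * |y.im| := by
          rw [abs_of_nonneg hlog0]
          exact add_le_add (le_mul_of_one_le_right (abs_nonneg _) hy2) hlog
    have e2 : |y.im * (l.im - y.arg)| ≤ |y.im| * (|l.im| + Real.pi) := by
      rw [abs_mul]
      refine mul_le_mul_of_nonneg_left ?_ him
      calc |l.im - y.arg| ≤ |l.im| + |y.arg| := abs_sub _ _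
        _ ≤ |l.im| + Real.pi := by linarith
    calc |y.re * (l.re - Real.log ‖y‖) - y.im * (l.im - y.arg)| ≤
        |y.re * (l.re - Real.log ‖y‖)| + |y.im * (l.im - y.arg)| := abs_sub _ _
      _ ≤ a * (|l.re| * |y.im| + (1 + a) * |y.im|) + |y.im| * (|l.im| + Real.pi) :=
        add_le_add e1 e2
      _ = _ := by ring
  have hB : (T.tt p).re * y.re - (T.tt p).im * y.im ≤
      (|(T.tt p).re| * a + |(T.tt p).im|) * |y.im| := by
    have e1 : (T.tt p).re * y.re ≤ |(T.tt p).re| * a * |y.im| := by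
      calc (T.tt p).re * y.re ≤ |(T.tt p).re * y.re| := le_abs_self _
        _ = |(T.tt p).re| * |y.re| := abs_mul _ _
        _ ≤ |(T.tt p).re| * a := mul_le_mul_of_nonneg_left hy1 (abs_nonneg _)
        _ ≤ |(T.tt p).re| * a * |y.im| :=
          le_mul_of_one_le_right (mul_nonneg (abs_nonneg _) ha) hy2
    have e2 : -((T.tt p).im * y.im) ≤ |(T.tt p).im| * |y.im| := by
      calc -((T.tt p).im * y.im) ≤ |(T.tt p).im * y.im| := neg_le_abs _
        _ = _ := abs_mul _ _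
    calc _ = (T.tt p).re * y.re + -((T.tt p).im * y.im) := by ring
      _ ≤ |(T.tt p).re| * a * |y.im| + |(T.tt p).im| * |y.im| := add_le_add e1 e2
      _ = _ := by ring
  have hD : -(T.cw p : ℝ) * (y.re * (l.re - Real.log ‖y‖) - y.im * (l.im - y.arg)) ≤
      |(T.cw p : ℝ)| * (a * |l.re| + a * (1 + a) + (|l.im| + Real.pi)) * |y.im| := by
    calc _ ≤ |-(T.cw p : ℝ) * (y.re * (l.re - Real.log ‖y‖) - y.im * (l.im - y.arg))| :=
          le_abs_self _
      _ = |(T.cw p : ℝ)| * |y.re * (l.re - Real.log ‖y‖) - y.im * (l.im - y.arg)| := by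
          rw [abs_mul, abs_neg]
      _ ≤ |(T.cw p : ℝ)| * ((a * |l.re| + a * (1 + a) + (|l.im| + Real.pi)) * |y.im|) :=
          mul_le_mul_of_nonneg_left hA (abs_nonneg _)
      _ = _ := by ring
  calc _ ≤ Real.exp (|(T.cw p : ℝ)| * (a * |l.re| + a * (1 + a) + (|l.im| + Real.pi)) * |y.im| +
        (|(T.tt p).re| * a + |(T.tt p).im|) * |y.im|) *
        Real.exp ((∑ k, |C p k|) * |y.im|) := by
        refine mul_le_mul (Real.exp_le_exp.2 (add_le_add hD hB)) hprod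
          (Finset.prod_nonneg fun _ _ => norm_nonneg _) (Real.exp_pos _).le
    _ = Real.exp (K p * |y.im|) := by
        rw [← Real.exp_add]
        congr 1
        simp only [K]
        ring
    _ ≤ Real.exp ((∑ p, |K p|) * |y.im|) := by
        refine Real.exp_le_exp.2 (mul_le_mul_of_nonneg_right ?_ him)
        exact (le_abs_self _).trans
          (Finset.single_le_sum (f := fun p => |K p|) (fun _ _ => abs_nonneg _) (Finset.mem_univ p))

theorem GammaGW.Dp_pos (T : GammaGW X t) (l : ℂ) (p : Fin N) {τ : ℝ} (hτ : 1 ≤ τ) :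
    Real.exp (-τ * T.gi l p) ≤ ‖T.Dp l (τ * Complex.I) p‖ := by
  have h0 : 0 < τ := by linarith
  rw [dp_norm]
  have hre : ((τ : ℂ) * Complex.I).re = 0 := by simp
  have him : ((τ : ℂ) * Complex.I).im = τ := by simp
  have harg : ((τ : ℂ) * Complex.I).arg = Real.pi / 2 := by
    rw [Complex.arg_real_mul _ h0, Complex.arg_I]
  have hprod : Real.exp (∑ k, -(Real.pi * |(T.wt p k : ℝ)| * |τ|) / 2) ≤
      ∏ k, ‖Complex.Gamma (1 - T.wt p k * ((τ : ℂ) * Complex.I))‖ := by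
    rw [Real.exp_sum]
    exact Finset.prod_le_prod (fun _ _ => (Real.exp_pos _).le)
      fun k _ => gam_imag (T.wt_ne p k) (by rw [abs_of_pos h0]; exact hτ)
  refine le_trans (le_of_eq ?_) (mul_le_mul_of_nonneg_left hprod (Real.exp_pos _).le)
  rw [← Real.exp_add, hre, him, harg]
  congr 1
  have h2 : ∑ k, -(Real.pi * |(T.wt p k : ℝ)| * |τ|) / 2 =
      -(Real.pi * τ / 2) * ∑ k, |(T.wt p k : ℝ)| := by
    rw [Finset.mul_sum]
    refine Finset.sum_congr rfl fun k _ => ?_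
    rw [abs_of_pos h0]
    ring
  have h3 : ∑ k, |(T.wt p k : ℝ)| = 2 * T.pl p - T.cw p := by
    have := dp_cw T p
    linarith
  rw [h2, h3]
  unfold GammaGW.gi
  ring

theorem GammaGW.Dp_neg (T : GammaGW X t) (l : ℂ) (p : Fin N) {τ : ℝ} (hτ : 1 ≤ τ) :
    Real.exp (τ * (T.gi l p - 2 * Real.pi * T.pl p)) ≤ ‖T.Dp l (-(τ * Complex.I)) p‖ := by
  have h0 : 0 < τ := by linarith
  rw [dp_norm]
  have hre : (-((τ : ℂ) * Complex.I)).re = 0 := by simp
  have him : (-((τ : ℂ) * Complex.I)).im = -τ := by simp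
  have harg : (-((τ : ℂ) * Complex.I)).arg = -(Real.pi / 2) := by
    rw [← mul_neg, Complex.arg_real_mul _ h0, Complex.arg_neg_I]
  have he : -((τ : ℂ) * Complex.I) = ((-τ : ℝ) : ℂ) * Complex.I := by push_cast; ring
  have hprod : Real.exp (∑ k, -(Real.pi * |(T.wt p k : ℝ)| * |(-τ)|) / 2) ≤
      ∏ k, ‖Complex.Gamma (1 - T.wt p k * (-((τ : ℂ) * Complex.I)))‖ := by
    rw [Real.exp_sum, he]
    exact Finset.prod_le_prod (fun _ _ => (Real.exp_pos _).le)
      fun k _ => gam_imag (T.wt_ne p k) (by rw [abs_neg, abs_of_pos h0]; exact hτ)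
  refine le_trans (le_of_eq ?_) (mul_le_mul_of_nonneg_left hprod (Real.exp_pos _).le)
  rw [← Real.exp_add, hre, him, harg]
  congr 1
  have h2 : ∑ k, -(Real.pi * |(T.wt p k : ℝ)| * |(-τ)|) / 2 =
      -(Real.pi * τ / 2) * ∑ k, |(T.wt p k : ℝ)| := by
    rw [Finset.mul_sum]
    refine Finset.sum_congr rfl fun k _ => ?_
    rw [abs_neg, abs_of_pos h0]
    ring
  have h3 : ∑ k, |(T.wt p k : ℝ)| = 2 * T.pl p - T.cw p := by
    have := dp_cw T p
    linarith
  rw [h2, h3]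
  unfold GammaGW.gi
  ring

theorem GammaGW.Dp_ray (T : GammaGW X t) : ∃ K : ℝ, ∀ (l : ℂ) (p : Fin N) (τ : ℝ), 1 ≤ τ →
    Real.exp (-(T.cw p : ℝ) * τ * (l.re - l.im) - K * τ) ≤
      ‖T.Dp l (τ + τ * Complex.I) p‖ := by
  have h1 : ∀ p k, ∃ C : ℝ, ∀ τ : ℝ, 1 ≤ τ →
      Real.exp (-(T.wt p k : ℝ) * τ * Real.log (Real.sqrt 2 * τ) - C * τ) ≤
      ‖Complex.Gamma (1 - T.wt p k * (τ + τ * Complex.I))‖ := fun p k => gam_ray (T.wt_ne p k)
  choose C hC using h1
  let K : Fin N → ℝ := fun p => T.cw p * (Real.pi / 4) - ((T.tt p).re - (T.tt p).im) + ∑ k, C p k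
  refine ⟨∑ p, |K p|, fun l p τ hτ => ?_⟩
  have h0 : 0 < τ := by linarith
  rw [dp_norm]
  have hre : ((τ : ℂ) + τ * Complex.I).re = τ := by simp
  have him : ((τ : ℂ) + τ * Complex.I).im = τ := by simp
  have hform : (τ : ℂ) + τ * Complex.I = ((Real.sqrt 2 * τ : ℝ) : ℂ) *
      (Real.cos (Real.pi / 4) + Real.sin (Real.pi / 4) * Complex.I) := by
    rw [Real.cos_pi_div_four, Real.sin_pi_div_four]
    have h2 : (Real.sqrt 2 : ℂ) * (Real.sqrt 2 : ℂ) = 2 := by
      rw [← Complex.ofReal_mul, Real.mul_self_sqrt (by norm_num)]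
      push_cast
      rfl
    push_cast
    linear_combination (-(τ : ℂ) / 2 - τ / 2 * Complex.I) * h2
  have hs : 0 < Real.sqrt 2 * τ := by positivity
  have hnorm : ‖(τ : ℂ) + τ * Complex.I‖ = Real.sqrt 2 * τ := by
    rw [hform, norm_mul, Complex.norm_real, Real.norm_of_nonneg hs.le]
    have : ‖((Real.cos (Real.pi / 4) : ℝ) : ℂ) + (Real.sin (Real.pi / 4) : ℝ) * Complex.I‖ = 1 := by
      rw [Complex.ofReal_cos, Complex.ofReal_sin, ← Complex.exp_mul_I, Complex.norm_exp_ofReal_mul_I]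
    rw [this, mul_one]
  have harg : ((τ : ℂ) + τ * Complex.I).arg = Real.pi / 4 := by
    rw [hform, Complex.ofReal_cos, Complex.ofReal_sin]
    exact Complex.arg_mul_cos_add_sin_mul_I hs ⟨by linarith [Real.pi_pos], by linarith [Real.pi_pos]⟩
  have hprod : Real.exp (∑ k, (-(T.wt p k : ℝ) * τ * Real.log (Real.sqrt 2 * τ) - C p k * τ)) ≤
      ∏ k, ‖Complex.Gamma (1 - T.wt p k * ((τ : ℂ) + τ * Complex.I))‖ := by
    rw [Real.exp_sum]
    exact Finset.prod_le_prod (fun _ _ => (Real.exp_pos _).le) fun k _ => hC p k τ hτ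
  refine le_trans ?_ (mul_le_mul_of_nonneg_left hprod (Real.exp_pos _).le)
  rw [← Real.exp_add, hre, him, harg, hnorm]
  refine Real.exp_le_exp.2 ?_
  have h2 : ∑ k, (-(T.wt p k : ℝ) * τ * Real.log (Real.sqrt 2 * τ) - C p k * τ) =
      -(T.cw p : ℝ) * τ * Real.log (Real.sqrt 2 * τ) - (∑ k, C p k) * τ := by
    unfold GammaGW.cw
    push_cast
    rw [Finset.sum_sub_distrib, Finset.sum_mul, neg_mul, neg_mul, Finset.sum_mul, Finset.sum_mul,
      ← Finset.sum_neg_distrib]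
    congr 1
    exact Finset.sum_congr rfl fun k _ => by ring
  rw [h2]
  have h3 : K p * τ ≤ (∑ p, |K p|) * τ := by
    refine mul_le_mul_of_nonneg_right ?_ h0.le
    exact (le_abs_self _).trans
      (Finset.single_le_sum (f := fun p => |K p|) (fun _ _ => abs_nonneg _) (Finset.mem_univ p))
  have h4 : K p * τ = (T.cw p * (Real.pi / 4) - ((T.tt p).re - (T.tt p).im) + ∑ k, C p k) * τ := rfl
  rw [h4] at h3
  nlinarith [h3]

end Pool.Agent.DST
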