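import Mathlib

/-!
# Eigenvectors of a holomorphic family near a diagonal matrix with simple spectrum
-/

open scoped BigOperators Topology
open Filter

namespace Pool.Agent.DST

private noncomputable def efP {N : ℕ} (Y : Fin N → Fin N → ℂ) (p q : Fin N) : ℂ :=
  if p = q then 1 else Y p q

private noncomputable def efPhi {N : ℕ} (M : ℂ → Matrix (Fin N) (Fin N) ℂ)
    (x : ℂ × (Fin N → Fin N → ℂ)) : ℂ × (Fin N → Fin N → ℂ) :=
  (x.1, fun p q => (∑ k, M x.1 p k * efP x.2 k q) - efP x.2 p q * x.2 q q)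

private theorem efP_cd {N : ℕ} (p q : Fin N) :
    ContDiff ℂ 1 (fun x : ℂ × (Fin N → Fin N → ℂ) => efP x.2 p q) := by
  unfold efP
  by_cases h : p = q
  · simp only [h, if_true]
    exact contDiff_const
  · simp only [h, if_false]
    fun_prop

private theorem ef_cd {N : ℕ} {M : ℂ → Matrix (Fin N) (Fin N) ℂ}
    (hM : ∀ i j, ∀ᶠ s in 𝓝 (0 : ℂ), DifferentiableAt ℂ (fun s => M s i j) s)
    (Y : Fin N → Fin N → ℂ) : ContDiffAt ℂ 1 (efPhi M) (0, Y) := by
  have hMa : ∀ i j, ContDiffAt ℂ 1 (fun s => M s i j) 0 := by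
    intro i j
    obtain ⟨u, hu, hu2⟩ := (hM i j).exists_mem
    have h1 : DifferentiableOn ℂ (fun s => M s i j) u :=
      fun s hs => (hu2 s hs).differentiableWithinAt
    exact (h1.analyticAt hu).contDiffAt
  unfold efPhi
  refine contDiffAt_fst.prodMk ?_
  refine contDiffAt_pi.2 fun p => contDiffAt_pi.2 fun q => ?_
  refine ContDiffAt.sub ?_ ?_
  · refine ContDiffAt.sum fun k _ => ?_
    refine ContDiffAt.mul ?_ (efP_cd k q).contDiffAt
    exact ContDiffAt.comp (0, Y) (g := fun s => M s p k) (hMa p k) contDiffAt_fst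
  · refine ContDiffAt.mul (efP_cd p q).contDiffAt ?_
    have : ContDiff ℂ 1 (fun x : ℂ × (Fin N → Fin N → ℂ) => x.2 q q) := by fun_prop
    exact this.contDiffAt

private theorem ef_line {N : ℕ} {M : ℂ → Matrix (Fin N) (Fin N) ℂ} {c : Fin N → ℂ}
    (h0 : M 0 = Matrix.diagonal c) (H : Fin N → Fin N → ℂ) (t : ℂ) (p q : Fin N) :
    (efPhi M (0, fun i j => Matrix.diagonal c i j + t * H i j)).2 p q =
      if p = q then - (t * H p q) else
        c p * (t * H p q) - (t * H p q) * (c q + t * H q q) := by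
  have h1 : ∀ Z : Fin N → ℂ, ∑ k, Matrix.diagonal c p k * Z k = c p * Z p := by
    intro Z
    rw [Finset.sum_eq_single p]
    · rw [Matrix.diagonal_apply_eq]
    · intro k _ hk
      rw [Matrix.diagonal_apply_ne _ (Ne.symm hk), zero_mul]
    · intro h
      exact absurd (Finset.mem_univ p) h
  simp only [efPhi, h0]
  rw [h1]
  by_cases hpq : p = q
  · subst hpq
    simp only [efP, if_true, Matrix.diagonal_apply_eq]
    ring
  · simp only [efP, hpq, if_false, Matrix.diagonal_apply_ne _ hpq, Matrix.diagonal_apply_eq]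
    ring

private theorem ef_inj {N : ℕ} {M : ℂ → Matrix (Fin N) (Fin N) ℂ} {c : Fin N → ℂ}
    (hc : Function.Injective c) (h0 : M 0 = Matrix.diagonal c)
    {A : (ℂ × (Fin N → Fin N → ℂ)) →L[ℂ] (ℂ × (Fin N → Fin N → ℂ))}
    (hA : HasFDerivAt (efPhi M) A (0, fun i j => Matrix.diagonal c i j)) :
    Function.Injective A := by
  rw [injective_iff_map_eq_zero]
  rintro ⟨σ, H⟩ hv
  have h1 : HasFDerivAt (fun x : ℂ × (Fin N → Fin N → ℂ) => (efPhi M x).1)
      ((ContinuousLinearMap.fst ℂ ℂ (Fin N → Fin N → ℂ)).comp A)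
      (0, fun i j => Matrix.diagonal c i j) := hA.fst
  have h2 : HasFDerivAt (fun x : ℂ × (Fin N → Fin N → ℂ) => (efPhi M x).1)
      (ContinuousLinearMap.fst ℂ ℂ (Fin N → Fin N → ℂ))
      (0, fun i j => Matrix.diagonal c i j) := hasFDerivAt_fst
  have h3 := h1.unique h2
  have hσ : σ = 0 := by
    have := congrArg (fun L : (ℂ × (Fin N → Fin N → ℂ)) →L[ℂ] ℂ => L (σ, H)) h3
    simp only [ContinuousLinearMap.comp_apply, hv, map_zero] at this
    exact this.symm
  subst hσ
  have h4 := hA.hasLineDerivAt (0, H)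
  rw [hv] at h4
  have h5 : ∀ t : ℂ, ((0 : ℂ), fun i j => Matrix.diagonal c i j) + t • ((0 : ℂ), H) =
      ((0 : ℂ), fun i j => Matrix.diagonal c i j + t * H i j) := by
    intro t
    refine Prod.ext (by simp) ?_
    funext i j
    simp
  have h6 : HasDerivAt (fun t : ℂ => (efPhi M (0, fun i j => Matrix.diagonal c i j +
      t * H i j)).2) 0 0 := by
    have h7 : HasDerivAt (fun t : ℂ => efPhi M (((0 : ℂ), fun i j => Matrix.diagonal c i j) +
      t • ((0 : ℂ), H))) 0 0 := h4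
    simp only [h5] at h7
    exact h7.snd
  have h8 : ∀ p q, HasDerivAt (fun t : ℂ => if p = q then - (t * H p q) else
        c p * (t * H p q) - (t * H p q) * (c q + t * H q q)) 0 0 := by
    intro p q
    have h9 := hasDerivAt_pi.1 (hasDerivAt_pi.1 h6 p) q
    simp only [ef_line h0] at h9
    exact h9
  refine Prod.ext rfl ?_
  funext p q
  by_cases hpq : p = q
  · have h9 := h8 p q
    simp only [hpq, if_true] at h9
    have h10 : HasDerivAt (fun t : ℂ => - (t * H q q)) (-(1 * H q q)) 0 :=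
      ((hasDerivAt_id (0 : ℂ)).mul_const (H q q)).neg
    have h11 := h9.unique h10
    rw [hpq]
    show H q q = 0
    simpa using h11.symm
  · have h9 := h8 p q
    simp only [hpq, if_false] at h9
    have e1 : HasDerivAt (fun t : ℂ => t * H p q) (1 * H p q) 0 :=
      (hasDerivAt_id (0 : ℂ)).mul_const (H p q)
    have e2 : HasDerivAt (fun t : ℂ => c q + t * H q q) (1 * H q q) 0 :=
      ((hasDerivAt_id (0 : ℂ)).mul_const (H q q)).const_add (c q)
    have h10 := (e1.const_mul (c p)).sub (e1.mul e2)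
    have h11 := h9.unique h10
    have h12 : (c p - c q) * H p q = 0 := by
      simp only [one_mul, zero_mul, add_zero] at h11
      linear_combination -h11
    rcases mul_eq_zero.1 h12 with h13 | h13
    · exact absurd (hc (sub_eq_zero.1 h13)) hpq
    · exact h13

theorem eig_family {N : ℕ} {M : ℂ → Matrix (Fin N) (Fin N) ℂ} {c : Fin N → ℂ}
    (hc : Function.Injective c) (h0 : M 0 = Matrix.diagonal c)
    (hM : ∀ i j, ∀ᶠ s in 𝓝 (0 : ℂ), DifferentiableAt ℂ (fun s => M s i j) s) :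
    ∃ ρ > 0, ∃ (P : ℂ → Matrix (Fin N) (Fin N) ℂ) (U : ℂ → Fin N → ℂ),
      P 0 = 1 ∧ U 0 = c ∧ ∀ s ∈ Metric.ball (0 : ℂ) ρ,
        (∀ i j, DifferentiableAt ℂ (fun s => P s i j) s) ∧
        (∀ i, DifferentiableAt ℂ (fun s => U s i) s) ∧ (P s).det ≠ 0 ∧
        M s * P s = P s * Matrix.diagonal (U s) := by
  classical
  obtain ⟨Y0, hY0⟩ : ∃ Y0 : Fin N → Fin N → ℂ, Y0 = fun i j => Matrix.diagonal c i j := ⟨_, rfl⟩
  have hcd : ContDiffAt ℂ 1 (efPhi M) (0, Y0) := ef_cd hM Y0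
  have hfd : HasFDerivAt (efPhi M) (fderiv ℂ (efPhi M) (0, Y0)) (0, Y0) :=
    (hcd.differentiableAt one_ne_zero).hasFDerivAt
  have hinj : Function.Injective (fderiv ℂ (efPhi M) (0, Y0)) := by
    refine ef_inj hc h0 ?_
    rw [← hY0]
    exact hfd
  obtain ⟨A, hA⟩ : ∃ A : (ℂ × (Fin N → Fin N → ℂ)) ≃L[ℂ] (ℂ × (Fin N → Fin N → ℂ)),
      (A : (ℂ × (Fin N → Fin N → ℂ)) →L[ℂ] (ℂ × (Fin N → Fin N → ℂ))) =
        fderiv ℂ (efPhi M) (0, Y0) := by
    refine ⟨(LinearEquiv.ofInjectiveEndo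
      (fderiv ℂ (efPhi M) (0, Y0) : (ℂ × (Fin N → Fin N → ℂ)) →ₗ[ℂ] (ℂ × (Fin N → Fin N → ℂ)))
      hinj).toContinuousLinearEquiv, ?_⟩
    exact ContinuousLinearMap.ext fun x => rfl
  rw [← hA] at hfd
  have hval : efPhi M (0, Y0) = (0, 0) := by
    refine Prod.ext rfl ?_
    funext p q
    have := ef_line h0 (fun _ _ => (0 : ℂ)) 0 p q
    simp only [mul_zero, add_zero, neg_zero, zero_mul, sub_zero, ite_self] at this
    rw [hY0]
    exact this
  obtain ⟨g, hg⟩ : ∃ g, g = hcd.localInverse hfd one_ne_zero := ⟨_, rfl⟩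
  have hg1 : ContDiffAt ℂ 1 g (0, 0) := by
    have := hcd.to_localInverse hfd one_ne_zero
    rw [hval, ← hg] at this
    exact this
  have hg2 : g (0, 0) = (0, Y0) := by
    have := hcd.localInverse_apply_image hfd one_ne_zero
    rw [hval, ← hg] at this
    exact this
  have hg3 : ∀ᶠ y in 𝓝 ((0 : ℂ), (0 : Fin N → Fin N → ℂ)), efPhi M (g y) = y := by
    have := (hcd.hasStrictFDerivAt' hfd one_ne_zero).eventually_right_inverse
    rw [hval] at this
    rw [hg]
    exact this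
  have hι : ContDiff ℂ 1 (fun s : ℂ => (s, (0 : Fin N → Fin N → ℂ))) :=
    contDiff_id.prodMk contDiff_const
  have hι0 : Tendsto (fun s : ℂ => (s, (0 : Fin N → Fin N → ℂ))) (𝓝 0) (𝓝 (0, 0)) :=
    hι.continuous.tendsto 0
  have hY1 : ContDiffAt ℂ 1 (fun s : ℂ => (g (s, 0)).2) 0 := by
    have h1 : ContDiffAt ℂ 1 (fun s : ℂ => g (s, 0)) 0 :=
      ContDiffAt.comp (0 : ℂ) (g := g) (f := fun s : ℂ => (s, (0 : Fin N → Fin N → ℂ)))
        hg1 hι.contDiffAt
    exact contDiffAt_snd.comp (0 : ℂ) h1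
  have hY2 : ∀ᶠ s in 𝓝 (0 : ℂ), DifferentiableAt ℂ (fun s : ℂ => (g (s, 0)).2) s := by
    filter_upwards [hY1.eventually (by decide)] with s hs
    exact hs.differentiableAt one_ne_zero
  have hY3 : ∀ᶠ s in 𝓝 (0 : ℂ), efPhi M (g (s, 0)) = (s, 0) := hι0.eventually hg3
  have hPd : ∀ s : ℂ, DifferentiableAt ℂ (fun s : ℂ => (g (s, 0)).2) s → ∀ i j,
      DifferentiableAt ℂ (fun s : ℂ => efP (g (s, 0)).2 i j) s := by
    intro s hs i j
    unfold efP
    by_cases h : i = j
    · simp only [h, if_true]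
      exact differentiableAt_const _
    · simp only [h, if_false]
      exact differentiableAt_pi.1 (differentiableAt_pi.1 hs i) j
  have hP0 : (Matrix.of fun i j => efP (g ((0 : ℂ), 0)).2 i j :
      Matrix (Fin N) (Fin N) ℂ) = 1 := by
    ext i j
    rw [hg2, hY0]
    by_cases h : i = j
    · subst h
      simp [efP]
    · simp [efP, h]
  have hdet : ∀ᶠ s in 𝓝 (0 : ℂ), (Matrix.of fun i j => efP (g (s, 0)).2 i j :
      Matrix (Fin N) (Fin N) ℂ).det ≠ 0 := by
    have h1 : ContinuousAt (fun s : ℂ => (Matrix.of fun i j => efP (g (s, 0)).2 i j :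
      Matrix (Fin N) (Fin N) ℂ)) 0 := by
      refine continuousAt_pi.2 fun i => continuousAt_pi.2 fun j => ?_
      exact (hPd 0 (hY1.differentiableAt one_ne_zero) i j).continuousAt
    have h2 : ContinuousAt (fun s : ℂ => (Matrix.of fun i j => efP (g (s, 0)).2 i j :
      Matrix (Fin N) (Fin N) ℂ).det) 0 :=
      ContinuousAt.comp (f := fun s : ℂ => (Matrix.of fun i j => efP (g (s, 0)).2 i j :
        Matrix (Fin N) (Fin N) ℂ)) (g := Matrix.det)
        (continuous_id.matrix_det).continuousAt h1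
    refine h2.eventually_ne ?_
    rw [hP0, Matrix.det_one]
    exact one_ne_zero
  obtain ⟨ρ, hρ, hρ2⟩ := Metric.eventually_nhds_iff_ball.1 ((hY2.and hY3).and hdet)
  refine ⟨ρ, hρ, fun s => Matrix.of fun i j => efP (g (s, 0)).2 i j,
    fun s i => (g (s, 0)).2 i i, hP0, ?_, fun s hs => ?_⟩
  · funext i
    show (g ((0 : ℂ), 0)).2 i i = c i
    rw [hg2, hY0]
    exact Matrix.diagonal_apply_eq c i
  · obtain ⟨⟨e1, e2⟩, e3⟩ := hρ2 s hs
    refine ⟨hPd s e1, fun i => ?_, e3, ?_⟩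
    · exact differentiableAt_pi.1 (differentiableAt_pi.1 e1 i) i
    · have h1 : (g (s, 0)).1 = s := congrArg Prod.fst e2
      have h2 : ∀ p q, (efPhi M (g (s, 0))).2 p q = 0 := by
        intro p q
        rw [e2]
        rfl
      ext p q
      have h3 := h2 p q
      simp only [efPhi, h1] at h3
      rw [Matrix.mul_apply, Matrix.mul_diagonal]
      exact sub_eq_zero.1 h3

end Pool.Agent.DST
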