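import Pool.Agent.DST.DPrH

/-!
# DST-DPoly: quantum multiplication by `c_1^T` is a polynomial in `1/λ`, after conjugation by `λ^θ`

The entries of the inverse pairing and the equivariant invariants are monomials in `λ`, so the
entries of `Ah l` are finite sums of `exp (-l * c1 β)`; the value at `λ = ∞` is classical
multiplication by `c_1^T`.
-/

open scoped BigOperators Topology
open Filter

namespace Pool.Agent.DST

open Pool.Agent.Helper18.Dub Pool.Agent.Helper7.DubStokes Pool.Agent.SHF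

variable {N : ℕ} {X : FanoGW (Fin N)} {t : Fin N → ℂ}

/-- values of a homogeneous polynomial -/
private theorem dpo_hom {p : Polynomial ℂ} {E D : ℕ} (h : ∀ n, p.coeff n ≠ 0 → E = D + n) (l : ℂ) :
    p.eval (Complex.exp l) = Complex.exp (l * ((E : ℂ) - D)) * p.eval 1 := by
  rw [Polynomial.eval_eq_sum, Polynomial.eval_eq_sum, Polynomial.sum, Polynomial.sum,
    Finset.mul_sum]
  refine Finset.sum_congr rfl fun n hn => ?_
  have h1 := h n (Polynomial.mem_support_iff.1 hn)
  have h2 : ((E : ℂ) - D) = n := by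
    rw [h1]
    push_cast
    ring
  rw [one_pow, mul_one, ← Complex.exp_nat_mul, h2, mul_comm (n : ℂ) l]
  ring

private theorem dpo_finite (X : FanoGW (Fin N)) (L : ℕ) : {β | X.c1 β ≤ L}.Finite := by
  have h : {β | X.c1 β ≤ L} = ⋃ n ∈ Set.Iic L, {β | X.c1 β = n} := by
    ext β
    simp
  rw [h]
  exact (Set.finite_Iic L).biUnion fun n _ => X.c1_finite n

private theorem dpo_dim (T : GammaGW X t) (β : X.Curve) (a b m : Fin N) (n : ℕ)
    (h : (T.invT β {a, b, m}).coeff n ≠ 0) :
    X.deg a + X.deg b + X.deg m = X.dim + X.c1 β + n := by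
  have h1 := T.dimension β {a, b, m} n h
  have h2 : (({a, b, m} : Multiset (Fin N)).map X.deg).sum = X.deg a + X.deg b + X.deg m := by
    simp [add_assoc]
  have h3 : Multiset.card ({a, b, m} : Multiset (Fin N)) = 3 := rfl
  rw [h2, h3] at h1
  omega

private theorem dpo_corr (T : GammaGW X t) {L : ℕ} {a b m : Fin N}
    (hL : X.deg a + X.deg b + X.deg m ≤ L) (x : ℂ) :
    (corrAt T.toEquivData t {a, b, m}).eval x = ∑ β ∈ (dpo_finite X L).toFinset,
      Complex.exp (∑ i, t i * X.period β i) * (T.invT β {a, b, m}).eval x := by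
  unfold corrAt
  rw [finsum_eq_sum_of_support_subset (s := (dpo_finite X L).toFinset)]
  · rw [Polynomial.eval_finset_sum]
    refine Finset.sum_congr rfl fun β _ => ?_
    rw [Polynomial.eval_mul, Polynomial.eval_C]
  · intro β hβ
    have h1 : T.invT β {a, b, m} ≠ 0 := by
      intro h0
      apply hβ
      show _ * T.invT β {a, b, m} = 0
      rw [h0, mul_zero]
    obtain ⟨n, hn⟩ : ∃ n, (T.invT β {a, b, m}).coeff n ≠ 0 := by
      by_contra hcon
      push Not at hcon
      exact h1 (Polynomial.ext fun n => by rw [hcon n, Polynomial.coeff_zero])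
    have h2 := dpo_dim T β a b m n hn
    rw [Set.Finite.coe_toFinset, Set.mem_setOf_eq]
    omega

private theorem dpo_inv (T : GammaGW X t) (x : ℂ) : evm T.pairT⁻¹ x = (evm T.pairT x)⁻¹ := by
  symm
  apply Matrix.inv_eq_right_inv
  rw [← evm_mul, Matrix.mul_nonsing_inv _ T.pair_nondeg]
  ext i j
  show Polynomial.eval x ((1 : Matrix (Fin N) (Fin N) (Polynomial ℂ)) i j) = _
  by_cases h : i = j
  · rw [h, Matrix.one_apply_eq, Matrix.one_apply_eq, Polynomial.eval_one]
  · rw [Matrix.one_apply_ne h, Matrix.one_apply_ne h, Polynomial.eval_zero]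

/-- homogeneity of the inverse pairing -/
private theorem dpo_inv_hom (T : GammaGW X t) (l : ℂ) (k m : Fin N) :
    (T.pairT⁻¹ k m).eval (Complex.exp l) =
      Complex.exp (l * ((X.dim : ℂ) - X.deg k - X.deg m)) * (T.pairT⁻¹ k m).eval 1 := by
  have h1 : (evm T.pairT (Complex.exp l))⁻¹ = th X l * (evm T.pairT 1)⁻¹ * th X l := by
    apply Matrix.inv_eq_right_inv
    have h2 := T.pair_hom l
    have h3 : IsUnit (evm T.pairT 1).det := isUnit_iff_ne_zero.2 (T.pair_det 1)
    have h4 : evm T.pairT (Complex.exp l) = th X (-l) * evm T.pairT 1 * th X (-l) := by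
      rw [← h2]
      calc evm T.pairT (Complex.exp l)
          = (th X (-l) * th X l) * evm T.pairT (Complex.exp l) * (th X l * th X (-l)) := by
            rw [th_neg_mul, th_mul_neg, Matrix.one_mul, Matrix.mul_one]
        _ = _ := by simp only [Matrix.mul_assoc]
    rw [h4]
    calc th X (-l) * evm T.pairT 1 * th X (-l) * (th X l * (evm T.pairT 1)⁻¹ * th X l)
        = th X (-l) * evm T.pairT 1 * (th X (-l) * th X l) * (evm T.pairT 1)⁻¹ * th X l := by
          simp only [Matrix.mul_assoc]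
      _ = th X (-l) * (evm T.pairT 1 * (evm T.pairT 1)⁻¹) * th X l := by
          rw [th_neg_mul, Matrix.mul_one]
          simp only [Matrix.mul_assoc]
      _ = 1 := by rw [Matrix.mul_nonsing_inv _ h3, Matrix.mul_one, th_neg_mul]
  rw [← dpo_inv, ← dpo_inv] at h1
  have h2 := congrFun (congrFun h1 k) m
  unfold th at h2
  rw [Matrix.mul_diagonal, Matrix.diagonal_mul] at h2
  have h3 : (T.pairT⁻¹ k m).eval (Complex.exp l) =
      Complex.exp (l * ((X.dim : ℂ) / 2 - X.deg k)) * (T.pairT⁻¹ k m).eval 1 *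
        Complex.exp (l * ((X.dim : ℂ) / 2 - X.deg m)) := h2
  rw [h3, mul_right_comm, ← Complex.exp_add]
  congr 2
  ring

private theorem dpo_chern (T : GammaGW X t) (x : ℂ) (k b : Fin N) :
    evm (chernT T.toEquivData t T.κ) x k b = ∑ a, X.chern a * ∑ m, (T.pairT⁻¹ k m).eval x *
      (corrAt T.toEquivData t {a, b, m}).eval x +
      T.κ * x * (1 : Matrix (Fin N) (Fin N) ℂ) k b := by
  show Polynomial.eval x (∑ a, Polynomial.C (X.chern a) * ∑ l, T.pairT⁻¹ k l *
      corrAt T.toEquivData t {a, b, l} +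
      (Polynomial.C T.κ * Polynomial.X) * (1 : Matrix (Fin N) (Fin N) (Polynomial ℂ)) k b) = _
  rw [Polynomial.eval_add, Polynomial.eval_finset_sum, Polynomial.eval_mul, Polynomial.eval_mul,
    Polynomial.eval_C, Polynomial.eval_X]
  congr 1
  · refine Finset.sum_congr rfl fun a _ => ?_
    rw [Polynomial.eval_mul, Polynomial.eval_C, Polynomial.eval_finset_sum]
    congr 1
    refine Finset.sum_congr rfl fun m _ => ?_
    rw [Polynomial.eval_mul]
  · congr 1
    by_cases h : k = b
    · rw [h, Matrix.one_apply_eq, Matrix.one_apply_eq, Polynomial.eval_one]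
    · rw [Matrix.one_apply_ne h, Matrix.one_apply_ne h, Polynomial.eval_zero]

private theorem dpo_W (T : GammaGW X t) (k b : Fin N) :
    T.W k b = ∑ a, X.chern a * ∑ m, (T.pairT⁻¹ k m).eval 1 *
      (T.invT X.zero {a, b, m}).eval 1 + T.κ * (1 : Matrix (Fin N) (Fin N) ℂ) k b := by
  have h0 : (∑ a, Polynomial.C (X.chern a) • T.cupMatT a) k b =
      ∑ a, Polynomial.C (X.chern a) * ∑ l, T.pairT⁻¹ k l * T.invT X.zero {a, b, l} := by
    rw [Matrix.sum_apply]
    rfl
  show Polynomial.eval 1 ((∑ a, Polynomial.C (X.chern a) • T.cupMatT a) k b +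
      (Polynomial.C T.κ * Polynomial.X) * (1 : Matrix (Fin N) (Fin N) (Polynomial ℂ)) k b) = _
  rw [h0, Polynomial.eval_add, Polynomial.eval_finset_sum, Polynomial.eval_mul,
    Polynomial.eval_mul, Polynomial.eval_C, Polynomial.eval_X, mul_one]
  congr 1
  · refine Finset.sum_congr rfl fun a _ => ?_
    rw [Polynomial.eval_mul, Polynomial.eval_C, Polynomial.eval_finset_sum]
    congr 1
    refine Finset.sum_congr rfl fun m _ => ?_
    rw [Polynomial.eval_mul]
  · congr 1
    by_cases h : k = b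
    · rw [h, Matrix.one_apply_eq, Matrix.one_apply_eq, Polynomial.eval_one]
    · rw [Matrix.one_apply_ne h, Matrix.one_apply_ne h, Polynomial.eval_zero]

/-- a bound for all sums of three degrees -/
private def dpoL (X : FanoGW (Fin N)) : ℕ := 3 * ∑ i, X.deg i

private theorem dpo_le (X : FanoGW (Fin N)) (a b m : Fin N) :
    X.deg a + X.deg b + X.deg m ≤ dpoL X := by
  unfold dpoL
  have h : ∀ i, X.deg i ≤ ∑ i, X.deg i := fun i =>
    Finset.single_le_sum (f := X.deg) (fun _ _ => Nat.zero_le _) (Finset.mem_univ i)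
  have h1 := h a
  have h2 := h b
  have h3 := h m
  omega

/-- the polynomial -/
private noncomputable def dpoA (T : GammaGW X t) (s : ℂ) : Matrix (Fin N) (Fin N) ℂ :=
  Matrix.of fun k b => ∑ a, X.chern a * ∑ m, (T.pairT⁻¹ k m).eval 1 *
    (∑ β ∈ (dpo_finite X (dpoL X)).toFinset,
      Complex.exp (∑ i, t i * X.period β i) * (T.invT β {a, b, m}).eval 1 * s ^ X.c1 β) +
    T.κ * (1 : Matrix (Fin N) (Fin N) ℂ) k b

private theorem dpo_diff (T : GammaGW X t) (i j : Fin N) :
    Differentiable ℂ fun s => dpoA T s i j := by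
  unfold dpoA
  simp only [Matrix.of_apply]
  fun_prop

private theorem dpo_zero (T : GammaGW X t) : dpoA T 0 = T.W := by
  ext k b
  rw [dpo_W]
  unfold dpoA
  rw [Matrix.of_apply]
  congr 1
  refine Finset.sum_congr rfl fun a _ => ?_
  congr 1
  refine Finset.sum_congr rfl fun m _ => ?_
  congr 1
  rw [Finset.sum_eq_single X.zero]
  · rw [(X.c1_eq_zero X.zero).2 rfl, pow_zero, mul_one]
    have h1 : ∑ i, t i * X.period X.zero i = 0 :=
      Finset.sum_eq_zero fun i _ => by rw [T.period_zero i, mul_zero]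
    rw [h1, Complex.exp_zero, one_mul]
  · intro β _ hβ
    have h1 : X.c1 β ≠ 0 := fun h => hβ ((X.c1_eq_zero β).1 h)
    rw [zero_pow h1, mul_zero]
  · intro h
    refine absurd ?_ h
    rw [Set.Finite.mem_toFinset, Set.mem_setOf_eq, (X.c1_eq_zero X.zero).2 rfl]
    exact Nat.zero_le _

private theorem dpo_Ah (T : GammaGW X t) (l : ℂ) : T.Ah l = dpoA T (Complex.exp (-l)) := by
  ext k b
  have h1 : T.Ah l k b = Complex.exp (-l * ((X.dim : ℂ) / 2 - X.deg k)) *
      (Complex.exp (-l) * evm (chernT T.toEquivData t T.κ) (Complex.exp l) k b) *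
      Complex.exp (l * ((X.dim : ℂ) / 2 - X.deg b)) := by
    unfold GammaGW.Ah th
    rw [Matrix.mul_diagonal, Matrix.diagonal_mul, Matrix.smul_apply, smul_eq_mul]
  rw [h1, dpo_chern]
  unfold dpoA
  rw [Matrix.of_apply]
  have h2 : Complex.exp (-l * ((X.dim : ℂ) / 2 - X.deg k)) * Complex.exp (-l) *
      Complex.exp (l * ((X.dim : ℂ) / 2 - X.deg b)) =
      Complex.exp (l * ((X.deg k : ℂ) - X.deg b - 1)) := by
    rw [← Complex.exp_add, ← Complex.exp_add]
    congr 1
    ring
  have h3 : ∀ z : ℂ, Complex.exp (-l * ((X.dim : ℂ) / 2 - X.deg k)) * (Complex.exp (-l) * z) *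
      Complex.exp (l * ((X.dim : ℂ) / 2 - X.deg b)) =
      Complex.exp (l * ((X.deg k : ℂ) - X.deg b - 1)) * z := fun z => by
    rw [← h2]
    ring
  rw [h3, mul_add]
  congr 1
  · rw [Finset.mul_sum]
    refine Finset.sum_congr rfl fun a _ => ?_
    by_cases ha : X.chern a = 0
    · rw [ha, zero_mul, zero_mul, mul_zero]
    · have hda : X.deg a = 1 := X.chern_deg a ha
      rw [mul_left_comm]
      congr 1
      rw [Finset.mul_sum]
      refine Finset.sum_congr rfl fun m _ => ?_
      rw [dpo_corr T (dpo_le X a b m), dpo_inv_hom, Finset.mul_sum, Finset.mul_sum, Finset.mul_sum]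
      refine Finset.sum_congr rfl fun β _ => ?_
      have h4 : (T.invT β {a, b, m}).eval (Complex.exp l) =
          Complex.exp (l * (((X.deg a + X.deg b + X.deg m : ℕ) : ℂ) -
            ((X.dim + X.c1 β : ℕ) : ℂ))) * (T.invT β {a, b, m}).eval 1 :=
        dpo_hom (fun n hn => dpo_dim T β a b m n hn) l
      have h5 : Complex.exp (l * ((X.deg k : ℂ) - X.deg b - 1)) *
          Complex.exp (l * ((X.dim : ℂ) - X.deg k - X.deg m)) *
          Complex.exp (l * (((X.deg a + X.deg b + X.deg m : ℕ) : ℂ) -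
            ((X.dim + X.c1 β : ℕ) : ℂ))) = Complex.exp (-l) ^ X.c1 β := by
        rw [← Complex.exp_add, ← Complex.exp_add, ← Complex.exp_nat_mul, hda]
        congr 1
        push_cast
        ring
      rw [h4, ← h5]
      ring
  · by_cases h : k = b
    · rw [h, Matrix.one_apply_eq, mul_one, mul_one]
      have h4 : (X.deg b : ℂ) - X.deg b - 1 = -1 := by ring
      rw [h4, mul_left_comm, ← Complex.exp_add]
      have h5 : l * -1 + l = 0 := by ring
      rw [h5, Complex.exp_zero, mul_one]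
    · rw [Matrix.one_apply_ne h, mul_zero, mul_zero, mul_zero]

theorem GammaGW.exists_poly (T : GammaGW X t) : ∃ 𝒜 : ℂ → Matrix (Fin N) (Fin N) ℂ,
    (∀ i j, Differentiable ℂ fun s => 𝒜 s i j) ∧ 𝒜 0 = T.W ∧
      ∀ l, T.Ah l = 𝒜 (Complex.exp (-l)) :=
  ⟨dpoA T, dpo_diff T, dpo_zero T, dpo_Ah T⟩

/-- a differentiable function is Lipschitz at `0` on the unit disc -/
private theorem dpo_lip {f : ℂ → ℂ} (hf : Differentiable ℂ f) :
    ∃ K : ℝ, 0 ≤ K ∧ ∀ s : ℂ, ‖s‖ ≤ 1 → ‖f s - f 0‖ ≤ K * ‖s‖ := by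
  have h1 : ContinuousOn (dslope f 0) Set.univ :=
    (continuousOn_dslope univ_mem).2 ⟨hf.continuous.continuousOn, hf 0⟩
  obtain ⟨K, hK⟩ := (isCompact_closedBall (0 : ℂ) 1).exists_bound_of_continuousOn
    (h1.mono (Set.subset_univ _))
  have hK0 : 0 ≤ K := (norm_nonneg _).trans (hK 0 (Metric.mem_closedBall_self zero_le_one))
  refine ⟨K, hK0, fun s hs => ?_⟩
  have h2 := sub_smul_dslope f 0 s
  rw [← h2, norm_smul, sub_zero, mul_comm]
  exact mul_le_mul_of_nonneg_right (hK s (mem_closedBall_zero_iff.2 hs)) (norm_nonneg _)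

theorem GammaGW.Ah_sub (T : GammaGW X t) : ∃ K : ℝ, 0 ≤ K ∧ ∀ l : ℂ, 0 ≤ l.re → ∀ i j,
    ‖(T.Ah l - T.W) i j‖ ≤ K * Real.exp (-l.re) := by
  obtain ⟨𝒜, hd, h0, hA⟩ := T.exists_poly
  choose K hK0 hK using fun i j => dpo_lip (hd i j)
  refine ⟨∑ i, ∑ j, K i j, Finset.sum_nonneg fun i _ => Finset.sum_nonneg fun j _ => hK0 i j,
    fun l hl i j => ?_⟩
  have h1 : ‖Complex.exp (-l)‖ = Real.exp (-l.re) := by
    rw [Complex.norm_exp, Complex.neg_re]
  have h2 : ‖Complex.exp (-l)‖ ≤ 1 := by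
    rw [h1]
    exact Real.exp_le_one_iff.2 (by linarith)
  have h3 : K i j ≤ ∑ i, ∑ j, K i j :=
    (Finset.single_le_sum (f := fun j => K i j) (fun j _ => hK0 i j) (Finset.mem_univ j)).trans
      (Finset.single_le_sum (f := fun i => ∑ j, K i j)
        (fun i _ => Finset.sum_nonneg fun j _ => hK0 i j) (Finset.mem_univ i))
  rw [Matrix.sub_apply, hA, ← h0]
  refine (hK i j _ h2).trans ?_
  rw [h1]
  exact mul_le_mul_of_nonneg_right h3 (Real.exp_pos _).le

end Pool.Agent.DST
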