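import Pool.Agent.DST.SCon

/-!
# DST-SHol: `V(ε)` is holomorphic for `0 < |ε| < r`

Near `ε₀ ≠ 0` the logarithm `log (ε / ε₀) + log ε₀` is holomorphic, and the transport `V` does not
depend on the branch of the logarithm. Also: products, determinants and inverses of matrices with
differentiable entries have differentiable entries.
-/

open scoped BigOperators Topology
open Filter

namespace Pool.Agent.DST

variable {N : ℕ}

theorem diffAt_mul {E : Type} [NormedAddCommGroup E] [NormedSpace ℂ E]
    {A B : E → Matrix (Fin N) (Fin N) ℂ} {x : E}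
    (hA : ∀ i j, DifferentiableAt ℂ (fun x => A x i j) x)
    (hB : ∀ i j, DifferentiableAt ℂ (fun x => B x i j) x) (i j : Fin N) :
    DifferentiableAt ℂ (fun x => (A x * B x) i j) x := by
  simp only [Matrix.mul_apply]
  exact DifferentiableAt.fun_sum fun k _ => (hA i k).mul (hB k j)

theorem diffAt_det {E : Type} [NormedAddCommGroup E] [NormedSpace ℂ E]
    {A : E → Matrix (Fin N) (Fin N) ℂ} {x : E}
    (hA : ∀ i j, DifferentiableAt ℂ (fun x => A x i j) x) :
    DifferentiableAt ℂ (fun x => (A x).det) x := by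
  simp only [Matrix.det_apply']
  refine DifferentiableAt.fun_sum fun σ _ => ?_
  refine DifferentiableAt.const_mul ?_ _
  have key : ∀ s : Finset (Fin N), DifferentiableAt ℂ (fun x => ∏ i ∈ s, A x (σ i) i) x := by
    intro s
    induction s using Finset.induction_on with
    | empty => simp
    | insert a s ha ih =>
      simp only [Finset.prod_insert ha]
      exact (hA (σ a) a).mul ih
  exact key Finset.univ

theorem diffAt_inv {E : Type} [NormedAddCommGroup E] [NormedSpace ℂ E]
    {A : E → Matrix (Fin N) (Fin N) ℂ} {x : E}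
    (hA : ∀ i j, DifferentiableAt ℂ (fun x => A x i j) x) (hdet : (A x).det ≠ 0)
    (i j : Fin N) : DifferentiableAt ℂ (fun x => (A x)⁻¹ i j) x := by
  have h1 : (fun x => (A x)⁻¹ i j) =
      fun x => ((A x).det)⁻¹ * ((A x).updateRow j (Pi.single i 1)).det := by
    funext x
    rw [Matrix.inv_def, Ring.inverse_eq_inv', Matrix.smul_apply, Matrix.adjugate_apply, smul_eq_mul]
  rw [h1]
  refine ((diffAt_det hA).inv hdet).mul (diffAt_det fun a b => ?_)
  by_cases ha : a = j
  · simp only [Matrix.updateRow_apply, ha, if_true]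
    exact differentiableAt_const _
  · simp only [Matrix.updateRow_apply, ha, if_false]
    exact hA a b

theorem QSys.V_hol (Q : QSys N) {l : ℂ} {r : ℝ} (hr : Q.Good l r) {ε : ℂ} (h0 : ε ≠ 0)
    (hε : ‖ε‖ < r) (i j : Fin N) : DifferentiableAt ℂ (fun ε => Q.V l ε i j) ε := by
  set Lg : ℂ → ℂ := fun x => Complex.log (x / ε) + Complex.log ε with hLg
  have hLg0 : Lg ε = Complex.log ε := by simp [hLg, div_self h0]
  have hdLg : DifferentiableAt ℂ Lg ε := by
    refine DifferentiableAt.add_const _ ?_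
    refine (differentiableAt_id.div_const ε).clog ?_
    simp [div_self h0]
  have hexp : ∀ x : ℂ, x ≠ 0 → Complex.exp (Lg x) = x := by
    intro x hx
    simp only [hLg]
    rw [Complex.exp_add, Complex.exp_log (div_ne_zero hx h0), Complex.exp_log h0]
    field_simp
  have hr1 : r ≤ 1 / 2 := hr.2.1
  have hd1 : DifferentiableAt ℂ (fun x : ℂ => Complex.log (1 - x)) ε := by
    refine ((differentiableAt_const (1 : ℂ)).sub differentiableAt_id).clog ?_
    left
    have h2 : ε.re ≤ ‖ε‖ := Complex.re_le_norm ε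
    simp
    linarith
  have hev : ∀ᶠ x in 𝓝 ε, x ≠ 0 ∧ ‖x‖ < r :=
    (continuousAt_id.eventually_ne h0).and
      ((continuous_norm.continuousAt (x := ε)).eventually_lt continuousAt_const hε)
  have hEq : (fun x => Q.V l x i j) =ᶠ[𝓝 ε] fun x =>
      (Q.J (x⁻¹ - 1) (l + Lg x) * (Q.J (x⁻¹ - 1) (l + Lg x - Complex.log (1 - x)))⁻¹) i j := by
    filter_upwards [hev] with x hx
    obtain ⟨n, hn⟩ := Complex.exp_eq_exp_iff_exists_int.1
      ((hexp x hx.1).trans (Complex.exp_log hx.1).symm)
    have hb := Q.branch (y := x⁻¹ - 1) (w := l + Complex.log x)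
      (w' := l + Complex.log x - Complex.log (1 - x)) n
      (fun τ hτ => Q.seg_mem hr hx.1 hx.2 hτ)
    have e1 : l + Complex.log x + 2 * Real.pi * Complex.I * n = l + Lg x := by
      rw [hn]; ring
    have e2 : l + Complex.log x - Complex.log (1 - x) + 2 * Real.pi * Complex.I * n =
        l + Lg x - Complex.log (1 - x) := by
      rw [hn]; ring
    rw [e1, e2] at hb
    show Q.V l x i j = _
    rw [hb]
    rfl
  refine DifferentiableAt.congr_of_eventuallyEq ?_ hEq
  have hm1 : (ε⁻¹ - 1) * Complex.exp (l + Lg ε) ∈ Q.Λ := by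
    have h := Q.seg_mem hr h0 hε (τ := 1) ⟨by norm_num, le_refl _⟩
    rw [hLg0]
    convert h using 3
    push_cast
    ring
  have hm0 : (ε⁻¹ - 1) * Complex.exp (l + Lg ε - Complex.log (1 - ε)) ∈ Q.Λ := by
    have h := Q.seg_mem hr h0 hε (τ := 0) ⟨le_refl _, by norm_num⟩
    rw [hLg0]
    convert h using 3
    push_cast
    ring
  have hdi : DifferentiableAt ℂ (fun x : ℂ => x⁻¹ - 1) ε :=
    (differentiableAt_inv h0).sub_const 1
  refine diffAt_mul (A := fun x => Q.J (x⁻¹ - 1) (l + Lg x))
    (B := fun x => (Q.J (x⁻¹ - 1) (l + Lg x - Complex.log (1 - x)))⁻¹) ?_ ?_ i j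
  · intro a b
    exact DifferentiableAt.comp ε (Q.J_hol (ε⁻¹ - 1) (l + Lg ε) hm1 a b)
      (f := fun x : ℂ => (x⁻¹ - 1, l + Lg x)) (hdi.prodMk (hdLg.const_add l))
  · intro a b
    refine diffAt_inv (A := fun x => Q.J (x⁻¹ - 1) (l + Lg x - Complex.log (1 - x))) ?_
      (Q.det_J hm0) a b
    intro a b
    exact DifferentiableAt.comp ε
      (Q.J_hol (ε⁻¹ - 1) (l + Lg ε - Complex.log (1 - ε)) hm0 a b)
      (f := fun x : ℂ => (x⁻¹ - 1, l + Lg x - Complex.log (1 - x)))
      (hdi.prodMk ((hdLg.const_add l).sub hd1))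

end Pool.Agent.DST
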