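import Pool.Agent.DST.DRes

/-!
# The `Γ`-solutions at fixed `λ = e^l`, as a product

The exponential of the classical multiplication by `c_1^T` is diagonalised by the matrix of the
restrictions to the fixed points, so that the `Γ`-solutions are a product of a matrix tending to `1`,
of diagonal matrices and of the restrictions of the `K`-theoretic basis.
-/

open scoped BigOperators Topology
open Filter

namespace Pool.Agent.DST

open Pool.Agent.Helper18.Dub Pool.Agent.Helper7.DubStokes Pool.Agent.SHF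

variable {N : ℕ} {X : FanoGW (Fin N)} {t : Fin N → ℂ}

theorem GammaGW.Ry_G (T : GammaGW X t) {y : ℂ} (hy : y.im ≠ 0) :
    T.Ry y * T.G y = Matrix.diagonal (fun p => Complex.exp (T.tt p * y) *
      ∏ k, Complex.Gamma (1 - T.wt p k * y)) * T.BT y := by
  ext p i
  rw [Matrix.diagonal_mul, Matrix.mul_apply]
  have h := T.G_res y hy p i
  have e1 : ∑ a, T.Ry y p a * T.G y a i = ∑ a, T.res p a * y ^ X.deg a * T.G y a i := rfl
  rw [e1, h]
  have e2 : T.BT y p i = evZ y (T.B i p) := rfl
  rw [e2]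
  unfold tt
  ring

theorem GammaGW.exp_W (T : GammaGW X t) {y : ℂ} (hy : y ≠ 0) (c : ℂ) :
    T.Ry y * NormedSpace.exp (c • evm (cupChernT T.toEquivData T.κ) y) =
      Matrix.diagonal (fun p => Complex.exp (c * ((T.cw p : ℂ) * y))) * T.Ry y := by
  have hdet : IsUnit (T.Ry y).det := isUnit_iff_ne_zero.2 (T.det_Ry hy)
  have hu : IsUnit (T.Ry y) := (Matrix.isUnit_iff_isUnit_det _).2 hdet
  have h1 := Matrix.exp_conj (T.Ry y) (c • evm (cupChernT T.toEquivData T.κ) y) hu
  have h2 : T.Ry y * (c • evm (cupChernT T.toEquivData T.κ) y) * (T.Ry y)⁻¹ =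
      Matrix.diagonal (fun p => c * ((T.cw p : ℂ) * y)) := by
    rw [Matrix.mul_smul, T.Ry_W, Matrix.smul_mul, Matrix.mul_assoc, Matrix.mul_nonsing_inv _ hdet,
      Matrix.mul_one, ← Matrix.diagonal_smul]
    rfl
  rw [h2, Matrix.exp_diagonal] at h1
  have h3 : (NormedSpace.exp fun p => c * ((T.cw p : ℂ) * y)) =
      fun p => Complex.exp (c * ((T.cw p : ℂ) * y)) := by
    funext p
    rw [Pi.coe_exp, Complex.exp_eq_exp_ℂ]
  rw [h3] at h1
  rw [h1, Matrix.mul_assoc, Matrix.nonsing_inv_mul _ hdet, Matrix.mul_one]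

private theorem th_scale {y : ℂ} (hy : y ≠ 0) :
    th X (-Complex.log y) * Matrix.diagonal (fun a => (y ^ X.deg a)⁻¹) =
      Complex.exp (-((X.dim : ℂ) / 2) * Complex.log y) • (1 : Matrix (Fin N) (Fin N) ℂ) := by
  unfold th
  rw [Matrix.diagonal_mul_diagonal, ← Matrix.diagonal_one, ← Matrix.diagonal_smul]
  congr 1
  funext a
  have h1 : Complex.exp (Complex.log y) = y := Complex.exp_log hy
  have h2 : y ^ X.deg a = Complex.exp ((X.deg a : ℂ) * Complex.log y) := by
    rw [Complex.exp_nat_mul, h1]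
  rw [h2, ← Complex.exp_neg, ← Complex.exp_add, Pi.smul_apply, smul_eq_mul, mul_one]
  congr 1
  ring

private theorem Ry_inv (T : GammaGW X t) {y : ℂ} (hy : y ≠ 0) :
    (T.Ry y)⁻¹ = Matrix.diagonal (fun a => (y ^ X.deg a)⁻¹) * T.Rm⁻¹ := by
  have hdet : IsUnit T.Rm.det := isUnit_iff_ne_zero.2 T.det_Rm
  apply Matrix.inv_eq_left_inv
  rw [T.Ry_eq]
  have h1 : Matrix.diagonal (fun a => (y ^ X.deg a)⁻¹) * T.Rm⁻¹ *
      (T.Rm * Matrix.diagonal (fun a => y ^ X.deg a)) =
      Matrix.diagonal (fun a => (y ^ X.deg a)⁻¹) * (T.Rm⁻¹ * T.Rm) *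
        Matrix.diagonal (fun a => y ^ X.deg a) := by
    simp only [Matrix.mul_assoc]
  rw [h1, Matrix.nonsing_inv_mul _ hdet, Matrix.mul_one, Matrix.diagonal_mul_diagonal,
    ← Matrix.diagonal_one]
  congr 1
  funext a
  exact inv_mul_cancel₀ (pow_ne_zero _ hy)

theorem GammaGW.form (T : GammaGW X t) (l : ℂ) {y : ℂ} (hy : y.im ≠ 0) :
    T.FG l y = Complex.exp (-((X.dim : ℂ) / 2) * Complex.log y) •
      (th X l * T.Nn l y * T.Rm⁻¹ * Matrix.diagonal (T.Dp l y) * T.BT y) := by
  have hy0 : y ≠ 0 := by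
    rintro rfl
    exact hy rfl
  have hdet : IsUnit (T.Ry y).det := isUnit_iff_ne_zero.2 (T.det_Ry hy0)
  -- the right hand factor
  have h1 : NormedSpace.exp (-(l - Complex.log y) • evm (cupChernT T.toEquivData T.κ) y) * T.G y =
      Matrix.diagonal (fun a => (y ^ X.deg a)⁻¹) * T.Rm⁻¹ * Matrix.diagonal (T.Dp l y) * T.BT y := by
    have h2 : T.Ry y * (NormedSpace.exp (-(l - Complex.log y) • evm (cupChernT T.toEquivData T.κ) y) *
        T.G y) = Matrix.diagonal (T.Dp l y) * T.BT y := by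
      rw [← Matrix.mul_assoc, T.exp_W hy0, Matrix.mul_assoc, T.Ry_G hy, ← Matrix.mul_assoc,
        Matrix.diagonal_mul_diagonal]
      congr 2
      funext p
      unfold Dp
      rw [← mul_assoc, ← Complex.exp_add]
      congr 2
      ring
    have h3 : NormedSpace.exp (-(l - Complex.log y) • evm (cupChernT T.toEquivData T.κ) y) * T.G y =
        (T.Ry y)⁻¹ * (T.Ry y * (NormedSpace.exp (-(l - Complex.log y) •
          evm (cupChernT T.toEquivData T.κ) y) * T.G y)) := by
      rw [← Matrix.mul_assoc, Matrix.nonsing_inv_mul _ hdet, Matrix.one_mul]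
    rw [h3, h2, Ry_inv T hy0, ← Matrix.mul_assoc]
  have h4 : T.cal y (Complex.exp (l - Complex.log y)) =
      th X (Complex.log y) * T.Nn l y * th X (-Complex.log y) := by
    unfold Nn
    calc T.cal y (Complex.exp (l - Complex.log y))
        = (th X (Complex.log y) * th X (-Complex.log y)) * T.cal y (Complex.exp (l - Complex.log y)) *
          (th X (Complex.log y) * th X (-Complex.log y)) := by
          rw [th_mul_neg, Matrix.one_mul, Matrix.mul_one]
      _ = _ := by simp only [Matrix.mul_assoc]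
  unfold FG
  rw [T.J_gamma y hy, exp_theta, h4, Matrix.mul_assoc (th X (l - Complex.log y) * _), h1,
    sub_eq_add_neg, th_add]
  have h5 : th X l * th X (-Complex.log y) *
      (th X (Complex.log y) * T.Nn l y * th X (-Complex.log y)) *
      (Matrix.diagonal (fun a => (y ^ X.deg a)⁻¹) * T.Rm⁻¹ * Matrix.diagonal (T.Dp l y) * T.BT y) =
      th X l * (th X (-Complex.log y) * th X (Complex.log y)) * T.Nn l y *
      (th X (-Complex.log y) * Matrix.diagonal (fun a => (y ^ X.deg a)⁻¹)) * T.Rm⁻¹ *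
        Matrix.diagonal (T.Dp l y) * T.BT y := by
    simp only [Matrix.mul_assoc]
  rw [h5, th_neg_mul, th_scale hy0]
  simp only [Matrix.mul_one, Matrix.mul_smul, Matrix.smul_mul]

end Pool.Agent.DST
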