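import Mathlib

/-!
# DST-DGamP: elementary facts on the Gamma function (Mathlib only)
-/

open scoped BigOperators Topology
open Filter

namespace Pool.Agent.DST

private theorem dg_sin_eq (u E : ℂ) (hE : E = Complex.exp (Real.pi * Complex.I * u)) :
    Complex.sin (Real.pi * u) = (E⁻¹ - E) * Complex.I / 2 := by
  have h1 : Complex.exp (-(Real.pi * u) * Complex.I) = E⁻¹ := by
    rw [hE, ← Complex.exp_neg]
    exact congrArg Complex.exp (by ring)
  have h2 : Complex.exp ((Real.pi * u) * Complex.I) = E := by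
    rw [hE]
    exact congrArg Complex.exp (by ring)
  rw [Complex.sin, h1, h2]

theorem gam_prod {u : ℂ} (hu : u.im ≠ 0) :
    Complex.Gamma (1 + u) * Complex.Gamma (1 - u) * Complex.exp (Real.pi * Complex.I * u) =
      2 * Real.pi * Complex.I * u / (1 - Complex.exp (-(2 * Real.pi * Complex.I * u))) := by
  have hu0 : u ≠ 0 := fun h => hu (by rw [h]; simp)
  have hpi : (Real.pi : ℂ) ≠ 0 := by exact_mod_cast Real.pi_ne_zero
  have hsin : Complex.sin (Real.pi * u) ≠ 0 := by
    intro h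
    rw [Complex.sin_eq_zero_iff] at h
    obtain ⟨k, hk⟩ := h
    have h2 : u = ((k : ℝ) : ℂ) := by
      have h3 : (Real.pi : ℂ) * (u - k) = 0 := by rw [mul_sub, hk]; ring
      rcases mul_eq_zero.1 h3 with h4 | h4
      · exact absurd h4 hpi
      · push_cast
        exact sub_eq_zero.1 h4
    exact hu (by rw [h2]; exact Complex.ofReal_im _)
  obtain ⟨E, hE⟩ : ∃ E, E = Complex.exp (Real.pi * Complex.I * u) := ⟨_, rfl⟩
  have hE0 : E ≠ 0 := by rw [hE]; exact Complex.exp_ne_zero _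
  have h1 : Complex.exp (-(2 * Real.pi * Complex.I * u)) = E⁻¹ * E⁻¹ := by
    rw [hE, ← Complex.exp_neg, ← Complex.exp_add]
    exact congrArg Complex.exp (by ring)
  have hs := dg_sin_eq u E hE
  rw [hs] at hsin
  have hne : E⁻¹ - E ≠ 0 := by
    intro h
    apply hsin
    rw [h]
    simp
  have hfac : 1 - E⁻¹ * E⁻¹ = -(E⁻¹ - E) * E⁻¹ := by
    rw [neg_mul, sub_mul, mul_inv_cancel₀ hE0]
    ring
  have h2 : Complex.Gamma (1 + u) = u * Complex.Gamma u := by
    rw [add_comm]
    exact Complex.Gamma_add_one u hu0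
  have h3 : Complex.Gamma (1 + u) * Complex.Gamma (1 - u) = u * (Real.pi / ((E⁻¹ - E) * Complex.I / 2)) := by
    rw [h2, mul_assoc, Complex.Gamma_mul_Gamma_one_sub, hs]
  rw [h3, ← hE, h1, hfac]
  obtain ⟨D, hD⟩ : ∃ D, D = E⁻¹ - E := ⟨_, rfl⟩
  rw [← hD] at hne ⊢
  have hI : Complex.I ≠ 0 := Complex.I_ne_zero
  field_simp
  rw [Complex.I_sq]
  ring

theorem norm_Gamma_le {s : ℂ} (hs : 0 < s.re) : ‖Complex.Gamma s‖ ≤ Real.Gamma s.re := by
  rw [Complex.Gamma_eq_integral hs, Real.Gamma_eq_integral hs, Complex.GammaIntegral]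
  refine (MeasureTheory.norm_integral_le_integral_norm _).trans (le_of_eq ?_)
  refine MeasureTheory.setIntegral_congr_fun measurableSet_Ioi fun x hx => ?_
  have hx0 : 0 < x := hx
  change ‖((Real.exp (-x) : ℝ) : ℂ) * (x : ℂ) ^ (s - 1)‖ = Real.exp (-x) * x ^ (s.re - 1)
  rw [norm_mul, Complex.norm_cpow_eq_rpow_re_of_pos hx0, Complex.norm_real, Real.norm_eq_abs,
    abs_of_pos (Real.exp_pos _), Complex.sub_re, Complex.one_re]

theorem norm_Gamma_shift (s : ℂ) (m : ℕ) (hs : s.im ≠ 0) :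
    Complex.Gamma (s + m) = Complex.Gamma s * ∏ k ∈ Finset.range m, (s + k) := by
  induction m with
  | zero => simp
  | succ m ih =>
    have h0 : s + m ≠ 0 := by
      intro h
      apply hs
      have h1 := congrArg Complex.im h
      simpa using h1
    have h1 : s + ((m + 1 : ℕ) : ℂ) = (s + m) + 1 := by push_cast; ring
    rw [h1, Complex.Gamma_add_one _ h0, ih, Finset.prod_range_succ]
    ring

theorem gamma_le_one {x : ℝ} (h1 : 1 ≤ x) (h2 : x ≤ 2) : Real.Gamma x ≤ 1 := by
  have m1 : (1 : ℝ) ∈ Set.Ioi (0 : ℝ) := Set.mem_Ioi.2 (by norm_num)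
  have m2 : (2 : ℝ) ∈ Set.Ioi (0 : ℝ) := Set.mem_Ioi.2 (by norm_num)
  have h := Real.convexOn_Gamma.2 m1 m2 (sub_nonneg.2 h2) (sub_nonneg.2 h1) (by ring)
  rw [smul_eq_mul, smul_eq_mul, smul_eq_mul, smul_eq_mul, Real.Gamma_one, Real.Gamma_two] at h
  have h3 : (2 - x) * 1 + (x - 1) * 2 = x := by ring
  rw [h3] at h
  linarith

private theorem dg_pow (n : ℕ) : ∀ x : ℝ, 1 ≤ x → x ≤ n + 2 → Real.Gamma x ≤ x ^ x := by
  induction n with
  | zero =>
    intro x h1 h2
    have h3 : x ≤ 2 := by simpa using h2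
    exact (gamma_le_one h1 h3).trans (Real.one_le_rpow h1 (by linarith))
  | succ n ih =>
    intro x h1 h2
    rcases le_or_gt x 2 with h3 | h3
    · exact (gamma_le_one h1 h3).trans (Real.one_le_rpow h1 (by linarith))
    · have h4 : Real.Gamma x = (x - 1) * Real.Gamma (x - 1) := by
        have h5 := Real.Gamma_add_one (s := x - 1) (by linarith)
        rw [sub_add_cancel] at h5
        exact h5
      push_cast at h2
      have h6 := ih (x - 1) (by linarith) (by linarith)
      have h7 : x ^ x = x * x ^ (x - 1) := by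
        rw [mul_comm, ← Real.rpow_add_one (by linarith), sub_add_cancel]
      rw [h4, h7]
      refine mul_le_mul (by linarith) ?_ (Real.Gamma_pos_of_pos (by linarith)).le (by linarith)
      exact h6.trans (Real.rpow_le_rpow (by linarith) (by linarith) (by linarith))

theorem gamma_le_pow {x : ℝ} (h1 : 1 ≤ x) : Real.Gamma x ≤ x ^ x := by
  obtain ⟨n, hn⟩ := exists_nat_ge x
  exact dg_pow n x h1 (by linarith)

theorem norm_sin_le (u : ℂ) : ‖Complex.sin (Real.pi * u)‖ ≤ Real.exp (Real.pi * |u.im|) := by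
  have hpi := Real.pi_pos
  have h1 : ‖Complex.exp (-(Real.pi * u) * Complex.I)‖ ≤ Real.exp (Real.pi * |u.im|) := by
    rw [Complex.norm_exp]
    apply Real.exp_le_exp.2
    have h2 : (-(Real.pi * u) * Complex.I).re = Real.pi * u.im := by simp
    rw [h2]
    exact mul_le_mul_of_nonneg_left (le_abs_self _) hpi.le
  have h3 : ‖Complex.exp ((Real.pi * u) * Complex.I)‖ ≤ Real.exp (Real.pi * |u.im|) := by
    rw [Complex.norm_exp]
    apply Real.exp_le_exp.2
    have h2 : ((Real.pi * u) * Complex.I).re = Real.pi * (-u.im) := by simp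
    rw [h2]
    exact mul_le_mul_of_nonneg_left (neg_le_abs _) hpi.le
  rw [Complex.sin, norm_div, norm_mul, Complex.norm_I, mul_one]
  have h4 : ‖(2 : ℂ)‖ = 2 := by simp
  rw [h4, div_le_iff₀ two_pos]
  refine (norm_sub_le _ _).trans ?_
  linarith

theorem sq_Gamma_imag {v : ℝ} (hv : v ≠ 0) :
    ‖Complex.Gamma (1 - v * Complex.I)‖ ^ 2 = Real.pi * v / Real.sinh (Real.pi * v) := by
  have hvI : (v : ℂ) * Complex.I ≠ 0 := mul_ne_zero (by exact_mod_cast hv) Complex.I_ne_zero
  have hconj : (starRingEnd ℂ) (Complex.Gamma (1 - v * Complex.I)) = Complex.Gamma (v * Complex.I + 1) := by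
    rw [← Complex.Gamma_conj]
    refine congrArg Complex.Gamma ?_
    simp [add_comm]
  have h1 : Complex.Gamma (v * Complex.I + 1) * Complex.Gamma (1 - v * Complex.I) =
      Real.pi * v / Complex.sinh (Real.pi * v) := by
    rw [Complex.Gamma_add_one _ hvI, mul_assoc, Complex.Gamma_mul_Gamma_one_sub]
    have h2 : (Real.pi : ℂ) * (v * Complex.I) = (Real.pi * v) * Complex.I := by ring
    rw [h2, Complex.sin_mul_I]
    by_cases hs : Complex.sinh (Real.pi * v) = 0
    · rw [hs]; simp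
    · have hI : Complex.I ≠ 0 := Complex.I_ne_zero
      field_simp
  have h3 : ((‖Complex.Gamma (1 - v * Complex.I)‖ ^ 2 : ℝ) : ℂ) =
      ((Real.pi * v / Real.sinh (Real.pi * v) : ℝ) : ℂ) := by
    have h4 : ((‖Complex.Gamma (1 - v * Complex.I)‖ ^ 2 : ℝ) : ℂ) =
        (starRingEnd ℂ) (Complex.Gamma (1 - v * Complex.I)) * Complex.Gamma (1 - v * Complex.I) := by
      rw [mul_comm ((starRingEnd ℂ) (Complex.Gamma (1 - v * Complex.I))), Complex.mul_conj,
        Complex.normSq_eq_norm_sq]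
    rw [h4, hconj, h1]
    push_cast
    rfl
  exact_mod_cast h3

end Pool.Agent.DST
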