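import Pool.Agent.DST.DPair
import Pool.Agent.DST.DGrowth
import Pool.Agent.DST.DBase

/-!
# Project DST: block D (`λ → ∞`): `gamma_pair` (DPair), `gamma_growth` (DGrowth), `base_case` (DBase)
-/
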