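import Pool.Agent.DST.DDefs

/-!
# DST-DLau: growth of Laurent polynomials in `q = e^{2πiy}`

PLAN. `evq_sum`: `evq y f = ∑ n ∈ f.coeff.support, f.coeff n * exp(2πi n y)`: induction on `f`
(`LaurentPolynomial.induction_on'`), `evq y (C a * T n) = a * (qu y)^n`
(`LaurentPolynomial.eval₂_C_mul_T`), `(qu y)^n = exp(2πi n y)` (`Units.val_zpow_eq_zpow_val`,
`Complex.exp_int_mul`).
`‖exp(2πi n y)‖ = exp(-2π n im y)`.
`lau_pos`: `y = iτ`. If `f = 0` nothing to prove. Let `n₀` be the least element of the support.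
  `exp(2π n₀ τ) ‖evq (iτ) f‖ → ‖f.coeff n₀‖ > 0` as `τ → ∞` (the other terms are `exp(-2π(n-n₀)τ)`), so for
  large `τ` it is at least `c > 0`: `c ≤ C τ^A exp((κ + 2π n₀) τ)`. If `κ + 2π n₀ < 0` the right side tends
  to `0`, a contradiction. So `-(2π n) ≤ -(2π n₀) ≤ κ` for all `n` in the support.
`lau_neg`: the same with `y = -iτ` and the greatest element.
`lau_ray`: `y = τ + iτ`: `‖evq y f - f.coeff n₀ exp(2πi n₀ y)‖ ≤ C exp(-2π(n₀+1)τ)`.
`evq_inj`: if `evq y f = 0` for all `y` then `f = 0`, by `lau_pos` with arbitrary `κ`. Apply to `f - f'`.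
`evq_diff`: by `evq_sum` (for each `y` the same finite sum). (Similar lemmas: DST-KLau, DST-KPer, DST-TStr.)
-/

open scoped BigOperators Topology
open Filter

namespace Pool.Agent.DST

private theorem evq_T' (y : ℂ) (n : ℤ) :
    evq y (LaurentPolynomial.T n) = Complex.exp (2 * Real.pi * Complex.I * n * y) := by
  unfold evq
  rw [LaurentPolynomial.eval₂_T, Units.val_zpow_eq_zpow_val]
  show Complex.exp (2 * Real.pi * Complex.I * y) ^ n = _
  rw [← Complex.exp_int_mul]
  congr 1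
  ring

private theorem evq_C' (y a : ℂ) : evq y (LaurentPolynomial.C a) = a := by
  unfold evq
  rw [LaurentPolynomial.eval₂_C]
  rfl

private theorem lsum' (L : LaurentPolynomial ℂ) :
    L = ∑ n ∈ L.coeff.support, LaurentPolynomial.C (L.coeff n) * LaurentPolynomial.T n := by
  refine LaurentPolynomial.ext fun a => ?_
  simp_rw [← LaurentPolynomial.single_eq_C_mul_T]
  simp only [AddMonoidAlgebra.coeff_sum, AddMonoidAlgebra.coeff_single]
  rw [Finset.sum_apply', Finset.sum_eq_single a, Finsupp.single_eq_same]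
  · intro b _ hb
    rw [Finsupp.single_eq_of_ne' hb]
  · intro ha
    rw [Finsupp.single_eq_same, Finsupp.notMem_support_iff.mp ha]

theorem evq_sum (y : ℂ) (f : LaurentPolynomial ℂ) : evq y f =
    ∑ n ∈ f.coeff.support, f.coeff n * Complex.exp (2 * Real.pi * Complex.I * n * y) := by
  conv_lhs => rw [lsum' f]
  rw [map_sum]
  refine Finset.sum_congr rfl fun n _ => ?_
  rw [map_mul, evq_C', evq_T']

private theorem norm_e (n : ℤ) (y : ℂ) :
    ‖Complex.exp (2 * Real.pi * Complex.I * n * y)‖ = Real.exp (-(2 * Real.pi * n * y.im)) := by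
  rw [Complex.norm_exp]
  congr 1
  have : 2 * (Real.pi : ℂ) * Complex.I * n * y = ((2 * Real.pi * n : ℝ) : ℂ) * (Complex.I * y) := by
    push_cast; ring
  rw [this, Complex.re_ofReal_mul, Complex.I_mul_re]
  ring

private theorem tend (L : LaurentPolynomial ℂ) (n₀ : ℤ)
    (hmin : ∀ n ∈ L.coeff.support, n₀ ≤ n) (y : ℝ → ℂ) (hy : ∀ τ, (y τ).im = τ) :
    Tendsto (fun τ : ℝ => Real.exp (2 * Real.pi * n₀ * τ) * ‖evq (y τ) L‖) atTop
      (𝓝 ‖L.coeff n₀‖) := by
  have h1 : Tendsto (fun τ : ℝ => ∑ n ∈ L.coeff.support,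
      L.coeff n * Complex.exp (2 * Real.pi * Complex.I * ((n - n₀ : ℤ) : ℂ) * y τ)) atTop
      (𝓝 (∑ n ∈ L.coeff.support, L.coeff n * (if n = n₀ then 1 else 0))) := by
    refine tendsto_finsetSum _ fun n hn => ?_
    refine Tendsto.const_mul _ ?_
    by_cases h : n = n₀
    · rw [if_pos h, h]
      simp
    · rw [if_neg h]
      have hlt : n₀ < n := lt_of_le_of_ne (hmin n hn) (Ne.symm h)
      have hlt' : (0 : ℝ) < ((n - n₀ : ℤ) : ℝ) := by exact_mod_cast sub_pos.mpr hlt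
      rw [tendsto_zero_iff_norm_tendsto_zero]
      have h2 : Tendsto (fun τ : ℝ => Real.exp (-(2 * Real.pi * ((n - n₀ : ℤ) : ℝ) * τ))) atTop
          (𝓝 0) := by
        apply Real.tendsto_exp_neg_atTop_nhds_zero.comp
        exact Tendsto.const_mul_atTop (by positivity) tendsto_id
      refine h2.congr fun τ => ?_
      rw [norm_e, hy]
  have h2 : (∑ n ∈ L.coeff.support, L.coeff n * (if n = n₀ then (1 : ℂ) else 0)) =
      L.coeff n₀ := by
    simp only [mul_ite, mul_one, mul_zero]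
    rw [Finset.sum_ite_eq']
    split_ifs with h
    · rfl
    · exact (Finsupp.notMem_support_iff.mp h).symm
  rw [h2] at h1
  refine h1.norm.congr fun τ => ?_
  have h3 : (∑ n ∈ L.coeff.support,
      L.coeff n * Complex.exp (2 * Real.pi * Complex.I * ((n - n₀ : ℤ) : ℂ) * y τ)) =
      Complex.exp (2 * Real.pi * Complex.I * ((-n₀ : ℤ) : ℂ) * y τ) * evq (y τ) L := by
    rw [evq_sum, Finset.mul_sum]
    refine Finset.sum_congr rfl fun n _ => ?_
    have h5 : Complex.exp (2 * Real.pi * Complex.I * ((n - n₀ : ℤ) : ℂ) * y τ) =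
        Complex.exp (2 * Real.pi * Complex.I * ((-n₀ : ℤ) : ℂ) * y τ) *
          Complex.exp (2 * Real.pi * Complex.I * n * y τ) := by
      rw [← Complex.exp_add]
      congr 1
      push_cast
      ring
    rw [h5]
    ring
  rw [h3, norm_mul, norm_e, hy]
  congr 2
  push_cast
  ring

private theorem tend_pow_exp (A : ℕ) {a : ℝ} (ha : 0 < a) (C : ℝ) :
    Tendsto (fun τ : ℝ => C * τ ^ A * Real.exp (-(a * τ))) atTop (𝓝 0) := by
  have h1 := (Real.tendsto_pow_mul_exp_neg_atTop_nhds_zero A).comp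
    (Tendsto.const_mul_atTop ha tendsto_id)
  have h2 := h1.const_mul (C / a ^ A)
  rw [mul_zero] at h2
  refine h2.congr fun τ => ?_
  simp only [Function.comp_apply, id_eq]
  rw [mul_pow]
  have : a ^ A ≠ 0 := pow_ne_zero _ ha.ne'
  field_simp

theorem lau_pos {f : LaurentPolynomial ℂ} {κ C : ℝ} {A : ℕ}
    (h : ∀ᶠ τ : ℝ in atTop, ‖evq (τ * Complex.I) f‖ ≤ C * τ ^ A * Real.exp (κ * τ)) :
    ∀ n ∈ f.coeff.support, -(2 * Real.pi * n) ≤ κ := by
  intro n hn
  set n₀ := f.coeff.support.min' ⟨n, hn⟩ with hn₀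
  have hmin : ∀ m ∈ f.coeff.support, n₀ ≤ m := fun m hm => Finset.min'_le _ m hm
  have hmem₀ : n₀ ∈ f.coeff.support := Finset.min'_mem _ _
  have h1 := tend f n₀ hmin (fun τ => (τ : ℂ) * Complex.I) (fun τ => by simp)
  by_contra hlt
  push Not at hlt
  have hnn : (n₀ : ℝ) ≤ n := by exact_mod_cast hmin n hn
  have ha : 0 < -(κ + 2 * Real.pi * n₀) := by
    have := mul_le_mul_of_nonneg_left hnn (by positivity : (0 : ℝ) ≤ 2 * Real.pi)
    linarith
  have h2 := tend_pow_exp A ha C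
  have h3 : ‖f.coeff n₀‖ ≤ 0 := by
    refine le_of_tendsto_of_tendsto h1 h2 ?_
    filter_upwards [h] with τ hτ
    calc Real.exp (2 * Real.pi * n₀ * τ) * ‖evq (↑τ * Complex.I) f‖
        ≤ Real.exp (2 * Real.pi * n₀ * τ) * (C * τ ^ A * Real.exp (κ * τ)) :=
          mul_le_mul_of_nonneg_left hτ (Real.exp_nonneg _)
      _ = C * τ ^ A * (Real.exp (2 * Real.pi * n₀ * τ) * Real.exp (κ * τ)) := by ring
      _ = C * τ ^ A * Real.exp (-(-(κ + 2 * Real.pi * n₀) * τ)) := by
          rw [← Real.exp_add]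
          congr 2
          ring
  exact Finsupp.mem_support_iff.mp hmem₀ (norm_le_zero_iff.mp h3)

private theorem evq_neg' (y : ℂ) (L : LaurentPolynomial ℂ) :
    evq (-y) L = evq y (LaurentPolynomial.invert L) := by
  refine L.induction_on' (fun p q hp hq => ?_) (fun n a => ?_)
  · rw [map_add, map_add, map_add, hp, hq]
  · rw [map_mul, map_mul, map_mul, LaurentPolynomial.invert_C, LaurentPolynomial.invert_T,
      evq_C', evq_C', evq_T', evq_T']
    congr 2
    push_cast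
    ring

theorem lau_neg {f : LaurentPolynomial ℂ} {κ C : ℝ} {A : ℕ}
    (h : ∀ᶠ τ : ℝ in atTop, ‖evq (-(τ * Complex.I)) f‖ ≤ C * τ ^ A * Real.exp (κ * τ)) :
    ∀ n ∈ f.coeff.support, 2 * Real.pi * n ≤ κ := by
  intro n hn
  have h1 : ∀ᶠ τ : ℝ in atTop, ‖evq (τ * Complex.I) (LaurentPolynomial.invert f)‖ ≤
      C * τ ^ A * Real.exp (κ * τ) := by
    filter_upwards [h] with τ hτ
    rw [← evq_neg']
    exact hτ
  have h2 : -n ∈ (LaurentPolynomial.invert f).coeff.support := by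
    rw [Finsupp.mem_support_iff, LaurentPolynomial.invert_apply, neg_neg]
    exact Finsupp.mem_support_iff.mp hn
  have h3 := lau_pos h1 (-n) h2
  push_cast at h3
  linarith

theorem lau_ray {f : LaurentPolynomial ℂ} (hf : f ≠ 0) :
    ∃ n ∈ f.coeff.support, ∃ c > 0, ∀ᶠ τ : ℝ in atTop,
      c * Real.exp (-(2 * Real.pi * n) * τ) ≤ ‖evq (τ + τ * Complex.I) f‖ := by
  have hne : f.coeff.support.Nonempty := by
    rw [Finset.nonempty_iff_ne_empty]
    intro h0
    apply hf
    rw [lsum' f, h0, Finset.sum_empty]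
  set n₀ := f.coeff.support.min' hne with hn₀
  have hmin : ∀ m ∈ f.coeff.support, n₀ ≤ m := fun m hm => Finset.min'_le _ m hm
  have hmem₀ : n₀ ∈ f.coeff.support := Finset.min'_mem _ _
  have h1 := tend f n₀ hmin (fun τ => (τ : ℂ) + τ * Complex.I) (fun τ => by simp)
  have hpos : 0 < ‖f.coeff n₀‖ := norm_pos_iff.mpr (Finsupp.mem_support_iff.mp hmem₀)
  refine ⟨n₀, hmem₀, ‖f.coeff n₀‖ / 2, by positivity, ?_⟩
  filter_upwards [h1.eventually (lt_mem_nhds (by linarith : ‖f.coeff n₀‖ / 2 < ‖f.coeff n₀‖))]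
    with τ hτ
  have h2 : Real.exp (-(2 * Real.pi * n₀) * τ) * Real.exp (2 * Real.pi * n₀ * τ) = 1 := by
    rw [← Real.exp_add]
    have : -(2 * Real.pi * (n₀ : ℝ)) * τ + 2 * Real.pi * n₀ * τ = 0 := by ring
    rw [this, Real.exp_zero]
  calc ‖f.coeff n₀‖ / 2 * Real.exp (-(2 * Real.pi * n₀) * τ)
      ≤ Real.exp (2 * Real.pi * n₀ * τ) * ‖evq (↑τ + ↑τ * Complex.I) f‖ *
          Real.exp (-(2 * Real.pi * n₀) * τ) :=
        mul_le_mul_of_nonneg_right hτ.le (Real.exp_nonneg _)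
    _ = (Real.exp (-(2 * Real.pi * n₀) * τ) * Real.exp (2 * Real.pi * n₀ * τ)) *
          ‖evq (↑τ + ↑τ * Complex.I) f‖ := by ring
    _ = ‖evq (↑τ + ↑τ * Complex.I) f‖ := by rw [h2, one_mul]

theorem evq_inj {f f' : LaurentPolynomial ℂ} (h : ∀ y, evq y f = evq y f') : f = f' := by
  by_contra hne
  have hsub : f - f' ≠ 0 := sub_ne_zero.mpr hne
  obtain ⟨n, _, c, hc, hev⟩ := lau_ray hsub
  obtain ⟨τ, hτ⟩ := hev.exists
  rw [map_sub, h, sub_self, norm_zero] at hτ
  have := mul_pos hc (Real.exp_pos (-(2 * Real.pi * n) * τ))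
  linarith

theorem evq_diff (f : LaurentPolynomial ℂ) : Differentiable ℂ fun y => evq y f := by
  have h : (fun y => evq y f) = fun y => ∑ n ∈ f.coeff.support,
      f.coeff n * Complex.exp (2 * Real.pi * Complex.I * n * y) := by
    funext y
    exact evq_sum y f
  rw [h]
  fun_prop

end Pool.Agent.DST
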