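import Pool.Agent.DST.Gamma

/-!
# DST-FPol: values of polynomial matrices; the pairing and the matrix of `c_1^T(X)`

PLAN. `evm_mul`, `det_evm`, `evm₂_mul`, `det_evm₂`: `Polynomial.evalRingHom x` and
`Polynomial.evalEvalRingHom x z` are ring homs; `Matrix.map_mul`, `RingHom.map_det` (unfold `evm`).
`diff_evm`: polynomials are differentiable. `diff_evm₂`: `evalEval x z p` is a polynomial in
`(x, z)`: induct on `p` (`Polynomial.induction_on'`: sums, monomials `monomial n a`:
`evalEval x z (monomial n a) = a.eval x * z ^ n`), each term is differentiable.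
`pair_hom`: by `T.pair_deg`, every nonzero coefficient of `T.pairT i j` is in degree `n` with
`deg i + deg j = dim + n`, so `T.pairT i j` is `0` (if `deg i + deg j < dim`) or
`C c * X ^ (deg i + deg j - dim)`; so `x * (d/dx) = (deg i + deg j - dim) *`, and
`-(θ i + θ j) = deg i + deg j - dim` with `θ a = dim/2 - deg a`.
`chernT_self`: put `K l b = ∑ a, C (chern a) * corrAt {a, b, l}`; it is symmetric because
`{a, b, l} = {a, l, b}` as multisets (`Multiset.cons_swap`), and `chernT = pairT⁻¹ * K + (κ λ) • 1`
(exchange the sums), so `pairT * chernT = K + (κ λ) • pairT` is symmetric (`T.pairT` is invertible: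
`T.pair_nondeg`; symmetric: `T.pair_symm`). Then evaluate.
-/

open scoped BigOperators Topology
open Filter

namespace Pool.Agent.DST

open Pool.Agent.Helper18.Dub Pool.Agent.Helper7.DubStokes Pool.Agent.SHF

variable {N : ℕ}

theorem evm_mul (A B : Matrix (Fin N) (Fin N) (Polynomial ℂ)) (x : ℂ) :
    evm (A * B) x = evm A x * evm B x := by
  exact Matrix.map_mul (f := Polynomial.evalRingHom x)

theorem det_evm (A : Matrix (Fin N) (Fin N) (Polynomial ℂ)) (x : ℂ) :
    (evm A x).det = Polynomial.eval x A.det := by
  exact (RingHom.map_det (Polynomial.evalRingHom x) A).symm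

theorem diff_evm (A : Matrix (Fin N) (Fin N) (Polynomial ℂ)) (i j : Fin N) :
    Differentiable ℂ (fun x => evm A x i j) := by
  exact (A i j).differentiable

theorem det_evm₂ (A : Matrix (Fin N) (Fin N) (Polynomial (Polynomial ℂ))) (x z : ℂ) :
    (evm₂ A x z).det = Polynomial.evalEval x z A.det := by
  exact (RingHom.map_det (Polynomial.evalEvalRingHom x z) A).symm

theorem diff_evm₂ (A : Matrix (Fin N) (Fin N) (Polynomial (Polynomial ℂ))) (i j : Fin N) :
    Differentiable ℂ (fun p : ℂ × ℂ => evm₂ A p.1 p.2 i j) := by
  show Differentiable ℂ (fun p : ℂ × ℂ => Polynomial.evalEval p.1 p.2 (A i j))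
  generalize A i j = q
  induction q using Polynomial.induction_on' with
  | add p q hp hq =>
    have h1 : (fun r : ℂ × ℂ => Polynomial.evalEval r.1 r.2 (p + q)) =
        fun r : ℂ × ℂ => Polynomial.evalEval r.1 r.2 p + Polynomial.evalEval r.1 r.2 q := by
      funext r
      exact map_add (Polynomial.evalEvalRingHom r.1 r.2) p q
    rw [h1]
    exact hp.add hq
  | monomial n a =>
    have h1 : (fun r : ℂ × ℂ => Polynomial.evalEval r.1 r.2 (Polynomial.monomial n a)) =
        fun r : ℂ × ℂ => Polynomial.eval r.1 a * r.2 ^ n := by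
      funext r
      rw [Polynomial.evalEval, Polynomial.eval_monomial, Polynomial.eval_mul,
        Polynomial.eval_pow, Polynomial.eval_C]
    rw [h1]
    exact (a.differentiable.comp differentiable_fst).mul (differentiable_snd.pow n)

variable {X : FanoGW (Fin N)} (T : EquivGW X) (t : Fin N → ℂ) (κ : ℂ)

theorem pair_det_ne (x : ℂ) : (evm T.pairT x).det ≠ 0 := by
  rw [det_evm]
  exact (T.pair_nondeg.map (Polynomial.evalRingHom x)).ne_zero

theorem pair_symm' (x : ℂ) : (evm T.pairT x).transpose = evm T.pairT x := by
  ext i j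
  exact congrArg (Polynomial.eval x) (T.pair_symm j i)

theorem pair_hom (x : ℂ) (i j : Fin N) : x * deriv (fun x => evm T.pairT x i j) x =
    -(((X.dim : ℂ) / 2 - X.deg i) + ((X.dim : ℂ) / 2 - X.deg j)) * evm T.pairT x i j := by
  have h1 : deriv (fun x => evm T.pairT x i j) x = (T.pairT i j).derivative.eval x :=
    Polynomial.deriv _
  have h2 : Polynomial.X * (T.pairT i j).derivative =
      Polynomial.C ((X.deg i : ℂ) + X.deg j - X.dim) * T.pairT i j := by
    ext n
    rw [Polynomial.coeff_C_mul]
    by_cases h0 : (T.pairT i j).coeff n = 0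
    · cases n with
      | zero => rw [Polynomial.coeff_X_mul_zero, h0, mul_zero]
      | succ n => rw [Polynomial.coeff_X_mul, Polynomial.coeff_derivative, h0, zero_mul, mul_zero]
    · have h3 := T.pair_deg i j n h0
      have h4 : (X.deg i : ℂ) + X.deg j = X.dim + n := by exact_mod_cast h3
      cases n with
      | zero =>
        rw [Polynomial.coeff_X_mul_zero, h4, Nat.cast_zero, add_zero, sub_self, zero_mul]
      | succ n =>
        rw [Polynomial.coeff_X_mul, Polynomial.coeff_derivative, h4]
        push_cast
        ring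
  have h5 := congrArg (Polynomial.eval x) h2
  rw [Polynomial.eval_mul, Polynomial.eval_mul, Polynomial.eval_X, Polynomial.eval_C] at h5
  rw [h1, h5]
  show _ = _ * Polynomial.eval x (T.pairT i j)
  ring

theorem chernT_self (x : ℂ) : evm T.pairT x * evm (chernT T.toEquivData t κ) x =
    (evm (chernT T.toEquivData t κ) x).transpose * evm T.pairT x := by
  let K : Matrix (Fin N) (Fin N) (Polynomial ℂ) := Matrix.of fun l b =>
    ∑ a, Polynomial.C (X.chern a) * corrAt T.toEquivData t {a, b, l}
  have hK : K.transpose = K := by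
    ext1 l b
    show ∑ a, Polynomial.C (X.chern a) * corrAt T.toEquivData t {a, l, b} =
      ∑ a, Polynomial.C (X.chern a) * corrAt T.toEquivData t {a, b, l}
    refine Finset.sum_congr rfl fun a _ => ?_
    have h1 : ({a, l, b} : Multiset (Fin N)) = {a, b, l} :=
      congrArg (fun s => a ::ₘ s) (Multiset.pair_comm l b)
    rw [h1]
  have hc : chernT T.toEquivData t κ =
      T.pairT⁻¹ * K + (Polynomial.C κ * Polynomial.X) • (1 : Matrix (Fin N) (Fin N) (Polynomial ℂ)) := by
    unfold chernT
    congr 1
    ext1 k b
    rw [Matrix.mul_apply]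
    show ∑ a, Polynomial.C (X.chern a) *
        ∑ l, T.pairT⁻¹ k l * corrAt T.toEquivData t {a, b, l} =
      ∑ l, T.pairT⁻¹ k l * ∑ a, Polynomial.C (X.chern a) * corrAt T.toEquivData t {a, b, l}
    simp only [Finset.mul_sum]
    rw [Finset.sum_comm]
    exact Finset.sum_congr rfl fun l _ => Finset.sum_congr rfl fun a _ => by ring
  have hs : T.pairT.transpose = T.pairT := by
    ext1 i j
    exact T.pair_symm j i
  have hp : T.pairT * chernT T.toEquivData t κ =
      K + (Polynomial.C κ * Polynomial.X) • T.pairT := by
    rw [hc, Matrix.mul_add, Matrix.mul_nonsing_inv_cancel_left _ _ T.pair_nondeg,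
      Matrix.mul_smul, Matrix.mul_one]
  have hp' : (chernT T.toEquivData t κ).transpose * T.pairT =
      T.pairT * chernT T.toEquivData t κ := by
    have h1 : ((chernT T.toEquivData t κ).transpose * T.pairT).transpose =
        T.pairT * chernT T.toEquivData t κ := by
      rw [Matrix.transpose_mul, Matrix.transpose_transpose, hs]
    have h2 : (T.pairT * chernT T.toEquivData t κ).transpose =
        T.pairT * chernT T.toEquivData t κ := by
      rw [hp, Matrix.transpose_add, Matrix.transpose_smul, hK, hs]
    rw [← h1, Matrix.transpose_transpose] at h2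
    rw [h2, h1]
  have ht : (evm (chernT T.toEquivData t κ) x).transpose =
      evm (chernT T.toEquivData t κ).transpose x := rfl
  rw [ht, ← evm_mul, ← evm_mul, hp']

end Pool.Agent.DST
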