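import Pool.Agent.DST.DTh
import Pool.Agent.DST.FPol

/-!
# DST-DPrH: homogeneity of the equivariant pairing

Every entry of the pairing matrix is a monomial in the equivariant parameter.
-/

open scoped BigOperators Topology
open Filter

namespace Pool.Agent.DST

open Pool.Agent.Helper18.Dub Pool.Agent.Helper7.DubStokes Pool.Agent.SHF

variable {N : ℕ} {X : FanoGW (Fin N)} {t : Fin N → ℂ}

private theorem pair_monomial (T : GammaGW X t) (a b : Fin N) :
    T.pairT a b = 0 ∨ ∃ (n : ℕ) (c : ℂ), X.deg a + X.deg b = X.dim + n ∧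
      T.pairT a b = Polynomial.monomial n c := by
  by_cases h0 : T.pairT a b = 0
  · exact Or.inl h0
  · right
    obtain ⟨n, hn⟩ : ∃ n, (T.pairT a b).coeff n ≠ 0 := by
      by_contra hcon
      push Not at hcon
      exact h0 (Polynomial.ext fun n => by rw [hcon n, Polynomial.coeff_zero])
    have h1 := T.pair_deg a b n hn
    refine ⟨n, (T.pairT a b).coeff n, h1, ?_⟩
    ext m
    rw [Polynomial.coeff_monomial]
    split_ifs with hm
    · rw [hm]
    · by_contra h2
      have h3 := T.pair_deg a b m h2
      omega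

theorem GammaGW.pair_eval (T : GammaGW X t) (l : ℂ) (a b : Fin N) :
    evm T.pairT (Complex.exp l) a b =
      Complex.exp (l * ((X.deg a : ℂ) + X.deg b - X.dim)) * evm T.pairT 1 a b := by
  show Polynomial.eval (Complex.exp l) (T.pairT a b) = _ * Polynomial.eval 1 (T.pairT a b)
  rcases pair_monomial T a b with h | ⟨n, c, hn, h⟩
  · rw [h, Polynomial.eval_zero, Polynomial.eval_zero, mul_zero]
  · rw [h, Polynomial.eval_monomial, Polynomial.eval_monomial, one_pow, mul_one, mul_comm,
      ← Complex.exp_nat_mul]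
    have h2 : (X.deg a : ℂ) + X.deg b - X.dim = n := by
      have h3 : (X.deg a : ℂ) + X.deg b = X.dim + n := by exact_mod_cast hn
      rw [h3]
      ring
    rw [h2, mul_comm l]

theorem GammaGW.pair_eval' (T : GammaGW X t) {y : ℂ} (hy : y ≠ 0) (a b : Fin N) :
    evm T.pairT y a b * y ^ X.dim = y ^ X.deg a * y ^ X.deg b * evm T.pairT 1 a b := by
  have _ := hy
  show Polynomial.eval y (T.pairT a b) * _ = _ * Polynomial.eval 1 (T.pairT a b)
  rcases pair_monomial T a b with h | ⟨n, c, hn, h⟩
  · rw [h, Polynomial.eval_zero, Polynomial.eval_zero, mul_zero, zero_mul]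
  · rw [h, Polynomial.eval_monomial, Polynomial.eval_monomial, one_pow, mul_one, ← pow_add, hn,
      pow_add]
    ring

theorem GammaGW.pair_hom (T : GammaGW X t) (l : ℂ) :
    th X l * evm T.pairT (Complex.exp l) * th X l = evm T.pairT 1 := by
  ext a b
  unfold th
  rw [Matrix.mul_diagonal, Matrix.diagonal_mul, T.pair_eval]
  have h1 : Complex.exp (l * ((X.dim : ℂ) / 2 - X.deg a)) *
      Complex.exp (l * ((X.deg a : ℂ) + X.deg b - X.dim)) *
      Complex.exp (l * ((X.dim : ℂ) / 2 - X.deg b)) = 1 := by
    rw [← Complex.exp_add, ← Complex.exp_add, ← Complex.exp_zero]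
    congr 1
    ring
  linear_combination (evm T.pairT 1 a b) * h1

theorem GammaGW.pair_deriv (T : GammaGW X t) (y w : ℂ) (a b : Fin N) :
    HasDerivAt (fun w => evm T.pairT (y * Complex.exp w) a b)
      ((-(theta X * evm T.pairT (y * Complex.exp w) + evm T.pairT (y * Complex.exp w) * theta X)) a b)
      w := by
  have h1 := Pool.Agent.DST.pair_hom T.toEquivGW (y * Complex.exp w) a b
  have h2 : HasDerivAt (fun x => evm T.pairT x a b)
      (deriv (fun x => evm T.pairT x a b) (y * Complex.exp w)) (y * Complex.exp w) :=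
    (diff_evm T.pairT a b).differentiableAt.hasDerivAt
  have h3 : HasDerivAt (fun w => y * Complex.exp w) (y * Complex.exp w) w :=
    (Complex.hasDerivAt_exp w).const_mul y
  have h4 := HasDerivAt.comp w h2 h3
  have h5 : ((-(theta X * evm T.pairT (y * Complex.exp w) +
      evm T.pairT (y * Complex.exp w) * theta X)) a b) =
      deriv (fun x => evm T.pairT x a b) (y * Complex.exp w) * (y * Complex.exp w) := by
    rw [mul_comm (deriv _ _), h1]
    unfold theta
    rw [Matrix.neg_apply, Matrix.add_apply, Matrix.diagonal_mul, Matrix.mul_diagonal]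
    ring
  rw [h5]
  exact h4

theorem GammaGW.pair_det (T : GammaGW X t) (x : ℂ) : (evm T.pairT x).det ≠ 0 :=
  pair_det_ne T.toEquivGW x

theorem GammaGW.pair_trans (T : GammaGW X t) (x : ℂ) :
    (evm T.pairT x).transpose = evm T.pairT x :=
  pair_symm' T.toEquivGW x

theorem GammaGW.C_self (T : GammaGW X t) (x : ℂ) :
    evm T.pairT x * evm (chernT T.toEquivData t T.κ) x =
      (evm (chernT T.toEquivData t T.κ) x).transpose * evm T.pairT x :=
  chernT_self T.toEquivGW t T.κ x

end Pool.Agent.DST
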