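import Pool.Agent.DST.DTh

/-!
# DST-DRes: restrictions to the fixed points

PLAN. Write `r_a = C (res p a) * X ^ deg a` (`T.isRestriction p : IsRestriction r`).
`Ry_W`: entry `(p, b)` of `Ry y * evm (cupChernT) y` is
  `∑_k r_k(y) (∑_a chern_a cupMatT a k b (y)) + κ y r_b(y) = ∑_a chern_a r_a(y) r_b(y) + κ y r_b(y)`
  by `IsRestriction.mul` evaluated at `y`; `chern_a ≠ 0` forces `deg a = 1` (`X.chern_deg`), so this is
  `(∑_a chern_a res p a + κ) y r_b(y) = cw p * y * r_b(y)` by `T.chern_res` (cast of the integer sum).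
`Rm_W` is `Ry_W` at `y = 1`.
`pair_one`: `T.localization`. `det_Rm`: `pairT.det` is a unit, so `(evm T.pairT 1).det ≠ 0`, and by
  `pair_one` it is `det Rm ^ 2 * …`.
`Ry_eq`: entrywise. `pair_y`: from `localization` and homogeneity of `pairT` (`pair_deg`; or from
  `GammaGW.pair_eval'` in DST-DPoly, which may be imported).
-/

open scoped BigOperators Topology
open Filter

namespace Pool.Agent.DST

open Pool.Agent.Helper18.Dub Pool.Agent.Helper7.DubStokes Pool.Agent.SHF

variable {N : ℕ} {X : FanoGW (Fin N)} {t : Fin N → ℂ}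

private theorem evm_cupChernT (T : GammaGW X t) (y : ℂ) (k b : Fin N) :
    evm (cupChernT T.toEquivData T.κ) y k b =
      ∑ a, X.chern a * (T.cupMatT a k b).eval y + T.κ * y * (1 : Matrix (Fin N) (Fin N) ℂ) k b := by
  show Polynomial.eval y (((∑ a, Polynomial.C (X.chern a) • T.cupMatT a) +
    (Polynomial.C T.κ * Polynomial.X) • (1 : Matrix (Fin N) (Fin N) (Polynomial ℂ))) k b) = _
  rw [Matrix.add_apply, Matrix.sum_apply, Matrix.smul_apply, Polynomial.eval_add,
    Polynomial.eval_finsetSum]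
  congr 1
  · refine Finset.sum_congr rfl fun a _ => ?_
    rw [Matrix.smul_apply, smul_eq_mul, Polynomial.eval_mul, Polynomial.eval_C]
  · rw [smul_eq_mul, Polynomial.eval_mul, Polynomial.eval_mul, Polynomial.eval_C,
      Polynomial.eval_X, Matrix.one_apply, Matrix.one_apply]
    split_ifs
    · rw [Polynomial.eval_one]
    · rw [Polynomial.eval_zero]

private theorem res_mul (T : GammaGW X t) (y : ℂ) (p a b : Fin N) :
    (T.res p a * y ^ X.deg a) * (T.res p b * y ^ X.deg b) =
      ∑ k, (T.cupMatT a k b).eval y * (T.res p k * y ^ X.deg k) := by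
  have h := congrArg (Polynomial.eval y) ((T.isRestriction p).mul a b)
  rw [Polynomial.eval_finsetSum] at h
  simp only [Polynomial.eval_mul, Polynomial.eval_C, Polynomial.eval_pow, Polynomial.eval_X] at h
  exact h

theorem GammaGW.Ry_W (T : GammaGW X t) (y : ℂ) :
    T.Ry y * evm (cupChernT T.toEquivData T.κ) y =
      Matrix.diagonal (fun p => (T.cw p : ℂ) * y) * T.Ry y := by
  ext p b
  rw [Matrix.mul_apply, Matrix.diagonal_mul]
  have h1 : ∀ k, T.Ry y p k * evm (cupChernT T.toEquivData T.κ) y k b =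
      ∑ a, X.chern a * ((T.cupMatT a k b).eval y * (T.res p k * y ^ X.deg k)) +
        T.κ * y * ((T.res p k * y ^ X.deg k) * (1 : Matrix (Fin N) (Fin N) ℂ) k b) := by
    intro k
    rw [evm_cupChernT]
    show (T.res p k * y ^ X.deg k) * _ = _
    rw [mul_add, Finset.mul_sum]
    congr 1
    · refine Finset.sum_congr rfl fun a _ => ?_
      ring
    · ring
  rw [Finset.sum_congr rfl fun k _ => h1 k, Finset.sum_add_distrib, Finset.sum_comm,
    ← Finset.mul_sum]
  have h2 : ∑ k, (T.res p k * y ^ X.deg k) * (1 : Matrix (Fin N) (Fin N) ℂ) k b =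
      T.res p b * y ^ X.deg b := by
    rw [Finset.sum_eq_single b]
    · rw [Matrix.one_apply_eq, mul_one]
    · intro k _ hk
      rw [Matrix.one_apply_ne hk, mul_zero]
    · intro h
      exact absurd (Finset.mem_univ b) h
  have h3 : ∀ a, ∑ k, X.chern a * ((T.cupMatT a k b).eval y * (T.res p k * y ^ X.deg k)) =
      X.chern a * T.res p a * y * (T.res p b * y ^ X.deg b) := by
    intro a
    rw [← Finset.mul_sum, ← res_mul T y p a b]
    by_cases hc : X.chern a = 0
    · rw [hc, zero_mul, zero_mul, zero_mul, zero_mul]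
    · rw [X.chern_deg a hc]
      ring
  rw [Finset.sum_congr rfl fun a _ => h3 a, h2, ← Finset.sum_mul, ← Finset.sum_mul]
  have h4 : (T.cw p : ℂ) = ∑ a, X.chern a * T.res p a + T.κ := by
    rw [T.chern_res p]
    unfold GammaGW.cw
    push_cast
    rfl
  show _ = (T.cw p : ℂ) * y * (T.res p b * y ^ X.deg b)
  rw [h4]
  ring

private theorem Ry_one (T : GammaGW X t) : T.Ry 1 = T.Rm := by
  ext p a
  show T.res p a * 1 ^ X.deg a = T.res p a
  rw [one_pow, mul_one]

theorem GammaGW.Rm_W (T : GammaGW X t) :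
    T.Rm * T.W = Matrix.diagonal (fun p => (T.cw p : ℂ)) * T.Rm := by
  have h := T.Ry_W 1
  rw [Ry_one] at h
  simp only [mul_one] at h
  exact h

theorem GammaGW.pair_one (T : GammaGW X t) :
    evm T.pairT 1 = T.Rm.transpose * Matrix.diagonal (fun p => 1 / ∏ k, (T.wt p k : ℂ)) * T.Rm := by
  ext a b
  rw [Matrix.mul_apply]
  show (T.pairT a b).eval 1 = _
  rw [T.localization a b]
  refine Finset.sum_congr rfl fun p _ => ?_
  rw [Matrix.mul_diagonal]
  show _ = T.res p a * (1 / ∏ k, (T.wt p k : ℂ)) * T.res p b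
  ring

theorem GammaGW.det_Rm (T : GammaGW X t) : T.Rm.det ≠ 0 := by
  have h1 : (evm T.pairT 1).det ≠ 0 := by
    have h2 : (evm T.pairT 1).det = (Polynomial.evalRingHom (1 : ℂ)) T.pairT.det := by
      rw [RingHom.map_det]
      rfl
    rw [h2]
    exact (T.pair_nondeg.map (Polynomial.evalRingHom (1 : ℂ))).ne_zero
  rw [T.pair_one, Matrix.det_mul, Matrix.det_mul, Matrix.det_transpose] at h1
  exact (mul_ne_zero_iff.1 h1).2

theorem GammaGW.Ry_eq (T : GammaGW X t) (y : ℂ) :
    T.Ry y = T.Rm * Matrix.diagonal (fun a => y ^ X.deg a) := by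
  ext p a
  rw [Matrix.mul_diagonal]
  rfl

theorem GammaGW.det_Ry (T : GammaGW X t) {y : ℂ} (hy : y ≠ 0) : (T.Ry y).det ≠ 0 := by
  rw [T.Ry_eq, Matrix.det_mul, Matrix.det_diagonal]
  exact mul_ne_zero T.det_Rm (Finset.prod_ne_zero_iff.2 fun a _ => pow_ne_zero _ hy)

end Pool.Agent.DST
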