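import Pool.Agent.DST.DShift

/-!
# DST-DShB: the shift operator at `z = 0`, conjugated by `λ^θ`

Write `C(x) = evm chernT x`, `θ = theta X`; `S₀, S₁, S₀', C'` from `S_deriv` at `x = e^l`.

PLAN.
`Sh l = th X (-l) * S(e^l, 0) * th X l` and `Ah l`: `th_conj_deriv` gives (`x = e^l`, chain rule)
    `Sh' = th(-l) (x S₀' - θ S₀ + S₀ θ) th l = th(-l) (-C S₁ + S₁ C - S₀ C') th l`, and
    `Ah = th(-l) (x⁻¹ C) th l`, `Ah' = th(-l) (-x⁻¹ C + C' - θ x⁻¹ C + x⁻¹ C θ) th l`, so
    `th(-l) C' th l = Ah' + Ah + θ Ah - Ah θ` (`θ` commutes with `th`) and with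
    `S₁' := x • th(-l) S₁ th l`: `Sh' = S₁' Ah - Ah S₁' - Sh (Ah' + Ah + θ Ah - Ah θ)`: `Sh_deriv`.
    `Sh_comm`: from `S_comm`.
-/

open scoped BigOperators Topology
open Filter

namespace Pool.Agent.DST

open Pool.Agent.Helper18.Dub Pool.Agent.Helper7.DubStokes Pool.Agent.SHF

variable {N : ℕ} {X : FanoGW (Fin N)} {t : Fin N → ℂ}

/-- `λ^{-θ} S(λ, 0) λ^θ` at `λ = e^l` -/
noncomputable def GammaGW.Sh (T : GammaGW X t) (l : ℂ) : Matrix (Fin N) (Fin N) ℂ :=
  th X (-l) * evm₂ T.S (Complex.exp l) 0 * th X l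

private theorem theta_th (l : ℂ) : theta X * th X l = th X l * theta X := by
  unfold theta th
  rw [Matrix.diagonal_mul_diagonal, Matrix.diagonal_mul_diagonal]
  congr 1
  funext a
  ring

private theorem conj_mul (l : ℂ) (P Q : Matrix (Fin N) (Fin N) ℂ) :
    (th X (-l) * P * th X l) * (th X (-l) * Q * th X l) = th X (-l) * (P * Q) * th X l := by
  calc (th X (-l) * P * th X l) * (th X (-l) * Q * th X l)
      = th X (-l) * P * (th X l * th X (-l)) * Q * th X l := by
        simp only [Matrix.mul_assoc]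
    _ = th X (-l) * (P * Q) * th X l := by
        rw [th_mul_neg, Matrix.mul_one]
        simp only [Matrix.mul_assoc]

private theorem theta_conj (l : ℂ) (P : Matrix (Fin N) (Fin N) ℂ) :
    theta X * (th X (-l) * P * th X l) = th X (-l) * (theta X * P) * th X l := by
  rw [← Matrix.mul_assoc, ← Matrix.mul_assoc, theta_th, Matrix.mul_assoc (th X (-l))]

private theorem conj_theta (l : ℂ) (P : Matrix (Fin N) (Fin N) ℂ) :
    (th X (-l) * P * th X l) * theta X = th X (-l) * (P * theta X) * th X l := by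
  rw [Matrix.mul_assoc (th X (-l) * P), ← theta_th, ← Matrix.mul_assoc, Matrix.mul_assoc (th X (-l))]

theorem GammaGW.Sh_comm (T : GammaGW X t) (l : ℂ) : T.Ah l * T.Sh l = T.Sh l * T.Ah l := by
  unfold GammaGW.Ah GammaGW.Sh
  have h : (Complex.exp (-l) • evm (chernT T.toEquivData t T.κ) (Complex.exp l)) *
      evm₂ T.S (Complex.exp l) 0 = evm₂ T.S (Complex.exp l) 0 *
      (Complex.exp (-l) • evm (chernT T.toEquivData t T.κ) (Complex.exp l)) := by
    rw [Matrix.smul_mul, T.S_comm, Matrix.mul_smul]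
  rw [conj_mul, conj_mul, h]

theorem GammaGW.Sh_deriv (T : GammaGW X t) (l : ℂ) :
    ∃ S₁ A' : Matrix (Fin N) (Fin N) ℂ,
      (∀ i j, HasDerivAt (fun l => T.Ah l i j) (A' i j) l) ∧
      ∀ i j, HasDerivAt (fun l => T.Sh l i j)
        ((S₁ * T.Ah l - T.Ah l * S₁ -
          T.Sh l * (A' + T.Ah l + theta X * T.Ah l - T.Ah l * theta X)) i j) l := by
  obtain ⟨S₁, S₀', C', hS, hC, h⟩ := T.S_deriv (Complex.exp l)
  set C := evm (chernT T.toEquivData t T.κ) (Complex.exp l) with hCdef
  set S₀ := evm₂ T.S (Complex.exp l) 0 with hS₀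
  have he : Complex.exp (-l) * Complex.exp l = 1 := by
    rw [← Complex.exp_add, neg_add_cancel, Complex.exp_zero]
  -- derivative of `S`
  have h1 : ∀ i j, HasDerivAt (fun l => evm₂ T.S (Complex.exp l) 0 i j)
      ((Complex.exp l • S₀') i j) l := by
    intro i j
    have := (hS i j).comp l (Complex.hasDerivAt_exp l)
    rw [Matrix.smul_apply, smul_eq_mul, mul_comm]
    exact this
  -- derivative of `e^{-l} C(e^l)`
  have h2 : ∀ i j, HasDerivAt (fun l => (Complex.exp (-l) •
      evm (chernT T.toEquivData t T.κ) (Complex.exp l)) i j)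
      ((C' - Complex.exp (-l) • C) i j) l := by
    intro i j
    have e1 : HasDerivAt (fun l : ℂ => Complex.exp (-l)) (-Complex.exp (-l)) l := by
      have := (hasDerivAt_neg l).cexp
      simpa using this
    have e2 := (hC i j).comp l (Complex.hasDerivAt_exp l)
    have e3 := e1.mul e2
    refine e3.congr_deriv ?_
    rw [Matrix.sub_apply, Matrix.smul_apply, smul_eq_mul]
    simp only [Function.comp_apply]
    linear_combination (C' i j) * he
  refine ⟨Complex.exp l • (th X (-l) * S₁ * th X l),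
    th X (-l) * ((C' - Complex.exp (-l) • C) - theta X * (Complex.exp (-l) • C) +
      (Complex.exp (-l) • C) * theta X) * th X l, ?_, ?_⟩
  · intro i j
    exact th_conj_deriv (M := fun l => Complex.exp (-l) •
      evm (chernT T.toEquivData t T.κ) (Complex.exp l))
      (M' := fun _ => C' - Complex.exp (-l) • C) h2 i j
  · intro i j
    have h3 := th_conj_deriv (X := X) (M := fun l => evm₂ T.S (Complex.exp l) 0)
      (M' := fun _ => Complex.exp l • S₀') h1 i j
    refine h3.congr_deriv ?_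
    have hA : T.Ah l = th X (-l) * (Complex.exp (-l) • C) * th X l := rfl
    have hSh : T.Sh l = th X (-l) * S₀ * th X l := rfl
    have hsum : th X (-l) * ((C' - Complex.exp (-l) • C) - theta X * (Complex.exp (-l) • C) +
        (Complex.exp (-l) • C) * theta X) * th X l + T.Ah l + theta X * T.Ah l -
        T.Ah l * theta X = th X (-l) * C' * th X l := by
      rw [hA, theta_conj, conj_theta, ← Matrix.add_mul, ← Matrix.mul_add, ← Matrix.add_mul,
        ← Matrix.mul_add, ← Matrix.sub_mul, ← Matrix.mul_sub]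
      congr 2
      abel
    have hx : Complex.exp l • (Complex.exp (-l) • C) = C := by
      rw [smul_smul, mul_comm, he, one_smul]
    have hB : Complex.exp l • (th X (-l) * S₁ * th X l) * T.Ah l =
        th X (-l) * (S₁ * C) * th X l := by
      rw [hA, Matrix.smul_mul, conj_mul, ← Matrix.smul_mul, ← Matrix.mul_smul, ← Matrix.mul_smul, hx]
    have hB' : T.Ah l * Complex.exp l • (th X (-l) * S₁ * th X l) =
        th X (-l) * (C * S₁) * th X l := by
      rw [hA, Matrix.mul_smul, conj_mul, ← Matrix.smul_mul, ← Matrix.mul_smul, ← Matrix.smul_mul, hx]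
    have hD : T.Sh l * (th X (-l) * C' * th X l) = th X (-l) * (S₀ * C') * th X l := by
      rw [hSh, conj_mul]
    have hE : Complex.exp l • S₀' - theta X * S₀ + S₀ * theta X = S₁ * C - C * S₁ - S₀ * C' := by
      rw [h]
      abel
    rw [hsum, hB, hB', hD, ← Matrix.sub_mul, ← Matrix.mul_sub, ← Matrix.sub_mul, ← Matrix.mul_sub,
      ← hE]

end Pool.Agent.DST
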