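import Pool.Agent.DST.DPair
import Pool.Agent.DST.FPol

/-!
# DST-DShift: the shift operator at `z = 0`

Write `S(x,z) = evm₂ T.S x z`, `C(x) = evm chernT x`, `θ = theta X`. Differentiating
`J y w = S(y e^w, e^w) J (y - 1) w` in `w` gives
`(z θ - C(x)) S(x,z) = z (x ∂_x S + z ∂_z S) + S(x,z) (z θ - C(x - z))` for `z ≠ 0`, hence for all `z`. The value and the
derivative at `z = 0` are `S_comm` and `S_deriv`.
-/

open scoped BigOperators Topology
open Filter

namespace Pool.Agent.DST

open Pool.Agent.Helper18.Dub Pool.Agent.Helper7.DubStokes Pool.Agent.SHF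

variable {N : ℕ} {X : FanoGW (Fin N)} {t : Fin N → ℂ}

private theorem ds_cd (A : Matrix (Fin N) (Fin N) (Polynomial (Polynomial ℂ))) (i j : Fin N) :
    ContDiff ℂ 1 (fun p : ℂ × ℂ => evm₂ A p.1 p.2 i j) := by
  show ContDiff ℂ 1 (fun p : ℂ × ℂ => Polynomial.evalEval p.1 p.2 (A i j))
  generalize A i j = q
  induction q using Polynomial.induction_on' with
  | add p q hp hq =>
    have h1 : (fun r : ℂ × ℂ => Polynomial.evalEval r.1 r.2 (p + q)) =
        fun r : ℂ × ℂ => Polynomial.evalEval r.1 r.2 p + Polynomial.evalEval r.1 r.2 q := by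
      funext r
      exact Polynomial.evalEval_add r.1 r.2 p q
    rw [h1]
    exact hp.add hq
  | monomial n a =>
    have h1 : (fun r : ℂ × ℂ => Polynomial.evalEval r.1 r.2 (Polynomial.monomial n a)) =
        fun r : ℂ × ℂ => a.eval r.1 * r.2 ^ n := by
      funext r
      rw [Polynomial.evalEval, Polynomial.eval_monomial, Polynomial.eval_mul, Polynomial.eval_pow,
        Polynomial.eval_C]
    rw [h1]
    have h2 : ContDiff ℂ 1 (fun x : ℂ => a.eval x) := by
      have h3 := Polynomial.contDiff_aeval (R := ℂ) (𝕜 := ℂ) a 1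
      exact h3
    exact (h2.comp contDiff_fst).mul (contDiff_snd.pow n)

private theorem ds_mul {A B : ℂ → Matrix (Fin N) (Fin N) ℂ} {A' B' : Matrix (Fin N) (Fin N) ℂ}
    {z : ℂ} (hA : ∀ i j, HasDerivAt (fun z => A z i j) (A' i j) z)
    (hB : ∀ i j, HasDerivAt (fun z => B z i j) (B' i j) z) (i j : Fin N) :
    HasDerivAt (fun z => (A z * B z) i j) ((A' * B z + A z * B') i j) z := by
  have h : HasDerivAt (fun z => ∑ k, A z i k * B z k j)
      (∑ k, (A' i k * B z k j + A z i k * B' k j)) z :=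
    HasDerivAt.fun_sum fun k _ => (hA i k).mul (hB k j)
  have e : (A' * B z + A z * B') i j = ∑ k, (A' i k * B z k j + A z i k * B' k j) := by
    rw [Matrix.add_apply, Matrix.mul_apply, Matrix.mul_apply, ← Finset.sum_add_distrib]
  rw [e]
  exact h

private theorem ds_cont {A B : ℂ → Matrix (Fin N) (Fin N) ℂ}
    (hA : ∀ i j, Continuous fun z => A z i j) (hB : ∀ i j, Continuous fun z => B z i j)
    (i j : Fin N) : Continuous fun z => (A z * B z) i j := by
  have h : Continuous fun z => ∑ k, A z i k * B z k j :=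
    continuous_finsetSum _ fun k _ => (hA i k).mul (hB k j)
  exact h

/-- the shift operator -/
private noncomputable def dsS (T : GammaGW X t) (x z : ℂ) : Matrix (Fin N) (Fin N) ℂ :=
  evm₂ T.S x z

/-- multiplication by `c_1` -/
private noncomputable def dsC (T : GammaGW X t) (x : ℂ) : Matrix (Fin N) (Fin N) ℂ :=
  evm (chernT T.toEquivData t T.κ) x

/-- the total derivative in the direction of the point -/
private noncomputable def dsD (T : GammaGW X t) (x z : ℂ) : Matrix (Fin N) (Fin N) ℂ :=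
  Matrix.of fun i j => fderiv ℂ (fun p : ℂ × ℂ => evm₂ T.S p.1 p.2 i j) (x, z) (x, z)

private theorem ds_one (T : GammaGW X t) (x : ℂ) {z : ℂ} (hz : z ≠ 0) :
    (z • theta X - dsC T x) * dsS T x z = z • dsD T x z + dsS T x z * (z • theta X - dsC T (x - z)) := by
  obtain ⟨w, hw⟩ : ∃ w, Complex.exp w = z := ⟨Complex.log z, Complex.exp_log hz⟩
  obtain ⟨y, hy⟩ : ∃ y, y * z = x := ⟨x / z, div_mul_cancel₀ x hz⟩
  have hy1 : (y - 1) * z = x - z := by rw [sub_mul, one_mul, hy]
  have hw' : Complex.exp (-w) = z⁻¹ := by rw [Complex.exp_neg, hw]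
  have hA : ∀ i j, HasDerivAt (fun w' => dsS T (y * Complex.exp w') (Complex.exp w') i j)
      (dsD T x z i j) w := by
    intro i j
    have h1 : HasFDerivAt (fun p : ℂ × ℂ => evm₂ T.S p.1 p.2 i j)
        (fderiv ℂ (fun p : ℂ × ℂ => evm₂ T.S p.1 p.2 i j) (x, z)) (x, z) :=
      (((ds_cd T.S i j).differentiable one_ne_zero) (x, z)).hasFDerivAt
    have h2 : HasDerivAt (fun w' : ℂ => ((y * Complex.exp w', Complex.exp w') : ℂ × ℂ))
        ((x, z) : ℂ × ℂ) w := by
      have h3 : HasDerivAt (fun w' : ℂ => Complex.exp w') z w := by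
        have := Complex.hasDerivAt_exp w
        rwa [hw] at this
      have h4 : HasDerivAt (fun w' : ℂ => y * Complex.exp w') x w := by
        have := h3.const_mul y
        rwa [hy] at this
      exact h4.prodMk h3
    have h5 : ((y * Complex.exp w, Complex.exp w) : ℂ × ℂ) = (x, z) := by rw [hw, hy]
    have h6 : HasFDerivAt (fun p : ℂ × ℂ => evm₂ T.S p.1 p.2 i j)
        (fderiv ℂ (fun p : ℂ × ℂ => evm₂ T.S p.1 p.2 i j) (x, z))
        ((fun w' : ℂ => ((y * Complex.exp w', Complex.exp w') : ℂ × ℂ)) w) := by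
      show HasFDerivAt _ _ ((y * Complex.exp w, Complex.exp w) : ℂ × ℂ)
      rw [h5]
      exact h1
    exact h6.comp_hasDerivAt w h2
  have hB := T.J_ode (y - 1) w
  have hprod := ds_mul hA hB
  have e1 : ∀ w', T.J y w' = dsS T (y * Complex.exp w') (Complex.exp w') * T.J (y - 1) w' :=
    fun w' => T.J_shift y w'
  have h7 : (theta X - z⁻¹ • dsC T x) * (dsS T x z * T.J (y - 1) w) =
      dsD T x z * T.J (y - 1) w +
        dsS T x z * ((theta X - z⁻¹ • dsC T (x - z)) * T.J (y - 1) w) := by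
    ext i j
    have h8 := T.J_ode y w i j
    have h9 := hprod i j
    have e2 : (fun w' => T.J y w' i j) =
        fun w' => (dsS T (y * Complex.exp w') (Complex.exp w') * T.J (y - 1) w') i j := by
      funext w'
      rw [e1 w']
    rw [e2] at h8
    have h10 := h8.unique h9
    rw [e1 w, hw, hw', hy, hy1] at h10
    exact h10
  have hu : IsUnit (T.J (y - 1) w).det := isUnit_iff_ne_zero.2 (T.J_det (y - 1) w)
  have h11 : ((theta X - z⁻¹ • dsC T x) * dsS T x z) * T.J (y - 1) w =
      (dsD T x z + dsS T x z * (theta X - z⁻¹ • dsC T (x - z))) * T.J (y - 1) w := by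
    rw [Matrix.mul_assoc, h7, Matrix.add_mul, Matrix.mul_assoc]
  have h12 := congrArg (fun M => M * (T.J (y - 1) w)⁻¹) h11
  have h13 : (theta X - z⁻¹ • dsC T x) * dsS T x z =
      dsD T x z + dsS T x z * (theta X - z⁻¹ • dsC T (x - z)) := by
    have h14 : ((theta X - z⁻¹ • dsC T x) * dsS T x z) * T.J (y - 1) w * (T.J (y - 1) w)⁻¹ =
      (dsD T x z + dsS T x z * (theta X - z⁻¹ • dsC T (x - z))) * T.J (y - 1) w *
        (T.J (y - 1) w)⁻¹ := h12
    rw [Matrix.mul_nonsing_inv_cancel_right _ _ hu, Matrix.mul_nonsing_inv_cancel_right _ _ hu]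
      at h14
    exact h14
  have e3 : ∀ u : ℂ, z • theta X - dsC T u = z • (theta X - z⁻¹ • dsC T u) := by
    intro u
    rw [smul_sub, smul_smul, mul_inv_cancel₀ hz, one_smul]
  rw [e3, e3, Matrix.smul_mul, h13, smul_add, Matrix.mul_smul]

private theorem ds_shz (T : GammaGW X t) (x : ℂ) (i j : Fin N) :
    Continuous fun z => dsS T x z i j := by
  have h1 : Continuous fun p : ℂ × ℂ => evm₂ T.S p.1 p.2 i j := (ds_cd T.S i j).continuous
  exact h1.comp (continuous_const.prodMk continuous_id)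

private theorem ds_ch (T : GammaGW X t) (i j : Fin N) : Differentiable ℂ fun x => dsC T x i j :=
  diff_evm _ i j

private theorem ds_drz (T : GammaGW X t) (x : ℂ) (i j : Fin N) :
    Continuous fun z => dsD T x z i j := by
  have h1 : Continuous fun p : (ℂ × ℂ) × (ℂ × ℂ) =>
      fderiv ℂ (fun p : ℂ × ℂ => evm₂ T.S p.1 p.2 i j) p.1 p.2 :=
    (ds_cd T.S i j).continuous_fderiv_apply one_ne_zero
  have h2 : Continuous fun z : ℂ => (((x, z), (x, z)) : (ℂ × ℂ) × (ℂ × ℂ)) :=
    (continuous_const.prodMk continuous_id).prodMk (continuous_const.prodMk continuous_id)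
  exact h1.comp h2

private theorem ds_all (T : GammaGW X t) (x : ℂ) (i j : Fin N) :
    (fun z : ℂ => ((z • theta X - dsC T x) * dsS T x z) i j) =
      fun z : ℂ => z * dsD T x z i j + (dsS T x z * (z • theta X - dsC T (x - z))) i j := by
  have c1 : ∀ i j, Continuous fun z : ℂ => (z • theta X - dsC T x) i j := fun i j =>
    (continuous_id.mul continuous_const).sub continuous_const
  have c2 : ∀ i j, Continuous fun z : ℂ => (z • theta X - dsC T (x - z)) i j := fun i j =>
    (continuous_id.mul continuous_const).sub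
      ((ds_ch T i j).continuous.comp (continuous_const.sub continuous_id))
  refine Continuous.ext_on (dense_compl_singleton (0 : ℂ)) (ds_cont c1 (ds_shz T x) i j)
    ((continuous_id.mul (ds_drz T x i j)).add (ds_cont (ds_shz T x) c2 i j)) ?_
  intro z hz
  have h1 := congrFun (congrFun (ds_one T x (show z ≠ 0 from hz)) i) j
  exact h1

private theorem ds_slope {g : ℂ → ℂ} (hg : Continuous g) :
    HasDerivAt (fun z => z * g z) (g 0) 0 := by
  rw [hasDerivAt_iff_tendsto_slope]
  have h1 : Tendsto g (𝓝[≠] 0) (𝓝 (g 0)) := (hg.tendsto 0).mono_left nhdsWithin_le_nhds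
  refine h1.congr' ?_
  filter_upwards [self_mem_nhdsWithin] with z hz
  have hz' : z ≠ 0 := hz
  rw [slope_def_field, zero_mul, sub_zero, sub_zero, mul_div_cancel_left₀ _ hz']

theorem GammaGW.S_comm (T : GammaGW X t) (x : ℂ) :
    evm (chernT T.toEquivData t T.κ) x * evm₂ T.S x 0 =
      evm₂ T.S x 0 * evm (chernT T.toEquivData t T.κ) x := by
  ext i j
  have h1 := congrFun (ds_all T x i j) 0
  have h2 : (((0 : ℂ) • theta X - dsC T x) * dsS T x 0) i j =
    0 * dsD T x 0 i j + (dsS T x 0 * ((0 : ℂ) • theta X - dsC T (x - 0))) i j := h1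
  rw [sub_zero x, zero_smul, zero_sub, zero_mul, zero_add, Matrix.neg_mul, Matrix.mul_neg,
    Matrix.neg_apply, Matrix.neg_apply, neg_inj] at h2
  exact h2

theorem GammaGW.S_deriv (T : GammaGW X t) (x : ℂ) :
    ∃ S₁ S₀' C' : Matrix (Fin N) (Fin N) ℂ,
      (∀ i j, HasDerivAt (fun x => evm₂ T.S x 0 i j) (S₀' i j) x) ∧
      (∀ i j, HasDerivAt (fun x => evm (chernT T.toEquivData t T.κ) x i j) (C' i j) x) ∧
      x • S₀' = theta X * evm₂ T.S x 0 - evm₂ T.S x 0 * theta X -
        evm (chernT T.toEquivData t T.κ) x * S₁ + S₁ * evm (chernT T.toEquivData t T.κ) x -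
        evm₂ T.S x 0 * C' := by
  refine ⟨Matrix.of fun i j => fderiv ℂ (fun p : ℂ × ℂ => evm₂ T.S p.1 p.2 i j) (x, 0) (0, 1),
    Matrix.of fun i j => fderiv ℂ (fun p : ℂ × ℂ => evm₂ T.S p.1 p.2 i j) (x, 0) (1, 0),
    Matrix.of fun i j => deriv (fun x => dsC T x i j) x, fun i j => ?_, fun i j => ?_, ?_⟩
  · have h1 : HasFDerivAt (fun p : ℂ × ℂ => evm₂ T.S p.1 p.2 i j)
        (fderiv ℂ (fun p : ℂ × ℂ => evm₂ T.S p.1 p.2 i j) (x, 0)) (x, 0) :=
      (((ds_cd T.S i j).differentiable one_ne_zero) (x, 0)).hasFDerivAt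
    have h2 : HasDerivAt (fun x : ℂ => ((x, 0) : ℂ × ℂ)) ((1, 0) : ℂ × ℂ) x :=
      (hasDerivAt_id x).prodMk (hasDerivAt_const x 0)
    exact h1.comp_hasDerivAt x h2
  · exact (ds_ch T i j x).hasDerivAt
  · have hS : ∀ i j, HasDerivAt (fun z => dsS T x z i j)
        ((Matrix.of fun i j => fderiv ℂ (fun p : ℂ × ℂ => evm₂ T.S p.1 p.2 i j) (x, 0) (0, 1) :
          Matrix (Fin N) (Fin N) ℂ) i j) 0 := by
      intro i j
      have h1 : HasFDerivAt (fun p : ℂ × ℂ => evm₂ T.S p.1 p.2 i j)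
          (fderiv ℂ (fun p : ℂ × ℂ => evm₂ T.S p.1 p.2 i j) (x, 0)) (x, 0) :=
        (((ds_cd T.S i j).differentiable one_ne_zero) (x, 0)).hasFDerivAt
      have h2 : HasDerivAt (fun z : ℂ => ((x, z) : ℂ × ℂ)) ((0, 1) : ℂ × ℂ) 0 :=
        (hasDerivAt_const 0 x).prodMk (hasDerivAt_id 0)
      exact h1.comp_hasDerivAt (0 : ℂ) h2
    have hL : ∀ i j, HasDerivAt (fun z : ℂ => (z • theta X - dsC T x) i j) (theta X i j) 0 := by
      intro i j
      have h1 : HasDerivAt (fun z : ℂ => z * theta X i j - dsC T x i j) (1 * theta X i j) 0 :=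
        ((hasDerivAt_id (0 : ℂ)).mul_const _).sub_const _
      rw [one_mul] at h1
      exact h1
    have hR : ∀ i j, HasDerivAt (fun z : ℂ => (z • theta X - dsC T (x - z)) i j)
        ((theta X + Matrix.of fun i j => deriv (fun x => dsC T x i j) x) i j) 0 := by
      intro i j
      have h1 : HasDerivAt (fun z : ℂ => x - z) (-1) 0 := (hasDerivAt_id (0 : ℂ)).const_sub x
      have h2 : HasDerivAt (fun x => dsC T x i j) (deriv (fun x => dsC T x i j) x) (x - 0) := by
        rw [sub_zero]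
        exact (ds_ch T i j x).hasDerivAt
      have h3 : HasDerivAt (fun z : ℂ => dsC T (x - z) i j)
          (deriv (fun x => dsC T x i j) x * -1) 0 :=
        HasDerivAt.comp (0 : ℂ) h2 h1
      have h4 : HasDerivAt (fun z : ℂ => z * theta X i j - dsC T (x - z) i j)
          (1 * theta X i j - deriv (fun x => dsC T x i j) x * -1) 0 :=
        ((hasDerivAt_id (0 : ℂ)).mul_const _).sub h3
      have h5 : 1 * theta X i j - deriv (fun x => dsC T x i j) x * -1 =
          theta X i j + deriv (fun x => dsC T x i j) x := by ring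
      rw [h5] at h4
      exact h4
    ext i j
    have h1 := ds_mul hL hS i j
    have h2 := (ds_slope (ds_drz T x i j)).add (ds_mul hS hR i j)
    rw [ds_all T x i j] at h1
    have h3 := h1.unique h2
    have h4 : dsD T x 0 i j =
        x * fderiv ℂ (fun p : ℂ × ℂ => evm₂ T.S p.1 p.2 i j) (x, 0) (1, 0) := by
      have h5 : ((x, 0) : ℂ × ℂ) = x • ((1, 0) : ℂ × ℂ) := by
        rw [Prod.smul_mk, smul_eq_mul, smul_eq_mul, mul_one, mul_zero]
      have h6 := (fderiv ℂ (fun p : ℂ × ℂ => evm₂ T.S p.1 p.2 i j) (x, 0)).map_smul x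
        ((1, 0) : ℂ × ℂ)
      rw [← h5] at h6
      exact h6
    rw [h4, zero_smul, sub_zero x, zero_sub, Matrix.mul_neg, Matrix.neg_mul, Matrix.mul_add,
      Matrix.add_apply, Matrix.add_apply, Matrix.add_apply, Matrix.neg_apply,
      Matrix.neg_apply] at h3
    rw [Matrix.smul_apply, Matrix.sub_apply, Matrix.add_apply, Matrix.sub_apply, Matrix.sub_apply,
      smul_eq_mul, Matrix.of_apply]
    have h6 : (theta X * dsS T x 0) i j - (dsS T x 0 * theta X) i j -
        (dsC T x * (Matrix.of fun i j =>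
          fderiv ℂ (fun p : ℂ × ℂ => evm₂ T.S p.1 p.2 i j) (x, 0) (0, 1) :
          Matrix (Fin N) (Fin N) ℂ)) i j +
        ((Matrix.of fun i j =>
          fderiv ℂ (fun p : ℂ × ℂ => evm₂ T.S p.1 p.2 i j) (x, 0) (0, 1) :
          Matrix (Fin N) (Fin N) ℂ) * dsC T x) i j -
        (dsS T x 0 * Matrix.of fun i j => deriv (fun x => dsC T x i j) x) i j =
        x * fderiv ℂ (fun p : ℂ × ℂ => evm₂ T.S p.1 p.2 i j) (x, 0) (1, 0) := by
      linear_combination h3
    exact h6.symm

theorem GammaGW.S_det (T : GammaGW X t) (x z : ℂ) : (evm₂ T.S x z).det ≠ 0 := by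
  rw [det_evm₂]
  exact (T.isUnit_S.map (Polynomial.evalEvalRingHom x z)).ne_zero

end Pool.Agent.DST
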