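import Pool.Agent.DST.DDefs

/-!
# DST-DTh: the diagonal matrices `e^{lθ}`

PLAN. `th` is a diagonal matrix: `Matrix.diagonal_mul_diagonal`, `Complex.exp_add`.
`exp_theta`: `w • theta X` is diagonal, `Matrix.exp_diagonal`, and `NormedSpace.exp` of a function
is computed entrywise (`Pi.exp_def`/`NormedSpace.exp_pi`-type lemma), `Complex.exp_eq_exp_ℂ`.
`th_deriv`: entrywise chain rule.
-/

open scoped BigOperators Topology
open Filter

namespace Pool.Agent.DST

open Pool.Agent.Helper18.Dub Pool.Agent.Helper7.DubStokes Pool.Agent.SHF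

variable {N : ℕ} {X : FanoGW (Fin N)}

theorem th_zero : th X 0 = 1 := by
  simp [th]

theorem th_add (l l' : ℂ) : th X (l + l') = th X l * th X l' := by
  unfold th
  rw [Matrix.diagonal_mul_diagonal]
  congr 1
  ext a
  rw [add_mul, Complex.exp_add]

theorem th_mul_neg (l : ℂ) : th X l * th X (-l) = 1 := by
  rw [← th_add, add_neg_cancel, th_zero]

theorem th_neg_mul (l : ℂ) : th X (-l) * th X l = 1 := by
  rw [← th_add, neg_add_cancel, th_zero]

theorem th_det (l : ℂ) : (th X l).det ≠ 0 := by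
  unfold th
  rw [Matrix.det_diagonal]
  exact Finset.prod_ne_zero_iff.2 fun a _ => Complex.exp_ne_zero _

theorem exp_theta (w : ℂ) : NormedSpace.exp (w • theta X) = th X w := by
  unfold th theta
  rw [← Matrix.diagonal_smul, Matrix.exp_diagonal]
  congr 1
  ext a
  rw [Pi.coe_exp, Complex.exp_eq_exp_ℂ]
  simp [smul_eq_mul]

private theorem th_mul_apply (l : ℂ) (M : Matrix (Fin N) (Fin N) ℂ) (i j : Fin N) :
    (th X l * M) i j = Complex.exp (l * ((X.dim : ℂ) / 2 - X.deg i)) * M i j := by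
  unfold th
  rw [Matrix.diagonal_mul]

private theorem mul_th_apply (l : ℂ) (M : Matrix (Fin N) (Fin N) ℂ) (i j : Fin N) :
    (M * th X l) i j = M i j * Complex.exp (l * ((X.dim : ℂ) / 2 - X.deg j)) := by
  unfold th
  rw [Matrix.mul_diagonal]

private theorem theta_mul_apply (M : Matrix (Fin N) (Fin N) ℂ) (i j : Fin N) :
    (theta X * M) i j = ((X.dim : ℂ) / 2 - X.deg i) * M i j := by
  unfold theta
  rw [Matrix.diagonal_mul]

private theorem mul_theta_apply (M : Matrix (Fin N) (Fin N) ℂ) (i j : Fin N) :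
    (M * theta X) i j = M i j * ((X.dim : ℂ) / 2 - X.deg j) := by
  unfold theta
  rw [Matrix.mul_diagonal]

private theorem expd (s : ℂ) (l : ℂ) (c : ℂ) :
    HasDerivAt (fun l : ℂ => Complex.exp (s * l * c)) (s * c * Complex.exp (s * l * c)) l := by
  have h1 : HasDerivAt (fun l : ℂ => s * l * c) (s * 1 * c) l :=
    ((hasDerivAt_id l).const_mul s).mul_const c
  have h2 := h1.cexp
  have e : Complex.exp (s * l * c) * (s * 1 * c) = s * c * Complex.exp (s * l * c) := by ring
  rwa [e] at h2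

/-- `(l^θ M)' = l^θ (θ M + M')` and `(M l^θ)' = (M θ + M') l^θ`, entrywise. -/
theorem th_conj_deriv {M M' : ℂ → Matrix (Fin N) (Fin N) ℂ} {l : ℂ}
    (hM : ∀ i j, HasDerivAt (fun l => M l i j) (M' l i j) l) (i j : Fin N) :
    HasDerivAt (fun l => (th X (-l) * M l * th X l) i j)
      ((th X (-l) * (M' l - theta X * M l + M l * theta X) * th X l) i j) l := by
  have h0 : (fun l => (th X (-l) * M l * th X l) i j) = fun l =>
      Complex.exp (-1 * l * ((X.dim : ℂ) / 2 - X.deg i)) * M l i j *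
        Complex.exp (1 * l * ((X.dim : ℂ) / 2 - X.deg j)) := by
    funext l
    rw [mul_th_apply, th_mul_apply, neg_one_mul, one_mul]
  rw [h0]
  have h1 := ((expd (-1) l ((X.dim : ℂ) / 2 - X.deg i)).mul (hM i j)).mul
    (expd 1 l ((X.dim : ℂ) / 2 - X.deg j))
  refine h1.congr_deriv ?_
  rw [mul_th_apply, th_mul_apply]
  simp only [Matrix.add_apply, Matrix.sub_apply, Pi.mul_apply]
  rw [theta_mul_apply, mul_theta_apply, neg_one_mul, one_mul]
  ring_nf

theorem th_mul_deriv {M M' : ℂ → Matrix (Fin N) (Fin N) ℂ} {l : ℂ}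
    (hM : ∀ i j, HasDerivAt (fun l => M l i j) (M' l i j) l) (i j : Fin N) :
    HasDerivAt (fun l => (th X (-l) * M l) i j)
      ((th X (-l) * (M' l - theta X * M l)) i j) l := by
  have h0 : (fun l => (th X (-l) * M l) i j) = fun l =>
      Complex.exp (-1 * l * ((X.dim : ℂ) / 2 - X.deg i)) * M l i j := by
    funext l
    rw [th_mul_apply, neg_one_mul]
  rw [h0]
  have h1 := (expd (-1) l ((X.dim : ℂ) / 2 - X.deg i)).mul (hM i j)
  refine h1.congr_deriv ?_
  rw [th_mul_apply]
  simp only [Matrix.sub_apply]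
  rw [theta_mul_apply, neg_one_mul]
  ring_nf

end Pool.Agent.DST
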