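import Pool.Agent.DST.DNbd
import Pool.Agent.DST.DLau

/-!
# DST-DUp: upper bound for the restrictions of the right-canonical solutions to the fixed points

PLAN. `K` from `N_bound` (increase it if needed). Fix `l` with `0 ≤ re l`, `c ≠ 0`, and the matrix `Y`
with `IsBirk`. By `IsBirk` the entries of `c • FG l y * Y(y) * diagonal (exp(-y G_k))` are bounded by
some `C₁` for `y ∈ rhp`, `‖y‖ ≥ R` (the limit along the filter `rhp = cobounded ⊓ 𝓟 {0 ≤ re}`: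
`Tendsto` gives `∀ᶠ`, unfold with `Filter.eventually_inf_principal` and `Filter.hasBasis_cobounded_norm`),
so `‖(FG l y * Y(y)) i j‖ ≤ C₂ ‖exp(y G_j)‖`, with `Y(y) = Y.map (evq y)`.
For `im y ≠ 0` multiply `form_inv` by `Y(y)` on the right:
`diagonal (Dp l y) * (BT y * Y(y)) = exp((d/2) log y) • ((Rm N⁻¹ Rm⁻¹) * Rm * th X (-l) * (FG l y * Y(y)))`,
and `BT y * Y(y) = (gM Y).map (evq y)` (`evq_toC`, `evq y` is a ring homomorphism:
`Matrix.map_mul`). Entries: `‖exp((d/2) log y)‖ = ‖y‖^{d/2} ≤ ‖y‖^d` for `‖y‖ ≥ 1`; `N_bound`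
(needs `|re y| ≤ |im y|`: here `0 ≤ re y ≤ |im y|`; `im y ≠ 0` if `y ≠ 0`); `Rm * th X (-l)` is constant.
-/

open scoped BigOperators Topology
open Filter

namespace Pool.Agent.DST

open Pool.Agent.Helper18.Dub Pool.Agent.Helper7.DubStokes Pool.Agent.SHF

variable {N : ℕ} {X : FanoGW (Fin N)} {t : Fin N → ℂ}

private theorem dup_pow (d : ℕ) {y : ℂ} (hy : 1 ≤ ‖y‖) :
    ‖Complex.exp (((d : ℂ) / 2) * Complex.log y)‖ ≤ ‖y‖ ^ d := by
  have h0 : 0 < ‖y‖ := by linarith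
  have h1 : 0 ≤ Real.log ‖y‖ := Real.log_nonneg hy
  have h2 : (((d : ℂ) / 2) * Complex.log y).re = ((d : ℝ) / 2) * Real.log ‖y‖ := by
    have h3 : ((d : ℂ) / 2) = (((d : ℝ) / 2 : ℝ) : ℂ) := by push_cast; ring
    rw [h3, Complex.re_ofReal_mul, Complex.log_re]
  have h4 : ‖y‖ ^ d = Real.exp ((d : ℝ) * Real.log ‖y‖) := by
    rw [mul_comm, Real.exp_mul, Real.exp_log h0, Real.rpow_natCast]
  rw [Complex.norm_exp, h2, h4]
  refine Real.exp_le_exp.2 ?_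
  have h5 : 0 ≤ (d : ℝ) * Real.log ‖y‖ := by positivity
  linarith

private theorem dup_gM (T : GammaGW X t) (Y : Matrix (Fin N) (Fin N) (LaurentPolynomial ℂ))
    (y : ℂ) : (T.gM Y).map (evq y) = T.BT y * Y.map (evq y) := by
  unfold GammaGW.gM GammaGW.BT
  rw [Matrix.map_mul]
  congr 1
  ext i j
  simp only [Matrix.map_apply, Matrix.transpose_apply, evq_toC]

theorem GammaGW.up (T : GammaGW X t) : ∃ K : ℝ, 0 ≤ K ∧ ∀ l : ℂ, 0 ≤ l.re →
    ∀ (Ψ : Matrix (Fin N) (Fin N) ℂ) (G : Fin N → ℂ)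
      (Y : Matrix (Fin N) (Fin N) (LaurentPolynomial ℂ)) (c : ℂ), c ≠ 0 →
      IsBirk (fun y => c • T.FG l y) Ψ G (fun y => Y.map (evq y)) →
      ∃ C R : ℝ, ∀ y : ℂ, 0 ≤ y.re → y.re ≤ |y.im| → R ≤ ‖y‖ → ∀ p j,
        ‖T.Dp l y p‖ * ‖evq y (T.gM Y p j)‖ ≤
          C * ‖y‖ ^ X.dim * Real.exp (K * ‖y‖ * Real.exp (-l.re)) *
            ‖Complex.exp (y * G j)‖ := by
  obtain ⟨K, hK0, hK⟩ := T.N_bound
  refine ⟨K, hK0, ?_⟩
  intro l hl Ψ G Y c hc hB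
  have hev : ∀ᶠ y in rhp, ∀ i j, ‖((c • T.FG l y) * Y.map (evq y) *
      Matrix.diagonal fun k => Complex.exp (-y * G k)) i j‖ ≤ ‖Ψ i j‖ + 1 := by
    refine Filter.eventually_all.2 fun i => Filter.eventually_all.2 fun j => ?_
    have h1 := (hB i j).norm
    have h2 := (tendsto_order.1 h1).2 (‖Ψ i j‖ + 1) (by linarith)
    filter_upwards [h2] with y hy using hy.le
  unfold rhp at hev
  rw [Filter.eventually_inf_principal] at hev
  obtain ⟨R, -, hR⟩ := (Filter.hasBasis_cobounded_norm).eventually_iff.1 hev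
  have hM : ∀ i j, ‖Ψ i j‖ + 1 ≤ ∑ i, ∑ j, (‖Ψ i j‖ + 1) := fun i j => by
    refine le_trans (Finset.single_le_sum (f := fun j => ‖Ψ i j‖ + 1)
      (fun j _ => by positivity) (Finset.mem_univ j)) ?_
    exact Finset.single_le_sum (f := fun i => ∑ j, (‖Ψ i j‖ + 1))
      (fun i _ => Finset.sum_nonneg fun j _ => by positivity) (Finset.mem_univ i)
  set M : ℝ := ∑ i, ∑ j, (‖Ψ i j‖ + 1) with hMdef
  have hM0 : 0 ≤ M := Finset.sum_nonneg fun i _ => Finset.sum_nonneg fun j _ => by positivity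
  have hc0 : 0 < ‖c‖ := norm_pos_iff.2 hc
  have hFY : ∀ y : ℂ, 0 ≤ y.re → R ≤ ‖y‖ → ∀ i j,
      ‖(T.FG l y * Y.map (evq y)) i j‖ ≤ ‖c‖⁻¹ * M * ‖Complex.exp (y * G j)‖ := by
    intro y hy0 hyR i j
    have h1 := hR hyR hy0 i j
    rw [Matrix.mul_diagonal, Matrix.smul_mul, Matrix.smul_apply, smul_eq_mul, norm_mul, norm_mul]
      at h1
    have h2 : ‖Complex.exp (-y * G j)‖ * ‖Complex.exp (y * G j)‖ = 1 := by
      rw [← norm_mul, ← Complex.exp_add]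
      have h3 : -y * G j + y * G j = 0 := by ring
      rw [h3, Complex.exp_zero, norm_one]
    have h4 : ‖c‖ * ‖(T.FG l y * Y.map (evq y)) i j‖ * ‖Complex.exp (-y * G j)‖ ≤ M :=
      le_trans h1 (hM i j)
    calc ‖(T.FG l y * Y.map (evq y)) i j‖
        = ‖c‖⁻¹ * (‖c‖ * ‖(T.FG l y * Y.map (evq y)) i j‖ * ‖Complex.exp (-y * G j)‖) *
            ‖Complex.exp (y * G j)‖ := by
          rw [mul_assoc ‖c‖⁻¹, mul_assoc (‖c‖ * _), h2, mul_one, ← mul_assoc,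
            inv_mul_cancel₀ hc0.ne', one_mul]
      _ ≤ ‖c‖⁻¹ * M * ‖Complex.exp (y * G j)‖ := by
          refine mul_le_mul_of_nonneg_right ?_ (norm_nonneg _)
          exact mul_le_mul_of_nonneg_left h4 (inv_nonneg.2 hc0.le)
  refine ⟨(∑ q, ∑ i, ‖(T.Rm * th X (-l)) q i‖) * (‖c‖⁻¹ * M), max R 1, ?_⟩
  intro y hy0 hyi hyR p j
  have hyR' : R ≤ ‖y‖ := le_trans (le_max_left _ _) hyR
  have hy1 : 1 ≤ ‖y‖ := le_trans (le_max_right _ _) hyR
  have him : y.im ≠ 0 := by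
    intro h0
    rw [h0, abs_zero] at hyi
    have h1 : y.re = 0 := le_antisymm hyi hy0
    have h2 : y = 0 := Complex.ext h1 h0
    rw [h2, norm_zero] at hy1
    linarith
  have habs : |y.re| ≤ |y.im| := by rw [abs_of_nonneg hy0]; exact hyi
  have hmat : Matrix.diagonal (T.Dp l y) * (T.gM Y).map (evq y) =
      Complex.exp (((X.dim : ℂ) / 2) * Complex.log y) •
        ((T.Rm * (T.Nn l y)⁻¹ * T.Rm⁻¹) * ((T.Rm * th X (-l)) * (T.FG l y * Y.map (evq y)))) := by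
    rw [dup_gM, ← Matrix.mul_assoc, T.form_inv l him, Matrix.smul_mul]
    simp only [Matrix.mul_assoc]
  have hent := congrFun (congrFun hmat p) j
  rw [Matrix.diagonal_mul, Matrix.smul_apply, smul_eq_mul, Matrix.map_apply] at hent
  have hE := dup_pow X.dim hy1
  have hin : ∀ q, ‖((T.Rm * th X (-l)) * (T.FG l y * Y.map (evq y))) q j‖ ≤
      (∑ i, ‖(T.Rm * th X (-l)) q i‖) * (‖c‖⁻¹ * M * ‖Complex.exp (y * G j)‖) := by
    intro q
    rw [Matrix.mul_apply, Finset.sum_mul]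
    refine le_trans (norm_sum_le _ _) (Finset.sum_le_sum fun i _ => ?_)
    rw [norm_mul]
    exact mul_le_mul_of_nonneg_left (hFY y hy0 hyR' i j) (norm_nonneg _)
  have hout : ‖((T.Rm * (T.Nn l y)⁻¹ * T.Rm⁻¹) *
      ((T.Rm * th X (-l)) * (T.FG l y * Y.map (evq y)))) p j‖ ≤
      Real.exp (K * ‖y‖ * Real.exp (-l.re)) *
        ((∑ q, ∑ i, ‖(T.Rm * th X (-l)) q i‖) * (‖c‖⁻¹ * M * ‖Complex.exp (y * G j)‖)) := by
    rw [Matrix.mul_apply, Finset.sum_mul, Finset.mul_sum]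
    refine le_trans (norm_sum_le _ _) (Finset.sum_le_sum fun q _ => ?_)
    rw [norm_mul]
    exact mul_le_mul (hK y him habs l hl p q).2 (hin q) (norm_nonneg _) (Real.exp_pos _).le
  calc ‖T.Dp l y p‖ * ‖evq y (T.gM Y p j)‖ = ‖T.Dp l y p * evq y (T.gM Y p j)‖ :=
        (norm_mul _ _).symm
    _ = ‖Complex.exp (((X.dim : ℂ) / 2) * Complex.log y)‖ *
          ‖((T.Rm * (T.Nn l y)⁻¹ * T.Rm⁻¹) *
            ((T.Rm * th X (-l)) * (T.FG l y * Y.map (evq y)))) p j‖ := by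
        rw [hent, norm_mul]
    _ ≤ ‖y‖ ^ X.dim * (Real.exp (K * ‖y‖ * Real.exp (-l.re)) *
          ((∑ q, ∑ i, ‖(T.Rm * th X (-l)) q i‖) * (‖c‖⁻¹ * M * ‖Complex.exp (y * G j)‖))) :=
        mul_le_mul hE hout (norm_nonneg _) (by positivity)
    _ = (∑ q, ∑ i, ‖(T.Rm * th X (-l)) q i‖) * (‖c‖⁻¹ * M) * ‖y‖ ^ X.dim *
          Real.exp (K * ‖y‖ * Real.exp (-l.re)) * ‖Complex.exp (y * G j)‖ := by ring

end Pool.Agent.DST
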