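import Pool.Agent.DST.DUp
import Pool.Agent.DST.DDp

/-!
# DST-DWin: windows for the exponents of the restrictions to the fixed points

PLAN. `K` from `T.up`. Fix everything, let `f = gM Y p j`, `δ = K exp(-re l)`.
(1) `y = iτ`, `τ` large: `‖y‖ = τ`, `‖exp(y G_j)‖ = exp(-τ im G_j)`, `Dp_pos`: `‖Dp‖ ≥ exp(-τ gi)`. So
    `‖evq (iτ) f‖ ≤ C τ^d exp(τ (δ - im G_j + gi l p))`, and `lau_pos` gives
    `-(2π n) ≤ δ - im G_j + gi l p`.
(2) `y = -iτ`: `‖exp(y G_j)‖ = exp(τ im G_j)`, `Dp_neg`: `‖Dp‖ ≥ exp(τ (gi - 2π pl))`. So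
    `‖evq (-iτ) f‖ ≤ C τ^d exp(τ (δ + im G_j - gi + 2π pl))`, `lau_neg`: `2π n ≤ δ + im G_j - gi + 2π pl`.
-/

open scoped BigOperators Topology
open Filter

namespace Pool.Agent.DST

open Pool.Agent.Helper18.Dub Pool.Agent.Helper7.DubStokes Pool.Agent.SHF

variable {N : ℕ} {X : FanoGW (Fin N)} {t : Fin N → ℂ}

theorem GammaGW.windows (T : GammaGW X t) : ∃ K : ℝ, 0 ≤ K ∧ ∀ l : ℂ, 0 ≤ l.re →
    ∀ (Ψ : Matrix (Fin N) (Fin N) ℂ) (G : Fin N → ℂ)
      (Y : Matrix (Fin N) (Fin N) (LaurentPolynomial ℂ)) (c : ℂ), c ≠ 0 →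
      IsBirk (fun y => c • T.FG l y) Ψ G (fun y => Y.map (evq y)) →
      ∀ p j, ∀ n ∈ (T.gM Y p j).coeff.support,
        (G j).im - T.gi l p - K * Real.exp (-l.re) ≤ 2 * Real.pi * n ∧
        2 * Real.pi * n ≤ (G j).im - T.gi l p + 2 * Real.pi * T.pl p +
          K * Real.exp (-l.re) := by
  obtain ⟨K, hK, h⟩ := T.up
  refine ⟨K, hK, fun l hl Ψ G Y c hc hB p j n hn => ?_⟩
  obtain ⟨C, R, hC⟩ := h l hl Ψ G Y c hc hB
  have h1 : ∀ᶠ τ : ℝ in atTop, ‖evq (τ * Complex.I) (T.gM Y p j)‖ ≤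
      C * τ ^ X.dim * Real.exp ((K * Real.exp (-l.re) - (G j).im + T.gi l p) * τ) := by
    filter_upwards [eventually_ge_atTop (1 : ℝ), eventually_ge_atTop R] with τ hτ hτR
    have hre : ((τ : ℂ) * Complex.I).re = 0 := by simp
    have him : ((τ : ℂ) * Complex.I).im = τ := by simp
    have hn' : ‖(τ : ℂ) * Complex.I‖ = τ := by
      rw [norm_mul, Complex.norm_I, mul_one, Complex.norm_real, Real.norm_of_nonneg (by linarith)]
    have h2 := hC (τ * Complex.I) (by rw [hre]) (by rw [hre]; exact abs_nonneg _)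
      (by rw [hn']; exact hτR) p j
    have h3 := T.Dp_pos l p hτ
    have h4 : ‖Complex.exp (τ * Complex.I * G j)‖ = Real.exp (-(G j).im * τ) := by
      rw [Complex.norm_exp]
      congr 1
      simp
      ring
    rw [hn', h4] at h2
    have h5 : Real.exp (-τ * T.gi l p) * ‖evq (τ * Complex.I) (T.gM Y p j)‖ ≤
        C * τ ^ X.dim * Real.exp (K * τ * Real.exp (-l.re)) * Real.exp (-(G j).im * τ) :=
      (mul_le_mul_of_nonneg_right h3 (norm_nonneg _)).trans h2
    have h6 := mul_le_mul_of_nonneg_left h5 (Real.exp_nonneg (τ * T.gi l p))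
    have h7 : Real.exp (τ * T.gi l p) *
        (Real.exp (-τ * T.gi l p) * ‖evq (τ * Complex.I) (T.gM Y p j)‖) =
        ‖evq (τ * Complex.I) (T.gM Y p j)‖ := by
      rw [← mul_assoc, ← Real.exp_add]
      have : τ * T.gi l p + -τ * T.gi l p = 0 := by ring
      rw [this, Real.exp_zero, one_mul]
    have h8 : Real.exp (τ * T.gi l p) *
        (C * τ ^ X.dim * Real.exp (K * τ * Real.exp (-l.re)) * Real.exp (-(G j).im * τ)) =
        C * τ ^ X.dim * Real.exp ((K * Real.exp (-l.re) - (G j).im + T.gi l p) * τ) := by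
      have : (K * Real.exp (-l.re) - (G j).im + T.gi l p) * τ =
          τ * T.gi l p + K * τ * Real.exp (-l.re) + -(G j).im * τ := by ring
      rw [this, Real.exp_add, Real.exp_add]
      ring
    rw [h7, h8] at h6
    exact h6
  have h2 : ∀ᶠ τ : ℝ in atTop, ‖evq (-(τ * Complex.I)) (T.gM Y p j)‖ ≤
      C * τ ^ X.dim * Real.exp ((K * Real.exp (-l.re) + (G j).im - T.gi l p +
        2 * Real.pi * T.pl p) * τ) := by
    filter_upwards [eventually_ge_atTop (1 : ℝ), eventually_ge_atTop R] with τ hτ hτR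
    have hre : (-((τ : ℂ) * Complex.I)).re = 0 := by simp
    have hn' : ‖-((τ : ℂ) * Complex.I)‖ = τ := by
      rw [norm_neg, norm_mul, Complex.norm_I, mul_one, Complex.norm_real,
        Real.norm_of_nonneg (by linarith)]
    have h2 := hC (-(τ * Complex.I)) (by rw [hre]) (by rw [hre]; exact abs_nonneg _)
      (by rw [hn']; exact hτR) p j
    have h3 := T.Dp_neg l p hτ
    have h4 : ‖Complex.exp (-(τ * Complex.I) * G j)‖ = Real.exp ((G j).im * τ) := by
      rw [Complex.norm_exp]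
      congr 1
      simp
      ring
    rw [hn', h4] at h2
    have h5 : Real.exp (τ * (T.gi l p - 2 * Real.pi * T.pl p)) *
        ‖evq (-(τ * Complex.I)) (T.gM Y p j)‖ ≤
        C * τ ^ X.dim * Real.exp (K * τ * Real.exp (-l.re)) * Real.exp ((G j).im * τ) :=
      (mul_le_mul_of_nonneg_right h3 (norm_nonneg _)).trans h2
    have h6 := mul_le_mul_of_nonneg_left h5
      (Real.exp_nonneg (-(τ * (T.gi l p - 2 * Real.pi * T.pl p))))
    have h7 : Real.exp (-(τ * (T.gi l p - 2 * Real.pi * T.pl p))) *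
        (Real.exp (τ * (T.gi l p - 2 * Real.pi * T.pl p)) *
          ‖evq (-(τ * Complex.I)) (T.gM Y p j)‖) =
        ‖evq (-(τ * Complex.I)) (T.gM Y p j)‖ := by
      rw [← mul_assoc, ← Real.exp_add, neg_add_cancel, Real.exp_zero, one_mul]
    have h8 : Real.exp (-(τ * (T.gi l p - 2 * Real.pi * T.pl p))) *
        (C * τ ^ X.dim * Real.exp (K * τ * Real.exp (-l.re)) * Real.exp ((G j).im * τ)) =
        C * τ ^ X.dim * Real.exp ((K * Real.exp (-l.re) + (G j).im - T.gi l p +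
          2 * Real.pi * T.pl p) * τ) := by
      have : (K * Real.exp (-l.re) + (G j).im - T.gi l p + 2 * Real.pi * T.pl p) * τ =
          -(τ * (T.gi l p - 2 * Real.pi * T.pl p)) + K * τ * Real.exp (-l.re) +
            (G j).im * τ := by ring
      rw [this, Real.exp_add, Real.exp_add]
      ring
    rw [h7, h8] at h6
    exact h6
  have h3 := lau_pos h1 n hn
  have h4 := lau_neg h2 n hn
  constructor <;> linarith

end Pool.Agent.DST
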