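import Mathlib

/-!
# DST-EAd: the equation `n H = ρ H - H ρ + B` for a matrix `ρ` of degree one

PLAN. Mathlib only. Let `ad Y = ρ Y - Y ρ`. If the support of `Y` lies in `{(i,j) : deg j + m ≤ deg i}` (`m : ℤ`), then the
support of `ad Y` lies in `{(i,j) : deg j + m + 1 ≤ deg i}`. Every matrix has `m = -s`, `s = ∑ deg`, and a matrix with
`m = s + 1` vanishes; so `ad^[K] Y = 0` for `K = 2 s + 1`. Put `H = ∑ k ∈ range K, (n : ℂ)⁻¹ ^ (k + 1) • ad^[k] B`; telescoping: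
`n H - ad H = B - n^{-K} ad^[K] B = B`. Bound: `‖ad Y i j‖ ≤ 2 N r y` if `‖ρ i j‖ ≤ r`, `‖Y i j‖ ≤ y`; `n⁻¹ ^ (k+1) ≤ n⁻¹`;
`c = 1 + ∑ k ∈ range K, (2 N r)^k`. The support of `H`: apply the first remark with `m = 1 - n`.
-/

open scoped BigOperators Topology
open Filter

namespace Pool.Agent.DST

private def adm {N : ℕ} (ρ Y : Matrix (Fin N) (Fin N) ℂ) : Matrix (Fin N) (Fin N) ℂ := ρ * Y - Y * ρ

private def Sup {N : ℕ} (deg : Fin N → ℕ) (m : ℤ) (Y : Matrix (Fin N) (Fin N) ℂ) : Prop :=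
  ∀ i j, Y i j ≠ 0 → (deg j : ℤ) + m ≤ deg i

private theorem adm_sup {N : ℕ} {deg : Fin N → ℕ} {ρ : Matrix (Fin N) (Fin N) ℂ}
    (hρ : ∀ i j, ρ i j ≠ 0 → deg i = deg j + 1) {m : ℤ} {Y : Matrix (Fin N) (Fin N) ℂ}
    (hY : Sup deg m Y) : Sup deg (m + 1) (adm ρ Y) := by
  intro i j h
  by_contra hc
  apply h
  show (ρ * Y - Y * ρ) i j = 0
  rw [Matrix.sub_apply, Matrix.mul_apply, Matrix.mul_apply]
  have h1 : ∑ k, ρ i k * Y k j = 0 := by
    refine Finset.sum_eq_zero fun k _ => ?_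
    by_contra h2
    have h3 := mul_ne_zero_iff.1 h2
    have h4 := hρ i k h3.1
    have h5 := hY k j h3.2
    apply hc
    rw [h4]
    push_cast
    linarith
  have h2 : ∑ k, Y i k * ρ k j = 0 := by
    refine Finset.sum_eq_zero fun k _ => ?_
    by_contra h2
    have h3 := mul_ne_zero_iff.1 h2
    have h4 := hρ k j h3.2
    have h5 := hY i k h3.1
    apply hc
    rw [h4] at h5
    push_cast at h5
    linarith
  rw [h1, h2, sub_zero]

private theorem adm_iter_sup {N : ℕ} {deg : Fin N → ℕ} {ρ : Matrix (Fin N) (Fin N) ℂ}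
    (hρ : ∀ i j, ρ i j ≠ 0 → deg i = deg j + 1) {m : ℤ} {Y : Matrix (Fin N) (Fin N) ℂ}
    (hY : Sup deg m Y) (k : ℕ) : Sup deg (m + k) ((adm ρ)^[k] Y) := by
  induction k with
  | zero =>
    rw [Nat.cast_zero, add_zero]
    exact hY
  | succ k ih =>
    rw [Function.iterate_succ_apply']
    have h := adm_sup hρ ih
    rw [Nat.cast_succ, ← add_assoc]
    exact h

private theorem adm_smul {N : ℕ} (ρ Y : Matrix (Fin N) (Fin N) ℂ) (a : ℂ) :
    adm ρ (a • Y) = a • adm ρ Y := by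
  unfold adm
  rw [Matrix.mul_smul, Matrix.smul_mul, smul_sub]

private theorem adm_sum {N : ℕ} (ρ : Matrix (Fin N) (Fin N) ℂ) (K : ℕ)
    (Y : ℕ → Matrix (Fin N) (Fin N) ℂ) :
    adm ρ (∑ k ∈ Finset.range K, Y k) = ∑ k ∈ Finset.range K, adm ρ (Y k) := by
  unfold adm
  rw [Matrix.mul_sum, Matrix.sum_mul, Finset.sum_sub_distrib]

private theorem adm_bound {N : ℕ} {ρ Y : Matrix (Fin N) (Fin N) ℂ} {r y : ℝ}
    (hr : ∀ i j, ‖ρ i j‖ ≤ r) (hY : ∀ i j, ‖Y i j‖ ≤ y) (i j : Fin N) :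
    ‖adm ρ Y i j‖ ≤ 2 * N * r * y := by
  have hr0 : 0 ≤ r := (norm_nonneg _).trans (hr i j)
  show ‖(ρ * Y - Y * ρ) i j‖ ≤ 2 * N * r * y
  rw [Matrix.sub_apply, Matrix.mul_apply, Matrix.mul_apply]
  have h1 : ‖∑ k, ρ i k * Y k j‖ ≤ N * (r * y) := by
    refine (norm_sum_le _ _).trans ?_
    have h2 : ∀ k ∈ (Finset.univ : Finset (Fin N)), ‖ρ i k * Y k j‖ ≤ r * y := by
      intro k _
      rw [norm_mul]
      exact mul_le_mul (hr i k) (hY k j) (norm_nonneg _) hr0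
    refine (Finset.sum_le_sum h2).trans (le_of_eq ?_)
    rw [Finset.sum_const, Finset.card_univ, Fintype.card_fin, nsmul_eq_mul]
  have h3 : ‖∑ k, Y i k * ρ k j‖ ≤ N * (r * y) := by
    refine (norm_sum_le _ _).trans ?_
    have h2 : ∀ k ∈ (Finset.univ : Finset (Fin N)), ‖Y i k * ρ k j‖ ≤ r * y := by
      intro k _
      rw [norm_mul, mul_comm]
      exact mul_le_mul (hr k j) (hY i k) (norm_nonneg _) hr0
    refine (Finset.sum_le_sum h2).trans (le_of_eq ?_)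
    rw [Finset.sum_const, Finset.card_univ, Fintype.card_fin, nsmul_eq_mul]
  refine (norm_sub_le _ _).trans ?_
  linarith

private theorem adm_iter_bound {N : ℕ} {ρ B : Matrix (Fin N) (Fin N) ℂ} {r b : ℝ}
    (hr : ∀ i j, ‖ρ i j‖ ≤ r) (hB : ∀ i j, ‖B i j‖ ≤ b) (k : ℕ) (i j : Fin N) :
    ‖(adm ρ)^[k] B i j‖ ≤ (2 * N * r) ^ k * b := by
  induction k generalizing i j with
  | zero =>
    rw [pow_zero, one_mul]
    exact hB i j
  | succ k ih =>
    rw [Function.iterate_succ_apply']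
    refine (adm_bound hr ih i j).trans (le_of_eq ?_)
    ring

theorem ad_solve {N : ℕ} (deg : Fin N → ℕ) (ρ : Matrix (Fin N) (Fin N) ℂ)
    (hρ : ∀ i j, ρ i j ≠ 0 → deg i = deg j + 1) :
    ∃ c : ℝ, 0 < c ∧ ∀ n : ℕ, 1 ≤ n → ∀ (B : Matrix (Fin N) (Fin N) ℂ) (b : ℝ),
      (∀ i j, ‖B i j‖ ≤ b) → (∀ i j, B i j ≠ 0 → deg j + 1 ≤ deg i + n) →
      ∃ H : Matrix (Fin N) (Fin N) ℂ, (n : ℂ) • H = ρ * H - H * ρ + B ∧
        (∀ i j, ‖H i j‖ ≤ c * b / n) ∧ ∀ i j, H i j ≠ 0 → deg j + 1 ≤ deg i + n := by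
  obtain ⟨s, hs⟩ : ∃ s : ℕ, ∀ i, deg i ≤ s :=
    ⟨∑ i, deg i, fun i => Finset.single_le_sum (fun _ _ => Nat.zero_le _) (Finset.mem_univ i)⟩
  obtain ⟨r, hr0, hr⟩ : ∃ r : ℝ, 0 ≤ r ∧ ∀ i j, ‖ρ i j‖ ≤ r := by
    refine ⟨∑ i, ∑ j, ‖ρ i j‖, Finset.sum_nonneg fun i _ => Finset.sum_nonneg fun j _ =>
      norm_nonneg _, fun i j => ?_⟩
    refine le_trans ?_ (Finset.single_le_sum (f := fun i => ∑ j, ‖ρ i j‖)
      (fun i _ => Finset.sum_nonneg fun j _ => norm_nonneg _) (Finset.mem_univ i))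
    exact Finset.single_le_sum (f := fun j => ‖ρ i j‖) (fun j _ => norm_nonneg _)
      (Finset.mem_univ j)
  obtain ⟨K, hK⟩ : ∃ K : ℕ, K = 2 * s + 1 := ⟨_, rfl⟩
  have hR : 0 ≤ 2 * (N : ℝ) * r := by positivity
  refine ⟨1 + ∑ k ∈ Finset.range K, (2 * (N : ℝ) * r) ^ k, ?_, ?_⟩
  · have h1 : 0 ≤ ∑ k ∈ Finset.range K, (2 * (N : ℝ) * r) ^ k :=
      Finset.sum_nonneg fun k _ => pow_nonneg hR k
    linarith
  intro n hn B b hB hsup
  have hn0 : (n : ℂ) ≠ 0 := by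
    exact_mod_cast (by omega : n ≠ 0)
  have hnR : (1 : ℝ) ≤ n := by exact_mod_cast hn
  have hzero : (adm ρ)^[K] B = 0 := by
    have h0 : Sup deg (-(s : ℤ)) B := by
      intro i j _
      have h1 : (deg j : ℤ) ≤ s := by exact_mod_cast hs j
      have h2 : (0 : ℤ) ≤ deg i := by positivity
      linarith
    have h1 := adm_iter_sup hρ h0 K
    ext i j
    rw [Matrix.zero_apply]
    by_contra h2
    have h3 := h1 i j h2
    have h4 : (deg i : ℤ) ≤ s := by exact_mod_cast hs i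
    have h5 : (0 : ℤ) ≤ deg j := by positivity
    rw [hK] at h3
    push_cast at h3
    linarith
  refine ⟨∑ k ∈ Finset.range K, ((n : ℂ)⁻¹) ^ (k + 1) • (adm ρ)^[k] B, ?_, ?_, ?_⟩
  · have h1 : (n : ℂ) • ∑ k ∈ Finset.range K, ((n : ℂ)⁻¹) ^ (k + 1) • (adm ρ)^[k] B =
        ∑ k ∈ Finset.range K, ((n : ℂ)⁻¹) ^ k • (adm ρ)^[k] B := by
      rw [Finset.smul_sum]
      refine Finset.sum_congr rfl fun k _ => ?_
      rw [smul_smul]
      congr 1
      rw [pow_succ]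
      field_simp
    have h2 : adm ρ (∑ k ∈ Finset.range K, ((n : ℂ)⁻¹) ^ (k + 1) • (adm ρ)^[k] B) =
        ∑ k ∈ Finset.range K, ((n : ℂ)⁻¹) ^ (k + 1) • (adm ρ)^[k + 1] B := by
      rw [adm_sum]
      refine Finset.sum_congr rfl fun k _ => ?_
      rw [adm_smul, Function.iterate_succ_apply']
    have h3 := Finset.sum_range_sub' (fun k => ((n : ℂ)⁻¹) ^ k • (adm ρ)^[k] B) K
    rw [hzero, smul_zero, sub_zero, pow_zero, one_smul, Finset.sum_sub_distrib] at h3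
    have h4 : (adm ρ)^[0] B = B := rfl
    rw [h4] at h3
    show (n : ℂ) • ∑ k ∈ Finset.range K, ((n : ℂ)⁻¹) ^ (k + 1) • (adm ρ)^[k] B =
      adm ρ (∑ k ∈ Finset.range K, ((n : ℂ)⁻¹) ^ (k + 1) • (adm ρ)^[k] B) + B
    rw [h1, h2]
    exact sub_eq_iff_eq_add'.1 h3
  · intro i j
    have hb : 0 ≤ b := (norm_nonneg _).trans (hB i j)
    rw [Matrix.sum_apply]
    refine (norm_sum_le _ _).trans ?_
    have h1 : ∀ k ∈ Finset.range K, ‖(((n : ℂ)⁻¹) ^ (k + 1) • (adm ρ)^[k] B) i j‖ ≤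
        (2 * (N : ℝ) * r) ^ k * b * (n : ℝ)⁻¹ := by
      intro k _
      rw [Matrix.smul_apply, norm_smul, norm_pow, norm_inv, Complex.norm_natCast, mul_comm]
      refine mul_le_mul (adm_iter_bound hr hB k i j) ?_ (by positivity)
        (mul_nonneg (pow_nonneg hR k) hb)
      rw [pow_succ]
      have h2 : ((n : ℝ)⁻¹) ^ k ≤ 1 := pow_le_one₀ (by positivity) (inv_le_one_of_one_le₀ hnR)
      have h3 : 0 ≤ (n : ℝ)⁻¹ := by positivity
      nlinarith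
    refine (Finset.sum_le_sum h1).trans ?_
    rw [← Finset.sum_mul, ← Finset.sum_mul, div_eq_mul_inv]
    apply mul_le_mul_of_nonneg_right _ (by positivity)
    apply mul_le_mul_of_nonneg_right _ hb
    linarith
  · intro i j h
    rw [Matrix.sum_apply] at h
    obtain ⟨k, -, hk⟩ := Finset.exists_ne_zero_of_sum_ne_zero h
    rw [Matrix.smul_apply, smul_eq_mul] at hk
    have h1 := (mul_ne_zero_iff.1 hk).2
    have h0 : Sup deg (1 - (n : ℤ)) B := by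
      intro i j hij
      have h2 := hsup i j hij
      have h3 : (deg j : ℤ) + 1 ≤ deg i + n := by exact_mod_cast h2
      linarith
    have h4 := adm_iter_sup hρ h0 k i j h1
    have h5 : (deg j : ℤ) + 1 ≤ deg i + n := by
      have h6 : (0 : ℤ) ≤ k := by positivity
      linarith
    exact_mod_cast h5

end Pool.Agent.DST
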