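import Pool.Agent.DST.EHol

/-!
# DST-ECal: the calibration `z^θ H(1/z) z^{-θ}` tends to `1`

PLAN. For `‖z‖ ≥ 1`: `calS deg H z i j - 1 i j = ∑'_{n ≥ 1} z^(deg j - deg i - n) H n i j` (the term `n = 0` is
`z^(deg j - deg i) (1 : Matrix) i j = (1 : Matrix) i j`), and for `H n i j ≠ 0`, `n ≥ 1` the exponent is `≤ -1`, so the norm of the
difference is `≤ ‖z‖⁻¹ ∑' n, ‖H n i j‖` (`serM_summable` at `q = 1`). The topology of matrices is the product topology
(`tendsto_pi_nhds`); `tendsto_inv₀_cobounded` or `tendsto_norm_cobounded_atTop`.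
-/

open scoped BigOperators Topology
open Filter

namespace Pool.Agent.DST

/-- The calibration attached to the coefficients `H_n`: `z^θ H(1/z) z^{-θ}`. -/
noncomputable def calS {N : ℕ} (deg : Fin N → ℕ) (H : ℕ → Matrix (Fin N) (Fin N) ℂ) (z : ℂ) :
    Matrix (Fin N) (Fin N) ℂ :=
  Matrix.of fun i j => z ^ ((deg j : ℤ) - deg i) * serM H z⁻¹ i j

theorem calS_lim {N : ℕ} {deg : Fin N → ℕ} {H : ℕ → Matrix (Fin N) (Fin N) ℂ} (h0 : H 0 = 1)
    (hdeg : ∀ n i j, 1 ≤ n → H n i j ≠ 0 → deg j + 1 ≤ deg i + n)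
    (hb : ∀ r : ℝ, 0 < r → ∃ B : ℝ, ∀ n i j, ‖H n i j‖ * r ^ n ≤ B) :
    Tendsto (calS deg H) (Bornology.cobounded ℂ) (𝓝 1) := by
  refine tendsto_pi_nhds.2 fun i => tendsto_pi_nhds.2 fun j => ?_
  have hsum : Summable fun n => ‖H n i j‖ := by
    have h := serM_summable hb 1 i j
    simpa using h
  have hsum1 : Summable fun n => ‖H (n + 1) i j‖ := (summable_nat_add_iff 1).2 hsum
  have hinv : Tendsto (fun z : ℂ => ‖z‖⁻¹ * ∑' n, ‖H (n + 1) i j‖) (Bornology.cobounded ℂ)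
      (𝓝 (0 * ∑' n, ‖H (n + 1) i j‖)) :=
    (tendsto_inv_atTop_zero.comp tendsto_norm_cobounded_atTop).mul_const _
  rw [zero_mul] at hinv
  rw [tendsto_iff_norm_sub_tendsto_zero]
  refine squeeze_zero' (Eventually.of_forall fun z => norm_nonneg _) ?_ hinv
  have hev : ∀ᶠ z : ℂ in Bornology.cobounded ℂ, 1 ≤ ‖z‖ :=
    tendsto_norm_cobounded_atTop.eventually (eventually_ge_atTop 1)
  filter_upwards [hev] with z hz
  have hz0 : z ≠ 0 := by
    rintro rfl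
    simp at hz
    linarith
  have hs : Summable fun n => z⁻¹ ^ n * H n i j := (serM_summable hb z⁻¹ i j).of_norm
  have hsplit : serM H z⁻¹ i j = H 0 i j + ∑' n, z⁻¹ ^ (n + 1) * H (n + 1) i j := by
    have h := hs.sum_add_tsum_nat_add 1
    simp only [serM, Matrix.of_apply]
    rw [← h]
    simp
  have hcal : calS deg H z i j - (1 : Matrix (Fin N) (Fin N) ℂ) i j
      = ∑' n, z ^ ((deg j : ℤ) - deg i) * (z⁻¹ ^ (n + 1) * H (n + 1) i j) := by
    rw [tsum_mul_left]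
    simp only [calS, Matrix.of_apply]
    rw [hsplit, h0, mul_add]
    by_cases hij : i = j
    · subst hij
      simp
    · rw [Matrix.one_apply_ne hij]
      simp
  have hterm : ∀ n, ‖z ^ ((deg j : ℤ) - deg i) * (z⁻¹ ^ (n + 1) * H (n + 1) i j)‖
      ≤ ‖z‖⁻¹ * ‖H (n + 1) i j‖ := by
    intro n
    by_cases hH : H (n + 1) i j = 0
    · simp [hH]
    · have hd := hdeg (n + 1) i j (by omega) hH
      rw [norm_mul, norm_mul, norm_zpow, norm_pow, norm_inv, ← mul_assoc]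
      refine mul_le_mul_of_nonneg_right ?_ (norm_nonneg _)
      have hzn : ‖z‖ ≠ 0 := by linarith
      have e1 : (‖z‖⁻¹) ^ (n + 1) = ‖z‖ ^ (-((n + 1 : ℕ) : ℤ)) := by
        rw [zpow_neg, zpow_natCast, inv_pow]
      rw [e1, ← zpow_add₀ hzn, ← zpow_neg_one]
      apply zpow_le_zpow_right₀ hz
      push_cast
      omega
  rw [hcal]
  calc ‖∑' n, z ^ ((deg j : ℤ) - deg i) * (z⁻¹ ^ (n + 1) * H (n + 1) i j)‖
      ≤ ∑' n, ‖z‖⁻¹ * ‖H (n + 1) i j‖ :=
        tsum_of_norm_bounded (hsum1.mul_left _).hasSum hterm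
    _ = ‖z‖⁻¹ * ∑' n, ‖H (n + 1) i j‖ := tsum_mul_left

end Pool.Agent.DST
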