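import Pool.Agent.DST.FEuler
import Pool.Agent.Helper18.Dub.QH

/-!
# DST-EGrad: the grading of the Euler field at a point of `H^2(X)`
-/

open scoped BigOperators Topology
open Filter

namespace Pool.Agent.DST

open Pool.Agent.Helper18.Dub Pool.Agent.Helper7.DubStokes Pool.Agent.SHF

variable {N : ℕ}

private theorem eg_inv_add (X : FanoGW (Fin N)) (h0 : ∀ i, X.period X.zero i = 0) (β : X.Curve)
    {s : Multiset (Fin N)} (hs : 3 ≤ Multiset.card s) (M : Multiset (Fin N))
    (hM : ∀ i ∈ M, X.deg i = 1) :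
    X.inv β (s + M) = (M.map (X.period β)).prod * X.inv β s := by
  by_cases hβ : β = X.zero
  · subst hβ
    rcases Multiset.empty_or_exists_mem M with h | ⟨a, ha⟩
    · subst h
      simp
    · have h1 : 4 ≤ Multiset.card (s + M) := by
        have : 0 < Multiset.card M := Multiset.card_pos_iff_exists_mem.2 ⟨a, ha⟩
        rw [Multiset.card_add]
        omega
      rw [X.degree_zero _ h1]
      have h2 : (M.map (X.period X.zero)).prod = 0 := by
        rw [Multiset.prod_eq_zero_iff]
        exact Multiset.mem_map.2 ⟨a, ha, h0 a⟩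
      rw [h2, zero_mul]
  · induction M using Multiset.induction_on with
    | empty => simp
    | cons a M ih =>
      have h1 : s + a ::ₘ M = a ::ₘ (s + M) := Multiset.add_cons a s M
      have h2 : 3 ≤ Multiset.card (s + M) := by
        rw [Multiset.card_add]
        omega
      rw [h1, X.divisor β (s + M) a hβ h2 (hM a (Multiset.mem_cons_self a M)),
        ih (fun i hi => hM i (Multiset.mem_cons_of_mem hi)), Multiset.map_cons,
        Multiset.prod_cons, mul_assoc]

private theorem eg_map_toMultiset_prod (m : Fin N →₀ ℕ) (f : Fin N → ℂ) :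
    ((Finsupp.toMultiset m).map f).prod = ∏ i, f i ^ m i := by
  rw [Finset.prod_multiset_map_count]
  rw [Finset.prod_subset (Finset.subset_univ _)]
  · exact Finset.prod_congr rfl fun i _ => by rw [Finsupp.count_toMultiset]
  · intro i _ hi
    rw [Multiset.mem_toFinset, ← Multiset.count_ne_zero, not_not] at hi
    rw [hi, pow_zero]

private theorem eg_finite_c1_le (X : FanoGW (Fin N)) (n : ℕ) : {β | X.c1 β ≤ n}.Finite := by
  have h : {β | X.c1 β ≤ n} ⊆ ⋃ k ∈ Set.Iic n, {β | X.c1 β = k} := by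
    intro β hβ
    simp only [Set.mem_iUnion]
    exact ⟨X.c1 β, hβ, rfl⟩
  exact ((Set.finite_Iic n).biUnion fun k _ => X.c1_finite k).subset h

private theorem eg_hasSum_term {X : FanoGW (Fin N)} {t : Fin N → ℂ}
    (h0 : ∀ i, X.period X.zero i = 0) (ht : ∀ i, t i ≠ 0 → X.deg i = 1)
    {s : Multiset (Fin N)} (hs : Multiset.card s = 3) :
    HasSum (term X t s) (∑ β ∈ (eg_finite_c1_le X (s.map X.deg).sum).toFinset,
      X.inv β s * Complex.exp (∑ i, t i * X.period β i)) := by
  have h1 : HasSum (fun m : Fin N →₀ ℕ => ∑ β ∈ (eg_finite_c1_le X (s.map X.deg).sum).toFinset,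
      X.inv β s * ∏ i, ((t i * X.period β i) ^ m i / ((m i).factorial : ℂ)))
      (∑ β ∈ (eg_finite_c1_le X (s.map X.deg).sum).toFinset,
        X.inv β s * Complex.exp (∑ i, t i * X.period β i)) :=
    hasSum_sum fun β _ => (hasSum_prod_exp (fun i => t i * X.period β i)).mul_left _
  convert h1 using 1
  funext m
  have h2 : term X t s m =
      X.corr (s + Finsupp.toMultiset m) / (∏ i, ((m i).factorial : ℂ)) * ∏ i, t i ^ m i := rfl
  rw [h2]
  by_cases hm : ∀ i, m i ≠ 0 → X.deg i = 1
  · have hM : ∀ i ∈ Finsupp.toMultiset m, X.deg i = 1 := by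
      intro i hi
      apply hm i
      rw [← Finsupp.count_toMultiset]
      exact Multiset.count_ne_zero.2 hi
    have h3 : X.corr (s + Finsupp.toMultiset m) =
        ∑ β ∈ (eg_finite_c1_le X (s.map X.deg).sum).toFinset, X.inv β (s + Finsupp.toMultiset m) := by
      unfold GWData.corr
      apply finsum_eq_sum_of_support_subset
      intro β hβ
      rw [Function.mem_support] at hβ
      have h4 := X.dimension β _ hβ
      rw [Multiset.map_add, Multiset.sum_add, Multiset.card_add, hs] at h4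
      have h5 : ((Finsupp.toMultiset m).map X.deg).sum = Multiset.card (Finsupp.toMultiset m) := by
        rw [Multiset.map_congr rfl hM]
        simp
      rw [h5] at h4
      rw [Set.Finite.coe_toFinset, Set.mem_ofPred_eq]
      omega
    rw [h3, Finset.sum_div, Finset.sum_mul]
    apply Finset.sum_congr rfl
    intro β _
    rw [eg_inv_add X h0 β (by omega) _ hM, eg_map_toMultiset_prod, Finset.prod_div_distrib]
    simp_rw [mul_pow]
    rw [Finset.prod_mul_distrib]
    ring
  · push Not at hm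
    obtain ⟨i, hi, hd⟩ := hm
    have hti : t i = 0 := by
      by_contra h
      exact hd (ht i h)
    have h3 : ∏ j, t j ^ m j = 0 :=
      Finset.prod_eq_zero (Finset.mem_univ i) (by rw [hti, zero_pow hi])
    rw [h3, mul_zero]
    symm
    apply Finset.sum_eq_zero
    intro β _
    have h4 : ∏ j, ((t j * X.period β j) ^ m j / ((m j).factorial : ℂ)) = 0 :=
      Finset.prod_eq_zero (Finset.mem_univ i) (by rw [hti, zero_mul, zero_pow hi, zero_div])
    rw [h4, mul_zero]

private theorem eg_card (a b l : Fin N) : Multiset.card ({a, b, l} : Multiset (Fin N)) = 3 := by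
  simp

private theorem eg_sum (X : FanoGW (Fin N)) (a b l : Fin N) :
    (({a, b, l} : Multiset (Fin N)).map X.deg).sum = X.deg a + (X.deg b + X.deg l) := by
  simp

theorem converges_h2 {X : FanoGW (Fin N)} {t : Fin N → ℂ} (h0 : ∀ i, X.period X.zero i = 0)
    (ht : ∀ i, t i ≠ 0 → X.deg i = 1) : ConvergesAt X t :=
  fun a b c => (eg_hasSum_term h0 ht (eg_card a b c)).summable

private theorem eg_split (X : FanoGW (Fin N)) (f : X.Curve → ℂ) {n K : ℕ}
    (hn : ∀ β, f β ≠ 0 → X.c1 β ≤ n) (hK : ∀ β, f β ≠ 0 → X.c1 β ≤ K) :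
    ∑ β ∈ (eg_finite_c1_le X n).toFinset, f β =
      ∑ d ∈ Finset.range (K + 1), ∑ β ∈ (X.c1_finite d).toFinset, f β := by
  classical
  have h1 : ∑ β ∈ (eg_finite_c1_le X n).toFinset, f β = ∑ᶠ β, f β := by
    symm
    apply finsum_eq_sum_of_support_subset
    intro β hβ
    rw [Set.Finite.coe_toFinset]
    exact hn β (Function.mem_support.1 hβ)
  have h2 : ∑ β ∈ (eg_finite_c1_le X K).toFinset, f β = ∑ᶠ β, f β := by
    symm
    apply finsum_eq_sum_of_support_subset
    intro β hβ
    rw [Set.Finite.coe_toFinset]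
    exact hK β (Function.mem_support.1 hβ)
  rw [h1, ← h2, ← Finset.sum_fiberwise_of_maps_to (g := X.c1) (t := Finset.range (K + 1))]
  · apply Finset.sum_congr rfl
    intro d hd
    have hd' : d ≤ K := Nat.lt_succ_iff.1 (Finset.mem_range.1 hd)
    apply Finset.sum_congr _ fun _ _ => rfl
    ext β
    rw [Finset.mem_filter, Set.Finite.mem_toFinset, Set.Finite.mem_toFinset]
    constructor
    · rintro ⟨_, h⟩
      exact h
    · intro h
      have h' : X.c1 β = d := h
      exact ⟨by rw [Set.mem_ofPred_eq, h']; exact hd', h'⟩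
  · intro β hβ
    rw [Set.Finite.mem_toFinset, Set.mem_ofPred_eq] at hβ
    exact Finset.mem_range.2 (Nat.lt_succ_iff.2 hβ)

theorem euler_grading {X : FanoGW (Fin N)} {t : Fin N → ℂ} (h0 : ∀ i, X.period X.zero i = 0)
    (ht : ∀ i, t i ≠ 0 → X.deg i = 1) :
    ∃ (C : ℕ → Matrix (Fin N) (Fin N) ℂ) (K : ℕ), C 0 = X.cupMat ∧
      (∀ d i j, C d i j ≠ 0 → X.deg i + d = X.deg j + 1) ∧ (∀ d, K < d → C d = 0) ∧
      eulerMat X t = ∑ d ∈ Finset.range (K + 1), C d := by
  obtain ⟨M, hM⟩ : ∃ M : ℕ, ∀ i, X.deg i ≤ M :=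
    ⟨∑ i, X.deg i, fun i => Finset.single_le_sum (f := X.deg) (fun _ _ => Nat.zero_le _)
      (Finset.mem_univ i)⟩
  obtain ⟨E, hE⟩ : ∃ E : X.Curve → ℂ, ∀ β, E β = Complex.exp (∑ i, t i * X.period β i) :=
    ⟨_, fun _ => rfl⟩
  obtain ⟨C, hC⟩ : ∃ C : ℕ → Matrix (Fin N) (Fin N) ℂ, ∀ d k b, C d k b =
      ∑ a, X.chern a * ∑ l, X.pair⁻¹ k l *
        ∑ β ∈ (X.c1_finite d).toFinset, X.inv β {a, b, l} * E β :=
    ⟨fun d => Matrix.of fun k b => ∑ a, X.chern a * ∑ l, X.pair⁻¹ k l *
      ∑ β ∈ (X.c1_finite d).toFinset, X.inv β {a, b, l} * E β, fun _ _ _ => rfl⟩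
  have hdim : ∀ β a b l, X.inv β {a, b, l} ≠ 0 →
      X.deg a + (X.deg b + X.deg l) = X.dim + X.c1 β := by
    intro β a b l h
    have h1 := X.dimension β {a, b, l} h
    rw [eg_sum, eg_card] at h1
    omega
  have hdeg : ∀ d i j, C d i j ≠ 0 → X.deg i + d = X.deg j + 1 := by
    intro d i j h
    rw [hC] at h
    obtain ⟨a, _, ha⟩ := Finset.exists_ne_zero_of_sum_ne_zero h
    have ha1 := X.chern_deg a (left_ne_zero_of_mul ha)
    obtain ⟨l, _, hl⟩ := Finset.exists_ne_zero_of_sum_ne_zero (right_ne_zero_of_mul ha)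
    have hl1 := X.pairInv_deg i l (left_ne_zero_of_mul hl)
    obtain ⟨β, hβ, hb⟩ := Finset.exists_ne_zero_of_sum_ne_zero (right_ne_zero_of_mul hl)
    have hb1 := hdim β a j l (left_ne_zero_of_mul hb)
    rw [Set.Finite.mem_toFinset, Set.mem_ofPred_eq] at hβ
    have hb2 : X.c1 β = d := hβ
    omega
  refine ⟨C, 3 * M + 1, ?_, hdeg, ?_, ?_⟩
  · ext k b
    rw [hC]
    unfold FanoGW.cupMat
    rw [Matrix.of_apply]
    apply Finset.sum_congr rfl
    intro a _
    congr 1
    apply Finset.sum_congr rfl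
    intro l _
    congr 1
    rw [Finset.sum_eq_single X.zero]
    · rw [hE]
      simp [h0]
    · intro β hβ hne
      rw [Set.Finite.mem_toFinset, Set.mem_ofPred_eq] at hβ
      exact absurd ((X.c1_eq_zero β).1 hβ) hne
    · intro hne
      rw [Set.Finite.mem_toFinset, Set.mem_ofPred_eq] at hne
      exact absurd ((X.c1_eq_zero X.zero).2 rfl) hne
  · intro d hd
    ext i j
    by_contra hne
    have h1 := hdeg d i j hne
    have h2 := hM j
    omega
  · ext k b
    rw [Matrix.sum_apply]
    simp_rw [hC]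
    rw [Finset.sum_comm]
    unfold eulerMat
    rw [Matrix.of_apply]
    apply Finset.sum_congr rfl
    intro a _
    have h1 : (1 - (X.deg a : ℂ)) * t a = 0 := by
      by_cases h : t a = 0
      · rw [h, mul_zero]
      · rw [ht a h]
        simp
    rw [h1, add_zero, ← Finset.mul_sum]
    congr 1
    rw [Finset.sum_comm]
    apply Finset.sum_congr rfl
    intro l _
    rw [← Finset.mul_sum]
    congr 1
    rw [(eg_hasSum_term h0 ht (eg_card a b l)).tsum_eq]
    simp_rw [← hE]
    apply eg_split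
    · intro β hβ
      have h2 := hdim β a b l (left_ne_zero_of_mul hβ)
      rw [eg_sum]
      omega
    · intro β hβ
      have h2 := hdim β a b l (left_ne_zero_of_mul hβ)
      have h3 := hM a
      have h4 := hM b
      have h5 := hM l
      omega

end Pool.Agent.DST
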