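import Pool.Agent.DST.ECal

/-!
# DST-ESol: the calibrated solution

The calibrated function has the entries `∑_k e^{w (c - deg i)} S_ik(e^{-w}) X_kj(w)`, `S = serM H`,
`X = exp (-w C 0)`. The derivatives of the three factors are given by `serM_deriv` and the derivative of the
matrix exponential; the homogeneity of `C d` moves the factor `e^{w (c - deg i)}` through `∑ q^d C d`.
-/

open scoped BigOperators Topology
open Filter

namespace Pool.Agent.DST

section
open scoped Matrix.Norms.Operator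

private theorem esol_exp' {N : ℕ} (M : Matrix (Fin N) (Fin N) ℂ) (w : ℂ) (k j : Fin N) :
    HasDerivAt (fun w : ℂ => NormedSpace.exp (-w • M) k j)
      (-((M * NormedSpace.exp (-w • M)) k j)) w := by
  have h1 : HasDerivAt (fun u : ℂ => NormedSpace.exp (u • M))
      (M * NormedSpace.exp ((-w) • M)) (-w) := hasDerivAt_exp_smul_const' M (-w)
  have h2 := h1.scomp w (hasDerivAt_neg w)
  have h3 := hasDerivAt_pi.1 (hasDerivAt_pi.1 h2 k) j
  refine h3.congr_deriv ?_
  show (-1 : ℂ) * ((M * NormedSpace.exp ((-w) • M)) k j) = _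
  rw [neg_one_mul]

end

private theorem esol_exp {N : ℕ} (M : Matrix (Fin N) (Fin N) ℂ) (w : ℂ) (k j : Fin N) :
    HasDerivAt (fun w : ℂ => NormedSpace.exp (-w • M) k j)
      (-((M * NormedSpace.exp (-w • M)) k j)) w := esol_exp' M w k j

/-- the entries of the first two factors -/
private theorem esol_entry {N : ℕ} (deg : Fin N → ℕ) (H : ℕ → Matrix (Fin N) (Fin N) ℂ)
    (c w : ℂ) (i k : Fin N) :
    (calS deg H (Complex.exp w) *
        NormedSpace.exp (w • Matrix.diagonal fun a => c - (deg a : ℂ))) i k =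
      Complex.exp (w * (c - deg i)) * serM H (Complex.exp (-w)) i k := by
  have h1 : w • Matrix.diagonal (fun a => c - (deg a : ℂ)) =
      Matrix.diagonal fun a => w * (c - (deg a : ℂ)) := by
    rw [← Matrix.diagonal_smul]
    rfl
  have h2 : NormedSpace.exp (w • Matrix.diagonal fun a => c - (deg a : ℂ)) =
      Matrix.diagonal fun a => Complex.exp (w * (c - (deg a : ℂ))) := by
    rw [h1, Matrix.exp_diagonal]
    congr 1
    funext a
    rw [Pi.coe_exp, Complex.exp_eq_exp_ℂ]
  rw [h2, Matrix.mul_diagonal]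
  show Complex.exp w ^ ((deg k : ℤ) - deg i) * serM H (Complex.exp w)⁻¹ i k * _ = _
  rw [← Complex.exp_neg, ← Complex.exp_int_mul, mul_right_comm, ← Complex.exp_add]
  congr 2
  push_cast
  ring

private theorem esol_fun {N : ℕ} (deg : Fin N → ℕ) (H : ℕ → Matrix (Fin N) (Fin N) ℂ)
    (X : Matrix (Fin N) (Fin N) ℂ) (c w : ℂ) (i j : Fin N) :
    (calS deg H (Complex.exp w) *
        NormedSpace.exp (w • Matrix.diagonal fun a => c - (deg a : ℂ)) * X) i j =
      Complex.exp (w * (c - deg i)) * (serM H (Complex.exp (-w)) * X) i j := by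
  rw [Matrix.mul_apply, Matrix.mul_apply, Finset.mul_sum]
  refine Finset.sum_congr rfl fun k _ => ?_
  rw [esol_entry, mul_assoc]

theorem calS_sol {N : ℕ} {deg : Fin N → ℕ} {C : ℕ → Matrix (Fin N) (Fin N) ℂ}
    (hC : ∀ d i j, C d i j ≠ 0 → deg i + d = deg j + 1) {K : ℕ} (hK : ∀ d, K < d → C d = 0)
    {H : ℕ → Matrix (Fin N) (Fin N) ℂ}
    (hrec : ∀ n : ℕ, (n : ℂ) • H n =
        ∑ p ∈ Finset.HasAntidiagonal.antidiagonal n, C p.1 * H p.2 - H n * C 0)
    (hb : ∀ r : ℝ, 0 < r → ∃ B : ℝ, ∀ n i j, ‖H n i j‖ * r ^ n ≤ B) (c w : ℂ) (i j : Fin N) :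
    HasDerivAt (fun w => (calS deg H (Complex.exp w) *
        NormedSpace.exp (w • Matrix.diagonal fun a => c - (deg a : ℂ)) *
        NormedSpace.exp (-w • C 0)) i j)
      (((Matrix.diagonal (fun a => c - (deg a : ℂ)) -
          Complex.exp (-w) • ∑ d ∈ Finset.range (K + 1), C d) *
        (calS deg H (Complex.exp w) *
          NormedSpace.exp (w • Matrix.diagonal fun a => c - (deg a : ℂ)) *
          NormedSpace.exp (-w • C 0))) i j) w := by
  obtain ⟨X, hX⟩ : ∃ X : ℂ → Matrix (Fin N) (Fin N) ℂ,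
      X = fun w => NormedSpace.exp (-w • C 0) := ⟨_, rfl⟩
  obtain ⟨q, hq⟩ : ∃ q, q = Complex.exp (-w) := ⟨_, rfl⟩
  obtain ⟨S, hS⟩ : ∃ S, S = serM H q := ⟨_, rfl⟩
  obtain ⟨A, hA⟩ : ∃ A : Matrix (Fin N) (Fin N) ℂ,
      A = ∑ d ∈ Finset.range (K + 1), q ^ d • C d := ⟨_, rfl⟩
  have hXd : ∀ k, HasDerivAt (fun w => X w k j) (-((C 0 * X w) k j)) w := fun k => by
    rw [hX]
    exact esol_exp (C 0) w k j
  have hSd : ∀ k, HasDerivAt (fun w => serM H (Complex.exp (-w)) i k)
      (-((A * S - S * C 0) i k)) w := by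
    intro k
    obtain ⟨D, h1, h2⟩ := serM_deriv hb hK hrec q i k
    have h3 : HasDerivAt (fun w : ℂ => Complex.exp (-w)) (-q) w := by
      have h4 := (hasDerivAt_neg w).cexp
      refine h4.congr_deriv ?_
      rw [hq]
      ring
    rw [hq] at h1
    have h5 := HasDerivAt.comp w h1 h3
    refine h5.congr_deriv ?_
    rw [hA, hS, ← h2]
    ring
  have hEd : HasDerivAt (fun w : ℂ => Complex.exp (w * (c - deg i)))
      ((c - deg i) * Complex.exp (w * (c - deg i))) w := by
    have h4 := ((hasDerivAt_id w).mul_const (c - (deg i : ℂ))).cexp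
    refine h4.congr_deriv ?_
    simp only [id_eq, one_mul]
    ring
  have hsum : HasDerivAt (fun w => ∑ k, serM H (Complex.exp (-w)) i k * X w k j)
      (∑ k, (-((A * S - S * C 0) i k) * X w k j + serM H (Complex.exp (-w)) i k *
        (-((C 0 * X w) k j)))) w :=
    HasDerivAt.fun_sum fun k _ => (hSd k).mul (hXd k)
  have hall := hEd.mul hsum
  have hfun : (fun w => (calS deg H (Complex.exp w) *
        NormedSpace.exp (w • Matrix.diagonal fun a => c - (deg a : ℂ)) *
        NormedSpace.exp (-w • C 0)) i j) =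
      fun w => Complex.exp (w * (c - deg i)) * ∑ k, serM H (Complex.exp (-w)) i k * X w k j := by
    funext w
    rw [esol_fun, Matrix.mul_apply, hX]
  rw [hfun]
  refine hall.congr_deriv ?_
  -- the derivative of the sum
  have h1 : ∑ k, (-((A * S - S * C 0) i k) * X w k j + serM H (Complex.exp (-w)) i k *
        (-((C 0 * X w) k j))) = -((A * S * X w) i j) := by
    rw [← hq, ← hS]
    have h2 : ∑ k, (-((A * S - S * C 0) i k) * X w k j + S i k * (-((C 0 * X w) k j))) =
        -(((A * S - S * C 0) * X w) i j + (S * (C 0 * X w)) i j) := by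
      rw [Matrix.mul_apply, Matrix.mul_apply (M := S), ← Finset.sum_add_distrib,
        ← Finset.sum_neg_distrib]
      refine Finset.sum_congr rfl fun k _ => ?_
      ring
    rw [h2, ← Matrix.add_apply, sub_mul, mul_assoc S, sub_add_cancel]
  rw [h1, ← Matrix.mul_apply, ← hq, ← hS]
  -- the right hand side
  have h3 : ∀ k, (calS deg H (Complex.exp w) *
      NormedSpace.exp (w • Matrix.diagonal fun a => c - (deg a : ℂ)) *
      NormedSpace.exp (-w • C 0)) k j =
      Complex.exp (w * (c - deg k)) * (S * X w) k j := by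
    intro k
    rw [esol_fun, hX, hS, hq]
  have h4 : ∀ k, Complex.exp (w * (c - deg i)) * A i k =
      q * (∑ d ∈ Finset.range (K + 1), C d) i k * Complex.exp (w * (c - deg k)) := by
    intro k
    rw [hA, Matrix.sum_apply, Matrix.sum_apply, Finset.mul_sum, Finset.mul_sum, Finset.sum_mul]
    refine Finset.sum_congr rfl fun d _ => ?_
    rw [Matrix.smul_apply, smul_eq_mul]
    by_cases h5 : C d i k = 0
    · rw [h5, mul_zero, mul_zero, mul_zero, zero_mul]
    · have h6 := hC d i k h5
      have h7 : (deg i : ℂ) + d = deg k + 1 := by exact_mod_cast h6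
      have h8 : Complex.exp (w * (c - deg i)) * q ^ d = q * Complex.exp (w * (c - deg k)) := by
        rw [hq, ← Complex.exp_nat_mul, ← Complex.exp_add, ← Complex.exp_add]
        congr 1
        have h9 : (deg i : ℂ) = deg k + 1 - d := by
          rw [← h7]
          ring
        rw [h9]
        ring
      rw [← mul_assoc, h8]
      ring
  obtain ⟨Z, hZ⟩ : ∃ Z, Z = calS deg H (Complex.exp w) *
      NormedSpace.exp (w • Matrix.diagonal fun a => c - (deg a : ℂ)) *
      NormedSpace.exp (-w • C 0) := ⟨_, rfl⟩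
  obtain ⟨B, hB⟩ : ∃ B, B = ∑ d ∈ Finset.range (K + 1), C d := ⟨_, rfl⟩
  rw [← hZ, ← hB]
  simp only [← hZ, ← hB] at h3 h4
  have h10 : ((Matrix.diagonal (fun a => c - (deg a : ℂ)) - q • B) * Z) i j =
      (c - deg i) * Z i j - q * ∑ k, B i k * Z k j := by
    rw [Matrix.sub_mul, Matrix.sub_apply, Matrix.diagonal_mul, Matrix.smul_mul, Matrix.smul_apply,
      smul_eq_mul, Matrix.mul_apply]
  have h11 : Complex.exp (w * (c - deg i)) * (A * S * X w) i j = q * ∑ k, B i k * Z k j := by
    rw [mul_assoc A, Matrix.mul_apply, Finset.mul_sum, Finset.mul_sum]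
    refine Finset.sum_congr rfl fun k _ => ?_
    rw [h3 k, ← mul_assoc, h4 k]
    ring
  rw [h10, ← h11, h3 i]
  ring

end Pool.Agent.DST
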