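import Pool.Agent.DST.EFrob
import Pool.Agent.DST.ESol
import Pool.Agent.DST.EGrad

/-!
# DST-ECalT: the calibration at a point of `H^2(X)`
-/

open scoped BigOperators Topology
open Filter

namespace Pool.Agent.DST

open Pool.Agent.Helper18.Dub Pool.Agent.Helper7.DubStokes Pool.Agent.SHF

variable {N : ℕ}

theorem exists_cal {X : FanoGW (Fin N)} {t : Fin N → ℂ} (h0 : ∀ i, X.period X.zero i = 0)
    (ht : ∀ i, t i ≠ 0 → X.deg i = 1) :
    ∃ 𝒮 : ℂ → Matrix (Fin N) (Fin N) ℂ, Tendsto 𝒮 (Bornology.cobounded ℂ) (𝓝 1) ∧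
      IsSolution X t (zSol X 𝒮) := by
  obtain ⟨C, K, hC0, hC, hK, hE⟩ := euler_grading h0 ht
  obtain ⟨H, hH0, hrec, hdeg, hb⟩ := exists_frob X.deg C hC
  refine ⟨calS X.deg H, calS_lim hH0 hdeg hb, ?_⟩
  intro w i j
  have h1 := calS_sol hC hK hrec hb ((X.dim : ℂ) / 2) w i j
  rw [hC0, ← hE] at h1
  exact h1

end Pool.Agent.DST
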