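import Mathlib

/-!
# DST-EPsi: normalised eigenvectors of a self-adjoint matrix with distinct eigenvalues

PLAN. Mathlib only. For each `i` a vector `v i ≠ 0` with `E v_i = u_i v_i` (`det (u_i - E) = 0`:
`Matrix.exists_mulVec_eq_zero_iff`; `Matrix.eval_charpoly`). Self-adjointness: `u_i (v_i, v_j) = (E v_i, v_j) = (v_i, E v_j) = u_j (v_i, v_j)`,
so `(v_i, v_j) = v_i ⬝ᵥ g v_j = 0` for `i ≠ j`. The `v_i` are linearly independent (`Module.End.eigenvectors_linearIndependent`), so
the matrix `V` with columns `v_i` is invertible, `Vᵀ g V` is diagonal and invertible, so `d_i = (v_i, v_i) ≠ 0`. With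
`s_i ^ 2 = d_i` (`IsSquare`/`IsAlgClosed.exists_pow_nat_eq`), `Ψ = V * diagonal (s_i⁻¹)`.
-/

open scoped BigOperators Topology

namespace Pool.Agent.DST

theorem exists_psi {N : ℕ} (E g : Matrix (Fin N) (Fin N) ℂ) (hg : g.det ≠ 0)
    (hself : E.transpose * g = g * E) (u : Fin N → ℂ) (hu : Function.Injective u)
    (hroot : ∀ i, E.charpoly.IsRoot (u i)) :
    ∃ Ψ : Matrix (Fin N) (Fin N) ℂ, E * Ψ = Ψ * Matrix.diagonal u ∧
      Ψ.transpose * g * Ψ = 1 := by
  classical
  have hv : ∀ i, ∃ v : Fin N → ℂ, v ≠ 0 ∧ E.mulVec v = u i • v := by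
    intro i
    have h0 : (Matrix.scalar (Fin N) (u i) - E).det = 0 := by
      rw [← Matrix.eval_charpoly]; exact hroot i
    obtain ⟨v, hv0, hv1⟩ := Matrix.exists_mulVec_eq_zero_iff.mpr h0
    refine ⟨v, hv0, ?_⟩
    rw [Matrix.sub_mulVec, sub_eq_zero] at hv1
    rw [← hv1]
    ext a
    simp [Matrix.scalar_apply, Matrix.mulVec_diagonal]
  choose v hv0 hv1 using hv
  have hlin : LinearIndependent ℂ v := by
    apply Module.End.eigenvectors_linearIndependent' (Matrix.toLin' E) u hu v
    intro i
    rw [Module.End.hasEigenvector_iff, Module.End.mem_eigenspace_iff]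
    exact ⟨by rw [Matrix.toLin'_apply]; exact hv1 i, hv0 i⟩
  obtain ⟨A, hA⟩ : ∃ A : Matrix (Fin N) (Fin N) ℂ, A = Matrix.of v := ⟨_, rfl⟩
  have hAu : IsUnit A := by
    rw [← Matrix.linearIndependent_rows_iff_isUnit, hA]
    exact hlin
  have hdetA : A.det ≠ 0 := ((Matrix.isUnit_iff_isUnit_det A).mp hAu).ne_zero
  have hAE : A * E.transpose = Matrix.diagonal u * A := by
    ext i j
    rw [Matrix.diagonal_mul, Matrix.mul_apply]
    have := congrFun (hv1 i) j
    rw [hA]
    simp only [Matrix.of_apply, Matrix.transpose_apply, Pi.smul_apply, smul_eq_mul] at this ⊢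
    rw [← this, Matrix.mulVec, dotProduct]
    exact Finset.sum_congr rfl fun k _ => mul_comm _ _
  have hEA : E * A.transpose = A.transpose * Matrix.diagonal u := by
    have := congrArg Matrix.transpose hAE
    rwa [Matrix.transpose_mul, Matrix.transpose_mul, Matrix.transpose_transpose,
      Matrix.diagonal_transpose] at this
  obtain ⟨D, hD⟩ : ∃ D : Matrix (Fin N) (Fin N) ℂ, D = A * g * A.transpose := ⟨_, rfl⟩
  have hcomm : Matrix.diagonal u * D = D * Matrix.diagonal u := by
    calc Matrix.diagonal u * D = (Matrix.diagonal u * A) * g * A.transpose := by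
          rw [hD]; simp only [Matrix.mul_assoc]
      _ = A * (E.transpose * g) * A.transpose := by rw [← hAE]; simp only [Matrix.mul_assoc]
      _ = A * g * (E * A.transpose) := by rw [hself]; simp only [Matrix.mul_assoc]
      _ = D * Matrix.diagonal u := by rw [hEA, hD]; simp only [Matrix.mul_assoc]
  have hoff : ∀ i j, i ≠ j → D i j = 0 := by
    intro i j hij
    have h1 := congrFun (congrFun hcomm i) j
    rw [Matrix.diagonal_mul, Matrix.mul_diagonal] at h1
    have h2 : (u i - u j) * D i j = 0 := by linear_combination h1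
    rcases mul_eq_zero.mp h2 with h | h
    · exact absurd (hu (sub_eq_zero.mp h)) hij
    · exact h
  have hDd : D = Matrix.diagonal (fun i => D i i) := by
    ext i j
    by_cases hij : i = j
    · subst hij; rw [Matrix.diagonal_apply_eq]
    · rw [Matrix.diagonal_apply_ne _ hij, hoff i j hij]
  have hdetD : D.det ≠ 0 := by
    rw [hD, Matrix.det_mul, Matrix.det_mul, Matrix.det_transpose]
    exact mul_ne_zero (mul_ne_zero hdetA hg) hdetA
  have hd : ∀ i, D i i ≠ 0 := by
    rw [hDd, Matrix.det_diagonal] at hdetD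
    intro i hi
    exact hdetD (Finset.prod_eq_zero (Finset.mem_univ i) hi)
  have hsq : ∀ i, ∃ s : ℂ, s ^ 2 = D i i := fun i =>
    IsAlgClosed.exists_pow_nat_eq (D i i) (by norm_num)
  choose s hs using hsq
  have hs0 : ∀ i, s i ≠ 0 := by
    intro i h
    apply hd i
    rw [← hs i, h]; ring
  refine ⟨A.transpose * Matrix.diagonal (fun i => (s i)⁻¹), ?_, ?_⟩
  · calc E * (A.transpose * Matrix.diagonal (fun i => (s i)⁻¹))
        = A.transpose * (Matrix.diagonal u * Matrix.diagonal (fun i => (s i)⁻¹)) := by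
          rw [← Matrix.mul_assoc, hEA, Matrix.mul_assoc]
      _ = A.transpose * (Matrix.diagonal (fun i => (s i)⁻¹) * Matrix.diagonal u) := by
          rw [Matrix.diagonal_mul_diagonal, Matrix.diagonal_mul_diagonal]
          congr 2
          ext i
          exact mul_comm _ _
      _ = A.transpose * Matrix.diagonal (fun i => (s i)⁻¹) * Matrix.diagonal u := by
          rw [Matrix.mul_assoc]
  · rw [Matrix.transpose_mul, Matrix.transpose_transpose, Matrix.diagonal_transpose]
    calc Matrix.diagonal (fun i => (s i)⁻¹) * A * g *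
          (A.transpose * Matrix.diagonal (fun i => (s i)⁻¹))
        = Matrix.diagonal (fun i => (s i)⁻¹) * D * Matrix.diagonal (fun i => (s i)⁻¹) := by
          rw [hD]; simp only [Matrix.mul_assoc]
      _ = 1 := by
          rw [hDd, Matrix.diagonal_mul_diagonal, Matrix.diagonal_mul_diagonal]
          rw [← Matrix.diagonal_one]
          congr 1
          ext i
          have := hs0 i
          rw [← hs i]
          field_simp

end Pool.Agent.DST
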