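import Pool.Agent.DST.EAd

/-!
# DST-EFrob: the Frobenius method at `q = 0`

`ad_solve` for `ρ = C 0` gives a solution operator `S n B` of `n H = ρ H - H ρ + B`. Put `H 0 = 1` and
`H n = S n (∑ k < n, C (n - k) * H k)` (`Hs`). The support property is preserved because
`C d i l ≠ 0` gives `deg i + d = deg l + 1`. With `nm X = ∑ ‖X i j‖` (submultiplicative) one has
`nm (H n) r^n ≤ (m / n) max_{k < n} nm (H k) r^k`, `m = N² c ∑_d nm (C d) r^d` (a finite sum), which gives
the bound by strong induction.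
-/

open scoped BigOperators Topology
open Filter

namespace Pool.Agent.DST

private noncomputable def nm {N : ℕ} (X : Matrix (Fin N) (Fin N) ℂ) : ℝ := ∑ i, ∑ j, ‖X i j‖

private theorem nm_nonneg {N : ℕ} (X : Matrix (Fin N) (Fin N) ℂ) : 0 ≤ nm X :=
  Finset.sum_nonneg fun _ _ => Finset.sum_nonneg fun _ _ => norm_nonneg _

private theorem le_nm {N : ℕ} (X : Matrix (Fin N) (Fin N) ℂ) (i j : Fin N) : ‖X i j‖ ≤ nm X := by
  refine le_trans ?_ (Finset.single_le_sum (f := fun i => ∑ j, ‖X i j‖)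
    (fun i _ => Finset.sum_nonneg fun _ _ => norm_nonneg _) (Finset.mem_univ i))
  exact Finset.single_le_sum (f := fun j => ‖X i j‖) (fun j _ => norm_nonneg _) (Finset.mem_univ j)

private theorem nm_le {N : ℕ} (X : Matrix (Fin N) (Fin N) ℂ) {b : ℝ} (h : ∀ i j, ‖X i j‖ ≤ b) :
    nm X ≤ (N : ℝ) ^ 2 * b := by
  calc nm X ≤ ∑ _i : Fin N, ∑ _j : Fin N, b := Finset.sum_le_sum fun i _ => Finset.sum_le_sum fun j _ => h i j
    _ = (N : ℝ) ^ 2 * b := by simp; ring

private theorem nm_zero {N : ℕ} : nm (0 : Matrix (Fin N) (Fin N) ℂ) = 0 := by simp [nm]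

private theorem nm_add {N : ℕ} (X Y : Matrix (Fin N) (Fin N) ℂ) : nm (X + Y) ≤ nm X + nm Y := by
  unfold nm
  rw [← Finset.sum_add_distrib]
  refine Finset.sum_le_sum fun i _ => ?_
  rw [← Finset.sum_add_distrib]
  exact Finset.sum_le_sum fun j _ => norm_add_le _ _

private theorem nm_sum {N : ℕ} {ι : Type*} (s : Finset ι) (f : ι → Matrix (Fin N) (Fin N) ℂ) :
    nm (∑ k ∈ s, f k) ≤ ∑ k ∈ s, nm (f k) := by
  classical
  induction s using Finset.induction_on with
  | empty => simp [nm_zero]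
  | insert a s ha ih =>
    rw [Finset.sum_insert ha, Finset.sum_insert ha]
    exact (nm_add _ _).trans (add_le_add_right ih _)

private theorem nm_mul {N : ℕ} (X Y : Matrix (Fin N) (Fin N) ℂ) : nm (X * Y) ≤ nm X * nm Y := by
  have h1 : ∀ i, ∑ j, ‖(X * Y) i j‖ ≤ ∑ l, ‖X i l‖ * nm Y := by
    intro i
    calc ∑ j, ‖(X * Y) i j‖ ≤ ∑ j, ∑ l, ‖X i l‖ * ‖Y l j‖ := by
          refine Finset.sum_le_sum fun j _ => ?_
          rw [Matrix.mul_apply]
          refine (norm_sum_le _ _).trans (le_of_eq ?_)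
          exact Finset.sum_congr rfl fun l _ => norm_mul _ _
      _ = ∑ l, ‖X i l‖ * ∑ j, ‖Y l j‖ := by
          rw [Finset.sum_comm]
          exact Finset.sum_congr rfl fun l _ => (Finset.mul_sum _ _ _).symm
      _ ≤ ∑ l, ‖X i l‖ * nm Y := by
          refine Finset.sum_le_sum fun l _ => mul_le_mul_of_nonneg_left ?_ (norm_nonneg _)
          exact Finset.single_le_sum (f := fun l => ∑ j, ‖Y l j‖)
            (fun i _ => Finset.sum_nonneg fun _ _ => norm_nonneg _) (Finset.mem_univ l)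
  calc nm (X * Y) ≤ ∑ i, ∑ l, ‖X i l‖ * nm Y := Finset.sum_le_sum fun i _ => h1 i
    _ = nm X * nm Y := by
        unfold nm
        rw [Finset.sum_mul]
        exact Finset.sum_congr rfl fun i _ => (Finset.sum_mul _ _ _).symm

/-- the coefficients. -/
private noncomputable def Hs {N : ℕ} (C : ℕ → Matrix (Fin N) (Fin N) ℂ)
    (S : ℕ → Matrix (Fin N) (Fin N) ℂ → Matrix (Fin N) (Fin N) ℂ) : ℕ → Matrix (Fin N) (Fin N) ℂ
  | 0 => 1
  | n + 1 => S (n + 1) (∑ k : Fin (n + 1), C (n + 1 - k) * Hs C S k)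
decreasing_by exact k.2

private theorem Hs_zero {N : ℕ} (C : ℕ → Matrix (Fin N) (Fin N) ℂ)
    (S : ℕ → Matrix (Fin N) (Fin N) ℂ → Matrix (Fin N) (Fin N) ℂ) : Hs C S 0 = 1 := by rw [Hs]

private theorem Hs_pos {N : ℕ} (C : ℕ → Matrix (Fin N) (Fin N) ℂ)
    (S : ℕ → Matrix (Fin N) (Fin N) ℂ → Matrix (Fin N) (Fin N) ℂ) {n : ℕ} (hn : 1 ≤ n) :
    Hs C S n = S n (∑ k ∈ Finset.range n, C (n - k) * Hs C S k) := by
  obtain ⟨m, rfl⟩ : ∃ m, n = m + 1 := ⟨n - 1, by omega⟩
  rw [Hs, Finset.sum_range]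

private theorem sum_split {N : ℕ} (C H : ℕ → Matrix (Fin N) (Fin N) ℂ) (n : ℕ) :
    ∑ p ∈ Finset.HasAntidiagonal.antidiagonal n, C p.1 * H p.2 =
      C 0 * H n + ∑ k ∈ Finset.range n, C (n - k) * H k := by
  have h1 := Finset.Nat.sum_antidiagonal_eq_sum_range_succ (fun a b => C b * H a) n
  have h2 : ∑ p ∈ Finset.HasAntidiagonal.antidiagonal n, C p.1 * H p.2 =
      ∑ p ∈ Finset.HasAntidiagonal.antidiagonal n, C p.2 * H p.1 := by
    exact Finset.Nat.sum_antidiagonal_swap (f := fun p : ℕ × ℕ => C p.2 * H p.1)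
  rw [h2, h1, Finset.sum_range_succ, Nat.sub_self, add_comm]

theorem exists_frob {N : ℕ} (deg : Fin N → ℕ) (C : ℕ → Matrix (Fin N) (Fin N) ℂ)
    (hC : ∀ d i j, C d i j ≠ 0 → deg i + d = deg j + 1) :
    ∃ H : ℕ → Matrix (Fin N) (Fin N) ℂ, H 0 = 1 ∧
      (∀ n : ℕ, (n : ℂ) • H n =
        ∑ p ∈ Finset.HasAntidiagonal.antidiagonal n, C p.1 * H p.2 - H n * C 0) ∧
      (∀ n i j, 1 ≤ n → H n i j ≠ 0 → deg j + 1 ≤ deg i + n) ∧
      ∀ r : ℝ, 0 < r → ∃ B : ℝ, ∀ n i j, ‖H n i j‖ * r ^ n ≤ B := by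
  obtain ⟨c, hc, hsol⟩ := ad_solve deg (C 0) (fun i j h => by have := hC 0 i j h; omega)
  have hS : ∀ (n : ℕ) (B : Matrix (Fin N) (Fin N) ℂ), ∃ H : Matrix (Fin N) (Fin N) ℂ, 1 ≤ n →
      (∀ i j, B i j ≠ 0 → deg j + 1 ≤ deg i + n) →
      ((n : ℂ) • H = C 0 * H - H * C 0 + B ∧ (∀ i j, ‖H i j‖ ≤ c * nm B / n) ∧
        ∀ i j, H i j ≠ 0 → deg j + 1 ≤ deg i + n) := by
    intro n B
    by_cases h : 1 ≤ n ∧ ∀ i j, B i j ≠ 0 → deg j + 1 ≤ deg i + n
    · obtain ⟨H, hH⟩ := hsol n h.1 B (nm B) (le_nm B) h.2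
      exact ⟨H, fun _ _ => hH⟩
    · exact ⟨0, fun h1 h2 => absurd ⟨h1, h2⟩ h⟩
  choose S hS using hS
  have h0 : Hs C S 0 = 1 := Hs_zero C S
  -- the support of the right side
  have hB : ∀ n, (∀ k, 1 ≤ k → k < n → ∀ i j, Hs C S k i j ≠ 0 → deg j + 1 ≤ deg i + k) →
      ∀ i j, (∑ k ∈ Finset.range n, C (n - k) * Hs C S k) i j ≠ 0 → deg j + 1 ≤ deg i + n := by
    intro n ih i j hne
    rw [Matrix.sum_apply] at hne
    obtain ⟨k, hk, hk2⟩ := Finset.exists_ne_zero_of_sum_ne_zero hne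
    rw [Matrix.mul_apply] at hk2
    obtain ⟨l, _, hl⟩ := Finset.exists_ne_zero_of_sum_ne_zero hk2
    have hl1 := left_ne_zero_of_mul hl
    have hl2 := right_ne_zero_of_mul hl
    have hd := hC _ _ _ hl1
    have hkn := Finset.mem_range.1 hk
    rcases Nat.eq_zero_or_pos k with hk0 | hk0
    · subst hk0
      rw [h0] at hl2
      have hlj : l = j := by
        by_contra hne'
        exact hl2 (Matrix.one_apply_ne hne')
      subst hlj
      omega
    · have := ih k hk0 hkn l j hl2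
      omega
  have hsupp : ∀ n, 1 ≤ n → ∀ i j, Hs C S n i j ≠ 0 → deg j + 1 ≤ deg i + n := by
    intro n
    induction n using Nat.strong_induction_on with
    | _ n ih =>
      intro hn i j hne
      rw [Hs_pos C S hn] at hne
      exact (hS n _ hn (hB n fun k hk hkn => ih k hkn hk)).2.2 i j hne
  have hfull : ∀ n : ℕ, 1 ≤ n → ((n : ℂ) • Hs C S n = C 0 * Hs C S n - Hs C S n * C 0 +
      (∑ k ∈ Finset.range n, C (n - k) * Hs C S k)) ∧
      ∀ i j, ‖Hs C S n i j‖ ≤ c * nm (∑ k ∈ Finset.range n, C (n - k) * Hs C S k) / n := by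
    intro n hn
    have h := hS n (∑ k ∈ Finset.range n, C (n - k) * Hs C S k) hn
      (hB n fun k hk _ => hsupp k hk)
    rw [← Hs_pos C S hn] at h
    exact ⟨h.1, h.2.1⟩
  refine ⟨Hs C S, h0, ?_, fun n i j hn => hsupp n hn i j, ?_⟩
  · intro n
    rw [sum_split]
    rcases Nat.eq_zero_or_pos n with hn | hn
    · subst hn
      rw [h0]
      simp
    · rw [(hfull n hn).1]
      abel
  · intro r hr
    set K := ∑ i, deg i + 1 with hK
    have hCK : ∀ d, K < d → nm (C d) = 0 := by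
      intro d hd
      have : C d = 0 := by
        ext i j
        by_contra hne
        have h1 := hC d i j hne
        have h2 : deg j ≤ ∑ i, deg i := Finset.single_le_sum (f := deg) (fun _ _ => Nat.zero_le _) (Finset.mem_univ j)
        omega
      rw [this, nm_zero]
    set f : ℕ → ℝ := fun d => nm (C d) * r ^ d with hf
    have hf0 : ∀ d, 0 ≤ f d := fun d => mul_nonneg (nm_nonneg _) (pow_nonneg hr.le _)
    set A := ∑ d ∈ Finset.range (K + 1), f d with hA
    have hA0 : 0 ≤ A := Finset.sum_nonneg fun d _ => hf0 d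
    have hfA : ∀ n, ∑ d ∈ Finset.range (n + 1), f d ≤ A := by
      intro n
      rcases le_total n K with h | h
      · exact Finset.sum_le_sum_of_subset_of_nonneg (Finset.range_mono (by omega)) fun d _ _ => hf0 d
      · refine le_of_eq (Finset.sum_subset (Finset.range_mono (by omega)) ?_).symm
        intro d _ hd
        rw [Finset.mem_range, not_lt] at hd
        show nm (C d) * r ^ d = 0
        rw [hCK d (by omega), zero_mul]
    have hrefl : ∀ n, ∑ k ∈ Finset.range n, f (n - k) ≤ A := by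
      intro n
      have h1 := Finset.sum_range_reflect f (n + 1)
      simp only [Nat.add_sub_cancel] at h1
      rw [Finset.sum_range_succ] at h1
      have h2 := hfA n
      have h3 := hf0 (n - n)
      linarith
    set m := (N : ℝ) ^ 2 * c * A with hm
    have hm0 : 0 ≤ m := by positivity
    set h : ℕ → ℝ := fun n => nm (Hs C S n) * r ^ n with hh
    have hh0 : ∀ n, 0 ≤ h n := fun n => mul_nonneg (nm_nonneg _) (pow_nonneg hr.le _)
    set M := ∑ k ∈ Finset.range (⌈m⌉₊ + 1), h k with hM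
    have hM0 : 0 ≤ M := Finset.sum_nonneg fun d _ => hh0 d
    have hmain : ∀ n, h n ≤ M := by
      intro n
      induction n using Nat.strong_induction_on with
      | _ n ih =>
        by_cases hn : n < ⌈m⌉₊ + 1
        · exact Finset.single_le_sum (f := h) (fun d _ => hh0 d) (Finset.mem_range.2 hn)
        · have hn1 : ⌈m⌉₊ + 1 ≤ n := not_lt.1 hn
          have hn0 : 1 ≤ n := by omega
          have hnm : m ≤ n := by
            have h1 : m ≤ ⌈m⌉₊ := Nat.le_ceil m
            have h2 : ((⌈m⌉₊ : ℕ) : ℝ) ≤ n := by exact_mod_cast (by omega : ⌈m⌉₊ ≤ n)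
            linarith
          have hnpos : (0 : ℝ) < n := by exact_mod_cast hn0
          have h1 : nm (∑ k ∈ Finset.range n, C (n - k) * Hs C S k) * r ^ n ≤ A * M := by
            calc nm (∑ k ∈ Finset.range n, C (n - k) * Hs C S k) * r ^ n
                ≤ (∑ k ∈ Finset.range n, nm (C (n - k)) * nm (Hs C S k)) * r ^ n := by
                  refine mul_le_mul_of_nonneg_right ?_ (pow_nonneg hr.le _)
                  exact (nm_sum _ _).trans (Finset.sum_le_sum fun k _ => nm_mul _ _)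
              _ = ∑ k ∈ Finset.range n, f (n - k) * h k := by
                  rw [Finset.sum_mul]
                  refine Finset.sum_congr rfl fun k hk => ?_
                  have hk' : k ≤ n := (Finset.mem_range.1 hk).le
                  show nm (C (n - k)) * nm (Hs C S k) * r ^ n =
                    nm (C (n - k)) * r ^ (n - k) * (nm (Hs C S k) * r ^ k)
                  have : r ^ n = r ^ (n - k) * r ^ k := by rw [← pow_add, Nat.sub_add_cancel hk']
                  rw [this]; ring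
              _ ≤ ∑ k ∈ Finset.range n, f (n - k) * M :=
                  Finset.sum_le_sum fun k hk => mul_le_mul_of_nonneg_left (ih k (Finset.mem_range.1 hk)) (hf0 _)
              _ = (∑ k ∈ Finset.range n, f (n - k)) * M := (Finset.sum_mul _ _ _).symm
              _ ≤ A * M := mul_le_mul_of_nonneg_right (hrefl n) hM0
          have h2 : nm (Hs C S n) ≤ (N : ℝ) ^ 2 *
              (c * nm (∑ k ∈ Finset.range n, C (n - k) * Hs C S k) / n) := nm_le _ (hfull n hn0).2
          calc h n = nm (Hs C S n) * r ^ n := rfl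
            _ ≤ (N : ℝ) ^ 2 * (c * nm (∑ k ∈ Finset.range n, C (n - k) * Hs C S k) / n) * r ^ n :=
                mul_le_mul_of_nonneg_right h2 (pow_nonneg hr.le _)
            _ = (N : ℝ) ^ 2 * c / n * (nm (∑ k ∈ Finset.range n, C (n - k) * Hs C S k) * r ^ n) := by ring
            _ ≤ (N : ℝ) ^ 2 * c / n * (A * M) := mul_le_mul_of_nonneg_left h1 (by positivity)
            _ = m / n * M := by rw [hm]; ring
            _ ≤ 1 * M := mul_le_mul_of_nonneg_right (by rw [div_le_one hnpos]; exact hnm) hM0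
            _ = M := one_mul M
    refine ⟨M, fun n i j => ?_⟩
    exact (mul_le_mul_of_nonneg_right (le_nm _ i j) (pow_nonneg hr.le _)).trans (hmain n)

end Pool.Agent.DST
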