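import Mathlib

/-!
# DST-EHol: entire matrix series

The series `∑ q^n H_n` converges absolutely and may be differentiated term by term; the recursion is
summed in the topological ring of matrices.
-/

open scoped BigOperators Topology
open Filter

namespace Pool.Agent.DST

/-- The matrix function `∑ q^n H_n`. -/
noncomputable def serM {N : ℕ} (H : ℕ → Matrix (Fin N) (Fin N) ℂ) (q : ℂ) :
    Matrix (Fin N) (Fin N) ℂ := Matrix.of fun i j => ∑' n, q ^ n * H n i j

private theorem ehol_bd {a : ℕ → ℂ} (hb : ∀ r : ℝ, 0 < r → ∃ B : ℝ, ∀ n, ‖a n‖ * r ^ n ≤ B)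
    {R : ℝ} (hR : 0 < R) : ∃ B : ℝ, 0 ≤ B ∧ ∀ n, R ^ n * ‖a n‖ ≤ B * (1 / 2) ^ n := by
  obtain ⟨B, hB⟩ := hb (2 * R) (by linarith)
  have hB0 : 0 ≤ B := le_trans (by positivity) (hB 0)
  refine ⟨B, hB0, fun n => ?_⟩
  have h := hB n
  rw [mul_pow] at h
  have h2 : (0 : ℝ) < 2 ^ n := by positivity
  have h3 : B * (1 / 2) ^ n = B / 2 ^ n := by
    rw [one_div, inv_pow]
    rfl
  rw [h3, le_div_iff₀ h2]
  calc R ^ n * ‖a n‖ * 2 ^ n = ‖a n‖ * (2 ^ n * R ^ n) := by ring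
    _ ≤ B := h

private theorem ehol_summable {a : ℕ → ℂ}
    (hb : ∀ r : ℝ, 0 < r → ∃ B : ℝ, ∀ n, ‖a n‖ * r ^ n ≤ B) (q : ℂ) :
    Summable fun n => ‖q ^ n * a n‖ := by
  obtain ⟨B, hB0, hB⟩ := ehol_bd hb (R := ‖q‖ + 1) (by positivity)
  refine Summable.of_nonneg_of_le (fun n => norm_nonneg _) (fun n => ?_)
    ((summable_geometric_of_lt_one (by norm_num) (by norm_num : (1 / 2 : ℝ) < 1)).mul_left B)
  rw [norm_mul, norm_pow]
  refine le_trans ?_ (hB n)
  refine mul_le_mul_of_nonneg_right ?_ (norm_nonneg _)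
  exact pow_le_pow_left₀ (norm_nonneg _) (by linarith) n

private theorem ehol_deriv {a : ℕ → ℂ}
    (hb : ∀ r : ℝ, 0 < r → ∃ B : ℝ, ∀ n, ‖a n‖ * r ^ n ≤ B) (q : ℂ) :
    ∃ D : ℂ, HasDerivAt (fun q => ∑' n, q ^ n * a n) D q ∧
      HasSum (fun n : ℕ => q ^ n * ((n : ℂ) * a n)) (q * D) := by
  set R : ℝ := ‖q‖ + 1 with hRdef
  have hR : 0 < R := by positivity
  obtain ⟨B, hB0, hB⟩ := ehol_bd hb hR
  set g' : ℕ → ℂ → ℂ := fun n y => (n : ℂ) * y ^ (n - 1) * a n with hg'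
  set u : ℕ → ℝ := fun n => (B / R) * ((n : ℝ) ^ 1 * (1 / 2 : ℝ) ^ n) with hu
  have hus : Summable u := by
    refine Summable.mul_left _ ?_
    exact summable_pow_mul_geometric_of_norm_lt_one 1 (by norm_num)
  have hbd : ∀ n, ∀ y ∈ Metric.ball (0 : ℂ) R, ‖g' n y‖ ≤ u n := by
    intro n y hy
    have hy' : ‖y‖ ≤ R := by
      rw [mem_ball_zero_iff] at hy
      exact hy.le
    rcases Nat.eq_zero_or_pos n with h0 | hpos
    · subst h0
      simp [hg', hu]
    · simp only [hg', hu]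
      rw [norm_mul, norm_mul, norm_pow, Complex.norm_natCast, pow_one]
      have h1 : ‖y‖ ^ (n - 1) ≤ R ^ (n - 1) := pow_le_pow_left₀ (norm_nonneg _) hy' _
      have h2 : R ^ (n - 1) * ‖a n‖ ≤ B / R * (1 / 2) ^ n := by
        have h3 := hB n
        have h4 : R ^ n = R * R ^ (n - 1) := by
          rw [← pow_succ']
          congr 1
          omega
        rw [h4] at h3
        rw [div_mul_eq_mul_div, le_div_iff₀ hR]
        calc R ^ (n - 1) * ‖a n‖ * R = R * R ^ (n - 1) * ‖a n‖ := by ring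
          _ ≤ _ := h3
      calc (n : ℝ) * ‖y‖ ^ (n - 1) * ‖a n‖ ≤ (n : ℝ) * R ^ (n - 1) * ‖a n‖ := by
            gcongr
        _ = (n : ℝ) * (R ^ (n - 1) * ‖a n‖) := by ring
        _ ≤ (n : ℝ) * (B / R * (1 / 2) ^ n) := by
            exact mul_le_mul_of_nonneg_left h2 (Nat.cast_nonneg n)
        _ = _ := by ring
  have hq : q ∈ Metric.ball (0 : ℂ) R := by
    rw [mem_ball_zero_iff, hRdef]
    linarith
  have hder := hasDerivAt_tsum_of_isPreconnected (g := fun n y => y ^ n * a n) (g' := g')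
    (t := Metric.ball (0 : ℂ) R) (y₀ := q) (y := q) hus Metric.isOpen_ball
    (convex_ball (0 : ℂ) R).isPreconnected
    (fun n y _ => (hasDerivAt_pow n y).mul_const (a n)) hbd hq (ehol_summable hb q).of_norm hq
  have hs : Summable fun n => g' n q :=
    Summable.of_norm_bounded hus (fun n => hbd n q hq)
  refine ⟨∑' n, g' n q, hder, ?_⟩
  have h1 := hs.hasSum.mul_left q
  have h2 : (fun n : ℕ => q * g' n q) = fun n : ℕ => q ^ n * ((n : ℂ) * a n) := by
    funext n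
    rcases Nat.eq_zero_or_pos n with h0 | hpos
    · subst h0
      simp [hg']
    · have h4 : q ^ n = q * q ^ (n - 1) := by
        rw [← pow_succ']
        congr 1
        omega
      simp only [hg']
      rw [h4]
      ring
  rw [h2] at h1
  exact h1

theorem serM_summable {N : ℕ} {H : ℕ → Matrix (Fin N) (Fin N) ℂ}
    (hb : ∀ r : ℝ, 0 < r → ∃ B : ℝ, ∀ n i j, ‖H n i j‖ * r ^ n ≤ B) (q : ℂ) (i j : Fin N) :
    Summable fun n => ‖q ^ n * H n i j‖ := by
  refine ehol_summable (a := fun n => H n i j) (fun r hr => ?_) q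
  obtain ⟨B, hB⟩ := hb r hr
  exact ⟨B, fun n => hB n i j⟩

private theorem serM_hasSum {N : ℕ} {H : ℕ → Matrix (Fin N) (Fin N) ℂ}
    (hb : ∀ r : ℝ, 0 < r → ∃ B : ℝ, ∀ n i j, ‖H n i j‖ * r ^ n ≤ B) (q : ℂ) :
    HasSum (fun n => q ^ n • H n) (serM H q) := by
  refine Pi.hasSum.2 (fun i => Pi.hasSum.2 (fun j => ?_))
  exact (serM_summable hb q i j).of_norm.hasSum

private theorem antidiag_eq {N : ℕ} {H C : ℕ → Matrix (Fin N) (Fin N) ℂ} {K : ℕ}
    (hK : ∀ d, K < d → C d = 0) (q : ℂ) (n : ℕ) :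
    (∑ d ∈ Finset.range (K + 1), if d ≤ n then (q ^ d • C d) * (q ^ (n - d) • H (n - d)) else 0) =
      q ^ n • ∑ p ∈ Finset.HasAntidiagonal.antidiagonal n, C p.1 * H p.2 := by
  rw [Finset.Nat.sum_antidiagonal_eq_sum_range_succ_mk, Finset.smul_sum]
  have h1 : (∑ k ∈ Finset.range n.succ, q ^ n • (C (k, n - k).1 * H (k, n - k).2)) =
      ∑ d ∈ Finset.range n.succ,
        if d ≤ n then (q ^ d • C d) * (q ^ (n - d) • H (n - d)) else 0 := by
    refine Finset.sum_congr rfl (fun d hd => ?_)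
    have hdn : d ≤ n := Nat.lt_succ_iff.1 (Finset.mem_range.1 hd)
    rw [if_pos hdn, smul_mul_smul_comm, ← pow_add, Nat.add_sub_cancel' hdn]
  rw [h1]
  have h2 : (∑ d ∈ Finset.range (K + 1),
      if d ≤ n then (q ^ d • C d) * (q ^ (n - d) • H (n - d)) else 0) =
      ∑ d ∈ Finset.range (n + K + 1),
        if d ≤ n then (q ^ d • C d) * (q ^ (n - d) • H (n - d)) else 0 := by
    refine Finset.sum_subset (Finset.range_subset_range.2 (by omega)) (fun d _ hd => ?_)
    have hKd : K < d := by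
      rw [Finset.mem_range] at hd
      omega
    rw [hK d hKd, smul_zero, zero_mul, ite_self]
  have h3 : (∑ d ∈ Finset.range n.succ,
      if d ≤ n then (q ^ d • C d) * (q ^ (n - d) • H (n - d)) else 0) =
      ∑ d ∈ Finset.range (n + K + 1),
        if d ≤ n then (q ^ d • C d) * (q ^ (n - d) • H (n - d)) else 0 := by
    refine Finset.sum_subset (Finset.range_subset_range.2 (by omega)) (fun d _ hd => ?_)
    have hKd : ¬ d ≤ n := by
      rw [Finset.mem_range] at hd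
      omega
    rw [if_neg hKd]
  rw [h2, h3]

private theorem serM_left {N : ℕ} {H : ℕ → Matrix (Fin N) (Fin N) ℂ}
    (hb : ∀ r : ℝ, 0 < r → ∃ B : ℝ, ∀ n i j, ‖H n i j‖ * r ^ n ≤ B)
    {C : ℕ → Matrix (Fin N) (Fin N) ℂ} {K : ℕ} (hK : ∀ d, K < d → C d = 0) (q : ℂ) :
    HasSum (fun n => q ^ n • ∑ p ∈ Finset.HasAntidiagonal.antidiagonal n, C p.1 * H p.2)
      ((∑ d ∈ Finset.range (K + 1), q ^ d • C d) * serM H q) := by
  have h1 : ∀ d ∈ Finset.range (K + 1),
      HasSum (fun n => if d ≤ n then (q ^ d • C d) * (q ^ (n - d) • H (n - d)) else 0)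
        ((q ^ d • C d) * serM H q) := by
    intro d _
    have h2 := (serM_hasSum hb q).mul_left (q ^ d • C d)
    have hinj : Function.Injective (fun m : ℕ => m + d) := add_left_injective d
    refine (hinj.hasSum_iff ?_).1 ?_
    · intro n hn
      rw [if_neg]
      intro hdn
      exact hn ⟨n - d, Nat.sub_add_cancel hdn⟩
    · have h3 : ((fun n => if d ≤ n then (q ^ d • C d) * (q ^ (n - d) • H (n - d)) else 0) ∘
          fun m : ℕ => m + d) = fun m => (q ^ d • C d) * (q ^ m • H m) := by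
        funext m
        simp only [Function.comp]
        rw [if_pos (Nat.le_add_left d m), Nat.add_sub_cancel]
      rw [h3]
      exact h2
  have h4 := hasSum_sum h1
  rw [← Finset.sum_mul] at h4
  have h5 : (fun n => ∑ d ∈ Finset.range (K + 1),
      if d ≤ n then (q ^ d • C d) * (q ^ (n - d) • H (n - d)) else 0) =
      fun n => q ^ n • ∑ p ∈ Finset.HasAntidiagonal.antidiagonal n, C p.1 * H p.2 :=
    funext (antidiag_eq hK q)
  rw [h5] at h4
  exact h4

theorem serM_deriv {N : ℕ} {H : ℕ → Matrix (Fin N) (Fin N) ℂ}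
    (hb : ∀ r : ℝ, 0 < r → ∃ B : ℝ, ∀ n i j, ‖H n i j‖ * r ^ n ≤ B)
    {C : ℕ → Matrix (Fin N) (Fin N) ℂ} {K : ℕ} (hK : ∀ d, K < d → C d = 0)
    (hrec : ∀ n : ℕ, (n : ℂ) • H n =
        ∑ p ∈ Finset.HasAntidiagonal.antidiagonal n, C p.1 * H p.2 - H n * C 0)
    (q : ℂ) (i j : Fin N) :
    ∃ D : ℂ, HasDerivAt (fun q => serM H q i j) D q ∧
      q * D = ((∑ d ∈ Finset.range (K + 1), q ^ d • C d) * serM H q - serM H q * C 0) i j := by
  obtain ⟨D, hD1, hD2⟩ := ehol_deriv (a := fun n => H n i j) (fun r hr => by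
    obtain ⟨B, hB⟩ := hb r hr
    exact ⟨B, fun n => hB n i j⟩) q
  refine ⟨D, hD1, ?_⟩
  have h1 := (serM_left hb hK q).sub ((serM_hasSum hb q).mul_right (C 0))
  have h2 : (fun n : ℕ => q ^ n • (∑ p ∈ Finset.HasAntidiagonal.antidiagonal n, C p.1 * H p.2) -
      (q ^ n • H n) * C 0) = fun n : ℕ => q ^ n • ((n : ℂ) • H n) := by
    funext n
    rw [hrec n, smul_sub, smul_mul_assoc]
  rw [h2] at h1
  have h3 := Pi.hasSum.1 (Pi.hasSum.1 h1 i) j
  have h4 : (fun n : ℕ => (q ^ n • ((n : ℂ) • H n)) i j) =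
      fun n : ℕ => q ^ n * ((n : ℂ) * H n i j) := by
    funext n
    simp [Matrix.smul_apply]
  rw [h4] at h3
  exact hD2.unique h3

end Pool.Agent.DST
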