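import Pool.Agent.DST.VW

/-!
# DST-VWode: the fundamental solution `W` intertwines the equations in `z` at `s` and at `0`

PLAN. Fix `y`, and let `x = y e^w`, `z = e^w`. Claim: with `D = d/dw`,
`D W = (θ - z⁻¹ C(s,x)) W - W (θ - z⁻¹ C(0,x))`.
Coefficientwise in `s`: let `W_n(w) = Wc (y e^w) (e^w) n` (differentiable in `w`), `M_k`, `C_k` the values
at `x` of the coefficients of `s^k` of `𝓡.M`, `𝓡.C`, `M_k' = x (d/dx) M_k` (so `D M_k = M_k'`), `ζ = z⁻¹`
(`Dζ = -ζ`). From `𝓡.eul` (coefficient of `s^k`): `(k+1) C_{k+1} = [θ, M_k] + M_k - M_k'` and from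
`𝓡.comm`: `∑_{k+j=m} M_k C_j = ∑_{k+j=m} C_j M_k`. Recursion: `(n+1) W_{n+1} = ζ ∑_{k≤n} M_k W_{n-k}`.
Claim by strong induction on `n`: `D W_n = [θ, W_n] - ζ (∑_{j≤n} C_j W_{n-j} - W_n C_0)`. `n = 0`: `W_0 = 1`.
Step: `(n+1) D W_{n+1} = -ζ ∑ M_k W_{n-k} + ζ ∑ M_k' W_{n-k} + ζ ∑ M_k D W_{n-k}`, insert
`M_k' = [θ,M_k] + M_k - (k+1) C_{k+1}` and the induction hypothesis:
`= ζ ∑ [θ, M_k W_{n-k}] - ζ ∑ (k+1) C_{k+1} W_{n-k} - ζ² ∑_{k+j+l=n} M_k C_j W_l + ζ² ∑ M_k W_{n-k} C_0`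
`= (n+1)[θ, W_{n+1}] - ζ ∑ (k+1) C_{k+1} W_{n-k} - ζ ∑_j C_j (n-j+1) W_{n+1-j} + ζ (n+1) W_{n+1} C_0`
(using comm and the recursion for `ζ ∑_k M_k W_{n-j-k} = (n-j+1) W_{n-j+1}`), and the two middle sums add
to `-ζ (n+1) ∑_{i ≤ n+1} C_i W_{n+1-i}`.
Then sum over `n` (`s^n`): both sides converge (`Wc_bound`, `C_conv`); `D` of the sum is the sum of the
`D W_n` (the function `w ↦ W s (y e^w) (e^w)` is differentiable by `W_diff`; termwise differentiation of a
locally uniformly convergent series of holomorphic functions: `hasSum_deriv_of_summable_norm`).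
ALTERNATIVE (analytic): `P(s) = D W - (θ - ζ C(s)) W + W (θ - ζ C(0))` is, for fixed `w`, a solution of
`z dP/ds = M P` with `P(0) = 0` (exchange of the derivatives in `s` and `w`), hence `0`.
-/

open scoped BigOperators Topology
open Filter

namespace Pool.Agent.DST

variable {N : ℕ}

/-! ### values of power series at `s` -/

private def av (s : ℂ) (F : PowerSeries ℂ) : Prop :=
  Summable fun n => ‖s ^ n * PowerSeries.coeff n F‖

private noncomputable def vl (s : ℂ) (F : PowerSeries ℂ) : ℂ :=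
  ∑' n, s ^ n * PowerSeries.coeff n F

private theorem av_mul {s : ℂ} {F G : PowerSeries ℂ} (hF : av s F) (hG : av s G) :
    av s (F * G) ∧ vl s (F * G) = vl s F * vl s G := by
  have key : ∀ n, s ^ n * PowerSeries.coeff n (F * G) =
      ∑ p ∈ Finset.HasAntidiagonal.antidiagonal n, (s ^ p.1 * PowerSeries.coeff p.1 F) *
        (s ^ p.2 * PowerSeries.coeff p.2 G) := by
    intro n
    rw [PowerSeries.coeff_mul, Finset.mul_sum]
    refine Finset.sum_congr rfl fun p hp => ?_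
    rw [Finset.HasAntidiagonal.mem_antidiagonal] at hp
    rw [← hp, pow_add]
    ring
  have h1 := summable_norm_sum_mul_antidiagonal_of_summable_norm
    (f := fun n => s ^ n * PowerSeries.coeff n F) (g := fun n => s ^ n * PowerSeries.coeff n G)
    hF hG
  have h2 := tsum_mul_tsum_eq_tsum_sum_antidiagonal_of_summable_norm
    (f := fun n => s ^ n * PowerSeries.coeff n F) (g := fun n => s ^ n * PowerSeries.coeff n G)
    hF hG
  constructor
  · exact h1.congr fun n => by rw [key n]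
  · exact (tsum_congr key).trans h2.symm

private theorem av_add {s : ℂ} {F G : PowerSeries ℂ} (hF : av s F) (hG : av s G) :
    av s (F + G) ∧ vl s (F + G) = vl s F + vl s G := by
  have key : ∀ n, s ^ n * PowerSeries.coeff n (F + G) =
      s ^ n * PowerSeries.coeff n F + s ^ n * PowerSeries.coeff n G := by
    intro n
    rw [map_add, mul_add]
  constructor
  · unfold av
    simp only [key]
    exact (hF.of_norm.add hG.of_norm).norm
  · unfold vl
    rw [← hF.of_norm.tsum_add hG.of_norm]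
    exact tsum_congr key

private theorem av_smul {s : ℂ} {F : PowerSeries ℂ} (a : ℂ) (hF : av s F) :
    av s (a • F) ∧ vl s (a • F) = a * vl s F := by
  have key : ∀ n, s ^ n * PowerSeries.coeff n (a • F) = a * (s ^ n * PowerSeries.coeff n F) := by
    intro n
    rw [PowerSeries.coeff_smul, smul_eq_mul]
    ring
  constructor
  · unfold av
    simp only [key]
    exact (hF.of_norm.mul_left a).norm
  · unfold vl
    rw [← tsum_mul_left]
    exact tsum_congr key

private theorem av_zero (s : ℂ) : av s 0 ∧ vl s 0 = 0 := by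
  constructor
  · unfold av
    simp [summable_zero]
  · unfold vl
    simp

private theorem av_C (s a : ℂ) : av s (PowerSeries.C a) ∧ vl s (PowerSeries.C a) = a := by
  have key : ∀ n, n ≠ 0 → s ^ n * PowerSeries.coeff n (PowerSeries.C a) = 0 := by
    intro n hn
    rw [PowerSeries.coeff_C, if_neg hn, mul_zero]
  constructor
  · unfold av
    refine summable_of_ne_finset_zero (s := {0}) fun n hn => ?_
    rw [key n (by simpa using hn), norm_zero]
  · unfold vl
    rw [tsum_eq_single 0 key]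
    simp

private theorem av_sum {s : ℂ} {ι : Type} (S : Finset ι) (F : ι → PowerSeries ℂ)
    (hF : ∀ a ∈ S, av s (F a)) :
    av s (∑ a ∈ S, F a) ∧ vl s (∑ a ∈ S, F a) = ∑ a ∈ S, vl s (F a) := by
  classical
  induction S using Finset.induction_on with
  | empty =>
    rw [Finset.sum_empty, Finset.sum_empty]
    exact av_zero s
  | insert a S ha ih =>
    have h1 := ih fun b hb => hF b (Finset.mem_insert_of_mem hb)
    have h2 := av_add (hF a (Finset.mem_insert_self a S)) h1.1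
    rw [Finset.sum_insert ha, Finset.sum_insert ha]
    exact ⟨h2.1, by rw [h2.2, h1.2]⟩

private def AV (s : ℂ) (A : Matrix (Fin N) (Fin N) (PowerSeries ℂ)) : Prop := ∀ i j, av s (A i j)

private noncomputable def VL (s : ℂ) (A : Matrix (Fin N) (Fin N) (PowerSeries ℂ)) :
    Matrix (Fin N) (Fin N) ℂ := A.map (vl s)

private theorem AV_mul {s : ℂ} {A B : Matrix (Fin N) (Fin N) (PowerSeries ℂ)} (hA : AV s A)
    (hB : AV s B) : AV s (A * B) ∧ VL s (A * B) = VL s A * VL s B := by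
  have h : ∀ i j, av s ((A * B) i j) ∧ vl s ((A * B) i j) = ∑ a, vl s (A i a) * vl s (B a j) := by
    intro i j
    have h1 := av_sum (s := s) Finset.univ (fun a => A i a * B a j)
      (fun a _ => (av_mul (hA i a) (hB a j)).1)
    rw [Matrix.mul_apply]
    refine ⟨h1.1, h1.2.trans (Finset.sum_congr rfl fun a _ => (av_mul (hA i a) (hB a j)).2)⟩
  refine ⟨fun i j => (h i j).1, Matrix.ext fun i j => ?_⟩
  rw [Matrix.mul_apply]
  exact (h i j).2

private theorem AV_add {s : ℂ} {A B : Matrix (Fin N) (Fin N) (PowerSeries ℂ)} (hA : AV s A)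
    (hB : AV s B) : AV s (A + B) ∧ VL s (A + B) = VL s A + VL s B :=
  ⟨fun i j => (av_add (hA i j) (hB i j)).1, Matrix.ext fun i j => (av_add (hA i j) (hB i j)).2⟩

private theorem AV_smul {s : ℂ} {A : Matrix (Fin N) (Fin N) (PowerSeries ℂ)} (a : ℂ)
    (hA : AV s A) : AV s (a • A) ∧ VL s (a • A) = a • VL s A :=
  ⟨fun i j => (av_smul a (hA i j)).1, Matrix.ext fun i j => (av_smul a (hA i j)).2⟩

private theorem AV_sub {s : ℂ} {A B : Matrix (Fin N) (Fin N) (PowerSeries ℂ)} (hA : AV s A)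
    (hB : AV s B) : AV s (A - B) ∧ VL s (A - B) = VL s A - VL s B := by
  have h1 := AV_smul (-1) hB
  have h2 := AV_add hA h1.1
  rw [h1.2, neg_one_smul, neg_one_smul, ← sub_eq_add_neg, ← sub_eq_add_neg] at h2
  exact h2

/-! ### formal part -/

private noncomputable def dM (A : Matrix (Fin N) (Fin N) (PowerSeries ℂ)) :
    Matrix (Fin N) (Fin N) (PowerSeries ℂ) := A.map (PowerSeries.derivative ℂ)

private theorem dM_mul (A B : Matrix (Fin N) (Fin N) (PowerSeries ℂ)) :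
    dM (A * B) = dM A * B + A * dM B := by
  refine Matrix.ext fun i j => ?_
  show PowerSeries.derivative ℂ ((A * B) i j) = (dM A * B) i j + (A * dM B) i j
  rw [Matrix.mul_apply, Matrix.mul_apply, Matrix.mul_apply, map_sum, ← Finset.sum_add_distrib]
  refine Finset.sum_congr rfl fun a _ => ?_
  rw [Derivation.leibniz, smul_eq_mul, smul_eq_mul]
  show A i a * PowerSeries.derivative ℂ (B a j) + B a j * PowerSeries.derivative ℂ (A i a) =
    PowerSeries.derivative ℂ (A i a) * B a j + A i a * PowerSeries.derivative ℂ (B a j)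
  ring

private theorem dM_sub (A B : Matrix (Fin N) (Fin N) (PowerSeries ℂ)) :
    dM (A - B) = dM A - dM B :=
  Matrix.ext fun i j => map_sub (PowerSeries.derivative ℂ) (A i j) (B i j)

private theorem dM_smul (a : ℂ) (A : Matrix (Fin N) (Fin N) (PowerSeries ℂ)) :
    dM (a • A) = a • dM A :=
  Matrix.ext fun i j => (PowerSeries.derivative ℂ).map_smul a (A i j)

private theorem formal_zero {z : ℂ} (hz : z ≠ 0) {m P : Matrix (Fin N) (Fin N) (PowerSeries ℂ)}
    (h0 : ∀ i j, PowerSeries.coeff 0 (P i j) = 0) (h : z • dM P = m * P) : P = 0 := by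
  have key : ∀ n : ℕ, ∀ i j, PowerSeries.coeff n (P i j) = 0 := by
    intro n
    induction n using Nat.strong_induction_on with
    | _ n ih =>
      intro i j
      rcases n with _ | n
      · exact h0 i j
      · have h1 := congrArg (PowerSeries.coeff n) (congrFun (congrFun h i) j)
        have h2 : PowerSeries.coeff n ((z • dM P) i j) =
            z * (PowerSeries.coeff (n + 1) (P i j) * ((n : ℂ) + 1)) := by
          show PowerSeries.coeff n (z • PowerSeries.derivative ℂ (P i j)) = _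
          rw [PowerSeries.coeff_smul, smul_eq_mul, PowerSeries.coeff_derivative]
        have h3 : PowerSeries.coeff n ((m * P) i j) = 0 := by
          rw [Matrix.mul_apply, map_sum]
          refine Finset.sum_eq_zero fun a _ => ?_
          rw [PowerSeries.coeff_mul]
          refine Finset.sum_eq_zero fun p hp => ?_
          rw [Finset.HasAntidiagonal.mem_antidiagonal] at hp
          rw [ih p.2 (by omega) a j, mul_zero]
        rw [h2, h3] at h1
        have h4 : ((n : ℂ) + 1) ≠ 0 := by exact_mod_cast Nat.succ_ne_zero n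
        rcases mul_eq_zero.mp h1 with h5 | h5
        · exact absurd h5 hz
        · rcases mul_eq_zero.mp h5 with h6 | h6
          · exact h6
          · exact absurd h6 h4
  refine Matrix.ext fun i j => PowerSeries.ext fun n => ?_
  rw [key n i j]
  rfl

private theorem formal_id {z : ℂ} (hz : z ≠ 0)
    {W V m c md θ c0 : Matrix (Fin N) (Fin N) (PowerSeries ℂ)}
    (hθ : dM θ = 0) (hc0 : dM c0 = 0) (h1 : z • dM W = m * W)
    (h2 : z • dM W + z • dM V = md * W + m * V)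
    (h3 : dM c = θ * m - m * θ + m - md) (h4 : m * c = c * m)
    (hP0 : ∀ i j, PowerSeries.coeff 0 ((V - (θ * W - W * θ - z⁻¹ • (c * W - W * c0))) i j) = 0) :
    V = θ * W - W * θ - z⁻¹ • (c * W - W * c0) := by
  have hzz : z * z⁻¹ = 1 := mul_inv_cancel₀ hz
  have e1 : dM W = z⁻¹ • (m * W) := by
    rw [← h1, smul_smul, inv_mul_cancel₀ hz, one_smul]
  have e2 : dM V = z⁻¹ • (md * W + m * V - m * W) := by
    have : z • dM V = md * W + m * V - m * W := by
      rw [← h2, ← h1, add_sub_cancel_left]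
    rw [← this, smul_smul, inv_mul_cancel₀ hz, one_smul]
  have key : V - (θ * W - W * θ - z⁻¹ • (c * W - W * c0)) = 0 := by
    refine formal_zero hz (m := m) hP0 ?_
    rw [dM_sub, dM_sub, dM_sub, dM_smul, dM_sub, dM_mul, dM_mul, dM_mul, dM_mul, hθ, hc0, h3, e2,
      e1]
    have h5 : c * (m * W) = m * (c * W) := by
      rw [← Matrix.mul_assoc, ← h4, Matrix.mul_assoc]
    have h6 : z * (z⁻¹ * z⁻¹) = z⁻¹ := by rw [← mul_assoc, hzz, one_mul]
    simp only [zero_mul, zero_add, mul_zero, add_zero, smul_sub, smul_add, smul_smul, hzz, h6,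
      one_smul, Matrix.mul_smul, Matrix.smul_mul, mul_sub, sub_mul, add_mul,
      Matrix.mul_assoc, h5]
    abel
  exact sub_eq_zero.mp key

/-! ### the data of a ray at `x`, `z` -/

private noncomputable def ev (x : ℂ) : PowerSeries (Polynomial ℂ) →+* PowerSeries ℂ :=
  PowerSeries.map (Polynomial.evalRingHom x)

private theorem coeff_ev (x : ℂ) (f : PowerSeries (Polynomial ℂ)) (n : ℕ) :
    PowerSeries.coeff n (ev x f) = (PowerSeries.coeff n f).eval x := by
  unfold ev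
  rw [PowerSeries.coeff_map]
  rfl

private theorem vl_ev (s x : ℂ) (f : PowerSeries (Polynomial ℂ)) : vl s (ev x f) = evs s x f := by
  unfold vl evs
  exact tsum_congr fun n => by rw [coeff_ev]

private theorem ev_C (x : ℂ) (p : Polynomial ℂ) :
    ev x (PowerSeries.C p) = PowerSeries.C (p.eval x) := by
  unfold ev
  rw [PowerSeries.map_C]
  rfl

private theorem ev_deriv (x : ℂ) (f : PowerSeries (Polynomial ℂ)) :
    PowerSeries.derivative ℂ (ev x f) = ev x (PowerSeries.derivative (Polynomial ℂ) f) := by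
  refine PowerSeries.ext fun n => ?_
  rw [PowerSeries.coeff_derivative, coeff_ev, coeff_ev, PowerSeries.coeff_derivative]
  simp

private noncomputable def fW (𝓡 : Ray N) (x z : ℂ) : Matrix (Fin N) (Fin N) (PowerSeries ℂ) :=
  Matrix.of fun i j => PowerSeries.mk fun n => 𝓡.Wc x z n i j

private noncomputable def fV (𝓡 : Ray N) (y w : ℂ) : Matrix (Fin N) (Fin N) (PowerSeries ℂ) :=
  Matrix.of fun i j => PowerSeries.mk fun n =>
    deriv (fun w => 𝓡.Wc (y * Complex.exp w) (Complex.exp w) n i j) w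

private noncomputable def fθ (𝓡 : Ray N) : Matrix (Fin N) (Fin N) (PowerSeries ℂ) :=
  Matrix.diagonal fun i => PowerSeries.C (𝓡.Q.θ i)

private noncomputable def f0 (𝓡 : Ray N) (x : ℂ) : Matrix (Fin N) (Fin N) (PowerSeries ℂ) :=
  Matrix.of fun i j => PowerSeries.C (𝓡.Q.C x i j)

private noncomputable def fD (𝓡 : Ray N) (x : ℂ) : Matrix (Fin N) (Fin N) (PowerSeries ℂ) :=
  Matrix.of fun i j => ev x (lamD (𝓡.M i j))

private theorem coeff_fW (𝓡 : Ray N) (x z : ℂ) (i j : Fin N) (n : ℕ) :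
    PowerSeries.coeff n (fW 𝓡 x z i j) = 𝓡.Wc x z n i j := by
  unfold fW
  rw [Matrix.of_apply, PowerSeries.coeff_mk]

private theorem coeff_fV (𝓡 : Ray N) (y w : ℂ) (i j : Fin N) (n : ℕ) :
    PowerSeries.coeff n (fV 𝓡 y w i j) =
      deriv (fun w => 𝓡.Wc (y * Complex.exp w) (Complex.exp w) n i j) w := by
  unfold fV
  rw [Matrix.of_apply, PowerSeries.coeff_mk]

private theorem coeff_fD (𝓡 : Ray N) (x : ℂ) (i j : Fin N) (n : ℕ) :
    PowerSeries.coeff n (fD 𝓡 x i j) = (PowerSeries.coeff n (lamD (𝓡.M i j))).eval x := by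
  unfold fD
  rw [Matrix.of_apply, coeff_ev]

private theorem coeff_dM (A : Matrix (Fin N) (Fin N) (PowerSeries ℂ)) (i j : Fin N) (n : ℕ) :
    PowerSeries.coeff n (dM A i j) = PowerSeries.coeff (n + 1) (A i j) * ((n : ℂ) + 1) := by
  unfold dM
  rw [Matrix.map_apply, PowerSeries.coeff_derivative]

private theorem coeff_msmul (a : ℂ) (A : Matrix (Fin N) (Fin N) (PowerSeries ℂ)) (i j : Fin N)
    (n : ℕ) : PowerSeries.coeff n ((a • A) i j) = a * PowerSeries.coeff n (A i j) := by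
  rw [Matrix.smul_apply, PowerSeries.coeff_smul, smul_eq_mul]

private theorem coeff_M (𝓡 : Ray N) (x : ℂ) (i j : Fin N) (n : ℕ) :
    PowerSeries.coeff n (𝓡.M.map (ev x) i j) = 𝓡.Mc x n i j := by
  rw [Matrix.map_apply, coeff_ev]
  rfl

private theorem Wc_zero (𝓡 : Ray N) (x z : ℂ) : 𝓡.Wc x z 0 = 1 := by
  rw [Ray.Wc]

private theorem Wc_succ (𝓡 : Ray N) (x : ℂ) {z : ℂ} (hz : z ≠ 0) (n : ℕ) (i j : Fin N) :
    z * (𝓡.Wc x z (n + 1) i j * ((n : ℂ) + 1)) =
      ∑ p ∈ Finset.HasAntidiagonal.antidiagonal n, ∑ a, 𝓡.Mc x p.1 i a * 𝓡.Wc x z p.2 a j := by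
  have h1 : 𝓡.Wc x z (n + 1) i j = (((n : ℂ) + 1) * z)⁻¹ *
      ∑ k : Fin (n + 1), ∑ a, 𝓡.Mc x k i a * 𝓡.Wc x z (n - k) a j := by
    rw [Ray.Wc, Matrix.smul_apply, Matrix.sum_apply, smul_eq_mul]
    rfl
  have h2 : ((n : ℂ) + 1) ≠ 0 := by exact_mod_cast Nat.succ_ne_zero n
  rw [h1, Fin.sum_univ_eq_sum_range
    (fun k => ∑ a, 𝓡.Mc x k i a * 𝓡.Wc x z (n - k) a j) (n + 1),
    Finset.Nat.sum_antidiagonal_eq_sum_range_succ
    (fun k l => ∑ a, 𝓡.Mc x k i a * 𝓡.Wc x z l a j) n]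
  field_simp

private theorem Mc_deriv (𝓡 : Ray N) (y w : ℂ) (n : ℕ) (i j : Fin N) :
    HasDerivAt (fun w => 𝓡.Mc (y * Complex.exp w) n i j)
      (PowerSeries.coeff n (fD 𝓡 (y * Complex.exp w) i j)) w := by
  have h1 : HasDerivAt (fun w : ℂ => y * Complex.exp w) (y * Complex.exp w) w :=
    (Complex.hasDerivAt_exp w).const_mul y
  have h2 := ((PowerSeries.coeff n (𝓡.M i j)).hasDerivAt (y * Complex.exp w)).comp w h1
  have h3 : PowerSeries.coeff n (fD 𝓡 (y * Complex.exp w) i j) =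
      (Polynomial.derivative (PowerSeries.coeff n (𝓡.M i j))).eval (y * Complex.exp w) *
        (y * Complex.exp w) := by
    rw [coeff_fD]
    unfold lamD
    rw [PowerSeries.coeff_mk, Polynomial.eval_mul, Polynomial.eval_X, mul_comm]
  rw [h3]
  exact h2

private theorem Wc_diff (𝓡 : Ray N) (y : ℂ) (n : ℕ) : ∀ i j,
    Differentiable ℂ (fun w => 𝓡.Wc (y * Complex.exp w) (Complex.exp w) n i j) := by
  induction n using Nat.strong_induction_on with
  | _ n ih =>
    intro i j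
    rcases n with _ | n
    · have : (fun w => 𝓡.Wc (y * Complex.exp w) (Complex.exp w) 0 i j) =
          fun _ => (1 : Matrix (Fin N) (Fin N) ℂ) i j := by
        funext w
        rw [Wc_zero]
      rw [this]
      exact differentiable_const _
    · have h2 : ((n : ℂ) + 1) ≠ 0 := by exact_mod_cast Nat.succ_ne_zero n
      have : (fun w => 𝓡.Wc (y * Complex.exp w) (Complex.exp w) (n + 1) i j) =
          fun w => Complex.exp (-w) * (((n : ℂ) + 1)⁻¹ *
            ∑ p ∈ Finset.HasAntidiagonal.antidiagonal n,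
              ∑ a, 𝓡.Mc (y * Complex.exp w) p.1 i a *
                𝓡.Wc (y * Complex.exp w) (Complex.exp w) p.2 a j) := by
        funext w
        rw [← Wc_succ 𝓡 _ (Complex.exp_ne_zero w), Complex.exp_neg]
        have := Complex.exp_ne_zero w
        field_simp
      rw [this]
      refine Differentiable.mul (by fun_prop) (Differentiable.const_mul ?_ _)
      refine Differentiable.fun_sum fun p hp => Differentiable.fun_sum fun a _ => ?_
      rw [Finset.HasAntidiagonal.mem_antidiagonal] at hp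
      refine Differentiable.mul (fun w => (Mc_deriv 𝓡 y w p.1 i a).differentiableAt) ?_
      exact ih p.2 (by omega) a j

private theorem ray_h1 (𝓡 : Ray N) (x : ℂ) {z : ℂ} (hz : z ≠ 0) :
    z • dM (fW 𝓡 x z) = 𝓡.M.map (ev x) * fW 𝓡 x z := by
  refine Matrix.ext fun i j => PowerSeries.ext fun n => ?_
  have h1 : PowerSeries.coeff n ((z • dM (fW 𝓡 x z)) i j) =
      z * (𝓡.Wc x z (n + 1) i j * ((n : ℂ) + 1)) := by
    rw [coeff_msmul, coeff_dM, coeff_fW]
  rw [h1, Wc_succ 𝓡 x hz, Matrix.mul_apply, map_sum, Finset.sum_comm]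
  refine Finset.sum_congr rfl fun a _ => ?_
  rw [PowerSeries.coeff_mul]
  refine Finset.sum_congr rfl fun p _ => ?_
  rw [coeff_M, coeff_fW]

private theorem ray_h2 (𝓡 : Ray N) (y w : ℂ) :
    Complex.exp w • dM (fW 𝓡 (y * Complex.exp w) (Complex.exp w)) +
        Complex.exp w • dM (fV 𝓡 y w) =
      fD 𝓡 (y * Complex.exp w) * fW 𝓡 (y * Complex.exp w) (Complex.exp w) +
        𝓡.M.map (ev (y * Complex.exp w)) * fV 𝓡 y w := by
  refine Matrix.ext fun i j => PowerSeries.ext fun n => ?_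
  have d1 : HasDerivAt (fun w => Complex.exp w *
      (𝓡.Wc (y * Complex.exp w) (Complex.exp w) (n + 1) i j * ((n : ℂ) + 1)))
      (Complex.exp w * (𝓡.Wc (y * Complex.exp w) (Complex.exp w) (n + 1) i j * ((n : ℂ) + 1)) +
        Complex.exp w * (deriv (fun w => 𝓡.Wc (y * Complex.exp w) (Complex.exp w) (n + 1) i j) w *
          ((n : ℂ) + 1))) w :=
    (Complex.hasDerivAt_exp w).mul
      ((Wc_diff 𝓡 y (n + 1) i j w).hasDerivAt.mul_const ((n : ℂ) + 1))
  have d2 : HasDerivAt (fun w => ∑ p ∈ Finset.HasAntidiagonal.antidiagonal n,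
      ∑ a, 𝓡.Mc (y * Complex.exp w) p.1 i a * 𝓡.Wc (y * Complex.exp w) (Complex.exp w) p.2 a j)
      (∑ p ∈ Finset.HasAntidiagonal.antidiagonal n, ∑ a,
        (PowerSeries.coeff p.1 (fD 𝓡 (y * Complex.exp w) i a) *
          𝓡.Wc (y * Complex.exp w) (Complex.exp w) p.2 a j +
        𝓡.Mc (y * Complex.exp w) p.1 i a *
          deriv (fun w => 𝓡.Wc (y * Complex.exp w) (Complex.exp w) p.2 a j) w)) w :=
    HasDerivAt.fun_sum fun p _ => HasDerivAt.fun_sum fun a _ =>
      (Mc_deriv 𝓡 y w p.1 i a).mul (Wc_diff 𝓡 y p.2 a j w).hasDerivAt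
  have hfun : (fun w => Complex.exp w *
      (𝓡.Wc (y * Complex.exp w) (Complex.exp w) (n + 1) i j * ((n : ℂ) + 1))) =
      fun w => ∑ p ∈ Finset.HasAntidiagonal.antidiagonal n,
      ∑ a, 𝓡.Mc (y * Complex.exp w) p.1 i a * 𝓡.Wc (y * Complex.exp w) (Complex.exp w) p.2 a j := by
    funext w
    exact Wc_succ 𝓡 _ (Complex.exp_ne_zero w) n i j
  rw [hfun] at d1
  have heq := d1.unique d2
  have h1 : PowerSeries.coeff n ((Complex.exp w •
        dM (fW 𝓡 (y * Complex.exp w) (Complex.exp w)) + Complex.exp w • dM (fV 𝓡 y w)) i j) =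
      Complex.exp w * (𝓡.Wc (y * Complex.exp w) (Complex.exp w) (n + 1) i j * ((n : ℂ) + 1)) +
        Complex.exp w * (deriv (fun w => 𝓡.Wc (y * Complex.exp w) (Complex.exp w) (n + 1) i j) w *
          ((n : ℂ) + 1)) := by
    rw [Matrix.add_apply, map_add, coeff_msmul, coeff_msmul, coeff_dM, coeff_dM, coeff_fW,
      coeff_fV]
  rw [h1, heq, Matrix.add_apply, Matrix.mul_apply, Matrix.mul_apply, ← Finset.sum_add_distrib,
    map_sum, Finset.sum_comm]
  refine Finset.sum_congr rfl fun a _ => ?_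
  rw [map_add, PowerSeries.coeff_mul, PowerSeries.coeff_mul, ← Finset.sum_add_distrib]
  refine Finset.sum_congr rfl fun p _ => ?_
  rw [coeff_M, coeff_fW, coeff_fV]

private theorem ray_h3 (𝓡 : Ray N) (x : ℂ) :
    dM (𝓡.C.map (ev x)) = fθ 𝓡 * 𝓡.M.map (ev x) - 𝓡.M.map (ev x) * fθ 𝓡 + 𝓡.M.map (ev x) -
      fD 𝓡 x := by
  refine Matrix.ext fun i j => ?_
  have h1 : dM (𝓡.C.map (ev x)) i j = PowerSeries.C (𝓡.Q.θ i - 𝓡.Q.θ j) * ev x (𝓡.M i j) +
      ev x (𝓡.M i j) - ev x (lamD (𝓡.M i j)) := by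
    show PowerSeries.derivative ℂ (ev x (𝓡.C i j)) = _
    rw [ev_deriv, 𝓡.eul i j, map_sub, map_add, map_mul, ev_C, Polynomial.eval_C]
  rw [h1, Matrix.sub_apply, Matrix.add_apply, Matrix.sub_apply]
  unfold fθ
  rw [Matrix.diagonal_mul, Matrix.mul_diagonal]
  show _ = PowerSeries.C (𝓡.Q.θ i) * ev x (𝓡.M i j) - ev x (𝓡.M i j) * PowerSeries.C (𝓡.Q.θ j) +
    ev x (𝓡.M i j) - ev x (lamD (𝓡.M i j))
  rw [map_sub]
  ring

private theorem ray_h4 (𝓡 : Ray N) (x : ℂ) :
    𝓡.M.map (ev x) * 𝓡.C.map (ev x) = 𝓡.C.map (ev x) * 𝓡.M.map (ev x) := by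
  rw [← Matrix.map_mul, ← Matrix.map_mul, 𝓡.comm]

private theorem ray_0 (𝓡 : Ray N) (y w : ℂ) (i j : Fin N) :
    PowerSeries.coeff 0 ((fV 𝓡 y w - (fθ 𝓡 * fW 𝓡 (y * Complex.exp w) (Complex.exp w) -
      fW 𝓡 (y * Complex.exp w) (Complex.exp w) * fθ 𝓡 - (Complex.exp w)⁻¹ •
      (𝓡.C.map (ev (y * Complex.exp w)) * fW 𝓡 (y * Complex.exp w) (Complex.exp w) -
        fW 𝓡 (y * Complex.exp w) (Complex.exp w) * f0 𝓡 (y * Complex.exp w)))) i j) = 0 := by
  set x := y * Complex.exp w with hx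
  set z := Complex.exp w with hz
  set κ : Matrix (Fin N) (Fin N) (PowerSeries ℂ) →+* Matrix (Fin N) (Fin N) ℂ :=
    (PowerSeries.constantCoeff (R := ℂ)).mapMatrix with hκ
  have hW : κ (fW 𝓡 x z) = 1 := by
    refine Matrix.ext fun a b => ?_
    show PowerSeries.constantCoeff (fW 𝓡 x z a b) = _
    rw [← PowerSeries.coeff_zero_eq_constantCoeff_apply, coeff_fW, Wc_zero]
  have hC : κ (𝓡.C.map (ev x)) = κ (f0 𝓡 x) := by
    refine Matrix.ext fun a b => ?_
    show PowerSeries.constantCoeff (ev x (𝓡.C a b)) =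
      PowerSeries.constantCoeff (PowerSeries.C (𝓡.Q.C x a b))
    rw [← PowerSeries.coeff_zero_eq_constantCoeff_apply, coeff_ev, 𝓡.C_zero x a b,
      PowerSeries.constantCoeff_C, PowerSeries.coeff_zero_eq_constantCoeff_apply]
  have hV : PowerSeries.coeff 0 (fV 𝓡 y w i j) = 0 := by
    rw [coeff_fV]
    have : (fun w => 𝓡.Wc (y * Complex.exp w) (Complex.exp w) 0 i j) =
        fun _ => (1 : Matrix (Fin N) (Fin N) ℂ) i j := by
      funext w
      rw [Wc_zero]
    rw [this, deriv_const]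
  have e1 : κ (fθ 𝓡 * fW 𝓡 x z - fW 𝓡 x z * fθ 𝓡) = 0 := by
    rw [map_sub, map_mul, map_mul, hW, mul_one, one_mul, sub_self]
  have e2 : κ (𝓡.C.map (ev x) * fW 𝓡 x z - fW 𝓡 x z * f0 𝓡 x) = 0 := by
    rw [map_sub, map_mul, map_mul, hW, mul_one, one_mul, hC, sub_self]
  have e3 : PowerSeries.coeff 0 ((fθ 𝓡 * fW 𝓡 x z - fW 𝓡 x z * fθ 𝓡) i j) = 0 := by
    rw [PowerSeries.coeff_zero_eq_constantCoeff_apply]
    exact congrFun (congrFun e1 i) j
  have e4 : PowerSeries.coeff 0 ((𝓡.C.map (ev x) * fW 𝓡 x z - fW 𝓡 x z * f0 𝓡 x) i j) = 0 := by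
    rw [PowerSeries.coeff_zero_eq_constantCoeff_apply]
    exact congrFun (congrFun e2 i) j
  rw [Matrix.sub_apply, Matrix.sub_apply, Matrix.smul_apply, map_sub, map_sub, e3, hV,
    PowerSeries.coeff_smul, e4, smul_zero, sub_zero, sub_zero]

private theorem fV_eq (𝓡 : Ray N) (y w : ℂ) :
    fV 𝓡 y w = fθ 𝓡 * fW 𝓡 (y * Complex.exp w) (Complex.exp w) -
      fW 𝓡 (y * Complex.exp w) (Complex.exp w) * fθ 𝓡 - (Complex.exp w)⁻¹ •
      (𝓡.C.map (ev (y * Complex.exp w)) * fW 𝓡 (y * Complex.exp w) (Complex.exp w) -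
        fW 𝓡 (y * Complex.exp w) (Complex.exp w) * f0 𝓡 (y * Complex.exp w)) := by
  refine formal_id (Complex.exp_ne_zero w) ?_ ?_ (ray_h1 𝓡 _ (Complex.exp_ne_zero w))
    (ray_h2 𝓡 y w) (ray_h3 𝓡 _) (ray_h4 𝓡 _) (ray_0 𝓡 y w)
  · refine Matrix.ext fun i j => ?_
    show PowerSeries.derivative ℂ (Matrix.diagonal (fun i => PowerSeries.C (𝓡.Q.θ i)) i j) = 0
    rw [Matrix.diagonal_apply]
    split_ifs
    · exact PowerSeries.derivative_C
    · exact map_zero _
  · refine Matrix.ext fun i j => ?_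
    exact PowerSeries.derivative_C

theorem Ray.W_ode_w (𝓡 : Ray N) {s y w : ℂ} (hs : ‖s‖ < 𝓡.R) (hx : ‖y * Complex.exp w‖ < 𝓡.r)
    (i j : Fin N) :
    HasDerivAt (fun w => 𝓡.W s (y * Complex.exp w) (Complex.exp w) i j)
      (((Matrix.diagonal 𝓡.Q.θ - Complex.exp (-w) • 𝓡.Cv s (y * Complex.exp w)) *
          𝓡.W s (y * Complex.exp w) (Complex.exp w) -
        𝓡.W s (y * Complex.exp w) (Complex.exp w) *
          (Matrix.diagonal 𝓡.Q.θ - Complex.exp (-w) • 𝓡.Q.C (y * Complex.exp w))) i j) w := by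
  have hz : 0 < ‖Complex.exp w‖ := norm_pos_iff.mpr (Complex.exp_ne_zero w)
  have hR := 𝓡.hR
  have hs0 := norm_nonneg s
  obtain ⟨R', hR', hR'R⟩ := exists_between hs
  have hR'0 : 0 < R' := by linarith
  obtain ⟨B, hB⟩ := 𝓡.Wc_bound (δ := ‖Complex.exp w‖ / 2) (R' := R')
    (by linarith) (by linarith) (by linarith)
  set x := y * Complex.exp w with hxd
  set U : Set ℂ := {w' | ‖y * Complex.exp w'‖ < 𝓡.r ∧ ‖Complex.exp w‖ / 2 < ‖Complex.exp w'‖}
    with hU
  have hUo : IsOpen U := by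
    have o1 : IsOpen {w' : ℂ | ‖y * Complex.exp w'‖ < 𝓡.r} :=
      isOpen_lt (by fun_prop) continuous_const
    have o2 : IsOpen {w' : ℂ | ‖Complex.exp w‖ / 2 < ‖Complex.exp w'‖} :=
      isOpen_lt continuous_const (by fun_prop)
    exact o1.inter o2
  have hwU : w ∈ U := ⟨hx, by linarith⟩
  have hu : Summable fun n : ℕ => B * (‖s‖ / R') ^ n := by
    refine Summable.mul_left _ (summable_geometric_of_lt_one (by positivity) ?_)
    rw [div_lt_one hR'0]
    exact hR'
  have hterm : ∀ (i j : Fin N) (n : ℕ) (w' : ℂ), w' ∈ U →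
      ‖s ^ n * 𝓡.Wc (y * Complex.exp w') (Complex.exp w') n i j‖ ≤ B * (‖s‖ / R') ^ n := by
    intro i j n w' hw'
    rw [norm_mul, norm_pow]
    have h1 := hB (y * Complex.exp w') (Complex.exp w') hw'.1.le hw'.2.le n i j
    calc ‖s‖ ^ n * ‖𝓡.Wc (y * Complex.exp w') (Complex.exp w') n i j‖
        ≤ ‖s‖ ^ n * (B / R' ^ n) := mul_le_mul_of_nonneg_left h1 (by positivity)
      _ = B * (‖s‖ / R') ^ n := by
        rw [div_pow]
        ring
  have hdiff : ∀ n : ℕ, DifferentiableOn ℂ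
      (fun w' => s ^ n * 𝓡.Wc (y * Complex.exp w') (Complex.exp w') n i j) U := fun n =>
    ((Wc_diff 𝓡 y n i j).const_mul _).differentiableOn
  have h1 := Complex.hasSum_deriv_of_summable_norm hu hdiff hUo (hterm i j) hwU
  have h2 := (Complex.differentiableOn_tsum_of_summable_norm hu hdiff hUo
    (hterm i j)).differentiableAt (hUo.mem_nhds hwU)
  have h3 : deriv (fun w' => ∑' n, s ^ n * 𝓡.Wc (y * Complex.exp w') (Complex.exp w') n i j) w =
      vl s (fV 𝓡 y w i j) := by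
    rw [← h1.tsum_eq]
    unfold vl
    refine tsum_congr fun n => ?_
    rw [deriv_const_mul _ (Wc_diff 𝓡 y n i j w), coeff_fV]
  have h4 := h2.hasDerivAt
  rw [h3] at h4
  have aW : AV s (fW 𝓡 x (Complex.exp w)) := by
    intro a b
    have : Summable fun n : ℕ => ‖s ^ n * 𝓡.Wc x (Complex.exp w) n a b‖ :=
      Summable.of_nonneg_of_le (fun n => norm_nonneg _) (fun n => hterm a b n w hwU) hu
    refine this.congr fun n => ?_
    rw [coeff_fW]
  have vW : VL s (fW 𝓡 x (Complex.exp w)) = 𝓡.W s x (Complex.exp w) := by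
    refine Matrix.ext fun a b => ?_
    show ∑' n, s ^ n * PowerSeries.coeff n (fW 𝓡 x (Complex.exp w) a b) =
      ∑' n, s ^ n * 𝓡.Wc x (Complex.exp w) n a b
    refine tsum_congr fun n => ?_
    rw [coeff_fW]
  have aθ : AV s (fθ 𝓡) := by
    intro a b
    unfold fθ
    rw [Matrix.diagonal_apply]
    split_ifs
    · exact (av_C s _).1
    · exact (av_zero s).1
  have vθ : VL s (fθ 𝓡) = Matrix.diagonal 𝓡.Q.θ := by
    refine Matrix.ext fun a b => ?_
    show vl s (Matrix.diagonal (fun i => PowerSeries.C (𝓡.Q.θ i)) a b) = _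
    rw [Matrix.diagonal_apply, Matrix.diagonal_apply]
    split_ifs
    · exact (av_C s _).2
    · exact (av_zero s).2
  have a0 : AV s (f0 𝓡 x) := fun a b => (av_C s _).1
  have v0 : VL s (f0 𝓡 x) = 𝓡.Q.C x := Matrix.ext fun a b => (av_C s _).2
  have aC : AV s (𝓡.C.map (ev x)) := by
    intro a b
    have h5 := evs_summable (by linarith : (0 : ℝ) ≤ 𝓡.R) 𝓡.hr.le (𝓡.C_conv a b) hs.le hx.le
    refine h5.congr fun n => ?_
    show _ = ‖s ^ n * PowerSeries.coeff n (ev x (𝓡.C a b))‖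
    rw [coeff_ev]
  have vC : VL s (𝓡.C.map (ev x)) = 𝓡.Cv s x := Matrix.ext fun a b => vl_ev s x (𝓡.C a b)
  have m1 := AV_mul aθ aW
  have m2 := AV_mul aW aθ
  have m3 := AV_mul aC aW
  have m4 := AV_mul aW a0
  have m5 := AV_sub m1.1 m2.1
  have m6 := AV_sub m3.1 m4.1
  have m7 := AV_smul (Complex.exp w)⁻¹ m6.1
  have m8 := AV_sub m5.1 m7.1
  have h5 : VL s (fV 𝓡 y w) = (Matrix.diagonal 𝓡.Q.θ - Complex.exp (-w) • 𝓡.Cv s x) *
      𝓡.W s x (Complex.exp w) - 𝓡.W s x (Complex.exp w) *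
        (Matrix.diagonal 𝓡.Q.θ - Complex.exp (-w) • 𝓡.Q.C x) := by
    rw [fV_eq, m8.2, m7.2, m6.2, m5.2, m4.2, m3.2, m2.2, m1.2, vW, vθ, v0, vC, Complex.exp_neg]
    simp only [sub_mul, mul_sub, Matrix.smul_mul, Matrix.mul_smul, smul_sub]
    abel
  have h6 : vl s (fV 𝓡 y w i j) = ((Matrix.diagonal 𝓡.Q.θ - Complex.exp (-w) • 𝓡.Cv s x) *
      𝓡.W s x (Complex.exp w) - 𝓡.W s x (Complex.exp w) *
        (Matrix.diagonal 𝓡.Q.θ - Complex.exp (-w) • 𝓡.Q.C x)) i j := by
    rw [← h5]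
    rfl
  rw [← h6]
  exact h4

/-- The flat sections at `t + s v` satisfy the quantum differential equation. -/
theorem Ray.J_ode (𝓡 : Ray N) {s y w : ℂ} (hs : ‖s‖ < 𝓡.R) (hx : ‖y * Complex.exp w‖ < 𝓡.r)
    (i j : Fin N) :
    HasDerivAt (fun w => 𝓡.J s y w i j)
      (((Matrix.diagonal 𝓡.Q.θ - Complex.exp (-w) • 𝓡.Cv s (y * Complex.exp w)) *
        𝓡.J s y w) i j) w := by
  have hΛ : y * Complex.exp w ∈ 𝓡.Q.Λ := by
    rw [𝓡.Λ_univ]
    exact Set.mem_univ _
  have h1 : HasDerivAt (fun w => ∑ a, 𝓡.W s (y * Complex.exp w) (Complex.exp w) i a * 𝓡.Q.J y w a j)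
      (∑ a, (((Matrix.diagonal 𝓡.Q.θ - Complex.exp (-w) • 𝓡.Cv s (y * Complex.exp w)) *
          𝓡.W s (y * Complex.exp w) (Complex.exp w) -
        𝓡.W s (y * Complex.exp w) (Complex.exp w) *
          (Matrix.diagonal 𝓡.Q.θ - Complex.exp (-w) • 𝓡.Q.C (y * Complex.exp w))) i a *
          𝓡.Q.J y w a j +
        𝓡.W s (y * Complex.exp w) (Complex.exp w) i a *
          (((Matrix.diagonal 𝓡.Q.θ - Complex.exp (-w) • 𝓡.Q.C (y * Complex.exp w)) *
            𝓡.Q.J y w) a j))) w :=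
    HasDerivAt.fun_sum fun a _ => (𝓡.W_ode_w hs hx i a).mul (𝓡.Q.J_ode y w hΛ a j)
  have h2 : (∑ a, (((Matrix.diagonal 𝓡.Q.θ - Complex.exp (-w) • 𝓡.Cv s (y * Complex.exp w)) *
          𝓡.W s (y * Complex.exp w) (Complex.exp w) -
        𝓡.W s (y * Complex.exp w) (Complex.exp w) *
          (Matrix.diagonal 𝓡.Q.θ - Complex.exp (-w) • 𝓡.Q.C (y * Complex.exp w))) i a *
          𝓡.Q.J y w a j +
        𝓡.W s (y * Complex.exp w) (Complex.exp w) i a *
          (((Matrix.diagonal 𝓡.Q.θ - Complex.exp (-w) • 𝓡.Q.C (y * Complex.exp w)) *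
            𝓡.Q.J y w) a j))) =
      ((Matrix.diagonal 𝓡.Q.θ - Complex.exp (-w) • 𝓡.Cv s (y * Complex.exp w)) *
        𝓡.J s y w) i j := by
    rw [Finset.sum_add_distrib, ← Matrix.mul_apply, ← Matrix.mul_apply, ← Matrix.add_apply]
    have h3 : ∀ (A B W J : Matrix (Fin N) (Fin N) ℂ),
        (A * W - W * B) * J + W * (B * J) = A * (W * J) := by
      intro A B W J
      rw [Matrix.sub_mul, Matrix.mul_assoc, Matrix.mul_assoc, sub_add_cancel]
    rw [h3]
    rfl
  rw [← h2]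
  exact h1

end Pool.Agent.DST
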