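import Pool.Agent.DST.VWb
import Pool.Agent.DST.VWode

/-!
# DST-EWLim: from `t` to `t + v`
-/

open scoped BigOperators Topology
open Filter

namespace Pool.Agent.DST

open Pool.Agent.Helper18.Dub Pool.Agent.Helper7.DubStokes Pool.Agent.SHF

variable {N : ℕ} {X : FanoGW (Fin N)} {t t' : Fin N → ℂ}

private theorem ewl_mul {f g : ℂ → Matrix (Fin N) (Fin N) ℂ} {f' g' : Matrix (Fin N) (Fin N) ℂ}
    {s : ℂ} (hf : ∀ i j, HasDerivAt (fun s => f s i j) (f' i j) s)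
    (hg : ∀ i j, HasDerivAt (fun s => g s i j) (g' i j) s) (i j : Fin N) :
    HasDerivAt (fun s => (f s * g s) i j) ((f' * g s + f s * g') i j) s := by
  simp only [Matrix.mul_apply, Matrix.add_apply]
  rw [← Finset.sum_add_distrib]
  exact HasDerivAt.fun_sum fun k _ => (hf i k).mul (hg k j)

private theorem ewl_prod {A B : Matrix (Fin N) (Fin N) ℂ} {a b : ℝ} (hA : ∀ i j, ‖A i j‖ ≤ a)
    (hB : ∀ i j, ‖B i j‖ ≤ b) (i j : Fin N) : ‖(A * B) i j‖ ≤ N * (a * b) := by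
  rw [Matrix.mul_apply]
  calc ‖∑ k, A i k * B k j‖ ≤ ∑ k : Fin N, a * b := by
        refine norm_sum_le_of_le _ fun k _ => ?_
        rw [norm_mul]
        exact mul_le_mul (hA i k) (hB k j) (norm_nonneg _) ((norm_nonneg _).trans (hA i k))
    _ = N * (a * b) := by simp

private theorem ewl_bound (𝓡 : Ray N) {s : ℂ} (hs : ‖s‖ < 𝓡.R) : ∃ B : ℝ, ∀ z : ℂ, 1 ≤ ‖z‖ →
    ∀ i j, ‖𝓡.W s 0 z i j - (1 : Matrix (Fin N) (Fin N) ℂ) i j‖ ≤ B * ‖z‖⁻¹ := by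
  obtain ⟨C, hC⟩ := 𝓡.W_bound hs 𝓡.hr
  obtain ⟨k, hk⟩ := 𝓡.v_bound
  obtain ⟨D, hD⟩ : ∃ D : ℝ, D = |C| * Real.exp |C| := ⟨_, rfl⟩
  refine ⟨N * (k * D) * ‖s‖, fun z hz i j => ?_⟩
  have hz0 : z ≠ 0 := by
    intro h
    rw [h, norm_zero] at hz
    linarith
  have hz1 : 0 < ‖z‖ := norm_pos_iff.2 hz0
  have hW : ∀ u ∈ Metric.closedBall (0 : ℂ) ‖s‖, ∀ i j, ‖𝓡.W u 0 z i j‖ ≤ D := by
    intro u hu i j
    have hu' : ‖u‖ ≤ ‖s‖ := by simpa using hu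
    refine (hC u 0 z hu' (by rw [norm_zero]) hz0 i j).1.trans ?_
    rw [hD]
    refine mul_le_mul (le_abs_self _) (Real.exp_le_exp.2 ?_) (Real.exp_pos _).le (abs_nonneg _)
    refine (div_le_div_of_nonneg_right (le_abs_self C) hz1.le).trans ?_
    exact div_le_self (abs_nonneg _) hz
  have hd : ∀ u ∈ Metric.closedBall (0 : ℂ) ‖s‖, HasDerivWithinAt (fun u => 𝓡.W u 0 z i j)
      ((z⁻¹ • (𝓡.Mv u 0 * 𝓡.W u 0 z)) i j) (Metric.closedBall (0 : ℂ) ‖s‖) u := by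
    intro u hu
    have hu' : ‖u‖ ≤ ‖s‖ := by simpa using hu
    exact (𝓡.W_ode (lt_of_le_of_lt hu' hs) (by rw [norm_zero]; exact 𝓡.hr) hz0 i
      j).hasDerivWithinAt
  have hb : ∀ u ∈ Metric.closedBall (0 : ℂ) ‖s‖, ‖(z⁻¹ • (𝓡.Mv u 0 * 𝓡.W u 0 z)) i j‖ ≤
      ‖z‖⁻¹ * (N * (k * D)) := by
    intro u hu
    have hu' : ‖u‖ ≤ ‖s‖ := by simpa using hu
    rw [Matrix.smul_apply, norm_smul, norm_inv]
    refine mul_le_mul_of_nonneg_left ?_ (inv_nonneg.2 hz1.le)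
    exact ewl_prod (fun i j => (hk u 0 (hu'.trans hs.le) (by rw [norm_zero]; exact 𝓡.hr.le) i j).1)
      (hW u hu) i j
  have h := (convex_closedBall (0 : ℂ) ‖s‖).norm_image_sub_le_of_norm_hasDerivWithin_le hd hb
    (Metric.mem_closedBall_self (norm_nonneg _)) (by simp : s ∈ Metric.closedBall (0 : ℂ) ‖s‖)
  rw [𝓡.W_zero, sub_zero] at h
  refine h.trans_eq ?_
  ring

theorem Ray.W_lim (𝓡 : Ray N) {s : ℂ} (hs : ‖s‖ < 𝓡.R) :
    Tendsto (fun z => 𝓡.W s 0 z) (Bornology.cobounded ℂ) (𝓝 1) := by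
  obtain ⟨B, hB⟩ := ewl_bound 𝓡 hs
  refine tendsto_pi_nhds.2 fun i => tendsto_pi_nhds.2 fun j => ?_
  rw [tendsto_iff_norm_sub_tendsto_zero]
  have h1 : Tendsto (fun z : ℂ => B * ‖z‖⁻¹) (Bornology.cobounded ℂ) (𝓝 0) := by
    have h2 : Tendsto (fun z : ℂ => ‖z‖⁻¹) (Bornology.cobounded ℂ) (𝓝 0) :=
      tendsto_inv_atTop_zero.comp tendsto_norm_cobounded_atTop
    simpa using h2.const_mul B
  refine squeeze_zero' (Eventually.of_forall fun z => norm_nonneg _) ?_ h1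
  have h3 : ∀ᶠ z : ℂ in Bornology.cobounded ℂ, 1 ≤ ‖z‖ :=
    tendsto_norm_cobounded_atTop.eventually_ge_atTop 1
  filter_upwards [h3] with z hz
  exact hB z hz i j

theorem Ray.W_sol (𝓡 : Ray N) (h0 : 𝓡.Q.C 0 = eulerMat X t) (h1 : 𝓡.Cv 1 0 = eulerMat X t')
    (hθ : Matrix.diagonal 𝓡.Q.θ = theta X) {Y : ℂ → Matrix (Fin N) (Fin N) ℂ}
    (hY : IsSolution X t Y) : IsSolution X t' (fun w => 𝓡.W 1 0 (Complex.exp w) * Y w) := by
  intro w i j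
  have h1 : ∀ i j, HasDerivAt (fun w => 𝓡.W 1 0 (Complex.exp w) i j)
      (((theta X - Complex.exp (-w) • eulerMat X t') * 𝓡.W 1 0 (Complex.exp w) -
        𝓡.W 1 0 (Complex.exp w) * (theta X - Complex.exp (-w) • eulerMat X t)) i j) w := by
    intro i j
    have h2 := 𝓡.W_ode_w (s := 1) (y := 0) (w := w) (by rw [norm_one]; exact 𝓡.hR)
      (by rw [zero_mul, norm_zero]; exact 𝓡.hr) i j
    simp only [zero_mul] at h2
    rw [h0, h1, hθ] at h2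
    exact h2
  have h3 := ewl_mul (f := fun w => 𝓡.W 1 0 (Complex.exp w)) (g := Y) h1 (hY w) i j
  have h4 : ((theta X - Complex.exp (-w) • eulerMat X t') * 𝓡.W 1 0 (Complex.exp w) -
        𝓡.W 1 0 (Complex.exp w) * (theta X - Complex.exp (-w) • eulerMat X t)) * Y w +
      𝓡.W 1 0 (Complex.exp w) * ((theta X - Complex.exp (-w) • eulerMat X t) * Y w) =
      (theta X - Complex.exp (-w) • eulerMat X t') * (𝓡.W 1 0 (Complex.exp w) * Y w) := by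
    rw [Matrix.sub_mul, Matrix.mul_assoc, Matrix.mul_assoc, sub_add_cancel]
  rw [h4] at h3
  exact h3

end Pool.Agent.DST
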