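import Pool.Agent.DST.FPol
import Pool.Agent.DST.FToC
import Pool.Agent.DST.DIface

/-!
# DST-FQ: the quantum system of the `Γ`-solutions

PLAN. `Λ = univ`, `θ a = dim/2 - deg a`, `C x = evm (chernT …) x`, `g x = evm T.pairT x`,
`S x z = evm₂ T.S x z`, `J y w = c • T.J y w` with `c = (I/√(2π))^dim`, `χ = T.χ.map toC`.
`C_hol`, `S_hol`: `diff_evm`, `diff_evm₂`. `g_hol`: `(diff_evm ..).differentiableAt.hasDerivAt`.
`g_hom`: `pair_hom`; `g_symm`, `g_det`, `C_self`: `pair_symm'`, `pair_det_ne`, `chernT_self`.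
`S_det`: `det_evm₂` and `T.isUnit_S` (the value of a unit is a unit).
`J_hol`: `T.J_entire`; `J_ode`: `T.J_ode` times `c` (`theta X = diagonal θ`); `J_shift`: `T.J_shift`.
`J_pair`: `gamma_pair`; `c ^ 2 = (-(2π))^(-dim)` (as `(I/√(2π))^2 = -1/(2π)`), and
`(T.χ.map toC).map (evq y) = T.χ.map (evZ y)` by `evq_toC`.
`J_growth`: `gamma_growth` for `T.J`; the entries of `c • J` are at most those of `J` (`‖c‖ ≤ 1`),
`(c • J)⁻¹ = c⁻¹ • J⁻¹` (`Matrix.inv_smul` needs a unit; or `Matrix.inv_eq_right_inv`; if `J` is not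
invertible both sides vanish), `‖c⁻¹‖ ≤ exp(C' |im y|)` for `1 ≤ |im y|`; enlarge `C`.
`χ_det`: `(T.χ.map toC).det = toC T.χ.det`, a unit by `T.χ_unit`. `χ_int`: `intL_toC`.
-/

open scoped BigOperators Topology
open Filter

namespace Pool.Agent.DST

open Pool.Agent.Helper18.Dub Pool.Agent.Helper7.DubStokes Pool.Agent.SHF

variable {N : ℕ} {X : FanoGW (Fin N)} {t : Fin N → ℂ}

/-- The normalising constant. -/
private noncomputable def cst (X : FanoGW (Fin N)) : ℂ :=
  (Complex.I / (Real.sqrt (2 * Real.pi) : ℂ)) ^ X.dim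

private theorem base_ne : (Complex.I / (Real.sqrt (2 * Real.pi) : ℂ)) ≠ 0 := by
  have h : (Real.sqrt (2 * Real.pi) : ℂ) ≠ 0 := by
    have h1 : Real.sqrt (2 * Real.pi) ≠ 0 := (Real.sqrt_pos.mpr (by positivity)).ne'
    exact_mod_cast h1
  exact div_ne_zero Complex.I_ne_zero h

private theorem cst_ne (X : FanoGW (Fin N)) : cst X ≠ 0 := pow_ne_zero _ base_ne

private theorem base_sq : (Complex.I / (Real.sqrt (2 * Real.pi) : ℂ)) ^ 2 *
    (-(2 * Real.pi) : ℂ) = 1 := by
  have h : ((Real.sqrt (2 * Real.pi) : ℝ) : ℂ) ^ 2 = 2 * Real.pi := by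
    have h1 : Real.sqrt (2 * Real.pi) ^ 2 = 2 * Real.pi := Real.sq_sqrt (by positivity)
    exact_mod_cast h1
  have hpi : (Real.pi : ℂ) ≠ 0 := by exact_mod_cast Real.pi_ne_zero
  rw [div_pow, Complex.I_sq, h]
  field_simp

private theorem cst_sq (X : FanoGW (Fin N)) :
    cst X * cst X * ((-(2 * Real.pi)) ^ X.dim : ℂ) = 1 := by
  unfold cst
  rw [← mul_pow, ← mul_pow, ← pow_two, base_sq, one_pow]

private theorem norm_cst_le (X : FanoGW (Fin N)) : ‖cst X‖ ≤ 1 := by
  unfold cst
  rw [norm_pow]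
  refine pow_le_one₀ (norm_nonneg _) ?_
  rw [norm_div, Complex.norm_I, Complex.norm_real, Real.norm_of_nonneg (Real.sqrt_nonneg _)]
  have h1 : (1 : ℝ) ≤ Real.sqrt (2 * Real.pi) := by
    rw [Real.le_sqrt' one_pos]
    nlinarith [Real.pi_gt_three]
  rw [div_le_one (by linarith)]
  exact h1

private theorem inv_smul' (c : ℂ) (hc : c ≠ 0) (M : Matrix (Fin N) (Fin N) ℂ) :
    (c • M)⁻¹ = c⁻¹ • M⁻¹ := by
  by_cases hM : IsUnit M.det
  · apply Matrix.inv_eq_right_inv
    rw [Matrix.smul_mul, Matrix.mul_smul, smul_smul, mul_inv_cancel₀ hc, one_smul,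
      Matrix.mul_nonsing_inv _ hM]
  · have h1 : ¬ IsUnit (c • M).det := by
      rw [Matrix.det_smul]
      intro h
      exact hM (isUnit_of_mul_isUnit_right h)
    rw [Matrix.nonsing_inv_apply_not_isUnit _ h1, Matrix.nonsing_inv_apply_not_isUnit _ hM,
      smul_zero]

private theorem map_toC (M : Matrix (Fin N) (Fin N) (LaurentPolynomial ℤ)) (y : ℂ) :
    (M.map toC).map (evq y) = M.map (evZ y) := by
  ext i j
  exact evq_toC y (M i j)

theorem exists_Q (T : GammaGW X t) : ∃ Q : QSys N, IsQ T Q := by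
  refine ⟨{ Λ := Set.univ
            open_Λ := isOpen_univ
            θ := fun a => (X.dim : ℂ) / 2 - X.deg a
            C := fun x => evm (chernT T.toEquivData t T.κ) x
            g := fun x => evm T.pairT x
            S := fun x z => evm₂ T.S x z
            J := fun y w => cst X • T.J y w
            χ := T.χ.map toC
            C_hol := fun x _ i j => diff_evm _ i j x
            g_hol := fun x _ i j => (diff_evm _ i j x).hasDerivAt
            g_hom := fun x _ i j => pair_hom T.toEquivGW x i j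
            g_symm := fun x _ => pair_symm' T.toEquivGW x
            g_det := fun x _ => pair_det_ne T.toEquivGW x
            C_self := fun x _ => chernT_self T.toEquivGW t T.κ x
            S_hol := fun x _ z _ i j => diff_evm₂ _ i j (x, z)
            S_det := ?_
            J_hol := ?_
            J_ode := ?_
            J_shift := ?_
            J_pair := ?_
            J_growth := ?_
            χ_det := ?_
            χ_int := fun i j => intL_toC _ }, ?_⟩
  · intro x _ z _
    rw [det_evm₂]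
    exact (T.isUnit_S.map (Polynomial.evalEvalRingHom x z)).ne_zero
  · intro y w _ i j
    exact (T.J_entire i j (y, w)).const_smul (cst X)
  · intro y w _ i j
    have h := (T.J_ode y w i j).const_mul (cst X)
    have h2 : ((Matrix.diagonal (fun a => (X.dim : ℂ) / 2 - X.deg a) -
        Complex.exp (-w) • evm (chernT T.toEquivData t T.κ) (y * Complex.exp w)) *
          (cst X • T.J y w)) i j = cst X * ((theta X -
        Complex.exp (-w) • evm (chernT T.toEquivData t T.κ) (y * Complex.exp w)) *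
          T.J y w) i j := by
      rw [Matrix.mul_smul]
      rfl
    rw [h2]
    exact h
  · intro y w _ _
    show cst X • T.J y w = _ * (cst X • T.J (y - 1) w)
    rw [Matrix.mul_smul, ← T.J_shift y w]
  · intro y w _
    show (cst X • T.J (-y) (w + Real.pi * Complex.I)).transpose *
      evm T.pairT (y * Complex.exp w) * (cst X • T.J y w) = (T.χ.map toC).map (evq y)
    rw [map_toC, Matrix.transpose_smul, Matrix.smul_mul, Matrix.smul_mul, Matrix.mul_smul,
      gamma_pair, smul_smul, smul_smul, cst_sq, one_smul]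
  · intro l _ a
    obtain ⟨C, hC⟩ := gamma_growth T l a
    refine ⟨max C (C + Real.log ‖(cst X)⁻¹‖), fun y hy hy1 i j => ⟨?_, ?_⟩⟩
    · have h1 := (hC y hy hy1 i j).1
      have h2 : ‖(cst X • T.J y (l - Complex.log y)) i j‖ ≤ ‖T.J y (l - Complex.log y) i j‖ := by
        rw [Matrix.smul_apply, smul_eq_mul, norm_mul]
        exact mul_le_of_le_one_left (norm_nonneg _) (norm_cst_le X)
      refine h2.trans (h1.trans (Real.exp_le_exp.mpr ?_))
      exact mul_le_mul_of_nonneg_right (le_max_left _ _) (abs_nonneg _)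
    · have h1 := (hC y hy hy1 i j).2
      have hpos : 0 < ‖(cst X)⁻¹‖ := norm_pos_iff.mpr (inv_ne_zero (cst_ne X))
      have hlog : 0 ≤ Real.log ‖(cst X)⁻¹‖ := by
        apply Real.log_nonneg
        rw [norm_inv]
        exact (one_le_inv₀ (norm_pos_iff.mpr (cst_ne X))).mpr (norm_cst_le X)
      show ‖(cst X • T.J y (l - Complex.log y))⁻¹ i j‖ ≤ _
      rw [inv_smul' _ (cst_ne X), Matrix.smul_apply, smul_eq_mul, norm_mul]
      calc ‖(cst X)⁻¹‖ * ‖(T.J y (l - Complex.log y))⁻¹ i j‖
          ≤ ‖(cst X)⁻¹‖ * Real.exp (C * |y.im|) := mul_le_mul_of_nonneg_left h1 hpos.le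
        _ = Real.exp (Real.log ‖(cst X)⁻¹‖ + C * |y.im|) := by
            rw [Real.exp_add, Real.exp_log hpos]
        _ ≤ Real.exp (max C (C + Real.log ‖(cst X)⁻¹‖) * |y.im|) := by
            apply Real.exp_le_exp.mpr
            have h3 : Real.log ‖(cst X)⁻¹‖ ≤ Real.log ‖(cst X)⁻¹‖ * |y.im| :=
              le_mul_of_one_le_right hlog hy1
            have h4 : (C + Real.log ‖(cst X)⁻¹‖) * |y.im| ≤
                max C (C + Real.log ‖(cst X)⁻¹‖) * |y.im| :=
              mul_le_mul_of_nonneg_right (le_max_right _ _) (abs_nonneg _)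
            nlinarith
  · have h : (T.χ.map toC).det = toC T.χ.det := (RingHom.map_det toC T.χ).symm
    rw [h]
    exact T.χ_unit.map toC
  · exact { Λ := rfl, θ := fun _ => rfl, C := fun _ => rfl, g := fun _ => rfl,
            S := fun _ _ => rfl, J := fun _ _ => rfl, χ := fun y => map_toC T.χ y }

end Pool.Agent.DST
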