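import Mathlib

/-!
# Cauchy's inequality on the torus for homogeneous polynomials

A bound of a homogeneous polynomial on the unit polydisc bounds every coefficient. The coefficient is
computed by averaging over the roots of unity of order `n + 1`.
-/

open scoped BigOperators Topology
open Filter

namespace Pool.Agent.DST

private lemma geom_root {q : ℕ} {ζ : ℂ} (hζ : IsPrimitiveRoot ζ q) {a b : ℕ} (ha : a < q)
    (hb : b < q) :
    ∑ t : Fin q, (ζ⁻¹ ^ a) ^ (t : ℕ) * (ζ ^ (t : ℕ)) ^ b = if a = b then (q : ℂ) else 0 := by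
  have hq : q ≠ 0 := by omega
  have hζ0 : ζ ≠ 0 := hζ.ne_zero hq
  have e : ∀ t : Fin q, (ζ⁻¹ ^ a) ^ (t : ℕ) * (ζ ^ (t : ℕ)) ^ b = (ζ⁻¹ ^ a * ζ ^ b) ^ (t : ℕ) := by
    intro t
    rw [mul_pow, ← pow_mul ζ, mul_comm (t : ℕ) b, pow_mul]
  rw [Finset.sum_congr rfl fun t _ => e t, Fin.sum_univ_eq_sum_range (fun t => (ζ⁻¹ ^ a * ζ ^ b) ^ t) q]
  split_ifs with hab
  · subst hab
    rw [← mul_pow, inv_mul_cancel₀ hζ0, one_pow]
    simp
  · have hne : ζ⁻¹ ^ a * ζ ^ b ≠ 1 := by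
      intro h
      apply hab
      have h2 : ζ ^ a = ζ ^ b := by
        rw [inv_pow] at h
        field_simp at h
        exact h.symm
      exact hζ.pow_inj ha hb h2
    have h1 : (ζ⁻¹ ^ a * ζ ^ b) ^ q = 1 := by
      rw [mul_pow, ← pow_mul, ← pow_mul, mul_comm a q, mul_comm b q, pow_mul, pow_mul, inv_pow,
        hζ.pow_eq_one]
      simp
    have h3 := geom_sum_eq hne q
    rw [h3, h1, sub_self, zero_div]

theorem cauchy_torus {N n : ℕ} (c : (Fin N →₀ ℕ) → ℂ) {B : ℝ}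
    (hB : ∀ v : Fin N → ℂ, (∀ i, ‖v i‖ ≤ 1) →
      ‖∑ m ∈ Finset.finsuppAntidiag Finset.univ n, (∏ i, v i ^ m i) * c m‖ ≤ B)
    {m : Fin N →₀ ℕ} (hm : ∑ i, m i = n) : ‖c m‖ ≤ B := by
  classical
  set q : ℕ := n + 1 with hqdef
  have hq : q ≠ 0 := by omega
  set ζ : ℂ := Complex.exp (2 * Real.pi * Complex.I / q) with hζdef
  have hζ : IsPrimitiveRoot ζ q := Complex.isPrimitiveRoot_exp q hq
  have hnorm : ‖ζ‖ = 1 := hζ.norm'_eq_one hq
  have hlt : ∀ m' : Fin N →₀ ℕ, ∑ i, m' i = n → ∀ i, m' i < q := by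
    intro m' hm' i
    have := Finset.single_le_sum (f := fun i => m' i) (fun _ _ => Nat.zero_le _) (Finset.mem_univ i)
    omega
  have key : ∑ a : Fin N → Fin q, (∏ i, (ζ⁻¹ ^ m i) ^ (a i : ℕ)) *
      (∑ m' ∈ Finset.finsuppAntidiag Finset.univ n, (∏ i, (ζ ^ (a i : ℕ)) ^ m' i) * c m')
      = (q : ℂ) ^ N * c m := by
    have h1 : ∀ m' ∈ Finset.finsuppAntidiag (Finset.univ : Finset (Fin N)) n,
        ∑ a : Fin N → Fin q, (∏ i, (ζ⁻¹ ^ m i) ^ (a i : ℕ)) * ((∏ i, (ζ ^ (a i : ℕ)) ^ m' i) * c m')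
        = if m' = m then (q : ℂ) ^ N * c m else 0 := by
      intro m' hm'
      have hm'' : ∑ i, m' i = n := by
        have := (Finset.mem_finsuppAntidiag.1 hm').1
        simpa using this
      have h2 : ∀ a : Fin N → Fin q, (∏ i, (ζ⁻¹ ^ m i) ^ (a i : ℕ)) *
          ((∏ i, (ζ ^ (a i : ℕ)) ^ m' i) * c m')
          = (∏ i, (ζ⁻¹ ^ m i) ^ (a i : ℕ) * (ζ ^ (a i : ℕ)) ^ m' i) * c m' := by
        intro a
        rw [Finset.prod_mul_distrib]; ring
      rw [Finset.sum_congr rfl fun a _ => h2 a, ← Finset.sum_mul]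
      have h3 : ∑ a : Fin N → Fin q, ∏ i, (ζ⁻¹ ^ m i) ^ (a i : ℕ) * (ζ ^ (a i : ℕ)) ^ m' i
          = ∏ i, ∑ t : Fin q, (ζ⁻¹ ^ m i) ^ (t : ℕ) * (ζ ^ (t : ℕ)) ^ m' i := by
        rw [Finset.prod_univ_sum]
        simp [Fintype.piFinset_univ]
      rw [h3, Finset.prod_congr rfl fun i _ => geom_root hζ (hlt m hm i) (hlt m' hm'' i)]
      split_ifs with hmm
      · subst hmm
        simp
      · have : ∃ i, m i ≠ m' i := by
          by_contra hcon
          push Not at hcon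
          exact hmm (Finsupp.ext fun i => (hcon i).symm)
        obtain ⟨i, hi⟩ := this
        rw [Finset.prod_eq_zero (Finset.mem_univ i) (by rw [if_neg hi]), zero_mul]
    calc _ = ∑ a : Fin N → Fin q, ∑ m' ∈ Finset.finsuppAntidiag Finset.univ n,
          (∏ i, (ζ⁻¹ ^ m i) ^ (a i : ℕ)) * ((∏ i, (ζ ^ (a i : ℕ)) ^ m' i) * c m') := by
          refine Finset.sum_congr rfl fun a _ => ?_
          rw [Finset.mul_sum]
      _ = ∑ m' ∈ Finset.finsuppAntidiag Finset.univ n, ∑ a : Fin N → Fin q,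
          (∏ i, (ζ⁻¹ ^ m i) ^ (a i : ℕ)) * ((∏ i, (ζ ^ (a i : ℕ)) ^ m' i) * c m') :=
          Finset.sum_comm
      _ = ∑ m' ∈ Finset.finsuppAntidiag (Finset.univ : Finset (Fin N)) n,
          if m' = m then (q : ℂ) ^ N * c m else 0 := Finset.sum_congr rfl h1
      _ = (q : ℂ) ^ N * c m := by
          rw [Finset.sum_ite_eq']
          rw [if_pos]
          rw [Finset.mem_finsuppAntidiag]
          exact ⟨by simpa using hm, by simp⟩
  have hle : ‖(q : ℂ) ^ N * c m‖ ≤ (q : ℝ) ^ N * B := by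
    rw [← key]
    refine (norm_sum_le _ _).trans ?_
    have h4 : ∀ a ∈ (Finset.univ : Finset (Fin N → Fin q)), ‖(∏ i, (ζ⁻¹ ^ m i) ^ (a i : ℕ)) *
      (∑ m' ∈ Finset.finsuppAntidiag Finset.univ n, (∏ i, (ζ ^ (a i : ℕ)) ^ m' i) * c m')‖ ≤ B := by
      intro a _
      rw [norm_mul, norm_prod]
      have h5 : ∏ i, ‖(ζ⁻¹ ^ m i) ^ (a i : ℕ)‖ = 1 := by
        apply Finset.prod_eq_one
        intro i _
        simp [hnorm]
      rw [h5, one_mul]
      exact hB (fun i => ζ ^ (a i : ℕ)) (fun i => by simp [hnorm])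
    refine (Finset.sum_le_sum h4).trans (le_of_eq ?_)
    simp
  rw [norm_mul, norm_pow, Complex.norm_natCast] at hle
  have hpos : (0 : ℝ) < (q : ℝ) ^ N := by positivity
  exact le_of_mul_le_mul_left hle hpos

end Pool.Agent.DST
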