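import Pool.Agent.DST.NCyc
import Pool.Agent.DST.NTor

/-!
# DST-NMain: the equivariant big quantum product converges near `t ∈ H^2(X)`

For `‖x‖ = r₁` (`cyclic_large`) and `‖v i‖ ≤ 1` the theorem `nagumo_ck` bounds the coefficients of the restriction of the
product to the ray; `cauchy_torus` gives bounds for the coefficients of the product, and the Cauchy estimates in `x` for the
coefficients of these polynomials.
-/

open scoped BigOperators Topology
open Filter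

namespace Pool.Agent.DST

open Pool.Agent.Helper18.Dub Pool.Agent.Helper7.DubStokes Pool.Agent.SHF

variable {N : ℕ} {X : FanoGW (Fin N)} {t t₀ : Fin N → ℂ}

private theorem nm_bilR {ι : Type} (s : Finset (ℕ × ℕ)) (S : Finset ι) (β : ι → ℂ)
    (F : ℕ → Matrix (Fin N) (Fin N) ℂ) (H : ι → ℕ → Matrix (Fin N) (Fin N) ℂ) :
    ∑ p ∈ s, F p.1 * ∑ b ∈ S, β b • H b p.2 = ∑ b ∈ S, β b • ∑ p ∈ s, F p.1 * H b p.2 := by
  have h1 : ∀ p : ℕ × ℕ, F p.1 * ∑ b ∈ S, β b • H b p.2 = ∑ b ∈ S, β b • (F p.1 * H b p.2) := by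
    intro p
    rw [Finset.mul_sum]
    exact Finset.sum_congr rfl fun b _ => mul_smul_comm _ _ _
  rw [Finset.sum_congr rfl fun p _ => h1 p, Finset.sum_comm]
  exact Finset.sum_congr rfl fun b _ => Finset.smul_sum.symm

private theorem nm_bilL {ι : Type} (s : Finset (ℕ × ℕ)) (S : Finset ι) (β : ι → ℂ)
    (F : ℕ → Matrix (Fin N) (Fin N) ℂ) (H : ι → ℕ → Matrix (Fin N) (Fin N) ℂ) :
    ∑ p ∈ s, (∑ b ∈ S, β b • H b p.1) * F p.2 = ∑ b ∈ S, β b • ∑ p ∈ s, H b p.1 * F p.2 := by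
  have h1 : ∀ p : ℕ × ℕ, (∑ b ∈ S, β b • H b p.1) * F p.2 = ∑ b ∈ S, β b • (H b p.1 * F p.2) := by
    intro p
    rw [Finset.sum_mul]
    exact Finset.sum_congr rfl fun b _ => smul_mul_assoc _ _ _
  rw [Finset.sum_congr rfl fun p _ => h1 p, Finset.sum_comm]
  exact Finset.sum_congr rfl fun b _ => Finset.smul_sum.symm

private theorem nm_single (a : Fin N) (i : Fin N) :
    ‖(Pi.single a 1 : Fin N → ℂ) i‖ ≤ 1 := by
  rw [Pi.single_apply]
  split_ifs
  · rw [norm_one]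
  · rw [norm_zero]
    exact zero_le_one

private theorem nm_iter (p : Polynomial ℂ) (k : ℕ) :
    iteratedDeriv k (fun x => p.eval x) = fun x => (Polynomial.derivative^[k] p).eval x := by
  induction k with
  | zero => rw [iteratedDeriv_zero]; rfl
  | succ k ih =>
    rw [iteratedDeriv_succ, ih]
    funext x
    rw [Function.iterate_succ_apply', Polynomial.deriv]

/-- Cauchy's inequality for polynomials -/
private theorem nm_cauchy (p : Polynomial ℂ) {r D : ℝ} (hr : 0 < r)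
    (h : ∀ x : ℂ, ‖x‖ = r → ‖p.eval x‖ ≤ D) (k : ℕ) : ‖p.coeff k‖ * r ^ k ≤ D := by
  have h1 := Complex.norm_iteratedDeriv_le_of_forall_mem_sphere_norm_le (c := 0)
    (f := fun x => p.eval x) k hr (p.differentiable.diffContOnCl) (fun z hz => h z (by
      rwa [mem_sphere_zero_iff_norm] at hz))
  rw [nm_iter] at h1
  have h2 : (Polynomial.derivative^[k] p).eval 0 = (k.factorial : ℂ) * p.coeff k := by
    rw [← Polynomial.coeff_zero_eq_eval_zero, Polynomial.coeff_iterate_derivative, zero_add,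
      Nat.descFactorial_self, nsmul_eq_mul]
  have h3 : ‖(k.factorial : ℂ) * p.coeff k‖ ≤ k.factorial * D / r ^ k := by
    rw [← h2]
    exact h1
  rw [norm_mul, Complex.norm_natCast, le_div_iff₀ (pow_pos hr k), mul_assoc] at h3
  exact le_of_mul_le_mul_left h3 (by exact_mod_cast k.factorial_pos)

private theorem nm_tc (X : FanoGW (Fin N)) (t : Fin N → ℂ) : tc X t 0 = t := by
  funext i
  show t i + 0 * X.chern i = t i
  rw [zero_mul, add_zero]

private theorem nm_Pc (T : EquivData X) (x : ℂ) (v : Fin N → ℂ) (a : Fin N) (n : ℕ)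
    (i j : Fin N) : Pc T t x v a n 0 i j = ∑ m ∈ Finset.finsuppAntidiag Finset.univ n,
      (∏ l, v l ^ m l) * (MvPowerSeries.coeff m (mulAt T t a i j)).eval x := by
  unfold Pc
  rw [nm_tc, Matrix.map_apply]
  unfold lineF
  rw [PowerSeries.coeff_mk, Polynomial.eval_finsetSum]
  refine Finset.sum_congr rfl fun m _ => ?_
  rw [Polynomial.eval_smul, smul_eq_mul]

private theorem nm_bd (T : BulkGW X t₀) (ht : ∀ i, t i ≠ 0 → X.deg i = 1) {x : ℂ} {C₀ A₀ : ℝ}
    (hcyc : ∀ (v : Fin N → ℂ) (τ : ℂ), ‖τ‖ < 1 →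
      (∀ i j, ‖Kc T.toEquivData t x v 0 τ i j‖ ≤ C₀) ∧
      (Matrix.of fun i (j : Fin N) =>
        ((Kc T.toEquivData t x v 0 τ) ^ (j : ℕ)).mulVec (Pi.single X.one 1) i).det ≠ 0 ∧
      ∀ i j, ‖(Matrix.of fun i (j : Fin N) =>
        ((Kc T.toEquivData t x v 0 τ) ^ (j : ℕ)).mulVec (Pi.single X.one 1) i)⁻¹ i j‖ ≤ C₀)
    (hnag : ∀ (K M P : ℕ → ℂ → Matrix (Fin N) (Fin N) ℂ) (e v w : Fin N → ℂ),
      (∀ n i j, Differentiable ℂ fun τ => K n τ i j) →
      (∀ n i j, Differentiable ℂ fun τ => M n τ i j) →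
      (∀ n i j, Differentiable ℂ fun τ => P n τ i j) →
      (∀ i, ‖e i‖ ≤ 1) → (∀ i, ‖v i‖ ≤ 1) → (∀ i, ‖w i‖ ≤ 1) →
      (∀ (n : ℕ) (τ : ℂ), ∑ p ∈ Finset.HasAntidiagonal.antidiagonal n, M p.1 τ * K p.2 τ =
        ∑ p ∈ Finset.HasAntidiagonal.antidiagonal n, K p.1 τ * M p.2 τ) →
      (∀ (n : ℕ) (τ : ℂ), ∑ p ∈ Finset.HasAntidiagonal.antidiagonal n, P p.1 τ * K p.2 τ =
        ∑ p ∈ Finset.HasAntidiagonal.antidiagonal n, K p.1 τ * P p.2 τ) →
      (∀ (n : ℕ) (τ : ℂ), (M n τ).mulVec e = if n = 0 then v else 0) →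
      (∀ (n : ℕ) (τ : ℂ), (P n τ).mulVec e = if n = 0 then w else 0) →
      (∀ (n : ℕ) (τ : ℂ) i j, ((n : ℂ) + 1) * K (n + 1) τ i j = deriv (fun τ => M n τ i j) τ) →
      (∀ τ : ℂ, ‖τ‖ < 1 → ∀ i j, ‖K 0 τ i j‖ ≤ C₀) →
      (∀ τ : ℂ, ‖τ‖ < 1 →
        (Matrix.of fun i (j : Fin N) => ((K 0 τ) ^ (j : ℕ)).mulVec e i).det ≠ 0 ∧
        ∀ i j, ‖(Matrix.of fun i (j : Fin N) => ((K 0 τ) ^ (j : ℕ)).mulVec e i)⁻¹ i j‖ ≤ C₀) →
      ∀ n i j, ‖P n 0 i j‖ ≤ A₀ ^ (n + 1))
    (a : Fin N) (v : Fin N → ℂ) (hv : ∀ i, ‖v i‖ ≤ 1) (n : ℕ) (i j : Fin N) :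
    ‖Pc T.toEquivData t x v a n 0 i j‖ ≤ A₀ ^ (n + 1) := by
  have hPd : ∀ (b : Fin N) (n : ℕ) (i j : Fin N),
      Differentiable ℂ fun τ => Pc T.toEquivData t x v b n τ i j :=
    fun b n i j => Pc_diff (t := t) T.toEquivGW x v b n i j
  have hlin : ∀ (β : Fin N → ℂ) (n : ℕ) (i j : Fin N),
      Differentiable ℂ fun τ => (∑ b, β b • Pc T.toEquivData t x v b n τ) i j := by
    intro β n i j
    have h1 : (fun τ => (∑ b, β b • Pc T.toEquivData t x v b n τ) i j) =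
        fun τ => ∑ b, β b * Pc T.toEquivData t x v b n τ i j := by
      funext τ
      rw [Matrix.sum_apply]
      exact Finset.sum_congr rfl fun b _ => rfl
    rw [h1]
    exact Differentiable.fun_sum fun b _ => (hPd b n i j).const_mul (β b)
  have hPK : ∀ (b : Fin N) (n : ℕ) (τ : ℂ),
      ∑ p ∈ Finset.HasAntidiagonal.antidiagonal n,
        Pc T.toEquivData t x v b p.1 τ * Kc T.toEquivData t x v p.2 τ =
      ∑ p ∈ Finset.HasAntidiagonal.antidiagonal n,
        Kc T.toEquivData t x v p.1 τ * Pc T.toEquivData t x v b p.2 τ := by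
    intro b n τ
    unfold Kc
    rw [nm_bilR _ _ _ (fun n => Pc T.toEquivData t x v b n τ)
      (fun c n => Pc T.toEquivData t x v c n τ),
      nm_bilL _ _ _ (fun n => Pc T.toEquivData t x v b n τ)
      (fun c n => Pc T.toEquivData t x v c n τ)]
    exact Finset.sum_congr rfl fun c _ => by rw [Pc_comm T ht]
  refine hnag (fun n τ => Kc T.toEquivData t x v n τ) (fun n τ => Mcc T.toEquivData t x v n τ)
    (fun n τ => Pc T.toEquivData t x v a n τ) (Pi.single X.one 1) v (Pi.single a 1)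
    (fun n i j => hlin X.chern n i j) (fun n i j => hlin v n i j) (fun n i j => hPd a n i j)
    (nm_single X.one) hv (nm_single a) ?_ (hPK a) ?_ (fun n τ => Pc_unit T x v a n τ)
    (fun n τ i j => Kc_deriv T x v n τ i j) (fun τ hτ => (hcyc v τ hτ).1)
    (fun τ hτ => (hcyc v τ hτ).2) n i j
  · intro n τ
    show ∑ p ∈ Finset.HasAntidiagonal.antidiagonal n,
        Mcc T.toEquivData t x v p.1 τ * Kc T.toEquivData t x v p.2 τ =
      ∑ p ∈ Finset.HasAntidiagonal.antidiagonal n,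
        Kc T.toEquivData t x v p.1 τ * Mcc T.toEquivData t x v p.2 τ
    unfold Mcc
    rw [nm_bilR _ _ _ (fun n => Kc T.toEquivData t x v n τ)
      (fun c n => Pc T.toEquivData t x v c n τ),
      nm_bilL _ _ _ (fun n => Kc T.toEquivData t x v n τ)
      (fun c n => Pc T.toEquivData t x v c n τ)]
    exact Finset.sum_congr rfl fun c _ => by rw [hPK c n τ]
  · intro n τ
    show (Mcc T.toEquivData t x v n τ).mulVec (Pi.single X.one 1) = if n = 0 then v else 0
    unfold Mcc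
    rw [Matrix.sum_mulVec]
    have h1 : ∀ b : Fin N, (v b • Pc T.toEquivData t x v b n τ).mulVec (Pi.single X.one 1) =
        v b • (if n = 0 then Pi.single b 1 else 0) := by
      intro b
      rw [Matrix.smul_mulVec, Pc_unit]
    rw [Finset.sum_congr rfl fun b _ => h1 b]
    by_cases hn : n = 0
    · rw [if_pos hn]
      funext l
      rw [Finset.sum_apply]
      have h2 : ∀ b : Fin N, (v b • (if n = 0 then (Pi.single b 1 : Fin N → ℂ) else 0)) l =
          if b = l then v b else 0 := by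
        intro b
        rw [if_pos hn, Pi.smul_apply, Pi.single_apply, smul_eq_mul, mul_ite, mul_one, mul_zero]
        by_cases hb : b = l
        · rw [if_pos hb, if_pos hb.symm]
        · rw [if_neg hb, if_neg (Ne.symm hb)]
      rw [Finset.sum_congr rfl fun b _ => h2 b, Finset.sum_ite_eq']
      exact if_pos (Finset.mem_univ l)
    · rw [if_neg hn]
      refine Finset.sum_eq_zero fun b _ => ?_
      rw [if_neg hn, smul_zero]

/-- uniform version for `t` in a compact subset of `H^2(X)` -/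
theorem bulk_converges_unif (T : BulkGW X t₀) {K : Set (Fin N → ℂ)} (hK : IsCompact K)
    (hKd : ∀ t ∈ K, ∀ i, t i ≠ 0 → X.deg i = 1) :
    ∃ A r : ℝ, 0 < A ∧ 0 < r ∧ ∃ B : ℝ, ∀ t ∈ K, ∀ a i j m k,
      ‖(MvPowerSeries.coeff m (mulAt T.toEquivData t a i j)).coeff k‖ * r ^ k ≤
        B * A ^ (∑ i, m i) := by
  obtain ⟨r₁, hr₁, C₀, hcyc⟩ := cyclic_large_unif T hK
  obtain ⟨A₀, hA₀, hnag⟩ := nagumo_ck N C₀
  refine ⟨A₀, r₁, hA₀, hr₁, A₀, fun t ht a i j m k => ?_⟩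
  refine nm_cauchy _ hr₁ (fun x hx => ?_) k
  have h1 := cauchy_torus (n := ∑ i, m i)
    (fun m => (MvPowerSeries.coeff m (mulAt T.toEquivData t a i j)).eval x)
    (B := A₀ ^ (∑ i, m i + 1)) (fun v hv => by
      rw [← nm_Pc]
      exact nm_bd T (hKd t ht) (fun v τ hτ => hcyc t ht v x τ hx hτ) hnag a v hv _ i j)
    (m := m) rfl
  rw [pow_succ, mul_comm] at h1
  exact h1

theorem bulk_converges (T : BulkGW X t₀) (ht : ∀ i, t i ≠ 0 → X.deg i = 1) :
    ∃ A r : ℝ, 0 < A ∧ 0 < r ∧ BConv T.toEquivData t A r := by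
  obtain ⟨A, r, hA, hr, B, hB⟩ := bulk_converges_unif T (K := {t}) isCompact_singleton
    (fun t' ht' => by rw [Set.mem_singleton_iff.1 ht']; exact ht)
  exact ⟨A, r, hA, hr, B, fun a i j m k => hB t rfl a i j m k⟩

end Pool.Agent.DST
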