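import Pool.Agent.DST.Abs

/-!
# Project DST, module K-Lau: Laurent polynomials in `q = e^{2πiy}`

Values of Laurent polynomials at `q = exp (2πiy)`; a `1`-periodic entire function of at most exponential growth as
`|Im y| → ∞` is a Laurent polynomial in `q` (its cusp function, multiplied by a power of `q`, is entire of polynomial growth, so
its Taylor series is finite by the Cauchy estimates); Laurent polynomials without zeros are units.
-/

open scoped BigOperators Topology
open Filter

namespace Pool.Agent.DST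

theorem evq_T (y : ℂ) (n : ℤ) :
    evq y (LaurentPolynomial.T n) = Complex.exp (2 * Real.pi * Complex.I * n * y) := by
  unfold evq
  rw [LaurentPolynomial.eval₂_T, Units.val_zpow_eq_zpow_val]
  show Complex.exp (2 * Real.pi * Complex.I * y) ^ n = _
  rw [← Complex.exp_int_mul]
  congr 1
  ring

theorem evq_C (y a : ℂ) : evq y (LaurentPolynomial.C a) = a := by
  unfold evq
  rw [LaurentPolynomial.eval₂_C]
  rfl

theorem evq_sub_one (y : ℂ) : evq (y - 1) = evq y := by
  have h : qu (y - 1) = qu y := by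
    apply Units.ext
    show Complex.exp (2 * Real.pi * Complex.I * (y - 1)) = Complex.exp (2 * Real.pi * Complex.I * y)
    rw [mul_sub, mul_one, Complex.exp_sub, Complex.exp_two_pi_mul_I, div_one]
  unfold evq
  rw [h]

private theorem exists_qu {x : ℂ} (hx : x ≠ 0) : ∃ y, Complex.exp (2 * Real.pi * Complex.I * y) = x := by
  refine ⟨Complex.log x / (2 * Real.pi * Complex.I), ?_⟩
  rw [mul_div_cancel₀ _ Complex.two_pi_I_ne_zero, Complex.exp_log hx]

private theorem evq_toLaurent (y : ℂ) (P : Polynomial ℂ) :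
    evq y (Polynomial.toLaurent P) = P.eval (Complex.exp (2 * Real.pi * Complex.I * y)) := by
  unfold evq
  rw [LaurentPolynomial.eval₂_toLaurent]
  rfl

theorem evq_inj {L L' : LaurentPolynomial ℂ} (h : ∀ y, evq y L = evq y L') : L = L' := by
  obtain ⟨n, P, hP⟩ := LaurentPolynomial.exists_T_pow (L - L')
  have h0 : ∀ y, evq y (Polynomial.toLaurent P) = 0 := by
    intro y
    rw [hP, map_mul, map_sub, h y, sub_self, zero_mul]
  have h1 : ∀ x : ℂ, x ≠ 0 → P.eval x = 0 := by
    intro x hx
    obtain ⟨y, hy⟩ := exists_qu hx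
    have := h0 y
    rw [evq_toLaurent, hy] at this
    exact this
  have h2 : P * Polynomial.X = 0 := by
    apply Polynomial.funext
    intro x
    rw [Polynomial.eval_mul, Polynomial.eval_X, Polynomial.eval_zero]
    by_cases hx : x = 0
    · rw [hx, mul_zero]
    · rw [h1 x hx, zero_mul]
  have h3 : P = 0 := by
    rcases mul_eq_zero.mp h2 with h | h
    · exact h
    · exact absurd h Polynomial.X_ne_zero
  rw [h3, map_zero] at hP
  have h4 := (LaurentPolynomial.isUnit_T (R := ℂ) n).mul_left_eq_zero.mp hP.symm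
  exact sub_eq_zero.mp h4

theorem differentiable_evq (L : LaurentPolynomial ℂ) : Differentiable ℂ fun y => evq y L := by
  refine L.induction_on' (fun p q hp hq => ?_) (fun n a => ?_)
  · simp only [map_add]
    exact hp.add hq
  · simp only [map_mul, evq_C, evq_T]
    fun_prop

theorem laurent_of_growth {g : ℂ → ℂ} (hg : Differentiable ℂ g) (hp : ∀ y, g (y - 1) = g y) {C : ℝ}
    (hC : ∀ y : ℂ, 1 ≤ |y.im| → ‖g y‖ ≤ Real.exp (C * |y.im|)) :
    ∃ L : LaurentPolynomial ℂ, ∀ y, g y = evq y L := by
  obtain ⟨n, hn⟩ := exists_nat_ge (C / (2 * Real.pi))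
  have hpi : 0 < 2 * Real.pi := by positivity
  have hn' : C ≤ 2 * Real.pi * n := by
    rw [div_le_iff₀ hpi] at hn
    linarith
  set f : ℂ → ℂ := fun y => g y * Complex.exp (2 * Real.pi * Complex.I * n * y) with hf
  have hfd : Differentiable ℂ f := by
    rw [hf]
    exact hg.mul (by fun_prop)
  have hnorm : ∀ y : ℂ, ‖Complex.exp (2 * Real.pi * Complex.I * n * y)‖ = Real.exp (-(2 * Real.pi * n * y.im)) := by
    intro y
    rw [Complex.norm_exp]
    congr 1
    simp
  have hper : Function.Periodic f ((1 : ℝ) : ℂ) := by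
    intro y
    rw [hf]
    show g (y + ((1 : ℝ) : ℂ)) * Complex.exp (2 * Real.pi * Complex.I * n * (y + ((1 : ℝ) : ℂ))) =
      g y * Complex.exp (2 * Real.pi * Complex.I * n * y)
    have h1 : g (y + ((1 : ℝ) : ℂ)) = g y := by
      have := hp (y + ((1 : ℝ) : ℂ))
      rw [← this]
      congr 1
      push_cast
      ring
    have h2 : Complex.exp (2 * Real.pi * Complex.I * n * (y + ((1 : ℝ) : ℂ))) =
        Complex.exp (2 * Real.pi * Complex.I * n * y) := by
      have h3 : 2 * Real.pi * Complex.I * n * (y + ((1 : ℝ) : ℂ)) =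
          2 * Real.pi * Complex.I * n * y + n * (2 * Real.pi * Complex.I) := by
        push_cast
        ring
      rw [h3, Complex.exp_add, Complex.exp_nat_mul_two_pi_mul_I, mul_one]
    rw [h1, h2]
  have hbd : ∀ y : ℂ, 1 ≤ y.im → ‖f y‖ ≤ 1 := by
    intro y hy
    rw [hf]
    show ‖g y * Complex.exp (2 * Real.pi * Complex.I * n * y)‖ ≤ 1
    rw [norm_mul, hnorm]
    have h1 := hC y (hy.trans (le_abs_self _))
    rw [abs_of_nonneg (by linarith)] at h1
    calc ‖g y‖ * Real.exp (-(2 * Real.pi * n * y.im)) ≤ Real.exp (C * y.im) * Real.exp (-(2 * Real.pi * n * y.im)) :=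
          mul_le_mul_of_nonneg_right h1 (Real.exp_nonneg _)
      _ = Real.exp (C * y.im + -(2 * Real.pi * n * y.im)) := (Real.exp_add _ _).symm
      _ ≤ Real.exp 0 := by
          apply Real.exp_le_exp.mpr
          nlinarith
      _ = 1 := Real.exp_zero
  have hI : ∀ᶠ z in comap Complex.im atTop, (1 : ℝ) ≤ Complex.im z :=
    (tendsto_comap (f := Complex.im) (x := atTop)).eventually (eventually_ge_atTop (1 : ℝ))
  set φ : ℂ → ℂ := Function.Periodic.cuspFunction 1 f with hφ
  have hφd : Differentiable ℂ φ := by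
    intro q
    by_cases hq : q = 0
    · rw [hq]
      refine Function.Periodic.differentiableAt_cuspFunction_zero one_pos hper
        (Eventually.of_forall fun z => hfd z) ?_
      refine Asymptotics.IsBigO.of_bound 1 ?_
      filter_upwards [hI] with z hz
      simpa using hbd z hz
    · rw [← Function.Periodic.qParam_right_inv (one_ne_zero : (1 : ℝ) ≠ 0) hq]
      exact Function.Periodic.differentiableAt_cuspFunction one_ne_zero hper (hfd _)
  have hfφ : ∀ y, f y = φ (Complex.exp (2 * Real.pi * Complex.I * y)) := by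
    intro y
    have h1 := Function.Periodic.eq_cuspFunction one_ne_zero hper y
    rw [← h1, hφ]
    congr 1
    unfold Function.Periodic.qParam
    congr 1
    push_cast
    ring
  -- polynomial growth
  have hgrow : ∀ q : ℂ, Real.exp (2 * Real.pi) ≤ ‖q‖ → ‖φ q‖ ≤ ‖q‖ ^ (2 * n) := by
    intro q hq
    have hq0 : 0 < ‖q‖ := lt_of_lt_of_le (Real.exp_pos _) hq
    have hqne : q ≠ 0 := norm_pos_iff.mp hq0
    obtain ⟨y, hy⟩ := exists_qu hqne
    have him : ‖q‖ = Real.exp (-(2 * Real.pi * y.im)) := by
      rw [← hy, Complex.norm_exp]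
      congr 1
      simp
    have him2 : 2 * Real.pi ≤ -(2 * Real.pi * y.im) := by
      rw [him] at hq
      exact Real.exp_le_exp.mp hq
    have him3 : y.im ≤ -1 := by
      by_contra hc
      have : 0 < 2 * Real.pi * (y.im + 1) := mul_pos hpi (by linarith)
      linarith
    rw [← hy, ← hfφ, hf]
    show ‖g y * Complex.exp (2 * Real.pi * Complex.I * n * y)‖ ≤ _
    rw [hy, norm_mul, hnorm, him, ← Real.exp_nat_mul]
    have habs : |y.im| = -y.im := abs_of_nonpos (by linarith)
    have h1 := hC y (by rw [habs]; linarith)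
    rw [habs] at h1
    calc ‖g y‖ * Real.exp (-(2 * Real.pi * n * y.im)) ≤
          Real.exp (C * -y.im) * Real.exp (-(2 * Real.pi * n * y.im)) :=
          mul_le_mul_of_nonneg_right h1 (Real.exp_nonneg _)
      _ = Real.exp (C * -y.im + -(2 * Real.pi * n * y.im)) := (Real.exp_add _ _).symm
      _ ≤ _ := by
          apply Real.exp_le_exp.mpr
          push_cast
          nlinarith
  have hder : ∀ k : ℕ, 2 * n < k → iteratedDeriv k φ 0 = 0 := by
    intro k hk
    rw [← norm_le_zero_iff]
    have hlim : Tendsto (fun R : ℝ => (k.factorial : ℝ) / R) atTop (𝓝 0) := tendsto_const_nhds.div_atTop tendsto_id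
    refine ge_of_tendsto hlim ?_
    filter_upwards [eventually_ge_atTop (Real.exp (2 * Real.pi)), eventually_ge_atTop (1 : ℝ)] with R hR hR1
    have hR0 : 0 < R := by linarith
    have h1 := Complex.norm_iteratedDeriv_le_of_forall_mem_sphere_norm_le (c := 0) (C := R ^ (2 * n)) k hR0
      hφd.diffContOnCl (fun z hz => by
        have hz' : ‖z‖ = R := by simpa using hz
        have := hgrow z (by rw [hz']; exact hR)
        rw [hz'] at this
        exact this)
    refine h1.trans ?_
    rw [div_le_div_iff₀ (pow_pos hR0 k) hR0]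
    have h2 : R ^ (2 * n) * R ≤ R ^ k := by
      rw [← pow_succ]
      exact pow_le_pow_right₀ hR1 hk
    calc (k.factorial : ℝ) * R ^ (2 * n) * R = k.factorial * (R ^ (2 * n) * R) := by ring
      _ ≤ k.factorial * R ^ k := mul_le_mul_of_nonneg_left h2 (Nat.cast_nonneg _)
  have hsum : ∀ q : ℂ, φ q = ∑ k ∈ Finset.range (2 * n + 1), ((k.factorial : ℂ))⁻¹ * iteratedDeriv k φ 0 * q ^ k := by
    intro q
    rw [← Complex.taylorSeries_eq_of_entire' 0 q hφd, tsum_eq_sum (s := Finset.range (2 * n + 1))]
    · simp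
    · intro k hk
      rw [Finset.mem_range, not_lt] at hk
      rw [hder k (by omega)]
      simp
  refine ⟨∑ k ∈ Finset.range (2 * n + 1), LaurentPolynomial.C (((k.factorial : ℂ))⁻¹ * iteratedDeriv k φ 0) *
    LaurentPolynomial.T ((k : ℤ) - n), fun y => ?_⟩
  have h1 : g y = f y * Complex.exp (-(2 * Real.pi * Complex.I * n * y)) := by
    rw [hf]
    show g y = g y * Complex.exp (2 * Real.pi * Complex.I * n * y) * Complex.exp (-(2 * Real.pi * Complex.I * n * y))
    rw [mul_assoc, ← Complex.exp_add, add_neg_cancel, Complex.exp_zero, mul_one]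
  rw [h1, hfφ, hsum, map_sum, Finset.sum_mul]
  refine Finset.sum_congr rfl fun k _ => ?_
  rw [map_mul, evq_C, evq_T, mul_assoc, ← Complex.exp_nat_mul, ← Complex.exp_add]
  congr 2
  push_cast
  ring

theorem isUnit_of_evq_ne_zero {L : LaurentPolynomial ℂ} (h : ∀ y, evq y L ≠ 0) : IsUnit L := by
  obtain ⟨n, P, hP⟩ := LaurentPolynomial.exists_T_pow L
  have hval : ∀ x : ℂ, x ≠ 0 → P.eval x ≠ 0 := by
    intro x hx
    obtain ⟨y, hy⟩ := exists_qu hx
    rw [← hy, ← evq_toLaurent, hP, map_mul, evq_T]
    exact mul_ne_zero (h y) (Complex.exp_ne_zero _)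
  have hP0 : P ≠ 0 := by
    intro h0
    have := hval 1 one_ne_zero
    rw [h0, Polynomial.eval_zero] at this
    exact this rfl
  obtain ⟨Q, hQ, hdvd⟩ := P.exists_eq_pow_rootMultiplicity_mul_and_not_dvd hP0 0
  have hQ0 : ∀ x : ℂ, ¬ Q.IsRoot x := by
    intro x hx
    by_cases hx0 : x = 0
    · rw [hx0] at hx
      exact hdvd (Polynomial.dvd_iff_isRoot.mpr hx)
    · apply hval x hx0
      rw [hQ, Polynomial.eval_mul, Polynomial.IsRoot.def.mp hx, mul_zero]
  have hdeg : Q.degree = 0 := by
    by_contra hc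
    obtain ⟨x, hx⟩ := IsAlgClosed.exists_root Q hc
    exact hQ0 x hx
  have hQC := Polynomial.eq_C_of_degree_eq_zero hdeg
  have hc : Q.coeff 0 ≠ 0 := by
    intro hc
    rw [hc, Polynomial.C_0] at hQC
    rw [hQC, Polynomial.degree_zero] at hdeg
    exact absurd hdeg (by simp)
  have hunit : IsUnit (Polynomial.toLaurent P) := by
    rw [hQ, hQC, Polynomial.C_0, sub_zero, map_mul, map_pow, Polynomial.toLaurent_X, Polynomial.toLaurent_C]
    exact ((LaurentPolynomial.isUnit_T 1).pow _).mul ((isUnit_iff_ne_zero.mpr hc).map LaurentPolynomial.C)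
  rw [hP] at hunit
  exact isUnit_of_mul_isUnit_left hunit

end Pool.Agent.DST
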