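import Pool.Agent.DST.FFam
import Pool.Agent.DST.FToC
import Pool.Agent.DST.DIface
import Pool.Agent.DST.KLau

/-!
# DST-FChain: from `λ = ∞` to `λ = 0`

The connection matrix is integral for large `λ` (`base_case`); integrality is transported (`transport`) to a point off the
walls close to `λ = 0`, where it gives the integral matrix of `stokes_family`.
-/

open scoped BigOperators Topology
open Filter

namespace Pool.Agent.DST

open Pool.Agent.Helper18.Dub Pool.Agent.Helper7.DubStokes Pool.Agent.SHF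

variable {N : ℕ} {X : FanoGW (Fin N)} {t : Fin N → ℂ}

theorem evq_entire (f : LaurentPolynomial ℂ) : Differentiable ℂ (fun y => evq y f) :=
  differentiable_evq f

theorem chain (T : GammaGW X t) (Q : QSys N) (hQ : IsQ T Q) {u : Fin N → ℂ}
    {Ψ₀ : Matrix (Fin N) (Fin N) ℂ} (heig : Q.C 0 * Ψ₀ = Ψ₀ * Matrix.diagonal u)
    (hnorm : Ψ₀.transpose * Q.g 0 * Ψ₀ = 1) {φ : ℝ}
    (hadm : ∀ i j, i ≠ j → ((u i - u j) * Complex.exp (-φ * Complex.I)).im ≠ 0) :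
    ∃ U : Matrix (Fin N) (Fin N) ℤ, ∃ ε > 0,
      ∀ φ' ∈ Set.Ioo (φ - Real.pi / 2 - ε) (φ + Real.pi / 2 + ε), ∀ i j,
        Tendsto (fun r : ℝ => (Q.J 0 (r + φ' * Complex.I) * U.map (Int.castRingHom ℂ) *
          Matrix.diagonal fun k => Complex.exp (-u k * Complex.exp (-(r + φ' * Complex.I)))) i j)
          atBot (𝓝 (Ψ₀ i j)) := by
  obtain ⟨D, hD, hf⟩ := fam Q hQ.Λ
  obtain ⟨l₀, D₀, hF, hA, hg, _, hoff, hint⟩ := base_case T Q hQ
  have eF : (D l₀).F = D₀.F := (hD l₀).1.trans hF.symm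
  have eA : (D l₀).A 0 = D₀.A 0 := (hD l₀).2.1.trans hA.symm
  have eg : (D l₀).g = D₀.g := (hD l₀).2.2.1.trans hg.symm
  have off₀ : OffPt (D l₀) := by
    obtain ⟨Ψ, G, h1, h2⟩ := hoff
    refine ⟨Ψ, G, ?_, h2⟩
    rw [eA, eg]
    exact h1
  have int₀ : Int0 (D l₀) := by
    intro Ψ G X' h1 h2
    rw [eA, eg] at h1
    rw [eF] at h2
    exact hint Ψ G X' h1 h2
  have h0 : (0 : ℂ) ∈ Q.Λ := by
    rw [hQ.Λ]
    exact Set.mem_univ _
  obtain ⟨L, Z, hZ, ε, hε, hst⟩ := stokes_family Q h0 heig hnorm hadm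
  obtain ⟨s, hs, hsZ⟩ : ∃ s : ℝ, s < L ∧ s ∉ Z := by
    obtain ⟨s, h1, h2⟩ := (hZ.dense_compl ℝ).exists_mem_open isOpen_Iio
      (⟨L - 1, sub_one_lt L⟩ : (Set.Iio L).Nonempty)
    exact ⟨s, h2, h1⟩
  obtain ⟨_, Ψ, G, X', hE, hoffG, hXd, hXp, hXb, hlim⟩ := hst s hs hsZ
  have hE' : Eig ((D (s + φ * Complex.I)).A 0) (D (s + φ * Complex.I)).g Ψ G := by
    rw [(hD _).2.1, (hD _).2.2.1]
    exact hE
  have hb' : IsBirk (D (s + φ * Complex.I)).F Ψ G X' := by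
    rw [(hD _).1]
    exact hXb
  obtain ⟨XL, _, hbX⟩ := birkhoff (D (s + φ * Complex.I)) hE' hoffG
  have hXX : X' = fun y => XL.map (evq y) :=
    birk_unique (D (s + φ * Complex.I)) hE' hXd (fun i j => evq_entire _) hXp
      (fun y => by simp only [evq_sub_one]) hb' hbX
  have int₁ : Int0 (D (s + φ * Complex.I)) :=
    transport hf (Set.mem_univ l₀) (Set.mem_univ _) off₀ ⟨Ψ, G, hE', hoffG⟩ int₀
  have hI := int₁ Ψ G XL hE' hbX
  choose U hU using fun i j => evq_zero_int (hI i j)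
  refine ⟨Matrix.of U, ε, hε, fun φ' hφ' i j => ?_⟩
  have h1 := hlim φ' hφ' i j
  have e : X' 0 = (Matrix.of U).map (Int.castRingHom ℂ) := by
    rw [hXX]
    ext a b
    show evq 0 (XL a b) = ((U a b : ℤ) : ℂ)
    exact hU a b
  rw [e] at h1
  exact h1

end Pool.Agent.DST
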