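import Pool.Agent.DST.VFam
import Pool.Agent.DST.FChain

/-!
# DST-VChain: from `λ = ∞` at `t` to `λ = 0` at `t + v`

PLAN. (1) `Q₁` from `𝓡.exists_q (s := 1)` (`1 < R`). `stokes_family Q₁ (0 ∈ ball) heig hnorm hadm` gives `L`, `Z`,
`ε`. Choose a real `σ < min L (log r - 1)`, `σ ∉ Z`; `l₁ = σ + φ i`; data `Ψ`, `G`, `X`.
(2) `D₀`, `hf₀ : IsFam univ D₀ Q.χ` from `fam 𝓡.Q 𝓡.Λ_univ`; `base_case` gives `l_*` with `OffPt` and `Int0`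
(transfer to `D₀ l_*` as in `FChain.chain`). `offPt_dense hf₀ … l₁` (TDense.lean) gives `l₀` with `OffPt (D₀ l₀)` and
`‖l₀ - l₁‖` so small that `‖exp(l₀ + s (l₁ - l₀))‖ < r` for `‖s‖ < ρ`, where `ρ = (1 + min R 2)/2`-like,
`1 < ρ < R` (`re (l₀ + s(l₁-l₀)) ≤ σ + (1 + ρ)‖l₀ - l₁‖ < log r`). `transport hf₀`: `Int0 (D₀ l₀)`.
(3) `𝓡.fam` with `l₀, l₁, ρ`: `Q'`, `D'`, `hf`. `D' 0` has the same `F`, `A 0`, `g` as `D₀ l₀`: `𝓡.J 0 = Q.J`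
(`W_zero`), `Sv 0 = Q.S` (`Sv_zero`), `Cv 0 = Q.C` (`evs_zero`, `C_zero`), so `(Q' 0).f l₀ = Q.f l₀`,
`(Q' 0).A0 l₀ = Q.A0 l₀`. Hence `OffPt (D' 0)`, `Int0 (D' 0)`. `D' 1` has the data of `Q₁` at `l₁`
(`l₀ + 1 (l₁ - l₀) = l₁`), `OffPt (D' 1)` from `Ψ, G`. `transport hf : Int0 (D' 1)`.
(4) As in `FChain.chain`: `birkhoff (D' 1)`, `birk_unique`, `evq_zero_int` give `U`; the limits are those of
`stokes_family` for `Q₁` (`Q₁.J 0 w = 𝓡.J 1 0 w`).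
-/

open scoped BigOperators Topology
open Filter

namespace Pool.Agent.DST

open Pool.Agent.Helper18.Dub Pool.Agent.Helper7.DubStokes Pool.Agent.SHF

variable {N : ℕ} {X : FanoGW (Fin N)} {t : Fin N → ℂ}

private theorem vc_off {D D' : DSys N} (eA : D'.A 0 = D.A 0) (eg : D'.g = D.g) (h : OffPt D) :
    OffPt D' := by
  obtain ⟨Ψ, G, h1, h2⟩ := h
  refine ⟨Ψ, G, ?_, h2⟩
  rw [eA, eg]
  exact h1

private theorem vc_int {D D' : DSys N} (eF : D'.F = D.F) (eA : D'.A 0 = D.A 0) (eg : D'.g = D.g)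
    (h : Int0 D) : Int0 D' := by
  intro Ψ G X' h1 h2
  rw [eA, eg] at h1
  rw [eF] at h2
  exact h Ψ G X' h1 h2

private theorem vc_f {Q Q' : QSys N} (eJ : Q'.J = Q.J) (l : ℂ) : Q'.f l = Q.f l := by
  funext y
  simp only [QSys.f, eJ]

private theorem vc_A {Q Q' : QSys N} (eS : Q'.S = Q.S) (eC : Q'.C = Q.C) (l : ℂ) :
    Q'.A0 l = Q.A0 l := by
  simp only [QSys.A0, eS, eC]

private theorem vc_J (𝓡 : Ray N) : 𝓡.J 0 = 𝓡.Q.J := by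
  funext y w
  simp only [Ray.J, Ray.W_zero, Matrix.one_mul]

private theorem vc_S (𝓡 : Ray N) : 𝓡.Sv 0 = 𝓡.Q.S := by
  funext x z
  exact 𝓡.Sv_zero x z

private theorem vc_C (𝓡 : Ray N) : 𝓡.Cv 0 = 𝓡.Q.C := by
  funext x
  ext i j
  rw [𝓡.C_zero]
  show evs 0 x (𝓡.C i j) = _
  rw [evs_zero]

theorem chain_bulk (T : GammaGW X t) (𝓡 : Ray N) (hQ : IsQ T 𝓡.Q) {u : Fin N → ℂ}
    {Ψ₀ : Matrix (Fin N) (Fin N) ℂ} (heig : 𝓡.Cv 1 0 * Ψ₀ = Ψ₀ * Matrix.diagonal u)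
    (hnorm : Ψ₀.transpose * 𝓡.Q.g 0 * Ψ₀ = 1) {φ : ℝ}
    (hadm : ∀ i j, i ≠ j → ((u i - u j) * Complex.exp (-φ * Complex.I)).im ≠ 0) :
    ∃ U : Matrix (Fin N) (Fin N) ℤ, ∃ ε > 0,
      ∀ φ' ∈ Set.Ioo (φ - Real.pi / 2 - ε) (φ + Real.pi / 2 + ε), ∀ i j,
        Tendsto (fun q : ℝ => (𝓡.J 1 0 (q + φ' * Complex.I) * U.map (Int.castRingHom ℂ) *
          Matrix.diagonal fun k => Complex.exp (-u k * Complex.exp (-(q + φ' * Complex.I)))) i j)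
          atBot (𝓝 (Ψ₀ i j)) := by
  have hR1 : (1 : ℝ) < 𝓡.R := 𝓡.hR
  have h1R : ‖(1 : ℂ)‖ < 𝓡.R := by
    rw [norm_one]
    exact hR1
  obtain ⟨Q₁, hQ1Λ, -, hQ1C, hQ1g, hQ1S, hQ1J, -⟩ := 𝓡.exists_q h1R
  have h0 : (0 : ℂ) ∈ Q₁.Λ := by
    rw [hQ1Λ]
    exact Metric.mem_ball_self 𝓡.hr
  obtain ⟨L, Z, hZ, ε, hε, hst⟩ := stokes_family Q₁ h0 (u := u) (Ψ₀ := Ψ₀) (φ := φ)
    (by rw [hQ1C]; exact heig) (by rw [hQ1g]; exact hnorm) hadm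
  obtain ⟨σ, hσ, hσZ⟩ : ∃ s : ℝ, s < min L (Real.log 𝓡.r - 1) ∧ s ∉ Z := by
    obtain ⟨s, h1, h2⟩ := (hZ.dense_compl ℝ).exists_mem_open isOpen_Iio
      (⟨min L (Real.log 𝓡.r - 1) - 1, Set.mem_Iio.2 (sub_one_lt (min L (Real.log 𝓡.r - 1)))⟩ :
        (Set.Iio (min L (Real.log 𝓡.r - 1))).Nonempty)
    exact ⟨s, h2, h1⟩
  have hσL : σ < L := lt_of_lt_of_le hσ (min_le_left _ _)
  have hσr : σ < Real.log 𝓡.r - 1 := lt_of_lt_of_le hσ (min_le_right _ _)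
  obtain ⟨_, Ψ, G, X', hE, hoffG, hXd, hXp, hXb, hlim⟩ := hst σ hσL hσZ
  have hre : (σ + φ * Complex.I : ℂ).re = σ := by simp
  generalize (σ + φ * Complex.I : ℂ) = l₁ at hE hXb hre
  obtain ⟨D₀, hD₀, hf₀⟩ := fam 𝓡.Q 𝓡.Λ_univ
  obtain ⟨ls, Db, hF, hA, hg, _, hoff, hint⟩ := base_case T 𝓡.Q hQ
  have off₀ : OffPt (D₀ ls) :=
    vc_off ((hD₀ ls).2.1.trans hA.symm) ((hD₀ ls).2.2.1.trans hg.symm) hoff
  have int₀ : Int0 (D₀ ls) :=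
    vc_int ((hD₀ ls).1.trans hF.symm) ((hD₀ ls).2.1.trans hA.symm)
      ((hD₀ ls).2.2.1.trans hg.symm) hint
  obtain ⟨l₀, ⟨hl₀, _⟩, hoffl⟩ := offPt_dense hf₀ (Set.mem_univ ls) off₀ (Set.mem_univ l₁)
    (Metric.ball l₁ (1 / 4)) (Metric.ball_mem_nhds _ (by norm_num))
  have intl : Int0 (D₀ l₀) :=
    transport hf₀ (Set.mem_univ ls) (Set.mem_univ l₀) off₀ hoffl int₀
  obtain ⟨ρ, hρ⟩ : ∃ ρ : ℝ, ρ = (1 + min 𝓡.R 2) / 2 := ⟨_, rfl⟩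
  have hm1 : 1 < min 𝓡.R 2 := lt_min hR1 (by norm_num)
  have hm2 : min 𝓡.R 2 ≤ 2 := min_le_right _ _
  have hρ1 : 1 < ρ := by rw [hρ]; linarith
  have hρR : ρ < 𝓡.R := by
    have := min_le_left 𝓡.R 2
    rw [hρ]
    linarith
  have hρ2 : ρ ≤ 3 / 2 := by rw [hρ]; linarith
  have hd : ‖l₁ - l₀‖ < 1 / 4 := by
    rw [Metric.mem_ball, dist_eq_norm, norm_sub_rev] at hl₀
    exact hl₀
  have hl : ∀ s : ℂ, ‖s‖ < ρ → ‖Complex.exp (l₀ + s * (l₁ - l₀))‖ < 𝓡.r := by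
    intro s hs
    have e1 : l₀ + s * (l₁ - l₀) = l₁ + (s - 1) * (l₁ - l₀) := by ring
    have h2 : ‖(s - 1) * (l₁ - l₀)‖ ≤ (5 / 2) * (1 / 4) := by
      rw [norm_mul]
      have h3 : ‖s - 1‖ ≤ 5 / 2 := by
        have := norm_sub_le s 1
        rw [norm_one] at this
        linarith
      exact mul_le_mul h3 hd.le (norm_nonneg _) (by norm_num)
    have h4 : ((s - 1) * (l₁ - l₀)).re ≤ (5 / 2) * (1 / 4) := (Complex.re_le_norm _).trans h2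
    rw [Complex.norm_exp, e1, Complex.add_re, hre, ← Real.lt_log_iff_exp_lt 𝓡.hr]
    linarith
  obtain ⟨Qf, D', hQf, hD', hf⟩ := 𝓡.fam (l₀ := l₀) (l₁ := l₁) hρ1 hρR hl
  have hz : ‖(0 : ℂ)‖ < ρ := by
    rw [norm_zero]
    linarith
  have ho : ‖(1 : ℂ)‖ < ρ := by
    rw [norm_one]
    exact hρ1
  have e0 : l₀ + 0 * (l₁ - l₀) = l₀ := by ring
  have e1 : l₀ + 1 * (l₁ - l₀) = l₁ := by ring
  obtain ⟨-, -, hC0, hg0, hS0, hJ0, -⟩ := hQf 0 hz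
  obtain ⟨-, -, hC1, hg1, hS1, hJ1, -⟩ := hQf 1 ho
  obtain ⟨hF0, hA0, hG0, -⟩ := hD' 0 hz
  obtain ⟨hF1, hA1, hG1, -⟩ := hD' 1 ho
  rw [e0] at hF0 hA0 hG0
  rw [e1] at hF1 hA1 hG1
  have eF0 : (D' 0).F = (D₀ l₀).F := by
    rw [hF0, (hD₀ l₀).1]
    exact vc_f (hJ0.trans (vc_J 𝓡)) l₀
  have eA0 : (D' 0).A 0 = (D₀ l₀).A 0 := by
    rw [hA0, (hD₀ l₀).2.1]
    exact vc_A (hS0.trans (vc_S 𝓡)) (hC0.trans (vc_C 𝓡)) l₀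
  have eg0 : (D' 0).g = (D₀ l₀).g := by
    rw [hG0, (hD₀ l₀).2.2.1, hg0]
  have eF1 : (D' 1).F = Q₁.f l₁ := by
    rw [hF1]
    exact vc_f (hJ1.trans hQ1J.symm) l₁
  have eA1 : (D' 1).A 0 = Q₁.A0 l₁ := by
    rw [hA1]
    exact vc_A (hS1.trans hQ1S.symm) (hC1.trans hQ1C.symm) l₁
  have eg1 : (D' 1).g = Q₁.g (Complex.exp l₁) := by
    rw [hG1, hg1, hQ1g]
  have hE' : Eig ((D' 1).A 0) (D' 1).g Ψ G := by
    rw [eA1, eg1]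
    exact hE
  have hb' : IsBirk (D' 1).F Ψ G X' := by
    rw [eF1]
    exact hXb
  obtain ⟨XL, _, hbX⟩ := birkhoff (D' 1) hE' hoffG
  have hXX : X' = fun y => XL.map (evq y) :=
    birk_unique (D' 1) hE' hXd (fun i j => evq_entire _) hXp
      (fun y => by simp only [evq_sub_one]) hb' hbX
  have int₁ : Int0 (D' 1) :=
    transport hf (by simpa using hz) (by simpa using hρ1)
      (vc_off eA0 eg0 hoffl) ⟨Ψ, G, hE', hoffG⟩ (vc_int eF0 eA0 eg0 intl)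
  have hI := int₁ Ψ G XL hE' hbX
  choose U hU using fun i j => evq_zero_int (hI i j)
  refine ⟨Matrix.of U, ε, hε, fun φ' hφ' i j => ?_⟩
  have h1 := hlim φ' hφ' i j
  have e : X' 0 = (Matrix.of U).map (Int.castRingHom ℂ) := by
    rw [hXX]
    ext a b
    show evq 0 (XL a b) = ((U a b : ℤ) : ℂ)
    exact hU a b
  rw [e, hQ1J] at h1
  exact h1

end Pool.Agent.DST
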