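import Pool.Agent.DST.FPol

/-!
# DST-FEuler: at `λ = 0` the matrix of `c_1^T(X)` is the matrix of the Euler field at `t ∈ H^2(X)`

The divisor axiom reduces the correlators at `t ∈ H^2(X)` to those at the origin with weights
`∏ (t_i ∫_β φ_i)^{m_i} / m_i!`; summation over `m` gives `e^{∫_β t}` (`hasSum_prod_exp`).
-/

open scoped BigOperators Topology
open Filter

namespace Pool.Agent.DST

open Pool.Agent.Helper18.Dub Pool.Agent.Helper7.DubStokes Pool.Agent.SHF

variable {N : ℕ}

private theorem hasSum_prod_exp' (x : Fin N → ℂ) :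
    HasSum (fun m : Fin N → ℕ => ∏ i, (x i ^ m i / ((m i).factorial : ℂ)))
      (Complex.exp (∑ i, x i)) := by
  induction N with
  | zero =>
    have h := hasSum_unique (fun m : Fin 0 → ℕ => ∏ i, (x i ^ m i / ((m i).factorial : ℂ)))
    simp only [Finset.univ_eq_empty, Finset.prod_empty, Finset.sum_empty, Complex.exp_zero] at h ⊢
    exact h
  | succ N ih =>
    set F : ℕ → ℂ := fun n => x 0 ^ n / (n.factorial : ℂ) with hF
    set G : (Fin N → ℕ) → ℂ := fun m => ∏ i, (x i.succ ^ m i / ((m i).factorial : ℂ)) with hG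
    have h1 : HasSum F (Complex.exp (x 0)) := by
      rw [Complex.exp_eq_exp_ℂ]
      exact NormedSpace.expSeries_div_hasSum_exp (x 0)
    have h2 : HasSum G (Complex.exp (∑ i : Fin N, x i.succ)) := ih (fun i => x i.succ)
    have hn1 : Summable fun n => ‖F n‖ := h1.summable.norm
    have hn2 : Summable fun m => ‖G m‖ := h2.summable.norm
    have hs : Summable fun p : ℕ × (Fin N → ℕ) => F p.1 * G p.2 :=
      summable_mul_of_summable_norm hn1 hn2
    have h3 : HasSum (fun p : ℕ × (Fin N → ℕ) => F p.1 * G p.2)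
        (Complex.exp (x 0) * Complex.exp (∑ i : Fin N, x i.succ)) := h1.mul h2 hs
    rw [← Complex.exp_add, ← Fin.sum_univ_succ] at h3
    refine ((Fin.consEquiv (fun _ : Fin (N + 1) => ℕ)).hasSum_iff
      (f := fun m : Fin (N + 1) → ℕ => ∏ i, (x i ^ m i / ((m i).factorial : ℂ)))).1 ?_
    convert h3 using 1
    funext p
    simp only [Function.comp_apply, Fin.prod_univ_succ, Fin.consEquiv_apply, Fin.cons_zero,
      Fin.cons_succ, hF, hG]

theorem hasSum_prod_exp (x : Fin N → ℂ) :
    HasSum (fun m : Fin N →₀ ℕ => ∏ i, (x i ^ m i / ((m i).factorial : ℂ)))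
      (Complex.exp (∑ i, x i)) :=
  (Finsupp.equivFunOnFinite.hasSum_iff (f := fun m : Fin N → ℕ =>
    ∏ i, (x i ^ m i / ((m i).factorial : ℂ)))).2 (hasSum_prod_exp' x)

private theorem inv_add (X : FanoGW (Fin N)) (h0 : ∀ i, X.period X.zero i = 0) (β : X.Curve)
    {s : Multiset (Fin N)} (hs : 3 ≤ Multiset.card s) (M : Multiset (Fin N))
    (hM : ∀ i ∈ M, X.deg i = 1) :
    X.inv β (s + M) = (M.map (X.period β)).prod * X.inv β s := by
  by_cases hβ : β = X.zero
  · subst hβ
    rcases Multiset.empty_or_exists_mem M with h | ⟨a, ha⟩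
    · subst h
      simp
    · have h1 : 4 ≤ Multiset.card (s + M) := by
        have : 0 < Multiset.card M := Multiset.card_pos_iff_exists_mem.2 ⟨a, ha⟩
        rw [Multiset.card_add]
        omega
      rw [X.degree_zero _ h1]
      have h2 : (M.map (X.period X.zero)).prod = 0 := by
        rw [Multiset.prod_eq_zero_iff]
        exact Multiset.mem_map.2 ⟨a, ha, h0 a⟩
      rw [h2, zero_mul]
  · induction M using Multiset.induction_on with
    | empty => simp
    | cons a M ih =>
      have h1 : s + a ::ₘ M = a ::ₘ (s + M) := Multiset.add_cons a s M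
      have h2 : 3 ≤ Multiset.card (s + M) := by
        rw [Multiset.card_add]
        omega
      rw [h1, X.divisor β (s + M) a hβ h2 (hM a (Multiset.mem_cons_self a M)),
        ih (fun i hi => hM i (Multiset.mem_cons_of_mem hi)), Multiset.map_cons,
        Multiset.prod_cons, mul_assoc]

private theorem map_toMultiset_prod (m : Fin N →₀ ℕ) (f : Fin N → ℂ) :
    ((Finsupp.toMultiset m).map f).prod = ∏ i, f i ^ m i := by
  rw [Finset.prod_multiset_map_count]
  rw [Finset.prod_subset (Finset.subset_univ _)]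
  · exact Finset.prod_congr rfl fun i _ => by rw [Finsupp.count_toMultiset]
  · intro i _ hi
    rw [Multiset.mem_toFinset, ← Multiset.count_ne_zero, not_not] at hi
    rw [hi, pow_zero]

private theorem finite_c1_le (X : FanoGW (Fin N)) (n : ℕ) : {β | X.c1 β ≤ n}.Finite := by
  have h : {β | X.c1 β ≤ n} ⊆ ⋃ k ∈ Set.Iic n, {β | X.c1 β = k} := by
    intro β hβ
    simp only [Set.mem_iUnion]
    exact ⟨X.c1 β, hβ, rfl⟩
  exact ((Set.finite_Iic n).biUnion fun k _ => X.c1_finite k).subset h

private theorem hasSum_term {X : FanoGW (Fin N)} {t : Fin N → ℂ}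
    (h0 : ∀ i, X.period X.zero i = 0) (ht : ∀ i, t i ≠ 0 → X.deg i = 1)
    {s : Multiset (Fin N)} (hs : Multiset.card s = 3) :
    HasSum (term X t s) (∑ β ∈ (finite_c1_le X (s.map X.deg).sum).toFinset,
      X.inv β s * Complex.exp (∑ i, t i * X.period β i)) := by
  have h1 : HasSum (fun m : Fin N →₀ ℕ => ∑ β ∈ (finite_c1_le X (s.map X.deg).sum).toFinset,
      X.inv β s * ∏ i, ((t i * X.period β i) ^ m i / ((m i).factorial : ℂ)))
      (∑ β ∈ (finite_c1_le X (s.map X.deg).sum).toFinset,
        X.inv β s * Complex.exp (∑ i, t i * X.period β i)) :=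
    hasSum_sum fun β _ => (hasSum_prod_exp (fun i => t i * X.period β i)).mul_left _
  convert h1 using 1
  funext m
  have h2 : term X t s m =
      X.corr (s + Finsupp.toMultiset m) / (∏ i, ((m i).factorial : ℂ)) * ∏ i, t i ^ m i := rfl
  rw [h2]
  by_cases hm : ∀ i, m i ≠ 0 → X.deg i = 1
  · have hM : ∀ i ∈ Finsupp.toMultiset m, X.deg i = 1 := by
      intro i hi
      apply hm i
      rw [← Finsupp.count_toMultiset]
      exact Multiset.count_ne_zero.2 hi
    have h3 : X.corr (s + Finsupp.toMultiset m) =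
        ∑ β ∈ (finite_c1_le X (s.map X.deg).sum).toFinset, X.inv β (s + Finsupp.toMultiset m) := by
      unfold GWData.corr
      apply finsum_eq_sum_of_support_subset
      intro β hβ
      rw [Function.mem_support] at hβ
      have h4 := X.dimension β _ hβ
      rw [Multiset.map_add, Multiset.sum_add, Multiset.card_add, hs] at h4
      have h5 : ((Finsupp.toMultiset m).map X.deg).sum = Multiset.card (Finsupp.toMultiset m) := by
        rw [Multiset.map_congr rfl hM]
        simp
      rw [h5] at h4
      rw [Set.Finite.coe_toFinset, Set.mem_ofPred_eq]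
      omega
    rw [h3, Finset.sum_div, Finset.sum_mul]
    apply Finset.sum_congr rfl
    intro β _
    rw [inv_add X h0 β (by omega) _ hM, map_toMultiset_prod, Finset.prod_div_distrib]
    simp_rw [mul_pow]
    rw [Finset.prod_mul_distrib]
    ring
  · push Not at hm
    obtain ⟨i, hi, hd⟩ := hm
    have hti : t i = 0 := by
      by_contra h
      exact hd (ht i h)
    have h3 : ∏ j, t j ^ m j = 0 :=
      Finset.prod_eq_zero (Finset.mem_univ i) (by rw [hti, zero_pow hi])
    rw [h3, mul_zero]
    symm
    apply Finset.sum_eq_zero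
    intro β _
    have h4 : ∏ j, ((t j * X.period β j) ^ m j / ((m j).factorial : ℂ)) = 0 :=
      Finset.prod_eq_zero (Finset.mem_univ i) (by rw [hti, zero_mul, zero_pow hi, zero_div])
    rw [h4, mul_zero]

private theorem corrAt_zero {X : FanoGW (Fin N)} (T : EquivGW X) (t : Fin N → ℂ)
    {s : Multiset (Fin N)} (hs : Multiset.card s = 3) :
    (corrAt T.toEquivData t s).eval 0 = ∑ β ∈ (finite_c1_le X (s.map X.deg).sum).toFinset,
      X.inv β s * Complex.exp (∑ i, t i * X.period β i) := by
  have h1 : corrAt T.toEquivData t s = ∑ β ∈ (finite_c1_le X (s.map X.deg).sum).toFinset,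
      Polynomial.C (Complex.exp (∑ i, t i * X.period β i)) * T.invT β s := by
    unfold corrAt
    apply finsum_eq_sum_of_support_subset
    intro β hβ
    rw [Function.mem_support] at hβ
    have h2 : T.invT β s ≠ 0 := right_ne_zero_of_mul hβ
    obtain ⟨n, hn⟩ : ∃ n, (T.invT β s).coeff n ≠ 0 := by
      by_contra h
      push Not at h
      exact h2 (Polynomial.ext (by simpa using h))
    have h3 := T.dimension β s n hn
    rw [Set.Finite.coe_toFinset, Set.mem_ofPred_eq]
    omega
  rw [h1, Polynomial.eval_finsetSum]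
  apply Finset.sum_congr rfl
  intro β _
  rw [Polynomial.eval_mul, Polynomial.eval_C, T.inv_zero, mul_comm]

private theorem inv_pair_zero {X : FanoGW (Fin N)} (T : EquivGW X) (k l : Fin N) :
    (T.pairT⁻¹ k l).eval 0 = X.pair⁻¹ k l := by
  have h1 : T.pairT.map (Polynomial.evalRingHom 0) = X.pair := by
    ext i j
    simpa using T.pair_zero i j
  have h2 : T.pairT * T.pairT⁻¹ = 1 := Matrix.mul_nonsing_inv _ T.pair_nondeg
  have h3 : X.pair * T.pairT⁻¹.map (Polynomial.evalRingHom 0) = 1 := by
    rw [← h1, ← Matrix.map_mul, h2]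
    exact Matrix.map_one _ (map_zero _) (map_one _)
  rw [Matrix.inv_eq_right_inv h3]
  simp

theorem euler_at_zero {X : FanoGW (Fin N)} (T : EquivGW X) {t : Fin N → ℂ} (κ : ℂ)
    (h0 : ∀ i, X.period X.zero i = 0) (ht : ∀ i, t i ≠ 0 → X.deg i = 1) :
    eulerMat X t = evm (chernT T.toEquivData t κ) 0 := by
  ext k b
  unfold eulerMat evm chernT
  simp only [Matrix.of_apply, Matrix.map_apply, Matrix.add_apply, Matrix.smul_apply,
    Polynomial.eval_add, Polynomial.eval_finsetSum, Polynomial.eval_mul, Polynomial.eval_C,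
    smul_eq_mul, Polynomial.eval_X, mul_zero, zero_mul, add_zero]
  apply Finset.sum_congr rfl
  intro a _
  have h1 : (1 - (X.deg a : ℂ)) * t a = 0 := by
    by_cases h : t a = 0
    · rw [h, mul_zero]
    · rw [ht a h]
      simp
  rw [h1, add_zero]
  congr 1
  apply Finset.sum_congr rfl
  intro l _
  have hs : Multiset.card ({a, b, l} : Multiset (Fin N)) = 3 := by simp
  rw [inv_pair_zero, corrAt_zero T t hs, (hasSum_term h0 ht hs).tsum_eq]

end Pool.Agent.DST
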