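import Pool.Agent.DST.VRay
import Pool.Agent.DST.FEuler

/-!
# DST-VEul: the Euler field of the non-equivariant theory at `t + v`

Both sides are expressed by sums over all multi-indices. The multi-indices are split into a part
supported on the indices of degree one and a part supported on the other indices; for a fixed second
part the divisor axiom sums both families to the same exponentials.
-/

open scoped BigOperators Topology
open Filter

namespace Pool.Agent.DST

open Pool.Agent.Helper18.Dub Pool.Agent.Helper7.DubStokes Pool.Agent.SHF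

variable {N : ℕ} {X : FanoGW (Fin N)} {t : Fin N → ℂ}

/-! ### values of restrictions to rays -/

private theorem veul_evs_line (v : Fin N → ℂ) (f : MvPowerSeries (Fin N) (Polynomial ℂ))
    (h : Summable fun m => (∏ i, v i ^ m i) * (MvPowerSeries.coeff m f).eval 0) :
    evs 1 0 (lineF v f) = ∑' m, (∏ i, v i ^ m i) * (MvPowerSeries.coeff m f).eval 0 := by
  have h1 := h.hasSum.tsum_fiberwise (fun m : Fin N →₀ ℕ => ∑ i, m i)
  rw [← h1.tsum_eq]
  unfold evs lineF
  refine tsum_congr fun n => ?_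
  have hset : (fun m : Fin N →₀ ℕ => ∑ i, m i) ⁻¹' {n} =
      ↑(Finset.finsuppAntidiag (Finset.univ : Finset (Fin N)) n) := by
    ext m
    rw [Set.mem_preimage, Set.mem_singleton_iff, Finset.mem_coe, Finset.mem_finsuppAntidiag]
    exact ⟨fun h => ⟨h, Finset.subset_univ _⟩, fun h => h.1⟩
  rw [hset, Finset.tsum_subtype' (Finset.finsuppAntidiag (Finset.univ : Finset (Fin N)) n)
    (fun m => (∏ i, v i ^ m i) * (MvPowerSeries.coeff m f).eval 0)]
  rw [PowerSeries.coeff_mk, one_pow, one_mul, Polynomial.eval_finsetSum]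
  refine Finset.sum_congr rfl fun m _ => ?_
  rw [Polynomial.eval_smul, smul_eq_mul]

private theorem veul_pconv_X (R r : ℝ) :
    PConv R r (PowerSeries.X : PowerSeries (Polynomial ℂ)) := by
  unfold PConv
  refine summable_of_ne_finset_zero (s := {(1, 0)}) fun p hp => ?_
  rw [PowerSeries.coeff_X]
  by_cases h : p.1 = 1
  · rw [if_pos h, Polynomial.coeff_one]
    have h2 : p.2 ≠ 0 := fun h3 => hp (Finset.mem_singleton.2 (Prod.ext h h3))
    rw [if_neg h2, norm_zero, zero_mul, zero_mul]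
  · rw [if_neg h, Polynomial.coeff_zero, norm_zero, zero_mul, zero_mul]

private theorem veul_evs_X : evs 1 0 (PowerSeries.X : PowerSeries (Polynomial ℂ)) = 1 := by
  unfold evs
  rw [tsum_eq_single 1]
  · rw [PowerSeries.coeff_X, if_pos rfl, one_pow, Polynomial.eval_one, mul_one]
  · intro n hn
    rw [PowerSeries.coeff_X, if_neg hn, Polynomial.eval_zero, mul_zero]

/-! ### the axioms at `λ = 0` -/

private theorem veul_inv_add (X : FanoGW (Fin N)) (h0 : ∀ i, X.period X.zero i = 0) (β : X.Curve)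
    {s : Multiset (Fin N)} (hs : 3 ≤ Multiset.card s) (M : Multiset (Fin N))
    (hM : ∀ i ∈ M, X.deg i = 1) :
    X.inv β (s + M) = (M.map (X.period β)).prod * X.inv β s := by
  by_cases hβ : β = X.zero
  · subst hβ
    rcases Multiset.empty_or_exists_mem M with h | ⟨a, ha⟩
    · subst h
      simp
    · have h1 : 4 ≤ Multiset.card (s + M) := by
        have : 0 < Multiset.card M := Multiset.card_pos_iff_exists_mem.2 ⟨a, ha⟩
        rw [Multiset.card_add]
        omega
      rw [X.degree_zero _ h1]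
      have h2 : (M.map (X.period X.zero)).prod = 0 := by
        rw [Multiset.prod_eq_zero_iff]
        exact Multiset.mem_map.2 ⟨a, ha, h0 a⟩
      rw [h2, zero_mul]
  · induction M using Multiset.induction_on with
    | empty => simp
    | cons a M ih =>
      have h1 : s + a ::ₘ M = a ::ₘ (s + M) := Multiset.add_cons a s M
      have h2 : 3 ≤ Multiset.card (s + M) := by
        rw [Multiset.card_add]
        omega
      rw [h1, X.divisor β (s + M) a hβ h2 (hM a (Multiset.mem_cons_self a M)),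
        ih (fun i hi => hM i (Multiset.mem_cons_of_mem hi)), Multiset.map_cons,
        Multiset.prod_cons, mul_assoc]

private theorem veul_map_prod (m : Fin N →₀ ℕ) (f : Fin N → ℂ) :
    ((Finsupp.toMultiset m).map f).prod = ∏ i, f i ^ m i := by
  rw [Finset.prod_multiset_map_count]
  rw [Finset.prod_subset (Finset.subset_univ _)]
  · exact Finset.prod_congr rfl fun i _ => by rw [Finsupp.count_toMultiset]
  · intro i _ hi
    rw [Multiset.mem_toFinset, ← Multiset.count_ne_zero, not_not] at hi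
    rw [hi, pow_zero]

private theorem veul_finite_c1_le (X : FanoGW (Fin N)) (n : ℕ) : {β | X.c1 β ≤ n}.Finite := by
  have h : {β | X.c1 β ≤ n} ⊆ ⋃ k ∈ Set.Iic n, {β | X.c1 β = k} := by
    intro β hβ
    simp only [Set.mem_iUnion]
    exact ⟨X.c1 β, hβ, rfl⟩
  exact ((Set.finite_Iic n).biUnion fun k _ => X.c1_finite k).subset h

private theorem veul_inv_pair_zero {X : FanoGW (Fin N)} (T : EquivGW X) (k l : Fin N) :
    (T.pairT⁻¹ k l).eval 0 = X.pair⁻¹ k l := by
  have h1 : T.pairT.map (Polynomial.evalRingHom 0) = X.pair := by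
    ext i j
    simpa using T.pair_zero i j
  have h2 : T.pairT * T.pairT⁻¹ = 1 := Matrix.mul_nonsing_inv _ T.pair_nondeg
  have h3 : X.pair * T.pairT⁻¹.map (Polynomial.evalRingHom 0) = 1 := by
    rw [← h1, ← Matrix.map_mul, h2]
    exact Matrix.map_one _ (map_zero _) (map_one _)
  rw [Matrix.inv_eq_right_inv h3]
  simp

private theorem veul_deg_one {d : Fin N → ℕ} {m : Fin N →₀ ℕ} (hm : ∀ i, m i ≠ 0 → d i = 1) :
    ∀ i ∈ Finsupp.toMultiset m, d i = 1 := by
  intro i hi
  apply hm i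
  rw [← Finsupp.count_toMultiset]
  exact Multiset.count_ne_zero.2 hi

private theorem veul_corr (X : FanoGW (Fin N)) (s M : Multiset (Fin N))
    (hM : ∀ i ∈ M, X.deg i = 1) :
    X.corr (s + M) = ∑ β ∈ (veul_finite_c1_le X ((s.map X.deg).sum + 3)).toFinset,
      X.inv β (s + M) := by
  unfold GWData.corr
  apply finsum_eq_sum_of_support_subset
  intro β hβ
  rw [Function.mem_support] at hβ
  have h4 := X.dimension β _ hβ
  rw [Multiset.map_add, Multiset.sum_add, Multiset.card_add] at h4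
  have h5 : (M.map X.deg).sum = Multiset.card M := by
    rw [Multiset.map_congr rfl hM]
    simp
  rw [h5] at h4
  rw [Set.Finite.coe_toFinset, Set.mem_ofPred_eq]
  omega

private theorem veul_corrAt (T : EquivGW X) (t : Fin N → ℂ) (s M : Multiset (Fin N))
    (hM : ∀ i ∈ M, X.deg i = 1) :
    (corrAt T.toEquivData t (s + M)).eval 0 =
      ∑ β ∈ (veul_finite_c1_le X ((s.map X.deg).sum + 3)).toFinset,
        Complex.exp (∑ i, t i * X.period β i) * X.inv β (s + M) := by
  have h1 : corrAt T.toEquivData t (s + M) =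
      ∑ β ∈ (veul_finite_c1_le X ((s.map X.deg).sum + 3)).toFinset,
      Polynomial.C (Complex.exp (∑ i, t i * X.period β i)) * T.invT β (s + M) := by
    unfold corrAt
    apply finsum_eq_sum_of_support_subset
    intro β hβ
    rw [Function.mem_support] at hβ
    have h2 : T.invT β (s + M) ≠ 0 := right_ne_zero_of_mul hβ
    obtain ⟨n, hn⟩ : ∃ n, (T.invT β (s + M)).coeff n ≠ 0 := by
      by_contra h
      push Not at h
      exact h2 (Polynomial.ext (by simpa using h))
    have h3 := T.dimension β (s + M) n hn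
    rw [Multiset.map_add, Multiset.sum_add, Multiset.card_add] at h3
    have h5 : (M.map X.deg).sum = Multiset.card M := by
      rw [Multiset.map_congr rfl hM]
      simp
    rw [h5] at h3
    rw [Set.Finite.coe_toFinset, Set.mem_ofPred_eq]
    omega
  rw [h1, Polynomial.eval_finsetSum]
  apply Finset.sum_congr rfl
  intro β _
  rw [Polynomial.eval_mul, Polynomial.eval_C, T.inv_zero]

/-! ### splitting of multi-indices -/

private noncomputable def veulSplit (d : Fin N → ℕ) :
    {m : Fin N →₀ ℕ // ∀ i, m i ≠ 0 → d i ≠ 1} × {m : Fin N →₀ ℕ // ∀ i, m i ≠ 0 → d i = 1} ≃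
      (Fin N →₀ ℕ) where
  toFun p := p.1.1 + p.2.1
  invFun m := (⟨m.filter fun i => d i ≠ 1, fun i hi h => by
      apply hi
      rw [Finsupp.filter_apply, if_neg (not_not.2 h)]⟩,
    ⟨m.filter fun i => d i = 1, fun i hi => by
      by_contra h
      apply hi
      rw [Finsupp.filter_apply, if_neg h]⟩)
  left_inv p := by
    obtain ⟨⟨a, ha⟩, ⟨b, hb⟩⟩ := p
    have hb0 : ∀ i, d i ≠ 1 → b i = 0 := fun i h => by
      by_contra h1
      exact h (hb i h1)
    have ha0 : ∀ i, d i = 1 → a i = 0 := fun i h => by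
      by_contra h1
      exact ha i h1 h
    refine Prod.ext (Subtype.ext ?_) (Subtype.ext ?_)
    · ext i
      show ((a + b).filter fun i => d i ≠ 1) i = a i
      rw [Finsupp.filter_apply, Finsupp.add_apply]
      by_cases h : d i = 1
      · rw [if_neg (not_not.2 h), ha0 i h]
      · rw [if_pos h, hb0 i h, add_zero]
    · ext i
      show ((a + b).filter fun i => d i = 1) i = b i
      rw [Finsupp.filter_apply, Finsupp.add_apply]
      by_cases h : d i = 1
      · rw [if_pos h, ha0 i h, zero_add]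
      · rw [if_neg h, hb0 i h]
  right_inv m := by
    ext i
    show ((m.filter fun i => d i ≠ 1) + (m.filter fun i => d i = 1)) i = m i
    rw [Finsupp.add_apply, Finsupp.filter_apply, Finsupp.filter_apply]
    by_cases h : d i = 1
    · rw [if_neg (not_not.2 h), if_pos h, zero_add]
    · rw [if_pos h, if_neg h, add_zero]

private theorem veul_tsum_split (d : Fin N → ℕ) {F : (Fin N →₀ ℕ) → ℂ} (hF : Summable F) :
    ∑' m, F m = ∑' (m' : {m : Fin N →₀ ℕ // ∀ i, m i ≠ 0 → d i ≠ 1})
      (m₂ : {m : Fin N →₀ ℕ // ∀ i, m i ≠ 0 → d i = 1}), F (m'.1 + m₂.1) := by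
  rw [← (veulSplit d).tsum_eq F]
  have h : Summable fun p => F (veulSplit d p) := (veulSplit d).summable_iff.2 hF
  exact h.tsum_prod

private theorem veul_hasSum_P (d : Fin N → ℕ) (x : Fin N → ℂ) :
    HasSum (fun m : {m : Fin N →₀ ℕ // ∀ i, m i ≠ 0 → d i = 1} =>
      ∏ i, (x i ^ m.1 i / ((m.1 i).factorial : ℂ)))
      (Complex.exp (∑ i, if d i = 1 then x i else 0)) := by
  have h1 := hasSum_prod_exp (fun i => if d i = 1 then x i else 0)
  have h2 : Function.support (fun m : Fin N →₀ ℕ =>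
      ∏ i, ((if d i = 1 then x i else 0) ^ m i / ((m i).factorial : ℂ))) ⊆
      {m : Fin N →₀ ℕ | ∀ i, m i ≠ 0 → d i = 1} := by
    intro m hm i hi
    by_contra h
    rw [Function.mem_support] at hm
    apply hm
    apply Finset.prod_eq_zero (Finset.mem_univ i)
    rw [if_neg h, zero_pow hi, zero_div]
  have h3 := (hasSum_subtype_iff_of_support_subset h2).2 h1
  have h4 : (fun m : {m : Fin N →₀ ℕ // ∀ i, m i ≠ 0 → d i = 1} =>
      ∏ i, (x i ^ m.1 i / ((m.1 i).factorial : ℂ))) = fun m =>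
      ∏ i, ((if d i = 1 then x i else 0) ^ m.1 i / ((m.1 i).factorial : ℂ)) := by
    funext m
    refine Finset.prod_congr rfl fun i _ => ?_
    by_cases h : d i = 1
    · rw [if_pos h]
    · have h4 : m.1 i = 0 := by
        by_contra h5
        exact h (m.2 i h5)
      rw [h4, pow_zero, pow_zero]
  rw [h4]
  exact h3

section fiber

private theorem veul_congr {α : Type} {f g : α → ℂ} {c : ℂ} (h : HasSum f c)
    (hfg : ∀ a, g a = f a) : HasSum g c := by
  have h1 : g = f := funext hfg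
  rw [h1]
  exact h

variable {v : Fin N → ℂ}

private theorem veul_fact {d : Fin N → ℕ} (a : {m : Fin N →₀ ℕ // ∀ i, m i ≠ 0 → d i ≠ 1})
    (b : {m : Fin N →₀ ℕ // ∀ i, m i ≠ 0 → d i = 1}) :
    (∏ i, (((a.1 + b.1) i).factorial : ℂ)) =
      (∏ i, ((a.1 i).factorial : ℂ)) * ∏ i, ((b.1 i).factorial : ℂ) := by
  rw [← Finset.prod_mul_distrib]
  refine Finset.prod_congr rfl fun i _ => ?_
  rw [Finsupp.add_apply]
  by_cases h : d i = 1
  · have h1 : a.1 i = 0 := by
      by_contra h2
      exact a.2 i h2 h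
    rw [h1, zero_add, Nat.factorial_zero, Nat.cast_one, one_mul]
  · have h1 : b.1 i = 0 := by
      by_contra h2
      exact h (b.2 i h2)
    rw [h1, add_zero, Nat.factorial_zero, Nat.cast_one, mul_one]

/-- the common value of the two sums over a fibre -/
private noncomputable def veulR (X : FanoGW (Fin N)) (t v : Fin N → ℂ) (s : Multiset (Fin N))
    (a : Fin N →₀ ℕ) : ℂ :=
  (∏ i, v i ^ a i) / (∏ i, ((a i).factorial : ℂ)) *
    ∑ β ∈ (veul_finite_c1_le X (((s + Finsupp.toMultiset a).map X.deg).sum + 3)).toFinset,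
      X.inv β (s + Finsupp.toMultiset a) *
        Complex.exp (∑ i, if X.deg i = 1 then (t i + v i) * X.period β i else 0)

private theorem veul_term (h0 : ∀ i, X.period X.zero i = 0) (ht : ∀ i, t i ≠ 0 → X.deg i = 1)
    {s : Multiset (Fin N)} (hs : 3 ≤ Multiset.card s)
    (a : {m : Fin N →₀ ℕ // ∀ i, m i ≠ 0 → X.deg i ≠ 1}) :
    HasSum (fun b : {m : Fin N →₀ ℕ // ∀ i, m i ≠ 0 → X.deg i = 1} =>
      term X (t + v) s (a.1 + b.1)) (veulR X t v s a.1) := by
  have h1 := (hasSum_sum (s := (veul_finite_c1_le X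
    (((s + Finsupp.toMultiset a.1).map X.deg).sum + 3)).toFinset) fun β _ =>
    (veul_hasSum_P X.deg (fun i => (t i + v i) * X.period β i)).mul_left
      (X.inv β (s + Finsupp.toMultiset a.1))).mul_left
      ((∏ i, v i ^ a.1 i) / (∏ i, ((a.1 i).factorial : ℂ)))
  refine veul_congr h1 fun b => ?_
  have h2 : term X (t + v) s (a.1 + b.1) =
      X.corr (s + Finsupp.toMultiset (a.1 + b.1)) / (∏ i, (((a.1 + b.1) i).factorial : ℂ)) *
        ∏ i, (t + v) i ^ (a.1 + b.1) i := rfl
  have hM := veul_deg_one b.2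
  have h3 : ∏ i, (t + v) i ^ (a.1 + b.1) i = (∏ i, v i ^ a.1 i) * ∏ i, (t i + v i) ^ b.1 i := by
    rw [← Finset.prod_mul_distrib]
    refine Finset.prod_congr rfl fun i _ => ?_
    rw [Finsupp.add_apply, pow_add, Pi.add_apply]
    by_cases h : a.1 i = 0
    · rw [h, pow_zero, pow_zero]
    · have h4 : t i = 0 := by
        by_contra h5
        exact a.2 i h (ht i h5)
      rw [h4, zero_add]
  have hs' : 3 ≤ Multiset.card (s + Finsupp.toMultiset a.1) := by
    rw [Multiset.card_add]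
    omega
  rw [h2, h3, veul_fact a b, map_add, ← add_assoc, veul_corr X _ _ hM, Finset.mul_sum,
    Finset.sum_div, Finset.sum_mul]
  refine Finset.sum_congr rfl fun β _ => ?_
  rw [veul_inv_add X h0 β hs' _ hM, veul_map_prod, Finset.prod_div_distrib]
  simp_rw [mul_pow]
  rw [Finset.prod_mul_distrib]
  ring

private theorem veul_g (T : EquivGW X) (h0 : ∀ i, X.period X.zero i = 0)
    (ht : ∀ i, t i ≠ 0 → X.deg i = 1)
    {s : Multiset (Fin N)} (hs : 3 ≤ Multiset.card s)
    (a : {m : Fin N →₀ ℕ // ∀ i, m i ≠ 0 → X.deg i ≠ 1}) :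
    HasSum (fun b : {m : Fin N →₀ ℕ // ∀ i, m i ≠ 0 → X.deg i = 1} =>
      (∏ i, v i ^ (a.1 + b.1) i) *
        (MvPowerSeries.coeff (a.1 + b.1) (serAt T.toEquivData t s)).eval 0)
      (veulR X t v s a.1) := by
  have h1 := (hasSum_sum (s := (veul_finite_c1_le X
    (((s + Finsupp.toMultiset a.1).map X.deg).sum + 3)).toFinset) fun β _ =>
    (veul_hasSum_P X.deg (fun i => v i * X.period β i)).mul_left
      (X.inv β (s + Finsupp.toMultiset a.1) * Complex.exp (∑ i, t i * X.period β i))).mul_left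
      ((∏ i, v i ^ a.1 i) / (∏ i, ((a.1 i).factorial : ℂ)))
  have hs' : 3 ≤ Multiset.card (s + Finsupp.toMultiset a.1) := by
    rw [Multiset.card_add]
    omega
  have hR : veulR X t v s a.1 = (∏ i, v i ^ a.1 i) / (∏ i, ((a.1 i).factorial : ℂ)) *
      ∑ β ∈ (veul_finite_c1_le X (((s + Finsupp.toMultiset a.1).map X.deg).sum + 3)).toFinset,
        X.inv β (s + Finsupp.toMultiset a.1) * Complex.exp (∑ i, t i * X.period β i) *
          Complex.exp (∑ i, if X.deg i = 1 then v i * X.period β i else 0) := by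
    unfold veulR
    congr 1
    refine Finset.sum_congr rfl fun β _ => ?_
    rw [mul_assoc, ← Complex.exp_add]
    congr 2
    rw [← Finset.sum_add_distrib]
    refine Finset.sum_congr rfl fun i _ => ?_
    by_cases h : X.deg i = 1
    · rw [if_pos h, if_pos h]
      ring
    · have h4 : t i = 0 := by
        by_contra h5
        exact h (ht i h5)
      rw [if_neg h, if_neg h, h4, zero_mul, add_zero]
  rw [hR]
  refine veul_congr h1 fun b => ?_
  · have h2 : MvPowerSeries.coeff (a.1 + b.1) (serAt T.toEquivData t s) =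
        Polynomial.C (∏ i, (((a.1 + b.1) i).factorial : ℂ))⁻¹ *
          corrAt T.toEquivData t (s + Finsupp.toMultiset (a.1 + b.1)) := rfl
    have hM := veul_deg_one b.2
    have h3 : ∏ i, v i ^ (a.1 + b.1) i = (∏ i, v i ^ a.1 i) * ∏ i, v i ^ b.1 i := by
      rw [← Finset.prod_mul_distrib]
      refine Finset.prod_congr rfl fun i _ => ?_
      rw [Finsupp.add_apply, pow_add]
    rw [h2, h3, Polynomial.eval_mul, Polynomial.eval_C, veul_fact a b, map_add, ← add_assoc,
      veul_corrAt T t _ _ hM, Finset.mul_sum, Finset.mul_sum, Finset.mul_sum]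
    refine Finset.sum_congr rfl fun β _ => ?_
    rw [veul_inv_add X h0 β hs' _ hM, veul_map_prod, Finset.prod_div_distrib]
    simp_rw [mul_pow]
    rw [Finset.prod_mul_distrib]
    ring

end fiber

/-! ### summability -/

private theorem veul_geom' {q : ℝ} (h0 : 0 ≤ q) (h1 : q < 1) (N : ℕ) :
    Summable fun m : Fin N → ℕ => ∏ i, q ^ m i := by
  induction N with
  | zero => exact (hasSum_unique _).summable
  | succ N ih =>
    have h2 : Summable fun n : ℕ => q ^ n := summable_geometric_of_lt_one h0 h1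
    have h3 : Summable fun p : ℕ × (Fin N → ℕ) => q ^ p.1 * ∏ i, q ^ p.2 i :=
      h2.mul_of_nonneg ih (fun n => pow_nonneg h0 n)
        (fun m => Finset.prod_nonneg fun i _ => pow_nonneg h0 _)
    refine ((Fin.consEquiv (fun _ : Fin (N + 1) => ℕ)).summable_iff
      (f := fun m : Fin (N + 1) → ℕ => ∏ i, q ^ m i)).1 ?_
    refine h3.congr fun p => ?_
    simp only [Function.comp_apply, Fin.prod_univ_succ, Fin.consEquiv_apply, Fin.cons_zero,
      Fin.cons_succ]

private theorem veul_geom {q : ℝ} (h0 : 0 ≤ q) (h1 : q < 1) :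
    Summable fun m : Fin N →₀ ℕ => q ^ (∑ i, m i) := by
  have h2 := (Finsupp.equivFunOnFinite (α := Fin N) (M := ℕ)).summable_iff.2 (veul_geom' h0 h1 N)
  refine h2.congr fun m => ?_
  show ∏ i, q ^ m i = _
  rw [Finset.prod_pow_eq_pow_sum]

private theorem veul_evs_sum {ρ : ℝ} (hρ : 0 ≤ ρ) {ι : Type} (s : Finset ι)
    (F : ι → PowerSeries (Polynomial ℂ)) (h : ∀ i ∈ s, PConv 1 ρ (F i)) :
    PConv 1 ρ (∑ i ∈ s, F i) ∧ evs 1 0 (∑ i ∈ s, F i) = ∑ i ∈ s, evs 1 0 (F i) := by
  classical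
  induction s using Finset.induction_on with
  | empty =>
    rw [Finset.sum_empty, Finset.sum_empty]
    have h1 := PConv.C 1 ρ 0
    have h2 := evs_C 1 0 0
    rw [map_zero] at h1 h2
    exact ⟨h1, by rw [h2, Polynomial.eval_zero]⟩
  | insert a s ha ih =>
    obtain ⟨h1, h2⟩ := ih fun i hi => h i (Finset.mem_insert_of_mem hi)
    have h3 := h a (Finset.mem_insert_self a s)
    rw [Finset.sum_insert ha, Finset.sum_insert ha]
    refine ⟨PConv.add zero_le_one hρ h3 h1, ?_⟩
    rw [evs_add zero_le_one hρ h3 h1 (by simp) (by simpa using hρ), h2]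

private theorem veul_ser (T : EquivGW X) (t : Fin N → ℂ) (a b l : Fin N) :
    serAt T.toEquivData t {a, b, l} =
      ∑ k, MvPowerSeries.C (T.pairT l k) * mulAt T.toEquivData t a k b := by
  have h1 : ∀ k, mulAt T.toEquivData t a k b =
      ∑ l', MvPowerSeries.C (T.pairT⁻¹ k l') * serAt T.toEquivData t {a, b, l'} := fun k => rfl
  have h2 : ∑ k, MvPowerSeries.C (T.pairT l k) * mulAt T.toEquivData t a k b =
      ∑ l', (∑ k, MvPowerSeries.C (T.pairT l k * T.pairT⁻¹ k l')) *
        serAt T.toEquivData t {a, b, l'} := by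
    simp_rw [h1, Finset.mul_sum]
    rw [Finset.sum_comm]
    refine Finset.sum_congr rfl fun l' _ => ?_
    rw [Finset.sum_mul]
    refine Finset.sum_congr rfl fun k _ => ?_
    rw [map_mul, mul_assoc]
  rw [h2, Finset.sum_eq_single l]
  · have h3 : (T.pairT * T.pairT⁻¹) l l = 1 := by
      rw [Matrix.mul_nonsing_inv _ T.pair_nondeg, Matrix.one_apply_eq]
    rw [Matrix.mul_apply] at h3
    rw [← map_sum, h3, map_one, one_mul]
  · intro l' _ hl
    have h3 : (T.pairT * T.pairT⁻¹) l l' = 0 := by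
      rw [Matrix.mul_nonsing_inv _ T.pair_nondeg, Matrix.one_apply_ne hl.symm]
    rw [Matrix.mul_apply] at h3
    rw [← map_sum, h3, map_zero, zero_mul]
  · intro h
    exact absurd (Finset.mem_univ l) h

private theorem veul_summable (T : EquivGW X) {A r : ℝ} (hA : 0 < A)
    (hB : BConv T.toEquivData t A r) {v : Fin N → ℂ} {V : ℝ}
    (hV : ∀ i, ‖v i‖ ≤ V) (hVA : V * A < 1) (a b l : Fin N) :
    Summable fun m => (∏ i, v i ^ m i) *
      (MvPowerSeries.coeff m (serAt T.toEquivData t {a, b, l})).eval 0 := by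
  obtain ⟨B, hB⟩ := hB
  have hV0 : 0 ≤ V := (norm_nonneg _).trans (hV a)
  have h1 : ∀ m, ‖(∏ i, v i ^ m i) *
      (MvPowerSeries.coeff m (serAt T.toEquivData t {a, b, l})).eval 0‖ ≤
      (∑ k, ‖(T.pairT l k).eval 0‖ * B) * (V * A) ^ (∑ i, m i) := by
    intro m
    have h2 : ‖∏ i, v i ^ m i‖ ≤ V ^ (∑ i, m i) := by
      rw [norm_prod, ← Finset.prod_pow_eq_pow_sum]
      refine Finset.prod_le_prod (fun i _ => norm_nonneg _) fun i _ => ?_
      rw [norm_pow]
      exact pow_le_pow_left₀ (norm_nonneg _) (hV i) _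
    have h3 : ‖(MvPowerSeries.coeff m (serAt T.toEquivData t {a, b, l})).eval 0‖ ≤
        (∑ k, ‖(T.pairT l k).eval 0‖ * B) * A ^ (∑ i, m i) := by
      rw [veul_ser T t a b l, map_sum, Polynomial.eval_finsetSum, Finset.sum_mul]
      refine (norm_sum_le _ _).trans (Finset.sum_le_sum fun k _ => ?_)
      rw [MvPowerSeries.coeff_C_mul, Polynomial.eval_mul, norm_mul, mul_assoc]
      refine mul_le_mul_of_nonneg_left ?_ (norm_nonneg _)
      have h4 := hB a k b m 0
      rw [pow_zero, mul_one] at h4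
      rw [← Polynomial.coeff_zero_eq_eval_zero]
      exact h4
    rw [norm_mul, mul_pow]
    calc ‖∏ i, v i ^ m i‖ *
          ‖(MvPowerSeries.coeff m (serAt T.toEquivData t {a, b, l})).eval 0‖
        ≤ V ^ (∑ i, m i) * ((∑ k, ‖(T.pairT l k).eval 0‖ * B) * A ^ (∑ i, m i)) :=
          mul_le_mul h2 h3 (norm_nonneg _) (pow_nonneg hV0 _)
      _ = _ := by ring
  exact Summable.of_norm_bounded ((veul_geom (mul_nonneg hV0 hA.le) hVA).mul_left _) h1

private theorem veul_evs_ser (T : EquivGW X) (h0 : ∀ i, X.period X.zero i = 0)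
    (ht : ∀ i, t i ≠ 0 → X.deg i = 1) {A r : ℝ} (hA : 0 < A)
    (hB : BConv T.toEquivData t A r) {v : Fin N → ℂ} {V : ℝ}
    (hV : ∀ i, ‖v i‖ ≤ V) (hVA : V * A < 1) (hc : ConvergesAt X (t + v)) (a b l : Fin N) :
    evs 1 0 (lineF v (serAt T.toEquivData t {a, b, l})) = ∑' m, term X (t + v) {a, b, l} m := by
  have hs := veul_summable T hA hB hV hVA a b l
  have h3 : 3 ≤ Multiset.card ({a, b, l} : Multiset (Fin N)) := by simp
  rw [veul_evs_line v _ hs, veul_tsum_split X.deg hs, veul_tsum_split X.deg (hc a b l)]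
  refine tsum_congr fun m' => ?_
  rw [(veul_g T h0 ht h3 m').tsum_eq, (veul_term h0 ht h3 m').tsum_eq]

theorem pconv_mulAt (T : BulkGW X t) {A r : ℝ} (hA : 0 < A)
    (hr : 0 < r) (hB : BConv T.toEquivData t A r) {v : Fin N → ℂ} {V : ℝ}
    (hV : ∀ i, ‖v i‖ ≤ V) (hVA : V * A < 1) (a i j : Fin N) :
    PConv 1 (r / 2) (lineF v (mulAt T.toEquivData t a i j)) :=
  line_conv T.toEquivGW hA hr hB hV one_pos (by rwa [one_mul]) (half_pos hr)
    (half_lt_self hr) a i j

theorem evs_finset_sum {ρ : ℝ} (hρ : 0 ≤ ρ) {ι : Type} (s : Finset ι)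
    (F : ι → PowerSeries (Polynomial ℂ)) (h : ∀ i ∈ s, PConv 1 ρ (F i)) {x : ℂ} (hx : ‖x‖ ≤ 1) :
    PConv 1 ρ (∑ i ∈ s, F i) ∧ evs x 0 (∑ i ∈ s, F i) = ∑ i ∈ s, evs x 0 (F i) := by
  classical
  induction s using Finset.induction_on with
  | empty =>
    rw [Finset.sum_empty, Finset.sum_empty]
    have h1 := PConv.C 1 ρ 0
    have h2 := evs_C x 0 0
    rw [map_zero] at h1 h2
    exact ⟨h1, by rw [h2, Polynomial.eval_zero]⟩
  | insert a s ha ih =>
    obtain ⟨h1, h2⟩ := ih fun i hi => h i (Finset.mem_insert_of_mem hi)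
    have h3 := h a (Finset.mem_insert_self a s)
    rw [Finset.sum_insert ha, Finset.sum_insert ha]
    refine ⟨PConv.add zero_le_one hρ h3 h1, ?_⟩
    rw [evs_add zero_le_one hρ h3 h1 hx (by simpa using hρ), h2]

/-- quantum multiplication by `φ_a` at `t + v` -/
theorem prod_bulk (T : BulkGW X t) (ht : ∀ i, t i ≠ 0 → X.deg i = 1) {A r : ℝ} (hA : 0 < A)
    (hr : 0 < r) (hB : BConv T.toEquivData t A r) {v : Fin N → ℂ} {V : ℝ}
    (hV : ∀ i, ‖v i‖ ≤ V) (hVA : V * A < 1) (hc : ConvergesAt X (t + v)) (a k b : Fin N) :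
    evs 1 0 (lineF v (mulAt T.toEquivData t a k b)) =
      ∑ l, X.pair⁻¹ k l * ∑' m, term X (t + v) {a, b, l} m := by
  have hρ : (0 : ℝ) < r / 2 := half_pos hr
  have hM : ∀ a i j, PConv 1 (r / 2) (lineF v (mulAt T.toEquivData t a i j)) := fun a i j =>
    line_conv T.toEquivGW hA hr hB hV one_pos (by rwa [one_mul]) hρ (half_lt_self hr) a i j
  have hS : ∀ a b l, PConv 1 (r / 2) (lineF v (serAt T.toEquivData t {a, b, l})) := by
    intro a b l
    rw [veul_ser T.toEquivGW t a b l, lineF_sum]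
    refine (veul_evs_sum hρ.le _ _ fun k _ => ?_).1
    rw [lineF_mul, lineF_C]
    exact PConv.mul zero_le_one hρ.le (PConv.C _ _ _) (hM a k b)
  have hx : ‖(0 : ℂ)‖ ≤ r / 2 := by simpa using hρ.le
  have h1n : ‖(1 : ℂ)‖ ≤ (1 : ℝ) := by simp
  have h1 : mulAt T.toEquivData t a k b =
      ∑ l, MvPowerSeries.C (T.pairT⁻¹ k l) * serAt T.toEquivData t {a, b, l} := rfl
  rw [h1, lineF_sum, (veul_evs_sum hρ.le _ _ fun l _ => ?_).2]
  · refine Finset.sum_congr rfl fun l _ => ?_
    rw [lineF_mul, lineF_C, evs_mul zero_le_one hρ.le (PConv.C _ _ _) (hS a b l) h1n hx, evs_C,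
      veul_inv_pair_zero T.toEquivGW, veul_evs_ser T.toEquivGW T.period_zero ht hA hB hV hVA hc]
  · rw [lineF_mul, lineF_C]
    exact PConv.mul zero_le_one hρ.le (PConv.C _ _ _) (hS a b l)

theorem euler_bulk (T : BulkGW X t) (ht : ∀ i, t i ≠ 0 → X.deg i = 1) {A r : ℝ} (hA : 0 < A)
    (hr : 0 < r) (hB : BConv T.toEquivData t A r) {v : Fin N → ℂ} {V : ℝ}
    (hV : ∀ i, ‖v i‖ ≤ V) (hVA : V * A < 1) (hc : ConvergesAt X (t + v)) (k b : Fin N) :
    eulerMat X (t + v) k b = evs 1 0 (lineF v (eulAt T.toEquivData t T.κ k b)) := by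
  have hρ : (0 : ℝ) < r / 2 := half_pos hr
  have hM : ∀ a i j, PConv 1 (r / 2) (lineF v (mulAt T.toEquivData t a i j)) := fun a i j =>
    line_conv T.toEquivGW hA hr hB hV one_pos (by rwa [one_mul]) hρ (half_lt_self hr) a i j
  have hS : ∀ a b l, PConv 1 (r / 2) (lineF v (serAt T.toEquivData t {a, b, l})) := by
    intro a b l
    rw [veul_ser T.toEquivGW t a b l, lineF_sum]
    refine (veul_evs_sum hρ.le _ _ fun k _ => ?_).1
    rw [lineF_mul, lineF_C]
    exact PConv.mul zero_le_one hρ.le (PConv.C _ _ _) (hM a k b)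
  have hx : ‖(0 : ℂ)‖ ≤ r / 2 := by simpa using hρ.le
  have h1n : ‖(1 : ℂ)‖ ≤ (1 : ℝ) := by simp
  have hE : ∀ a, evs 1 0 (lineF v (mulAt T.toEquivData t a k b)) =
      ∑ l, X.pair⁻¹ k l * ∑' m, term X (t + v) {a, b, l} m := by
    intro a
    have h1 : mulAt T.toEquivData t a k b =
        ∑ l, MvPowerSeries.C (T.pairT⁻¹ k l) * serAt T.toEquivData t {a, b, l} := rfl
    rw [h1, lineF_sum, (veul_evs_sum hρ.le _ _ fun l _ => ?_).2]
    · refine Finset.sum_congr rfl fun l _ => ?_
      rw [lineF_mul, lineF_C, evs_mul zero_le_one hρ.le (PConv.C _ _ _) (hS a b l) h1n hx, evs_C,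
        veul_inv_pair_zero T.toEquivGW, veul_evs_ser T.toEquivGW T.period_zero ht hA hB hV hVA hc]
    · rw [lineF_mul, lineF_C]
      exact PConv.mul zero_le_one hρ.le (PConv.C _ _ _) (hS a b l)
  have hcoef : ∀ a, PConv 1 (r / 2) (lineF v (MvPowerSeries.C (Polynomial.C (X.chern a)) +
      MvPowerSeries.C (Polynomial.C (1 - (X.deg a : ℂ))) * MvPowerSeries.X a :
        MvPowerSeries (Fin N) (Polynomial ℂ))) ∧
      evs 1 0 (lineF v (MvPowerSeries.C (Polynomial.C (X.chern a)) +
      MvPowerSeries.C (Polynomial.C (1 - (X.deg a : ℂ))) * MvPowerSeries.X a :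
        MvPowerSeries (Fin N) (Polynomial ℂ))) = X.chern a + (1 - (X.deg a : ℂ)) * v a := by
    intro a
    rw [lineF_add, lineF_mul, lineF_C, lineF_C, lineF_X]
    have p1 := PConv.C 1 (r / 2) (Polynomial.C (X.chern a))
    have p2 := PConv.C 1 (r / 2) (Polynomial.C (1 - (X.deg a : ℂ)))
    have p3 := PConv.C 1 (r / 2) (algebraMap ℂ (Polynomial ℂ) (v a))
    have p4 := PConv.mul zero_le_one hρ.le p3 (veul_pconv_X 1 (r / 2))
    have p5 := PConv.mul zero_le_one hρ.le p2 p4
    refine ⟨PConv.add zero_le_one hρ.le p1 p5, ?_⟩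
    rw [evs_add zero_le_one hρ.le p1 p5 h1n hx, evs_mul zero_le_one hρ.le p2 p4 h1n hx,
      evs_mul zero_le_one hρ.le p3 (veul_pconv_X 1 (r / 2)) h1n hx, evs_C, evs_C, evs_C,
      veul_evs_X]
    simp
  have hlast : PConv 1 (r / 2) (lineF v ((MvPowerSeries.C (Polynomial.C T.κ * Polynomial.X) :
      MvPowerSeries (Fin N) (Polynomial ℂ)) *
        (1 : Matrix (Fin N) (Fin N) (MvPowerSeries (Fin N) (Polynomial ℂ))) k b)) ∧
      evs 1 0 (lineF v ((MvPowerSeries.C (Polynomial.C T.κ * Polynomial.X) :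
      MvPowerSeries (Fin N) (Polynomial ℂ)) *
        (1 : Matrix (Fin N) (Fin N) (MvPowerSeries (Fin N) (Polynomial ℂ))) k b)) = 0 := by
    by_cases h : k = b
    · rw [h, Matrix.one_apply_eq, mul_one, lineF_C]
      refine ⟨PConv.C _ _ _, ?_⟩
      rw [evs_C, Polynomial.eval_mul, Polynomial.eval_X, mul_zero]
    · rw [Matrix.one_apply_ne h, mul_zero]
      have h1 : (0 : MvPowerSeries (Fin N) (Polynomial ℂ)) = MvPowerSeries.C 0 := (map_zero _).symm
      rw [h1, lineF_C]
      refine ⟨PConv.C _ _ _, ?_⟩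
      rw [evs_C, Polynomial.eval_zero]
  have hsum : ∀ a ∈ (Finset.univ : Finset (Fin N)), PConv 1 (r / 2)
      (lineF v ((MvPowerSeries.C (Polynomial.C (X.chern a)) +
      MvPowerSeries.C (Polynomial.C (1 - (X.deg a : ℂ))) * MvPowerSeries.X a :
        MvPowerSeries (Fin N) (Polynomial ℂ)) * mulAt T.toEquivData t a k b)) := by
    intro a _
    rw [lineF_mul]
    exact PConv.mul zero_le_one hρ.le (hcoef a).1 (hM a k b)
  have he : eulAt T.toEquivData t T.κ k b =
      ∑ a, (MvPowerSeries.C (Polynomial.C (X.chern a)) +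
      MvPowerSeries.C (Polynomial.C (1 - (X.deg a : ℂ))) * MvPowerSeries.X a :
        MvPowerSeries (Fin N) (Polynomial ℂ)) * mulAt T.toEquivData t a k b +
      (MvPowerSeries.C (Polynomial.C T.κ * Polynomial.X) :
        MvPowerSeries (Fin N) (Polynomial ℂ)) *
        (1 : Matrix (Fin N) (Fin N) (MvPowerSeries (Fin N) (Polynomial ℂ))) k b := by
    unfold eulAt
    rw [Matrix.add_apply, Matrix.sum_apply, Matrix.smul_apply, smul_eq_mul]
    congr 1
  obtain ⟨q1, q2⟩ := veul_evs_sum hρ.le Finset.univ _ hsum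
  rw [he, lineF_add, lineF_sum, evs_add zero_le_one hρ.le q1 hlast.1 h1n hx, q2, hlast.2, add_zero]
  unfold eulerMat
  rw [Matrix.of_apply]
  refine Finset.sum_congr rfl fun a _ => ?_
  rw [lineF_mul, evs_mul zero_le_one hρ.le (hcoef a).1 (hM a k b) h1n hx, (hcoef a).2, hE]
  congr 1
  have h2 : (1 - (X.deg a : ℂ)) * t a = 0 := by
    by_cases h : t a = 0
    · rw [h, mul_zero]
    · rw [ht a h]
      simp
  rw [Pi.add_apply, mul_add, h2, zero_add]

end Pool.Agent.DST
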