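import Pool.Agent.DST.VLDefs
import Pool.Agent.SHF.QHTa

/-!
# DST-VAlg: the algebra of the equivariant big quantum product near `t ∈ H^2(X)`

PLAN. `t'` is any point with `t' i ≠ 0 → deg i = 1`. Write `η = pairT.map C` (symmetric, invertible),
`S_a` = matrix `serAt {a, ·, ·}` (symmetric), `M_a = mulAt a = η⁻¹ S_a`.
`mulAt_self`: `η M_a = S_a`. (`(T.pairT⁻¹).map C` is the inverse of `η`; `T.pair_nondeg`.)
`mulAt_comm`: WDVV `(ab|cd) = (bc|ad)` for all `a b c d` (where `(ab|cd) = ∑ S{a,b,e} η^{ef} S{f,c,d}`) and the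
symmetry of the multisets give `(ab|cd) = (ba|cd) = (ac|bd)`, that is `S_a η⁻¹ S_d = S_d η⁻¹ S_a` (entry
`b, c`). (Compare `Pool/Agent/SHF` where this is done at `t = 0`.)
`mulAt_unit`: `serAt {a, one, l} = C (pairT a l)`: the coefficient at `m = 0` is
`corrAt {one, a, l} = pairT a l` (only `β = zero` contributes: `unit_zero`, `unit_ne`; its weight is
`exp(∑ t'_i period zero i) = 1` by `period_zero`), and at `m ≠ 0` it is `0` (`unit_many`).
`mulAt_pderiv`: coefficient `m` of `∂_a serAt {b, c, l}` is `(m_a + 1)/(m+e_a)! corrAt({b,c,l} + m + e_a)` =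
`1/m! corrAt({a,b,c,l} + m)`, symmetric in `a`, `b`.
`mulAt_euler`: dimension axiom. Let `L = ∑_b (chern_b + (1 - deg b) t_b) ∂_b + λ ∂_λ`. Claim
`L serAt {a,c,l} = (deg a + deg c + deg l - dim) serAt {a,c,l}`. Coefficient of `t^m`: write
`corrAt({a,c,l}+m) = ∑ᶠ β, e^{∫_β t'} invT β (…)`. `∑_b chern_b ∂_b` multiplies the `β`-term by `c1 β`
(`divisorT`, `chern_period`; for `β = zero` both are `0`: `degree_zeroT`, `c1 zero = 0`, note `chern_b ≠ 0`
only for `deg b = 1`), `∑_b (1 - deg b) t_b ∂_b` multiplies `t^m` by `∑_b (1 - deg b) m_b`, and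
`λ ∂_λ` multiplies `λ^n` by `n`; by `T.dimension` a nonzero term has
`∑ deg + 3 = dim + (3 + |m|) + c1 β + n`, so the three numbers add up to `deg a + deg c + deg l - dim`.
(All sums over `β` are finite: `c1_finite`.) Similarly `λ ∂_λ (pairT⁻¹ k l) = (dim - deg k - deg l) pairT⁻¹ k l`
(from `pair_deg`: conjugating by powers of `λ`, or: differentiate `pairT⁻¹ pairT = 1`). Adding up:
`L (M_a k c) = (deg a + deg c - deg k) M_a k c` and `deg c - deg k = θ_k - θ_c`.
`eulAt_comm`: `eulAt` is a combination of the `M_b` and `1`.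
`eulAt_self`: the same. `eulAt_pderiv`: `∂_a eulAt = (1 - deg a) M_a + ∑_b (chern_b + (1-deg b) t_b) ∂_a M_b`
`= (1 - deg a) M_a + (L - λ∂_λ) M_a` (`mulAt_pderiv`) `= M_a + [θ, M_a] - λ ∂_λ M_a`.
`mulAt_const`, `eulAt_const`: constant coefficients: `eulAt` at `0` is `chernT`.
-/

open scoped BigOperators Topology
open Filter

namespace Pool.Agent.DST

open Pool.Agent.Helper18.Dub Pool.Agent.Helper7.DubStokes Pool.Agent.SHF

variable {N : ℕ} {X : FanoGW (Fin N)} {t : Fin N → ℂ}

private theorem coeff_serAt (T : EquivData X) (t' : Fin N → ℂ) (s : Multiset (Fin N))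
    (m : Fin N →₀ ℕ) : MvPowerSeries.coeff m (serAt T t' s) =
      Polynomial.C (∏ i, ((m i).factorial : ℂ))⁻¹ * corrAt T t' (s + Finsupp.toMultiset m) := rfl

private theorem pderiv_serAt (T : EquivData X) (t' : Fin N → ℂ) (a : Fin N)
    (s : Multiset (Fin N)) :
    MvPowerSeries.pderiv (Polynomial ℂ) a (serAt T t' s) = serAt T t' (a ::ₘ s) := by
  ext m : 1
  rw [MvPowerSeries.coeff_pderiv, coeff_serAt, coeff_serAt, FanoGW.prod_factorial_add_single]
  have h1 : s + Finsupp.toMultiset (m + Finsupp.single a 1) =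
      (a ::ₘ s) + Finsupp.toMultiset m := by
    rw [map_add, Finsupp.toMultiset_single, one_smul, Multiset.cons_add, ← Multiset.singleton_add]
    abel
  rw [h1]
  have h2 : ((m a : ℂ) + 1) ≠ 0 := Nat.cast_add_one_ne_zero _
  have h4 : ((m a : Polynomial ℂ) + 1) = Polynomial.C ((m a : ℂ) + 1) := by
    rw [map_add, map_one, map_natCast]
  rw [h4]
  generalize corrAt T t' ((a ::ₘ s) + Finsupp.toMultiset m) = c
  generalize (∏ j, ((m j).factorial : ℂ)) = P
  generalize ((m a : ℂ) + 1) = q at h2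
  have h5 : Polynomial.C (q * P)⁻¹ * c * Polynomial.C q =
      Polynomial.C ((q * P)⁻¹ * q) * c := by
    rw [map_mul]
    ring
  rw [h5]
  congr 2
  rw [mul_inv, mul_comm q⁻¹ P⁻¹, mul_assoc, inv_mul_cancel₀ h2, mul_one]

private noncomputable def SA (T : EquivData X) (t' : Fin N → ℂ) (a : Fin N) :
    Matrix (Fin N) (Fin N) (MvPowerSeries (Fin N) (Polynomial ℂ)) :=
  Matrix.of fun k b => serAt T t' {a, b, k}

private theorem mulAt_eq (T : EquivData X) (t' : Fin N → ℂ) (a : Fin N) :
    mulAt T t' a = (T.pairT⁻¹).map (MvPowerSeries.C (σ := Fin N)) * SA T t' a := by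
  ext1 k b
  rw [Matrix.mul_apply]
  rfl

private theorem pair_mul (T : EquivGW X) : T.pairT.map (MvPowerSeries.C (σ := Fin N)) *
    (T.pairT⁻¹).map (MvPowerSeries.C (σ := Fin N)) = 1 := by
  rw [← Matrix.map_mul, Matrix.mul_nonsing_inv _ T.pair_nondeg]
  exact Matrix.map_one _ (map_zero _) (map_one _)

private theorem mset_last (a b l : Fin N) : ({a, b, l} : Multiset (Fin N)) = {a, l, b} :=
  congrArg (fun s => a ::ₘ s) (Multiset.pair_comm b l)

theorem mulAt_self (T : EquivGW X) (t' : Fin N → ℂ) (a : Fin N) :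
    (T.pairT.map (MvPowerSeries.C (σ := Fin N)) * mulAt T.toEquivData t' a).transpose =
      T.pairT.map (MvPowerSeries.C (σ := Fin N)) * mulAt T.toEquivData t' a := by
  rw [mulAt_eq, ← Matrix.mul_assoc, pair_mul, Matrix.one_mul]
  ext1 i j
  show serAt T.toEquivData t' {a, i, j} = serAt T.toEquivData t' {a, j, i}
  rw [mset_last]

theorem mulAt_comm (T : BulkGW X t) {t' : Fin N → ℂ} (ht' : ∀ i, t' i ≠ 0 → X.deg i = 1)
    (a b : Fin N) : mulAt T.toEquivData t' a * mulAt T.toEquivData t' b =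
      mulAt T.toEquivData t' b * mulAt T.toEquivData t' a := by
  have key : ∀ a b : Fin N, ∀ f c, (SA T.toEquivData t' a *
      ((T.pairT⁻¹).map (MvPowerSeries.C (σ := Fin N)) * SA T.toEquivData t' b)) f c =
      ∑ e, ∑ l, MvPowerSeries.C (T.pairT⁻¹ e l) * serAt T.toEquivData t' {b, c, e} *
        serAt T.toEquivData t' {l, a, f} := by
    intro a b f c
    rw [← Matrix.mul_assoc, Matrix.mul_apply]
    refine Finset.sum_congr rfl fun e _ => ?_
    rw [Matrix.mul_apply, Finset.sum_mul]
    refine Finset.sum_congr rfl fun l _ => ?_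
    rw [T.toEquivGW.pairInv_symm e l, FanoGW.mset_swap l a f]
    show serAt T.toEquivData t' {a, l, f} * MvPowerSeries.C (T.pairT⁻¹ l e) *
      serAt T.toEquivData t' {b, c, e} = _
    ring
  rw [mulAt_eq, mulAt_eq, Matrix.mul_assoc, Matrix.mul_assoc]
  refine congrArg (fun M => (T.pairT⁻¹).map (MvPowerSeries.C (σ := Fin N)) * M) ?_
  ext1 f c
  rw [key, key, T.wdvvAt t' ht' b c a f]
  refine Finset.sum_congr rfl fun e _ => Finset.sum_congr rfl fun l _ => ?_
  rw [FanoGW.mset_swap c a e]

private theorem corrAt_unit (T : BulkGW X t) (t' : Fin N → ℂ) (i j : Fin N) :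
    corrAt T.toEquivData t' {X.one, i, j} = T.pairT i j := by
  rw [corrAt, finsum_eq_single _ X.zero]
  · rw [T.unit_zero]
    have h : ∑ k, t' k * X.period X.zero k = 0 :=
      Finset.sum_eq_zero fun k _ => by rw [T.period_zero, mul_zero]
    rw [h, Complex.exp_zero, Polynomial.C_1, one_mul]
  · intro β hβ
    rw [T.unit_ne β i j hβ, mul_zero]

private theorem corrAt_unit_many (T : EquivGW X) (t' : Fin N → ℂ) (s : Multiset (Fin N))
    (hs : 3 ≤ Multiset.card s) : corrAt T.toEquivData t' (X.one ::ₘ s) = 0 := by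
  rw [corrAt]
  rw [finsum_congr (fun β => by rw [T.unit_many β s hs, mul_zero]), finsum_zero]

private theorem serAt_unit (T : BulkGW X t) (t' : Fin N → ℂ) (b l : Fin N) :
    serAt T.toEquivData t' {X.one, b, l} = MvPowerSeries.C (T.pairT b l) := by
  ext m : 1
  rw [coeff_serAt, MvPowerSeries.coeff_C]
  by_cases hm : m = 0
  · subst hm
    rw [if_pos rfl, map_zero, add_zero, corrAt_unit]
    simp
  · rw [if_neg hm]
    have h1 : ({X.one, b, l} : Multiset (Fin N)) + Finsupp.toMultiset m =
        X.one ::ₘ (({b, l} : Multiset (Fin N)) + Finsupp.toMultiset m) := by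
      rw [← Multiset.cons_add]; rfl
    rw [h1, corrAt_unit_many T.toEquivGW, mul_zero]
    rw [Multiset.card_add]
    have h2 : Multiset.card (Finsupp.toMultiset m) ≠ 0 := by
      intro h0
      rw [Multiset.card_eq_zero] at h0
      apply hm
      have := congrArg Multiset.toFinsupp h0
      rwa [Finsupp.toMultiset_toFinsupp, map_zero] at this
    have h3 : Multiset.card ({b, l} : Multiset (Fin N)) = 2 := rfl
    omega

theorem mulAt_unit (T : BulkGW X t) {t' : Fin N → ℂ} (a k : Fin N) :
    mulAt T.toEquivData t' a k X.one = if k = a then 1 else 0 := by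
  have h1 : mulAt T.toEquivData t' a k X.one =
      ∑ l, MvPowerSeries.C (T.pairT⁻¹ k l) * serAt T.toEquivData t' {a, X.one, l} := rfl
  have h2 : ∀ l, MvPowerSeries.C (T.pairT⁻¹ k l) * serAt T.toEquivData t' {a, X.one, l} =
      MvPowerSeries.C (σ := Fin N) (T.pairT⁻¹ k l * T.pairT l a) := by
    intro l
    rw [FanoGW.mset_swap a X.one l, serAt_unit, T.pair_symm l a, map_mul]
  rw [h1, Finset.sum_congr rfl fun l _ => h2 l, ← map_sum]
  have h := congrFun (congrFun (Matrix.nonsing_inv_mul _ T.pair_nondeg) k) a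
  rw [Matrix.mul_apply, Matrix.one_apply] at h
  rw [h]
  split_ifs
  · exact map_one _
  · exact map_zero _

theorem mulAt_pderiv (T : EquivGW X) (t' : Fin N → ℂ) (a b : Fin N) :
    (mulAt T.toEquivData t' b).map (MvPowerSeries.pderiv (Polynomial ℂ) a) =
      (mulAt T.toEquivData t' a).map (MvPowerSeries.pderiv (Polynomial ℂ) b) := by
  have key : ∀ a b k c, MvPowerSeries.pderiv (Polynomial ℂ) a (mulAt T.toEquivData t' b k c) =
      ∑ l, MvPowerSeries.C (T.pairT⁻¹ k l) * serAt T.toEquivData t' (a ::ₘ {b, c, l}) := by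
    intro a b k c
    have h1 : mulAt T.toEquivData t' b k c =
      ∑ l, MvPowerSeries.C (T.pairT⁻¹ k l) * serAt T.toEquivData t' {b, c, l} := rfl
    rw [h1, map_sum]
    refine Finset.sum_congr rfl fun l _ => ?_
    rw [Derivation.leibniz, MvPowerSeries.pderiv_C, smul_zero, add_zero, pderiv_serAt, smul_eq_mul]
  ext1 k c
  rw [Matrix.map_apply, Matrix.map_apply, key, key]
  refine Finset.sum_congr rfl fun l _ => ?_
  have h : (a ::ₘ ({b, c, l} : Multiset (Fin N))) = b ::ₘ ({a, c, l} : Multiset (Fin N)) :=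
    Multiset.cons_swap _ _ _
  rw [h]

/-! ### the Euler field -/

private theorem coeff_lamMv (f : MvPowerSeries (Fin N) (Polynomial ℂ)) (m : Fin N →₀ ℕ) :
    MvPowerSeries.coeff m (lamMv f) =
      Polynomial.X * Polynomial.derivative (MvPowerSeries.coeff m f) := rfl

private theorem coeff_X_pderiv (b : Fin N) (f : MvPowerSeries (Fin N) (Polynomial ℂ))
    (m : Fin N →₀ ℕ) : MvPowerSeries.coeff m (MvPowerSeries.X b *
      MvPowerSeries.pderiv (Polynomial ℂ) b f) =
      Polynomial.C (m b : ℂ) * MvPowerSeries.coeff m f := by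
  rw [MvPowerSeries.X_def, MvPowerSeries.coeff_monomial_mul]
  by_cases h : Finsupp.single b 1 ≤ m
  · rw [if_pos h, one_mul, MvPowerSeries.coeff_pderiv, tsub_add_cancel_of_le h]
    have h1 : 1 ≤ m b := Finsupp.single_le_iff.1 h
    have h2 : (m - Finsupp.single b 1 : Fin N →₀ ℕ) b + 1 = m b := by
      rw [Finsupp.tsub_apply, Finsupp.single_eq_same]
      omega
    have h3 : (((m - Finsupp.single b 1 : Fin N →₀ ℕ) b : ℕ) : Polynomial ℂ) + 1 = Polynomial.C (m b : ℂ) := by
      rw [← h2, map_natCast]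
      push_cast
      ring
    rw [h3, mul_comm]
  · rw [if_neg h]
    have h1 : m b = 0 := by
      by_contra h0
      exact h (Finsupp.single_le_iff.2 (Nat.one_le_iff_ne_zero.2 h0))
    rw [h1, Nat.cast_zero, Polynomial.C_0, zero_mul]

/-- homogeneity of one invariant -/
private theorem inv_homog (T : EquivGW X) (β : X.Curve) (s : Multiset (Fin N)) (δ : ℂ)
    (h : ∀ n : ℕ, (s.map X.deg).sum + 3 = X.dim + Multiset.card s + X.c1 β + n →
      δ = (n : ℂ)) :
    Polynomial.X * Polynomial.derivative (T.invT β s) = Polynomial.C δ * T.invT β s := by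
  ext n
  rw [Polynomial.coeff_C_mul]
  rcases n with _ | n
  · rw [Polynomial.coeff_X_mul_zero]
    by_cases h0 : (T.invT β s).coeff 0 = 0
    · rw [h0, mul_zero]
    · rw [h 0 (T.dimension β s 0 h0)]
      simp
  · rw [Polynomial.coeff_X_mul, Polynomial.coeff_derivative]
    by_cases h0 : (T.invT β s).coeff (n + 1) = 0
    · rw [h0, mul_zero, zero_mul]
    · rw [h (n + 1) (T.dimension β s (n + 1) h0)]
      push_cast
      ring

private theorem corrAt_eq (T : EquivGW X) (t' : Fin N → ℂ) (s : Multiset (Fin N))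
    (K : Finset X.Curve) (hK : (T.finite_support s).toFinset ⊆ K) :
    corrAt T.toEquivData t' s =
      ∑ β ∈ K, Polynomial.C (Complex.exp (∑ i, t' i * X.period β i)) * T.invT β s := by
  rw [corrAt]
  refine finsum_eq_sum_of_support_subset _ fun β hβ => hK ?_
  rw [Set.Finite.mem_toFinset, Function.mem_support]
  rw [Function.mem_support] at hβ
  exact right_ne_zero_of_mul hβ

private theorem chern_div (T : BulkGW X t) (β : X.Curve) (s : Multiset (Fin N))
    (hs : 3 ≤ Multiset.card s) :
    ∑ b, Polynomial.C (X.chern b) * T.invT β (b ::ₘ s) =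
      Polynomial.C (X.c1 β : ℂ) * T.invT β s := by
  by_cases hβ : β = X.zero
  · have h0 : X.c1 β = 0 := (X.c1_eq_zero β).2 hβ
    rw [h0, Nat.cast_zero, Polynomial.C_0, zero_mul]
    refine Finset.sum_eq_zero fun b _ => ?_
    rw [hβ, T.degree_zeroT (b ::ₘ s) (by rw [Multiset.card_cons]; omega), mul_zero]
  · have h1 : ∀ b, Polynomial.C (X.chern b) * T.invT β (b ::ₘ s) =
        Polynomial.C (X.chern b * X.period β b) * T.invT β s := by
      intro b
      by_cases hb : X.chern b = 0
      · rw [hb, zero_mul, Polynomial.C_0, zero_mul, zero_mul]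
      · rw [T.divisorT β s b hβ hs (X.chern_deg b hb), map_mul, mul_assoc]
    rw [Finset.sum_congr rfl fun b _ => h1 b, ← Finset.sum_mul, ← map_sum, X.chern_period]

private theorem corr_euler (T : BulkGW X t) (t' : Fin N → ℂ) (s : Multiset (Fin N))
    (hs : 3 ≤ Multiset.card s) :
    ∑ b, Polynomial.C (X.chern b) * corrAt T.toEquivData t' (b ::ₘ s) +
      Polynomial.X * Polynomial.derivative (corrAt T.toEquivData t' s) =
    Polynomial.C (((s.map X.deg).sum : ℂ) + 3 - X.dim - Multiset.card s) *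
      corrAt T.toEquivData t' s := by
  classical
  obtain ⟨K, hK⟩ : ∃ K : Finset X.Curve, K = (T.toEquivGW.finite_support s).toFinset ∪
    Finset.univ.biUnion fun b => (T.toEquivGW.finite_support (b ::ₘ s)).toFinset := ⟨_, rfl⟩
  have h0 := corrAt_eq T.toEquivGW t' s K (by rw [hK]; exact Finset.subset_union_left)
  have h1 : ∀ b, corrAt T.toEquivData t' (b ::ₘ s) = ∑ β ∈ K,
      Polynomial.C (Complex.exp (∑ i, t' i * X.period β i)) * T.invT β (b ::ₘ s) := by
    intro b
    refine corrAt_eq T.toEquivGW t' (b ::ₘ s) K ?_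
    rw [hK]
    exact (Finset.subset_biUnion_of_mem (fun b => (T.toEquivGW.finite_support (b ::ₘ s)).toFinset)
      (Finset.mem_univ b)).trans Finset.subset_union_right
  rw [Finset.sum_congr rfl fun b _ => by rw [h1 b, Finset.mul_sum], Finset.sum_comm, h0,
    Polynomial.derivative_sum, Finset.mul_sum, ← Finset.sum_add_distrib, Finset.mul_sum]
  refine Finset.sum_congr rfl fun β _ => ?_
  have h2 : ∑ b, Polynomial.C (X.chern b) *
      (Polynomial.C (Complex.exp (∑ i, t' i * X.period β i)) * T.invT β (b ::ₘ s)) =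
      Polynomial.C (Complex.exp (∑ i, t' i * X.period β i)) *
        (Polynomial.C (X.c1 β : ℂ) * T.invT β s) := by
    rw [← chern_div T β s hs, Finset.mul_sum]
    exact Finset.sum_congr rfl fun b _ => mul_left_comm _ _ _
  have h3 := inv_homog T.toEquivGW β s
    (((s.map X.deg).sum : ℂ) + 3 - X.dim - Multiset.card s - X.c1 β) (fun n hn => by
      have h4 : (((s.map X.deg).sum : ℕ) : ℂ) + 3 = X.dim + Multiset.card s + X.c1 β + n := by
        exact_mod_cast hn
      linear_combination h4)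
  rw [h2, Polynomial.derivative_C_mul]
  have h5 : Polynomial.X * (Polynomial.C (Complex.exp (∑ i, t' i * X.period β i)) *
      Polynomial.derivative (T.invT β s)) =
      Polynomial.C (Complex.exp (∑ i, t' i * X.period β i)) *
        (Polynomial.C (((s.map X.deg).sum : ℂ) + 3 - X.dim - Multiset.card s - X.c1 β) *
          T.invT β s) := by
    rw [← h3]
    exact mul_left_comm _ _ _
  rw [h5, map_sub Polynomial.C _ (X.c1 β : ℂ)]
  ring

private theorem sum_toMultiset (f : Fin N → ℕ) (m : Fin N →₀ ℕ) :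
    ((Finsupp.toMultiset m).map f).sum = ∑ b, m b * f b := by
  have h1 : Finsupp.toMultiset m = ∑ b, m b • ({b} : Multiset (Fin N)) := by
    rw [Finsupp.toMultiset_apply, Finsupp.sum_fintype]
    intro b
    exact zero_smul _ _
  have h2 : ((Finsupp.toMultiset m).map f).sum =
      (Multiset.sumAddMonoidHom.comp (Multiset.mapAddMonoidHom f)) (Finsupp.toMultiset m) := rfl
  rw [h2, h1, map_sum]
  refine Finset.sum_congr rfl fun b _ => ?_
  rw [map_nsmul]
  simp

private theorem serAt_euler (T : BulkGW X t) (t' : Fin N → ℂ) (a c l : Fin N) :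
    ∑ b, (MvPowerSeries.C (Polynomial.C (X.chern b)) +
        MvPowerSeries.C (Polynomial.C (1 - (X.deg b : ℂ))) * MvPowerSeries.X b) *
        MvPowerSeries.pderiv (Polynomial ℂ) b (serAt T.toEquivData t' {a, c, l}) +
      lamMv (serAt T.toEquivData t' {a, c, l}) =
    MvPowerSeries.C (Polynomial.C ((X.deg a : ℂ) + X.deg c + X.deg l - X.dim)) *
      serAt T.toEquivData t' {a, c, l} := by
  ext m : 1
  rw [map_add, map_sum, coeff_lamMv, MvPowerSeries.coeff_C_mul]
  have h1 : ∀ b, MvPowerSeries.coeff m ((MvPowerSeries.C (Polynomial.C (X.chern b)) +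
        MvPowerSeries.C (Polynomial.C (1 - (X.deg b : ℂ))) * MvPowerSeries.X b) *
        MvPowerSeries.pderiv (Polynomial ℂ) b (serAt T.toEquivData t' {a, c, l})) =
      Polynomial.C (∏ i, ((m i).factorial : ℂ))⁻¹ * (Polynomial.C (X.chern b) *
        corrAt T.toEquivData t' (b ::ₘ ({a, c, l} + Finsupp.toMultiset m)) +
        Polynomial.C ((1 - (X.deg b : ℂ)) * m b) *
          corrAt T.toEquivData t' ({a, c, l} + Finsupp.toMultiset m)) := by
    intro b
    rw [add_mul, mul_assoc, map_add, MvPowerSeries.coeff_C_mul, MvPowerSeries.coeff_C_mul,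
      coeff_X_pderiv, pderiv_serAt, coeff_serAt, coeff_serAt, Multiset.cons_add, map_mul]
    ring
  rw [Finset.sum_congr rfl fun b _ => h1 b, ← Finset.mul_sum, Finset.sum_add_distrib,
    coeff_serAt, Polynomial.derivative_C_mul]
  have h2 := corr_euler T t' ({a, c, l} + Finsupp.toMultiset m) (by
    rw [Multiset.card_add]
    have h3 : Multiset.card ({a, c, l} : Multiset (Fin N)) = 3 := rfl
    omega)
  have h4 : ((({a, c, l} + Finsupp.toMultiset m : Multiset (Fin N)).map X.deg).sum : ℂ) =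
      X.deg a + X.deg c + X.deg l + ∑ b, (m b : ℂ) * X.deg b := by
    rw [Multiset.map_add, Multiset.sum_add, sum_toMultiset]
    have h5 : (({a, c, l} : Multiset (Fin N)).map X.deg).sum =
        X.deg a + (X.deg c + X.deg l) := rfl
    rw [h5]
    push_cast
    ring
  have h6 : (Multiset.card ({a, c, l} + Finsupp.toMultiset m : Multiset (Fin N)) : ℂ) =
      3 + ∑ b, (m b : ℂ) := by
    rw [Multiset.card_add, Finsupp.card_toMultiset, Finsupp.sum_fintype]
    · have h3 : Multiset.card ({a, c, l} : Multiset (Fin N)) = 3 := rfl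
      rw [h3]
      push_cast
      rfl
    · intro b
      rfl
  rw [h4, h6] at h2
  rw [← Finset.sum_mul, ← map_sum]
  have h7 : ∑ b, (1 - (X.deg b : ℂ)) * m b = ∑ b, (m b : ℂ) - ∑ b, (m b : ℂ) * X.deg b := by
    rw [← Finset.sum_sub_distrib]
    exact Finset.sum_congr rfl fun b _ => by ring
  rw [h7]
  have h8 : Polynomial.C ((X.deg a : ℂ) + X.deg c + X.deg l - X.dim) =
      Polynomial.C ((X.deg a : ℂ) + X.deg c + X.deg l + ∑ b, (m b : ℂ) * X.deg b + 3 - X.dim -
        (3 + ∑ b, (m b : ℂ))) +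
      Polynomial.C (∑ b, (m b : ℂ) - ∑ b, (m b : ℂ) * X.deg b) := by
    rw [← map_add]
    congr 1
    ring
  rw [h8]
  linear_combination Polynomial.C (∏ i, ((m i).factorial : ℂ))⁻¹ * h2

private theorem pairT_homog (T : EquivGW X) (i j : Fin N) :
    Polynomial.X * Polynomial.derivative (T.pairT i j) =
      Polynomial.C ((X.deg i : ℂ) + X.deg j - X.dim) * T.pairT i j := by
  have key : ∀ n, (T.pairT i j).coeff n ≠ 0 → (X.deg i : ℂ) + X.deg j - X.dim = n := by
    intro n hn
    have h1 : (X.deg i : ℂ) + X.deg j = X.dim + n := by exact_mod_cast T.pair_deg i j n hn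
    linear_combination h1
  ext n
  rw [Polynomial.coeff_C_mul]
  rcases n with _ | n
  · rw [Polynomial.coeff_X_mul_zero]
    by_cases h0 : (T.pairT i j).coeff 0 = 0
    · rw [h0, mul_zero]
    · rw [key 0 h0]
      simp
  · rw [Polynomial.coeff_X_mul, Polynomial.coeff_derivative]
    by_cases h0 : (T.pairT i j).coeff (n + 1) = 0
    · rw [h0, mul_zero, zero_mul]
    · rw [key (n + 1) h0]
      push_cast
      ring

private theorem pairInv_homog (T : EquivGW X) (k l : Fin N) :
    Polynomial.X * Polynomial.derivative (T.pairT⁻¹ k l) =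
      Polynomial.C ((X.dim : ℂ) - X.deg k - X.deg l) * T.pairT⁻¹ k l := by
  obtain ⟨A, hA⟩ : ∃ A, A = T.pairT := ⟨_, rfl⟩
  obtain ⟨B, hB⟩ : ∃ B, B = T.pairT⁻¹ := ⟨_, rfl⟩
  have hAB : A * B = 1 := by
    rw [hA, hB]
    exact Matrix.mul_nonsing_inv _ T.pair_nondeg
  have hBA : B * A = 1 := by
    rw [hA, hB]
    exact Matrix.nonsing_inv_mul _ T.pair_nondeg
  obtain ⟨dA, hdA⟩ : ∃ dA : Matrix (Fin N) (Fin N) (Polynomial ℂ),
    dA = A.map fun p => Polynomial.X * Polynomial.derivative p := ⟨_, rfl⟩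
  obtain ⟨dB, hdB⟩ : ∃ dB : Matrix (Fin N) (Fin N) (Polynomial ℂ),
    dB = B.map fun p => Polynomial.X * Polynomial.derivative p := ⟨_, rfl⟩
  obtain ⟨D, hD⟩ : ∃ D : Matrix (Fin N) (Fin N) (Polynomial ℂ),
    D = Matrix.diagonal fun i => Polynomial.C (X.deg i : ℂ) := ⟨_, rfl⟩
  obtain ⟨c, hc⟩ : ∃ c : Polynomial ℂ, c = Polynomial.C (X.dim : ℂ) := ⟨_, rfl⟩
  have h1 : dA = D * A + A * D - c • A := by
    ext1 i j
    rw [hdA, Matrix.map_apply, Matrix.sub_apply, Matrix.add_apply, hD, Matrix.diagonal_mul,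
      Matrix.mul_diagonal, Matrix.smul_apply, smul_eq_mul, hc, hA, pairT_homog T i j, map_sub,
      map_add]
    ring
  have h2 : dA * B + A * dB = 0 := by
    ext1 i j
    have h3 := congrArg (fun p => Polynomial.X * Polynomial.derivative p)
      (congrFun (congrFun hAB i) j)
    simp only [Matrix.mul_apply] at h3
    rw [Polynomial.derivative_sum, Finset.mul_sum] at h3
    have h4 : Polynomial.X * Polynomial.derivative ((1 : Matrix (Fin N) (Fin N) (Polynomial ℂ)) i j)
        = 0 := by
      rw [Matrix.one_apply]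
      split_ifs
      · rw [Polynomial.derivative_one, mul_zero]
      · rw [Polynomial.derivative_zero, mul_zero]
    rw [h4] at h3
    rw [Matrix.add_apply, Matrix.mul_apply, Matrix.mul_apply, ← Finset.sum_add_distrib,
      Matrix.zero_apply, ← h3]
    refine Finset.sum_congr rfl fun k _ => ?_
    rw [hdA, hdB, Matrix.map_apply, Matrix.map_apply, Polynomial.derivative_mul]
    ring
  have h5 : dB = -(B * D + D * B - c • B) := by
    have h6 : A * dB = -(dA * B) := by
      rw [eq_neg_iff_add_eq_zero, add_comm]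
      exact h2
    calc dB = (B * A) * dB := by rw [hBA, Matrix.one_mul]
      _ = B * -(dA * B) := by rw [Matrix.mul_assoc, h6]
      _ = -(B * D * (A * B) + (B * A) * D * B - c • (B * (A * B))) := by
        rw [h1, Matrix.mul_neg]
        simp only [Matrix.mul_add, Matrix.add_mul, Matrix.mul_sub, Matrix.sub_mul,
          Matrix.mul_smul, Matrix.smul_mul, Matrix.mul_assoc]
      _ = -(B * D + D * B - c • B) := by
        rw [hAB, hBA, Matrix.mul_one, Matrix.one_mul, Matrix.mul_one]
  have h7 := congrFun (congrFun h5 k) l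
  rw [hdB, Matrix.map_apply, Matrix.neg_apply, Matrix.sub_apply, Matrix.add_apply, hD,
    Matrix.mul_diagonal, Matrix.diagonal_mul, Matrix.smul_apply, smul_eq_mul, hc, hB] at h7
  rw [h7, map_sub, map_sub]
  ring

private theorem lamMv_sum {ι : Type} (s : Finset ι)
    (f : ι → MvPowerSeries (Fin N) (Polynomial ℂ)) :
    lamMv (∑ i ∈ s, f i) = ∑ i ∈ s, lamMv (f i) := by
  ext m : 1
  rw [coeff_lamMv, map_sum, map_sum, map_sum, Finset.mul_sum]
  rfl

private theorem lamMv_C_mul (p : Polynomial ℂ) (f : MvPowerSeries (Fin N) (Polynomial ℂ)) :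
    lamMv (MvPowerSeries.C p * f) =
      MvPowerSeries.C (Polynomial.X * Polynomial.derivative p) * f +
        MvPowerSeries.C p * lamMv f := by
  ext m : 1
  rw [coeff_lamMv, map_add, MvPowerSeries.coeff_C_mul, MvPowerSeries.coeff_C_mul,
    MvPowerSeries.coeff_C_mul, coeff_lamMv, Polynomial.derivative_mul]
  ring

theorem mulAt_euler (T : BulkGW X t) {t' : Fin N → ℂ} (a k c : Fin N) :
    ∑ b, (MvPowerSeries.C (Polynomial.C (X.chern b)) +
        MvPowerSeries.C (Polynomial.C (1 - (X.deg b : ℂ))) * MvPowerSeries.X b) *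
        MvPowerSeries.pderiv (Polynomial ℂ) b (mulAt T.toEquivData t' a k c) +
      lamMv (mulAt T.toEquivData t' a k c) =
    MvPowerSeries.C (Polynomial.C ((X.deg a : ℂ) + X.deg c - X.deg k)) *
      mulAt T.toEquivData t' a k c := by
  have h1 : mulAt T.toEquivData t' a k c =
      ∑ l, MvPowerSeries.C (T.pairT⁻¹ k l) * serAt T.toEquivData t' {a, c, l} := rfl
  have h2 : ∀ b, MvPowerSeries.pderiv (Polynomial ℂ) b (mulAt T.toEquivData t' a k c) =
      ∑ l, MvPowerSeries.C (T.pairT⁻¹ k l) *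
        MvPowerSeries.pderiv (Polynomial ℂ) b (serAt T.toEquivData t' {a, c, l}) := by
    intro b
    rw [h1, map_sum]
    refine Finset.sum_congr rfl fun l _ => ?_
    rw [Derivation.leibniz, MvPowerSeries.pderiv_C, smul_zero, add_zero, smul_eq_mul]
  have h3 : lamMv (mulAt T.toEquivData t' a k c) =
      ∑ l, (MvPowerSeries.C (Polynomial.C ((X.dim : ℂ) - X.deg k - X.deg l) * T.pairT⁻¹ k l) *
        serAt T.toEquivData t' {a, c, l} + MvPowerSeries.C (T.pairT⁻¹ k l) *
          lamMv (serAt T.toEquivData t' {a, c, l})) := by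
    rw [h1, lamMv_sum]
    refine Finset.sum_congr rfl fun l _ => ?_
    rw [lamMv_C_mul, pairInv_homog T.toEquivGW]
  rw [h3, Finset.sum_congr rfl fun b _ => by rw [h2 b, Finset.mul_sum], Finset.sum_comm,
    ← Finset.sum_add_distrib, h1, Finset.mul_sum]
  refine Finset.sum_congr rfl fun l _ => ?_
  have h4 := serAt_euler T t' a c l
  have h5 : ∑ b, (MvPowerSeries.C (Polynomial.C (X.chern b)) +
        MvPowerSeries.C (Polynomial.C (1 - (X.deg b : ℂ))) * MvPowerSeries.X b) *
        (MvPowerSeries.C (T.pairT⁻¹ k l) *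
          MvPowerSeries.pderiv (Polynomial ℂ) b (serAt T.toEquivData t' {a, c, l})) =
      MvPowerSeries.C (T.pairT⁻¹ k l) * ∑ b, (MvPowerSeries.C (Polynomial.C (X.chern b)) +
        MvPowerSeries.C (Polynomial.C (1 - (X.deg b : ℂ))) * MvPowerSeries.X b) *
          MvPowerSeries.pderiv (Polynomial ℂ) b (serAt T.toEquivData t' {a, c, l}) := by
    rw [Finset.mul_sum]
    exact Finset.sum_congr rfl fun b _ => mul_left_comm _ _ _
  rw [h5]
  have h6 : (Polynomial.C ((X.deg a : ℂ) + X.deg c - X.deg k) : Polynomial ℂ) =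
      Polynomial.C ((X.deg a : ℂ) + X.deg c + X.deg l - X.dim) +
        Polynomial.C ((X.dim : ℂ) - X.deg k - X.deg l) := by
    rw [← map_add]
    congr 1
    ring
  rw [h6, map_add, map_mul]
  linear_combination MvPowerSeries.C (T.pairT⁻¹ k l) * h4

theorem eulAt_comm (T : BulkGW X t) {t' : Fin N → ℂ} (ht' : ∀ i, t' i ≠ 0 → X.deg i = 1)
    (κ : ℂ) (a : Fin N) : mulAt T.toEquivData t' a * eulAt T.toEquivData t' κ =
      eulAt T.toEquivData t' κ * mulAt T.toEquivData t' a := by
  unfold eulAt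
  rw [Matrix.mul_add, Matrix.add_mul, Finset.mul_sum, Finset.sum_mul]
  refine congrArg₂ (· + ·) (Finset.sum_congr rfl fun b _ => ?_) ?_
  · rw [Matrix.mul_smul, Matrix.smul_mul, mulAt_comm T ht' a b]
  · rw [Matrix.mul_smul, Matrix.smul_mul, Matrix.mul_one, Matrix.one_mul]

theorem eulAt_self (T : EquivGW X) (t' : Fin N → ℂ) (κ : ℂ) :
    (T.pairT.map (MvPowerSeries.C (σ := Fin N)) * eulAt T.toEquivData t' κ).transpose =
      T.pairT.map (MvPowerSeries.C (σ := Fin N)) * eulAt T.toEquivData t' κ := by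
  unfold eulAt
  rw [Matrix.mul_add, Matrix.transpose_add, Finset.mul_sum, Matrix.transpose_sum]
  refine congrArg₂ (· + ·) (Finset.sum_congr rfl fun b _ => ?_) ?_
  · rw [Matrix.mul_smul, Matrix.transpose_smul, mulAt_self]
  · rw [Matrix.mul_smul, Matrix.transpose_smul, Matrix.mul_one]
    refine congrArg _ ?_
    ext1 i j
    rw [Matrix.transpose_apply, Matrix.map_apply, Matrix.map_apply, T.pair_symm]

theorem eulAt_pderiv (T : BulkGW X t) {t' : Fin N → ℂ} (κ : ℂ) (a k c : Fin N) :
    MvPowerSeries.pderiv (Polynomial ℂ) a (eulAt T.toEquivData t' κ k c) =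
      mulAt T.toEquivData t' a k c +
        MvPowerSeries.C (Polynomial.C ((X.deg c : ℂ) - X.deg k)) * mulAt T.toEquivData t' a k c -
        lamMv (mulAt T.toEquivData t' a k c) := by
  have h0 : eulAt T.toEquivData t' κ k c =
      ∑ b, (MvPowerSeries.C (Polynomial.C (X.chern b)) +
        MvPowerSeries.C (Polynomial.C (1 - (X.deg b : ℂ))) * MvPowerSeries.X b) *
        mulAt T.toEquivData t' b k c +
      MvPowerSeries.C (Polynomial.C κ * Polynomial.X) *
        (1 : Matrix (Fin N) (Fin N) (MvPowerSeries (Fin N) (Polynomial ℂ))) k c := by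
    unfold eulAt
    rw [Matrix.add_apply, Matrix.sum_apply, Matrix.smul_apply, smul_eq_mul]
    rfl
  have h1 : MvPowerSeries.pderiv (Polynomial ℂ) a
      (MvPowerSeries.C (Polynomial.C κ * Polynomial.X) *
        (1 : Matrix (Fin N) (Fin N) (MvPowerSeries (Fin N) (Polynomial ℂ))) k c) = 0 := by
    rw [Derivation.leibniz, MvPowerSeries.pderiv_C, smul_zero, add_zero, Matrix.one_apply]
    split_ifs
    · rw [MvPowerSeries.pderiv_one, smul_zero]
    · rw [map_zero, smul_zero]
  have h2 : ∀ b, MvPowerSeries.pderiv (Polynomial ℂ) a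
      ((MvPowerSeries.C (Polynomial.C (X.chern b)) +
        MvPowerSeries.C (Polynomial.C (1 - (X.deg b : ℂ))) * MvPowerSeries.X b) *
        mulAt T.toEquivData t' b k c) =
      (if b = a then MvPowerSeries.C (Polynomial.C (1 - (X.deg b : ℂ))) *
        mulAt T.toEquivData t' b k c else 0) +
      (MvPowerSeries.C (Polynomial.C (X.chern b)) +
        MvPowerSeries.C (Polynomial.C (1 - (X.deg b : ℂ))) * MvPowerSeries.X b) *
        MvPowerSeries.pderiv (Polynomial ℂ) b (mulAt T.toEquivData t' a k c) := by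
    intro b
    have h3 : MvPowerSeries.pderiv (Polynomial ℂ) a (mulAt T.toEquivData t' b k c) =
        MvPowerSeries.pderiv (Polynomial ℂ) b (mulAt T.toEquivData t' a k c) :=
      congrFun (congrFun (mulAt_pderiv T.toEquivGW t' a b) k) c
    rw [Derivation.leibniz, h3, map_add, MvPowerSeries.pderiv_C, zero_add, Derivation.leibniz,
      MvPowerSeries.pderiv_C, smul_zero, add_zero, smul_eq_mul, smul_eq_mul, smul_eq_mul]
    by_cases hb : b = a
    · rw [if_pos hb, hb, MvPowerSeries.pderiv_X_self]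
      ring
    · rw [if_neg hb, MvPowerSeries.pderiv_X_of_ne hb]
      ring
  have h4 := mulAt_euler T (t' := t') a k c
  rw [h0, map_add, h1, add_zero, map_sum, Finset.sum_congr rfl fun b _ => h2 b,
    Finset.sum_add_distrib, Finset.sum_ite_eq' Finset.univ a, if_pos (Finset.mem_univ a)]
  have h5 : (Polynomial.C ((X.deg a : ℂ) + X.deg c - X.deg k) : Polynomial ℂ) =
      Polynomial.C ((X.deg c : ℂ) - X.deg k) + 1 - Polynomial.C (1 - (X.deg a : ℂ)) := by
    rw [← Polynomial.C_1, ← map_add, ← map_sub]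
    congr 1
    ring
  rw [h5, map_sub, map_add, map_one] at h4
  linear_combination h4

theorem eulAt_const (T : EquivGW X) (t' : Fin N → ℂ) (κ : ℂ) (k c : Fin N) :
    MvPowerSeries.constantCoeff (eulAt T.toEquivData t' κ k c) =
      chernT T.toEquivData t' κ k c := by
  have h0 : eulAt T.toEquivData t' κ k c =
      ∑ b, (MvPowerSeries.C (Polynomial.C (X.chern b)) +
        MvPowerSeries.C (Polynomial.C (1 - (X.deg b : ℂ))) * MvPowerSeries.X b) *
        mulAt T.toEquivData t' b k c +
      MvPowerSeries.C (Polynomial.C κ * Polynomial.X) *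
        (1 : Matrix (Fin N) (Fin N) (MvPowerSeries (Fin N) (Polynomial ℂ))) k c := by
    unfold eulAt
    rw [Matrix.add_apply, Matrix.sum_apply, Matrix.smul_apply, smul_eq_mul]
    rfl
  have h1 : ∀ b l, MvPowerSeries.constantCoeff (serAt T.toEquivData t' {b, c, l}) =
      corrAt T.toEquivData t' {b, c, l} := by
    intro b l
    rw [← MvPowerSeries.coeff_zero_eq_constantCoeff, coeff_serAt, map_zero, add_zero]
    simp
  have h2 : ∀ b, MvPowerSeries.constantCoeff (mulAt T.toEquivData t' b k c) =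
      ∑ l, T.pairT⁻¹ k l * corrAt T.toEquivData t' {b, c, l} := by
    intro b
    have h3 : mulAt T.toEquivData t' b k c =
      ∑ l, MvPowerSeries.C (T.pairT⁻¹ k l) * serAt T.toEquivData t' {b, c, l} := rfl
    rw [h3, map_sum]
    refine Finset.sum_congr rfl fun l _ => ?_
    rw [map_mul, MvPowerSeries.constantCoeff_C, h1]
  rw [h0, map_add, map_sum, map_mul, MvPowerSeries.constantCoeff_C]
  unfold chernT
  rw [Matrix.add_apply, Matrix.smul_apply, smul_eq_mul, Matrix.of_apply]
  refine congrArg₂ (· + ·) (Finset.sum_congr rfl fun b _ => ?_) ?_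
  · rw [map_mul, map_add, map_mul, MvPowerSeries.constantCoeff_C, MvPowerSeries.constantCoeff_C,
      MvPowerSeries.constantCoeff_X, mul_zero, add_zero, h2]
  · rw [Matrix.one_apply, Matrix.one_apply]
    split_ifs
    · rw [map_one]
    · rw [map_zero]

end Pool.Agent.DST
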