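import Mathlib

/-!
# DST-VJoint: uniform limits of holomorphic functions on a complex normed space

Weierstrass' theorem: a uniform limit of differentiable functions `E → ℂ` on an open subset of a complex normed
space is differentiable (Cauchy estimate for the derivatives), and the same for series with a summable bound.
-/

open scoped BigOperators Topology
open Filter

namespace Pool.Agent.DST

private theorem vj_cauchy {E : Type} [NormedAddCommGroup E] [NormedSpace ℂ E] {h : E → ℂ} {p : E}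
    {ρ B : ℝ} (hρ : 0 < ρ) (hB0 : 0 ≤ B) (hd : ∀ x ∈ Metric.ball p ρ, DifferentiableAt ℂ h x)
    (hB : ∀ x ∈ Metric.ball p ρ, ‖h x‖ ≤ B) : ‖fderiv ℂ h p‖ ≤ 2 * B / ρ := by
  refine ContinuousLinearMap.opNorm_le_bound _ (by positivity) fun v => ?_
  by_cases hv : v = 0
  · rw [hv, map_zero, norm_zero, norm_zero, mul_zero]
  have hv0 : 0 < ‖v‖ := norm_pos_iff.mpr hv
  set R := ρ / 2 / ‖v‖ with hR
  have hR0 : 0 < R := by positivity
  have hRv : R * ‖v‖ = ρ / 2 := by rw [hR]; field_simp
  have hmem : ∀ τ : ℂ, ‖τ‖ ≤ R → p + τ • v ∈ Metric.ball p ρ := by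
    intro τ hτ
    rw [Metric.mem_ball, dist_eq_norm, add_sub_cancel_left, norm_smul]
    have : ‖τ‖ * ‖v‖ ≤ R * ‖v‖ := mul_le_mul_of_nonneg_right hτ hv0.le
    linarith
  have hline : ∀ τ : ℂ, HasDerivAt (fun τ : ℂ => p + τ • v) v τ := by
    intro τ
    have h1 := ((hasDerivAt_id τ).smul_const v).const_add p
    simpa using h1
  have hφ : ∀ τ : ℂ, ‖τ‖ ≤ R → HasDerivAt (fun τ : ℂ => h (p + τ • v)) (fderiv ℂ h (p + τ • v) v) τ := by
    intro τ hτ
    exact ((hd _ (hmem τ hτ)).hasFDerivAt).comp_hasDerivAt τ (hline τ)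
  have hdc : DiffContOnCl ℂ (fun τ : ℂ => h (p + τ • v)) (Metric.ball 0 R) := by
    refine DifferentiableOn.diffContOnCl_ball (U := Metric.closedBall 0 R) (fun τ hτ => ?_) (le_refl _)
    exact (hφ τ (by simpa using hτ)).differentiableAt.differentiableWithinAt
  have h1 := Complex.norm_deriv_le_of_forall_mem_sphere_norm_le hR0 hdc (C := B) (fun z hz => by
    refine hB _ (hmem z ?_)
    have : ‖z‖ = R := by simpa using hz
    exact this.le)
  have h2 := (hφ 0 (by rw [norm_zero]; exact hR0.le)).deriv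
  rw [zero_smul, add_zero] at h2
  rw [h2] at h1
  refine h1.trans (le_of_eq ?_)
  rw [hR]
  field_simp

theorem diff_of_tendstoUniformlyOn {E : Type} [NormedAddCommGroup E] [NormedSpace ℂ E]
    {U : Set E} (hU : IsOpen U) {f : ℕ → E → ℂ} {g : E → ℂ}
    (hf : ∀ n, ∀ p ∈ U, DifferentiableAt ℂ (f n) p) (hlim : TendstoUniformlyOn f g atTop U)
    {p : E} (hp : p ∈ U) : DifferentiableAt ℂ g p := by
  obtain ⟨r, hr, hrU⟩ := Metric.isOpen_iff.mp hU p hp
  set s := Metric.ball p (r / 2) with hs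
  have hsub : ∀ x ∈ s, Metric.ball x (r / 2) ⊆ U := by
    intro x hx y hy
    apply hrU
    rw [Metric.mem_ball] at *
    have := dist_triangle y x p
    have hx' : dist x p < r / 2 := hx
    linarith
  have hsU : s ⊆ U := fun x hx => hsub x hx (Metric.mem_ball_self (by positivity))
  have hc := Metric.uniformCauchySeqOn_iff.mp hlim.uniformCauchySeqOn
  have hc' : UniformCauchySeqOn (fun n x => fderiv ℂ (f n) x) atTop s := by
    rw [Metric.uniformCauchySeqOn_iff]
    intro ε hε
    obtain ⟨N, hN⟩ := hc (ε * r / 8) (by positivity)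
    refine ⟨N, fun m hm n hn x hx => ?_⟩
    have h1 : ∀ y ∈ Metric.ball x (r / 2), DifferentiableAt ℂ (fun y => f m y - f n y) y :=
      fun y hy => (hf m y (hsub x hx hy)).sub (hf n y (hsub x hx hy))
    have h2 := vj_cauchy (h := fun y => f m y - f n y) (B := ε * r / 8) (ρ := r / 2) (by positivity)
      (by positivity) h1 (fun y hy => by
        have := hN m hm n hn y (hsub x hx hy)
        rw [dist_eq_norm] at this
        exact this.le)
    have h3 : fderiv ℂ (fun y => f m y - f n y) x = fderiv ℂ (f m) x - fderiv ℂ (f n) x :=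
      fderiv_fun_sub (hf m x (hsU hx)) (hf n x (hsU hx))
    rw [h3] at h2
    rw [dist_eq_norm]
    refine lt_of_le_of_lt h2 ?_
    have : 2 * (ε * r / 8) / (r / 2) = ε / 2 := by field_simp; ring
    rw [this]
    linarith
  have hlimx : ∀ x ∈ s, ∃ L : E →L[ℂ] ℂ, Tendsto (fun n => fderiv ℂ (f n) x) atTop (𝓝 L) := by
    intro x hx
    exact cauchySeq_tendsto_of_complete (hc'.cauchySeq hx)
  classical
  set g' : E → E →L[ℂ] ℂ := fun x => if hx : x ∈ s then (hlimx x hx).choose else 0 with hg'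
  have hT : ∀ x ∈ s, Tendsto (fun n => fderiv ℂ (f n) x) atTop (𝓝 (g' x)) := by
    intro x hx
    rw [hg']
    simp only [hx, dif_pos]
    exact (hlimx x hx).choose_spec
  have hTU := hc'.tendstoUniformlyOn_of_tendsto hT
  exact (hasFDerivAt_of_tendstoUniformlyOn Metric.isOpen_ball hTU
    (fun n x hx => (hf n x (hsU hx)).hasFDerivAt) (fun x hx => hlim.tendsto_at (hsU hx))
    (Metric.mem_ball_self (by positivity))).differentiableAt

theorem diff_tsum {E : Type} [NormedAddCommGroup E] [NormedSpace ℂ E]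
    {U : Set E} (hU : IsOpen U) {F : ℕ → E → ℂ} {u : ℕ → ℝ} (hu : Summable u)
    (hF : ∀ n, ∀ p ∈ U, DifferentiableAt ℂ (F n) p) (hb : ∀ n, ∀ p ∈ U, ‖F n p‖ ≤ u n)
    {p : E} (hp : p ∈ U) : DifferentiableAt ℂ (fun p => ∑' n, F n p) p := by
  refine diff_of_tendstoUniformlyOn hU (f := fun N p => ∑ n ∈ Finset.range N, F n p) (fun N x hx => ?_)
    (tendstoUniformlyOn_tsum_nat hu hb) hp
  exact DifferentiableAt.fun_sum fun n _ => hF n x hx

end Pool.Agent.DST
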