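import Pool.Agent.DST.VDefs
import Pool.Agent.DST.VJoint

/-!
# DST-VSer: values of convergent power series with polynomial coefficients

PLAN. `f` with `PConv R r f`, `‖s‖ ≤ R`, `‖x‖ ≤ r` (resp. `<`). Write `a n = PowerSeries.coeff n f`
(a polynomial) and `u n = ∑' k, ‖(a n).coeff k‖ R^n r^k` (a finite sum); `u` is summable (`Summable` of a
product: `Summable.prod`/`HasSum.prod_fiberwise`), and `‖s^n * (a n).eval x‖ ≤ u n`
(`Polynomial.eval_eq_sum_range`). So `evs_summable`. `evs_add`, `evs_C` are immediate; `evs_mul` is the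
Cauchy product (`tsum_mul_tsum_eq_tsum_sum_antidiagonal_of_summable_norm`, `PowerSeries.coeff_mul`,
`Polynomial.eval_mul`, `s^(i+j)`). `PConv.mul`, `PConv.add`, `PConv.C`: `PConv` is a subring
(for the product: `‖(fg)_{n,k}‖ ≤ ∑ ‖f_{n₁,k₁}‖‖g_{n₂,k₂}‖`; use summability over `(ℕ×ℕ)×(ℕ×ℕ)` of the
product and regroup; or bound finite partial sums).
`evs_diff`: on the open set `‖s‖ < R`, `‖x‖ < r` each term is a polynomial in `(s, x)`; `diff_tsum`.
`evs_deriv_s`: for fixed `x` the function is a power series in `s` with radius `≥ R`; its derivative is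
`∑' n, s^n * (n+1) (a (n+1)).eval x = evs s x (derivative f)`. (For instance
`HasFPowerSeriesOnBall`-derivatives, or `hasDerivAt_tsum_of_isPreconnected`, or from `evs_diff`:
termwise differentiation of locally uniform limits, `hasSum_deriv_of_summable_norm`.)
`evs_deriv_x`: similarly `x * d/dx evs = evs s x (lamD f)`: termwise differentiation
(`hasSum_deriv_of_summable_norm` on the ball in `x`), `(X * derivative a).eval x = x * (a').eval x`.
The summability (`PConv R' r' (derivative f)` for `R' < R`) is not needed beyond what these lemmas give,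
but `pconv_mono` (smaller radii) and `pconv_deriv : R' < R → PConv R' r (derivative f)` are asked for.
-/

open scoped BigOperators Topology
open Filter

namespace Pool.Agent.DST

variable {R r : ℝ} {f g : PowerSeries (Polynomial ℂ)}

/-! ### the weighted `ℓ¹` norm of a polynomial -/

private noncomputable def nr (r : ℝ) (p : Polynomial ℂ) : ℝ := ∑' k, ‖p.coeff k‖ * r ^ k

private theorem nr_summable (r : ℝ) (p : Polynomial ℂ) : Summable fun k => ‖p.coeff k‖ * r ^ k := by
  refine summable_of_ne_finset_zero (s := p.support) fun k hk => ?_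
  rw [Polynomial.notMem_support_iff.1 hk, norm_zero, zero_mul]

private theorem nr_nonneg (hr : 0 ≤ r) (p : Polynomial ℂ) : 0 ≤ nr r p :=
  tsum_nonneg fun k => mul_nonneg (norm_nonneg _) (pow_nonneg hr k)

private theorem nr_zero (r : ℝ) : nr r 0 = 0 := by
  unfold nr
  simp

private theorem nr_add (hr : 0 ≤ r) (p q : Polynomial ℂ) : nr r (p + q) ≤ nr r p + nr r q := by
  unfold nr
  rw [← (nr_summable r p).tsum_add (nr_summable r q)]
  refine (nr_summable r (p + q)).tsum_le_tsum (fun k => ?_)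
    ((nr_summable r p).add (nr_summable r q))
  rw [← add_mul, Polynomial.coeff_add]
  exact mul_le_mul_of_nonneg_right (norm_add_le _ _) (pow_nonneg hr k)

private theorem nr_sum (hr : 0 ≤ r) {ι : Type} (s : Finset ι) (p : ι → Polynomial ℂ) :
    nr r (∑ i ∈ s, p i) ≤ ∑ i ∈ s, nr r (p i) := by
  classical
  induction s using Finset.induction_on with
  | empty => simp [nr_zero]
  | insert a s ha ih =>
    rw [Finset.sum_insert ha, Finset.sum_insert ha]
    exact (nr_add hr _ _).trans (add_le_add le_rfl ih)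

private theorem nr_mul (hr : 0 ≤ r) (p q : Polynomial ℂ) : nr r (p * q) ≤ nr r p * nr r q := by
  have hp : Summable fun k => ‖‖p.coeff k‖ * r ^ k‖ := (nr_summable r p).norm
  have hq : Summable fun k => ‖‖q.coeff k‖ * r ^ k‖ := (nr_summable r q).norm
  unfold nr
  rw [tsum_mul_tsum_eq_tsum_sum_antidiagonal_of_summable_norm hp hq]
  refine (nr_summable r (p * q)).tsum_le_tsum (fun k => ?_)
    (summable_norm_sum_mul_antidiagonal_of_summable_norm hp hq).of_norm
  rw [Polynomial.coeff_mul]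
  refine (mul_le_mul_of_nonneg_right (norm_sum_le _ _) (pow_nonneg hr k)).trans ?_
  rw [Finset.sum_mul]
  refine Finset.sum_le_sum fun x hx => le_of_eq ?_
  rw [norm_mul, ← Finset.HasAntidiagonal.mem_antidiagonal.1 hx, pow_add]
  ring

private theorem nr_smul (c : ℕ) (p : Polynomial ℂ) :
    nr r (p * ((c : Polynomial ℂ) + 1)) = ((c : ℝ) + 1) * nr r p := by
  unfold nr
  rw [← tsum_mul_left]
  refine tsum_congr fun k => ?_
  have h1 : p * ((c : Polynomial ℂ) + 1) = p * Polynomial.C ((c : ℂ) + 1) := by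
    rw [Polynomial.C_add, Polynomial.C_1, map_natCast]
  rw [h1, Polynomial.coeff_mul_C, norm_mul]
  have h2 : ‖(c : ℂ) + 1‖ = (c : ℝ) + 1 := by
    have h3 : (c : ℂ) + 1 = ((c + 1 : ℕ) : ℂ) := by push_cast; ring
    rw [h3, Complex.norm_natCast]
    push_cast
    ring
  rw [h2]
  ring

private theorem norm_eval_le (hr : 0 ≤ r) (p : Polynomial ℂ) {x : ℂ} (hx : ‖x‖ ≤ r) :
    ‖p.eval x‖ ≤ nr r p := by
  rw [Polynomial.eval_eq_sum_range]
  refine (norm_sum_le _ _).trans ?_
  refine le_trans (Finset.sum_le_sum fun k _ => ?_) ((nr_summable r p).sum_le_tsum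
    (Finset.range (p.natDegree + 1)) fun k _ => mul_nonneg (norm_nonneg _) (pow_nonneg hr k))
  rw [norm_mul, norm_pow]
  exact mul_le_mul_of_nonneg_left (pow_le_pow_left₀ (norm_nonneg _) hx k) (norm_nonneg _)

private theorem pconv_iff (hR : 0 ≤ R) (hr : 0 ≤ r) (f : PowerSeries (Polynomial ℂ)) :
    PConv R r f ↔ Summable fun n => R ^ n * nr r (PowerSeries.coeff n f) := by
  unfold PConv
  rw [summable_prod_of_nonneg (f := fun p : ℕ × ℕ =>
    ‖(PowerSeries.coeff p.1 f).coeff p.2‖ * R ^ p.1 * r ^ p.2)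
    (fun p => mul_nonneg (mul_nonneg (norm_nonneg _) (pow_nonneg hR _)) (pow_nonneg hr _))]
  have h1 : ∀ n : ℕ, (fun k : ℕ => ‖(PowerSeries.coeff n f).coeff k‖ * R ^ n * r ^ k) =
      fun k => R ^ n * (‖(PowerSeries.coeff n f).coeff k‖ * r ^ k) := by
    intro n
    funext k
    ring
  have h2 : ∀ n : ℕ, Summable fun k : ℕ => ‖(PowerSeries.coeff n f).coeff k‖ * R ^ n * r ^ k := by
    intro n
    rw [h1]
    exact (nr_summable r _).mul_left _
  have h3 : (fun n : ℕ => ∑' k : ℕ, ‖(PowerSeries.coeff n f).coeff k‖ * R ^ n * r ^ k) =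
      fun n => R ^ n * nr r (PowerSeries.coeff n f) := by
    funext n
    rw [h1, tsum_mul_left]
    rfl
  constructor
  · rintro ⟨-, h⟩
    rw [← h3]
    exact h
  · intro h
    rw [← h3] at h
    exact ⟨h2, h⟩

private theorem term_le (hR : 0 ≤ R) (hr : 0 ≤ r) (f : PowerSeries (Polynomial ℂ)) {s x : ℂ}
    (hs : ‖s‖ ≤ R) (hx : ‖x‖ ≤ r) (n : ℕ) :
    ‖s ^ n * (PowerSeries.coeff n f).eval x‖ ≤ R ^ n * nr r (PowerSeries.coeff n f) := by
  rw [norm_mul, norm_pow]
  exact mul_le_mul (pow_le_pow_left₀ (norm_nonneg _) hs n) (norm_eval_le hr _ hx)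
    (norm_nonneg _) (pow_nonneg hR n)

theorem evs_summable (hR : 0 ≤ R) (hr : 0 ≤ r) (hf : PConv R r f) {s x : ℂ} (hs : ‖s‖ ≤ R)
    (hx : ‖x‖ ≤ r) : Summable fun n => ‖s ^ n * (PowerSeries.coeff n f).eval x‖ :=
  Summable.of_nonneg_of_le (fun _ => norm_nonneg _) (fun n => term_le hR hr f hs hx n)
    ((pconv_iff hR hr f).1 hf)

theorem PConv.add (hR : 0 ≤ R) (hr : 0 ≤ r) (hf : PConv R r f) (hg : PConv R r g) :
    PConv R r (f + g) := by
  rw [pconv_iff hR hr] at *
  refine Summable.of_nonneg_of_le (fun n => mul_nonneg (pow_nonneg hR n) (nr_nonneg hr _))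
    (fun n => ?_) (hf.add hg)
  rw [map_add, ← mul_add]
  exact mul_le_mul_of_nonneg_left (nr_add hr _ _) (pow_nonneg hR n)

theorem PConv.mul (hR : 0 ≤ R) (hr : 0 ≤ r) (hf : PConv R r f) (hg : PConv R r g) :
    PConv R r (f * g) := by
  rw [pconv_iff hR hr] at *
  refine Summable.of_nonneg_of_le (fun n => mul_nonneg (pow_nonneg hR n) (nr_nonneg hr _))
    (fun n => ?_) (summable_norm_sum_mul_antidiagonal_of_summable_norm hf.norm hg.norm).of_norm
  rw [PowerSeries.coeff_mul]
  refine (mul_le_mul_of_nonneg_left (nr_sum hr _ _) (pow_nonneg hR n)).trans ?_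
  rw [Finset.mul_sum]
  refine Finset.sum_le_sum fun x hx => ?_
  refine (mul_le_mul_of_nonneg_left (nr_mul hr _ _) (pow_nonneg hR n)).trans (le_of_eq ?_)
  rw [← Finset.HasAntidiagonal.mem_antidiagonal.1 hx, pow_add]
  ring

theorem PConv.C (R r : ℝ) (a : Polynomial ℂ) : PConv R r (PowerSeries.C a) := by
  unfold PConv
  refine summable_of_ne_finset_zero (s := {0} ×ˢ a.support) fun p hp => ?_
  rw [PowerSeries.coeff_C]
  by_cases h : p.1 = 0
  · rw [if_pos h]
    have h2 : p.2 ∉ a.support := fun h3 => hp (Finset.mem_product.2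
      ⟨Finset.mem_singleton.2 h, h3⟩)
    rw [Polynomial.notMem_support_iff.1 h2, norm_zero, zero_mul, zero_mul]
  · rw [if_neg h, Polynomial.coeff_zero, norm_zero, zero_mul, zero_mul]

theorem PConv.mono {R' r' : ℝ} (hR : 0 ≤ R') (hr : 0 ≤ r') (hR' : R' ≤ R) (hr' : r' ≤ r)
    (hf : PConv R r f) : PConv R' r' f := by
  refine Summable.of_nonneg_of_le (fun p => mul_nonneg (mul_nonneg (norm_nonneg _)
    (pow_nonneg hR _)) (pow_nonneg hr _)) (fun p => ?_) hf
  refine mul_le_mul (mul_le_mul_of_nonneg_left (pow_le_pow_left₀ hR hR' _) (norm_nonneg _))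
    (pow_le_pow_left₀ hr hr' _) (pow_nonneg hr _) (mul_nonneg (norm_nonneg _)
    (pow_nonneg (hR.trans hR') _))

private theorem geom_bound {t : ℝ} (h0 : 0 ≤ t) (h1 : t < 1) : ∃ C : ℝ, ∀ n : ℕ,
    ((n : ℝ) + 1) * t ^ n ≤ C := by
  have ht : ‖t‖ < 1 := by rwa [Real.norm_eq_abs, abs_of_nonneg h0]
  have h2 : Summable fun n : ℕ => (n : ℝ) ^ 1 * t ^ n :=
    summable_pow_mul_geometric_of_norm_lt_one 1 ht
  have h3 : Summable fun n : ℕ => t ^ n := summable_geometric_of_norm_lt_one ht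
  obtain ⟨C, hC⟩ := (h2.add h3).tendsto_atTop_zero.bddAbove_range
  refine ⟨C, fun n => ?_⟩
  have h4 := hC ⟨n, rfl⟩
  refine le_trans (le_of_eq ?_) h4
  show ((n : ℝ) + 1) * t ^ n = (n : ℝ) ^ 1 * t ^ n + t ^ n
  ring

theorem PConv.deriv {R' : ℝ} (hR : 0 ≤ R') (hr : 0 ≤ r) (hR' : R' < R) (hf : PConv R r f) :
    PConv R' r (PowerSeries.derivative (Polynomial ℂ) f) := by
  have hR0 : 0 < R := lt_of_le_of_lt hR hR'
  rw [pconv_iff hR0.le hr] at hf
  rw [pconv_iff hR hr]
  obtain ⟨C, hC⟩ := geom_bound (div_nonneg hR hR0.le) ((div_lt_one hR0).2 hR')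
  have h1 : Summable fun n => C / R * (R ^ (n + 1) * nr r (PowerSeries.coeff (n + 1) f)) :=
    ((summable_nat_add_iff 1).2 hf).mul_left _
  refine Summable.of_nonneg_of_le (fun n => mul_nonneg (pow_nonneg hR n) (nr_nonneg hr _))
    (fun n => ?_) h1
  rw [PowerSeries.coeff_derivative, nr_smul]
  have h2 : R' ^ n * (((n : ℝ) + 1) * nr r (PowerSeries.coeff (n + 1) f)) =
      (((n : ℝ) + 1) * (R' / R) ^ n) * (R ^ n * nr r (PowerSeries.coeff (n + 1) f)) := by
    rw [div_pow]
    field_simp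
  have h3 : C / R * (R ^ (n + 1) * nr r (PowerSeries.coeff (n + 1) f)) =
      C * (R ^ n * nr r (PowerSeries.coeff (n + 1) f)) := by
    rw [pow_succ]
    field_simp
  rw [h2, h3]
  exact mul_le_mul_of_nonneg_right (hC n) (mul_nonneg (pow_nonneg hR0.le n) (nr_nonneg hr _))

theorem evs_add (hR : 0 ≤ R) (hr : 0 ≤ r) (hf : PConv R r f) (hg : PConv R r g) {s x : ℂ}
    (hs : ‖s‖ ≤ R) (hx : ‖x‖ ≤ r) : evs s x (f + g) = evs s x f + evs s x g := by
  unfold evs
  rw [← (evs_summable hR hr hf hs hx).of_norm.tsum_add (evs_summable hR hr hg hs hx).of_norm]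
  refine tsum_congr fun n => ?_
  rw [map_add, Polynomial.eval_add, mul_add]

theorem evs_mul (hR : 0 ≤ R) (hr : 0 ≤ r) (hf : PConv R r f) (hg : PConv R r g) {s x : ℂ}
    (hs : ‖s‖ ≤ R) (hx : ‖x‖ ≤ r) : evs s x (f * g) = evs s x f * evs s x g := by
  unfold evs
  rw [tsum_mul_tsum_eq_tsum_sum_antidiagonal_of_summable_norm (evs_summable hR hr hf hs hx)
    (evs_summable hR hr hg hs hx)]
  refine tsum_congr fun n => ?_
  rw [PowerSeries.coeff_mul, Polynomial.eval_finsetSum, Finset.mul_sum]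
  refine Finset.sum_congr rfl fun p hp => ?_
  rw [Polynomial.eval_mul, ← Finset.HasAntidiagonal.mem_antidiagonal.1 hp, pow_add]
  ring

theorem evs_C (s x : ℂ) (a : Polynomial ℂ) : evs s x (PowerSeries.C a) = a.eval x := by
  unfold evs
  rw [tsum_eq_single 0]
  · rw [PowerSeries.coeff_C, if_pos rfl, pow_zero, one_mul]
  · intro n hn
    rw [PowerSeries.coeff_C, if_neg hn, Polynomial.eval_zero, mul_zero]

theorem evs_zero (x : ℂ) (f : PowerSeries (Polynomial ℂ)) :
    evs 0 x f = (PowerSeries.constantCoeff f).eval x := by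
  unfold evs
  rw [tsum_eq_single 0]
  · rw [pow_zero, one_mul, PowerSeries.coeff_zero_eq_constantCoeff]
  · intro n hn
    rw [zero_pow hn, zero_mul]

theorem evs_diff (hR : 0 ≤ R) (hr : 0 ≤ r) (hf : PConv R r f) {s x : ℂ} (hs : ‖s‖ < R)
    (hx : ‖x‖ < r) : DifferentiableAt ℂ (fun p : ℂ × ℂ => evs p.1 p.2 f) (s, x) := by
  have hU : IsOpen (Metric.ball (0 : ℂ) R ×ˢ Metric.ball (0 : ℂ) r) :=
    Metric.isOpen_ball.prod Metric.isOpen_ball
  refine diff_tsum hU (F := fun n p => p.1 ^ n * (PowerSeries.coeff n f).eval p.2)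
    ((pconv_iff hR hr f).1 hf) (fun n p _ => ?_) (fun n p hp => ?_) ?_
  · have h1 : DifferentiableAt ℂ (fun p : ℂ × ℂ => (PowerSeries.coeff n f).eval p.2) p :=
      DifferentiableAt.comp (g := fun x => (PowerSeries.coeff n f).eval x)
        (f := fun p : ℂ × ℂ => p.2) p (Polynomial.differentiableAt _) differentiableAt_snd
    exact (differentiableAt_fst.pow n).mul h1
  · rw [Set.mem_prod, mem_ball_zero_iff, mem_ball_zero_iff] at hp
    exact term_le hR hr f hp.1.le hp.2.le n
  · rw [Set.mem_prod, mem_ball_zero_iff, mem_ball_zero_iff]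
    exact ⟨hs, hx⟩

theorem evs_deriv_s (hR : 0 ≤ R) (hr : 0 ≤ r) (hf : PConv R r f) {s x : ℂ} (hs : ‖s‖ < R)
    (hx : ‖x‖ < r) : HasDerivAt (fun s => evs s x f)
      (evs s x (PowerSeries.derivative (Polynomial ℂ) f)) s := by
  have hsm : s ∈ Metric.ball (0 : ℂ) R := mem_ball_zero_iff.2 hs
  have hd : ∀ n : ℕ, DifferentiableOn ℂ (fun s : ℂ => s ^ n * (PowerSeries.coeff n f).eval x)
      (Metric.ball (0 : ℂ) R) := fun n =>
    ((differentiable_id.pow n).mul_const _).differentiableOn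
  have hb : ∀ (n : ℕ), ∀ w ∈ Metric.ball (0 : ℂ) R,
      ‖w ^ n * (PowerSeries.coeff n f).eval x‖ ≤ R ^ n * nr r (PowerSeries.coeff n f) :=
    fun n w hw => term_le hR hr f (mem_ball_zero_iff.1 hw).le hx.le n
  have h1 := Complex.hasSum_deriv_of_summable_norm ((pconv_iff hR hr f).1 hf) hd
    Metric.isOpen_ball hb hsm
  have h2 : DifferentiableAt ℂ (fun s => evs s x f) s :=
    (Complex.differentiableOn_tsum_of_summable_norm ((pconv_iff hR hr f).1 hf) hd
      Metric.isOpen_ball hb).differentiableAt (Metric.isOpen_ball.mem_nhds hsm)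
  have h3 := (hasSum_nat_add_iff' 1).2 h1
  have h4 : ∀ n : ℕ, HasDerivAt (fun s : ℂ => s ^ n * (PowerSeries.coeff n f).eval x)
      ((n : ℂ) * s ^ (n - 1) * (PowerSeries.coeff n f).eval x) s := fun n =>
    (hasDerivAt_pow n s).mul_const _
  have h5 : evs s x (PowerSeries.derivative (Polynomial ℂ) f) = deriv (fun s => evs s x f) s := by
    have h6 : (fun n : ℕ => deriv (fun s : ℂ => s ^ (n + 1) *
        (PowerSeries.coeff (n + 1) f).eval x) s) = fun n : ℕ => s ^ n *
        (PowerSeries.coeff n (PowerSeries.derivative (Polynomial ℂ) f)).eval x := by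
      funext n
      rw [(h4 (n + 1)).deriv, PowerSeries.coeff_derivative, Polynomial.eval_mul,
        Polynomial.eval_add, Polynomial.eval_natCast, Polynomial.eval_one, Nat.add_sub_cancel]
      push_cast
      ring
    rw [h6] at h3
    have h7 := h3.tsum_eq
    rw [Finset.sum_range_one, (h4 0).deriv, Nat.cast_zero, zero_mul, zero_mul, sub_zero] at h7
    exact h7
  rw [h5]
  exact h2.hasDerivAt

theorem evs_deriv_x (hR : 0 ≤ R) (hr : 0 ≤ r) (hf : PConv R r f) {s x : ℂ} (hs : ‖s‖ < R)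
    (hx : ‖x‖ < r) : x * deriv (fun x => evs s x f) x = evs s x (lamD f) := by
  have hxm : x ∈ Metric.ball (0 : ℂ) r := mem_ball_zero_iff.2 hx
  have hd : ∀ n : ℕ, DifferentiableOn ℂ (fun x : ℂ => s ^ n * (PowerSeries.coeff n f).eval x)
      (Metric.ball (0 : ℂ) r) := fun n =>
    ((Polynomial.differentiable _).const_mul _).differentiableOn
  have hb : ∀ (n : ℕ), ∀ w ∈ Metric.ball (0 : ℂ) r,
      ‖s ^ n * (PowerSeries.coeff n f).eval w‖ ≤ R ^ n * nr r (PowerSeries.coeff n f) :=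
    fun n w hw => term_le hR hr f hs.le (mem_ball_zero_iff.1 hw).le n
  have h1 := Complex.hasSum_deriv_of_summable_norm ((pconv_iff hR hr f).1 hf) hd
    Metric.isOpen_ball hb hxm
  have h2 := (h1.mul_left x).tsum_eq
  have h3 : deriv (fun w => ∑' n, s ^ n * (PowerSeries.coeff n f).eval w) x =
      deriv (fun x => evs s x f) x := rfl
  rw [← h3, ← h2]
  unfold evs lamD
  refine tsum_congr fun n => ?_
  rw [PowerSeries.coeff_mk, Polynomial.eval_mul, Polynomial.eval_X,
    ((Polynomial.hasDerivAt (PowerSeries.coeff n f) x).const_mul (s ^ n)).deriv]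
  ring

end Pool.Agent.DST
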