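import Pool.Agent.DST.VLine
import Pool.Agent.DST.VAlg
import Pool.Agent.DST.VSer

/-!
# DST-VRay: from the geometry to rays

Restriction of the equivariant big quantum product near `t` to the ray `s ↦ t + s v` gives a `Ray`: the
restriction `lineH` is a ring homomorphism, and it converges because there are at most `(n + 1) ^ N`
multi-indices of size `n`.
-/

open scoped BigOperators Topology
open Filter

namespace Pool.Agent.DST

open Pool.Agent.Helper18.Dub Pool.Agent.Helper7.DubStokes Pool.Agent.SHF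

variable {N : ℕ} {X : FanoGW (Fin N)} {t : Fin N → ℂ}

/-! ### convergence -/

private theorem vr_card (N n : ℕ) :
    (Finset.finsuppAntidiag (Finset.univ : Finset (Fin N)) n).card ≤ (n + 1) ^ N := by
  classical
  have h1 : (Fintype.piFinset fun _ : Fin N => Finset.range (n + 1)).card = (n + 1) ^ N := by
    rw [Fintype.card_piFinset_const, Finset.card_range]
  rw [← h1]
  refine Finset.card_le_card_of_injOn (fun m : Fin N →₀ ℕ => (m : Fin N → ℕ)) ?_
    (DFunLike.coe_injective.injOn)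
  intro m hm
  rw [Finset.mem_coe, Finset.mem_finsuppAntidiag] at hm
  rw [Finset.mem_coe, Fintype.mem_piFinset]
  intro i
  rw [Finset.mem_range, Nat.lt_succ_iff, ← hm.1]
  exact Finset.single_le_sum (fun _ _ => Nat.zero_le _) (Finset.mem_univ i)

private theorem vr_geom (N : ℕ) {q : ℝ} (h0 : 0 ≤ q) (h1 : q < 1) :
    Summable fun n : ℕ => ((n : ℝ) + 1) ^ N * q ^ n := by
  obtain ⟨p, hp⟩ : ∃ p : ℝ, p = (q + 1) / 2 := ⟨_, rfl⟩
  have hp0 : 0 < p := by rw [hp]; linarith
  have hp1 : p < 1 := by rw [hp]; linarith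
  have hqp : q ≤ p := by rw [hp]; linarith
  have h2 : Summable fun n : ℕ => (n : ℝ) ^ N * p ^ n :=
    summable_pow_mul_geometric_of_norm_lt_one N (by rwa [Real.norm_eq_abs, abs_of_pos hp0])
  have h3 : Summable fun n : ℕ => p⁻¹ * (((n + 1 : ℕ) : ℝ) ^ N * p ^ (n + 1)) :=
    ((summable_nat_add_iff 1).2 h2).mul_left _
  refine Summable.of_nonneg_of_le (fun n => by positivity) (fun n => ?_) h3
  have h4 : p⁻¹ * (((n + 1 : ℕ) : ℝ) ^ N * p ^ (n + 1)) = ((n : ℝ) + 1) ^ N * p ^ n := by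
    rw [pow_succ]
    push_cast
    field_simp
  rw [h4]
  exact mul_le_mul_of_nonneg_left (pow_le_pow_left₀ h0 hqp n) (by positivity)

private theorem vr_conv {f : MvPowerSeries (Fin N) (Polynomial ℂ)} {A B r V R r' : ℝ} (hA : 0 < A)
    (hr : 0 < r) (hB : 0 ≤ B)
    (hf : ∀ m k, ‖(MvPowerSeries.coeff m f).coeff k‖ * r ^ k ≤ B * A ^ (∑ i, m i))
    {v : Fin N → ℂ} (hV : ∀ i, ‖v i‖ ≤ V) (hV0 : 0 ≤ V) (hR : 0 < R) (hRV : R * V * A < 1)
    (hr' : 0 < r') (hr'r : r' < r) : PConv R r' (lineF v f) := by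
  have hq0 : 0 ≤ R * V * A := by positivity
  have hs : Summable fun p : ℕ × ℕ =>
      (B * ((((p.1 : ℕ) : ℝ) + 1) ^ N * (R * V * A) ^ p.1)) * (r' / r) ^ p.2 := by
    refine Summable.mul_of_nonneg ((vr_geom N hq0 hRV).mul_left B)
      (summable_geometric_of_lt_one (by positivity) ((div_lt_one hr).2 hr'r)) (fun n => ?_)
      (fun k => ?_)
    · show (0 : ℝ) ≤ B * (((n : ℝ) + 1) ^ N * (R * V * A) ^ n)
      positivity
    · show (0 : ℝ) ≤ (r' / r) ^ k
      positivity
  refine Summable.of_nonneg_of_le (fun p => by positivity) (fun p => ?_) hs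
  obtain ⟨n, k⟩ := p
  show ‖(PowerSeries.coeff n (lineF v f)).coeff k‖ * R ^ n * r' ^ k ≤
    (B * (((n : ℝ) + 1) ^ N * (R * V * A) ^ n)) * (r' / r) ^ k
  have h1 : (PowerSeries.coeff n (lineF v f)).coeff k =
      ∑ m ∈ Finset.finsuppAntidiag Finset.univ n, (∏ i, v i ^ m i) *
        (MvPowerSeries.coeff m f).coeff k := by
    unfold lineF
    rw [PowerSeries.coeff_mk, Polynomial.finsetSum_coeff]
    refine Finset.sum_congr rfl fun m _ => ?_
    rw [Polynomial.coeff_smul, smul_eq_mul]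
  have hrk : 0 < r ^ k := by positivity
  have h2 : ‖(PowerSeries.coeff n (lineF v f)).coeff k‖ ≤
      ((n : ℝ) + 1) ^ N * (V ^ n * (B * A ^ n / r ^ k)) := by
    rw [h1]
    refine (norm_sum_le _ _).trans ?_
    have h3 : ∀ m ∈ Finset.finsuppAntidiag (Finset.univ : Finset (Fin N)) n,
        ‖(∏ i, v i ^ m i) * (MvPowerSeries.coeff m f).coeff k‖ ≤ V ^ n * (B * A ^ n / r ^ k) := by
      intro m hm
      rw [Finset.mem_finsuppAntidiag] at hm
      rw [norm_mul]
      refine mul_le_mul ?_ ?_ (norm_nonneg _) (by positivity)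
      · rw [norm_prod, ← hm.1, ← Finset.prod_pow_eq_pow_sum]
        refine Finset.prod_le_prod (fun i _ => norm_nonneg _) fun i _ => ?_
        rw [norm_pow]
        exact pow_le_pow_left₀ (norm_nonneg _) (hV i) _
      · rw [le_div_iff₀ hrk]
        have h4 := hf m k
        rwa [show ∑ i, m i = n from hm.1] at h4
    refine (Finset.sum_le_sum h3).trans ?_
    rw [Finset.sum_const, nsmul_eq_mul]
    refine mul_le_mul_of_nonneg_right ?_ (by positivity)
    exact_mod_cast vr_card N n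
  calc ‖(PowerSeries.coeff n (lineF v f)).coeff k‖ * R ^ n * r' ^ k
      ≤ ((n : ℝ) + 1) ^ N * (V ^ n * (B * A ^ n / r ^ k)) * R ^ n * r' ^ k := by gcongr
    _ = (B * (((n : ℝ) + 1) ^ N * (R * V * A) ^ n)) * (r' / r) ^ k := by
      rw [mul_pow, mul_pow, div_pow]
      field_simp

theorem line_conv (T : EquivGW X) {A r : ℝ} (hA : 0 < A) (hr : 0 < r)
    (hB : BConv T.toEquivData t A r) {v : Fin N → ℂ} {V R r' : ℝ} (hV : ∀ i, ‖v i‖ ≤ V)
    (hR : 0 < R) (hRV : R * V * A < 1) (hr' : 0 < r') (hr'r : r' < r) (a i j : Fin N) :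
    PConv R r' (lineF v (mulAt T.toEquivData t a i j)) := by
  obtain ⟨B, hB⟩ := hB
  have hV0 : 0 ≤ V := (norm_nonneg _).trans (hV i)
  have hB0 : 0 ≤ B := by
    have h1 := hB a i j 0 0
    simp only [pow_zero, mul_one, Finsupp.coe_zero, Pi.zero_apply, Finset.sum_const_zero] at h1
    exact (norm_nonneg _).trans h1
  exact vr_conv hA hr hB0 (hB a i j) hV hV0 hR hRV hr' hr'r

private theorem vr_X {R r : ℝ} : PConv R r (PowerSeries.X : PowerSeries (Polynomial ℂ)) := by
  unfold PConv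
  refine summable_of_ne_finset_zero (s := {(1, 0)}) fun p hp => ?_
  obtain ⟨n, k⟩ := p
  show ‖(PowerSeries.coeff n (PowerSeries.X : PowerSeries (Polynomial ℂ))).coeff k‖ * R ^ n * r ^ k = 0
  rw [PowerSeries.coeff_X]
  by_cases hn : n = 1
  · rw [if_pos hn, Polynomial.coeff_one]
    by_cases hk : k = 0
    · exact absurd (Finset.mem_singleton.2 (by rw [hn, hk])) hp
    · rw [if_neg hk, norm_zero, zero_mul, zero_mul]
  · rw [if_neg hn, Polynomial.coeff_zero, norm_zero, zero_mul, zero_mul]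

private theorem vr_zero (R r : ℝ) : PConv R r (0 : PowerSeries (Polynomial ℂ)) := by
  have h := PConv.C R r 0
  rwa [map_zero] at h

private theorem vr_sum {R r : ℝ} (hR : 0 ≤ R) (hr : 0 ≤ r) {ι : Type} (s : Finset ι)
    (f : ι → PowerSeries (Polynomial ℂ)) (h : ∀ i ∈ s, PConv R r (f i)) :
    PConv R r (∑ i ∈ s, f i) := by
  classical
  induction s using Finset.induction_on with
  | empty =>
    rw [Finset.sum_empty]
    exact vr_zero R r
  | insert a s ha ih =>
    rw [Finset.sum_insert ha]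
    exact (h a (Finset.mem_insert_self a s)).add hR hr
      (ih fun i hi => h i (Finset.mem_insert_of_mem hi))

private theorem vr_eul (T : EquivData X) (t : Fin N → ℂ) (κ : ℂ) (v : Fin N → ℂ) (i j : Fin N) :
    lineF v (eulAt T t κ i j) = ∑ a, (PowerSeries.C (Polynomial.C (X.chern a)) +
        PowerSeries.C (Polynomial.C (1 - (X.deg a : ℂ))) *
          (PowerSeries.C (algebraMap ℂ (Polynomial ℂ) (v a)) * PowerSeries.X)) *
        lineF v (mulAt T t a i j) +
      PowerSeries.C (Polynomial.C κ * Polynomial.X * (if i = j then 1 else 0)) := by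
  have h1 : eulAt T t κ i j = ∑ a, (MvPowerSeries.C (Polynomial.C (X.chern a)) +
      MvPowerSeries.C (Polynomial.C (1 - (X.deg a : ℂ))) * MvPowerSeries.X a :
        MvPowerSeries (Fin N) (Polynomial ℂ)) * mulAt T t a i j +
      MvPowerSeries.C (Polynomial.C κ * Polynomial.X * (if i = j then 1 else 0)) := by
    unfold eulAt
    rw [Matrix.add_apply, Matrix.sum_apply, Matrix.smul_apply, Matrix.one_apply, smul_eq_mul]
    congr 1
    by_cases hij : i = j
    · rw [if_pos hij, if_pos hij, mul_one, mul_one]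
    · rw [if_neg hij, if_neg hij, mul_zero, mul_zero, map_zero]
  rw [h1, lineF_add, lineF_sum, lineF_C]
  congr 1
  refine Finset.sum_congr rfl fun a _ => ?_
  rw [lineF_mul, lineF_add, lineF_mul, lineF_C, lineF_C, lineF_X]

theorem line_conv_eul (T : EquivGW X) (κ : ℂ) {A r : ℝ} (hA : 0 < A) (hr : 0 < r)
    (hB : BConv T.toEquivData t A r) {v : Fin N → ℂ} {V R r' : ℝ} (hV : ∀ i, ‖v i‖ ≤ V)
    (hR : 0 < R) (hRV : R * V * A < 1) (hr' : 0 < r') (hr'r : r' < r) (i j : Fin N) :
    PConv R r' (lineF v (eulAt T.toEquivData t κ i j)) := by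
  rw [vr_eul]
  refine PConv.add hR.le hr'.le (vr_sum hR.le hr'.le _ _ fun a _ => ?_) (PConv.C _ _ _)
  refine PConv.mul hR.le hr'.le (PConv.add hR.le hr'.le (PConv.C _ _ _)
    (PConv.mul hR.le hr'.le (PConv.C _ _ _) (PConv.mul hR.le hr'.le (PConv.C _ _ _) vr_X))) ?_
  exact line_conv T hA hr hB hV hR hRV hr' hr'r a i j

/-! ### algebra -/

private theorem vr_lamC (c : ℂ) (f : PowerSeries (Polynomial ℂ)) :
    lamD (PowerSeries.C (Polynomial.C c) * f) = PowerSeries.C (Polynomial.C c) * lamD f := by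
  unfold lamD
  refine PowerSeries.ext fun n => ?_
  rw [PowerSeries.coeff_mk, PowerSeries.coeff_C_mul, PowerSeries.coeff_C_mul,
    PowerSeries.coeff_mk, Polynomial.derivative_C_mul]
  ring

private theorem vr_lamS {ι : Type} (s : Finset ι) (f : ι → PowerSeries (Polynomial ℂ)) :
    lamD (∑ i ∈ s, f i) = ∑ i ∈ s, lamD (f i) := by
  unfold lamD
  refine PowerSeries.ext fun n => ?_
  rw [PowerSeries.coeff_mk, map_sum, map_sum, map_sum, Finset.mul_sum]
  refine Finset.sum_congr rfl fun i _ => ?_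
  rw [PowerSeries.coeff_mk]

private theorem vr_sub {R : Type} [CommRing R] [Algebra ℂ R] (v : Fin N → ℂ)
    (f g : MvPowerSeries (Fin N) R) : lineF v (f - g) = lineF v f - lineF v g :=
  map_sub (lineH R v) f g

/-- multiplication by `v` along the ray -/
private noncomputable def vrM (T : EquivData X) (t : Fin N → ℂ) (v : Fin N → ℂ) :
    Matrix (Fin N) (Fin N) (PowerSeries (Polynomial ℂ)) :=
  ∑ a, (PowerSeries.C (Polynomial.C (v a)) : PowerSeries (Polynomial ℂ)) •
    (mulAt T t a).map (lineH (Polynomial ℂ) v)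

private theorem vr_M (T : EquivData X) (t : Fin N → ℂ) (v : Fin N → ℂ) (i j : Fin N) :
    vrM T t v i j = ∑ a, PowerSeries.C (Polynomial.C (v a)) * lineF v (mulAt T t a i j) := by
  unfold vrM
  rw [Matrix.sum_apply]
  rfl

private theorem vr_comm (T : BulkGW X t) (ht : ∀ i, t i ≠ 0 → X.deg i = 1) (v : Fin N → ℂ)
    (κ : ℂ) : vrM T.toEquivData t v * (eulAt T.toEquivData t κ).map (lineH (Polynomial ℂ) v) =
      (eulAt T.toEquivData t κ).map (lineH (Polynomial ℂ) v) * vrM T.toEquivData t v := by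
  unfold vrM
  rw [Finset.sum_mul, Finset.mul_sum]
  refine Finset.sum_congr rfl fun a _ => ?_
  rw [Matrix.smul_mul, Matrix.mul_smul, ← Matrix.map_mul, ← Matrix.map_mul,
    eulAt_comm T ht κ a]

private theorem vr_pT (P : Matrix (Fin N) (Fin N) (Polynomial ℂ)) (v : Fin N → ℂ) :
    P.map (PowerSeries.C (R := Polynomial ℂ)) =
      (P.map (MvPowerSeries.C (σ := Fin N))).map (lineH (Polynomial ℂ) v) := by
  ext1 i j
  exact (lineF_C v (P i j)).symm

private theorem vr_selfM (T : EquivGW X) (t : Fin N → ℂ) (v : Fin N → ℂ) :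
    (T.pairT.map (PowerSeries.C (R := Polynomial ℂ)) * vrM T.toEquivData t v).transpose =
      T.pairT.map (PowerSeries.C (R := Polynomial ℂ)) * vrM T.toEquivData t v := by
  rw [vr_pT _ v]
  unfold vrM
  rw [Finset.mul_sum, Matrix.transpose_sum]
  refine Finset.sum_congr rfl fun a _ => ?_
  rw [Matrix.mul_smul, Matrix.transpose_smul, ← Matrix.map_mul, ← Matrix.transpose_map,
    mulAt_self]

private theorem vr_selfC (T : EquivGW X) (t : Fin N → ℂ) (κ : ℂ) (v : Fin N → ℂ) :
    (T.pairT.map (PowerSeries.C (R := Polynomial ℂ)) *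
      (eulAt T.toEquivData t κ).map (lineH (Polynomial ℂ) v)).transpose =
      T.pairT.map (PowerSeries.C (R := Polynomial ℂ)) *
        (eulAt T.toEquivData t κ).map (lineH (Polynomial ℂ) v) := by
  rw [vr_pT _ v, ← Matrix.map_mul, ← Matrix.transpose_map, eulAt_self]

private theorem vr_eulD (T : BulkGW X t) (v : Fin N → ℂ) (κ : ℂ) (i j : Fin N) :
    PowerSeries.derivative (Polynomial ℂ) (lineF v (eulAt T.toEquivData t κ i j)) =
      PowerSeries.C (Polynomial.C ((X.deg j : ℂ) - X.deg i)) * vrM T.toEquivData t v i j +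
        vrM T.toEquivData t v i j - lamD (vrM T.toEquivData t v i j) := by
  rw [lineF_pderiv, vr_M, vr_lamS, Finset.mul_sum, ← Finset.sum_add_distrib,
    ← Finset.sum_sub_distrib]
  refine Finset.sum_congr rfl fun a _ => ?_
  rw [eulAt_pderiv, vr_sub, lineF_add, lineF_mul, lineF_C, ← lineF_lam, vr_lamC,
    Polynomial.algebraMap_eq]
  ring

private theorem vr_map (φ : Polynomial ℂ →+* Polynomial (Polynomial ℂ))
    (hφ : ∀ z : ℂ, φ (Polynomial.C z) = Polynomial.C (Polynomial.C z)) (v : Fin N → ℂ)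
    (P : Matrix (Fin N) (Fin N) (MvPowerSeries (Fin N) (Polynomial ℂ))) :
    (P.map (MvPowerSeries.map φ)).map (lineH (Polynomial (Polynomial ℂ)) v) =
      (P.map (lineH (Polynomial ℂ) v)).map (PowerSeries.map φ) := by
  ext1 i j
  exact (lineF_map v φ hφ (P i j)).symm

private theorem vr_mapM (T : EquivData X) (t : Fin N → ℂ)
    (φ : Polynomial ℂ →+* Polynomial (Polynomial ℂ))
    (hφ : ∀ z : ℂ, φ (Polynomial.C z) = Polynomial.C (Polynomial.C z)) (v : Fin N → ℂ) :
    (vrM T t v).map (PowerSeries.map φ) =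
      ∑ a, (PowerSeries.C (Polynomial.C (Polynomial.C (v a))) :
        PowerSeries (Polynomial (Polynomial ℂ))) •
        ((mulAt T t a).map (MvPowerSeries.map φ)).map (lineH (Polynomial (Polynomial ℂ)) v) := by
  ext1 i j
  rw [Matrix.map_apply, vr_M, map_sum, Matrix.sum_apply]
  refine Finset.sum_congr rfl fun a _ => ?_
  rw [vr_map φ hφ, map_mul, PowerSeries.map_C, hφ]
  rfl

private theorem vr_inter (T : BulkGW X t) (v : Fin N → ℂ) :
    (PowerSeries.C (Polynomial.X : Polynomial (Polynomial ℂ))) •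
      (T.Sb.map (lineH (Polynomial (Polynomial ℂ)) v)).map
        (PowerSeries.derivative (Polynomial (Polynomial ℂ))) =
    (vrM T.toEquivData t v).map (PowerSeries.map Polynomial.C) *
        T.Sb.map (lineH (Polynomial (Polynomial ℂ)) v) -
      T.Sb.map (lineH (Polynomial (Polynomial ℂ)) v) *
        (vrM T.toEquivData t v).map (PowerSeries.map (shiftHom 1)) := by
  have hs : ∀ z : ℂ, shiftHom 1 (Polynomial.C z) = Polynomial.C (Polynomial.C z) := by
    intro z
    unfold shiftHom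
    rw [Polynomial.coe_eval₂RingHom, Polynomial.eval₂_C]
    rfl
  rw [vr_mapM _ _ _ (fun _ => rfl), vr_mapM _ _ _ hs, Finset.sum_mul, Finset.mul_sum,
    ← Finset.sum_sub_distrib]
  have h1 : ∀ a, (PowerSeries.C (Polynomial.X : Polynomial (Polynomial ℂ))) •
      (T.Sb.map (MvPowerSeries.pderiv (Polynomial (Polynomial ℂ)) a)).map
        (lineH (Polynomial (Polynomial ℂ)) v) =
      ((mulAt T.toEquivData t a).map (MvPowerSeries.map Polynomial.C)).map
          (lineH (Polynomial (Polynomial ℂ)) v) * T.Sb.map (lineH (Polynomial (Polynomial ℂ)) v) -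
        T.Sb.map (lineH (Polynomial (Polynomial ℂ)) v) *
          ((mulAt T.toEquivData t a).map (MvPowerSeries.map (shiftHom 1))).map
            (lineH (Polynomial (Polynomial ℂ)) v) := by
    intro a
    have h2 := congrArg (fun P => P.map (lineH (Polynomial (Polynomial ℂ)) v)) (T.intertwine a)
    rw [Matrix.map_sub _ (map_sub _), Matrix.map_mul, Matrix.map_mul] at h2
    rw [← h2]
    ext1 i j
    rw [Matrix.map_apply, Matrix.smul_apply, Matrix.smul_apply, smul_eq_mul, smul_eq_mul, map_mul,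
      Matrix.map_apply]
    congr 1
    exact (lineF_C v _).symm
  have h3 : (T.Sb.map (lineH (Polynomial (Polynomial ℂ)) v)).map
      (PowerSeries.derivative (Polynomial (Polynomial ℂ))) =
      ∑ a, (PowerSeries.C (Polynomial.C (Polynomial.C (v a))) :
        PowerSeries (Polynomial (Polynomial ℂ))) •
        (T.Sb.map (MvPowerSeries.pderiv (Polynomial (Polynomial ℂ)) a)).map
          (lineH (Polynomial (Polynomial ℂ)) v) := by
    ext1 i j
    rw [Matrix.sum_apply]
    exact lineF_pderiv v (T.Sb i j)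
  rw [h3, Finset.smul_sum]
  refine Finset.sum_congr rfl fun a _ => ?_
  rw [smul_comm, h1, smul_sub, Matrix.smul_mul, Matrix.mul_smul]

private theorem vr_unit (T : BulkGW X t) (v : Fin N → ℂ) :
    IsUnit (T.Sb.map (lineH (Polynomial (Polynomial ℂ)) v)).det := by
  have h1 : (T.Sb.map (lineH (Polynomial (Polynomial ℂ)) v)).det =
      lineH (Polynomial (Polynomial ℂ)) v T.Sb.det :=
    (RingHom.map_det (lineH (Polynomial (Polynomial ℂ)) v) T.Sb).symm
  rw [h1]
  refine IsUnit.map _ (MvPowerSeries.isUnit_iff_constantCoeff.2 ?_)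
  rw [RingHom.map_det]
  have h2 : (MvPowerSeries.constantCoeff (σ := Fin N)).mapMatrix T.Sb = T.S := by
    ext1 i j
    exact T.Sb_zero i j
  rw [h2]
  exact T.isUnit_S

theorem exists_ray_full (T : BulkGW X t) (ht : ∀ i, t i ≠ 0 → X.deg i = 1) {Q : QSys N}
    (hQ : IsQ T.toGammaGW Q) {A r : ℝ} (hA : 0 < A) (hr : 0 < r)
    (hB : BConv T.toEquivData t A r) {v : Fin N → ℂ} {V R r' : ℝ} (hV : ∀ i, ‖v i‖ ≤ V)
    (hR : 1 < R) (hRV : R * V * A < 1) (hr' : 0 < r') (hr'r : r' < r) :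
    ∃ 𝓡 : Ray N, 𝓡.Q = Q ∧ 𝓡.R = R ∧ 𝓡.r = r' ∧
      𝓡.C = (eulAt T.toEquivData t T.κ).map (lineF v) ∧
      ∀ i j, 𝓡.M i j = ∑ a, PowerSeries.C (Polynomial.C (v a)) *
        lineF v (mulAt T.toEquivData t a i j) := by
  have hR0 : 0 < R := by linarith
  refine ⟨{
    Q := Q
    Λ_univ := hQ.Λ
    R := R
    r := r'
    hR := hR
    hr := hr'
    pT := T.pairT
    g_eq := hQ.g
    M := vrM T.toEquivData t v
    C := (eulAt T.toEquivData t T.κ).map (lineH (Polynomial ℂ) v)
    S := T.Sb.map (lineH (Polynomial (Polynomial ℂ)) v)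
    M_conv := ?_
    C_conv := fun i j => line_conv_eul T.toEquivGW T.κ hA hr hB hV hR0 hRV hr' hr'r i j
    C_zero := ?_
    S_zero := ?_
    S_unit := vr_unit T v
    comm := vr_comm T ht v T.κ
    selfM := vr_selfM T.toEquivGW t v
    selfC := vr_selfC T.toEquivGW t T.κ v
    eul := ?_
    inter := vr_inter T v }, rfl, rfl, rfl, rfl, fun i j => vr_M _ _ _ i j⟩
  · intro i j
    rw [vr_M]
    exact vr_sum hR0.le hr'.le _ _ fun a _ => PConv.mul hR0.le hr'.le (PConv.C _ _ _)
      (line_conv T.toEquivGW hA hr hB hV hR0 hRV hr' hr'r a i j)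
  · intro x i j
    rw [hQ.C x]
    show (chernT T.toEquivData t T.κ i j).eval x =
      (PowerSeries.constantCoeff (lineF v (eulAt T.toEquivData t T.κ i j))).eval x
    rw [lineF_const, eulAt_const T.toEquivGW]
  · intro x z i j
    rw [hQ.S x z]
    show (T.S i j).evalEval x z = (PowerSeries.constantCoeff (lineF v (T.Sb i j))).evalEval x z
    rw [lineF_const, T.Sb_zero]
  · intro i j
    have h1 : Q.θ i - Q.θ j = (X.deg j : ℂ) - X.deg i := by
      rw [hQ.θ, hQ.θ]
      ring
    rw [h1]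
    exact vr_eulD T v T.κ i j

theorem exists_ray (T : BulkGW X t) (ht : ∀ i, t i ≠ 0 → X.deg i = 1) {Q : QSys N}
    (hQ : IsQ T.toGammaGW Q) {A r : ℝ} (hA : 0 < A) (hr : 0 < r)
    (hB : BConv T.toEquivData t A r) {v : Fin N → ℂ} {V R r' : ℝ} (hV : ∀ i, ‖v i‖ ≤ V)
    (hR : 1 < R) (hRV : R * V * A < 1) (hr' : 0 < r') (hr'r : r' < r) :
    ∃ 𝓡 : Ray N, 𝓡.Q = Q ∧ 𝓡.R = R ∧ 𝓡.r = r' ∧
      𝓡.C = (eulAt T.toEquivData t T.κ).map (lineF v) := by
  obtain ⟨𝓡, h1, h2, h3, h4, -⟩ := exists_ray_full T ht hQ hA hr hB hV hR hRV hr' hr'r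
  exact ⟨𝓡, h1, h2, h3, h4⟩

end Pool.Agent.DST
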