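import Pool.Agent.DST.ECalT
import Pool.Agent.DST.EData
import Pool.Agent.DST.EWLim
import Pool.Agent.DST.FQ
import Pool.Agent.DST.VRay
import Pool.Agent.DST.VChain
import Pool.Agent.DST.VEul
import Pool.Agent.DST.NMain

/-!
# DST-EMain: existence of the monodromy data at `t + v`
-/

open scoped BigOperators Topology
open Filter

namespace Pool.Agent.DST

open Pool.Agent.Helper18.Dub Pool.Agent.Helper7.DubStokes Pool.Agent.SHF

variable {N : ℕ} {X : FanoGW (Fin N)} {t : Fin N → ℂ}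

private theorem em_theta {θ : Fin N → ℂ} (hθ : ∀ a, θ a = (X.dim : ℂ) / 2 - X.deg a) :
    Matrix.diagonal θ = theta X := by
  unfold theta
  congr 1
  funext a
  exact hθ a

/-- At the points of `H^2(X)`. -/
theorem exists_data_h2 (ht : ∀ i, t i ≠ 0 → X.deg i = 1) (T : GammaGW X t)
    (hsep : (eulerMat X t).charpoly.Separable) {φ : ℝ}
    (hφ : ∀ x y, (eulerMat X t).charpoly.IsRoot x → (eulerMat X t).charpoly.IsRoot y → x ≠ y →
      ((x - y) * Complex.exp (-φ * Complex.I)).re ≠ 0) :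
    ∃ M : MonodromyData X t, M.φ = φ := by
  obtain ⟨Q, hQ⟩ := exists_Q T
  have hC0 : Q.C 0 = eulerMat X t := by
    rw [hQ.C, euler_at_zero T.toEquivGW T.κ T.period_zero ht]
  have hg0 : Q.g 0 = X.pair := by
    rw [hQ.g]
    ext i j
    exact T.pair_zero i j
  have hθ : Matrix.diagonal Q.θ = theta X := em_theta hQ.θ
  have hΛ : ∀ x, x ∈ Q.Λ := fun x => by rw [hQ.Λ]; trivial
  obtain ⟨𝒮, h𝒮, hcal⟩ := exists_cal T.period_zero ht
  refine data_of (converges_h2 T.period_zero ht) hsep hφ (J₀ := fun w => Q.J 0 w) ?_ ?_ h𝒮 hcal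
  · intro w i j
    have h2 := Q.J_ode 0 w (hΛ _) i j
    rw [zero_mul, hC0, hθ] at h2
    exact h2
  · intro u Ψ φ' heig hnorm hadm
    exact chain T Q hQ (by rw [hC0]; exact heig) (by rw [hg0]; exact hnorm) hadm

theorem exists_data_bulk (ht : ∀ i, t i ≠ 0 → X.deg i = 1) (T : BulkGW X t) {A r : ℝ}
    (hA : 0 < A) (hr : 0 < r) (hB : BConv T.toEquivData t A r) {v : Fin N → ℂ} {V : ℝ}
    (hV : ∀ i, ‖v i‖ ≤ V) (hVA : V * A < 1) (hc : ConvergesAt X (t + v))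
    (hsep : (eulerMat X (t + v)).charpoly.Separable) {φ : ℝ}
    (hφ : ∀ x y, (eulerMat X (t + v)).charpoly.IsRoot x →
      (eulerMat X (t + v)).charpoly.IsRoot y → x ≠ y →
      ((x - y) * Complex.exp (-φ * Complex.I)).re ≠ 0) :
    ∃ M : MonodromyData X (t + v), M.φ = φ := by
  obtain ⟨Q, hQ⟩ := exists_Q T.toGammaGW
  obtain ⟨V', hV'⟩ : ∃ V' : ℝ, V' = max V 0 := ⟨_, rfl⟩
  have hV'0 : 0 ≤ V' := by rw [hV']; exact le_max_right _ _
  have hVV' : V ≤ V' := by rw [hV']; exact le_max_left _ _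
  have ha0 : 0 ≤ V' * A := mul_nonneg hV'0 hA.le
  have ha1 : V' * A < 1 := by
    rw [hV']
    rcases max_choice V 0 with h | h
    · rw [h]; exact hVA
    · rw [h, zero_mul]; exact zero_lt_one
  have hR1 : 1 < 2 / (1 + V' * A) := by
    rw [lt_div_iff₀ (by linarith)]
    linarith
  have hRV : 2 / (1 + V' * A) * V' * A < 1 := by
    rw [div_mul_eq_mul_div, div_mul_eq_mul_div, div_lt_one (by linarith)]
    nlinarith
  obtain ⟨𝓡, h𝓡Q, h𝓡R, h𝓡r, h𝓡C⟩ := exists_ray T ht hQ hA hr hB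
    (fun i => (hV i).trans hVV') hR1 hRV (half_pos hr) (half_lt_self hr)
  have hQ' : IsQ T.toGammaGW 𝓡.Q := by rw [h𝓡Q]; exact hQ
  have hone : ‖(1 : ℂ)‖ < 𝓡.R := by rw [norm_one]; exact 𝓡.hR
  have hr0 : ∀ w : ℂ, ‖(0 : ℂ) * Complex.exp w‖ < 𝓡.r := by
    intro w
    rw [zero_mul, norm_zero]
    exact 𝓡.hr
  have hC0 : 𝓡.Q.C 0 = eulerMat X t := by
    rw [hQ'.C, euler_at_zero T.toEquivGW T.κ T.period_zero ht]
  have hg0 : 𝓡.Q.g 0 = X.pair := by
    rw [hQ'.g]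
    ext i j
    exact T.pair_zero i j
  have hC1 : 𝓡.Cv 1 0 = eulerMat X (t + v) := by
    ext k b
    rw [euler_bulk T ht hA hr hB hV hVA hc k b]
    unfold Ray.Cv
    rw [h𝓡C]
    rfl
  have hθ : Matrix.diagonal 𝓡.Q.θ = theta X := em_theta hQ'.θ
  obtain ⟨𝒮, h𝒮, hcal⟩ := exists_cal T.period_zero ht
  refine data_of hc hsep hφ (J₀ := fun w => 𝓡.J 1 0 w)
    (𝒮 := fun z => 𝓡.W 1 0 z * 𝒮 z) ?_ ?_ ?_ ?_
  · intro w i j
    have h2 := 𝓡.J_ode hone (hr0 w) i j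
    rw [zero_mul, hC1, hθ] at h2
    exact h2
  · intro u Ψ φ' heig hnorm hadm
    exact chain_bulk T.toGammaGW 𝓡 hQ' (by rw [hC1]; exact heig) (by rw [hg0]; exact hnorm) hadm
  · have h1 := (𝓡.W_lim hone).mul h𝒮
    rw [mul_one] at h1
    exact h1
  · have h1 := 𝓡.W_sol hC0 hC1 hθ hcal
    intro w i j
    have h2 := h1 w i j
    unfold zSol at h2 ⊢
    simp only [Matrix.mul_assoc] at h2 ⊢
    exact h2

theorem exists_data (ht : ∀ i, t i ≠ 0 → X.deg i = 1) (T : BulkGW X t) :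
    ∃ ρ > 0, ∀ v : Fin N → ℂ, (∀ i, ‖v i‖ < ρ) → ConvergesAt X (t + v) →
      (eulerMat X (t + v)).charpoly.Separable → ∀ φ : ℝ,
      (∀ x y, (eulerMat X (t + v)).charpoly.IsRoot x →
        (eulerMat X (t + v)).charpoly.IsRoot y → x ≠ y →
        ((x - y) * Complex.exp (-φ * Complex.I)).re ≠ 0) →
      ∃ M : MonodromyData X (t + v), M.φ = φ := by
  obtain ⟨A, r, hA, hr, hB⟩ := bulk_converges T ht
  refine ⟨1 / (2 * A), by positivity, fun v hv hc hsep φ hφ => ?_⟩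
  refine exists_data_bulk ht T hA hr hB (V := 1 / (2 * A)) (fun i => (hv i).le) ?_ hc hsep hφ
  rw [div_mul_eq_mul_div, div_lt_one (by positivity)]
  linarith

end Pool.Agent.DST
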