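import Mathlib

/-!
# DST-EOrd: the eigenvalues in increasing order of a real function

PLAN. Mathlib only. `E.charpoly` is separable of degree `N`, so it has exactly `N` distinct roots (`IsAlgClosed.splits`,
`Polynomial.nodup_roots`, `Polynomial.card_roots` / `Multiset.toFinset_card_of_nodup`, `Matrix.charpoly_natDegree_eq_dim`). `f` is
injective on the finset of roots, so its image in `ℝ` has `N` elements; `Finset.orderEmbOfFin` lists it increasingly; choose
preimages.
-/

open scoped BigOperators Topology

namespace Pool.Agent.DST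

theorem exists_order {N : ℕ} (E : Matrix (Fin N) (Fin N) ℂ) (hsep : E.charpoly.Separable)
    (f : ℂ → ℝ) (hf : ∀ x y, E.charpoly.IsRoot x → E.charpoly.IsRoot y → x ≠ y → f x ≠ f y) :
    ∃ u : Fin N → ℂ, (∀ i, E.charpoly.IsRoot (u i)) ∧ ∀ i j, i < j → f (u i) < f (u j) := by
  classical
  have hroots : (E.charpoly.roots.toFinset).card = N := by
    rw [Multiset.toFinset_card_of_nodup (Polynomial.nodup_roots hsep),
      IsAlgClosed.card_roots_eq_natDegree, Matrix.charpoly_natDegree_eq_dim, Fintype.card_fin]
  have hmem : ∀ x, x ∈ E.charpoly.roots.toFinset ↔ E.charpoly.IsRoot x := by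
    intro x
    rw [Multiset.mem_toFinset, Polynomial.mem_roots (Matrix.charpoly_monic E).ne_zero]
  have hinj : Set.InjOn f (E.charpoly.roots.toFinset : Set ℂ) := by
    intro x hx y hy hxy
    by_contra hne
    exact hf x y ((hmem x).1 hx) ((hmem y).1 hy) hne hxy
  have hcard : ((E.charpoly.roots.toFinset).image f).card = N := by
    rw [Finset.card_image_of_injOn hinj, hroots]
  have hex : ∀ i : Fin N, ∃ x, E.charpoly.IsRoot x ∧
      f x = ((E.charpoly.roots.toFinset).image f).orderEmbOfFin hcard i := by
    intro i
    obtain ⟨x, hx, hfx⟩ := Finset.mem_image.1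
      (((E.charpoly.roots.toFinset).image f).orderEmbOfFin_mem hcard i)
    exact ⟨x, (hmem x).1 hx, hfx⟩
  choose u hu hfu using hex
  refine ⟨u, hu, fun i j hij => ?_⟩
  rw [hfu i, hfu j]
  exact (((E.charpoly.roots.toFinset).image f).orderEmbOfFin hcard).strictMono hij

end Pool.Agent.DST
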