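import Pool.Agent.DST.ESemi
import Pool.Agent.DST.EMain
import Pool.Agent.CVG.FinB

/-!
# DST-EPoint: there are points with monodromy data, arbitrarily near `0`
-/

open scoped BigOperators Topology
open Filter

namespace Pool.Agent.DST

open Pool.Agent.Helper18.Dub Pool.Agent.Helper7.DubStokes Pool.Agent.SHF

variable {N : ℕ} {X : FanoGW (Fin N)}

theorem countable_dir {d : ℂ} (hd : d ≠ 0) :
    {φ : ℝ | (d * Complex.exp (-φ * Complex.I)).re = 0}.Countable := by
  refine Set.Countable.mono ?_ (Set.countable_range fun k : ℤ =>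
    Complex.arg d - (2 * (k : ℝ) + 1) * Real.pi / 2)
  intro φ hφ
  have h1 : d * Complex.exp (-φ * Complex.I) =
      (‖d‖ : ℂ) * Complex.exp (((Complex.arg d - φ : ℝ) : ℂ) * Complex.I) := by
    conv_lhs => rw [← Complex.norm_mul_exp_arg_mul_I d]
    rw [mul_assoc, ← Complex.exp_add]
    congr 2
    push_cast
    ring
  rw [Set.mem_ofPred_eq, h1, Complex.re_ofReal_mul, Complex.exp_ofReal_mul_I_re] at hφ
  rcases mul_eq_zero.1 hφ with h | h
  · exact absurd (norm_eq_zero.1 h) hd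
  · obtain ⟨k, hk⟩ := Real.cos_eq_zero_iff.1 h
    exact ⟨k, by show Complex.arg d - (2 * (k : ℝ) + 1) * Real.pi / 2 = φ; linarith⟩

theorem exists_dir (p : Polynomial ℂ) (hp : p ≠ 0) : ∃ φ : ℝ, ∀ x y, p.IsRoot x → p.IsRoot y →
    x ≠ y → ((x - y) * Complex.exp (-φ * Complex.I)).re ≠ 0 := by
  classical
  set R : Finset ℂ := p.roots.toFinset with hR
  have hmem : ∀ x, p.IsRoot x → x ∈ R := fun x hx => by
    rw [hR, Multiset.mem_toFinset, Polynomial.mem_roots hp]
    exact hx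
  have hc : (⋃ q ∈ (R ×ˢ R).filter (fun q => q.1 ≠ q.2),
      {φ : ℝ | ((q.1 - q.2) * Complex.exp (-φ * Complex.I)).re = 0}).Countable := by
    refine Set.Countable.biUnion (Finset.countable_toSet _) fun q hq => ?_
    have hq' : q.1 ≠ q.2 := (Finset.mem_filter.1 (Finset.mem_coe.1 hq)).2
    exact countable_dir (sub_ne_zero.2 hq')
  have hne : (⋃ q ∈ (R ×ˢ R).filter (fun q => q.1 ≠ q.2),
      {φ : ℝ | ((q.1 - q.2) * Complex.exp (-φ * Complex.I)).re = 0}) ≠ Set.univ := by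
    intro h
    rw [h] at hc
    exact Set.not_countable_univ hc
  obtain ⟨φ, hφ⟩ := (Set.ne_univ_iff_exists_notMem _).1 hne
  refine ⟨φ, fun x y hx hy hxy h => hφ ?_⟩
  refine Set.mem_biUnion (x := (x, y)) ?_ h
  exact Finset.mem_filter.2 ⟨Finset.mk_mem_product (hmem x hx) (hmem y hy), hxy⟩

theorem exists_point (T : BulkGW X 0) {δ : ℝ} (hδ : 0 < δ) :
    ∃ v : Fin N → ℂ, (∀ i, ‖v i‖ < δ) ∧ Nonempty (MonodromyData X v) := by
  obtain ⟨r, hr, hconv, -, hdense⟩ := Pool.Agent.CVG.exists_domain X (semisimple_of_bulk T)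
  obtain ⟨ρ, hρ, hdata⟩ := exists_data (t := 0) (fun i h => absurd rfl h) T
  have h0 := hdense 0 (fun i => by simpa using hr)
  rw [Metric.mem_closure_iff] at h0
  obtain ⟨v, ⟨hv1, hv2⟩, hv3⟩ := h0 (min δ ρ) (lt_min hδ hρ)
  have hv4 : ∀ i, ‖v i‖ < min δ ρ := by
    intro i
    rw [dist_comm, dist_zero_right] at hv3
    exact lt_of_le_of_lt (norm_le_pi_norm v i) hv3
  obtain ⟨φ, hφ⟩ := exists_dir (eulerMat X v).charpoly (Matrix.charpoly_monic _).ne_zero
  have h1 := hdata v (fun i => (hv4 i).trans_le (min_le_right _ _))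
  rw [zero_add] at h1
  obtain ⟨M, -⟩ := h1 (hconv v hv1) hv2 φ hφ
  exact ⟨v, fun i => (hv4 i).trans_le (min_le_left _ _), ⟨M⟩⟩

end Pool.Agent.DST
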