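import Pool.Agent.DST.VDefs
import Pool.Agent.SHF.Main

/-!
# DST-ESemi: big quantum cohomology is generically semisimple

The restrictions to the `N` fixed points are `N` different ring homomorphisms, so this is the theorem
of `SHF/Main.lean`; the shift operator there is `S(λ, -z)`.
-/

open scoped BigOperators Topology
open Filter

namespace Pool.Agent.DST

open Pool.Agent.Helper18.Dub Pool.Agent.Helper7.DubStokes Pool.Agent.SHF

variable {N : ℕ} {X : FanoGW (Fin N)}

/-- `z ↦ -z` -/
noncomputable def negZ : Polynomial (Polynomial ℂ) →+* Polynomial (Polynomial ℂ) :=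
  Polynomial.eval₂RingHom Polynomial.C (-Polynomial.X)

theorem negZ_C (p : Polynomial ℂ) : negZ (Polynomial.C p) = Polynomial.C p := by
  simp [negZ]

theorem negZ_X : negZ Polynomial.X = -Polynomial.X := by
  simp [negZ]

theorem negZ_shift : negZ.comp (shiftHom 1) = shiftHom (-1) := by
  apply Polynomial.ringHom_ext
  · intro a
    simp [shiftHom, negZ]
  · simp [shiftHom, negZ]
    ring

theorem negZ_comp_C : negZ.comp (Polynomial.C : Polynomial ℂ →+* _) = Polynomial.C := by
  ext x
  · simp [negZ]
  · simp [negZ]

theorem corrAt_zero (T : EquivData X) (s : Multiset (Fin N)) : corrAt T 0 s = T.corrT s := by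
  unfold corrAt EquivData.corrT
  congr 1
  funext β
  simp

theorem serAt_zero (T : EquivData X) (s : Multiset (Fin N)) : serAt T 0 s = T.serT s := by
  unfold serAt EquivData.serT
  funext m
  rw [corrAt_zero]

theorem mulAt_zero (T : EquivData X) (a : Fin N) : mulAt T 0 a = T.mulMatT a := by
  ext1 i j
  unfold mulAt EquivData.mulMatT EquivData.scT
  simp only [Matrix.of_apply, serAt_zero]

/-- change of sign of `z` in the equation of the shift operator -/
theorem flip_aux {R : Type} [CommRing R] (f : R →+* R) (z : R) (hz : f z = -z)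
    (S A B B' : Matrix (Fin N) (Fin N) (MvPowerSeries (Fin N) R)) (a : Fin N)
    (h : (MvPowerSeries.C z : MvPowerSeries (Fin N) R) • S.map (MvPowerSeries.pderiv R a) =
      A * S - S * B)
    (hA : A.map (MvPowerSeries.map (σ := Fin N) f) = A)
    (hB : B.map (MvPowerSeries.map (σ := Fin N) f) = B') :
    (MvPowerSeries.C z : MvPowerSeries (Fin N) R) •
        (S.map (MvPowerSeries.map (σ := Fin N) f)).map (MvPowerSeries.pderiv R a) +
      A * S.map (MvPowerSeries.map (σ := Fin N) f) =
    S.map (MvPowerSeries.map (σ := Fin N) f) * B' := by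
  have h' := congrArg (fun M => M.map (MvPowerSeries.map (σ := Fin N) f)) h
  have e1 : ((MvPowerSeries.C z : MvPowerSeries (Fin N) R) •
      S.map (MvPowerSeries.pderiv R a)).map (MvPowerSeries.map (σ := Fin N) f) =
      -((MvPowerSeries.C z : MvPowerSeries (Fin N) R) •
        (S.map (MvPowerSeries.map (σ := Fin N) f)).map (MvPowerSeries.pderiv R a)) := by
    ext1 i j
    simp only [Matrix.map_apply, Matrix.smul_apply, smul_eq_mul, map_mul, Matrix.neg_apply,
      MvPowerSeries.map_C, hz, map_neg, neg_mul]
    congr 2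
    ext1 m
    simp only [MvPowerSeries.coeff_map, MvPowerSeries.coeff_pderiv, map_mul, map_add, map_natCast,
      map_one]
  have e5 : (A * S - S * B).map (MvPowerSeries.map (σ := Fin N) f) =
      A * S.map (MvPowerSeries.map (σ := Fin N) f) -
      S.map (MvPowerSeries.map (σ := Fin N) f) * B' := by
    rw [Matrix.map_sub _ (fun x y => map_sub _ x y), Matrix.map_mul, Matrix.map_mul, hA, hB]
  rw [e1, e5] at h'
  rw [← sub_eq_zero] at h' ⊢
  rw [← neg_eq_zero, ← h']
  abel

theorem isUnit_Sb {t : Fin N → ℂ} (T : BulkGW X t) : IsUnit T.Sb.det := by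
  rw [MvPowerSeries.isUnit_iff_constantCoeff, RingHom.map_det]
  have : (MvPowerSeries.constantCoeff.mapMatrix T.Sb :
      Matrix (Fin N) (Fin N) (Polynomial (Polynomial ℂ))) = T.S := by
    ext1 i j
    exact T.Sb_zero i j
  rw [this]
  exact T.isUnit_S

theorem isUnit_map_aux {R : Type} [CommRing R] (f : R →+* R)
    (S : Matrix (Fin N) (Fin N) (MvPowerSeries (Fin N) R)) (h : IsUnit S.det) :
    IsUnit (S.map (MvPowerSeries.map (σ := Fin N) f)).det := by
  have h2 := h.map (MvPowerSeries.map (σ := Fin N) f)
  rwa [RingHom.map_det] at h2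

theorem map_C_aux (T : EquivData X) (a : Fin N) :
    ((T.mulMatT a).map (MvPowerSeries.map Polynomial.C)).map
      (MvPowerSeries.map (σ := Fin N) negZ) = (T.mulMatT a).map (MvPowerSeries.map Polynomial.C) := by
  ext1 i j
  simp only [Matrix.map_apply]
  ext1 m
  simp only [MvPowerSeries.coeff_map, negZ_C]

theorem map_shift_aux (T : EquivData X) (a : Fin N) :
    ((T.mulMatT a).map (MvPowerSeries.map (shiftHom 1))).map
      (MvPowerSeries.map (σ := Fin N) negZ) =
        (T.mulMatT a).map (MvPowerSeries.map (shiftHom (-1))) := by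
  ext1 i j
  simp only [Matrix.map_apply]
  ext1 m
  simp only [MvPowerSeries.coeff_map]
  rw [← negZ_shift, RingHom.comp_apply]

/-- the structure of `SHF/Defs.lean` -/
noncomputable def toTorusGW (T : BulkGW X 0) : TorusGW X where
  toEquivGW := T.toEquivGW
  k := -1
  k_ne := by norm_num
  S := T.Sb.map (MvPowerSeries.map negZ)
  isUnit_S := isUnit_map_aux negZ _ (isUnit_Sb T)
  intertwine := fun a => by
    have h := T.intertwine a
    rw [mulAt_zero] at h
    exact flip_aux negZ _ negZ_X _ _ _ _ a h (map_C_aux _ a) (map_shift_aux _ a)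

theorem semisimple_of_bulk (T : BulkGW X 0) : X.IsGenericallySemisimple := by
  classical
  have hmain := (toTorusGW T).main.2.2.2
  set r : Fin N → (Fin N → Polynomial ℂ) := fun p a =>
    Polynomial.C (T.res p a) * Polynomial.X ^ X.deg a with hr
  have hinj : Function.Injective r := by
    intro p q h
    have h1 : ∀ a, T.res p a = T.res q a := by
      intro a
      have h2 := congrFun h a
      simp only [hr] at h2
      have h3 := congrArg (Polynomial.eval 1) h2
      simpa using h3
    have h4 : (∑ k, (T.wt p k : ℂ)) = ∑ k, (T.wt q k : ℂ) := by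
      rw [← T.chern_res p, ← T.chern_res q]
      simp only [h1]
    have h5 : (∑ k, T.wt p k) = ∑ k, T.wt q k := by exact_mod_cast h4
    exact T.strict.injective h5
  have hP := hmain (Finset.univ.image r) (by
    intro f hf
    obtain ⟨p, -, rfl⟩ := Finset.mem_image.1 hf
    exact T.isRestriction p)
  apply hP.2
  rw [Finset.card_image_of_injective _ hinj, Finset.card_univ]

end Pool.Agent.DST
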