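import Mathlib

/-!
# Project DST: values of Laurent polynomials
-/

namespace Pool.Agent.DST

/-- `q = e^{2πiy}` as a unit. -/
noncomputable def qu (y : ℂ) : ℂˣ :=
  Units.mk0 (Complex.exp (2 * Real.pi * Complex.I * y)) (Complex.exp_ne_zero _)

/-- The value of a Laurent polynomial in `q` at `q = e^{2πiy}`. -/
noncomputable def evq (y : ℂ) : LaurentPolynomial ℂ →+* ℂ :=
  LaurentPolynomial.eval₂ (RingHom.id ℂ) (qu y)

/-- The value of an integral Laurent polynomial in `q` at `q = e^{2πiy}`. -/
noncomputable def evZ (y : ℂ) : LaurentPolynomial ℤ →+* ℂ :=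
  LaurentPolynomial.eval₂ (Int.castRingHom ℂ) (qu y)

end Pool.Agent.DST
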