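import Pool.Agent.DST.Iface

/-!
# DST-FFam: the family of difference systems of a quantum system with `Λ = ℂ`

PLAN. `A0_hol`: `Q.A0 l = S(e^l, 0) * exp(e^{-l} • C(e^l))`. `S_hol` at `(e^l, 0)` composed with
`l ↦ (e^l, 0)`; the entries of the matrix `e^{-l} • C(e^l)` are differentiable, and
`NormedSpace.exp` on the complete normed algebra of matrices (`open scoped Matrix.Norms.Operator`)
is analytic (`NormedSpace.exp_analytic`), hence differentiable; compose (a matrix valued function is
differentiable iff its entries are: `differentiableAt_pi`); products: `diffAt_mul`.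
`fam`: choose `D l` from `exists_dsys` for every `l` (`Λ = univ`). `IsFam`: `conn`: the complement of
a countable set in `ℂ` is connected (`Set.Countable.isConnected_compl_of_one_lt_rank`, rank of `ℂ`
over `ℝ` is `2`: `Complex.rank_real_complex`), `univ \ Z = Zᶜ`; `χ_int`: `Q.χ_int`; `A_hol`: `A0_hol`
(rewrite `(D l).A 0 = Q.A0 l`); `comp`: `comp_f` (rewrite `(D l).F = Q.f l`).
-/

open scoped BigOperators Topology
open Filter

namespace Pool.Agent.DST

variable {N : ℕ}

section
open scoped Matrix.Norms.Operator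

private theorem ff_exp {M : ℂ → Matrix (Fin N) (Fin N) ℂ} {l : ℂ}
    (hM : ∀ i j, DifferentiableAt ℂ (fun l => M l i j) l) (i j : Fin N) :
    DifferentiableAt ℂ (fun l => (NormedSpace.exp (M l)) i j) l := by
  have h1 : DifferentiableAt ℂ M l :=
    differentiableAt_pi.2 fun i => differentiableAt_pi.2 fun j => hM i j
  have h2 : DifferentiableAt ℂ (NormedSpace.exp : Matrix (Fin N) (Fin N) ℂ → _) (M l) :=
    (NormedSpace.exp_analytic (𝕂 := ℂ) (M l)).differentiableAt
  have h3 : DifferentiableAt ℂ (fun l => NormedSpace.exp (M l)) l :=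
    DifferentiableAt.comp l h2 h1
  exact differentiableAt_pi.1 (differentiableAt_pi.1 h3 i) j

end

theorem QSys.A0_hol (Q : QSys N) {l : ℂ} (hl : Complex.exp l ∈ Q.Λ) (i j : Fin N) :
    DifferentiableAt ℂ (fun l => Q.A0 l i j) l := by
  unfold QSys.A0
  refine diffAt_mul (fun i j => ?_) (fun i j => ?_) i j
  · have h1 := Q.S_hol (Complex.exp l) hl 0 (by rw [sub_zero]; exact hl) i j
    have h2 : DifferentiableAt ℂ (fun l : ℂ => (Complex.exp l, (0 : ℂ))) l :=
      Complex.differentiableAt_exp.prodMk (differentiableAt_const _)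
    exact DifferentiableAt.comp (g := fun p : ℂ × ℂ => Q.S p.1 p.2 i j)
      (f := fun l : ℂ => (Complex.exp l, (0 : ℂ))) l h1 h2
  · refine ff_exp (fun i j => ?_) i j
    have h1 : DifferentiableAt ℂ (fun l : ℂ => Q.C (Complex.exp l) i j) l :=
      DifferentiableAt.comp (g := fun x => Q.C x i j) (f := Complex.exp) l
        (Q.C_hol _ hl i j) Complex.differentiableAt_exp
    have h2 : DifferentiableAt ℂ (fun l : ℂ => Complex.exp (-l)) l := by fun_prop
    have h3 : (fun l : ℂ => (Complex.exp (-l) • Q.C (Complex.exp l)) i j) =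
        fun l : ℂ => Complex.exp (-l) * Q.C (Complex.exp l) i j := by
      funext l
      simp
    rw [h3]
    exact h2.mul h1

theorem fam (Q : QSys N) (hΛ : Q.Λ = Set.univ) : ∃ D : ℂ → DSys N,
    (∀ l, (D l).F = Q.f l ∧ (D l).A 0 = Q.A0 l ∧ (D l).g = Q.g (Complex.exp l) ∧
      (D l).χ = Q.χ) ∧ IsFam Set.univ D Q.χ := by
  have hmem : ∀ l : ℂ, Complex.exp l ∈ Q.Λ := fun l => by rw [hΛ]; exact Set.mem_univ _
  choose D hD using fun l => exists_dsys Q (hmem l)
  refine ⟨D, hD, ?_⟩
  refine
    { open_Ω := isOpen_univ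
      conn := ?_
      χ_eq := fun s _ => (hD s).2.2.2
      χ_int := Q.χ_int
      A_hol := ?_
      comp := ?_ }
  · intro Z hZ
    have h1 : 1 < Module.rank ℝ ℂ := by
      rw [Complex.rank_real_complex]
      norm_num
    have h2 := hZ.isConnected_compl_of_one_lt_rank h1
    rw [← Set.compl_eq_univ_sdiff]
    exact h2.isPreconnected
  · intro s _ i j
    have h1 : (fun s => (D s).A 0 i j) = fun s => Q.A0 s i j := by
      funext s
      rw [(hD s).2.1]
    rw [h1]
    exact Q.A0_hol (hmem s) i j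
  · intro s₀ _
    obtain ⟨δ, hδ, C, hC⟩ := comp_f Q (hmem s₀)
    refine ⟨δ, hδ, C, fun s hs s' hs' y hy hy1 i j => ?_⟩
    rw [(hD s).1, (hD s').1]
    exact hC s hs s' hs' y hy hy1 i j

end Pool.Agent.DST
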