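import Pool.Agent.DST.FinalV
import Pool.Agent.DST.FinalG
import Pool.Agent.DST.NMain

/-!
# DST-FinalN: the theorem in a neighbourhood of `H^2(X)`
-/

open scoped BigOperators Topology
open Filter

namespace Pool.Agent.DST

open Pool.Agent.Helper18.Dub Pool.Agent.Helper7.DubStokes Pool.Agent.SHF

variable {N : ℕ} {X : FanoGW (Fin N)} {t : Fin N → ℂ}

theorem final_nbhd (ht : ∀ i, t i ≠ 0 → X.deg i = 1) (T : BulkGW X t) :
    ∃ ρ : ℝ, 0 < ρ ∧ ∀ v : Fin N → ℂ, (∀ i, ‖v i‖ < ρ) → ∀ M : MonodromyData X (t + v),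
      ∃ U : Matrix (Fin N) (Fin N) ℤ, IsUnit U.det ∧
        IsExceptional X T.Td (fun j => ∑ i, U i j • T.ch i) ∧
        M.S = gramMatrix X T.Td (fun j => ∑ i, U i j • T.ch i) ∧
        ConnectionFactors M (fun j => (twist X).mulVec (∑ i, U i j • T.ch i)) ∧
        ConnectionIsometric M T.Td (fun j => ∑ i, U i j • T.ch i) ∧
        (v = 0 → ∀ w, M.Xminus w = (Complex.I / (Real.sqrt (2 * Real.pi) : ℂ)) ^ X.dim •
          (T.J 0 w * U.map (Int.castRingHom ℂ))) := by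
  obtain ⟨A, r, hA, hr, hB⟩ := bulk_converges T ht
  refine ⟨1 / (2 * A), by positivity, fun v hv M => ?_⟩
  by_cases h0 : v = 0
  · subst h0
    revert M
    rw [add_zero]
    intro M
    obtain ⟨U, h1, h2, h3, h4, h5, h6⟩ := final_gamma ht T.toGammaGW M
    exact ⟨U, h1, h2, h3, h4, h5, fun _ => h6⟩
  · obtain ⟨U, h1, h2, h3, h4, h5⟩ := final_bulk ht T hA hr hB (V := 1 / (2 * A))
      (fun i => (hv i).le) (by field_simp; norm_num) M
    exact ⟨U, h1, h2, h3, h4, h5, fun h => absurd h h0⟩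

end Pool.Agent.DST
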