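import Pool.Agent.DST.FQ
import Pool.Agent.DST.VRay
import Pool.Agent.DST.VChain
import Pool.Agent.DST.VEul
import Pool.Agent.DST.Final

/-!
# DST-FinalV: the theorem at points `t + v` of big quantum cohomology

The solutions `J(1; 0, ·)` along the ray from `t` to `t + v`, multiplied by the integral matrix of `chain_bulk`, are the
solution `X_-` of the monodromy data; the rest of the proof is that of `Final.final`.
-/

open scoped BigOperators Topology
open Filter

namespace Pool.Agent.DST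

open Pool.Agent.Helper18.Dub Pool.Agent.Helper7.DubStokes Pool.Agent.SHF

variable {N : ℕ} {X : FanoGW (Fin N)} {t : Fin N → ℂ}

private theorem evZ_zero_int (f : LaurentPolynomial ℤ) : ∃ m : ℤ, evZ 0 f = m := by
  refine f.induction_on' (fun p q hp hq => ?_) (fun n a => ?_)
  · obtain ⟨a, ha⟩ := hp
    obtain ⟨b, hb⟩ := hq
    exact ⟨a + b, by rw [map_add, ha, hb]; push_cast; rfl⟩
  · refine ⟨a, ?_⟩
    have h1 : qu 0 = 1 := by
      apply Units.ext
      show Complex.exp (2 * Real.pi * Complex.I * 0) = 1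
      rw [mul_zero, Complex.exp_zero]
    unfold evZ
    rw [LaurentPolynomial.eval₂_C_mul_T, h1, one_zpow]
    simp

/-- The normalised pairing with `X_+` of a solution with the asymptotics of `X_-`. -/
private theorem pairing_one (M : MonodromyData X t) (Y : ℂ → Matrix (Fin N) (Fin N) ℂ) (hY : IsSolution X t Y)
    {ε : ℝ} (hε : 0 < ε) (hYa : HasAsymptotics M.u M.Ψ (M.φ - ε) (M.φ + Real.pi + ε) Y) (w : ℂ) :
    (M.Xplus (w - Real.pi * Complex.I)).transpose * X.pair * Y w = 1 := by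
  have hMε := M.ε_pos
  have hπ := Real.pi_pos
  have hlim : ∀ α : ℝ, M.φ - ε < α → α < M.φ + Real.pi + ε → α - Real.pi < M.φ + M.ε →
      M.φ - Real.pi - M.ε < α - Real.pi → ∀ K : Matrix (Fin N) (Fin N) ℂ,
      (∀ w, (M.Xplus (w - Real.pi * Complex.I)).transpose * X.pair * Y w = K) →
      (∀ i, K i i = 1) ∧ ∀ i j, i ≠ j →
        0 ≤ ((M.u i - M.u j) * Complex.exp (-α * Complex.I)).re → K i j = 0 := by
    intro α h1 h2 h3 h4 K hK
    refine pairing_limit X M.u M.Ψ M.normalised M.Xplus Y K α (fun s => ?_) ?_ ?_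
    · rw [← hK (s + α * Complex.I)]
      congr 4
      push_cast
      ring
    · exact M.plus_asymptotics (α - Real.pi) ⟨h4, h3⟩
    · exact hYa α ⟨h1, h2⟩
  have hK : ∀ w', (M.Xplus (w' - Real.pi * Complex.I)).transpose * X.pair * Y w' =
      (M.Xplus (w - Real.pi * Complex.I)).transpose * X.pair * Y w := fun w' =>
    pairing_const X t M.Xplus Y M.plus_solution hY w' w
  set K := (M.Xplus (w - Real.pi * Complex.I)).transpose * X.pair * Y w with hKdef
  obtain ⟨hd, h0⟩ := hlim M.φ (by linarith) (by linarith) (by linarith) (by linarith) K hK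
  obtain ⟨-, h1⟩ := hlim (M.φ + Real.pi) (by linarith) (by linarith) (by linarith) (by linarith) K
    hK
  ext i j
  rcases lt_trichotomy i j with h | h | h
  · rw [Matrix.one_apply_ne h.ne]
    apply h1 i j h.ne
    have h2 : Complex.exp (-((M.φ + Real.pi : ℝ) : ℂ) * Complex.I) =
        -Complex.exp (-M.φ * Complex.I) := by
      rw [show -((M.φ + Real.pi : ℝ) : ℂ) * Complex.I = -M.φ * Complex.I +
        -(Real.pi * Complex.I) by push_cast; ring, Complex.exp_add, Complex.exp_neg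
        (Real.pi * Complex.I), Complex.exp_pi_mul_I]
      norm_num
    rw [h2, mul_neg, ← neg_mul, neg_sub]
    exact (M.ordered_re i j h).le
  · rw [h, hd, Matrix.one_apply_eq]
  · rw [Matrix.one_apply_ne h.ne']
    exact h0 i j h.ne' (M.ordered_re j i h).le

private theorem adm (M : MonodromyData X t) (i j : Fin N) (hij : i ≠ j) :
    ((M.u i - M.u j) * Complex.exp (-((M.φ + Real.pi / 2 : ℝ) : ℂ) * Complex.I)).im ≠ 0 := by
  have h1 : Complex.exp (-((M.φ + Real.pi / 2 : ℝ) : ℂ) * Complex.I) =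
      -Complex.I * Complex.exp (-M.φ * Complex.I) := by
    rw [show -((M.φ + Real.pi / 2 : ℝ) : ℂ) * Complex.I = -(Real.pi / 2 * Complex.I) + -M.φ * Complex.I by
      push_cast; ring, Complex.exp_add, Complex.exp_neg, Complex.exp_pi_div_two_mul_I, Complex.inv_I]
  rw [h1, show (M.u i - M.u j) * (-Complex.I * Complex.exp (-M.φ * Complex.I)) =
    -(Complex.I * ((M.u i - M.u j) * Complex.exp (-M.φ * Complex.I))) by ring, Complex.neg_im, Complex.I_mul_im]
  rcases lt_or_gt_of_ne hij with h | h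
  · have := M.ordered_re i j h
    rw [sub_mul, Complex.sub_re] at this ⊢
    intro hc
    linarith
  · have := M.ordered_re j i h
    intro hc
    linarith

theorem final_bulk (ht : ∀ i, t i ≠ 0 → X.deg i = 1) (T : BulkGW X t) {A r : ℝ} (hA : 0 < A)
    (hr : 0 < r) (hB : BConv T.toEquivData t A r) {v : Fin N → ℂ} {V : ℝ}
    (hV : ∀ i, ‖v i‖ ≤ V) (hVA : V * A < 1) (M : MonodromyData X (t + v)) :
    ∃ U : Matrix (Fin N) (Fin N) ℤ, IsUnit U.det ∧
      IsExceptional X T.Td (fun j => ∑ i, U i j • T.ch i) ∧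
      M.S = gramMatrix X T.Td (fun j => ∑ i, U i j • T.ch i) ∧
      ConnectionFactors M (fun j => (twist X).mulVec (∑ i, U i j • T.ch i)) ∧
      ConnectionIsometric M T.Td (fun j => ∑ i, U i j • T.ch i) := by
  obtain ⟨Q, hQ⟩ := exists_Q T.toGammaGW
  obtain ⟨V', hV'⟩ : ∃ V' : ℝ, V' = max V 0 := ⟨_, rfl⟩
  have hV'0 : 0 ≤ V' := by rw [hV']; exact le_max_right _ _
  have hVV' : V ≤ V' := by rw [hV']; exact le_max_left _ _
  have ha0 : 0 ≤ V' * A := mul_nonneg hV'0 hA.le
  have ha1 : V' * A < 1 := by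
    rw [hV']
    rcases max_choice V 0 with h | h
    · rw [h]; exact hVA
    · rw [h, zero_mul]; exact zero_lt_one
  have hR1 : 1 < 2 / (1 + V' * A) := by
    rw [lt_div_iff₀ (by linarith)]
    linarith
  have hRV : 2 / (1 + V' * A) * V' * A < 1 := by
    rw [div_mul_eq_mul_div, div_mul_eq_mul_div, div_lt_one (by linarith)]
    nlinarith
  obtain ⟨𝓡, h𝓡Q, h𝓡R, h𝓡r, h𝓡C⟩ := exists_ray T ht hQ hA hr hB
    (fun i => (hV i).trans hVV') hR1 hRV (half_pos hr) (half_lt_self hr)
  have hQ' : IsQ T.toGammaGW 𝓡.Q := by rw [h𝓡Q]; exact hQ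
  have hone : ‖(1 : ℂ)‖ < 𝓡.R := by rw [norm_one]; exact 𝓡.hR
  obtain ⟨Q₁, hΛ₁, hθ₁, hC₁, hg₁, hS₁, hJ₁, hχ₁⟩ := 𝓡.exists_q hone
  have hC0 : Q₁.C 0 = eulerMat X (t + v) := by
    rw [hC₁]
    ext k b
    rw [euler_bulk T ht hA hr hB hV hVA M.converges k b]
    unfold Ray.Cv
    rw [h𝓡C]
    rfl
  have hg0 : Q₁.g 0 = X.pair := by
    rw [hg₁, hQ'.g]
    ext i j
    exact T.pair_zero i j
  have hθ : Matrix.diagonal Q₁.θ = theta X := by
    rw [hθ₁]
    unfold theta
    congr 1
    funext a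
    exact hQ'.θ a
  have hΛ : ∀ w : ℂ, (0 : ℂ) * Complex.exp w ∈ Q₁.Λ := fun w => by
    rw [hΛ₁, zero_mul]
    exact Metric.mem_ball_self 𝓡.hr
  obtain ⟨U, ε, hε, hlim⟩ := chain_bulk T.toGammaGW 𝓡 hQ' (u := M.u) (Ψ₀ := M.Ψ)
    (by rw [← hC₁, hC0]; exact M.eigen) (by rw [← hg₁, hg0]; exact M.normalised)
    (φ := M.φ + Real.pi / 2) (adm M)
  rw [← hJ₁] at hlim
  set W : Matrix (Fin N) (Fin N) ℂ := U.map (Int.castRingHom ℂ) with hW
  set Y : ℂ → Matrix (Fin N) (Fin N) ℂ := fun w => Q₁.J 0 w * W with hY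
  have hYs : IsSolution X (t + v) Y := by
    intro w i j
    have h1 : ∀ k, HasDerivAt (fun w => Q₁.J 0 w i k)
        (((theta X - Complex.exp (-w) • eulerMat X (t + v)) * Q₁.J 0 w) i k) w := by
      intro k
      have h2 := Q₁.J_ode 0 w (hΛ _) i k
      rw [zero_mul, hC0, hθ] at h2
      exact h2
    have h3 : HasDerivAt (fun w => ∑ k, Q₁.J 0 w i k * W k j)
        (∑ k, ((theta X - Complex.exp (-w) • eulerMat X (t + v)) * Q₁.J 0 w) i k * W k j) w :=
      HasDerivAt.fun_sum fun k _ => (h1 k).mul_const _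
    have h4 : (fun w => Y w i j) = fun w => ∑ k, Q₁.J 0 w i k * W k j := by
      funext w
      exact Matrix.mul_apply
    rw [h4]
    have h5 : ((theta X - Complex.exp (-w) • eulerMat X (t + v)) * Y w) i j =
        ∑ k, ((theta X - Complex.exp (-w) • eulerMat X (t + v)) * Q₁.J 0 w) i k * W k j := by
      rw [hY]
      show ((theta X - Complex.exp (-w) • eulerMat X (t + v)) * (Q₁.J 0 w * W)) i j = _
      rw [← Matrix.mul_assoc, Matrix.mul_apply]
    rw [h5]
    exact h3
  have hYa : HasAsymptotics M.u M.Ψ (M.φ - ε) (M.φ + Real.pi + ε) Y := by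
    intro φ' hφ'
    have h1 := hlim φ' ⟨by linarith [hφ'.1], by linarith [hφ'.2]⟩
    exact tendsto_pi_nhds.mpr fun i => tendsto_pi_nhds.mpr fun j => h1 i j
  have hYX : ∀ w, Y w = M.Xminus w := by
    intro w
    have h1 := pairing_one M Y hYs hε hYa w
    have h2 := M.pairing_plus_minus w
    rw [← Matrix.inv_eq_right_inv h1, Matrix.inv_eq_right_inv h2]
  have hJ : (Q₁.J 0 (0 + Real.pi * Complex.I)).transpose * X.pair * Q₁.J 0 0 = T.χ.map (evZ 0) := by
    have h1 := Q₁.J_pair 0 0 (hΛ _)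
    rw [neg_zero, zero_mul, hg0, hχ₁, hQ'.χ] at h1
    exact h1
  have hS : M.S = W.transpose * T.χ.map (evZ 0) * W := by
    rw [← M.pairing_minus_minus 0, ← hYX, ← hYX, ← hJ, hY]
    show (Q₁.J 0 (0 + Real.pi * Complex.I) * W).transpose * X.pair * (Q₁.J 0 0 * W) = _
    rw [Matrix.transpose_mul]
    simp only [Matrix.mul_assoc]
  have hgr : gramMatrix X T.Td T.ch = T.χ.map (evZ 0) := by
    ext i j
    exact T.hrr i j
  set v' : Fin N → Fin N → ℂ := fun j => ∑ i, U i j • T.ch i with hv'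
  have hcol : colMat v' = colMat T.ch * W := by
    ext a j
    rw [Matrix.mul_apply]
    show (∑ i, U i j • T.ch i) a = ∑ i, T.ch i a * W i j
    rw [Finset.sum_apply]
    refine Finset.sum_congr rfl fun i _ => ?_
    rw [Pi.smul_apply, zsmul_eq_mul, mul_comm]
    rfl
  have hSG : M.S = gramMatrix X T.Td v' := by
    rw [gramMatrix_eq, hcol, hS, ← hgr, gramMatrix_eq, Matrix.transpose_mul]
    simp only [Matrix.mul_assoc]
  have hexc : IsExceptional X T.Td v' := by
    refine ⟨fun i => ?_, fun i j hij => ?_⟩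
    · have h1 := M.S_entries.1 i
      rw [hSG] at h1
      exact h1
    · have h1 := M.S_entries.2 i j hij
      rw [hSG] at h1
      exact h1
  have hmain := (main M T.Td T.todd v' hexc).1
  refine ⟨U, ?_, hexc, hSG, (hmain.out 0 1).1 hSG, (hmain.out 0 2).1 hSG⟩
  have hdetS : M.S.det = 1 := by
    rw [Matrix.det_of_isUpperTriangular (fun i j hij => M.S_entries.2 i j hij)]
    simp [M.S_entries.1]
  obtain ⟨m, hm⟩ := evZ_zero_int T.χ.det
  have hdχ : (T.χ.map (evZ 0)).det = (m : ℂ) := by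
    rw [← hm, RingHom.map_det]
    rfl
  have hdW : W.det = (U.det : ℂ) := by
    rw [hW]
    have := RingHom.map_det (Int.castRingHom ℂ) U
    rw [RingHom.mapMatrix_apply] at this
    rw [← this]
    rfl
  rw [hS, Matrix.det_mul, Matrix.det_mul, Matrix.det_transpose, hdχ, hdW] at hdetS
  have h1 : U.det * (m * U.det) = 1 := by
    have : ((U.det * (m * U.det) : ℤ) : ℂ) = ((1 : ℤ) : ℂ) := by
      rw [Int.cast_mul, Int.cast_mul, ← mul_assoc, Int.cast_one]
      exact hdetS
    exact Int.cast_injective this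
  exact IsUnit.of_mul_eq_one _ h1

end Pool.Agent.DST
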