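import Pool.Agent.DST.NTor

/-!
# DST-GCau: Cauchy's inequality on a polydisc

Only Mathlib and `cauchy_torus` (NTor.lean).

PLAN. `P` is the set of exponents which are allowed (`c` is a family on all exponents, zero outside `P`). Fix `x` with all
`‖x i‖ ≤ 1` and put `p_n = ∑_{|m| = n} x^m c_m` (`Finset.finsuppAntidiag Finset.univ n`). For `‖s‖ ≤ R`:
`f(s x) = ∑_m c_m (s x)^m = ∑_n s^n p_n` absolutely convergent (fibres of `m ↦ ∑ i, m i`), of norm `≤ B`.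
Cauchy in one variable: `‖p_n‖ R^n ≤ B`. Proof with roots of unity, avoiding analyticity: for `q > n` let `ζ` be a primitive
`q`-th root of unity; `1/q ∑_{k<q} ζ^{-kn} f(ζ^k R x) = ∑_{n' ≡ n mod q} R^{n'} p_{n'}`, of norm `≤ B`, and this tends to
`R^n p_n` as `q → ∞` by absolute convergence (the difference is at most the tail `∑_{n' ≥ q} R^{n'} ‖p_{n'}‖`). Or: the function
`s ↦ ∑' n, s^n p_n` is continuous on the closed disc and holomorphic inside, with the `p_n` as Taylor coefficients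
(`HasFPowerSeriesOnBall`, `Complex.norm_iteratedDeriv_le_of_forall_mem_sphere_norm_le` for all radii `< R`, then
`R' → R`; `‖p_n‖ R'^n ≤ B` for all `R' < R`). Then `cauchy_torus` (for the coefficients `c m`, bound `B / R^n`).
-/

open scoped BigOperators Topology
open Filter

namespace Pool.Agent.DST

private lemma gcau_geom {q : ℕ} {ζ : ℂ} (hζ : IsPrimitiveRoot ζ q) {a b : ℕ} (ha : a < q)
    (hb : b < q) :
    ∑ t : Fin q, (ζ⁻¹ ^ a) ^ (t : ℕ) * (ζ ^ (t : ℕ)) ^ b = if a = b then (q : ℂ) else 0 := by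
  have hq : q ≠ 0 := by omega
  have hζ0 : ζ ≠ 0 := hζ.ne_zero hq
  have e : ∀ t : Fin q, (ζ⁻¹ ^ a) ^ (t : ℕ) * (ζ ^ (t : ℕ)) ^ b = (ζ⁻¹ ^ a * ζ ^ b) ^ (t : ℕ) := by
    intro t
    rw [mul_pow, ← pow_mul ζ, mul_comm (t : ℕ) b, pow_mul]
  rw [Finset.sum_congr rfl fun t _ => e t, Fin.sum_univ_eq_sum_range (fun t => (ζ⁻¹ ^ a * ζ ^ b) ^ t) q]
  split_ifs with hab
  · subst hab
    rw [← mul_pow, inv_mul_cancel₀ hζ0, one_pow]
    simp
  · have hne : ζ⁻¹ ^ a * ζ ^ b ≠ 1 := by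
      intro h
      apply hab
      have h2 : ζ ^ a = ζ ^ b := by
        rw [inv_pow] at h
        field_simp at h
        exact h.symm
      exact hζ.pow_inj ha hb h2
    have h1 : (ζ⁻¹ ^ a * ζ ^ b) ^ q = 1 := by
      rw [mul_pow, ← pow_mul, ← pow_mul, mul_comm a q, mul_comm b q, pow_mul, pow_mul, inv_pow,
        hζ.pow_eq_one]
      simp
    have h3 := geom_sum_eq hne q
    rw [h3, h1, sub_self, zero_div]

private noncomputable def gcauW {N : ℕ} (m : Fin N →₀ ℕ) (q : ℕ) (a : Fin N → Fin q) : ℂ :=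
  ∏ i, ((Complex.exp (2 * Real.pi * Complex.I / q))⁻¹ ^ m i) ^ (a i : ℕ)

private lemma gcau_norm_W {N : ℕ} (m : Fin N →₀ ℕ) {q : ℕ} (hq : q ≠ 0) (a : Fin N → Fin q) :
    ‖gcauW m q a‖ = 1 := by
  have hζ : IsPrimitiveRoot (Complex.exp (2 * Real.pi * Complex.I / q)) q :=
    Complex.isPrimitiveRoot_exp q hq
  have hn := hζ.norm'_eq_one hq
  simp [gcauW, norm_prod, norm_pow, norm_inv, hn]

theorem cauchy_polydisc {N : ℕ} (c : (Fin N →₀ ℕ) → ℂ) {R B : ℝ} (hR : 0 < R)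
    (hs : ∀ x : Fin N → ℂ, (∀ i, ‖x i‖ ≤ R) → Summable fun m => c m * ∏ i, x i ^ m i)
    (hB : ∀ x : Fin N → ℂ, (∀ i, ‖x i‖ ≤ R) → ‖∑' m, c m * ∏ i, x i ^ m i‖ ≤ B)
    (m : Fin N →₀ ℕ) : ‖c m‖ * R ^ (∑ i, m i) ≤ B := by
  classical
  -- the points of evaluation
  set z : ∀ q : ℕ, (Fin N → Fin q) → Fin N → ℂ := fun q a i =>
    (R : ℂ) * Complex.exp (2 * Real.pi * Complex.I / q) ^ (a i : ℕ) with hz
  have hzn : ∀ q : ℕ, q ≠ 0 → ∀ a i, ‖z q a i‖ = R := by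
    intro q hq a i
    have hζ : IsPrimitiveRoot (Complex.exp (2 * Real.pi * Complex.I / q)) q :=
      Complex.isPrimitiveRoot_exp q hq
    have hn := hζ.norm'_eq_one hq
    simp only [hz, norm_mul, norm_pow, hn, one_pow, mul_one, Complex.norm_real, Real.norm_eq_abs,
      abs_of_pos hR]
  -- the averaged coefficients
  set G : ℕ → (Fin N →₀ ℕ) → ℂ := fun k m' =>
    ((((k + 1 : ℕ) : ℂ)) ^ N)⁻¹ * ∑ a : Fin N → Fin (k + 1), gcauW m (k + 1) a *
      (c m' * ∏ i, z (k + 1) a i ^ m' i) with hG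
  have hbound : Summable fun m' : Fin N →₀ ℕ => ‖c m'‖ * R ^ (∑ i, m' i) := by
    have h := (hs (fun _ => (R : ℂ)) (fun i => by simp [abs_of_pos hR])).norm
    refine h.congr fun m' => ?_
    rw [norm_mul, norm_prod]
    simp only [norm_pow, Complex.norm_real, Real.norm_eq_abs, abs_of_pos hR]
    rw [Finset.prod_pow_eq_pow_sum]
  have hqN : ∀ k : ℕ, ‖((((k + 1 : ℕ) : ℂ)) ^ N)⁻¹‖ * (((k + 1 : ℕ) : ℝ) ^ N) = 1 := by
    intro k
    rw [norm_inv, norm_pow, Complex.norm_natCast]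
    have : (((k + 1 : ℕ) : ℝ) ^ N) ≠ 0 := by positivity
    field_simp
  have hGle : ∀ k m', ‖G k m'‖ ≤ ‖c m'‖ * R ^ (∑ i, m' i) := by
    intro k m'
    have h1 : ‖∑ a : Fin N → Fin (k + 1), gcauW m (k + 1) a *
        (c m' * ∏ i, z (k + 1) a i ^ m' i)‖ ≤
        (((k + 1 : ℕ) : ℝ) ^ N) * (‖c m'‖ * R ^ (∑ i, m' i)) := by
      refine (norm_sum_le _ _).trans ?_
      have h2 : ∀ a : Fin N → Fin (k + 1), ‖gcauW m (k + 1) a *
          (c m' * ∏ i, z (k + 1) a i ^ m' i)‖ = ‖c m'‖ * R ^ (∑ i, m' i) := by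
        intro a
        rw [norm_mul, gcau_norm_W m (Nat.succ_ne_zero k), one_mul, norm_mul, norm_prod]
        simp only [norm_pow, hzn (k + 1) (Nat.succ_ne_zero k)]
        rw [Finset.prod_pow_eq_pow_sum]
      rw [Finset.sum_congr rfl fun a _ => h2 a, Finset.sum_const, Finset.card_univ]
      simp
    calc ‖G k m'‖ = ‖((((k + 1 : ℕ) : ℂ)) ^ N)⁻¹‖ * ‖∑ a : Fin N → Fin (k + 1),
          gcauW m (k + 1) a * (c m' * ∏ i, z (k + 1) a i ^ m' i)‖ := by
            rw [hG]; exact norm_mul _ _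
      _ ≤ ‖((((k + 1 : ℕ) : ℂ)) ^ N)⁻¹‖ *
          ((((k + 1 : ℕ) : ℝ) ^ N) * (‖c m'‖ * R ^ (∑ i, m' i))) := by gcongr
      _ = ‖c m'‖ * R ^ (∑ i, m' i) := by rw [← mul_assoc, hqN k, one_mul]
  have hGlim : ∀ m', Tendsto (fun k => G k m') atTop
      (𝓝 (if m' = m then c m * (R : ℂ) ^ (∑ i, m i) else 0)) := by
    intro m'
    refine tendsto_const_nhds.congr' ?_
    have hev : ∀ᶠ k : ℕ in atTop, ∀ i, m i < k + 1 ∧ m' i < k + 1 := by
      rw [Filter.eventually_all]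
      intro i
      filter_upwards [Filter.eventually_ge_atTop (m i + m' i)] with k hk
      omega
    filter_upwards [hev] with k hk
    have hq : k + 1 ≠ 0 := Nat.succ_ne_zero k
    have hζ : IsPrimitiveRoot (Complex.exp (2 * Real.pi * Complex.I / ((k + 1 : ℕ) : ℂ))) (k + 1) :=
      Complex.isPrimitiveRoot_exp (k + 1) hq
    set ζ : ℂ := Complex.exp (2 * Real.pi * Complex.I / ((k + 1 : ℕ) : ℂ)) with hζdef
    have e1 : ∀ a : Fin N → Fin (k + 1), gcauW m (k + 1) a * (c m' * ∏ i, z (k + 1) a i ^ m' i)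
        = (c m' * (R : ℂ) ^ (∑ i, m' i)) * ∏ i, ((ζ⁻¹ ^ m i) ^ (a i : ℕ) *
          (ζ ^ (a i : ℕ)) ^ m' i) := by
      intro a
      have e2 : ∏ i, z (k + 1) a i ^ m' i
          = (R : ℂ) ^ (∑ i, m' i) * ∏ i, (ζ ^ (a i : ℕ)) ^ m' i := by
        rw [← Finset.prod_pow_eq_pow_sum, ← Finset.prod_mul_distrib]
        refine Finset.prod_congr rfl fun i _ => ?_
        rw [← mul_pow]
      rw [e2, Finset.prod_mul_distrib]
      have e3 : gcauW m (k + 1) a = ∏ i, (ζ⁻¹ ^ m i) ^ (a i : ℕ) := rfl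
      rw [e3]
      ring
    have e4 : ∑ a : Fin N → Fin (k + 1), ∏ i, ((ζ⁻¹ ^ m i) ^ (a i : ℕ) * (ζ ^ (a i : ℕ)) ^ m' i)
        = ∏ i, ∑ t : Fin (k + 1), (ζ⁻¹ ^ m i) ^ (t : ℕ) * (ζ ^ (t : ℕ)) ^ m' i := by
      rw [Finset.prod_univ_sum]
      simp [Fintype.piFinset_univ]
    have e5 : ∏ i, ∑ t : Fin (k + 1), (ζ⁻¹ ^ m i) ^ (t : ℕ) * (ζ ^ (t : ℕ)) ^ m' i
        = if m' = m then (((k + 1 : ℕ) : ℂ)) ^ N else 0 := by
      rw [Finset.prod_congr rfl fun i _ => gcau_geom hζ (hk i).1 (hk i).2]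
      split_ifs with h
      · subst h
        simp
      · obtain ⟨i, hi⟩ : ∃ i, m i ≠ m' i := by
          by_contra hcon
          push Not at hcon
          exact h (Finsupp.ext fun i => (hcon i).symm)
        exact Finset.prod_eq_zero (Finset.mem_univ i) (if_neg hi)
    have e6 : G k m' = ((((k + 1 : ℕ) : ℂ)) ^ N)⁻¹ * ((c m' * (R : ℂ) ^ (∑ i, m' i)) *
        (if m' = m then (((k + 1 : ℕ) : ℂ)) ^ N else 0)) := by
      rw [hG]
      simp only
      rw [Finset.sum_congr rfl fun a _ => e1 a, ← Finset.mul_sum, e4, e5]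
    rw [e6]
    split_ifs with h
    · subst h
      have : ((((k + 1 : ℕ) : ℂ)) ^ N) ≠ 0 := by
        apply pow_ne_zero
        exact_mod_cast hq
      field_simp
    · simp
  have hlim := tendsto_tsum_of_dominated_convergence hbound hGlim
    (Filter.Eventually.of_forall fun k m' => hGle k m')
  rw [tsum_ite_eq] at hlim
  -- the norm of the averages
  have hGB : ∀ k, ‖∑' m', G k m'‖ ≤ B := by
    intro k
    have hsk : ∀ a : Fin N → Fin (k + 1), Summable fun m' : Fin N →₀ ℕ =>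
        gcauW m (k + 1) a * (c m' * ∏ i, z (k + 1) a i ^ m' i) := fun a =>
      (hs _ fun i => (hzn (k + 1) (Nat.succ_ne_zero k) a i).le).mul_left _
    have h1 : ∑' m', G k m' = ((((k + 1 : ℕ) : ℂ)) ^ N)⁻¹ * ∑ a : Fin N → Fin (k + 1),
        gcauW m (k + 1) a * ∑' m', (c m' * ∏ i, z (k + 1) a i ^ m' i) := by
      rw [hG]
      simp only
      rw [tsum_mul_left, Summable.tsum_finsetSum fun a _ => hsk a]
      congr 1
      exact Finset.sum_congr rfl fun a _ => tsum_mul_left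
    rw [h1, norm_mul]
    have h2 : ‖∑ a : Fin N → Fin (k + 1), gcauW m (k + 1) a *
        ∑' m', (c m' * ∏ i, z (k + 1) a i ^ m' i)‖ ≤ (((k + 1 : ℕ) : ℝ) ^ N) * B := by
      refine (norm_sum_le _ _).trans ?_
      have h3 : ∀ a ∈ (Finset.univ : Finset (Fin N → Fin (k + 1))), ‖gcauW m (k + 1) a *
          ∑' m', (c m' * ∏ i, z (k + 1) a i ^ m' i)‖ ≤ B := by
        intro a _
        rw [norm_mul, gcau_norm_W m (Nat.succ_ne_zero k), one_mul]
        exact hB _ fun i => (hzn (k + 1) (Nat.succ_ne_zero k) a i).le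
      refine (Finset.sum_le_sum h3).trans ?_
      rw [Finset.sum_const, Finset.card_univ]
      simp
    calc ‖((((k + 1 : ℕ) : ℂ)) ^ N)⁻¹‖ * ‖∑ a : Fin N → Fin (k + 1), gcauW m (k + 1) a *
        ∑' m', (c m' * ∏ i, z (k + 1) a i ^ m' i)‖
        ≤ ‖((((k + 1 : ℕ) : ℂ)) ^ N)⁻¹‖ * ((((k + 1 : ℕ) : ℝ) ^ N) * B) := by gcongr
      _ = B := by rw [← mul_assoc, hqN k, one_mul]
  have hfin := le_of_tendsto hlim.norm (Filter.Eventually.of_forall hGB)
  rw [norm_mul, norm_pow, Complex.norm_real, Real.norm_eq_abs, abs_of_pos hR] at hfin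
  exact hfin

end Pool.Agent.DST
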