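import Pool.Agent.DST.GTay
import Pool.Agent.DST.GCau
import Pool.Agent.DST.NMain

/-!
# DST-GConv: big quantum cohomology converges on a neighbourhood of every bounded part of `H^2(X)`

At `λ = 0` the bounds of `bulk_converges_unif` on a compact polydisc of `H^2(X)` and Cauchy's
inequality in the directions of degree one bound the coefficients of the non-equivariant series.
-/

open scoped BigOperators Topology
open Filter

namespace Pool.Agent.DST

open Pool.Agent.Helper18.Dub Pool.Agent.Helper7.DubStokes Pool.Agent.SHF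

variable {N : ℕ} {X : FanoGW (Fin N)} {t : Fin N → ℂ}

private theorem gcv_geom' {q : ℝ} (h0 : 0 ≤ q) (h1 : q < 1) (N : ℕ) :
    Summable fun m : Fin N → ℕ => ∏ i, q ^ m i := by
  induction N with
  | zero => exact (hasSum_unique _).summable
  | succ N ih =>
    have h2 : Summable fun n : ℕ => q ^ n := summable_geometric_of_lt_one h0 h1
    have h3 : Summable fun p : ℕ × (Fin N → ℕ) => q ^ p.1 * ∏ i, q ^ p.2 i :=
      h2.mul_of_nonneg ih (fun n => pow_nonneg h0 n)
        (fun m => Finset.prod_nonneg fun i _ => pow_nonneg h0 _)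
    refine ((Fin.consEquiv (fun _ : Fin (N + 1) => ℕ)).summable_iff
      (f := fun m : Fin (N + 1) → ℕ => ∏ i, q ^ m i)).1 ?_
    refine h3.congr fun p => ?_
    simp only [Function.comp_apply, Fin.prod_univ_succ, Fin.consEquiv_apply, Fin.cons_zero,
      Fin.cons_succ]

private theorem gcv_geom {q : ℝ} (h0 : 0 ≤ q) (h1 : q < 1) :
    Summable fun m : Fin N →₀ ℕ => q ^ (∑ i, m i) := by
  have h2 := (Finsupp.equivFunOnFinite (α := Fin N) (M := ℕ)).summable_iff.2 (gcv_geom' h0 h1 N)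
  refine h2.congr fun m => ?_
  show ∏ i, q ^ m i = _
  rw [Finset.prod_pow_eq_pow_sum]

private theorem gcv_ser (T : EquivGW X) (t : Fin N → ℂ) (a b l : Fin N) :
    serAt T.toEquivData t {a, b, l} =
      ∑ k, MvPowerSeries.C (T.pairT l k) * mulAt T.toEquivData t a k b := by
  have h1 : ∀ k, mulAt T.toEquivData t a k b =
      ∑ l', MvPowerSeries.C (T.pairT⁻¹ k l') * serAt T.toEquivData t {a, b, l'} := fun k => rfl
  have h2 : ∑ k, MvPowerSeries.C (T.pairT l k) * mulAt T.toEquivData t a k b =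
      ∑ l', (∑ k, MvPowerSeries.C (T.pairT l k * T.pairT⁻¹ k l')) *
        serAt T.toEquivData t {a, b, l'} := by
    simp_rw [h1, Finset.mul_sum]
    rw [Finset.sum_comm]
    refine Finset.sum_congr rfl fun l' _ => ?_
    rw [Finset.sum_mul]
    refine Finset.sum_congr rfl fun k _ => ?_
    rw [map_mul, mul_assoc]
  rw [h2, Finset.sum_eq_single l]
  · have h3 : (T.pairT * T.pairT⁻¹) l l = 1 := by
      rw [Matrix.mul_nonsing_inv _ T.pair_nondeg, Matrix.one_apply_eq]
    rw [Matrix.mul_apply] at h3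
    rw [← map_sum, h3, map_one, one_mul]
  · intro l' _ hl
    have h3 : (T.pairT * T.pairT⁻¹) l l' = 0 := by
      rw [Matrix.mul_nonsing_inv _ T.pair_nondeg, Matrix.one_apply_ne hl.symm]
    rw [Matrix.mul_apply] at h3
    rw [← map_sum, h3, map_zero, zero_mul]
  · intro h
    exact absurd (Finset.mem_univ l) h

private theorem gcv_bd (T : EquivGW X) {t' : Fin N → ℂ} {A B r : ℝ}
    (hB : ∀ a i j m k, ‖(MvPowerSeries.coeff m (mulAt T.toEquivData t' a i j)).coeff k‖ * r ^ k ≤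
      B * A ^ (∑ i, m i)) (a b l : Fin N) (m : Fin N →₀ ℕ) :
    ‖(MvPowerSeries.coeff m (serAt T.toEquivData t' {a, b, l})).eval 0‖ ≤
      (∑ k, ‖(T.pairT l k).eval 0‖ * B) * A ^ (∑ i, m i) := by
  rw [gcv_ser T t' a b l, map_sum, Polynomial.eval_finsetSum, Finset.sum_mul]
  refine (norm_sum_le _ _).trans (Finset.sum_le_sum fun k _ => ?_)
  rw [MvPowerSeries.coeff_C_mul, Polynomial.eval_mul, norm_mul, mul_assoc]
  refine mul_le_mul_of_nonneg_left ?_ (norm_nonneg _)
  have h4 := hB a k b m 0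
  rw [pow_zero, mul_one] at h4
  rw [← Polynomial.coeff_zero_eq_eval_zero]
  exact h4

/-- the coefficients of the non-equivariant series -/
private theorem gcv_coef (T : EquivGW X) (h0 : ∀ i, X.period X.zero i = 0) {R' D : ℝ}
    (hR' : 0 < R') {s : Multiset (Fin N)} (hs : 3 ≤ Multiset.card s)
    (a : {m : Fin N →₀ ℕ // ∀ i, m i ≠ 0 → X.deg i ≠ 1})
    (hD : ∀ t' : Fin N → ℂ, (∀ i, ‖t' i‖ ≤ R') → (∀ i, t' i ≠ 0 → X.deg i = 1) →
      ‖(MvPowerSeries.coeff a.1 (serAt T.toEquivData t' s)).eval 0‖ ≤ D)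
    (b : Fin N →₀ ℕ) (hb : ∀ i, b i ≠ 0 → X.deg i = 1) :
    ‖MvPowerSeries.coeff (a.1 + b) (X.ser s)‖ * R' ^ (∑ i, b i) ≤ D := by
  classical
  obtain ⟨c, hc⟩ : ∃ c : (Fin N →₀ ℕ) → ℂ, ∀ b, c b = if (∀ i, b i ≠ 0 → X.deg i = 1) then
    MvPowerSeries.coeff (a.1 + b) (X.ser s) else 0 := ⟨_, fun _ => rfl⟩
  have key : ∀ x : Fin N → ℂ, (∀ i, ‖x i‖ ≤ R') → ∃ v : ℂ, ‖v‖ ≤ D ∧
      HasSum (fun m => c m * ∏ i, x i ^ m i) v := by
    intro x hx
    obtain ⟨t', ht'⟩ : ∃ t' : Fin N → ℂ, ∀ i, t' i = if X.deg i = 1 then x i else 0 :=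
      ⟨_, fun _ => rfl⟩
    have h1 : ∀ i, ‖t' i‖ ≤ R' := by
      intro i
      rw [ht' i]
      split_ifs
      · exact hx i
      · rw [norm_zero]
        exact hR'.le
    have h2 : ∀ i, t' i ≠ 0 → X.deg i = 1 := by
      intro i hi
      by_contra h
      apply hi
      rw [ht' i, if_neg h]
    refine ⟨_, hD t' h1 h2, ?_⟩
    have h3 := h2_taylor T h0 h2 hs a
    have h4 : Function.support (fun m : Fin N →₀ ℕ => c m * ∏ i, x i ^ m i) ⊆
        {m : Fin N →₀ ℕ | ∀ i, m i ≠ 0 → X.deg i = 1} := by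
      intro m hm
      by_contra h
      rw [Function.mem_support] at hm
      apply hm
      have h5 : ¬ ∀ i, m i ≠ 0 → X.deg i = 1 := h
      rw [hc m, if_neg h5, zero_mul]
    rw [← hasSum_subtype_iff_of_support_subset h4]
    have h6 : ((fun m : Fin N →₀ ℕ => c m * ∏ i, x i ^ m i) ∘
        (Subtype.val : {m : Fin N →₀ ℕ // ∀ i, m i ≠ 0 → X.deg i = 1} → (Fin N →₀ ℕ))) =
        fun b : {m : Fin N →₀ ℕ // ∀ i, m i ≠ 0 → X.deg i = 1} =>
      MvPowerSeries.coeff (a.1 + b.1) (X.ser s) * ∏ i, t' i ^ b.1 i := by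
      funext b
      show c b.1 * ∏ i, x i ^ b.1 i = _
      rw [hc b.1, if_pos b.2]
      congr 1
      refine Finset.prod_congr rfl fun i _ => ?_
      rw [ht' i]
      by_cases h : X.deg i = 1
      · rw [if_pos h]
      · have h7 : b.1 i = 0 := by
          by_contra h8
          exact h (b.2 i h8)
        rw [h7, pow_zero, pow_zero]
    have h8 : HasSum ((fun m : Fin N →₀ ℕ => c m * ∏ i, x i ^ m i) ∘
        (Subtype.val : {m : Fin N →₀ ℕ // ∀ i, m i ≠ 0 → X.deg i = 1} → (Fin N →₀ ℕ)))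
        ((MvPowerSeries.coeff a.1 (serAt T.toEquivData t' s)).eval 0) := by
      rw [h6]
      exact h3
    exact h8
  have h1 := cauchy_polydisc c hR' (fun x hx => by
    obtain ⟨v, _, hv⟩ := key x hx
    exact hv.summable) (B := D) (fun x hx => by
    obtain ⟨v, hv1, hv⟩ := key x hx
    rw [hv.tsum_eq]
    exact hv1) b
  rw [hc b, if_pos hb] at h1
  exact h1

theorem converges_strip (T : BulkGW X t) (R : ℝ) : ∃ ρ : ℝ, 0 < ρ ∧ ∀ p : Fin N → ℂ,
    (∀ i, X.deg i = 1 → ‖p i‖ < R) → (∀ i, X.deg i ≠ 1 → ‖p i‖ < ρ) → ConvergesAt X p := by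
  classical
  obtain ⟨R₁, hR₁⟩ : ∃ R₁ : ℝ, R₁ = max R 0 := ⟨_, rfl⟩
  have hR₁0 : 0 ≤ R₁ := by
    rw [hR₁]
    exact le_max_right _ _
  have hR'0 : 0 < R₁ + 1 := by linarith
  obtain ⟨K, hKdef⟩ : ∃ K : Set (Fin N → ℂ), K = Set.pi Set.univ (fun i =>
    if X.deg i = 1 then Metric.closedBall (0 : ℂ) (R₁ + 1) else {0}) := ⟨_, rfl⟩
  have hK : IsCompact K := by
    rw [hKdef]
    refine isCompact_univ_pi fun i => ?_
    split_ifs
    · exact isCompact_closedBall _ _
    · exact isCompact_singleton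
  have hKmem : ∀ t' : Fin N → ℂ, (∀ i, ‖t' i‖ ≤ R₁ + 1) → (∀ i, t' i ≠ 0 → X.deg i = 1) →
      t' ∈ K := by
    intro t' h1 h2
    rw [hKdef, Set.mem_univ_pi]
    intro i
    by_cases h : X.deg i = 1
    · rw [if_pos h, mem_closedBall_zero_iff]
      exact h1 i
    · rw [if_neg h, Set.mem_singleton_iff]
      by_contra h3
      exact h (h2 i h3)
  have hKd : ∀ t' ∈ K, ∀ i, t' i ≠ 0 → X.deg i = 1 := by
    intro t' ht' i hi
    rw [hKdef, Set.mem_univ_pi] at ht'
    by_contra h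
    have h1 := ht' i
    rw [if_neg h, Set.mem_singleton_iff] at h1
    exact hi h1
  obtain ⟨A, r, hA, hr, B, hB⟩ := bulk_converges_unif T hK hKd
  refine ⟨1 / (2 * A), by positivity, fun p hp1 hp2 x y z => ?_⟩
  obtain ⟨B', hB'⟩ : ∃ B' : ℝ, B' = ∑ k, ‖(T.pairT z k).eval 0‖ * B := ⟨_, rfl⟩
  have hs : 3 ≤ Multiset.card ({x, y, z} : Multiset (Fin N)) := by simp
  have hbd : ∀ (a : {m : Fin N →₀ ℕ // ∀ i, m i ≠ 0 → X.deg i ≠ 1}) (b : Fin N →₀ ℕ),
      (∀ i, b i ≠ 0 → X.deg i = 1) →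
      ‖MvPowerSeries.coeff (a.1 + b) (X.ser {x, y, z})‖ * (R₁ + 1) ^ (∑ i, b i) ≤
        B' * A ^ (∑ i, a.1 i) := by
    intro a b hb
    refine gcv_coef T.toEquivGW T.period_zero hR'0 hs a (fun t' h1 h2 => ?_) b hb
    rw [hB']
    exact gcv_bd T.toEquivGW (hB t' (hKmem t' h1 h2)) x y z a.1
  obtain ⟨q, hq⟩ : ∃ q : ℝ, q = max (1 / 2) (R₁ / (R₁ + 1)) := ⟨_, rfl⟩
  have hq0 : 0 ≤ q := by
    rw [hq]
    exact le_max_of_le_left (by norm_num)
  have hq1 : q < 1 := by
    rw [hq]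
    refine max_lt (by norm_num) ?_
    rw [div_lt_one hR'0]
    linarith
  have hmain : ∀ m : Fin N →₀ ℕ, ‖term X p {x, y, z} m‖ ≤ B' * q ^ (∑ i, m i) := by
    intro m
    obtain ⟨a, ha⟩ : ∃ a : Fin N →₀ ℕ, a = m.filter fun i => X.deg i ≠ 1 := ⟨_, rfl⟩
    obtain ⟨b, hb⟩ : ∃ b : Fin N →₀ ℕ, b = m.filter fun i => X.deg i = 1 := ⟨_, rfl⟩
    have ham : ∀ i, a i ≠ 0 → X.deg i ≠ 1 := by
      intro i hi h
      apply hi
      rw [ha, Finsupp.filter_apply, if_neg (not_not.2 h)]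
    have hbm : ∀ i, b i ≠ 0 → X.deg i = 1 := by
      intro i hi
      by_contra h
      apply hi
      rw [hb, Finsupp.filter_apply, if_neg h]
    have hab : m = a + b := by
      ext i
      rw [Finsupp.add_apply, ha, hb, Finsupp.filter_apply, Finsupp.filter_apply]
      by_cases h : X.deg i = 1
      · rw [if_pos h, if_neg (not_not.2 h), zero_add]
      · rw [if_neg h, if_pos h, add_zero]
    have h1 := hbd ⟨a, ham⟩ b hbm
    have h2 : ‖∏ i, p i ^ (a + b) i‖ ≤ (1 / (2 * A)) ^ (∑ i, a i) * R₁ ^ (∑ i, b i) := by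
      rw [norm_prod, ← Finset.prod_pow_eq_pow_sum, ← Finset.prod_pow_eq_pow_sum,
        ← Finset.prod_mul_distrib]
      refine Finset.prod_le_prod (fun i _ => norm_nonneg _) fun i _ => ?_
      rw [norm_pow, Finsupp.add_apply, pow_add]
      by_cases h : X.deg i = 1
      · have h3 : a i = 0 := by
          by_contra h4
          exact ham i h4 h
        rw [h3, pow_zero, pow_zero]
        refine mul_le_mul_of_nonneg_left (pow_le_pow_left₀ (norm_nonneg _) ?_ _) zero_le_one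
        rw [hR₁]
        exact (hp1 i h).le.trans (le_max_left _ _)
      · have h3 : b i = 0 := by
          by_contra h4
          exact h (hbm i h4)
        rw [h3, pow_zero, pow_zero]
        exact mul_le_mul_of_nonneg_right (pow_le_pow_left₀ (norm_nonneg _) (hp2 i h).le _)
          zero_le_one
    have hsum : ∑ i, m i = ∑ i, a i + ∑ i, b i := by
      rw [hab, ← Finset.sum_add_distrib]
      exact Finset.sum_congr rfl fun i _ => Finsupp.add_apply _ _ _
    have hpos : 0 < (R₁ + 1) ^ (∑ i, b i) := pow_pos hR'0 _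
    have hB0 : 0 ≤ B' * A ^ (∑ i, a i) := le_trans (by positivity) h1
    have hBp : 0 ≤ B' := by
      have : 0 < A ^ (∑ i, a i) := pow_pos hA _
      exact nonneg_of_mul_nonneg_left hB0 this
    have h3 : ‖MvPowerSeries.coeff (a + b) (X.ser {x, y, z})‖ ≤
        B' * A ^ (∑ i, a i) / (R₁ + 1) ^ (∑ i, b i) := by
      rw [le_div_iff₀ hpos]
      exact h1
    have h4 : term X p {x, y, z} m =
        MvPowerSeries.coeff (a + b) (X.ser {x, y, z}) * ∏ i, p i ^ (a + b) i := by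
      rw [← hab]
      rfl
    rw [h4, norm_mul, hsum]
    calc ‖MvPowerSeries.coeff (a + b) (X.ser {x, y, z})‖ * ‖∏ i, p i ^ (a + b) i‖
        ≤ (B' * A ^ (∑ i, a i) / (R₁ + 1) ^ (∑ i, b i)) *
          ((1 / (2 * A)) ^ (∑ i, a i) * R₁ ^ (∑ i, b i)) :=
          mul_le_mul h3 h2 (norm_nonneg _) (div_nonneg hB0 hpos.le)
      _ = B' * ((1 / 2) ^ (∑ i, a i) * (R₁ / (R₁ + 1)) ^ (∑ i, b i)) := by
          rw [div_pow R₁]
          have h5 : A ^ (∑ i, a i) * (1 / (2 * A)) ^ (∑ i, a i) = (1 / 2) ^ (∑ i, a i) := by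
            rw [← mul_pow]
            congr 1
            field_simp
          rw [← h5]
          ring
      _ ≤ B' * q ^ (∑ i, a i + ∑ i, b i) := by
          refine mul_le_mul_of_nonneg_left ?_ hBp
          rw [pow_add]
          refine mul_le_mul (pow_le_pow_left₀ (by norm_num) ?_ _)
            (pow_le_pow_left₀ (div_nonneg hR₁0 hR'0.le) ?_ _)
            (pow_nonneg (div_nonneg hR₁0 hR'0.le) _) (pow_nonneg hq0 _)
          · rw [hq]
            exact le_max_left _ _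
          · rw [hq]
            exact le_max_right _ _
  exact Summable.of_norm_bounded ((gcv_geom hq0 hq1).mul_left B') hmain

end Pool.Agent.DST
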