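import Pool.Agent.DST.GTw
import Pool.Agent.DST.VEul

/-!
# DST-GRes: the theory at `t + v` is the weighted theory at `v`

PLAN. `tsum_tw`: this is the argument of `veul_evs_ser` in `VEul.lean` (copy the private lemmas `veulSplit`,
`veul_tsum_split`, `veul_term`, `veul_g`, `veulR` with new names): both sums are split as `∑' a ∑' b`, `a` off degree one,
`b` in degree one, and for fixed `a` both inner sums are `veulR X t v s a`; for the right side
`term (twX T ht) v s m = (∏ v i ^ m i) * (coeff m (serAt T t s)).eval 0` by `ser_tw` (GTw.lean).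
`euler_tw`: `eulerMat X (t + v) k b = ∑_a (chern a + (1 - deg a) (t a + v a)) ∑_l pair⁻¹ k l ∑' m, term X (t+v) {a,b,l} m`, and
`(1 - deg a) t a = 0`; the data of `twX T ht` are those of `X` by definition (`rfl`).
-/

open scoped BigOperators Topology
open Filter

namespace Pool.Agent.DST

open Pool.Agent.Helper18.Dub Pool.Agent.Helper7.DubStokes Pool.Agent.SHF

variable {N : ℕ} {X : FanoGW (Fin N)} {t : Fin N → ℂ}

/-! ### the axioms at `λ = 0` -/

private theorem gres_inv_add (X : FanoGW (Fin N)) (h0 : ∀ i, X.period X.zero i = 0) (β : X.Curve)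
    {s : Multiset (Fin N)} (hs : 3 ≤ Multiset.card s) (M : Multiset (Fin N))
    (hM : ∀ i ∈ M, X.deg i = 1) :
    X.inv β (s + M) = (M.map (X.period β)).prod * X.inv β s := by
  by_cases hβ : β = X.zero
  · subst hβ
    rcases Multiset.empty_or_exists_mem M with h | ⟨a, ha⟩
    · subst h
      simp
    · have h1 : 4 ≤ Multiset.card (s + M) := by
        have : 0 < Multiset.card M := Multiset.card_pos_iff_exists_mem.2 ⟨a, ha⟩
        rw [Multiset.card_add]
        omega
      rw [X.degree_zero _ h1]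
      have h2 : (M.map (X.period X.zero)).prod = 0 := by
        rw [Multiset.prod_eq_zero_iff]
        exact Multiset.mem_map.2 ⟨a, ha, h0 a⟩
      rw [h2, zero_mul]
  · induction M using Multiset.induction_on with
    | empty => simp
    | cons a M ih =>
      have h1 : s + a ::ₘ M = a ::ₘ (s + M) := Multiset.add_cons a s M
      have h2 : 3 ≤ Multiset.card (s + M) := by
        rw [Multiset.card_add]
        omega
      rw [h1, X.divisor β (s + M) a hβ h2 (hM a (Multiset.mem_cons_self a M)),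
        ih (fun i hi => hM i (Multiset.mem_cons_of_mem hi)), Multiset.map_cons,
        Multiset.prod_cons, mul_assoc]

private theorem gres_map_prod (m : Fin N →₀ ℕ) (f : Fin N → ℂ) :
    ((Finsupp.toMultiset m).map f).prod = ∏ i, f i ^ m i := by
  rw [Finset.prod_multiset_map_count]
  rw [Finset.prod_subset (Finset.subset_univ _)]
  · exact Finset.prod_congr rfl fun i _ => by rw [Finsupp.count_toMultiset]
  · intro i _ hi
    rw [Multiset.mem_toFinset, ← Multiset.count_ne_zero, not_not] at hi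
    rw [hi, pow_zero]

private theorem gres_finite_c1_le (X : FanoGW (Fin N)) (n : ℕ) : {β | X.c1 β ≤ n}.Finite := by
  have h : {β | X.c1 β ≤ n} ⊆ ⋃ k ∈ Set.Iic n, {β | X.c1 β = k} := by
    intro β hβ
    simp only [Set.mem_iUnion]
    exact ⟨X.c1 β, hβ, rfl⟩
  exact ((Set.finite_Iic n).biUnion fun k _ => X.c1_finite k).subset h

private theorem gres_deg_one {d : Fin N → ℕ} {m : Fin N →₀ ℕ} (hm : ∀ i, m i ≠ 0 → d i = 1) :
    ∀ i ∈ Finsupp.toMultiset m, d i = 1 := by
  intro i hi
  apply hm i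
  rw [← Finsupp.count_toMultiset]
  exact Multiset.count_ne_zero.2 hi

private theorem gres_corr (X : FanoGW (Fin N)) (s M : Multiset (Fin N))
    (hM : ∀ i ∈ M, X.deg i = 1) :
    X.corr (s + M) = ∑ β ∈ (gres_finite_c1_le X ((s.map X.deg).sum + 3)).toFinset,
      X.inv β (s + M) := by
  unfold GWData.corr
  apply finsum_eq_sum_of_support_subset
  intro β hβ
  rw [Function.mem_support] at hβ
  have h4 := X.dimension β _ hβ
  rw [Multiset.map_add, Multiset.sum_add, Multiset.card_add] at h4
  have h5 : (M.map X.deg).sum = Multiset.card M := by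
    rw [Multiset.map_congr rfl hM]
    simp
  rw [h5] at h4
  rw [Set.Finite.coe_toFinset, Set.mem_ofPred_eq]
  omega

private theorem gres_corrAt (T : EquivGW X) (t : Fin N → ℂ) (s M : Multiset (Fin N))
    (hM : ∀ i ∈ M, X.deg i = 1) :
    (corrAt T.toEquivData t (s + M)).eval 0 =
      ∑ β ∈ (gres_finite_c1_le X ((s.map X.deg).sum + 3)).toFinset,
        Complex.exp (∑ i, t i * X.period β i) * X.inv β (s + M) := by
  have h1 : corrAt T.toEquivData t (s + M) =
      ∑ β ∈ (gres_finite_c1_le X ((s.map X.deg).sum + 3)).toFinset,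
      Polynomial.C (Complex.exp (∑ i, t i * X.period β i)) * T.invT β (s + M) := by
    unfold corrAt
    apply finsum_eq_sum_of_support_subset
    intro β hβ
    rw [Function.mem_support] at hβ
    have h2 : T.invT β (s + M) ≠ 0 := right_ne_zero_of_mul hβ
    obtain ⟨n, hn⟩ : ∃ n, (T.invT β (s + M)).coeff n ≠ 0 := by
      by_contra h
      push Not at h
      exact h2 (Polynomial.ext (by simpa using h))
    have h3 := T.dimension β (s + M) n hn
    rw [Multiset.map_add, Multiset.sum_add, Multiset.card_add] at h3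
    have h5 : (M.map X.deg).sum = Multiset.card M := by
      rw [Multiset.map_congr rfl hM]
      simp
    rw [h5] at h3
    rw [Set.Finite.coe_toFinset, Set.mem_ofPred_eq]
    omega
  rw [h1, Polynomial.eval_finsetSum]
  apply Finset.sum_congr rfl
  intro β _
  rw [Polynomial.eval_mul, Polynomial.eval_C, T.inv_zero]

/-! ### splitting of multi-indices -/

private noncomputable def gresSplit (d : Fin N → ℕ) :
    {m : Fin N →₀ ℕ // ∀ i, m i ≠ 0 → d i ≠ 1} × {m : Fin N →₀ ℕ // ∀ i, m i ≠ 0 → d i = 1} ≃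
      (Fin N →₀ ℕ) where
  toFun p := p.1.1 + p.2.1
  invFun m := (⟨m.filter fun i => d i ≠ 1, fun i hi h => by
      apply hi
      rw [Finsupp.filter_apply, if_neg (not_not.2 h)]⟩,
    ⟨m.filter fun i => d i = 1, fun i hi => by
      by_contra h
      apply hi
      rw [Finsupp.filter_apply, if_neg h]⟩)
  left_inv p := by
    obtain ⟨⟨a, ha⟩, ⟨b, hb⟩⟩ := p
    have hb0 : ∀ i, d i ≠ 1 → b i = 0 := fun i h => by
      by_contra h1
      exact h (hb i h1)
    have ha0 : ∀ i, d i = 1 → a i = 0 := fun i h => by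
      by_contra h1
      exact ha i h1 h
    refine Prod.ext (Subtype.ext ?_) (Subtype.ext ?_)
    · ext i
      show ((a + b).filter fun i => d i ≠ 1) i = a i
      rw [Finsupp.filter_apply, Finsupp.add_apply]
      by_cases h : d i = 1
      · rw [if_neg (not_not.2 h), ha0 i h]
      · rw [if_pos h, hb0 i h, add_zero]
    · ext i
      show ((a + b).filter fun i => d i = 1) i = b i
      rw [Finsupp.filter_apply, Finsupp.add_apply]
      by_cases h : d i = 1
      · rw [if_pos h, ha0 i h, zero_add]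
      · rw [if_neg h, hb0 i h]
  right_inv m := by
    ext i
    show ((m.filter fun i => d i ≠ 1) + (m.filter fun i => d i = 1)) i = m i
    rw [Finsupp.add_apply, Finsupp.filter_apply, Finsupp.filter_apply]
    by_cases h : d i = 1
    · rw [if_neg (not_not.2 h), if_pos h, zero_add]
    · rw [if_pos h, if_neg h, add_zero]

private theorem gres_tsum_split (d : Fin N → ℕ) {F : (Fin N →₀ ℕ) → ℂ} (hF : Summable F) :
    ∑' m, F m = ∑' (m' : {m : Fin N →₀ ℕ // ∀ i, m i ≠ 0 → d i ≠ 1})
      (m₂ : {m : Fin N →₀ ℕ // ∀ i, m i ≠ 0 → d i = 1}), F (m'.1 + m₂.1) := by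
  rw [← (gresSplit d).tsum_eq F]
  have h : Summable fun p => F (gresSplit d p) := (gresSplit d).summable_iff.2 hF
  exact h.tsum_prod

private theorem gres_hasSum_P (d : Fin N → ℕ) (x : Fin N → ℂ) :
    HasSum (fun m : {m : Fin N →₀ ℕ // ∀ i, m i ≠ 0 → d i = 1} =>
      ∏ i, (x i ^ m.1 i / ((m.1 i).factorial : ℂ)))
      (Complex.exp (∑ i, if d i = 1 then x i else 0)) := by
  have h1 := hasSum_prod_exp (fun i => if d i = 1 then x i else 0)
  have h2 : Function.support (fun m : Fin N →₀ ℕ =>
      ∏ i, ((if d i = 1 then x i else 0) ^ m i / ((m i).factorial : ℂ))) ⊆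
      {m : Fin N →₀ ℕ | ∀ i, m i ≠ 0 → d i = 1} := by
    intro m hm i hi
    by_contra h
    rw [Function.mem_support] at hm
    apply hm
    apply Finset.prod_eq_zero (Finset.mem_univ i)
    rw [if_neg h, zero_pow hi, zero_div]
  have h3 := (hasSum_subtype_iff_of_support_subset h2).2 h1
  have h4 : (fun m : {m : Fin N →₀ ℕ // ∀ i, m i ≠ 0 → d i = 1} =>
      ∏ i, (x i ^ m.1 i / ((m.1 i).factorial : ℂ))) = fun m =>
      ∏ i, ((if d i = 1 then x i else 0) ^ m.1 i / ((m.1 i).factorial : ℂ)) := by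
    funext m
    refine Finset.prod_congr rfl fun i _ => ?_
    by_cases h : d i = 1
    · rw [if_pos h]
    · have h4 : m.1 i = 0 := by
        by_contra h5
        exact h (m.2 i h5)
      rw [h4, pow_zero, pow_zero]
  rw [h4]
  exact h3

section fiber

private theorem gres_congr {α : Type} {f g : α → ℂ} {c : ℂ} (h : HasSum f c)
    (hfg : ∀ a, g a = f a) : HasSum g c := by
  have h1 : g = f := funext hfg
  rw [h1]
  exact h

variable {v : Fin N → ℂ}

private theorem gres_fact {d : Fin N → ℕ} (a : {m : Fin N →₀ ℕ // ∀ i, m i ≠ 0 → d i ≠ 1})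
    (b : {m : Fin N →₀ ℕ // ∀ i, m i ≠ 0 → d i = 1}) :
    (∏ i, (((a.1 + b.1) i).factorial : ℂ)) =
      (∏ i, ((a.1 i).factorial : ℂ)) * ∏ i, ((b.1 i).factorial : ℂ) := by
  rw [← Finset.prod_mul_distrib]
  refine Finset.prod_congr rfl fun i _ => ?_
  rw [Finsupp.add_apply]
  by_cases h : d i = 1
  · have h1 : a.1 i = 0 := by
      by_contra h2
      exact a.2 i h2 h
    rw [h1, zero_add, Nat.factorial_zero, Nat.cast_one, one_mul]
  · have h1 : b.1 i = 0 := by
      by_contra h2
      exact h (b.2 i h2)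
    rw [h1, add_zero, Nat.factorial_zero, Nat.cast_one, mul_one]

/-- the common value of the two sums over a fibre -/
private noncomputable def gresR (X : FanoGW (Fin N)) (t v : Fin N → ℂ) (s : Multiset (Fin N))
    (a : Fin N →₀ ℕ) : ℂ :=
  (∏ i, v i ^ a i) / (∏ i, ((a i).factorial : ℂ)) *
    ∑ β ∈ (gres_finite_c1_le X (((s + Finsupp.toMultiset a).map X.deg).sum + 3)).toFinset,
      X.inv β (s + Finsupp.toMultiset a) *
        Complex.exp (∑ i, if X.deg i = 1 then (t i + v i) * X.period β i else 0)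

private theorem gres_term (h0 : ∀ i, X.period X.zero i = 0) (ht : ∀ i, t i ≠ 0 → X.deg i = 1)
    {s : Multiset (Fin N)} (hs : 3 ≤ Multiset.card s)
    (a : {m : Fin N →₀ ℕ // ∀ i, m i ≠ 0 → X.deg i ≠ 1}) :
    HasSum (fun b : {m : Fin N →₀ ℕ // ∀ i, m i ≠ 0 → X.deg i = 1} =>
      term X (t + v) s (a.1 + b.1)) (gresR X t v s a.1) := by
  have h1 := (hasSum_sum (s := (gres_finite_c1_le X
    (((s + Finsupp.toMultiset a.1).map X.deg).sum + 3)).toFinset) fun β _ =>
    (gres_hasSum_P X.deg (fun i => (t i + v i) * X.period β i)).mul_left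
      (X.inv β (s + Finsupp.toMultiset a.1))).mul_left
      ((∏ i, v i ^ a.1 i) / (∏ i, ((a.1 i).factorial : ℂ)))
  refine gres_congr h1 fun b => ?_
  have h2 : term X (t + v) s (a.1 + b.1) =
      X.corr (s + Finsupp.toMultiset (a.1 + b.1)) / (∏ i, (((a.1 + b.1) i).factorial : ℂ)) *
        ∏ i, (t + v) i ^ (a.1 + b.1) i := rfl
  have hM := gres_deg_one b.2
  have h3 : ∏ i, (t + v) i ^ (a.1 + b.1) i = (∏ i, v i ^ a.1 i) * ∏ i, (t i + v i) ^ b.1 i := by
    rw [← Finset.prod_mul_distrib]
    refine Finset.prod_congr rfl fun i _ => ?_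
    rw [Finsupp.add_apply, pow_add, Pi.add_apply]
    by_cases h : a.1 i = 0
    · rw [h, pow_zero, pow_zero]
    · have h4 : t i = 0 := by
        by_contra h5
        exact a.2 i h (ht i h5)
      rw [h4, zero_add]
  have hs' : 3 ≤ Multiset.card (s + Finsupp.toMultiset a.1) := by
    rw [Multiset.card_add]
    omega
  rw [h2, h3, gres_fact a b, map_add, ← add_assoc, gres_corr X _ _ hM, Finset.mul_sum,
    Finset.sum_div, Finset.sum_mul]
  refine Finset.sum_congr rfl fun β _ => ?_
  rw [gres_inv_add X h0 β hs' _ hM, gres_map_prod, Finset.prod_div_distrib]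
  simp_rw [mul_pow]
  rw [Finset.prod_mul_distrib]
  ring

private theorem gres_g (T : EquivGW X) (h0 : ∀ i, X.period X.zero i = 0)
    (ht : ∀ i, t i ≠ 0 → X.deg i = 1)
    {s : Multiset (Fin N)} (hs : 3 ≤ Multiset.card s)
    (a : {m : Fin N →₀ ℕ // ∀ i, m i ≠ 0 → X.deg i ≠ 1}) :
    HasSum (fun b : {m : Fin N →₀ ℕ // ∀ i, m i ≠ 0 → X.deg i = 1} =>
      (∏ i, v i ^ (a.1 + b.1) i) *
        (MvPowerSeries.coeff (a.1 + b.1) (serAt T.toEquivData t s)).eval 0)
      (gresR X t v s a.1) := by
  have h1 := (hasSum_sum (s := (gres_finite_c1_le X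
    (((s + Finsupp.toMultiset a.1).map X.deg).sum + 3)).toFinset) fun β _ =>
    (gres_hasSum_P X.deg (fun i => v i * X.period β i)).mul_left
      (X.inv β (s + Finsupp.toMultiset a.1) * Complex.exp (∑ i, t i * X.period β i))).mul_left
      ((∏ i, v i ^ a.1 i) / (∏ i, ((a.1 i).factorial : ℂ)))
  have hs' : 3 ≤ Multiset.card (s + Finsupp.toMultiset a.1) := by
    rw [Multiset.card_add]
    omega
  have hR : gresR X t v s a.1 = (∏ i, v i ^ a.1 i) / (∏ i, ((a.1 i).factorial : ℂ)) *
      ∑ β ∈ (gres_finite_c1_le X (((s + Finsupp.toMultiset a.1).map X.deg).sum + 3)).toFinset,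
        X.inv β (s + Finsupp.toMultiset a.1) * Complex.exp (∑ i, t i * X.period β i) *
          Complex.exp (∑ i, if X.deg i = 1 then v i * X.period β i else 0) := by
    unfold gresR
    congr 1
    refine Finset.sum_congr rfl fun β _ => ?_
    rw [mul_assoc, ← Complex.exp_add]
    congr 2
    rw [← Finset.sum_add_distrib]
    refine Finset.sum_congr rfl fun i _ => ?_
    by_cases h : X.deg i = 1
    · rw [if_pos h, if_pos h]
      ring
    · have h4 : t i = 0 := by
        by_contra h5
        exact h (ht i h5)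
      rw [if_neg h, if_neg h, h4, zero_mul, add_zero]
  rw [hR]
  refine gres_congr h1 fun b => ?_
  · have h2 : MvPowerSeries.coeff (a.1 + b.1) (serAt T.toEquivData t s) =
        Polynomial.C (∏ i, (((a.1 + b.1) i).factorial : ℂ))⁻¹ *
          corrAt T.toEquivData t (s + Finsupp.toMultiset (a.1 + b.1)) := rfl
    have hM := gres_deg_one b.2
    have h3 : ∏ i, v i ^ (a.1 + b.1) i = (∏ i, v i ^ a.1 i) * ∏ i, v i ^ b.1 i := by
      rw [← Finset.prod_mul_distrib]
      refine Finset.prod_congr rfl fun i _ => ?_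
      rw [Finsupp.add_apply, pow_add]
    rw [h2, h3, Polynomial.eval_mul, Polynomial.eval_C, gres_fact a b, map_add, ← add_assoc,
      gres_corrAt T t _ _ hM, Finset.mul_sum, Finset.mul_sum, Finset.mul_sum]
    refine Finset.sum_congr rfl fun β _ => ?_
    rw [gres_inv_add X h0 β hs' _ hM, gres_map_prod, Finset.prod_div_distrib]
    simp_rw [mul_pow]
    rw [Finset.prod_mul_distrib]
    ring

end fiber

/-- the terms of the weighted theory -/
private theorem gres_term_tw (T : BulkGW X t) (ht : ∀ i, t i ≠ 0 → X.deg i = 1) (v : Fin N → ℂ)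
    (s : Multiset (Fin N)) (m : Fin N →₀ ℕ) :
    term (twX T ht) v s m =
      (∏ i, v i ^ m i) * (MvPowerSeries.coeff m (serAt T.toEquivData t s)).eval 0 := by
  have h1 : term (twX T ht) v s m = MvPowerSeries.coeff m ((twData X t).ser s) * ∏ i, v i ^ m i := rfl
  rw [h1, ser_tw T.toEquivGW, MvPowerSeries.coeff_map, Polynomial.coe_evalRingHom, mul_comm]

theorem tsum_tw (T : BulkGW X t) (ht : ∀ i, t i ≠ 0 → X.deg i = 1) {v : Fin N → ℂ}
    {s : Multiset (Fin N)} (hs : 3 ≤ Multiset.card s) (h1 : Summable (term X (t + v) s))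
    (h2 : Summable (term (twX T ht) v s)) :
    ∑' m, term X (t + v) s m = ∑' m, term (twX T ht) v s m := by
  have e : term (twX T ht) v s = fun m =>
      (∏ i, v i ^ m i) * (MvPowerSeries.coeff m (serAt T.toEquivData t s)).eval 0 :=
    funext fun m => gres_term_tw T ht v s m
  rw [e] at h2 ⊢
  rw [gres_tsum_split X.deg h1, gres_tsum_split X.deg h2]
  refine tsum_congr fun m' => ?_
  rw [(gres_g T.toEquivGW T.period_zero ht hs m').tsum_eq,
    (gres_term T.period_zero ht hs m').tsum_eq]

theorem euler_tw (T : BulkGW X t) (ht : ∀ i, t i ≠ 0 → X.deg i = 1) {v : Fin N → ℂ}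
    (h1 : ConvergesAt X (t + v)) (h2 : ConvergesAt (twX T ht) v) :
    eulerMat X (t + v) = eulerMat (twX T ht) v := by
  ext k b
  show ∑ a, (X.chern a + (1 - X.deg a) * (t + v) a) *
      ∑ l, X.pair⁻¹ k l * ∑' m, term X (t + v) {a, b, l} m =
    ∑ a, (X.chern a + (1 - X.deg a) * v a) *
      ∑ l, X.pair⁻¹ k l * ∑' m, term (twX T ht) v {a, b, l} m
  refine Finset.sum_congr rfl fun a _ => ?_
  have h3 : (1 - (X.deg a : ℂ)) * t a = 0 := by
    by_cases h : t a = 0
    · rw [h, mul_zero]
    · rw [ht a h]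
      simp
  rw [Pi.add_apply, mul_add, h3, zero_add]
  congr 1
  refine Finset.sum_congr rfl fun l _ => ?_
  rw [tsum_tw T ht (by simp) (h1 a b l) (h2 a b l)]

end Pool.Agent.DST
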