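import Pool.Agent.DST.GConv
import Pool.Agent.DST.GRes
import Pool.Agent.CVG.FinB

/-!
# DST-GDen: convergence near `t`, and density of the points with distinct canonical coordinates
-/

open scoped BigOperators Topology
open Filter

namespace Pool.Agent.DST

open Pool.Agent.Helper18.Dub Pool.Agent.Helper7.DubStokes Pool.Agent.SHF

variable {N : ℕ} {X : FanoGW (Fin N)} {t : Fin N → ℂ}

theorem converges_near (T : BulkGW X t) (ht : ∀ i, t i ≠ 0 → X.deg i = 1) :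
    ∃ ρ : ℝ, 0 < ρ ∧ ∀ v : Fin N → ℂ, (∀ i, ‖v i‖ < ρ) → ConvergesAt X (t + v) := by
  obtain ⟨ρ, hρ, h⟩ := converges_strip T (‖t‖ + 1)
  refine ⟨min ρ 1, lt_min hρ one_pos, fun v hv => h (t + v) (fun i _ => ?_) (fun i hi => ?_)⟩
  · calc ‖(t + v) i‖ ≤ ‖t i‖ + ‖v i‖ := norm_add_le _ _
      _ < ‖t‖ + 1 := add_lt_add_of_le_of_lt (norm_le_pi_norm t i)
          ((hv i).trans_le (min_le_right _ _))
  · have h0 : t i = 0 := by
      by_contra h'
      exact hi (ht i h')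
    rw [Pi.add_apply, h0, zero_add]
    exact (hv i).trans_le (min_le_left _ _)

theorem dense_near (T : BulkGW X t) (ht : ∀ i, t i ≠ 0 → X.deg i = 1) :
    ∃ ρ : ℝ, 0 < ρ ∧ (∀ v : Fin N → ℂ, (∀ i, ‖v i‖ < ρ) → ConvergesAt X (t + v)) ∧
      ∀ δ : ℝ, 0 < δ → δ ≤ ρ → ∀ v : Fin N → ℂ, (∀ i, ‖v i‖ < δ) →
        v ∈ closure {v : Fin N → ℂ | (∀ i, ‖v i‖ < δ) ∧
          (eulerMat X (t + v)).charpoly.Separable} := by
  obtain ⟨ρ, hρ, hc⟩ := converges_near T ht
  obtain ⟨r, hr, hconv, -, hdense⟩ := Pool.Agent.CVG.exists_domain (twX T ht) (semisimple_tw T ht)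
  refine ⟨min ρ r, lt_min hρ hr, fun v hv => hc v fun i => (hv i).trans_le (min_le_left _ _),
    fun δ hδ hδρ v hv => ?_⟩
  have hvr : ∀ i, ‖v i‖ < r := fun i => (hv i).trans_le (hδρ.trans (min_le_right _ _))
  have h1 := hdense v hvr
  have hopen : IsOpen {v : Fin N → ℂ | ∀ i, ‖v i‖ < δ} := by
    rw [Set.ofPred_forall]
    exact isOpen_iInter_of_finite fun i =>
      isOpen_lt (continuous_norm.comp (continuous_apply i)) continuous_const
  have h2 := hopen.inter_closure ⟨hv, h1⟩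
  refine closure_mono ?_ h2
  rintro x ⟨hx1, hx2, hx3⟩
  refine ⟨hx1, ?_⟩
  rw [euler_tw T ht (hc x fun i => (hx1 i).trans_le (hδρ.trans (min_le_left _ _)))
    (hconv x hx2)]
  exact hx3

end Pool.Agent.DST
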