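import Pool.Agent.DST.Gamma
import Pool.Agent.Helper7.DubStokes.Final

/-!
# DST-VConcl: a solution with the asymptotics of `X_-` and integral pairings gives the conclusions
-/

open scoped BigOperators Topology
open Filter

namespace Pool.Agent.DST

open Pool.Agent.Helper18.Dub Pool.Agent.Helper7.DubStokes Pool.Agent.SHF

variable {N : ℕ} {X : FanoGW (Fin N)} {t p : Fin N → ℂ}

private theorem evZ_zero_int (f : LaurentPolynomial ℤ) : ∃ m : ℤ, evZ 0 f = m := by
  refine f.induction_on' (fun p q hp hq => ?_) (fun n a => ?_)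
  · obtain ⟨a, ha⟩ := hp
    obtain ⟨b, hb⟩ := hq
    exact ⟨a + b, by rw [map_add, ha, hb]; push_cast; rfl⟩
  · refine ⟨a, ?_⟩
    have h1 : qu 0 = 1 := by
      apply Units.ext
      show Complex.exp (2 * Real.pi * Complex.I * 0) = 1
      rw [mul_zero, Complex.exp_zero]
    unfold evZ
    rw [LaurentPolynomial.eval₂_C_mul_T, h1, one_zpow]
    simp

/-- The normalised pairing with `X_+` of a solution with the asymptotics of `X_-`. -/
private theorem pairing_one (M : MonodromyData X p) (Y : ℂ → Matrix (Fin N) (Fin N) ℂ) (hY : IsSolution X p Y)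
    {ε : ℝ} (hε : 0 < ε) (hYa : HasAsymptotics M.u M.Ψ (M.φ - ε) (M.φ + Real.pi + ε) Y) (w : ℂ) :
    (M.Xplus (w - Real.pi * Complex.I)).transpose * X.pair * Y w = 1 := by
  have hMε := M.ε_pos
  have hπ := Real.pi_pos
  have hlim : ∀ α : ℝ, M.φ - ε < α → α < M.φ + Real.pi + ε → α - Real.pi < M.φ + M.ε →
      M.φ - Real.pi - M.ε < α - Real.pi → ∀ K : Matrix (Fin N) (Fin N) ℂ,
      (∀ w, (M.Xplus (w - Real.pi * Complex.I)).transpose * X.pair * Y w = K) →
      (∀ i, K i i = 1) ∧ ∀ i j, i ≠ j →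
        0 ≤ ((M.u i - M.u j) * Complex.exp (-α * Complex.I)).re → K i j = 0 := by
    intro α h1 h2 h3 h4 K hK
    refine pairing_limit X M.u M.Ψ M.normalised M.Xplus Y K α (fun s => ?_) ?_ ?_
    · rw [← hK (s + α * Complex.I)]
      congr 4
      push_cast
      ring
    · exact M.plus_asymptotics (α - Real.pi) ⟨h4, h3⟩
    · exact hYa α ⟨h1, h2⟩
  have hK : ∀ w', (M.Xplus (w' - Real.pi * Complex.I)).transpose * X.pair * Y w' =
      (M.Xplus (w - Real.pi * Complex.I)).transpose * X.pair * Y w := fun w' =>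
    pairing_const X p M.Xplus Y M.plus_solution hY w' w
  set K := (M.Xplus (w - Real.pi * Complex.I)).transpose * X.pair * Y w with hKdef
  obtain ⟨hd, h0⟩ := hlim M.φ (by linarith) (by linarith) (by linarith) (by linarith) K hK
  obtain ⟨-, h1⟩ := hlim (M.φ + Real.pi) (by linarith) (by linarith) (by linarith) (by linarith) K
    hK
  ext i j
  rcases lt_trichotomy i j with h | h | h
  · rw [Matrix.one_apply_ne h.ne]
    apply h1 i j h.ne
    have h2 : Complex.exp (-((M.φ + Real.pi : ℝ) : ℂ) * Complex.I) =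
        -Complex.exp (-M.φ * Complex.I) := by
      rw [show -((M.φ + Real.pi : ℝ) : ℂ) * Complex.I = -M.φ * Complex.I +
        -(Real.pi * Complex.I) by push_cast; ring, Complex.exp_add, Complex.exp_neg
        (Real.pi * Complex.I), Complex.exp_pi_mul_I]
      norm_num
    rw [h2, mul_neg, ← neg_mul, neg_sub]
    exact (M.ordered_re i j h).le
  · rw [h, hd, Matrix.one_apply_eq]
  · rw [Matrix.one_apply_ne h.ne']
    exact h0 i j h.ne' (M.ordered_re j i h).le

theorem adm_of (M : MonodromyData X p) (i j : Fin N) (hij : i ≠ j) :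
    ((M.u i - M.u j) * Complex.exp (-((M.φ + Real.pi / 2 : ℝ) : ℂ) * Complex.I)).im ≠ 0 := by
  have h1 : Complex.exp (-((M.φ + Real.pi / 2 : ℝ) : ℂ) * Complex.I) =
      -Complex.I * Complex.exp (-M.φ * Complex.I) := by
    rw [show -((M.φ + Real.pi / 2 : ℝ) : ℂ) * Complex.I = -(Real.pi / 2 * Complex.I) + -M.φ * Complex.I by
      push_cast; ring, Complex.exp_add, Complex.exp_neg, Complex.exp_pi_div_two_mul_I, Complex.inv_I]
  rw [h1, show (M.u i - M.u j) * (-Complex.I * Complex.exp (-M.φ * Complex.I)) =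
    -(Complex.I * ((M.u i - M.u j) * Complex.exp (-M.φ * Complex.I))) by ring, Complex.neg_im, Complex.I_mul_im]
  rcases lt_or_gt_of_ne hij with h | h
  · have := M.ordered_re i j h
    rw [sub_mul, Complex.sub_re] at this ⊢
    intro hc
    linarith
  · have := M.ordered_re j i h
    intro hc
    linarith

theorem concl_of (T : GammaGW X t) (M : MonodromyData X p) {J₀ : ℂ → Matrix (Fin N) (Fin N) ℂ}
    (hJ : IsSolution X p J₀)
    (hpair : (J₀ (0 + Real.pi * Complex.I)).transpose * X.pair * J₀ 0 = T.χ.map (evZ 0))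
    {U : Matrix (Fin N) (Fin N) ℤ} {ε : ℝ} (hε : 0 < ε)
    (hlim : ∀ φ' ∈ Set.Ioo ((M.φ + Real.pi / 2) - Real.pi / 2 - ε)
      ((M.φ + Real.pi / 2) + Real.pi / 2 + ε), ∀ i j,
      Tendsto (fun q : ℝ => (J₀ (q + φ' * Complex.I) * U.map (Int.castRingHom ℂ) *
        Matrix.diagonal fun k => Complex.exp (-M.u k * Complex.exp (-(q + φ' * Complex.I)))) i j)
        atBot (𝓝 (M.Ψ i j))) :
    IsUnit U.det ∧ IsExceptional X T.Td (fun j => ∑ i, U i j • T.ch i) ∧
      M.S = gramMatrix X T.Td (fun j => ∑ i, U i j • T.ch i) ∧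
      ConnectionFactors M (fun j => (twist X).mulVec (∑ i, U i j • T.ch i)) ∧
      ConnectionIsometric M T.Td (fun j => ∑ i, U i j • T.ch i) ∧
      ∀ w, M.Xminus w = J₀ w * U.map (Int.castRingHom ℂ) := by
  set V : Matrix (Fin N) (Fin N) ℂ := U.map (Int.castRingHom ℂ) with hV
  set Y : ℂ → Matrix (Fin N) (Fin N) ℂ := fun w => J₀ w * V with hY
  have hYs : IsSolution X p Y := by
    intro w i j
    have h3 : HasDerivAt (fun w => ∑ k, J₀ w i k * V k j)
        (∑ k, ((theta X - Complex.exp (-w) • eulerMat X p) * J₀ w) i k * V k j) w :=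
      HasDerivAt.fun_sum fun k _ => (hJ w i k).mul_const _
    have h4 : (fun w => Y w i j) = fun w => ∑ k, J₀ w i k * V k j := by
      funext w
      exact Matrix.mul_apply
    rw [h4]
    have h5 : ((theta X - Complex.exp (-w) • eulerMat X p) * Y w) i j =
        ∑ k, ((theta X - Complex.exp (-w) • eulerMat X p) * J₀ w) i k * V k j := by
      rw [hY]
      show ((theta X - Complex.exp (-w) • eulerMat X p) * (J₀ w * V)) i j = _
      rw [← Matrix.mul_assoc, Matrix.mul_apply]
    rw [h5]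
    exact h3
  have hYa : HasAsymptotics M.u M.Ψ (M.φ - ε) (M.φ + Real.pi + ε) Y := by
    intro φ' hφ'
    have h1 := hlim φ' ⟨by linarith [hφ'.1], by linarith [hφ'.2]⟩
    exact tendsto_pi_nhds.mpr fun i => tendsto_pi_nhds.mpr fun j => h1 i j
  have hYX : ∀ w, Y w = M.Xminus w := by
    intro w
    have h1 := pairing_one M Y hYs hε hYa w
    have h2 := M.pairing_plus_minus w
    rw [← Matrix.inv_eq_right_inv h1, Matrix.inv_eq_right_inv h2]
  have hS : M.S = V.transpose * T.χ.map (evZ 0) * V := by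
    rw [← M.pairing_minus_minus 0, ← hYX, ← hYX, ← hpair, hY]
    show (J₀ (0 + Real.pi * Complex.I) * V).transpose * X.pair * (J₀ 0 * V) = _
    rw [Matrix.transpose_mul]
    simp only [Matrix.mul_assoc]
  have hgr : gramMatrix X T.Td T.ch = T.χ.map (evZ 0) := by
    ext i j
    exact T.hrr i j
  set v : Fin N → Fin N → ℂ := fun j => ∑ i, U i j • T.ch i with hv
  have hcol : colMat v = colMat T.ch * V := by
    ext a j
    rw [Matrix.mul_apply]
    show (∑ i, U i j • T.ch i) a = ∑ i, T.ch i a * V i j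
    rw [Finset.sum_apply]
    refine Finset.sum_congr rfl fun i _ => ?_
    rw [Pi.smul_apply, zsmul_eq_mul, mul_comm]
    rfl
  have hSG : M.S = gramMatrix X T.Td v := by
    rw [gramMatrix_eq, hcol, hS, ← hgr, gramMatrix_eq, Matrix.transpose_mul]
    simp only [Matrix.mul_assoc]
  have hexc : IsExceptional X T.Td v := by
    refine ⟨fun i => ?_, fun i j hij => ?_⟩
    · have h1 := M.S_entries.1 i
      rw [hSG] at h1
      exact h1
    · have h1 := M.S_entries.2 i j hij
      rw [hSG] at h1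
      exact h1
  have hmain := (main M T.Td T.todd v hexc).1
  refine ⟨?_, hexc, hSG, (hmain.out 0 1).1 hSG, (hmain.out 0 2).1 hSG, fun w => (hYX w).symm⟩
  have hdetS : M.S.det = 1 := by
    rw [Matrix.det_of_isUpperTriangular (fun i j hij => M.S_entries.2 i j hij)]
    simp [M.S_entries.1]
  obtain ⟨m, hm⟩ := evZ_zero_int T.χ.det
  have hdχ : (T.χ.map (evZ 0)).det = (m : ℂ) := by
    rw [← hm, RingHom.map_det]
    rfl
  have hdV : V.det = (U.det : ℂ) := by
    rw [hV]
    have := RingHom.map_det (Int.castRingHom ℂ) U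
    rw [RingHom.mapMatrix_apply] at this
    rw [← this]
    rfl
  rw [hS, Matrix.det_mul, Matrix.det_mul, Matrix.det_transpose, hdχ, hdV] at hdetS
  have h1 : U.det * (m * U.det) = 1 := by
    have : ((U.det * (m * U.det) : ℤ) : ℂ) = ((1 : ℤ) : ℂ) := by
      rw [Int.cast_mul, Int.cast_mul, ← mul_assoc, Int.cast_one]
      exact hdetS
    exact Int.cast_injective this
  exact IsUnit.of_mul_eq_one _ h1

end Pool.Agent.DST
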