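import Pool.Agent.DST.PDefs
import Pool.Agent.DST.VChain
import Pool.Agent.DST.VEul
import Pool.Agent.DST.VConcl
import Pool.Agent.DST.FQ
import Pool.Agent.DST.FEuler

/-!
# DST-VGam: the theorem at points `t + v` of big quantum cohomology, with the `Γ`-solutions continued
along the ray from `t` to `t + v`
-/

open scoped BigOperators Topology
open Filter

namespace Pool.Agent.DST

open Pool.Agent.Helper18.Dub Pool.Agent.Helper7.DubStokes Pool.Agent.SHF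

variable {N : ℕ} {X : FanoGW (Fin N)} {t : Fin N → ℂ}

theorem evs_lineF_smul (s : ℂ) (v : Fin N → ℂ) (f : MvPowerSeries (Fin N) (Polynomial ℂ)) :
    evs s 0 (lineF v f) = evs 1 0 (lineF (s • v) f) := by
  unfold evs lineF
  refine tsum_congr fun n => ?_
  rw [PowerSeries.coeff_mk, PowerSeries.coeff_mk, one_pow, one_mul, Polynomial.eval_finsetSum,
    Polynomial.eval_finsetSum, Finset.mul_sum]
  refine Finset.sum_congr rfl fun m hm => ?_
  rw [Polynomial.eval_smul, Polynomial.eval_smul, smul_eq_mul, smul_eq_mul, ← mul_assoc]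
  congr 1
  have h1 : ∑ i, m i = n := (Finset.mem_finsuppAntidiag.1 hm).1
  have h2 : ∏ i, (s • v) i ^ m i = (∏ i, s ^ m i) * ∏ i, v i ^ m i := by
    rw [← Finset.prod_mul_distrib]
    refine Finset.prod_congr rfl fun i _ => ?_
    rw [Pi.smul_apply, smul_eq_mul, mul_pow]
  rw [h2, Finset.prod_pow_eq_pow_sum, h1]

theorem Mv_eq (T : BulkGW X t) (ht : ∀ i, t i ≠ 0 → X.deg i = 1) {A r : ℝ} (hA : 0 < A)
    (hr : 0 < r) (hB : BConv T.toEquivData t A r) {v : Fin N → ℂ} {V : ℝ}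
    (hV : ∀ i, ‖v i‖ ≤ V) (hVA : V * A < 1) (𝓡 : Ray N)
    (hM : ∀ i j, 𝓡.M i j = ∑ a, PowerSeries.C (Polynomial.C (v a)) *
      lineF v (mulAt T.toEquivData t a i j)) {s : ℂ} (hs : ‖s‖ ≤ 1)
    (hc : ConvergesAt X (t + s • v)) : 𝓡.Mv s 0 = prodMat X (t + s • v) v := by
  have hρ : (0 : ℝ) < r / 2 := half_pos hr
  have hx : ‖(0 : ℂ)‖ ≤ r / 2 := by simpa using hρ.le
  have hsV : ∀ i, ‖(s • v) i‖ ≤ V := by
    intro i
    rw [Pi.smul_apply, smul_eq_mul, norm_mul]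
    calc ‖s‖ * ‖v i‖ ≤ 1 * ‖v i‖ := mul_le_mul_of_nonneg_right hs (norm_nonneg _)
      _ ≤ V := by rw [one_mul]; exact hV i
  ext k b
  unfold Ray.Mv prodMat
  rw [Matrix.map_apply, Matrix.of_apply, hM, (evs_finset_sum hρ.le _ _ (fun a _ => ?_) hs).2]
  · refine Finset.sum_congr rfl fun a _ => ?_
    rw [evs_mul zero_le_one hρ.le (PConv.C _ _ _) (pconv_mulAt T hA hr hB hV hVA a k b) hs hx,
      evs_C, Polynomial.eval_C, evs_lineF_smul, prod_bulk T ht hA hr hB hsV hVA hc]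
  · exact PConv.mul zero_le_one hρ.le (PConv.C _ _ _) (pconv_mulAt T hA hr hB hV hVA a k b)

theorem final_ray (ht : ∀ i, t i ≠ 0 → X.deg i = 1) (T : BulkGW X t) {A r : ℝ}
    (hA : 0 < A) (hr : 0 < r) (hB : BConv T.toEquivData t A r) {v : Fin N → ℂ} {V : ℝ}
    (hV0 : 0 ≤ V) (hV : ∀ i, ‖v i‖ ≤ V) (hVA : V * A < 1)
    (hc : ∀ s : ℂ, ‖s‖ ≤ 1 → ConvergesAt X (t + s • v)) :
    ∃ Y : ℂ → ℂ → Matrix (Fin N) (Fin N) ℂ, (∀ w, Y 0 w = T.J 0 w) ∧
      (∀ s : ℂ, ‖s‖ ≤ 1 → ∀ w i j, HasDerivAt (fun s => Y s w i j)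
        ((Complex.exp (-w) • (prodMat X (t + s • v) v * Y s w)) i j) s) ∧
      ∀ M : MonodromyData X (t + v), ∃ U : Matrix (Fin N) (Fin N) ℤ, IsUnit U.det ∧
        IsExceptional X T.Td (fun j => ∑ i, U i j • T.ch i) ∧
        M.S = gramMatrix X T.Td (fun j => ∑ i, U i j • T.ch i) ∧
        ConnectionFactors M (fun j => (twist X).mulVec (∑ i, U i j • T.ch i)) ∧
        ConnectionIsometric M T.Td (fun j => ∑ i, U i j • T.ch i) ∧
        ∀ w, M.Xminus w = (Complex.I / (Real.sqrt (2 * Real.pi) : ℂ)) ^ X.dim •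
          (Y 1 w * U.map (Int.castRingHom ℂ)) := by
  obtain ⟨Q, hQ⟩ := exists_Q T.toGammaGW
  have ha0 : 0 ≤ V * A := mul_nonneg hV0 hA.le
  have hR1 : 1 < 2 / (1 + V * A) := by
    rw [lt_div_iff₀ (by linarith)]
    linarith
  have hRV : 2 / (1 + V * A) * V * A < 1 := by
    rw [div_mul_eq_mul_div, div_mul_eq_mul_div, div_lt_one (by linarith)]
    nlinarith
  obtain ⟨𝓡, h𝓡Q, h𝓡R, h𝓡r, h𝓡C, h𝓡M⟩ := exists_ray_full T ht hQ hA hr hB hV hR1 hRV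
    (half_pos hr) (half_lt_self hr)
  have hQ' : IsQ T.toGammaGW 𝓡.Q := by rw [h𝓡Q]; exact hQ
  have hone : ‖(1 : ℂ)‖ < 𝓡.R := by rw [norm_one]; exact 𝓡.hR
  have hr0 : ∀ w : ℂ, ‖(0 : ℂ) * Complex.exp w‖ < 𝓡.r := by
    intro w
    rw [zero_mul, norm_zero]
    exact 𝓡.hr
  have hr00 : ‖(0 : ℂ)‖ < 𝓡.r := by rw [norm_zero]; exact 𝓡.hr
  have hg0 : 𝓡.Q.g 0 = X.pair := by
    rw [hQ'.g]
    ext i j
    exact T.pair_zero i j
  have hc1 : ConvergesAt X (t + v) := by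
    have := hc 1 (by rw [norm_one])
    rwa [one_smul] at this
  have hC1 : 𝓡.Cv 1 0 = eulerMat X (t + v) := by
    ext k b
    rw [euler_bulk T ht hA hr hB hV hVA hc1 k b]
    unfold Ray.Cv
    rw [h𝓡C]
    rfl
  have hθ : Matrix.diagonal 𝓡.Q.θ = theta X := by
    unfold theta
    congr 1
    funext a
    exact hQ'.θ a
  have hJ1 : ∀ w, 𝓡.J 1 0 w = (Complex.I / (Real.sqrt (2 * Real.pi) : ℂ)) ^ X.dim •
      (𝓡.W 1 0 (Complex.exp w) * T.J 0 w) := by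
    intro w
    unfold Ray.J
    rw [zero_mul, hQ'.J, Matrix.mul_smul]
  refine ⟨fun s w => 𝓡.W s 0 (Complex.exp w) * T.J 0 w, fun w => ?_, fun s hs w i j => ?_,
    fun M => ?_⟩
  · show 𝓡.W 0 0 (Complex.exp w) * T.J 0 w = T.J 0 w
    rw [𝓡.W_zero, one_mul]
  · have h1 : ∀ k, HasDerivAt (fun s => 𝓡.W s 0 (Complex.exp w) i k)
        (((Complex.exp w)⁻¹ • (𝓡.Mv s 0 * 𝓡.W s 0 (Complex.exp w))) i k) s := fun k =>
      𝓡.W_ode (hs.trans_lt 𝓡.hR) hr00 (Complex.exp_ne_zero w) i k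
    have h2 : HasDerivAt (fun s => ∑ k, 𝓡.W s 0 (Complex.exp w) i k * T.J 0 w k j)
        (∑ k, ((Complex.exp w)⁻¹ • (𝓡.Mv s 0 * 𝓡.W s 0 (Complex.exp w))) i k * T.J 0 w k j) s :=
      HasDerivAt.fun_sum fun k _ => (h1 k).mul_const _
    have h3 : (fun s => (𝓡.W s 0 (Complex.exp w) * T.J 0 w) i j) =
        fun s => ∑ k, 𝓡.W s 0 (Complex.exp w) i k * T.J 0 w k j := by
      funext s
      exact Matrix.mul_apply
    rw [h3]
    have h4 : (Complex.exp (-w) • (prodMat X (t + s • v) v *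
        (𝓡.W s 0 (Complex.exp w) * T.J 0 w))) i j =
        ∑ k, ((Complex.exp w)⁻¹ • (𝓡.Mv s 0 * 𝓡.W s 0 (Complex.exp w))) i k * T.J 0 w k j := by
      rw [Mv_eq T ht hA hr hB hV hVA 𝓡 h𝓡M hs (hc s hs), Complex.exp_neg, ← Matrix.mul_assoc,
        ← Matrix.smul_mul, Matrix.mul_apply]
    rw [h4]
    exact h2
  · obtain ⟨U, ε, hε, hlim⟩ := chain_bulk T.toGammaGW 𝓡 hQ' (u := M.u) (Ψ₀ := M.Ψ)
      (by rw [hC1]; exact M.eigen) (by rw [hg0]; exact M.normalised) (φ := M.φ + Real.pi / 2)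
      (adm_of M)
    have hsol : IsSolution X (t + v) fun w => 𝓡.J 1 0 w := by
      intro w i j
      have h2 := 𝓡.J_ode hone (hr0 w) i j
      rw [zero_mul, hC1, hθ] at h2
      exact h2
    obtain ⟨Q₁, e1, e2, e3, e4, e5, e6, e7⟩ := 𝓡.exists_q hone
    have hpair : (𝓡.J 1 0 (0 + Real.pi * Complex.I)).transpose * X.pair * 𝓡.J 1 0 0 =
        T.χ.map (evZ 0) := by
      have h1 := Q₁.J_pair 0 0 (by
        rw [e1, zero_mul]
        exact mem_ball_zero_iff.2 hr00)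
      rw [neg_zero, zero_mul, e4, hg0, e6, e7, hQ'.χ] at h1
      exact h1
    have hmain := concl_of T.toGammaGW M hsol hpair hε hlim
    obtain ⟨h1, h2, h3, h4, h5, h6⟩ := hmain
    refine ⟨U, h1, h2, h3, h4, h5, fun w => ?_⟩
    rw [h6 w, hJ1 w, Matrix.smul_mul]

end Pool.Agent.DST
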