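import Pool.Agent.DST.GDen
import Pool.Agent.DST.VGam
import Pool.Agent.DST.EMain

/-!
# DST-GFin: assembly of the final theorem
-/

open scoped BigOperators Topology
open Filter

namespace Pool.Agent.DST

open Pool.Agent.Helper18.Dub Pool.Agent.Helper7.DubStokes Pool.Agent.SHF

variable {N : ℕ} {X : FanoGW (Fin N)} {t : Fin N → ℂ}

theorem numerical_dubrovin (ht : ∀ i, t i ≠ 0 → X.deg i = 1) (T : BulkGW X t) :
    ∃ ρ : ℝ, 0 < ρ ∧ ∀ p : Fin N → ℂ, (∀ i, ‖p i - t i‖ < ρ) →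
      ConvergesAt X p ∧
      (∀ δ : ℝ, 0 < δ → ∃ p' : Fin N → ℂ, (∀ i, ‖p' i - p i‖ < δ) ∧
        (eulerMat X p').charpoly.Separable) ∧
      ((eulerMat X p).charpoly.Separable → ∀ φ : ℝ, IsAdmissible X p φ →
        ∃ M : MonodromyData X p, M.φ = φ) ∧
      ∀ M : MonodromyData X p, ∃ U : Matrix (Fin N) (Fin N) ℤ, IsUnit U.det ∧
        IsExceptional X T.Td (comb U T.ch) ∧
        M.S = gramMatrix X T.Td (comb U T.ch) ∧
        ConnectionFactors M (fun j => (twist X).mulVec (comb U T.ch j)) ∧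
        ConnectionIsometric M T.Td (comb U T.ch) ∧
        ∃ Y, IsContinuation T.toGammaGW p Y ∧ ∀ w i j, M.Xminus w i j =
          (Complex.I / (Real.sqrt (2 * Real.pi) : ℂ)) ^ X.dim *
            (Y w * U.map (Int.castRingHom ℂ)) i j := by
  obtain ⟨ρ₁, h1, hc, hd⟩ := dense_near T ht
  obtain ⟨ρ₂, h2, he⟩ := exists_data ht T
  obtain ⟨A, r, hA, hr, hB⟩ := bulk_converges T ht
  have h3 : (0 : ℝ) < 1 / (2 * A) := by positivity
  have h4 : 1 / (2 * A) * A < 1 := by
    rw [div_mul_eq_mul_div, div_lt_one (by positivity)]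
    linarith
  have hρ : 0 < min ρ₁ (min ρ₂ (1 / (2 * A))) := lt_min h1 (lt_min h2 h3)
  refine ⟨min ρ₁ (min ρ₂ (1 / (2 * A))), hρ, fun p hp => ?_⟩
  obtain ⟨v, hv, rfl⟩ : ∃ v : Fin N → ℂ, (∀ i, ‖v i‖ < min ρ₁ (min ρ₂ (1 / (2 * A)))) ∧
      p = t + v := ⟨p - t, fun i => hp i, by abel⟩
  have hcomb : ∀ U : Matrix (Fin N) (Fin N) ℤ,
      (fun j => ∑ i, U i j • T.ch i) = comb U T.ch := by
    intro U
    funext j a
    rw [Finset.sum_apply]
    refine Finset.sum_congr rfl fun i _ => ?_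
    rw [Pi.smul_apply, zsmul_eq_mul]
  refine ⟨?_, fun δ hδ => ?_, fun hs φ hφ => ?_, fun M => ?_⟩
  · exact hc v fun i => (hv i).trans_le (min_le_left _ _)
  · have h5 := hd _ hρ (min_le_left _ _) v hv
    rw [Metric.mem_closure_iff] at h5
    obtain ⟨v', ⟨-, hv'⟩, hv''⟩ := h5 δ hδ
    refine ⟨t + v', fun i => ?_, hv'⟩
    have h6 : (t + v') i - (t + v) i = (v' - v) i := by
      simp only [Pi.add_apply, Pi.sub_apply]
      ring
    rw [h6]
    rw [dist_comm, dist_eq_norm] at hv''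
    exact (norm_le_pi_norm (v' - v) i).trans_lt hv''
  · exact he v (fun i => (hv i).trans_le ((min_le_right _ _).trans (min_le_left _ _)))
      (hc v fun i => (hv i).trans_le (min_le_left _ _)) hs φ hφ
  · obtain ⟨Y, hY0, hYs, hY⟩ := final_ray ht T hA hr hB h3.le (fun i => ((hv i).trans_le
      ((min_le_right _ _).trans (min_le_right _ _))).le) h4 fun s hs => by
        refine hc (s • v) fun i => ?_
        rw [Pi.smul_apply, smul_eq_mul, norm_mul]
        calc ‖s‖ * ‖v i‖ ≤ 1 * ‖v i‖ := mul_le_mul_of_nonneg_right hs (norm_nonneg _)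
          _ < ρ₁ := by rw [one_mul]; exact (hv i).trans_le (min_le_left _ _)
    obtain ⟨U, hU1, hU2, hU3, hU4, hU5, hU6⟩ := hY M
    have hcomb' : ∀ j, ∑ i, U i j • T.ch i = comb U T.ch j := fun j => congrFun (hcomb U) j
    simp only [hcomb'] at hU2 hU3 hU4 hU5
    refine ⟨U, hU1, hU2, hU3, hU4, hU5, Y 1, ⟨Y, hY0, fun w => rfl, fun s hs w i j => ?_⟩,
      fun w i j => ?_⟩
    · have h7 := hYs s hs w i j
      have h8 : (fun a => t a + s * ((t + v) a - t a)) = t + s • v := by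
        funext a
        simp only [Pi.add_apply, Pi.smul_apply, smul_eq_mul]
        ring
      have h9 : (fun a => (t + v) a - t a) = v := by
        funext a
        simp only [Pi.add_apply]
        ring
      rw [h8, h9]
      exact h7
    · rw [hU6 w]
      rfl

end Pool.Agent.DST
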