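import Pool.Agent.DST.VEul

/-!
# DST-GTay: expansion in the directions of `H^2(X)`

PLAN. Everything is in the proofs of the private lemmas `veul_hasSum_P`, `veul_inv_add`, `veul_corr`, `veul_corrAt`,
`veul_term`, `veul_g`, `veul_fact`, `veul_map_prod` of `VEul.lean` (copy what you need with new names):
`coeff (a + b) (X.ser s) = 1/(a! b!) ∑_β inv β (s + a + b)`, `b` supported in degree one, `a` off degree one,
`inv β (s + a + b) = ∏ (period β i)^{b_i} inv β (s + a)` (`X.divisor`; for `β = zero` the periods are `0` by `h0` and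
`degree_zero`), the sum over `β` is finite and the same finite set works for all `b`. So the left side is
`1/a! ∑_β inv β (s + a) ∑_b ∏ (t' i period β i)^{b_i} / b_i! = 1/a! ∑_β inv β (s+a) exp(∑ t' i period β i)`, which is
`(coeff a (serAt T t' s)).eval 0`. (It is `veul_term` for `t := t'` and `v i := if deg i = 1 then 0 else 1`, because then
`term X (t' + v) s (a + b) = coeff (a+b) (X.ser s) * ∏ t' i ^ b i`.)
-/

open scoped BigOperators Topology
open Filter

namespace Pool.Agent.DST

open Pool.Agent.Helper18.Dub Pool.Agent.Helper7.DubStokes Pool.Agent.SHF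

variable {N : ℕ} {X : FanoGW (Fin N)}

private theorem gtay_inv_add (X : FanoGW (Fin N)) (h0 : ∀ i, X.period X.zero i = 0) (β : X.Curve)
    {s : Multiset (Fin N)} (hs : 3 ≤ Multiset.card s) (M : Multiset (Fin N))
    (hM : ∀ i ∈ M, X.deg i = 1) :
    X.inv β (s + M) = (M.map (X.period β)).prod * X.inv β s := by
  by_cases hβ : β = X.zero
  · subst hβ
    rcases Multiset.empty_or_exists_mem M with h | ⟨a, ha⟩
    · subst h
      simp
    · have h1 : 4 ≤ Multiset.card (s + M) := by
        have : 0 < Multiset.card M := Multiset.card_pos_iff_exists_mem.2 ⟨a, ha⟩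
        rw [Multiset.card_add]
        omega
      rw [X.degree_zero _ h1]
      have h2 : (M.map (X.period X.zero)).prod = 0 := by
        rw [Multiset.prod_eq_zero_iff]
        exact Multiset.mem_map.2 ⟨a, ha, h0 a⟩
      rw [h2, zero_mul]
  · induction M using Multiset.induction_on with
    | empty => simp
    | cons a M ih =>
      have h1 : s + a ::ₘ M = a ::ₘ (s + M) := Multiset.add_cons a s M
      have h2 : 3 ≤ Multiset.card (s + M) := by
        rw [Multiset.card_add]
        omega
      rw [h1, X.divisor β (s + M) a hβ h2 (hM a (Multiset.mem_cons_self a M)),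
        ih (fun i hi => hM i (Multiset.mem_cons_of_mem hi)), Multiset.map_cons,
        Multiset.prod_cons, mul_assoc]

private theorem gtay_map_prod (m : Fin N →₀ ℕ) (f : Fin N → ℂ) :
    ((Finsupp.toMultiset m).map f).prod = ∏ i, f i ^ m i := by
  rw [Finset.prod_multiset_map_count]
  rw [Finset.prod_subset (Finset.subset_univ _)]
  · exact Finset.prod_congr rfl fun i _ => by rw [Finsupp.count_toMultiset]
  · intro i _ hi
    rw [Multiset.mem_toFinset, ← Multiset.count_ne_zero, not_not] at hi
    rw [hi, pow_zero]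

private theorem gtay_finite_c1_le (X : FanoGW (Fin N)) (n : ℕ) : {β | X.c1 β ≤ n}.Finite := by
  have h : {β | X.c1 β ≤ n} ⊆ ⋃ k ∈ Set.Iic n, {β | X.c1 β = k} := by
    intro β hβ
    simp only [Set.mem_iUnion]
    exact ⟨X.c1 β, hβ, rfl⟩
  exact ((Set.finite_Iic n).biUnion fun k _ => X.c1_finite k).subset h

private theorem gtay_deg_one {d : Fin N → ℕ} {m : Fin N →₀ ℕ} (hm : ∀ i, m i ≠ 0 → d i = 1) :
    ∀ i ∈ Finsupp.toMultiset m, d i = 1 := by
  intro i hi
  apply hm i
  rw [← Finsupp.count_toMultiset]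
  exact Multiset.count_ne_zero.2 hi

private theorem gtay_corr (X : FanoGW (Fin N)) (s M : Multiset (Fin N))
    (hM : ∀ i ∈ M, X.deg i = 1) :
    X.corr (s + M) = ∑ β ∈ (gtay_finite_c1_le X ((s.map X.deg).sum + 3)).toFinset,
      X.inv β (s + M) := by
  unfold GWData.corr
  apply finsum_eq_sum_of_support_subset
  intro β hβ
  rw [Function.mem_support] at hβ
  have h4 := X.dimension β _ hβ
  rw [Multiset.map_add, Multiset.sum_add, Multiset.card_add] at h4
  have h5 : (M.map X.deg).sum = Multiset.card M := by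
    rw [Multiset.map_congr rfl hM]
    simp
  rw [h5] at h4
  rw [Set.Finite.coe_toFinset, Set.mem_ofPred_eq]
  omega

private theorem gtay_corrAt (T : EquivGW X) (t : Fin N → ℂ) (s M : Multiset (Fin N))
    (hM : ∀ i ∈ M, X.deg i = 1) :
    (corrAt T.toEquivData t (s + M)).eval 0 =
      ∑ β ∈ (gtay_finite_c1_le X ((s.map X.deg).sum + 3)).toFinset,
        Complex.exp (∑ i, t i * X.period β i) * X.inv β (s + M) := by
  have h1 : corrAt T.toEquivData t (s + M) =
      ∑ β ∈ (gtay_finite_c1_le X ((s.map X.deg).sum + 3)).toFinset,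
      Polynomial.C (Complex.exp (∑ i, t i * X.period β i)) * T.invT β (s + M) := by
    unfold corrAt
    apply finsum_eq_sum_of_support_subset
    intro β hβ
    rw [Function.mem_support] at hβ
    have h2 : T.invT β (s + M) ≠ 0 := right_ne_zero_of_mul hβ
    obtain ⟨n, hn⟩ : ∃ n, (T.invT β (s + M)).coeff n ≠ 0 := by
      by_contra h
      push Not at h
      exact h2 (Polynomial.ext (by simpa using h))
    have h3 := T.dimension β (s + M) n hn
    rw [Multiset.map_add, Multiset.sum_add, Multiset.card_add] at h3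
    have h5 : (M.map X.deg).sum = Multiset.card M := by
      rw [Multiset.map_congr rfl hM]
      simp
    rw [h5] at h3
    rw [Set.Finite.coe_toFinset, Set.mem_ofPred_eq]
    omega
  rw [h1, Polynomial.eval_finsetSum]
  apply Finset.sum_congr rfl
  intro β _
  rw [Polynomial.eval_mul, Polynomial.eval_C, T.inv_zero]

private theorem gtay_hasSum_P (d : Fin N → ℕ) (x : Fin N → ℂ) :
    HasSum (fun m : {m : Fin N →₀ ℕ // ∀ i, m i ≠ 0 → d i = 1} =>
      ∏ i, (x i ^ m.1 i / ((m.1 i).factorial : ℂ)))
      (Complex.exp (∑ i, if d i = 1 then x i else 0)) := by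
  have h1 := hasSum_prod_exp (fun i => if d i = 1 then x i else 0)
  have h2 : Function.support (fun m : Fin N →₀ ℕ =>
      ∏ i, ((if d i = 1 then x i else 0) ^ m i / ((m i).factorial : ℂ))) ⊆
      {m : Fin N →₀ ℕ | ∀ i, m i ≠ 0 → d i = 1} := by
    intro m hm i hi
    by_contra h
    rw [Function.mem_support] at hm
    apply hm
    apply Finset.prod_eq_zero (Finset.mem_univ i)
    rw [if_neg h, zero_pow hi, zero_div]
  have h3 := (hasSum_subtype_iff_of_support_subset h2).2 h1
  have h4 : (fun m : {m : Fin N →₀ ℕ // ∀ i, m i ≠ 0 → d i = 1} =>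
      ∏ i, (x i ^ m.1 i / ((m.1 i).factorial : ℂ))) = fun m =>
      ∏ i, ((if d i = 1 then x i else 0) ^ m.1 i / ((m.1 i).factorial : ℂ)) := by
    funext m
    refine Finset.prod_congr rfl fun i _ => ?_
    by_cases h : d i = 1
    · rw [if_pos h]
    · have h4 : m.1 i = 0 := by
        by_contra h5
        exact h (m.2 i h5)
      rw [h4, pow_zero, pow_zero]
  rw [h4]
  exact h3

private theorem gtay_congr {α : Type} {f g : α → ℂ} {c : ℂ} (h : HasSum f c)
    (hfg : ∀ a, g a = f a) : HasSum g c := by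
  have h1 : g = f := funext hfg
  rw [h1]
  exact h

private theorem gtay_fact {d : Fin N → ℕ} (a : {m : Fin N →₀ ℕ // ∀ i, m i ≠ 0 → d i ≠ 1})
    (b : {m : Fin N →₀ ℕ // ∀ i, m i ≠ 0 → d i = 1}) :
    (∏ i, (((a.1 + b.1) i).factorial : ℂ)) =
      (∏ i, ((a.1 i).factorial : ℂ)) * ∏ i, ((b.1 i).factorial : ℂ) := by
  rw [← Finset.prod_mul_distrib]
  refine Finset.prod_congr rfl fun i _ => ?_
  rw [Finsupp.add_apply]
  by_cases h : d i = 1
  · have h1 : a.1 i = 0 := by
      by_contra h2
      exact a.2 i h2 h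
    rw [h1, zero_add, Nat.factorial_zero, Nat.cast_one, one_mul]
  · have h1 : b.1 i = 0 := by
      by_contra h2
      exact h (b.2 i h2)
    rw [h1, add_zero, Nat.factorial_zero, Nat.cast_one, mul_one]

theorem h2_taylor (T : EquivGW X) (h0 : ∀ i, X.period X.zero i = 0) {t' : Fin N → ℂ}
    (ht' : ∀ i, t' i ≠ 0 → X.deg i = 1) {s : Multiset (Fin N)} (hs : 3 ≤ Multiset.card s)
    (a : {m : Fin N →₀ ℕ // ∀ i, m i ≠ 0 → X.deg i ≠ 1}) :
    HasSum (fun b : {m : Fin N →₀ ℕ // ∀ i, m i ≠ 0 → X.deg i = 1} =>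
      MvPowerSeries.coeff (a.1 + b.1) (X.ser s) * ∏ i, t' i ^ b.1 i)
      ((MvPowerSeries.coeff a.1 (serAt T.toEquivData t' s)).eval 0) := by
  have h1 := (hasSum_sum (s := (gtay_finite_c1_le X
    (((s + Finsupp.toMultiset a.1).map X.deg).sum + 3)).toFinset) fun β _ =>
    (gtay_hasSum_P X.deg (fun i => t' i * X.period β i)).mul_left
      (X.inv β (s + Finsupp.toMultiset a.1))).mul_left
      (1 / (∏ i, ((a.1 i).factorial : ℂ)))
  have hs' : 3 ≤ Multiset.card (s + Finsupp.toMultiset a.1) := by
    rw [Multiset.card_add]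
    omega
  have hR : (MvPowerSeries.coeff a.1 (serAt T.toEquivData t' s)).eval 0 =
      1 / (∏ i, ((a.1 i).factorial : ℂ)) *
      ∑ β ∈ (gtay_finite_c1_le X (((s + Finsupp.toMultiset a.1).map X.deg).sum + 3)).toFinset,
        X.inv β (s + Finsupp.toMultiset a.1) *
          Complex.exp (∑ i, if X.deg i = 1 then t' i * X.period β i else 0) := by
    have h2 : MvPowerSeries.coeff a.1 (serAt T.toEquivData t' s) =
        Polynomial.C (∏ i, ((a.1 i).factorial : ℂ))⁻¹ *
          corrAt T.toEquivData t' (s + Finsupp.toMultiset a.1) := rfl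
    have h3 := gtay_corrAt T t' (s + Finsupp.toMultiset a.1) 0 (by simp)
    rw [add_zero] at h3
    rw [h2, Polynomial.eval_mul, Polynomial.eval_C, h3, one_div]
    congr 1
    refine Finset.sum_congr rfl fun β _ => ?_
    rw [mul_comm]
    congr 2
    refine Finset.sum_congr rfl fun i _ => ?_
    by_cases h : X.deg i = 1
    · rw [if_pos h]
    · have h4 : t' i = 0 := by
        by_contra h5
        exact h (ht' i h5)
      rw [if_neg h, h4, zero_mul]
  rw [hR]
  refine gtay_congr h1 fun b => ?_
  have h2 : MvPowerSeries.coeff (a.1 + b.1) (X.ser s) =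
      X.corr (s + Finsupp.toMultiset (a.1 + b.1)) / (∏ i, (((a.1 + b.1) i).factorial : ℂ)) := rfl
  have hM := gtay_deg_one b.2
  rw [h2, gtay_fact a b, map_add, ← add_assoc, gtay_corr X _ _ hM, Finset.mul_sum,
    Finset.sum_div, Finset.sum_mul]
  refine Finset.sum_congr rfl fun β _ => ?_
  rw [gtay_inv_add X h0 β hs' _ hM, gtay_map_prod, Finset.prod_div_distrib]
  simp_rw [mul_pow]
  rw [Finset.prod_mul_distrib]
  ring

end Pool.Agent.DST
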