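import Pool.Agent.DST.ESemi

/-!
# DST-GTw: the theory with the class `β` weighted by `e^{∫_β t}`, `t ∈ H^2(X)`
-/

open scoped BigOperators Topology
open Filter

namespace Pool.Agent.DST

open Pool.Agent.Helper18.Dub Pool.Agent.Helper7.DubStokes Pool.Agent.SHF

variable {N : ℕ} {X : FanoGW (Fin N)} {t : Fin N → ℂ}

/-- the weight `e^{∫_β t}` -/
noncomputable def wtw (X : FanoGW (Fin N)) (t : Fin N → ℂ) (β : X.Curve) : ℂ :=
  Complex.exp (∑ i, t i * X.period β i)

theorem wtw_ne (X : FanoGW (Fin N)) (t : Fin N → ℂ) (β : X.Curve) : wtw X t β ≠ 0 :=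
  Complex.exp_ne_zero _

theorem wtw_zero (h0 : ∀ i, X.period X.zero i = 0) : wtw X t X.zero = 1 := by
  unfold wtw
  simp [h0]

/-- the numbers, weighted -/
noncomputable def twData (X : FanoGW (Fin N)) (t : Fin N → ℂ) : GWData (Fin N) where
  dim := X.dim
  deg := X.deg
  one := X.one
  pair := X.pair
  Curve := X.Curve
  zero := X.zero
  c1 := X.c1
  chern := X.chern
  period := X.period
  inv := fun β s => wtw X t β * X.inv β s

theorem finite_supp (T : EquivGW X) (s : Multiset (Fin N)) (f : X.Curve → ℂ) :
    (Function.support fun β => Polynomial.C (f β) * T.invT β s).Finite := by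
  have h : (Function.support fun β => Polynomial.C (f β) * T.invT β s) ⊆
      ⋃ k ∈ Set.Iic ((s.map X.deg).sum + 3), {β | X.c1 β = k} := by
    intro β hβ
    rw [Function.mem_support] at hβ
    have h1 : T.invT β s ≠ 0 := right_ne_zero_of_mul hβ
    obtain ⟨n, hn⟩ : ∃ n, (T.invT β s).coeff n ≠ 0 := by
      by_contra h'
      push Not at h'
      exact h1 (Polynomial.ext (by simpa using h'))
    have h2 := T.dimension β s n hn
    simp only [Set.mem_iUnion]
    exact ⟨X.c1 β, by rw [Set.mem_Iic]; omega, rfl⟩
  exact ((Set.finite_Iic _).biUnion fun k _ => X.c1_finite k).subset h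

theorem corr_tw (T : EquivGW X) (s : Multiset (Fin N)) :
    (twData X t).corr s = (corrAt T.toEquivData t s).eval 0 := by
  unfold corrAt
  have h1 := (Polynomial.evalRingHom (0 : ℂ)).toAddMonoidHom.map_finsum
    (finite_supp T s fun β => Complex.exp (∑ i, t i * X.period β i))
  refine Eq.trans ?_ h1.symm
  unfold GWData.corr
  apply finsum_congr
  intro β
  show wtw X t β * X.inv β s = (Polynomial.C _ * T.invT β s).eval 0
  rw [Polynomial.eval_mul, Polynomial.eval_C, T.inv_zero]
  rfl

theorem ser_tw (T : EquivGW X) (s : Multiset (Fin N)) :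
    (twData X t).ser s = MvPowerSeries.map (Polynomial.evalRingHom 0) (serAt T.toEquivData t s) := by
  ext1 m
  rw [MvPowerSeries.coeff_map]
  have h1 : MvPowerSeries.coeff m ((twData X t).ser s) =
      (twData X t).corr (s + Finsupp.toMultiset m) / ∏ i, ((m i).factorial : ℂ) := rfl
  have h2 : MvPowerSeries.coeff m (serAt T.toEquivData t s) =
      Polynomial.C (∏ i, ((m i).factorial : ℂ))⁻¹ *
        corrAt T.toEquivData t (s + Finsupp.toMultiset m) := rfl
  rw [h1, h2, corr_tw T, Polynomial.coe_evalRingHom, Polynomial.eval_mul, Polynomial.eval_C,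
    div_eq_inv_mul]

theorem pairT_inv_zero (T : EquivGW X) (k l : Fin N) :
    (T.pairT⁻¹ k l).eval 0 = X.pair⁻¹ k l := by
  have h1 : T.pairT.map (Polynomial.evalRingHom 0) = X.pair := by
    ext i j
    simpa using T.pair_zero i j
  have h2 : T.pairT * T.pairT⁻¹ = 1 := Matrix.mul_nonsing_inv _ T.pair_nondeg
  have h3 : X.pair * T.pairT⁻¹.map (Polynomial.evalRingHom 0) = 1 := by
    rw [← h1, ← Matrix.map_mul, h2]
    exact Matrix.map_one _ (map_zero _) (map_one _)
  have h4 := Matrix.inv_eq_right_inv h3
  rw [h4]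
  rfl

/-- the weighted theory -/
noncomputable def twX (T : BulkGW X t) (ht : ∀ i, t i ≠ 0 → X.deg i = 1) : FanoGW (Fin N) where
  toGWData := twData X t
  deg_one := X.deg_one
  pair_symm := X.pair_symm
  pair_nondeg := X.pair_nondeg
  pair_deg := X.pair_deg
  c1_eq_zero := X.c1_eq_zero
  c1_finite := X.c1_finite
  chern_deg := X.chern_deg
  chern_period := X.chern_period
  dimension := fun β s h => X.dimension β s (right_ne_zero_of_mul h)
  unit_zero := fun i j => by
    show wtw X t X.zero * X.inv X.zero {X.one, i, j} = X.pair i j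
    rw [wtw_zero T.period_zero, one_mul, X.unit_zero]
  unit_ne := fun β i j h => by
    show wtw X t β * X.inv β {X.one, i, j} = 0
    rw [X.unit_ne β i j h, mul_zero]
  unit_many := fun β s h => by
    show wtw X t β * X.inv β (X.one ::ₘ s) = 0
    rw [X.unit_many β s h, mul_zero]
  degree_zero := fun s h => by
    show wtw X t X.zero * X.inv X.zero s = 0
    rw [X.degree_zero s h, mul_zero]
  divisor := fun β s i h1 h2 h3 => by
    show wtw X t β * X.inv β (i ::ₘ s) = X.period β i * (wtw X t β * X.inv β s)
    rw [X.divisor β s i h1 h2 h3]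
    ring
  wdvv := by
    intro a b c d
    have h := congrArg (MvPowerSeries.map (σ := Fin N) (Polynomial.evalRingHom 0))
      (T.wdvvAt t ht a b c d)
    simp only [map_sum, map_mul, MvPowerSeries.map_C, ← ser_tw T.toEquivGW,
      Polynomial.coe_evalRingHom, pairT_inv_zero] at h
    exact h

/-- the weighted equivariant theory -/
noncomputable def twE (T : BulkGW X t) (ht : ∀ i, t i ≠ 0 → X.deg i = 1) :
    EquivGW (twX T ht) where
  pairT := T.pairT
  invT := fun β s => Polynomial.C (wtw X t β) * T.invT β s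
  pair_zero := T.pair_zero
  inv_zero := fun β s => by
    show (Polynomial.C (wtw X t β) * T.invT β s).eval 0 = wtw X t β * X.inv β s
    rw [Polynomial.eval_mul, Polynomial.eval_C, T.inv_zero]
  pair_symm := T.pair_symm
  pair_nondeg := T.pair_nondeg
  pair_deg := T.pair_deg
  dimension := fun β s n h => by
    refine T.dimension β s n fun h' => h ?_
    rw [Polynomial.coeff_C_mul, h', mul_zero]
  unit_zero := fun i j => by
    show Polynomial.C (wtw X t X.zero) * T.invT X.zero {X.one, i, j} = T.pairT i j
    rw [wtw_zero T.period_zero, Polynomial.C_1, one_mul, T.unit_zero]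
  unit_ne := fun β i j h => by
    show Polynomial.C (wtw X t β) * T.invT β {X.one, i, j} = 0
    rw [T.unit_ne β i j h, mul_zero]
  unit_many := fun β s h => by
    show Polynomial.C (wtw X t β) * T.invT β (X.one ::ₘ s) = 0
    rw [T.unit_many β s h, mul_zero]
  wdvv := T.wdvvAt t ht

theorem mulMatT_tw (T : BulkGW X t) (ht : ∀ i, t i ≠ 0 → X.deg i = 1) (a : Fin N) :
    (twE T ht).mulMatT a = mulAt T.toEquivData t a := rfl

theorem cupMatT_tw (T : BulkGW X t) (ht : ∀ i, t i ≠ 0 → X.deg i = 1) (a : Fin N) :
    (twE T ht).cupMatT a = T.cupMatT a := by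
  ext1 k b
  show ∑ l, T.pairT⁻¹ k l * (Polynomial.C (wtw X t X.zero) * T.invT X.zero {a, b, l}) =
    ∑ l, T.pairT⁻¹ k l * T.invT X.zero {a, b, l}
  rw [wtw_zero T.period_zero, Polynomial.C_1]
  simp only [one_mul]

/-- the weighted theory, with the shift operator at `t` -/
noncomputable def twT (T : BulkGW X t) (ht : ∀ i, t i ≠ 0 → X.deg i = 1) :
    TorusGW (twX T ht) where
  toEquivGW := twE T ht
  k := -1
  k_ne := by norm_num
  S := T.Sb.map (MvPowerSeries.map negZ)
  isUnit_S := isUnit_map_aux negZ _ (isUnit_Sb T)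
  intertwine := fun a => by
    have h := T.intertwine a
    rw [← mulMatT_tw T ht] at h
    exact flip_aux negZ _ negZ_X _ _ _ _ a h (map_C_aux _ a) (map_shift_aux _ a)

theorem semisimple_tw (T : BulkGW X t) (ht : ∀ i, t i ≠ 0 → X.deg i = 1) :
    (twX T ht).IsGenericallySemisimple := by
  classical
  have hmain := (twT T ht).main.2.2.2
  set r : Fin N → (Fin N → Polynomial ℂ) := fun p a =>
    Polynomial.C (T.res p a) * Polynomial.X ^ X.deg a with hr
  have hinj : Function.Injective r := by
    intro p q h
    have h1 : ∀ a, T.res p a = T.res q a := by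
      intro a
      have h2 := congrFun h a
      simp only [hr] at h2
      have h3 := congrArg (Polynomial.eval 1) h2
      simpa using h3
    have h4 : (∑ k, (T.wt p k : ℂ)) = ∑ k, (T.wt q k : ℂ) := by
      rw [← T.chern_res p, ← T.chern_res q]
      simp only [h1]
    have h5 : (∑ k, T.wt p k) = ∑ k, T.wt q k := by exact_mod_cast h4
    exact T.strict.injective h5
  have hP := hmain (Finset.univ.image r) (by
    intro f hf
    obtain ⟨p, -, rfl⟩ := Finset.mem_image.1 hf
    refine ⟨(T.isRestriction p).one, fun a b => ?_⟩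
    have := (T.isRestriction p).mul a b
    show r p a * r p b = ∑ k, (twE T ht).cupMatT a k b * r p k
    rw [cupMatT_tw T ht]
    exact this)
  apply hP.2
  rw [Finset.card_image_of_injective _ hinj, Finset.card_univ]

end Pool.Agent.DST
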