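import Pool.Agent.DST.Ev
import Pool.Agent.SHF.Defs
import Pool.Agent.Helper7.DubStokes.Defs

/-!
# Project DST: equivariant quantum cohomology with isolated fixed points and its `Γ`-solutions
-/

open scoped BigOperators Topology
open Filter

namespace Pool.Agent.DST

open Pool.Agent.Helper18.Dub Pool.Agent.Helper7.DubStokes Pool.Agent.SHF

section defs

variable {N : ℕ} {X : FanoGW (Fin N)} (T : EquivData X) (t : Fin N → ℂ) (κ : ℂ)

/-- The correlator `⟨φ_{i_1}, …, φ_{i_n}⟩` with the class `β` weighted by `e^{∫_β t}`,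
`t ∈ H^2(X)`. -/
noncomputable def corrAt (s : Multiset (Fin N)) : Polynomial ℂ :=
  ∑ᶠ β, Polynomial.C (Complex.exp (∑ i, t i * X.period β i)) * T.invT β s

/-- The matrix of equivariant quantum multiplication by `c_1^T(X) = ∑_a chern_a φ_a + κ λ` at the
point `t ∈ H^2(X)`. -/
noncomputable def chernT : Matrix (Fin N) (Fin N) (Polynomial ℂ) :=
  (Matrix.of fun k b => ∑ a, Polynomial.C (X.chern a) * ∑ l, T.pairT⁻¹ k l * corrAt T t {a, b, l}) +
    (Polynomial.C κ * Polynomial.X) • 1

/-- The matrix of the classical equivariant cup product with `c_1^T(X)`. -/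
noncomputable def cupChernT : Matrix (Fin N) (Fin N) (Polynomial ℂ) :=
  (∑ a, Polynomial.C (X.chern a) • T.cupMatT a) + (Polynomial.C κ * Polynomial.X) • 1

/-- The value of a matrix of polynomials in `λ`. -/
noncomputable def evm (M : Matrix (Fin N) (Fin N) (Polynomial ℂ)) (x : ℂ) :
    Matrix (Fin N) (Fin N) ℂ := M.map (Polynomial.eval x)

/-- The value of a matrix of polynomials in `λ` and `z`. -/
noncomputable def evm₂ (M : Matrix (Fin N) (Fin N) (Polynomial (Polynomial ℂ))) (x z : ℂ) :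
    Matrix (Fin N) (Fin N) ℂ := M.map (Polynomial.evalEval x z)

end defs

/-- Equivariant genus-zero theory of a Fano manifold `X` with an action of `ℂ^*` with `N = dim H^*(X)`
isolated fixed points, on which `c_1(X)` has pairwise distinct weights; equivariant `K`-theory; and
the `Γ`-solutions of the equivariant quantum differential and difference equations at the point
`t ∈ H^2(X)`. -/
structure GammaGW {N : ℕ} (X : FanoGW (Fin N)) (t : Fin N → ℂ) extends EquivGW X where
  /-- `∫_0 φ_i = 0` -/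
  period_zero : ∀ i, X.period X.zero i = 0
  /-- the tangent weights at the fixed points -/
  wt : Fin N → Fin X.dim → ℤ
  wt_ne : ∀ p k, wt p k ≠ 0
  /-- the fixed points are numbered by increasing weight of `c_1(X)` -/
  strict : StrictMono fun p => ∑ k, wt p k
  /-- the restriction of `φ_a` to the fixed point `p` is `res p a λ^{deg a}` -/
  res : Fin N → Fin N → ℂ
  isRestriction : ∀ p, toEquivData.IsRestriction
    (fun a => Polynomial.C (res p a) * Polynomial.X ^ X.deg a)
  /-- Atiyah–Bott localisation -/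
  localization : ∀ a b, (pairT a b).eval 1 = ∑ p, res p a * res p b / ∏ k, (wt p k : ℂ)
  /-- `c_1^T(X) = ∑_a chern_a φ_a + κ λ` -/
  κ : ℂ
  chern_res : ∀ p, ∑ a, X.chern a * res p a + κ = ∑ k, (wt p k : ℂ)
  /-- `B i p` is the restriction to `p` of the `i`-th element of a basis of `K_T(X)` over
  `ℤ[q^{±1}]` -/
  B : Matrix (Fin N) (Fin N) (LaurentPolynomial ℤ)
  B_tri : ∀ i p, p < i → B i p = 0
  B_diag : ∀ p, B p p = ∏ k, if 0 < wt p k then 1 - LaurentPolynomial.T (wt p k) else 1
  /-- the equivariant Euler pairing `∑ (-1)^k ch_T Ext^k` of the basis -/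
  χ : Matrix (Fin N) (Fin N) (LaurentPolynomial ℤ)
  χ_unit : IsUnit χ.det
  χ_loc : ∀ y : ℂ, y.im ≠ 0 → ∀ i j, evZ y (χ i j) =
    ∑ p, evZ (-y) (B i p) * evZ y (B j p) /
      ∏ k, (1 - Complex.exp (-(2 * Real.pi * Complex.I * y * wt p k)))
  /-- the Todd class and the Chern characters of the non-equivariant basis -/
  Td : Fin N → ℂ
  todd : IsToddLike X Td
  ch : Fin N → Fin N → ℂ
  hrr : ∀ i j, eulerForm X Td (ch i) (ch j) = evZ 0 (χ i j)
  /-- the shift operator `S(λ, z)` at `t`, from `λ - z` to `λ`, for solutions of `z ∂_a J = φ_a • J` -/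
  S : Matrix (Fin N) (Fin N) (Polynomial (Polynomial ℂ))
  isUnit_S : IsUnit S.det
  /-- the columns of `J(y, w)`, `z = e^w`, are the solutions attached to the basis of `K_T(X)`, at
  the value `λ = y z` of the equivariant parameter -/
  J : ℂ → ℂ → Matrix (Fin N) (Fin N) ℂ
  J_entire : ∀ i j, Differentiable ℂ fun p : ℂ × ℂ => J p.1 p.2 i j
  J_ode : ∀ y w i j, HasDerivAt (fun w => J y w i j)
    (((theta X - Complex.exp (-w) • evm (chernT toEquivData t κ) (y * Complex.exp w)) *
      J y w) i j) w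
  J_shift : ∀ y w, J y w = evm₂ S (y * Complex.exp w) (Complex.exp w) * J (y - 1) w
  /-- `J = z^θ 𝓜(y, z) z^{-c_1^T} e^{iπ c_1^T} Γ̂ Ch` for `y ∉ ℝ`, with `𝓜 → 1` as `z → ∞` -/
  cal : ℂ → ℂ → Matrix (Fin N) (Fin N) ℂ
  cal_lim : ∀ y : ℂ, y.im ≠ 0 → ∀ i j,
    Tendsto (fun z => cal y z i j) (Bornology.cobounded ℂ) (𝓝 ((1 : Matrix _ _ ℂ) i j))
  G : ℂ → Matrix (Fin N) (Fin N) ℂ
  G_res : ∀ y : ℂ, y.im ≠ 0 → ∀ p i, ∑ a, res p a * y ^ X.deg a * G y a i =
    Complex.exp ((∑ a, t a * res p a + Real.pi * Complex.I * ∑ k, (wt p k : ℂ)) * y) *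
      evZ y (B i p) * ∏ k, Complex.Gamma (1 - wt p k * y)
  J_gamma : ∀ y : ℂ, y.im ≠ 0 → ∀ w, J y w =
    NormedSpace.exp (w • theta X) * cal y (Complex.exp w) *
      NormedSpace.exp (-w • evm (cupChernT toEquivData κ) y) * G y

end Pool.Agent.DST
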