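import Pool.Agent.WW.T3o

/-!
# DST-HA: circle integrals with holomorphic parameters, and the Cauchy formula for functions with
finitely many removable singularities
-/

open scoped BigOperators Topology
open Filter Metric MeasureTheory Complex

namespace Pool.Agent.DST.HA

theorem norm_fderiv_le {E : Type*} [NormedAddCommGroup E] [NormedSpace ℂ E] {f : E → ℂ} {y : E}
    {ρ C : ℝ} (hρ : 0 < ρ) (hC : 0 ≤ C) (hf : DifferentiableOn ℂ f (ball y ρ))
    (hb : ∀ x ∈ ball y ρ, ‖f x‖ ≤ C) : ‖fderiv ℂ f y‖ ≤ C / ρ :=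
  Pool.Agent.WW.T3o.norm_fderiv_le hρ hC hf hb

/-- The circle integral of a function depending holomorphically on a parameter. -/
theorem circle_param {g : ℂ × ℂ → ℂ → ℂ} {x0 : ℂ × ℂ} {r ε : ℝ} (hr : 0 < r) (hε : 0 < ε)
    (hg : ∀ x ∈ ball x0 r, ∀ s : ℂ, ‖s‖ = ε →
      DifferentiableAt ℂ (fun q : (ℂ × ℂ) × ℂ => g q.1 q.2) (x, s)) :
    DifferentiableAt ℂ (fun x => ∮ s in C(0, ε), s⁻¹ * g x s) x0 := by
  set G : (ℂ × ℂ) × ℂ → ℂ := fun q => g q.1 q.2 with hG
  have hK : IsCompact ((closedBall x0 (r / 2)) ×ˢ (sphere (0 : ℂ) ε)) :=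
    (isCompact_closedBall _ _).prod (isCompact_sphere _ _)
  have hGc : ContinuousOn G ((closedBall x0 (r / 2)) ×ˢ (sphere (0 : ℂ) ε)) := by
    rintro ⟨x, s⟩ ⟨hx, hs⟩
    refine (hg x ?_ s (mem_sphere_zero_iff_norm.1 hs)).continuousAt.continuousWithinAt
    exact (mem_closedBall.1 hx).trans_lt (by linarith)
  obtain ⟨C, hC⟩ := hK.exists_bound_of_continuousOn hGc
  have hC0 : 0 ≤ C := by
    have h1 := hC (x0, (ε : ℂ)) ⟨mem_closedBall_self (by positivity), by
      rw [mem_sphere_zero_iff_norm, Complex.norm_real, Real.norm_eq_abs, abs_of_pos hε]⟩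
    exact (norm_nonneg _).trans h1
  have hcm : Continuous (circleMap (0 : ℂ) ε) := continuous_circleMap 0 ε
  have hcm0 : ∀ θ, circleMap (0 : ℂ) ε θ ≠ 0 := fun θ => circleMap_ne_center hε.ne'
  have hcn : ∀ θ, ‖circleMap (0 : ℂ) ε θ‖ = ε := fun θ => by
    rw [norm_circleMap_zero, abs_of_pos hε]
  have hslice : ∀ x ∈ ball x0 r, ∀ s : ℂ, ‖s‖ = ε →
      HasFDerivAt (fun x => g x s) ((fderiv ℂ G (x, s)).comp
        (ContinuousLinearMap.inl ℂ (ℂ × ℂ) ℂ)) x := by
    intro x hx s hs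
    have h1 : HasFDerivAt G (fderiv ℂ G (x, s)) (x, s) := (hg x hx s hs).hasFDerivAt
    have h2 : HasFDerivAt (fun x : ℂ × ℂ => (x, s)) (ContinuousLinearMap.inl ℂ (ℂ × ℂ) ℂ) x :=
      hasFDerivAt_prodMk_left x s
    exact HasFDerivAt.comp x h1 h2
  have hfd : ∀ x ∈ ball x0 (r / 4), ∀ s : ℂ, ‖s‖ = ε → ‖(fderiv ℂ G (x, s)).comp
        (ContinuousLinearMap.inl ℂ (ℂ × ℂ) ℂ)‖ ≤ C / (r / 4) := by
    intro x hx s hs
    have hx' : x ∈ ball x0 r := ball_subset_ball (by linarith) hx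
    rw [← (hslice x hx' s hs).fderiv]
    have hsub : ball x (r / 4) ⊆ ball x0 (r / 2) := by
      apply ball_subset_ball'
      have := mem_ball.1 hx
      linarith
    refine norm_fderiv_le (by positivity) hC0 (fun z hz => ?_) fun z hz => ?_
    · exact (hslice z (ball_subset_ball (by linarith) (hsub hz)) s
        hs).differentiableAt.differentiableWithinAt
    · exact hC (z, s) ⟨ball_subset_closedBall (hsub hz), mem_sphere_zero_iff_norm.2 hs⟩
  -- the integrand
  set a : ℝ → ℂ := fun θ => deriv (circleMap 0 ε) θ * (circleMap 0 ε θ)⁻¹ with ha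
  have hac : Continuous a := by
    have h1 : deriv (circleMap (0 : ℂ) ε) = fun θ => circleMap 0 ε θ * Complex.I := by
      funext θ
      exact deriv_circleMap 0 ε θ
    rw [ha, h1]
    exact (hcm.mul continuous_const).mul (hcm.inv₀ hcm0)
  have hmain : HasFDerivAt (fun x => ∫ θ in (0 : ℝ)..2 * Real.pi, a θ * g x (circleMap 0 ε θ))
      (∫ θ in (0 : ℝ)..2 * Real.pi, a θ • (fderiv ℂ G (x0, circleMap 0 ε θ)).comp
        (ContinuousLinearMap.inl ℂ (ℂ × ℂ) ℂ)) x0 := by
    have hcF : ∀ x ∈ ball x0 (r / 4), Continuous fun θ => a θ * g x (circleMap 0 ε θ) := by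
      intro x hx
      refine hac.mul ?_
      have h1 : Continuous fun θ => ((x, circleMap 0 ε θ) : (ℂ × ℂ) × ℂ) := by fun_prop
      refine hGc.comp_continuous h1 fun θ => ⟨?_, mem_sphere_zero_iff_norm.2 (hcn θ)⟩
      exact ball_subset_closedBall (ball_subset_ball (by linarith) hx)
    apply intervalIntegral.hasFDerivAt_integral_of_dominated_of_fderiv_le
      (F := fun x θ => a θ * g x (circleMap 0 ε θ))
      (F' := fun x θ => a θ • (fderiv ℂ G (x, circleMap 0 ε θ)).comp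
        (ContinuousLinearMap.inl ℂ (ℂ × ℂ) ℂ))
      (bound := fun θ => ‖a θ‖ * (C / (r / 4)))
      (ball_mem_nhds x0 (by positivity : 0 < r / 4))
    · filter_upwards [ball_mem_nhds x0 (by positivity : 0 < r / 4)] with x hx
      exact (hcF x hx).aestronglyMeasurable
    · exact (hcF x0 (mem_ball_self (by positivity))).intervalIntegrable _ _
    · apply AEStronglyMeasurable.smul hac.aestronglyMeasurable
      have hm : Measurable fun θ => fderiv ℂ G (x0, circleMap 0 ε θ) :=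
        (measurable_fderiv ℂ G).comp (Continuous.measurable (by fun_prop))
      have hm2 : StronglyMeasurable fun θ => fderiv ℂ G (x0, circleMap 0 ε θ) :=
        hm.stronglyMeasurable
      have hc : Continuous fun L : ((ℂ × ℂ) × ℂ) →L[ℂ] ℂ =>
          L.comp (ContinuousLinearMap.inl ℂ (ℂ × ℂ) ℂ) := by fun_prop
      exact (hc.comp_stronglyMeasurable hm2).aestronglyMeasurable
    · refine Eventually.of_forall fun θ _ x hx => ?_
      rw [norm_smul]
      exact mul_le_mul_of_nonneg_left (hfd _ hx _ (hcn θ)) (norm_nonneg _)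
    · exact (Continuous.mul hac.norm continuous_const).intervalIntegrable _ _
    · refine Eventually.of_forall fun θ _ x hx => ?_
      exact (hslice x (ball_subset_ball (by linarith) hx) _ (hcn θ)).const_mul (a θ)
  have hev : (fun x => ∮ s in C(0, ε), s⁻¹ * g x s) =
      fun x => ∫ θ in (0 : ℝ)..2 * Real.pi, a θ * g x (circleMap 0 ε θ) := by
    funext x
    rw [circleIntegral]
    apply intervalIntegral.integral_congr
    intro θ _
    simp only [ha, smul_eq_mul]
    ring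
  rw [hev]
  exact hmain.differentiableAt

/-- Cauchy's formula for a function with finitely many removable singularities. -/
theorem cauchy_of_bdd {f : ℂ → ℂ} {ε ρ : ℝ} (hε : 0 < ε) (hρ : ε < ρ) {F : Set ℂ}
    (hF : F.Finite) (h0 : (0 : ℂ) ∉ F) (hs : ∀ s ∈ F, ‖s‖ ≠ ε)
    (hd : ∀ s, ‖s‖ < ρ → s ∉ F → DifferentiableAt ℂ f s)
    (hb : ∀ s ∈ F, ‖s‖ < ρ → ∃ C, ∀ᶠ s' in 𝓝[≠] s, ‖f s'‖ ≤ C) :
    (∮ s in C(0, ε), s⁻¹ * f s) = 2 * Real.pi * I * f 0 := by
  classical
  set g : ℂ → ℂ := fun s => if s ∈ F then limUnder (𝓝[≠] s) f else f s with hg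
  have hgF : ∀ s, s ∉ F → g s = f s := fun s hs => by simp [hg, hs]
  have hgd : ∀ s, ‖s‖ < ρ → DifferentiableAt ℂ g s := by
    intro s hsρ
    by_cases hsF : s ∈ F
    · obtain ⟨C, hC⟩ := hb s hsF hsρ
      have h1 : ∀ᶠ z in 𝓝 s, ‖z‖ < ρ :=
        (isOpen_lt continuous_norm continuous_const).mem_nhds hsρ
      have h2 : ∀ᶠ z in 𝓝[≠] s, z ∉ F := by
        have h3 : (F \ {s})ᶜ ∈ 𝓝 s :=
          (hF.subset Set.sdiff_subset).isClosed.isOpen_compl.mem_nhds (by simp)
        rw [eventually_nhdsWithin_iff]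
        filter_upwards [h3] with z hz hzs hzF
        exact hz ⟨hzF, hzs⟩
      have h4 : ∀ᶠ z in 𝓝[≠] s, ‖f z‖ ≤ C ∧ z ∉ F ∧ ‖z‖ < ρ :=
        hC.and (h2.and (h1.filter_mono nhdsWithin_le_nhds))
      rw [eventually_nhdsWithin_iff, Metric.eventually_nhds_iff_ball] at h4
      obtain ⟨η, hη, h5⟩ := h4
      have h6 : DifferentiableOn ℂ (Function.update f s (limUnder (𝓝[≠] s) f)) (ball s η) := by
        refine differentiableOn_update_limUnder_of_bddAbove (ball_mem_nhds s hη)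
          (fun z hz => (hd z (h5 z hz.1 hz.2).2.2 (h5 z hz.1 hz.2).2.1).differentiableWithinAt)
          ⟨C, ?_⟩
        rintro _ ⟨z, hz, rfl⟩
        exact (h5 z hz.1 hz.2).1
      have h7 : DifferentiableAt ℂ (Function.update f s (limUnder (𝓝[≠] s) f)) s :=
        (h6 s (mem_ball_self hη)).differentiableAt (ball_mem_nhds s hη)
      refine h7.congr_of_eventuallyEq ?_
      filter_upwards [ball_mem_nhds s hη] with z hz
      by_cases hzs : z = s
      · subst hzs
        simp [hg, hsF]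
      · rw [Function.update_of_ne hzs, hgF z (h5 z hz hzs).2.1]
    · refine (hd s hsρ hsF).congr_of_eventuallyEq ?_
      filter_upwards [hF.isClosed.isOpen_compl.mem_nhds hsF] with z hz
      exact hgF z hz
  have h1 : DifferentiableOn ℂ g (closedBall 0 ε) := fun s hs =>
    (hgd s ((mem_closedBall_zero_iff.1 hs).trans_lt hρ)).differentiableWithinAt
  have h2 := h1.circleIntegral_sub_inv_smul (mem_ball_self hε)
  rw [smul_eq_mul, hgF 0 h0] at h2
  rw [← h2]
  refine circleIntegral.integral_congr hε.le fun s hs' => ?_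
  have h3 : s ∉ F := fun h => hs s h (mem_sphere_zero_iff_norm.1 hs')
  simp only [sub_zero, smul_eq_mul, hgF s h3]

theorem int_discrete (z : ℂ) : ∃ r : ℝ, 0 < r ∧ ∀ n : ℤ, ‖(n : ℂ) - z‖ < r → (n : ℂ) = z := by
  by_cases hz : ∃ n : ℤ, (n : ℂ) = z
  · obtain ⟨n0, rfl⟩ := hz
    refine ⟨1, one_pos, fun n hn => ?_⟩
    have h1 : ‖((n - n0 : ℤ) : ℂ)‖ < 1 := by
      push_cast
      exact hn
    rw [Complex.norm_intCast] at h1
    have h2 : |n - n0| < 1 := by exact_mod_cast h1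
    have h3 : n - n0 = 0 := Int.abs_lt_one_iff.1 h2
    have h4 : n = n0 := by omega
    rw [h4]
  · have h1 : IsClosed (Set.range ((↑) : ℤ → ℂ)) := by
      have h2 : Topology.IsClosedEmbedding ((↑) : ℤ → ℂ) :=
        Complex.isometry_ofReal.isClosedEmbedding.comp Int.isClosedEmbedding_coe_real
      exact h2.isClosed_range
    have h3 : (Set.range ((↑) : ℤ → ℂ))ᶜ ∈ 𝓝 z := h1.isOpen_compl.mem_nhds (by
      rintro ⟨n, hn⟩
      exact hz ⟨n, hn⟩)
    obtain ⟨r, hr, h4⟩ := Metric.mem_nhds_iff.1 h3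
    refine ⟨r, hr, fun n hn => ?_⟩
    exact absurd ⟨n, rfl⟩ (h4 (by rwa [mem_ball, dist_eq_norm]))

end Pool.Agent.DST.HA
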