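import Pool.Agent.DST.HA

/-!
# DST-HB: extension across the resonances along a line

`f(y, w)` is holomorphic on `ℂ^m × ℂ` off the hyperplanes `d_i(y) ∈ ℤ` and bounded near the points
of these hyperplanes at which the integral forms are proportional. Then its restriction to the line
`ℂ ξ`, transversal to all the hyperplanes, extends to an entire function (Cauchy integrals over
circles in a general direction `v`).
-/

open scoped BigOperators Topology
open Filter Metric MeasureTheory Complex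

namespace Pool.Agent.DST.HB

variable {m : ℕ} {ι : Type*}

/-- `⟨a, y⟩` -/
def pr (a : Fin m → ℤ) (y : Fin m → ℂ) : ℂ := ∑ k, (a k : ℂ) * y k

/-- `⟨a, ξ⟩` -/
def ip (a ξ : Fin m → ℤ) : ℤ := ∑ k, a k * ξ k

/-- No form `d_i` is integral at `y`. -/
def Gen (d : ι → Fin m → ℤ) (y : Fin m → ℂ) : Prop := ∀ i (n : ℤ), pr (d i) y ≠ n

theorem pr_line (a ξ : Fin m → ℤ) (v : Fin m → ℂ) (y s : ℂ) :
    pr a (fun k => y * ξ k + s * v k) = y * (ip a ξ : ℂ) + s * pr a v := by
  simp only [pr, ip, Int.cast_sum, Int.cast_mul, Finset.mul_sum, ← Finset.sum_add_distrib]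
  exact Finset.sum_congr rfl fun k _ => by ring

theorem pr_line0 (a ξ : Fin m → ℤ) (y : ℂ) :
    pr a (fun k => y * ξ k) = y * (ip a ξ : ℂ) := by
  simp only [pr, ip, Int.cast_sum, Int.cast_mul, Finset.mul_sum]
  exact Finset.sum_congr rfl fun k _ => by ring

/-- a vector on which finitely many nonzero integral forms do not vanish -/
theorem exists_vec {κ : Type*} [Finite κ] (a : κ → Fin m → ℤ) (ha : ∀ i, a i ≠ 0) :
    ∃ v : Fin m → ℂ, ∀ i, pr (a i) v ≠ 0 := by
  have h1 := Module.Dual.exists_forall_ne_zero_of_forall_exists (K := ℂ) (M := Fin m → ℂ)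
    (fun i => ∑ k, (a i k : ℂ) • LinearMap.proj (R := ℂ) (φ := fun _ : Fin m => ℂ) k) fun i => by
      obtain ⟨k, hk⟩ := Function.ne_iff.1 (ha i)
      refine ⟨Pi.single k 1, ?_⟩
      rw [LinearMap.sum_apply]
      simp only [LinearMap.smul_apply, LinearMap.proj_apply, smul_eq_mul]
      rw [Finset.sum_eq_single k (fun j _ hj => by rw [Pi.single_eq_of_ne hj, mul_zero])
        (fun h => absurd (Finset.mem_univ k) h), Pi.single_eq_same, mul_one]
      exact_mod_cast hk
  obtain ⟨v, hv⟩ := h1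
  refine ⟨v, fun i => ?_⟩
  have h2 := hv i
  rw [LinearMap.sum_apply] at h2
  exact h2

/-- the direction `v` -/
theorem exists_dir [Finite ι] (d : ι → Fin m → ℤ) (ξ : Fin m → ℤ) (hξ : ∀ i, ip (d i) ξ ≠ 0) :
    ∃ v : Fin m → ℂ, (∀ i, pr (d i) v ≠ 0) ∧ ∀ i j,
      (ip (d j) ξ : ℂ) * pr (d i) v = (ip (d i) ξ : ℂ) * pr (d j) v →
      ∀ k, ip (d j) ξ * d i k = ip (d i) ξ * d j k := by
  classical
  let c : ι × ι → Fin m → ℤ := fun p k => ip (d p.2) ξ * d p.1 k - ip (d p.1) ξ * d p.2 k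
  let a : ι ⊕ {p : ι × ι // c p ≠ 0} → Fin m → ℤ := Sum.elim d fun p => c p.1
  obtain ⟨v, hv⟩ := exists_vec a (by
    rintro (i | p)
    · intro h
      apply hξ i
      have h1 : d i = 0 := h
      simp [ip, h1]
    · exact p.2)
  refine ⟨v, fun i => hv (Sum.inl i), fun i j hij k => ?_⟩
  by_contra hk
  have h1 : c (i, j) ≠ 0 := by
    intro h
    have h2 := congrFun h k
    simp only [c, Pi.zero_apply] at h2
    exact hk (by omega)
  have h2 := hv (Sum.inr ⟨(i, j), h1⟩)
  apply h2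
  show pr (c (i, j)) v = 0
  have h3 : pr (c (i, j)) v = (ip (d j) ξ : ℂ) * pr (d i) v - (ip (d i) ξ : ℂ) * pr (d j) v := by
    simp only [pr, c, Finset.mul_sum, ← Finset.sum_sub_distrib]
    refine Finset.sum_congr rfl fun k _ => ?_
    push_cast
    ring
  rw [h3, hij, sub_self]

theorem ext_line [Finite ι] (d : ι → Fin m → ℤ) (ξ : Fin m → ℤ) (hξ : ∀ i, ip (d i) ξ ≠ 0)
    (f : (Fin m → ℂ) → ℂ → ℂ)
    (hgen : ∀ y, Gen d y → ∀ w,
      DifferentiableAt ℂ (fun q : (Fin m → ℂ) × ℂ => f q.1 q.2) (y, w))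
    (hone : ∀ y i₀ (n₀ : ℤ), pr (d i₀) y = n₀ →
      (∀ i (n : ℤ), pr (d i) y = n → ∀ k, ip (d i₀) ξ * d i k = ip (d i) ξ * d i₀ k) →
      ∀ w, ∃ C : ℝ, ∀ᶠ y' in 𝓝 y, Gen d y' → ‖f y' w‖ ≤ C) :
    ∃ F : ℂ × ℂ → ℂ, Differentiable ℂ F ∧
      ∀ y w, ContinuousAt (fun y' => f (fun k => y' * ξ k) w) y →
        F (y, w) = f (fun k => y * ξ k) w := by
  classical
  obtain ⟨v, hv0, hv⟩ := exists_dir d ξ hξ
  have hx : ∀ i, (ip (d i) ξ : ℂ) ≠ 0 := fun i => by exact_mod_cast hξ i
  -- local extension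
  have hloc : ∀ y0 : ℂ, ∃ δ : ℝ, 0 < δ ∧ ∃ G : ℂ × ℂ → ℂ,
      (∀ y w, ‖y - y0‖ < δ → DifferentiableAt ℂ G (y, w)) ∧
      ∀ y w, ‖y - y0‖ < δ → y ≠ y0 → f (fun k => y * ξ k) w = G (y, w) := by
    intro y0
    choose r hr hr' using fun i => HA.int_discrete (y0 * (ip (d i) ξ : ℂ))
    -- ε
    have hε : ∀ᶠ ε in 𝓝[>] (0 : ℝ), ∀ i, 2 * ε * ‖pr (d i) v‖ < r i / 2 := by
      rw [eventually_all]
      intro i
      have h1 : Tendsto (fun ε : ℝ => 2 * ε * ‖pr (d i) v‖) (𝓝[>] 0) (𝓝 0) := by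
        have h2 : Tendsto (fun ε : ℝ => 2 * ε * ‖pr (d i) v‖) (𝓝 0)
            (𝓝 (2 * 0 * ‖pr (d i) v‖)) := by
          apply Continuous.tendsto
          fun_prop
        rw [mul_zero, zero_mul] at h2
        exact h2.mono_left nhdsWithin_le_nhds
      exact h1.eventually_lt_const (half_pos (hr i))
    obtain ⟨ε, hε1, hε0⟩ := (hε.and self_mem_nhdsWithin).exists
    have hε0 : 0 < ε := hε0
    have hδ : ∀ᶠ δ in 𝓝[>] (0 : ℝ), ∀ i, δ * ‖(ip (d i) ξ : ℂ)‖ < r i / 2 ∧
        δ * ‖(ip (d i) ξ : ℂ)‖ < ε * ‖pr (d i) v‖ := by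
      rw [eventually_all]
      intro i
      have h1 : Tendsto (fun δ : ℝ => δ * ‖(ip (d i) ξ : ℂ)‖) (𝓝[>] 0) (𝓝 0) := by
        have h2 : Tendsto (fun δ : ℝ => δ * ‖(ip (d i) ξ : ℂ)‖) (𝓝 0)
            (𝓝 (0 * ‖(ip (d i) ξ : ℂ)‖)) := by
          apply Continuous.tendsto
          fun_prop
        rw [zero_mul] at h2
        exact h2.mono_left nhdsWithin_le_nhds
      exact (h1.eventually_lt_const (half_pos (hr i))).and
        (h1.eventually_lt_const (mul_pos hε0 (norm_pos_iff.2 (hv0 i))))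
    obtain ⟨δ, hδ1, hδ0⟩ := (hδ.and self_mem_nhdsWithin).exists
    have hδ0 : 0 < δ := hδ0
    -- integral values near y0 ξ
    have hval : ∀ y s : ℂ, ‖y - y0‖ < δ → ‖s‖ < 2 * ε → ∀ i (n : ℤ),
        pr (d i) (fun k => y * ξ k + s * v k) = n →
        (y - y0) * (ip (d i) ξ : ℂ) + s * pr (d i) v = 0 := by
      intro y s hy hs i n hn
      rw [pr_line] at hn
      have h1 : ‖(n : ℂ) - y0 * (ip (d i) ξ : ℂ)‖ < r i := by
        have h2 : (n : ℂ) - y0 * (ip (d i) ξ : ℂ) =
            (y - y0) * (ip (d i) ξ : ℂ) + s * pr (d i) v := by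
          rw [← hn]
          ring
        rw [h2]
        calc ‖(y - y0) * (ip (d i) ξ : ℂ) + s * pr (d i) v‖
            ≤ ‖(y - y0) * (ip (d i) ξ : ℂ)‖ + ‖s * pr (d i) v‖ := norm_add_le _ _
          _ = ‖y - y0‖ * ‖(ip (d i) ξ : ℂ)‖ + ‖s‖ * ‖pr (d i) v‖ := by rw [norm_mul, norm_mul]
          _ ≤ δ * ‖(ip (d i) ξ : ℂ)‖ + 2 * ε * ‖pr (d i) v‖ := by gcongr
          _ < r i := by
            have h3 := (hδ1 i).1
            have h4 := hε1 i
            linarith
      have h5 := hr' i n h1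
      rw [h5] at hn
      linear_combination hn
    have hs_eq : ∀ y s : ℂ, ‖y - y0‖ < δ → ‖s‖ < 2 * ε → ∀ i (n : ℤ),
        pr (d i) (fun k => y * ξ k + s * v k) = n →
        s = -((y - y0) * (ip (d i) ξ : ℂ)) / pr (d i) v := by
      intro y s hy hs i n hn
      have h1 := hval y s hy hs i n hn
      rw [eq_div_iff (hv0 i)]
      linear_combination h1
    have hs_lt : ∀ y s : ℂ, ‖y - y0‖ < δ → ‖s‖ < 2 * ε → ∀ i (n : ℤ),
        pr (d i) (fun k => y * ξ k + s * v k) = n → ‖s‖ < ε := by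
      intro y s hy hs i n hn
      rw [hs_eq y s hy hs i n hn, norm_div, norm_neg, norm_mul,
        div_lt_iff₀ (norm_pos_iff.2 (hv0 i))]
      calc ‖y - y0‖ * ‖(ip (d i) ξ : ℂ)‖ ≤ δ * ‖(ip (d i) ξ : ℂ)‖ := by gcongr
        _ < ε * ‖pr (d i) v‖ := (hδ1 i).2
    -- the exceptional set
    set Ex : ℂ → Set ℂ := fun y => {s | ‖s‖ < 2 * ε ∧ ¬ Gen d (fun k => y * ξ k + s * v k)}
      with hEx
    have hmem : ∀ y s : ℂ, ‖s‖ < 2 * ε → s ∉ Ex y → Gen d (fun k => y * ξ k + s * v k) := by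
      intro y s hs hsE
      by_contra h
      exact hsE ⟨hs, h⟩
    have hEfin : ∀ y, ‖y - y0‖ < δ → (Ex y).Finite := by
      intro y hy
      refine (Set.finite_range fun i =>
        -((y - y0) * (ip (d i) ξ : ℂ)) / pr (d i) v).subset ?_
      rintro s ⟨hs, hs'⟩
      unfold Gen at hs'
      push Not at hs'
      obtain ⟨i, n, hin⟩ := hs'
      exact ⟨i, (hs_eq y s hy hs i n hin).symm⟩
    have hlt : ∀ s : ℂ, ‖s‖ = ε → ‖s‖ < 2 * ε := fun s hs => by linarith
    have hcirc : ∀ y, ‖y - y0‖ < δ → ∀ s : ℂ, ‖s‖ = ε →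
        Gen d (fun k => y * ξ k + s * v k) := by
      intro y hy s hs i n hn
      have h1 := hs_lt y s hy (hlt s hs) i n hn
      linarith
    refine ⟨δ, hδ0, fun p => (2 * Real.pi * I : ℂ)⁻¹ *
      ∮ s in C(0, ε), s⁻¹ * f (fun k => p.1 * ξ k + s * v k) p.2, ?_, ?_⟩
    · intro y w hy
      have h1 : DifferentiableAt ℂ (fun x : ℂ × ℂ =>
          ∮ s in C(0, ε), s⁻¹ * f (fun k => x.1 * ξ k + s * v k) x.2) (y, w) := by
        refine HA.circle_param (g := fun x s => f (fun k => x.1 * ξ k + s * v k) x.2)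
          (r := δ - ‖y - y0‖) (by linarith) hε0 fun x hx s hs => ?_
        have hx1 : ‖x.1 - y0‖ < δ := by
          have h2 : ‖x.1 - y‖ < δ - ‖y - y0‖ := by
            have h3 : ‖x - (y, w)‖ < δ - ‖y - y0‖ := by
              rw [← dist_eq_norm]
              exact hx
            exact (norm_fst_le (x - (y, w))).trans_lt h3
          calc ‖x.1 - y0‖ = ‖(x.1 - y) + (y - y0)‖ := by congr 1; ring
            _ ≤ ‖x.1 - y‖ + ‖y - y0‖ := norm_add_le _ _
            _ < δ := by linarith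
        have h4 := hgen _ (hcirc x.1 hx1 s hs) x.2
        have h5 : DifferentiableAt ℂ (fun q : (ℂ × ℂ) × ℂ =>
            ((fun k => q.1.1 * ξ k + q.2 * v k : Fin m → ℂ), q.1.2)) (x, s) := by
          refine DifferentiableAt.prodMk ?_ (by fun_prop)
          rw [differentiableAt_pi]
          intro k
          fun_prop
        exact DifferentiableAt.comp (x, s)
          (g := fun q : (Fin m → ℂ) × ℂ => f q.1 q.2) h4 h5
      exact h1.const_mul _
    · intro y w hy hyne
      have hpi : (2 * Real.pi * I : ℂ) ≠ 0 := Complex.two_pi_I_ne_zero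
      show f (fun k => y * ξ k) w = (2 * Real.pi * I : ℂ)⁻¹ *
        ∮ s in C(0, ε), s⁻¹ * f (fun k => y * ξ k + s * v k) w
      have h1 := HA.cauchy_of_bdd (f := fun s => f (fun k => y * ξ k + s * v k) w) hε0
        (by linarith : ε < 2 * ε) (hEfin y hy) (by
          rintro ⟨h2, h3⟩
          unfold Gen at h3
          push Not at h3
          obtain ⟨i, n, hin⟩ := h3
          have h4 := hval y 0 hy h2 i n hin
          rw [zero_mul, add_zero] at h4
          rcases mul_eq_zero.1 h4 with h5 | h5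
          · exact hyne (sub_eq_zero.1 h5)
          · exact hx i h5) (by
          rintro s ⟨hs, hs'⟩
          unfold Gen at hs'
          push Not at hs'
          obtain ⟨i, n, hin⟩ := hs'
          exact (hs_lt y s hy hs i n hin).ne) (by
          intro s hs hsE
          have h4 := hgen _ (hmem y s hs hsE) w
          have h5 : DifferentiableAt ℂ (fun s : ℂ =>
              ((fun k => y * ξ k + s * v k : Fin m → ℂ), w)) s := by
            refine DifferentiableAt.prodMk ?_ (by fun_prop)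
            rw [differentiableAt_pi]
            intro k
            fun_prop
          exact DifferentiableAt.comp s
            (g := fun q : (Fin m → ℂ) × ℂ => f q.1 q.2) h4 h5) (by
          rintro s ⟨hs, hs'⟩ -
          unfold Gen at hs'
          push Not at hs'
          obtain ⟨i₀, n₀, hin⟩ := hs'
          obtain ⟨C, hC⟩ := hone (fun k => y * ξ k + s * v k) i₀ n₀ hin (by
            intro i n hi
            apply hv i i₀
            have h2 := hval y s hy hs i₀ n₀ hin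
            have h3 := hval y s hy hs i n hi
            have h4 : (y - y0) * ((ip (d i₀) ξ : ℂ) * pr (d i) v -
                (ip (d i) ξ : ℂ) * pr (d i₀) v) = 0 := by
              linear_combination pr (d i) v * h2 - pr (d i₀) v * h3
            rcases mul_eq_zero.1 h4 with h5 | h5
            · exact absurd (sub_eq_zero.1 h5) hyne
            · exact sub_eq_zero.1 h5) w
          refine ⟨C, ?_⟩
          have h6 : Tendsto (fun s : ℂ => (fun k => y * ξ k + s * v k : Fin m → ℂ)) (𝓝 s)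
              (𝓝 (fun k => y * ξ k + s * v k)) := by
            apply Continuous.tendsto
            fun_prop
          have h7 := (h6.eventually hC).filter_mono (nhdsWithin_le_nhds (s := {s}ᶜ))
          have h8 : ∀ᶠ s' in 𝓝[≠] s, ‖s'‖ < 2 * ε :=
            ((isOpen_lt continuous_norm continuous_const).mem_nhds hs :
              {s' : ℂ | ‖s'‖ < 2 * ε} ∈ 𝓝 s) |> fun h => nhdsWithin_le_nhds h
          have h9 : ∀ᶠ s' in 𝓝[≠] s, s' ∉ Ex y := by
            have h10 : (Ex y \ {s})ᶜ ∈ 𝓝 s :=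
              ((hEfin y hy).subset Set.sdiff_subset).isClosed.isOpen_compl.mem_nhds (by simp)
            rw [eventually_nhdsWithin_iff]
            filter_upwards [h10] with z hz hzs hzF
            exact hz ⟨hzF, hzs⟩
          filter_upwards [h7, h8, h9] with s' h10 h11 h12
          exact h10 (hmem y s' h11 h12))
      rw [h1, inv_mul_cancel_left₀ hpi]
      simp only [zero_mul, add_zero]
  -- the extension
  refine ⟨fun p => limUnder (𝓝[≠] p.1) fun y' => f (fun k => y' * ξ k) p.2, ?_, ?_⟩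
  · rintro ⟨y0, w⟩
    obtain ⟨δ, hδ, G, hG, hfG⟩ := hloc y0
    have hball : ∀ᶠ p : ℂ × ℂ in 𝓝 (y0, w), ‖p.1 - y0‖ < δ := by
      have h1 : IsOpen {p : ℂ × ℂ | ‖p.1 - y0‖ < δ} :=
        isOpen_lt (by fun_prop) continuous_const
      exact h1.mem_nhds (by simpa using hδ)
    refine (hG y0 w (by simpa using hδ)).congr_of_eventuallyEq ?_
    filter_upwards [hball] with p hp
    obtain ⟨y, w'⟩ := p
    apply Tendsto.limUnder_eq
    have h1 : Tendsto (fun y' => G (y', w')) (𝓝[≠] y) (𝓝 (G (y, w'))) := by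
      have h2 : ContinuousAt (fun y' => G (y', w')) y := by
        have h3 : ContinuousAt G (y, w') := (hG y w' hp).continuousAt
        exact ContinuousAt.comp (f := fun y' : ℂ => (y', w')) h3 (by fun_prop)
      exact h2.tendsto.mono_left nhdsWithin_le_nhds
    refine h1.congr' ?_
    have h4 : ∀ᶠ y' in 𝓝[≠] y, ‖y' - y0‖ < δ := by
      have h5 : IsOpen {y' : ℂ | ‖y' - y0‖ < δ} := isOpen_lt (by fun_prop) continuous_const
      exact nhdsWithin_le_nhds (h5.mem_nhds hp)
    have h6 : ∀ᶠ y' in 𝓝[≠] y, y' ≠ y0 := by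
      by_cases hy : y = y0
      · subst hy
        exact self_mem_nhdsWithin
      · exact nhdsWithin_le_nhds (isOpen_ne.mem_nhds hy)
    filter_upwards [h4, h6] with y' h7 h8
    exact (hfG y' w' h7 h8).symm
  · intro y w hyw
    apply Tendsto.limUnder_eq
    exact hyw.tendsto.mono_left nhdsWithin_le_nhds

end Pool.Agent.DST.HB
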