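import Pool.Agent.DST.TorusDefs
import Pool.Agent.DST.HB
import Pool.Agent.DST.FPol

/-!
# DST-HC: the `Γ`-solutions extend to entire functions along the line `ℂ ξ`
-/

open scoped BigOperators Topology
open Filter

namespace Pool.Agent.DST

open Pool.Agent.Helper18.Dub Pool.Agent.Helper7.DubStokes Pool.Agent.SHF

/-- The derivative in the second variable extends by continuity. -/
theorem ode_ext {F : ℂ × ℂ → ℂ} (hF : Differentiable ℂ F) {R : ℂ × ℂ → ℂ} (hR : Continuous R)
    (h : ∀ y : ℂ, y.im ≠ 0 → ∀ w, HasDerivAt (fun w => F (y, w)) (R (y, w)) w) (y w : ℂ) :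
    HasDerivAt (fun w => F (y, w)) (R (y, w)) w := by
  have hne : (𝓝[{y : ℂ | y.im ≠ 0}] y).NeBot := by
    rw [← mem_closure_iff_nhdsWithin_neBot]
    have hd : Dense {y : ℂ | y.im ≠ 0} := by
      have h1 : Dense ({0}ᶜ : Set ℝ) := dense_compl_singleton 0
      exact h1.preimage Complex.isOpenMap_im
    exact hd y
  have hlu : TendstoLocallyUniformlyOn (fun (y' : ℂ) (w : ℂ) => F (y', w)) (fun w => F (y, w))
      (𝓝[{y : ℂ | y.im ≠ 0}] y) Set.univ := by
    rw [Metric.tendstoLocallyUniformlyOn_iff]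
    intro ε hε x _
    have h1 : ∀ᶠ p : ℂ × ℂ in 𝓝 (y, x), dist (F p) (F (y, x)) < ε / 2 :=
      Metric.tendsto_nhds.1 hF.continuous.continuousAt (ε / 2) (half_pos hε)
    rw [nhds_prod_eq, eventually_prod_iff] at h1
    obtain ⟨pa, ha, pb, hb, hab⟩ := h1
    refine ⟨{x | pb x}, mem_nhdsWithin_of_mem_nhds hb, ?_⟩
    filter_upwards [ha.filter_mono (nhdsWithin_le_nhds (s := {y : ℂ | y.im ≠ 0}))] with y' hy' z hz
    have h2 := hab hy' hz
    have h3 := hab ha.self_of_nhds hz
    calc dist (F (y, z)) (F (y', z)) ≤ dist (F (y, z)) (F (y, x)) + dist (F (y', z)) (F (y, x)) :=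
          dist_triangle_right _ _ _
      _ < ε := by linarith
  have hder := hlu.deriv (Eventually.of_forall fun y' => by
    have h1 : Differentiable ℂ fun w => F (y', w) := hF.comp (by fun_prop)
    exact h1.differentiableOn) isOpen_univ
  have h2 : Tendsto (fun y' => deriv (fun w => F (y', w)) w) (𝓝[{y : ℂ | y.im ≠ 0}] y)
      (𝓝 (deriv (fun w => F (y, w)) w)) := hder.tendsto_at (Set.mem_univ w)
  have h3 : Tendsto (fun y' => deriv (fun w => F (y', w)) w) (𝓝[{y : ℂ | y.im ≠ 0}] y)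
      (𝓝 (R (y, w))) := by
    have h4 : Tendsto (fun y' => R (y', w)) (𝓝[{y : ℂ | y.im ≠ 0}] y) (𝓝 (R (y, w))) := by
      have h5 : Continuous fun y' : ℂ => R (y', w) := hR.comp (by fun_prop)
      exact h5.continuousAt.tendsto.mono_left nhdsWithin_le_nhds
    refine h4.congr' ?_
    filter_upwards [self_mem_nhdsWithin] with y' hy'
    exact ((h y' hy' w).deriv).symm
  have h6 : deriv (fun w => F (y, w)) w = R (y, w) := tendsto_nhds_unique h2 h3
  rw [← h6]
  have h7 : Differentiable ℂ fun w => F (y, w) := hF.comp (by fun_prop)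
  exact (h7 w).hasDerivAt

theorem eq_ext {f g : ℂ → ℂ} (hf : Continuous f) (hg : Continuous g)
    (h : ∀ y : ℂ, y.im ≠ 0 → f y = g y) (y : ℂ) : f y = g y := by
  have hd : Dense {y : ℂ | y.im ≠ 0} := by
    have h1 : Dense ({0}ᶜ : Set ℝ) := dense_compl_singleton 0
    exact h1.preimage Complex.isOpenMap_im
  exact congrFun (Continuous.ext_on hd hf hg fun y hy => h y hy) y

namespace TorusBulkGW

variable {N : ℕ} {X : FanoGW (Fin N)} {t : Fin N → ℂ} (T : TorusBulkGW X t)

/-- the directions, indexed by pairs -/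
def dirs : Fin N × Fin X.dim → Fin T.m → ℤ := fun i => T.dir i.1 i.2

theorem ip_ne (i : Fin N × Fin X.dim) : HB.ip (T.dirs i) T.ξ ≠ 0 := by
  intro h
  have h1 : (∑ k, T.dir i.1 i.2 k * T.ξ k) ∣ T.wt i.1 i.2 := T.wt_dvd i.1 i.2
  have h2 : (∑ k, T.dir i.1 i.2 k * T.ξ k) = 0 := h
  rw [h2, zero_dvd_iff] at h1
  exact T.wt_ne i.1 i.2 h1

theorem reg_of_gen {y : Fin T.m → ℂ} (h : HB.Gen T.dirs y) : IsRegular T.dirs y :=
  fun i n _ => h i n

theorem gen_line {y : ℂ} (hy : y.im ≠ 0) : HB.Gen T.dirs fun k => y * T.ξ k := by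
  intro i n hn
  rw [HB.pr_line0] at hn
  have h1 := congrArg Complex.im hn
  rw [Complex.intCast_im, Complex.mul_im, Complex.intCast_im, Complex.intCast_re, mul_zero,
    zero_add] at h1
  rcases mul_eq_zero.1 h1 with h2 | h2
  · exact hy h2
  · exact T.ip_ne i (by exact_mod_cast h2)

theorem reg_line {y : ℂ} (hy : y.im ≠ 0) : IsRegular T.dirs fun k => y * T.ξ k :=
  T.reg_of_gen (T.gen_line hy)

theorem reg_zero : IsRegular T.dirs (0 : Fin T.m → ℂ) := by
  intro i n hn h
  simp only [Pi.zero_apply, mul_zero, Finset.sum_const_zero] at h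
  exact hn (by exact_mod_cast h.symm)

theorem evH_cont (M : Matrix (Fin N) (Fin N) (MvPolynomial (Option (Fin T.m)) ℂ)) (w : ℂ)
    (i j : Fin N) : Continuous fun y : Fin T.m → ℂ =>
      evH M (fun k => y k * Complex.exp w) (Complex.exp w) i j := by
  unfold evH
  simp only [Matrix.map_apply]
  refine (MvPolynomial.continuous_eval (M i j)).comp ?_
  refine continuous_pi fun o => ?_
  cases o with
  | none => exact continuous_const
  | some k =>
    simp only [Option.elim_some]
    exact (continuous_apply k).mul continuous_const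

/-- boundedness near the points on one hyperplane -/
theorem bdd_one (i j : Fin N) (y : Fin T.m → ℂ) (i₀ : Fin N × Fin X.dim) (n₀ : ℤ)
    (h0 : HB.pr (T.dirs i₀) y = n₀)
    (h1 : ∀ i' (n : ℤ), HB.pr (T.dirs i') y = n →
      ∀ k, HB.ip (T.dirs i₀) T.ξ * T.dirs i' k = HB.ip (T.dirs i') T.ξ * T.dirs i₀ k) (w : ℂ) :
    ∃ C : ℝ, ∀ᶠ y' in 𝓝 y, HB.Gen T.dirs y' → ‖T.J y' w i j‖ ≤ C := by
  obtain ⟨μ₀, hμ₀⟩ := T.dir_prim i₀.1 i₀.2
  set μ : Fin T.m → ℤ := fun k => n₀ * μ₀ k with hμ
  have hprsub : ∀ (a : Fin T.m → ℤ) (y' : Fin T.m → ℂ),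
      HB.pr a (fun k => y' k - μ k) = HB.pr a y' - ((∑ k, a k * μ k : ℤ) : ℂ) := by
    intro a y'
    simp only [HB.pr, mul_sub, Finset.sum_sub_distrib]
    push_cast
    rfl
  have hreg1 : IsRegular T.dirs fun k => y k - μ k := by
    intro i' n hn hi'
    have h2 : HB.pr (T.dirs i') (fun k => y k - μ k) = n := hi'
    have h3 : HB.pr (T.dirs i') y = ((n + ∑ k, T.dirs i' k * μ k : ℤ) : ℂ) := by
      rw [hprsub] at h2
      push_cast at h2 ⊢
      linear_combination h2
    have h4 := h1 i' _ h3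
    have h5 : (HB.ip (T.dirs i₀) T.ξ : ℂ) * HB.pr (T.dirs i') (fun k => y k - μ k) =
        (HB.ip (T.dirs i') T.ξ : ℂ) * HB.pr (T.dirs i₀) (fun k => y k - μ k) := by
      simp only [HB.pr, Finset.mul_sum]
      refine Finset.sum_congr rfl fun k _ => ?_
      have h6 : (HB.ip (T.dirs i₀) T.ξ : ℂ) * (T.dirs i' k : ℂ) =
          (HB.ip (T.dirs i') T.ξ : ℂ) * (T.dirs i₀ k : ℂ) := by exact_mod_cast h4 k
      linear_combination (y k - μ k) * h6
    have h7 : HB.pr (T.dirs i₀) (fun k => y k - μ k) = 0 := by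
      rw [hprsub, h0]
      have h8 : (∑ k, T.dirs i₀ k * μ k : ℤ) = n₀ := by
        have h9 : ∀ k, T.dirs i₀ k * μ k = n₀ * (T.dir i₀.1 i₀.2 k * μ₀ k) := fun k => by
          simp only [hμ, dirs]
          ring
        simp only [h9, ← Finset.mul_sum, hμ₀, mul_one]
      rw [h8, sub_self]
    rw [h7, mul_zero, h2] at h5
    rcases mul_eq_zero.1 h5 with h6 | h6
    · exact T.ip_ne i₀ (by exact_mod_cast h6)
    · exact hn (by exact_mod_cast h6)
  -- continuity of the right-hand side of the shift equation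
  have hcJ : ∀ a b, ContinuousAt (fun y' : Fin T.m → ℂ => T.J (fun k => y' k - μ k) w a b) y := by
    intro a b
    have h2 : ContinuousAt (fun q : (Fin T.m → ℂ) × ℂ => T.J q.1 q.2 a b)
        ((fun k => y k - μ k), w) := (T.J_reg _ hreg1 w a b).continuousAt
    have h3 : Continuous fun y' : Fin T.m → ℂ => (fun k => y' k - μ k : Fin T.m → ℂ) := by
      fun_prop
    exact ContinuousAt.comp (f := fun y' : Fin T.m → ℂ => ((fun k => y' k - μ k : Fin T.m → ℂ), w))
      h2 (h3.prodMk continuous_const).continuousAt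
  have hcR : ContinuousAt (fun y' : Fin T.m → ℂ => ∑ a,
      evH (T.Sh μ) (fun k => y' k * Complex.exp w) (Complex.exp w) i a *
        T.J (fun k => y' k - μ k) w a j) y :=
    tendsto_finsetSum _ fun a _ =>
      ContinuousAt.mul ((T.evH_cont (T.Sh μ) w i a).continuousAt) (hcJ a j)
  obtain ⟨C, hC⟩ : ∃ C : ℝ, ∀ᶠ y' in 𝓝 y, ‖∑ a,
      evH (T.Sh μ) (fun k => y' k * Complex.exp w) (Complex.exp w) i a *
        T.J (fun k => y' k - μ k) w a j‖ ≤ C := by
    have h9 := (continuous_norm.continuousAt.comp hcR).eventually (Iic_mem_nhds (lt_add_one _))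
    exact ⟨_, h9⟩
  refine ⟨C, hC.mono fun y' hy' hgen => ?_⟩
  have h10 : HB.Gen T.dirs fun k => y' k - μ k := by
    intro i' n hn
    rw [hprsub] at hn
    refine hgen i' (n + ∑ k, T.dirs i' k * μ k) ?_
    push_cast at hn ⊢
    linear_combination hn
  rw [T.J_shift μ y' w (T.reg_of_gen hgen) (T.reg_of_gen h10), Matrix.mul_apply]
  exact hy'

theorem exists_entire : ∃ J' : ℂ → ℂ → Matrix (Fin N) (Fin N) ℂ,
    (∀ i j, Differentiable ℂ fun p : ℂ × ℂ => J' p.1 p.2 i j) ∧
    ∀ y w, IsRegular T.dirs (fun k => y * T.ξ k) → J' y w = T.J (fun k => y * T.ξ k) w := by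
  have h1 : ∀ i j, ∃ F : ℂ × ℂ → ℂ, Differentiable ℂ F ∧
      ∀ y w, ContinuousAt (fun y' => T.J (fun k => y' * T.ξ k) w i j) y →
        F (y, w) = T.J (fun k => y * T.ξ k) w i j := fun i j =>
    HB.ext_line T.dirs T.ξ T.ip_ne (fun y w => T.J y w i j)
      (fun y hy w => T.J_reg y (T.reg_of_gen hy) w i j)
      (fun y i₀ n₀ h0 h1 w => T.bdd_one i j y i₀ n₀ h0 h1 w)
  choose F hF hF' using h1
  refine ⟨fun y w => Matrix.of fun i j => F i j (y, w), fun i j => hF i j, fun y w hy => ?_⟩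
  ext i j
  refine hF' i j y w ?_
  have h2 : ContinuousAt (fun q : (Fin T.m → ℂ) × ℂ => T.J q.1 q.2 i j)
      ((fun k => y * T.ξ k), w) := (T.J_reg _ hy w i j).continuousAt
  exact ContinuousAt.comp (f := fun y' : ℂ => ((fun k => y' * T.ξ k : Fin T.m → ℂ), w))
      h2 (by fun_prop)

/-- the entire solutions -/
noncomputable def JE : ℂ → ℂ → Matrix (Fin N) (Fin N) ℂ := T.exists_entire.choose

theorem JE_diff (i j : Fin N) : Differentiable ℂ fun p : ℂ × ℂ => T.JE p.1 p.2 i j :=
  T.exists_entire.choose_spec.1 i j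

theorem JE_eq {y : ℂ} (hy : IsRegular T.dirs fun k => y * T.ξ k) (w : ℂ) :
    T.JE y w = T.J (fun k => y * T.ξ k) w := T.exists_entire.choose_spec.2 y w hy

theorem JE_zero (w : ℂ) : T.JE 0 w = T.J 0 w := by
  have h1 : (fun k => (0 : ℂ) * T.ξ k : Fin T.m → ℂ) = 0 := by
    funext k
    simp
  have h2 : IsRegular T.dirs fun k => (0 : ℂ) * T.ξ k := by
    rw [h1]
    exact T.reg_zero
  rw [T.JE_eq h2, h1]

theorem JE_ode (y w : ℂ) (i j : Fin N) : HasDerivAt (fun w => T.JE y w i j)
    (((theta X - Complex.exp (-w) • evm (chernT T.toEquivData t T.κ) (y * Complex.exp w)) *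
      T.JE y w) i j) w := by
  have hR : Continuous fun p : ℂ × ℂ => ((theta X - Complex.exp (-p.2) •
      evm (chernT T.toEquivData t T.κ) (p.1 * Complex.exp p.2)) * T.JE p.1 p.2) i j := by
    simp only [Matrix.mul_apply, Matrix.sub_apply, Matrix.smul_apply, smul_eq_mul]
    refine continuous_finsetSum _ fun a _ => ?_
    refine (continuous_const.sub ((by fun_prop : Continuous fun p : ℂ × ℂ =>
      Complex.exp (-p.2)).mul ?_)).mul (T.JE_diff a j).continuous
    exact (diff_evm (chernT T.toEquivData t T.κ) i a).continuous.comp (by fun_prop)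
  refine ode_ext (F := fun p => T.JE p.1 p.2 i j) (T.JE_diff i j) hR (fun y hy w => ?_) y w
  have h1 := T.J_ode y hy w i j
  have h2 : ∀ w, T.JE y w = T.J (fun k => y * T.ξ k) w := T.JE_eq (T.reg_line hy)
  simp only [h2]
  exact h1

theorem evm₂_restr (M : Matrix (Fin N) (Fin N) (MvPolynomial (Option (Fin T.m)) ℂ)) (x z : ℂ) :
    evm₂ (restrH T.ξ M) x z = evH M (fun k => x * T.ξ k) z := by
  ext i j
  simp only [evm₂, restrH, evH, Matrix.map_apply]
  rw [← Polynomial.coe_evalEvalRingHom, MvPolynomial.aeval_def,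
    MvPolynomial.eval₂_eq', MvPolynomial.eval_eq', map_sum]
  refine Finset.sum_congr rfl fun s _ => ?_
  rw [map_mul, map_prod]
  congr 1
  · simp [Polynomial.evalEval]
  · refine Finset.prod_congr rfl fun o _ => ?_
    rw [map_pow]
    congr 1
    cases o with
    | none => simp [Polynomial.evalEval]
    | some k => simp [Polynomial.evalEval, mul_comm]

theorem JE_shift (y w : ℂ) : T.JE y w =
    evm₂ (restrH T.ξ (T.Sh T.ξ)) (y * Complex.exp w) (Complex.exp w) * T.JE (y - 1) w := by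
  ext i j
  refine eq_ext (f := fun y => T.JE y w i j) (g := fun y => (evm₂ (restrH T.ξ (T.Sh T.ξ))
    (y * Complex.exp w) (Complex.exp w) * T.JE (y - 1) w) i j) ?_ ?_ (fun y hy => ?_) y
  · exact (T.JE_diff i j).continuous.comp (by fun_prop : Continuous fun y : ℂ => (y, w))
  · simp only [Matrix.mul_apply]
    refine continuous_finsetSum _ fun a _ => ?_
    refine Continuous.mul ?_ ((T.JE_diff a j).continuous.comp
      (by fun_prop : Continuous fun y : ℂ => (y - 1, w)))
    exact (diff_evm₂ (restrH T.ξ (T.Sh T.ξ)) i a).continuous.comp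
      (by fun_prop : Continuous fun y : ℂ => (y * Complex.exp w, Complex.exp w))
  · have hy1 : (y - 1).im ≠ 0 := by simpa using hy
    have h1 : (fun k => y * T.ξ k - T.ξ k : Fin T.m → ℂ) = fun k => (y - 1) * T.ξ k := by
      funext k
      ring
    have h2 := T.J_shift T.ξ (fun k => y * T.ξ k) w (T.reg_line hy) (by
      rw [h1]
      exact T.reg_line hy1)
    rw [h1, ← T.JE_eq (T.reg_line hy) w, ← T.JE_eq (T.reg_line hy1) w] at h2
    show T.JE y w i j = _
    rw [h2, evm₂_restr]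
    have h3 : (fun k => y * T.ξ k * Complex.exp w : Fin T.m → ℂ) =
        fun k => y * Complex.exp w * T.ξ k := by
      funext k
      ring
    rw [h3]

theorem isUnit_restr : IsUnit (restrH T.ξ (T.Sh T.ξ)).det := by
  have h1 := (T.isUnit_Sh T.ξ).map (MvPolynomial.aeval fun o => o.elim Polynomial.X fun k =>
    Polynomial.C (Polynomial.C (T.ξ k : ℂ) * Polynomial.X) :
      MvPolynomial (Option (Fin T.m)) ℂ →ₐ[ℂ] Polynomial (Polynomial ℂ))
  rw [AlgHom.map_det] at h1
  exact h1

/-- The theory for the action of `ℂ^*` given by the cocharacter `ξ`. -/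
noncomputable def toBulkGW : BulkGW X t :=
  { T.toEquivGW with
    period_zero := T.period_zero
    wt := T.wt
    wt_ne := T.wt_ne
    strict := T.strict
    res := T.res
    isRestriction := T.isRestriction
    localization := T.localization
    κ := T.κ
    chern_res := T.chern_res
    B := T.B
    B_tri := T.B_tri
    B_diag := T.B_diag
    χ := T.χ
    χ_unit := T.χ_unit
    χ_loc := T.χ_loc
    Td := T.Td
    todd := T.todd
    ch := T.ch
    hrr := T.hrr
    S := restrH T.ξ (T.Sh T.ξ)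
    isUnit_S := T.isUnit_restr
    J := T.JE
    J_entire := T.JE_diff
    J_ode := T.JE_ode
    J_shift := T.JE_shift
    cal := T.cal
    cal_lim := T.cal_lim
    G := T.G
    G_res := T.G_res
    J_gamma := fun y hy w => by
      rw [T.JE_eq (T.reg_line hy)]
      exact T.J_gamma y hy w
    divisorT := T.divisorT
    degree_zeroT := T.degree_zeroT
    wdvvAt := T.wdvvAt
    Sb := T.Sb
    Sb_zero := T.Sb_zero
    intertwine := T.intertwine }

end TorusBulkGW

end Pool.Agent.DST
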