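import Pool.Agent.DST.HC
import Pool.Agent.DST.GFin

/-!
# DST-HFin: assembly of the final theorem for the action of a torus `H`
-/

open scoped BigOperators Topology
open Filter

namespace Pool.Agent.DST

open Pool.Agent.Helper18.Dub Pool.Agent.Helper7.DubStokes Pool.Agent.SHF

variable {N : ℕ} {X : FanoGW (Fin N)} {t : Fin N → ℂ}

theorem isContinuationH {T : TorusBulkGW X t} {p : Fin N → ℂ}
    {Y : ℂ → Matrix (Fin N) (Fin N) ℂ} (h : IsContinuation T.toBulkGW.toGammaGW p Y) :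
    IsContinuationH T p Y := by
  obtain ⟨F, h0, h1, h2⟩ := h
  exact ⟨F, fun w => (h0 w).trans (T.JE_zero w), h1, h2⟩

theorem numerical_dubrovinH (ht : ∀ i, t i ≠ 0 → X.deg i = 1) (T : TorusBulkGW X t) :
    ∃ ρ : ℝ, 0 < ρ ∧ ∀ p : Fin N → ℂ, (∀ i, ‖p i - t i‖ < ρ) →
      ConvergesAt X p ∧
      (∀ δ : ℝ, 0 < δ → ∃ p' : Fin N → ℂ, (∀ i, ‖p' i - p i‖ < δ) ∧
        (eulerMat X p').charpoly.Separable) ∧
      ((eulerMat X p).charpoly.Separable → ∀ φ : ℝ, IsAdmissible X p φ →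
        ∃ M : MonodromyData X p, M.φ = φ) ∧
      ∀ M : MonodromyData X p, ∃ U : Matrix (Fin N) (Fin N) ℤ, IsUnit U.det ∧
        IsExceptional X T.Td (comb U T.ch) ∧
        M.S = gramMatrix X T.Td (comb U T.ch) ∧
        ConnectionFactors M (fun j => (twist X).mulVec (comb U T.ch j)) ∧
        ConnectionIsometric M T.Td (comb U T.ch) ∧
        ∃ Y, IsContinuationH T p Y ∧ ∀ w i j, M.Xminus w i j =
          (Complex.I / (Real.sqrt (2 * Real.pi) : ℂ)) ^ X.dim *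
            (Y w * U.map (Int.castRingHom ℂ)) i j := by
  obtain ⟨ρ, hρ, h⟩ := numerical_dubrovin ht T.toBulkGW
  refine ⟨ρ, hρ, fun p hp => ?_⟩
  obtain ⟨h1, h2, h3, h4⟩ := h p hp
  refine ⟨h1, h2, h3, fun M => ?_⟩
  obtain ⟨U, hU, h5, h6, h7, h8, Y, hY, h9⟩ := h4 M
  exact ⟨U, hU, h5, h6, h7, h8, Y, isContinuationH hY, h9⟩

end Pool.Agent.DST
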