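import Pool.Agent.DST.Abs

/-!
# Project DST, module K-Det: right-canonical bases are invertible, extension of the asymptotics

PLAN. `Ψ.det ≠ 0` from `Ψᵀ g Ψ = 1`.
* `det_of_birk`: the determinant of `F(y) X(y) diag(e^{-yG})` tends to `det Ψ ≠ 0` along `rhp` (continuity of
  `det`; `Filter.Tendsto` of the matrix from entrywise: `tendsto_pi_nhds`). For given `y` take `y + n`,
  `n → ∞` (natural numbers), which tends to `rhp`; `X (y+n) = X y` by periodicity; so `det X(y) ≠ 0`.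
* `birk_strip`: if the limit holds along `|y| → ∞`, `Re y ≥ n + 1`, then it holds along `|y| → ∞`,
  `Re y ≥ n`: for `Re y ≥ n ≥ 0`, `‖y‖` large: `y`, `y + 1` are in the slit plane, `‖y+1‖ > 1/r`,
  `F(y+1) = A(1/(y+1)) F(y)`, so with `M(y) = F(y) X(y) diag(e^{-yG})`:
  `M(y+1) = A(1/(y+1)) M(y) diag(e^{-G})`, i.e. `M(y) = A(1/(y+1))⁻¹ M(y+1) diag(e^{G})`; the limit is
  `A(0)⁻¹ Ψ diag(e^G) = Ψ` (`hE.eig`), because `A` is continuous at `0` and `det A(0) ≠ 0` (continuity of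
  the inverse at an invertible matrix). `y ↦ y + 1` maps the filter of `Re ≥ n` into the filter of
  `Re ≥ n + 1`.
* `birk_of_far`: induction on `n`.
-/

open scoped BigOperators Topology
open Filter

namespace Pool.Agent.DST

variable {N : ℕ}

theorem Eig.det_ne {A₀ g Ψ : Matrix (Fin N) (Fin N) ℂ} {G : Fin N → ℂ} (hE : Eig A₀ g Ψ G) :
    Ψ.det ≠ 0 := by
  intro h
  have h1 := congrArg Matrix.det hE.norm
  rw [Matrix.det_mul, Matrix.det_mul, Matrix.det_one, h, mul_zero] at h1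
  exact zero_ne_one h1

private theorem tendsto_mat {l : Filter ℂ} {M : ℂ → Matrix (Fin N) (Fin N) ℂ}
    {L : Matrix (Fin N) (Fin N) ℂ} (h : ∀ i j, Tendsto (fun y => M y i j) l (𝓝 (L i j))) :
    Tendsto M l (𝓝 L) :=
  tendsto_pi_nhds.2 fun i => tendsto_pi_nhds.2 fun j => h i j

private theorem tendsto_entry {l : Filter ℂ} {M : ℂ → Matrix (Fin N) (Fin N) ℂ}
    {L : Matrix (Fin N) (Fin N) ℂ} (h : Tendsto M l (𝓝 L)) (i j : Fin N) :
    Tendsto (fun y => M y i j) l (𝓝 (L i j)) :=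
  (tendsto_pi_nhds.1 ((tendsto_pi_nhds.1 h) i)) j

private theorem per_nat {X : ℂ → Matrix (Fin N) (Fin N) ℂ} (pX : ∀ y, X (y - 1) = X y) (y : ℂ)
    (n : ℕ) : X (y + n) = X y := by
  induction n with
  | zero => simp
  | succ n ih =>
    have h := pX (y + ((n + 1 : ℕ) : ℂ))
    have e : y + ((n + 1 : ℕ) : ℂ) - 1 = y + n := by push_cast; ring
    rw [e] at h
    rw [← h, ih]

theorem det_of_birk (D : DSys N) {Ψ : Matrix (Fin N) (Fin N) ℂ} {G : Fin N → ℂ}
    (hE : Eig (D.A 0) D.g Ψ G) {X : ℂ → Matrix (Fin N) (Fin N) ℂ} (pX : ∀ y, X (y - 1) = X y)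
    (bX : IsBirk D.F Ψ G X) (y : ℂ) : (X y).det ≠ 0 := by
  intro h0
  have hM : Tendsto (fun y => D.F y * X y * Matrix.diagonal fun k => Complex.exp (-y * G k)) rhp
      (𝓝 Ψ) := tendsto_mat bX
  have hdet : Tendsto (fun y => (D.F y * X y *
      Matrix.diagonal fun k => Complex.exp (-y * G k)).det) rhp (𝓝 Ψ.det) :=
    ((Continuous.matrix_det continuous_id).tendsto Ψ).comp hM
  have hseq : Tendsto (fun n : ℕ => y + (n : ℂ)) atTop rhp := by
    refine tendsto_inf.2 ⟨?_, ?_⟩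
    · rw [← tendsto_norm_atTop_iff_cobounded]
      have h1 : Tendsto (fun n : ℕ => (n : ℝ) - ‖y‖) atTop atTop :=
        tendsto_atTop_add_const_right _ _ tendsto_natCast_atTop_atTop
      refine tendsto_atTop_mono (fun n => ?_) h1
      have h2 : ‖(n : ℂ)‖ ≤ ‖y + n‖ + ‖y‖ := by
        have h3 : (n : ℂ) = (y + n) - y := by ring
        calc ‖(n : ℂ)‖ = ‖(y + n) - y‖ := by rw [← h3]
          _ ≤ ‖y + n‖ + ‖y‖ := norm_sub_le _ _
      have h4 : ‖(n : ℂ)‖ = n := by simp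
      linarith
    · refine tendsto_principal.2 ?_
      have h1 : ∀ᶠ n : ℕ in atTop, -y.re ≤ (n : ℝ) :=
        tendsto_natCast_atTop_atTop.eventually_ge_atTop (-y.re)
      filter_upwards [h1] with n hn
      show (0 : ℝ) ≤ (y + (n : ℂ)).re
      simp only [Complex.add_re, Complex.natCast_re]
      linarith
  have h1 := hdet.comp hseq
  have h2 : ((fun y => (D.F y * X y *
      Matrix.diagonal fun k => Complex.exp (-y * G k)).det) ∘ fun n : ℕ => y + (n : ℂ)) =
      fun _ => (0 : ℂ) := by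
    funext n
    simp only [Function.comp]
    rw [Matrix.det_mul, Matrix.det_mul, per_nat pX, h0, mul_zero, zero_mul]
  rw [h2] at h1
  exact hE.det_ne (tendsto_nhds_unique h1 tendsto_const_nhds)

private theorem tendsto_inv_mat {l : Filter ℂ} {M : ℂ → Matrix (Fin N) (Fin N) ℂ}
    {L : Matrix (Fin N) (Fin N) ℂ} (h : Tendsto M l (𝓝 L)) (hL : L.det ≠ 0) :
    Tendsto (fun y => (M y)⁻¹) l (𝓝 L⁻¹) := by
  have h1 : Tendsto (fun y => (M y).det) l (𝓝 L.det) :=
    ((Continuous.matrix_det continuous_id).tendsto L).comp h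
  have h2 : Tendsto (fun y => (M y).adjugate) l (𝓝 L.adjugate) :=
    ((Continuous.matrix_adjugate continuous_id).tendsto L).comp h
  have h3 := (h1.inv₀ hL).smul h2
  simp only [Matrix.inv_def, Ring.inverse_eq_inv']
  exact h3

private theorem birk_strip (D : DSys N) {Ψ : Matrix (Fin N) (Fin N) ℂ} {G : Fin N → ℂ}
    (hE : Eig (D.A 0) D.g Ψ G) {X : ℂ → Matrix (Fin N) (Fin N) ℂ} (pX : ∀ y, X (y - 1) = X y)
    (n : ℕ) (h : ∀ i j, Tendsto
      (fun y => (D.F y * X y * Matrix.diagonal fun k => Complex.exp (-y * G k)) i j)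
      (Bornology.cobounded ℂ ⊓ 𝓟 {y : ℂ | ((n + 1 : ℕ) : ℝ) ≤ y.re}) (𝓝 (Ψ i j))) :
    ∀ i j, Tendsto
      (fun y => (D.F y * X y * Matrix.diagonal fun k => Complex.exp (-y * G k)) i j)
      (Bornology.cobounded ℂ ⊓ 𝓟 {y : ℂ | (n : ℝ) ≤ y.re}) (𝓝 (Ψ i j)) := by
  have hM : Tendsto (fun y => D.F y * X y * Matrix.diagonal fun k => Complex.exp (-y * G k))
      (Bornology.cobounded ℂ ⊓ 𝓟 {y : ℂ | ((n + 1 : ℕ) : ℝ) ≤ y.re}) (𝓝 Ψ) := tendsto_mat h
  have hshift : Tendsto (fun y : ℂ => y + 1) (Bornology.cobounded ℂ ⊓ 𝓟 {y : ℂ | (n : ℝ) ≤ y.re})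
      (Bornology.cobounded ℂ ⊓ 𝓟 {y : ℂ | ((n + 1 : ℕ) : ℝ) ≤ y.re}) := by
    refine tendsto_inf.2 ⟨?_, ?_⟩
    · refine Tendsto.mono_left ?_ inf_le_left
      rw [← tendsto_norm_atTop_iff_cobounded]
      have h1 : Tendsto (fun y : ℂ => ‖y‖ + (-1)) (Bornology.cobounded ℂ) atTop :=
        tendsto_atTop_add_const_right _ _ tendsto_norm_cobounded_atTop
      refine tendsto_atTop_mono (fun y => ?_) h1
      have h3 : y = (y + 1) - 1 := by ring
      have h2 : ‖y‖ ≤ ‖y + 1‖ + ‖(1 : ℂ)‖ := by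
        calc ‖y‖ = ‖(y + 1) - 1‖ := by rw [← h3]
          _ ≤ ‖y + 1‖ + ‖(1 : ℂ)‖ := norm_sub_le _ _
      rw [norm_one] at h2
      linarith
    · refine tendsto_principal.2 ?_
      filter_upwards [mem_inf_of_right (mem_principal_self {y : ℂ | (n : ℝ) ≤ y.re})] with y hy
      have hy' : (n : ℝ) ≤ y.re := hy
      show ((n + 1 : ℕ) : ℝ) ≤ (y + 1).re
      simp only [Complex.add_re, Complex.one_re]
      push_cast
      linarith
  have hinv : Tendsto (fun y : ℂ => (y + 1)⁻¹) (Bornology.cobounded ℂ ⊓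
      𝓟 {y : ℂ | (n : ℝ) ≤ y.re}) (𝓝 0) :=
    (tendsto_inv₀_cobounded.mono_left inf_le_left).comp hshift
  have hcontA : ∀ i j, ContinuousAt (fun ε => D.A ε i j) 0 := fun i j =>
    (D.A_hol 0 (Metric.mem_ball_self D.r_pos) i j).continuousAt
  have hA : Tendsto (fun y : ℂ => D.A (y + 1)⁻¹) (Bornology.cobounded ℂ ⊓
      𝓟 {y : ℂ | (n : ℝ) ≤ y.re}) (𝓝 (D.A 0)) :=
    tendsto_mat fun i j => (hcontA i j).tendsto.comp hinv
  have hAi := tendsto_inv_mat hA D.A_det
  have hM1 := hM.comp hshift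
  have hlim := (hAi.mul hM1).mul
    (tendsto_const_nhds (x := (Matrix.diagonal fun k => Complex.exp (G k) :
      Matrix (Fin N) (Fin N) ℂ)) (f := Bornology.cobounded ℂ ⊓ 𝓟 {y : ℂ | (n : ℝ) ≤ y.re}))
  have hval : (D.A 0)⁻¹ * Ψ * (Matrix.diagonal fun k => Complex.exp (G k)) = Ψ := by
    rw [Matrix.mul_assoc, ← hE.eig, ← Matrix.mul_assoc,
      Matrix.nonsing_inv_mul _ (isUnit_iff_ne_zero.2 D.A_det), Matrix.one_mul]
  rw [hval] at hlim
  have hdetA : ∀ᶠ y in (Bornology.cobounded ℂ ⊓ 𝓟 {y : ℂ | (n : ℝ) ≤ y.re}),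
      (D.A (y + 1)⁻¹).det ≠ 0 := by
    have h1 : Tendsto (fun y : ℂ => (D.A (y + 1)⁻¹).det) (Bornology.cobounded ℂ ⊓
        𝓟 {y : ℂ | (n : ℝ) ≤ y.re}) (𝓝 (D.A 0).det) :=
      ((Continuous.matrix_det continuous_id).tendsto (D.A 0)).comp hA
    exact h1.eventually_ne D.A_det
  have hlarge : ∀ᶠ y in (Bornology.cobounded ℂ ⊓ 𝓟 {y : ℂ | (n : ℝ) ≤ y.re}),
      D.r⁻¹ < ‖y + 1‖ := by
    have h1 : Tendsto (fun y : ℂ => ‖y + 1‖) (Bornology.cobounded ℂ ⊓
        𝓟 {y : ℂ | (n : ℝ) ≤ y.re}) atTop :=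
      (tendsto_norm_cobounded_atTop.mono_left inf_le_left).comp hshift
    exact h1.eventually_gt_atTop _
  have hne : ∀ᶠ y in (Bornology.cobounded ℂ ⊓ 𝓟 {y : ℂ | (n : ℝ) ≤ y.re}), 0 < ‖y‖ := by
    have h1 : Tendsto (fun y : ℂ => ‖y‖) (Bornology.cobounded ℂ ⊓
        𝓟 {y : ℂ | (n : ℝ) ≤ y.re}) atTop := tendsto_norm_cobounded_atTop.mono_left inf_le_left
    exact h1.eventually_gt_atTop _
  have hfin : Tendsto (fun y => D.F y * X y * Matrix.diagonal fun k => Complex.exp (-y * G k))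
      (Bornology.cobounded ℂ ⊓ 𝓟 {y : ℂ | (n : ℝ) ≤ y.re}) (𝓝 Ψ) := by
    refine hlim.congr' ?_
    filter_upwards [hdetA, hlarge, hne,
      mem_inf_of_right (mem_principal_self {y : ℂ | (n : ℝ) ≤ y.re})] with y h1 h2 h3 h4
    have h4' : (n : ℝ) ≤ y.re := h4
    have hn0 : (0 : ℝ) ≤ n := Nat.cast_nonneg n
    have hy0 : y ≠ 0 := norm_pos_iff.1 h3
    have hs : y ∈ Complex.slitPlane := by
      rw [Complex.mem_slitPlane_iff]
      by_contra hcon
      rw [not_or, not_lt, not_not] at hcon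
      apply hy0
      apply Complex.ext
      · simp only [Complex.zero_re]; linarith [hcon.1]
      · simpa using hcon.2
    have hs1 : y + 1 ∈ Complex.slitPlane := by
      rw [Complex.mem_slitPlane_iff]
      left
      simp only [Complex.add_re, Complex.one_re]
      linarith
    have hrel := D.rel (y + 1) hs1 (by rw [add_sub_cancel_right]; exact hs) h2
    rw [add_sub_cancel_right] at hrel
    have hX : X (y + 1) = X y := by
      have := pX (y + 1)
      rw [add_sub_cancel_right] at this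
      exact this.symm
    simp only [Function.comp]
    rw [hrel, hX]
    have hd : (Matrix.diagonal fun k => Complex.exp (-(y + 1) * G k) :
        Matrix (Fin N) (Fin N) ℂ) * (Matrix.diagonal fun k => Complex.exp (G k)) =
        Matrix.diagonal fun k => Complex.exp (-y * G k) := by
      rw [Matrix.diagonal_mul_diagonal]
      congr 1
      funext k
      rw [← Complex.exp_add]
      congr 1
      ring
    calc (D.A (y + 1)⁻¹)⁻¹ * (D.A (y + 1)⁻¹ * D.F y * X y *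
          Matrix.diagonal fun k => Complex.exp (-(y + 1) * G k)) *
          (Matrix.diagonal fun k => Complex.exp (G k))
        = ((D.A (y + 1)⁻¹)⁻¹ * D.A (y + 1)⁻¹) * (D.F y * X y *
          ((Matrix.diagonal fun k => Complex.exp (-(y + 1) * G k)) *
          (Matrix.diagonal fun k => Complex.exp (G k)))) := by
          simp only [Matrix.mul_assoc]
      _ = D.F y * X y * Matrix.diagonal fun k => Complex.exp (-y * G k) := by
          rw [Matrix.nonsing_inv_mul _ (isUnit_iff_ne_zero.2 h1), Matrix.one_mul, hd]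
  exact fun i j => tendsto_entry hfin i j

theorem birk_of_far (D : DSys N) {Ψ : Matrix (Fin N) (Fin N) ℂ} {G : Fin N → ℂ}
    (hE : Eig (D.A 0) D.g Ψ G) {X : ℂ → Matrix (Fin N) (Fin N) ℂ} (pX : ∀ y, X (y - 1) = X y)
    (n : ℕ) (h : ∀ i j, Tendsto
      (fun y => (D.F y * X y * Matrix.diagonal fun k => Complex.exp (-y * G k)) i j)
      (Bornology.cobounded ℂ ⊓ 𝓟 {y : ℂ | (n : ℝ) ≤ y.re}) (𝓝 (Ψ i j))) :
    IsBirk D.F Ψ G X := by
  induction n with
  | zero =>
    intro i j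
    have := h i j
    simp only [Nat.cast_zero] at this
    exact this
  | succ n ih => exact ih (birk_strip D hE pX n h)

end Pool.Agent.DST
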