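import Pool.Agent.DST.Skew

/-!
# Project DST, module K-Gauge: removing the `1/y` term of the transfer matrix

PLAN. `Ψ⁻¹ = Ψᵀ g` (from `hE.norm`; `Ψ` is invertible). Put `Λ = diag(e^{G_j})`,
`B₁ = Ψ⁻¹ A'(0) Ψ = Ψᵀ g A1 Ψ`, whose diagonal is `0` (`DSys.skew`), and
`F₁ i j = B₁ i j / (e^{G_j} - e^{G_i})` for `i ≠ j`, `0` for `i = j`; so `B₁ + Λ F₁ = F₁ Λ`.
For `|ε|` small let `T(ε) = 1 + ε F₁` (invertible for `|ε|` small, `T⁻¹` holomorphic: entries of the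
inverse are polynomials over the determinant, or `Ring.inverse`), `ε' = ε/(1-ε)` (`= 1/(y-1)` for
`ε = 1/y`), and
`E(ε) = T(ε)⁻¹ Ψ⁻¹ A(ε) Ψ T(ε') - Λ`, holomorphic near `0`, `E(0) = Ψ⁻¹ A(0) Ψ - Λ = 0`, and
`E'(0) = -F₁ Λ + B₁ + Λ F₁ = 0` (the derivative of `ε'` at `0` is `1`). Therefore `‖E(ε)‖ ≤ B |ε|²` near
`0`, entrywise: a function holomorphic near `0` with `f 0 = 0`, `deriv f 0 = 0` is `O(ε²)`: e.g.
`dslope (dslope f 0) 0` is continuous (`DifferentiableOn`), `f ε = ε² · dslope (dslope f 0) 0 ε`.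
To avoid the inverse: it is enough to find `E` with `A(ε)ΨT(ε') = ΨT(ε)(Λ + E(ε))`. The final
`E y` is `E(1/y)` for `Re y > R₀` (so `‖y‖ > R₀`, `|1/y| < 1/R₀`).
-/

open scoped BigOperators Topology
open Filter

namespace Pool.Agent.DST

variable {N : ℕ}

private theorem hd_mul {M K : ℂ → Matrix (Fin N) (Fin N) ℂ} {M' K' : Matrix (Fin N) (Fin N) ℂ}
    {x : ℂ} (hM : ∀ i j, HasDerivAt (fun e => M e i j) (M' i j) x)
    (hK : ∀ i j, HasDerivAt (fun e => K e i j) (K' i j) x) (i j : Fin N) :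
    HasDerivAt (fun e => (M e * K e) i j) ((M' * K x + M x * K') i j) x := by
  have h : HasDerivAt (fun e => ∑ k, M e i k * K e k j)
      (∑ k, (M' i k * K x k j + M x i k * K' k j)) x :=
    HasDerivAt.fun_sum fun k _ => (hM i k).mul (hK k j)
  have e1 : (∑ k, (M' i k * K x k j + M x i k * K' k j)) = (M' * K x + M x * K') i j := by
    rw [Finset.sum_add_distrib, Matrix.add_apply, Matrix.mul_apply, Matrix.mul_apply]
  rw [e1] at h
  simpa only [Matrix.mul_apply] using h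

private theorem da_mul {M K : ℂ → Matrix (Fin N) (Fin N) ℂ}
    {x : ℂ} (hM : ∀ i j, DifferentiableAt ℂ (fun e => M e i j) x)
    (hK : ∀ i j, DifferentiableAt ℂ (fun e => K e i j) x) (i j : Fin N) :
    DifferentiableAt ℂ (fun e => (M e * K e) i j) x := by
  have h : DifferentiableAt ℂ (fun e => ∑ k, M e i k * K e k j) x :=
    DifferentiableAt.fun_sum fun k _ => (hM i k).mul (hK k j)
  simpa only [Matrix.mul_apply] using h

private theorem da_det {M : ℂ → Matrix (Fin N) (Fin N) ℂ} {x : ℂ}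
    (hM : ∀ i j, DifferentiableAt ℂ (fun e => M e i j) x) :
    DifferentiableAt ℂ (fun e => (M e).det) x := by
  simp only [Matrix.det_apply']
  refine DifferentiableAt.fun_sum fun σ _ => DifferentiableAt.const_mul ?_ _
  exact DifferentiableAt.fun_finsetProd fun i _ => hM (σ i) i

private theorem da_inv {M : ℂ → Matrix (Fin N) (Fin N) ℂ} {x : ℂ}
    (hM : ∀ i j, DifferentiableAt ℂ (fun e => M e i j) x) (h0 : (M x).det ≠ 0) (i j : Fin N) :
    DifferentiableAt ℂ (fun e => ((M e)⁻¹) i j) x := by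
  have h1 : ∀ e, ((M e)⁻¹) i j = ((M e).det)⁻¹ * ((M e).updateRow j (Pi.single i 1)).det := by
    intro e
    rw [Matrix.inv_def, Ring.inverse_eq_inv', Matrix.smul_apply, Matrix.adjugate_apply,
      smul_eq_mul]
  simp only [h1]
  refine ((da_det hM).inv h0).mul (da_det fun a b => ?_)
  by_cases hab : a = j
  · subst hab
    simp only [Matrix.updateRow_self]
    exact differentiableAt_const _
  · simp only [Matrix.updateRow_ne hab]
    exact hM a b

private theorem quad {f : ℂ → ℂ} {s : Set ℂ} (hs : s ∈ 𝓝 (0 : ℂ)) (hf : DifferentiableOn ℂ f s)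
    (f0 : f 0 = 0) (f1 : deriv f 0 = 0) :
    ∃ C : ℝ, ∀ᶠ e in 𝓝 (0 : ℂ), ‖f e‖ ≤ C * ‖e‖ ^ 2 := by
  have h1 : DifferentiableOn ℂ (dslope f 0) s := (Complex.differentiableOn_dslope hs).2 hf
  have h2 : DifferentiableOn ℂ (dslope (dslope f 0) 0) s :=
    (Complex.differentiableOn_dslope hs).2 h1
  have h3 : ContinuousAt (dslope (dslope f 0) 0) 0 :=
    (h2.differentiableAt hs).continuousAt
  refine ⟨‖dslope (dslope f 0) 0 0‖ + 1, ?_⟩
  have h4 : ∀ᶠ e in 𝓝 (0 : ℂ), ‖dslope (dslope f 0) 0 e‖ < ‖dslope (dslope f 0) 0 0‖ + 1 :=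
    h3.norm.eventually_lt_const (lt_add_one _)
  filter_upwards [h4] with e he
  have h5 : f e = e ^ 2 * dslope (dslope f 0) 0 e := by
    have a1 := sub_smul_dslope f 0 e
    have a2 := sub_smul_dslope (dslope f 0) 0 e
    rw [dslope_same, f1] at a2
    rw [f0] at a1
    simp only [sub_zero, smul_eq_mul] at a1 a2
    rw [← a1, ← a2]
    ring
  rw [h5, norm_mul, norm_pow, mul_comm]
  exact mul_le_mul_of_nonneg_right he.le (by positivity)

theorem gauge (D : DSys N) {Ψ : Matrix (Fin N) (Fin N) ℂ} {G : Fin N → ℂ}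
    (hE : Eig (D.A 0) D.g Ψ G) :
    ∃ (F₁ : Matrix (Fin N) (Fin N) ℂ) (R₀ B : ℝ) (E : ℂ → Matrix (Fin N) (Fin N) ℂ), 1 ≤ R₀ ∧
      (∀ y : ℂ, R₀ < y.re → ∀ i j, DifferentiableAt ℂ (fun y => E y i j) y) ∧
      (∀ y : ℂ, R₀ < y.re → ∀ i j, ‖E y i j‖ ≤ B / ‖y‖ ^ 2) ∧
      ∀ y : ℂ, R₀ < y.re → D.A y⁻¹ * (Ψ * (1 + (y - 1)⁻¹ • F₁)) =
        Ψ * (1 + y⁻¹ • F₁) * (Matrix.diagonal (fun j => Complex.exp (G j)) + E y) := by
  classical
  -- the inverse of `Ψ`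
  set Λ : Matrix (Fin N) (Fin N) ℂ := Matrix.diagonal (fun j => Complex.exp (G j)) with hΛ
  set Φ : Matrix (Fin N) (Fin N) ℂ := Ψ.transpose * D.g with hΦ
  have hΦΨ : Φ * Ψ = 1 := hE.norm
  have hΨΦ : Ψ * Φ = 1 := mul_eq_one_comm.1 hΦΨ
  set B₁ : Matrix (Fin N) (Fin N) ℂ := Φ * D.A1 * Ψ with hB₁
  have hdiag : ∀ j, B₁ j j = 0 := fun j => D.skew Ψ j
  set F₁ : Matrix (Fin N) (Fin N) ℂ := Matrix.of fun i j =>
    if i = j then 0 else B₁ i j / (Complex.exp (G j) - Complex.exp (G i)) with hF₁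
  have hcomm : B₁ + Λ * F₁ = F₁ * Λ := by
    ext i j
    rw [Matrix.add_apply, hΛ, Matrix.diagonal_mul, Matrix.mul_diagonal]
    by_cases hij : i = j
    · subst hij
      rw [hdiag]; ring
    · have h1 : F₁ i j = B₁ i j / (Complex.exp (G j) - Complex.exp (G i)) := by
        rw [hF₁, Matrix.of_apply, if_neg hij]
      have h2 : Complex.exp (G j) - Complex.exp (G i) ≠ 0 := by
        rw [sub_ne_zero]
        intro h
        exact hij (hE.inj h.symm)
      rw [h1]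
      field_simp
      ring
  set T : ℂ → Matrix (Fin N) (Fin N) ℂ := fun e => 1 + e • F₁ with hT
  set H : ℂ → Matrix (Fin N) (Fin N) ℂ := fun e =>
    Φ * D.A e * (Ψ * T (e / (1 - e))) - T e * Λ with hH
  -- derivatives
  have hTd : ∀ x : ℂ, ∀ i j, HasDerivAt (fun e => T e i j) (F₁ i j) x := by
    intro x i j
    have h := ((hasDerivAt_id x).mul_const (F₁ i j)).const_add ((1 : Matrix (Fin N) (Fin N) ℂ) i j)
    simp only [id, one_mul] at h
    simpa only [hT, Matrix.add_apply, Matrix.smul_apply, smul_eq_mul] using h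
  have hq : ∀ x : ℂ, 1 - x ≠ 0 → DifferentiableAt ℂ (fun e : ℂ => e / (1 - e)) x := by
    intro x hx
    exact differentiableAt_id.div ((differentiableAt_const _).sub differentiableAt_id) hx
  have hq0 : HasDerivAt (fun e : ℂ => e / (1 - e)) 1 0 := by
    have h : HasDerivAt (fun e : ℂ => e / (1 - e)) _ 0 :=
      (hasDerivAt_id' (0 : ℂ)).fun_div ((hasDerivAt_id' (0 : ℂ)).const_sub 1) (by simp)
    simpa using h
  have hTq : ∀ i j, HasDerivAt (fun e => T (e / (1 - e)) i j) (F₁ i j) 0 := by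
    intro i j
    have h := HasDerivAt.comp (h := fun e : ℂ => e / (1 - e)) (h₂ := fun e => T e i j) (0 : ℂ)
      (hTd (0 / (1 - 0)) i j) hq0
    rw [mul_one] at h
    exact h
  have hconst : ∀ (K : Matrix (Fin N) (Fin N) ℂ) (x : ℂ) (i j : Fin N),
      HasDerivAt (fun _ : ℂ => K i j) ((0 : Matrix (Fin N) (Fin N) ℂ) i j) x := by
    intro K x i j
    simpa using hasDerivAt_const x (K i j)
  have hA0 : ∀ i j, HasDerivAt (fun e => D.A e i j) (D.A1 i j) 0 := by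
    intro i j
    exact (D.A_hol 0 (Metric.mem_ball_self D.r_pos) i j).hasDerivAt
  have hT0 : T (0 / (1 - 0)) = 1 := by simp [hT]
  have hT0' : T 0 = 1 := by simp [hT]
  have hPΛ : Φ * D.A 0 * Ψ = Λ := by
    rw [Matrix.mul_assoc, hE.eig, ← Matrix.mul_assoc, hΦΨ, Matrix.one_mul]
  have hHd : ∀ i j, HasDerivAt (fun e => H e i j) 0 0 := by
    intro i j
    have a1 := hd_mul (M := fun _ => Φ) (K := D.A) (x := 0) (hconst Φ 0) hA0
    have a2 := hd_mul (M := fun _ => Ψ) (K := fun e => T (e / (1 - e))) (x := 0) (hconst Ψ 0) hTq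
    have a3 := hd_mul a1 a2 i j
    have a4 := hd_mul (M := T) (K := fun _ => Λ) (x := 0) (hTd 0) (hconst Λ 0) i j
    have a5 := a3.sub a4
    have e1 : (((0 * D.A 0 + Φ * D.A1) * (Ψ * T (0 / (1 - 0))) +
        Φ * D.A 0 * (0 * T (0 / (1 - 0)) + Ψ * F₁) : Matrix (Fin N) (Fin N) ℂ) i j -
        (F₁ * Λ + T 0 * 0 : Matrix (Fin N) (Fin N) ℂ) i j) = 0 := by
      rw [← Matrix.sub_apply, hT0, hT0']
      have e2 : (0 * D.A 0 + Φ * D.A1) * (Ψ * 1) + Φ * D.A 0 * (0 * 1 + Ψ * F₁) -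
          (F₁ * Λ + 1 * 0) = 0 := by
        rw [Matrix.zero_mul, Matrix.zero_mul, zero_add, zero_add, Matrix.mul_zero, add_zero,
          Matrix.mul_one, ← Matrix.mul_assoc (Φ * D.A 0), hPΛ, ← hcomm, hB₁, sub_self]
      rw [e2, Matrix.zero_apply]
    rw [e1] at a5
    exact a5
  have hH0 : ∀ i j, H 0 i j = 0 := by
    intro i j
    have : H 0 = 0 := by
      simp only [hH]
      rw [hT0, hT0', Matrix.mul_one, hPΛ, Matrix.one_mul, sub_self]
    rw [this, Matrix.zero_apply]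
  have hHdiff : ∀ x : ℂ, x ∈ Metric.ball (0 : ℂ) D.r → 1 - x ≠ 0 → ∀ i j,
      DifferentiableAt ℂ (fun e => H e i j) x := by
    intro x hx hx1 i j
    have b1 := da_mul (M := fun _ => Φ) (K := D.A) (x := x)
      (fun i j => differentiableAt_const _) (D.A_hol x hx)
    have b0 : ∀ i j, DifferentiableAt ℂ (fun e => T (e / (1 - e)) i j) x := by
      intro i j
      exact DifferentiableAt.comp (f := fun e : ℂ => e / (1 - e)) (g := fun e => T e i j) x
        (hTd _ i j).differentiableAt (hq x hx1)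
    have b2 := da_mul (M := fun _ => Ψ) (K := fun e => T (e / (1 - e))) (x := x)
      (fun i j => differentiableAt_const _) b0
    have b3 := da_mul b1 b2 i j
    have b4 := da_mul (M := T) (K := fun _ => Λ) (x := x)
      (fun i j => (hTd x i j).differentiableAt) (fun i j => differentiableAt_const _) i j
    exact b3.sub b4
  -- neighbourhoods of `0`
  have hball : ∀ᶠ e in 𝓝 (0 : ℂ), e ∈ Metric.ball (0 : ℂ) D.r :=
    Metric.ball_mem_nhds 0 D.r_pos
  have hone : ∀ᶠ e in 𝓝 (0 : ℂ), 1 - e ≠ 0 := by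
    have h : Tendsto (fun e : ℂ => 1 - e) (𝓝 0) (𝓝 (1 - 0)) :=
      (continuous_const.sub continuous_id).tendsto 0
    exact h.eventually_ne (by simp)
  have hdet : ∀ᶠ e in 𝓝 (0 : ℂ), (T e).det ≠ 0 := by
    have h : ContinuousAt (fun e => (T e).det) 0 :=
      (da_det fun i j => (hTd 0 i j).differentiableAt).continuousAt
    refine h.eventually_ne ?_
    rw [hT0']; simp
  have hinv : ∀ i j, ∀ᶠ e in 𝓝 (0 : ℂ), ‖((T e)⁻¹) i j‖ < ‖((T 0)⁻¹) i j‖ + 1 := by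
    intro i j
    have h : ContinuousAt (fun e => ((T e)⁻¹) i j) 0 :=
      (da_inv (fun i j => (hTd 0 i j).differentiableAt) (by rw [hT0']; simp) i j).continuousAt
    exact h.norm.eventually_lt_const (lt_add_one _)
  have hquad : ∀ i j, ∃ C : ℝ, ∀ᶠ e in 𝓝 (0 : ℂ), ‖H e i j‖ ≤ C * ‖e‖ ^ 2 := by
    intro i j
    have hs : {e : ℂ | e ∈ Metric.ball (0 : ℂ) D.r ∧ 1 - e ≠ 0} ∈ 𝓝 (0 : ℂ) := hball.and hone
    refine quad hs (fun e he => ?_) (hH0 i j) (hHd i j).deriv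
    exact (hHdiff e he.1 he.2 i j).differentiableWithinAt
  choose C hC using hquad
  have hall : ∀ᶠ e in 𝓝 (0 : ℂ), (e ∈ Metric.ball (0 : ℂ) D.r ∧ 1 - e ≠ 0 ∧ (T e).det ≠ 0) ∧
      (∀ i j, ‖((T e)⁻¹) i j‖ < ‖((T 0)⁻¹) i j‖ + 1) ∧ ∀ i j, ‖H e i j‖ ≤ C i j * ‖e‖ ^ 2 :=
    (hball.and (hone.and hdet)).and ((eventually_all.2 fun i => eventually_all.2 (hinv i)).and
      (eventually_all.2 fun i => eventually_all.2 (hC i)))
  obtain ⟨ρ, hρ, hρ'⟩ := Metric.eventually_nhds_iff.1 hall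
  have key : ∀ y : ℂ, max 1 ρ⁻¹ < y.re → y ≠ 0 ∧ dist y⁻¹ 0 < ρ := by
    intro y hy
    have h1 : (1 : ℝ) < y.re := lt_of_le_of_lt (le_max_left _ _) hy
    have h2 : ρ⁻¹ < y.re := lt_of_le_of_lt (le_max_right _ _) hy
    have h3 : y ≠ 0 := by
      rintro rfl
      simp only [Complex.zero_re] at h1
      linarith
    refine ⟨h3, ?_⟩
    rw [dist_zero_right, norm_inv]
    have h4 : ρ⁻¹ < ‖y‖ := lt_of_lt_of_le h2 (Complex.re_le_norm y)
    exact inv_lt_of_inv_lt₀ hρ h4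
  have hydiv : ∀ y : ℂ, max 1 ρ⁻¹ < y.re → y⁻¹ / (1 - y⁻¹) = (y - 1)⁻¹ := by
    intro y hy
    obtain ⟨h3, -⟩ := key y hy
    have h1 : (1 : ℝ) < y.re := lt_of_le_of_lt (le_max_left _ _) hy
    have h5 : y - 1 ≠ 0 := by
      rw [sub_ne_zero]
      rintro rfl
      simp only [Complex.one_re] at h1
      exact lt_irrefl _ h1
    have h6 : 1 - y⁻¹ ≠ 0 := by
      intro h
      apply h5
      have h7 : y⁻¹ = 1 := (sub_eq_zero.1 h).symm
      rw [inv_eq_one] at h7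
      rw [h7, sub_self]
    field_simp
  refine ⟨F₁, max 1 ρ⁻¹, ∑ i, ∑ j, ∑ k, (‖((T 0)⁻¹) i k‖ + 1) * |C k j|,
    fun y => (T y⁻¹)⁻¹ * H y⁻¹, le_max_left _ _, ?_, ?_, ?_⟩
  · intro y hy i j
    obtain ⟨h3, h4⟩ := key y hy
    obtain ⟨⟨g1, g2, g3⟩, -, -⟩ := hρ' h4
    have c1 := da_mul (M := fun e => (T e)⁻¹) (K := H) (x := y⁻¹)
      (da_inv (fun i j => (hTd _ i j).differentiableAt) g3) (hHdiff _ g1 g2) i j
    exact DifferentiableAt.comp (f := fun y : ℂ => y⁻¹) (g := fun e => ((T e)⁻¹ * H e) i j) y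
      c1 (differentiableAt_inv h3)
  · intro y hy i j
    obtain ⟨h3, h4⟩ := key y hy
    obtain ⟨-, g4, g5⟩ := hρ' h4
    have hyn : ‖(y⁻¹ : ℂ)‖ ^ 2 = 1 / ‖y‖ ^ 2 := by rw [norm_inv, inv_pow, one_div]
    have d1 : ‖((T y⁻¹)⁻¹ * H y⁻¹) i j‖ ≤
        ∑ k, (‖((T 0)⁻¹) i k‖ + 1) * |C k j| * (1 / ‖y‖ ^ 2) := by
      rw [Matrix.mul_apply]
      refine (norm_sum_le _ _).trans (Finset.sum_le_sum fun k _ => ?_)
      rw [norm_mul, mul_assoc]
      refine mul_le_mul (g4 i k).le ?_ (norm_nonneg _) (by positivity)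
      refine (g5 k j).trans ?_
      rw [hyn]
      exact mul_le_mul_of_nonneg_right (le_abs_self _) (by positivity)
    refine d1.trans ?_
    rw [← Finset.sum_mul, div_eq_mul_one_div (∑ i, ∑ j, ∑ k, (‖((T 0)⁻¹) i k‖ + 1) * |C k j|)]
    refine mul_le_mul_of_nonneg_right ?_ (by positivity)
    refine le_trans ?_ (Finset.single_le_sum (f := fun i => ∑ j, ∑ k,
      (‖((T 0)⁻¹) i k‖ + 1) * |C k j|) (fun i _ => by positivity) (Finset.mem_univ i))
    exact Finset.single_le_sum (f := fun j => ∑ k, (‖((T 0)⁻¹) i k‖ + 1) * |C k j|)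
      (fun j _ => by positivity) (Finset.mem_univ j)
  · intro y hy
    obtain ⟨h3, h4⟩ := key y hy
    obtain ⟨⟨g1, g2, g3⟩, -, -⟩ := hρ' h4
    have e1 : T y⁻¹ * (Λ + (T y⁻¹)⁻¹ * H y⁻¹) = Φ * D.A y⁻¹ * (Ψ * T (y⁻¹ / (1 - y⁻¹))) := by
      rw [Matrix.mul_add, ← Matrix.mul_assoc,
        Matrix.mul_nonsing_inv _ (isUnit_iff_ne_zero.2 g3), Matrix.one_mul]
      simp only [hH]
      rw [add_sub_cancel]
    rw [hydiv y hy] at e1
    have e2 : Ψ * (T y⁻¹ * (Λ + (T y⁻¹)⁻¹ * H y⁻¹)) = D.A y⁻¹ * (Ψ * T (y - 1)⁻¹) := by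
      rw [e1, Matrix.mul_assoc, ← Matrix.mul_assoc Ψ, hΨΦ, Matrix.one_mul]
    simp only [hT] at e2 ⊢
    rw [← e2]
    simp only [Matrix.mul_assoc]

end Pool.Agent.DST
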