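import Pool.Agent.DST.Abs

/-!
# Project DST, module K-Per: periodic functions

PLAN.
* `periodic_ext`: put `n y = ⌈|c| + 1 + |y.re|⌉₊` and `g y = f (y + n y)`; for every natural number `k`
  with `c < (y + k).re` we have `f (y + k) = f (y + k + 1)` (`hp` at `y + k + 1`), so by induction
  `g y = f (y + k)`. Locally `g = f (· + k)` for a fixed `k`.
* `zero_of_small`: `f y = g y * exp (I κ y)`, `κ = Im k`. `|exp (Iκy)| = exp (-κ Im y)` and
  `|exp (yk)| = exp (ρ Re y - κ Im y)`, `ρ = Re k`, so on the strip `0 ≤ Re y ≤ 1`: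
  `‖f y‖ ≤ exp |ρ| ‖exp (yk) g y‖ → 0` as `|Im y| → ∞` (there `‖y‖ → ∞` in the closed right half plane).
  `‖f (y+1)‖ = ‖f y‖` (`|exp (Iκ)| = 1`), so `f` is a bounded entire function (compact part of the
  strip + the limit), constant by `Differentiable.apply_eq_apply_of_bounded`, and its limit is `0`.
-/

open scoped BigOperators Topology
open Filter

namespace Pool.Agent.DST

private theorem kper_shift {c : ℝ} {f : ℂ → ℂ}
    (hp : ∀ y : ℂ, c + 1 < y.re → f y = f (y - 1)) (y : ℂ) (k m : ℕ)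
    (hk : c < (y + (k : ℂ)).re) : f (y + ((k + m : ℕ) : ℂ)) = f (y + (k : ℂ)) := by
  induction m with
  | zero => simp
  | succ m ih =>
    rw [← ih, hp (y + ((k + (m + 1) : ℕ) : ℂ)) ?_]
    · congr 1
      push_cast
      ring
    · simp only [Complex.add_re, Complex.natCast_re] at hk ⊢
      push_cast
      have : (0 : ℝ) ≤ m := Nat.cast_nonneg m
      linarith

private theorem kper_eq {c : ℝ} {f : ℂ → ℂ}
    (hp : ∀ y : ℂ, c + 1 < y.re → f y = f (y - 1)) (y : ℂ) (k m : ℕ)
    (hk : c < (y + (k : ℂ)).re) (hm : c < (y + (m : ℂ)).re) :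
    f (y + (k : ℂ)) = f (y + (m : ℂ)) := by
  rw [← kper_shift hp y k m hk, ← kper_shift hp y m k hm, add_comm k m]

theorem periodic_ext {c : ℝ} {f : ℂ → ℂ} (hf : ∀ y : ℂ, c < y.re → DifferentiableAt ℂ f y)
    (hp : ∀ y : ℂ, c + 1 < y.re → f y = f (y - 1)) :
    ∃ g : ℂ → ℂ, Differentiable ℂ g ∧ (∀ y, g (y - 1) = g y) ∧ ∀ y : ℂ, c < y.re → g y = f y := by
  have hn : ∀ y : ℂ, ∃ n : ℕ, c < (y + (n : ℂ)).re := by
    intro y
    obtain ⟨n, hn⟩ := exists_nat_gt (c - y.re)
    refine ⟨n, ?_⟩
    simp only [Complex.add_re, Complex.natCast_re]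
    linarith
  choose n hn using hn
  have key : ∀ (y : ℂ) (k : ℕ), c < (y + (k : ℂ)).re → f (y + (n y : ℂ)) = f (y + (k : ℂ)) :=
    fun y k hk => kper_eq hp y (n y) k (hn y) hk
  refine ⟨fun y => f (y + (n y : ℂ)), ?_, ?_, ?_⟩
  · intro y₀
    have h1 : DifferentiableAt ℂ (fun y => f (y + (n y₀ : ℂ))) y₀ := by
      have h2 : DifferentiableAt ℂ f (y₀ + (n y₀ : ℂ)) := hf _ (hn y₀)
      exact h2.comp y₀ (differentiableAt_id.add_const _)
    refine h1.congr_of_eventuallyEq ?_
    have hopen : IsOpen {y : ℂ | c < (y + (n y₀ : ℂ)).re} :=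
      isOpen_lt continuous_const (Complex.continuous_re.comp (continuous_id.add continuous_const))
    filter_upwards [hopen.mem_nhds (hn y₀)] with y hy
    exact key y (n y₀) hy
  · intro y
    have h1 : c < ((y - 1) + ((n y + 1 : ℕ) : ℂ)).re := by
      have := hn y
      simp only [Complex.add_re, Complex.natCast_re, Complex.sub_re, Complex.one_re] at this ⊢
      push_cast
      linarith
    show f (y - 1 + (n (y - 1) : ℂ)) = f (y + (n y : ℂ))
    rw [key (y - 1) (n y + 1) h1]
    congr 1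
    push_cast
    ring
  · intro y hy
    have h1 : c < (y + ((0 : ℕ) : ℂ)).re := by simpa using hy
    show f (y + (n y : ℂ)) = f y
    rw [key y 0 h1]
    simp

theorem zero_of_small {g : ℂ → ℂ} (hg : Differentiable ℂ g) (hp : ∀ y, g (y - 1) = g y) (k : ℂ)
    (h : Tendsto (fun y => Complex.exp (y * k) * g y) rhp (𝓝 0)) (y : ℂ) : g y = 0 := by
  obtain ⟨f, hf⟩ : ∃ f : ℂ → ℂ, f = fun y => g y * Complex.exp (Complex.I * k.im * y) := ⟨_, rfl⟩
  have hnorm : ∀ z, ‖f z‖ = ‖Complex.exp (z * k) * g z‖ * Real.exp (-(z.re * k.re)) := by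
    intro z
    simp only [hf, norm_mul, Complex.norm_exp]
    rw [mul_comm (Real.exp _) ‖g z‖, mul_assoc ‖g z‖, ← Real.exp_add]
    congr 2
    simp only [Complex.mul_re, Complex.mul_im, Complex.I_re, Complex.I_im, Complex.ofReal_re,
      Complex.ofReal_im]
    ring
  have hfd : Differentiable ℂ f := by
    rw [hf]
    exact hg.mul (((differentiable_const _).mul differentiable_id).cexp)
  have hsmall : ∀ ε : ℝ, 0 < ε → ∃ R : ℝ, ∀ z : ℂ, R < ‖z‖ → 0 ≤ z.re →
      ‖Complex.exp (z * k) * g z‖ < ε := by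
    intro ε hε
    have h1 : ∀ᶠ z in rhp, ‖Complex.exp (z * k) * g z‖ < ε := by
      have := h.norm
      rw [norm_zero] at this
      exact this.eventually (gt_mem_nhds hε)
    unfold rhp at h1
    rw [Filter.eventually_inf_principal] at h1
    rw [(Metric.hasBasis_cobounded_compl_closedBall (0 : ℂ)).eventually_iff] at h1
    obtain ⟨R, -, hR⟩ := h1
    refine ⟨R, fun z hz hz' => hR ?_ hz'⟩
    simp only [Set.mem_compl_iff, Metric.mem_closedBall, dist_zero_right, not_le]
    exact hz
  have hper : ∀ z, ‖f (z - 1)‖ = ‖f z‖ := by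
    intro z
    simp only [hf, norm_mul, Complex.norm_exp, hp]
    congr 2
    simp only [Complex.mul_re, Complex.mul_im, Complex.I_re, Complex.I_im, Complex.ofReal_re,
      Complex.ofReal_im, Complex.sub_re, Complex.sub_im, Complex.one_re, Complex.one_im]
    ring
  have hN : ∀ (n : ℕ) (z : ℂ), ‖f (z - n)‖ = ‖f z‖ := by
    intro n
    induction n with
    | zero => intro z; simp
    | succ n ih =>
      intro z
      rw [← ih z, ← hper (z - n)]
      congr 2
      push_cast
      ring
  have hZ : ∀ (n : ℤ) (z : ℂ), ‖f (z - n)‖ = ‖f z‖ := by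
    intro n z
    obtain ⟨m, rfl | rfl⟩ := n.eq_nat_or_neg
    · simpa using hN m z
    · have := hN m (z + m)
      rw [add_sub_cancel_right] at this
      rw [this]
      congr 2
      push_cast
      ring
  have hb : Bornology.IsBounded (Set.range f) := by
    obtain ⟨R, hR⟩ := hsmall 1 one_pos
    obtain ⟨C, hC⟩ := (isCompact_closedBall (0 : ℂ) R).exists_bound_of_continuousOn
      hfd.continuous.continuousOn
    rw [isBounded_iff_forall_norm_le]
    refine ⟨max C (Real.exp |k.re|), ?_⟩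
    rintro _ ⟨z, rfl⟩
    rw [← hZ ⌊z.re⌋ z]
    have h0 : 0 ≤ (z - (⌊z.re⌋ : ℂ)).re := by
      simp only [Complex.sub_re, Complex.intCast_re]
      linarith [Int.floor_le z.re]
    have h1 : (z - (⌊z.re⌋ : ℂ)).re ≤ 1 := by
      simp only [Complex.sub_re, Complex.intCast_re]
      linarith [Int.lt_floor_add_one z.re]
    generalize z - (⌊z.re⌋ : ℂ) = w at h0 h1
    by_cases hw : ‖w‖ ≤ R
    · exact le_max_of_le_left (hC w (by simpa using hw))
    · push Not at hw
      refine le_max_of_le_right ?_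
      rw [hnorm w]
      have h2 := hR w hw h0
      have h3 : Real.exp (-(w.re * k.re)) ≤ Real.exp |k.re| := by
        apply Real.exp_le_exp.mpr
        calc -(w.re * k.re) ≤ |w.re * k.re| := neg_le_abs _
          _ = |w.re| * |k.re| := abs_mul _ _
          _ ≤ 1 * |k.re| := by
            apply mul_le_mul_of_nonneg_right _ (abs_nonneg _)
            rw [abs_of_nonneg h0]
            exact h1
          _ = |k.re| := one_mul _
      calc ‖Complex.exp (w * k) * g w‖ * Real.exp (-(w.re * k.re))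
          ≤ 1 * Real.exp |k.re| :=
            mul_le_mul h2.le h3 (Real.exp_pos _).le zero_le_one
        _ = Real.exp |k.re| := one_mul _
  have hfy : ‖f y‖ = 0 := by
    apply le_antisymm _ (norm_nonneg _)
    apply le_of_forall_pos_le_add
    intro ε hε
    obtain ⟨R, hR⟩ := hsmall ε hε
    have h1 : f y = f (((|R| + 1 : ℝ) : ℂ) * Complex.I) :=
      hfd.apply_eq_apply_of_bounded hb _ _
    rw [h1, hnorm]
    have h2 : (((|R| + 1 : ℝ) : ℂ) * Complex.I).re = 0 := by simp
    have h3 : R < ‖((|R| + 1 : ℝ) : ℂ) * Complex.I‖ := by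
      rw [norm_mul, Complex.norm_I, mul_one, Complex.norm_real, Real.norm_eq_abs,
        abs_of_nonneg (by positivity)]
      linarith [le_abs_self R]
    have h4 := hR _ h3 h2.ge
    rw [h2]
    simp only [zero_mul, neg_zero, Real.exp_zero, mul_one, zero_add]
    exact h4.le
  rw [hf] at hfy
  simp only [norm_mul, mul_eq_zero, norm_eq_zero, Complex.exp_ne_zero, or_false] at hfy
  exact hfy

end Pool.Agent.DST
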