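import Pool.Agent.DST.KFix
import Pool.Agent.DST.KGauge
import Pool.Agent.DST.KPer
import Pool.Agent.DST.KLau
import Pool.Agent.DST.KDet
import Pool.Agent.DST.SHol

/-!
# Project DST, module K-Birk: existence of the right-canonical basis (assembly)

`W(y) = Ψ (1 + F₁/y)(1 + H(y)) diag(e^{yG})` solves the difference system far to the right (`gauge`, `fix`); `F⁻¹ W` is
periodic, entire and of at most exponential growth, hence given by Laurent polynomials in `q`.
-/

open scoped BigOperators Topology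
open Filter

namespace Pool.Agent.DST

variable {N : ℕ}

private theorem mul_bd {A B : Matrix (Fin N) (Fin N) ℂ} {a b : ℝ} (ha : ∀ i j, ‖A i j‖ ≤ a)
    (hb : ∀ i j, ‖B i j‖ ≤ b) (ha0 : 0 ≤ a) (i j : Fin N) : ‖(A * B) i j‖ ≤ N * (a * b) := by
  rw [Matrix.mul_apply]
  calc ‖∑ k, A i k * B k j‖ ≤ ∑ k, ‖A i k * B k j‖ := norm_sum_le _ _
    _ ≤ ∑ _k : Fin N, a * b := Finset.sum_le_sum fun k _ => by
        rw [norm_mul]
        exact mul_le_mul (ha i k) (hb k j) (norm_nonneg _) ha0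
    _ = N * (a * b) := by simp

private theorem exists_bd (A : Matrix (Fin N) (Fin N) ℂ) : ∃ a : ℝ, 0 ≤ a ∧ ∀ i j, ‖A i j‖ ≤ a := by
  refine ⟨∑ i, ∑ j, ‖A i j‖, Finset.sum_nonneg fun i _ => Finset.sum_nonneg fun j _ => norm_nonneg _, ?_⟩
  intro i j
  calc ‖A i j‖ ≤ ∑ j, ‖A i j‖ := Finset.single_le_sum (f := fun j => ‖A i j‖) (fun _ _ => norm_nonneg _) (Finset.mem_univ j)
    _ ≤ ∑ i, ∑ j, ‖A i j‖ := Finset.single_le_sum (f := fun i => ∑ j, ‖A i j‖)
        (fun _ _ => Finset.sum_nonneg fun _ _ => norm_nonneg _) (Finset.mem_univ i)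

private theorem diag_split (G : Fin N → ℂ) (y : ℂ) :
    Matrix.diagonal (fun j => Complex.exp (y * G j)) =
      Matrix.diagonal (fun j => Complex.exp (G j)) * Matrix.diagonal (fun j => Complex.exp ((y - 1) * G j)) := by
  rw [Matrix.diagonal_mul_diagonal]
  congr 1
  funext j
  rw [← Complex.exp_add]
  congr 1
  ring

private theorem diag_inv (G : Fin N → ℂ) (y : ℂ) :
    Matrix.diagonal (fun j => Complex.exp (y * G j)) * Matrix.diagonal (fun j => Complex.exp (-y * G j)) =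
      (1 : Matrix (Fin N) (Fin N) ℂ) := by
  rw [Matrix.diagonal_mul_diagonal, ← Matrix.diagonal_one]
  congr 1
  funext j
  rw [← Complex.exp_add, show y * G j + -y * G j = 0 by ring, Complex.exp_zero]

private theorem slit {y : ℂ} (h : 0 < y.re) : y ∈ Complex.slitPlane := Or.inl h

private theorem diag_diff (G : Fin N → ℂ) (y : ℂ) (i j : Fin N) :
    DifferentiableAt ℂ (fun y => Matrix.diagonal (fun j => Complex.exp (y * G j)) i j) y := by
  by_cases h : i = j
  · subst h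
    simp only [Matrix.diagonal_apply_eq]
    fun_prop
  · simp only [Matrix.diagonal_apply_ne _ h]
    exact differentiableAt_const _

private theorem one_add_diff {M : ℂ → Matrix (Fin N) (Fin N) ℂ} {y : ℂ}
    (h : ∀ i j, DifferentiableAt ℂ (fun y => M y i j) y) (i j : Fin N) :
    DifferentiableAt ℂ (fun y => (1 + M y) i j) y := by
  simp only [Matrix.add_apply]
  exact (differentiableAt_const _).add (h i j)

/-- Block K. Existence of the right-canonical basis off the walls. -/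
theorem birkhoff (D : DSys N) {Ψ : Matrix (Fin N) (Fin N) ℂ} {G : Fin N → ℂ}
    (hE : Eig (D.A 0) D.g Ψ G) (hoff : OffWall G) :
    ∃ X : Matrix (Fin N) (Fin N) (LaurentPolynomial ℂ), IsUnit X.det ∧
      IsBirk D.F Ψ G (fun y => X.map (evq y)) := by
  obtain ⟨F₁, R₀, B, E, hR₀, hEd, hEb, hEq⟩ := gauge D hE
  obtain ⟨c₀, K, hc₀, hRc, H, hHd, hHb, hHe⟩ := fix hoff hEd hEb
  obtain ⟨c, hcc, hcr⟩ : ∃ c : ℝ, c₀ ≤ c ∧ D.r⁻¹ ≤ c := ⟨max c₀ D.r⁻¹, le_max_left _ _, le_max_right _ _⟩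
  have hc1 : 1 ≤ c := hc₀.trans hcc
  obtain ⟨P, hP⟩ : ∃ P : ℂ → Matrix (Fin N) (Fin N) ℂ, P = fun y => Ψ * (1 + y⁻¹ • F₁) * (1 + H y) := ⟨_, rfl⟩
  obtain ⟨W, hW⟩ : ∃ W : ℂ → Matrix (Fin N) (Fin N) ℂ,
      W = fun y => P y * Matrix.diagonal (fun j => Complex.exp (y * G j)) := ⟨_, rfl⟩
  -- (1) the relation
  have hWr : ∀ y : ℂ, c + 1 < y.re → W y = D.A y⁻¹ * W (y - 1) := by
    intro y hy
    have h1 := hHe y (by linarith)
    have h2 := hEq y (by linarith)
    rw [hW]
    show P y * Matrix.diagonal (fun j => Complex.exp (y * G j)) =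
      D.A y⁻¹ * (P (y - 1) * Matrix.diagonal (fun j => Complex.exp ((y - 1) * G j)))
    rw [hP, diag_split]
    calc Ψ * (1 + y⁻¹ • F₁) * (1 + H y) * (Matrix.diagonal (fun j => Complex.exp (G j)) *
          Matrix.diagonal (fun j => Complex.exp ((y - 1) * G j)))
        = Ψ * (1 + y⁻¹ • F₁) * ((1 + H y) * Matrix.diagonal (fun j => Complex.exp (G j))) *
          Matrix.diagonal (fun j => Complex.exp ((y - 1) * G j)) := by simp only [Matrix.mul_assoc]
      _ = (Ψ * (1 + y⁻¹ • F₁) * (Matrix.diagonal (fun j => Complex.exp (G j)) + E y)) * (1 + H (y - 1)) *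
          Matrix.diagonal (fun j => Complex.exp ((y - 1) * G j)) := by rw [h1]; simp only [Matrix.mul_assoc]
      _ = D.A y⁻¹ * (Ψ * (1 + (y - 1)⁻¹ • F₁)) * (1 + H (y - 1)) *
          Matrix.diagonal (fun j => Complex.exp ((y - 1) * G j)) := by rw [← h2]
      _ = _ := by simp only [Matrix.mul_assoc]
  -- (2) the periodic matrix
  have hX : ∀ y : ℂ, c + 1 < y.re → (D.F y)⁻¹ * W y = (D.F (y - 1))⁻¹ * W (y - 1) := by
    intro y hy
    have hy0 : y ∈ Complex.slitPlane := slit (by linarith)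
    have hy1 : y - 1 ∈ Complex.slitPlane := slit (by simp; linarith)
    have hr : D.r⁻¹ < ‖y‖ := by
      have := Complex.re_le_norm y
      linarith
    have hF := D.rel y hy0 hy1 hr
    have hd : (D.A y⁻¹).det ≠ 0 := by
      have h := D.F_det y hy0
      rw [hF, Matrix.det_mul] at h
      exact left_ne_zero_of_mul h
    rw [hWr y hy, hF, Matrix.mul_inv_rev, Matrix.mul_assoc, ← Matrix.mul_assoc (D.A y⁻¹)⁻¹,
      Matrix.nonsing_inv_mul _ (isUnit_iff_ne_zero.mpr hd), Matrix.one_mul]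
  have hd : ∀ i j : Fin N, ∀ y : ℂ, c < y.re → DifferentiableAt ℂ (fun y => ((D.F y)⁻¹ * W y) i j) y := by
    intro i j y hy
    have hy0 : y ∈ Complex.slitPlane := slit (by linarith)
    have hyne : y ≠ 0 := by
      rintro rfl
      simp at hy
      linarith
    have e1 : ∀ i j, DifferentiableAt ℂ (fun y : ℂ => (1 + y⁻¹ • F₁ : Matrix (Fin N) (Fin N) ℂ) i j) y := by
      refine one_add_diff (M := fun y : ℂ => y⁻¹ • F₁) fun i j => ?_
      simp only [Matrix.smul_apply, smul_eq_mul]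
      exact (differentiableAt_inv hyne).mul_const _
    have e2 : ∀ i j, DifferentiableAt ℂ (fun y : ℂ => (1 + H y) i j) y :=
      one_add_diff (M := H) fun i j => hHd y (by linarith) i j
    have e3 : ∀ i j, DifferentiableAt ℂ (fun y : ℂ => (Ψ * (1 + y⁻¹ • F₁)) i j) y :=
      diffAt_mul (A := fun _ : ℂ => Ψ) (B := fun y : ℂ => (1 + y⁻¹ • F₁ : Matrix (Fin N) (Fin N) ℂ))
        (fun i j => differentiableAt_const _) e1
    have e4 : ∀ i j, DifferentiableAt ℂ (fun y : ℂ => P y i j) y := by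
      intro i j
      rw [hP]
      exact diffAt_mul (A := fun y : ℂ => Ψ * (1 + y⁻¹ • F₁)) (B := fun y : ℂ => 1 + H y) e3 e2 i j
    have e5 : ∀ i j, DifferentiableAt ℂ (fun y : ℂ => W y i j) y := by
      intro i j
      rw [hW]
      exact diffAt_mul (A := P) (B := fun y : ℂ => Matrix.diagonal (fun j => Complex.exp (y * G j))) e4
        (diag_diff G y) i j
    have e6 : ∀ i j, DifferentiableAt ℂ (fun y : ℂ => (D.F y)⁻¹ i j) y :=
      diffAt_inv (A := D.F) (D.F_hol y hy0) (D.F_det y hy0)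
    exact diffAt_mul (A := fun y : ℂ => (D.F y)⁻¹) (B := W) e6 e5 i j
  have hext : ∀ i j : Fin N, ∃ g : ℂ → ℂ, Differentiable ℂ g ∧ (∀ y, g (y - 1) = g y) ∧
      ∀ y : ℂ, c < y.re → g y = ((D.F y)⁻¹ * W y) i j := fun i j =>
    periodic_ext (f := fun y => ((D.F y)⁻¹ * W y) i j) (hd i j) (fun y hy => by rw [hX y hy])
  choose g hgd hgp hge using hext
  -- (3) growth
  have hgrow : ∃ C : ℝ, ∀ i j : Fin N, ∀ y : ℂ, 1 ≤ |y.im| → ‖g i j y‖ ≤ Real.exp (C * |y.im|) := by
    obtain ⟨C, hC⟩ := D.growth (c + 2)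
    obtain ⟨a, ha0, ha⟩ := exists_bd Ψ
    obtain ⟨b, hb0, hb⟩ := exists_bd F₁
    obtain ⟨m, hm0, hm⟩ : ∃ m : ℝ, 0 ≤ m ∧ ∀ j, ‖G j‖ ≤ m :=
      ⟨∑ j, ‖G j‖, Finset.sum_nonneg fun _ _ => norm_nonneg _, fun j =>
        Finset.single_le_sum (f := fun j => ‖G j‖) (fun _ _ => norm_nonneg _) (Finset.mem_univ j)⟩
    -- the constant
    obtain ⟨M, hM⟩ : ∃ M : ℝ, M = N * (N * (a * (1 + b)) * (1 + |K|)) := ⟨_, rfl⟩
    have hM0 : 0 ≤ M := by rw [hM]; positivity
    refine ⟨C + N * M + (c + 3) * m, fun i j y hy => ?_⟩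
    -- translate to the strip
    have hper : ∀ k : ℤ, g i j (y + k) = g i j y := by
      intro k
      induction k using Int.induction_on with
      | zero => simp
      | succ k ih =>
        rw [← ih, ← hgp i j (y + ((k + 1 : ℤ) : ℂ))]
        congr 1
        push_cast
        ring
      | pred k ih =>
        rw [← ih, ← hgp i j (y + ((-k : ℤ) : ℂ))]
        congr 1
        push_cast
        ring
    set k : ℤ := ⌈c + 1 - y.re⌉ with hk
    obtain ⟨y', hy'⟩ : ∃ y' : ℂ, y' = y + k := ⟨_, rfl⟩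
    have hre : y'.re = y.re + k := by rw [hy']; simp
    have him : y'.im = y.im := by rw [hy']; simp
    have h1 : c + 1 ≤ y'.re := by
      rw [hre]
      have := Int.le_ceil (c + 1 - y.re)
      linarith
    have h2 : y'.re ≤ c + 2 := by
      rw [hre]
      have := Int.ceil_lt_add_one (c + 1 - y.re)
      linarith
    rw [← hper k, ← hy', ← him]
    rw [← him] at hy
    have hnorm1 : 1 ≤ ‖y'‖ := by
      have := Complex.re_le_norm y'
      linarith
    have hF := hC y' (by rw [abs_le]; constructor <;> linarith) hy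
    have hPb : ∀ i j, ‖P y' i j‖ ≤ M := by
      have e1 : ∀ i j, ‖(1 + y'⁻¹ • F₁) i j‖ ≤ 1 + b := by
        intro i j
        rw [Matrix.add_apply, Matrix.smul_apply, smul_eq_mul]
        refine (norm_add_le _ _).trans (add_le_add ?_ ?_)
        · rw [Matrix.one_apply]
          split_ifs <;> simp
        · rw [norm_mul, norm_inv]
          calc ‖y'‖⁻¹ * ‖F₁ i j‖ ≤ 1 * b :=
                mul_le_mul (inv_le_one_of_one_le₀ hnorm1) (hb i j) (norm_nonneg _) zero_le_one
            _ = b := one_mul b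
      have e2 : ∀ i j, ‖(1 + H y') i j‖ ≤ 1 + |K| := by
        intro i j
        rw [Matrix.add_apply]
        refine (norm_add_le _ _).trans (add_le_add ?_ ?_)
        · rw [Matrix.one_apply]
          split_ifs <;> simp
        · refine (hHb y' (by linarith) i j).trans ?_
          rw [div_le_iff₀ (by linarith)]
          calc K ≤ |K| * 1 := by rw [mul_one]; exact le_abs_self K
            _ ≤ |K| * ‖y'‖ := mul_le_mul_of_nonneg_left hnorm1 (abs_nonneg K)
      intro i j
      rw [hP, hM]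
      exact mul_bd (mul_bd ha e1 ha0) e2 (by positivity) i j
    have hyn : ‖y'‖ ≤ (c + 3) * |y'.im| := by
      have h3 := Complex.norm_le_abs_re_add_abs_im y'
      rw [abs_of_nonneg (by linarith : 0 ≤ y'.re)] at h3
      have h4 : (c + 2) * 1 ≤ (c + 2) * |y'.im| := mul_le_mul_of_nonneg_left hy (by linarith)
      linarith
    have hWb : ∀ i j, ‖W y' i j‖ ≤ M * Real.exp ((c + 3) * m * |y'.im|) := by
      intro i j
      rw [hW]
      show ‖(P y' * Matrix.diagonal (fun j => Complex.exp (y' * G j))) i j‖ ≤ _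
      rw [Matrix.mul_diagonal, norm_mul]
      refine mul_le_mul (hPb i j) ?_ (norm_nonneg _) hM0
      rw [Complex.norm_exp]
      apply Real.exp_le_exp.mpr
      calc (y' * G j).re ≤ ‖y' * G j‖ := Complex.re_le_norm _
        _ = ‖y'‖ * ‖G j‖ := norm_mul _ _
        _ ≤ ((c + 3) * |y'.im|) * m := mul_le_mul hyn (hm j) (norm_nonneg _) (by positivity)
        _ = (c + 3) * m * |y'.im| := by ring
    rw [hge i j y' (by linarith)]
    refine (mul_bd (fun i j => (hF i j).2) hWb (Real.exp_nonneg _) i j).trans ?_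
    have h5 : (N : ℝ) * M ≤ Real.exp (N * M * |y'.im|) := by
      have h6 : 0 ≤ (N : ℝ) * M := by positivity
      calc (N : ℝ) * M ≤ N * M * |y'.im| := le_mul_of_one_le_right h6 hy
        _ ≤ N * M * |y'.im| + 1 := by linarith
        _ ≤ _ := Real.add_one_le_exp _
    calc (N : ℝ) * (Real.exp (C * |y'.im|) * (M * Real.exp ((c + 3) * m * |y'.im|)))
        = (N * M) * (Real.exp (C * |y'.im|) * Real.exp ((c + 3) * m * |y'.im|)) := by ring
      _ ≤ Real.exp (N * M * |y'.im|) * (Real.exp (C * |y'.im|) * Real.exp ((c + 3) * m * |y'.im|)) :=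
          mul_le_mul_of_nonneg_right h5 (by positivity)
      _ = Real.exp ((C + N * M + (c + 3) * m) * |y'.im|) := by
          rw [← Real.exp_add, ← Real.exp_add]
          congr 1
          ring
  obtain ⟨C, hC⟩ := hgrow
  choose X hXv using fun i j : Fin N => laurent_of_growth (hgd i j) (hgp i j) (hC i j)
  obtain ⟨Y, hY⟩ : ∃ Y : Matrix (Fin N) (Fin N) (LaurentPolynomial ℂ), Y = Matrix.of X := ⟨_, rfl⟩
  have hYv : ∀ y : ℂ, c < y.re → Y.map (evq y) = (D.F y)⁻¹ * W y := by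
    intro y hy
    ext i j
    rw [Matrix.map_apply, hY, Matrix.of_apply, ← hXv i j y, hge i j y hy]
  have hper : ∀ y, Y.map (evq (y - 1)) = Y.map (evq y) := fun y => by rw [evq_sub_one]
  -- (4) asymptotics
  have hbirk : IsBirk D.F Ψ G (fun y => Y.map (evq y)) := by
    obtain ⟨n, hn⟩ := exists_nat_gt c
    refine birk_of_far D hE hper n ?_
    have hmem : ∀ᶠ y : ℂ in Bornology.cobounded ℂ ⊓ 𝓟 {y : ℂ | (n : ℝ) ≤ y.re}, c < y.re := by
      filter_upwards [mem_inf_of_right (mem_principal_self _)] with y hy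
      exact hn.trans_le hy
    have hinv : Tendsto (fun y : ℂ => y⁻¹) (Bornology.cobounded ℂ ⊓ 𝓟 {y : ℂ | (n : ℝ) ≤ y.re}) (𝓝 0) :=
      (tendsto_inv₀_cobounded (α := ℂ)).mono_left inf_le_left
    have hnorm : Tendsto (fun y : ℂ => ‖y‖) (Bornology.cobounded ℂ ⊓ 𝓟 {y : ℂ | (n : ℝ) ≤ y.re}) atTop :=
      tendsto_norm_cobounded_atTop.mono_left inf_le_left
    have hH0 : Tendsto H (Bornology.cobounded ℂ ⊓ 𝓟 {y : ℂ | (n : ℝ) ≤ y.re}) (𝓝 0) := by
      refine tendsto_pi_nhds.mpr fun i => tendsto_pi_nhds.mpr fun j => ?_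
      refine squeeze_zero_norm' (a := fun y => K / ‖y‖) ?_ (hnorm.const_div_atTop K)
      filter_upwards [hmem] with y hy
      exact hHb y (by linarith) i j
    have hPt : Tendsto P (Bornology.cobounded ℂ ⊓ 𝓟 {y : ℂ | (n : ℝ) ≤ y.re}) (𝓝 Ψ) := by
      have h1 : Tendsto (fun y : ℂ => Ψ * (1 + y⁻¹ • F₁) * (1 + H y))
          (Bornology.cobounded ℂ ⊓ 𝓟 {y : ℂ | (n : ℝ) ≤ y.re}) (𝓝 (Ψ * (1 + (0 : ℂ) • F₁) * (1 + 0))) :=
        (tendsto_const_nhds.mul (tendsto_const_nhds.add (hinv.smul_const F₁))).mul (tendsto_const_nhds.add hH0)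
      rw [zero_smul, add_zero, Matrix.mul_one, Matrix.mul_one] at h1
      rw [hP]
      exact h1
    intro i j
    have h2 : Tendsto (fun y => P y i j) (Bornology.cobounded ℂ ⊓ 𝓟 {y : ℂ | (n : ℝ) ≤ y.re}) (𝓝 (Ψ i j)) :=
      tendsto_pi_nhds.mp (tendsto_pi_nhds.mp hPt i) j
    refine h2.congr' ?_
    filter_upwards [hmem] with y hy
    have hy0 : y ∈ Complex.slitPlane := slit (by linarith)
    rw [hYv y hy, ← Matrix.mul_assoc (D.F y), Matrix.mul_nonsing_inv _ (isUnit_iff_ne_zero.mpr (D.F_det y hy0)),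
      Matrix.one_mul, hW]
    show P y i j = (P y * Matrix.diagonal (fun j => Complex.exp (y * G j)) *
      Matrix.diagonal (fun k => Complex.exp (-y * G k))) i j
    rw [Matrix.mul_assoc, diag_inv, Matrix.mul_one]
  refine ⟨Y, ?_, hbirk⟩
  -- (5) the determinant
  refine isUnit_of_evq_ne_zero fun y => ?_
  rw [RingHom.map_det]
  exact det_of_birk D hE hper hbirk y

end Pool.Agent.DST
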