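import Pool.Agent.DST.KKer

/-!
# Project DST, module K-Cont: the contour identity

PLAN. Put `f w = krn Δ m w * R (y - w)`, `φ` from `ker_pole`, `ψ w = φ w * R (y - w)`, holomorphic for
`|Re w| < min 1 (Re y - c)` (a neighbourhood of `|Re w| ≤ 1/2`), `ψ 0 = R y / (2πi)`, `f w = ψ w / w`
for `w ≠ 0`. So `f w - ψ 0 / w = dslope ψ 0 w` for `w ≠ 0` in the strip.
(1) `∮` over the boundary of the rectangle `[-1/2,1/2] × [-T,T]` of `dslope ψ 0` is `0`
  (`Complex.integral_boundary_rect_eq_zero_of_differentiableOn`; `dslope ψ 0` is holomorphic on the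
  open strip by `Complex.differentiableOn_dslope`).
(2) So `I ∫_{-T}^{T} f(1/2 + iτ) - I ∫_{-T}^{T} f(-1/2 + iτ) + ∫_{-1/2}^{1/2} f(x - iT) dx -
  ∫_{-1/2}^{1/2} f(x + iT) dx` equals `ψ 0` times the same expression for `1/w`.
(3) `T → ∞`. The horizontal integrals of `f` tend to `0` by `ker_hor` and `‖R‖ ≤ B`; those of `1/w` are
  at most `1/T` in norm. The vertical integrals of `f` converge to the integrals over `ℝ`
  (integrable: `ker_half`, `ker_cont`, for `Re w = 1/2` use `ker_sub_one`; `‖R‖ ≤ B`;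
  `MeasureTheory.intervalIntegral_tendsto_integral`).
(4) `1/(1/2 + iτ) - 1/(-1/2 + iτ) = 1/(1/4 + τ²)` and
  `∫_{-T}^{T} dτ/(1/4 + τ²) = 2 (arctan (2T) - arctan (-2T)) → 2π`
  (`integral_inv_one_add_sq` after the substitution `τ = s/2`, or the derivative of
  `2 arctan (2τ)`; `Real.tendsto_arctan_atTop`). So the right side tends to
  `ψ 0 * I * 2π = R y`.
The integrands: `y - (-1/2 + iτ) = y + 1/2 - iτ`, `y - (1/2 + iτ) = y - 1/2 - iτ`.
-/

open scoped BigOperators Topology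
open Filter MeasureTheory

namespace Pool.Agent.DST

private theorem kc_exp {δ : ℝ} (hδ : 0 < δ) (τ : ℝ) :
    Real.exp (-(δ * |τ|)) ≤ (1 + 2 / δ ^ 2) * (1 + τ ^ 2)⁻¹ := by
  have h1 : 1 + δ * |τ| + (δ * |τ|) ^ 2 / 2 ≤ Real.exp (δ * |τ|) :=
    Real.quadratic_le_exp_of_nonneg (by positivity)
  have h2 : 0 ≤ δ * |τ| := by positivity
  have h3 : (δ * |τ|) ^ 2 = δ ^ 2 * τ ^ 2 := by rw [mul_pow, sq_abs]
  rw [h3] at h1
  have h4 : 0 < 1 + τ ^ 2 := by positivity
  rw [Real.exp_neg, ← div_eq_mul_inv, le_div_iff₀ h4, inv_mul_le_iff₀ (Real.exp_pos _)]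
  have h5 : (2 / δ ^ 2) * (δ ^ 2 * τ ^ 2 / 2) = τ ^ 2 := by field_simp
  have h6 : 0 ≤ 2 / δ ^ 2 := by positivity
  have h7 : 0 ≤ δ ^ 2 * τ ^ 2 / 2 := by positivity
  have h8 : 1 + δ ^ 2 * τ ^ 2 / 2 ≤ Real.exp (δ * |τ|) := by linarith
  calc 1 + τ ^ 2 ≤ (1 + δ ^ 2 * τ ^ 2 / 2) * (1 + 2 / δ ^ 2) := by nlinarith
    _ ≤ Real.exp (δ * |τ|) * (1 + 2 / δ ^ 2) :=
        mul_le_mul_of_nonneg_right h8 (by positivity)

private theorem kc_integrable {F : ℝ → ℂ} (hF : Continuous F) {K δ : ℝ} (hδ : 0 < δ)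
    (hK : 0 ≤ K) (h : ∀ τ, ‖F τ‖ ≤ K * Real.exp (-(δ * |τ|))) : Integrable F := by
  have h1 : Integrable fun τ : ℝ => K * ((1 + 2 / δ ^ 2) * (1 + τ ^ 2)⁻¹) :=
    (integrable_inv_one_add_sq.const_mul _).const_mul _
  refine h1.mono' hF.aestronglyMeasurable (Eventually.of_forall fun τ => ?_)
  exact (h τ).trans (mul_le_mul_of_nonneg_left (kc_exp hδ τ) hK)

private theorem kc_quarter_integrable : Integrable fun τ : ℝ => (((1 / 4 + τ ^ 2 : ℝ)⁻¹ : ℝ) : ℂ) := by
  have h1 : Integrable fun τ : ℝ => 4 * (1 + (2 * τ) ^ 2)⁻¹ :=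
    (integrable_inv_one_add_sq.comp_mul_left' (by norm_num : (2 : ℝ) ≠ 0)).const_mul 4
  have h2 : (fun τ : ℝ => ((1 / 4 + τ ^ 2 : ℝ)⁻¹ : ℝ)) = fun τ : ℝ => 4 * (1 + (2 * τ) ^ 2)⁻¹ := by
    funext τ
    have h3 : (1 / 4 + τ ^ 2 : ℝ) ≠ 0 := by positivity
    have h4 : (1 + (2 * τ) ^ 2 : ℝ) ≠ 0 := by positivity
    field_simp
    ring
  rw [← h2] at h1
  exact h1.ofReal

private theorem kc_quarter_integral :
    ∫ τ : ℝ, (((1 / 4 + τ ^ 2 : ℝ)⁻¹ : ℝ) : ℂ) = 2 * Real.pi := by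
  have h2 : (fun τ : ℝ => ((1 / 4 + τ ^ 2 : ℝ)⁻¹ : ℝ)) = fun τ : ℝ => 4 * (1 + (2 * τ) ^ 2)⁻¹ := by
    funext τ
    have h3 : (1 / 4 + τ ^ 2 : ℝ) ≠ 0 := by positivity
    have h4 : (1 + (2 * τ) ^ 2 : ℝ) ≠ 0 := by positivity
    field_simp
    ring
  have h5 : ∫ τ : ℝ, ((1 / 4 + τ ^ 2 : ℝ)⁻¹ : ℝ) = 2 * Real.pi := by
    rw [h2, integral_const_mul]
    have h6 := Measure.integral_comp_mul_left (fun x : ℝ => (1 + x ^ 2)⁻¹) (2 : ℝ)
    rw [h6, integral_univ_inv_one_add_sq, smul_eq_mul, abs_of_pos (by norm_num)]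
    ring
  calc ∫ τ : ℝ, (((1 / 4 + τ ^ 2 : ℝ)⁻¹ : ℝ) : ℂ)
      = ((∫ τ : ℝ, ((1 / 4 + τ ^ 2 : ℝ)⁻¹ : ℝ) : ℝ) : ℂ) := integral_ofReal
    _ = 2 * Real.pi := by rw [h5]; push_cast; ring

theorem contour {Δ : ℂ} {m : ℤ} (hm₁ : Δ.im / (2 * Real.pi) < m)
    (hm₂ : (m : ℝ) < Δ.im / (2 * Real.pi) + 1) {c B : ℝ} {R : ℂ → ℂ}
    (hR : ∀ y : ℂ, c < y.re → DifferentiableAt ℂ R y) (hB : ∀ y : ℂ, c < y.re → ‖R y‖ ≤ B)
    (y : ℂ) (hy : c + 1 / 2 < y.re) :
    -(Complex.I * ∫ τ : ℝ, krn Δ m (-(1 / 2) + τ * Complex.I) * R (y + 1 / 2 - τ * Complex.I)) +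
      Complex.I * ∫ τ : ℝ, krn Δ m (1 / 2 + τ * Complex.I) * R (y - 1 / 2 - τ * Complex.I) =
        R y := by
  obtain ⟨φ, hφd, hφ0, hφ⟩ := ker_pole Δ m
  obtain ⟨K₀, δ₀, hK₀, hδ₀, hk₀⟩ := ker_half hm₁ hm₂
  obtain ⟨K₁, δ₁, hK₁, hδ₁, hk₁⟩ := ker_hor hm₁ hm₂
  have hB0 : 0 ≤ B := (norm_nonneg _).trans (hB y (by linarith))
  set ψ : ℂ → ℂ := fun w => φ w * R (y - w) with hψ
  set U : Set ℂ := {w | |w.re| < 1 ∧ c < y.re - w.re} with hU
  have hUo : IsOpen U := by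
    apply IsOpen.inter
    · exact isOpen_lt (Complex.continuous_re.abs) continuous_const
    · exact isOpen_lt continuous_const (continuous_const.sub Complex.continuous_re)
  have hψd : DifferentiableOn ℂ ψ U := by
    intro w hw
    have h1 : DifferentiableAt ℂ R (y - w) := hR _ (by rw [Complex.sub_re]; exact hw.2)
    have h2 : DifferentiableAt ℂ (fun w => R (y - w)) w :=
      DifferentiableAt.comp w h1 (by fun_prop)
    exact ((hφd w hw.1).mul h2).differentiableWithinAt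
  have hUmem : ∀ w : ℂ, |w.re| ≤ 1 / 2 → w ∈ U := by
    intro w hw
    have := abs_le.1 hw
    refine ⟨by linarith, by linarith [this.2]⟩
  have h0U : (0 : ℂ) ∈ U := hUmem 0 (by simp)
  set g : ℂ → ℂ := dslope ψ 0 with hg
  have hgd : DifferentiableOn ℂ g U :=
    (Complex.differentiableOn_dslope (hUo.mem_nhds h0U)).2 hψd
  have hgf : ∀ w : ℂ, |w.re| ≤ 1 / 2 → w ≠ 0 → g w = krn Δ m w * R (y - w) - ψ 0 / w := by
    intro w hw hw0
    have h1 : |w.re| < 1 := by linarith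
    rw [hg, dslope_of_ne _ hw0, slope_def_field, sub_zero, hφ w h1 hw0]
    simp only [hψ]
    field_simp
  have hψ0 : ψ 0 = (2 * Real.pi * Complex.I)⁻¹ * R y := by
    simp only [hψ, hφ0, sub_zero]
  -- the vertical integrands
  set F₁ : ℝ → ℂ := fun τ => krn Δ m (1 / 2 + τ * Complex.I) * R (y - 1 / 2 - τ * Complex.I) with hF₁
  set F₀ : ℝ → ℂ := fun τ => krn Δ m (-(1 / 2) + τ * Complex.I) *
    R (y + 1 / 2 - τ * Complex.I) with hF₀
  have hRc : ∀ z : ℂ, c < z.re → Continuous fun τ : ℝ => R (z - τ * Complex.I) := by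
    intro z hz
    rw [continuous_iff_continuousAt]
    intro τ
    have h1 : ContinuousAt R (z - τ * Complex.I) :=
      (hR _ (by simp; exact hz)).continuousAt
    exact ContinuousAt.comp (f := fun τ : ℝ => z - τ * Complex.I) h1 (by fun_prop)
  have hF₁c : Continuous F₁ := (ker_cont' Δ m).mul (hRc (y - 1 / 2) (by simp; linarith))
  have hF₀c : Continuous F₀ := (ker_cont Δ m).mul (hRc (y + 1 / 2) (by simp; linarith))
  have hF₀i : Integrable F₀ := by
    apply kc_integrable hF₀c hδ₀ (K := K₀ * B) (by positivity)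
    intro τ
    rw [hF₀]
    simp only [norm_mul]
    have h1 := hk₀ τ
    have h2 : ‖R (y + 1 / 2 - τ * Complex.I)‖ ≤ B := hB _ (by simp; linarith)
    calc _ ≤ (K₀ * Real.exp (-(δ₀ * |τ|))) * B :=
          mul_le_mul h1 h2 (norm_nonneg _) (by positivity)
      _ = _ := by ring
  have hF₁i : Integrable F₁ := by
    apply kc_integrable hF₁c hδ₀ (K := K₀ * B * ‖Complex.exp (-Δ)‖) (by positivity)
    intro τ
    rw [hF₁]
    simp only [norm_mul]
    have h0 : krn Δ m (1 / 2 + τ * Complex.I) =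
        Complex.exp (-Δ) * krn Δ m (-(1 / 2) + τ * Complex.I) := by
      have h1 := ker_sub_one Δ m (1 / 2 + τ * Complex.I)
      have h2 : (1 / 2 + τ * Complex.I - 1 : ℂ) = -(1 / 2) + τ * Complex.I := by ring
      rw [h2] at h1
      rw [h1, ← mul_assoc, ← Complex.exp_add]
      simp
    have h1 := hk₀ τ
    have h2 : ‖R (y - 1 / 2 - τ * Complex.I)‖ ≤ B := hB _ (by simp; linarith)
    rw [h0, norm_mul]
    calc ‖Complex.exp (-Δ)‖ * ‖krn Δ m (-(1 / 2) + τ * Complex.I)‖ *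
          ‖R (y - 1 / 2 - τ * Complex.I)‖
        ≤ ‖Complex.exp (-Δ)‖ * (K₀ * Real.exp (-(δ₀ * |τ|))) * B :=
          mul_le_mul (mul_le_mul_of_nonneg_left h1 (norm_nonneg _)) h2 (norm_nonneg _)
            (by positivity)
      _ = _ := by ring
  -- the difference on the vertical lines
  set G : ℝ → ℂ := fun τ => F₁ τ - F₀ τ - ψ 0 * (((1 / 4 + τ ^ 2 : ℝ)⁻¹ : ℝ) : ℂ) with hG
  have hGi : Integrable G := (hF₁i.sub hF₀i).sub (kc_quarter_integrable.const_mul _)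
  have hGint : ∫ τ, G τ = (∫ τ, F₁ τ) - (∫ τ, F₀ τ) - ψ 0 * (2 * Real.pi) := by
    have hi : Integrable (fun τ => F₁ τ - F₀ τ) := hF₁i.sub hF₀i
    have hj : Integrable (fun τ : ℝ => ψ 0 * (((1 / 4 + τ ^ 2 : ℝ)⁻¹ : ℝ) : ℂ)) :=
      kc_quarter_integrable.const_mul _
    simp only [hG]
    rw [integral_sub hi hj, integral_sub hF₁i hF₀i, integral_const_mul, kc_quarter_integral]
  have hgG : ∀ τ : ℝ, g (1 / 2 + τ * Complex.I) - g (-(1 / 2) + τ * Complex.I) = G τ := by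
    intro τ
    have e1 : (1 / 2 + τ * Complex.I : ℂ) ≠ 0 := by
      intro h
      have := congrArg Complex.re h
      simp at this
    have e0 : (-(1 / 2) + τ * Complex.I : ℂ) ≠ 0 := by
      intro h
      have := congrArg Complex.re h
      simp at this
    rw [hgf _ (by simp) e1, hgf _ (by simp) e0]
    simp only [hG, hF₁, hF₀]
    have a1 : y - (1 / 2 + τ * Complex.I) = y - 1 / 2 - τ * Complex.I := by ring
    have a2 : y - (-(1 / 2) + τ * Complex.I) = y + 1 / 2 - τ * Complex.I := by ring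
    rw [a1, a2]
    have a3 : ψ 0 / (1 / 2 + τ * Complex.I) - ψ 0 / (-(1 / 2) + τ * Complex.I) =
        ψ 0 * (((1 / 4 + τ ^ 2 : ℝ)⁻¹ : ℝ) : ℂ) := by
      have e2 : ((1 / 4 + τ ^ 2 : ℝ) : ℂ) ≠ 0 := by
        have : (1 / 4 + τ ^ 2 : ℝ) ≠ 0 := by positivity
        exact_mod_cast this
      rw [Complex.ofReal_inv, div_sub_div _ _ e1 e0, ← div_eq_mul_inv, div_eq_div_iff
        (mul_ne_zero e1 e0) e2]
      push_cast
      linear_combination (-(ψ 0 * (τ : ℂ) ^ 2)) * Complex.I_sq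
    linear_combination -a3
  have hgv : ∀ x : ℝ, |x| ≤ 1 / 2 → Continuous fun τ : ℝ => g (x + τ * Complex.I) := by
    intro x hx
    have h1 : ContinuousOn g U := hgd.continuousOn
    exact h1.comp_continuous (by fun_prop) (fun τ => hUmem _ (by simpa using hx))
  -- the rectangle
  have hrect : ∀ T : ℝ, 0 < T →
      (∫ x : ℝ in (-(1 / 2))..(1 / 2), g (x + ((-T : ℝ) : ℂ) * Complex.I)) -
        (∫ x : ℝ in (-(1 / 2))..(1 / 2), g (x + (T : ℂ) * Complex.I)) +
        Complex.I * (∫ τ in (-T)..T, G τ) = 0 := by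
    intro T hT
    have h1 := Complex.integral_boundary_rect_eq_zero_of_differentiableOn g
      (⟨-(1 / 2), -T⟩ : ℂ) (⟨1 / 2, T⟩ : ℂ) (by
        apply hgd.mono
        intro w hw
        rw [Complex.mem_reProdIm] at hw
        have h2 := hw.1
        simp only at h2
        rw [Set.uIcc_of_le (by norm_num)] at h2
        exact hUmem w (abs_le.2 ⟨by linarith [h2.1], by linarith [h2.2]⟩))
    simp only [smul_eq_mul] at h1
    have h2 : (∫ τ in (-T)..T, G τ) =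
        (∫ τ : ℝ in (-T)..T, g (((1 / 2 : ℝ) : ℂ) + τ * Complex.I)) -
          (∫ τ : ℝ in (-T)..T, g (((-(1 / 2) : ℝ) : ℂ) + τ * Complex.I)) := by
      rw [← intervalIntegral.integral_sub
        ((hgv (1 / 2) (by norm_num [abs_of_pos])).intervalIntegrable _ _)
        ((hgv (-(1 / 2)) (by norm_num [abs_of_pos])).intervalIntegrable _ _)]
      apply intervalIntegral.integral_congr
      intro τ _
      have := hgG τ
      simp only
      rw [← this]
      push_cast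
      ring_nf
    rw [h2]
    rw [← h1]
    ring
  -- the horizontal sides
  have hhor : ∀ T : ℝ, 1 ≤ |T| →
      ‖∫ x : ℝ in (-(1 / 2))..(1 / 2), g (x + (T : ℂ) * Complex.I)‖ ≤
        K₁ * Real.exp (-(δ₁ * |T|)) * B + ‖ψ 0‖ / |T| := by
    intro T hT
    have h1 : ∀ x ∈ Set.uIoc (-(1 / 2) : ℝ) (1 / 2), ‖g (x + (T : ℂ) * Complex.I)‖ ≤
        K₁ * Real.exp (-(δ₁ * |T|)) * B + ‖ψ 0‖ / |T| := by
      intro x hx
      rw [Set.uIoc_of_le (by norm_num)] at hx
      have hre : ((x : ℂ) + (T : ℂ) * Complex.I).re = x := by simp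
      have him : ((x : ℂ) + (T : ℂ) * Complex.I).im = T := by simp
      have hxa : |x| ≤ 1 / 2 := abs_le.2 ⟨by linarith [hx.1], hx.2⟩
      have hT0 : 0 < |T| := by linarith
      have hne : ((x : ℂ) + (T : ℂ) * Complex.I) ≠ 0 := by
        intro h
        have h2 := congrArg Complex.im h
        rw [him] at h2
        simp at h2
        rw [h2] at hT
        norm_num at hT
      rw [hgf _ (by rw [hre]; exact hxa) hne]
      refine (norm_sub_le _ _).trans (add_le_add ?_ ?_)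
      · rw [norm_mul]
        have h3 := hk₁ ((x : ℂ) + (T : ℂ) * Complex.I) (by rw [hre]; exact hxa)
          (by rw [him]; exact hT)
        rw [him] at h3
        exact mul_le_mul h3 (hB _ (by
          rw [Complex.sub_re, hre]
          linarith [(abs_le.1 hxa).2])) (norm_nonneg _) (by positivity)
      · rw [norm_div]
        apply div_le_div_of_nonneg_left (norm_nonneg _) hT0
        have h3 := Complex.abs_im_le_norm ((x : ℂ) + (T : ℂ) * Complex.I)
        rw [him] at h3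
        exact h3
    have h2 := intervalIntegral.norm_integral_le_of_norm_le_const h1
    have h3 : |(1 / 2 : ℝ) - -(1 / 2)| = 1 := by norm_num
    rw [h3, mul_one] at h2
    exact h2
  have hbt : Tendsto (fun T : ℝ => K₁ * Real.exp (-(δ₁ * |T|)) * B + ‖ψ 0‖ / |T|) atTop (𝓝 0) := by
    have h1 : Tendsto (fun T : ℝ => Real.exp (-(δ₁ * |T|))) atTop (𝓝 0) := by
      apply Real.tendsto_exp_atBot.comp
      apply tendsto_neg_atTop_atBot.comp
      exact tendsto_abs_atTop_atTop.const_mul_atTop hδ₁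
    have h2 : Tendsto (fun T : ℝ => ‖ψ 0‖ / |T|) atTop (𝓝 0) :=
      tendsto_abs_atTop_atTop.const_div_atTop _
    have h3 := ((h1.const_mul K₁).mul_const B).add h2
    simpa using h3
  have hH2 : Tendsto (fun T : ℝ => ∫ x : ℝ in (-(1 / 2))..(1 / 2), g (x + (T : ℂ) * Complex.I))
      atTop (𝓝 0) := by
    apply squeeze_zero_norm' _ hbt
    filter_upwards [eventually_ge_atTop (1 : ℝ)] with T hT
    exact hhor T (by rw [abs_of_nonneg (by linarith)]; exact hT)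
  have hH1 : Tendsto (fun T : ℝ => ∫ x : ℝ in (-(1 / 2))..(1 / 2),
      g (x + ((-T : ℝ) : ℂ) * Complex.I)) atTop (𝓝 0) := by
    apply squeeze_zero_norm' _ hbt
    filter_upwards [eventually_ge_atTop (1 : ℝ)] with T hT
    have := hhor (-T) (by rw [abs_neg, abs_of_nonneg (by linarith)]; exact hT)
    rw [abs_neg] at this
    exact this
  have hV : Tendsto (fun T : ℝ => ∫ τ in (-T)..T, G τ) atTop (𝓝 (∫ τ, G τ)) :=
    intervalIntegral_tendsto_integral hGi tendsto_neg_atTop_atBot tendsto_id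
  have hlim := (hH1.sub hH2).add (hV.const_mul Complex.I)
  have hz : Tendsto (fun T : ℝ =>
      (∫ x : ℝ in (-(1 / 2))..(1 / 2), g (x + ((-T : ℝ) : ℂ) * Complex.I)) -
        (∫ x : ℝ in (-(1 / 2))..(1 / 2), g (x + (T : ℂ) * Complex.I)) +
        Complex.I * (∫ τ in (-T)..T, G τ)) atTop (𝓝 0) := by
    apply Tendsto.congr' _ tendsto_const_nhds
    filter_upwards [eventually_gt_atTop (0 : ℝ)] with T hT
    exact (hrect T hT).symm
  have hfin := tendsto_nhds_unique hlim hz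
  rw [hGint, hψ0] at hfin
  have hpi : (Real.pi : ℂ) ≠ 0 := by exact_mod_cast Real.pi_ne_zero
  have e1 : Complex.I * ((2 * Real.pi * Complex.I)⁻¹ * R y * (2 * Real.pi)) = R y := by
    field_simp
  linear_combination hfin + e1

end Pool.Agent.DST
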