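import Pool.Agent.DST.Abs

/-!
# Project DST, block K: the kernel and the solution operator (definitions; complete, nothing to prove)

`h = sop Δ m R` solves `h(y) - e^{-Δ} h(y-1) = R(y)` on `Re y > c + 1` if `R` is holomorphic and
bounded on `Re y > c + 1`, `Im Δ / 2π < m < Im Δ / 2π + 1`; `h` is defined on `Re y > c`.
-/

open scoped BigOperators Topology
open Filter

namespace Pool.Agent.DST

/-- The kernel `e^{-Δw + 2πimw} / (e^{2πiw} - 1)`. -/
noncomputable def krn (Δ : ℂ) (m : ℤ) (w : ℂ) : ℂ :=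
  Complex.exp (-Δ * w + 2 * Real.pi * Complex.I * m * w) /
    (Complex.exp (2 * Real.pi * Complex.I * w) - 1)

/-- The solution operator. -/
noncomputable def sop (Δ : ℂ) (m : ℤ) (R : ℂ → ℂ) (y : ℂ) : ℂ :=
  Complex.exp Δ * (-(Complex.I * ∫ τ : ℝ, krn Δ m (-(1 / 2) + τ * Complex.I) *
    R (y + 3 / 2 - τ * Complex.I)) - R (y + 1))

end Pool.Agent.DST
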