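import Pool.Agent.DST.KSolve

/-!
# Project DST, module K-Fix: the matrix equation by a Neumann series
-/

open scoped BigOperators Topology
open Filter

namespace Pool.Agent.DST

theorem step {N : ℕ} {G : Fin N → ℂ} (hoff : OffWall G) :
    ∃ K : ℝ, 0 ≤ K ∧ ∀ c B : ℝ, ∀ P : ℂ → Matrix (Fin N) (Fin N) ℂ, 1 ≤ c → 0 ≤ B →
      (∀ y : ℂ, c + 1 < y.re → ∀ i j, DifferentiableAt ℂ (fun y => P y i j) y) →
      (∀ y : ℂ, c + 1 < y.re → ∀ i j, ‖P y i j‖ ≤ B / ‖y‖ ^ 2) →
      ∃ H : ℂ → Matrix (Fin N) (Fin N) ℂ,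
        (∀ y : ℂ, c < y.re → ∀ i j, DifferentiableAt ℂ (fun y => H y i j) y) ∧
        (∀ y : ℂ, c < y.re → ∀ i j, ‖H y i j‖ ≤ K * B / ‖y‖) ∧
        ∀ y : ℂ, c + 1 < y.re →
          H y * Matrix.diagonal (fun j => Complex.exp (G j)) -
            Matrix.diagonal (fun j => Complex.exp (G j)) * H (y - 1) = P y := by
  have hs : ∀ i j : Fin N, (G j - G i) = 0 ∨ ∀ n : ℤ, (G j - G i).im ≠ 2 * Real.pi * n := by
    intro i j
    rcases eq_or_ne i j with rfl | h
    · left; exact sub_self _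
    · right; exact hoff j i h.symm
  choose κ hκ hsol using fun i j => solve (hs i j)
  refine ⟨∑ i, ∑ j, κ i j * ‖Complex.exp (-G j)‖, Finset.sum_nonneg fun i _ =>
    Finset.sum_nonneg fun j _ => mul_nonneg (hκ i j) (norm_nonneg _), ?_⟩
  intro c B P hc hB hd hP
  have hex : ∀ i j : Fin N, ∃ h : ℂ → ℂ, (∀ y : ℂ, c < y.re → DifferentiableAt ℂ h y) ∧
        (∀ y : ℂ, c < y.re → ‖h y‖ ≤ κ i j * (‖Complex.exp (-G j)‖ * B) / ‖y‖) ∧
        ∀ y : ℂ, c + 1 < y.re → h y - Complex.exp (-(G j - G i)) * h (y - 1) =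
          Complex.exp (-G j) * P y i j := by
    intro i j
    refine hsol i j c (‖Complex.exp (-G j)‖ * B) (fun y => Complex.exp (-G j) * P y i j) hc
      (mul_nonneg (norm_nonneg _) hB) (fun y hy => (hd y hy i j).const_mul _) (fun y hy => ?_)
    rw [norm_mul, mul_div_assoc]
    exact mul_le_mul_of_nonneg_left (hP y hy i j) (norm_nonneg _)
  choose h h1 h2 h3 using hex
  refine ⟨fun y => Matrix.of fun i j => h i j y, fun y hy i j => h1 i j y hy, fun y hy i j => ?_,
    fun y hy => ?_⟩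
  · show ‖h i j y‖ ≤ _
    refine (h2 i j y hy).trans (div_le_div_of_nonneg_right ?_ (norm_nonneg _))
    rw [← mul_assoc]
    refine mul_le_mul_of_nonneg_right ?_ hB
    refine le_trans ?_ (Finset.single_le_sum (f := fun i => ∑ j, κ i j * ‖Complex.exp (-G j)‖)
      (fun i _ => Finset.sum_nonneg fun j _ => mul_nonneg (hκ i j) (norm_nonneg _))
      (Finset.mem_univ i))
    exact Finset.single_le_sum (f := fun j => κ i j * ‖Complex.exp (-G j)‖)
      (fun j _ => mul_nonneg (hκ i j) (norm_nonneg _)) (Finset.mem_univ j)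
  · ext i j
    rw [Matrix.sub_apply, Matrix.mul_diagonal, Matrix.diagonal_mul]
    show h i j y * Complex.exp (G j) - Complex.exp (G i) * h i j (y - 1) = P y i j
    have e := h3 i j y hy
    have e1 : h i j y = Complex.exp (-(G j - G i)) * h i j (y - 1) +
        Complex.exp (-G j) * P y i j := by linear_combination e
    have e2 : Complex.exp (-(G j - G i)) * Complex.exp (G j) = Complex.exp (G i) := by
      rw [← Complex.exp_add]; ring_nf
    have e3 : Complex.exp (-G j) * Complex.exp (G j) = 1 := by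
      rw [← Complex.exp_add]; simp
    rw [e1]
    linear_combination (h i j (y - 1)) * e2 + P y i j * e3

theorem fix {N : ℕ} {G : Fin N → ℂ} (hoff : OffWall G) {R₀ B : ℝ}
    {D : ℂ → Matrix (Fin N) (Fin N) ℂ}
    (hD : ∀ y : ℂ, R₀ < y.re → ∀ i j, DifferentiableAt ℂ (fun y => D y i j) y)
    (hB : ∀ y : ℂ, R₀ < y.re → ∀ i j, ‖D y i j‖ ≤ B / ‖y‖ ^ 2) :
    ∃ c K : ℝ, 1 ≤ c ∧ R₀ ≤ c ∧ ∃ H : ℂ → Matrix (Fin N) (Fin N) ℂ,
      (∀ y : ℂ, c < y.re → ∀ i j, DifferentiableAt ℂ (fun y => H y i j) y) ∧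
      (∀ y : ℂ, c < y.re → ∀ i j, ‖H y i j‖ ≤ K / ‖y‖) ∧
      ∀ y : ℂ, c + 1 < y.re →
        (1 + H y) * Matrix.diagonal (fun j => Complex.exp (G j)) =
          (Matrix.diagonal (fun j => Complex.exp (G j)) + D y) * (1 + H (y - 1)) := by
  obtain ⟨K, hK, hstep⟩ := step hoff
  set Λ : Matrix (Fin N) (Fin N) ℂ := Matrix.diagonal (fun j => Complex.exp (G j)) with hΛ
  set c : ℝ := max 1 (max R₀ (2 * (K * (N * |B|)))) with hc
  have hc1 : 1 ≤ c := le_max_left _ _
  have hcR : R₀ ≤ c := (le_max_left _ _).trans (le_max_right _ _)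
  have hcK : 2 * (K * (N * |B|)) ≤ c := (le_max_right _ _).trans (le_max_right _ _)
  have hc0 : 0 < c := by linarith
  have hB' : ∀ y : ℂ, R₀ < y.re → ∀ i j, ‖D y i j‖ ≤ |B| / ‖y‖ ^ 2 := fun y hy i j =>
    (hB y hy i j).trans (div_le_div_of_nonneg_right (le_abs_self B) (by positivity))
  set β₀ : ℝ := K * |B| with hβ₀
  have hβ₀0 : 0 ≤ β₀ := mul_nonneg hK (abs_nonneg _)
  -- first term
  obtain ⟨H₀, a1, a2, a3⟩ := hstep c |B| D hc1 (abs_nonneg _)
    (fun y hy i j => hD y (by linarith) i j) (fun y hy i j => hB' y (by linarith) i j)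
  -- the recursion
  have hrec : ∀ (k : ℕ) (H : ℂ → Matrix (Fin N) (Fin N) ℂ),
      ((∀ y : ℂ, c < y.re → ∀ i j, DifferentiableAt ℂ (fun y => H y i j) y) ∧
        (∀ y : ℂ, c < y.re → ∀ i j, ‖H y i j‖ ≤ β₀ / 2 ^ k / ‖y‖)) →
      ∃ H' : ℂ → Matrix (Fin N) (Fin N) ℂ,
        ((∀ y : ℂ, c < y.re → ∀ i j, DifferentiableAt ℂ (fun y => H' y i j) y) ∧
          (∀ y : ℂ, c < y.re → ∀ i j, ‖H' y i j‖ ≤ β₀ / 2 ^ (k + 1) / ‖y‖)) ∧
        ∀ y : ℂ, c + 1 < y.re → H' y * Λ - Λ * H' (y - 1) = D y * H (y - 1) := by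
    rintro k H ⟨b1, b2⟩
    have hre : ∀ y : ℂ, c + 1 < y.re → c < (y - 1).re := by
      intro y hy
      simp only [Complex.sub_re, Complex.one_re]; linarith
    set β : ℝ := β₀ / 2 ^ k with hβ
    have hβ0 : 0 ≤ β := by positivity
    have g1 : ∀ y : ℂ, c + 1 < y.re → ∀ i j,
        DifferentiableAt ℂ (fun y => (D y * H (y - 1)) i j) y := by
      intro y hy i j
      have e : (fun y => (D y * H (y - 1)) i j) = fun y => ∑ l, D y i l * H (y - 1) l j := by
        funext y
        rw [Matrix.mul_apply]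
      rw [e]
      refine DifferentiableAt.fun_sum fun l _ => ?_
      refine (hD y (by linarith) i l).mul ?_
      exact DifferentiableAt.comp (g := fun z => H z l j) (f := fun z : ℂ => z - 1) y
        (b1 (y - 1) (hre y hy) l j) (by fun_prop)
    have g2 : ∀ y : ℂ, c + 1 < y.re → ∀ i j,
        ‖(D y * H (y - 1)) i j‖ ≤ (N * |B| * β / c) / ‖y‖ ^ 2 := by
      intro y hy i j
      rw [Matrix.mul_apply]
      refine (norm_sum_le _ _).trans ?_
      have h1 : ∀ l ∈ Finset.univ, ‖D y i l * H (y - 1) l j‖ ≤ |B| / ‖y‖ ^ 2 * (β / c) := by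
        intro l _
        rw [norm_mul]
        refine mul_le_mul (hB' y (by linarith) i l) ?_ (norm_nonneg _) (by positivity)
        refine (b2 (y - 1) (hre y hy) l j).trans ?_
        refine div_le_div_of_nonneg_left hβ0 hc0 ?_
        have := Complex.re_le_norm (y - 1)
        have := hre y hy
        linarith
      refine (Finset.sum_le_sum h1).trans (le_of_eq ?_)
      rw [Finset.sum_const, Finset.card_univ, Fintype.card_fin, nsmul_eq_mul]
      ring
    obtain ⟨H', d1, d2, d3⟩ := hstep c (N * |B| * β / c) (fun y => D y * H (y - 1)) hc1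
      (by positivity) g1 g2
    refine ⟨H', ⟨d1, fun y hy i j => (d2 y hy i j).trans ?_⟩, d3⟩
    refine div_le_div_of_nonneg_right ?_ (norm_nonneg _)
    have e : β₀ / 2 ^ (k + 1) = β / 2 := by
      rw [hβ, pow_succ]
      ring
    rw [e, ← mul_div_assoc, div_le_div_iff₀ hc0 (by norm_num)]
    nlinarith [mul_le_mul_of_nonneg_right hcK hβ0]
  choose! nxt hnxt using hrec
  let sq : ℕ → ℂ → Matrix (Fin N) (Fin N) ℂ := fun k => Nat.rec H₀ (fun k H => nxt k H) k
  have sq0 : sq 0 = H₀ := rfl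
  have sqs : ∀ k, sq (k + 1) = nxt k (sq k) := fun k => rfl
  have hgood : ∀ k, (∀ y : ℂ, c < y.re → ∀ i j, DifferentiableAt ℂ (fun y => sq k y i j) y) ∧
        (∀ y : ℂ, c < y.re → ∀ i j, ‖sq k y i j‖ ≤ β₀ / 2 ^ k / ‖y‖) := by
    intro k
    induction k with
    | zero =>
      refine ⟨a1, fun y hy i j => ?_⟩
      rw [pow_zero, div_one]
      exact a2 y hy i j
    | succ k ih =>
      rw [sqs]
      exact (hnxt k (sq k) ih).1
  have hrel : ∀ k, ∀ y : ℂ, c + 1 < y.re →
      sq (k + 1) y * Λ - Λ * sq (k + 1) (y - 1) = D y * sq k (y - 1) := by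
    intro k
    rw [sqs]
    exact (hnxt k (sq k) (hgood k)).2
  have hy1 : ∀ y : ℂ, c < y.re → 1 ≤ ‖y‖ := by
    intro y hy
    have := Complex.re_le_norm y
    linarith
  have hgeo : Summable fun k : ℕ => β₀ / 2 ^ k := by
    have := (summable_geometric_two).mul_left β₀
    refine this.congr fun k => ?_
    rw [div_pow, one_pow, mul_one_div]
  have hsum : ∀ y : ℂ, c < y.re → ∀ i j, Summable fun k => sq k y i j := by
    intro y hy i j
    refine Summable.of_norm_bounded hgeo fun k => ?_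
    refine ((hgood k).2 y hy i j).trans ?_
    exact div_le_self (by positivity) (hy1 y hy)
  have hUo : IsOpen {y : ℂ | c < y.re} := isOpen_lt continuous_const Complex.continuous_re
  refine ⟨c, 2 * β₀, hc1, hcR, fun y => Matrix.of fun i j => ∑' k, sq k y i j, ?_, ?_, ?_⟩
  · intro y hy i j
    have h1 : DifferentiableOn ℂ (fun y : ℂ => ∑' k : ℕ, sq k y i j) {y : ℂ | c < y.re} := by
      refine Complex.differentiableOn_tsum_of_summable_norm hgeo ?_ hUo ?_
      · intro k w hw
        exact ((hgood k).1 w hw i j).differentiableWithinAt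
      · intro k w hw
        exact ((hgood k).2 w hw i j).trans (div_le_self (by positivity) (hy1 w hw))
    exact h1.differentiableAt (hUo.mem_nhds hy)
  · intro y hy i j
    show ‖∑' k, sq k y i j‖ ≤ _
    have h1 : Summable fun k : ℕ => β₀ / 2 ^ k / ‖y‖ := hgeo.div_const _
    refine (tsum_of_norm_bounded h1.hasSum fun k => (hgood k).2 y hy i j).trans (le_of_eq ?_)
    rw [tsum_div_const]
    congr 1
    have h2 : ∀ k : ℕ, β₀ / 2 ^ k = β₀ * (1 / 2) ^ k := by
      intro k
      rw [div_pow, one_pow, mul_one_div]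
    simp only [h2]
    rw [tsum_mul_left, tsum_geometric_two]
    ring
  · intro y hy
    have hcy : c < y.re := by linarith
    have hcy1 : c < (y - 1).re := by
      simp only [Complex.sub_re, Complex.one_re]; linarith
    have main : (Matrix.of fun i j => ∑' k, sq k y i j) * Λ -
        Λ * (Matrix.of fun i j => ∑' k, sq k (y - 1) i j) =
        D y + D y * (Matrix.of fun i j => ∑' k, sq k (y - 1) i j) := by
      ext i j
      rw [Matrix.sub_apply, hΛ, Matrix.mul_diagonal, Matrix.diagonal_mul, Matrix.add_apply,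
        Matrix.mul_apply]
      simp only [Matrix.of_apply]
      have s1 : HasSum (fun k => sq k y i j * Complex.exp (G j) -
          Complex.exp (G i) * sq k (y - 1) i j)
          ((∑' k, sq k y i j) * Complex.exp (G j) -
            Complex.exp (G i) * ∑' k, sq k (y - 1) i j) :=
        ((hsum y hcy i j).hasSum.mul_right _).sub ((hsum (y - 1) hcy1 i j).hasSum.mul_left _)
      have s2 : HasSum (fun k => ∑ l, D y i l * sq k (y - 1) l j)
          (∑ l, D y i l * ∑' k, sq k (y - 1) l j) :=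
        hasSum_sum fun l _ => (hsum (y - 1) hcy1 l j).hasSum.mul_left _
      have s3 : ∀ k, sq (k + 1) y i j * Complex.exp (G j) -
          Complex.exp (G i) * sq (k + 1) (y - 1) i j = ∑ l, D y i l * sq k (y - 1) l j := by
        intro k
        have e := congrFun (congrFun (hrel k y hy) i) j
        rw [Matrix.sub_apply, hΛ, Matrix.mul_diagonal, Matrix.diagonal_mul,
          Matrix.mul_apply] at e
        exact e
      have s4 : sq 0 y i j * Complex.exp (G j) - Complex.exp (G i) * sq 0 (y - 1) i j =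
          D y i j := by
        have e := congrFun (congrFun (a3 y hy) i) j
        rw [Matrix.sub_apply, hΛ, Matrix.mul_diagonal, Matrix.diagonal_mul] at e
        exact e
      have s5 : HasSum (fun k => sq k y i j * Complex.exp (G j) -
          Complex.exp (G i) * sq k (y - 1) i j)
          (D y i j + ∑ l, D y i l * ∑' k, sq k (y - 1) l j) := by
        have := HasSum.zero_add (f := fun k => sq k y i j * Complex.exp (G j) -
          Complex.exp (G i) * sq k (y - 1) i j) (by simpa only [s3] using s2)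
        rw [s4] at this
        exact this
      exact s1.unique s5
    rw [sub_eq_iff_eq_add] at main
    rw [add_mul, one_mul, main]
    noncomm_ring

end Pool.Agent.DST
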