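import Pool.Agent.DST.KDefs

/-!
# Project DST, module K-Ker: elementary properties of the kernel

The shift by `1`, exponential bounds on `Re w = -1/2` and on horizontal segments, differentiability
away from the integers, and the simple pole at `0`.
-/

open scoped BigOperators Topology
open Filter

namespace Pool.Agent.DST

theorem ker_sub_one (Δ : ℂ) (m : ℤ) (w : ℂ) : krn Δ m (w - 1) = Complex.exp Δ * krn Δ m w := by
  unfold krn
  have h1 : -Δ * (w - 1) + 2 * Real.pi * Complex.I * m * (w - 1) =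
      (-Δ * w + 2 * Real.pi * Complex.I * m * w) + Δ + ((-m : ℤ) : ℂ) *
        (2 * Real.pi * Complex.I) := by
    push_cast
    ring
  have h2 : 2 * Real.pi * Complex.I * (w - 1) =
      2 * Real.pi * Complex.I * w + ((-1 : ℤ) : ℂ) * (2 * Real.pi * Complex.I) := by
    push_cast
    ring
  rw [h1, h2, Complex.exp_add, Complex.exp_add, Complex.exp_int_mul_two_pi_mul_I, mul_one,
    Complex.exp_add (2 * Real.pi * Complex.I * w), Complex.exp_int_mul_two_pi_mul_I, mul_one,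
    mul_comm _ (Complex.exp Δ), mul_div_assoc]

private theorem norm_numer (Δ : ℂ) (m : ℤ) (w : ℂ) :
    ‖Complex.exp (-Δ * w + 2 * Real.pi * Complex.I * m * w)‖ =
      Real.exp (-Δ.re * w.re) * Real.exp (-((2 * Real.pi * m - Δ.im) * w.im)) := by
  rw [Complex.norm_exp, ← Real.exp_add]
  congr 1
  have h1 : (2 * Real.pi * Complex.I * m * w : ℂ) = ((2 * Real.pi * m : ℝ) : ℂ) *
      (Complex.I * w) := by
    push_cast
    ring
  rw [h1, Complex.add_re, Complex.re_ofReal_mul, Complex.mul_re, Complex.neg_re, Complex.neg_im,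
    Complex.I_mul_re]
  ring

private theorem norm_expw (w : ℂ) :
    ‖Complex.exp (2 * Real.pi * Complex.I * w)‖ = Real.exp (-(2 * Real.pi * w.im)) := by
  rw [Complex.norm_exp]
  congr 1
  have h1 : (2 * Real.pi * Complex.I * w : ℂ) = ((2 * Real.pi : ℝ) : ℂ) * (Complex.I * w) := by
    push_cast
    ring
  rw [h1, Complex.re_ofReal_mul, Complex.I_mul_re]
  ring

private theorem ker_bd {Δ : ℂ} {m : ℤ} {c : ℝ} (hc : 0 < c) {w : ℂ}
    (h1 : c ≤ ‖Complex.exp (2 * Real.pi * Complex.I * w) - 1‖)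
    (h2 : c * Real.exp (-(2 * Real.pi * w.im)) ≤
      ‖Complex.exp (2 * Real.pi * Complex.I * w) - 1‖) {δ : ℝ}
    (hδ1 : δ ≤ 2 * Real.pi * m - Δ.im) (hδ2 : δ ≤ 2 * Real.pi - (2 * Real.pi * m - Δ.im)) :
    ‖krn Δ m w‖ ≤ c⁻¹ * Real.exp (-Δ.re * w.re) * Real.exp (-(δ * |w.im|)) := by
  unfold krn
  rw [norm_div, norm_numer]
  set D := ‖Complex.exp (2 * Real.pi * Complex.I * w) - 1‖ with hD
  have hDpos : 0 < D := lt_of_lt_of_le hc h1
  rw [div_le_iff₀ hDpos]
  set β := 2 * Real.pi * m - Δ.im with hβ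
  have key : c * Real.exp (-(β * w.im)) ≤ Real.exp (-(δ * |w.im|)) * D := by
    rcases le_total 0 w.im with h | h
    · rw [abs_of_nonneg h]
      have h3 : Real.exp (-(β * w.im)) ≤ Real.exp (-(δ * w.im)) := by
        refine Real.exp_le_exp.2 ?_
        have := mul_le_mul_of_nonneg_right hδ1 h
        linarith
      calc c * Real.exp (-(β * w.im)) ≤ c * Real.exp (-(δ * w.im)) :=
            mul_le_mul_of_nonneg_left h3 hc.le
        _ = Real.exp (-(δ * w.im)) * c := mul_comm _ _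
        _ ≤ Real.exp (-(δ * w.im)) * D := mul_le_mul_of_nonneg_left h1 (Real.exp_pos _).le
    · rw [abs_of_nonpos h]
      have h3 : Real.exp (-(β * w.im)) ≤
          Real.exp (-(δ * -w.im)) * Real.exp (-(2 * Real.pi * w.im)) := by
        rw [← Real.exp_add]
        refine Real.exp_le_exp.2 ?_
        have := mul_le_mul_of_nonneg_right hδ2 (neg_nonneg.2 h)
        linarith
      calc c * Real.exp (-(β * w.im)) ≤
            c * (Real.exp (-(δ * -w.im)) * Real.exp (-(2 * Real.pi * w.im))) :=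
            mul_le_mul_of_nonneg_left h3 hc.le
        _ = Real.exp (-(δ * -w.im)) * (c * Real.exp (-(2 * Real.pi * w.im))) := by ring
        _ ≤ Real.exp (-(δ * -w.im)) * D := mul_le_mul_of_nonneg_left h2 (Real.exp_pos _).le
  have hx := Real.exp_pos (-Δ.re * w.re)
  calc Real.exp (-Δ.re * w.re) * Real.exp (-(β * w.im))
      = c⁻¹ * Real.exp (-Δ.re * w.re) * (c * Real.exp (-(β * w.im))) := by
        field_simp
    _ ≤ c⁻¹ * Real.exp (-Δ.re * w.re) * (Real.exp (-(δ * |w.im|)) * D) :=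
        mul_le_mul_of_nonneg_left key (by positivity)
    _ = c⁻¹ * Real.exp (-Δ.re * w.re) * Real.exp (-(δ * |w.im|)) * D := by ring

private theorem delta_pos {Δ : ℂ} {m : ℤ} (hm₁ : Δ.im / (2 * Real.pi) < m)
    (hm₂ : (m : ℝ) < Δ.im / (2 * Real.pi) + 1) :
    0 < min (2 * Real.pi * m - Δ.im) (2 * Real.pi - (2 * Real.pi * m - Δ.im)) := by
  have hpi : 0 < 2 * Real.pi := by positivity
  rw [div_lt_iff₀ hpi] at hm₁
  have h2 : (m : ℝ) - 1 < Δ.im / (2 * Real.pi) := by linarith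
  rw [lt_div_iff₀ hpi] at h2
  refine lt_min ?_ ?_
  · linarith
  · linarith

theorem ker_half {Δ : ℂ} {m : ℤ} (hm₁ : Δ.im / (2 * Real.pi) < m)
    (hm₂ : (m : ℝ) < Δ.im / (2 * Real.pi) + 1) :
    ∃ K δ : ℝ, 0 < K ∧ 0 < δ ∧ ∀ τ : ℝ,
      ‖krn Δ m (-(1 / 2) + τ * Complex.I)‖ ≤ K * Real.exp (-(δ * |τ|)) := by
  refine ⟨Real.exp (Δ.re / 2), _, Real.exp_pos _, delta_pos hm₁ hm₂, fun τ => ?_⟩
  have him : (-(1 / 2) + τ * Complex.I : ℂ).im = τ := by simp
  have hre : (-(1 / 2) + τ * Complex.I : ℂ).re = -(1 / 2) := by simp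
  have hexp : Complex.exp (2 * Real.pi * Complex.I * (-(1 / 2) + τ * Complex.I)) =
      -((Real.exp (-(2 * Real.pi * τ)) : ℝ) : ℂ) := by
    have h1 : (2 * Real.pi * Complex.I * (-(1 / 2) + τ * Complex.I) : ℂ) =
        ((-(2 * Real.pi * τ) : ℝ) : ℂ) + -(Real.pi * Complex.I) := by
      push_cast
      linear_combination (2 * Real.pi * τ : ℂ) * Complex.I_mul_I
    rw [h1, Complex.exp_add, Complex.exp_neg, Complex.exp_pi_mul_I, ← Complex.ofReal_exp]
    norm_num
  have hD : ‖Complex.exp (2 * Real.pi * Complex.I * (-(1 / 2) + τ * Complex.I)) - 1‖ =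
      1 + Real.exp (-(2 * Real.pi * τ)) := by
    rw [hexp]
    have h1 : (-((Real.exp (-(2 * Real.pi * τ)) : ℝ) : ℂ) - 1) =
        -(((1 + Real.exp (-(2 * Real.pi * τ)) : ℝ)) : ℂ) := by
      push_cast
      ring
    rw [h1, norm_neg, Complex.norm_real, Real.norm_eq_abs, abs_of_pos]
    have := Real.exp_pos (-(2 * Real.pi * τ))
    linarith
  have hE := Real.exp_pos (-(2 * Real.pi * τ))
  have h := ker_bd (Δ := Δ) (m := m) one_pos (w := -(1 / 2) + τ * Complex.I)
    (by rw [hD]; linarith) (by rw [hD, him]; linarith)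
    (min_le_left (2 * Real.pi * m - Δ.im) (2 * Real.pi - (2 * Real.pi * m - Δ.im)))
    (min_le_right (2 * Real.pi * m - Δ.im) (2 * Real.pi - (2 * Real.pi * m - Δ.im)))
  rw [him, hre, inv_one, one_mul] at h
  have h2 : -Δ.re * -(1 / 2) = Δ.re / 2 := by ring
  rw [h2] at h
  exact h

theorem ker_hor {Δ : ℂ} {m : ℤ} (hm₁ : Δ.im / (2 * Real.pi) < m)
    (hm₂ : (m : ℝ) < Δ.im / (2 * Real.pi) + 1) :
    ∃ K δ : ℝ, 0 < K ∧ 0 < δ ∧ ∀ w : ℂ, |w.re| ≤ 1 / 2 → 1 ≤ |w.im| →
      ‖krn Δ m w‖ ≤ K * Real.exp (-(δ * |w.im|)) := by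
  refine ⟨2 * Real.exp (|Δ.re| / 2), _, by positivity, delta_pos hm₁ hm₂, fun w hw hw1 => ?_⟩
  have hE := Real.exp_pos (-(2 * Real.pi * w.im))
  have hD : |Real.exp (-(2 * Real.pi * w.im)) - 1| ≤
      ‖Complex.exp (2 * Real.pi * Complex.I * w) - 1‖ := by
    have h1 := abs_norm_sub_norm_le (Complex.exp (2 * Real.pi * Complex.I * w)) 1
    rwa [norm_expw, norm_one] at h1
  have hpi := Real.pi_gt_three
  have hbd : 1 / 2 ≤ |Real.exp (-(2 * Real.pi * w.im)) - 1| ∧
      1 / 2 * Real.exp (-(2 * Real.pi * w.im)) ≤ |Real.exp (-(2 * Real.pi * w.im)) - 1| := by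
    rcases le_total 0 w.im with h | h
    · rw [abs_of_nonneg h] at hw1
      have h2 : Real.exp (-(2 * Real.pi * w.im)) ≤ 1 / 2 := by
        have h3 : Real.exp (-(2 * Real.pi * w.im)) ≤ Real.exp (-1) := by
          refine Real.exp_le_exp.2 ?_
          nlinarith
        have h4 : Real.exp (-1) ≤ 1 / 2 := by
          rw [Real.exp_neg, inv_eq_one_div]
          refine one_div_le_one_div_of_le (by norm_num) ?_
          have := Real.add_one_le_exp (1 : ℝ)
          linarith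
        exact h3.trans h4
      rw [abs_of_nonpos (by linarith)]
      constructor <;> linarith
    · rw [abs_of_nonpos h] at hw1
      have h2 : 2 ≤ Real.exp (-(2 * Real.pi * w.im)) := by
        have h3 := Real.add_one_le_exp (-(2 * Real.pi * w.im))
        nlinarith
      rw [abs_of_nonneg (by linarith)]
      constructor <;> linarith
  have h := ker_bd (Δ := Δ) (m := m) (by norm_num : (0 : ℝ) < 1 / 2) (w := w)
    (hbd.1.trans hD) (hbd.2.trans hD)
    (min_le_left (2 * Real.pi * m - Δ.im) (2 * Real.pi - (2 * Real.pi * m - Δ.im)))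
    (min_le_right (2 * Real.pi * m - Δ.im) (2 * Real.pi - (2 * Real.pi * m - Δ.im)))
  refine h.trans (mul_le_mul_of_nonneg_right ?_ (Real.exp_pos _).le)
  have h5 : ((1 : ℝ) / 2)⁻¹ = 2 := by norm_num
  rw [h5]
  refine mul_le_mul_of_nonneg_left (Real.exp_le_exp.2 ?_) (by norm_num)
  calc -Δ.re * w.re ≤ |-Δ.re * w.re| := le_abs_self _
    _ = |Δ.re| * |w.re| := by rw [abs_mul, abs_neg]
    _ ≤ |Δ.re| * (1 / 2) := mul_le_mul_of_nonneg_left hw (abs_nonneg _)
    _ = |Δ.re| / 2 := by ring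

private theorem den_ne {w : ℂ} (hw : ∀ n : ℤ, w ≠ n) :
    Complex.exp (2 * Real.pi * Complex.I * w) - 1 ≠ 0 := by
  intro h
  obtain ⟨n, hn⟩ := Complex.exp_eq_one_iff.1 (sub_eq_zero.1 h)
  refine hw n (mul_left_cancel₀ Complex.two_pi_I_ne_zero ?_)
  rw [hn]
  ring

theorem ker_diff (Δ : ℂ) (m : ℤ) {w : ℂ} (hw : ∀ n : ℤ, w ≠ n) :
    DifferentiableAt ℂ (krn Δ m) w := by
  unfold krn
  refine DifferentiableAt.div ?_ ?_ (den_ne hw)
  · fun_prop
  · fun_prop

theorem ker_pole (Δ : ℂ) (m : ℤ) : ∃ φ : ℂ → ℂ,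
    (∀ w : ℂ, |w.re| < 1 → DifferentiableAt ℂ φ w) ∧ φ 0 = (2 * Real.pi * Complex.I)⁻¹ ∧
      ∀ w : ℂ, |w.re| < 1 → w ≠ 0 → krn Δ m w = φ w / w := by
  set u : ℂ → ℂ := fun w => Complex.exp (2 * Real.pi * Complex.I * w) - 1 with hu
  have hud : Differentiable ℂ u := by
    rw [hu]
    fun_prop
  have hu0 : u 0 = 0 := by
    rw [hu]
    simp
  have hderiv : deriv u 0 = 2 * Real.pi * Complex.I := by
    have h1 : HasDerivAt (fun w : ℂ => 2 * Real.pi * Complex.I * w)
        (2 * Real.pi * Complex.I) 0 := by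
      have h2 := (hasDerivAt_id (0 : ℂ)).const_mul (2 * Real.pi * Complex.I)
      rw [mul_one] at h2
      exact h2
    have h3 := (h1.cexp).sub_const (1 : ℂ)
    rw [mul_zero, Complex.exp_zero, one_mul] at h3
    exact h3.deriv
  have hgd : Differentiable ℂ (dslope u 0) := by
    rw [← differentiableOn_univ]
    exact (Complex.differentiableOn_dslope Filter.univ_mem).2 hud.differentiableOn
  have hg0 : dslope u 0 0 = 2 * Real.pi * Complex.I := by
    rw [dslope_same, hderiv]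
  have hgw : ∀ w : ℂ, w ≠ 0 → u w = w * dslope u 0 w := by
    intro w hw
    rw [dslope_of_ne _ hw, slope_def_field, hu0, sub_zero, sub_zero, mul_div_cancel₀ _ hw]
  have hgne : ∀ w : ℂ, |w.re| < 1 → dslope u 0 w ≠ 0 := by
    intro w hw h
    by_cases hw0 : w = 0
    · rw [hw0, hg0] at h
      exact Complex.two_pi_I_ne_zero h
    · have h1 : u w = 0 := by rw [hgw w hw0, h, mul_zero]
      refine den_ne (w := w) (fun n hn => ?_) h1
      apply hw0
      rw [hn] at hw ⊢
      rw [Complex.intCast_re] at hw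
      have h2 : |n| < 1 := by exact_mod_cast hw
      have h3 : n = 0 := Int.abs_lt_one_iff.1 h2
      rw [h3, Int.cast_zero]
  refine ⟨fun w => Complex.exp (-Δ * w + 2 * Real.pi * Complex.I * m * w) / dslope u 0 w,
    ?_, ?_, ?_⟩
  · intro w hw
    refine DifferentiableAt.div ?_ (hgd w) (hgne w hw)
    fun_prop
  · simp only [mul_zero, add_zero, Complex.exp_zero]
    rw [hg0, one_div]
  · intro w hw hw0
    unfold krn
    have h1 : Complex.exp (2 * Real.pi * Complex.I * w) - 1 = w * dslope u 0 w := hgw w hw0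
    rw [h1, div_div, mul_comm w]

private theorem ker_cont_aux (Δ : ℂ) (m : ℤ) (x : ℝ) (hx : ∀ n : ℤ, x ≠ n) :
    Continuous fun τ : ℝ => krn Δ m ((x : ℂ) + τ * Complex.I) := by
  rw [continuous_iff_continuousAt]
  intro τ
  have h1 : ContinuousAt (krn Δ m) ((x : ℂ) + τ * Complex.I) := by
    refine (ker_diff Δ m fun n hn => hx n ?_).continuousAt
    have h2 := congrArg Complex.re hn
    simpa using h2
  exact ContinuousAt.comp (f := fun τ : ℝ => (x : ℂ) + τ * Complex.I) h1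
    (by fun_prop)

private theorem half_ne (n : ℤ) : (1 / 2 : ℝ) ≠ n := by
  intro h
  have h1 : (1 : ℝ) = 2 * n := by linarith
  have h2 : (1 : ℤ) = 2 * n := by exact_mod_cast h1
  omega

theorem ker_cont (Δ : ℂ) (m : ℤ) : Continuous fun τ : ℝ => krn Δ m (-(1 / 2) + τ * Complex.I) := by
  have h := ker_cont_aux Δ m (-(1 / 2)) (fun n hn => half_ne (-n) (by push_cast; linarith))
  have h1 : ((-(1 / 2) : ℝ) : ℂ) = -(1 / 2) := by
    push_cast
    ring
  rw [h1] at h
  exact h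

theorem ker_cont' (Δ : ℂ) (m : ℤ) : Continuous fun τ : ℝ => krn Δ m (1 / 2 + τ * Complex.I) := by
  have h := ker_cont_aux Δ m (1 / 2) half_ne
  have h1 : ((1 / 2 : ℝ) : ℂ) = 1 / 2 := by
    push_cast
    ring
  rw [h1] at h
  exact h

end Pool.Agent.DST
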