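import Pool.Agent.DST.KKer

/-!
# Project DST, module K-OpB: the bound for the solution operator

The integrand is bounded by `K exp(-δ|τ|) (5/2+|τ|)² B / ‖y‖²`, which is integrable.
-/

open scoped BigOperators Topology
open Filter

namespace Pool.Agent.DST

private theorem opb_int_abs {a : ℝ} (ha : 0 < a) :
    MeasureTheory.Integrable fun τ : ℝ => Real.exp (-(a * |τ|)) := by
  rw [← MeasureTheory.integrableOn_univ, ← Set.Iic_union_Ioi (a := (0 : ℝ)),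
    MeasureTheory.integrableOn_union]
  constructor
  · refine (integrableOn_exp_mul_Iic ha 0).congr_fun (fun τ hτ => ?_) measurableSet_Iic
    have h1 : τ ≤ 0 := hτ
    simp only []
    rw [abs_of_nonpos h1]
    congr 1
    ring
  · refine (integrableOn_exp_mul_Ioi (neg_neg_iff_pos.2 ha) 0).congr_fun (fun τ hτ => ?_)
      measurableSet_Ioi
    have h1 : 0 < τ := hτ
    simp only []
    rw [abs_of_pos h1]
    congr 1
    ring

private theorem opb_int {δ : ℝ} (hδ : 0 < δ) :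
    MeasureTheory.Integrable fun τ : ℝ => Real.exp (-(δ * |τ|)) * (5 / 2 + |τ|) ^ 2 := by
  have h1 := (opb_int_abs (half_pos hδ)).const_mul (8 / δ ^ 2 * Real.exp (5 * δ / 4))
  refine h1.mono' (by fun_prop) (Eventually.of_forall fun τ => ?_)
  rw [Real.norm_eq_abs, abs_of_nonneg (by positivity)]
  have hx : 0 ≤ δ / 2 * (5 / 2 + |τ|) := by positivity
  have h2 : (δ / 2 * (5 / 2 + |τ|)) ^ 2 / 2 ≤ Real.exp (δ / 2 * (5 / 2 + |τ|)) := by
    have := Real.quadratic_le_exp_of_nonneg hx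
    linarith
  have h3 : (5 / 2 + |τ|) ^ 2 ≤ 8 / δ ^ 2 * Real.exp (δ / 2 * (5 / 2 + |τ|)) := by
    have h4 : (5 / 2 + |τ|) ^ 2 = 8 / δ ^ 2 * ((δ / 2 * (5 / 2 + |τ|)) ^ 2 / 2) := by
      field_simp
      ring
    rw [h4]
    exact mul_le_mul_of_nonneg_left h2 (by positivity)
  calc Real.exp (-(δ * |τ|)) * (5 / 2 + |τ|) ^ 2
      ≤ Real.exp (-(δ * |τ|)) * (8 / δ ^ 2 * Real.exp (δ / 2 * (5 / 2 + |τ|))) :=
        mul_le_mul_of_nonneg_left h3 (Real.exp_pos _).le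
    _ = 8 / δ ^ 2 * (Real.exp (-(δ * |τ|)) * Real.exp (δ / 2 * (5 / 2 + |τ|))) := by ring
    _ = 8 / δ ^ 2 * (Real.exp (5 * δ / 4) * Real.exp (-(δ / 2 * |τ|))) := by
        rw [← Real.exp_add, ← Real.exp_add]
        congr 2
        ring
    _ = 8 / δ ^ 2 * Real.exp (5 * δ / 4) * Real.exp (-(δ / 2 * |τ|)) := by ring

theorem op_bound {Δ : ℂ} {m : ℤ} (hm₁ : Δ.im / (2 * Real.pi) < m)
    (hm₂ : (m : ℝ) < Δ.im / (2 * Real.pi) + 1) :
    ∃ K : ℝ, 0 ≤ K ∧ ∀ (c B : ℝ) (R : ℂ → ℂ), 1 ≤ c → 0 ≤ B →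
      (∀ y : ℂ, c + 1 < y.re → DifferentiableAt ℂ R y) →
      (∀ y : ℂ, c + 1 < y.re → ‖R y‖ ≤ B / ‖y‖ ^ 2) →
        ∀ y : ℂ, c < y.re → ‖sop Δ m R y‖ ≤ K * B / ‖y‖ ^ 2 := by
  obtain ⟨k, δ, hk, hδ, hker⟩ := ker_half hm₁ hm₂
  set J : ℝ := ∫ τ : ℝ, Real.exp (-(δ * |τ|)) * (5 / 2 + |τ|) ^ 2 with hJ
  have hJ0 : 0 ≤ J := MeasureTheory.integral_nonneg fun τ => by positivity
  refine ⟨Real.exp Δ.re * (k * J + 4), by positivity, ?_⟩
  intro c B R hc hB _ hR y hy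
  have hre : ∀ z : ℂ, z.re ≤ ‖z‖ := fun z => Complex.re_le_norm z
  have hypos : 0 < ‖y‖ := by
    have := hre y
    linarith
  have hstep : ∀ (z : ℂ) (a : ℝ), 1 ≤ ‖z‖ → 0 ≤ a → c + 1 < z.re → ‖y‖ ≤ ‖z‖ + a →
      ‖R z‖ ≤ B * (1 + a) ^ 2 / ‖y‖ ^ 2 := by
    intro z a hz ha hzre hyz
    refine (hR z hzre).trans ?_
    have hz0 : 0 < ‖z‖ := by linarith
    rw [div_le_div_iff₀ (by positivity) (by positivity)]
    have h1 : ‖y‖ ≤ (1 + a) * ‖z‖ := by nlinarith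
    have h2 : ‖y‖ ^ 2 ≤ ((1 + a) * ‖z‖) ^ 2 := pow_le_pow_left₀ hypos.le h1 2
    calc B * ‖y‖ ^ 2 ≤ B * ((1 + a) * ‖z‖) ^ 2 := mul_le_mul_of_nonneg_left h2 hB
      _ = B * (1 + a) ^ 2 * ‖z‖ ^ 2 := by ring
  have hR1 : ‖R (y + 1)‖ ≤ 4 * B / ‖y‖ ^ 2 := by
    have h1 : (y + 1).re = y.re + 1 := by simp
    have h2 : ‖y‖ ≤ ‖y + 1‖ + 1 := by
      have h3 := norm_sub_le (y + 1) 1
      rwa [add_sub_cancel_right, norm_one] at h3
    have h3 := hstep (y + 1) 1 (by have := hre (y + 1); linarith) zero_le_one (by linarith) h2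
    refine h3.trans (le_of_eq ?_)
    ring
  have hRτ : ∀ τ : ℝ, ‖R (y + 3 / 2 - τ * Complex.I)‖ ≤ B * (5 / 2 + |τ|) ^ 2 / ‖y‖ ^ 2 := by
    intro τ
    have h1 : (y + 3 / 2 - τ * Complex.I).re = y.re + 3 / 2 := by
      simp
    have h2 : ‖y‖ ≤ ‖y + 3 / 2 - τ * Complex.I‖ + (3 / 2 + |τ|) := by
      have h3 : y = (y + 3 / 2 - τ * Complex.I) - (3 / 2 - τ * Complex.I) := by ring
      have h4 := norm_sub_le (y + 3 / 2 - τ * Complex.I) (3 / 2 - τ * Complex.I)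
      rw [← h3] at h4
      have h5 : ‖(3 / 2 - τ * Complex.I : ℂ)‖ ≤ 3 / 2 + |τ| := by
        refine (norm_sub_le _ _).trans (le_of_eq ?_)
        rw [norm_mul, Complex.norm_I, mul_one, Complex.norm_real, Real.norm_eq_abs]
        norm_num
      linarith
    have h3 := hstep (y + 3 / 2 - τ * Complex.I) (3 / 2 + |τ|)
      (by have := hre (y + 3 / 2 - τ * Complex.I); linarith) (by positivity) (by linarith) h2
    refine h3.trans (le_of_eq ?_)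
    ring
  have hint : ‖∫ τ : ℝ, krn Δ m (-(1 / 2) + τ * Complex.I) * R (y + 3 / 2 - τ * Complex.I)‖ ≤
      k * B / ‖y‖ ^ 2 * J := by
    rw [hJ, ← MeasureTheory.integral_const_mul]
    refine MeasureTheory.norm_integral_le_of_norm_le ((opb_int hδ).const_mul _)
      (Eventually.of_forall fun τ => ?_)
    rw [norm_mul]
    calc ‖krn Δ m (-(1 / 2) + τ * Complex.I)‖ * ‖R (y + 3 / 2 - τ * Complex.I)‖
        ≤ (k * Real.exp (-(δ * |τ|))) * (B * (5 / 2 + |τ|) ^ 2 / ‖y‖ ^ 2) :=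
          mul_le_mul (hker τ) (hRτ τ) (norm_nonneg _) (by positivity)
      _ = k * B / ‖y‖ ^ 2 * (Real.exp (-(δ * |τ|)) * (5 / 2 + |τ|) ^ 2) := by ring
  unfold sop
  rw [norm_mul, Complex.norm_exp]
  have h6 : ‖-(Complex.I * ∫ τ : ℝ, krn Δ m (-(1 / 2) + τ * Complex.I) *
      R (y + 3 / 2 - τ * Complex.I)) - R (y + 1)‖ ≤ k * B / ‖y‖ ^ 2 * J + 4 * B / ‖y‖ ^ 2 := by
    refine (norm_sub_le _ _).trans ?_
    rw [norm_neg, norm_mul, Complex.norm_I, one_mul]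
    exact add_le_add hint hR1
  refine (mul_le_mul_of_nonneg_left h6 (Real.exp_pos _).le).trans (le_of_eq ?_)
  ring

end Pool.Agent.DST
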