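import Pool.Agent.DST.KKer

/-!
# Project DST, module K-OpD: the solution operator is holomorphic
-/

open scoped BigOperators Topology
open Filter

namespace Pool.Agent.DST

theorem integrable_exp_neg_abs' {δ : ℝ} (hδ : 0 < δ) :
    MeasureTheory.Integrable fun τ : ℝ => Real.exp (-(δ * |τ|)) := by
  rw [← MeasureTheory.integrableOn_univ, ← Set.Iic_union_Ioi (a := (0 : ℝ))]
  refine MeasureTheory.IntegrableOn.union ?_ ?_
  · refine (integrableOn_exp_mul_Iic hδ 0).congr_fun (fun x hx => ?_) measurableSet_Iic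
    simp only [Set.mem_Iic] at hx
    show Real.exp (δ * x) = Real.exp (-(δ * |x|))
    rw [abs_of_nonpos hx]; ring_nf
  · refine (integrableOn_exp_mul_Ioi (a := -δ) (by linarith) 0).congr_fun
      (fun x hx => ?_) measurableSet_Ioi
    simp only [Set.mem_Ioi] at hx
    show Real.exp (-δ * x) = Real.exp (-(δ * |x|))
    rw [abs_of_pos hx]; ring_nf

theorem op_diff {Δ : ℂ} {m : ℤ} (hm₁ : Δ.im / (2 * Real.pi) < m)
    (hm₂ : (m : ℝ) < Δ.im / (2 * Real.pi) + 1) {c B : ℝ} {R : ℂ → ℂ}
    (hR : ∀ y : ℂ, c + 1 < y.re → DifferentiableAt ℂ R y)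
    (hB : ∀ y : ℂ, c + 1 < y.re → ‖R y‖ ≤ B) (y : ℂ) (hy : c < y.re) :
    DifferentiableAt ℂ (sop Δ m R) y := by
  obtain ⟨K, δ, hK, hδ, hker⟩ := ker_half hm₁ hm₂
  have hB0 : 0 ≤ B := (norm_nonneg _).trans (hB ((c : ℂ) + 2) (by simp))
  set U : Set ℂ := {w : ℂ | c + 1 < w.re} with hU
  have hUo : IsOpen U := isOpen_lt continuous_const Complex.continuous_re
  have hRU : DifferentiableOn ℂ R U := fun w hw => (hR w hw).differentiableWithinAt
  have hdU : DifferentiableOn ℂ (deriv R) U := hRU.deriv hUo
  -- the line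
  have hline : ∀ (z : ℂ) (τ : ℝ), (z + 3 / 2 - τ * Complex.I).re = z.re + 3 / 2 := by
    intro z τ; simp
  have hlc : ∀ z : ℂ, Continuous fun τ : ℝ => z + 3 / 2 - (τ : ℂ) * Complex.I := by
    intro z; fun_prop
  have hmem : ∀ z : ℂ, c - 1 / 2 < z.re → ∀ τ : ℝ, z + 3 / 2 - (τ : ℂ) * Complex.I ∈ U := by
    intro z hz τ
    show c + 1 < _
    rw [hline]; linarith
  have hcR : ∀ z : ℂ, c - 1 / 2 < z.re →
      Continuous fun τ : ℝ => R (z + 3 / 2 - (τ : ℂ) * Complex.I) := by
    intro z hz
    rw [continuous_iff_continuousAt]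
    intro τ
    exact ContinuousAt.comp (hR _ (hmem z hz τ)).continuousAt (hlc z).continuousAt
  have hcD : ∀ z : ℂ, c - 1 / 2 < z.re →
      Continuous fun τ : ℝ => deriv R (z + 3 / 2 - (τ : ℂ) * Complex.I) := by
    intro z hz
    rw [continuous_iff_continuousAt]
    intro τ
    have h1 : ContinuousAt (deriv R) (z + 3 / 2 - (τ : ℂ) * Complex.I) :=
      (hdU.differentiableAt (hUo.mem_nhds (hmem z hz τ))).continuousAt
    exact ContinuousAt.comp (f := fun τ : ℝ => z + 3 / 2 - (τ : ℂ) * Complex.I) h1
      (hlc z).continuousAt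
  -- bound for the derivative
  have hder : ∀ w : ℂ, c + 5 / 4 < w.re → ‖deriv R w‖ ≤ B / (1 / 4) := by
    intro w hw
    refine Complex.norm_deriv_le_of_forall_mem_sphere_norm_le (by norm_num) ?_ ?_
    · refine DifferentiableOn.diffContOnCl ?_
      intro z hz
      refine (hR z ?_).differentiableWithinAt
      have hz' := Metric.closure_ball_subset_closedBall hz
      rw [Metric.mem_closedBall, dist_eq_norm] at hz'
      have h1 := Complex.abs_re_le_norm (z - w)
      rw [Complex.sub_re] at h1
      have h2 := (abs_le.mp (h1.trans hz')).1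
      linarith
    · intro z hz
      refine hB z ?_
      rw [mem_sphere_iff_norm] at hz
      have h1 := Complex.abs_re_le_norm (z - w)
      rw [Complex.sub_re] at h1
      have h2 := (abs_le.mp (h1.trans hz.le)).1
      linarith
  have hint : DifferentiableAt ℂ (fun z : ℂ => ∫ τ : ℝ, krn Δ m (-(1 / 2) + τ * Complex.I) *
      R (z + 3 / 2 - τ * Complex.I)) y := by
    have key := hasDerivAt_integral_of_dominated_loc_of_deriv_le
      (μ := MeasureTheory.volume)
      (F := fun (z : ℂ) (τ : ℝ) => krn Δ m (-(1 / 2) + τ * Complex.I) *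
        R (z + 3 / 2 - τ * Complex.I))
      (F' := fun (z : ℂ) (τ : ℝ) => krn Δ m (-(1 / 2) + τ * Complex.I) *
        deriv R (z + 3 / 2 - τ * Complex.I))
      (x₀ := y) (s := Metric.ball y (1 / 8))
      (bound := fun τ : ℝ => K * Real.exp (-(δ * |τ|)) * (B / (1 / 4)))
      (Metric.ball_mem_nhds y (by norm_num)) ?_ ?_ ?_ ?_ ?_ ?_
    · exact key.2.differentiableAt
    · filter_upwards [(isOpen_lt (continuous_const (y := c - 1 / 2))
        Complex.continuous_re).mem_nhds (show c - 1 / 2 < y.re by linarith)] with z hz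
      exact ((ker_cont Δ m).mul (hcR z hz)).aestronglyMeasurable
    · refine MeasureTheory.Integrable.mono' (g := fun τ : ℝ => K * Real.exp (-(δ * |τ|)) * B)
        (((integrable_exp_neg_abs' hδ).const_mul K).mul_const B)
        ((ker_cont Δ m).mul (hcR y (by linarith))).aestronglyMeasurable ?_
      refine Filter.Eventually.of_forall fun τ => ?_
      rw [norm_mul]
      refine mul_le_mul (hker τ) (hB _ (hmem y (by linarith) τ)) (norm_nonneg _) (by positivity)
    · exact ((ker_cont Δ m).mul (hcD y (by linarith))).aestronglyMeasurable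
    · refine Filter.Eventually.of_forall fun τ z hz => ?_
      rw [norm_mul]
      refine mul_le_mul (hker τ) (hder _ ?_) (norm_nonneg _) (by positivity)
      rw [hline]
      rw [Metric.mem_ball, dist_eq_norm] at hz
      have h1 := Complex.abs_re_le_norm (z - y)
      rw [Complex.sub_re] at h1
      have h2 := (abs_le.mp (h1.trans hz.le)).1
      linarith
    · exact ((integrable_exp_neg_abs' hδ).const_mul K).mul_const _
    · refine Filter.Eventually.of_forall fun τ z hz => ?_
      have hz2 : c - 1 / 2 < z.re := by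
        rw [Metric.mem_ball, dist_eq_norm] at hz
        have h1 := Complex.abs_re_le_norm (z - y)
        rw [Complex.sub_re] at h1
        have h2 := (abs_le.mp (h1.trans hz.le)).1
        linarith
      have h3 : HasDerivAt (fun z : ℂ => z + 3 / 2 - (τ : ℂ) * Complex.I) 1 z :=
        ((hasDerivAt_id z).add_const _).sub_const _
      have h4 := ((hR _ (hmem z hz2 τ)).hasDerivAt.comp z h3).const_mul
        (krn Δ m (-(1 / 2) + τ * Complex.I))
      simpa using h4
  have hR1 : DifferentiableAt ℂ (fun z : ℂ => R (z + 1)) y := by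
    have : DifferentiableAt ℂ R (y + 1) := hR _ (by simp; linarith)
    exact this.comp y (by fun_prop)
  show DifferentiableAt ℂ (fun z : ℂ => Complex.exp Δ * (-(Complex.I * ∫ τ : ℝ,
    krn Δ m (-(1 / 2) + τ * Complex.I) * R (z + 3 / 2 - τ * Complex.I)) - R (z + 1))) y
  exact (((hint.const_mul Complex.I).neg).sub hR1).const_mul _

end Pool.Agent.DST
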