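import Pool.Agent.DST.KCont

/-!
# Project DST, module K-OpR: the relation for the solution operator

The contour identity at `y + 1` and `ker_sub_one` give
`sop Δ m R y = -(I ∫ krn(-1/2+iτ) R(y+1/2-iτ))`; `sop Δ m R (y-1)` is by definition
`e^Δ (-(I ∫ krn(-1/2+iτ) R(y+1/2-iτ)) - R y)`.
-/

open scoped BigOperators Topology
open Filter

namespace Pool.Agent.DST

theorem op_rel {Δ : ℂ} {m : ℤ} (hm₁ : Δ.im / (2 * Real.pi) < m)
    (hm₂ : (m : ℝ) < Δ.im / (2 * Real.pi) + 1) {c B : ℝ} {R : ℂ → ℂ}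
    (hR : ∀ y : ℂ, c + 1 < y.re → DifferentiableAt ℂ R y)
    (hB : ∀ y : ℂ, c + 1 < y.re → ‖R y‖ ≤ B) (y : ℂ) (hy : c + 1 < y.re) :
    sop Δ m R y - Complex.exp (-Δ) * sop Δ m R (y - 1) = R y := by
  have h1 := contour hm₁ hm₂ hR hB (y + 1) (by simp only [Complex.add_re, Complex.one_re]; linarith)
  have e1 : ∀ τ : ℝ, y + 1 + 1 / 2 - τ * Complex.I = y + 3 / 2 - τ * Complex.I := fun τ => by ring
  have e2 : ∀ τ : ℝ, y + 1 - 1 / 2 - τ * Complex.I = y + 1 / 2 - τ * Complex.I := fun τ => by ring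
  have e3 : ∀ τ : ℝ, y - 1 + 3 / 2 - τ * Complex.I = y + 1 / 2 - τ * Complex.I := fun τ => by ring
  have e4 : y - 1 + 1 = y := by ring
  simp only [e1, e2] at h1
  have h2 : Complex.exp Δ * (∫ τ : ℝ, krn Δ m (1 / 2 + τ * Complex.I) * R (y + 1 / 2 - τ * Complex.I)) =
      ∫ τ : ℝ, krn Δ m (-(1 / 2) + τ * Complex.I) * R (y + 1 / 2 - τ * Complex.I) := by
    rw [← MeasureTheory.integral_const_mul]
    refine MeasureTheory.integral_congr_ae (Filter.Eventually.of_forall fun τ => ?_)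
    simp only
    have h3 : (-(1 / 2) : ℂ) + τ * Complex.I = (1 / 2 + τ * Complex.I) - 1 := by ring
    rw [h3, ker_sub_one]
    ring
  have h4 : Complex.exp (-Δ) * Complex.exp Δ = 1 := by rw [← Complex.exp_add]; simp
  unfold sop
  simp only [e3, e4]
  rw [← h2]
  linear_combination (Complex.exp Δ) * h1 - (-(Complex.I *
    (Complex.exp Δ * ∫ τ : ℝ, krn Δ m (1 / 2 + τ * Complex.I) * R (y + 1 / 2 - τ * Complex.I))) - R y) * h4

end Pool.Agent.DST
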