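import Pool.Agent.DST.KOpR
import Pool.Agent.DST.KOpD
import Pool.Agent.DST.KOpB

/-!
# Project DST, module K-Solve: the scalar equation, diagonal case and assembly
-/

open scoped BigOperators Topology
open Filter

namespace Pool.Agent.DST

theorem norm_sq_add_real_ge {y : ℂ} (hy : 0 ≤ y.re) {k : ℝ} (hk : 0 ≤ k) :
    ‖y‖ ^ 2 + k ^ 2 ≤ ‖y + (k : ℂ)‖ ^ 2 := by
  rw [← Complex.normSq_eq_norm_sq, ← Complex.normSq_eq_norm_sq, Complex.normSq_apply,
    Complex.normSq_apply]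
  simp only [Complex.add_re, Complex.add_im, Complex.ofReal_re, Complex.ofReal_im, add_zero]
  nlinarith [mul_nonneg hy hk]

theorem shift_bound {c B : ℝ} {R : ℂ → ℂ} (hc : 1 ≤ c) (hB : 0 ≤ B)
    (hR : ∀ y : ℂ, c + 1 < y.re → ‖R y‖ ≤ B / ‖y‖ ^ 2) {y : ℂ} (hy : c < y.re) (n : ℕ) :
    ‖R (y + ((n : ℂ) + 1))‖ ≤ B / (‖y‖ ^ 2 + ((n : ℝ) + 1) ^ 2) := by
  have h1 := hR (y + ((n : ℂ) + 1)) (by
    simp only [Complex.add_re, Complex.natCast_re, Complex.one_re]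
    have : (0 : ℝ) ≤ n := Nat.cast_nonneg n
    linarith)
  refine h1.trans ?_
  have h2 := norm_sq_add_real_ge (y := y) (by linarith) (k := (n : ℝ) + 1) (by positivity)
  have h3 : (((n : ℝ) + 1 : ℝ) : ℂ) = (n : ℂ) + 1 := by push_cast; ring
  rw [h3] at h2
  exact div_le_div_of_nonneg_left hB (by positivity) h2

theorem tele_bound {a : ℝ} (ha : 1 ≤ a) (n : ℕ) :
    1 / (a ^ 2 + ((n : ℝ) + 1) ^ 2) ≤ 2 * (1 / (a + n)) - 2 * (1 / (a + ((n + 1 : ℕ) : ℝ))) := by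
  have hn : (0 : ℝ) ≤ n := Nat.cast_nonneg n
  have e : 2 * (1 / (a + n)) - 2 * (1 / (a + ((n + 1 : ℕ) : ℝ))) =
      2 / ((a + n) * (a + (n + 1))) := by
    push_cast
    field_simp
    ring
  rw [e, div_le_div_iff₀ (by positivity) (by positivity)]
  nlinarith [sq_nonneg (a - (n + 1)), mul_nonneg (by linarith : (0 : ℝ) ≤ a) hn]

theorem sum_shift_le {c B : ℝ} {R : ℂ → ℂ} (hc : 1 ≤ c) (hB : 0 ≤ B)
    (hR : ∀ y : ℂ, c + 1 < y.re → ‖R y‖ ≤ B / ‖y‖ ^ 2) {y : ℂ} (hy : c < y.re) (N : ℕ) :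
    ∑ n ∈ Finset.range N, ‖R (y + ((n : ℂ) + 1))‖ ≤ 2 * B / ‖y‖ := by
  have ha : 1 ≤ ‖y‖ := by
    have := Complex.re_le_norm y
    linarith
  have h1 : ∀ n : ℕ, ‖R (y + ((n : ℂ) + 1))‖ ≤
      B * (2 * (1 / (‖y‖ + n))) - B * (2 * (1 / (‖y‖ + ((n + 1 : ℕ) : ℝ)))) := by
    intro n
    refine (shift_bound hc hB hR hy n).trans ?_
    rw [div_eq_mul_one_div, ← mul_sub]
    exact mul_le_mul_of_nonneg_left (tele_bound ha n) hB
  refine (Finset.sum_le_sum fun n _ => h1 n).trans ?_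
  rw [Finset.sum_range_sub' (fun n : ℕ => B * (2 * (1 / (‖y‖ + (n : ℝ)))))]
  have h2 : 0 ≤ B * (2 * (1 / (‖y‖ + (N : ℝ)))) := by positivity
  have h3 : B * (2 * (1 / (‖y‖ + ((0 : ℕ) : ℝ)))) = 2 * B / ‖y‖ := by
    push_cast
    rw [add_zero]
    ring
  rw [h3]
  linarith

theorem summable_shift {c B : ℝ} {R : ℂ → ℂ} (hc : 1 ≤ c) (hB : 0 ≤ B)
    (hR : ∀ y : ℂ, c + 1 < y.re → ‖R y‖ ≤ B / ‖y‖ ^ 2) {y : ℂ} (hy : c < y.re) :
    Summable fun n : ℕ => ‖R (y + ((n : ℂ) + 1))‖ :=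
  summable_of_sum_range_le (fun _ => norm_nonneg _) (sum_shift_le hc hB hR hy)

theorem solve_diag : ∀ c B : ℝ, ∀ R : ℂ → ℂ, 1 ≤ c → 0 ≤ B →
      (∀ y : ℂ, c + 1 < y.re → DifferentiableAt ℂ R y) →
      (∀ y : ℂ, c + 1 < y.re → ‖R y‖ ≤ B / ‖y‖ ^ 2) →
      ∃ h : ℂ → ℂ, (∀ y : ℂ, c < y.re → DifferentiableAt ℂ h y) ∧
        (∀ y : ℂ, c < y.re → ‖h y‖ ≤ 4 * B / ‖y‖) ∧
        ∀ y : ℂ, c + 1 < y.re → h y - h (y - 1) = R y := by
  intro c B R hc hB hd hR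
  have hUo : IsOpen {y : ℂ | c < y.re} := isOpen_lt continuous_const Complex.continuous_re
  have hu : Summable fun n : ℕ => B * (1 / ((n : ℝ) + 1) ^ 2) := by
    refine Summable.mul_left B ?_
    have h0 := (summable_nat_add_iff (f := fun n : ℕ => 1 / (n : ℝ) ^ 2) 1).2
      (Real.summable_one_div_nat_pow.2 (by norm_num))
    refine h0.congr fun n => ?_
    push_cast
    rfl
  refine ⟨fun y => -∑' n : ℕ, R (y + ((n : ℂ) + 1)), ?_, ?_, ?_⟩
  · intro y hy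
    have h1 : DifferentiableOn ℂ (fun y : ℂ => ∑' n : ℕ, R (y + ((n : ℂ) + 1)))
        {y : ℂ | c < y.re} := by
      refine Complex.differentiableOn_tsum_of_summable_norm hu ?_ hUo ?_
      · intro n w hw
        have hw' : c < w.re := hw
        have h2 : DifferentiableAt ℂ R (w + ((n : ℂ) + 1)) := by
          refine hd _ ?_
          simp only [Complex.add_re, Complex.natCast_re, Complex.one_re]
          have : (0 : ℝ) ≤ n := Nat.cast_nonneg n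
          linarith
        exact (h2.comp w (by fun_prop)).differentiableWithinAt
      · intro n w hw
        have hw' : c < w.re := hw
        refine (shift_bound hc hB hR hw' n).trans ?_
        rw [div_eq_mul_one_div]
        refine mul_le_mul_of_nonneg_left ?_ hB
        refine one_div_le_one_div_of_le (by positivity) ?_
        nlinarith [norm_nonneg w, sq_nonneg ‖w‖]
    exact (h1.differentiableAt (hUo.mem_nhds hy)).neg
  · intro y hy
    show ‖-∑' n : ℕ, R (y + ((n : ℂ) + 1))‖ ≤ _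
    rw [norm_neg]
    have hs := summable_shift hc hB hR hy
    have h1 := norm_tsum_le_tsum_norm hs
    have h2 := Real.tsum_le_of_sum_range_le (fun _ => norm_nonneg _) (sum_shift_le hc hB hR hy)
    have h3 : 2 * B / ‖y‖ ≤ 4 * B / ‖y‖ :=
      div_le_div_of_nonneg_right (by linarith) (norm_nonneg _)
    exact h1.trans (h2.trans h3)
  · intro y hy
    show -∑' n : ℕ, R (y + ((n : ℂ) + 1)) - -∑' n : ℕ, R (y - 1 + ((n : ℂ) + 1)) = R y
    have hy1 : c < (y - 1).re := by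
      simp only [Complex.sub_re, Complex.one_re]; linarith
    have hs1 : Summable fun n : ℕ => R (y - 1 + ((n : ℂ) + 1)) :=
      (summable_shift hc hB hR hy1).of_norm
    rw [hs1.tsum_eq_zero_add]
    have e0 : y - 1 + (((0 : ℕ) : ℂ) + 1) = y := by push_cast; ring
    have e1 : ∀ n : ℕ, y - 1 + (((n + 1 : ℕ) : ℂ) + 1) = y + ((n : ℂ) + 1) := by
      intro n; push_cast; ring
    rw [e0]
    simp only [e1]
    ring

theorem solve {Δ : ℂ} (hΔ : Δ = 0 ∨ ∀ n : ℤ, Δ.im ≠ 2 * Real.pi * n) :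
    ∃ K : ℝ, 0 ≤ K ∧ ∀ c B : ℝ, ∀ R : ℂ → ℂ, 1 ≤ c → 0 ≤ B →
      (∀ y : ℂ, c + 1 < y.re → DifferentiableAt ℂ R y) →
      (∀ y : ℂ, c + 1 < y.re → ‖R y‖ ≤ B / ‖y‖ ^ 2) →
      ∃ h : ℂ → ℂ, (∀ y : ℂ, c < y.re → DifferentiableAt ℂ h y) ∧
        (∀ y : ℂ, c < y.re → ‖h y‖ ≤ K * B / ‖y‖) ∧
        ∀ y : ℂ, c + 1 < y.re → h y - Complex.exp (-Δ) * h (y - 1) = R y := by
  rcases hΔ with rfl | hΔ
  · refine ⟨4, by norm_num, fun c B R hc hB hd hR => ?_⟩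
    obtain ⟨h, h1, h2, h3⟩ := solve_diag c B R hc hB hd hR
    refine ⟨h, h1, h2, fun y hy => ?_⟩
    rw [neg_zero, Complex.exp_zero, one_mul]
    exact h3 y hy
  · set x : ℝ := Δ.im / (2 * Real.pi) with hx
    have hπ : 0 < 2 * Real.pi := by positivity
    have hm₁ : Δ.im / (2 * Real.pi) < ((⌊x⌋ + 1 : ℤ) : ℝ) := by
      push_cast
      exact Int.lt_floor_add_one x
    have hm₂ : ((⌊x⌋ + 1 : ℤ) : ℝ) < Δ.im / (2 * Real.pi) + 1 := by
      push_cast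
      have h1 : (⌊x⌋ : ℝ) ≤ x := Int.floor_le x
      have h2 : (⌊x⌋ : ℝ) ≠ x := by
        intro h
        apply hΔ ⌊x⌋
        rw [h, hx]
        field_simp
      have h3 := lt_of_le_of_ne h1 h2
      linarith
    obtain ⟨K, hK, hb⟩ := op_bound hm₁ hm₂
    refine ⟨K, hK, fun c B R hc hB hd hR => ?_⟩
    have hRB : ∀ y : ℂ, c + 1 < y.re → ‖R y‖ ≤ B := by
      intro y hy
      refine (hR y hy).trans ?_
      have h1 := Complex.re_le_norm y
      have h2 : 1 ≤ ‖y‖ := by linarith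
      exact div_le_self hB (one_le_pow₀ h2)
    refine ⟨sop Δ (⌊x⌋ + 1) R, fun y hy => op_diff hm₁ hm₂ hd hRB y hy, fun y hy => ?_,
      fun y hy => op_rel hm₁ hm₂ hd hRB y hy⟩
    refine (hb c B R hc hB hd hR y hy).trans ?_
    have h1 := Complex.re_le_norm y
    have h2 : 1 ≤ ‖y‖ := by linarith
    refine div_le_div_of_nonneg_left (mul_nonneg hK hB) (by linarith) ?_
    nlinarith

end Pool.Agent.DST
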