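import Pool.Agent.DST.KPer
import Pool.Agent.DST.KLau
import Pool.Agent.DST.KDet

/-!
# Project DST, module K-Uniq: uniqueness of the right-canonical basis

`M(y) = X(y)⁻¹ X'(y)` is entire and `1`-periodic, and `exp (y (G i - G j)) M i j → δ_ij` along `rhp`, so
`zero_of_small` gives `M = 1`.
-/

open scoped BigOperators Topology
open Filter

namespace Pool.Agent.DST

variable {N : ℕ}

private theorem kuq_det {X : ℂ → Matrix (Fin N) (Fin N) ℂ} (hX : ∀ i j, Differentiable ℂ fun y => X y i j) :
    Differentiable ℂ fun y => (X y).det := by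
  simp only [Matrix.det_apply']
  refine Differentiable.fun_sum fun σ _ => ?_
  exact (differentiable_const _).mul (Differentiable.fun_finsetProd fun i _ => hX _ _)

private theorem kuq_adj {X : ℂ → Matrix (Fin N) (Fin N) ℂ} (hX : ∀ i j, Differentiable ℂ fun y => X y i j) (i j : Fin N) :
    Differentiable ℂ fun y => (X y).adjugate i j := by
  simp only [Matrix.adjugate_apply]
  refine kuq_det fun a b => ?_
  simp only [Matrix.updateRow_apply]
  by_cases h : a = j
  · simp only [h, if_true]; exact differentiable_const _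
  · simp only [h, if_false]; exact hX a b

private theorem kuq_inv {X : ℂ → Matrix (Fin N) (Fin N) ℂ} (hX : ∀ i j, Differentiable ℂ fun y => X y i j)
    (hd : ∀ y, (X y).det ≠ 0) (i j : Fin N) : Differentiable ℂ fun y => (X y)⁻¹ i j := by
  simp only [Matrix.inv_def, Ring.inverse_eq_inv', Matrix.smul_apply, smul_eq_mul]
  exact ((kuq_det hX).inv hd).mul (kuq_adj hX i j)

private theorem kuq_mul {X Y : ℂ → Matrix (Fin N) (Fin N) ℂ} (hX : ∀ i j, Differentiable ℂ fun y => X y i j)
    (hY : ∀ i j, Differentiable ℂ fun y => Y y i j) (i j : Fin N) : Differentiable ℂ fun y => (X y * Y y) i j := by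
  simp only [Matrix.mul_apply]
  exact Differentiable.fun_sum fun k _ => (hX i k).mul (hY k j)

private theorem kuq_slit : ∀ᶠ y in rhp, y ∈ Complex.slitPlane := by
  have h1 : ∀ᶠ y in rhp, y ∈ {y : ℂ | 0 ≤ y.re} := by
    unfold rhp
    exact mem_inf_of_right (mem_principal_self _)
  have h2 : ∀ᶠ y in rhp, y ≠ (0 : ℂ) := by
    unfold rhp
    refine mem_inf_of_left ?_
    have : Tendsto (fun y : ℂ => ‖y‖) (Bornology.cobounded ℂ) atTop := tendsto_norm_cobounded_atTop
    filter_upwards [this.eventually_gt_atTop 0] with y hy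
    exact norm_pos_iff.mp hy
  filter_upwards [h1, h2] with y hy hy0
  rw [Complex.mem_slitPlane_iff]
  rcases (hy : 0 ≤ y.re).lt_or_eq with h | h
  · exact Or.inl h
  · right
    intro him
    exact hy0 (Complex.ext h.symm him)

/-- Block K. Uniqueness of the right-canonical basis. -/
theorem birk_unique (D : DSys N) {Ψ : Matrix (Fin N) (Fin N) ℂ} {G : Fin N → ℂ}
    (hE : Eig (D.A 0) D.g Ψ G) {X X' : ℂ → Matrix (Fin N) (Fin N) ℂ}
    (hX : ∀ i j, Differentiable ℂ fun y => X y i j) (hX' : ∀ i j, Differentiable ℂ fun y => X' y i j)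
    (pX : ∀ y, X (y - 1) = X y) (pX' : ∀ y, X' (y - 1) = X' y)
    (bX : IsBirk D.F Ψ G X) (bX' : IsBirk D.F Ψ G X') : X = X' := by
  have hdΨ := hE.det_ne
  have hdX := det_of_birk D hE pX bX
  have tP : Tendsto (fun y => D.F y * X y * Matrix.diagonal fun k => Complex.exp (-y * G k)) rhp (𝓝 Ψ) :=
    tendsto_pi_nhds.mpr fun i => tendsto_pi_nhds.mpr fun j => bX i j
  have tP' : Tendsto (fun y => D.F y * X' y * Matrix.diagonal fun k => Complex.exp (-y * G k)) rhp (𝓝 Ψ) :=
    tendsto_pi_nhds.mpr fun i => tendsto_pi_nhds.mpr fun j => bX' i j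
  have tinv : Tendsto (fun y => (D.F y * X y * Matrix.diagonal fun k => Complex.exp (-y * G k))⁻¹) rhp
      (𝓝 Ψ⁻¹) := by
    simp only [Matrix.inv_def, Ring.inverse_eq_inv']
    have c1 : Continuous fun A : Matrix (Fin N) (Fin N) ℂ => A.det := continuous_id.matrix_det
    have c2 : Continuous fun A : Matrix (Fin N) (Fin N) ℂ => A.adjugate := continuous_id.matrix_adjugate
    exact ((c1.tendsto Ψ).comp tP |>.inv₀ hdΨ).smul ((c2.tendsto Ψ).comp tP)
  have tm : Tendsto (fun y => (D.F y * X y * Matrix.diagonal fun k => Complex.exp (-y * G k))⁻¹ *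
      (D.F y * X' y * Matrix.diagonal fun k => Complex.exp (-y * G k))) rhp (𝓝 (1 : Matrix (Fin N) (Fin N) ℂ)) := by
    have := tinv.mul tP'
    rwa [Matrix.nonsing_inv_mul _ (isUnit_iff_ne_zero.mpr hdΨ)] at this
  have key : ∀ i j, Tendsto (fun y => Complex.exp (y * (G i - G j)) * ((X y)⁻¹ * X' y) i j) rhp
      (𝓝 ((1 : Matrix (Fin N) (Fin N) ℂ) i j)) := by
    intro i j
    have h1 : Tendsto (fun y => ((D.F y * X y * Matrix.diagonal fun k => Complex.exp (-y * G k))⁻¹ *
      (D.F y * X' y * Matrix.diagonal fun k => Complex.exp (-y * G k))) i j) rhp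
        (𝓝 ((1 : Matrix (Fin N) (Fin N) ℂ) i j)) :=
      tendsto_pi_nhds.mp (tendsto_pi_nhds.mp tm i) j
    refine h1.congr' ?_
    filter_upwards [kuq_slit] with y hy
    have hF : D.F y * (D.F y)⁻¹ = 1 := Matrix.mul_nonsing_inv _ (isUnit_iff_ne_zero.mpr (D.F_det y hy))
    have hF' : (D.F y)⁻¹ * D.F y = 1 := Matrix.nonsing_inv_mul _ (isUnit_iff_ne_zero.mpr (D.F_det y hy))
    have hEi : (Matrix.diagonal fun k => Complex.exp (-y * G k))⁻¹ =
        Matrix.diagonal fun k => Complex.exp (y * G k) := by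
      refine Matrix.inv_eq_left_inv ?_
      rw [Matrix.diagonal_mul_diagonal]
      have : (fun k => Complex.exp (y * G k) * Complex.exp (-y * G k)) = fun _ => 1 := by
        funext k
        rw [← Complex.exp_add]
        have : y * G k + -y * G k = 0 := by ring
        rw [this, Complex.exp_zero]
      rw [this, Matrix.diagonal_one]
    have h2 : (D.F y * X y * Matrix.diagonal fun k => Complex.exp (-y * G k))⁻¹ *
        (D.F y * X' y * Matrix.diagonal fun k => Complex.exp (-y * G k)) =
        (Matrix.diagonal fun k => Complex.exp (y * G k)) * ((X y)⁻¹ * X' y) *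
          Matrix.diagonal fun k => Complex.exp (-y * G k) := by
      rw [Matrix.mul_inv_rev, Matrix.mul_inv_rev, hEi]
      calc (Matrix.diagonal fun k => Complex.exp (y * G k)) * ((X y)⁻¹ * (D.F y)⁻¹) *
            (D.F y * X' y * Matrix.diagonal fun k => Complex.exp (-y * G k)) =
            (Matrix.diagonal fun k => Complex.exp (y * G k)) * (X y)⁻¹ * ((D.F y)⁻¹ * D.F y) * X' y *
              Matrix.diagonal fun k => Complex.exp (-y * G k) := by simp only [Matrix.mul_assoc]
        _ = _ := by rw [hF', Matrix.mul_one]; simp only [Matrix.mul_assoc]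
    rw [h2, Matrix.mul_diagonal, Matrix.diagonal_mul]
    have h3 : Complex.exp (y * (G i - G j)) = Complex.exp (y * G i) * Complex.exp (-y * G j) := by
      rw [← Complex.exp_add]; congr 1; ring
    rw [h3]; ring
  have hMd : ∀ i j, Differentiable ℂ fun y => ((X y)⁻¹ * X' y) i j := kuq_mul (kuq_inv hX hdX) hX'
  have hM : ∀ y, (X y)⁻¹ * X' y = 1 := by
    intro y
    ext i j
    by_cases hij : i = j
    · subst hij
      have h1 := key i i
      simp only [sub_self, mul_zero, Complex.exp_zero, one_mul, Matrix.one_apply_eq] at h1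
      have h2 := zero_of_small (g := fun y => ((X y)⁻¹ * X' y) i i - 1) ((hMd i i).sub_const 1)
        (fun y => by simp only [pX, pX']) 0 (by
          simp only [mul_zero, Complex.exp_zero, one_mul]
          have := h1.sub_const 1
          simpa using this) y
      rw [Matrix.one_apply_eq]
      exact sub_eq_zero.mp h2
    · have h1 := key i j
      rw [Matrix.one_apply_ne hij] at h1
      rw [Matrix.one_apply_ne hij]
      exact zero_of_small (g := fun y => ((X y)⁻¹ * X' y) i j) (hMd i j) (fun y => by simp only [pX, pX'])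
        (G i - G j) h1 y
  funext y
  have h1 : X y * ((X y)⁻¹ * X' y) = X' y := by
    rw [← Matrix.mul_assoc, Matrix.mul_nonsing_inv _ (isUnit_iff_ne_zero.mpr (hdX y)), Matrix.one_mul]
  rw [hM y, Matrix.mul_one] at h1
  exact h1

end Pool.Agent.DST
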