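import Pool.Agent.DST.NRel
import Pool.Agent.DST.FPol

/-!
# DST-NCyc: for `|λ|` large the unit is a cyclic vector for multiplication by `c_1`

`K(τ, x) = Kc T t x v 0 τ` satisfies `x^{deg k} K_{kc}(τ, x) = x^{1 + deg c} K̃_{kc}(τ, 1/x)`, where
`K̃(τ, u)` is a matrix of functions which are polynomials in `u` and which is, for `u = 0`, the matrix `W` (at
`λ = 1`) of classical equivariant multiplication by `∑ chern_b φ_b`. By restriction to the fixed points
the matrix `(W^j e)_j` is the quotient of a Vandermonde matrix, so that it is invertible, and it remains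
invertible for `‖τ‖ ≤ 1` and `u` small, by compactness.
-/

open scoped BigOperators Topology
open Filter

namespace Pool.Agent.DST

open Pool.Agent.Helper18.Dub Pool.Agent.Helper7.DubStokes Pool.Agent.SHF

variable {N : ℕ} {X : FanoGW (Fin N)} {t t₀ : Fin N → ℂ}

private theorem finite_c1_leN (X : FanoGW (Fin N)) (n : ℕ) : {β | X.c1 β ≤ n}.Finite := by
  have h : {β | X.c1 β ≤ n} ⊆ ⋃ k ∈ Set.Iic n, {β | X.c1 β = k} := by
    intro β hβ
    simp only [Set.mem_iUnion]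
    exact ⟨X.c1 β, hβ, rfl⟩
  exact ((Set.finite_Iic n).biUnion fun k _ => X.c1_finite k).subset h

/-- all the classes which contribute to three-point correlators -/
private noncomputable def BN (X : FanoGW (Fin N)) : Finset X.Curve :=
  (finite_c1_leN X (3 * ∑ i, X.deg i)).toFinset

private theorem mem_BN (T : EquivGW X) (b c l : Fin N) (β : X.Curve)
    (h : T.invT β {b, c, l} ≠ 0) : β ∈ BN X := by
  obtain ⟨n, hn⟩ : ∃ n, (T.invT β {b, c, l}).coeff n ≠ 0 := by
    by_contra h'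
    push Not at h'
    exact h (Polynomial.ext (by simpa using h'))
  have h3 := T.dimension β {b, c, l} n hn
  have h4 : ∀ i, X.deg i ≤ ∑ i, X.deg i := fun i =>
    Finset.single_le_sum (f := fun i => X.deg i) (fun _ _ => Nat.zero_le _) (Finset.mem_univ i)
  have hb := h4 b
  have hc := h4 c
  have hl := h4 l
  have h5 : (Multiset.map X.deg {b, c, l}).sum = X.deg b + (X.deg c + X.deg l) := by simp
  have h6 : Multiset.card ({b, c, l} : Multiset (Fin N)) = 3 := by simp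
  rw [h5, h6] at h3
  unfold BN
  rw [Set.Finite.mem_toFinset, Set.mem_ofPred_eq]
  omega

private theorem zero_mem_BN (X : FanoGW (Fin N)) : X.zero ∈ BN X := by
  unfold BN
  rw [Set.Finite.mem_toFinset, Set.mem_ofPred_eq, (X.c1_eq_zero X.zero).2 rfl]
  exact Nat.zero_le _

private noncomputable def wgt (X : FanoGW (Fin N)) (t : Fin N → ℂ) (τ : ℂ) (β : X.Curve) : ℂ :=
  Complex.exp ((∑ i, t i * X.period β i) + τ * (X.c1 β : ℂ))

private theorem wgt_eq (t : Fin N → ℂ) (τ : ℂ) (β : X.Curve) :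
    Complex.exp (∑ i, tc X t τ i * X.period β i) = wgt X t τ β := by
  unfold wgt
  congr 1
  rw [← X.chern_period β, Finset.mul_sum, ← Finset.sum_add_distrib]
  apply Finset.sum_congr rfl
  intro i _
  unfold tc
  ring

private theorem wgt_cont (β : X.Curve) :
    Continuous fun p : (Fin N → ℂ) × ℂ => wgt X p.1 p.2 β := by
  unfold wgt
  fun_prop

private theorem corrAt_evalN (T : EquivGW X) (t : Fin N → ℂ) (τ x : ℂ) (b c l : Fin N) :
    (corrAt T.toEquivData (tc X t τ) {b, c, l}).eval x =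
      ∑ β ∈ BN X, wgt X t τ β * (T.invT β {b, c, l}).eval x := by
  have h1 : corrAt T.toEquivData (tc X t τ) {b, c, l} = ∑ β ∈ BN X,
      Polynomial.C (Complex.exp (∑ i, tc X t τ i * X.period β i)) * T.invT β {b, c, l} := by
    unfold corrAt
    apply finsum_eq_sum_of_support_subset
    intro β hβ
    rw [Function.mem_support] at hβ
    exact mem_BN T b c l β (right_ne_zero_of_mul hβ)
  rw [h1, Polynomial.eval_finsetSum]
  apply Finset.sum_congr rfl
  intro β _
  rw [Polynomial.eval_mul, Polynomial.eval_C, wgt_eq]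

/-- the matrix of `c_1 •` at `t + τ c_1` and `λ = x` -/
private noncomputable def KN (T : EquivGW X) (t : Fin N → ℂ) (τ x : ℂ) :
    Matrix (Fin N) (Fin N) ℂ :=
  Matrix.of fun k c => ∑ b, X.chern b * ∑ l, (T.pairT⁻¹ k l).eval x *
    ∑ β ∈ BN X, wgt X t τ β * (T.invT β {b, c, l}).eval x

/-- the rescaled matrix, `u = 1 / x` -/
private noncomputable def KU (T : EquivGW X) (t : Fin N → ℂ) (τ u : ℂ) :
    Matrix (Fin N) (Fin N) ℂ :=
  Matrix.of fun k c => ∑ b, X.chern b * ∑ l, (T.pairT⁻¹ k l).eval 1 *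
    ∑ β ∈ BN X, wgt X t τ β * (u ^ X.c1 β * (T.invT β {b, c, l}).eval 1)

private theorem coeff_serAtN (T : EquivData X) (t' : Fin N → ℂ) (s : Multiset (Fin N))
    (m : Fin N →₀ ℕ) : MvPowerSeries.coeff m (serAt T t' s) =
      Polynomial.C (∏ i, ((m i).factorial : ℂ))⁻¹ * corrAt T t' (s + Finsupp.toMultiset m) :=
  rfl

private theorem Pc_zeroN (T : EquivGW X) (t : Fin N → ℂ) (x : ℂ) (v : Fin N → ℂ) (b : Fin N)
    (τ : ℂ) (k c : Fin N) : Pc T.toEquivData t x v b 0 τ k c =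
      ∑ l, (T.pairT⁻¹ k l).eval x *
        ∑ β ∈ BN X, wgt X t τ β * (T.invT β {b, c, l}).eval x := by
  have h0 : Pc T.toEquivData t x v b 0 τ k c =
      (PowerSeries.coeff 0 (lineF v (mulAt T.toEquivData (tc X t τ) b k c))).eval x := rfl
  rw [h0]
  unfold lineF
  rw [PowerSeries.coeff_mk, Finset.finsuppAntidiag_zero, Finset.sum_singleton]
  have h1 : (∏ i : Fin N, v i ^ ((0 : Fin N →₀ ℕ) i)) = 1 := by simp
  rw [h1, one_smul]
  unfold mulAt
  rw [Matrix.of_apply, map_sum, Polynomial.eval_finsetSum]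
  apply Finset.sum_congr rfl
  intro l _
  rw [MvPowerSeries.coeff_C_mul, coeff_serAtN, Polynomial.eval_mul, ← corrAt_evalN]
  have h2 : (∏ i : Fin N, ((((0 : Fin N →₀ ℕ)) i).factorial : ℂ))⁻¹ = 1 := by simp
  rw [h2, Polynomial.C_1, one_mul, map_zero, add_zero]

private theorem Kc_zeroN (T : EquivGW X) (t : Fin N → ℂ) (x : ℂ) (v : Fin N → ℂ) (τ : ℂ) :
    Kc T.toEquivData t x v 0 τ = KN T t τ x := by
  ext k c
  unfold Kc KN
  rw [Matrix.sum_apply, Matrix.of_apply]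
  apply Finset.sum_congr rfl
  intro b _
  rw [Matrix.smul_apply, smul_eq_mul, Pc_zeroN]

private theorem pair_homN (T : EquivGW X) (x : ℂ) (i j : Fin N) :
    x ^ X.dim * (T.pairT i j).eval x = x ^ (X.deg i + X.deg j) * (T.pairT i j).eval 1 := by
  by_cases h0 : T.pairT i j = 0
  · rw [h0, Polynomial.eval_zero, Polynomial.eval_zero, mul_zero, mul_zero]
  obtain ⟨n, hn⟩ : ∃ n, (T.pairT i j).coeff n ≠ 0 := by
    by_contra h'
    push Not at h'
    exact h0 (Polynomial.ext (by simpa using h'))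
  have h1 := T.pair_deg i j n hn
  have h2 : T.pairT i j = Polynomial.C ((T.pairT i j).coeff n) * Polynomial.X ^ n := by
    ext m
    rw [Polynomial.coeff_C_mul, Polynomial.coeff_X_pow]
    by_cases hm : m = n
    · subst hm
      rw [if_pos rfl, mul_one]
    · rw [if_neg hm, mul_zero]
      by_contra h3
      have h4 := T.pair_deg i j m h3
      omega
  rw [h2, h1]
  simp only [Polynomial.eval_mul, Polynomial.eval_C, Polynomial.eval_pow, Polynomial.eval_X]
  rw [one_pow, pow_add]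
  ring

private theorem inv_homN (T : EquivGW X) (x : ℂ) (β : X.Curve) (b c l : Fin N) :
    x ^ (X.dim + X.c1 β) * (T.invT β {b, c, l}).eval x =
      x ^ (X.deg b + (X.deg c + X.deg l)) * (T.invT β {b, c, l}).eval 1 := by
  by_cases h0 : T.invT β {b, c, l} = 0
  · rw [h0, Polynomial.eval_zero, Polynomial.eval_zero, mul_zero, mul_zero]
  have h5 : (Multiset.map X.deg {b, c, l}).sum = X.deg b + (X.deg c + X.deg l) := by simp
  have h6 : Multiset.card ({b, c, l} : Multiset (Fin N)) = 3 := by simp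
  obtain ⟨n, hn⟩ : ∃ n, (T.invT β {b, c, l}).coeff n ≠ 0 := by
    by_contra h'
    push Not at h'
    exact h0 (Polynomial.ext (by simpa using h'))
  have h1 := T.dimension β {b, c, l} n hn
  rw [h5, h6] at h1
  have h1' : X.deg b + (X.deg c + X.deg l) = X.dim + X.c1 β + n := by omega
  have h2 : T.invT β {b, c, l} =
      Polynomial.C ((T.invT β {b, c, l}).coeff n) * Polynomial.X ^ n := by
    ext m
    rw [Polynomial.coeff_C_mul, Polynomial.coeff_X_pow]
    by_cases hm : m = n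
    · subst hm
      rw [if_pos rfl, mul_one]
    · rw [if_neg hm, mul_zero]
      by_contra h3
      have h4 := T.dimension β {b, c, l} m h3
      rw [h5, h6] at h4
      omega
  rw [h2, h1']
  simp only [Polynomial.eval_mul, Polynomial.eval_C, Polynomial.eval_pow, Polynomial.eval_X]
  rw [one_pow, pow_add _ (X.dim + X.c1 β)]
  ring

private theorem inv_evalN (T : EquivGW X) (x : ℂ) :
    evm T.pairT x * evm T.pairT⁻¹ x = 1 := by
  rw [← evm_mul, Matrix.mul_nonsing_inv _ T.pair_nondeg]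
  ext i j
  unfold evm
  rw [Matrix.map_apply, Matrix.one_apply, Matrix.one_apply]
  split_ifs <;> simp

private theorem pinv_homN (T : EquivGW X) {x : ℂ} (hx : x ≠ 0) (k l : Fin N) :
    x ^ (X.deg k + X.deg l) * (T.pairT⁻¹ k l).eval x = x ^ X.dim * (T.pairT⁻¹ k l).eval 1 := by
  -- `Z k l = x ^ (deg k + deg l - dim) pinv x` is an inverse of `pairT 1`
  have h1 : evm T.pairT 1 *
      (Matrix.of fun k l => (x ^ X.dim)⁻¹ * (x ^ (X.deg k + X.deg l) * (T.pairT⁻¹ k l).eval x)) =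
        1 := by
    ext i j
    have h2 := congrFun (congrFun (inv_evalN T x) i) j
    rw [Matrix.mul_apply] at h2 ⊢
    have h3 : ∀ k, evm T.pairT 1 i k * (Matrix.of (fun k l => (x ^ X.dim)⁻¹ *
        (x ^ (X.deg k + X.deg l) * (T.pairT⁻¹ k l).eval x)) k j) =
        (x ^ X.deg i)⁻¹ * x ^ X.deg j * (evm T.pairT x i k * evm T.pairT⁻¹ x k j) := by
      intro k
      have h4 := pair_homN T x i k
      have h5 : evm T.pairT 1 i k = (T.pairT i k).eval 1 := rfl
      have h6 : evm T.pairT x i k = (T.pairT i k).eval x := rfl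
      have h7 : evm T.pairT⁻¹ x k j = (T.pairT⁻¹ k j).eval x := rfl
      rw [h5, h6, h7, Matrix.of_apply]
      have hi : x ^ X.deg i ≠ 0 := pow_ne_zero _ hx
      have hk : x ^ X.deg k ≠ 0 := pow_ne_zero _ hx
      have hd : x ^ X.dim ≠ 0 := pow_ne_zero _ hx
      have h8 : (T.pairT i k).eval 1 =
          (x ^ X.deg i)⁻¹ * (x ^ X.deg k)⁻¹ * (x ^ X.dim * (T.pairT i k).eval x) := by
        rw [h4, pow_add]
        field_simp
      rw [h8, pow_add]
      field_simp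
    rw [Finset.sum_congr rfl (fun k _ => h3 k), ← Finset.mul_sum, h2]
    rw [Matrix.one_apply]
    split_ifs with hij
    · subst hij
      have hi : x ^ X.deg i ≠ 0 := pow_ne_zero _ hx
      rw [mul_one, inv_mul_cancel₀ hi]
    · rw [mul_zero]
  have h9 : (Matrix.of fun k l => (x ^ X.dim)⁻¹ *
      (x ^ (X.deg k + X.deg l) * (T.pairT⁻¹ k l).eval x)) = evm T.pairT⁻¹ 1 := by
    have h10 : evm T.pairT⁻¹ 1 * evm T.pairT 1 = 1 := mul_eq_one_comm.1 (inv_evalN T 1)
    calc (Matrix.of fun k l => (x ^ X.dim)⁻¹ *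
          (x ^ (X.deg k + X.deg l) * (T.pairT⁻¹ k l).eval x))
        = (evm T.pairT⁻¹ 1 * evm T.pairT 1) * (Matrix.of fun k l => (x ^ X.dim)⁻¹ *
          (x ^ (X.deg k + X.deg l) * (T.pairT⁻¹ k l).eval x)) := by rw [h10, one_mul]
      _ = evm T.pairT⁻¹ 1 := by rw [mul_assoc, h1, mul_one]
  have h11 := congrFun (congrFun h9 k) l
  have h12 : evm T.pairT⁻¹ 1 k l = (T.pairT⁻¹ k l).eval 1 := rfl
  rw [h12, Matrix.of_apply] at h11
  have hd : x ^ X.dim ≠ 0 := pow_ne_zero _ hx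
  rw [← h11, mul_inv_cancel_left₀ hd]

private theorem KN_KU (T : EquivGW X) (t : Fin N → ℂ) (τ : ℂ) {x : ℂ} (hx : x ≠ 0)
    (k c : Fin N) : x ^ X.deg k * KN T t τ x k c = x ^ (1 + X.deg c) * KU T t τ x⁻¹ k c := by
  unfold KN KU
  rw [Matrix.of_apply, Matrix.of_apply, Finset.mul_sum, Finset.mul_sum]
  apply Finset.sum_congr rfl
  intro b _
  by_cases hb : X.chern b = 0
  · rw [hb, zero_mul, zero_mul, mul_zero, mul_zero]
  have hdb := X.chern_deg b hb
  rw [mul_left_comm, mul_left_comm (x ^ (1 + X.deg c))]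
  congr 1
  rw [Finset.mul_sum, Finset.mul_sum]
  apply Finset.sum_congr rfl
  intro l _
  rw [Finset.mul_sum, Finset.mul_sum, Finset.mul_sum, Finset.mul_sum]
  apply Finset.sum_congr rfl
  intro β _
  have h1 := pinv_homN T hx k l
  have h2 := inv_homN T x β b c l
  rw [hdb] at h2
  have hk : x ^ X.deg k ≠ 0 := pow_ne_zero _ hx
  have hl : x ^ X.deg l ≠ 0 := pow_ne_zero _ hx
  have hd : x ^ X.dim ≠ 0 := pow_ne_zero _ hx
  have hβ : x ^ X.c1 β ≠ 0 := pow_ne_zero _ hx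
  have h3 : x ^ X.deg k * (T.pairT⁻¹ k l).eval x =
      (x ^ X.deg l)⁻¹ * (x ^ X.dim * (T.pairT⁻¹ k l).eval 1) := by
    rw [← h1, pow_add]
    field_simp
  have h4 : (T.invT β {b, c, l}).eval x = (x ^ X.dim)⁻¹ * (x ^ X.c1 β)⁻¹ *
      (x ^ (1 + X.deg c) * x ^ X.deg l * (T.invT β {b, c, l}).eval 1) := by
    have h5 : x ^ (1 + (X.deg c + X.deg l)) = x ^ (1 + X.deg c) * x ^ X.deg l := by
      rw [← pow_add]
      congr 1
      ring
    rw [← h5, ← h2, pow_add]
    field_simp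
  calc x ^ X.deg k * ((T.pairT⁻¹ k l).eval x * (wgt X t τ β * (T.invT β {b, c, l}).eval x))
      = (x ^ X.deg k * (T.pairT⁻¹ k l).eval x) *
          (wgt X t τ β * (T.invT β {b, c, l}).eval x) := by ring
    _ = _ := by
        rw [h3, h4, inv_pow]
        field_simp

private theorem KN_pow (T : EquivGW X) (t : Fin N → ℂ) (τ : ℂ) {x : ℂ} (hx : x ≠ 0) (j : ℕ)
    (k : Fin N) : x ^ X.deg k * ((KN T t τ x) ^ j).mulVec (Pi.single X.one 1) k =
      x ^ j * ((KU T t τ x⁻¹) ^ j).mulVec (Pi.single X.one 1) k := by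
  induction j generalizing k with
  | zero =>
    rw [pow_zero, pow_zero, pow_zero, Matrix.one_mulVec, one_mul]
    by_cases hk : k = X.one
    · subst hk
      rw [X.deg_one, pow_zero, one_mul]
    · rw [Pi.single_eq_of_ne hk, mul_zero]
  | succ j ih =>
    rw [pow_succ' (KN T t τ x), pow_succ' (KU T t τ x⁻¹), ← Matrix.mulVec_mulVec,
      ← Matrix.mulVec_mulVec]
    have h1 : ∀ (M : Matrix (Fin N) (Fin N) ℂ) (w : Fin N → ℂ) (k : Fin N),
        M.mulVec w k = ∑ c, M k c * w c := fun M w k => rfl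
    rw [h1, h1 (KU T t τ x⁻¹), Finset.mul_sum, Finset.mul_sum]
    apply Finset.sum_congr rfl
    intro c _
    have h2 := KN_KU T t τ hx k c
    have h3 := ih c
    calc x ^ X.deg k * (KN T t τ x k c * ((KN T t τ x) ^ j).mulVec (Pi.single X.one 1) c)
        = (x ^ X.deg k * KN T t τ x k c) *
            ((KN T t τ x) ^ j).mulVec (Pi.single X.one 1) c := by ring
      _ = x * KU T t τ x⁻¹ k c *
            (x ^ X.deg c * ((KN T t τ x) ^ j).mulVec (Pi.single X.one 1) c) := by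
          rw [h2, pow_add, pow_one]; ring
      _ = _ := by rw [h3, pow_succ]; ring

private noncomputable def Cyc (e : Fin N) (K : Matrix (Fin N) (Fin N) ℂ) :
    Matrix (Fin N) (Fin N) ℂ :=
  Matrix.of fun i (j : Fin N) => (K ^ (j : ℕ)).mulVec (Pi.single e 1) i

private theorem Cyc_det (T : EquivGW X) (t : Fin N → ℂ) (τ : ℂ) {x : ℂ} (hx : x ≠ 0)
    (h : (Cyc X.one (KU T t τ x⁻¹)).det ≠ 0) : (Cyc X.one (KN T t τ x)).det ≠ 0 := by
  have h1 : Matrix.diagonal (fun k => x ^ X.deg k) * Cyc X.one (KN T t τ x) =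
      Cyc X.one (KU T t τ x⁻¹) * Matrix.diagonal (fun j : Fin N => x ^ (j : ℕ)) := by
    ext k j
    rw [Matrix.diagonal_mul, Matrix.mul_diagonal]
    unfold Cyc
    rw [Matrix.of_apply, Matrix.of_apply, KN_pow T t τ hx, mul_comm]
  have h2 := congrArg Matrix.det h1
  rw [Matrix.det_mul, Matrix.det_mul, Matrix.det_diagonal, Matrix.det_diagonal] at h2
  intro h3
  rw [h3, mul_zero] at h2
  have h4 : ∏ j : Fin N, x ^ (j : ℕ) ≠ 0 := Finset.prod_ne_zero_iff.2 fun j _ => pow_ne_zero _ hx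
  exact mul_ne_zero h h4 h2.symm

private theorem KU_zero (T : BulkGW X t₀) (t : Fin N → ℂ) (τ : ℂ) (k c : Fin N) :
    KU T.toEquivGW t τ 0 k c = ∑ b, X.chern b * (T.cupMatT b k c).eval 1 := by
  unfold KU
  rw [Matrix.of_apply]
  apply Finset.sum_congr rfl
  intro b _
  congr 1
  unfold EquivData.cupMatT
  rw [Matrix.of_apply, Polynomial.eval_finsetSum]
  apply Finset.sum_congr rfl
  intro l _
  rw [Polynomial.eval_mul]
  congr 1
  rw [Finset.sum_eq_single_of_mem X.zero (zero_mem_BN X)]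
  · have h1 : wgt X t τ X.zero = 1 := by
      unfold wgt
      have h2 : ∀ i, X.period X.zero i = 0 := T.period_zero
      simp [h2, (X.c1_eq_zero X.zero).2 rfl]
    rw [h1, (X.c1_eq_zero X.zero).2 rfl, pow_zero, one_mul, one_mul]
  · intro β _ hβ
    have h3 : X.c1 β ≠ 0 := fun h => hβ ((X.c1_eq_zero β).1 h)
    rw [zero_pow h3, zero_mul, mul_zero]

private theorem res_mul (T : BulkGW X t₀) (t : Fin N → ℂ) (τ : ℂ) :
    (Matrix.of fun p k => T.res p k) * KU T.toEquivGW t τ 0 =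
      Matrix.diagonal (fun p => (∑ k, (T.wt p k : ℂ)) - T.κ) * (Matrix.of fun p k => T.res p k) := by
  ext p c
  rw [Matrix.mul_apply, Matrix.diagonal_mul]
  have h1 : ∀ b, ∑ k, (T.cupMatT b k c).eval 1 * T.res p k = T.res p b * T.res p c := by
    intro b
    have h2 := congrArg (Polynomial.eval 1) ((T.isRestriction p).mul b c)
    rw [Polynomial.eval_finsetSum] at h2
    simp only [Polynomial.eval_mul, Polynomial.eval_C, Polynomial.eval_pow, Polynomial.eval_X,
      one_pow, mul_one] at h2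
    exact h2.symm
  have h3 : ∀ k, (Matrix.of fun p k => T.res p k) p k * KU T.toEquivGW t τ 0 k c =
      ∑ b, X.chern b * ((T.cupMatT b k c).eval 1 * T.res p k) := by
    intro k
    rw [KU_zero, Matrix.of_apply, Finset.mul_sum]
    apply Finset.sum_congr rfl
    intro b _
    ring
  rw [Finset.sum_congr rfl (fun k _ => h3 k), Finset.sum_comm]
  simp_rw [← Finset.mul_sum]
  rw [Finset.sum_congr rfl (fun b _ => by rw [h1 b]), ← T.chern_res p, Matrix.of_apply,
    add_sub_cancel_right, Finset.sum_mul]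
  apply Finset.sum_congr rfl
  intro b _
  ring

private theorem Cyc_zero (T : BulkGW X t₀) (t : Fin N → ℂ) (τ : ℂ) :
    (Cyc X.one (KU T.toEquivGW t τ 0)).det ≠ 0 := by
  have hone : ∀ p, T.res p X.one = 1 := by
    intro p
    have h := congrArg (Polynomial.eval 1) (T.isRestriction p).one
    simpa using h
  have h1 : ∀ j : ℕ, (Matrix.of fun p k => T.res p k) * (KU T.toEquivGW t τ 0) ^ j =
      Matrix.diagonal (fun p => ((∑ k, (T.wt p k : ℂ)) - T.κ) ^ j) *
        (Matrix.of fun p k => T.res p k) := by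
    intro j
    induction j with
    | zero =>
      simp
    | succ j ih =>
      rw [pow_succ, ← mul_assoc, ih, mul_assoc, res_mul, ← mul_assoc,
        Matrix.diagonal_mul_diagonal]
      rfl
  have h2 : (Matrix.of fun p k => T.res p k) * Cyc X.one (KU T.toEquivGW t τ 0) =
      Matrix.vandermonde (fun p => (∑ k, (T.wt p k : ℂ)) - T.κ) := by
    ext p j
    have h3 := congrFun (congrArg (fun M : Matrix (Fin N) (Fin N) ℂ =>
      M.mulVec (Pi.single X.one 1)) (h1 (j : ℕ))) p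
    simp only [← Matrix.mulVec_mulVec] at h3
    rw [Matrix.mulVec_diagonal] at h3
    have h4 : (Matrix.of fun p k => T.res p k).mulVec (Pi.single X.one 1) p = 1 := by
      rw [Matrix.mulVec_single_one]
      exact hone p
    rw [h4, mul_one] at h3
    rw [Matrix.vandermonde_apply, ← h3]
    rfl
  have h5 : (Matrix.vandermonde (fun p => (∑ k, (T.wt p k : ℂ)) - T.κ)).det ≠ 0 := by
    rw [Matrix.det_vandermonde_ne_zero_iff]
    intro p q hpq
    have h6 : (∑ k, (T.wt p k : ℂ)) = ∑ k, (T.wt q k : ℂ) := sub_left_injective hpq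
    have h7 : ∑ k, T.wt p k = ∑ k, T.wt q k := by exact_mod_cast h6
    exact T.strict.injective h7
  rw [← h2, Matrix.det_mul] at h5
  exact right_ne_zero_of_mul h5

private theorem Cyc_cont {Z : Type} [TopologicalSpace Z] (e : Fin N)
    (f : Z → Matrix (Fin N) (Fin N) ℂ) (hf : Continuous f) : Continuous fun z => Cyc e (f z) := by
  unfold Cyc
  apply continuous_matrix
  intro i j
  have h1 : Continuous fun z => (f z ^ (j : ℕ)).mulVec (Pi.single e 1) :=
    (hf.pow _).matrix_mulVec continuous_const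
  exact (continuous_apply i).comp h1

private theorem KU_cont (T : EquivGW X) :
    Continuous fun p : ((Fin N → ℂ) × ℂ) × ℂ => KU T p.1.1 p.1.2 p.2 := by
  unfold KU
  apply continuous_matrix
  intro k c
  have h1 : ∀ β, Continuous fun p : ((Fin N → ℂ) × ℂ) × ℂ => wgt X p.1.1 p.1.2 β := fun β =>
    (wgt_cont β).comp continuous_fst
  simp only [Matrix.of_apply]
  fun_prop

private theorem KN_cont (T : EquivGW X) :
    Continuous fun p : ((Fin N → ℂ) × ℂ) × ℂ => KN T p.1.1 p.1.2 p.2 := by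
  unfold KN
  apply continuous_matrix
  intro k c
  have h1 : ∀ β, Continuous fun p : ((Fin N → ℂ) × ℂ) × ℂ => wgt X p.1.1 p.1.2 β := fun β =>
    (wgt_cont β).comp continuous_fst
  have h2 : ∀ q : Polynomial ℂ, Continuous fun p : ((Fin N → ℂ) × ℂ) × ℂ => q.eval p.2 :=
    fun q => q.continuous.comp continuous_snd
  simp only [Matrix.of_apply]
  refine continuous_finsetSum _ fun b _ => continuous_const.mul ?_
  refine continuous_finsetSum _ fun l _ => (h2 _).mul ?_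
  exact continuous_finsetSum _ fun β _ => (h1 β).mul (h2 _)

private theorem det_cont (T : EquivGW X) :
    Continuous fun p : ((Fin N → ℂ) × ℂ) × ℂ => (Cyc X.one (KU T p.1.1 p.1.2 p.2)).det :=
  (Cyc_cont X.one _ (KU_cont T)).matrix_det

private theorem tube {Z : Type} [TopologicalSpace Z] {K : Set Z} (hK : IsCompact K)
    (F : Z × ℂ → ℂ) (hF : Continuous F) (h0 : ∀ z ∈ K, F (z, 0) ≠ 0) :
    ∃ ε : ℝ, 0 < ε ∧ ∀ z ∈ K, ∀ u : ℂ, ‖u‖ < ε → F (z, u) ≠ 0 := by
  have h1 : IsOpen {p : Z × ℂ | F p ≠ 0} := isOpen_ne.preimage hF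
  have h2 : K ×ˢ {(0 : ℂ)} ⊆ {p : Z × ℂ | F p ≠ 0} := by
    rintro ⟨z, u⟩ ⟨hz, hu⟩
    have hu' : u = 0 := hu
    subst hu'
    exact h0 z hz
  obtain ⟨A, B, _, hB, hA', hB', hAB⟩ := generalized_tube_lemma hK isCompact_singleton h1 h2
  obtain ⟨ε, hε, hε'⟩ := Metric.isOpen_iff.1 hB 0 (hB' rfl)
  refine ⟨ε, hε, fun z hz u hu => ?_⟩
  have h3 : ((z, u) : Z × ℂ) ∈ A ×ˢ B := ⟨hA' hz, hε' (mem_ball_zero_iff.2 hu)⟩
  exact hAB h3

private theorem radius (T : BulkGW X t₀) {K : Set (Fin N → ℂ)} (hK : IsCompact K) :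
    ∃ ε : ℝ, 0 < ε ∧ ∀ t ∈ K, ∀ τ u : ℂ, ‖τ‖ ≤ 1 → ‖u‖ < ε →
      (Cyc X.one (KU T.toEquivGW t τ u)).det ≠ 0 := by
  obtain ⟨ε, hε, h⟩ := tube (hK.prod (isCompact_closedBall (0 : ℂ) 1))
    (fun p : ((Fin N → ℂ) × ℂ) × ℂ => (Cyc X.one (KU T.toEquivGW p.1.1 p.1.2 p.2)).det)
    (det_cont T.toEquivGW) (fun z _ => Cyc_zero T z.1 z.2)
  exact ⟨ε, hε, fun t ht τ u hτ hu => h (t, τ) ⟨ht, mem_closedBall_zero_iff.2 hτ⟩ u hu⟩

private theorem inv_entry (M : Matrix (Fin N) (Fin N) ℂ) (i j : Fin N) :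
    M⁻¹ i j = M.det⁻¹ * M.adjugate i j := by
  rw [Matrix.inv_def, Ring.inverse_eq_inv', Matrix.smul_apply, smul_eq_mul]

/-- the sum of the absolute values of the entries of `K` and of the inverse of `(K^j e)_j` -/
private noncomputable def total (e : Fin N) (K : Matrix (Fin N) (Fin N) ℂ) : ℝ :=
  ∑ i, ∑ j, (‖K i j‖ + ‖(Cyc e K)⁻¹ i j‖)

private theorem le_total (e : Fin N) (K : Matrix (Fin N) (Fin N) ℂ) (i j : Fin N) :
    ‖K i j‖ + ‖(Cyc e K)⁻¹ i j‖ ≤ total e K := by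
  unfold total
  refine le_trans ?_ (Finset.single_le_sum (f := fun i => ∑ j, (‖K i j‖ + ‖(Cyc e K)⁻¹ i j‖))
    (fun _ _ => Finset.sum_nonneg fun _ _ => by positivity) (Finset.mem_univ i))
  exact Finset.single_le_sum (f := fun j => ‖K i j‖ + ‖(Cyc e K)⁻¹ i j‖)
    (fun _ _ => by positivity) (Finset.mem_univ j)

private theorem total_cont {Z : Type} [TopologicalSpace Z] (e : Fin N)
    (f : Z → Matrix (Fin N) (Fin N) ℂ) (hf : Continuous f) (S : Set Z)
    (hS : ∀ z ∈ S, (Cyc e (f z)).det ≠ 0) : ContinuousOn (fun z => total e (f z)) S := by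
  have hC := Cyc_cont e f hf
  unfold total
  refine continuousOn_finsetSum _ fun i _ => continuousOn_finsetSum _ fun j _ => ?_
  refine ContinuousOn.add (hf.matrix_elem i j).norm.continuousOn ?_
  apply ContinuousOn.norm
  simp_rw [inv_entry]
  exact ContinuousOn.mul (ContinuousOn.inv₀ hC.matrix_det.continuousOn hS)
    (hC.matrix_adjugate.matrix_elem i j).continuousOn

private theorem large_aux (T : BulkGW X t₀) {K : Set (Fin N → ℂ)} (hK : IsCompact K) :
    ∃ r₁ : ℝ, 0 < r₁ ∧ ∃ C₀ : ℝ, ∀ t ∈ K,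
      ∀ x τ : ℂ, ‖x‖ = r₁ → ‖τ‖ < 1 → (Cyc X.one (KN T.toEquivGW t τ x)).det ≠ 0 ∧
        total X.one (KN T.toEquivGW t τ x) ≤ C₀ := by
  obtain ⟨ε, hε, hε'⟩ := radius T hK
  have hr : (0 : ℝ) < 2 / ε := by positivity
  have hdet : ∀ t ∈ K, ∀ τ x : ℂ, ‖τ‖ ≤ 1 → ‖x‖ = 2 / ε →
      (Cyc X.one (KN T.toEquivGW t τ x)).det ≠ 0 := by
    intro t ht τ x hτ hx
    have hx0 : x ≠ 0 := by
      rintro rfl
      rw [norm_zero] at hx
      exact hr.ne hx
    apply Cyc_det T.toEquivGW t τ hx0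
    apply hε' t ht τ _ hτ
    rw [norm_inv, hx, inv_div]
    linarith
  have hcont := total_cont X.one (fun p : ((Fin N → ℂ) × ℂ) × ℂ => KN T.toEquivGW p.1.1 p.1.2 p.2)
    (KN_cont T.toEquivGW)
    ((K ×ˢ Metric.closedBall (0 : ℂ) 1) ×ˢ Metric.sphere (0 : ℂ) (2 / ε)) (by
      rintro ⟨⟨t, τ⟩, x⟩ ⟨⟨ht, hτ⟩, hx⟩
      exact hdet t ht τ x (mem_closedBall_zero_iff.1 hτ) (mem_sphere_zero_iff_norm.1 hx))
  obtain ⟨C₀, hC₀⟩ := ((hK.prod (isCompact_closedBall (0 : ℂ) 1)).prod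
    (isCompact_sphere (0 : ℂ) (2 / ε))).exists_bound_of_continuousOn hcont
  refine ⟨2 / ε, hr, C₀, fun t ht x τ hx hτ => ⟨hdet t ht τ x hτ.le hx, ?_⟩⟩
  have h1 := hC₀ ((t, τ), x)
    ⟨⟨ht, mem_closedBall_zero_iff.2 hτ.le⟩, mem_sphere_zero_iff_norm.2 hx⟩
  exact (le_abs_self _).trans h1

theorem cyclic_large_unif (T : BulkGW X t₀) {K : Set (Fin N → ℂ)} (hK : IsCompact K) :
    ∃ r₁ : ℝ, 0 < r₁ ∧ ∃ C₀ : ℝ, ∀ t ∈ K,
    ∀ (v : Fin N → ℂ) (x τ : ℂ), ‖x‖ = r₁ → ‖τ‖ < 1 →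
      (∀ i j, ‖Kc T.toEquivData t x v 0 τ i j‖ ≤ C₀) ∧
      (Matrix.of fun i (j : Fin N) =>
        ((Kc T.toEquivData t x v 0 τ) ^ (j : ℕ)).mulVec (Pi.single X.one 1) i).det ≠ 0 ∧
      ∀ i j, ‖(Matrix.of fun i (j : Fin N) =>
        ((Kc T.toEquivData t x v 0 τ) ^ (j : ℕ)).mulVec (Pi.single X.one 1) i)⁻¹ i j‖ ≤ C₀ := by
  obtain ⟨r₁, hr₁, C₀, h⟩ := large_aux T hK
  refine ⟨r₁, hr₁, C₀, fun t ht v x τ hx hτ => ?_⟩
  obtain ⟨h1, h2⟩ := h t ht x τ hx hτ
  have hKc : Kc T.toEquivData t x v 0 τ = KN T.toEquivGW t τ x := Kc_zeroN T.toEquivGW t x v τ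
  rw [hKc]
  have hle : ∀ i j, ‖KN T.toEquivGW t τ x i j‖ +
      ‖(Cyc X.one (KN T.toEquivGW t τ x))⁻¹ i j‖ ≤ C₀ := fun i j => (le_total _ _ i j).trans h2
  unfold Cyc at hle h1
  refine ⟨fun i j => ?_, h1, fun i j => ?_⟩
  · exact le_trans (le_add_of_nonneg_right (norm_nonneg _)) (hle i j)
  · exact le_trans (le_add_of_nonneg_left (norm_nonneg _)) (hle i j)

theorem cyclic_large (T : BulkGW X t₀) (t : Fin N → ℂ) : ∃ r₁ : ℝ, 0 < r₁ ∧ ∃ C₀ : ℝ,
    ∀ (v : Fin N → ℂ) (x τ : ℂ), ‖x‖ = r₁ → ‖τ‖ < 1 →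
      (∀ i j, ‖Kc T.toEquivData t x v 0 τ i j‖ ≤ C₀) ∧
      (Matrix.of fun i (j : Fin N) =>
        ((Kc T.toEquivData t x v 0 τ) ^ (j : ℕ)).mulVec (Pi.single X.one 1) i).det ≠ 0 ∧
      ∀ i j, ‖(Matrix.of fun i (j : Fin N) =>
        ((Kc T.toEquivData t x v 0 τ) ^ (j : ℕ)).mulVec (Pi.single X.one 1) i)⁻¹ i j‖ ≤ C₀ := by
  obtain ⟨r₁, hr₁, C₀, h⟩ := cyclic_large_unif T (K := {t}) isCompact_singleton
  exact ⟨r₁, hr₁, C₀, fun v x τ => h t rfl v x τ⟩

end Pool.Agent.DST
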