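import Pool.Agent.DST.NNag

/-!
# DST-NInd: the abstract convergence theorem (Cauchy–Kovalevskaya with Nagumo norms)

`K n`, `M n : ℂ → Matrix` are the coefficients of `s^n` of matrices `K(s,τ)`, `M(s,τ)`, entire in `τ`, with
`M K = K M`, `M e = v`, `∂_s K = ∂_τ M`; `e`, `v` are vectors of norm at most `1`, and `e` is a cyclic
vector of `K 0 τ`, uniformly for `‖τ‖ < 1`: the matrix with columns `(K 0 τ)^j e` has an inverse with
entries at most `C₀`; the entries of `K 0 τ` are at most `C₀`. Then `‖K n 0‖, ‖M n 0‖ ≤ A^{n+1}` with `A`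
depending only on `C₀` and `N`; and the same for the coefficients `P n` of a matrix `P(s,τ)` which
commutes with `K(s,τ)` and has `P e = w`, `‖w‖ ≤ 1`.

Proof. Let `E(s,τ)` be the matrix with columns `K^j e`, `V` the matrix with columns `K^j v`; then `M E = V`,
so `M = V E⁻¹`. If the coefficients `K i`, `1 ≤ i ≤ n`, have small Nagumo bounds `ε w_i`, then the
coefficients of `E⁻¹` and `M` up to `n` have bounds `κ w_i`, `c₄ w_i`, and `K (n+1) = (M n)'/(n+1)` has the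
bound `8 c₄ w_n ≤ ε w_{n+1}`.
-/

open scoped BigOperators Topology
open Filter

namespace Pool.Agent.DST

variable {N : ℕ}

private theorem ni_nonneg {τ : ℂ} (h : τ ∈ Metric.ball (0 : ℂ) 1) (n : ℕ) :
    0 ≤ (1 - ‖τ‖) ^ n := by
  rw [mem_ball_zero_iff] at h
  exact pow_nonneg (by linarith) n

private theorem ni_sum {n : ℕ} {B : ℝ} (f : Fin N → ℂ → ℂ)
    (h : ∀ k, Nag n B (f k)) : Nag n (N * B) (fun τ => ∑ k, f k τ) := by
  intro τ hτ
  calc (1 - ‖τ‖) ^ n * ‖∑ k, f k τ‖ ≤ (1 - ‖τ‖) ^ n * ∑ k, ‖f k τ‖ :=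
        mul_le_mul_of_nonneg_left (norm_sum_le _ _) (ni_nonneg hτ n)
    _ = ∑ k, (1 - ‖τ‖) ^ n * ‖f k τ‖ := Finset.mul_sum _ _ _
    _ ≤ ∑ k : Fin N, B := Finset.sum_le_sum fun k _ => h k τ hτ
    _ = N * B := by rw [Finset.sum_const, Finset.card_univ, Fintype.card_fin, nsmul_eq_mul]

private theorem ni_mulC {n : ℕ} {B C : ℝ} {f g : ℂ → ℂ}
    (hg : ∀ τ ∈ Metric.ball (0 : ℂ) 1, ‖g τ‖ ≤ C) (hf : Nag n B f) :
    Nag n (C * B) (fun τ => g τ * f τ) := by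
  intro τ hτ
  have h1 := mul_le_mul (hg τ hτ) (hf τ hτ) (mul_nonneg (ni_nonneg hτ n) (norm_nonneg _))
    ((norm_nonneg _).trans (hg τ hτ))
  calc (1 - ‖τ‖) ^ n * ‖g τ * f τ‖ = ‖g τ‖ * ((1 - ‖τ‖) ^ n * ‖f τ‖) := by
        rw [norm_mul]
        ring
    _ ≤ _ := h1

private theorem ni_congr {n : ℕ} {B : ℝ} {f g : ℂ → ℂ}
    (h : ∀ τ ∈ Metric.ball (0 : ℂ) 1, f τ = g τ) (hf : Nag n B f) : Nag n B g := by
  intro τ hτ
  rw [← h τ hτ]
  exact hf τ hτ

private theorem ni_w_pos {s : ℝ} (hs : 0 < s) (n : ℕ) : 0 < wN s n := by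
  unfold wN
  positivity

private theorem ni_w_zero (s : ℝ) : wN s 0 = 1 := by
  unfold wN
  simp

private theorem ni_w_succ {s : ℝ} (hs : 0 < s) (n : ℕ) : wN s n ≤ 4 * s * wN s (n + 1) := by
  unfold wN
  have hn : (0 : ℝ) ≤ n := Nat.cast_nonneg n
  have h1 : 4 * s * (s ^ (n + 1) * (((n + 1 : ℕ) : ℝ) + 1) ^ 2)⁻¹ =
      4 * (s ^ n * ((n : ℝ) + 2) ^ 2)⁻¹ := by
    push_cast
    rw [pow_succ]
    field_simp
    ring
  rw [h1, ← div_eq_mul_inv, inv_eq_one_div, div_le_div_iff₀ (by positivity) (by positivity)]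
  have h2 : ((n : ℝ) + 2) ^ 2 ≤ 4 * ((n : ℝ) + 1) ^ 2 := by nlinarith
  have h3 : 0 < s ^ n := pow_pos hs n
  nlinarith

private theorem ni_w_le {s : ℝ} (hs : 0 < s) (n : ℕ) : wN s n ≤ s⁻¹ ^ n := by
  unfold wN
  rw [inv_pow]
  have hn : (0 : ℝ) ≤ n := Nat.cast_nonneg n
  have h3 : 0 < s ^ n := pow_pos hs n
  refine inv_anti₀ h3 (le_mul_of_one_le_right h3.le ?_)
  nlinarith

/-- Cauchy products -/
private def cp (F G : ℕ → ℂ → Matrix (Fin N) (Fin N) ℂ) (n : ℕ) (τ : ℂ) :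
    Matrix (Fin N) (Fin N) ℂ :=
  ∑ p ∈ Finset.HasAntidiagonal.antidiagonal n, F p.1 τ * G p.2 τ

private def cp' (F G : ℕ → ℂ → Matrix (Fin N) (Fin N) ℂ) (n : ℕ) (τ : ℂ) :
    Matrix (Fin N) (Fin N) ℂ :=
  ∑ p ∈ Finset.HasAntidiagonal.antidiagonal n, if p.1 = 0 then 0 else F p.1 τ * G p.2 τ

private theorem cp_eq (F G : ℕ → ℂ → Matrix (Fin N) (Fin N) ℂ) (n : ℕ) (τ : ℂ) :
    cp F G n τ = F 0 τ * G n τ + cp' F G n τ := by
  unfold cp cp'
  have h1 : ∀ p ∈ Finset.HasAntidiagonal.antidiagonal n, F p.1 τ * G p.2 τ =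
      (if p.1 = 0 then F 0 τ * G n τ else 0) + if p.1 = 0 then 0 else F p.1 τ * G p.2 τ := by
    intro p hp
    rw [Finset.HasAntidiagonal.mem_antidiagonal] at hp
    by_cases h : p.1 = 0
    · have h2 : p.2 = n := by omega
      rw [if_pos h, if_pos h, h, h2, add_zero]
    · rw [if_neg h, if_neg h, zero_add]
  rw [Finset.sum_congr rfl h1, Finset.sum_add_distrib]
  congr 1
  rw [Finset.sum_eq_single (0, n)]
  · rw [if_pos rfl]
  · intro p hp hne
    rw [Finset.HasAntidiagonal.mem_antidiagonal] at hp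
    rw [if_neg]
    intro h
    exact hne (Prod.ext h (by omega))
  · intro h
    exact absurd (Finset.HasAntidiagonal.mem_antidiagonal.2 (zero_add n)) h

/-- all entries of the coefficients up to `m` have bounds `B w_i` -/
private def MB (s : ℝ) (m : ℕ) (B : ℝ) (F : ℕ → ℂ → Matrix (Fin N) (Fin N) ℂ) : Prop :=
  ∀ i ≤ m, ∀ a b, Nag i (B * wN s i) (fun τ => F i τ a b)

private theorem cp_bound {s : ℝ} (hs : 0 < s) {B B' : ℝ} (hB : 0 ≤ B) (hB' : 0 ≤ B') {m : ℕ}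
    {F G : ℕ → ℂ → Matrix (Fin N) (Fin N) ℂ} (hF : MB s m B F) (hG : MB s m B' G) :
    MB s m (16 * N * B * B') (cp F G) := by
  intro i hi a b
  have h1 := ni_sum (fun k τ => ∑ p ∈ Finset.HasAntidiagonal.antidiagonal i,
      F p.1 τ a k * G p.2 τ k b) (n := i) (B := 16 * B * B' * wN s i) fun k =>
    nag_mul hs hB hB' (f := fun n τ => F n τ a k) (g := fun n τ => G n τ k b)
      (fun i' hi' => hF i' (hi'.trans hi) a k) (fun i' hi' => hG i' (hi'.trans hi) k b)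
  have h2 : 16 * N * B * B' * wN s i = N * (16 * B * B' * wN s i) := by ring
  rw [h2]
  refine ni_congr (fun τ _ => ?_) h1
  unfold cp
  rw [Matrix.sum_apply, Finset.sum_comm]
  rfl

private theorem cp'_bound {s : ℝ} (hs : 0 < s) {B B' : ℝ} (hB : 0 ≤ B) (hB' : 0 ≤ B') {i : ℕ}
    {F G : ℕ → ℂ → Matrix (Fin N) (Fin N) ℂ}
    (hF : ∀ i' ≤ i, 1 ≤ i' → ∀ a b, Nag i' (B * wN s i') (fun τ => F i' τ a b))
    (hG : ∀ i' < i, ∀ a b, Nag i' (B' * wN s i') (fun τ => G i' τ a b)) (a b : Fin N) :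
    Nag i (16 * N * B * B' * wN s i) (fun τ => cp' F G i τ a b) := by
  have h1 := ni_sum (fun k τ => ∑ p ∈ Finset.HasAntidiagonal.antidiagonal i,
      if p.1 = 0 then 0 else F p.1 τ a k * G p.2 τ k b) (n := i) (B := 16 * B * B' * wN s i)
    fun k => nag_mul' hs hB hB' (f := fun n τ => F n τ a k) (g := fun n τ => G n τ k b)
      (fun i' hi' h1 => hF i' hi' h1 a k) (fun i' hi' => hG i' hi' k b)
  have h2 : 16 * N * B * B' * wN s i = N * (16 * B * B' * wN s i) := by ring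
  rw [h2]
  refine ni_congr (fun τ _ => ?_) h1
  unfold cp'
  rw [Matrix.sum_apply, Finset.sum_comm]
  refine Finset.sum_congr rfl fun p _ => ?_
  by_cases h : p.1 = 0
  · simp only [h, if_true]
    exact Finset.sum_const_zero
  · simp only [h, if_false]
    rfl

/-- the coefficients of the powers -/
private noncomputable def Kp (K : ℕ → ℂ → Matrix (Fin N) (Fin N) ℂ) (j n : ℕ) (τ : ℂ) :
    Matrix (Fin N) (Fin N) ℂ :=
  PowerSeries.coeff n ((PowerSeries.mk fun i => K i τ) ^ j)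

private theorem Kp_zero (K : ℕ → ℂ → Matrix (Fin N) (Fin N) ℂ) (n : ℕ) (τ : ℂ) :
    Kp K 0 n τ = if n = 0 then 1 else 0 := by
  unfold Kp
  rw [pow_zero, PowerSeries.coeff_one]

private theorem Kp_succ (K : ℕ → ℂ → Matrix (Fin N) (Fin N) ℂ) (j n : ℕ) (τ : ℂ) :
    Kp K (j + 1) n τ = cp K (Kp K j) n τ := by
  unfold Kp cp
  rw [pow_succ', PowerSeries.coeff_mul]
  refine Finset.sum_congr rfl fun p _ => ?_
  rw [PowerSeries.coeff_mk]

private theorem Kp_at_zero (K : ℕ → ℂ → Matrix (Fin N) (Fin N) ℂ) (j : ℕ) (τ : ℂ) :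
    Kp K j 0 τ = K 0 τ ^ j := by
  unfold Kp
  rw [PowerSeries.coeff_zero_eq_constantCoeff_apply, map_pow,
    ← PowerSeries.coeff_zero_eq_constantCoeff_apply, PowerSeries.coeff_mk]

private theorem Kp_bound {s ε κ : ℝ} (hs : 0 < s) (hε : 0 ≤ ε) (hε1 : ε ≤ 1) (hκ : 1 ≤ κ)
    {m : ℕ} {K : ℕ → ℂ → Matrix (Fin N) (Fin N) ℂ}
    (hK0 : ∀ τ ∈ Metric.ball (0 : ℂ) 1, ∀ a b, ‖K 0 τ a b‖ ≤ κ)
    (hK : ∀ i ≤ m, 1 ≤ i → ∀ a b, Nag i (ε * wN s i) (fun τ => K i τ a b)) (j : ℕ) :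
    MB s m ((16 * ((N : ℝ) + 1) * κ) ^ j) (Kp K j) ∧
      ∀ i ≤ m, 1 ≤ i → ∀ a b, Nag i (j * (16 * ((N : ℝ) + 1) * κ) ^ j * ε * wN s i)
        (fun τ => Kp K j i τ a b) := by
  have hN : (0 : ℝ) ≤ N := Nat.cast_nonneg N
  obtain ⟨q, hq⟩ : ∃ q, q = 16 * ((N : ℝ) + 1) * κ := ⟨_, rfl⟩
  rw [← hq]
  have hq0 : 0 ≤ q := by
    rw [hq]
    positivity
  have hKB : MB s m κ K := by
    intro i hi a b
    rcases Nat.eq_zero_or_pos i with rfl | h1
    · intro τ hτ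
      rw [pow_zero, one_mul, ni_w_zero, mul_one]
      exact hK0 τ hτ a b
    · exact (hK i hi h1 a b).mono
        (mul_le_mul_of_nonneg_right (hε1.trans hκ) (ni_w_pos hs i).le)
  induction j with
  | zero =>
    constructor
    · intro i _ a b τ hτ
      show (1 - ‖τ‖) ^ i * ‖Kp K 0 i τ a b‖ ≤ _
      rw [Kp_zero, pow_zero, one_mul]
      rcases Nat.eq_zero_or_pos i with rfl | h1
      · rw [if_pos rfl, ni_w_zero, pow_zero, one_mul, Matrix.one_apply]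
        split_ifs
        · rw [norm_one]
        · rw [norm_zero]
          exact zero_le_one
      · rw [if_neg (by omega), Matrix.zero_apply, norm_zero, mul_zero]
        exact (ni_w_pos hs i).le
    · intro i _ h1 a b τ hτ
      show (1 - ‖τ‖) ^ i * ‖Kp K 0 i τ a b‖ ≤ _
      rw [Kp_zero, if_neg (by omega), Matrix.zero_apply, norm_zero, mul_zero, Nat.cast_zero,
        zero_mul, zero_mul, zero_mul]
  | succ j ih =>
    obtain ⟨ih1, ih2⟩ := ih
    have hqj : 0 ≤ q ^ j := pow_nonneg hq0 j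
    constructor
    · intro i hi a b
      have h1 := cp_bound hs (by linarith : (0 : ℝ) ≤ κ) hqj hKB ih1 i hi a b
      refine ni_congr (fun τ _ => ?_) (h1.mono ?_)
      · rw [Kp_succ]
      · refine mul_le_mul_of_nonneg_right ?_ (ni_w_pos hs i).le
        rw [pow_succ', hq]
        have h2 : 0 ≤ κ * (16 * ((N : ℝ) + 1) * κ) ^ j := by positivity
        nlinarith
    · intro i hi h1 a b
      have h2 : Nag i (N * (κ * (j * q ^ j * ε * wN s i)))
          (fun τ => ∑ k, K 0 τ a k * Kp K j i τ k b) :=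
        ni_sum (fun k τ => K 0 τ a k * Kp K j i τ k b) fun k =>
          ni_mulC (fun τ hτ => hK0 τ hτ a k) (ih2 i hi h1 k b)
      have h3 := cp'_bound hs hε hqj (i := i) (F := K) (G := Kp K j)
        (fun i' hi' h4 => hK i' (hi'.trans hi) h4) (fun i' hi' => ih1 i' (hi'.le.trans hi)) a b
      refine ni_congr (fun τ _ => ?_) ((h2.add h3).mono ?_)
      · rw [Kp_succ, cp_eq, Matrix.add_apply, Matrix.mul_apply]
      · have hw := (ni_w_pos hs i).le
        have hx : 0 ≤ q ^ j * ε * wN s i := by positivity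
        have hj : (0 : ℝ) ≤ j := Nat.cast_nonneg j
        have e1 : N * (κ * (j * q ^ j * ε * wN s i)) + 16 * N * ε * q ^ j * wN s i =
            (N * κ * j + 16 * N) * (q ^ j * ε * wN s i) := by ring
        have e2 : ((j + 1 : ℕ) : ℝ) * q ^ (j + 1) * ε * wN s i =
            ((j + 1) * q) * (q ^ j * ε * wN s i) := by
          push_cast
          ring
        rw [e1, e2]
        refine mul_le_mul_of_nonneg_right ?_ hx
        rw [hq]
        have h5 : 0 ≤ (N : ℝ) * κ * j := by positivity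
        have h6 : 0 ≤ κ * j := by positivity
        nlinarith

/-- the matrix with columns `K^j u` -/
private noncomputable def cols (K : ℕ → ℂ → Matrix (Fin N) (Fin N) ℂ) (u : Fin N → ℂ) (n : ℕ)
    (τ : ℂ) : Matrix (Fin N) (Fin N) ℂ :=
  Matrix.of fun a (j : Fin N) => (Kp K j n τ).mulVec u a

private theorem cols_entry {n : ℕ} {B : ℝ} {K : ℕ → ℂ → Matrix (Fin N) (Fin N) ℂ}
    {u : Fin N → ℂ} (hu : ∀ i, ‖u i‖ ≤ 1) {j : Fin N}
    (h : ∀ a b, Nag n B (fun τ => Kp K j n τ a b)) (a : Fin N) :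
    Nag n (N * B) (fun τ => cols K u n τ a j) := by
  have h1 : Nag n (N * (1 * B)) (fun τ => ∑ k, u k * Kp K j n τ a k) :=
    ni_sum (fun k τ => u k * Kp K j n τ a k) fun k => ni_mulC (fun τ _ => hu k) (h a k)
  rw [one_mul] at h1
  refine ni_congr (fun τ _ => ?_) h1
  show _ = ∑ k, Kp K j n τ a k * u k
  exact Finset.sum_congr rfl fun k _ => mul_comm _ _

private theorem cols_bound {s ε κ : ℝ} (hs : 0 < s) (hε : 0 ≤ ε) (hε1 : ε ≤ 1) (hκ : 1 ≤ κ)
    {m : ℕ} {K : ℕ → ℂ → Matrix (Fin N) (Fin N) ℂ}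
    (hK0 : ∀ τ ∈ Metric.ball (0 : ℂ) 1, ∀ a b, ‖K 0 τ a b‖ ≤ κ)
    (hK : ∀ i ≤ m, 1 ≤ i → ∀ a b, Nag i (ε * wN s i) (fun τ => K i τ a b)) {u : Fin N → ℂ}
    (hu : ∀ i, ‖u i‖ ≤ 1) :
    MB s m (((N : ℝ) + 1) * (16 * ((N : ℝ) + 1) * κ) ^ N) (cols K u) ∧
      ∀ i ≤ m, 1 ≤ i → ∀ a b,
        Nag i ((((N : ℝ) + 1) ^ 2 * (16 * ((N : ℝ) + 1) * κ) ^ N * ε) * wN s i)
          (fun τ => cols K u i τ a b) := by
  have hN : (0 : ℝ) ≤ N := Nat.cast_nonneg N
  obtain ⟨q, hq⟩ : ∃ q, q = 16 * ((N : ℝ) + 1) * κ := ⟨_, rfl⟩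
  have hq1 : 1 ≤ q := by
    rw [hq]
    nlinarith
  constructor
  · intro i hi a b
    obtain ⟨h1, _⟩ := Kp_bound hs hε hε1 hκ hK0 hK b
    refine (cols_entry hu (h1 i hi) a).mono ?_
    rw [← mul_assoc]
    refine mul_le_mul_of_nonneg_right ?_ (ni_w_pos hs i).le
    rw [← hq]
    exact mul_le_mul (by linarith) (pow_le_pow_right₀ hq1 b.2.le) (by positivity) (by positivity)
  · intro i hi hi1 a b
    obtain ⟨_, h1⟩ := Kp_bound hs hε hε1 hκ hK0 hK b
    refine (cols_entry hu (h1 i hi hi1) a).mono ?_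
    rw [← mul_assoc]
    refine mul_le_mul_of_nonneg_right ?_ (ni_w_pos hs i).le
    rw [← hq, ← mul_assoc]
    refine mul_le_mul_of_nonneg_right ?_ hε
    have h2 : ((b : ℕ) : ℝ) ≤ N := by exact_mod_cast b.2.le
    have h3 : q ^ (b : ℕ) ≤ q ^ N := pow_le_pow_right₀ hq1 b.2.le
    have h4 : 0 ≤ q ^ (b : ℕ) := by positivity
    calc (N : ℝ) * (((b : ℕ) : ℝ) * q ^ (b : ℕ)) ≤ N * (N * q ^ N) := by
          refine mul_le_mul_of_nonneg_left ?_ hN
          exact mul_le_mul h2 h3 h4 hN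
      _ ≤ ((N : ℝ) + 1) ^ 2 * q ^ N := by
          have h5 : 0 ≤ q ^ N := by positivity
          nlinarith

/-- the inverse series -/
private theorem exL (E : ℕ → Matrix (Fin N) (Fin N) ℂ) (hdet : (E 0).det ≠ 0) :
    ∃ L : ℕ → Matrix (Fin N) (Fin N) ℂ, PowerSeries.mk E * PowerSeries.mk L = 1 ∧
      L 0 = (E 0)⁻¹ ∧ ∀ n ≠ 0, L n = -((E 0)⁻¹ * ∑ p ∈ Finset.HasAntidiagonal.antidiagonal n,
        if p.1 = 0 then 0 else E p.1 * L p.2) := by
  have hu : IsUnit (E 0) := (Matrix.isUnit_iff_isUnit_det _).2 (isUnit_iff_ne_zero.2 hdet)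
  obtain ⟨u, hu⟩ := hu
  have hu' : ((u⁻¹ : (Matrix (Fin N) (Fin N) ℂ)ˣ) : Matrix (Fin N) (Fin N) ℂ) = (E 0)⁻¹ := by
    rw [Matrix.coe_units_inv, hu]
  refine ⟨fun n => PowerSeries.coeff n (PowerSeries.invOfUnit (PowerSeries.mk E) u), ?_, ?_, ?_⟩
  · have h1 : (PowerSeries.mk fun n => PowerSeries.coeff n
        (PowerSeries.invOfUnit (PowerSeries.mk E) u)) =
        PowerSeries.invOfUnit (PowerSeries.mk E) u := by
      ext1 n
      rw [PowerSeries.coeff_mk]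
    rw [h1]
    refine PowerSeries.mul_invOfUnit _ _ ?_
    rw [← PowerSeries.coeff_zero_eq_constantCoeff_apply, PowerSeries.coeff_mk, hu]
  · show PowerSeries.coeff 0 _ = _
    rw [PowerSeries.coeff_invOfUnit, if_pos rfl, hu']
  · intro n hn
    show PowerSeries.coeff n _ = _
    rw [PowerSeries.coeff_invOfUnit, if_neg hn, hu', neg_mul]
    congr 2
    refine Finset.sum_congr rfl fun p hp => ?_
    rw [Finset.HasAntidiagonal.mem_antidiagonal] at hp
    by_cases h : p.1 = 0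
    · rw [if_neg (by omega), if_pos h]
    · rw [if_pos (by omega), if_neg h, PowerSeries.coeff_mk]

/-- the solution of `P E = W` -/
private theorem sol {K P : ℕ → ℂ → Matrix (Fin N) (Fin N) ℂ} {e w : Fin N → ℂ} {τ : ℂ}
    (hcomm : ∀ n : ℕ, ∑ p ∈ Finset.HasAntidiagonal.antidiagonal n, P p.1 τ * K p.2 τ =
      ∑ p ∈ Finset.HasAntidiagonal.antidiagonal n, K p.1 τ * P p.2 τ)
    (hP : ∀ n : ℕ, (P n τ).mulVec e = if n = 0 then w else 0)
    {L : ℕ → ℂ → Matrix (Fin N) (Fin N) ℂ}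
    (hL : (PowerSeries.mk fun n => cols K e n τ) * (PowerSeries.mk fun n => L n τ) = 1)
    (n : ℕ) : P n τ = cp (cols K w) L n τ := by
  have h1 : Commute (PowerSeries.mk fun n => P n τ) (PowerSeries.mk fun n => K n τ) := by
    show _ = _
    ext1 n
    rw [PowerSeries.coeff_mul, PowerSeries.coeff_mul]
    simp only [PowerSeries.coeff_mk]
    exact hcomm n
  have h2 : (PowerSeries.mk fun n => P n τ) * (PowerSeries.mk fun n => cols K e n τ) =
      PowerSeries.mk fun n => cols K w n τ := by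
    ext1 n
    rw [PowerSeries.coeff_mul, PowerSeries.coeff_mk]
    simp only [PowerSeries.coeff_mk]
    ext a j
    have h3 := congrArg (PowerSeries.coeff n) (h1.pow_right (j : ℕ)).eq
    rw [PowerSeries.coeff_mul, PowerSeries.coeff_mul] at h3
    simp only [PowerSeries.coeff_mk] at h3
    have h4 := congrArg (fun X : Matrix (Fin N) (Fin N) ℂ => X.mulVec e a) h3
    simp only [Matrix.sum_mulVec, ← Matrix.mulVec_mulVec, Finset.sum_apply] at h4
    rw [Matrix.sum_apply]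
    have h5 : ∀ p ∈ Finset.HasAntidiagonal.antidiagonal n, (P p.1 τ * cols K e p.2 τ) a j =
        (P p.1 τ).mulVec ((PowerSeries.coeff p.2 ((PowerSeries.mk fun i => K i τ) ^ (j : ℕ))).mulVec
          e) a := fun p _ => rfl
    rw [Finset.sum_congr rfl h5, h4, Finset.sum_eq_single (n, 0)]
    · rw [hP, if_pos rfl]
      rfl
    · intro p hp hne
      rw [Finset.HasAntidiagonal.mem_antidiagonal] at hp
      rw [hP, if_neg, Matrix.mulVec_zero, Pi.zero_apply]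
      intro h
      exact hne (Prod.ext (by omega) h)
    · intro h
      exact absurd (Finset.HasAntidiagonal.mem_antidiagonal.2 (add_zero n)) h
  have h3 := congrArg (fun X => PowerSeries.coeff n (X * PowerSeries.mk fun n => L n τ)) h2
  simp only [mul_assoc, hL, mul_one] at h3
  rw [PowerSeries.coeff_mk, PowerSeries.coeff_mul] at h3
  simp only [PowerSeries.coeff_mk] at h3
  exact h3

theorem nagumo_ck (N : ℕ) (C₀ : ℝ) : ∃ A : ℝ, 0 < A ∧
    ∀ (K M P : ℕ → ℂ → Matrix (Fin N) (Fin N) ℂ) (e v w : Fin N → ℂ),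
      (∀ n i j, Differentiable ℂ fun τ => K n τ i j) →
      (∀ n i j, Differentiable ℂ fun τ => M n τ i j) →
      (∀ n i j, Differentiable ℂ fun τ => P n τ i j) →
      (∀ i, ‖e i‖ ≤ 1) → (∀ i, ‖v i‖ ≤ 1) → (∀ i, ‖w i‖ ≤ 1) →
      (∀ (n : ℕ) (τ : ℂ), ∑ p ∈ Finset.HasAntidiagonal.antidiagonal n, M p.1 τ * K p.2 τ =
        ∑ p ∈ Finset.HasAntidiagonal.antidiagonal n, K p.1 τ * M p.2 τ) →
      (∀ (n : ℕ) (τ : ℂ), ∑ p ∈ Finset.HasAntidiagonal.antidiagonal n, P p.1 τ * K p.2 τ =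
        ∑ p ∈ Finset.HasAntidiagonal.antidiagonal n, K p.1 τ * P p.2 τ) →
      (∀ (n : ℕ) (τ : ℂ), (M n τ).mulVec e = if n = 0 then v else 0) →
      (∀ (n : ℕ) (τ : ℂ), (P n τ).mulVec e = if n = 0 then w else 0) →
      (∀ (n : ℕ) (τ : ℂ) i j, ((n : ℂ) + 1) * K (n + 1) τ i j = deriv (fun τ => M n τ i j) τ) →
      (∀ τ : ℂ, ‖τ‖ < 1 → ∀ i j, ‖K 0 τ i j‖ ≤ C₀) →
      (∀ τ : ℂ, ‖τ‖ < 1 →
        (Matrix.of fun i (j : Fin N) => ((K 0 τ) ^ (j : ℕ)).mulVec e i).det ≠ 0 ∧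
        ∀ i j, ‖(Matrix.of fun i (j : Fin N) => ((K 0 τ) ^ (j : ℕ)).mulVec e i)⁻¹ i j‖ ≤ C₀) →
      ∀ n i j, ‖P n 0 i j‖ ≤ A ^ (n + 1) := by
  have hN : (0 : ℝ) ≤ N := Nat.cast_nonneg N
  obtain ⟨κ, hκ⟩ : ∃ κ, κ = |C₀| + 1 := ⟨_, rfl⟩
  have hκ1 : 1 ≤ κ := by
    rw [hκ]
    have := abs_nonneg C₀
    linarith
  have hκC : C₀ ≤ κ := by
    rw [hκ]
    have := le_abs_self C₀
    linarith
  obtain ⟨q, hq⟩ : ∃ q, q = 16 * ((N : ℝ) + 1) * κ := ⟨_, rfl⟩
  have hq1 : 1 ≤ q := by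
    rw [hq]
    nlinarith
  have hqN : 1 ≤ q ^ N := one_le_pow₀ hq1
  obtain ⟨c₁, hc₁⟩ : ∃ c₁, c₁ = ((N : ℝ) + 1) * q ^ N := ⟨_, rfl⟩
  obtain ⟨c₂, hc₂⟩ : ∃ c₂, c₂ = ((N : ℝ) + 1) ^ 2 * q ^ N := ⟨_, rfl⟩
  have hc₁1 : 1 ≤ c₁ := by
    rw [hc₁]
    nlinarith
  have hc₂1 : 1 ≤ c₂ := by
    rw [hc₂]
    have h1 : 1 ≤ ((N : ℝ) + 1) ^ 2 := by nlinarith
    nlinarith
  obtain ⟨ε, hε⟩ : ∃ ε, ε = (16 * ((N : ℝ) + 1) ^ 2 * κ * c₂)⁻¹ := ⟨_, rfl⟩
  have hden : 1 ≤ 16 * ((N : ℝ) + 1) ^ 2 * κ * c₂ := by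
    have h1 : 1 ≤ 16 * ((N : ℝ) + 1) ^ 2 := by nlinarith
    have h2 : 1 ≤ 16 * ((N : ℝ) + 1) ^ 2 * κ := one_le_mul_of_one_le_of_one_le h1 hκ1
    exact one_le_mul_of_one_le_of_one_le h2 hc₂1
  have hε0 : 0 < ε := by
    rw [hε]
    exact inv_pos.2 (by linarith)
  have hε1 : ε ≤ 1 := by
    rw [hε]
    exact inv_le_one_of_one_le₀ hden
  have hεd : 16 * ((N : ℝ) + 1) ^ 2 * κ * c₂ * ε = 1 := by
    rw [hε]
    exact mul_inv_cancel₀ (by linarith)
  obtain ⟨c₄, hc₄⟩ : ∃ c₄, c₄ = 16 * ((N : ℝ) + 1) * c₁ * κ := ⟨_, rfl⟩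
  have hc₄0 : 0 < c₄ := by
    rw [hc₄]
    positivity
  obtain ⟨s, hs⟩ : ∃ s, s = ε / (32 * c₄) := ⟨_, rfl⟩
  have hs0 : 0 < s := by
    rw [hs]
    positivity
  refine ⟨c₄ + s⁻¹, by positivity, ?_⟩
  intro K M P e v w hKd hMd hPd he hv hw hMK hPK hMe hPe hder hK0 hE0
  have hK0' : ∀ τ ∈ Metric.ball (0 : ℂ) 1, ∀ a b, ‖K 0 τ a b‖ ≤ κ := fun τ hτ a b =>
    (hK0 τ (mem_ball_zero_iff.1 hτ) a b).trans hκC
  have hE0' : ∀ τ, cols K e 0 τ =
      Matrix.of fun i (j : Fin N) => ((K 0 τ) ^ (j : ℕ)).mulVec e i := by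
    intro τ
    unfold cols
    simp only [Kp_at_zero]
  -- the inverse series
  have hLex : ∀ τ : ℂ, ∃ L : ℕ → Matrix (Fin N) (Fin N) ℂ, τ ∈ Metric.ball (0 : ℂ) 1 →
      (PowerSeries.mk fun n => cols K e n τ) * PowerSeries.mk L = 1 ∧
      L 0 = (cols K e 0 τ)⁻¹ ∧ ∀ n ≠ 0, L n = -((cols K e 0 τ)⁻¹ *
        ∑ p ∈ Finset.HasAntidiagonal.antidiagonal n,
          if p.1 = 0 then 0 else cols K e p.1 τ * L p.2) := by
    intro τ
    by_cases hτ : τ ∈ Metric.ball (0 : ℂ) 1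
    · obtain ⟨L, hL⟩ := exL (fun n => cols K e n τ) (by
        have h1 := (hE0 τ (mem_ball_zero_iff.1 hτ)).1
        rw [← hE0'] at h1
        exact h1)
      exact ⟨L, fun _ => hL⟩
    · exact ⟨fun _ => 0, fun h => absurd h hτ⟩
  choose L' hL' using hLex
  obtain ⟨L, hLdef⟩ : ∃ L : ℕ → ℂ → Matrix (Fin N) (Fin N) ℂ, L = fun n τ => L' τ n := ⟨_, rfl⟩
  have hL1 : ∀ τ ∈ Metric.ball (0 : ℂ) 1,
      (PowerSeries.mk fun n => cols K e n τ) * (PowerSeries.mk fun n => L n τ) = 1 := by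
    intro τ hτ
    rw [hLdef]
    exact (hL' τ hτ).1
  have hinv : ∀ τ ∈ Metric.ball (0 : ℂ) 1, ∀ a b, ‖(cols K e 0 τ)⁻¹ a b‖ ≤ κ := by
    intro τ hτ a b
    rw [hE0']
    exact ((hE0 τ (mem_ball_zero_iff.1 hτ)).2 a b).trans hκC
  -- the bounds which follow from those of `K`
  have hLbound : ∀ m : ℕ, (∀ i ≤ m, 1 ≤ i → ∀ a b, Nag i (ε * wN s i) (fun τ => K i τ a b)) →
      MB s m κ L := by
    intro m hm i
    induction i using Nat.strong_induction_on with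
    | _ i ih =>
      intro hi a b
      rcases Nat.eq_zero_or_pos i with rfl | h1
      · intro τ hτ
        rw [pow_zero, one_mul, ni_w_zero, mul_one, hLdef]
        dsimp only
        rw [(hL' τ hτ).2.1]
        exact hinv τ hτ a b
      · obtain ⟨_, hc⟩ := cols_bound hs0 hε0.le hε1 hκ1 hK0' hm he
        rw [← hq, ← hc₂] at hc
        have h2 : ∀ k, Nag i (16 * N * (c₂ * ε) * κ * wN s i)
            (fun τ => cp' (cols K e) L i τ k b) := fun k =>
          cp'_bound hs0 (by positivity) (by linarith) (fun i' hi' h3 => hc i' (hi'.trans hi) h3)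
            (fun i' hi' => ih i' hi' (hi'.le.trans hi)) k b
        have h3 : Nag i (N * (κ * (16 * N * (c₂ * ε) * κ * wN s i)))
            (fun τ => ∑ k, -((cols K e 0 τ)⁻¹ a k) * cp' (cols K e) L i τ k b) :=
          ni_sum (fun k τ => -((cols K e 0 τ)⁻¹ a k) * cp' (cols K e) L i τ k b) fun k =>
            ni_mulC (fun τ hτ => by
              rw [norm_neg]
              exact hinv τ hτ a k) (h2 k)
        refine ni_congr (fun τ hτ => ?_) (h3.mono ?_)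
        · have h4 : L i τ = -((cols K e 0 τ)⁻¹ * cp' (cols K e) L i τ) := by
            rw [hLdef]
            exact (hL' τ hτ).2.2 i (by omega)
          rw [h4, Matrix.neg_apply, Matrix.mul_apply, ← Finset.sum_neg_distrib]
          exact Finset.sum_congr rfl fun k _ => neg_mul _ _
        · have hw := (ni_w_pos hs0 i).le
          have e1 : N * (κ * (16 * N * (c₂ * ε) * κ * wN s i)) =
              (16 * (N : ℝ) ^ 2 * κ * c₂ * ε) * (κ * wN s i) := by ring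
          rw [e1]
          have h5 : 16 * (N : ℝ) ^ 2 * κ * c₂ * ε ≤ 1 := by
            rw [← hεd]
            have h6 : 0 ≤ κ * c₂ * ε := by positivity
            nlinarith
          have h7 : 0 ≤ κ * wN s i := by positivity
          nlinarith
  have hPbound : ∀ (m : ℕ), (∀ i ≤ m, 1 ≤ i → ∀ a b, Nag i (ε * wN s i) (fun τ => K i τ a b)) →
      ∀ (R : ℕ → ℂ → Matrix (Fin N) (Fin N) ℂ) (r : Fin N → ℂ), (∀ i, ‖r i‖ ≤ 1) →
      (∀ (n : ℕ) (τ : ℂ), ∑ p ∈ Finset.HasAntidiagonal.antidiagonal n, R p.1 τ * K p.2 τ =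
        ∑ p ∈ Finset.HasAntidiagonal.antidiagonal n, K p.1 τ * R p.2 τ) →
      (∀ (n : ℕ) (τ : ℂ), (R n τ).mulVec e = if n = 0 then r else 0) →
      MB s m c₄ R := by
    intro m hm R r hr hRK hRe i hi a b
    obtain ⟨hc, _⟩ := cols_bound hs0 hε0.le hε1 hκ1 hK0' hm hr
    rw [← hq, ← hc₁] at hc
    have h1 := cp_bound hs0 (by linarith : (0 : ℝ) ≤ c₁) (by linarith : (0 : ℝ) ≤ κ) hc
      (hLbound m hm) i hi a b
    refine ni_congr (fun τ hτ => ?_) (h1.mono ?_)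
    · rw [← sol (hRK · τ) (hRe · τ) (hL1 τ hτ) i]
    · refine mul_le_mul_of_nonneg_right ?_ (ni_w_pos hs0 i).le
      rw [hc₄]
      have h2 : 0 ≤ c₁ * κ := by positivity
      nlinarith
  have hKbound : ∀ m : ℕ, ∀ i ≤ m, 1 ≤ i → ∀ a b, Nag i (ε * wN s i) (fun τ => K i τ a b) := by
    intro m
    induction m with
    | zero =>
      intro i hi h1
      omega
    | succ m ih =>
      intro i hi h1 a b
      rcases Nat.lt_or_ge i (m + 1) with h2 | h2
      · exact ih i (by omega) h1 a b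
      · have h3 : i = m + 1 := by omega
        subst h3
        have h4 := hPbound m ih M v hv hMK hMe m le_rfl a b
        have h5 := nag_deriv (fun τ _ => (hMd m a b) τ) h4
        have hm0 : (0 : ℝ) < (m : ℝ) + 1 := by positivity
        have h6 : Nag (m + 1) (((m : ℝ) + 1)⁻¹ * (8 * (m + 1) * (c₄ * wN s m)))
            (fun τ => ((m : ℂ) + 1)⁻¹ * deriv (fun τ => M m τ a b) τ) :=
          ni_mulC (fun τ _ => by
            rw [norm_inv]
            refine le_of_eq (congrArg _ ?_)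
            have h7 : ((m : ℂ) + 1) = ((m + 1 : ℕ) : ℂ) := by push_cast; rfl
            rw [h7, Complex.norm_natCast]
            push_cast
            rfl) h5
        refine ni_congr (fun τ _ => ?_) (h6.mono ?_)
        · rw [← hder m τ a b, ← mul_assoc, inv_mul_cancel₀ (Nat.cast_add_one_ne_zero m), one_mul]
        · have h7 : ((m : ℝ) + 1)⁻¹ * (8 * (m + 1) * (c₄ * wN s m)) = 8 * c₄ * wN s m := by
            field_simp
          have h8 := ni_w_succ hs0 m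
          have h9 : 32 * c₄ * s = ε := by
            rw [hs]
            field_simp
          rw [h7, ← h9]
          nlinarith
  intro n i j
  have h1 := hPbound n (hKbound n) P w hw hPK hPe n le_rfl i j 0 (Metric.mem_ball_self one_pos)
  rw [norm_zero, sub_zero, one_pow, one_mul] at h1
  have h2 := ni_w_le hs0 n
  have h3 : 0 < s⁻¹ := inv_pos.2 hs0
  calc ‖P n 0 i j‖ ≤ c₄ * wN s n := h1
    _ ≤ c₄ * s⁻¹ ^ n := mul_le_mul_of_nonneg_left h2 hc₄0.le
    _ ≤ (c₄ + s⁻¹) * (c₄ + s⁻¹) ^ n := by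
        refine mul_le_mul (by linarith) (pow_le_pow_left₀ h3.le (by linarith) n) (by positivity)
          (by positivity)
    _ = (c₄ + s⁻¹) ^ (n + 1) := (pow_succ' _ _).symm

end Pool.Agent.DST
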