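import Mathlib

/-!
# DST-NNag: Nagumo norms

Only Mathlib. `D = ball 0 1 ⊂ ℂ`. We say that `f : ℂ → ℂ` has Nagumo bound `B` of order `n` if
`(1 - ‖τ‖)^n ‖f τ‖ ≤ B` for all `τ ∈ D`.

PLAN. `nag_deriv`: Let `τ ∈ D`, `ρ = (1 - ‖τ‖)/(n+1)`, so for `‖τ' - τ‖ = ρ`:
`1 - ‖τ'‖ ≥ (1 - ‖τ‖) n/(n+1)`, `‖f τ'‖ ≤ B (1-‖τ‖)^{-n} ((n+1)/n)^n ≤ e B (1 - ‖τ‖)^{-n}`
(`(1+1/n)^n ≤ e ≤ 3`; for `n = 0` the factor is `1`), and Cauchy's estimate
(`Complex.norm_deriv_le_of_forall_mem_sphere_norm_le`; for `n = 0` use radii `ρ' < ρ`, or use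
`ρ = (1-‖τ‖)/(n+2)` throughout, with another numerical constant; the statement has room: constant `8`)
gives `‖f' τ‖ ≤ 3 B (n+1) (1-‖τ‖)^{-n-1}`.
`conv_sq`: `∑_{i+j=n} 1/((i+1)²(j+1)²) ≤ 8/(n+1)²`: one of `i+1, j+1` is `≥ (n+2)/2`, so the sum is at most
`2 ∑_i 1/(i+1)² · 4/(n+2)² ≤ 2 · 2 · 4/(n+2)²`; `∑_{i≤n} 1/(i+1)² ≤ 2`; adjust: `16/(n+2)^2`; for the constant
`8` be careful or prove it with the constant `16` (the statement has `16`).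
`nag_mul`: if `f i` has bound `B w_i` of order `i` and `g j` bound `B' w_j` of order `j`
(`w_n = s^{-n}/(n+1)²`) then `∑_{i+j=n} f_i g_j` has bound `16 B B' w_n` of order `n`.
-/

open scoped BigOperators Topology
open Filter

namespace Pool.Agent.DST

/-- Nagumo bound of order `n` -/
def Nag (n : ℕ) (B : ℝ) (f : ℂ → ℂ) : Prop :=
  ∀ τ ∈ Metric.ball (0 : ℂ) 1, (1 - ‖τ‖) ^ n * ‖f τ‖ ≤ B

/-- the weights `s^{-n}/(n+1)²` -/
noncomputable def wN (s : ℝ) (n : ℕ) : ℝ := (s ^ n * ((n : ℝ) + 1) ^ 2)⁻¹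

theorem nag_deriv {n : ℕ} {B : ℝ} {f : ℂ → ℂ}
    (hf : ∀ τ ∈ Metric.ball (0 : ℂ) 1, DifferentiableAt ℂ f τ) (hB : Nag n B f) :
    Nag (n + 1) (8 * (n + 1) * B) (deriv f) := by
  intro τ hτ
  have hτ1 : ‖τ‖ < 1 := by simpa using hτ
  obtain ⟨a, ha⟩ : ∃ a : ℝ, a = 1 - ‖τ‖ := ⟨_, rfl⟩
  have ha0 : 0 < a := by rw [ha]; linarith
  have hn2 : (0 : ℝ) < (n : ℝ) + 2 := by positivity
  have hn1 : (0 : ℝ) < (n : ℝ) + 1 := by positivity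
  have hB0 : 0 ≤ B := le_trans (by rw [← ha]; positivity) (hB τ hτ)
  have hρ : 0 < a / ((n : ℝ) + 2) := div_pos ha0 hn2
  have hin : ∀ z ∈ Metric.closedBall τ (a / ((n : ℝ) + 2)),
      a * (((n : ℝ) + 1) / ((n : ℝ) + 2)) ≤ 1 - ‖z‖ := by
    intro z hz
    have h1 : ‖z - τ‖ ≤ a / ((n : ℝ) + 2) := by simpa [dist_eq_norm] using hz
    have h2 : ‖z‖ ≤ ‖τ‖ + ‖z - τ‖ := by
      calc ‖z‖ = ‖τ + (z - τ)‖ := by congr 1; ring
        _ ≤ _ := norm_add_le _ _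
    have h3 : a * (((n : ℝ) + 1) / ((n : ℝ) + 2)) = a - a / ((n : ℝ) + 2) := by
      field_simp
      ring
    rw [h3]
    linarith
  have hpos : 0 < a * (((n : ℝ) + 1) / ((n : ℝ) + 2)) := by positivity
  have hball : ∀ z ∈ Metric.closedBall τ (a / ((n : ℝ) + 2)), z ∈ Metric.ball (0 : ℂ) 1 := by
    intro z hz
    have h1 := hin z hz
    rw [mem_ball_zero_iff]
    linarith
  have hd : DiffContOnCl ℂ f (Metric.ball τ (a / ((n : ℝ) + 2))) := by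
    apply DifferentiableOn.diffContOnCl
    rw [closure_ball τ hρ.ne']
    exact fun z hz => (hf z (hball z hz)).differentiableWithinAt
  have hC : ∀ z ∈ Metric.sphere τ (a / ((n : ℝ) + 2)),
      ‖f z‖ ≤ B / (a * (((n : ℝ) + 1) / ((n : ℝ) + 2))) ^ n := by
    intro z hz
    have hz' := Metric.sphere_subset_closedBall hz
    have h1 := hB z (hball z hz')
    rw [le_div_iff₀ (by positivity), mul_comm]
    refine le_trans ?_ h1
    exact mul_le_mul_of_nonneg_right (pow_le_pow_left₀ hpos.le (hin z hz') n) (norm_nonneg _)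
  have h := Complex.norm_deriv_le_of_forall_mem_sphere_norm_le hρ hd hC
  have hexp : (((n : ℝ) + 2) / ((n : ℝ) + 1)) ^ (n + 1) ≤ 8 := by
    have h1 : ((n : ℝ) + 2) / ((n : ℝ) + 1) ≤ Real.exp (1 / ((n : ℝ) + 1)) := by
      have h2 := Real.add_one_le_exp (1 / ((n : ℝ) + 1))
      have h3 : ((n : ℝ) + 2) / ((n : ℝ) + 1) = 1 / ((n : ℝ) + 1) + 1 := by
        field_simp
        ring
      rw [h3]
      exact h2
    have h4 : (((n : ℝ) + 2) / ((n : ℝ) + 1)) ^ (n + 1) ≤ Real.exp (1 / ((n : ℝ) + 1)) ^ (n + 1) :=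
      pow_le_pow_left₀ (by positivity) h1 _
    have h5 : Real.exp (1 / ((n : ℝ) + 1)) ^ (n + 1) = Real.exp 1 := by
      rw [← Real.exp_nat_mul]
      congr 1
      push_cast
      field_simp
    rw [h5] at h4
    have h6 := Real.exp_one_lt_d9
    linarith
  have hmain : B / (a * (((n : ℝ) + 1) / ((n : ℝ) + 2))) ^ n / (a / ((n : ℝ) + 2)) =
      ((n : ℝ) + 1) * B * (((n : ℝ) + 2) / ((n : ℝ) + 1)) ^ (n + 1) / a ^ (n + 1) := by
    rw [mul_pow, div_pow, div_pow, pow_succ a n, pow_succ ((n : ℝ) + 2) n, pow_succ ((n : ℝ) + 1) n]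
    field_simp
  rw [hmain] at h
  rw [← ha]
  have ha1 : 0 < a ^ (n + 1) := by positivity
  rw [le_div_iff₀ ha1, mul_comm] at h
  refine h.trans ?_
  have h7 : ((n : ℝ) + 1) * B * (((n : ℝ) + 2) / ((n : ℝ) + 1)) ^ (n + 1) ≤
      ((n : ℝ) + 1) * B * 8 := mul_le_mul_of_nonneg_left hexp (by positivity)
  refine h7.trans (le_of_eq ?_)
  ring

private theorem sum_sq_le (n : ℕ) :
    ∑ i ∈ Finset.range (n + 1), (((i : ℝ) + 1) ^ 2)⁻¹ ≤ 2 - 1 / ((n : ℝ) + 1) := by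
  induction n with
  | zero => norm_num
  | succ n ih =>
    rw [Finset.sum_range_succ]
    push_cast
    have h1 : (0 : ℝ) < (n : ℝ) + 1 := by positivity
    have h2 : (((n : ℝ) + 1 + 1) ^ 2)⁻¹ ≤ 1 / ((n : ℝ) + 1) - 1 / ((n : ℝ) + 1 + 1) := by
      have h3 : 1 / ((n : ℝ) + 1) - 1 / ((n : ℝ) + 1 + 1) =
          (((n : ℝ) + 1) * ((n : ℝ) + 1 + 1))⁻¹ := by
        field_simp
        ring
      rw [h3]
      apply inv_anti₀ (by positivity)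
      nlinarith
    linarith

theorem conv_sq (n : ℕ) : ∑ p ∈ Finset.HasAntidiagonal.antidiagonal n,
    (((p.1 : ℝ) + 1) ^ 2 * ((p.2 : ℝ) + 1) ^ 2)⁻¹ ≤ 16 * (((n : ℝ) + 1) ^ 2)⁻¹ := by
  have h1 : ∀ p ∈ Finset.HasAntidiagonal.antidiagonal n,
      (((p.1 : ℝ) + 1) ^ 2 * ((p.2 : ℝ) + 1) ^ 2)⁻¹ ≤
        2 * (((n : ℝ) + 1) ^ 2)⁻¹ * ((((p.1 : ℝ) + 1) ^ 2)⁻¹ + (((p.2 : ℝ) + 1) ^ 2)⁻¹) := by
    intro p hp
    rw [Finset.HasAntidiagonal.mem_antidiagonal] at hp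
    have hn : (n : ℝ) = p.1 + p.2 := by exact_mod_cast hp.symm
    have ha : (0 : ℝ) < (p.1 : ℝ) + 1 := by positivity
    have hb : (0 : ℝ) < (p.2 : ℝ) + 1 := by positivity
    have hc : (0 : ℝ) < (n : ℝ) + 1 := by positivity
    obtain ⟨x, hx⟩ : ∃ x : ℝ, x = ((p.1 : ℝ) + 1)⁻¹ := ⟨_, rfl⟩
    obtain ⟨y, hy⟩ : ∃ y : ℝ, y = ((p.2 : ℝ) + 1)⁻¹ := ⟨_, rfl⟩
    obtain ⟨z, hz⟩ : ∃ z : ℝ, z = ((n : ℝ) + 1)⁻¹ := ⟨_, rfl⟩
    have hx0 : 0 < x := by rw [hx]; positivity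
    have hy0 : 0 < y := by rw [hy]; positivity
    have hz0 : 0 < z := by rw [hz]; positivity
    have hxy : x * y ≤ z * (x + y) := by
      have e1 : x + y = x * y * ((n : ℝ) + 2) := by
        rw [hx, hy, hn]
        field_simp
        ring
      rw [e1]
      have e2 : z * (x * y * ((n : ℝ) + 2)) = x * y * (z * ((n : ℝ) + 2)) := by ring
      rw [e2]
      have e3 : 1 ≤ z * ((n : ℝ) + 2) := by
        rw [hz, ← div_eq_inv_mul, le_div_iff₀ hc]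
        linarith
      have hxy0 : 0 ≤ x * y := by positivity
      calc x * y = x * y * 1 := (mul_one _).symm
        _ ≤ _ := mul_le_mul_of_nonneg_left e3 hxy0
    rw [mul_inv, ← inv_pow, ← inv_pow, ← inv_pow, ← hx, ← hy, ← hz]
    have h2 : (x * y) ^ 2 ≤ (z * (x + y)) ^ 2 := pow_le_pow_left₀ (by positivity) hxy 2
    have h3 : (x + y) ^ 2 ≤ 2 * (x ^ 2 + y ^ 2) := by nlinarith [sq_nonneg (x - y)]
    have h4 : z ^ 2 * (x + y) ^ 2 ≤ z ^ 2 * (2 * (x ^ 2 + y ^ 2)) :=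
      mul_le_mul_of_nonneg_left h3 (by positivity)
    nlinarith
  refine (Finset.sum_le_sum h1).trans ?_
  rw [← Finset.mul_sum, Finset.sum_add_distrib]
  have h2 : ∑ p ∈ Finset.HasAntidiagonal.antidiagonal n, (((p.1 : ℝ) + 1) ^ 2)⁻¹ =
      ∑ i ∈ Finset.range (n + 1), (((i : ℝ) + 1) ^ 2)⁻¹ :=
    Finset.Nat.sum_antidiagonal_eq_sum_range_succ_mk
      (fun p : ℕ × ℕ => (((p.1 : ℝ) + 1) ^ 2)⁻¹) n
  have h3 : ∑ p ∈ Finset.HasAntidiagonal.antidiagonal n, (((p.2 : ℝ) + 1) ^ 2)⁻¹ =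
      ∑ p ∈ Finset.HasAntidiagonal.antidiagonal n, (((p.1 : ℝ) + 1) ^ 2)⁻¹ :=
    (Finset.Nat.sum_antidiagonal_swap (f := fun p : ℕ × ℕ => (((p.2 : ℝ) + 1) ^ 2)⁻¹)).symm
  rw [h3, h2]
  have h4 := sum_sq_le n
  have h5 : (0 : ℝ) < 1 / ((n : ℝ) + 1) := by positivity
  have h6 : (0 : ℝ) < (((n : ℝ) + 1) ^ 2)⁻¹ := by positivity
  nlinarith

theorem nag_mul {s : ℝ} (hs : 0 < s) {B B' : ℝ} (hB : 0 ≤ B) (hB' : 0 ≤ B') {n : ℕ}
    {f g : ℕ → ℂ → ℂ} (hf : ∀ i ≤ n, Nag i (B * wN s i) (f i))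
    (hg : ∀ i ≤ n, Nag i (B' * wN s i) (g i)) :
    Nag n (16 * B * B' * wN s n) fun τ => ∑ p ∈ Finset.HasAntidiagonal.antidiagonal n, f p.1 τ * g p.2 τ := by
  intro τ hτ
  have hτ1 : ‖τ‖ < 1 := by simpa using hτ
  have ha0 : 0 < 1 - ‖τ‖ := by linarith
  have h1 : ∀ p ∈ Finset.HasAntidiagonal.antidiagonal n,
      (1 - ‖τ‖) ^ n * ‖f p.1 τ * g p.2 τ‖ ≤
        B * B' * (s ^ n)⁻¹ * (((p.1 : ℝ) + 1) ^ 2 * ((p.2 : ℝ) + 1) ^ 2)⁻¹ := by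
    intro p hp
    rw [Finset.HasAntidiagonal.mem_antidiagonal] at hp
    have h2 := hf p.1 (by omega) τ hτ
    have h3 := hg p.2 (by omega) τ hτ
    have h4 : (1 - ‖τ‖) ^ n * ‖f p.1 τ * g p.2 τ‖ =
        ((1 - ‖τ‖) ^ p.1 * ‖f p.1 τ‖) * ((1 - ‖τ‖) ^ p.2 * ‖g p.2 τ‖) := by
      rw [norm_mul, ← hp, pow_add]
      ring
    rw [h4]
    refine (mul_le_mul h2 h3 (by positivity) ?_).trans (le_of_eq ?_)
    · unfold wN
      positivity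
    · unfold wN
      rw [← hp, pow_add]
      rw [mul_inv, mul_inv, mul_inv, mul_inv]
      ring
  calc (1 - ‖τ‖) ^ n * ‖∑ p ∈ Finset.HasAntidiagonal.antidiagonal n, f p.1 τ * g p.2 τ‖
      ≤ (1 - ‖τ‖) ^ n * ∑ p ∈ Finset.HasAntidiagonal.antidiagonal n, ‖f p.1 τ * g p.2 τ‖ :=
        mul_le_mul_of_nonneg_left (norm_sum_le _ _) (by positivity)
    _ = ∑ p ∈ Finset.HasAntidiagonal.antidiagonal n, (1 - ‖τ‖) ^ n * ‖f p.1 τ * g p.2 τ‖ :=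
        Finset.mul_sum _ _ _
    _ ≤ ∑ p ∈ Finset.HasAntidiagonal.antidiagonal n,
          B * B' * (s ^ n)⁻¹ * (((p.1 : ℝ) + 1) ^ 2 * ((p.2 : ℝ) + 1) ^ 2)⁻¹ :=
        Finset.sum_le_sum h1
    _ = B * B' * (s ^ n)⁻¹ * ∑ p ∈ Finset.HasAntidiagonal.antidiagonal n,
          (((p.1 : ℝ) + 1) ^ 2 * ((p.2 : ℝ) + 1) ^ 2)⁻¹ := (Finset.mul_sum _ _ _).symm
    _ ≤ B * B' * (s ^ n)⁻¹ * (16 * (((n : ℝ) + 1) ^ 2)⁻¹) :=
        mul_le_mul_of_nonneg_left (conv_sq n) (by positivity)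
    _ = 16 * B * B' * wN s n := by
        unfold wN
        rw [mul_inv]
        ring

/-- the same when the `i = 0` term of `f` is left out: only the bounds of `f i`, `1 ≤ i ≤ n`, and
of `g j`, `j < n`, are used -/
theorem nag_mul' {s : ℝ} (hs : 0 < s) {B B' : ℝ} (hB : 0 ≤ B) (hB' : 0 ≤ B') {n : ℕ}
    {f g : ℕ → ℂ → ℂ} (hf : ∀ i ≤ n, 1 ≤ i → Nag i (B * wN s i) (f i))
    (hg : ∀ i < n, Nag i (B' * wN s i) (g i)) :
    Nag n (16 * B * B' * wN s n) fun τ => ∑ p ∈ Finset.HasAntidiagonal.antidiagonal n,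
      if p.1 = 0 then 0 else f p.1 τ * g p.2 τ := by
  have hw : ∀ i, 0 ≤ wN s i := by
    intro i
    unfold wN
    positivity
  have h := nag_mul (n := n) hs hB hB' (f := fun i τ => if i = 0 then 0 else f i τ)
    (g := fun j τ => if j < n then g j τ else 0) (by
      intro i hi τ hτ
      show (1 - ‖τ‖) ^ i * ‖if i = 0 then 0 else f i τ‖ ≤ _
      by_cases h0 : i = 0
      · rw [if_pos h0, norm_zero, mul_zero]
        exact mul_nonneg hB (hw i)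
      · rw [if_neg h0]
        exact hf i hi (by omega) τ hτ) (by
      intro j hj τ hτ
      show (1 - ‖τ‖) ^ j * ‖if j < n then g j τ else 0‖ ≤ _
      by_cases h0 : j < n
      · rw [if_pos h0]
        exact hg j h0 τ hτ
      · rw [if_neg h0, norm_zero, mul_zero]
        exact mul_nonneg hB' (hw j))
  have he : (fun τ => ∑ p ∈ Finset.HasAntidiagonal.antidiagonal n,
      if p.1 = 0 then 0 else f p.1 τ * g p.2 τ) =
      fun τ => ∑ p ∈ Finset.HasAntidiagonal.antidiagonal n,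
        (if p.1 = 0 then 0 else f p.1 τ) * (if p.2 < n then g p.2 τ else 0) := by
    funext τ
    refine Finset.sum_congr rfl fun p hp => ?_
    rw [Finset.HasAntidiagonal.mem_antidiagonal] at hp
    by_cases h0 : p.1 = 0
    · rw [if_pos h0, if_pos h0, zero_mul]
    · rw [if_neg h0, if_neg h0, if_pos (by omega)]
  rw [he]
  exact h

theorem Nag.add {n : ℕ} {B B' : ℝ} {f g : ℂ → ℂ} (hf : Nag n B f) (hg : Nag n B' g) :
    Nag n (B + B') (fun τ => f τ + g τ) := by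
  intro τ hτ
  have hτ1 : ‖τ‖ < 1 := by simpa using hτ
  have ha0 : 0 < 1 - ‖τ‖ := by linarith
  calc (1 - ‖τ‖) ^ n * ‖f τ + g τ‖ ≤ (1 - ‖τ‖) ^ n * (‖f τ‖ + ‖g τ‖) :=
        mul_le_mul_of_nonneg_left (norm_add_le _ _) (by positivity)
    _ = (1 - ‖τ‖) ^ n * ‖f τ‖ + (1 - ‖τ‖) ^ n * ‖g τ‖ := mul_add _ _ _
    _ ≤ B + B' := add_le_add (hf τ hτ) (hg τ hτ)

theorem Nag.mono {n : ℕ} {B B' : ℝ} {f : ℂ → ℂ} (hf : Nag n B f) (h : B ≤ B') : Nag n B' f :=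
  fun τ hτ => (hf τ hτ).trans h

end Pool.Agent.DST
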