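import Pool.Agent.DST.VLDefs

/-!
# DST-VLine: restriction of power series to rays

The coefficient of `s^n` of the restriction to the ray `s v` is `∑_{|m| = n} v^m f_m`.
-/

open scoped BigOperators Topology
open Filter

namespace Pool.Agent.DST

variable {N : ℕ} {R R' : Type} [CommRing R] [Algebra ℂ R] [CommRing R'] [Algebra ℂ R']
  (v : Fin N → ℂ)

private noncomputable def vmw (v : Fin N → ℂ) (m : Fin N →₀ ℕ) : ℂ := ∏ i, v i ^ m i

private theorem vmw_zero (v : Fin N → ℂ) : vmw v 0 = 1 := by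
  unfold vmw
  exact Finset.prod_eq_one fun i _ => by rw [Finsupp.zero_apply, pow_zero]

private theorem vmw_add (v : Fin N → ℂ) (m m' : Fin N →₀ ℕ) :
    vmw v (m + m') = vmw v m * vmw v m' := by
  unfold vmw
  rw [← Finset.prod_mul_distrib]
  exact Finset.prod_congr rfl fun i _ => by rw [Finsupp.add_apply, pow_add]

private theorem vmw_single (v : Fin N → ℂ) (i : Fin N) : vmw v (Finsupp.single i 1) = v i := by
  unfold vmw
  rw [Finset.prod_eq_single i]
  · rw [Finsupp.single_eq_same, pow_one]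
  · intro j _ hj
    rw [Finsupp.single_eq_of_ne hj, pow_zero]
  · intro h
    exact absurd (Finset.mem_univ i) h

private theorem vmem_fa (m : Fin N →₀ ℕ) (k : ℕ) :
    m ∈ Finset.finsuppAntidiag Finset.univ k ↔ ∑ i, m i = k := by
  rw [Finset.mem_finsuppAntidiag]
  exact ⟨fun h => h.1, fun h => ⟨h, Finset.subset_univ _⟩⟩

private theorem vcoeff (f : MvPowerSeries (Fin N) R) (n : ℕ) :
    PowerSeries.coeff n (lineF v f) =
      ∑ m ∈ Finset.finsuppAntidiag Finset.univ n, vmw v m • MvPowerSeries.coeff m f := by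
  rw [lineF, PowerSeries.coeff_mk]
  rfl

private theorem vmul_aux (f g : MvPowerSeries (Fin N) R) (k : ℕ) :
    ∑ m ∈ Finset.finsuppAntidiag Finset.univ k, vmw v m • MvPowerSeries.coeff m (f * g) =
      ∑ p ∈ Finset.HasAntidiagonal.antidiagonal k,
        (∑ m ∈ Finset.finsuppAntidiag Finset.univ p.1, vmw v m • MvPowerSeries.coeff m f) *
        (∑ m ∈ Finset.finsuppAntidiag Finset.univ p.2, vmw v m • MvPowerSeries.coeff m g) := by
  have h1 : ∀ m : Fin N →₀ ℕ, vmw v m • MvPowerSeries.coeff m (f * g) =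
      ∑ p ∈ Finset.HasAntidiagonal.antidiagonal m, (vmw v p.1 • MvPowerSeries.coeff p.1 f) *
        (vmw v p.2 • MvPowerSeries.coeff p.2 g) := by
    intro m
    rw [MvPowerSeries.coeff_mul, Finset.smul_sum]
    refine Finset.sum_congr rfl fun p hp => ?_
    rw [← Finset.HasAntidiagonal.mem_antidiagonal.1 hp, vmw_add, smul_mul_smul_comm]
  have h2 : ∀ p : ℕ × ℕ,
      (∑ m ∈ Finset.finsuppAntidiag Finset.univ p.1, vmw v m • MvPowerSeries.coeff m f) *
        (∑ m ∈ Finset.finsuppAntidiag Finset.univ p.2, vmw v m • MvPowerSeries.coeff m g) =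
      ∑ q ∈ (Finset.finsuppAntidiag Finset.univ p.1 : Finset (Fin N →₀ ℕ)) ×ˢ
        (Finset.finsuppAntidiag Finset.univ p.2 : Finset (Fin N →₀ ℕ)),
        (vmw v q.1 • MvPowerSeries.coeff q.1 f) * (vmw v q.2 • MvPowerSeries.coeff q.2 g) := by
    intro p
    rw [Finset.sum_mul_sum, Finset.sum_product]
  simp only [h1, h2]
  rw [Finset.sum_sigma', Finset.sum_sigma']
  refine Finset.sum_nbij' (fun x => ⟨(∑ i, x.2.1 i, ∑ i, x.2.2 i), x.2⟩)
    (fun x => ⟨x.2.1 + x.2.2, x.2⟩) ?_ ?_ ?_ ?_ ?_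
  · rintro ⟨m, a, b⟩ h
    rw [Finset.mem_sigma] at h ⊢
    have h3 := Finset.HasAntidiagonal.mem_antidiagonal.1 h.2
    have h4 := (vmem_fa m k).1 h.1
    refine ⟨Finset.HasAntidiagonal.mem_antidiagonal.2 ?_, Finset.mem_product.2 ⟨(vmem_fa _ _).2 rfl,
      (vmem_fa _ _).2 rfl⟩⟩
    show ∑ i, a i + ∑ i, b i = k
    rw [← Finset.sum_add_distrib, ← h4]
    exact Finset.sum_congr rfl fun i _ => by
      rw [← Finsupp.add_apply]
      exact congrArg (fun z : Fin N →₀ ℕ => z i) h3
  · rintro ⟨p, a, b⟩ h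
    rw [Finset.mem_sigma] at h ⊢
    have h3 := Finset.mem_product.1 h.2
    have h4 := (vmem_fa _ _).1 h3.1
    have h5 := (vmem_fa _ _).1 h3.2
    have h6 := Finset.HasAntidiagonal.mem_antidiagonal.1 h.1
    refine ⟨(vmem_fa _ _).2 ?_, Finset.HasAntidiagonal.mem_antidiagonal.2 rfl⟩
    show ∑ i, (a + b) i = k
    rw [← h6]
    show ∑ i, (a + b) i = p.1 + p.2
    rw [← h4, ← h5, ← Finset.sum_add_distrib]
    exact Finset.sum_congr rfl fun i _ => by rw [Finsupp.add_apply]
  · rintro ⟨m, a, b⟩ h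
    rw [Finset.mem_sigma] at h
    have h3 : a + b = m := Finset.HasAntidiagonal.mem_antidiagonal.1 h.2
    subst h3
    rfl
  · rintro ⟨⟨p, q⟩, a, b⟩ h
    rw [Finset.mem_sigma] at h
    have h3 := Finset.mem_product.1 h.2
    have h4 : ∑ i, a i = p := (vmem_fa _ _).1 h3.1
    have h5 : ∑ i, b i = q := (vmem_fa _ _).1 h3.2
    subst h4
    subst h5
    rfl
  · rintro ⟨m, a, b⟩ h
    rfl

omit [Algebra ℂ R] in
private theorem vshift_aux (F : (Fin N →₀ ℕ) → R) (i : Fin N) (k : ℕ) :
    ∑ m ∈ Finset.finsuppAntidiag Finset.univ (k + 1), F m * (m i : R) =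
      ∑ m ∈ Finset.finsuppAntidiag Finset.univ k,
        F (m + Finsupp.single i 1) * ((m i : R) + 1) := by
  classical
  have h1 : ∑ m ∈ Finset.finsuppAntidiag Finset.univ (k + 1), F m * (m i : R) =
      ∑ m ∈ (Finset.finsuppAntidiag Finset.univ (k + 1)).filter (fun m : Fin N →₀ ℕ => m i ≠ 0),
        F m * (m i : R) := by
    rw [Finset.sum_filter]
    refine Finset.sum_congr rfl fun m _ => ?_
    by_cases h : m i = 0
    · rw [if_neg (not_not.2 h), h, Nat.cast_zero, mul_zero]
    · rw [if_pos h]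
  rw [h1]
  symm
  have hs : ∀ m : Fin N →₀ ℕ, ∑ j, (m + Finsupp.single i 1 : Fin N →₀ ℕ) j = ∑ j, m j + 1 := by
    intro m
    have h2 : ∀ j, (m + Finsupp.single i 1 : Fin N →₀ ℕ) j = m j + if j = i then 1 else 0 := by
      intro j
      rw [Finsupp.add_apply, Finsupp.single_apply]
      by_cases h : i = j
      · rw [if_pos h, if_pos h.symm]
      · rw [if_neg h, if_neg (fun h' => h h'.symm)]
    rw [Finset.sum_congr rfl (fun j _ => h2 j), Finset.sum_add_distrib, Finset.sum_ite_eq',
      if_pos (Finset.mem_univ i)]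
  refine Finset.sum_nbij' (fun m => m + Finsupp.single i 1) (fun m => m - Finsupp.single i 1)
    ?_ ?_ ?_ ?_ ?_
  · intro m hm
    rw [Finset.mem_filter]
    refine ⟨(vmem_fa _ _).2 ?_, ?_⟩
    · rw [hs, (vmem_fa _ _).1 hm]
    · rw [Finsupp.add_apply, Finsupp.single_eq_same]
      exact Nat.succ_ne_zero _
  · intro m hm
    rw [Finset.mem_filter] at hm
    have h2 : m - Finsupp.single i 1 + Finsupp.single i 1 = m := by
      apply tsub_add_cancel_of_le
      rw [Finsupp.single_le_iff]
      exact Nat.one_le_iff_ne_zero.2 hm.2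
    refine (vmem_fa _ _).2 ?_
    have h3 := hs (m - Finsupp.single i 1)
    rw [h2, (vmem_fa _ _).1 hm.1] at h3
    omega
  · intro m _
    exact add_tsub_cancel_right _ _
  · intro m hm
    rw [Finset.mem_filter] at hm
    apply tsub_add_cancel_of_le
    rw [Finsupp.single_le_iff]
    exact Nat.one_le_iff_ne_zero.2 hm.2
  · intro m _
    show _ = _ * (((m + Finsupp.single i 1 : Fin N →₀ ℕ) i : ℕ) : R)
    rw [Finsupp.add_apply, Finsupp.single_eq_same, Nat.cast_add, Nat.cast_one]

theorem lineF_add (f g : MvPowerSeries (Fin N) R) :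
    lineF v (f + g) = lineF v f + lineF v g := by
  ext n
  rw [map_add, vcoeff, vcoeff, vcoeff, ← Finset.sum_add_distrib]
  exact Finset.sum_congr rfl fun m _ => by rw [map_add, smul_add]

theorem lineF_mul (f g : MvPowerSeries (Fin N) R) :
    lineF v (f * g) = lineF v f * lineF v g := by
  ext n
  rw [PowerSeries.coeff_mul, vcoeff, vmul_aux]
  exact Finset.sum_congr rfl fun p _ => by rw [vcoeff, vcoeff]

theorem lineF_C (a : R) : lineF v (MvPowerSeries.C a) = PowerSeries.C a := by
  ext k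
  rw [vcoeff, PowerSeries.coeff_C]
  by_cases hk : k = 0
  · subst hk
    rw [if_pos rfl, Finset.sum_eq_single 0]
    · rw [MvPowerSeries.coeff_C, if_pos rfl, vmw_zero, one_smul]
    · intro m hm hm0
      rw [MvPowerSeries.coeff_C, if_neg hm0, smul_zero]
    · intro h
      exact absurd ((vmem_fa _ _).2 (by simp)) h
  · rw [if_neg hk]
    refine Finset.sum_eq_zero fun m hm => ?_
    rw [MvPowerSeries.coeff_C, if_neg, smul_zero]
    rintro rfl
    exact hk (by rw [← (vmem_fa _ _).1 hm]; simp)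

theorem lineF_sum {ι : Type} (s : Finset ι) (f : ι → MvPowerSeries (Fin N) R) :
    lineF v (∑ i ∈ s, f i) = ∑ i ∈ s, lineF v (f i) := by
  ext n
  rw [map_sum, vcoeff]
  simp_rw [vcoeff, map_sum, Finset.smul_sum]
  rw [Finset.sum_comm]

/-- as a ring homomorphism -/
noncomputable def lineH (R : Type) [CommRing R] [Algebra ℂ R] (v : Fin N → ℂ) :
    MvPowerSeries (Fin N) R →+* PowerSeries R where
  toFun := lineF v
  map_one' := by
    have := lineF_C v (1 : R)
    rwa [map_one, map_one] at this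
  map_mul' := lineF_mul v
  map_zero' := by
    have := lineF_C v (0 : R)
    rwa [map_zero, map_zero] at this
  map_add' := lineF_add v

theorem lineF_X (i : Fin N) : lineF v (MvPowerSeries.X i : MvPowerSeries (Fin N) R) =
    PowerSeries.C (algebraMap ℂ R (v i)) * PowerSeries.X := by
  ext k
  rw [vcoeff, PowerSeries.coeff_C_mul, PowerSeries.coeff_X]
  by_cases hk : k = 1
  · subst hk
    rw [if_pos rfl, mul_one, Finset.sum_eq_single (Finsupp.single i 1)]
    · rw [MvPowerSeries.coeff_X, if_pos rfl, vmw_single, Algebra.algebraMap_eq_smul_one]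
    · intro m _ hm
      rw [MvPowerSeries.coeff_X, if_neg hm, smul_zero]
    · intro h
      refine absurd ((vmem_fa _ _).2 ?_) h
      rw [Finset.sum_eq_single i]
      · rw [Finsupp.single_eq_same]
      · intro j _ hj
        rw [Finsupp.single_eq_of_ne hj]
      · intro h'
        exact absurd (Finset.mem_univ i) h'
  · rw [if_neg hk, mul_zero]
    refine Finset.sum_eq_zero fun m hm => ?_
    rw [MvPowerSeries.coeff_X, if_neg, smul_zero]
    rintro rfl
    apply hk
    rw [← (vmem_fa _ _).1 hm, Finset.sum_eq_single i]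
    · rw [Finsupp.single_eq_same]
    · intro j _ hj
      rw [Finsupp.single_eq_of_ne hj]
    · intro h'
      exact absurd (Finset.mem_univ i) h'

theorem lineF_const (f : MvPowerSeries (Fin N) R) :
    PowerSeries.constantCoeff (lineF v f) = MvPowerSeries.constantCoeff f := by
  rw [← PowerSeries.coeff_zero_eq_constantCoeff_apply, vcoeff, Finset.sum_eq_single 0]
  · rw [vmw_zero, one_smul]
    rfl
  · intro m hm hm0
    exfalso
    apply hm0
    have h1 := (vmem_fa _ _).1 hm
    ext i
    rw [Finset.sum_eq_zero_iff] at h1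
    exact h1 i (Finset.mem_univ i)
  · intro h
    exact absurd ((vmem_fa _ _).2 (by simp)) h

theorem lineF_pderiv (f : MvPowerSeries (Fin N) R) :
    PowerSeries.derivative R (lineF v f) =
      ∑ i, PowerSeries.C (algebraMap ℂ R (v i)) * lineF v (MvPowerSeries.pderiv R i f) := by
  ext k
  rw [PowerSeries.coeff_derivative, vcoeff, map_sum]
  have h1 : ∀ i, PowerSeries.coeff k (PowerSeries.C (algebraMap ℂ R (v i)) *
      lineF v (MvPowerSeries.pderiv R i f)) =
      ∑ m ∈ Finset.finsuppAntidiag Finset.univ (k + 1),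
        (vmw v m • MvPowerSeries.coeff m f) * (m i : R) := by
    intro i
    rw [PowerSeries.coeff_C_mul, vcoeff, vshift_aux, Finset.mul_sum]
    refine Finset.sum_congr rfl fun m _ => ?_
    rw [MvPowerSeries.coeff_pderiv, vmw_add, vmw_single]
    simp only [Algebra.smul_def, map_mul]
    ring
  rw [Finset.sum_congr rfl (fun i _ => h1 i), Finset.sum_comm, Finset.sum_mul]
  refine Finset.sum_congr rfl fun m hm => ?_
  rw [← Finset.mul_sum, ← Nat.cast_sum, (vmem_fa _ _).1 hm, Nat.cast_add, Nat.cast_one]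

theorem lineF_map (φ : R →+* R') (hφ : ∀ z : ℂ, φ (algebraMap ℂ R z) = algebraMap ℂ R' z)
    (f : MvPowerSeries (Fin N) R) :
    PowerSeries.map φ (lineF v f) = lineF v (MvPowerSeries.map φ f) := by
  ext n
  rw [PowerSeries.coeff_map, vcoeff, vcoeff, map_sum]
  refine Finset.sum_congr rfl fun m _ => ?_
  rw [MvPowerSeries.coeff_map, Algebra.smul_def, Algebra.smul_def, map_mul, hφ]

theorem lineF_lam (f : MvPowerSeries (Fin N) (Polynomial ℂ)) :
    lamD (lineF v f) = lineF v (lamMv f) := by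
  ext n : 1
  rw [lamD, PowerSeries.coeff_mk, vcoeff, vcoeff, Polynomial.derivative_sum, Finset.mul_sum]
  refine Finset.sum_congr rfl fun m _ => ?_
  rw [Polynomial.derivative_smul, mul_smul_comm]
  rfl

end Pool.Agent.DST
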