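import Pool.Agent.DST.VAlg
import Pool.Agent.DST.VLine
import Pool.Agent.DST.NInd

/-!
# DST-NRel: the relations for multiplication by `c_1` and by `v` along the ray, as functions of `τ`

Notation: `tc t τ = t + τ chern ∈ H^2(X)`; `lam = x` a complex number;
`Pc T t x v a n τ` = the value at `λ = x` of the coefficient of `s^n` of multiplication by `φ_a` at the
point `tc t τ + s v`. `Kc = ∑ b, chern b • Pc b`, `Mcc = ∑ a, v a • Pc a`.

PLAN. `tc_deg`: `chern i ≠ 0 → deg i = 1`. `Pc_diff`: `corrAt T (tc t τ) s` is a FINITE sum over `β` (dimension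
axiom, `c1_finite`; the same finite set for all `τ`) of `exp(∑ t_i period β i) exp(τ c1 β) invT β s`
(`chern_period`), so it is an entire function of `τ` (values and coefficients), and so are the finite sums
built from it. `Pc_comm`: apply `lineH` to `mulAt_comm`, take coefficients (`PowerSeries.coeff_mul`) and evaluate
at `λ = x`; bilinearity for `Kc`, `Mcc`. `Pc_unit`: `mulAt_unit`: the column `one` of `mulAt a` is the constant
`δ_{ka}`; `e = Pi.single X.one 1`. `Kc_deriv`: `(n+1) Kc (n+1) = d/dτ Mcc n`: coefficient of `s^n` of the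
`s`-derivative of `lineF v (∑ b, chern b • mulAt b)`: by `lineF_pderiv` and `mulAt_pderiv` it is the coefficient of
`lineF v (∑_a v_a ∑_b chern_b ∂_b mulAt a)`, and `∑_b chern_b ∂_b` multiplies the `β`-term of `serAt` by `c1 β`
(`divisorT`, `degree_zeroT`, as in `mulAt_euler`), which is the derivative in `τ` of the weight
`exp(τ c1 β)` (`T.pairT⁻¹` does not depend on `τ`).
-/

open scoped BigOperators Topology
open Filter

namespace Pool.Agent.DST

open Pool.Agent.Helper18.Dub Pool.Agent.Helper7.DubStokes Pool.Agent.SHF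

variable {N : ℕ} {X : FanoGW (Fin N)} {t t₀ : Fin N → ℂ}

/-- the point `t + τ c_1(X)` -/
def tc (X : FanoGW (Fin N)) (t : Fin N → ℂ) (τ : ℂ) : Fin N → ℂ := fun i => t i + τ * X.chern i

/-- coefficient of `s^n` of `φ_a •` at `t + τ c_1 + s v`, at `λ = x` -/
noncomputable def Pc (T : EquivData X) (t : Fin N → ℂ) (x : ℂ) (v : Fin N → ℂ) (a : Fin N) (n : ℕ)
    (τ : ℂ) : Matrix (Fin N) (Fin N) ℂ :=
  (mulAt T (tc X t τ) a).map fun f => (PowerSeries.coeff n (lineF v f)).eval x

noncomputable def Kc (T : EquivData X) (t : Fin N → ℂ) (x : ℂ) (v : Fin N → ℂ) (n : ℕ)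
    (τ : ℂ) : Matrix (Fin N) (Fin N) ℂ := ∑ b, X.chern b • Pc T t x v b n τ

noncomputable def Mcc (T : EquivData X) (t : Fin N → ℂ) (x : ℂ) (v : Fin N → ℂ) (n : ℕ)
    (τ : ℂ) : Matrix (Fin N) (Fin N) ℂ := ∑ a, v a • Pc T t x v a n τ

theorem tc_deg (ht : ∀ i, t i ≠ 0 → X.deg i = 1) (τ : ℂ) (i : Fin N) (h : tc X t τ i ≠ 0) :
    X.deg i = 1 := by
  by_cases h1 : t i = 0
  · apply X.chern_deg
    intro h2
    apply h
    unfold tc
    rw [h1, h2, mul_zero, add_zero]
  · exact ht i h1

private theorem finite_c1_le' (X : FanoGW (Fin N)) (n : ℕ) : {β | X.c1 β ≤ n}.Finite := by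
  have h : {β | X.c1 β ≤ n} ⊆ ⋃ k ∈ Set.Iic n, {β | X.c1 β = k} := by
    intro β hβ
    simp only [Set.mem_iUnion]
    exact ⟨X.c1 β, hβ, rfl⟩
  exact ((Set.finite_Iic n).biUnion fun k _ => X.c1_finite k).subset h

private noncomputable def Bs (X : FanoGW (Fin N)) (s : Multiset (Fin N)) : Finset X.Curve :=
  (finite_c1_le' X ((s.map X.deg).sum + 3)).toFinset

private theorem mem_Bs (T : EquivGW X) (s : Multiset (Fin N)) (β : X.Curve)
    (h : T.invT β s ≠ 0) : β ∈ Bs X s := by
  obtain ⟨n, hn⟩ : ∃ n, (T.invT β s).coeff n ≠ 0 := by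
    by_contra h'
    push Not at h'
    exact h (Polynomial.ext (by simpa using h'))
  have h3 := T.dimension β s n hn
  unfold Bs
  rw [Set.Finite.mem_toFinset, Set.mem_ofPred_eq]
  omega

private theorem corrAt_eq (T : EquivGW X) (t' : Fin N → ℂ) (s : Multiset (Fin N))
    (S : Finset X.Curve) (hS : ∀ β, T.invT β s ≠ 0 → β ∈ S) :
    corrAt T.toEquivData t' s = ∑ β ∈ S,
      Polynomial.C (Complex.exp (∑ i, t' i * X.period β i)) * T.invT β s := by
  unfold corrAt
  apply finsum_eq_sum_of_support_subset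
  intro β hβ
  rw [Function.mem_support] at hβ
  exact hS β (right_ne_zero_of_mul hβ)

/-- value at `λ = x` of a correlator at the point `t + τ c_1` -/
private noncomputable def Es (T : EquivData X) (t : Fin N → ℂ) (x : ℂ) (s : Multiset (Fin N))
    (τ : ℂ) : ℂ := (corrAt T (tc X t τ) s).eval x

private theorem tc_period (t : Fin N → ℂ) (τ : ℂ) (β : X.Curve) :
    ∑ i, tc X t τ i * X.period β i = (∑ i, t i * X.period β i) + τ * (X.c1 β : ℂ) := by
  rw [← X.chern_period β, Finset.mul_sum, ← Finset.sum_add_distrib]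
  apply Finset.sum_congr rfl
  intro i _
  unfold tc
  ring

private theorem Es_eq (T : EquivGW X) (t : Fin N → ℂ) (x : ℂ) (s : Multiset (Fin N))
    (S : Finset X.Curve) (hS : ∀ β, T.invT β s ≠ 0 → β ∈ S) (τ : ℂ) :
    Es T.toEquivData t x s τ = ∑ β ∈ S,
      Complex.exp ((∑ i, t i * X.period β i) + τ * (X.c1 β : ℂ)) * (T.invT β s).eval x := by
  unfold Es
  rw [corrAt_eq T _ s S hS, Polynomial.eval_finsetSum]
  apply Finset.sum_congr rfl
  intro β _
  rw [Polynomial.eval_mul, Polynomial.eval_C, tc_period]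

private theorem Es_hasDerivAt (T : EquivGW X) (t : Fin N → ℂ) (x : ℂ) (s : Multiset (Fin N))
    (τ : ℂ) : HasDerivAt (fun τ => Es T.toEquivData t x s τ)
      (∑ β ∈ Bs X s, Complex.exp ((∑ i, t i * X.period β i) + τ * (X.c1 β : ℂ)) *
        ((X.c1 β : ℂ) * (T.invT β s).eval x)) τ := by
  have h1 : (fun τ => Es T.toEquivData t x s τ) = fun τ => ∑ β ∈ Bs X s,
      Complex.exp ((∑ i, t i * X.period β i) + τ * (X.c1 β : ℂ)) * (T.invT β s).eval x := by
    funext τ
    exact Es_eq T t x s (Bs X s) (mem_Bs T s) τ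
  rw [h1]
  apply HasDerivAt.fun_sum
  intro β _
  have h2 : HasDerivAt (fun τ : ℂ => (∑ i, t i * X.period β i) + τ * (X.c1 β : ℂ))
      (X.c1 β : ℂ) τ := by
    have := ((hasDerivAt_id τ).mul_const (X.c1 β : ℂ)).const_add (∑ i, t i * X.period β i)
    simpa using this
  have h3 := (h2.cexp).mul_const ((T.invT β s).eval x)
  rw [← mul_assoc]
  exact h3

private theorem Es_divisor (T : BulkGW X t₀) (x : ℂ) (s : Multiset (Fin N))
    (hs : 3 ≤ Multiset.card s) (τ : ℂ) :
    ∑ β ∈ Bs X s, Complex.exp ((∑ i, t i * X.period β i) + τ * (X.c1 β : ℂ)) *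
        ((X.c1 β : ℂ) * (T.invT β s).eval x) =
      ∑ b, X.chern b * Es T.toEquivData t x (b ::ₘ s) τ := by
  have hz : ∀ β, ∀ b, X.deg b = 1 → T.invT β (b ::ₘ s) ≠ 0 → β ∈ Bs X s := by
    intro β b hb hne
    by_cases hβ : β = X.zero
    · subst hβ
      exact absurd (T.degree_zeroT (b ::ₘ s) (by rw [Multiset.card_cons]; omega)) hne
    · rw [T.divisorT β s b hβ hs hb] at hne
      exact mem_Bs T.toEquivGW s β (right_ne_zero_of_mul hne)
  have h1 : ∀ b, X.chern b * Es T.toEquivData t x (b ::ₘ s) τ =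
      ∑ β ∈ Bs X s, X.chern b *
        (Complex.exp ((∑ i, t i * X.period β i) + τ * (X.c1 β : ℂ)) *
          (T.invT β (b ::ₘ s)).eval x) := by
    intro b
    by_cases hb : X.chern b = 0
    · rw [hb, zero_mul]
      symm
      apply Finset.sum_eq_zero
      intro β _
      rw [zero_mul]
    · have hd : X.deg b = 1 := X.chern_deg b hb
      rw [Es_eq T.toEquivGW t x (b ::ₘ s) (Bs X s) (fun β => hz β b hd) τ, Finset.mul_sum]
  rw [Finset.sum_congr rfl (fun b _ => h1 b), Finset.sum_comm]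
  apply Finset.sum_congr rfl
  intro β _
  have h2 : (X.c1 β : ℂ) * (T.invT β s).eval x =
      ∑ b, X.chern b * (T.invT β (b ::ₘ s)).eval x := by
    by_cases hβ : β = X.zero
    · subst hβ
      have h0 : X.c1 X.zero = 0 := (X.c1_eq_zero X.zero).2 rfl
      rw [h0, Nat.cast_zero, zero_mul]
      symm
      apply Finset.sum_eq_zero
      intro b _
      rw [T.degree_zeroT (b ::ₘ s) (by rw [Multiset.card_cons]; omega), Polynomial.eval_zero,
        mul_zero]
    · rw [← X.chern_period β, Finset.sum_mul]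
      apply Finset.sum_congr rfl
      intro b _
      by_cases hb : X.chern b = 0
      · rw [hb, zero_mul, zero_mul, zero_mul]
      · rw [T.divisorT β s b hβ hs (X.chern_deg b hb), Polynomial.eval_mul, Polynomial.eval_C]
        ring
  rw [h2, Finset.mul_sum]
  apply Finset.sum_congr rfl
  intro b _
  ring

private theorem Es_deriv (T : BulkGW X t₀) (x : ℂ) (s : Multiset (Fin N))
    (hs : 3 ≤ Multiset.card s) (τ : ℂ) : HasDerivAt (fun τ => Es T.toEquivData t x s τ)
      (∑ b, X.chern b * Es T.toEquivData t x (b ::ₘ s) τ) τ := by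
  rw [← Es_divisor T x s hs τ]
  exact Es_hasDerivAt T.toEquivGW t x s τ

private theorem lineF_coeff_eval (v : Fin N → ℂ) (x : ℂ) (n : ℕ)
    (f : MvPowerSeries (Fin N) (Polynomial ℂ)) :
    (PowerSeries.coeff n (lineF v f)).eval x =
      ∑ m ∈ Finset.finsuppAntidiag Finset.univ n,
        (∏ i, v i ^ m i) * (MvPowerSeries.coeff m f).eval x := by
  unfold lineF
  rw [PowerSeries.coeff_mk, Polynomial.eval_finsetSum]
  apply Finset.sum_congr rfl
  intro m _
  rw [Polynomial.eval_smul, smul_eq_mul]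

private theorem coeff_serAt (T : EquivData X) (t' : Fin N → ℂ) (s : Multiset (Fin N))
    (m : Fin N →₀ ℕ) : MvPowerSeries.coeff m (serAt T t' s) =
      Polynomial.C (∏ i, ((m i).factorial : ℂ))⁻¹ * corrAt T t' (s + Finsupp.toMultiset m) :=
  rfl

private theorem coeff_mulAt (T : EquivData X) (t' : Fin N → ℂ) (a k b : Fin N)
    (m : Fin N →₀ ℕ) : MvPowerSeries.coeff m (mulAt T t' a k b) =
      ∑ l, T.pairT⁻¹ k l * (Polynomial.C (∏ i, ((m i).factorial : ℂ))⁻¹ *
        corrAt T t' ({a, b, l} + Finsupp.toMultiset m)) := by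
  unfold mulAt
  rw [Matrix.of_apply, map_sum]
  apply Finset.sum_congr rfl
  intro l _
  rw [MvPowerSeries.coeff_C_mul, coeff_serAt]

private theorem Pc_eq (T : EquivData X) (t : Fin N → ℂ) (x : ℂ) (v : Fin N → ℂ) (a : Fin N)
    (n : ℕ) (τ : ℂ) (k b : Fin N) : Pc T t x v a n τ k b =
      ∑ m ∈ Finset.finsuppAntidiag Finset.univ n, (∏ i, v i ^ m i) *
        ∑ l, (T.pairT⁻¹ k l).eval x * ((∏ i, ((m i).factorial : ℂ))⁻¹ *
          Es T t x ({a, b, l} + Finsupp.toMultiset m) τ) := by
  unfold Pc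
  rw [Matrix.map_apply, lineF_coeff_eval]
  apply Finset.sum_congr rfl
  intro m _
  rw [coeff_mulAt, Polynomial.eval_finsetSum]
  congr 1
  apply Finset.sum_congr rfl
  intro l _
  rw [Polynomial.eval_mul, Polynomial.eval_mul, Polynomial.eval_C]
  rfl

private theorem coef_mul (A B : Matrix (Fin N) (Fin N) (MvPowerSeries (Fin N) (Polynomial ℂ)))
    (x : ℂ) (v : Fin N → ℂ) (n : ℕ) :
    (A * B).map (fun f => (PowerSeries.coeff n (lineF v f)).eval x) =
      ∑ p ∈ Finset.HasAntidiagonal.antidiagonal n,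
        A.map (fun f => (PowerSeries.coeff p.1 (lineF v f)).eval x) *
          B.map (fun f => (PowerSeries.coeff p.2 (lineF v f)).eval x) := by
  ext i j
  rw [Matrix.map_apply, Matrix.mul_apply, lineF_sum, map_sum, Polynomial.eval_finsetSum,
    Matrix.sum_apply]
  simp_rw [Matrix.mul_apply, Matrix.map_apply]
  rw [Finset.sum_comm]
  apply Finset.sum_congr rfl
  intro k _
  rw [lineF_mul, PowerSeries.coeff_mul, Polynomial.eval_finsetSum]
  apply Finset.sum_congr rfl
  intro p _
  rw [Polynomial.eval_mul]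

theorem Pc_diff (T : EquivGW X) (x : ℂ) (v : Fin N → ℂ) (a : Fin N) (n : ℕ) (i j : Fin N) :
    Differentiable ℂ fun τ => Pc T.toEquivData t x v a n τ i j := by
  have h1 : (fun τ => Pc T.toEquivData t x v a n τ i j) = fun τ =>
      ∑ m ∈ Finset.finsuppAntidiag Finset.univ n, (∏ i, v i ^ m i) *
        ∑ l, (T.pairT⁻¹ i l).eval x * ((∏ i, ((m i).factorial : ℂ))⁻¹ *
          Es T.toEquivData t x ({a, j, l} + Finsupp.toMultiset m) τ) := by
    funext τ
    exact Pc_eq _ _ _ _ _ _ _ _ _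
  rw [h1]
  intro τ
  refine DifferentiableAt.fun_sum fun m _ => DifferentiableAt.const_mul ?_ _
  refine DifferentiableAt.fun_sum fun l _ => DifferentiableAt.const_mul ?_ _
  exact DifferentiableAt.const_mul (Es_hasDerivAt T t x _ τ).differentiableAt _

theorem Pc_comm (T : BulkGW X t₀) (ht : ∀ i, t i ≠ 0 → X.deg i = 1) (x : ℂ) (v : Fin N → ℂ)
    (a b : Fin N) (n : ℕ) (τ : ℂ) :
    ∑ p ∈ Finset.HasAntidiagonal.antidiagonal n,
        Pc T.toEquivData t x v a p.1 τ * Pc T.toEquivData t x v b p.2 τ =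
      ∑ p ∈ Finset.HasAntidiagonal.antidiagonal n,
        Pc T.toEquivData t x v b p.1 τ * Pc T.toEquivData t x v a p.2 τ := by
  have h1 := mulAt_comm T (t' := tc X t τ) (tc_deg ht τ) a b
  have h2 := coef_mul (mulAt T.toEquivData (tc X t τ) a) (mulAt T.toEquivData (tc X t τ) b) x v n
  have h3 := coef_mul (mulAt T.toEquivData (tc X t τ) b) (mulAt T.toEquivData (tc X t τ) a) x v n
  rw [h1] at h2
  exact h2.symm.trans h3

theorem Pc_unit (T : BulkGW X t₀) (x : ℂ) (v : Fin N → ℂ) (a : Fin N) (n : ℕ) (τ : ℂ) :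
    (Pc T.toEquivData t x v a n τ).mulVec (Pi.single X.one 1) =
      if n = 0 then Pi.single a 1 else 0 := by
  rw [Matrix.mulVec_single_one]
  funext i
  have h0 : lineF v (0 : MvPowerSeries (Fin N) (Polynomial ℂ)) = 0 :=
    (lineH (Polynomial ℂ) v).map_zero
  have h1 : lineF v (1 : MvPowerSeries (Fin N) (Polynomial ℂ)) = 1 :=
    (lineH (Polynomial ℂ) v).map_one
  have h2 : Pc T.toEquivData t x v a n τ i X.one =
      (PowerSeries.coeff n (lineF v (if i = a then 1 else 0 :
        MvPowerSeries (Fin N) (Polynomial ℂ)))).eval x := by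
    unfold Pc
    rw [Matrix.map_apply, mulAt_unit T a i]
  rw [Matrix.col_apply, h2]
  by_cases hi : i = a
  · subst hi
    rw [if_pos rfl, h1, PowerSeries.coeff_one]
    by_cases hn : n = 0
    · rw [if_pos hn, if_pos hn, Polynomial.eval_one, Pi.single_eq_same]
    · rw [if_neg hn, if_neg hn, Polynomial.eval_zero]
      rfl
  · rw [if_neg hi, h0, map_zero, Polynomial.eval_zero]
    by_cases hn : n = 0
    · rw [if_pos hn, Pi.single_eq_of_ne hi]
    · rw [if_neg hn]
      rfl

private theorem Pc_succ (T : EquivData X) (t : Fin N → ℂ) (x : ℂ) (v : Fin N → ℂ) (b : Fin N)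
    (n : ℕ) (τ : ℂ) (i j : Fin N) :
    ((n : ℂ) + 1) * Pc T t x v b (n + 1) τ i j = ∑ a, v a *
      (PowerSeries.coeff n (lineF v (MvPowerSeries.pderiv (Polynomial ℂ) a
        (mulAt T (tc X t τ) b i j)))).eval x := by
  have h1 := congrArg (fun f => (PowerSeries.coeff n f).eval x)
    (lineF_pderiv v (mulAt T (tc X t τ) b i j))
  simp only [PowerSeries.coeff_derivative, map_sum, PowerSeries.coeff_C_mul,
    Polynomial.eval_mul, Polynomial.eval_finsetSum] at h1
  unfold Pc
  rw [Matrix.map_apply, mul_comm]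
  simpa using h1

private theorem fact_succ (m : Fin N →₀ ℕ) (b : Fin N) :
    (∏ i, ((((m + Finsupp.single b 1 : Fin N →₀ ℕ)) i).factorial : ℂ))⁻¹ * ((m b : ℂ) + 1) =
      (∏ i, ((m i).factorial : ℂ))⁻¹ := by
  have h1 : ∏ i, ((((m + Finsupp.single b 1 : Fin N →₀ ℕ)) i).factorial : ℂ) =
      ((m b : ℂ) + 1) * ∏ i, ((m i).factorial : ℂ) := by
    rw [← Finset.mul_prod_erase Finset.univ _ (Finset.mem_univ b),
      ← Finset.mul_prod_erase Finset.univ (fun i => ((m i).factorial : ℂ)) (Finset.mem_univ b),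
      ← mul_assoc]
    congr 1
    · rw [Finsupp.add_apply, Finsupp.single_eq_same, Nat.factorial_succ]
      push_cast
      ring
    · apply Finset.prod_congr rfl
      intro i hi
      have hne : i ≠ b := Finset.ne_of_mem_erase hi
      rw [Finsupp.add_apply, Finsupp.single_eq_of_ne hne, add_zero]
  have h2 : ((m b : ℂ) + 1) ≠ 0 := by
    have : ((m b : ℂ) + 1) = ((m b + 1 : ℕ) : ℂ) := by push_cast; ring
    rw [this]
    exact Nat.cast_ne_zero.2 (Nat.succ_ne_zero _)
  rw [h1, mul_inv, mul_comm ((m b : ℂ) + 1)⁻¹, mul_assoc, inv_mul_cancel₀ h2, mul_one]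

private theorem pderiv_eval (T : EquivData X) (t : Fin N → ℂ) (x : ℂ) (v : Fin N → ℂ)
    (a b : Fin N) (n : ℕ) (τ : ℂ) (i j : Fin N) :
    (PowerSeries.coeff n (lineF v (MvPowerSeries.pderiv (Polynomial ℂ) b
        (mulAt T (tc X t τ) a i j)))).eval x =
      ∑ m ∈ Finset.finsuppAntidiag Finset.univ n, (∏ i, v i ^ m i) *
        ∑ l, (T.pairT⁻¹ i l).eval x * ((∏ i, ((m i).factorial : ℂ))⁻¹ *
          Es T t x (b ::ₘ ({a, j, l} + Finsupp.toMultiset m)) τ) := by
  rw [lineF_coeff_eval]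
  apply Finset.sum_congr rfl
  intro m _
  rw [MvPowerSeries.coeff_pderiv, coeff_mulAt, Polynomial.eval_mul, Polynomial.eval_finsetSum,
    Finset.sum_mul]
  congr 1
  apply Finset.sum_congr rfl
  intro l _
  have hm : ({a, j, l} : Multiset (Fin N)) + Finsupp.toMultiset (m + Finsupp.single b 1) =
      b ::ₘ ({a, j, l} + Finsupp.toMultiset m) := by
    rw [map_add, Finsupp.toMultiset_single, one_nsmul, ← add_assoc,
      ← Multiset.singleton_add b, add_comm]
  rw [hm, ← fact_succ m b, Polynomial.eval_mul, Polynomial.eval_mul, Polynomial.eval_C]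
  have h3 : Polynomial.eval x ((m b : Polynomial ℂ) + 1) = (m b : ℂ) + 1 := by simp
  rw [h3]
  unfold Es
  ring

theorem Kc_deriv (T : BulkGW X t₀) (x : ℂ) (v : Fin N → ℂ) (n : ℕ) (τ : ℂ) (i j : Fin N) :
    ((n : ℂ) + 1) * Kc T.toEquivData t x v (n + 1) τ i j =
      deriv (fun τ => Mcc T.toEquivData t x v n τ i j) τ := by
  have hP : ∀ a, HasDerivAt (fun τ => Pc T.toEquivData t x v a n τ i j)
      (∑ b, X.chern b * (PowerSeries.coeff n (lineF v (MvPowerSeries.pderiv (Polynomial ℂ) b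
        (mulAt T.toEquivData (tc X t τ) a i j)))).eval x) τ := by
    intro a
    have h1 : (fun τ => Pc T.toEquivData t x v a n τ i j) = fun τ =>
        ∑ m ∈ Finset.finsuppAntidiag Finset.univ n, (∏ i, v i ^ m i) *
          ∑ l, (T.pairT⁻¹ i l).eval x * ((∏ i, ((m i).factorial : ℂ))⁻¹ *
            Es T.toEquivData t x ({a, j, l} + Finsupp.toMultiset m) τ) := by
      funext τ
      exact Pc_eq _ _ _ _ _ _ _ _ _
    have h2 : ∑ b, X.chern b * (PowerSeries.coeff n (lineF v
          (MvPowerSeries.pderiv (Polynomial ℂ) b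
            (mulAt T.toEquivData (tc X t τ) a i j)))).eval x =
        ∑ m ∈ Finset.finsuppAntidiag Finset.univ n, (∏ i, v i ^ m i) *
          ∑ l, (T.pairT⁻¹ i l).eval x * ((∏ i, ((m i).factorial : ℂ))⁻¹ *
            ∑ b, X.chern b * Es T.toEquivData t x
              (b ::ₘ ({a, j, l} + Finsupp.toMultiset m)) τ) := by
      simp_rw [pderiv_eval, Finset.mul_sum]
      rw [Finset.sum_comm]
      apply Finset.sum_congr rfl
      intro m _
      rw [Finset.sum_comm]
      apply Finset.sum_congr rfl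
      intro l _
      apply Finset.sum_congr rfl
      intro b _
      ring
    rw [h1, h2]
    refine HasDerivAt.fun_sum fun m _ => HasDerivAt.const_mul _ ?_
    refine HasDerivAt.fun_sum fun l _ => HasDerivAt.const_mul _ ?_
    refine HasDerivAt.const_mul _ ?_
    refine Es_deriv T x _ ?_ τ
    rw [Multiset.card_add]
    have : Multiset.card ({a, j, l} : Multiset (Fin N)) = 3 := by simp
    omega
  have hM : HasDerivAt (fun τ => Mcc T.toEquivData t x v n τ i j)
      (∑ a, v a * ∑ b, X.chern b * (PowerSeries.coeff n (lineF v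
        (MvPowerSeries.pderiv (Polynomial ℂ) b
          (mulAt T.toEquivData (tc X t τ) a i j)))).eval x) τ := by
    have h1 : (fun τ => Mcc T.toEquivData t x v n τ i j) = fun τ =>
        ∑ a, v a * Pc T.toEquivData t x v a n τ i j := by
      funext τ
      unfold Mcc
      rw [Matrix.sum_apply]
      apply Finset.sum_congr rfl
      intro a _
      rw [Matrix.smul_apply, smul_eq_mul]
    rw [h1]
    exact HasDerivAt.fun_sum fun a _ => HasDerivAt.const_mul _ (hP a)
  rw [hM.deriv]
  unfold Kc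
  rw [Matrix.sum_apply, Finset.mul_sum]
  have h3 : ∀ b, ((n : ℂ) + 1) * (X.chern b • Pc T.toEquivData t x v b (n + 1) τ) i j =
      ∑ a, X.chern b * (v a * (PowerSeries.coeff n (lineF v
        (MvPowerSeries.pderiv (Polynomial ℂ) b
          (mulAt T.toEquivData (tc X t τ) a i j)))).eval x) := by
    intro b
    rw [Matrix.smul_apply, smul_eq_mul, mul_left_comm, Pc_succ, Finset.mul_sum]
    apply Finset.sum_congr rfl
    intro a _
    have h4 := congrFun (congrFun (mulAt_pderiv T.toEquivGW (tc X t τ) a b) i) j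
    rw [Matrix.map_apply, Matrix.map_apply] at h4
    rw [h4]
  rw [Finset.sum_congr rfl (fun b _ => h3 b), Finset.sum_comm]
  apply Finset.sum_congr rfl
  intro a _
  rw [Finset.mul_sum]
  apply Finset.sum_congr rfl
  intro b _
  ring

end Pool.Agent.DST
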