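import Pool.Agent.DST.Abs
import Pool.Agent.DST.Gamma

/-!
# Project DST: the quantum system attached to `GammaGW` (definition)
-/

open scoped BigOperators Topology
open Filter

namespace Pool.Agent.DST

open Pool.Agent.Helper18.Dub Pool.Agent.Helper7.DubStokes Pool.Agent.SHF

variable {N : ℕ} {X : FanoGW (Fin N)} {t : Fin N → ℂ}

/-- The quantum system of the `Γ`-solutions. -/
structure IsQ (T : GammaGW X t) (Q : QSys N) : Prop where
  Λ : Q.Λ = Set.univ
  θ : ∀ a, Q.θ a = (X.dim : ℂ) / 2 - X.deg a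
  C : ∀ x, Q.C x = evm (chernT T.toEquivData t T.κ) x
  g : ∀ x, Q.g x = evm T.pairT x
  S : ∀ x z, Q.S x z = evm₂ T.S x z
  J : ∀ y w, Q.J y w = (Complex.I / (Real.sqrt (2 * Real.pi) : ℂ)) ^ X.dim • T.J y w
  χ : ∀ y, Q.χ.map (evq y) = T.χ.map (evZ y)

end Pool.Agent.DST
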