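import Pool.Agent.DST.SDet
import Pool.Agent.DST.SLim

/-!
# DST-SCon: `V(ε) → exp(C(λ)/λ)` as `ε → 0`

The path `v τ = w - (1 - τ) log(1 - ε)`, `w = l + log ε`, and the limit theorem `lin_limit` for the linear
differential equation in `τ`, whose coefficients tend to `C(λ)/λ` uniformly.
-/

open scoped BigOperators Topology
open Filter

namespace Pool.Agent.DST

variable {N : ℕ}

private theorem sc_log_tendsto : Tendsto (fun ε : ℂ => Complex.log (1 - ε)) (𝓝 0) (𝓝 0) := by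
  have h1 : ContinuousAt (fun ε : ℂ => Complex.log (1 - ε)) 0 := by
    refine ContinuousAt.clog (continuousAt_const.sub continuousAt_id) ?_
    rw [sub_zero]
    exact Complex.one_mem_slitPlane
  have h2 := h1.tendsto
  rw [sub_zero, Complex.log_one] at h2
  exact h2

private theorem sc_slope : Tendsto (fun ε : ℂ => Complex.log (1 - ε) * ε⁻¹) (𝓝[≠] 0) (𝓝 (-1)) := by
  have h1 : HasDerivAt (fun ε : ℂ => Complex.log (1 - ε)) (-1) 0 := by
    have h2 : HasDerivAt (fun ε : ℂ => 1 - ε) (-1) 0 := (hasDerivAt_id (0 : ℂ)).const_sub 1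
    have h3 : HasDerivAt (fun ε : ℂ => Complex.log (1 - ε)) (-1 / (1 - 0)) 0 := by
      refine h2.clog ?_
      rw [sub_zero]
      exact Complex.one_mem_slitPlane
    rw [sub_zero, div_one] at h3
    exact h3
  have h4 := hasDerivAt_iff_tendsto_slope.1 h1
  refine h4.congr fun ε => ?_
  rw [slope_def_field, sub_zero, sub_zero, Complex.log_one, sub_zero, div_eq_mul_inv]

theorem QSys.exists_good (Q : QSys N) {l : ℂ} (hl : Complex.exp l ∈ Q.Λ) :
    ∃ r, Q.Good l r := by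
  have h1 : Tendsto (fun z : ℂ => Complex.exp l * Complex.exp z) (𝓝 0) (𝓝 (Complex.exp l)) := by
    have h2 : Continuous (fun z : ℂ => Complex.exp l * Complex.exp z) :=
      continuous_const.mul Complex.continuous_exp
    have h3 := h2.tendsto 0
    rw [Complex.exp_zero, mul_one] at h3
    exact h3
  have h4 : ∀ᶠ z : ℂ in 𝓝 0, Complex.exp l * Complex.exp z ∈ Q.Λ := h1 (Q.open_Λ.mem_nhds hl)
  obtain ⟨η, hη, h5⟩ := Metric.eventually_nhds_iff.1 h4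
  obtain ⟨r, hr, h6⟩ := Metric.eventually_nhds_iff.1
    ((Metric.tendsto_nhds.1 sc_log_tendsto) η hη)
  refine ⟨min r (1 / 2), lt_min hr (by norm_num), min_le_right _ _, fun ε hε τ hτ => ?_⟩
  refine h5 ?_
  have h7 := h6 (show dist ε 0 < r by rw [dist_zero_right]; exact hε.trans_le (min_le_left _ _))
  rw [dist_zero_right] at h7 ⊢
  rw [norm_mul, Complex.norm_real, Real.norm_eq_abs, abs_of_nonneg hτ.1]
  calc τ * ‖Complex.log (1 - ε)‖ ≤ 1 * ‖Complex.log (1 - ε)‖ :=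
        mul_le_mul_of_nonneg_right hτ.2 (norm_nonneg _)
    _ < η := by rw [one_mul]; exact h7

private theorem sc_ne {r : ℝ} (hr : r ≤ 1 / 2) {ε : ℂ} (hε : ‖ε‖ < r) : 1 - ε ≠ 0 := by
  intro h
  have h1 : ε = 1 := (sub_eq_zero.1 h).symm
  rw [h1, norm_one] at hε
  linarith

/-- the path -/
private noncomputable def vv (l ε : ℂ) (τ : ℝ) : ℂ :=
  (l + Complex.log ε - Complex.log (1 - ε)) +
    τ * ((l + Complex.log ε) - (l + Complex.log ε - Complex.log (1 - ε)))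

private theorem sc_exp {l ε : ℂ} (h0 : ε ≠ 0) (h1 : 1 - ε ≠ 0) (τ : ℝ) :
    (ε⁻¹ - 1) * Complex.exp (vv l ε τ) = Complex.exp l * Complex.exp (τ * Complex.log (1 - ε)) := by
  have h2 : vv l ε τ = l + Complex.log ε + -Complex.log (1 - ε) + τ * Complex.log (1 - ε) := by
    unfold vv
    ring
  rw [h2, Complex.exp_add, Complex.exp_add, Complex.exp_add, Complex.exp_neg, Complex.exp_log h0,
    Complex.exp_log h1]
  have h3 : (ε⁻¹ - 1) * ε = 1 - ε := by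
    rw [sub_mul, inv_mul_cancel₀ h0, one_mul]
  calc (ε⁻¹ - 1) * (Complex.exp l * ε * (1 - ε)⁻¹ * Complex.exp (τ * Complex.log (1 - ε))) =
        Complex.exp l * (((ε⁻¹ - 1) * ε) * (1 - ε)⁻¹) * Complex.exp (τ * Complex.log (1 - ε)) := by ring
    _ = _ := by rw [h3, mul_inv_cancel₀ h1, mul_one]

private theorem sc_exp_neg {l ε : ℂ} (h0 : ε ≠ 0) (τ : ℝ) :
    Complex.exp (-(vv l ε τ)) = ε⁻¹ * Complex.exp (-l) * Complex.exp ((1 - τ) * Complex.log (1 - ε)) := by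
  have h2 : -(vv l ε τ) = -Complex.log ε + -l + (1 - τ) * Complex.log (1 - ε) := by
    unfold vv
    ring
  rw [h2, Complex.exp_add, Complex.exp_add, Complex.exp_neg (Complex.log ε), Complex.exp_log h0]

theorem QSys.seg_mem (Q : QSys N) {l : ℂ} {r : ℝ} (hr : Q.Good l r) {ε : ℂ} (h0 : ε ≠ 0)
    (hε : ‖ε‖ < r) {τ : ℝ} (hτ : τ ∈ Set.Icc (0 : ℝ) 1) :
    (ε⁻¹ - 1) * Complex.exp ((l + Complex.log ε - Complex.log (1 - ε)) +
      τ * ((l + Complex.log ε) - (l + Complex.log ε - Complex.log (1 - ε)))) ∈ Q.Λ := by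
  have h := sc_exp (l := l) h0 (sc_ne hr.2.1 hε) τ
  unfold vv at h
  rw [h]
  exact hr.2.2 ε hε τ hτ

private theorem sc_vv_deriv (l ε : ℂ) (τ : ℝ) :
    HasDerivAt (fun τ : ℝ => vv l ε τ) (Complex.log (1 - ε)) τ := by
  have h1 : HasDerivAt (fun τ : ℝ => (τ : ℂ)) 1 τ := Complex.ofRealCLM.hasDerivAt
  have h2 := (h1.mul_const ((l + Complex.log ε) - (l + Complex.log ε - Complex.log (1 - ε)))).const_add
    (l + Complex.log ε - Complex.log (1 - ε))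
  refine h2.congr_deriv ?_
  ring

/-- the coefficients -/
private noncomputable def cf (Q : QSys N) (l ε : ℂ) (τ : ℝ) : Matrix (Fin N) (Fin N) ℂ :=
  Complex.log (1 - ε) • (Matrix.diagonal Q.θ - Complex.exp (-(vv l ε τ)) •
    Q.C ((ε⁻¹ - 1) * Complex.exp (vv l ε τ)))

/-- the solution -/
private noncomputable def uf (Q : QSys N) (l ε : ℂ) (τ : ℝ) : Matrix (Fin N) (Fin N) ℂ :=
  Q.J (ε⁻¹ - 1) (vv l ε τ) * (Q.J (ε⁻¹ - 1) (l + Complex.log ε - Complex.log (1 - ε)))⁻¹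

private theorem sc_ode (Q : QSys N) {l : ℂ} {r : ℝ} (hr : Q.Good l r) {ε : ℂ} (h0 : ε ≠ 0)
    (hε : ‖ε‖ < r) {τ : ℝ} (hτ : τ ∈ Set.Icc (0 : ℝ) 1) (i j : Fin N) :
    HasDerivAt (fun τ => uf Q l ε τ i j) ((cf Q l ε τ * uf Q l ε τ) i j) τ := by
  have hmem : (ε⁻¹ - 1) * Complex.exp (vv l ε τ) ∈ Q.Λ := Q.seg_mem hr h0 hε hτ
  obtain ⟨A, hA⟩ : ∃ A, A = Matrix.diagonal Q.θ - Complex.exp (-(vv l ε τ)) •
    Q.C ((ε⁻¹ - 1) * Complex.exp (vv l ε τ)) := ⟨_, rfl⟩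
  obtain ⟨M, hM⟩ : ∃ M, M = (Q.J (ε⁻¹ - 1) (l + Complex.log ε - Complex.log (1 - ε)))⁻¹ := ⟨_, rfl⟩
  have h1 : ∀ k, HasDerivAt (fun τ : ℝ => Q.J (ε⁻¹ - 1) (vv l ε τ) i k)
      ((A * Q.J (ε⁻¹ - 1) (vv l ε τ)) i k * Complex.log (1 - ε)) τ := by
    intro k
    have h2 := Q.J_ode (ε⁻¹ - 1) (vv l ε τ) hmem i k
    rw [← hA] at h2
    exact HasDerivAt.comp (h₂ := fun w => Q.J (ε⁻¹ - 1) w i k) (h := fun τ : ℝ => vv l ε τ) τ h2
      (sc_vv_deriv l ε τ)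
  have h3 : HasDerivAt (fun τ : ℝ => ∑ k, Q.J (ε⁻¹ - 1) (vv l ε τ) i k * M k j)
      (∑ k, (A * Q.J (ε⁻¹ - 1) (vv l ε τ)) i k * Complex.log (1 - ε) * M k j) τ :=
    HasDerivAt.fun_sum fun k _ => (h1 k).mul_const _
  have h4 : (fun τ : ℝ => uf Q l ε τ i j) = fun τ : ℝ => ∑ k, Q.J (ε⁻¹ - 1) (vv l ε τ) i k * M k j := by
    funext τ
    unfold uf
    rw [← hM, Matrix.mul_apply]
  have h5 : (cf Q l ε τ * uf Q l ε τ) i j =
      ∑ k, (A * Q.J (ε⁻¹ - 1) (vv l ε τ)) i k * Complex.log (1 - ε) * M k j := by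
    unfold cf uf
    rw [← hM, ← hA, smul_mul_assoc, ← mul_assoc, Matrix.smul_apply, Matrix.mul_apply, smul_eq_mul,
      Finset.mul_sum]
    refine Finset.sum_congr rfl fun k _ => ?_
    ring
  rw [h4, h5]
  exact h3

private theorem sc_zero (Q : QSys N) {l : ℂ} {r : ℝ} (hr : Q.Good l r) {ε : ℂ} (h0 : ε ≠ 0)
    (hε : ‖ε‖ < r) : uf Q l ε 0 = 1 := by
  have hv : vv l ε 0 = l + Complex.log ε - Complex.log (1 - ε) := by
    unfold vv
    rw [Complex.ofReal_zero, zero_mul, add_zero]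
  have hmem : (ε⁻¹ - 1) * Complex.exp (vv l ε 0) ∈ Q.Λ :=
    Q.seg_mem hr h0 hε ⟨le_rfl, zero_le_one⟩
  rw [hv] at hmem
  unfold uf
  rw [hv]
  exact Matrix.mul_nonsing_inv _ (isUnit_iff_ne_zero.2 (Q.det_J hmem))

private theorem sc_one (Q : QSys N) (l ε : ℂ) : uf Q l ε 1 = Q.V l ε := by
  have hv : vv l ε 1 = l + Complex.log ε := by
    unfold vv
    rw [Complex.ofReal_one]
    ring
  unfold uf QSys.V
  rw [hv]

private theorem sc_coeff (Q : QSys N) {l : ℂ} (hl : Complex.exp l ∈ Q.Λ) (i j : Fin N) {δ : ℝ} (hδ : 0 < δ) :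
    ∀ᶠ ε : ℂ in 𝓝[≠] 0, ∀ τ ∈ Set.Icc (0 : ℝ) 1,
      ‖cf Q l ε τ i j - (Complex.exp (-l) • Q.C (Complex.exp l)) i j‖ < δ := by
  have hC : ContinuousAt (fun x => Q.C x i j) (Complex.exp l) := (Q.C_hol _ hl i j).continuousAt
  have hF : ContinuousAt (fun p : ℂ × ℂ × ℂ × ℂ => p.1 * (Matrix.diagonal Q.θ) i j -
      p.2.1 * Complex.exp (-l) * Complex.exp p.2.2.1 * Q.C (Complex.exp l * Complex.exp p.2.2.2) i j)
      ((0 : ℂ), (-1 : ℂ), (0 : ℂ), (0 : ℂ)) := by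
    have c1 : ContinuousAt (fun p : ℂ × ℂ × ℂ × ℂ => Complex.exp l * Complex.exp p.2.2.2)
        ((0 : ℂ), (-1 : ℂ), (0 : ℂ), (0 : ℂ)) := by
      refine Continuous.continuousAt ?_
      exact continuous_const.mul (Complex.continuous_exp.comp
        (continuous_snd.comp (continuous_snd.comp continuous_snd)))
    have c2 : ContinuousAt (fun p : ℂ × ℂ × ℂ × ℂ => Q.C (Complex.exp l * Complex.exp p.2.2.2) i j)
        ((0 : ℂ), (-1 : ℂ), (0 : ℂ), (0 : ℂ)) := by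
      refine ContinuousAt.comp (g := fun x => Q.C x i j)
        (f := fun p : ℂ × ℂ × ℂ × ℂ => Complex.exp l * Complex.exp p.2.2.2) ?_ c1
      change ContinuousAt (fun x => Q.C x i j) (Complex.exp l * Complex.exp 0)
      rw [Complex.exp_zero, mul_one]
      exact hC
    have c3 : ContinuousAt (fun p : ℂ × ℂ × ℂ × ℂ => p.1 * (Matrix.diagonal Q.θ) i j)
        ((0 : ℂ), (-1 : ℂ), (0 : ℂ), (0 : ℂ)) := (continuous_fst.mul continuous_const).continuousAt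
    have c4 : ContinuousAt (fun p : ℂ × ℂ × ℂ × ℂ => p.2.1 * Complex.exp (-l) * Complex.exp p.2.2.1)
        ((0 : ℂ), (-1 : ℂ), (0 : ℂ), (0 : ℂ)) := by
      refine Continuous.continuousAt ?_
      exact ((continuous_fst.comp continuous_snd).mul continuous_const).mul
        (Complex.continuous_exp.comp (continuous_fst.comp (continuous_snd.comp continuous_snd)))
    exact c3.sub (c4.mul c2)
  obtain ⟨η, hη, h1⟩ := Metric.continuousAt_iff.1 hF δ hδ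
  have e1 : ∀ᶠ ε : ℂ in 𝓝[≠] 0, ‖Complex.log (1 - ε)‖ < η := by
    have h2 := (Metric.tendsto_nhds.1 sc_log_tendsto) η hη
    filter_upwards [nhdsWithin_le_nhds h2] with ε hε
    rw [dist_zero_right] at hε
    exact hε
  have e2 : ∀ᶠ ε : ℂ in 𝓝[≠] 0, dist (Complex.log (1 - ε) * ε⁻¹) (-1) < η :=
    (Metric.tendsto_nhds.1 sc_slope) η hη
  have e3 : ∀ᶠ ε : ℂ in 𝓝[≠] 0, ε ≠ 0 := eventually_mem_nhdsWithin
  have e4 : ∀ᶠ ε : ℂ in 𝓝[≠] 0, ‖ε‖ < 1 / 2 := by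
    have h2 : ∀ᶠ ε : ℂ in 𝓝 0, dist ε 0 < 1 / 2 := Metric.eventually_nhds_iff.2
      ⟨1 / 2, by norm_num, fun _ h => h⟩
    filter_upwards [nhdsWithin_le_nhds h2] with ε hε
    rw [dist_zero_right] at hε
    exact hε
  filter_upwards [e1, e2, e3, e4] with ε a1 a2 a3 a4 τ hτ
  have hne := sc_ne le_rfl a4
  have hs : ∀ s : ℝ, 0 ≤ s → s ≤ 1 → ‖(s : ℂ) * Complex.log (1 - ε)‖ < η := by
    intro s hs0 hs1
    rw [norm_mul, Complex.norm_real, Real.norm_eq_abs, abs_of_nonneg hs0]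
    calc s * ‖Complex.log (1 - ε)‖ ≤ 1 * ‖Complex.log (1 - ε)‖ :=
          mul_le_mul_of_nonneg_right hs1 (norm_nonneg _)
      _ < η := by rw [one_mul]; exact a1
  have hs1 : ‖(1 - (τ : ℂ)) * Complex.log (1 - ε)‖ < η := by
    have h2 := hs (1 - τ) (by linarith [hτ.2]) (by linarith [hτ.1])
    push_cast at h2
    exact h2
  have h2 := h1 (x := (Complex.log (1 - ε), Complex.log (1 - ε) * ε⁻¹,
    (1 - (τ : ℂ)) * Complex.log (1 - ε), (τ : ℂ) * Complex.log (1 - ε))) (by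
      rw [Prod.dist_eq, Prod.dist_eq, Prod.dist_eq]
      refine max_lt ?_ (max_lt a2 (max_lt ?_ ?_))
      · rw [dist_zero_right]; exact a1
      · rw [dist_zero_right]; exact hs1
      · rw [dist_zero_right]; exact hs τ hτ.1 hτ.2)
  have h3 : cf Q l ε τ i j - (Complex.exp (-l) • Q.C (Complex.exp l)) i j =
      (Complex.log (1 - ε) * (Matrix.diagonal Q.θ) i j -
        Complex.log (1 - ε) * ε⁻¹ * Complex.exp (-l) * Complex.exp ((1 - (τ : ℂ)) * Complex.log (1 - ε)) *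
          Q.C (Complex.exp l * Complex.exp ((τ : ℂ) * Complex.log (1 - ε))) i j) -
      (0 * (Matrix.diagonal Q.θ) i j - (-1) * Complex.exp (-l) * Complex.exp 0 *
        Q.C (Complex.exp l * Complex.exp 0) i j) := by
    unfold cf
    rw [sc_exp a3 hne, sc_exp_neg a3, Complex.exp_zero]
    simp only [Matrix.smul_apply, Matrix.sub_apply, smul_eq_mul, mul_one]
    ring
  rw [dist_eq_norm] at h2
  rw [h3]
  exact h2

theorem QSys.V_tendsto (Q : QSys N) {l : ℂ} (hl : Complex.exp l ∈ Q.Λ) (i j : Fin N) :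
    Tendsto (fun ε => Q.V l ε i j) (𝓝[≠] 0)
      (𝓝 (NormedSpace.exp (Complex.exp (-l) • Q.C (Complex.exp l)) i j)) := by
  obtain ⟨r, hr⟩ := Q.exists_good hl
  have e3 : ∀ᶠ ε : ℂ in 𝓝[≠] 0, ε ≠ 0 := eventually_mem_nhdsWithin
  have e4 : ∀ᶠ ε : ℂ in 𝓝[≠] 0, ‖ε‖ < r := by
    have h2 : ∀ᶠ ε : ℂ in 𝓝 0, dist ε 0 < r := Metric.eventually_nhds_iff.2 ⟨r, hr.1, fun _ h => h⟩
    filter_upwards [nhdsWithin_le_nhds h2] with ε hε
    rw [dist_zero_right] at hε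
    exact hε
  have h := lin_limit (l := 𝓝[≠] (0 : ℂ)) (fun ε τ => cf Q l ε τ) (fun ε τ => uf Q l ε τ)
    (Complex.exp (-l) • Q.C (Complex.exp l)) ?_ ?_ ?_ i j
  · refine h.congr fun ε => ?_
    rw [sc_one]
  · filter_upwards [e3, e4] with ε a3 a4 τ hτ i j
    exact sc_ode Q hr a3 a4 hτ i j
  · filter_upwards [e3, e4] with ε a3 a4
    exact sc_zero Q hr a3 a4
  · intro δ hδ
    have h1 : ∀ᶠ ε : ℂ in 𝓝[≠] 0, ∀ i j : Fin N, ∀ τ ∈ Set.Icc (0 : ℝ) 1,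
        ‖cf Q l ε τ i j - (Complex.exp (-l) • Q.C (Complex.exp l)) i j‖ < δ :=
      eventually_all.2 fun i => eventually_all.2 fun j => sc_coeff Q hl i j hδ
    filter_upwards [h1] with ε hε τ hτ i j
    exact hε i j τ hτ

end Pool.Agent.DST
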