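import Pool.Agent.DST.Abs

/-!
# DST-SDefs: the transfer matrix of a quantum system at fixed `λ = e^l` (definitions only)

`ε = 1/y`, `w = log z = l - log y = l + log ε`, `y e^w = e^l`, `(y - 1) e^w = e^l (1 - ε)`.
-/

open scoped BigOperators Topology
open Filter

namespace Pool.Agent.DST

variable {N : ℕ}

/-- Transport at `y - 1 = ε⁻¹ - 1` from `log z = l - log (y - 1)` to `l - log y`. -/
noncomputable def QSys.V (Q : QSys N) (l ε : ℂ) : Matrix (Fin N) (Fin N) ℂ :=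
  Q.J (ε⁻¹ - 1) (l + Complex.log ε) *
    (Q.J (ε⁻¹ - 1) (l + Complex.log ε - Complex.log (1 - ε)))⁻¹

/-- The transfer matrix `A(ε)`. -/
noncomputable def QSys.tr (Q : QSys N) (l ε : ℂ) : Matrix (Fin N) (Fin N) ℂ :=
  if ε = 0 then Q.A0 l else Q.S (Complex.exp l) (ε * Complex.exp l) * Q.V l ε

/-- The radius `r` is small enough: the path from `λ (1 - ε)` to `λ` is in `Λ`. -/
def QSys.Good (Q : QSys N) (l : ℂ) (r : ℝ) : Prop :=
  0 < r ∧ r ≤ 1 / 2 ∧ ∀ ε : ℂ, ‖ε‖ < r → ∀ τ ∈ Set.Icc (0 : ℝ) 1,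
    Complex.exp l * Complex.exp (τ * Complex.log (1 - ε)) ∈ Q.Λ

end Pool.Agent.DST
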