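import Pool.Agent.DST.SDefs

/-!
# DST-SDet: basic facts on quantum systems

PLAN.
`det_J`: take determinants in `Q.J_pair y w h`: the right side is `(χ.map (evq y)).det =
  evq y χ.det` (`RingHom.map_det` / `Matrix.det_map`-type lemma), a unit, because `Q.χ_det`.
  So the product of determinants on the left is nonzero, in particular `(Q.J y w).det ≠ 0`.
`const_of_ode`: put `v τ = w' + τ (w - w')`, `Φ τ = (Q.J y (v τ))⁻¹ * Y (v τ)`, `τ ∈ [0,1]`. With
  `a τ = diagonal θ - exp(-v τ) • C(y exp(v τ))` both `Q.J y (v ·)` and `Y (v ·)` satisfy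
  `d/dτ = (w - w') a τ (·)` (chain rule from `Q.J_ode`, and `hY`). Instead of differentiating the
  inverse: `K τ = (Q.J y (v τ))⁻¹`; derivative of an inverse matrix is `-J⁻¹ J' J⁻¹` (entrywise:
  the entries of the inverse are `det⁻¹ * adjugate`, or use `hasDerivAt` of `Ring.inverse` /
  `HasFDerivAt.inv`-type lemmas in the complete normed algebra of matrices, opening
  `Matrix.Norms.Elementwise` is NOT enough, use `open scoped Matrix.Norms.Operator` (linfty
  operator norm, a normed algebra), where `hasFDerivAt_ringInverse`/`HasDerivAt.ringInverse`-type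
  lemmas apply; for matrices `A⁻¹ = Ring.inverse A` is `Matrix.nonsing_inv_eq_ringInverse`).
  Then `Φ' = -J⁻¹ (a J) J⁻¹ Y + J⁻¹ a Y = 0` and `Φ` is constant on `[0,1]`
  (`is_const_of_deriv_eq_zero`-type lemma on the interval: `constant_of_has_deriv_right_zero`
  or `Convex.is_const_of_fderivWithin_eq_zero`).
  ALTERNATIVE without inverses: the difference `Z(v) = Y v - J(y,v) J(y,w')⁻¹ Y w'` solves the
  linear ODE and vanishes at `τ = 0`, so it vanishes on `[0,1]` by Gronwall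
  (`ODE_solution_unique_of_mem_Icc`-type lemma or `norm_le_gronwallBound_of_norm_deriv_right_le`).
`branch`: apply `const_of_ode` to `Y v = Q.J y (v + 2πi n)`: it solves the same ODE because
  `exp(-(v + 2πin)) = exp(-v)` and `exp(v + 2πin) = exp v`. So
  `J(y,w)⁻¹ J(y,w+2πin) = J(y,w')⁻¹ J(y,w'+2πin) =: M` and `M` is invertible (`det_J` at
  `w + 2πin`, which is in the domain too), so `J(y,w+2πin) J(y,w'+2πin)⁻¹ = J(y,w) M M⁻¹ J(y,w')⁻¹`.
-/

open scoped BigOperators Topology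
open Filter

namespace Pool.Agent.DST

variable {N : ℕ}

open scoped Matrix.Norms.Operator in
private theorem const_aux (F G a : ℝ → Matrix (Fin N) (Fin N) ℂ)
    (hF : ∀ τ ∈ Set.Icc (0 : ℝ) 1, ∀ i j, HasDerivAt (fun s => F s i j) ((a τ * F τ) i j) τ)
    (hG : ∀ τ ∈ Set.Icc (0 : ℝ) 1, ∀ i j, HasDerivAt (fun s => G s i j) ((a τ * G τ) i j) τ)
    (hd : ∀ τ ∈ Set.Icc (0 : ℝ) 1, (F τ).det ≠ 0) :
    (F 1)⁻¹ * G 1 = (F 0)⁻¹ * G 0 := by
  have hmat : ∀ (H : ℝ → Matrix (Fin N) (Fin N) ℂ) (H' : Matrix (Fin N) (Fin N) ℂ) (τ : ℝ),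
      (∀ i j, HasDerivAt (fun s => H s i j) (H' i j) τ) → HasDerivAt H H' τ := by
    intro H H' τ h
    have h1 : HasDerivAt (fun s => ∑ i, ∑ j, H s i j • Matrix.single i j (1 : ℂ))
        (∑ i, ∑ j, H' i j • Matrix.single i j (1 : ℂ)) τ := by
      refine HasDerivAt.fun_sum fun i _ => ?_
      refine HasDerivAt.fun_sum fun j _ => ?_
      exact (h i j).smul_const _
    have h2 : ∀ M : Matrix (Fin N) (Fin N) ℂ,
        (∑ i, ∑ j, M i j • Matrix.single i j (1 : ℂ)) = M := by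
      intro M
      conv_rhs => rw [Matrix.matrix_eq_sum_single M]
      refine Finset.sum_congr rfl fun i _ => Finset.sum_congr rfl fun j _ => ?_
      rw [Matrix.smul_single, smul_eq_mul, mul_one]
    simp only [h2] at h1
    exact h1
  have hF' : ∀ τ ∈ Set.Icc (0 : ℝ) 1, HasDerivAt F (a τ * F τ) τ :=
    fun τ hτ => hmat F _ τ (hF τ hτ)
  have hG' : ∀ τ ∈ Set.Icc (0 : ℝ) 1, HasDerivAt G (a τ * G τ) τ :=
    fun τ hτ => hmat G _ τ (hG τ hτ)
  have hK : ∀ τ ∈ Set.Icc (0 : ℝ) 1,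
      HasDerivAt (fun s => (F s)⁻¹) (-((F τ)⁻¹ * (a τ * F τ) * (F τ)⁻¹)) τ := by
    intro τ hτ
    have hu : IsUnit (F τ) := (Matrix.isUnit_iff_isUnit_det _).mpr (isUnit_iff_ne_zero.mpr (hd τ hτ))
    obtain ⟨u, hu⟩ := hu
    have h1 := hasFDerivAt_ringInverse (𝕜 := ℝ) u
    rw [hu] at h1
    have h2 := h1.comp_hasDerivAt τ (hF' τ hτ)
    have h3 : (fun s => (F s)⁻¹) = Ring.inverse ∘ F := by
      funext s
      exact Matrix.nonsing_inv_eq_ringInverse _
    have h4 : (↑u⁻¹ : Matrix (Fin N) (Fin N) ℂ) = (F τ)⁻¹ := by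
      rw [Matrix.nonsing_inv_eq_ringInverse, ← hu, Ring.inverse_unit]
    have h5 : (-((ContinuousLinearMap.mulLeftRight ℝ (Matrix (Fin N) (Fin N) ℂ)) ↑u⁻¹) ↑u⁻¹)
        (a τ * F τ) = -((F τ)⁻¹ * (a τ * F τ) * (F τ)⁻¹) := by
      rw [← h4]
      rfl
    rw [h5] at h2
    rw [h3]
    exact h2
  have hP : ∀ τ ∈ Set.Icc (0 : ℝ) 1, HasDerivAt (fun s => (F s)⁻¹ * G s) 0 τ := by
    intro τ hτ
    have h := (hK τ hτ).mul (hG' τ hτ)
    have hu : IsUnit (F τ).det := isUnit_iff_ne_zero.mpr (hd τ hτ)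
    have h0 : -((F τ)⁻¹ * (a τ * F τ) * (F τ)⁻¹) * G τ + (F τ)⁻¹ * (a τ * G τ) = 0 := by
      have : (F τ)⁻¹ * (a τ * F τ) * (F τ)⁻¹ = (F τ)⁻¹ * a τ := by
        rw [Matrix.mul_assoc, Matrix.mul_assoc (a τ), Matrix.mul_nonsing_inv _ hu, Matrix.mul_one]
      rw [this, Matrix.neg_mul, Matrix.mul_assoc]
      exact neg_add_cancel _
    rw [h0] at h
    exact h
  have hc := constant_of_has_deriv_right_zero (f := fun s => (F s)⁻¹ * G s) (a := 0) (b := 1)
    (fun τ hτ => (hP τ hτ).continuousAt.continuousWithinAt)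
    (fun τ hτ => (hP τ ⟨hτ.1, hτ.2.le⟩).hasDerivWithinAt)
  exact hc 1 ⟨zero_le_one, le_rfl⟩

theorem QSys.det_J (Q : QSys N) {y w : ℂ} (h : y * Complex.exp w ∈ Q.Λ) :
    (Q.J y w).det ≠ 0 := by
  have hp := congrArg Matrix.det (Q.J_pair y w h)
  rw [Matrix.det_mul] at hp
  have h1 : (Q.χ.map (evq y)).det = evq y Q.χ.det := (RingHom.map_det (evq y) Q.χ).symm
  have h2 : evq y Q.χ.det ≠ 0 := (Q.χ_det.map (evq y)).ne_zero
  intro h0
  apply h2
  rw [← h1, ← hp, h0, mul_zero]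

theorem QSys.const_of_ode (Q : QSys N) {y w w' : ℂ}
    (hseg : ∀ τ ∈ Set.Icc (0 : ℝ) 1, y * Complex.exp (w' + τ * (w - w')) ∈ Q.Λ)
    (Y : ℂ → Matrix (Fin N) (Fin N) ℂ)
    (hY : ∀ τ ∈ Set.Icc (0 : ℝ) 1, ∀ i j, HasDerivAt (fun v => Y v i j)
      (((Matrix.diagonal Q.θ - Complex.exp (-(w' + τ * (w - w'))) •
        Q.C (y * Complex.exp (w' + τ * (w - w')))) * Y (w' + τ * (w - w'))) i j)
      (w' + τ * (w - w'))) :
    (Q.J y w)⁻¹ * Y w = (Q.J y w')⁻¹ * Y w' := by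
  have hv : ∀ τ : ℝ, HasDerivAt (fun s : ℝ => w' + (s : ℂ) * (w - w')) (w - w') τ := by
    intro τ
    have h1 : HasDerivAt (fun s : ℝ => (s : ℂ)) 1 τ := Complex.ofRealCLM.hasDerivAt
    have h2 := (h1.mul_const (w - w')).const_add w'
    simpa using h2
  have h := const_aux (fun τ : ℝ => Q.J y (w' + (τ : ℂ) * (w - w')))
    (fun τ : ℝ => Y (w' + (τ : ℂ) * (w - w')))
    (fun τ : ℝ => (w - w') • (Matrix.diagonal Q.θ - Complex.exp (-(w' + τ * (w - w'))) •
        Q.C (y * Complex.exp (w' + τ * (w - w')))))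
    (by
      intro τ hτ i j
      have h1 := Q.J_ode y (w' + τ * (w - w')) (hseg τ hτ) i j
      have h2 := HasDerivAt.comp τ h1 (hv τ)
      rw [Matrix.smul_mul, Matrix.smul_apply, smul_eq_mul, mul_comm]
      exact h2)
    (by
      intro τ hτ i j
      have h1 := hY τ hτ i j
      have h2 := HasDerivAt.comp τ h1 (hv τ)
      rw [Matrix.smul_mul, Matrix.smul_apply, smul_eq_mul, mul_comm]
      exact h2)
    (fun τ hτ => Q.det_J (hseg τ hτ))
  have e1 : w' + ((1 : ℝ) : ℂ) * (w - w') = w := by push_cast; ring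
  have e0 : w' + ((0 : ℝ) : ℂ) * (w - w') = w' := by push_cast; ring
  simp only [e1, e0] at h
  exact h

theorem QSys.branch (Q : QSys N) {y w w' : ℂ} (n : ℤ)
    (hseg : ∀ τ ∈ Set.Icc (0 : ℝ) 1, y * Complex.exp (w' + τ * (w - w')) ∈ Q.Λ) :
    Q.J y (w + 2 * Real.pi * Complex.I * n) * (Q.J y (w' + 2 * Real.pi * Complex.I * n))⁻¹ =
      Q.J y w * (Q.J y w')⁻¹ := by
  have hexp : ∀ v : ℂ, Complex.exp (v + 2 * Real.pi * Complex.I * n) = Complex.exp v := by
    intro v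
    have := Complex.exp_periodic.int_mul n v
    rw [← this]
    congr 1
    ring
  have hexpn : ∀ v : ℂ, Complex.exp (-(v + 2 * Real.pi * Complex.I * n)) = Complex.exp (-v) := by
    intro v
    rw [Complex.exp_neg, hexp, ← Complex.exp_neg]
  have h := Q.const_of_ode hseg (fun v => Q.J y (v + 2 * Real.pi * Complex.I * n)) (by
    intro τ hτ i j
    have hin : y * Complex.exp (w' + τ * (w - w') + 2 * Real.pi * Complex.I * n) ∈ Q.Λ := by
      rw [hexp]
      exact hseg τ hτ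
    have h1 := Q.J_ode y (w' + τ * (w - w') + 2 * Real.pi * Complex.I * n) hin i j
    rw [hexp, hexpn] at h1
    exact h1.comp_add_const _ _)
  have e1 : w' + ((1 : ℝ) : ℂ) * (w - w') = w := by push_cast; ring
  have e0 : w' + ((0 : ℝ) : ℂ) * (w - w') = w' := by push_cast; ring
  have hw : y * Complex.exp w ∈ Q.Λ := by
    have := hseg 1 ⟨zero_le_one, le_rfl⟩
    rwa [e1] at this
  have hw' : y * Complex.exp w' ∈ Q.Λ := by
    have := hseg 0 ⟨le_rfl, zero_le_one⟩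
    rwa [e0] at this
  have hJw : IsUnit (Q.J y w).det := isUnit_iff_ne_zero.mpr (Q.det_J hw)
  have hJw' : IsUnit (Q.J y w').det := isUnit_iff_ne_zero.mpr (Q.det_J hw')
  have hJc : (Q.J y (w + 2 * Real.pi * Complex.I * n)).det ≠ 0 := by
    apply Q.det_J
    rw [hexp]
    exact hw
  set M := (Q.J y w')⁻¹ * Q.J y (w' + 2 * Real.pi * Complex.I * n) with hM
  have hA : Q.J y (w + 2 * Real.pi * Complex.I * n) = Q.J y w * M := by
    rw [← h, ← Matrix.mul_assoc, Matrix.mul_nonsing_inv _ hJw, Matrix.one_mul]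
  have hB : Q.J y (w' + 2 * Real.pi * Complex.I * n) = Q.J y w' * M := by
    rw [hM, ← Matrix.mul_assoc, Matrix.mul_nonsing_inv _ hJw', Matrix.one_mul]
  have hMd : IsUnit M.det := by
    rw [isUnit_iff_ne_zero]
    intro h0
    apply hJc
    rw [hA, Matrix.det_mul, h0, mul_zero]
  rw [hA, hB, Matrix.mul_inv_rev, Matrix.mul_assoc, ← Matrix.mul_assoc M,
    Matrix.mul_nonsing_inv _ hMd, Matrix.one_mul]

end Pool.Agent.DST
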