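import Pool.Agent.DST.Abs

/-!
# Project DST, module Skew: consequences of unitarity for the transfer matrix

The pairing at `y` and at `y - 1` gives `g A(ε) = A(ε/(ε-1))ᵀ g` for small `ε` in the lower half plane;
the value and the derivative at `0` give the symmetry of `A(0)` and the skewness of `A'(0)`.
-/

open scoped BigOperators Topology
open Filter

namespace Pool.Agent.DST

variable {N : ℕ}

/-- The derivative of the transfer matrix at `ε = 0`. -/
noncomputable def DSys.A1 (D : DSys N) : Matrix (Fin N) (Fin N) ℂ :=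
  Matrix.of fun i j => deriv (fun e => D.A e i j) 0

private theorem qu_sub_one (y : ℂ) : qu (y - 1) = qu y := by
  apply Units.ext
  change Complex.exp (2 * Real.pi * Complex.I * (y - 1)) =
    Complex.exp (2 * Real.pi * Complex.I * y)
  rw [mul_sub, mul_one, Complex.exp_sub, Complex.exp_two_pi_mul_I, div_one]

private theorem evq_sub_one (y : ℂ) : evq (y - 1) = evq y := by
  unfold evq
  rw [qu_sub_one]

private theorem mul_cancel3 {P X Y Q : Matrix (Fin N) (Fin N) ℂ} (hP : P.det ≠ 0)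
    (hQ : Q.det ≠ 0) (h : P * X * Q = P * Y * Q) : X = Y := by
  have hP' : IsUnit P := (Matrix.isUnit_iff_isUnit_det P).2 (isUnit_iff_ne_zero.2 hP)
  have hQ' : IsUnit Q := (Matrix.isUnit_iff_isUnit_det Q).2 (isUnit_iff_ne_zero.2 hQ)
  exact hP'.mul_left_cancel (hQ'.mul_right_cancel h)

theorem DSys.iso (D : DSys N) : ∃ ρ > 0, ∀ ε : ℂ, ‖ε‖ < ρ → ε.im < 0 →
    D.g * D.A ε = (D.A (ε / (ε - 1))).transpose * D.g := by
  have hr : 0 < D.r⁻¹ := inv_pos.2 D.r_pos
  refine ⟨(D.r⁻¹ + 1)⁻¹, by positivity, ?_⟩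
  intro ε hε him
  have hε0 : ε ≠ 0 := by
    rintro rfl
    simp at him
  obtain ⟨y, hy⟩ : ∃ y : ℂ, y = ε⁻¹ := ⟨_, rfl⟩
  have hyim : 0 < y.im := by
    rw [hy, Complex.inv_im]
    exact div_pos (neg_pos.2 him) (Complex.normSq_pos.2 hε0)
  have hynorm : D.r⁻¹ + 1 < ‖y‖ := by
    rw [hy, norm_inv]
    exact (lt_inv_comm₀ (by positivity) (norm_pos_iff.2 hε0)).2 hε
  have s1 : y ∈ Complex.slitPlane := Complex.mem_slitPlane_iff.2 (Or.inr hyim.ne')
  have s2 : y - 1 ∈ Complex.slitPlane := by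
    refine Complex.mem_slitPlane_iff.2 (Or.inr ?_)
    rw [Complex.sub_im, Complex.one_im, sub_zero]
    exact hyim.ne'
  have s3 : -y ∈ Complex.slitPlane := by
    refine Complex.mem_slitPlane_iff.2 (Or.inr ?_)
    rw [Complex.neg_im]
    exact (neg_lt_zero.2 hyim).ne
  have s4 : 1 - y ∈ Complex.slitPlane := by
    refine Complex.mem_slitPlane_iff.2 (Or.inr ?_)
    rw [Complex.sub_im, Complex.one_im, zero_sub]
    exact (neg_lt_zero.2 hyim).ne
  have r1 := D.rel y s1 s2 (by linarith)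
  have r2 := D.rel (1 - y) s4 (by rw [sub_sub_cancel_left]; exact s3) (by
    have h1 := norm_sub_norm_le y 1
    rw [norm_one, norm_sub_rev] at h1
    linarith)
  rw [sub_sub_cancel_left] at r2
  have e1 : y⁻¹ = ε := by rw [hy, inv_inv]
  have e2 : (1 - y)⁻¹ = ε / (ε - 1) := by
    rw [hy, ← inv_div, sub_div, div_self hε0, one_div]
  rw [e1] at r1
  rw [e2] at r2
  have p1 := D.pair y hyim
  have p2 := D.pair (y - 1) (by rw [Complex.sub_im, Complex.one_im, sub_zero]; exact hyim)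
  rw [evq_sub_one, ← p1, neg_sub, r2, r1, Matrix.transpose_mul] at p2
  refine (mul_cancel3 (P := (D.F (-y)).transpose) (Q := D.F (y - 1)) ?_ (D.F_det _ s2) ?_).symm
  · rw [Matrix.det_transpose]
    exact D.F_det _ s3
  · simpa only [Matrix.mul_assoc] using p2

/-- a function which is differentiable at `0` and vanishes in the lower half plane near `0` -/
private theorem key {H : ℂ → ℂ} {H' : ℂ} (hd : HasDerivAt H H' 0) {ρ : ℝ} (hρ : 0 < ρ)
    (h : ∀ ε : ℂ, ‖ε‖ < ρ → ε.im < 0 → H ε = 0) : H 0 = 0 ∧ H' = 0 := by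
  have hc : HasDerivAt (fun t : ℝ => (-Complex.I) * (t : ℂ)) (-Complex.I) 0 := by
    have h1 := (Complex.ofRealCLM.hasDerivAt (x := (0 : ℝ))).const_mul (-Complex.I)
    have h2 : HasDerivAt (fun t : ℝ => (-Complex.I) * (t : ℂ)) (-Complex.I * (1 : ℂ)) 0 := h1
    rw [mul_one] at h2
    exact h2
  have hd' : HasDerivAt H H' ((fun t : ℝ => (-Complex.I) * (t : ℂ)) 0) := by
    have e : (fun t : ℝ => (-Complex.I) * (t : ℂ)) 0 = 0 := by simp
    rw [e]
    exact hd
  have hcomp : HasDerivAt (fun t : ℝ => H ((-Complex.I) * (t : ℂ))) (-Complex.I • H') 0 :=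
    hd'.scomp (0 : ℝ) hc
  have hev : ∀ᶠ t : ℝ in 𝓝[>] (0 : ℝ), H ((-Complex.I) * (t : ℂ)) = 0 := by
    filter_upwards [Ioo_mem_nhdsGT hρ] with t ht
    apply h
    · rw [norm_mul, norm_neg, Complex.norm_I, one_mul, Complex.norm_real, Real.norm_eq_abs,
        abs_of_pos ht.1]
      exact ht.2
    · simp
      exact ht.1
  have h0 : H 0 = 0 := by
    have h1 : Tendsto (fun t : ℝ => H ((-Complex.I) * (t : ℂ))) (𝓝[>] 0)
        (𝓝 (H ((-Complex.I) * ((0 : ℝ) : ℂ)))) :=
      (hcomp.continuousAt.tendsto).mono_left nhdsWithin_le_nhds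
    have h2 : Tendsto (fun t : ℝ => H ((-Complex.I) * (t : ℂ))) (𝓝[>] 0) (𝓝 0) :=
      tendsto_const_nhds.congr' (hev.mono fun t ht => ht.symm)
    have h3 := tendsto_nhds_unique h1 h2
    rw [Complex.ofReal_zero, mul_zero] at h3
    exact h3
  refine ⟨h0, ?_⟩
  have hev' : (fun t : ℝ => H ((-Complex.I) * (t : ℂ))) =ᶠ[𝓝[Set.Ici (0 : ℝ)] (0 : ℝ)] fun _ => (0 : ℂ) := by
    rw [← Set.Ioi_insert, nhdsWithin_insert]
    refine Filter.eventually_sup.2 ⟨?_, hev⟩
    have : H ((-Complex.I) * ((0 : ℝ) : ℂ)) = 0 := by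
      rw [Complex.ofReal_zero, mul_zero]
      exact h0
    exact Filter.eventually_pure.2 this
  have h4 : HasDerivWithinAt (fun t : ℝ => H ((-Complex.I) * (t : ℂ))) (0 : ℂ)
      (Set.Ici (0 : ℝ)) (0 : ℝ) :=
    (hasDerivWithinAt_const (0 : ℝ) (Set.Ici 0) (0 : ℂ)).congr_of_eventuallyEq hev' (by
      rw [Complex.ofReal_zero, mul_zero]
      exact h0)
  have h5 := (uniqueDiffWithinAt_Ici (0 : ℝ)).eq_deriv _ hcomp.hasDerivWithinAt h4
  rw [smul_eq_mul, neg_mul, neg_eq_zero] at h5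
  exact (mul_eq_zero.1 h5).resolve_left Complex.I_ne_zero

private theorem entry_deriv (D : DSys N) (i j : Fin N) :
    HasDerivAt (fun ε : ℂ => (∑ k, D.g i k * D.A ε k j) -
      ∑ k, D.A (ε / (ε - 1)) k i * D.g k j)
      ((∑ k, D.g i k * D.A1 k j) - ∑ k, -D.A1 k i * D.g k j) 0 := by
  have hA : ∀ k l, HasDerivAt (fun ε : ℂ => D.A ε k l) (D.A1 k l) 0 := fun k l =>
    (D.A_hol 0 (Metric.mem_ball_self D.r_pos) k l).hasDerivAt
  have hq : HasDerivAt (fun ε : ℂ => ε / (ε - 1)) (-1) 0 := by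
    have h1 := (hasDerivAt_id (0 : ℂ)).div ((hasDerivAt_id (0 : ℂ)).sub_const 1) (by simp)
    have h2 : (1 * (id (0 : ℂ) - 1) - id (0 : ℂ) * 1) / (id (0 : ℂ) - 1) ^ 2 = -1 := by
      simp
    rw [h2] at h1
    exact h1
  have hA' : ∀ k l, HasDerivAt (fun ε : ℂ => D.A (ε / (ε - 1)) k l) (-D.A1 k l) 0 := by
    intro k l
    have h1 : HasDerivAt (fun ε : ℂ => D.A ε k l) (D.A1 k l)
        ((fun ε : ℂ => ε / (ε - 1)) 0) := by
      have e : (fun ε : ℂ => ε / (ε - 1)) 0 = 0 := by simp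
      rw [e]
      exact hA k l
    have h2 := h1.comp (0 : ℂ) hq
    rw [mul_neg_one] at h2
    exact h2
  exact (HasDerivAt.fun_sum fun k _ => (hA k j).const_mul (D.g i k)).sub
    (HasDerivAt.fun_sum fun k _ => (hA' k i).mul_const (D.g k j))

private theorem entry_zero (D : DSys N) (i j : Fin N) :
    ((∑ k, D.g i k * D.A 0 k j) - ∑ k, D.A 0 k i * D.g k j = 0) ∧
      ((∑ k, D.g i k * D.A1 k j) - ∑ k, -D.A1 k i * D.g k j = 0) := by
  obtain ⟨ρ, hρ, h⟩ := D.iso
  have h1 := key (entry_deriv D i j) hρ (by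
    intro ε hε him
    have h2 := congrFun (congrFun (h ε hε him) i) j
    rw [Matrix.mul_apply, Matrix.mul_apply] at h2
    simp only [Matrix.transpose_apply] at h2
    rw [h2, sub_self])
  rw [zero_div] at h1
  exact h1

theorem DSys.symm0 (D : DSys N) : D.g * D.A 0 = (D.A 0).transpose * D.g := by
  ext i j
  rw [Matrix.mul_apply, Matrix.mul_apply]
  simp only [Matrix.transpose_apply]
  exact sub_eq_zero.1 (entry_zero D i j).1

theorem DSys.skew1 (D : DSys N) : D.g * D.A1 = -(D.A1.transpose * D.g) := by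
  ext i j
  rw [Matrix.neg_apply, Matrix.mul_apply, Matrix.mul_apply]
  simp only [Matrix.transpose_apply]
  rw [sub_eq_zero.1 (entry_zero D i j).2, ← Finset.sum_neg_distrib]
  exact Finset.sum_congr rfl fun k _ => neg_mul _ _

theorem DSys.skew (D : DSys N) (Ψ : Matrix (Fin N) (Fin N) ℂ) (j : Fin N) :
    (Ψ.transpose * D.g * D.A1 * Ψ) j j = 0 := by
  have h : (Ψ.transpose * D.g * D.A1 * Ψ).transpose = -(Ψ.transpose * D.g * D.A1 * Ψ) := by
    rw [Matrix.transpose_mul, Matrix.transpose_mul, Matrix.transpose_mul,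
      Matrix.transpose_transpose, D.g_symm, ← Matrix.mul_assoc D.A1.transpose,
      ← neg_eq_iff_eq_neg.2 D.skew1, Matrix.neg_mul, Matrix.mul_neg]
    simp only [Matrix.mul_assoc]
  have h1 := congrFun (congrFun h j) j
  rw [Matrix.transpose_apply, Matrix.neg_apply] at h1
  exact self_eq_neg.1 h1

end Pool.Agent.DST
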