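import Pool.Agent.DST.TInt

/-!
# Project DST, module T-Alg2: the integrality lemma (induction)

`A` integral, `Mᵀ A M = B`, `M` upper triangular with respect to `ρ` with diagonal entries `±1`, `B`
unitriangular with respect to `τ`. Then `M` is integral. The hypothesis `hH` says that `A` is unimodular on
every initial segment of `ρ`.
-/

open scoped BigOperators Topology

namespace Pool.Agent.DST

private theorem sq_one {a : ℂ} (h : a * a = 1) : IntC a := by
  rcases mul_self_eq_one_iff.1 h with h | h
  · rw [h]
    exact intC_one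
  · rw [h]
    exact intC_one.neg

private theorem aux (n : ℕ) : ∀ (ι : Type) [Fintype ι] [DecidableEq ι] (_ : Fintype.card ι < n)
    (ρ τ : ι → ℝ) (_ : Function.Injective ρ) (_ : Function.Injective τ) (A M B : Matrix ι ι ℂ)
    (_ : ∀ i j, IntC (A i j))
    (_ : ∀ (k : ι) (w : ι → ℂ), (∀ i, ρ k < ρ i → w i = 0) →
      (∀ j, ρ j ≤ ρ k → IntC (Matrix.vecMul w A j)) → ∀ i, IntC (w i))
    (_ : ∀ i j, ρ j < ρ i → M i j = 0) (_ : ∀ i, M i i * M i i = 1)
    (_ : ∀ i j, τ i < τ j → B i j = 0) (_ : ∀ i, B i i = 1)
    (_ : M.transpose * A * M = B) (i j : ι), IntC (M i j) := by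
  induction n with
  | zero =>
      intro ι _ _ hn
      exact absurd hn (Nat.not_lt_zero _)
  | succ n ih =>
    intro ι _ _ hn ρ τ hρ hτ A M B hA hH hM hMd hB hBd h i₀ j₀
    obtain ⟨s, -, hs⟩ := Finset.exists_min_image Finset.univ τ ⟨i₀, Finset.mem_univ _⟩
    have hBs : ∀ j, j ≠ s → B s j = 0 := fun j hj =>
      hB s j (lt_of_le_of_ne (hs j (Finset.mem_univ _)) (fun e => hj (hτ e).symm))
    set v : ι → ℂ := fun i => M i s with hv
    set ε : ℂ := M s s with hε
    have hεε : ε * ε = 1 := hMd s
    have hεI : IntC ε := sq_one hεε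
    set r : ι → ℂ := fun j => ∑ i, v i * A i j with hr
    set u : ι → ℂ := fun i => ∑ j, A i j * v j with hu
    have hvs : v s = ε := rfl
    have hv0 : ∀ i, ρ s < ρ i → v i = 0 := fun i hi => hM i s hi
    have F1 : ∀ k, ∑ j, r j * M j k = B s k := by
      intro k
      rw [← h]
      simp only [Matrix.mul_apply, Matrix.transpose_apply]
      rfl
    have F2 : ∀ j, ρ j < ρ s → r j = 0 := by
      by_contra hc
      push Not at hc
      obtain ⟨j₁, hj₁, hj₁'⟩ := hc
      obtain ⟨j, hj, hmin⟩ := Finset.exists_min_image
        (Finset.univ.filter fun j => ρ j < ρ s ∧ r j ≠ 0) ρ ⟨j₁, by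
          rw [Finset.mem_filter]; exact ⟨Finset.mem_univ _, hj₁, hj₁'⟩⟩
      rw [Finset.mem_filter] at hj
      have h1 : ∑ i, r i * M i j = r j * M j j := by
        refine Finset.sum_eq_single j ?_ (fun h => absurd (Finset.mem_univ _) h)
        intro i _ hij
        rcases lt_or_gt_of_ne (fun e => hij (hρ e) : ρ i ≠ ρ j) with h2 | h2
        · have h3 : r i = 0 := by
            by_contra hri
            exact absurd (hmin i (by
              rw [Finset.mem_filter]
              exact ⟨Finset.mem_univ _, h2.trans hj.2.1, hri⟩)) (not_le.2 h2)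
          rw [h3, zero_mul]
        · rw [hM i j h2, mul_zero]
      have h2 : B s j = 0 := hBs j (fun e => by
        have h3 := hj.2.1
        rw [e] at h3
        exact lt_irrefl _ h3)
      rw [F1, h2] at h1
      have h3 : r j = 0 := by
        calc r j = (r j * M j j) * M j j := by rw [mul_assoc, hMd, mul_one]
          _ = 0 := by rw [← h1, zero_mul]
      exact hj.2.2 h3
    have F2s : r s = ε := by
      have h1 : ∑ i, r i * M i s = r s * M s s := by
        refine Finset.sum_eq_single s ?_ (fun h => absurd (Finset.mem_univ _) h)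
        intro i _ hij
        rcases lt_or_gt_of_ne (fun e => hij (hρ e) : ρ i ≠ ρ s) with h2 | h2
        · rw [F2 i h2, zero_mul]
        · rw [hM i s h2, mul_zero]
      rw [F1, hBd] at h1
      calc r s = (r s * M s s) * ε := by rw [mul_assoc, hεε, mul_one]
        _ = ε := by rw [← h1, one_mul]
    have hrv : ∑ j, r j * v j = 1 := by rw [← hBd s, ← F1 s]
    have hvu : ∑ i, v i * u i = 1 := by
      rw [← hrv]
      simp only [hr, hu, Finset.mul_sum, Finset.sum_mul]
      rw [Finset.sum_comm]
      refine Finset.sum_congr rfl fun j _ => Finset.sum_congr rfl fun i _ => ?_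
      ring
    have hvI : ∀ i, IntC (v i) := by
      refine hH s v hv0 ?_
      intro j hj
      have e : Matrix.vecMul v A j = r j := rfl
      rw [e]
      rcases lt_or_eq_of_le hj with h1 | h1
      · rw [F2 j h1]
        exact intC_zero
      · rw [hρ h1, F2s]
        exact hεI
    have hrI : ∀ j, IntC (r j) := fun j => IntC.sum _ fun i _ => (hvI i).mul (hA i j)
    have huI : ∀ i, IntC (u i) := fun i => IntC.sum _ fun j _ => (hA i j).mul (hvI j)
    set P : Matrix ι {i // i ≠ s} ℂ := fun i l => (if i = l.1 then 1 else 0) - v i * r l.1 with hP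
    set M₂ : Matrix {i // i ≠ s} {i // i ≠ s} ℂ :=
      fun i j => M i.1 j.1 - ε * v i.1 * M s j.1 with hM₂
    set A₂ : Matrix {i // i ≠ s} {i // i ≠ s} ℂ := fun i j => A i.1 j.1 - u i.1 * r j.1 with hA₂
    have hrM : ∀ j : {i // i ≠ s}, ∑ l : {i // i ≠ s}, r l.1 * M l.1 j.1 = - (ε * M s j.1) := by
      intro j
      have h1 := F1 j.1
      rw [hBs j.1 j.2, Fintype.sum_eq_add_sum_subtype_ne _ s, F2s] at h1
      linear_combination h1
    have hrv' : ∑ l : {i // i ≠ s}, r l.1 * v l.1 = 0 := by
      have h1 := hrv
      rw [Fintype.sum_eq_add_sum_subtype_ne _ s, F2s, hvs] at h1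
      linear_combination h1 - hεε
    have hrM₂ : ∀ j : {i // i ≠ s}, ∑ l : {i // i ≠ s}, r l.1 * M₂ l j = - (ε * M s j.1) := by
      intro j
      have h1 : ∑ l : {i // i ≠ s}, r l.1 * M₂ l j =
          ∑ l : {i // i ≠ s}, r l.1 * M l.1 j.1 -
            (ε * M s j.1) * ∑ l : {i // i ≠ s}, r l.1 * v l.1 := by
        rw [Finset.mul_sum, ← Finset.sum_sub_distrib]
        refine Finset.sum_congr rfl fun l _ => ?_
        simp only [hM₂]
        ring
      rw [h1, hrM, hrv', mul_zero, sub_zero]
    have hPM : ∀ (i : ι) (j : {i // i ≠ s}), (P * M₂) i j = M i j.1 := by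
      intro i j
      rw [Matrix.mul_apply]
      have h1 : ∑ l, P i l * M₂ l j = ∑ l : {i // i ≠ s}, (if i = l.1 then M₂ l j else 0) -
          v i * ∑ l : {i // i ≠ s}, r l.1 * M₂ l j := by
        rw [Finset.mul_sum, ← Finset.sum_sub_distrib]
        refine Finset.sum_congr rfl fun l _ => ?_
        simp only [hP]
        split_ifs <;> ring
      rw [h1, hrM₂]
      by_cases hi : i = s
      · have h2 : ∑ l : {i // i ≠ s}, (if i = l.1 then M₂ l j else 0) = 0 := by
          refine Finset.sum_eq_zero fun l _ => ?_
          rw [if_neg]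
          intro e
          exact l.2 (e.symm.trans hi)
        rw [h2, hi, hvs]
        linear_combination M s j.1 * hεε
      · have h2 : ∑ l : {i // i ≠ s}, (if i = l.1 then M₂ l j else 0) = M₂ ⟨i, hi⟩ j := by
          rw [Finset.sum_eq_single ⟨i, hi⟩]
          · rw [if_pos rfl]
          · intro l _ hl
            rw [if_neg]
            intro e
            exact hl (Subtype.ext e.symm)
          · exact fun h => absurd (Finset.mem_univ _) h
        rw [h2]
        simp only [hM₂]
        ring
    have hAP : ∀ (i : ι) (l : {i // i ≠ s}), (A * P) i l = A i l.1 - u i * r l.1 := by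
      intro i l
      rw [Matrix.mul_apply]
      have h1 : ∑ j, A i j * P j l = ∑ j, (if j = l.1 then A i j else 0) -
          (∑ j, A i j * v j) * r l.1 := by
        rw [Finset.sum_mul, ← Finset.sum_sub_distrib]
        refine Finset.sum_congr rfl fun j _ => ?_
        simp only [hP]
        split_ifs <;> ring
      rw [h1, Finset.sum_ite_eq' Finset.univ l.1 (fun j => A i j), if_pos (Finset.mem_univ _)]
    have hPAP : P.transpose * A * P = A₂ := by
      ext k l
      rw [Matrix.mul_assoc, Matrix.mul_apply]
      simp only [hAP, Matrix.transpose_apply]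
      have hgen : ∀ (a b : ℂ) (g v' u' : ι → ℂ),
          ∑ i, ((if i = k.1 then 1 else 0) - v' i * a) * (g i - u' i * b) =
            (g k.1 - u' k.1 * b) - a * ((∑ i, v' i * g i) - (∑ i, v' i * u' i) * b) := by
        intro a b g v' u'
        have e1 : ∑ i, ((if i = k.1 then 1 else 0) - v' i * a) * (g i - u' i * b) =
            ∑ i, (if i = k.1 then g i - u' i * b else 0) -
              a * ((∑ i, v' i * g i) - (∑ i, v' i * u' i) * b) := by
          rw [Finset.sum_mul, ← Finset.sum_sub_distrib, Finset.mul_sum, ← Finset.sum_sub_distrib]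
          refine Finset.sum_congr rfl fun j _ => ?_
          split_ifs <;> ring
        rw [e1, Finset.sum_ite_eq' Finset.univ k.1 (fun i => g i - u' i * b),
          if_pos (Finset.mem_univ _)]
      have h1 : ∑ i, P i k * (A i l.1 - u i * r l.1) =
          (A k.1 l.1 - u k.1 * r l.1) -
            r k.1 * ((∑ i, v i * A i l.1) - (∑ i, v i * u i) * r l.1) :=
        hgen (r k.1) (r l.1) (fun i => A i l.1) v u
      rw [h1, hvu]
      have h2 : ∑ i, v i * A i l.1 = r l.1 := rfl
      rw [h2]
      simp only [hA₂]
      ring
    have hfin : M₂.transpose * A₂ * M₂ = B.submatrix Subtype.val Subtype.val := by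
      have h1 : M₂.transpose * A₂ * M₂ = (P * M₂).transpose * A * (P * M₂) := by
        rw [← hPAP, Matrix.transpose_mul]
        simp only [Matrix.mul_assoc]
      have h2 : P * M₂ = M.submatrix id Subtype.val := by
        ext i j
        exact hPM i j
      rw [h1, h2, ← h]
      ext i j
      simp only [Matrix.mul_apply, Matrix.transpose_apply, Matrix.submatrix_apply, id]
    have hcard : Fintype.card {i // i ≠ s} < n := by
      have h1 : Fintype.card {i // i ≠ s} < Fintype.card ι :=
        Fintype.card_subtype_lt (x := s) (by simp)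
      omega
    have hM₂I := ih {i // i ≠ s} hcard (fun i => ρ i.1) (fun i => τ i.1)
      (fun a b e => Subtype.ext (hρ e)) (fun a b e => Subtype.ext (hτ e)) A₂ M₂
      (B.submatrix Subtype.val Subtype.val)
      (fun i j => (hA i.1 j.1).sub ((huI i.1).mul (hrI j.1))) ?_ ?_ ?_
      (fun i j e => hB i.1 j.1 e) (fun i => hBd i.1) hfin
    · by_cases hj : j₀ = s
      · rw [hj]
        exact hvI i₀
      · rw [← hPM i₀ ⟨j₀, hj⟩, Matrix.mul_apply]
        refine IntC.sum _ fun l _ => IntC.mul ?_ (hM₂I _ _)
        refine IntC.sub ?_ ((hvI _).mul (hrI _))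
        split_ifs
        · exact intC_one
        · exact intC_zero
    · -- unimodularity
      intro k w hw hwA
      set W : ι → ℂ := fun i => if hi : i ≠ s then w ⟨i, hi⟩ else 0 with hW
      have hWs : W s = 0 := by simp [hW]
      have hWc : ∀ i : {i // i ≠ s}, W i.1 = w i := by
        intro i
        simp only [hW]
        rw [dif_pos i.2]
      have hWsup : ∀ i, ρ k.1 < ρ i → W i = 0 := by
        intro i hi
        by_cases his : i = s
        · rw [his, hWs]
        · have h1 := hWc ⟨i, his⟩
          simp only at h1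
          rw [h1]
          exact hw ⟨i, his⟩ hi
      have hsum : ∀ f : ι → ℂ, ∑ i : {i // i ≠ s}, w i * f i.1 = ∑ i, W i * f i := by
        intro f
        rw [Fintype.sum_eq_add_sum_subtype_ne _ s, hWs, zero_mul, zero_add]
        exact Finset.sum_congr rfl fun i _ => by rw [hWc]
      have hvm : ∀ j : {i // i ≠ s}, Matrix.vecMul w A₂ j =
          (∑ i, W i * A i j.1) - (∑ i, W i * u i) * r j.1 := by
        intro j
        have h1 : Matrix.vecMul w A₂ j = ∑ i, w i * A₂ i j := rfl
        rw [h1, ← hsum (fun i => A i j.1), ← hsum u, Finset.sum_mul, ← Finset.sum_sub_distrib]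
        refine Finset.sum_congr rfl fun i _ => ?_
        simp only [hA₂]
        ring
      have hks : ρ k.1 ≠ ρ s := fun e => k.2 (hρ e)
      rcases lt_or_gt_of_ne hks with h1 | h1
      · have h2 : ∀ i, IntC (W i) := by
          refine hH k.1 W hWsup ?_
          intro j hj
          have hjs : j ≠ s := by
            intro e
            rw [e] at hj
            exact absurd hj (not_le.2 h1)
          have h3 := hwA ⟨j, hjs⟩ hj
          rw [hvm] at h3
          simp only [F2 j (lt_of_le_of_lt hj h1), mul_zero, sub_zero] at h3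
          exact h3
        intro i
        rw [← hWc]
        exact h2 _
      · set x : ℂ := ∑ i, W i * u i with hx
        have hw' : ∀ j, Matrix.vecMul (fun i => W i - x * v i) A j =
            (∑ i, W i * A i j) - x * r j := by
          intro j
          have h2 : Matrix.vecMul (fun i => W i - x * v i) A j =
            ∑ i, (W i - x * v i) * A i j := rfl
          rw [h2]
          simp only [hr]
          rw [Finset.mul_sum, ← Finset.sum_sub_distrib]
          exact Finset.sum_congr rfl fun i _ => by ring
        have hdot : ∑ j, Matrix.vecMul (fun i => W i - x * v i) A j * v j = 0 := by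
          have h2 : ∑ j, Matrix.vecMul (fun i => W i - x * v i) A j * v j =
              (∑ j, (∑ i, W i * A i j) * v j) - x * ∑ j, r j * v j := by
            rw [Finset.mul_sum, ← Finset.sum_sub_distrib]
            refine Finset.sum_congr rfl fun j _ => ?_
            rw [hw' j]
            ring
          have h3 : ∑ j, (∑ i, W i * A i j) * v j = x := by
            simp only [hx, hu, Finset.mul_sum, Finset.sum_mul]
            rw [Finset.sum_comm]
            refine Finset.sum_congr rfl fun j _ => Finset.sum_congr rfl fun i _ => ?_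
            ring
          rw [h2, h3, hrv, mul_one, sub_self]
        have hne : ∀ j, j ≠ s → ρ j ≤ ρ k.1 →
            IntC (Matrix.vecMul (fun i => W i - x * v i) A j) := by
          intro j hjs hj
          have h3 := hwA ⟨j, hjs⟩ hj
          rw [hvm] at h3
          rw [hw']
          exact h3
        have hat : IntC (Matrix.vecMul (fun i => W i - x * v i) A s) := by
          have h2 := hdot
          rw [Fintype.sum_eq_add_sum_subtype_ne _ s, hvs] at h2
          have h3 : Matrix.vecMul (fun i => W i - x * v i) A s =
              -(ε * ∑ j : {i // i ≠ s}, Matrix.vecMul (fun i => W i - x * v i) A j.1 * v j.1) := by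
            linear_combination ε * h2 - Matrix.vecMul (fun i => W i - x * v i) A s * hεε
          rw [h3]
          refine (hεI.mul (IntC.sum _ fun j _ => ?_)).neg
          by_cases hj : ρ j.1 ≤ ρ s
          · exact (hne j.1 j.2 (hj.trans h1.le)).mul (hvI _)
          · rw [hv0 _ (not_le.1 hj), mul_zero]
            exact intC_zero
        have hI : ∀ i, IntC (W i - x * v i) := by
          refine hH k.1 (fun i => W i - x * v i) ?_ ?_
          · intro i hi
            show W i - x * v i = 0
            rw [hWsup i hi, hv0 i (h1.trans hi), mul_zero, sub_zero]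
          · intro j hj
            by_cases hjs : j = s
            · rw [hjs]
              exact hat
            · exact hne j hjs hj
        have hxI : IntC x := by
          have h2 := hI s
          rw [hWs, hvs] at h2
          have h3 : x = -((0 - x * ε) * ε) := by
            linear_combination -(x * hεε)
          rw [h3]
          exact (h2.mul hεI).neg
        intro i
        rw [← hWc]
        have h2 : W i.1 = (W i.1 - x * v i.1) + x * v i.1 := by ring
        rw [h2]
        exact (hI _).add (hxI.mul (hvI _))
    · -- triangular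
      intro i j hij
      have hij' : ρ j.1 < ρ i.1 := hij
      show M i.1 j.1 - ε * v i.1 * M s j.1 = 0
      rw [hM i.1 j.1 hij']
      by_cases h1 : ρ s < ρ i.1
      · rw [hv0 _ h1]
        ring
      · have h2 : ρ j.1 < ρ s := lt_of_lt_of_le hij' (not_lt.1 h1)
        rw [hM s j.1 h2]
        ring
    · -- diagonal
      intro i
      have h1 : M₂ i i = M i.1 i.1 := by
        show M i.1 i.1 - ε * v i.1 * M s i.1 = M i.1 i.1
        rcases lt_or_gt_of_ne (fun e => i.2 (hρ e) : ρ i.1 ≠ ρ s) with h2 | h2
        · rw [hM s i.1 h2]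
          ring
        · rw [hv0 _ h2]
          ring
      rw [h1]
      exact hMd i.1

theorem gram_integral {ι : Type} [Fintype ι] [DecidableEq ι] {ρ τ : ι → ℝ}
    (hρ : Function.Injective ρ) (hτ : Function.Injective τ) {A M B : Matrix ι ι ℂ}
    (hA : ∀ i j, IntC (A i j))
    (hH : ∀ (k : ι) (w : ι → ℂ), (∀ i, ρ k < ρ i → w i = 0) →
      (∀ j, ρ j ≤ ρ k → IntC (Matrix.vecMul w A j)) → ∀ i, IntC (w i))
    (hM : ∀ i j, ρ j < ρ i → M i j = 0) (hMd : ∀ i, M i i * M i i = 1)
    (hB : ∀ i j, τ i < τ j → B i j = 0) (hBd : ∀ i, B i i = 1)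
    (h : M.transpose * A * M = B) (i j : ι) : IntC (M i j) := by
  exact aux (Fintype.card ι + 1) ι (Nat.lt_succ_self _) ρ τ hρ hτ A M B hA hH hM hMd hB hBd h i j

end Pool.Agent.DST
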