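import Pool.Agent.DST.TAlg1
import Pool.Agent.DST.TAlg2

/-!
# Project DST, module T-Alg: the algebraic lemma

`uni_of_tri`: solving a unitriangular system over the integers, from the largest value of `σ` downwards.
`gram_alg`: `diag_sq`, `uni_of_tri` and `gram_integral`.
-/

open scoped BigOperators Topology

namespace Pool.Agent.DST

theorem uni_of_tri {ι : Type} [Fintype ι] [DecidableEq ι] {ρ σ : ι → ℝ}
    (hσ : Function.Injective σ) {A : Matrix ι ι ℂ} (hA : ∀ i j, IntC (A i j))
    (hAt : ∀ i j, σ i < σ j → A i j = 0) (hAd : ∀ i, A i i = 1) (k : ι) (w : ι → ℂ)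
    (hw : ∀ i, ρ k < ρ i → w i = 0) (hj : ∀ j, ρ j ≤ ρ k → IntC (Matrix.vecMul w A j)) (i : ι) :
    IntC (w i) := by
  classical
  have key : ∀ (n : ℕ) (i : ι), (Finset.univ.filter fun x => σ i < σ x).card = n → IntC (w i) := by
    intro n
    induction n using Nat.strong_induction_on with
    | _ n ih =>
      intro i hi
      by_cases h : ρ k < ρ i
      · rw [hw i h]; exact intC_zero
      · have h1 := hj i (not_lt.1 h)
        have h2 : Matrix.vecMul w A i = w i + ∑ x ∈ Finset.univ.erase i, w x * A x i := by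
          show ∑ x, w x * A x i = _
          rw [← Finset.add_sum_erase Finset.univ _ (Finset.mem_univ i), hAd i, mul_one]
        have h3 : IntC (∑ x ∈ Finset.univ.erase i, w x * A x i) := by
          refine IntC.sum _ fun x hx => ?_
          have hxi : x ≠ i := Finset.ne_of_mem_erase hx
          rcases lt_trichotomy (σ x) (σ i) with h4 | h4 | h4
          · rw [hAt x i h4, mul_zero]; exact intC_zero
          · exact absurd (hσ h4) hxi
          · refine IntC.mul (ih _ ?_ x rfl) (hA x i)
            rw [← hi]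
            refine Finset.card_lt_card ⟨fun y hy => ?_, fun hss => ?_⟩
            · rw [Finset.mem_filter] at hy ⊢
              exact ⟨hy.1, h4.trans hy.2⟩
            · have h5 := hss (Finset.mem_filter.2 ⟨Finset.mem_univ x, h4⟩)
              exact lt_irrefl _ (Finset.mem_filter.1 h5).2
        have h4 := h1.sub h3
        rw [h2, add_sub_cancel_right] at h4
        exact h4
  exact key _ i rfl

theorem gram_alg {ι : Type} [Fintype ι] [DecidableEq ι] {ρ σ τ : ι → ℝ}
    (hρ : Function.Injective ρ) (hσ : Function.Injective σ) (hτ : Function.Injective τ)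
    {A M B : Matrix ι ι ℂ} (hA : ∀ i j, IntC (A i j)) (hAt : ∀ i j, σ i < σ j → A i j = 0)
    (hAd : ∀ i, A i i = 1) (hB : ∀ i j, τ i < τ j → B i j = 0) (hBd : ∀ i, B i i = 1)
    (hM : ∀ i j, ρ j < ρ i → M i j = 0) (h : M.transpose * A * M = B) (i j : ι) :
    IntC (M i j) :=
  gram_integral hρ hτ hA (fun k w hw hj i => uni_of_tri hσ hA hAt hAd k w hw hj i) hM
    (diag_sq hρ hσ hτ hAt hAd hB hBd hM h) hB hBd h i j

end Pool.Agent.DST
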