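import Mathlib

/-!
# Project DST, module T-Alg1: triangular matrices with respect to an injective function to `ℝ`

PLAN.
* `det_tri`: `Matrix.BlockTriangular B (OrderDual.toDual ∘ σ)` or for the transpose; then
  `Matrix.BlockTriangular.det` / `det_fintype`, each block has one index because `σ` is injective; or order
  `ι` by `σ` (`LinearOrder.lift' σ hσ` as a local instance) and use `Matrix.det_of_lowerTriangular`.
* `diag_sq`: strong induction on `ρ i` (finite set, `hρ`): put `I = {j | ρ j ≤ ρ i}` (subtype). Because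
  `M a j = 0` for `j ∈ I`, `a ∉ I`, the submatrices satisfy `M_Iᵀ A_I M_I = B_I`; determinants by `det_tri`
  (restricted functions stay injective): `det A_I = 1 = det B_I`, `det M_I = ∏_{j ∈ I} M j j`. So
  `∏_{j ∈ I} (M j j)² = 1`, and the same for `{j | ρ j < ρ i}` by the induction hypothesis
  (all factors `1`), hence `(M i i)² = 1`.
-/

open scoped BigOperators Topology

namespace Pool.Agent.DST

theorem det_tri {ι : Type} [Fintype ι] [DecidableEq ι] {σ : ι → ℝ} (hσ : Function.Injective σ)
    {B : Matrix ι ι ℂ} (hB : ∀ i j, σ i < σ j → B i j = 0) : B.det = ∏ i, B i i := by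
  classical
  let _ : LinearOrder ι := LinearOrder.lift' σ hσ
  have h := Matrix.det_of_isLowerTriangular B (fun i j hij => hB i j hij)
  rw [← h]

private theorem sum_restrict {ι : Type} [Fintype ι] (P : ι → Prop) [DecidablePred P] (f : ι → ℂ)
    (hf : ∀ a, ¬ P a → f a = 0) : ∑ a : {a // P a}, f a.1 = ∑ a, f a := by
  have h := Fintype.sum_subtype_add_sum_subtype P f
  have h0 : ∑ a : {a // ¬ P a}, f a.1 = 0 := Finset.sum_eq_zero fun a _ => hf a.1 a.2
  rw [h0, add_zero] at h
  exact h

private theorem prod_sq {ι : Type} [Fintype ι] [DecidableEq ι] {ρ σ τ : ι → ℝ}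
    (hρ : Function.Injective ρ) (hσ : Function.Injective σ) (hτ : Function.Injective τ)
    {A M B : Matrix ι ι ℂ} (hA : ∀ i j, σ i < σ j → A i j = 0) (hAd : ∀ i, A i i = 1)
    (hB : ∀ i j, τ i < τ j → B i j = 0) (hBd : ∀ i, B i i = 1)
    (hM : ∀ i j, ρ j < ρ i → M i j = 0) (h : M.transpose * A * M = B)
    (P : ι → Prop) [DecidablePred P] (hP : ∀ a j, P j → ¬ P a → M a j = 0) :
    ∏ j : {j // P j}, (M j.1 j.1 * M j.1 j.1) = 1 := by
  set e : {j // P j} → ι := Subtype.val with he
  have hinj : Function.Injective e := Subtype.val_injective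
  have key : (M.submatrix e e).transpose * (A.submatrix e e) * (M.submatrix e e) =
      B.submatrix e e := by
    ext j k
    rw [← h]
    simp only [Matrix.mul_apply, Matrix.submatrix_apply, Matrix.transpose_apply]
    rw [← sum_restrict P (fun b => (∑ a, M a (e j) * A a b) * M b (e k))
      (fun b hb => by rw [hP b (e k) k.2 hb, mul_zero])]
    refine Finset.sum_congr rfl fun b _ => ?_
    congr 1
    exact sum_restrict P (fun a => M a (e j) * A a b.1)
      (fun a ha => by rw [hP a (e j) j.2 ha, zero_mul])
  have dA : (A.submatrix e e).det = 1 := by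
    rw [det_tri (B := A.submatrix e e) (σ := fun j => σ (e j)) (hσ.comp hinj)
      (fun i j hij => hA (e i) (e j) hij)]
    exact Finset.prod_eq_one fun j _ => hAd (e j)
  have dB : (B.submatrix e e).det = 1 := by
    rw [det_tri (B := B.submatrix e e) (σ := fun j => τ (e j)) (hτ.comp hinj)
      (fun i j hij => hB (e i) (e j) hij)]
    exact Finset.prod_eq_one fun j _ => hBd (e j)
  have dM : (M.submatrix e e).det = ∏ j : {j // P j}, M j.1 j.1 := by
    exact det_tri (B := M.submatrix e e) (σ := fun j => - ρ (e j))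
      (fun i j hij => hinj (hρ (neg_injective hij)))
      (fun i j hij => hM (e i) (e j) (by simpa using hij))
  have hd := congrArg Matrix.det key
  rw [Matrix.det_mul, Matrix.det_mul, Matrix.det_transpose, dA, dB, dM, mul_one,
    ← Finset.prod_mul_distrib] at hd
  exact hd

theorem diag_sq {ι : Type} [Fintype ι] [DecidableEq ι] {ρ σ τ : ι → ℝ}
    (hρ : Function.Injective ρ) (hσ : Function.Injective σ) (hτ : Function.Injective τ)
    {A M B : Matrix ι ι ℂ} (hA : ∀ i j, σ i < σ j → A i j = 0) (hAd : ∀ i, A i i = 1)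
    (hB : ∀ i j, τ i < τ j → B i j = 0) (hBd : ∀ i, B i i = 1)
    (hM : ∀ i j, ρ j < ρ i → M i j = 0) (h : M.transpose * A * M = B) (i : ι) :
    M i i * M i i = 1 := by
  classical
  have h1 := prod_sq hρ hσ hτ hA hAd hB hBd hM h (fun j => ρ j ≤ ρ i)
    (fun a j hj ha => hM a j (by
      simp only [not_le] at ha
      exact lt_of_le_of_lt hj ha))
  have h2 := prod_sq hρ hσ hτ hA hAd hB hBd hM h (fun j => ρ j < ρ i)
    (fun a j hj ha => hM a j (by
      simp only [not_lt] at ha
      exact lt_of_lt_of_le hj ha))
  rw [← Finset.prod_subtype (Finset.univ.filter fun j => ρ j ≤ ρ i) (by simp)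
    (fun j => M j j * M j j)] at h1
  rw [← Finset.prod_subtype (Finset.univ.filter fun j => ρ j < ρ i) (by simp)
    (fun j => M j j * M j j)] at h2
  have h3 : (Finset.univ.filter fun j => ρ j ≤ ρ i) =
      insert i (Finset.univ.filter fun j => ρ j < ρ i) := by
    ext j
    simp only [Finset.mem_filter, Finset.mem_univ, true_and, Finset.mem_insert]
    constructor
    · intro hj
      rcases lt_or_eq_of_le hj with h4 | h4
      · exact Or.inr h4
      · exact Or.inl (hρ h4)
    · rintro (rfl | h4)
      · exact le_refl _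
      · exact h4.le
  rw [h3, Finset.prod_insert (by simp), h2, mul_one] at h1
  exact h1

end Pool.Agent.DST
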