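import Pool.Agent.DST.TDefs

/-!
# Project DST, module T-Char: the discriminant is holomorphic

PLAN. The coefficients of the characteristic polynomial are polynomials in the entries:
`Matrix.charpoly.univ`, `Matrix.charpoly.univ_map_eval₂Hom` (`Mathlib.LinearAlgebra.Matrix.Charpoly.Univ`):
`(A s).charpoly.coeff k = MvPolynomial.eval (entries) (...)`, differentiable by induction on the
`MvPolynomial`. `aeval A p' = ∑_{k<N} p'.coeff k • A ^ k` (`Polynomial.aeval_eq_sum_range'`, degree `< N`;
`natDegree` of the characteristic polynomial is `N`), entries of `A s ^ k` are differentiable (induction), and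
`det` is a finite sum of products (`Matrix.det_apply`).
-/

open scoped BigOperators Topology
open Filter

namespace Pool.Agent.DST

variable {N : ℕ}

private theorem mv_hol {A : ℂ → Matrix (Fin N) (Fin N) ℂ} {s : ℂ}
    (hA : ∀ i j, DifferentiableAt ℂ (fun s => A s i j) s) (p : MvPolynomial (Fin N × Fin N) ℂ) :
    DifferentiableAt ℂ (fun s => MvPolynomial.eval (fun q : Fin N × Fin N => A s q.1 q.2) p) s := by
  induction p using MvPolynomial.induction_on with
  | C a =>
    simp only [MvPolynomial.eval_C]
    exact differentiableAt_const _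
  | add p q hp hq =>
    simp only [map_add]
    exact hp.add hq
  | mul_X p n hp =>
    simp only [map_mul, MvPolynomial.eval_X]
    exact hp.mul (hA n.1 n.2)

theorem char_coeff_hol {A : ℂ → Matrix (Fin N) (Fin N) ℂ} {s : ℂ}
    (hA : ∀ i j, DifferentiableAt ℂ (fun s => A s i j) s) (k : ℕ) :
    DifferentiableAt ℂ (fun s => (A s).charpoly.coeff k) s := by
  classical
  have h : ∀ s, (A s).charpoly.coeff k =
      MvPolynomial.eval (fun q : Fin N × Fin N => A s q.1 q.2)
        ((Matrix.charpoly.univ ℂ (Fin N)).coeff k) := by
    intro s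
    have h1 := Matrix.charpoly.univ_map_eval₂Hom (n := Fin N) (RingHom.id ℂ)
      (fun q : Fin N × Fin N => A s q.1 q.2)
    have h2 := congrArg (fun p => p.coeff k) h1
    simp only [Polynomial.coeff_map] at h2
    have h3 : (Matrix.of (Function.curry fun q : Fin N × Fin N => A s q.1 q.2)) = A s := rfl
    rw [h3] at h2
    rw [← h2]
    rfl
  simp only [h]
  exact mv_hol hA _

private theorem pow_hol {A : ℂ → Matrix (Fin N) (Fin N) ℂ} {s : ℂ}
    (hA : ∀ i j, DifferentiableAt ℂ (fun s => A s i j) s) (k : ℕ) :
    ∀ i j, DifferentiableAt ℂ (fun s => (A s ^ k) i j) s := by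
  induction k with
  | zero =>
    intro i j
    simp only [pow_zero]
    exact differentiableAt_const _
  | succ k ih =>
    intro i j
    simp only [pow_succ, Matrix.mul_apply]
    exact DifferentiableAt.fun_sum fun l _ => (ih i l).mul (hA l j)

private theorem det_hol {B : ℂ → Matrix (Fin N) (Fin N) ℂ} {s : ℂ}
    (hB : ∀ i j, DifferentiableAt ℂ (fun s => B s i j) s) :
    DifferentiableAt ℂ (fun s => (B s).det) s := by
  classical
  simp only [Matrix.det_apply]
  refine DifferentiableAt.fun_sum fun σ _ => ?_
  refine DifferentiableAt.const_smul ?_ _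
  exact DifferentiableAt.fun_finsetProd fun i _ => hB _ _

theorem dsc_hol {A : ℂ → Matrix (Fin N) (Fin N) ℂ} {s : ℂ}
    (hA : ∀ i j, DifferentiableAt ℂ (fun s => A s i j) s) :
    DifferentiableAt ℂ (fun s => dsc (A s)) s := by
  classical
  refine det_hol fun i j => ?_
  have h : ∀ s, (Polynomial.aeval (A s) (Polynomial.derivative (A s).charpoly)) i j =
      ∑ k ∈ Finset.range (N + 1), ((A s).charpoly.coeff (k + 1) * (k + 1)) * (A s ^ k) i j := by
    intro s
    have h1 : (Polynomial.derivative (A s).charpoly).natDegree < N + 1 := by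
      refine (Polynomial.natDegree_derivative_le _).trans_lt ?_
      rw [Matrix.charpoly_natDegree_eq_dim, Fintype.card_fin]
      omega
    rw [Polynomial.aeval_eq_sum_range' h1, Matrix.sum_apply]
    refine Finset.sum_congr rfl fun k _ => ?_
    rw [Matrix.smul_apply, Polynomial.coeff_derivative, smul_eq_mul]
  simp only [h]
  exact DifferentiableAt.fun_sum fun k _ =>
    ((char_coeff_hol hA (k + 1)).mul_const _).mul (pow_hol hA k i j)

end Pool.Agent.DST
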