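import Pool.Agent.DST.TDisc
import Pool.Agent.DST.TChar

/-!
# Project DST, module T-Bad: the points with multiple eigenvalues are countable

PLAN. `δ s = dsc ((D s).A 0)` is holomorphic on `Ω` (`hf.A_hol`, `dsc_hol`), `δ s₀ ≠ 0` (`dsc_ne`), and
`δ s ≠ 0` implies eigenvector data at `s` (`eig_of_dsc`). So the set is contained in `{s ∈ Ω | δ s = 0}`. `Ω` is
preconnected (`hf.conn ∅`) and open; `δ` is analytic on `Ω`, not identically `0`, so the zeros are isolated
(`AnalyticOnNhd.eqOn_zero_of_preconnected_of_frequently_eq_zero`), hence countable (`countable_zeros`): every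
point of `Ω` has a neighbourhood in `Ω` with at most one zero; cover `Ω` by countably many of them
(`TopologicalSpace.countable_cover_nhdsWithin`, Lindelöf), or
`AnalyticOnNhd.preimage_zero_mem_codiscreteWithin` and countability of complements of codiscrete sets.
-/

open scoped BigOperators Topology
open Filter

namespace Pool.Agent.DST

variable {N : ℕ}

theorem countable_zeros {Ω : Set ℂ} (hΩ : IsOpen Ω) (hc : IsPreconnected Ω) {f : ℂ → ℂ}
    (hf : ∀ s ∈ Ω, DifferentiableAt ℂ f s) {s₀ : ℂ} (h₀ : s₀ ∈ Ω) (h : f s₀ ≠ 0) :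
    {s | s ∈ Ω ∧ f s = 0}.Countable := by
  have hd : DifferentiableOn ℂ f Ω := fun s hs => (hf s hs).differentiableWithinAt
  have ha : AnalyticOnNhd ℂ f Ω := hd.analyticOnNhd hΩ
  have hm : f ⁻¹' {0}ᶜ ∈ codiscreteWithin Ω :=
    ha.preimage_zero_mem_codiscreteWithin h h₀ ⟨⟨s₀, h₀⟩, hc⟩
  rw [Set.preimage_compl] at hm
  have hdis : IsDiscrete (f ⁻¹' {0} ∩ Ω) := isDiscrete_of_codiscreteWithin hm
  have hcount : (f ⁻¹' {0} ∩ Ω).Countable :=
    (HereditarilyLindelofSpace.isLindelof _).countable_of_isDiscrete hdis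
  refine hcount.mono ?_
  intro s hs
  exact ⟨hs.2, hs.1⟩

theorem bad_countable {Ω : Set ℂ} {D : ℂ → DSys N}
    {χ : Matrix (Fin N) (Fin N) (LaurentPolynomial ℂ)} (hf : IsFam Ω D χ) {s₀ : ℂ} (h₀ : s₀ ∈ Ω)
    {Ψ : Matrix (Fin N) (Fin N) ℂ} {G : Fin N → ℂ} (hE : Eig ((D s₀).A 0) (D s₀).g Ψ G) :
    {s | s ∈ Ω ∧ ¬ ∃ Ψ G, Eig ((D s).A 0) (D s).g Ψ G}.Countable := by
  have hc : IsPreconnected Ω := by
    have h := hf.conn ∅ Set.countable_empty
    rwa [Set.sdiff_empty] at h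
  have h := countable_zeros hf.open_Ω hc (f := fun s => dsc ((D s).A 0))
    (fun s hs => dsc_hol (A := fun s => (D s).A 0) (hf.A_hol s hs)) h₀ (dsc_ne hE)
  refine h.mono ?_
  intro s hs
  refine ⟨hs.1, ?_⟩
  by_contra hne
  exact hs.2 (eig_of_dsc (D s) hne)

end Pool.Agent.DST
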