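import Pool.Agent.DST.KDet
import Pool.Agent.DST.KLau

/-!
# Project DST, module T-Bnd: growth of the transition matrix between two right-canonical bases

With `P(y) = F X diag(e^{-yG}) → Ψ`, `P'(y) = F' X' diag(e^{-yG'}) → Ψ'` one has
`M(y) = X⁻¹X' = diag(e^{-yG}) P⁻¹ (F F'⁻¹) P' diag(e^{yG'})` in the slit plane, and the entries of `P⁻¹` and `P'`
are eventually bounded.
-/

open scoped BigOperators Topology
open Filter

namespace Pool.Agent.DST

variable {N : ℕ}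

private theorem tbn_slit : ∀ᶠ y in rhp, y ∈ Complex.slitPlane ∧ 1 ≤ ‖y‖ := by
  have h1 : ∀ᶠ y in rhp, y ∈ {y : ℂ | 0 ≤ y.re} := by
    unfold rhp
    exact mem_inf_of_right (mem_principal_self _)
  have h2 : ∀ᶠ y in rhp, 1 ≤ ‖y‖ := by
    unfold rhp
    refine mem_inf_of_left ?_
    have : Tendsto (fun y : ℂ => ‖y‖) (Bornology.cobounded ℂ) atTop := tendsto_norm_cobounded_atTop
    exact this.eventually_ge_atTop 1
  filter_upwards [h1, h2] with y hy hy0
  refine ⟨?_, hy0⟩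
  have hyne : y ≠ 0 := norm_pos_iff.mp (by linarith)
  rw [Complex.mem_slitPlane_iff]
  rcases (hy : 0 ≤ y.re).lt_or_eq with h | h
  · exact Or.inl h
  · right
    intro him
    exact hyne (Complex.ext h.symm him)

private theorem tbn_bdd {P : ℂ → Matrix (Fin N) (Fin N) ℂ} {Ψ : Matrix (Fin N) (Fin N) ℂ}
    (h : Tendsto P rhp (𝓝 Ψ)) : ∃ K : ℝ, 0 ≤ K ∧ ∀ᶠ y in rhp, ∀ i j, ‖P y i j‖ ≤ K := by
  refine ⟨(∑ i, ∑ j, ‖Ψ i j‖) + 1, by positivity, ?_⟩
  rw [eventually_all]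
  intro i
  rw [eventually_all]
  intro j
  have h1 : Tendsto (fun y => ‖P y i j‖) rhp (𝓝 ‖Ψ i j‖) :=
    (tendsto_pi_nhds.mp (tendsto_pi_nhds.mp h i) j).norm
  have h2 : ‖Ψ i j‖ < (∑ i, ∑ j, ‖Ψ i j‖) + 1 := by
    have h3 : ‖Ψ i j‖ ≤ ∑ j, ‖Ψ i j‖ :=
      Finset.single_le_sum (f := fun j => ‖Ψ i j‖) (fun _ _ => norm_nonneg _) (Finset.mem_univ j)
    have h4 : ∑ j, ‖Ψ i j‖ ≤ ∑ i, ∑ j, ‖Ψ i j‖ :=
      Finset.single_le_sum (f := fun i => ∑ j, ‖Ψ i j‖) (fun _ _ => Finset.sum_nonneg fun _ _ => norm_nonneg _)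
        (Finset.mem_univ i)
    linarith
  filter_upwards [h1.eventually_lt_const h2] with y hy
  exact hy.le

private theorem tbn_diag (y : ℂ) (G : Fin N → ℂ) :
    (Matrix.diagonal fun k => Complex.exp (-y * G k))⁻¹ = Matrix.diagonal fun k => Complex.exp (y * G k) := by
  refine Matrix.inv_eq_left_inv ?_
  rw [Matrix.diagonal_mul_diagonal]
  have : (fun k => Complex.exp (y * G k) * Complex.exp (-y * G k)) = fun _ => 1 := by
    funext k
    rw [← Complex.exp_add]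
    have : y * G k + -y * G k = 0 := by ring
    rw [this, Complex.exp_zero]
  rw [this, Matrix.diagonal_one]

theorem trans_bound {D D' : DSys N} {Ψ Ψ' : Matrix (Fin N) (Fin N) ℂ} {G G' : Fin N → ℂ}
    (hE : Eig (D.A 0) D.g Ψ G) (hE' : Eig (D'.A 0) D'.g Ψ' G')
    {X X' M : Matrix (Fin N) (Fin N) (LaurentPolynomial ℂ)}
    (bX : IsBirk D.F Ψ G (fun y => X.map (evq y)))
    (bX' : IsBirk D'.F Ψ' G' (fun y => X'.map (evq y))) (hM : X * M = X') {C κ : ℝ}
    (hc : ∀ y ∈ Complex.slitPlane, 1 ≤ ‖y‖ → ∀ i j,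
      ‖(D.F y * (D'.F y)⁻¹) i j‖ ≤ C * Real.exp (κ * ‖y‖)) :
    ∃ K : ℝ, ∀ᶠ y in rhp, ∀ i j,
      ‖evq y (M i j)‖ ≤ K * Real.exp (κ * ‖y‖ + (y * (G' j - G i)).re) := by
  have hdΨ := hE.det_ne
  have hdX : ∀ y, (X.map (evq y)).det ≠ 0 :=
    det_of_birk D hE (X := fun y => X.map (evq y)) (fun y => by simp only [evq_sub_one]) bX
  have tP : Tendsto (fun y => D.F y * X.map (evq y) * Matrix.diagonal fun k => Complex.exp (-y * G k)) rhp (𝓝 Ψ) :=
    tendsto_pi_nhds.mpr fun i => tendsto_pi_nhds.mpr fun j => bX i j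
  have tP' : Tendsto (fun y => D'.F y * X'.map (evq y) * Matrix.diagonal fun k => Complex.exp (-y * G' k)) rhp
      (𝓝 Ψ') := tendsto_pi_nhds.mpr fun i => tendsto_pi_nhds.mpr fun j => bX' i j
  have tinv : Tendsto (fun y => (D.F y * X.map (evq y) * Matrix.diagonal fun k => Complex.exp (-y * G k))⁻¹) rhp
      (𝓝 Ψ⁻¹) := by
    simp only [Matrix.inv_def, Ring.inverse_eq_inv']
    have c1 : Continuous fun A : Matrix (Fin N) (Fin N) ℂ => A.det := continuous_id.matrix_det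
    have c2 : Continuous fun A : Matrix (Fin N) (Fin N) ℂ => A.adjugate := continuous_id.matrix_adjugate
    exact ((c1.tendsto Ψ).comp tP |>.inv₀ hdΨ).smul ((c2.tendsto Ψ).comp tP)
  obtain ⟨K₁, hK₁, h1⟩ := tbn_bdd tinv
  obtain ⟨K₂, hK₂, h2⟩ := tbn_bdd tP'
  refine ⟨∑ _b : Fin N, ∑ _a : Fin N, K₁ * |C| * K₂, ?_⟩
  filter_upwards [h1, h2, tbn_slit] with y hy1 hy2 hy i j
  obtain ⟨hys, hyn⟩ := hy
  set E := Matrix.diagonal fun k => Complex.exp (-y * G k) with hEd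
  set E' := Matrix.diagonal fun k => Complex.exp (-y * G' k) with hEd'
  have hF' : (D.F y)⁻¹ * D.F y = 1 := Matrix.nonsing_inv_mul _ (isUnit_iff_ne_zero.mpr (D.F_det y hys))
  have hF2 : (D'.F y)⁻¹ * D'.F y = 1 := Matrix.nonsing_inv_mul _ (isUnit_iff_ne_zero.mpr (D'.F_det y hys))
  have hX1 : (X.map (evq y))⁻¹ * X.map (evq y) = 1 := Matrix.nonsing_inv_mul _ (isUnit_iff_ne_zero.mpr (hdX y))
  have hXM : X'.map (evq y) = X.map (evq y) * M.map (evq y) := by
    rw [← hM, Matrix.map_mul]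
  have h3 : (D.F y * X.map (evq y) * E)⁻¹ * (D.F y * (D'.F y)⁻¹) * (D'.F y * X'.map (evq y) * E') =
      (Matrix.diagonal fun k => Complex.exp (y * G k)) * M.map (evq y) * E' := by
    rw [Matrix.mul_inv_rev, Matrix.mul_inv_rev, hEd, tbn_diag, hXM]
    calc (Matrix.diagonal fun k => Complex.exp (y * G k)) * ((X.map (evq y))⁻¹ * (D.F y)⁻¹) *
          (D.F y * (D'.F y)⁻¹) * (D'.F y * (X.map (evq y) * M.map (evq y)) * E') =
          (Matrix.diagonal fun k => Complex.exp (y * G k)) * (X.map (evq y))⁻¹ * ((D.F y)⁻¹ * D.F y) *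
            ((D'.F y)⁻¹ * D'.F y) * X.map (evq y) * M.map (evq y) * E' := by simp only [Matrix.mul_assoc]
      _ = (Matrix.diagonal fun k => Complex.exp (y * G k)) * ((X.map (evq y))⁻¹ * X.map (evq y)) *
            M.map (evq y) * E' := by
          rw [hF', hF2, Matrix.mul_one, Matrix.mul_one]; simp only [Matrix.mul_assoc]
      _ = _ := by rw [hX1, Matrix.mul_one]
  have h4 := congrFun (congrFun h3 i) j
  rw [hEd', Matrix.mul_diagonal, Matrix.diagonal_mul, Matrix.map_apply, ← hEd'] at h4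
  have h5 : evq y (M i j) = Complex.exp (y * (G' j - G i)) *
      ((D.F y * X.map (evq y) * E)⁻¹ * (D.F y * (D'.F y)⁻¹) * (D'.F y * X'.map (evq y) * E')) i j := by
    rw [h4]
    have e1 : Complex.exp (y * (G' j - G i)) * (Complex.exp (y * G i) * evq y (M i j) * Complex.exp (-y * G' j)) =
        (Complex.exp (y * (G' j - G i)) * Complex.exp (y * G i) * Complex.exp (-y * G' j)) * evq y (M i j) := by
      ring
    rw [e1, ← Complex.exp_add, ← Complex.exp_add]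
    have e2 : y * (G' j - G i) + y * G i + -y * G' j = 0 := by ring
    rw [e2, Complex.exp_zero, one_mul]
  have h6 : ‖((D.F y * X.map (evq y) * E)⁻¹ * (D.F y * (D'.F y)⁻¹) * (D'.F y * X'.map (evq y) * E')) i j‖ ≤
      (∑ _b : Fin N, ∑ _a : Fin N, K₁ * |C| * K₂) * Real.exp (κ * ‖y‖) := by
    rw [Matrix.mul_apply, Finset.sum_mul]
    refine norm_sum_le_of_le _ fun b _ => ?_
    rw [Matrix.mul_apply, Finset.sum_mul, Finset.sum_mul]
    refine norm_sum_le_of_le _ fun a _ => ?_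
    rw [norm_mul, norm_mul]
    have e1 : ‖(D.F y * (D'.F y)⁻¹) a b‖ ≤ |C| * Real.exp (κ * ‖y‖) :=
      (hc y hys hyn a b).trans (mul_le_mul_of_nonneg_right (le_abs_self C) (Real.exp_nonneg _))
    calc ‖(D.F y * X.map (evq y) * E)⁻¹ i a‖ * ‖(D.F y * (D'.F y)⁻¹) a b‖ * ‖(D'.F y * X'.map (evq y) * E') b j‖ ≤
          K₁ * (|C| * Real.exp (κ * ‖y‖)) * K₂ := by
            have := hy1 i a
            have := hy2 b j
            gcongr
      _ = K₁ * |C| * K₂ * Real.exp (κ * ‖y‖) := by ring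
  rw [h5, norm_mul, Complex.norm_exp, Real.exp_add]
  calc Real.exp (y * (G' j - G i)).re * ‖((D.F y * X.map (evq y) * E)⁻¹ * (D.F y * (D'.F y)⁻¹) *
        (D'.F y * X'.map (evq y) * E')) i j‖ ≤ Real.exp (y * (G' j - G i)).re *
        ((∑ _b : Fin N, ∑ _a : Fin N, K₁ * |C| * K₂) * Real.exp (κ * ‖y‖)) :=
          mul_le_mul_of_nonneg_left h6 (Real.exp_nonneg _)
    _ = _ := by ring

end Pool.Agent.DST
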