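import Pool.Agent.DST.TInt
import Pool.Agent.DST.TAlg

/-!
# Project DST, module T-Cls: integrality of the transition matrix (pure algebra)

`Γ' = M(1/q)ᵀ Γ M(q)`; `M i j = c q^n` with `2πn = Im (G₀ j - G₀ i)`, triangular for `Re G₀`; `Γ` integral;
`Γ`, `Γ'` have the leading coefficients of a right-canonical basis. Then `M` is integral. Proof: restrict to the
class of the indices `x` with `Im (G₀ x - G₀ i) = 2π κ x`, `κ x` an integer, and extract the coefficients at
`κ y - κ x`; the resulting constant matrices satisfy the hypotheses of `gram_alg`.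
-/

open scoped BigOperators Topology
open Filter

namespace Pool.Agent.DST

variable {N : ℕ}

/-- coefficients of a product with monomials. -/
private theorem cls_coeff (x y : ℂ) (m n p : ℤ) (f : LaurentPolynomial ℂ) :
    ((LaurentPolynomial.C x * LaurentPolynomial.T m) * f * (LaurentPolynomial.C y * LaurentPolynomial.T n)).coeff p =
      x * f.coeff (p - m - n) * y := by
  rw [← LaurentPolynomial.single_eq_C_mul_T, ← LaurentPolynomial.single_eq_C_mul_T,
    AddMonoidAlgebra.coeff_mul_single_apply, AddMonoidAlgebra.coeff_single_mul_apply]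
  congr 3
  ring

/-- sums which are concentrated on a subtype. -/
private theorem cls_sum {A : Type*} [AddCommMonoid A] (p : Fin N → Prop) [DecidablePred p] (f : Fin N → A)
    (h : ∀ a, ¬ p a → f a = 0) : ∑ a, f a = ∑ a : {x // p x}, f a := by
  rw [← Fintype.sum_subtype_add_sum_subtype p f]
  have h1 : ∑ i : {x // ¬ p x}, f i = 0 := Finset.sum_eq_zero fun i _ => h i i.2
  rw [h1, add_zero]

theorem cls {G₀ G G' : Fin N → ℂ} (inj : Function.Injective fun j => Complex.exp (G₀ j))
    (hoff : OffWall G) (hoff' : OffWall G')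
    {Γ Γ' M : Matrix (Fin N) (Fin N) (LaurentPolynomial ℂ)} (hΓ : ∀ i j, IntL (Γ i j))
    (h : Γ' = (invM M).transpose * Γ * M)
    (hM : ∀ i j, M i j = 0 ∨ ∃ (n : ℤ) (c : ℂ), 2 * Real.pi * n = (G₀ j - G₀ i).im ∧
      M i j = LaurentPolynomial.C c * LaurentPolynomial.T n ∧ (i ≠ j → 0 < (G₀ j - G₀ i).re))
    (diag : ∀ i, (Γ i i).coeff 0 = 1)
    (off : ∀ i j, i ≠ j → ∀ n : ℤ, 2 * Real.pi * n ≤ (G j - G i).im → (Γ i j).coeff n = 0)
    (diag' : ∀ i, (Γ' i i).coeff 0 = 1)
    (off' : ∀ i j, i ≠ j → ∀ n : ℤ, 2 * Real.pi * n ≤ (G' j - G' i).im → (Γ' i j).coeff n = 0)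
    (i j : Fin N) : IntL (M i j) := by
  classical
  rcases hM i j with h0 | ⟨n, c, hn, hMc, _⟩
  · rw [h0]
    exact intL_zero
  have hpi : (0 : ℝ) < 2 * Real.pi := by positivity
  -- the class of `i`
  let p : Fin N → Prop := fun x => ∃ k : ℤ, 2 * Real.pi * k = (G₀ x - G₀ i).im
  have hκ : ∀ x : {x // p x}, ∃ k : ℤ, 2 * Real.pi * k = (G₀ x - G₀ i).im := fun x => x.2
  choose κ hκ using hκ
  have hi : p i := ⟨0, by simp⟩
  have hj : p j := ⟨n, hn⟩
  have hdiff : ∀ x y : {x // p x}, 2 * Real.pi * ((κ y - κ x : ℤ) : ℝ) = (G₀ y - G₀ x).im := by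
    intro x y
    have h1 := hκ x
    have h2 := hκ y
    simp only [Complex.sub_im] at h1 h2 ⊢
    push_cast
    linarith
  have huniq : ∀ m m' : ℤ, 2 * Real.pi * (m : ℝ) = 2 * Real.pi * (m' : ℝ) → m = m' := by
    intro m m' h1
    have h2 := mul_left_cancel₀ hpi.ne' h1
    exact_mod_cast h2
  -- outside the class
  have hout : ∀ (x : {x // p x}) (a : Fin N), ¬ p a → M a x = 0 := by
    intro x a ha
    rcases hM a x with h1 | ⟨m, c', h1, _, _⟩
    · exact h1
    · exfalso
      apply ha
      refine ⟨κ x - m, ?_⟩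
      have h2 := hκ x
      simp only [Complex.sub_im] at h1 h2 ⊢
      push_cast
      linarith
  -- the constant matrices
  let c' : {x // p x} → {x // p x} → ℂ := fun a b => (M a b).coeff (κ b - κ a)
  have hMcl : ∀ a b : {x // p x}, M a b = LaurentPolynomial.C (c' a b) * LaurentPolynomial.T (κ b - κ a) := by
    intro a b
    rcases hM a b with h1 | ⟨m, c₁, h1, h2, _⟩
    · have h3 : c' a b = 0 := by
        show (M a b).coeff (κ b - κ a) = 0
        rw [h1]
        rfl
      rw [h3, h1, map_zero, zero_mul]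
    · have h3 : m = κ b - κ a := huniq _ _ (by rw [h1, hdiff])
      have h4 : c' a b = c₁ := by
        show (M a b).coeff (κ b - κ a) = c₁
        rw [h2, h3, ← LaurentPolynomial.single_eq_C_mul_T, AddMonoidAlgebra.coeff_single, Finsupp.single_eq_same]
      rw [h4, h2, h3]
  let A : Matrix {x // p x} {x // p x} ℂ := fun a b => (Γ a b).coeff (κ b - κ a)
  let B : Matrix {x // p x} {x // p x} ℂ := fun a b => (Γ' a b).coeff (κ b - κ a)
  let Mc : Matrix {x // p x} {x // p x} ℂ := c'
  have hinv : ∀ a b : {x // p x}, invM M a b = LaurentPolynomial.C (c' a b) * LaurentPolynomial.T (-(κ b - κ a)) := by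
    intro a b
    show LaurentPolynomial.invert (M a b) = _
    rw [hMcl, map_mul, LaurentPolynomial.invert_C, LaurentPolynomial.invert_T]
  have hinv0 : ∀ (x : {x // p x}) (a : Fin N), ¬ p a → invM M a x = 0 := by
    intro x a ha
    show LaurentPolynomial.invert (M a x) = 0
    rw [hout x a ha, map_zero]
  have hB : Mc.transpose * A * Mc = B := by
    ext x y
    show _ = (Γ' x y).coeff (κ y - κ x)
    rw [h, Matrix.mul_apply, Matrix.mul_apply]
    rw [cls_sum p (fun b => ((invM M).transpose * Γ) x b * M b y) (fun b hb => by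
      show _ * M b y = 0
      rw [hout y b hb, mul_zero])]
    have e1 : ∀ b : {x // p x}, ((invM M).transpose * Γ) x b * M b y =
        ∑ a : {x // p x}, invM M a x * Γ a b * M b y := by
      intro b
      rw [Matrix.mul_apply, cls_sum p (fun a => (invM M).transpose x a * Γ a b) (fun a ha => by
        show invM M a x * _ = 0
        rw [hinv0 x a ha, zero_mul]), Finset.sum_mul]
      rfl
    simp only [e1]
    have e2 : ∀ s : Finset {x // p x}, ∀ f : {x // p x} → LaurentPolynomial ℂ, ∀ m : ℤ,
        (∑ a ∈ s, f a).coeff m = ∑ a ∈ s, (f a).coeff m := by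
      intro s f m
      rw [AddMonoidAlgebra.coeff_sum, Finsupp.finsetSum_apply]
    rw [e2]
    refine Finset.sum_congr rfl fun b _ => ?_
    rw [e2, Matrix.mul_apply, Finset.sum_mul]
    refine Finset.sum_congr rfl fun a _ => ?_
    rw [hinv, hMcl b y, cls_coeff]
    have e3 : κ y - κ x - -(κ x - κ a) - (κ y - κ b) = κ b - κ a := by ring
    rw [e3]
    rfl
  have hρ : Function.Injective (fun x : {x // p x} => (G₀ x).re) := by
    intro x y hxy
    have h1 := hdiff x y
    have h2 : (fun j => Complex.exp (G₀ j)) (x : Fin N) = (fun j => Complex.exp (G₀ j)) (y : Fin N) := by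
      show Complex.exp (G₀ x) = Complex.exp (G₀ y)
      rw [Complex.exp_eq_exp_iff_exists_int]
      refine ⟨κ x - κ y, ?_⟩
      apply Complex.ext
      · simp only [Complex.add_re, Complex.mul_re, Complex.mul_im]
        have h3 : (G₀ x).re = (G₀ y).re := hxy
        simp [h3]
      · simp only [Complex.sub_im] at h1
        simp only [Complex.add_im, Complex.mul_re, Complex.mul_im]
        push_cast at h1 ⊢
        simp
        linarith
    exact Subtype.ext (inj h2)
  have hσ : ∀ H : Fin N → ℂ, OffWall H → Function.Injective (fun x : {x // p x} => (H x - G₀ x).im) := by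
    intro H hH x y hxy
    by_contra hne
    have hne' : (x : Fin N) ≠ y := fun h1 => hne (Subtype.ext h1)
    apply hH x y hne' (κ x - κ y)
    have h1 := hdiff y x
    have h2 : (H x - G₀ x).im = (H y - G₀ y).im := hxy
    simp only [Complex.sub_im] at h1 h2 ⊢
    linarith
  have hlt : ∀ (H : Fin N → ℂ) (x y : {x // p x}), (H x - G₀ x).im < (H y - G₀ y).im →
      (x : Fin N) ≠ y ∧ 2 * Real.pi * ((κ y - κ x : ℤ) : ℝ) ≤ (H y - H x).im := by
    intro H x y hxy
    refine ⟨fun h1 => ?_, ?_⟩
    · rw [h1] at hxy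
      exact lt_irrefl _ hxy
    · rw [hdiff]
      simp only [Complex.sub_im] at hxy ⊢
      linarith
  have key : IntC (Mc ⟨i, hi⟩ ⟨j, hj⟩) := by
    refine gram_alg (ρ := fun x : {x // p x} => (G₀ x).re) (σ := fun x : {x // p x} => (G x - G₀ x).im)
      (τ := fun x : {x // p x} => (G' x - G₀ x).im) hρ (hσ G hoff) (hσ G' hoff') (A := A) (M := Mc) (B := B)
      (fun a b => (hΓ a b).coeff _) (fun a b hab => ?_) (fun a => ?_) (fun a b hab => ?_) (fun a => ?_)
      (fun a b hab => ?_) hB ⟨i, hi⟩ ⟨j, hj⟩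
    · obtain ⟨h1, h2⟩ := hlt G a b hab
      exact off a b h1 _ h2
    · show (Γ a a).coeff (κ a - κ a) = 1
      rw [sub_self]
      exact diag a
    · obtain ⟨h1, h2⟩ := hlt G' a b hab
      exact off' a b h1 _ h2
    · show (Γ' a a).coeff (κ a - κ a) = 1
      rw [sub_self]
      exact diag' a
    · show (M a b).coeff (κ b - κ a) = 0
      rcases hM a b with h1 | ⟨m, c₁, _, _, h3⟩
      · rw [h1]
        rfl
      · exfalso
        have hab' : (G₀ b).re < (G₀ a).re := hab
        have hne : (a : Fin N) ≠ b := by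
          intro h4
          rw [h4] at hab'
          exact lt_irrefl _ hab'
        have h4 := h3 hne
        rw [Complex.sub_re] at h4
        linarith
  have h1 : M i j = LaurentPolynomial.C (Mc ⟨i, hi⟩ ⟨j, hj⟩) * LaurentPolynomial.T (κ ⟨j, hj⟩ - κ ⟨i, hi⟩) :=
    hMcl ⟨i, hi⟩ ⟨j, hj⟩
  rw [h1]
  exact intL_C_mul_T key _

end Pool.Agent.DST
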