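import Pool.Agent.DST.KLau

/-!
# Project DST, module T-Coe: exponents of a Laurent polynomial and its growth

PLAN. `evq (ηI) L = ∑_n a_n x^n` with `x = exp (-2πη) → 0+` as `η → ∞` (`evq_T`, `evq_C`).
* `coeff_zero_of_tendsto`: let `n₀` be the smallest exponent with `a_{n₀} ≠ 0` (`L ≠ 0`); then
  `exp (2π n₀ η) * evq (ηI) L → a_{n₀} ≠ 0` (finite sum, the other terms tend to `0`). If `n₀ ≤ a` then
  `exp (2πaη) ‖evq (ηI) L‖ ≥ exp (2π n₀ η) ‖evq (ηI) L‖ → ‖a_{n₀}‖ ≠ 0` for `η ≥ 0`, contradiction. So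
  `n₀ > a` and all coefficients at `n ≤ a` vanish.
* `coeff_zero_top`: for `n < a` choose `a' ∈ (n, a)`: `exp (2πa'η) C exp (-2πaη) → 0`.
* `coeff_zero_bot`: apply `coeff_zero_top` to the inverted polynomial: `evq (-(ηI)) L = evq (ηI) (invert L)`
  (prove it here by `LaurentPolynomial.induction_on'`, private), with `-b` for `a`;
  `(invert L).coeff n = L.coeff (-n)`.
* `coeff_of_tendsto_one`: `coeff_zero_of_tendsto` for `L - 1`, `a = 0`.
-/

open scoped BigOperators Topology
open Filter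

namespace Pool.Agent.DST

private theorem lsum (L : LaurentPolynomial ℂ) :
    L = ∑ n ∈ L.coeff.support, LaurentPolynomial.C (L.coeff n) * LaurentPolynomial.T n := by
  refine LaurentPolynomial.ext fun a => ?_
  simp_rw [← LaurentPolynomial.single_eq_C_mul_T]
  simp only [AddMonoidAlgebra.coeff_sum, AddMonoidAlgebra.coeff_single]
  rw [Finset.sum_apply', Finset.sum_eq_single a, Finsupp.single_eq_same]
  · intro b _ hb
    rw [Finsupp.single_eq_of_ne' hb]
  · intro ha
    rw [Finsupp.single_eq_same, Finsupp.notMem_support_iff.mp ha]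

private theorem evq_sum (L : LaurentPolynomial ℂ) (y : ℂ) :
    evq y L = ∑ n ∈ L.coeff.support, L.coeff n * Complex.exp (2 * Real.pi * Complex.I * n * y) := by
  conv_lhs => rw [lsum L]
  rw [map_sum]
  refine Finset.sum_congr rfl fun n _ => ?_
  rw [map_mul, evq_C, evq_T]

private theorem tend_min (L : LaurentPolynomial ℂ) (n₀ : ℤ)
    (hmin : ∀ n ∈ L.coeff.support, n₀ ≤ n) :
    Tendsto (fun η : ℝ => Real.exp (2 * Real.pi * n₀ * η) * ‖evq (η * Complex.I) L‖) atTop
      (𝓝 ‖L.coeff n₀‖) := by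
  have h1 : Tendsto (fun η : ℝ => ∑ n ∈ L.coeff.support,
      L.coeff n * (Real.exp (-(2 * Real.pi * ((n : ℝ) - n₀) * η)) : ℂ)) atTop
      (𝓝 (∑ n ∈ L.coeff.support, L.coeff n * (if n = n₀ then 1 else 0))) := by
    refine tendsto_finsetSum _ fun n hn => ?_
    refine Tendsto.const_mul _ ?_
    by_cases h : n = n₀
    · rw [if_pos h, h]
      simp
    · rw [if_neg h]
      have hlt : n₀ < n := lt_of_le_of_ne (hmin n hn) (Ne.symm h)
      have hlt' : (0 : ℝ) < (n : ℝ) - n₀ := by
        have : (n₀ : ℝ) < n := by exact_mod_cast hlt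
        linarith
      have h2 : Tendsto (fun η : ℝ => Real.exp (-(2 * Real.pi * ((n : ℝ) - n₀) * η))) atTop
          (𝓝 0) := by
        apply Real.tendsto_exp_neg_atTop_nhds_zero.comp
        exact Tendsto.const_mul_atTop (by positivity) tendsto_id
      have h3 := (Complex.continuous_ofReal.tendsto 0).comp h2
      rw [Complex.ofReal_zero] at h3
      exact h3
  have h2 : (∑ n ∈ L.coeff.support, L.coeff n * (if n = n₀ then (1 : ℂ) else 0)) =
      L.coeff n₀ := by
    simp only [mul_ite, mul_one, mul_zero]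
    rw [Finset.sum_ite_eq']
    split_ifs with h
    · rfl
    · exact (Finsupp.notMem_support_iff.mp h).symm
  rw [h2] at h1
  refine h1.norm.congr fun η => ?_
  have h3 : (∑ n ∈ L.coeff.support,
      L.coeff n * (Real.exp (-(2 * Real.pi * ((n : ℝ) - n₀) * η)) : ℂ)) =
      (Real.exp (2 * Real.pi * n₀ * η) : ℂ) * evq (η * Complex.I) L := by
    rw [evq_sum, Finset.mul_sum]
    refine Finset.sum_congr rfl fun n _ => ?_
    have h4 : Complex.exp (2 * Real.pi * Complex.I * n * (η * Complex.I)) =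
        (Real.exp (-(2 * Real.pi * n * η)) : ℂ) := by
      rw [Complex.ofReal_exp]
      congr 1
      push_cast
      linear_combination (2 * (Real.pi : ℂ) * n * η) * Complex.I_mul_I
    have h5 : Real.exp (-(2 * Real.pi * ((n : ℝ) - n₀) * η)) =
        Real.exp (2 * Real.pi * n₀ * η) * Real.exp (-(2 * Real.pi * n * η)) := by
      rw [← Real.exp_add]
      congr 1
      ring
    rw [h4, h5, Complex.ofReal_mul]
    ring
  rw [h3, norm_mul, Complex.norm_real, Real.norm_of_nonneg (Real.exp_nonneg _)]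

theorem coeff_zero_of_tendsto {L : LaurentPolynomial ℂ} {a : ℝ}
    (h : Tendsto (fun η : ℝ => Real.exp (2 * Real.pi * a * η) * ‖evq (η * Complex.I) L‖) atTop
      (𝓝 0)) (n : ℤ) (hn : (n : ℝ) ≤ a) : L.coeff n = 0 := by
  by_contra hne
  have hmem : n ∈ L.coeff.support := Finsupp.mem_support_iff.mpr hne
  set n₀ := L.coeff.support.min' ⟨n, hmem⟩ with hn₀
  have hmin : ∀ m ∈ L.coeff.support, n₀ ≤ m := fun m hm => Finset.min'_le _ m hm
  have hmem₀ : n₀ ∈ L.coeff.support := Finset.min'_mem _ _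
  have h0 : (n₀ : ℝ) ≤ a := by
    have : (n₀ : ℝ) ≤ n := by exact_mod_cast hmin n hmem
    linarith
  have h1 := tend_min L n₀ hmin
  have h2 : ‖L.coeff n₀‖ ≤ 0 := by
    refine le_of_tendsto_of_tendsto h1 h ?_
    filter_upwards [eventually_ge_atTop (0 : ℝ)] with η hη
    apply mul_le_mul_of_nonneg_right _ (norm_nonneg _)
    apply Real.exp_le_exp.mpr
    apply mul_le_mul_of_nonneg_right _ hη
    exact mul_le_mul_of_nonneg_left h0 (by positivity)
  exact Finsupp.mem_support_iff.mp hmem₀ (norm_le_zero_iff.mp h2)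

theorem coeff_of_tendsto_one {L : LaurentPolynomial ℂ}
    (h : Tendsto (fun η : ℝ => evq (η * Complex.I) L) atTop (𝓝 1)) : L.coeff 0 = 1 := by
  have h1 : Tendsto (fun η : ℝ => Real.exp (2 * Real.pi * 0 * η) *
      ‖evq (η * Complex.I) (L - 1)‖) atTop (𝓝 0) := by
    have h2 : Tendsto (fun η : ℝ => ‖evq (η * Complex.I) L - 1‖) atTop (𝓝 ‖(1 : ℂ) - 1‖) :=
      (h.sub tendsto_const_nhds).norm
    rw [sub_self, norm_zero] at h2
    refine h2.congr fun η => ?_
    rw [mul_zero, zero_mul, Real.exp_zero, one_mul, map_sub, map_one]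
  have h3 := coeff_zero_of_tendsto h1 0 (by simp)
  have h4 : (L - 1).coeff 0 = L.coeff 0 - 1 := by
    rw [← LaurentPolynomial.T_zero]
    have : (L - LaurentPolynomial.T 0).coeff 0 =
        L.coeff 0 - (LaurentPolynomial.T 0 : LaurentPolynomial ℂ).coeff 0 := rfl
    rw [this, LaurentPolynomial.T_apply, if_pos rfl]
  rw [h4] at h3
  exact sub_eq_zero.mp h3

theorem coeff_zero_top {L : LaurentPolynomial ℂ} {a C : ℝ}
    (h : ∀ᶠ η : ℝ in atTop, ‖evq (η * Complex.I) L‖ ≤ C * Real.exp (-(2 * Real.pi * a * η)))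
    (n : ℤ) (hn : (n : ℝ) < a) : L.coeff n = 0 := by
  refine coeff_zero_of_tendsto (a := ((n : ℝ) + a) / 2) ?_ n (by linarith)
  have h1 : Tendsto (fun η : ℝ => C * Real.exp (-(2 * Real.pi * ((a - n) / 2) * η))) atTop
      (𝓝 (C * 0)) := by
    refine Tendsto.const_mul _ ?_
    apply Real.tendsto_exp_neg_atTop_nhds_zero.comp
    refine Tendsto.const_mul_atTop ?_ tendsto_id
    have : 0 < (a - n) / 2 := by linarith
    positivity
  rw [mul_zero] at h1
  refine squeeze_zero' (Eventually.of_forall fun η => by positivity) ?_ h1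
  filter_upwards [h] with η hη
  calc Real.exp (2 * Real.pi * (((n : ℝ) + a) / 2) * η) * ‖evq (η * Complex.I) L‖
      ≤ Real.exp (2 * Real.pi * (((n : ℝ) + a) / 2) * η) *
        (C * Real.exp (-(2 * Real.pi * a * η))) :=
        mul_le_mul_of_nonneg_left hη (Real.exp_nonneg _)
    _ = C * (Real.exp (2 * Real.pi * (((n : ℝ) + a) / 2) * η) *
        Real.exp (-(2 * Real.pi * a * η))) := by ring
    _ = C * Real.exp (-(2 * Real.pi * ((a - n) / 2) * η)) := by
        rw [← Real.exp_add]
        congr 2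
        ring

private theorem evq_neg (y : ℂ) (L : LaurentPolynomial ℂ) :
    evq (-y) L = evq y (LaurentPolynomial.invert L) := by
  refine L.induction_on' (fun p q hp hq => ?_) (fun n a => ?_)
  · rw [map_add, map_add, map_add, hp, hq]
  · rw [map_mul, map_mul, map_mul, LaurentPolynomial.invert_C, LaurentPolynomial.invert_T,
      evq_C, evq_C, evq_T, evq_T]
    congr 2
    push_cast
    ring

theorem coeff_zero_bot {L : LaurentPolynomial ℂ} {b C : ℝ}
    (h : ∀ᶠ η : ℝ in atTop, ‖evq (-(η * Complex.I)) L‖ ≤ C * Real.exp (2 * Real.pi * b * η))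
    (n : ℤ) (hn : b < (n : ℝ)) : L.coeff n = 0 := by
  have h1 : ∀ᶠ η : ℝ in atTop, ‖evq (η * Complex.I) (LaurentPolynomial.invert L)‖ ≤
      C * Real.exp (-(2 * Real.pi * (-b) * η)) := by
    filter_upwards [h] with η hη
    rw [← evq_neg]
    refine hη.trans (le_of_eq ?_)
    congr 2
    ring
  have h2 := coeff_zero_top h1 (-n) (by push_cast; linarith)
  rw [LaurentPolynomial.invert_apply, neg_neg] at h2
  exact h2

end Pool.Agent.DST
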