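import Pool.Agent.DST.Abs

/-!
# Project DST, block T: definitions (complete, nothing to prove)
-/

open scoped BigOperators Topology
open Filter

namespace Pool.Agent.DST

/-- An integer. -/
def IntC (z : ℂ) : Prop := ∃ m : ℤ, z = (m : ℂ)

/-- The matrix `X(1/q)`. -/
noncomputable def invM {N : ℕ} (X : Matrix (Fin N) (Fin N) (LaurentPolynomial ℂ)) :
    Matrix (Fin N) (Fin N) (LaurentPolynomial ℂ) := X.map LaurentPolynomial.invert

/-- The Gram matrix `X(1/q)ᵀ χ X(q)`. -/
noncomputable def gramL {N : ℕ} (χ X : Matrix (Fin N) (Fin N) (LaurentPolynomial ℂ)) :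
    Matrix (Fin N) (Fin N) (LaurentPolynomial ℂ) := (invM X).transpose * χ * X

/-- The discriminant `∏_j p'(a_j)`, `p` the characteristic polynomial. -/
noncomputable def dsc {N : ℕ} (A : Matrix (Fin N) (Fin N) ℂ) : ℂ :=
  (Polynomial.aeval A (Polynomial.derivative A.charpoly)).det

end Pool.Agent.DST
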