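import Pool.Agent.DST.TLoc

/-!
# Project DST, module T-Den: local dichotomy for the walls

The differences `G' · i - G' · j` of the local holomorphic logarithms of the eigenvalues are constant or open maps. Either one
of them has imaginary part in `2πℤ` everywhere on the ball (then no point is off the walls), or every open set contains a point
off all the walls (shrink the open set for one pair `i ≠ j` after the other).
-/

open scoped BigOperators Topology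
open Filter

namespace Pool.Agent.DST

variable {N : ℕ}

private def good : Set ℂ := {z | ∀ n : ℤ, z.im ≠ 2 * Real.pi * n}

private theorem good_open : IsOpen good := by
  have hpi : (2 * Real.pi : ℝ) ≠ 0 := by positivity
  have h1 : IsClosed (Set.range ((↑) : ℤ → ℝ)) := Int.isClosedEmbedding_coe_real.isClosed_range
  have h2 : good = (fun z : ℂ => z.im / (2 * Real.pi)) ⁻¹' (Set.range ((↑) : ℤ → ℝ))ᶜ := by
    ext z
    constructor
    · rintro h ⟨n, hn⟩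
      apply h n
      rw [hn]
      field_simp
    · intro h n hn
      apply h
      refine ⟨n, ?_⟩
      show (n : ℝ) = z.im / (2 * Real.pi)
      rw [hn]
      field_simp
  rw [h2]
  exact h1.isOpen_compl.preimage (Complex.continuous_im.div_const _)

private theorem good_dense {W : Set ℂ} (hW : IsOpen W) (hne : W.Nonempty) : ∃ z ∈ W, z ∈ good := by
  have h1 : IsOpen (Complex.im '' W) := Complex.isOpenMap_im W hW
  have h2 : (Set.range fun n : ℤ => 2 * Real.pi * (n : ℝ)).Countable := Set.countable_range _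
  obtain ⟨t, ht1, ht2⟩ := (h2.dense_compl ℝ).inter_open_nonempty _ h1 (hne.image _)
  obtain ⟨z, hz, hzt⟩ := ht1
  refine ⟨z, hz, fun n hn => ht2 ⟨n, ?_⟩⟩
  show 2 * Real.pi * (n : ℝ) = t
  rw [← hn, hzt]

private theorem shrink {B : Set ℂ} (hB : IsOpen B) (hBc : IsPreconnected B) {h : ℂ → ℂ}
    (hd : ∀ s ∈ B, DifferentiableAt ℂ h s) (hex : ∃ s ∈ B, h s ∈ good) {V : Set ℂ} (hV : V ⊆ B)
    (hVo : IsOpen V) (hVn : V.Nonempty) : ∃ V' ⊆ V, IsOpen V' ∧ V'.Nonempty ∧ ∀ s ∈ V', h s ∈ good := by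
  have hdo : DifferentiableOn ℂ h B := fun s hs => (hd s hs).differentiableWithinAt
  rcases (hdo.analyticOnNhd hB).is_constant_or_isOpen hBc with ⟨w, hw⟩ | hop
  · obtain ⟨s, hs, hg⟩ := hex
    refine ⟨V, subset_rfl, hVo, hVn, fun s' hs' => ?_⟩
    rw [hw s' (hV hs'), ← hw s hs]
    exact hg
  · obtain ⟨z, ⟨s, hs, rfl⟩, hz⟩ := good_dense (hop V hV hVo) (hVn.image _)
    refine ⟨V ∩ h ⁻¹' good, Set.inter_subset_left, ?_, ⟨s, hs, hz⟩, fun s' hs' => hs'.2⟩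
    exact (hdo.continuousOn.mono hV).isOpen_inter_preimage hVo good_open

private theorem shrink_all {B : Set ℂ} {ι : Type} (F : Finset ι) {h : ι → ℂ → ℂ}
    (hs : ∀ i ∈ F, ∀ V ⊆ B, IsOpen V → V.Nonempty →
      ∃ V' ⊆ V, IsOpen V' ∧ V'.Nonempty ∧ ∀ s ∈ V', h i s ∈ good) :
    ∀ V ⊆ B, IsOpen V → V.Nonempty → ∃ V' ⊆ V, IsOpen V' ∧ V'.Nonempty ∧ ∀ i ∈ F, ∀ s ∈ V', h i s ∈ good := by
  classical
  induction F using Finset.induction_on with
  | empty =>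
    intro V _ hVo hVn
    exact ⟨V, subset_rfl, hVo, hVn, fun i hi => absurd hi (Finset.notMem_empty i)⟩
  | insert a F _ ih =>
    intro V hV hVo hVn
    obtain ⟨V₁, h₁, h₁o, h₁n, h₁g⟩ := ih (fun i hi => hs i (Finset.mem_insert_of_mem hi)) V hV hVo hVn
    obtain ⟨V₂, h₂, h₂o, h₂n, h₂g⟩ := hs a (Finset.mem_insert_self a F) V₁ (h₁.trans hV) h₁o h₁n
    refine ⟨V₂, h₂.trans h₁, h₂o, h₂n, fun i hi s hs' => ?_⟩
    rcases Finset.mem_insert.mp hi with rfl | hi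
    · exact h₂g s hs'
    · exact h₁g i hi s (h₂ hs')

theorem dichotomy {Ω : Set ℂ} {D : ℂ → DSys N}
    {χ : Matrix (Fin N) (Fin N) (LaurentPolynomial ℂ)} (hf : IsFam Ω D χ) {s₀ : ℂ} (h₀ : s₀ ∈ Ω)
    {Ψ : Matrix (Fin N) (Fin N) ℂ} {G : Fin N → ℂ} (hE : Eig ((D s₀).A 0) (D s₀).g Ψ G) :
    ∃ ρ > 0, Metric.ball s₀ ρ ⊆ Ω ∧
      (∀ s ∈ Metric.ball s₀ ρ, ∃ Ψ G, Eig ((D s).A 0) (D s).g Ψ G) ∧
      ((∀ s ∈ Metric.ball s₀ ρ, ¬ OffPt (D s)) ∨
        ∀ V ⊆ Metric.ball s₀ ρ, IsOpen V → V.Nonempty → ∃ s ∈ V, OffPt (D s)) := by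
  obtain ⟨ρ, hρ, hsub, G', _, hG'⟩ := local_eig hf.open_Ω (A := fun s => (D s).A 0) hf.A_hol h₀ hE
  have heig : ∀ s ∈ Metric.ball s₀ ρ, ∃ Ψ, Eig ((D s).A 0) (D s).g Ψ (G' s) := by
    intro s hs
    obtain ⟨_, hinj, V, hV, hAV⟩ := hG' s hs
    exact eig_of_diag (D s) hV hinj hAV
  refine ⟨ρ, hρ, hsub, fun s hs => ?_, ?_⟩
  · obtain ⟨Ψ', h⟩ := heig s hs
    exact ⟨Ψ', G' s, h⟩
  by_cases hc : ∃ i j, i ≠ j ∧ ∀ s ∈ Metric.ball s₀ ρ, G' s i - G' s j ∉ good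
  · left
    obtain ⟨i, j, hij, hbad⟩ := hc
    intro s hs hoff
    obtain ⟨Ψ', h⟩ := heig s hs
    exact hbad s hs (off_of_offPt h hoff i j hij)
  · right
    push Not at hc
    intro V hV hVo hVn
    obtain ⟨V', hV', _, hV'n, hg⟩ := shrink_all (B := Metric.ball s₀ ρ)
      (Finset.univ.filter fun p : Fin N × Fin N => p.1 ≠ p.2) (h := fun p s => G' s p.1 - G' s p.2)
      (fun p hp V hV hVo hVn => shrink Metric.isOpen_ball (convex_ball s₀ ρ).isPreconnected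
        (fun s hs => ((hG' s hs).1 p.1).sub ((hG' s hs).1 p.2))
        (hc p.1 p.2 (Finset.mem_filter.mp hp).2) hV hVo hVn) V hV hVo hVn
    obtain ⟨s, hs⟩ := hV'n
    obtain ⟨Ψ', h⟩ := heig s (hV (hV' hs))
    refine ⟨s, hV' hs, Ψ', G' s, h, fun i j hij => ?_⟩
    exact hg (i, j) (Finset.mem_filter.mpr ⟨Finset.mem_univ _, hij⟩) s hs

end Pool.Agent.DST
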