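import Pool.Agent.DST.TDen
import Pool.Agent.DST.TBad

/-!
# Project DST, block T: the points off the walls are dense
-/

open scoped BigOperators Topology
open Filter

namespace Pool.Agent.DST

variable {N : ℕ}

private theorem ball_sub_of' {x t : ℂ} {ρ : ℝ} (ht : t ∈ Metric.ball x ρ) :
    ∃ ρ' > 0, Metric.ball t ρ' ⊆ Metric.ball x ρ := by
  obtain ⟨ε, h1, h2⟩ := Metric.isOpen_iff.1 Metric.isOpen_ball t ht
  exact ⟨ε, h1, h2⟩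

private theorem isOpen_loc' (U : Set ℂ) (Q : Set ℂ → Prop)
    (hQ : ∀ s t : Set ℂ, s ⊆ t → Q t → Q s) :
    IsOpen {s : ℂ | ∃ ρ > 0, Metric.ball s ρ ⊆ U ∧ Q (Metric.ball s ρ)} := by
  rw [Metric.isOpen_iff]
  rintro s ⟨ρ, hρ, h1, h2⟩
  refine ⟨ρ, hρ, fun t ht => ?_⟩
  obtain ⟨ρ', h3, h4⟩ := ball_sub_of' ht
  exact ⟨ρ', h3, h4.trans h1, hQ _ _ h4 h2⟩

/-- If one point of a family is off the walls, then such points are dense. -/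
theorem offPt_dense {Ω : Set ℂ} {D : ℂ → DSys N}
    {χ : Matrix (Fin N) (Fin N) (LaurentPolynomial ℂ)} (hf : IsFam Ω D χ) {s₀ : ℂ} (h₀ : s₀ ∈ Ω)
    (off₀ : OffPt (D s₀)) {s : ℂ} (hs : s ∈ Ω) : ∀ V ∈ 𝓝 s, ∃ s' ∈ V ∩ Ω, OffPt (D s') := by
  obtain ⟨Ψ₀, G₀, hE₀, -⟩ := id off₀
  set Z : Set ℂ := {s | s ∈ Ω ∧ ¬ ∃ Ψ G, Eig ((D s).A 0) (D s).g Ψ G} with hZ
  have hZc : Z.Countable := bad_countable hf h₀ hE₀
  set U : Set ℂ := Ω \ Z with hU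
  have hconn : IsPreconnected U := hf.conn Z hZc
  have hdat : ∀ s ∈ U, ∃ Ψ G, Eig ((D s).A 0) (D s).g Ψ G := by
    rintro s ⟨h1, h2⟩
    by_contra h3
    exact h2 ⟨h1, h3⟩
  have hU₀ : s₀ ∈ U := ⟨h₀, fun h => h.2 ⟨Ψ₀, G₀, hE₀⟩⟩
  set W : Set ℂ := {s : ℂ | ∃ ρ > 0, Metric.ball s ρ ⊆ U ∧
    (fun B : Set ℂ => ∀ V ⊆ B, IsOpen V → V.Nonempty → ∃ s' ∈ V, OffPt (D s'))
      (Metric.ball s ρ)} with hW
  set W' : Set ℂ := {s : ℂ | ∃ ρ > 0, Metric.ball s ρ ⊆ U ∧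
    (fun B : Set ℂ => ∀ s' ∈ B, ¬ OffPt (D s')) (Metric.ball s ρ)} with hW'
  have oW : IsOpen W := isOpen_loc' U
    (fun B : Set ℂ => ∀ V ⊆ B, IsOpen V → V.Nonempty → ∃ s' ∈ V, OffPt (D s'))
    (fun s t hst h V hV => h V (hV.trans hst))
  have oW' : IsOpen W' := isOpen_loc' U (fun B : Set ℂ => ∀ s' ∈ B, ¬ OffPt (D s'))
    (fun s t hst h s' hs' => h s' (hst hs'))
  have cW : U ⊆ W ∪ W' := by
    intro s hs
    obtain ⟨Ψ, G, hE⟩ := hdat s hs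
    obtain ⟨ρ, hρ, b1, d1, a1⟩ := dichotomy hf hs.1 hE
    have b : Metric.ball s ρ ⊆ U := fun x hx => ⟨b1 hx, fun h => h.2 (d1 x hx)⟩
    rcases a1 with a | a
    · exact Or.inr ⟨ρ, hρ, b, a⟩
    · exact Or.inl ⟨ρ, hρ, b, a⟩
  have hW₀ : s₀ ∈ W := by
    rcases cW hU₀ with h | ⟨ρ, hρ, b, a⟩
    · exact h
    · exact absurd off₀ (a s₀ (Metric.mem_ball_self hρ))
  have hUW : ∀ s ∈ U, s ∈ W := by
    intro s hs
    by_contra hn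
    have hs' : s ∈ W' := (cW hs).resolve_left hn
    obtain ⟨x, hx, ⟨ρ, hρ, b, a⟩, ⟨ρ', hρ', b', a'⟩⟩ :=
      hconn W W' oW oW' cW ⟨s₀, hU₀, hW₀⟩ ⟨s, hs, hs'⟩
    obtain ⟨y, hy, hy'⟩ := a (Metric.ball x (min ρ ρ')) (Metric.ball_subset_ball (min_le_left _ _))
      Metric.isOpen_ball ⟨x, Metric.mem_ball_self (lt_min hρ hρ')⟩
    exact a' y (Metric.ball_subset_ball (min_le_right _ _) hy) hy'
  intro V hV
  obtain ⟨V', hV', oV', sV'⟩ := mem_nhds_iff.1 (Filter.inter_mem hV (hf.open_Ω.mem_nhds hs))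
  obtain ⟨x, hx1, hx2⟩ := (hZc.dense_compl ℝ).exists_mem_open oV' ⟨s, sV'⟩
  have hxU : x ∈ U := ⟨(hV' hx2).2, hx1⟩
  obtain ⟨ρ, hρ, b, a⟩ := hUW x hxU
  obtain ⟨ρ', hρ', c⟩ := Metric.isOpen_iff.1 oV' x hx2
  obtain ⟨y, hy, hy'⟩ := a (Metric.ball x (min ρ ρ')) (Metric.ball_subset_ball (min_le_left _ _))
    Metric.isOpen_ball ⟨x, Metric.mem_ball_self (lt_min hρ hρ')⟩
  exact ⟨y, hV' (c (Metric.ball_subset_ball (min_le_right _ _) hy)), hy'⟩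

end Pool.Agent.DST
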