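import Pool.Agent.DST.TEig
import Pool.Agent.DST.KDet

/-!
# Project DST, module T-Disc: the discriminant

The discriminant `dsc A` does not vanish exactly if the characteristic polynomial has simple roots: then there are
orthonormal eigenvectors (`eig_of_dsc`); conversely `dsc A₀ = ∏_j p'(exp (G j)) ≠ 0` (`dsc_ne`).
-/

open scoped BigOperators Topology
open Filter

namespace Pool.Agent.DST

variable {N : ℕ}

private theorem td_pow {A : Matrix (Fin N) (Fin N) ℂ} {v : Fin N → ℂ} {x : ℂ}
    (h : A.mulVec v = x • v) (n : ℕ) : (A ^ n).mulVec v = x ^ n • v := by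
  induction n with
  | zero => rw [pow_zero, pow_zero, Matrix.one_mulVec, one_smul]
  | succ n ih =>
    rw [pow_succ, ← Matrix.mulVec_mulVec, h, Matrix.mulVec_smul, ih, smul_smul, pow_succ,
      mul_comm]

private theorem td_aeval {A : Matrix (Fin N) (Fin N) ℂ} {v : Fin N → ℂ} {x : ℂ}
    (h : A.mulVec v = x • v) (q : Polynomial ℂ) :
    (Polynomial.aeval A q).mulVec v = q.eval x • v := by
  induction q using Polynomial.induction_on' with
  | add p q hp hq => rw [map_add, Matrix.add_mulVec, hp, hq, Polynomial.eval_add, add_smul]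
  | monomial n a =>
    rw [Polynomial.aeval_monomial, Polynomial.eval_monomial, Algebra.algebraMap_eq_smul_one,
      smul_mul_assoc, one_mul, Matrix.smul_mulVec, td_pow h, smul_smul]

private theorem td_col {A Ψ : Matrix (Fin N) (Fin N) ℂ} {a : Fin N → ℂ}
    (h : A * Ψ = Ψ * Matrix.diagonal a) (j : Fin N) :
    A.mulVec (fun i => Ψ i j) = a j • fun i => Ψ i j := by
  funext i
  have h1 := congrFun (congrFun h i) j
  rw [Matrix.mul_diagonal, Matrix.mul_apply] at h1
  show ∑ k, A i k * Ψ k j = a j * Ψ i j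
  rw [h1, mul_comm]

private theorem td_diag {A Ψ : Matrix (Fin N) (Fin N) ℂ} {a : Fin N → ℂ}
    (h : A * Ψ = Ψ * Matrix.diagonal a) (q : Polynomial ℂ) :
    Polynomial.aeval A q * Ψ = Ψ * Matrix.diagonal fun j => q.eval (a j) := by
  ext i j
  have h1 := congrFun (td_aeval (td_col h j) q) i
  rw [Matrix.mul_diagonal, Matrix.mul_apply]
  have h2 : ∑ k, Polynomial.aeval A q i k * Ψ k j = q.eval (a j) * Ψ i j := h1
  rw [h2, mul_comm]

private theorem td_char {A Ψ : Matrix (Fin N) (Fin N) ℂ} {a : Fin N → ℂ} (hΨ : Ψ.det ≠ 0)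
    (h : A * Ψ = Ψ * Matrix.diagonal a) :
    A.charpoly = ∏ j, (Polynomial.X - Polynomial.C (a j)) := by
  have hu : IsUnit Ψ := (Matrix.isUnit_iff_isUnit_det Ψ).2 (isUnit_iff_ne_zero.2 hΨ)
  obtain ⟨U, rfl⟩ := hu
  have h1 : A = (U : Matrix (Fin N) (Fin N) ℂ) * Matrix.diagonal a *
      ((U⁻¹ : (Matrix (Fin N) (Fin N) ℂ)ˣ) : Matrix (Fin N) (Fin N) ℂ) := by
    rw [← h, Matrix.mul_assoc, Units.mul_inv, Matrix.mul_one]
  rw [h1, Matrix.coe_units_inv, Matrix.charpoly_units_conj, Matrix.charpoly_diagonal]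

theorem eig_of_dsc (D : DSys N) (h : dsc (D.A 0) ≠ 0) : ∃ Ψ G, Eig (D.A 0) D.g Ψ G := by
  classical
  set p : Polynomial ℂ := (D.A 0).charpoly with hp
  have hp0 : p ≠ 0 := (Matrix.charpoly_monic (D.A 0)).ne_zero
  have hnd : p.natDegree = N := by
    rw [hp, Matrix.charpoly_natDegree_eq_dim, Fintype.card_fin]
  have hsimple : ∀ x : ℂ, p.IsRoot x → ¬ (Polynomial.derivative p).IsRoot x := by
    intro x hx hx'
    apply h
    have h1 : (Matrix.scalar (Fin N) x - D.A 0).det = 0 := by
      have h2 : p.eval x = 0 := hx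
      rw [hp, Matrix.eval_charpoly] at h2
      exact h2
    obtain ⟨v, hv, hv2⟩ := Matrix.exists_mulVec_eq_zero_iff.2 h1
    have h3 : (D.A 0).mulVec v = x • v := by
      rw [Matrix.sub_mulVec, sub_eq_zero] at hv2
      rw [← hv2, Matrix.scalar_apply, ← Matrix.smul_one_eq_diagonal, Matrix.smul_mulVec,
        Matrix.one_mulVec]
    have h4 := td_aeval h3 (Polynomial.derivative p)
    have h5 : (Polynomial.derivative p).eval x = 0 := hx'
    rw [h5, zero_smul] at h4
    exact Matrix.exists_mulVec_eq_zero_iff.1 ⟨v, hv, h4⟩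
  have hnodup : p.roots.Nodup := by
    rw [Multiset.nodup_iff_count_le_one]
    intro x
    rw [Polynomial.count_roots]
    by_contra hcon
    have h1 := (Polynomial.one_lt_rootMultiplicity_iff_isRoot hp0).1 (not_le.1 hcon)
    exact hsimple x h1.1 h1.2
  have hcard : p.roots.toFinset.card = N := by
    rw [Multiset.toFinset_card_of_nodup hnodup,
      Polynomial.splits_iff_card_roots.1 (IsAlgClosed.splits p), hnd]
  let e := (Finset.equivFinOfCardEq hcard).symm
  let a : Fin N → ℂ := fun j => (e j : ℂ)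
  have ha : Function.Injective a := fun i j hij => e.injective (Subtype.ext hij)
  have hroot : ∀ j, p.eval (a j) = 0 := by
    intro j
    have h1 : a j ∈ p.roots := Multiset.mem_toFinset.1 (e j).2
    exact (Polynomial.mem_roots hp0).1 h1
  have ha0 : ∀ j, a j ≠ 0 := by
    intro j hj
    apply D.A_det
    have h1 := hroot j
    rw [hj, ← Polynomial.coeff_zero_eq_eval_zero] at h1
    rw [Matrix.det_eq_sign_charpoly_coeff, ← hp, h1, mul_zero]
  have hlog : (fun j => Complex.exp (Complex.log (a j))) = a := by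
    funext j
    exact Complex.exp_log (ha0 j)
  obtain ⟨V, hV, hV2⟩ := exists_V (A := D.A 0) ha hroot
  obtain ⟨Ψ, hΨ⟩ := eig_of_diag D (V := V) (G := fun j => Complex.log (a j)) hV
    (by rw [hlog]; exact ha) (by rw [hlog]; exact hV2)
  exact ⟨Ψ, fun j => Complex.log (a j), hΨ⟩

theorem dsc_ne {A₀ g Ψ : Matrix (Fin N) (Fin N) ℂ} {G : Fin N → ℂ} (hE : Eig A₀ g Ψ G) :
    dsc A₀ ≠ 0 := by
  have hΨ := hE.det_ne
  have h1 := td_char hΨ hE.eig
  have h2 := td_diag hE.eig (Polynomial.derivative A₀.charpoly)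
  have h3 := congrArg Matrix.det h2
  rw [Matrix.det_mul, Matrix.det_mul, Matrix.det_diagonal, mul_comm] at h3
  have h4 : dsc A₀ = ∏ j, (Polynomial.derivative A₀.charpoly).eval (Complex.exp (G j)) :=
    mul_left_cancel₀ hΨ h3
  rw [h4]
  refine Finset.prod_ne_zero_iff.2 fun j _ => ?_
  have hsep : (A₀.charpoly).Separable := by
    rw [h1]
    exact Polynomial.separable_prod_X_sub_C_iff.2 hE.inj
  have h5 := hsep.aeval_derivative_ne_zero (x := Complex.exp (G j)) (by
    rw [Polynomial.coe_aeval_eq_eval, h1, Polynomial.eval_prod]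
    refine Finset.prod_eq_zero (Finset.mem_univ j) ?_
    rw [Polynomial.eval_sub, Polynomial.eval_X, Polynomial.eval_C, sub_self])
  rw [Polynomial.coe_aeval_eq_eval] at h5
  exact h5

end Pool.Agent.DST
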