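import Pool.Agent.WW.T3o

/-!
Parametric circle integrals of holomorphic functions.
-/

set_option autoImplicit false

namespace Pool.Agent.DST.TE

open Metric Filter Topology MeasureTheory

theorem circ_diff {f : (ℂ × ℂ) × ℂ → ℂ} {W : Set ((ℂ × ℂ) × ℂ)} (hW : IsOpen W)
    (hf : DifferentiableOn ℂ f W) {q0 : ℂ × ℂ} {ε : ℝ} (hε : 0 < ε)
    (hs : ∀ s : ℂ, ‖s‖ = ε → (q0, s) ∈ W) :
    DifferentiableAt ℂ
      (fun q : ℂ × ℂ => ∫ θ in (0 : ℝ)..2 * Real.pi, f (q, circleMap 0 ε θ)) q0 := by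
  set K : Set ((ℂ × ℂ) × ℂ) := (fun s : ℂ => (q0, s)) '' sphere (0 : ℂ) ε with hK
  have hKc : IsCompact K := (isCompact_sphere (0 : ℂ) ε).image (by fun_prop)
  have hKW : K ⊆ W := by
    rintro _ ⟨s, hs1, rfl⟩
    exact hs s (mem_sphere_zero_iff_norm.1 hs1)
  obtain ⟨δ, hδ, hδW⟩ := hKc.exists_cthickening_subset_open hW hKW
  obtain ⟨C0, hC0⟩ := hKc.cthickening (r := δ) |>.exists_bound_of_continuousOn
    (hf.continuousOn.mono hδW)
  set C : ℝ := max C0 0 with hC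
  have hC00 : 0 ≤ C := le_max_right _ _
  have hball : ∀ q ∈ ball q0 (δ / 2), ∀ θ : ℝ, ball ((q, circleMap 0 ε θ) : (ℂ × ℂ) × ℂ) (δ / 2) ⊆
      cthickening δ K := by
    intro q hq θ z hz
    have hmem : ((q0, circleMap 0 ε θ) : (ℂ × ℂ) × ℂ) ∈ K := by
      refine ⟨circleMap 0 ε θ, ?_, rfl⟩
      rw [mem_sphere_zero_iff_norm, norm_circleMap_zero, abs_of_pos hε]
    apply mem_cthickening_of_dist_le z (q0, circleMap 0 ε θ) δ K hmem
    have h1 : dist z (q, circleMap 0 ε θ) < δ / 2 := mem_ball.1 hz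
    have h2 : dist ((q, circleMap 0 ε θ) : (ℂ × ℂ) × ℂ) (q0, circleMap 0 ε θ) < δ / 2 := by
      rw [Prod.dist_eq]
      simp only [dist_self]
      rw [max_eq_left dist_nonneg]
      exact mem_ball.1 hq
    linarith [dist_triangle z (q, circleMap 0 ε θ) (q0, circleMap 0 ε θ)]
  have hfd : ∀ q ∈ ball q0 (δ / 2), ∀ θ : ℝ,
      ‖fderiv ℂ f (q, circleMap 0 ε θ)‖ ≤ C / (δ / 2) := by
    intro q hq θ
    refine WW.T3o.norm_fderiv_le (by positivity) hC00
      (hf.mono ((hball q hq θ).trans hδW)) fun z hz => ?_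
    exact (hC0 z (hball q hq θ hz)).trans (le_max_left _ _)
  have hmemW : ∀ q ∈ ball q0 (δ / 2), ∀ θ : ℝ, ((q, circleMap 0 ε θ) : (ℂ × ℂ) × ℂ) ∈ W :=
    fun q hq θ => hδW (hball q hq θ (mem_ball_self (by positivity)))
  have hcm : Continuous (circleMap (0 : ℂ) ε) := continuous_circleMap 0 ε
  have hcF : ∀ q ∈ ball q0 (δ / 2), Continuous fun θ : ℝ => f (q, circleMap 0 ε θ) := by
    intro q hq
    refine hf.continuousOn.comp_continuous (by fun_prop) fun θ => ?_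
    exact hmemW q hq θ
  have hmain : HasFDerivAt
      (fun q : ℂ × ℂ => ∫ θ in (0 : ℝ)..2 * Real.pi, f (q, circleMap 0 ε θ))
      (∫ θ in (0 : ℝ)..2 * Real.pi, (fderiv ℂ f (q0, circleMap 0 ε θ)).comp
        (ContinuousLinearMap.inl ℂ (ℂ × ℂ) ℂ)) q0 := by
    apply intervalIntegral.hasFDerivAt_integral_of_dominated_of_fderiv_le
      (F := fun q θ => f (q, circleMap 0 ε θ))
      (F' := fun q θ => (fderiv ℂ f (q, circleMap 0 ε θ)).comp
        (ContinuousLinearMap.inl ℂ (ℂ × ℂ) ℂ))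
      (bound := fun _ => C / (δ / 2))
      (ball_mem_nhds q0 (by positivity : 0 < δ / 2))
    · filter_upwards [ball_mem_nhds q0 (by positivity : 0 < δ / 2)] with q hq
      exact (hcF q hq).aestronglyMeasurable
    · exact (hcF q0 (mem_ball_self (by positivity))).intervalIntegrable _ _
    · have hm : Measurable fun θ : ℝ => fderiv ℂ f (q0, circleMap 0 ε θ) :=
        (measurable_fderiv ℂ f).comp (Continuous.measurable (by fun_prop))
      have hL : Continuous fun A : ((ℂ × ℂ) × ℂ) →L[ℂ] ℂ =>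
          A.comp (ContinuousLinearMap.inl ℂ (ℂ × ℂ) ℂ) :=
        ((ContinuousLinearMap.compL ℂ (ℂ × ℂ) ((ℂ × ℂ) × ℂ) ℂ).flip
          (ContinuousLinearMap.inl ℂ (ℂ × ℂ) ℂ)).continuous
      exact hL.comp_aestronglyMeasurable hm.aestronglyMeasurable
    · refine Eventually.of_forall fun θ _ q hq => ?_
      calc ‖(fderiv ℂ f (q, circleMap 0 ε θ)).comp (ContinuousLinearMap.inl ℂ (ℂ × ℂ) ℂ)‖
          ≤ ‖fderiv ℂ f (q, circleMap 0 ε θ)‖ * ‖ContinuousLinearMap.inl ℂ (ℂ × ℂ) ℂ‖ :=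
            ContinuousLinearMap.opNorm_comp_le _ _
        _ ≤ C / (δ / 2) * 1 := by
            apply mul_le_mul (hfd q hq θ) (ContinuousLinearMap.norm_inl_le_one ℂ (ℂ × ℂ) ℂ)
              (norm_nonneg _) (by positivity)
        _ = C / (δ / 2) := mul_one _
    · exact continuous_const.intervalIntegrable _ _
    · refine Eventually.of_forall fun θ _ q hq => ?_
      have h1 : HasFDerivAt f (fderiv ℂ f (q, circleMap 0 ε θ)) (q, circleMap 0 ε θ) :=
        ((hf _ (hmemW q hq θ)).differentiableAt (hW.mem_nhds (hmemW q hq θ))).hasFDerivAt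
      have h3 : HasFDerivAt (fun q : ℂ × ℂ => ((q, circleMap 0 ε θ) : (ℂ × ℂ) × ℂ))
          (ContinuousLinearMap.inl ℂ (ℂ × ℂ) ℂ) q := hasFDerivAt_prodMk_left q _
      exact h1.comp q h3
  exact hmain.differentiableAt

end Pool.Agent.DST.TE
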