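import Pool.Agent.DST.TE1

/-!
Integral linear forms: generic directions, integrality is a closed condition, and the shift
identity at all points of `Omega1`.
-/

set_option autoImplicit false

namespace Pool.Agent.DST.TE

open Metric Filter Topology MeasureTheory

/-- value of the integral form `a` at `y` -/
noncomputable def pr {m : ℕ} (a : Fin m → ℤ) (y : Fin m → ℂ) : ℂ := ∑ i, (a i : ℂ) * y i

/-- the integral vector `μ` as a point of `ℂ^m` -/
noncomputable def cc {m : ℕ} (μ : Fin m → ℤ) : Fin m → ℂ := fun i => (μ i : ℂ)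

variable {m : ℕ}

theorem pr_add (a : Fin m → ℤ) (x y : Fin m → ℂ) : pr a (x + y) = pr a x + pr a y := by
  simp only [pr, Pi.add_apply, mul_add, Finset.sum_add_distrib]

theorem pr_sub (a : Fin m → ℤ) (x y : Fin m → ℂ) : pr a (x - y) = pr a x - pr a y := by
  simp only [pr, Pi.sub_apply, mul_sub, Finset.sum_sub_distrib]

theorem pr_smul (a : Fin m → ℤ) (t : ℂ) (y : Fin m → ℂ) : pr a (t • y) = t * pr a y := by
  simp only [pr, Pi.smul_apply, smul_eq_mul, Finset.mul_sum]
  exact Finset.sum_congr rfl fun i _ => by ring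

theorem pr_cc (a μ : Fin m → ℤ) : pr a (cc μ) = ((∑ i, a i * μ i : ℤ) : ℂ) := by
  simp only [pr, cc]
  push_cast
  rfl

theorem pr_comb (a b : Fin m → ℤ) (p q : ℤ) (y : Fin m → ℂ) :
    pr (fun i => p * a i - q * b i) y = p * pr a y - q * pr b y := by
  simp only [pr, Finset.mul_sum, ← Finset.sum_sub_distrib]
  exact Finset.sum_congr rfl fun i _ => by push_cast; ring

@[fun_prop]
theorem continuous_pr (a : Fin m → ℤ) : Continuous (pr a) := by
  unfold pr
  fun_prop

theorem pr_zero_right (a : Fin m → ℤ) : pr a 0 = 0 := by simp [pr]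

/-- a vector on which finitely many nonzero integral forms do not vanish -/
theorem exists_generic {L : Type*} [Finite L] (b : L → Fin m → ℤ) :
    ∃ v : Fin m → ℂ, ∀ l, b l ≠ 0 → pr (b l) v ≠ 0 := by
  classical
  cases nonempty_fintype L
  set P : L → MvPolynomial (Fin m) ℂ := fun l =>
    if b l = 0 then 1 else ∑ i, MvPolynomial.C (b l i : ℂ) * MvPolynomial.X i with hP
  have hev : ∀ l v, b l ≠ 0 → MvPolynomial.eval v (P l) = pr (b l) v := by
    intro l v hl
    simp [hP, hl, pr]
  have hne : ∀ l, P l ≠ 0 := by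
    intro l
    by_cases hl : b l = 0
    · simp [hP, hl]
    · intro h0
      obtain ⟨i, hi⟩ := Function.ne_iff.1 hl
      have h1 := hev l (Pi.single i 1) hl
      rw [h0, map_zero] at h1
      have h2 : pr (b l) (Pi.single i (1 : ℂ)) = (b l i : ℂ) := by
        simp [pr, Pi.single_apply]
      rw [h2] at h1
      exact hi (by exact_mod_cast h1.symm)
  have hprod : ∏ l, P l ≠ 0 := Finset.prod_ne_zero_iff.2 fun l _ => hne l
  obtain ⟨v, hv⟩ : ∃ v : Fin m → ℂ, MvPolynomial.eval v (∏ l, P l) ≠ 0 := by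
    by_contra hcon
    push Not at hcon
    exact hprod (MvPolynomial.funext fun v => by rw [hcon v, map_zero])
  refine ⟨v, fun l hl => ?_⟩
  rw [map_prod, Finset.prod_ne_zero_iff] at hv
  rw [← hev l v hl]
  exact hv l (Finset.mem_univ _)

/-- integers different from `d` stay away from `d` -/
theorem nhds_int (d : ℂ) : {z : ℂ | ∀ n : ℤ, z = n → d = n} ∈ 𝓝 d := by
  have hcl : IsClosed ((fun n : ℤ => (n : ℂ)) '' {n | d ≠ n}) :=
    Complex.isClosedEmbedding_intCast.isClosedMap _ (isClosed_discrete _)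
  have hd : d ∈ ((fun n : ℤ => (n : ℂ)) '' {n | d ≠ n})ᶜ := by
    rintro ⟨n, hn, hn2⟩
    exact hn hn2.symm
  filter_upwards [hcl.isOpen_compl.mem_nhds hd] with z hz n hn
  by_contra hcon
  exact hz ⟨n, hcon, hn.symm⟩

/-- eventually near a point only the forms integral at the point can be integral -/
theorem ev_int {X : Type*} [TopologicalSpace X] {L : Type*} [Finite L] (b : L → Fin m → ℤ)
    {g : X → Fin m → ℂ} {x0 : X} (hg : ContinuousAt g x0) :
    ∀ᶠ x in 𝓝 x0, ∀ l, ∀ n : ℤ, pr (b l) (g x) = n → pr (b l) (g x0) = n := by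
  rw [eventually_all]
  intro l
  have h1 : ContinuousAt (fun x => pr (b l) (g x)) x0 :=
    ((continuous_pr (b l)).continuousAt).comp hg
  exact h1 (nhds_int _)

end Pool.Agent.DST.TE
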