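import Pool.Agent.DST.TE2

/-!
The data of the extension theorem; the shift identity at all points of `Omega1`.
-/

set_option autoImplicit false

namespace Pool.Agent.DST.TE

open Metric Filter Topology MeasureTheory

/-- data and hypotheses of the extension theorem -/
structure TD (m : ℕ) (K I N : Type*) [Fintype N] where
  χ : K → Fin m → ℤ
  a : I → Fin m → ℤ
  ξ : Fin m → ℤ
  J : (Fin m → ℂ) → ℂ → Matrix N N ℂ
  S : (Fin m → ℤ) → (Fin m → ℂ) → ℂ → Matrix N N ℂ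
  hprim : ∀ k, ∀ n : ℤ, ∃ μ : Fin m → ℤ, ∑ i, χ k i * μ i = n
  hξ : ∀ k, ∑ i, χ k i * ξ i ≠ 0
  hS : ∀ μ p q, Differentiable ℂ fun x : (Fin m → ℂ) × ℂ => S μ x.1 x.2 p q
  hJ1 : ∀ y, (∀ k, ∀ n : ℤ, pr (χ k) y ≠ n) → ∀ w p q,
      DifferentiableAt ℂ (fun x : (Fin m → ℂ) × ℂ => J x.1 x.2 p q) (y, w)
  hJ2 : ∀ y, (∀ k, ∀ n : ℤ, n ≠ 0 → pr (χ k) y ≠ n) →
      (∀ l, ∀ n : ℤ, n ≠ 0 → pr (a l) y ≠ n) → ∀ w p q,
      DifferentiableAt ℂ (fun x : (Fin m → ℂ) × ℂ => J x.1 x.2 p q) (y, w)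
  hsh : ∀ (μ : Fin m → ℤ) (y : Fin m → ℂ), (∀ k, ∀ n : ℤ, pr (χ k) y ≠ n) →
      (∀ l, ∀ n : ℤ, n ≠ 0 → pr (a l) y ≠ n) → (∀ l, ∀ n : ℤ, n ≠ 0 → pr (a l) (y - cc μ) ≠ n) →
      ∀ w, J y w = S μ y w * J (y - cc μ) w

namespace TD

variable {m : ℕ} {K I N : Type*} [Fintype N] (D : TD m K I N)

/-- no tangent form is an integer at `y` -/
def om1 (y : Fin m → ℂ) : Prop := ∀ k, ∀ n : ℤ, pr (D.χ k) y ≠ n

/-- no form is a nonzero integer at `y` -/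
def om2 (y : Fin m → ℂ) : Prop := (∀ k, ∀ n : ℤ, n ≠ 0 → pr (D.χ k) y ≠ n) ∧
  (∀ l, ∀ n : ℤ, n ≠ 0 → pr (D.a l) y ≠ n)

theorem dJ {X : Type*} [NormedAddCommGroup X] [NormedSpace ℂ X] {g : X → Fin m → ℂ} {h : X → ℂ}
    {x0 : X} (hg : DifferentiableAt ℂ g x0) (hh : DifferentiableAt ℂ h x0)
    (hy : D.om1 (g x0) ∨ D.om2 (g x0)) (p q : N) :
    DifferentiableAt ℂ (fun x => D.J (g x) (h x) p q) x0 := by
  have h1 : DifferentiableAt ℂ (fun x : (Fin m → ℂ) × ℂ => D.J x.1 x.2 p q) (g x0, h x0) := by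
    rcases hy with hy | hy
    · exact D.hJ1 _ hy _ p q
    · exact D.hJ2 _ hy.1 hy.2 _ p q
  exact h1.comp x0 (hg.prodMk hh)

theorem dS {X : Type*} [NormedAddCommGroup X] [NormedSpace ℂ X] {g : X → Fin m → ℂ} {h : X → ℂ}
    {x0 : X} (hg : DifferentiableAt ℂ g x0) (hh : DifferentiableAt ℂ h x0) (μ : Fin m → ℤ)
    (p q : N) : DifferentiableAt ℂ (fun x => D.S μ (g x) (h x) p q) x0 := by
  have h1 : DifferentiableAt ℂ (fun x : (Fin m → ℂ) × ℂ => D.S μ x.1 x.2 p q) (g x0, h x0) :=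
    (D.hS μ p q) _
  exact h1.comp x0 (hg.prodMk hh)

theorem dSJ {X : Type*} [NormedAddCommGroup X] [NormedSpace ℂ X] {g : X → Fin m → ℂ} {h : X → ℂ}
    {x0 : X} (hg : DifferentiableAt ℂ g x0) (hh : DifferentiableAt ℂ h x0) (μ : Fin m → ℤ)
    (hy : D.om1 (g x0 - cc μ) ∨ D.om2 (g x0 - cc μ)) (p q : N) :
    DifferentiableAt ℂ (fun x => (D.S μ (g x) (h x) * D.J (g x - cc μ) (h x)) p q) x0 := by
  simp only [Matrix.mul_apply]
  apply DifferentiableAt.fun_sum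
  intro r _
  exact (D.dS hg hh μ p r).mul (D.dJ (g := fun x => g x - cc μ) (hg.sub_const _) hh hy r q)

theorem om1_sub {y : Fin m → ℂ} (hy : D.om1 y) (μ : Fin m → ℤ) : D.om1 (y - cc μ) := by
  intro k n hn
  rw [pr_sub, pr_cc] at hn
  apply hy k (n + ∑ i, D.χ k i * μ i)
  rw [Int.cast_add, ← hn]
  ring

theorem om1_ev [Finite K] {X : Type*} [TopologicalSpace X] {g : X → Fin m → ℂ} {x0 : X}
    (hg : ContinuousAt g x0) (hy : D.om1 (g x0)) : ∀ᶠ x in 𝓝 x0, D.om1 (g x) := by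
  filter_upwards [ev_int D.χ hg] with x hx k n hn
  exact hy k n (hx k n hn)

theorem countable_bad [Finite I] (y v : Fin m → ℂ) (hv : ∀ l, D.a l ≠ 0 → pr (D.a l) v ≠ 0) :
    {t : ℂ | ∃ l, ∃ n : ℤ, n ≠ 0 ∧ pr (D.a l) (y + t • v) = n}.Countable := by
  have h1 : {t : ℂ | ∃ l, ∃ n : ℤ, n ≠ 0 ∧ pr (D.a l) (y + t • v) = n} ⊆
      ⋃ l, {t : ℂ | ∃ n : ℤ, n ≠ 0 ∧ pr (D.a l) (y + t • v) = n} := by
    rintro t ⟨l, n, hn⟩
    exact Set.mem_iUnion.2 ⟨l, n, hn⟩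
  refine Set.Countable.mono h1 (Set.countable_iUnion fun l => ?_)
  by_cases hl : D.a l = 0
  · convert Set.countable_empty
    ext t
    simp only [Set.mem_ofPred_eq, Set.mem_empty_iff_false, iff_false, not_exists, not_and]
    intro n hn h2
    rw [hl] at h2
    simp only [pr, Pi.zero_apply, Int.cast_zero, zero_mul, Finset.sum_const_zero] at h2
    exact hn (by exact_mod_cast h2.symm)
  · have h2 : Function.Injective fun t : ℂ => pr (D.a l) y + t * pr (D.a l) v := by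
      intro s t hst
      simp only [add_right_inj] at hst
      exact mul_right_cancel₀ (hv l hl) hst
    refine Set.Countable.mono ?_
      ((Set.countable_range fun n : ℤ => (n : ℂ)).preimage h2)
    rintro t ⟨n, _, hn⟩
    refine ⟨n, ?_⟩
    rw [pr_add, pr_smul] at hn
    exact hn.symm

/-- the shift identity at all points of `Omega1` -/
theorem shift1 [Finite K] [Finite I] (μ : Fin m → ℤ) {y : Fin m → ℂ} (hy : D.om1 y) (w : ℂ) :
    D.J y w = D.S μ y w * D.J (y - cc μ) w := by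
  obtain ⟨v, hv⟩ := exists_generic D.a
  have hc := (D.countable_bad y v hv).union (D.countable_bad (y - cc μ) v hv)
  have hg : DifferentiableAt ℂ (fun t : ℂ => y + t • v) 0 := by fun_prop
  have hg0 : y + (0 : ℂ) • v = y := by simp
  have hfr : ∃ᶠ t in 𝓝 (0 : ℂ), t ∈ ({t : ℂ | ∃ l, ∃ n : ℤ, n ≠ 0 ∧ pr (D.a l) (y + t • v) = n} ∪
      {t : ℂ | ∃ l, ∃ n : ℤ, n ≠ 0 ∧ pr (D.a l) (y - cc μ + t • v) = n})ᶜ :=
    mem_closure_iff_frequently.1 ((hc.dense_compl ℂ) 0)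
  have hev : ∀ᶠ t in 𝓝 (0 : ℂ), D.om1 (y + t • v) :=
    D.om1_ev hg.continuousAt (by rw [hg0]; exact hy)
  have hfr2 := hfr.and_eventually hev
  ext p q
  have hd1 : ContinuousAt (fun t : ℂ => D.J (y + t • v) w p q) 0 :=
    (D.dJ hg (differentiableAt_const w) (Or.inl (by rw [hg0]; exact hy)) p q).continuousAt
  have hd2 : ContinuousAt
      (fun t : ℂ => (D.S μ (y + t • v) w * D.J (y + t • v - cc μ) w) p q) 0 :=
    (D.dSJ hg (differentiableAt_const w) μ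
      (Or.inl (by rw [hg0]; exact D.om1_sub hy μ)) p q).continuousAt
  by_contra hne
  have hne2 : ∀ᶠ t in 𝓝 (0 : ℂ), D.J (y + t • v) w p q -
      (D.S μ (y + t • v) w * D.J (y + t • v - cc μ) w) p q ≠ 0 := by
    have h7 : (fun t : ℂ => D.J (y + t • v) w p q -
        (D.S μ (y + t • v) w * D.J (y + t • v - cc μ) w) p q) 0 ≠ 0 := by
      simp only [zero_smul, add_zero]
      exact sub_ne_zero.2 hne
    exact (hd1.sub hd2).eventually_ne h7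
  obtain ⟨t, ⟨ht1, ht2⟩, ht3⟩ := (hfr2.and_eventually hne2).exists
  apply ht3
  rw [sub_eq_zero]
  have h5 := D.hsh μ (y + t • v) ht2 ?_ ?_ w
  · rw [← h5]
  · intro l n hn h6
    exact ht1 (Or.inl ⟨l, n, hn, h6⟩)
  · intro l n hn h6
    refine ht1 (Or.inr ⟨l, n, hn, ?_⟩)
    rw [← h6]
    congr 1
    abel

end TD

end Pool.Agent.DST.TE
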