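import Pool.Agent.DST.TE3

/-!
The local extension near a point of the line.
-/

set_option autoImplicit false

namespace Pool.Agent.DST.TE

open Metric Filter Topology MeasureTheory

namespace TD

variable {m : ℕ} {K I N : Type*} [Fintype N] (D : TD m K I N)

/-- all forms -/
def fm : K ⊕ I → Fin m → ℤ := Sum.elim D.χ D.a

/-- the point `y ξ + s v` -/
noncomputable def pt (v : Fin m → ℂ) (y s : ℂ) : Fin m → ℂ := y • cc D.ξ + s • v

theorem pr_pt (b : Fin m → ℤ) (v : Fin m → ℂ) (y s : ℂ) :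
    pr b (D.pt v y s) = y * pr b (cc D.ξ) + s * pr b v := by
  rw [pt, pr_add, pr_smul, pr_smul]

/-- the set of the integral tangent forms at `P` -/
def hs (P : Fin m → ℂ) : Set K := {k | ∃ n : ℤ, pr (D.χ k) P = n}

theorem hs_empty {P : Fin m → ℂ} (h : ¬ (D.hs P).Nonempty) : D.om1 P := by
  intro k n hn
  exact h ⟨k, n, hn⟩

open Classical in
/-- the extension of `J` over `Omega1 + Z^m`; `mu` a choice of cocharacters -/
noncomputable def Jh (μ : K → Fin m → ℤ) (P : Fin m → ℂ) (w : ℂ) : Matrix N N ℂ :=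
  if h : (D.hs P).Nonempty then D.S (μ h.some) P w * D.J (P - cc (μ h.some)) w else D.J P w

theorem Jh_om1 (μ : K → Fin m → ℤ) {P : Fin m → ℂ} (h : D.om1 P) (w : ℂ) :
    D.Jh μ P w = D.J P w := by
  rw [Jh, dif_neg]
  rintro ⟨k, n, hn⟩
  exact h k n hn

theorem Jh_congr (μ : K → Fin m → ℤ) {P Q : Fin m → ℂ} (h : (D.hs Q).Nonempty)
    (hPQ : D.hs P = D.hs Q) (w : ℂ) :
    D.Jh μ P w = D.S (μ h.some) P w * D.J (P - cc (μ h.some)) w := by
  have hP : (D.hs P).Nonempty := by rw [hPQ]; exact h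
  rw [Jh, dif_pos hP]
  have h1 : hP.some = h.some := by
    simp only [Set.Nonempty.some, hPQ]
  rw [h1]

/-- good direction and good radius at `y0` -/
structure Loc (v : Fin m → ℂ) (y0 : ℂ) (δ : ℝ) : Prop where
  hv : ∀ (k : K) (l : K ⊕ I), pr (D.fm l) (cc D.ξ) * pr (D.χ k) v -
    pr (D.χ k) (cc D.ξ) * pr (D.fm l) v = 0 →
      ∀ y, pr (D.fm l) (cc D.ξ) * pr (D.χ k) y = pr (D.χ k) (cc D.ξ) * pr (D.fm l) y
  pos : 0 < δ
  int : ∀ y s : ℂ, ‖y - y0‖ < δ → ‖s‖ < δ → ∀ (l : K ⊕ I) (n : ℤ),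
    pr (D.fm l) (D.pt v y s) = n → y0 * pr (D.fm l) (cc D.ξ) = n

theorem chi_ne (k : K) : pr (D.χ k) (cc D.ξ) ≠ 0 := by
  rw [pr_cc]
  exact_mod_cast D.hξ k

theorem exists_loc [Finite K] [Finite I] (y0 : ℂ) : ∃ v δ, D.Loc v y0 δ := by
  obtain ⟨v, hv⟩ := exists_generic fun (kl : K × (K ⊕ I)) (i : Fin m) =>
    (∑ j, D.fm kl.2 j * D.ξ j) * D.χ kl.1 i - (∑ j, D.χ kl.1 j * D.ξ j) * D.fm kl.2 i
  have hcont : ContinuousAt (fun x : ℂ × ℂ => D.pt v x.1 x.2) (y0, 0) := by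
    unfold pt
    fun_prop
  have hev := ev_int D.fm hcont
  obtain ⟨δ, hδ, hball⟩ := Metric.eventually_nhds_iff_ball.1 hev
  refine ⟨v, δ, ⟨?_, hδ, ?_⟩⟩
  · intro k l h y
    have h1 := hv (k, l)
    rw [not_imp_comm] at h1
    have h2 := h1 (by
      rw [not_not, pr_comb, ← pr_cc, ← pr_cc]
      exact h)
    have h3 := pr_comb (D.χ k) (D.fm l) (∑ j, D.fm l j * D.ξ j) (∑ j, D.χ k j * D.ξ j) y
    simp only at h2
    rw [h2, ← pr_cc, ← pr_cc] at h3
    have h4 : pr (0 : Fin m → ℤ) y = 0 := by simp [pr]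
    rw [h4] at h3
    linear_combination -h3
  · intro y s hy hs l n hn
    have h1 := hball (y, s) (by
      rw [mem_ball, dist_eq_norm, Prod.norm_def]
      simpa using ⟨hy, hs⟩) l n hn
    rw [pr_pt] at h1
    simpa using h1

variable {D}

namespace Loc

variable {v : Fin m → ℂ} {y0 : ℂ} {δ : ℝ}

/-- two integral forms at a point of the punctured bidisc are proportional -/
theorem prop (L : D.Loc v y0 δ) {y s : ℂ} (hy : ‖y - y0‖ < δ) (hs : ‖s‖ < δ)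
    (hne : y ≠ y0 ∨ s ≠ 0) {k : K} {l : K ⊕ I} {n n' : ℤ}
    (hk : pr (D.χ k) (D.pt v y s) = n) (hl : pr (D.fm l) (D.pt v y s) = n') (z : Fin m → ℂ) :
    pr (D.fm l) (cc D.ξ) * pr (D.χ k) z = pr (D.χ k) (cc D.ξ) * pr (D.fm l) z := by
  have h1 := L.int y s hy hs (Sum.inl k) n hk
  have h2 := L.int y s hy hs l n' hl
  have h1' : y0 * pr (D.χ k) (cc D.ξ) = n := h1
  rw [pr_pt] at hk hl
  have hs0 : s ≠ 0 := by
    rcases hne with hne | hne
    · intro hs0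
      rw [hs0, zero_mul, add_zero] at hk
      have h3 : (y - y0) * pr (D.χ k) (cc D.ξ) = 0 := by rw [sub_mul, hk, h1', sub_self]
      rcases mul_eq_zero.1 h3 with h4 | h4
      · exact hne (sub_eq_zero.1 h4)
      · exact D.chi_ne k h4
    · exact hne
  apply L.hv k l
  apply mul_left_cancel₀ hs0
  rw [mul_zero]
  linear_combination (pr (D.fm l) (cc D.ξ)) * hk - (pr (D.fm l) (cc D.ξ)) * h1' -
    (pr (D.χ k) (cc D.ξ)) * hl + (pr (D.χ k) (cc D.ξ)) * h2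

/-- after the translation all forms vanish or are not integral -/
theorem om2_sub (L : D.Loc v y0 δ) {y s : ℂ} (hy : ‖y - y0‖ < δ) (hs : ‖s‖ < δ)
    (hne : y ≠ y0 ∨ s ≠ 0) {k : K} {n : ℤ} (hk : pr (D.χ k) (D.pt v y s) = n)
    {μ : Fin m → ℤ} (hμ : ∑ i, D.χ k i * μ i = n) : D.om2 (D.pt v y s - cc μ) := by
  have key : ∀ (l : K ⊕ I) (n' : ℤ), n' ≠ 0 → pr (D.fm l) (D.pt v y s - cc μ) ≠ n' := by
    intro l n' hn' h
    have h1 : pr (D.fm l) (D.pt v y s) = ((n' + ∑ i, D.fm l i * μ i : ℤ) : ℂ) := by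
      rw [Int.cast_add, ← h, pr_sub, pr_cc]
      ring
    have h2 := L.prop hy hs hne hk h1 (D.pt v y s - cc μ)
    have h3 : pr (D.χ k) (D.pt v y s - cc μ) = 0 := by
      rw [pr_sub, pr_cc, hk, hμ, sub_self]
    rw [h3, mul_zero, h] at h2
    rcases mul_eq_zero.1 h2.symm with h4 | h4
    · exact D.chi_ne k h4
    · exact hn' (by exact_mod_cast h4)
  exact ⟨fun k' n' hn' => key (Sum.inl k') n' hn', fun l' n' hn' => key (Sum.inr l') n' hn'⟩

/-- near a point of the punctured bidisc the set of the integral tangent forms is empty or the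
same -/
theorem hs_near (L : D.Loc v y0 δ) {y s y' s' : ℂ} (hy : ‖y - y0‖ < δ) (hs : ‖s‖ < δ)
    (hne : y ≠ y0 ∨ s ≠ 0) (hy' : ‖y' - y0‖ < δ) (hs' : ‖s'‖ < δ)
    (hint : ∀ k, ∀ n : ℤ, pr (D.χ k) (D.pt v y' s') = n → pr (D.χ k) (D.pt v y s) = n)
    (hn : (D.hs (D.pt v y' s')).Nonempty) : D.hs (D.pt v y' s') = D.hs (D.pt v y s) := by
  apply Set.Subset.antisymm
  · rintro k ⟨n, hk⟩
    exact ⟨n, hint k n hk⟩
  · rintro k ⟨n, hk⟩
    obtain ⟨k', n', hk'⟩ := hn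
    have h1 := hint k' n' hk'
    have h2 := L.prop hy hs hne (k := k') (l := Sum.inl k) h1 hk (D.pt v y' s')
    have h3 := L.int y' s' hy' hs' (Sum.inl k') n' hk'
    have h4 := L.int y s hy hs (Sum.inl k) n hk
    refine ⟨n, ?_⟩
    have h3' : y0 * pr (D.χ k') (cc D.ξ) = n' := h3
    have h4' : y0 * pr (D.χ k) (cc D.ξ) = n := h4
    have h2' : pr (D.χ k) (cc D.ξ) * pr (D.χ k') (D.pt v y' s') =
      pr (D.χ k') (cc D.ξ) * pr (D.χ k) (D.pt v y' s') := h2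
    apply mul_left_cancel₀ (D.chi_ne k')
    rw [← h2', hk', ← h3', ← h4']
    ring

end Loc

end TD

end Pool.Agent.DST.TE
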