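import Pool.Agent.DST.TE4

/-!
The local holomorphic extension by the Cauchy integral.
-/

set_option autoImplicit false

namespace Pool.Agent.DST.TE

open Metric Filter Topology MeasureTheory

namespace TD

variable {m : ℕ} {K I N : Type*} [Fintype N] {D : TD m K I N}

theorem differentiableAt_pt {X : Type*} [NormedAddCommGroup X] [NormedSpace ℂ X] (v : Fin m → ℂ)
    {g h : X → ℂ} {x0 : X} (hg : DifferentiableAt ℂ g x0) (hh : DifferentiableAt ℂ h x0) :
    DifferentiableAt ℂ (fun x => D.pt v (g x) (h x)) x0 := by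
  unfold pt
  exact (hg.smul_const _).add (hh.smul_const _)

namespace Loc

variable {v : Fin m → ℂ} {y0 : ℂ} {δ : ℝ}

/-- the extension is holomorphic on the punctured bidisc -/
theorem dJh [Finite K] [Finite I] (L : D.Loc v y0 δ) (μ : K → Fin m → ℤ)
    (hμ : ∀ k, ∀ n : ℤ, y0 * pr (D.χ k) (cc D.ξ) = n → ∑ i, D.χ k i * μ k i = n)
    {X : Type*} [NormedAddCommGroup X] [NormedSpace ℂ X] {gy gs gw : X → ℂ} {x0 : X}
    (h1 : DifferentiableAt ℂ gy x0) (h2 : DifferentiableAt ℂ gs x0)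
    (h3 : DifferentiableAt ℂ gw x0) (hy : ‖gy x0 - y0‖ < δ) (hs : ‖gs x0‖ < δ)
    (hne : gy x0 ≠ y0 ∨ gs x0 ≠ 0) (p q : N) :
    DifferentiableAt ℂ (fun x => D.Jh μ (D.pt v (gy x) (gs x)) (gw x) p q) x0 := by
  have hpt := D.differentiableAt_pt v h1 h2
  have hev := ev_int D.χ hpt.continuousAt
  by_cases hH : (D.hs (D.pt v (gy x0) (gs x0))).Nonempty
  · set k := hH.some with hk
    obtain ⟨n, hn⟩ : ∃ n : ℤ, pr (D.χ k) (D.pt v (gy x0) (gs x0)) = n := hH.some_mem
    have hμk : ∑ i, D.χ k i * μ k i = n := hμ k n (L.int _ _ hy hs (Sum.inl k) n hn)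
    have hd := D.dSJ hpt h3 (μ k) (Or.inr (L.om2_sub hy hs hne hn hμk)) p q
    apply hd.congr_of_eventuallyEq
    have e1 : ∀ᶠ x in 𝓝 x0, ‖gy x - y0‖ < δ :=
      (h1.continuousAt.sub continuousAt_const).norm.eventually_lt continuousAt_const hy
    have e2 : ∀ᶠ x in 𝓝 x0, ‖gs x‖ < δ :=
      h2.continuousAt.norm.eventually_lt continuousAt_const hs
    filter_upwards [hev, e1, e2] with x hx hx1 hx2
    by_cases hHx : (D.hs (D.pt v (gy x) (gs x))).Nonempty
    · have h5 := L.hs_near hy hs hne hx1 hx2 hx hHx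
      rw [D.Jh_congr μ hH h5]
    · have h6 := D.hs_empty hHx
      rw [D.Jh_om1 μ h6, D.shift1 (μ k) h6]
  · have h6 := D.hs_empty hH
    have hd := D.dJ hpt h3 (Or.inl h6) p q
    apply hd.congr_of_eventuallyEq
    filter_upwards [D.om1_ev hpt.continuousAt h6] with x hx
    rw [D.Jh_om1 μ hx]

/-- near `y0` no tangent form is integral on the line -/
theorem om1_line (L : D.Loc v y0 δ) {y : ℂ} (hy : ‖y - y0‖ < δ) (hne : y ≠ y0) :
    D.om1 (D.pt v y 0) := by
  intro k n hn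
  have h1 : y0 * pr (D.χ k) (cc D.ξ) = n :=
    L.int y 0 hy (by simpa using L.pos) (Sum.inl k) n hn
  rw [pr_pt, zero_mul, add_zero, ← h1] at hn
  exact hne (mul_right_cancel₀ (D.chi_ne k) hn)

end Loc

/-- local extension -/
theorem local_ext [Finite K] [Finite I] (D : TD m K I N) (y0 : ℂ) :
    ∃ δ : ℝ, 0 < δ ∧ ∃ G : ℂ → ℂ → Matrix N N ℂ,
      (∀ y w, ‖y - y0‖ < δ → ∀ p q,
        DifferentiableAt ℂ (fun x : ℂ × ℂ => G x.1 x.2 p q) (y, w)) ∧
      ∀ y, ‖y - y0‖ < δ → y ≠ y0 → D.om1 (y • cc D.ξ) ∧ ∀ w, G y w = D.J (y • cc D.ξ) w := by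
  obtain ⟨v, δ, L⟩ := D.exists_loc y0
  have hch : ∀ k, ∃ μ : Fin m → ℤ, ∀ n : ℤ, y0 * pr (D.χ k) (cc D.ξ) = n →
      ∑ i, D.χ k i * μ i = n := by
    intro k
    by_cases h : ∃ n : ℤ, y0 * pr (D.χ k) (cc D.ξ) = n
    · obtain ⟨n, hn⟩ := h
      obtain ⟨μ, hμ⟩ := D.hprim k n
      refine ⟨μ, fun n' hn' => ?_⟩
      rw [hμ]
      rw [hn] at hn'
      exact_mod_cast hn'
    · exact ⟨0, fun n hn => (h ⟨n, hn⟩).elim⟩
  choose μ hμ using hch
  set ε : ℝ := δ / 2 with hε
  have hε0 : 0 < ε := by have := L.pos; positivity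
  have hεδ : ε < δ := by have := L.pos; rw [hε]; linarith
  refine ⟨δ, L.pos, fun y w => Matrix.of fun p q => ((2 * Real.pi)⁻¹ : ℝ) •
    ∫ θ in (0 : ℝ)..2 * Real.pi, D.Jh μ (D.pt v y (circleMap 0 ε θ)) w p q, ?_, ?_⟩
  · intro y w hy p q
    simp only [Matrix.of_apply]
    set W : Set ((ℂ × ℂ) × ℂ) := {x | ‖x.1.1 - y0‖ < δ ∧ ‖x.2‖ < δ ∧ x.2 ≠ 0} with hW
    have hWo : IsOpen W := by
      have a1 : IsOpen {x : (ℂ × ℂ) × ℂ | ‖x.1.1 - y0‖ < δ} :=
        isOpen_lt (by fun_prop) continuous_const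
      have a2 : IsOpen {x : (ℂ × ℂ) × ℂ | ‖x.2‖ < δ} := isOpen_lt (by fun_prop) continuous_const
      have a3 : IsOpen {x : (ℂ × ℂ) × ℂ | x.2 ≠ 0} := isOpen_ne_fun (by fun_prop) continuous_const
      exact a1.inter (a2.inter a3)
    have hdW : DifferentiableOn ℂ
        (fun x : (ℂ × ℂ) × ℂ => D.Jh μ (D.pt v x.1.1 x.2) x.1.2 p q) W := by
      rintro x ⟨hx1, hx2, hx3⟩
      apply DifferentiableAt.differentiableWithinAt
      exact L.dJh μ hμ (gy := fun x : (ℂ × ℂ) × ℂ => x.1.1) (gs := fun x => x.2)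
        (gw := fun x => x.1.2) (by fun_prop) (by fun_prop) (by fun_prop) hx1 hx2 (Or.inr hx3) p q
    have hcirc := circ_diff hWo hdW (q0 := (y, w)) hε0 (fun s hs => by
      refine ⟨hy, ?_, ?_⟩
      · rw [hs]; exact hεδ
      · rintro rfl
        rw [norm_zero] at hs
        exact hε0.ne hs)
    have h9 : DifferentiableAt ℂ (fun x : ℂ × ℂ => (((2 * Real.pi)⁻¹ : ℝ) : ℂ) *
        ∫ θ in (0 : ℝ)..2 * Real.pi, D.Jh μ (D.pt v x.1 (circleMap 0 ε θ)) x.2 p q) (y, w) :=
      hcirc.const_mul _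
    simpa only [Complex.real_smul] using h9
  · intro y hy hne
    have hline := L.om1_line hy hne
    have hpt0 : D.pt v y 0 = y • cc D.ξ := by simp [pt]
    refine ⟨by rw [← hpt0]; exact hline, fun w => ?_⟩
    ext p q
    simp only [Matrix.of_apply]
    have hdc : DiffContOnCl ℂ (fun s : ℂ => D.Jh μ (D.pt v y s) w p q) (ball 0 |ε|) := by
      rw [abs_of_pos hε0]
      apply DifferentiableOn.diffContOnCl
      rw [closure_ball _ hε0.ne']
      intro s hs
      rw [mem_closedBall_zero_iff] at hs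
      apply DifferentiableAt.differentiableWithinAt
      exact L.dJh μ hμ (gy := fun _ : ℂ => y) (gs := fun s => s) (gw := fun _ => w)
        (by fun_prop) (by fun_prop) (by fun_prop) hy (hs.trans_lt hεδ) (Or.inl hne) p q
    have h5 := hdc.circleAverage
    rw [Real.circleAverage_def] at h5
    rw [h5, D.Jh_om1 μ hline, hpt0]

/-- the extension theorem -/
theorem ext [Finite K] [Finite I] (D : TD m K I N) :
    ∃ Jt : ℂ → ℂ → Matrix N N ℂ,
      (∀ p q, Differentiable ℂ fun x : ℂ × ℂ => Jt x.1 x.2 p q) ∧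
      ∀ y, (∀ k, ∀ n : ℤ, n ≠ 0 → y * pr (D.χ k) (cc D.ξ) ≠ n) →
        ∀ w, Jt y w = D.J (y • cc D.ξ) w := by
  classical
  choose δ hδ G hG1 hG2 using D.local_ext
  refine ⟨fun y w => if ∀ k, ∀ n : ℤ, n ≠ 0 → y * pr (D.χ k) (cc D.ξ) ≠ n then
    D.J (y • cc D.ξ) w else G y y w, ?_, ?_⟩
  · rintro p q ⟨y, w⟩
    have hev : ∀ᶠ x : ℂ × ℂ in 𝓝 (y, w), ‖x.1 - y‖ < δ y := by
      have h1 : ContinuousAt (fun x : ℂ × ℂ => ‖x.1 - y‖) (y, w) := by fun_prop
      exact h1.eventually_lt continuousAt_const (by simpa using hδ y)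
    have hgood : ∀ x : ℂ, ‖x - y‖ < δ y → x ≠ y →
        ∀ k, ∀ n : ℤ, n ≠ 0 → x * pr (D.χ k) (cc D.ξ) ≠ n := by
      intro x hx hxy k n _ hn
      rw [← pr_smul] at hn
      exact (hG2 y x hx hxy).1 k n hn
    by_cases hy : ∀ k, ∀ n : ℤ, n ≠ 0 → y * pr (D.χ k) (cc D.ξ) ≠ n
    · have hreg : D.om1 (y • cc D.ξ) ∨ D.om2 (y • cc D.ξ) := by
        by_cases hy0 : y = 0
        · right
          constructor
          · intro k n hn h
            rw [hy0, zero_smul, pr_zero_right] at h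
            exact hn (by exact_mod_cast h.symm)
          · intro k n hn h
            rw [hy0, zero_smul, pr_zero_right] at h
            exact hn (by exact_mod_cast h.symm)
        · left
          intro k n hn
          rw [pr_smul] at hn
          by_cases hn0 : n = 0
          · rw [hn0, Int.cast_zero] at hn
            rcases mul_eq_zero.1 hn with h | h
            · exact hy0 h
            · exact D.chi_ne k h
          · exact hy k n hn0 hn
      have hd : DifferentiableAt ℂ (fun x : ℂ × ℂ => D.J (x.1 • cc D.ξ) x.2 p q) (y, w) :=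
        D.dJ (g := fun x : ℂ × ℂ => x.1 • cc D.ξ) (h := fun x => x.2) (x0 := (y, w))
          (DifferentiableAt.smul_const (by fun_prop) _) (by fun_prop) hreg p q
      apply hd.congr_of_eventuallyEq
      filter_upwards [hev] with x hx
      have hx2 : ∀ k, ∀ n : ℤ, n ≠ 0 → x.1 * pr (D.χ k) (cc D.ξ) ≠ n := by
        by_cases hxy : x.1 = y
        · rw [hxy]; exact hy
        · exact hgood x.1 hx hxy
      simp only [if_pos hx2]
    · apply (hG1 y y w (by simpa using hδ y) p q).congr_of_eventuallyEq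
      filter_upwards [hev] with x hx
      by_cases hxy : x.1 = y
      · rw [if_neg (by rw [hxy]; exact hy), hxy]
      · rw [if_pos (hgood x.1 hx hxy), ← (hG2 y x.1 hx hxy).2]
  · intro y hy w
    simp only [if_pos hy]

end TD

end Pool.Agent.DST.TE
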