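import Pool.Agent.DST.Skew

/-!
# Project DST, module T-EigD: orthonormal eigenvectors

PLAN. `D.symm0`: `g A₀ = A₀ᵀ g`. `Q = Vᵀ g V` satisfies `Λ Q = Q Λ` (`Λ` diagonal with distinct entries
`exp (G j)`), so `Q` is diagonal, and invertible (`D.g_det`, `hV`); choose square roots `c_j² = Q j j`,
`c_j ≠ 0` (`IsAlgClosed.exists_pow_nat_eq`, or `Complex.cpow`), `Ψ = V diag(c_j⁻¹)`.
-/

open scoped BigOperators Topology
open Filter

namespace Pool.Agent.DST

variable {N : ℕ}

theorem eig_of_diag (D : DSys N) {V : Matrix (Fin N) (Fin N) ℂ} {G : Fin N → ℂ}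
    (hV : V.det ≠ 0) (inj : Function.Injective fun j => Complex.exp (G j))
    (h : D.A 0 * V = V * Matrix.diagonal fun j => Complex.exp (G j)) :
    ∃ Ψ : Matrix (Fin N) (Fin N) ℂ, Eig (D.A 0) D.g Ψ G := by
  classical
  let L : Matrix (Fin N) (Fin N) ℂ := Matrix.diagonal fun j => Complex.exp (G j)
  let Q : Matrix (Fin N) (Fin N) ℂ := V.transpose * D.g * V
  have hQL : Q * L = L * Q := by
    calc Q * L = V.transpose * (D.g * (V * L)) := by simp only [Q, Matrix.mul_assoc]
      _ = V.transpose * ((D.g * D.A 0) * V) := by rw [← h, Matrix.mul_assoc]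
      _ = (D.A 0 * V).transpose * (D.g * V) := by
          rw [D.symm0, Matrix.transpose_mul]
          simp only [Matrix.mul_assoc]
      _ = L * Q := by
          rw [h, Matrix.transpose_mul, Matrix.diagonal_transpose]
          simp only [Q, L, Matrix.mul_assoc]
  have hoff : ∀ i j, i ≠ j → Q i j = 0 := by
    intro i j hij
    have h1 := congrFun (congrFun hQL i) j
    rw [Matrix.mul_diagonal, Matrix.diagonal_mul] at h1
    have h2 : Q i j * (Complex.exp (G j) - Complex.exp (G i)) = 0 := by
      rw [mul_sub, h1]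
      ring
    rcases mul_eq_zero.mp h2 with h3 | h3
    · exact h3
    · exact absurd (inj (sub_eq_zero.mp h3)) (Ne.symm hij)
  have hQd : Q = Matrix.diagonal fun j => Q j j := by
    ext i j
    by_cases hij : i = j
    · subst hij
      rw [Matrix.diagonal_apply_eq]
    · rw [Matrix.diagonal_apply_ne _ hij, hoff i j hij]
  have hdet : Q.det ≠ 0 := by
    show (V.transpose * D.g * V).det ≠ 0
    rw [Matrix.det_mul, Matrix.det_mul, Matrix.det_transpose]
    exact mul_ne_zero (mul_ne_zero hV D.g_det) hV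
  have hne : ∀ j, Q j j ≠ 0 := by
    intro j hj
    apply hdet
    rw [hQd, Matrix.det_diagonal]
    exact Finset.prod_eq_zero (Finset.mem_univ j) hj
  have hc : ∀ j, ∃ z : ℂ, z ^ 2 = Q j j := fun j => IsAlgClosed.exists_pow_nat_eq _ two_pos
  choose c hc using hc
  have hc0 : ∀ j, c j ≠ 0 := by
    intro j hj
    apply hne j
    rw [← hc j, hj]
    ring
  refine ⟨V * Matrix.diagonal fun j => (c j)⁻¹, ?_, ?_, inj⟩
  · rw [← Matrix.mul_assoc, h, Matrix.mul_assoc, Matrix.mul_assoc, Matrix.diagonal_mul_diagonal,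
      Matrix.diagonal_mul_diagonal]
    simp only [mul_comm]
  · have h1 : (V * Matrix.diagonal fun j => (c j)⁻¹).transpose * D.g *
        (V * Matrix.diagonal fun j => (c j)⁻¹) =
        (Matrix.diagonal fun j => (c j)⁻¹) * Q * Matrix.diagonal fun j => (c j)⁻¹ := by
      rw [Matrix.transpose_mul, Matrix.diagonal_transpose]
      simp only [Q, Matrix.mul_assoc]
    rw [h1, hQd, Matrix.diagonal_mul_diagonal, Matrix.diagonal_mul_diagonal, ← Matrix.diagonal_one]
    congr 1
    funext j
    have h2 := hc0 j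
    rw [← hc j]
    field_simp

end Pool.Agent.DST
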