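import Pool.Agent.DST.TEigL
import Pool.Agent.DST.TEigD

/-!
# Project DST: collects `local_eig`, `eig_of_diag` (nothing to prove)
-/
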