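import Pool.Agent.DST.TRoot

/-!
# Project DST, module T-EigL: eigenvalues as local holomorphic functions

PLAN. `A s₀ = Ψ Λ Ψ⁻¹` (`Ψ` is invertible because `Ψᵀ g Ψ = 1`), so its characteristic polynomial is
`∏ (X - exp (G i))` (`Matrix.charpoly_diagonal`-type lemma, invariance under conjugation
`Matrix.charpoly_units_conj`), with simple roots: `h0`, `h1` of `root_hol` hold at `exp (G j)`. `root_hol`
for each `j` gives `a j`; take the minimum of the radii. Put `G' s j = G j + log (a j s / a j s₀)`;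
continuous near `s₀` with `a j s / a j s₀` near `1`, so on a small ball everything is holomorphic,
`exp (G' s j) = a j s`, and these are pairwise distinct (continuity, finitely many pairs).
Eigenvectors: `det (a j s - A s) = 0` gives a nonzero `v_j` with `A s v_j = a j s v_j`
(`Matrix.exists_mulVec_eq_zero_iff`); `N` eigenvectors for distinct eigenvalues are linearly
independent (`Module.End.eigenvectors_linearIndependent`), so `V = (v_j)` is invertible
(`isUnit_of_basis`-type: put it as lemma `exists_V` below).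
-/

open scoped BigOperators Topology
open Filter

namespace Pool.Agent.DST

variable {N : ℕ}

theorem exists_V {A : Matrix (Fin N) (Fin N) ℂ} {a : Fin N → ℂ} (inj : Function.Injective a)
    (h : ∀ j, A.charpoly.eval (a j) = 0) : ∃ V : Matrix (Fin N) (Fin N) ℂ, V.det ≠ 0 ∧
      A * V = V * Matrix.diagonal a := by
  have h1 : ∀ j, ∃ v : Fin N → ℂ, v ≠ 0 ∧ A.mulVec v = a j • v := by
    intro j
    have h2 := h j
    rw [Matrix.eval_charpoly] at h2
    obtain ⟨v, hv, hv'⟩ := Matrix.exists_mulVec_eq_zero_iff.2 h2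
    refine ⟨v, hv, ?_⟩
    rw [Matrix.sub_mulVec, sub_eq_zero] at hv'
    rw [← hv', Matrix.scalar_apply]
    funext k
    rw [Matrix.mulVec_diagonal]
    rfl
  choose v hv hAv using h1
  have hlin : LinearIndependent ℂ v := by
    refine Module.End.eigenvectors_linearIndependent' (Matrix.toLin' A) a inj v fun j => ?_
    rw [Module.End.hasEigenvector_iff, Module.End.mem_eigenspace_iff, Matrix.toLin'_apply]
    exact ⟨hAv j, hv j⟩
  refine ⟨Matrix.of fun i j => v j i, ?_, ?_⟩
  · have hc : LinearIndependent ℂ (Matrix.of fun i j => v j i).col := hlin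
    have h3 := Matrix.linearIndependent_cols_iff_isUnit.1 hc
    exact ((Matrix.isUnit_iff_isUnit_det _).1 h3).ne_zero
  · ext i j
    rw [Matrix.mul_diagonal, Matrix.mul_apply]
    have h4 := congrFun (hAv j) i
    rw [Matrix.mulVec, dotProduct, Pi.smul_apply, smul_eq_mul, mul_comm] at h4
    exact h4

private theorem charpoly_eig {A g Ψ : Matrix (Fin N) (Fin N) ℂ} {G : Fin N → ℂ}
    (hE : Eig A g Ψ G) : A.charpoly = ∏ j, (Polynomial.X - Polynomial.C (Complex.exp (G j))) := by
  have hdet : Ψ.det ≠ 0 := by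
    intro h0
    have h1 := congrArg Matrix.det hE.norm
    rw [Matrix.det_mul, h0, mul_zero, Matrix.det_one] at h1
    exact zero_ne_one h1
  have hu : IsUnit Ψ := (Matrix.isUnit_iff_isUnit_det Ψ).2 (isUnit_iff_ne_zero.2 hdet)
  obtain ⟨M, hM⟩ := hu
  have h2 : A = M.val * (Matrix.diagonal fun j => Complex.exp (G j)) * M⁻¹.val := by
    have h3 := hE.eig
    rw [← hM] at h3
    rw [← h3, Matrix.mul_assoc, Units.mul_inv, Matrix.mul_one]
  rw [h2, Matrix.coe_units_inv, Matrix.charpoly_units_conj, Matrix.charpoly_diagonal]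

private theorem eval_eig {A g Ψ : Matrix (Fin N) (Fin N) ℂ} {G : Fin N → ℂ}
    (hE : Eig A g Ψ G) (j : Fin N) : A.charpoly.eval (Complex.exp (G j)) = 0 ∧
      (Polynomial.derivative A.charpoly).eval (Complex.exp (G j)) ≠ 0 := by
  rw [charpoly_eig hE]
  constructor
  · rw [Polynomial.eval_prod]
    exact Finset.prod_eq_zero (Finset.mem_univ j) (by simp)
  · rw [Polynomial.derivative_prod_finset, Polynomial.eval_finsetSum,
      Finset.sum_eq_single j]
    · simp only [Polynomial.derivative_sub, Polynomial.derivative_X, Polynomial.derivative_C,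
        sub_zero, mul_one, Polynomial.eval_prod, Polynomial.eval_sub, Polynomial.eval_X,
        Polynomial.eval_C]
      refine Finset.prod_ne_zero_iff.2 fun k hk => sub_ne_zero.2 fun h => ?_
      exact Finset.ne_of_mem_erase hk (hE.inj h.symm)
    · intro k _ hk
      rw [Polynomial.eval_mul, Polynomial.eval_prod,
        Finset.prod_eq_zero (i := j) (Finset.mem_erase.2 ⟨hk.symm, Finset.mem_univ _⟩) (by simp),
        zero_mul]
    · intro h
      exact absurd (Finset.mem_univ j) h

theorem local_eig {Ω : Set ℂ} (hΩ : IsOpen Ω) {A : ℂ → Matrix (Fin N) (Fin N) ℂ}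
    (hA : ∀ s ∈ Ω, ∀ i j, DifferentiableAt ℂ (fun s => A s i j) s) {s₀ : ℂ} (h₀ : s₀ ∈ Ω)
    {g Ψ : Matrix (Fin N) (Fin N) ℂ} {G : Fin N → ℂ} (hE : Eig (A s₀) g Ψ G) :
    ∃ ρ > 0, Metric.ball s₀ ρ ⊆ Ω ∧ ∃ G' : ℂ → Fin N → ℂ, G' s₀ = G ∧
      ∀ s ∈ Metric.ball s₀ ρ, (∀ j, DifferentiableAt ℂ (fun s => G' s j) s) ∧
        (Function.Injective fun j => Complex.exp (G' s j)) ∧
        ∃ V : Matrix (Fin N) (Fin N) ℂ, V.det ≠ 0 ∧
          A s * V = V * Matrix.diagonal fun j => Complex.exp (G' s j) := by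
  have hroot := fun j => root_hol hΩ hA h₀ (eval_eig hE j).1 (eval_eig hE j).2
  choose r hr hrΩ a ha0 ha using hroot
  have hcont : ∀ j, ContinuousAt (a j) s₀ := fun j =>
    (ha j s₀ (Metric.mem_ball_self (hr j))).1.continuousAt
  have hne : ∀ j, a j s₀ ≠ 0 := by
    intro j
    rw [ha0]
    exact Complex.exp_ne_zero _
  have e1 : ∀ᶠ s in 𝓝 s₀, s ∈ Ω := hΩ.mem_nhds h₀
  have e2 : ∀ᶠ s in 𝓝 s₀, ∀ j, s ∈ Metric.ball s₀ (r j) :=
    Filter.eventually_all.2 fun j => Metric.isOpen_ball.mem_nhds (Metric.mem_ball_self (hr j))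
  have e3 : ∀ᶠ s in 𝓝 s₀, ∀ j, a j s / a j s₀ ∈ Complex.slitPlane := by
    refine Filter.eventually_all.2 fun j => ?_
    have h1 : ContinuousAt (fun s => a j s / a j s₀) s₀ := (hcont j).div_const _
    refine h1.eventually_mem (Complex.isOpen_slitPlane.mem_nhds ?_)
    rw [div_self (hne j)]
    exact Complex.one_mem_slitPlane
  have e4 : ∀ᶠ s in 𝓝 s₀, ∀ i j, i ≠ j → a i s ≠ a j s := by
    refine Filter.eventually_all.2 fun i => Filter.eventually_all.2 fun j => ?_
    by_cases hij : i = j
    · exact Filter.Eventually.of_forall fun s h => absurd hij h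
    · have h2 : a i s₀ ≠ a j s₀ := by
        rw [ha0, ha0]
        exact fun h => hij (hE.inj h)
      have h5 := ((hcont i).sub (hcont j)).eventually_ne (y := 0) (sub_ne_zero.2 h2)
      exact h5.mono fun s hs _ => sub_ne_zero.1 hs
  obtain ⟨ρ, hρ, hall⟩ := Metric.eventually_nhds_iff_ball.1 (e1.and (e2.and (e3.and e4)))
  refine ⟨ρ, hρ, fun s hs => (hall s hs).1, fun s j => G j + Complex.log (a j s / a j s₀), ?_, ?_⟩
  · funext j
    show G j + Complex.log (a j s₀ / a j s₀) = G j
    rw [div_self (hne j), Complex.log_one, add_zero]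
  · intro s hs
    obtain ⟨-, h2, h3, h4⟩ := hall s hs
    have hexp : ∀ j, Complex.exp (G j + Complex.log (a j s / a j s₀)) = a j s := by
      intro j
      rw [Complex.exp_add, Complex.exp_log (Complex.slitPlane_ne_zero (h3 j)), ← ha0 j,
        mul_div_cancel₀ _ (hne j)]
    refine ⟨fun j => ?_, ?_, ?_⟩
    · exact (differentiableAt_const _).add
        (((ha j s (h2 j)).1.div_const _).clog (h3 j))
    · intro i j hij
      by_contra hne'
      simp only [hexp] at hij
      exact h4 i j hne' hij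
    · simp only [hexp]
      refine exists_V ?_ fun j => (ha j s (h2 j)).2
      intro i j hij
      by_contra hne'
      exact h4 i j hne' hij

end Pool.Agent.DST
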