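import Pool.Agent.DST.TInt
import Pool.Agent.DST.TCoe
import Pool.Agent.DST.KDet

/-!
# Project DST, module T-Gram: the Gram matrix of a right-canonical basis

PLAN. `y = iη`, `η → +∞`. `P(y) = F(y) X(y) diag(e^{-yG}) → Ψ` along `y = iη` and along `y = -iη` (both tend to
`rhp`: real part `0`). So `P(-iη)ᵀ g P(iη) → Ψᵀ g Ψ = 1`. Here
`P(-y)ᵀ g P(y) = diag(e^{yG}) X(-y)ᵀ F(-y)ᵀ g F(y) X(y) diag(e^{-yG})` and `F(-y)ᵀ g F(y) = χ(q)`
(`D.pair`, `Im y > 0`), so it equals `diag(e^{yG}) (gramL χ X)(q) diag(e^{-yG})` (`map_evq_invM`). Entrywise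
(`gram_lim`): `exp (iη (G i - G j)) * evq (iη) (gramL D.χ X i j) → δ_ij`.
`i = j`: `coeff_of_tendsto_one`. `i ≠ j`: `‖exp (iη (G i - G j))‖ = exp (-η Im (G i - G j))
= exp (2π a η)`, `a = Im (G j - G i)/2π`: `coeff_zero_of_tendsto`.
-/

open scoped BigOperators Topology
open Filter

namespace Pool.Agent.DST

variable {N : ℕ}

private theorem tgram_mat {l : Filter ℝ} {M : ℝ → Matrix (Fin N) (Fin N) ℂ}
    {L : Matrix (Fin N) (Fin N) ℂ} (h : ∀ i j, Tendsto (fun y => M y i j) l (𝓝 (L i j))) :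
    Tendsto M l (𝓝 L) :=
  tendsto_pi_nhds.2 fun i => tendsto_pi_nhds.2 fun j => h i j

private theorem tgram_up : Tendsto (fun η : ℝ => (η : ℂ) * Complex.I) atTop rhp := by
  refine tendsto_inf.2 ⟨?_, ?_⟩
  · rw [← tendsto_norm_atTop_iff_cobounded]
    refine tendsto_atTop_mono (fun η => ?_) tendsto_id
    rw [norm_mul, Complex.norm_I, mul_one, Complex.norm_real, id]
    exact le_abs_self η
  · refine tendsto_principal.2 (Eventually.of_forall fun η => ?_)
    show (0 : ℝ) ≤ ((η : ℂ) * Complex.I).re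
    simp

private theorem tgram_down : Tendsto (fun η : ℝ => -((η : ℂ) * Complex.I)) atTop rhp := by
  refine tendsto_inf.2 ⟨?_, ?_⟩
  · rw [← tendsto_norm_atTop_iff_cobounded]
    refine tendsto_atTop_mono (fun η => ?_) tendsto_id
    rw [norm_neg, norm_mul, Complex.norm_I, mul_one, Complex.norm_real, id]
    exact le_abs_self η
  · refine tendsto_principal.2 (Eventually.of_forall fun η => ?_)
    show (0 : ℝ) ≤ (-((η : ℂ) * Complex.I)).re
    simp

theorem gram_lim (D : DSys N) {Ψ : Matrix (Fin N) (Fin N) ℂ} {G : Fin N → ℂ}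
    (hE : Eig (D.A 0) D.g Ψ G) {X : Matrix (Fin N) (Fin N) (LaurentPolynomial ℂ)}
    (bX : IsBirk D.F Ψ G (fun y => X.map (evq y))) (i j : Fin N) :
    Tendsto (fun η : ℝ => Complex.exp (η * Complex.I * (G i - G j)) *
      evq (η * Complex.I) (gramL D.χ X i j)) atTop (𝓝 ((1 : Matrix (Fin N) (Fin N) ℂ) i j)) := by
  have h1 : Tendsto (fun η : ℝ => D.F ((η : ℂ) * Complex.I) * X.map (evq ((η : ℂ) * Complex.I)) *
      Matrix.diagonal fun k => Complex.exp (-((η : ℂ) * Complex.I) * G k)) atTop (𝓝 Ψ) :=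
    tgram_mat fun i j => (bX i j).comp tgram_up
  have h2 : Tendsto (fun η : ℝ => D.F (-((η : ℂ) * Complex.I)) *
      X.map (evq (-((η : ℂ) * Complex.I))) *
      Matrix.diagonal fun k => Complex.exp (-(-((η : ℂ) * Complex.I)) * G k)) atTop (𝓝 Ψ) :=
    tgram_mat fun i j => (bX i j).comp tgram_down
  have h3 : Tendsto (fun η : ℝ => (D.F (-((η : ℂ) * Complex.I)) *
      X.map (evq (-((η : ℂ) * Complex.I))) *
      Matrix.diagonal fun k => Complex.exp (-(-((η : ℂ) * Complex.I)) * G k)).transpose * D.g *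
      (D.F ((η : ℂ) * Complex.I) * X.map (evq ((η : ℂ) * Complex.I)) *
      Matrix.diagonal fun k => Complex.exp (-((η : ℂ) * Complex.I) * G k))) atTop
      (𝓝 (Ψ.transpose * D.g * Ψ)) := by
    have h4 := ((Continuous.matrix_transpose continuous_id).tendsto Ψ).comp h2
    exact (h4.mul tendsto_const_nhds).mul h1
  rw [hE.norm] at h3
  have h5 := (tendsto_pi_nhds.1 ((tendsto_pi_nhds.1 h3) i)) j
  refine h5.congr' ?_
  filter_upwards [eventually_gt_atTop 0] with η hη
  have hy : 0 < ((η : ℂ) * Complex.I).im := by simpa using hη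
  generalize (η : ℂ) * Complex.I = y at hy
  have h6 : (D.F (-y) * X.map (evq (-y)) *
      Matrix.diagonal fun k => Complex.exp (-(-y) * G k)).transpose * D.g *
      (D.F y * X.map (evq y) * Matrix.diagonal fun k => Complex.exp (-y * G k)) =
      (Matrix.diagonal fun k => Complex.exp (-(-y) * G k)) * (gramL D.χ X).map (evq y) *
      Matrix.diagonal fun k => Complex.exp (-y * G k) := by
    have h7 : (gramL D.χ X).map (evq y) =
        (X.map (evq (-y))).transpose * D.χ.map (evq y) * X.map (evq y) := by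
      rw [gramL, Matrix.map_mul, Matrix.map_mul, Matrix.transpose_map, map_evq_invM]
    rw [h7, ← D.pair y hy, Matrix.transpose_mul, Matrix.transpose_mul, Matrix.diagonal_transpose]
    simp only [Matrix.mul_assoc]
  have h8 := congrFun (congrFun h6 i) j
  refine h8.trans ?_
  rw [Matrix.mul_diagonal, Matrix.diagonal_mul, Matrix.map_apply, mul_right_comm,
    ← Complex.exp_add]
  congr 2
  ring

theorem gram_diag (D : DSys N) {Ψ : Matrix (Fin N) (Fin N) ℂ} {G : Fin N → ℂ}
    (hE : Eig (D.A 0) D.g Ψ G) {X : Matrix (Fin N) (Fin N) (LaurentPolynomial ℂ)}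
    (bX : IsBirk D.F Ψ G (fun y => X.map (evq y))) (i : Fin N) :
    (gramL D.χ X i i).coeff 0 = 1 := by
  apply coeff_of_tendsto_one
  have h := gram_lim D hE bX i i
  rw [Matrix.one_apply_eq] at h
  simpa using h

theorem gram_off (D : DSys N) {Ψ : Matrix (Fin N) (Fin N) ℂ} {G : Fin N → ℂ}
    (hE : Eig (D.A 0) D.g Ψ G) {X : Matrix (Fin N) (Fin N) (LaurentPolynomial ℂ)}
    (bX : IsBirk D.F Ψ G (fun y => X.map (evq y))) {i j : Fin N} (hij : i ≠ j) (n : ℤ)
    (hn : 2 * Real.pi * n ≤ (G j - G i).im) : (gramL D.χ X i j).coeff n = 0 := by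
  have hpi : 0 < 2 * Real.pi := by positivity
  apply coeff_zero_of_tendsto (a := (G j - G i).im / (2 * Real.pi))
  · have h := (gram_lim D hE bX i j).norm
    rw [Matrix.one_apply_ne hij, norm_zero] at h
    refine h.congr fun η => ?_
    rw [norm_mul, Complex.norm_exp]
    congr 2
    simp only [Complex.mul_re, Complex.mul_im, Complex.I_re, Complex.I_im, Complex.ofReal_re,
      Complex.ofReal_im, Complex.sub_re, Complex.sub_im]
    field_simp
    ring
  · rw [le_div_iff₀ hpi]
    linarith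

end Pool.Agent.DST
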