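import Pool.Agent.DST.TDefs

/-!
# Project DST, module T-Int: closure properties of integrality (easy)

PLAN. `IntC`: casts. `IntL f` is the same as `f.coeff n` integral for all `n`; for products use
`LaurentPolynomial.induction_on'` or show `IntL f ↔ f ∈ Set.range (map (Int.castRingHom ℂ))`
(`AddMonoidAlgebra.mapRangeRingHom`), or a subring argument: the set of `f` with `IntL f` is the
range of a ring homomorphism from `LaurentPolynomial ℤ`. `evq (-y) f = evq y (invert f)`: both sides
are ring homomorphisms in `f`, agree on `C a * T n`.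
-/

open scoped BigOperators Topology
open Filter

namespace Pool.Agent.DST

variable {N : ℕ}

theorem IntC.add {a b : ℂ} (ha : IntC a) (hb : IntC b) : IntC (a + b) := by
  obtain ⟨m, rfl⟩ := ha
  obtain ⟨n, rfl⟩ := hb
  exact ⟨m + n, by push_cast; rfl⟩

theorem IntC.sub {a b : ℂ} (ha : IntC a) (hb : IntC b) : IntC (a - b) := by
  obtain ⟨m, rfl⟩ := ha
  obtain ⟨n, rfl⟩ := hb
  exact ⟨m - n, by push_cast; rfl⟩

theorem IntC.neg {a : ℂ} (ha : IntC a) : IntC (-a) := by
  obtain ⟨m, rfl⟩ := ha
  exact ⟨-m, by push_cast; rfl⟩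

theorem IntC.mul {a b : ℂ} (ha : IntC a) (hb : IntC b) : IntC (a * b) := by
  obtain ⟨m, rfl⟩ := ha
  obtain ⟨n, rfl⟩ := hb
  exact ⟨m * n, by push_cast; rfl⟩

theorem IntC.sum {ι : Type*} (s : Finset ι) {f : ι → ℂ} (h : ∀ i ∈ s, IntC (f i)) :
    IntC (∑ i ∈ s, f i) := by
  classical
  induction s using Finset.induction_on with
  | empty => exact ⟨0, by simp⟩
  | insert a s ha ih =>
    rw [Finset.sum_insert ha]
    exact (h a (Finset.mem_insert_self a s)).add (ih fun i hi => h i (Finset.mem_insert_of_mem hi))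

theorem intC_zero : IntC 0 := by
  exact ⟨0, by simp⟩

theorem intC_one : IntC 1 := by
  exact ⟨1, by simp⟩

theorem IntL.add {a b : LaurentPolynomial ℂ} (ha : IntL a) (hb : IntL b) : IntL (a + b) := by
  intro n
  rw [AddMonoidAlgebra.coeff_add, Finsupp.add_apply]
  exact IntC.add (ha n) (hb n)

theorem IntL.mul {a b : LaurentPolynomial ℂ} (ha : IntL a) (hb : IntL b) : IntL (a * b) := by
  classical
  intro n
  rw [AddMonoidAlgebra.coeff_mul]
  refine IntC.sum _ fun i _ => IntC.sum _ fun j _ => ?_
  show IntC (if i + j = n then a.coeff i * b.coeff j else 0)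
  split_ifs with h
  · exact IntC.mul (ha i) (hb j)
  · exact intC_zero

theorem IntL.sum {ι : Type*} (s : Finset ι) {f : ι → LaurentPolynomial ℂ}
    (h : ∀ i ∈ s, IntL (f i)) : IntL (∑ i ∈ s, f i) := by
  classical
  induction s using Finset.induction_on with
  | empty =>
    intro n
    exact ⟨0, by simp⟩
  | insert a s ha ih =>
    rw [Finset.sum_insert ha]
    exact (h a (Finset.mem_insert_self a s)).add (ih fun i hi => h i (Finset.mem_insert_of_mem hi))

theorem intL_zero : IntL 0 := by
  intro n
  exact ⟨0, by simp⟩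

theorem IntL.invert {a : LaurentPolynomial ℂ} (ha : IntL a) :
    IntL (LaurentPolynomial.invert a) := by
  intro n
  rw [LaurentPolynomial.invert_apply]
  exact ha (-n)

theorem intL_C_mul_T {a : ℂ} (ha : IntC a) (n : ℤ) :
    IntL (LaurentPolynomial.C a * LaurentPolynomial.T n) := by
  intro m
  rw [← LaurentPolynomial.single_eq_C_mul_T, AddMonoidAlgebra.coeff_single, Finsupp.single_apply]
  split_ifs with h
  · exact ha
  · exact intC_zero

theorem IntL.coeff {a : LaurentPolynomial ℂ} (ha : IntL a) (n : ℤ) : IntC (a.coeff n) := by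
  exact ha n

theorem intL_mul_mat {X Y : Matrix (Fin N) (Fin N) (LaurentPolynomial ℂ)}
    (hX : ∀ i j, IntL (X i j)) (hY : ∀ i j, IntL (Y i j)) (i j : Fin N) : IntL ((X * Y) i j) := by
  rw [Matrix.mul_apply]
  exact IntL.sum _ fun k _ => (hX i k).mul (hY k j)

theorem intL_gramL {χ X : Matrix (Fin N) (Fin N) (LaurentPolynomial ℂ)}
    (hχ : ∀ i j, IntL (χ i j)) (hX : ∀ i j, IntL (X i j)) (i j : Fin N) :
    IntL (gramL χ X i j) := by
  refine intL_mul_mat (intL_mul_mat (fun i j => ?_) hχ) hX i j
  rw [Matrix.transpose_apply, invM, Matrix.map_apply]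
  exact (hX j i).invert

theorem evq_invert (y : ℂ) (f : LaurentPolynomial ℂ) :
    evq y (LaurentPolynomial.invert f) = evq (-y) f := by
  have hq : qu (-y) = (qu y)⁻¹ := by
    ext
    simp only [qu, Units.val_mk0, Units.val_inv_eq_inv_val]
    rw [← Complex.exp_neg]
    congr 1
    ring
  induction f using LaurentPolynomial.induction_on' with
  | add p q hp hq => rw [map_add, map_add, map_add, hp, hq]
  | C_mul_T n a =>
    rw [map_mul, LaurentPolynomial.invert_C, LaurentPolynomial.invert_T]
    simp only [evq]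
    rw [LaurentPolynomial.eval₂_C_mul_T, LaurentPolynomial.eval₂_C_mul_T, hq, inv_zpow, zpow_neg]

theorem map_evq_invM (y : ℂ) (X : Matrix (Fin N) (Fin N) (LaurentPolynomial ℂ)) :
    (invM X).map (evq y) = X.map (evq (-y)) := by
  ext i j
  simp only [invM, Matrix.map_apply]
  exact evq_invert y _

theorem gramL_mul (χ X M : Matrix (Fin N) (Fin N) (LaurentPolynomial ℂ)) :
    gramL χ (X * M) = (invM M).transpose * gramL χ X * M := by
  have h1 : invM (X * M) = invM X * invM M := by
    simp only [invM]
    ext1 i j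
    simp only [Matrix.map_apply, Matrix.mul_apply, map_sum, map_mul]
  simp only [gramL]
  rw [h1, Matrix.transpose_mul]
  simp only [Matrix.mul_assoc]

end Pool.Agent.DST
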