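import Pool.Agent.DST.TPair
import Pool.Agent.DST.TEig

/-!
# Project DST, module T-Loc: local transport

Near a point with distinct eigenvalues the integrality of the connection matrix at one off-wall point implies the
integrality at every other off-wall point (`pair_int` with the common base point `G₀ = G' s₀`).
-/

open scoped BigOperators Topology
open Filter

namespace Pool.Agent.DST

variable {N : ℕ}

theorem off_of_offPt {D : DSys N} {Ψ : Matrix (Fin N) (Fin N) ℂ} {G : Fin N → ℂ}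
    (hE : Eig (D.A 0) D.g Ψ G) (h : OffPt D) : OffWall G := by
  obtain ⟨Ψ', G', hE', hoff⟩ := h
  obtain ⟨σ, ε, k, -, -, hk⟩ := eig_unique hE hE'
  intro i j hij n hn
  have him : ∀ m : Fin N, (G' m).im = (G (σ m)).im + 2 * Real.pi * k m := by
    intro m
    rw [hk m]
    have h1 : (2 * Real.pi * Complex.I * (k m : ℂ)) = ((2 * Real.pi * (k m : ℝ) : ℝ) : ℂ) * Complex.I := by
      push_cast
      ring
    rw [Complex.add_im, h1, Complex.mul_I_im, Complex.ofReal_re]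
  have h2 : σ.symm i ≠ σ.symm j := fun h => hij (σ.symm.injective h)
  refine hoff (σ.symm i) (σ.symm j) h2 (n + k (σ.symm i) - k (σ.symm j)) ?_
  have h3 := him (σ.symm i)
  have h4 := him (σ.symm j)
  rw [Equiv.apply_symm_apply] at h3 h4
  rw [Complex.sub_im] at hn ⊢
  rw [h3, h4]
  push_cast
  linarith

theorem local_transport {Ω : Set ℂ} {D : ℂ → DSys N}
    {χ : Matrix (Fin N) (Fin N) (LaurentPolynomial ℂ)} (hf : IsFam Ω D χ) {s₀ : ℂ} (h₀ : s₀ ∈ Ω)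
    {Ψ : Matrix (Fin N) (Fin N) ℂ} {G : Fin N → ℂ} (hE : Eig ((D s₀).A 0) (D s₀).g Ψ G) :
    ∃ ρ > 0, Metric.ball s₀ ρ ⊆ Ω ∧ ∀ s ∈ Metric.ball s₀ ρ, ∀ s' ∈ Metric.ball s₀ ρ,
      OffPt (D s) → OffPt (D s') → Int0 (D s) → Int0 (D s') := by
  obtain ⟨ρ, hρ, hsub, G', hG0, hG'⟩ := local_eig hf.open_Ω (A := fun s => (D s).A 0) hf.A_hol h₀ hE
  obtain ⟨e, he, hgap⟩ := exists_gap G
  obtain ⟨δ, hδ, C, hC⟩ := hf.comp s₀ h₀
  have hcont : ∀ᶠ s in 𝓝 s₀, ∀ j, ‖G' s j - G j‖ ≤ e := by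
    rw [eventually_all]
    intro j
    have h1 : ContinuousAt (fun s => G' s j) s₀ :=
      ((hG' s₀ (Metric.mem_ball_self hρ)).1 j).continuousAt
    have h2 := Metric.tendsto_nhds.1 h1 e he
    filter_upwards [h2] with s hs
    rw [dist_eq_norm, hG0] at hs
    exact hs.le
  obtain ⟨η, hη, hη'⟩ := Metric.eventually_nhds_iff_ball.1 hcont
  have hC1 : 0 < 2 * (|C| + 1) := by positivity
  refine ⟨min (min ρ δ) (min η (e / (2 * (|C| + 1)))), lt_min (lt_min hρ hδ) (lt_min hη (by positivity)),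
    (Metric.ball_subset_ball ((min_le_left _ _).trans (min_le_left _ _))).trans hsub, ?_⟩
  intro s hs s' hs' hoff hoff' hint
  have hin : ∀ {x : ℂ}, x ∈ Metric.ball s₀ (min (min ρ δ) (min η (e / (2 * (|C| + 1))))) →
      x ∈ Metric.ball s₀ ρ ∧ x ∈ Metric.ball s₀ δ ∧ x ∈ Metric.ball s₀ η ∧ ‖x - s₀‖ ≤ e / (2 * (|C| + 1)) := by
    intro x hx
    rw [Metric.mem_ball, lt_min_iff, lt_min_iff, lt_min_iff] at hx
    refine ⟨hx.1.1, hx.1.2, hx.2.1, ?_⟩
    rw [← dist_eq_norm]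
    exact hx.2.2.le
  obtain ⟨hsρ, hsδ, hsη, hse⟩ := hin hs
  obtain ⟨hsρ', hsδ', hsη', hse'⟩ := hin hs'
  obtain ⟨-, inj1, V, hV, hAV⟩ := hG' s hsρ
  obtain ⟨-, inj2, V', hV', hAV'⟩ := hG' s' hsρ'
  obtain ⟨Ψ1, hE1⟩ := eig_of_diag (D s) hV inj1 hAV
  obtain ⟨Ψ2, hE2⟩ := eig_of_diag (D s') hV' inj2 hAV'
  have hχ : (D s').χ = (D s).χ := by rw [hf.χ_eq s' (hsub hsρ'), hf.χ_eq s (hsub hsρ)]
  have hχi : ∀ i j, IntL ((D s).χ i j) := by
    rw [hf.χ_eq s (hsub hsρ)]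
    exact hf.χ_int
  refine pair_int hχ hχi hE1 hE2 hE.inj (off_of_offPt hE1 hoff) (off_of_offPt hE2 hoff') he hgap
    (hη' s hsη) (hη' s' hsη') (C := |C|) ?_ hint
  intro y hy hy1 i j
  refine (hC s' hsδ' s hsδ y hy hy1 i j).trans ?_
  refine mul_le_mul (le_abs_self C) (Real.exp_le_exp.2 ?_) (Real.exp_pos _).le (abs_nonneg C)
  refine mul_le_mul_of_nonneg_right ?_ (norm_nonneg y)
  have h1 : ‖s' - s‖ ≤ e / (|C| + 1) := by
    have h2 : s' - s = (s' - s₀) - (s - s₀) := by ring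
    rw [h2]
    refine (norm_sub_le _ _).trans ((add_le_add hse' hse).trans (le_of_eq ?_))
    field_simp
    ring
  have h3 : C * ‖s' - s‖ ≤ (|C| + 1) * ‖s' - s‖ :=
    mul_le_mul_of_nonneg_right ((le_abs_self C).trans (by linarith)) (norm_nonneg _)
  refine h3.trans ?_
  have h4 : (|C| + 1) * ‖s' - s‖ ≤ (|C| + 1) * (e / (|C| + 1)) :=
    mul_le_mul_of_nonneg_left h1 (by positivity)
  refine h4.trans (le_of_eq ?_)
  field_simp

end Pool.Agent.DST
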