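import Pool.Agent.DST.TBnd
import Pool.Agent.DST.TCoe

/-!
# Project DST, module T-Str: the transition matrix near a point `G₀`

`e > 0` is small with respect to `G₀` (`Gap G₀ e`), `G`, `G'` are `e`-close to `G₀`.

PLAN. Write `G₀ j - G₀ i = ρ + iκ'`. `|Re (y (G' j - G i)) - Re (y (G₀ j - G₀ i))| ≤ 2e‖y‖`, so `hb` gives
`‖evq y (M i j)‖ ≤ K exp (3e‖y‖ + Re (y (G₀ j - G₀ i)))` eventually along `rhp`.
(1) `y = iη`, `η → +∞` (this tends to `rhp`): `Re (y (ρ + iκ')) = -κ'η`: the bound is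
  `K exp (-(2π a η))`, `a = κ'/2π - 3e/2π`; `coeff_zero_top`: exponents `n` of `M i j` satisfy `n ≥ a`.
(2) `y = -iη`: bound `K exp (2π b η)`, `b = κ'/2π + 3e/2π`; `coeff_zero_bot`: `n ≤ b`.
(3) So every exponent `n` of `M i j` satisfies `|2πn - κ'| ≤ 3e`, and `Gap` gives `2πn = κ'`. Hence
  `M i j = C c * T n` with `2πn = κ'`, or `M i j = 0` (then take any `n`, `c = 0`; so the first conclusion
  is stated as: `M i j = 0` or there is `n` with `2πn = Im (G₀ j - G₀ i)` and `M i j = C c * T n`).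
(4) If `i ≠ j` and `c ≠ 0`: `y = t → +∞` real: `|evq t (M i j)| = |c|` (`|e^{2πit}| = 1`), bound
  `K exp (3et + tρ)`; so `ρ + 3e ≥ 0`, and `Gap` gives `ρ ≥ 0`. If `ρ = 0` then `G₀ j - G₀ i = 2πi n`, which
  contradicts `inj`. So `ρ > 0`.
* `exists_gap`: finitely many pairs `(i,j)`: for each pair a positive number smaller than the distance of
  `κ'/2π` to the other integers (times `2π/3`) and smaller than `-ρ/3` if `ρ < 0`.
-/

open scoped BigOperators Topology
open Filter

namespace Pool.Agent.DST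

variable {N : ℕ}

/-- `e` is small with respect to the differences of the `G₀ j`. -/
def Gap (G₀ : Fin N → ℂ) (e : ℝ) : Prop :=
  ∀ i j, (∀ n : ℤ, |2 * Real.pi * n - (G₀ j - G₀ i).im| ≤ 3 * e → 2 * Real.pi * n = (G₀ j - G₀ i).im) ∧
    (0 ≤ (G₀ j - G₀ i).re + 3 * e → 0 ≤ (G₀ j - G₀ i).re)

private theorem gap_im (κ : ℝ) : ∀ᶠ e : ℝ in 𝓝[>] 0, ∀ n : ℤ,
    |2 * Real.pi * n - κ| ≤ 3 * e → 2 * Real.pi * n = κ := by
  have hpi := Real.pi_pos
  set n₀ : ℤ := round (κ / (2 * Real.pi)) with hn₀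
  have h1 : |2 * Real.pi * n₀ - κ| ≤ Real.pi := by
    have h2 : |κ / (2 * Real.pi) - n₀| ≤ 1 / 2 := abs_sub_round _
    have h3 : 2 * Real.pi * n₀ - κ = -(2 * Real.pi * (κ / (2 * Real.pi) - n₀)) := by
      field_simp
      ring
    rw [h3, abs_neg, abs_mul, abs_of_pos (by positivity : (0 : ℝ) < 2 * Real.pi)]
    nlinarith
  have h4 : ∀ n : ℤ, n ≠ n₀ → Real.pi ≤ |2 * Real.pi * n - κ| := by
    intro n hn
    have h5 : (1 : ℝ) ≤ |(n : ℝ) - n₀| := by
      have h6 : 1 ≤ |n - n₀| := Int.one_le_abs (sub_ne_zero.2 hn)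
      exact_mod_cast h6
    have h7 : |2 * Real.pi * ((n : ℝ) - n₀)| ≤ |2 * Real.pi * n - κ| + |2 * Real.pi * n₀ - κ| := by
      have h8 : 2 * Real.pi * ((n : ℝ) - n₀) = (2 * Real.pi * n - κ) - (2 * Real.pi * n₀ - κ) := by
        ring
      rw [h8]
      exact abs_sub _ _
    rw [abs_mul, abs_of_pos (by positivity : (0 : ℝ) < 2 * Real.pi)] at h7
    nlinarith
  have ha : ∀ᶠ e : ℝ in 𝓝[>] 0, 3 * e < Real.pi := by
    have : ∀ᶠ e : ℝ in 𝓝 0, 3 * e < Real.pi :=
      (continuous_const.mul continuous_id).continuousAt.eventually (gt_mem_nhds (by simpa using hpi))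
    exact nhdsWithin_le_nhds this
  have hb : ∀ᶠ e : ℝ in 𝓝[>] 0, |2 * Real.pi * n₀ - κ| ≤ 3 * e → 2 * Real.pi * n₀ = κ := by
    by_cases h : 2 * Real.pi * n₀ = κ
    · exact Eventually.of_forall fun e _ => h
    · have h9 : 0 < |2 * Real.pi * n₀ - κ| := abs_pos.2 (sub_ne_zero.2 h)
      have : ∀ᶠ e : ℝ in 𝓝 0, 3 * e < |2 * Real.pi * n₀ - κ| :=
        (continuous_const.mul continuous_id).continuousAt.eventually
          (gt_mem_nhds (by simpa using h9))
      filter_upwards [nhdsWithin_le_nhds this] with e he h'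
      exact absurd h' (not_le.2 he)
  filter_upwards [ha, hb] with e h1e h2e n hn
  by_cases hnn : n = n₀
  · rw [hnn] at hn ⊢
    exact h2e hn
  · exact absurd (h4 n hnn) (by linarith)

private theorem gap_re (ρ : ℝ) : ∀ᶠ e : ℝ in 𝓝[>] 0, 0 ≤ ρ + 3 * e → 0 ≤ ρ := by
  by_cases h : 0 ≤ ρ
  · exact Eventually.of_forall fun e _ => h
  · push Not at h
    have : ∀ᶠ e : ℝ in 𝓝 0, 3 * e < -ρ :=
      (continuous_const.mul continuous_id).continuousAt.eventually
        (gt_mem_nhds (by simpa using h))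
    filter_upwards [nhdsWithin_le_nhds this] with e he h'
    exact absurd h' (by linarith)

theorem exists_gap (G₀ : Fin N → ℂ) : ∃ e > 0, Gap G₀ e := by
  have h : ∀ᶠ e : ℝ in 𝓝[>] 0, Gap G₀ e := by
    unfold Gap
    refine eventually_all.2 fun i => eventually_all.2 fun j => ?_
    exact (gap_im _).and (gap_re _)
  obtain ⟨e, h1, h2⟩ := (h.and self_mem_nhdsWithin).exists
  exact ⟨e, h2, h1⟩

private theorem tendsto_rhp {f : ℝ → ℂ} (hf : ∀ η : ℝ, 0 ≤ η → ‖f η‖ = η)
    (hf' : ∀ η : ℝ, 0 ≤ η → 0 ≤ (f η).re) : Tendsto f atTop rhp := by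
  unfold rhp
  refine tendsto_inf.2 ⟨?_, tendsto_principal.2 ?_⟩
  · rw [← tendsto_norm_atTop_iff_cobounded]
    refine (tendsto_congr' ?_).1 tendsto_id
    filter_upwards [eventually_ge_atTop (0 : ℝ)] with η hη
    exact (hf η hη).symm
  · filter_upwards [eventually_ge_atTop (0 : ℝ)] with η hη
    exact hf' η hη

private theorem coeff_CT (a : ℂ) (n m : ℤ) :
    (LaurentPolynomial.C a * LaurentPolynomial.T n).coeff m = if n = m then a else 0 := by
  rw [← LaurentPolynomial.single_eq_C_mul_T]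
  exact Finsupp.single_apply

theorem trans_str {G₀ G G' : Fin N → ℂ} (inj : Function.Injective fun j => Complex.exp (G₀ j))
    {e : ℝ} (he : 0 < e) (hgap : Gap G₀ e) (hG : ∀ j, ‖G j - G₀ j‖ ≤ e)
    (hG' : ∀ j, ‖G' j - G₀ j‖ ≤ e) {M : Matrix (Fin N) (Fin N) (LaurentPolynomial ℂ)} {K : ℝ}
    (hb : ∀ᶠ y in rhp, ∀ i j,
      ‖evq y (M i j)‖ ≤ K * Real.exp (e * ‖y‖ + (y * (G' j - G i)).re)) (i j : Fin N) :
    M i j = 0 ∨ ∃ (n : ℤ) (c : ℂ), 2 * Real.pi * n = (G₀ j - G₀ i).im ∧
      M i j = LaurentPolynomial.C c * LaurentPolynomial.T n ∧ (i ≠ j → 0 < (G₀ j - G₀ i).re) := by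
  have hpi := Real.pi_pos
  have hb2 : ∀ᶠ y in rhp, ‖evq y (M i j)‖ ≤
      |K| * Real.exp (3 * e * ‖y‖ + (y * (G₀ j - G₀ i)).re) := by
    filter_upwards [hb] with y hy
    refine (hy i j).trans ?_
    have h1 : (y * (G' j - G i)).re ≤ 2 * e * ‖y‖ + (y * (G₀ j - G₀ i)).re := by
      have h2 : y * (G' j - G i) = y * (G₀ j - G₀ i) + y * ((G' j - G₀ j) - (G i - G₀ i)) := by ring
      have h3 : (y * ((G' j - G₀ j) - (G i - G₀ i))).re ≤ ‖y‖ * (2 * e) := by
        refine (Complex.re_le_norm _).trans ?_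
        rw [norm_mul]
        refine mul_le_mul_of_nonneg_left ?_ (norm_nonneg _)
        refine (norm_sub_le _ _).trans ?_
        linarith [hG i, hG' j]
      rw [h2, Complex.add_re]
      linarith
    have h4 : Real.exp (e * ‖y‖ + (y * (G' j - G i)).re) ≤
        Real.exp (3 * e * ‖y‖ + (y * (G₀ j - G₀ i)).re) := by
      apply Real.exp_le_exp.2
      linarith
    exact (mul_le_mul_of_nonneg_right (le_abs_self K) (Real.exp_pos _).le).trans
      (mul_le_mul_of_nonneg_left h4 (abs_nonneg K))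
  set κ := (G₀ j - G₀ i).im with hκ
  set ρ := (G₀ j - G₀ i).re with hρ
  have hup : ∀ᶠ η : ℝ in atTop, ‖evq (η * Complex.I) (M i j)‖ ≤
      |K| * Real.exp (-(2 * Real.pi * ((κ - 3 * e) / (2 * Real.pi)) * η)) := by
    have ht : Tendsto (fun η : ℝ => (η : ℂ) * Complex.I) atTop rhp := by
      apply tendsto_rhp
      · intro η hη
        simp [abs_of_nonneg hη]
      · intro η _
        simp
    filter_upwards [ht.eventually hb2, eventually_ge_atTop (0 : ℝ)] with η h hη
    refine h.trans (le_of_eq ?_)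
    congr 2
    have h5 : ‖(η : ℂ) * Complex.I‖ = η := by simp [abs_of_nonneg hη]
    have h6 : ((η : ℂ) * Complex.I * (G₀ j - G₀ i)).re = -(κ * η) := by
      rw [mul_assoc, Complex.re_ofReal_mul, Complex.I_mul_re, ← hκ]
      ring
    rw [h5, h6, mul_div_cancel₀ _ (by positivity : (2 * Real.pi : ℝ) ≠ 0)]
    ring
  have hdn : ∀ᶠ η : ℝ in atTop, ‖evq (-(η * Complex.I)) (M i j)‖ ≤
      |K| * Real.exp (2 * Real.pi * ((κ + 3 * e) / (2 * Real.pi)) * η) := by
    have ht : Tendsto (fun η : ℝ => -((η : ℂ) * Complex.I)) atTop rhp := by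
      apply tendsto_rhp
      · intro η hη
        simp [abs_of_nonneg hη]
      · intro η _
        simp
    filter_upwards [ht.eventually hb2, eventually_ge_atTop (0 : ℝ)] with η h hη
    refine h.trans (le_of_eq ?_)
    congr 2
    have h5 : ‖-((η : ℂ) * Complex.I)‖ = η := by simp [abs_of_nonneg hη]
    have h6 : (-((η : ℂ) * Complex.I) * (G₀ j - G₀ i)).re = κ * η := by
      rw [neg_mul, Complex.neg_re, mul_assoc, Complex.re_ofReal_mul, Complex.I_mul_re, ← hκ]
      ring
    rw [h5, h6, mul_div_cancel₀ _ (by positivity : (2 * Real.pi : ℝ) ≠ 0)]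
    ring
  have hexp : ∀ n : ℤ, (M i j).coeff n ≠ 0 → 2 * Real.pi * n = κ := by
    intro n hn
    apply (hgap i j).1 n
    rw [← hκ]
    have h7 : (κ - 3 * e) / (2 * Real.pi) ≤ n := by
      by_contra h
      push Not at h
      exact hn (coeff_zero_top hup n h)
    have h8 : (n : ℝ) ≤ (κ + 3 * e) / (2 * Real.pi) := by
      by_contra h
      push Not at h
      exact hn (coeff_zero_bot hdn n h)
    rw [div_le_iff₀ (by positivity)] at h7
    rw [le_div_iff₀ (by positivity)] at h8
    rw [abs_le]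
    constructor <;> linarith
  by_cases hz : ∀ n : ℤ, (M i j).coeff n = 0
  · left
    apply LaurentPolynomial.ext
    intro n
    rw [hz n]
    rfl
  · right
    push Not at hz
    obtain ⟨n, hn⟩ := hz
    have hn2 := hexp n hn
    have hM : M i j = LaurentPolynomial.C ((M i j).coeff n) * LaurentPolynomial.T n := by
      apply LaurentPolynomial.ext
      intro m
      rw [coeff_CT]
      by_cases hm : m = n
      · rw [hm, if_pos rfl]
      · have h9 : (M i j).coeff m = 0 := by
          by_contra h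
          apply hm
          have h10 := hexp m h
          rw [← hn2] at h10
          have h11 := mul_left_cancel₀ (by positivity : (2 * Real.pi : ℝ) ≠ 0) h10
          exact_mod_cast h11
        rw [h9, if_neg (Ne.symm hm)]
    refine ⟨n, (M i j).coeff n, hn2, hM, fun hij => ?_⟩
    have hnorm : ∀ t : ℝ, ‖evq (t : ℂ) (M i j)‖ = ‖(M i j).coeff n‖ := by
      intro t
      conv_lhs => rw [hM]
      rw [map_mul, evq_C, evq_T, norm_mul, Complex.norm_exp]
      have h12 : (2 * Real.pi * Complex.I * n * t : ℂ).re = 0 := by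
        have h13 : (2 * Real.pi * Complex.I * n * t : ℂ) = ((2 * Real.pi * n * t : ℝ) : ℂ) * Complex.I := by
          push_cast
          ring
        rw [h13, Complex.re_ofReal_mul, Complex.I_re, mul_zero]
      rw [h12, Real.exp_zero, mul_one]
    have hreal : ∀ᶠ t : ℝ in atTop, ‖(M i j).coeff n‖ ≤ |K| * Real.exp ((ρ + 3 * e) * t) := by
      have ht : Tendsto (fun t : ℝ => (t : ℂ)) atTop rhp := by
        apply tendsto_rhp
        · intro η hη
          simp [abs_of_nonneg hη]
        · intro η hη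
          simpa using hη
      filter_upwards [ht.eventually hb2, eventually_ge_atTop (0 : ℝ)] with t h htt
      rw [hnorm] at h
      refine h.trans (le_of_eq ?_)
      congr 2
      have h5 : ‖(t : ℂ)‖ = t := by simp [abs_of_nonneg htt]
      rw [h5, Complex.re_ofReal_mul, ← hρ]
      ring
    have hge : 0 ≤ ρ + 3 * e := by
      by_contra h
      push Not at h
      have h14 : Tendsto (fun t : ℝ => |K| * Real.exp ((ρ + 3 * e) * t)) atTop (𝓝 (|K| * 0)) := by
        apply Tendsto.const_mul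
        apply Real.tendsto_exp_atBot.comp
        exact tendsto_id.const_mul_atTop_of_neg h
      rw [mul_zero] at h14
      have h15 := ge_of_tendsto h14 hreal
      exact hn (norm_le_zero_iff.1 h15)
    have hρ0 : 0 ≤ ρ := (hgap i j).2 hge
    rcases hρ0.lt_or_eq with h | h
    · exact h
    · exfalso
      apply hij
      apply inj
      show Complex.exp (G₀ i) = Complex.exp (G₀ j)
      symm
      rw [Complex.exp_eq_exp_iff_exists_int]
      refine ⟨n, ?_⟩
      have h16 : G₀ j - G₀ i = n * (2 * Real.pi * Complex.I) := by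
        apply Complex.ext
        · rw [← hρ, ← h]
          simp
        · rw [← hκ, ← hn2]
          simp
          ring
      rw [← h16]
      ring

end Pool.Agent.DST
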