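import Pool.Agent.DST.KMain
import Pool.Agent.DST.TStr
import Pool.Agent.DST.TGram
import Pool.Agent.DST.TCls

/-!
# Project DST, module T-Pair: transport between two off-wall points near a common point

PLAN. `birkhoff` gives `X` for `D` and `X'` for `D'` with unit determinants; `M = X⁻¹ X'` (Laurent matrices),
`X M = X'`. `trans_bound` (with `κ = e`, `hc`), `trans_str`, `gramL_mul` (`Γ' = gramL χ X' = invM(M)ᵀ Γ M`),
`hint : Int0 D` gives `X` integral, so `Γ = gramL χ X` is integral (`intL_gramL`, `χ` integral);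
`gram_diag`, `gram_off` for both; `cls` gives `M` integral, so `X' = X M` is integral (`intL_mul_mat`) and
`int0_of` gives `Int0 D'`.
-/

open scoped BigOperators Topology
open Filter

namespace Pool.Agent.DST

variable {N : ℕ}

theorem pair_int {D D' : DSys N} (hχ : D'.χ = D.χ) (hχi : ∀ i j, IntL (D.χ i j))
    {Ψ Ψ' : Matrix (Fin N) (Fin N) ℂ} {G₀ G G' : Fin N → ℂ}
    (hE : Eig (D.A 0) D.g Ψ G) (hE' : Eig (D'.A 0) D'.g Ψ' G')
    (inj : Function.Injective fun j => Complex.exp (G₀ j)) (hoff : OffWall G) (hoff' : OffWall G')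
    {e : ℝ} (he : 0 < e) (hgap : Gap G₀ e) (hG : ∀ j, ‖G j - G₀ j‖ ≤ e)
    (hG' : ∀ j, ‖G' j - G₀ j‖ ≤ e) {C : ℝ}
    (hc : ∀ y ∈ Complex.slitPlane, 1 ≤ ‖y‖ → ∀ i j,
      ‖(D.F y * (D'.F y)⁻¹) i j‖ ≤ C * Real.exp (e * ‖y‖)) (hint : Int0 D) : Int0 D' := by
  obtain ⟨X, hX, bX⟩ := birkhoff D hE hoff
  obtain ⟨X', hX', bX'⟩ := birkhoff D' hE' hoff'
  have hM : X * (X⁻¹ * X') = X' := by
    rw [← Matrix.mul_assoc, Matrix.mul_nonsing_inv _ hX, Matrix.one_mul]
  set M : Matrix (Fin N) (Fin N) (LaurentPolynomial ℂ) := X⁻¹ * X' with hMdef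
  obtain ⟨K, hK⟩ := trans_bound hE hE' bX bX' hM (κ := e) hc
  have hstr := trans_str inj he hgap hG hG' hK
  have hXi : ∀ i j, IntL (X i j) := hint Ψ G X hE bX
  have hΓ' : gramL D'.χ X' = (invM M).transpose * gramL D.χ X * M := by
    rw [hχ, ← hM, gramL_mul]
  have hMi : ∀ i j, IntL (M i j) := by
    intro i j
    exact cls inj hoff hoff' (intL_gramL hχi hXi) hΓ' hstr (gram_diag D hE bX)
      (fun i j hij n hn => gram_off D hE bX hij n hn) (gram_diag D' hE' bX')
      (fun i j hij n hn => gram_off D' hE' bX' hij n hn) i j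
  refine int0_of D' hE' bX' ?_
  rw [← hM]
  exact intL_mul_mat hXi hMi

end Pool.Agent.DST
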