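import Pool.Agent.DST.TDefs

/-!
# Project DST, module T-Root: simple eigenvalues are holomorphic

The implicit function theorem for `(s, x) ↦ (A s).charpoly.eval x = det (x - A s)`.
-/

open scoped BigOperators Topology
open Filter

namespace Pool.Agent.DST

variable {N : ℕ}

private theorem inv_of_ne {L : ℂ →L[ℂ] ℂ} (h : L 1 ≠ 0) : L.IsInvertible := by
  have hL : ∀ x, L x = x * L 1 := fun x => by
    have h1 := L.map_smul x 1
    rw [smul_eq_mul, mul_one, smul_eq_mul] at h1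
    exact h1
  refine ⟨ContinuousLinearEquiv.equivOfInverse L ((L 1)⁻¹ • ContinuousLinearMap.id ℂ ℂ)
    (fun x => ?_) (fun x => ?_), ?_⟩
  · rw [hL x]
    show (L 1)⁻¹ * (x * L 1) = x
    field_simp
  · show L ((L 1)⁻¹ * x) = x
    rw [hL]
    field_simp
  · ext
    rfl

theorem root_hol {Ω : Set ℂ} (hΩ : IsOpen Ω) {A : ℂ → Matrix (Fin N) (Fin N) ℂ}
    (hA : ∀ s ∈ Ω, ∀ i j, DifferentiableAt ℂ (fun s => A s i j) s) {s₀ : ℂ} (h₀ : s₀ ∈ Ω)
    {a₀ : ℂ} (h0 : (A s₀).charpoly.eval a₀ = 0)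
    (h1 : (Polynomial.derivative (A s₀).charpoly).eval a₀ ≠ 0) :
    ∃ ρ > 0, Metric.ball s₀ ρ ⊆ Ω ∧ ∃ a : ℂ → ℂ, a s₀ = a₀ ∧
      ∀ s ∈ Metric.ball s₀ ρ, DifferentiableAt ℂ a s ∧ (A s).charpoly.eval (a s) = 0 := by
  -- the two variable function
  obtain ⟨F, hF⟩ : ∃ F : ℂ × ℂ → ℂ, F = fun p => (A p.1).charpoly.eval p.2 := ⟨_, rfl⟩
  have hent : ∀ i j, AnalyticAt ℂ (fun s => A s i j) s₀ := fun i j =>
    DifferentiableOn.analyticAt (fun s hs => (hA s hs i j).differentiableWithinAt) (hΩ.mem_nhds h₀)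
  have hent2 : ∀ i j, ContDiffAt ℂ 1 (fun p : ℂ × ℂ => A p.1 i j) (s₀, a₀) := fun i j =>
    ((hent i j).contDiffAt (n := 1)).comp (s₀, a₀) contDiffAt_fst
  have hFd : ContDiffAt ℂ 1 F (s₀, a₀) := by
    have e : F = fun p => ∑ σ : Equiv.Perm (Fin N), ((Equiv.Perm.sign σ : ℤ) : ℂ) *
        ∏ i, ((if σ i = i then p.2 else 0) - A p.1 (σ i) i) := by
      rw [hF]
      funext p
      rw [Matrix.eval_charpoly, Matrix.det_apply']
      refine Finset.sum_congr rfl fun σ _ => ?_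
      congr 1
    rw [e]
    refine ContDiffAt.sum fun σ _ => ?_
    refine contDiffAt_const.mul ?_
    refine contDiffAt_prod fun i _ => ?_
    refine ContDiffAt.sub ?_ (hent2 _ _)
    by_cases h : σ i = i
    · simp only [if_pos h]
      exact contDiffAt_snd
    · simp only [if_neg h]
      exact contDiffAt_const
  have hder : HasFDerivAt F (fderiv ℂ F (s₀, a₀)) (s₀, a₀) :=
    (hFd.differentiableAt one_ne_zero).hasFDerivAt
  have hinv : (fderiv ℂ F (s₀, a₀) ∘L .inr ℂ ℂ ℂ).IsInvertible := by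
    apply inv_of_ne
    have h2 : HasDerivAt (fun x : ℂ => ((s₀, x) : ℂ × ℂ)) (0, 1) a₀ :=
      (hasDerivAt_const a₀ s₀).prodMk (hasDerivAt_id a₀)
    have h3 : HasDerivAt (fun x => F (s₀, x)) (fderiv ℂ F (s₀, a₀) (0, 1)) a₀ :=
      hder.comp_hasDerivAt a₀ h2
    have h4 : HasDerivAt (fun x => F (s₀, x)) ((Polynomial.derivative (A s₀).charpoly).eval a₀) a₀ := by
      rw [hF]
      exact (A s₀).charpoly.hasDerivAt a₀
    have h5 := h3.unique h4
    show fderiv ℂ F (s₀, a₀) (ContinuousLinearMap.inr ℂ ℂ ℂ 1) ≠ 0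
    rw [ContinuousLinearMap.inr_apply, h5]
    exact h1
  obtain ⟨a, ha⟩ : ∃ a, a = hFd.implicitFunction one_ne_zero hinv := ⟨_, rfl⟩
  have ha0 : a s₀ = a₀ := by
    rw [ha]
    exact hFd.implicitFunction_apply_self one_ne_zero hinv
  have ha1 : ∀ᶠ s in 𝓝 s₀, F (s, a s) = F (s₀, a₀) := by
    rw [ha]
    exact hFd.eventually_apply_implicitFunction one_ne_zero hinv
  have ha2 : ContDiffAt ℂ 1 a s₀ := by
    rw [ha]
    exact hFd.contDiffAt_implicitFunction one_ne_zero hinv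
  have ha3 : ∀ᶠ s in 𝓝 s₀, DifferentiableAt ℂ a s :=
    (ha2.eventually (by simp)).mono fun s hs => hs.differentiableAt one_ne_zero
  have hF0 : F (s₀, a₀) = 0 := by
    rw [hF]
    exact h0
  obtain ⟨ρ, hρ, hball⟩ := Metric.eventually_nhds_iff_ball.1
    ((ha1.and ha3).and (hΩ.mem_nhds h₀))
  refine ⟨ρ, hρ, fun s hs => (hball s hs).2, a, ha0, fun s hs => ⟨(hball s hs).1.2, ?_⟩⟩
  have h6 := (hball s hs).1.1
  rw [hF0, hF] at h6
  exact h6

end Pool.Agent.DST
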