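import Pool.Agent.DST.BulkDefs

/-!
# Project DST: equivariant genus-zero theory for the action of a torus `H = (ℂ^*)^m`
-/

open scoped BigOperators Topology
open Filter

namespace Pool.Agent.DST

open Pool.Agent.Helper18.Dub Pool.Agent.Helper7.DubStokes Pool.Agent.SHF

/-- No character `χ_i` of `H` takes a nonzero integral value at `y ∈ ℂ^m = Lie H`. -/
def IsRegular {ι : Type*} {m : ℕ} (χ : ι → Fin m → ℤ) (y : Fin m → ℂ) : Prop :=
  ∀ i (n : ℤ), n ≠ 0 → ∑ k, (χ i k : ℂ) * y k ≠ n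

/-- The value at `(λ_1, …, λ_m) = x` and `z` of a matrix of polynomials in `λ_1, …, λ_m, z`. -/
noncomputable def evH {N m : ℕ} (M : Matrix (Fin N) (Fin N) (MvPolynomial (Option (Fin m)) ℂ))
    (x : Fin m → ℂ) (z : ℂ) : Matrix (Fin N) (Fin N) ℂ :=
  M.map (MvPolynomial.eval fun o => o.elim z x)

/-- The restriction of a matrix of polynomials in `λ_1, …, λ_m, z` to the subgroup of `H` given by
the cocharacter `ξ`: `λ_k = ξ_k λ`. -/
noncomputable def restrH {N m : ℕ} (ξ : Fin m → ℤ)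
    (M : Matrix (Fin N) (Fin N) (MvPolynomial (Option (Fin m)) ℂ)) :
    Matrix (Fin N) (Fin N) (Polynomial (Polynomial ℂ)) :=
  M.map (MvPolynomial.aeval fun o => o.elim Polynomial.X fun k =>
    Polynomial.C (Polynomial.C (ξ k : ℂ) * Polynomial.X))

/-- Equivariant genus-zero theory, near a point `t ∈ H^2(X)`, of a Fano manifold `X` with an action
of a torus `H = (ℂ^*)^m` with `N = dim H^*(X)` isolated fixed points and a cocharacter `ξ` of `H`
on which `c_1(X)` has pairwise distinct weights. The numbers `pairT`, `invT` and the matrices formed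
from them are equivariant for `ξ : ℂ^* → H`, with equivariant parameter `λ`; the solutions `J` and
the shift operators `Sh` are equivariant for `H`. -/
structure TorusBulkGW {N : ℕ} (X : FanoGW (Fin N)) (t : Fin N → ℂ) extends EquivGW X where
  /-- `∫_0 φ_i = 0` -/
  period_zero : ∀ i, X.period X.zero i = 0
  /-- divisor axiom -/
  divisorT : ∀ β s i, β ≠ X.zero → 3 ≤ Multiset.card s → X.deg i = 1 →
    invT β (i ::ₘ s) = Polynomial.C (X.period β i) * invT β s
  degree_zeroT : ∀ s, 4 ≤ Multiset.card s → invT X.zero s = 0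
  /-- WDVV equations, with the class `β` weighted by `e^{∫_β t'}`, `t' ∈ H^2(X)` -/
  wdvvAt : ∀ t' : Fin N → ℂ, (∀ i, t' i ≠ 0 → X.deg i = 1) → ∀ a b c d,
    ∑ e, ∑ f, MvPowerSeries.C (pairT⁻¹ e f) * serAt toEquivData t' {a, b, e} *
        serAt toEquivData t' {f, c, d} =
      ∑ e, ∑ f, MvPowerSeries.C (pairT⁻¹ e f) * serAt toEquivData t' {b, c, e} *
        serAt toEquivData t' {f, a, d}
  /-- the rank of `H` -/
  m : ℕ
  /-- the cocharacter of `H` -/
  ξ : Fin m → ℤ
  /-- the `k`-th tangent weight of `H` at the fixed point `p` is a multiple of the primitive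
  character `dir p k`, and `wt p k` is its value on `ξ` -/
  dir : Fin N → Fin X.dim → Fin m → ℤ
  dir_prim : ∀ p k, ∃ μ : Fin m → ℤ, ∑ i, dir p k i * μ i = 1
  wt : Fin N → Fin X.dim → ℤ
  wt_ne : ∀ p k, wt p k ≠ 0
  wt_dvd : ∀ p k, (∑ i, dir p k i * ξ i) ∣ wt p k
  /-- the fixed points are numbered by increasing weight of `c_1(X)` -/
  strict : StrictMono fun p => ∑ k, wt p k
  /-- the restriction of `φ_a` to the fixed point `p` is `res p a λ^{deg a}` -/
  res : Fin N → Fin N → ℂ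
  isRestriction : ∀ p, toEquivData.IsRestriction
    (fun a => Polynomial.C (res p a) * Polynomial.X ^ X.deg a)
  /-- Atiyah–Bott localisation -/
  localization : ∀ a b, (pairT a b).eval 1 = ∑ p, res p a * res p b / ∏ k, (wt p k : ℂ)
  /-- `c_1^T(X) = ∑_a chern_a φ_a + κ λ` -/
  κ : ℂ
  chern_res : ∀ p, ∑ a, X.chern a * res p a + κ = ∑ k, (wt p k : ℂ)
  /-- `B i p` is the restriction to `p` of the `i`-th element of a basis of `K_T(X)` over
  `ℤ[q^{±1}]` -/
  B : Matrix (Fin N) (Fin N) (LaurentPolynomial ℤ)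
  B_tri : ∀ i p, p < i → B i p = 0
  B_diag : ∀ p, B p p = ∏ k, if 0 < wt p k then 1 - LaurentPolynomial.T (wt p k) else 1
  /-- the equivariant Euler pairing `∑ (-1)^k ch_T Ext^k` of the basis -/
  χ : Matrix (Fin N) (Fin N) (LaurentPolynomial ℤ)
  χ_unit : IsUnit χ.det
  χ_loc : ∀ y : ℂ, y.im ≠ 0 → ∀ i j, evZ y (χ i j) =
    ∑ p, evZ (-y) (B i p) * evZ y (B j p) /
      ∏ k, (1 - Complex.exp (-(2 * Real.pi * Complex.I * y * wt p k)))
  /-- the Todd class and the Chern characters of the non-equivariant basis -/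
  Td : Fin N → ℂ
  todd : IsToddLike X Td
  ch : Fin N → Fin N → ℂ
  hrr : ∀ i j, eulerForm X Td (ch i) (ch j) = evZ 0 (χ i j)
  /-- the shift operator `Sh μ (λ, z)` at `t` of the cocharacter `μ` of `H`, from `λ - μ z` to `λ`,
  for solutions of `z ∂_a J = φ_a • J` -/
  Sh : (Fin m → ℤ) → Matrix (Fin N) (Fin N) (MvPolynomial (Option (Fin m)) ℂ)
  isUnit_Sh : ∀ μ, IsUnit (Sh μ).det
  /-- the shift operator of `ξ` near `t` -/
  Sb : Matrix (Fin N) (Fin N) (MvPowerSeries (Fin N) (Polynomial (Polynomial ℂ)))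
  Sb_zero : ∀ i j, MvPowerSeries.constantCoeff (Sb i j) = restrH ξ (Sh ξ) i j
  /-- it intertwines the connections `z ∂_a - φ_a •` at `λ - z` and `λ` -/
  intertwine : ∀ a,
    (MvPowerSeries.C (Polynomial.X : Polynomial (Polynomial ℂ)) :
        MvPowerSeries (Fin N) (Polynomial (Polynomial ℂ))) •
        Sb.map (MvPowerSeries.pderiv (Polynomial (Polynomial ℂ)) a) =
      (mulAt toEquivData t a).map (MvPowerSeries.map Polynomial.C) * Sb -
        Sb * (mulAt toEquivData t a).map (MvPowerSeries.map (shiftHom 1))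
  /-- the columns of `J(y, w)`, `z = e^w`, are the solutions attached to the basis of `K_H(X)`, at
  the value `(λ_1, …, λ_m) = y z` of the equivariant parameters -/
  J : (Fin m → ℂ) → ℂ → Matrix (Fin N) (Fin N) ℂ
  /-- `J` is regular unless a character `dir p k` takes a nonzero integral value at `y` (by
  localisation, if the tangent weights are the characters `dir p k`) -/
  J_reg : ∀ y, IsRegular (fun i : Fin N × Fin X.dim => dir i.1 i.2) y → ∀ w i j,
    DifferentiableAt ℂ (fun q : (Fin m → ℂ) × ℂ => J q.1 q.2 i j) (y, w)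
  J_shift : ∀ (μ : Fin m → ℤ) y w, IsRegular (fun i : Fin N × Fin X.dim => dir i.1 i.2) y →
    IsRegular (fun i : Fin N × Fin X.dim => dir i.1 i.2) (fun k => y k - μ k) →
    J y w = evH (Sh μ) (fun k => y k * Complex.exp w) (Complex.exp w) * J (fun k => y k - μ k) w
  J_ode : ∀ y : ℂ, y.im ≠ 0 → ∀ w i j, HasDerivAt (fun w => J (fun k => y * ξ k) w i j)
    (((theta X - Complex.exp (-w) • evm (chernT toEquivData t κ) (y * Complex.exp w)) *
      J (fun k => y * ξ k) w) i j) w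
  /-- `J = z^θ 𝓜(y, z) z^{-c_1^T} e^{iπ c_1^T} Γ̂ Ch` at `y ξ`, `y ∉ ℝ`, with `𝓜 → 1` as `z → ∞` -/
  cal : ℂ → ℂ → Matrix (Fin N) (Fin N) ℂ
  cal_lim : ∀ y : ℂ, y.im ≠ 0 → ∀ i j,
    Tendsto (fun z => cal y z i j) (Bornology.cobounded ℂ) (𝓝 ((1 : Matrix _ _ ℂ) i j))
  G : ℂ → Matrix (Fin N) (Fin N) ℂ
  G_res : ∀ y : ℂ, y.im ≠ 0 → ∀ p i, ∑ a, res p a * y ^ X.deg a * G y a i =
    Complex.exp ((∑ a, t a * res p a + Real.pi * Complex.I * ∑ k, (wt p k : ℂ)) * y) *
      evZ y (B i p) * ∏ k, Complex.Gamma (1 - wt p k * y)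
  J_gamma : ∀ y : ℂ, y.im ≠ 0 → ∀ w, J (fun k => y * ξ k) w =
    NormedSpace.exp (w • theta X) * cal y (Complex.exp w) *
      NormedSpace.exp (-w • evm (cupChernT toEquivData κ) y) * G y

/-- `Y` is the continuation to the point `p` of the `Γ`-solutions `J(0, ·)` at the point `t`, by
parallel transport along `t + s (p - t)`, `|s| ≤ 1`, for the flat connection `z ∂_a - φ_a •`,
`z = e^w`. -/
def IsContinuationH {N : ℕ} {X : FanoGW (Fin N)} {t : Fin N → ℂ} (T : TorusBulkGW X t)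
    (p : Fin N → ℂ) (Y : ℂ → Matrix (Fin N) (Fin N) ℂ) : Prop :=
  ∃ F : ℂ → ℂ → Matrix (Fin N) (Fin N) ℂ, (∀ w, F 0 w = T.J 0 w) ∧ (∀ w, F 1 w = Y w) ∧
    ∀ s : ℂ, ‖s‖ ≤ 1 → ∀ w i j, HasDerivAt (fun s => F s w i j) (Complex.exp (-w) *
      (prodMat X (fun a => t a + s * (p a - t a)) (fun a => p a - t a) * F s w) i j) s

end Pool.Agent.DST
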