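import Pool.Agent.DST.TE5

/-!
Extension across codimension two for families with shift symmetries (Hartogs).

`J(y,w)` is a matrix function of `y` in `ℂ^m` and `w`, regular where no tangent form `χ_k(y)` is
an integer, and where no form of the finite list `χ, a` takes a nonzero integer value.  With
polynomial shift operators `S_μ` for all cocharacters `μ`, its restriction to a line `y ξ`
extends to an entire function.
-/

set_option autoImplicit false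

namespace Pool.Agent.DST.TE

open Metric Filter Topology MeasureTheory

/-- Main theorem of the file. -/
theorem torus_ext {m : ℕ} {K I N : Type*} [Finite K] [Finite I] [Fintype N]
    (χ : K → Fin m → ℤ) (a : I → Fin m → ℤ) (ξ : Fin m → ℤ)
    (hprim : ∀ k, ∀ n : ℤ, ∃ μ : Fin m → ℤ, ∑ i, χ k i * μ i = n)
    (hξ : ∀ k, ∑ i, χ k i * ξ i ≠ 0)
    (J : (Fin m → ℂ) → ℂ → Matrix N N ℂ)
    (S : (Fin m → ℤ) → (Fin m → ℂ) → ℂ → Matrix N N ℂ)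
    (hS : ∀ μ p q, Differentiable ℂ fun x : (Fin m → ℂ) × ℂ => S μ x.1 x.2 p q)
    (hJ1 : ∀ y, (∀ k, ∀ n : ℤ, pr (χ k) y ≠ n) → ∀ w p q,
      DifferentiableAt ℂ (fun x : (Fin m → ℂ) × ℂ => J x.1 x.2 p q) (y, w))
    (hJ2 : ∀ y, (∀ k, ∀ n : ℤ, n ≠ 0 → pr (χ k) y ≠ n) →
      (∀ l, ∀ n : ℤ, n ≠ 0 → pr (a l) y ≠ n) → ∀ w p q,
      DifferentiableAt ℂ (fun x : (Fin m → ℂ) × ℂ => J x.1 x.2 p q) (y, w))
    (hsh : ∀ (μ : Fin m → ℤ) (y : Fin m → ℂ), (∀ k, ∀ n : ℤ, pr (χ k) y ≠ n) →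
      (∀ l, ∀ n : ℤ, n ≠ 0 → pr (a l) y ≠ n) → (∀ l, ∀ n : ℤ, n ≠ 0 → pr (a l) (y - cc μ) ≠ n) →
      ∀ w, J y w = S μ y w * J (y - cc μ) w) :
    ∃ Jt : ℂ → ℂ → Matrix N N ℂ,
      (∀ p q, Differentiable ℂ fun x : ℂ × ℂ => Jt x.1 x.2 p q) ∧
      ∀ y, (∀ k, ∀ n : ℤ, n ≠ 0 → y * ((∑ i, χ k i * ξ i : ℤ) : ℂ) ≠ n) →
        ∀ w, Jt y w = J (fun i => y * (ξ i : ℂ)) w := by
  obtain ⟨Jt, h1, h2⟩ := TD.ext (⟨χ, a, ξ, J, S, hprim, hξ, hS, hJ1, hJ2, hsh⟩ : TD m K I N)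
  refine ⟨Jt, h1, fun y hy w => ?_⟩
  have h3 : ∀ k, ∀ n : ℤ, n ≠ 0 → y * pr (χ k) (cc ξ) ≠ n := by
    intro k n hn
    rw [pr_cc]
    exact hy k n hn
  rw [h2 y h3 w]
  congr 1

end Pool.Agent.DST.TE
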