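import Mathlib

/-!
# DST-VConn: an open convex set of `ℂ` minus a countable set is connected

Only Mathlib.

Let `Z` be countable, `a, b` in the open convex set `B` and not in `Z`, `a ≠ b`. Consider the points
`c_τ = (a + b)/2 + τ y`, `τ ∈ ℝ`, `y` linearly independent of `b - a`. The
segments `[a, c_τ]` for different `τ` only meet in `a`, so only countably many of them meet `Z`;
the same for `[c_τ, b]`. So for a dense set of `τ` both segments are in `B \ Z`, and `c_τ` is in `B` for small `τ`.
This is the argument of `Set.Countable.isPathConnected_compl_of_one_lt_rank` in Mathlib.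
-/

open scoped BigOperators Topology Convex
open Filter

namespace Pool.Agent.DST

open Set in
private theorem joined_aux {B : Set ℂ} (hB : IsOpen B) (hc : Convex ℝ B) {s : Set ℂ}
    (hs : s.Countable) {a b : ℂ} (ha : a ∈ B \ s) (hb : b ∈ B \ s) : JoinedIn (B \ s) a b := by
  rcases eq_or_ne a b with rfl | hab
  · exact JoinedIn.refl ha
  have h : 1 < Module.rank ℝ ℂ := by
    rw [Complex.rank_real_complex]
    exact_mod_cast (by norm_num : (1 : ℕ) < 2)
  let c := (2 : ℝ)⁻¹ • (a + b)
  let x := (2 : ℝ)⁻¹ • (b - a)
  have Ia : c - x = a := by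
    simp only [c, x]
    module
  have Ib : c + x = b := by
    simp only [c, x]
    module
  have x_ne_zero : x ≠ 0 := by simpa [x] using sub_ne_zero.2 hab.symm
  obtain ⟨y, hy⟩ : ∃ y, LinearIndependent ℝ ![x, y] :=
    exists_linearIndependent_pair_of_one_lt_rank h x_ne_zero
  have A : Set.Countable {t : ℝ | ([c + x -[ℝ] c + t • y] ∩ s).Nonempty} := by
    apply countable_ofPred_nonempty_of_disjoint _ (fun t ↦ inter_subset_right) hs
    intro t t' htt'
    apply disjoint_iff_inter_eq_empty.2
    have N : {c + x} ∩ s = ∅ := by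
      simpa only [singleton_inter_eq_empty, mem_compl_iff, Ib] using hb.2
    rw [inter_assoc, inter_comm s, inter_assoc, inter_self, ← inter_assoc, ← subset_empty_iff, ← N]
    apply inter_subset_inter_left
    apply Eq.subset
    apply segment_inter_eq_endpoint_of_linearIndependent_of_ne hy htt'.symm
  have B' : Set.Countable {t : ℝ | ([c - x -[ℝ] c + t • y] ∩ s).Nonempty} := by
    apply countable_ofPred_nonempty_of_disjoint _ (fun t ↦ inter_subset_right) hs
    intro t t' htt'
    apply disjoint_iff_inter_eq_empty.2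
    have N : {c - x} ∩ s = ∅ := by
      simpa only [singleton_inter_eq_empty, mem_compl_iff, Ia] using ha.2
    rw [inter_assoc, inter_comm s, inter_assoc, inter_self, ← inter_assoc, ← subset_empty_iff, ← N]
    apply inter_subset_inter_left
    rw [sub_eq_add_neg _ x]
    apply Eq.subset
    apply segment_inter_eq_endpoint_of_linearIndependent_of_ne _ htt'.symm
    convert! hy.units_smul ![-1, 1]
    simp [← List.ofFn_inj]
  have hcB : c ∈ B := by
    have := hc ha.1 hb.1 (a := (2 : ℝ)⁻¹) (b := (2 : ℝ)⁻¹) (by norm_num) (by norm_num) (by norm_num)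
    simpa only [c, smul_add] using this
  have hO : IsOpen {t : ℝ | c + t • y ∈ B} := by
    apply hB.preimage
    fun_prop
  have hO0 : (0 : ℝ) ∈ {t : ℝ | c + t • y ∈ B} := by
    show c + (0 : ℝ) • y ∈ B
    simpa using hcB
  obtain ⟨t, ht, htB⟩ := ((A.union B').dense_compl ℝ).exists_mem_open hO ⟨0, hO0⟩
  let z := c + t • y
  simp only [compl_union, mem_inter_iff, mem_compl_iff, mem_ofPred_eq, not_nonempty_iff_eq_empty]
    at ht
  have hzB : z ∈ B := htB
  have JA : JoinedIn (B \ s) a z := by
    apply JoinedIn.of_segment_subset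
    rw [subset_sdiff, disjoint_iff_inter_eq_empty]
    refine ⟨hc.segment_subset ha.1 hzB, ?_⟩
    convert! ht.2
    exact Ia.symm
  have JB : JoinedIn (B \ s) b z := by
    apply JoinedIn.of_segment_subset
    rw [subset_sdiff, disjoint_iff_inter_eq_empty]
    refine ⟨hc.segment_subset hb.1 hzB, ?_⟩
    convert! ht.1
    exact Ib.symm
  exact JA.trans JB.symm

theorem convex_diff_countable {B : Set ℂ} (hB : IsOpen B) (hc : Convex ℝ B) {Z : Set ℂ}
    (hZ : Z.Countable) : IsPreconnected (B \ Z) := by
  rcases (B \ Z).eq_empty_or_nonempty with h | ⟨a, ha⟩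
  · rw [h]
    exact isPreconnected_empty
  · exact (IsPathConnected.isConnected ⟨a, ha, fun {b} hb => joined_aux hB hc hZ ha hb⟩).isPreconnected

end Pool.Agent.DST
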