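import Pool.Agent.DST.QDef
import Pool.Agent.DST.BulkDefs

/-!
# Project DST, block V: deformation to general points of big quantum cohomology (definitions)
-/

open scoped BigOperators Topology
open Filter

namespace Pool.Agent.DST

open Pool.Agent.Helper18.Dub Pool.Agent.Helper7.DubStokes Pool.Agent.SHF

section ray

/-- Absolute convergence on `|s| ≤ R`, `|λ| ≤ r`. -/
def PConv (R r : ℝ) (f : PowerSeries (Polynomial ℂ)) : Prop :=
  Summable fun p : ℕ × ℕ => ‖(PowerSeries.coeff p.1 f).coeff p.2‖ * R ^ p.1 * r ^ p.2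

/-- The value at `(s, λ)`. -/
noncomputable def evs (s x : ℂ) (f : PowerSeries (Polynomial ℂ)) : ℂ :=
  ∑' n, s ^ n * (PowerSeries.coeff n f).eval x

/-- The value at `(s, λ, z)`. -/
noncomputable def evs₂ (s x z : ℂ) (f : PowerSeries (Polynomial (Polynomial ℂ))) : ℂ :=
  ∑' n, s ^ n * (PowerSeries.coeff n f).evalEval x z

/-- `λ ∂_λ` -/
noncomputable def lamD (f : PowerSeries (Polynomial ℂ)) : PowerSeries (Polynomial ℂ) :=
  PowerSeries.mk fun n => Polynomial.X * Polynomial.derivative (PowerSeries.coeff n f)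

/-- A quantum system at the base point together with big quantum cohomology along the ray
`t + s v`: `M` is multiplication by `v`, `C` by the Euler field, `S` the shift operator. -/
structure Ray (N : ℕ) where
  Q : QSys N
  Λ_univ : Q.Λ = Set.univ
  R : ℝ
  r : ℝ
  hR : 1 < R
  hr : 0 < r
  pT : Matrix (Fin N) (Fin N) (Polynomial ℂ)
  g_eq : ∀ x, Q.g x = evm pT x
  M : Matrix (Fin N) (Fin N) (PowerSeries (Polynomial ℂ))
  C : Matrix (Fin N) (Fin N) (PowerSeries (Polynomial ℂ))
  S : Matrix (Fin N) (Fin N) (PowerSeries (Polynomial (Polynomial ℂ)))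
  M_conv : ∀ i j, PConv R r (M i j)
  C_conv : ∀ i j, PConv R r (C i j)
  C_zero : ∀ x i j, Q.C x i j = (PowerSeries.constantCoeff (C i j)).eval x
  S_zero : ∀ x z i j, Q.S x z i j = (PowerSeries.constantCoeff (S i j)).evalEval x z
  S_unit : IsUnit S.det
  comm : M * C = C * M
  selfM : (pT.map PowerSeries.C * M).transpose = pT.map PowerSeries.C * M
  selfC : (pT.map PowerSeries.C * C).transpose = pT.map PowerSeries.C * C
  eul : ∀ i j, PowerSeries.derivative (Polynomial ℂ) (C i j) =
    PowerSeries.C (Polynomial.C (Q.θ i - Q.θ j)) * M i j + M i j - lamD (M i j)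
  inter : (PowerSeries.C (Polynomial.X : Polynomial (Polynomial ℂ))) •
      S.map (PowerSeries.derivative (Polynomial (Polynomial ℂ))) =
    M.map (PowerSeries.map Polynomial.C) * S - S * M.map (PowerSeries.map (shiftHom 1))

namespace Ray

variable {N : ℕ} (𝓡 : Ray N)

/-- multiplication by `v` at `(s, λ)` -/
noncomputable def Mv (s x : ℂ) : Matrix (Fin N) (Fin N) ℂ := 𝓡.M.map (evs s x)

/-- multiplication by the Euler field at `(s, λ)` -/
noncomputable def Cv (s x : ℂ) : Matrix (Fin N) (Fin N) ℂ := 𝓡.C.map (evs s x)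

/-- the shift operator at `(s, λ, z)` -/
noncomputable def Sv (s x z : ℂ) : Matrix (Fin N) (Fin N) ℂ := 𝓡.S.map (evs₂ s x z)

/-- the coefficient of `s^n` of `M` at `λ = x` -/
noncomputable def Mc (x : ℂ) (n : ℕ) : Matrix (Fin N) (Fin N) ℂ :=
  𝓡.M.map fun f => (PowerSeries.coeff n f).eval x

/-- coefficients of the fundamental solution of `z dW/ds = M W`, `W(0) = 1` -/
noncomputable def Wc (x z : ℂ) : ℕ → Matrix (Fin N) (Fin N) ℂ
  | 0 => 1
  | n + 1 => (((n : ℂ) + 1) * z)⁻¹ • ∑ k : Fin (n + 1), 𝓡.Mc x k * Wc x z (n - k)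
  decreasing_by omega

/-- the fundamental solution of `z dW/ds = M W`, `W(0) = 1` -/
noncomputable def W (s x z : ℂ) : Matrix (Fin N) (Fin N) ℂ :=
  Matrix.of fun i j => ∑' n, s ^ n * 𝓡.Wc x z n i j

/-- The flat sections at the point `t + s v`. -/
noncomputable def J (s y w : ℂ) : Matrix (Fin N) (Fin N) ℂ :=
  𝓡.W s (y * Complex.exp w) (Complex.exp w) * 𝓡.Q.J y w

end Ray

end ray

end Pool.Agent.DST
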