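import Pool.Agent.DST.VQ
import Pool.Agent.DST.VConn
import Pool.Agent.DST.FFam

/-!
# DST-VFam: the family of difference systems along a complex line in `(t, l)`

`l(s) = l₀ + s (l₁ - l₀)`, point `t + s v`, `s` in a ball of radius `ρ > 1`, `ρ < R`, on which
`‖exp (l(s))‖ < r`. The fundamental solutions at different `s` are compared by Gronwall's inequality.
-/

open scoped BigOperators Topology
open Filter

namespace Pool.Agent.DST

variable {N : ℕ}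

section
open scoped Matrix.Norms.Operator

private theorem vf_exp {M : ℂ → Matrix (Fin N) (Fin N) ℂ} {l : ℂ}
    (hM : ∀ i j, DifferentiableAt ℂ (fun l => M l i j) l) (i j : Fin N) :
    DifferentiableAt ℂ (fun l => (NormedSpace.exp (M l)) i j) l := by
  have h1 : DifferentiableAt ℂ M l :=
    differentiableAt_pi.2 fun i => differentiableAt_pi.2 fun j => hM i j
  have h2 : DifferentiableAt ℂ (NormedSpace.exp : Matrix (Fin N) (Fin N) ℂ → _) (M l) :=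
    (NormedSpace.exp_analytic (𝕂 := ℂ) (M l)).differentiableAt
  have h3 : DifferentiableAt ℂ (fun l => NormedSpace.exp (M l)) l :=
    DifferentiableAt.comp l h2 h1
  exact differentiableAt_pi.1 (differentiableAt_pi.1 h3 i) j

end

/-- derivative along a complex line from the partial derivatives -/
private theorem vf_line {f : ℂ × ℂ → ℂ} {s w a b h c : ℂ} (ζ : ℂ)
    (hf : DifferentiableAt ℂ f (s + ζ * h, w + ζ * c))
    (ha : HasDerivAt (fun s => f (s, w + ζ * c)) a (s + ζ * h))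
    (hb : HasDerivAt (fun w => f (s + ζ * h, w)) b (w + ζ * c)) :
    HasDerivAt (fun ζ => f (s + ζ * h, w + ζ * c)) (h * a + c * b) ζ := by
  have h1 : HasDerivAt (fun ζ : ℂ => s + ζ * h) h ζ := by
    simpa using ((hasDerivAt_id ζ).mul_const h).const_add s
  have h2 : HasDerivAt (fun ζ : ℂ => w + ζ * c) c ζ := by
    simpa using ((hasDerivAt_id ζ).mul_const c).const_add w
  have h3 : HasDerivAt (fun ζ : ℂ => (s + ζ * h, w + ζ * c)) (h, c) ζ := h1.prodMk h2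
  have hF := hf.hasFDerivAt
  have h4 := hF.comp_hasDerivAt ζ h3
  have e1 : fderiv ℂ f (s + ζ * h, w + ζ * c) (1, 0) = a := by
    have h5 : HasDerivAt (fun s : ℂ => (s, w + ζ * c)) (1, 0) (s + ζ * h) :=
      (hasDerivAt_id _).prodMk (hasDerivAt_const _ _)
    exact (hF.comp_hasDerivAt (s + ζ * h) h5).unique ha
  have e2 : fderiv ℂ f (s + ζ * h, w + ζ * c) (0, 1) = b := by
    have h5 : HasDerivAt (fun w : ℂ => (s + ζ * h, w)) (0, 1) (w + ζ * c) :=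
      (hasDerivAt_const _ _).prodMk (hasDerivAt_id _)
    exact (hF.comp_hasDerivAt (w + ζ * c) h5).unique hb
  have e3 : fderiv ℂ f (s + ζ * h, w + ζ * c) (h, c) = h * a + c * b := by
    have h6 : ((h, c) : ℂ × ℂ) = h • (1, 0) + c • (0, 1) := by simp
    rw [h6, map_add, map_smul, map_smul, e1, e2, smul_eq_mul, smul_eq_mul]
  rw [← e3]
  exact h4

private theorem vf_diffJ (𝓡 : Ray N) {s y w : ℂ} (hs : ‖s‖ < 𝓡.R) (hx : ‖y * Complex.exp w‖ < 𝓡.r)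
    (i j : Fin N) : DifferentiableAt ℂ (fun p : ℂ × ℂ => 𝓡.J p.1 y p.2 i j) (s, w) := by
  have hΛ : y * Complex.exp w ∈ 𝓡.Q.Λ := by
    rw [𝓡.Λ_univ]
    exact Set.mem_univ _
  have h1 : ∀ i j, DifferentiableAt ℂ
      (fun p : ℂ × ℂ => 𝓡.W p.1 (y * Complex.exp p.2) (Complex.exp p.2) i j) (s, w) := by
    intro i j
    have h2 := 𝓡.W_diff hs hx (Complex.exp_ne_zero w) i j
    have h3 : DifferentiableAt ℂ (fun p : ℂ × ℂ => (p.1, y * Complex.exp p.2, Complex.exp p.2)) (s, w) := by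
      fun_prop
    exact DifferentiableAt.comp (g := fun p : ℂ × ℂ × ℂ => 𝓡.W p.1 p.2.1 p.2.2 i j)
      (f := fun p : ℂ × ℂ => (p.1, y * Complex.exp p.2, Complex.exp p.2)) (s, w) h2 h3
  have h4 : ∀ i j, DifferentiableAt ℂ (fun p : ℂ × ℂ => 𝓡.Q.J y p.2 i j) (s, w) := by
    intro i j
    have h5 := 𝓡.Q.J_hol y w hΛ i j
    have h6 : DifferentiableAt ℂ (fun p : ℂ × ℂ => (y, p.2)) (s, w) := by fun_prop
    exact DifferentiableAt.comp (g := fun p : ℂ × ℂ => 𝓡.Q.J p.1 p.2 i j)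
      (f := fun p : ℂ × ℂ => (y, p.2)) (s, w) h5 h6
  exact diffAt_mul (A := fun p : ℂ × ℂ => 𝓡.W p.1 (y * Complex.exp p.2) (Complex.exp p.2))
    (B := fun p : ℂ × ℂ => 𝓡.Q.J y p.2) h1 h4 i j

private theorem vf_ds (𝓡 : Ray N) {s y w : ℂ} (hs : ‖s‖ < 𝓡.R) (hx : ‖y * Complex.exp w‖ < 𝓡.r)
    (i j : Fin N) : HasDerivAt (fun s => 𝓡.J s y w i j)
      (((Complex.exp (-w) • 𝓡.Mv s (y * Complex.exp w)) * 𝓡.J s y w) i j) s := by
  have h1 : ∀ k, HasDerivAt (fun s => 𝓡.W s (y * Complex.exp w) (Complex.exp w) i k * 𝓡.Q.J y w k j)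
      (((Complex.exp w)⁻¹ • (𝓡.Mv s (y * Complex.exp w) * 𝓡.W s (y * Complex.exp w) (Complex.exp w))) i k *
        𝓡.Q.J y w k j) s := fun k =>
    (𝓡.W_ode hs hx (Complex.exp_ne_zero w) i k).mul_const _
  have h2 : HasDerivAt (fun s => ∑ k, 𝓡.W s (y * Complex.exp w) (Complex.exp w) i k * 𝓡.Q.J y w k j)
      (∑ k, ((Complex.exp w)⁻¹ • (𝓡.Mv s (y * Complex.exp w) *
        𝓡.W s (y * Complex.exp w) (Complex.exp w))) i k * 𝓡.Q.J y w k j) s :=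
    HasDerivAt.fun_sum fun k _ => h1 k
  have h3 : ((Complex.exp (-w) • 𝓡.Mv s (y * Complex.exp w)) * 𝓡.J s y w) i j =
      ∑ k, ((Complex.exp w)⁻¹ • (𝓡.Mv s (y * Complex.exp w) *
        𝓡.W s (y * Complex.exp w) (Complex.exp w))) i k * 𝓡.Q.J y w k j := by
    rw [← Matrix.mul_apply, Ray.J, Complex.exp_neg, Matrix.smul_mul, Matrix.smul_mul, Matrix.mul_assoc]
  rw [h3]
  exact h2

theorem Ray.fam (𝓡 : Ray N) {l₀ l₁ : ℂ} {ρ : ℝ} (hρ1 : 1 < ρ) (hρ : ρ < 𝓡.R)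
    (hl : ∀ s : ℂ, ‖s‖ < ρ → ‖Complex.exp (l₀ + s * (l₁ - l₀))‖ < 𝓡.r) :
    ∃ (Q : ℂ → QSys N) (D : ℂ → DSys N),
      (∀ s : ℂ, ‖s‖ < ρ → (Q s).Λ = Metric.ball 0 𝓡.r ∧ (Q s).θ = 𝓡.Q.θ ∧ (Q s).C = 𝓡.Cv s ∧
        (Q s).g = 𝓡.Q.g ∧ (Q s).S = 𝓡.Sv s ∧ (Q s).J = 𝓡.J s ∧ (Q s).χ = 𝓡.Q.χ) ∧
      (∀ s : ℂ, ‖s‖ < ρ → (D s).F = (Q s).f (l₀ + s * (l₁ - l₀)) ∧
        (D s).A 0 = (Q s).A0 (l₀ + s * (l₁ - l₀)) ∧
        (D s).g = (Q s).g (Complex.exp (l₀ + s * (l₁ - l₀))) ∧ (D s).χ = (Q s).χ) ∧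
      IsFam (Metric.ball 0 ρ) D 𝓡.Q.χ := by
  have hex : ∀ s : ℂ, ∃ (Q : QSys N) (D : DSys N), ‖s‖ < ρ →
      (Q.Λ = Metric.ball 0 𝓡.r ∧ Q.θ = 𝓡.Q.θ ∧ Q.C = 𝓡.Cv s ∧
        Q.g = 𝓡.Q.g ∧ Q.S = 𝓡.Sv s ∧ Q.J = 𝓡.J s ∧ Q.χ = 𝓡.Q.χ) ∧
      (D.F = Q.f (l₀ + s * (l₁ - l₀)) ∧ D.A 0 = Q.A0 (l₀ + s * (l₁ - l₀)) ∧
        D.g = Q.g (Complex.exp (l₀ + s * (l₁ - l₀))) ∧ D.χ = Q.χ) := by
    intro s
    by_cases hs : ‖s‖ < ρ
    · obtain ⟨Q, hQ⟩ := 𝓡.exists_q (hs.trans hρ)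
      have hmem : Complex.exp (l₀ + s * (l₁ - l₀)) ∈ Q.Λ := by
        rw [hQ.1, Metric.mem_ball, dist_zero_right]
        exact hl s hs
      obtain ⟨D, hD⟩ := exists_dsys Q hmem
      exact ⟨Q, D, fun _ => ⟨hQ, hD⟩⟩
    · have h0 : ‖(0 : ℂ)‖ < 𝓡.R := by
        rw [norm_zero]
        linarith [𝓡.hR]
      obtain ⟨Q, hQ⟩ := 𝓡.exists_q h0
      have hmem : Complex.exp (l₀ + 0 * (l₁ - l₀)) ∈ Q.Λ := by
        rw [hQ.1, Metric.mem_ball, dist_zero_right]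
        exact hl 0 (by rw [norm_zero]; linarith)
      obtain ⟨D, _⟩ := exists_dsys Q hmem
      exact ⟨Q, D, fun h => absurd h hs⟩
  choose Q D hQD using hex
  have hR0 : 0 ≤ 𝓡.R := by linarith [𝓡.hR]
  have hr0 : 0 ≤ 𝓡.r := 𝓡.hr.le
  refine ⟨Q, D, fun s hs => (hQD s hs).1, fun s hs => (hQD s hs).2, ?_⟩
  refine
    { open_Ω := Metric.isOpen_ball
      conn := fun Z hZ => convex_diff_countable Metric.isOpen_ball (convex_ball 0 ρ) hZ
      χ_eq := ?_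
      χ_int := 𝓡.Q.χ_int
      A_hol := ?_
      comp := ?_ }
  · intro s hs
    rw [Metric.mem_ball, dist_zero_right] at hs
    rw [(hQD s hs).2.2.2.2, (hQD s hs).1.2.2.2.2.2.2]
  · -- holomorphic leading term
    intro s hs i j
    have hs' : ‖s‖ < ρ := by rwa [Metric.mem_ball, dist_zero_right] at hs
    have hsR : ‖s‖ < 𝓡.R := hs'.trans hρ
    have hxr := hl s hs'
    have hlin : DifferentiableAt ℂ (fun s : ℂ => l₀ + s * (l₁ - l₀)) s := by fun_prop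
    have hS : ∀ i j, DifferentiableAt ℂ
        (fun s : ℂ => 𝓡.Sv s (Complex.exp (l₀ + s * (l₁ - l₀))) 0 i j) s := by
      intro i j
      have h1 := 𝓡.Sv_diff (z := 0) hsR hxr (by rw [sub_zero]; exact hxr) i j
      have h2 : DifferentiableAt ℂ (fun s : ℂ => (s, Complex.exp (l₀ + s * (l₁ - l₀)), (0 : ℂ))) s := by
        fun_prop
      exact DifferentiableAt.comp (g := fun p : ℂ × ℂ × ℂ => 𝓡.Sv p.1 p.2.1 p.2.2 i j)
        (f := fun s : ℂ => (s, Complex.exp (l₀ + s * (l₁ - l₀)), (0 : ℂ))) s h1 h2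
    have hC : ∀ i j, DifferentiableAt ℂ
        (fun s : ℂ => 𝓡.Cv s (Complex.exp (l₀ + s * (l₁ - l₀))) i j) s := by
      intro i j
      have h1 := evs_diff hR0 hr0 (𝓡.C_conv i j) hsR hxr
      have h2 : DifferentiableAt ℂ (fun s : ℂ => (s, Complex.exp (l₀ + s * (l₁ - l₀)))) s := by
        fun_prop
      exact DifferentiableAt.comp (g := fun p : ℂ × ℂ => evs p.1 p.2 (𝓡.C i j))
        (f := fun s : ℂ => (s, Complex.exp (l₀ + s * (l₁ - l₀)))) s h1 h2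
    have hE : ∀ i j, DifferentiableAt ℂ (fun s : ℂ =>
        (Complex.exp (-(l₀ + s * (l₁ - l₀))) • 𝓡.Cv s (Complex.exp (l₀ + s * (l₁ - l₀)))) i j) s := by
      intro i j
      have h3 : (fun s : ℂ =>
          (Complex.exp (-(l₀ + s * (l₁ - l₀))) • 𝓡.Cv s (Complex.exp (l₀ + s * (l₁ - l₀)))) i j) =
          fun s : ℂ => Complex.exp (-(l₀ + s * (l₁ - l₀))) *
            𝓡.Cv s (Complex.exp (l₀ + s * (l₁ - l₀))) i j := by
        funext s
        simp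
      rw [h3]
      have h4 : DifferentiableAt ℂ (fun s : ℂ => Complex.exp (-(l₀ + s * (l₁ - l₀)))) s := by fun_prop
      exact h4.mul (hC i j)
    have hP : DifferentiableAt ℂ (fun s : ℂ => (𝓡.Sv s (Complex.exp (l₀ + s * (l₁ - l₀))) 0 *
        NormedSpace.exp (Complex.exp (-(l₀ + s * (l₁ - l₀))) •
          𝓡.Cv s (Complex.exp (l₀ + s * (l₁ - l₀))))) i j) s :=
      diffAt_mul (A := fun s : ℂ => 𝓡.Sv s (Complex.exp (l₀ + s * (l₁ - l₀))) 0)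
        (B := fun s : ℂ => NormedSpace.exp (Complex.exp (-(l₀ + s * (l₁ - l₀))) •
          𝓡.Cv s (Complex.exp (l₀ + s * (l₁ - l₀))))) hS
        (vf_exp (M := fun s : ℂ => Complex.exp (-(l₀ + s * (l₁ - l₀))) •
          𝓡.Cv s (Complex.exp (l₀ + s * (l₁ - l₀)))) hE) i j
    refine hP.congr_of_eventuallyEq ?_
    filter_upwards [Metric.isOpen_ball.mem_nhds hs] with u hu
    have hu' : ‖u‖ < ρ := by rwa [Metric.mem_ball, dist_zero_right] at hu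
    have e1 := (hQD u hu').2.2.1
    have e2 := (hQD u hu').1
    rw [e1, QSys.A0, e2.2.2.2.2.1, e2.2.2.1]
  · -- Gronwall
    intro s₀ hs₀
    set c : ℂ := l₁ - l₀ with hc
    obtain ⟨k, hk⟩ := 𝓡.v_bound
    have hE : ∀ᶠ s in 𝓝 s₀, ‖Complex.exp (-(l₀ + s * c))‖ < ‖Complex.exp (-(l₀ + s₀ * c))‖ + 1 := by
      have h1 : ContinuousAt (fun s : ℂ => Complex.exp (-(l₀ + s * c))) s₀ := by fun_prop
      exact h1.norm.eventually_lt_const (lt_add_one _)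
    have hL : ∀ᶠ s in 𝓝 s₀, s ∈ Metric.ball (0 : ℂ) ρ := Metric.isOpen_ball.mem_nhds hs₀
    obtain ⟨δ, hδ, hball⟩ := Metric.eventually_nhds_iff_ball.1 (hL.and hE)
    set K₂ : ℝ := ‖Complex.exp (-(l₀ + s₀ * c))‖ + 1 with hK₂
    set T : ℝ := ∑ i, ‖𝓡.Q.θ i‖ with hT
    have hT0 : 0 ≤ T := Finset.sum_nonneg fun i _ => norm_nonneg _
    have hK₂0 : 0 ≤ K₂ := add_nonneg (norm_nonneg _) zero_le_one
    obtain ⟨B₀, hB₀⟩ : ∃ B₀ : ℝ, B₀ = K₂ * |k| + ‖c‖ * (T + K₂ * |k|) := ⟨_, rfl⟩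
    have hB₀0 : 0 ≤ B₀ := by rw [hB₀]; positivity
    refine ⟨δ, hδ, max 1 (N * B₀), fun s hs1 s' hs2 y hy hy1 i j => ?_⟩
    have hy0 : y ≠ 0 := Complex.slitPlane_ne_zero hy
    set h : ℂ := s' - s with hh
    have hmem : ∀ τ ∈ Set.Icc (0 : ℝ) 1, s + (τ : ℂ) * h ∈ Metric.ball s₀ δ := by
      intro τ hτ
      have h1 := (convex_ball s₀ δ).add_smul_sub_mem hs1 hs2 hτ
      rwa [Complex.real_smul] at h1
    have hyv : ∀ u : ℂ, y * Complex.exp (l₀ + u * c - Complex.log y) = Complex.exp (l₀ + u * c) := by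
      intro u
      rw [Complex.exp_sub, Complex.exp_log hy0]
      field_simp
    have hev : ∀ u : ℂ, Complex.exp (-(l₀ + u * c - Complex.log y)) = y * Complex.exp (-(l₀ + u * c)) := by
      intro u
      have h1 : -(l₀ + u * c - Complex.log y) = Complex.log y + -(l₀ + u * c) := by ring
      rw [h1, Complex.exp_add, Complex.exp_log hy0]
    obtain ⟨w₀, hw₀⟩ : ∃ w₀ : ℂ, w₀ = l₀ + s * c - Complex.log y := ⟨_, rfl⟩
    have hwτ : ∀ τ : ℂ, w₀ + τ * (h * c) = l₀ + (s + τ * h) * c - Complex.log y := by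
      intro τ
      rw [hw₀]
      ring
    -- the coefficient
    obtain ⟨B, hB⟩ : ∃ B : ℝ → Matrix (Fin N) (Fin N) ℂ, B = fun τ : ℝ =>
        Complex.exp (-(w₀ + (τ : ℂ) * (h * c))) •
          𝓡.Mv (s + (τ : ℂ) * h) (y * Complex.exp (w₀ + (τ : ℂ) * (h * c))) +
        c • (Matrix.diagonal 𝓡.Q.θ - Complex.exp (-(w₀ + (τ : ℂ) * (h * c))) •
          𝓡.Cv (s + (τ : ℂ) * h) (y * Complex.exp (w₀ + (τ : ℂ) * (h * c)))) := ⟨_, rfl⟩
    obtain ⟨M, hM⟩ : ∃ M : Matrix (Fin N) (Fin N) ℂ, M = (𝓡.J s y w₀)⁻¹ := ⟨_, rfl⟩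
    obtain ⟨U, hU⟩ : ∃ U : ℝ → Matrix (Fin N) (Fin N) ℂ, U = fun τ : ℝ =>
        𝓡.J (s + (τ : ℂ) * h) y (w₀ + (τ : ℂ) * (h * c)) * M := ⟨_, rfl⟩
    have hdom : ∀ τ ∈ Set.Icc (0 : ℝ) 1, ‖s + (τ : ℂ) * h‖ < 𝓡.R ∧
        ‖y * Complex.exp (w₀ + (τ : ℂ) * (h * c))‖ < 𝓡.r := by
      intro τ hτ
      have h1 := (hball _ (hmem τ hτ)).1
      rw [Metric.mem_ball, dist_zero_right] at h1
      refine ⟨h1.trans hρ, ?_⟩
      rw [hwτ, hyv]
      exact hl _ h1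
    have hder : ∀ τ ∈ Set.Icc (0 : ℝ) 1, ∀ i j,
        HasDerivAt (fun τ => U τ i j) (((h • B τ) * U τ) i j) τ := by
      intro τ hτ a b
      obtain ⟨hd1, hd2⟩ := hdom τ hτ
      have h3 : ∀ k, HasDerivAt (fun t : ℝ => 𝓡.J (s + (t : ℂ) * h) y (w₀ + (t : ℂ) * (h * c)) a k * M k b)
          (((h • B τ) * 𝓡.J (s + (τ : ℂ) * h) y (w₀ + (τ : ℂ) * (h * c))) a k * M k b) τ := by
        intro k
        have h4 := vf_line (f := fun p : ℂ × ℂ => 𝓡.J p.1 y p.2 a k) (τ : ℂ)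
          (vf_diffJ 𝓡 hd1 hd2 a k) (vf_ds 𝓡 hd1 hd2 a k) (𝓡.J_ode hd1 hd2 a k)
        have h5 : h * ((Complex.exp (-(w₀ + (τ : ℂ) * (h * c))) •
              𝓡.Mv (s + (τ : ℂ) * h) (y * Complex.exp (w₀ + (τ : ℂ) * (h * c)))) *
              𝓡.J (s + (τ : ℂ) * h) y (w₀ + (τ : ℂ) * (h * c))) a k +
            h * c * ((Matrix.diagonal 𝓡.Q.θ - Complex.exp (-(w₀ + (τ : ℂ) * (h * c))) •
              𝓡.Cv (s + (τ : ℂ) * h) (y * Complex.exp (w₀ + (τ : ℂ) * (h * c)))) *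
              𝓡.J (s + (τ : ℂ) * h) y (w₀ + (τ : ℂ) * (h * c))) a k =
            ((h • B τ) * 𝓡.J (s + (τ : ℂ) * h) y (w₀ + (τ : ℂ) * (h * c))) a k := by
          rw [hB]
          simp only
          rw [smul_add, smul_smul h c, Matrix.add_mul, Matrix.add_apply, Matrix.smul_mul h,
            Matrix.smul_mul (h * c), Matrix.smul_apply, Matrix.smul_apply, smul_eq_mul, smul_eq_mul]
        rw [h5] at h4
        exact (h4.comp_ofReal).mul_const (M k b)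
      have h5 : HasDerivAt (fun t : ℝ => ∑ k, 𝓡.J (s + (t : ℂ) * h) y (w₀ + (t : ℂ) * (h * c)) a k * M k b)
          (∑ k, ((h • B τ) * 𝓡.J (s + (τ : ℂ) * h) y (w₀ + (τ : ℂ) * (h * c))) a k * M k b) τ :=
        HasDerivAt.fun_sum fun k _ => h3 k
      have h6 : ((h • B τ) * U τ) a b =
          ∑ k, ((h • B τ) * 𝓡.J (s + (τ : ℂ) * h) y (w₀ + (τ : ℂ) * (h * c))) a k * M k b := by
        rw [hU]
        simp only
        rw [← Matrix.mul_assoc, Matrix.mul_apply]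
      have h7 : (fun t : ℝ => U t a b) =
          fun t : ℝ => ∑ k, 𝓡.J (s + (t : ℂ) * h) y (w₀ + (t : ℂ) * (h * c)) a k * M k b := by
        funext t
        rw [hU]
        simp only
        rw [Matrix.mul_apply]
      rw [h6, h7]
      exact h5
    have hJs : ∀ u : ℂ, ‖u‖ < ρ → (D u).F y = 𝓡.J u y (l₀ + u * c - Complex.log y) := by
      intro u hu
      rw [(hQD u hu).2.1, QSys.f, (hQD u hu).1.2.2.2.2.2.1]
    have hsρ : ‖s‖ < ρ := by
      have h1 := (hball _ hs1).1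
      rwa [Metric.mem_ball, dist_zero_right] at h1
    have hsρ' : ‖s'‖ < ρ := by
      have h1 := (hball _ hs2).1
      rwa [Metric.mem_ball, dist_zero_right] at h1
    have hU0 : U 0 = 1 := by
      have hd := hdom 0 ⟨le_rfl, zero_le_one⟩
      rw [Complex.ofReal_zero, zero_mul, zero_mul, add_zero, add_zero] at hd
      have hdet : (𝓡.J s y w₀).det ≠ 0 := by
        rw [Ray.J, Matrix.det_mul]
        refine mul_ne_zero (𝓡.W_det hd.1 hd.2 (Complex.exp_ne_zero _)) (𝓡.Q.det_J ?_)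
        rw [𝓡.Λ_univ]
        exact Set.mem_univ _
      rw [hU]
      simp only
      rw [Complex.ofReal_zero, zero_mul, zero_mul, add_zero, add_zero, hM]
      exact Matrix.mul_nonsing_inv _ (isUnit_iff_ne_zero.2 hdet)
    have hU1 : U 1 = (D s').F y * ((D s).F y)⁻¹ := by
      have h1 : s + ((1 : ℝ) : ℂ) * h = s' := by
        rw [Complex.ofReal_one, one_mul, hh]
        ring
      rw [hU]
      simp only
      rw [hwτ, h1, hM, hJs s hsρ, hJs s' hsρ', hw₀]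
    have hcb : ∀ τ ∈ Set.Icc (0 : ℝ) 1, ∀ i j, ‖(h • B τ) i j‖ ≤ ‖s - s'‖ * ‖y‖ * B₀ := by
      intro τ hτ a b
      obtain ⟨hd1, hd2⟩ := hdom τ hτ
      have hm := hball _ (hmem τ hτ)
      have h1 : ‖(Matrix.diagonal 𝓡.Q.θ : Matrix (Fin N) (Fin N) ℂ) a b‖ ≤ T := by
        by_cases hab : a = b
        · subst hab
          rw [Matrix.diagonal_apply_eq]
          exact Finset.single_le_sum (f := fun i => ‖𝓡.Q.θ i‖) (fun i _ => norm_nonneg _)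
            (Finset.mem_univ a)
        · rw [Matrix.diagonal_apply_ne _ hab, norm_zero]
          exact hT0
      have h2 := hk _ _ hd1.le hd2.le a b
      have h2a := h2.1.trans (le_abs_self k)
      have h2b := h2.2.trans (le_abs_self k)
      have h3 : ‖Complex.exp (-(l₀ + (s + (τ : ℂ) * h) * c))‖ ≤ K₂ := hm.2.le
      have h4 : ‖h‖ = ‖s - s'‖ := by rw [hh, norm_sub_rev]
      have hexp : ‖Complex.exp (-(w₀ + (τ : ℂ) * (h * c)))‖ ≤ ‖y‖ * K₂ := by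
        rw [hwτ, hev, norm_mul]
        exact mul_le_mul_of_nonneg_left h3 (norm_nonneg _)
      have h5 : ‖B τ a b‖ ≤ ‖y‖ * B₀ := by
        rw [hB]
        simp only
        rw [Matrix.add_apply, Matrix.smul_apply, Matrix.smul_apply, Matrix.sub_apply, Matrix.smul_apply,
          smul_eq_mul, smul_eq_mul, smul_eq_mul]
        have e1 : ‖Complex.exp (-(w₀ + (τ : ℂ) * (h * c))) *
            𝓡.Mv (s + (τ : ℂ) * h) (y * Complex.exp (w₀ + (τ : ℂ) * (h * c))) a b‖ ≤ ‖y‖ * K₂ * |k| := by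
          rw [norm_mul]
          exact mul_le_mul hexp h2a (norm_nonneg _) (mul_nonneg (norm_nonneg _) hK₂0)
        have e2 : ‖Complex.exp (-(w₀ + (τ : ℂ) * (h * c))) *
            𝓡.Cv (s + (τ : ℂ) * h) (y * Complex.exp (w₀ + (τ : ℂ) * (h * c))) a b‖ ≤ ‖y‖ * K₂ * |k| := by
          rw [norm_mul]
          exact mul_le_mul hexp h2b (norm_nonneg _) (mul_nonneg (norm_nonneg _) hK₂0)
        have e3 : ‖(Matrix.diagonal 𝓡.Q.θ : Matrix (Fin N) (Fin N) ℂ) a b -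
            Complex.exp (-(w₀ + (τ : ℂ) * (h * c))) *
            𝓡.Cv (s + (τ : ℂ) * h) (y * Complex.exp (w₀ + (τ : ℂ) * (h * c))) a b‖ ≤
            ‖y‖ * T + ‖y‖ * K₂ * |k| :=
          (norm_sub_le _ _).trans (add_le_add (h1.trans (le_mul_of_one_le_left hT0 hy1)) e2)
        calc _ ≤ ‖Complex.exp (-(w₀ + (τ : ℂ) * (h * c))) *
            𝓡.Mv (s + (τ : ℂ) * h) (y * Complex.exp (w₀ + (τ : ℂ) * (h * c))) a b‖ +
            ‖c * ((Matrix.diagonal 𝓡.Q.θ : Matrix (Fin N) (Fin N) ℂ) a b -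
            Complex.exp (-(w₀ + (τ : ℂ) * (h * c))) *
            𝓡.Cv (s + (τ : ℂ) * h) (y * Complex.exp (w₀ + (τ : ℂ) * (h * c))) a b)‖ := norm_add_le _ _
          _ ≤ ‖y‖ * K₂ * |k| + ‖c‖ * (‖y‖ * T + ‖y‖ * K₂ * |k|) := by
              refine add_le_add e1 ?_
              rw [norm_mul]
              exact mul_le_mul_of_nonneg_left e3 (norm_nonneg _)
          _ = ‖y‖ * B₀ := by rw [hB₀]; ring
      rw [Matrix.smul_apply, smul_eq_mul, norm_mul, h4, mul_assoc]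
      exact mul_le_mul_of_nonneg_left h5 (norm_nonneg _)
    have hfin := lin_bound (fun τ => h • B τ) U hder hU0 hcb i j
    rw [hU1] at hfin
    refine hfin.trans ?_
    have h7 : (N : ℝ) * (‖s - s'‖ * ‖y‖ * B₀) ≤ max 1 (N * B₀) * ‖s - s'‖ * ‖y‖ := by
      calc (N : ℝ) * (‖s - s'‖ * ‖y‖ * B₀) = (N * B₀) * ‖s - s'‖ * ‖y‖ := by ring
        _ ≤ _ := mul_le_mul_of_nonneg_right (mul_le_mul_of_nonneg_right (le_max_right _ _)
            (norm_nonneg _)) (norm_nonneg _)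
    calc Real.exp ((N : ℝ) * (‖s - s'‖ * ‖y‖ * B₀)) ≤
        Real.exp (max 1 (N * B₀) * ‖s - s'‖ * ‖y‖) := Real.exp_le_exp.2 h7
      _ ≤ max 1 (N * B₀) * Real.exp (max 1 (N * B₀) * ‖s - s'‖ * ‖y‖) :=
          le_mul_of_one_le_left (Real.exp_pos _).le (le_max_left _ _)

end Pool.Agent.DST
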