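import Pool.Agent.DST.VDefs

/-!
# Project DST, block V: restriction to rays (definitions only)
-/

open scoped BigOperators Topology
open Filter

namespace Pool.Agent.DST

open Pool.Agent.Helper18.Dub Pool.Agent.Helper7.DubStokes Pool.Agent.SHF

/-- Restriction to the ray `s ↦ s v`, as a function: the coefficient of `s^n` is
`∑_{|m| = n} v^m f_m`. -/
noncomputable def lineF {N : ℕ} {R : Type} [CommRing R] [Algebra ℂ R] (v : Fin N → ℂ)
    (f : MvPowerSeries (Fin N) R) : PowerSeries R :=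
  PowerSeries.mk fun n => ∑ m ∈ Finset.finsuppAntidiag Finset.univ n,
    (∏ i, v i ^ m i) • MvPowerSeries.coeff m f

/-- `λ ∂_λ` -/
noncomputable def lamMv {N : ℕ} (f : MvPowerSeries (Fin N) (Polynomial ℂ)) :
    MvPowerSeries (Fin N) (Polynomial ℂ) :=
  fun m => Polynomial.X * Polynomial.derivative (MvPowerSeries.coeff m f)

section

variable {N : ℕ} {X : FanoGW (Fin N)} (T : EquivData X) (t : Fin N → ℂ) (κ : ℂ)

/-- Multiplication by the Euler field `c_1^T + ∑_a (1 - deg φ_a) t_a φ_a` near `t ∈ H^2(X)`. -/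
noncomputable def eulAt : Matrix (Fin N) (Fin N) (MvPowerSeries (Fin N) (Polynomial ℂ)) :=
  ∑ a, (MvPowerSeries.C (Polynomial.C (X.chern a)) +
      MvPowerSeries.C (Polynomial.C (1 - (X.deg a : ℂ))) * MvPowerSeries.X a :
        MvPowerSeries (Fin N) (Polynomial ℂ)) • mulAt T t a +
    (MvPowerSeries.C (Polynomial.C κ * Polynomial.X) : MvPowerSeries (Fin N) (Polynomial ℂ)) • 1

/-- The big equivariant product converges near `t`, uniformly on `|λ| ≤ r`. -/
def BConv (A r : ℝ) : Prop := ∃ B : ℝ, ∀ a i j m k,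
  ‖(MvPowerSeries.coeff m (mulAt T t a i j)).coeff k‖ * r ^ k ≤ B * A ^ (∑ i, m i)

end

end Pool.Agent.DST
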