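import Pool.Agent.DST.VSer

/-!
# DST-VMax: series of polynomials in `(λ, z)`: from `z ≠ 0` to `z = 0` by the maximum principle

PLAN. `p n : ℂ[λ][z]`. Hypothesis `H`: for all `r₁ < r`, `δ > 0`, `R' < R` (`0 < R'`) there is `B` with
`‖(p n).evalEval x z‖ ≤ B / R'^n` for all `n`, `‖x‖ ≤ r₁`, `‖x - z‖ ≤ r₁`, `δ ≤ ‖z‖`.
(1) `vmax_bound`: let `r₁ < r`, put `δ = (r - r₁)/4`, `r₂ = r₁ + 2δ < r`, `B` from `H r₂ δ R'`. If
`‖x‖ ≤ r₁`, `‖x - z‖ ≤ r₁`: either `δ ≤ ‖z‖`: done; or `‖z‖ < δ`: the polynomial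
`z' ↦ (p n).evalEval x z'` is bounded on the circle `‖z'‖ = δ` by `B/R'^n` (`‖x - z'‖ ≤ r₁ + δ ≤ r₂`), so on
the disc (`Complex.norm_le_of_forall_mem_frontier_norm_le` on the ball, or
`Complex.norm_eqOn_closedBall_of_isMaxOn`).
(2) `vmax_summable`: `‖s‖ < R`: choose `‖s‖ < R' < R`: geometric series.
(3) `vmax_diff`: near `(s, x, z)` with `‖s‖ < R`, `‖x‖ < r`, `‖x - z‖ < r` choose a small ball on which the
bounds of (1) hold with `r₁`, `R'` fixed; the terms `s^n * (p n).evalEval x z` are differentiable in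
`(s, x, z)` (as in `diff_evm₂`); `diff_tsum`.
-/

open scoped BigOperators Topology
open Filter

namespace Pool.Agent.DST

/-- bounds away from `z = 0` -/
def VHyp (R r : ℝ) (p : ℕ → Polynomial (Polynomial ℂ)) : Prop :=
  ∀ r₁ < r, ∀ δ > 0, ∀ R' > 0, R' < R → ∃ B : ℝ, ∀ n : ℕ, ∀ x z : ℂ, ‖x‖ ≤ r₁ → ‖x - z‖ ≤ r₁ →
    δ ≤ ‖z‖ → ‖(p n).evalEval x z‖ ≤ B / R' ^ n

private theorem diff_ev (p : Polynomial (Polynomial ℂ)) :
    Differentiable ℂ (fun q : ℂ × ℂ => p.evalEval q.1 q.2) := by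
  induction p using Polynomial.induction_on' with
  | add p q hp hq =>
    have h1 : (fun r : ℂ × ℂ => Polynomial.evalEval r.1 r.2 (p + q)) =
        fun r : ℂ × ℂ => Polynomial.evalEval r.1 r.2 p + Polynomial.evalEval r.1 r.2 q := by
      funext r
      exact Polynomial.evalEval_add r.1 r.2 p q
    rw [h1]
    exact hp.add hq
  | monomial n a =>
    have h1 : (fun r : ℂ × ℂ => Polynomial.evalEval r.1 r.2 (Polynomial.monomial n a)) =
        fun r : ℂ × ℂ => Polynomial.eval r.1 a * r.2 ^ n := by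
      funext r
      rw [Polynomial.evalEval, Polynomial.eval_monomial, Polynomial.eval_mul,
        Polynomial.eval_pow, Polynomial.eval_C]
    rw [h1]
    exact (a.differentiable.comp differentiable_fst).mul (differentiable_snd.pow n)

theorem vmax_bound {R r : ℝ} {p : ℕ → Polynomial (Polynomial ℂ)} (H : VHyp R r p) {r₁ : ℝ}
    (hr₁ : r₁ < r) {R' : ℝ} (hR0 : 0 < R') (hR' : R' < R) :
    ∃ B : ℝ, ∀ n : ℕ, ∀ x z : ℂ, ‖x‖ ≤ r₁ → ‖x - z‖ ≤ r₁ → ‖(p n).evalEval x z‖ ≤ B / R' ^ n := by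
  have hδ : 0 < (r - r₁) / 4 := by linarith
  have hr₂ : r₁ + 2 * ((r - r₁) / 4) < r := by linarith
  obtain ⟨B, hB⟩ := H _ hr₂ _ hδ R' hR0 hR'
  refine ⟨B, fun n x z hx hxz => ?_⟩
  by_cases hz : (r - r₁) / 4 ≤ ‖z‖
  · exact hB n x z (by linarith) (by linarith) hz
  · push Not at hz
    have hd : Differentiable ℂ (fun z' : ℂ => (p n).evalEval x z') :=
      (diff_ev (p n)).comp ((differentiable_const x).prodMk differentiable_id)
    apply Complex.norm_le_of_forall_mem_frontier_norm_le (f := fun z' : ℂ => (p n).evalEval x z')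
      (U := Metric.ball 0 ((r - r₁) / 4)) Metric.isBounded_ball hd.diffContOnCl
    · intro z' hz'
      rw [frontier_ball _ hδ.ne', mem_sphere_zero_iff_norm] at hz'
      refine hB n x z' (by linarith) ?_ hz'.ge
      refine (norm_sub_le _ _).trans ?_
      rw [hz']
      linarith
    · apply subset_closure
      rw [mem_ball_zero_iff]
      exact hz

theorem vmax_summable {R r : ℝ} (hR : 0 < R) {p : ℕ → Polynomial (Polynomial ℂ)}
    (H : VHyp R r p) {s x z : ℂ} (hs : ‖s‖ < R) (hx : ‖x‖ < r) (hxz : ‖x - z‖ < r) :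
    Summable fun n => ‖s ^ n * (p n).evalEval x z‖ := by
  obtain ⟨R', h1, h2⟩ := exists_between hs
  have hR0 : 0 < R' := lt_of_le_of_lt (norm_nonneg s) h1
  have hm : max ‖x‖ ‖x - z‖ < r := max_lt hx hxz
  obtain ⟨B, hB⟩ := vmax_bound H hm hR0 h2
  have hsum : Summable fun n : ℕ => |B| * (‖s‖ / R') ^ n := by
    apply Summable.mul_left
    apply summable_geometric_of_lt_one (by positivity)
    rw [div_lt_one hR0]
    exact h1
  apply Summable.of_nonneg_of_le (fun n => norm_nonneg _) _ hsum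
  intro n
  have h3 := hB n x z (le_max_left _ _) (le_max_right _ _)
  rw [norm_mul, norm_pow, div_pow, mul_div_assoc', mul_comm |B|, mul_div_assoc]
  apply mul_le_mul_of_nonneg_left _ (by positivity)
  exact h3.trans (div_le_div_of_nonneg_right (le_abs_self B) (by positivity))

theorem vmax_diff {R r : ℝ} (hR : 0 < R) {p : ℕ → Polynomial (Polynomial ℂ)}
    (H : VHyp R r p) {s x z : ℂ} (hs : ‖s‖ < R) (hx : ‖x‖ < r) (hxz : ‖x - z‖ < r) :
    DifferentiableAt ℂ (fun q : ℂ × ℂ × ℂ => ∑' n, q.1 ^ n * (p n).evalEval q.2.1 q.2.2)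
      (s, x, z) := by
  obtain ⟨R₁, hR1, hR2⟩ := exists_between hs
  obtain ⟨R', h1, h2⟩ := exists_between hR2
  have hR0 : 0 < R' := lt_of_le_of_lt (norm_nonneg s) (hR1.trans h1)
  have hR10 : 0 < R₁ := lt_of_le_of_lt (norm_nonneg s) hR1
  have hm : max ‖x‖ ‖x - z‖ < r := max_lt hx hxz
  obtain ⟨r₁, hr1, hr2⟩ := exists_between hm
  obtain ⟨B, hB⟩ := vmax_bound H hr2 hR0 h2
  have hU : IsOpen {q : ℂ × ℂ × ℂ | ‖q.1‖ < R₁ ∧ ‖q.2.1‖ < r₁ ∧ ‖q.2.1 - q.2.2‖ < r₁} := by
    refine IsOpen.inter ?_ (IsOpen.inter ?_ ?_)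
    · exact isOpen_lt (continuous_norm.comp continuous_fst) continuous_const
    · exact isOpen_lt (continuous_norm.comp (continuous_fst.comp continuous_snd)) continuous_const
    · exact isOpen_lt (continuous_norm.comp ((continuous_fst.comp continuous_snd).sub
        (continuous_snd.comp continuous_snd))) continuous_const
  have hsum : Summable fun n : ℕ => |B| * (R₁ / R') ^ n := by
    apply Summable.mul_left
    apply summable_geometric_of_lt_one (by positivity)
    rw [div_lt_one hR0]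
    exact h1
  apply diff_tsum (E := ℂ × ℂ × ℂ) hU
    (F := fun n (q : ℂ × ℂ × ℂ) => q.1 ^ n * (p n).evalEval q.2.1 q.2.2) hsum
  · intro n q _
    apply DifferentiableAt.mul
    · exact differentiableAt_fst.pow n
    · exact ((diff_ev (p n)).comp differentiable_snd) q
  · rintro n q ⟨hq1, hq2, hq3⟩
    have h3 := hB n q.2.1 q.2.2 hq2.le hq3.le
    have h4 : ‖q.1 ^ n * (p n).evalEval q.2.1 q.2.2‖ ≤ R₁ ^ n * (|B| / R' ^ n) := by
      rw [norm_mul, norm_pow]
      apply mul_le_mul (pow_le_pow_left₀ (norm_nonneg _) hq1.le n) _ (norm_nonneg _)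
        (by positivity)
      exact h3.trans (div_le_div_of_nonneg_right (le_abs_self B) (by positivity))
    refine h4.trans (le_of_eq ?_)
    rw [div_pow]
    ring
  · exact ⟨hR1, (le_max_left _ _).trans_lt hr1, (le_max_right _ _).trans_lt hr1⟩

end Pool.Agent.DST
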