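import Pool.Agent.DST.VS
import Pool.Agent.DST.VWode

/-!
# DST-VQ: the quantum system at `t + s v`

For `‖s‖ < R` the data `𝓡.Cv s`, `𝓡.Sv s`, `𝓡.J s` with the pairing and the grading of the base point
form a quantum system over the disc `‖λ‖ < r`.
-/

open scoped BigOperators Topology
open Filter

namespace Pool.Agent.DST

variable {N : ℕ}

private theorem vq_mem (𝓡 : Ray N) (x : ℂ) : x ∈ 𝓡.Q.Λ := by
  rw [𝓡.Λ_univ]
  exact Set.mem_univ x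

private theorem vq_ball {r : ℝ} {x : ℂ} (h : x ∈ Metric.ball (0 : ℂ) r) : ‖x‖ < r :=
  mem_ball_zero_iff.1 h

private theorem vq_C (𝓡 : Ray N) {s x : ℂ} (hs : ‖s‖ < 𝓡.R) (hx : ‖x‖ < 𝓡.r) (i j : Fin N) :
    DifferentiableAt ℂ (fun x => 𝓡.Cv s x i j) x := by
  have h1 := evs_diff (zero_le_one.trans 𝓡.hR.le) 𝓡.hr.le (𝓡.C_conv i j) hs hx
  have h2 : DifferentiableAt ℂ (fun x : ℂ => ((s, x) : ℂ × ℂ)) x :=
    (differentiableAt_const s).prodMk differentiableAt_id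
  exact h1.comp x h2

private theorem vq_S (𝓡 : Ray N) {s x z : ℂ} (hs : ‖s‖ < 𝓡.R) (hx : ‖x‖ < 𝓡.r)
    (hxz : ‖x - z‖ < 𝓡.r) (i j : Fin N) :
    DifferentiableAt ℂ (fun p : ℂ × ℂ => 𝓡.Sv s p.1 p.2 i j) (x, z) := by
  have h1 := 𝓡.Sv_diff hs hx hxz i j
  have h2 : DifferentiableAt ℂ (fun p : ℂ × ℂ => ((s, p.1, p.2) : ℂ × ℂ × ℂ)) (x, z) :=
    (differentiableAt_const s).prodMk (differentiableAt_fst.prodMk differentiableAt_snd)
  exact DifferentiableAt.comp (x, z) (f := fun p : ℂ × ℂ => ((s, p.1, p.2) : ℂ × ℂ × ℂ))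
    (g := fun p : ℂ × ℂ × ℂ => 𝓡.Sv p.1 p.2.1 p.2.2 i j) h1 h2

private theorem vq_J (𝓡 : Ray N) {s : ℂ} (hs : ‖s‖ < 𝓡.R) (y w : ℂ)
    (hx : ‖y * Complex.exp w‖ < 𝓡.r) (i j : Fin N) :
    DifferentiableAt ℂ (fun p : ℂ × ℂ => 𝓡.J s p.1 p.2 i j) (y, w) := by
  have hA : ∀ i j, DifferentiableAt ℂ (fun p : ℂ × ℂ =>
      𝓡.W s (p.1 * Complex.exp p.2) (Complex.exp p.2) i j) (y, w) := by
    intro i j
    have h1 := 𝓡.W_diff hs hx (Complex.exp_ne_zero w) i j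
    have h2 : DifferentiableAt ℂ (fun p : ℂ × ℂ =>
        ((s, p.1 * Complex.exp p.2, Complex.exp p.2) : ℂ × ℂ × ℂ)) (y, w) :=
      (differentiableAt_const s).prodMk
        ((differentiableAt_fst.mul differentiableAt_snd.cexp).prodMk differentiableAt_snd.cexp)
    exact DifferentiableAt.comp (y, w) (f := fun p : ℂ × ℂ =>
      ((s, p.1 * Complex.exp p.2, Complex.exp p.2) : ℂ × ℂ × ℂ))
      (g := fun p : ℂ × ℂ × ℂ => 𝓡.W p.1 p.2.1 p.2.2 i j) h1 h2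
  exact diffAt_mul (A := fun p : ℂ × ℂ => 𝓡.W s (p.1 * Complex.exp p.2) (Complex.exp p.2))
    (B := fun p : ℂ × ℂ => 𝓡.Q.J p.1 p.2) hA (𝓡.Q.J_hol y w (vq_mem 𝓡 _)) i j

private theorem vq_shift (𝓡 : Ray N) {s : ℂ} (hs : ‖s‖ < 𝓡.R) (y w : ℂ)
    (hx : ‖y * Complex.exp w‖ < 𝓡.r) (hx' : ‖(y - 1) * Complex.exp w‖ < 𝓡.r) :
    𝓡.J s y w = 𝓡.Sv s (y * Complex.exp w) (Complex.exp w) * 𝓡.J s (y - 1) w := by
  have e1 : (y - 1) * Complex.exp w = y * Complex.exp w - Complex.exp w := by ring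
  rw [e1] at hx'
  have h1 := 𝓡.Sv_mul hs hx hx' (Complex.exp_ne_zero w)
  have h2 := 𝓡.Q.J_shift y w (vq_mem 𝓡 _) (vq_mem 𝓡 _)
  show 𝓡.W s (y * Complex.exp w) (Complex.exp w) * 𝓡.Q.J y w =
    𝓡.Sv s (y * Complex.exp w) (Complex.exp w) *
      (𝓡.W s ((y - 1) * Complex.exp w) (Complex.exp w) * 𝓡.Q.J (y - 1) w)
  rw [h2, e1, ← Matrix.mul_assoc, ← Matrix.mul_assoc, h1]

private theorem vq_pair (𝓡 : Ray N) {s : ℂ} (hs : ‖s‖ < 𝓡.R) (y w : ℂ)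
    (hx : ‖y * Complex.exp w‖ < 𝓡.r) :
    (𝓡.J s (-y) (w + Real.pi * Complex.I)).transpose * 𝓡.Q.g (y * Complex.exp w) * 𝓡.J s y w =
      𝓡.Q.χ.map (evq y) := by
  have e1 : Complex.exp (w + Real.pi * Complex.I) = -Complex.exp w := by
    rw [Complex.exp_add, Complex.exp_pi_mul_I, mul_neg_one]
  have e2 : -y * Complex.exp (w + Real.pi * Complex.I) = y * Complex.exp w := by
    rw [e1]
    ring
  have h1 := 𝓡.W_pair hs hx (Complex.exp_ne_zero w)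
  have h2 := 𝓡.Q.J_pair y w (vq_mem 𝓡 _)
  show (𝓡.W s (-y * Complex.exp (w + Real.pi * Complex.I))
      (Complex.exp (w + Real.pi * Complex.I)) * 𝓡.Q.J (-y) (w + Real.pi * Complex.I)).transpose *
      𝓡.Q.g (y * Complex.exp w) *
      (𝓡.W s (y * Complex.exp w) (Complex.exp w) * 𝓡.Q.J y w) = _
  rw [e2, e1, Matrix.transpose_mul]
  have h3 : (𝓡.Q.J (-y) (w + Real.pi * Complex.I)).transpose *
      (𝓡.W s (y * Complex.exp w) (-Complex.exp w)).transpose * 𝓡.Q.g (y * Complex.exp w) *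
      (𝓡.W s (y * Complex.exp w) (Complex.exp w) * 𝓡.Q.J y w) =
      (𝓡.Q.J (-y) (w + Real.pi * Complex.I)).transpose *
      ((𝓡.W s (y * Complex.exp w) (-Complex.exp w)).transpose * 𝓡.Q.g (y * Complex.exp w) *
      𝓡.W s (y * Complex.exp w) (Complex.exp w)) * 𝓡.Q.J y w := by
    simp only [Matrix.mul_assoc]
  rw [h3, h1, h2]

private theorem vq_abs {C t : ℝ} (ht : 0 ≤ t) : C * Real.exp (C * t) ≤ |C| * Real.exp (|C| * t) :=
  mul_le_mul (le_abs_self C) (Real.exp_le_exp.2 (mul_le_mul_of_nonneg_right (le_abs_self C) ht))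
    (Real.exp_pos _).le (abs_nonneg C)

/-- entries of a product -/
private theorem vq_prod {A B : Matrix (Fin N) (Fin N) ℂ} {a b c m : ℝ} (ha : 0 ≤ a) (hm : 1 ≤ m)
    (hA : ∀ i j, ‖A i j‖ ≤ a * Real.exp (b * m)) (hB : ∀ i j, ‖B i j‖ ≤ Real.exp (c * m))
    (i j : Fin N) : ‖(A * B) i j‖ ≤ Real.exp ((N * a + b + c) * m) := by
  rw [Matrix.mul_apply]
  have h1 : ‖∑ k, A i k * B k j‖ ≤ ∑ _k : Fin N, a * Real.exp (b * m) * Real.exp (c * m) := by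
    refine (norm_sum_le _ _).trans (Finset.sum_le_sum fun k _ => ?_)
    rw [norm_mul]
    exact mul_le_mul (hA i k) (hB k j) (norm_nonneg _) (mul_nonneg ha (Real.exp_pos _).le)
  refine h1.trans ?_
  rw [Finset.sum_const, Finset.card_univ, Fintype.card_fin, nsmul_eq_mul]
  have hNa : 0 ≤ N * a := mul_nonneg (Nat.cast_nonneg _) ha
  have h2 : N * a ≤ Real.exp (N * a * m) := by
    have h3 := Real.add_one_le_exp (N * a * m)
    have h4 : N * a ≤ N * a * m := le_mul_of_one_le_right hNa hm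
    linarith
  have h3 : (N : ℝ) * (a * Real.exp (b * m) * Real.exp (c * m)) =
      N * a * Real.exp ((b + c) * m) := by
    rw [add_mul, Real.exp_add]
    ring
  have h4 : Real.exp ((N * a + b + c) * m) = Real.exp (N * a * m) * Real.exp ((b + c) * m) := by
    rw [← Real.exp_add]
    congr 1
    ring
  rw [h3, h4]
  exact mul_le_mul_of_nonneg_right h2 (Real.exp_pos _).le

private theorem vq_prod' {A B : Matrix (Fin N) (Fin N) ℂ} {a b c m : ℝ} (ha : 0 ≤ a) (hm : 1 ≤ m)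
    (hA : ∀ i j, ‖A i j‖ ≤ a * Real.exp (b * m)) (hB : ∀ i j, ‖B i j‖ ≤ Real.exp (c * m))
    (i j : Fin N) : ‖(B * A) i j‖ ≤ Real.exp ((N * a + b + c) * m) := by
  have h1 := vq_prod (A := A.transpose) (B := B.transpose) ha hm (fun i j => hA j i)
    (fun i j => hB j i) j i
  rw [← Matrix.transpose_mul] at h1
  exact h1

private theorem vq_growth (𝓡 : Ray N) {s : ℂ} (hs : ‖s‖ < 𝓡.R) (l : ℂ)
    (hl : ‖Complex.exp l‖ < 𝓡.r) (a : ℝ) : ∃ C : ℝ, ∀ y : ℂ, |y.re| ≤ a → 1 ≤ |y.im| →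
    ∀ i j, ‖𝓡.J s y (l - Complex.log y) i j‖ ≤ Real.exp (C * |y.im|) ∧
      ‖(𝓡.J s y (l - Complex.log y))⁻¹ i j‖ ≤ Real.exp (C * |y.im|) := by
  obtain ⟨C₁, h1⟩ := 𝓡.W_bound hs hl
  obtain ⟨C₂, h2⟩ := 𝓡.Q.J_growth l (vq_mem 𝓡 _) a
  have he : 0 < ‖Complex.exp l‖ := norm_pos_iff.2 (Complex.exp_ne_zero l)
  refine ⟨N * |C₁| + |C₁| * ((|a| + 1) / ‖Complex.exp l‖) + C₂, fun y hy hy1 => ?_⟩
  have hy0 : y ≠ 0 := by
    rintro rfl
    rw [Complex.zero_im, abs_zero] at hy1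
    linarith
  have e1 : Complex.exp (l - Complex.log y) = Complex.exp l / y := by
    rw [Complex.exp_sub, Complex.exp_log hy0]
  have e2 : y * Complex.exp (l - Complex.log y) = Complex.exp l := by
    rw [e1, mul_div_cancel₀ _ hy0]
  have e3 : ‖Complex.exp l / y‖ = ‖Complex.exp l‖ / ‖y‖ := norm_div _ _
  have hyn : ‖y‖ ≤ (|a| + 1) * |y.im| := by
    have h3 := Complex.norm_le_abs_re_add_abs_im y
    have h4 : |y.re| ≤ |a| * |y.im| := by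
      have h5 : |y.re| ≤ |a| := hy.trans (le_abs_self a)
      exact h5.trans (le_mul_of_one_le_right (abs_nonneg a) hy1)
    linarith
  have hW : ∀ i j, ‖𝓡.W s (Complex.exp l) (Complex.exp l / y) i j‖ ≤
        |C₁| * Real.exp (|C₁| * ((|a| + 1) / ‖Complex.exp l‖) * |y.im|) ∧
      ‖(𝓡.W s (Complex.exp l) (Complex.exp l / y))⁻¹ i j‖ ≤
        |C₁| * Real.exp (|C₁| * ((|a| + 1) / ‖Complex.exp l‖) * |y.im|) := by
    intro i j
    have h3 := h1 s (Complex.exp l) (Complex.exp l / y) le_rfl le_rfl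
      (div_ne_zero (Complex.exp_ne_zero l) hy0) i j
    have h4 : C₁ * Real.exp (C₁ / ‖Complex.exp l / y‖) ≤
        |C₁| * Real.exp (|C₁| * ((|a| + 1) / ‖Complex.exp l‖) * |y.im|) := by
      have h5 : C₁ / ‖Complex.exp l / y‖ = C₁ * (‖y‖ / ‖Complex.exp l‖) := by
        rw [e3, div_eq_mul_inv, inv_div]
      rw [h5]
      refine (vq_abs (div_nonneg (norm_nonneg y) he.le)).trans ?_
      refine mul_le_mul_of_nonneg_left (Real.exp_le_exp.2 ?_) (abs_nonneg C₁)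
      rw [mul_assoc]
      refine mul_le_mul_of_nonneg_left ?_ (abs_nonneg C₁)
      rw [div_mul_eq_mul_div]
      exact div_le_div_of_nonneg_right hyn he.le
    exact ⟨h3.1.trans h4, h3.2.trans h4⟩
  have h5 : 𝓡.J s y (l - Complex.log y) = 𝓡.W s (Complex.exp l) (Complex.exp l / y) *
      𝓡.Q.J y (l - Complex.log y) := by
    show 𝓡.W s (y * Complex.exp (l - Complex.log y)) (Complex.exp (l - Complex.log y)) *
      𝓡.Q.J y (l - Complex.log y) = _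
    rw [e2, e1]
  intro i j
  rw [h5]
  refine ⟨vq_prod (abs_nonneg C₁) hy1 (fun i j => (hW i j).1) (fun i j => (h2 y hy hy1 i j).1) i j,
    ?_⟩
  rw [Matrix.mul_inv_rev]
  exact vq_prod' (abs_nonneg C₁) hy1 (fun i j => (hW i j).2) (fun i j => (h2 y hy hy1 i j).2) i j

theorem Ray.exists_q (𝓡 : Ray N) {s : ℂ} (hs : ‖s‖ < 𝓡.R) : ∃ Q : QSys N,
    Q.Λ = Metric.ball 0 𝓡.r ∧ Q.θ = 𝓡.Q.θ ∧ Q.C = 𝓡.Cv s ∧ Q.g = 𝓡.Q.g ∧ Q.S = 𝓡.Sv s ∧
      Q.J = 𝓡.J s ∧ Q.χ = 𝓡.Q.χ := by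
  refine ⟨{
    Λ := Metric.ball 0 𝓡.r
    open_Λ := Metric.isOpen_ball
    θ := 𝓡.Q.θ
    C := 𝓡.Cv s
    g := 𝓡.Q.g
    S := 𝓡.Sv s
    J := 𝓡.J s
    χ := 𝓡.Q.χ
    C_hol := fun x hx => vq_C 𝓡 hs (vq_ball hx)
    g_hol := fun x _ => 𝓡.Q.g_hol x (vq_mem 𝓡 x)
    g_hom := fun x _ => 𝓡.Q.g_hom x (vq_mem 𝓡 x)
    g_symm := fun x _ => 𝓡.Q.g_symm x (vq_mem 𝓡 x)
    g_det := fun x _ => 𝓡.Q.g_det x (vq_mem 𝓡 x)
    C_self := fun x hx => 𝓡.g_Cv hs (vq_ball hx)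
    S_hol := fun x hx z hz => vq_S 𝓡 hs (vq_ball hx) (vq_ball hz)
    S_det := fun x hx z hz => 𝓡.Sv_det hs (vq_ball hx) (vq_ball hz)
    J_hol := fun y w h => vq_J 𝓡 hs y w (vq_ball h)
    J_ode := fun y w h => 𝓡.J_ode hs (vq_ball h)
    J_shift := fun y w h h' => vq_shift 𝓡 hs y w (vq_ball h) (vq_ball h')
    J_pair := fun y w h => vq_pair 𝓡 hs y w (vq_ball h)
    J_growth := fun l h => vq_growth 𝓡 hs l (vq_ball h)
    χ_det := 𝓡.Q.χ_det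
    χ_int := 𝓡.Q.χ_int }, rfl, rfl, rfl, rfl, rfl, rfl, rfl⟩

end Pool.Agent.DST
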