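import Pool.Agent.DST.VW

/-!
# DST-VWb: unitarity and bounds for `W`

PLAN. `W_pair`: for fixed `x`, `z ≠ 0` the function `P(s) = W(s,x,-z)ᵀ g(x) W(s,x,z)` has derivative
`(-z⁻¹ M W(-z))ᵀ g W + W(-z)ᵀ g z⁻¹ M W = z⁻¹ W(-z)ᵀ (g M - Mᵀ g) W = 0` (`W_ode` at `z` and `-z`;
`g(x) Mv(s,x)` is symmetric: evaluate `𝓡.selfM` with `evs_mul`, `evs_C`, `𝓡.g_eq`), and `P(0) = g`. It is
constant on the ball `‖s‖ < R` (connected: `is_const_of_deriv_eq_zero`-type lemma on the convex ball).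
`W_bound`: for `0 ≤ s₁ < R`, `0 ≤ r₁ < r` the entries of `Mv` are bounded by a constant `k` on `‖s‖ ≤ s₁`,
`‖x‖ ≤ r₁` (even by the sum in `M_conv` for `‖s‖ ≤ R`, `‖x‖ ≤ r`). `U τ = W (τ s) x z`, `τ ∈ [0,1]`,
satisfies `U' = c U` with `c = s z⁻¹ Mv(τ s, x)`; `lin_bound`: entries at most `exp (N s₁ k / ‖z‖)`. For the
inverse: by `W_pair`, `W(s,x,z)⁻¹ = g⁻¹ W(s,x,-z)ᵀ g` and `g`, `g⁻¹` have bounded entries on `‖x‖ ≤ r₁`
(continuous: `g` polynomial, `g⁻¹` entries: the determinant of `pT` has no zero: `𝓡.Q.g_det`, `Λ = univ`;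
compactness of the closed ball), so at most `N² K² exp(C/‖z‖)`.
-/

open scoped BigOperators Topology
open Filter

namespace Pool.Agent.DST

variable {N : ℕ}

private theorem vwb_pconv_sum {R r : ℝ} (hR : 0 ≤ R) (hr : 0 ≤ r) {ι : Type} (t : Finset ι)
    (F : ι → PowerSeries (Polynomial ℂ)) (h : ∀ k, PConv R r (F k)) : PConv R r (∑ k ∈ t, F k) := by
  classical
  induction t using Finset.induction_on with
  | empty =>
    rw [Finset.sum_empty]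
    have := PConv.C R r 0
    rwa [map_zero] at this
  | insert a t ha ih =>
    rw [Finset.sum_insert ha]
    exact PConv.add hR hr (h a) ih

private theorem vwb_evs_sum {R r : ℝ} (hR : 0 ≤ R) (hr : 0 ≤ r) {s x : ℂ} (hs : ‖s‖ ≤ R)
    (hx : ‖x‖ ≤ r) {ι : Type} (t : Finset ι)
    (F : ι → PowerSeries (Polynomial ℂ)) (h : ∀ k, PConv R r (F k)) :
    evs s x (∑ k ∈ t, F k) = ∑ k ∈ t, evs s x (F k) := by
  classical
  induction t using Finset.induction_on with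
  | empty =>
    rw [Finset.sum_empty, Finset.sum_empty]
    have := evs_C s x 0
    rwa [map_zero, Polynomial.eval_zero] at this
  | insert a t ha ih =>
    rw [Finset.sum_insert ha, Finset.sum_insert ha,
      evs_add hR hr (h a) (vwb_pconv_sum hR hr t F h) hs hx, ih]

private theorem vwb_evs_mat {R r : ℝ} (hR : 0 ≤ R) (hr : 0 ≤ r) {s x : ℂ} (hs : ‖s‖ ≤ R)
    (hx : ‖x‖ ≤ r) (A B : Matrix (Fin N) (Fin N) (PowerSeries (Polynomial ℂ)))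
    (hA : ∀ i j, PConv R r (A i j)) (hB : ∀ i j, PConv R r (B i j)) :
    (A * B).map (evs s x) = A.map (evs s x) * B.map (evs s x) := by
  ext i j
  rw [Matrix.map_apply, Matrix.mul_apply, Matrix.mul_apply,
    vwb_evs_sum hR hr hs hx _ _ fun k => PConv.mul hR hr (hA i k) (hB k j)]
  refine Finset.sum_congr rfl fun k _ => ?_
  rw [Matrix.map_apply, Matrix.map_apply, evs_mul hR hr (hA i k) (hB k j) hs hx]

private theorem vwb_symm (𝓡 : Ray N) {s x : ℂ} (hs : ‖s‖ < 𝓡.R) (hx : ‖x‖ < 𝓡.r)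
    (A : Matrix (Fin N) (Fin N) (PowerSeries (Polynomial ℂ)))
    (hA : ∀ i j, PConv 𝓡.R 𝓡.r (A i j))
    (h : (𝓡.pT.map PowerSeries.C * A).transpose = 𝓡.pT.map PowerSeries.C * A) :
    𝓡.Q.g x * A.map (evs s x) = (A.map (evs s x)).transpose * 𝓡.Q.g x := by
  have hR : 0 ≤ 𝓡.R := (zero_lt_one.trans 𝓡.hR).le
  have hr : 0 ≤ 𝓡.r := 𝓡.hr.le
  have h1 : (𝓡.pT.map PowerSeries.C).map (evs s x) = 𝓡.Q.g x := by
    rw [𝓡.g_eq]
    ext i j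
    simp only [Matrix.map_apply, evm]
    exact evs_C s x _
  have h2 := vwb_evs_mat hR hr hs.le hx.le (𝓡.pT.map PowerSeries.C) A
    (fun i j => PConv.C _ _ _) hA
  rw [h1] at h2
  have h3 : ((𝓡.pT.map PowerSeries.C * A).transpose).map (evs s x) =
      (𝓡.Q.g x * A.map (evs s x)).transpose := by
    rw [Matrix.transpose_map, h2]
  rw [h, h2, Matrix.transpose_mul, 𝓡.Q.g_symm x (by rw [𝓡.Λ_univ]; exact Set.mem_univ _)] at h3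
  exact h3

private theorem vwb_mul {f g : ℂ → Matrix (Fin N) (Fin N) ℂ} {f' g' : Matrix (Fin N) (Fin N) ℂ}
    {s : ℂ} (hf : ∀ i j, HasDerivAt (fun s => f s i j) (f' i j) s)
    (hg : ∀ i j, HasDerivAt (fun s => g s i j) (g' i j) s) (i j : Fin N) :
    HasDerivAt (fun s => (f s * g s) i j) ((f' * g s + f s * g') i j) s := by
  simp only [Matrix.mul_apply, Matrix.add_apply]
  rw [← Finset.sum_add_distrib]
  exact HasDerivAt.fun_sum fun k _ => (hf i k).mul (hg k j)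

private theorem vwb_evs_bound {R r : ℝ} (hR : 0 ≤ R)
    {f : PowerSeries (Polynomial ℂ)} (hf : PConv R r f) {s x : ℂ} (hs : ‖s‖ ≤ R) (hx : ‖x‖ ≤ r) :
    ‖evs s x f‖ ≤ ∑' p : ℕ × ℕ, ‖(PowerSeries.coeff p.1 f).coeff p.2‖ * R ^ p.1 * r ^ p.2 := by
  have hb : ∀ p : ℕ × ℕ, ‖s ^ p.1 * ((PowerSeries.coeff p.1 f).coeff p.2 * x ^ p.2)‖ ≤
      ‖(PowerSeries.coeff p.1 f).coeff p.2‖ * R ^ p.1 * r ^ p.2 := by
    intro p
    rw [norm_mul, norm_mul, norm_pow, norm_pow]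
    have h1 : ‖s‖ ^ p.1 ≤ R ^ p.1 := pow_le_pow_left₀ (norm_nonneg _) hs _
    have h2 : ‖x‖ ^ p.2 ≤ r ^ p.2 := pow_le_pow_left₀ (norm_nonneg _) hx _
    calc ‖s‖ ^ p.1 * (‖(PowerSeries.coeff p.1 f).coeff p.2‖ * ‖x‖ ^ p.2)
        ≤ R ^ p.1 * (‖(PowerSeries.coeff p.1 f).coeff p.2‖ * r ^ p.2) := by
          apply mul_le_mul h1 _ (by positivity) (by positivity)
          exact mul_le_mul_of_nonneg_left h2 (norm_nonneg _)
      _ = _ := by ring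
  have hsum : Summable fun p : ℕ × ℕ =>
      s ^ p.1 * ((PowerSeries.coeff p.1 f).coeff p.2 * x ^ p.2) :=
    Summable.of_norm_bounded hf hb
  have h1 : evs s x f = ∑' p : ℕ × ℕ, s ^ p.1 * ((PowerSeries.coeff p.1 f).coeff p.2 * x ^ p.2) := by
    rw [hsum.tsum_prod]
    unfold evs
    refine tsum_congr fun n => ?_
    rw [Polynomial.eval_eq_sum_range, tsum_eq_sum (s := Finset.range
      ((PowerSeries.coeff n f).natDegree + 1))]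
    · rw [Finset.mul_sum]
    · intro k hk
      have h2 : (PowerSeries.coeff n f).natDegree < k := by
        rw [Finset.mem_range] at hk
        omega
      rw [Polynomial.coeff_eq_zero_of_natDegree_lt h2, zero_mul, mul_zero]
  rw [h1]
  exact tsum_of_norm_bounded hf.hasSum hb

private theorem vwb_v_bound (𝓡 : Ray N) : ∃ k : ℝ, ∀ s x : ℂ, ‖s‖ ≤ 𝓡.R → ‖x‖ ≤ 𝓡.r → ∀ i j,
    ‖𝓡.Mv s x i j‖ ≤ k ∧ ‖𝓡.Cv s x i j‖ ≤ k := by
  have hR : 0 ≤ 𝓡.R := (zero_lt_one.trans 𝓡.hR).le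
  have hr : 0 ≤ 𝓡.r := 𝓡.hr.le
  obtain ⟨B, hB⟩ : ∃ B : PowerSeries (Polynomial ℂ) → ℝ, B = fun f =>
    ∑' p : ℕ × ℕ, ‖(PowerSeries.coeff p.1 f).coeff p.2‖ * 𝓡.R ^ p.1 * 𝓡.r ^ p.2 := ⟨_, rfl⟩
  have hB0 : ∀ f, 0 ≤ B f := by
    intro f
    rw [hB]
    exact tsum_nonneg fun p => by positivity
  refine ⟨∑ i, ∑ j, (B (𝓡.M i j) + B (𝓡.C i j)), fun s x hs hx i j => ?_⟩
  have h1 : B (𝓡.M i j) + B (𝓡.C i j) ≤ ∑ i, ∑ j, (B (𝓡.M i j) + B (𝓡.C i j)) := by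
    refine le_trans ?_ (Finset.single_le_sum (f := fun i => ∑ j, (B (𝓡.M i j) + B (𝓡.C i j)))
      (fun i _ => Finset.sum_nonneg fun j _ => add_nonneg (hB0 _) (hB0 _)) (Finset.mem_univ i))
    exact Finset.single_le_sum (f := fun j => B (𝓡.M i j) + B (𝓡.C i j))
      (fun j _ => add_nonneg (hB0 _) (hB0 _)) (Finset.mem_univ j)
  have h2 : ‖𝓡.Mv s x i j‖ ≤ B (𝓡.M i j) := by
    rw [hB]
    exact vwb_evs_bound hR (𝓡.M_conv i j) hs hx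
  have h3 : ‖𝓡.Cv s x i j‖ ≤ B (𝓡.C i j) := by
    rw [hB]
    exact vwb_evs_bound hR (𝓡.C_conv i j) hs hx
  constructor
  · linarith [hB0 (𝓡.C i j)]
  · linarith [hB0 (𝓡.M i j)]

private theorem vwb_ode (𝓡 : Ray N) {s x z : ℂ} (hs : ‖s‖ < 𝓡.R) (hx : ‖x‖ < 𝓡.r) (hz : z ≠ 0)
    {k : ℝ} (hk : ∀ s x : ℂ, ‖s‖ ≤ 𝓡.R → ‖x‖ ≤ 𝓡.r → ∀ i j, ‖𝓡.Mv s x i j‖ ≤ k) (i j : Fin N) :
    ‖𝓡.W s x z i j‖ ≤ Real.exp (N * (𝓡.R * k / ‖z‖)) := by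
  have hR : 0 < 𝓡.R := zero_lt_one.trans 𝓡.hR
  have hk0 : 0 ≤ k := (norm_nonneg _).trans (hk s x hs.le hx.le i j)
  have hle : ∀ τ ∈ Set.Icc (0 : ℝ) 1, ‖(τ : ℂ) * s‖ < 𝓡.R := by
    intro τ hτ
    rw [norm_mul, Complex.norm_real, Real.norm_eq_abs, abs_of_nonneg hτ.1]
    calc τ * ‖s‖ ≤ 1 * ‖s‖ := mul_le_mul_of_nonneg_right hτ.2 (norm_nonneg _)
      _ = ‖s‖ := one_mul _
      _ < 𝓡.R := hs
  have h := lin_bound (fun τ : ℝ => (s * z⁻¹) • 𝓡.Mv ((τ : ℂ) * s) x)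
    (fun τ : ℝ => 𝓡.W ((τ : ℂ) * s) x z) (k := 𝓡.R * k / ‖z‖) (by
      intro τ hτ i j
      have h1 := 𝓡.W_ode (hle τ hτ) hx hz i j
      have h2 : HasDerivAt (fun τ : ℝ => (τ : ℂ) * s) s τ := by
        have h3 := (Complex.ofRealCLM.hasDerivAt (x := τ)).mul_const s
        simpa using h3
      have h4 := HasDerivAt.scomp τ h1 h2
      have h5 : s • (z⁻¹ • (𝓡.Mv ((τ : ℂ) * s) x * 𝓡.W ((τ : ℂ) * s) x z)) i j =
          ((s * z⁻¹) • 𝓡.Mv ((τ : ℂ) * s) x * 𝓡.W ((τ : ℂ) * s) x z) i j := by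
        rw [Matrix.smul_mul, mul_smul]
        rfl
      rw [h5] at h4
      exact h4) (by
      simp only [Complex.ofReal_zero, zero_mul]
      exact 𝓡.W_zero x z) (by
      intro τ hτ i j
      rw [Matrix.smul_apply, norm_smul, norm_mul, norm_inv]
      have h1 := hk _ x (hle τ hτ).le hx.le i j
      calc ‖s‖ * ‖z‖⁻¹ * ‖𝓡.Mv ((τ : ℂ) * s) x i j‖ ≤ 𝓡.R * ‖z‖⁻¹ * k := by
            apply mul_le_mul _ h1 (norm_nonneg _) (by positivity)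
            exact mul_le_mul_of_nonneg_right hs.le (by positivity)
        _ = 𝓡.R * k / ‖z‖ := by
            rw [div_eq_mul_inv]
            ring) i j
  simpa using h

private theorem vwb_g_bound (𝓡 : Ray N) (r₁ : ℝ) : ∃ K : ℝ, 0 ≤ K ∧ ∀ x : ℂ, ‖x‖ ≤ r₁ →
    ∀ i j, ‖𝓡.Q.g x i j‖ ≤ K ∧ ‖(𝓡.Q.g x)⁻¹ i j‖ ≤ K := by
  have hg : Continuous fun x : ℂ => 𝓡.Q.g x := by
    refine continuous_pi fun i => continuous_pi fun j => ?_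
    simp only [𝓡.g_eq, evm, Matrix.map_apply]
    exact (𝓡.pT i j).continuous
  have hdet : ∀ x, (𝓡.Q.g x).det ≠ 0 := fun x =>
    𝓡.Q.g_det x (by rw [𝓡.Λ_univ]; exact Set.mem_univ _)
  have hgi : Continuous fun x : ℂ => (𝓡.Q.g x)⁻¹ := by
    simp only [Matrix.inv_def, Ring.inverse_eq_inv']
    exact (hg.matrix_det.inv₀ hdet).smul hg.matrix_adjugate
  have h1 : ∀ i j, ∃ K : ℝ, 0 ≤ K ∧ ∀ x : ℂ, ‖x‖ ≤ r₁ →
      ‖𝓡.Q.g x i j‖ ≤ K ∧ ‖(𝓡.Q.g x)⁻¹ i j‖ ≤ K := by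
    intro i j
    obtain ⟨K₁, hK₁⟩ := (isCompact_closedBall (0 : ℂ) r₁).exists_bound_of_continuousOn
      ((continuous_apply j).comp ((continuous_apply i).comp hg)).continuousOn
    obtain ⟨K₂, hK₂⟩ := (isCompact_closedBall (0 : ℂ) r₁).exists_bound_of_continuousOn
      ((continuous_apply j).comp ((continuous_apply i).comp hgi)).continuousOn
    refine ⟨max 0 (max K₁ K₂), le_max_left _ _, fun x hx => ⟨?_, ?_⟩⟩
    · exact ((hK₁ x (by simpa using hx)).trans (le_max_left _ _)).trans (le_max_right _ _)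
    · exact ((hK₂ x (by simpa using hx)).trans (le_max_right _ _)).trans (le_max_right _ _)
  choose K hK0 hK using h1
  refine ⟨∑ i, ∑ j, K i j, Finset.sum_nonneg fun i _ => Finset.sum_nonneg fun j _ => hK0 i j,
    fun x hx i j => ?_⟩
  have h2 : K i j ≤ ∑ i, ∑ j, K i j :=
    le_trans (Finset.single_le_sum (f := fun j => K i j) (fun j _ => hK0 i j) (Finset.mem_univ j))
      (Finset.single_le_sum (f := fun i => ∑ j, K i j)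
        (fun i _ => Finset.sum_nonneg fun j _ => hK0 i j) (Finset.mem_univ i))
  exact ⟨(hK i j x hx).1.trans h2, (hK i j x hx).2.trans h2⟩

private theorem vwb_prod {A B : Matrix (Fin N) (Fin N) ℂ} {a b : ℝ} (hA : ∀ i j, ‖A i j‖ ≤ a)
    (hB : ∀ i j, ‖B i j‖ ≤ b) (i j : Fin N) : ‖(A * B) i j‖ ≤ N * (a * b) := by
  rw [Matrix.mul_apply]
  calc ‖∑ k, A i k * B k j‖ ≤ ∑ k : Fin N, a * b := by
        refine norm_sum_le_of_le _ fun k _ => ?_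
        rw [norm_mul]
        exact mul_le_mul (hA i k) (hB k j) (norm_nonneg _) ((norm_nonneg _).trans (hA i k))
    _ = N * (a * b) := by simp

theorem Ray.g_Mv (𝓡 : Ray N) {s x : ℂ} (hs : ‖s‖ < 𝓡.R) (hx : ‖x‖ < 𝓡.r) :
    𝓡.Q.g x * 𝓡.Mv s x = (𝓡.Mv s x).transpose * 𝓡.Q.g x := by
  exact vwb_symm 𝓡 hs hx 𝓡.M 𝓡.M_conv 𝓡.selfM

theorem Ray.g_Cv (𝓡 : Ray N) {s x : ℂ} (hs : ‖s‖ < 𝓡.R) (hx : ‖x‖ < 𝓡.r) :
    𝓡.Q.g x * 𝓡.Cv s x = (𝓡.Cv s x).transpose * 𝓡.Q.g x := by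
  exact vwb_symm 𝓡 hs hx 𝓡.C 𝓡.C_conv 𝓡.selfC

theorem Ray.W_pair (𝓡 : Ray N) {s x z : ℂ} (hs : ‖s‖ < 𝓡.R) (hx : ‖x‖ < 𝓡.r) (hz : z ≠ 0) :
    (𝓡.W s x (-z)).transpose * 𝓡.Q.g x * 𝓡.W s x z = 𝓡.Q.g x := by
  have hR : 0 < 𝓡.R := zero_lt_one.trans 𝓡.hR
  have hz' : -z ≠ 0 := neg_ne_zero.2 hz
  have hd : ∀ u ∈ Metric.ball (0 : ℂ) 𝓡.R, ∀ i j, HasDerivAt
      (fun u => ((𝓡.W u x (-z)).transpose * 𝓡.Q.g x * 𝓡.W u x z) i j) 0 u := by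
    intro u hu i j
    have hu' : ‖u‖ < 𝓡.R := by simpa using hu
    have h1 : ∀ i j, HasDerivAt (fun u => (𝓡.W u x (-z)).transpose i j)
        (((-z)⁻¹ • (𝓡.Mv u x * 𝓡.W u x (-z))).transpose i j) u :=
      fun i j => 𝓡.W_ode hu' hx hz' j i
    have h2 : ∀ i j, HasDerivAt (fun _ : ℂ => 𝓡.Q.g x i j)
        ((0 : Matrix (Fin N) (Fin N) ℂ) i j) u := fun i j => hasDerivAt_const _ _
    have h3 := vwb_mul (vwb_mul h1 h2) (𝓡.W_ode hu' hx hz) i j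
    have h4 : (((-z)⁻¹ • (𝓡.Mv u x * 𝓡.W u x (-z))).transpose * 𝓡.Q.g x +
        (𝓡.W u x (-z)).transpose * 0) * 𝓡.W u x z +
        (𝓡.W u x (-z)).transpose * 𝓡.Q.g x * (z⁻¹ • (𝓡.Mv u x * 𝓡.W u x z)) = 0 := by
      have h5 := vwb_symm 𝓡 hu' hx 𝓡.M 𝓡.M_conv 𝓡.selfM
      have h6 : 𝓡.M.map (evs u x) = 𝓡.Mv u x := rfl
      rw [h6] at h5
      rw [Matrix.transpose_smul, Matrix.transpose_mul, Matrix.mul_zero, add_zero,
        Matrix.smul_mul, Matrix.smul_mul, Matrix.mul_smul, inv_neg, neg_smul, Matrix.mul_assoc,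
        Matrix.mul_assoc, Matrix.mul_assoc (𝓡.W u x (-z)).transpose (𝓡.Q.g x),
        ← Matrix.mul_assoc (𝓡.Q.g x) (𝓡.Mv u x), h5, Matrix.mul_assoc]
      exact neg_add_cancel _
    rw [h4] at h3
    exact h3
  ext i j
  have hc := (Metric.isOpen_ball (x := (0 : ℂ)) (ε := 𝓡.R)).is_const_of_deriv_eq_zero
    (convex_ball (0 : ℂ) 𝓡.R).isPreconnected
    (f := fun u => ((𝓡.W u x (-z)).transpose * 𝓡.Q.g x * 𝓡.W u x z) i j)
    (fun u hu => (hd u hu i j).differentiableAt.differentiableWithinAt)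
    (fun u hu => (hd u hu i j).deriv) (x := s) (y := 0) (by simpa using hs)
    (Metric.mem_ball_self hR)
  refine hc.trans ?_
  show ((𝓡.W 0 x (-z)).transpose * 𝓡.Q.g x * 𝓡.W 0 x z) i j = 𝓡.Q.g x i j
  rw [𝓡.W_zero, 𝓡.W_zero, Matrix.transpose_one, Matrix.one_mul, Matrix.mul_one]

theorem Ray.W_bound (𝓡 : Ray N) {s₁ r₁ : ℝ} (hs : s₁ < 𝓡.R) (hr : r₁ < 𝓡.r) :
    ∃ C : ℝ, ∀ s x z : ℂ, ‖s‖ ≤ s₁ → ‖x‖ ≤ r₁ → z ≠ 0 → ∀ i j,
      ‖𝓡.W s x z i j‖ ≤ C * Real.exp (C / ‖z‖) ∧ ‖(𝓡.W s x z)⁻¹ i j‖ ≤ C * Real.exp (C / ‖z‖) := by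
  have hR : 0 < 𝓡.R := zero_lt_one.trans 𝓡.hR
  obtain ⟨k, hk⟩ := vwb_v_bound 𝓡
  obtain ⟨K, hK0, hK⟩ := vwb_g_bound 𝓡 r₁
  obtain ⟨C₁, hC₁⟩ : ∃ C₁ : ℝ, C₁ = N * (𝓡.R * k) := ⟨_, rfl⟩
  obtain ⟨C₂, hC₂⟩ : ∃ C₂ : ℝ, C₂ = N * ((N * (K * 1)) * K) := ⟨_, rfl⟩
  have hC₂0 : 0 ≤ C₂ := by
    rw [hC₂]
    positivity
  refine ⟨|C₁| + C₂ + 1, fun s x z hs' hx' hz i j => ?_⟩
  have hs2 : ‖s‖ < 𝓡.R := hs'.trans_lt hs
  have hx2 : ‖x‖ < 𝓡.r := hx'.trans_lt hr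
  have hz0 : 0 < ‖z‖ := norm_pos_iff.2 hz
  have hW : ∀ (z : ℂ), z ≠ 0 → ∀ i j, ‖𝓡.W s x z i j‖ ≤ Real.exp (C₁ / ‖z‖) := by
    intro z hz i j
    have h1 := vwb_ode 𝓡 hs2 hx2 hz (fun s x hs hx i j => (hk s x hs hx i j).1) i j
    rw [hC₁, mul_div_assoc]
    exact h1
  have hE : Real.exp (C₁ / ‖z‖) ≤ Real.exp ((|C₁| + C₂ + 1) / ‖z‖) := by
    apply Real.exp_le_exp.2
    apply div_le_div_of_nonneg_right _ hz0.le
    linarith [le_abs_self C₁]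
  have hpos : 0 < Real.exp ((|C₁| + C₂ + 1) / ‖z‖) := Real.exp_pos _
  have hone : 1 ≤ |C₁| + C₂ + 1 := by
    linarith [abs_nonneg C₁]
  refine ⟨?_, ?_⟩
  · calc ‖𝓡.W s x z i j‖ ≤ Real.exp (C₁ / ‖z‖) := hW z hz i j
      _ ≤ 1 * Real.exp ((|C₁| + C₂ + 1) / ‖z‖) := by rw [one_mul]; exact hE
      _ ≤ _ := mul_le_mul_of_nonneg_right hone hpos.le
  · have hp := 𝓡.W_pair hs2 hx2 hz
    have hdet : IsUnit (𝓡.Q.g x).det := isUnit_iff_ne_zero.2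
      (𝓡.Q.g_det x (by rw [𝓡.Λ_univ]; exact Set.mem_univ _))
    have hinv : (𝓡.W s x z)⁻¹ = (𝓡.Q.g x)⁻¹ * (𝓡.W s x (-z)).transpose * 𝓡.Q.g x := by
      apply Matrix.inv_eq_left_inv
      rw [Matrix.mul_assoc, Matrix.mul_assoc, ← Matrix.mul_assoc (𝓡.W s x (-z)).transpose, hp,
        Matrix.nonsing_inv_mul _ hdet]
    have hWt : ∀ i j, ‖(𝓡.W s x (-z)).transpose i j‖ ≤ 1 * Real.exp (C₁ / ‖z‖) := by
      intro i j
      have h1 := hW (-z) (neg_ne_zero.2 hz) j i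
      rw [norm_neg] at h1
      rw [one_mul]
      exact h1
    rw [hinv]
    have h2 := vwb_prod (vwb_prod (fun i j => (hK x hx' i j).2) hWt) (fun i j => (hK x hx' i j).1)
      i j
    refine h2.trans ?_
    calc (N : ℝ) * ((N * (K * (1 * Real.exp (C₁ / ‖z‖)))) * K)
        = C₂ * Real.exp (C₁ / ‖z‖) := by rw [hC₂]; ring
      _ ≤ (|C₁| + C₂ + 1) * Real.exp ((|C₁| + C₂ + 1) / ‖z‖) := by
          apply mul_le_mul _ hE (Real.exp_pos _).le (by linarith)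
          linarith [abs_nonneg C₁]

theorem Ray.v_bound (𝓡 : Ray N) : ∃ k : ℝ, ∀ s x : ℂ, ‖s‖ ≤ 𝓡.R → ‖x‖ ≤ 𝓡.r → ∀ i j,
    ‖𝓡.Mv s x i j‖ ≤ k ∧ ‖𝓡.Cv s x i j‖ ≤ k := by
  exact vwb_v_bound 𝓡

end Pool.Agent.DST
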