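import Pool.Agent.DST.VMax
import Pool.Agent.DST.VWb

/-!
# DST-VS: the shift operator at `t + s v`

The coefficients of the shift operator `S` and of its inverse `P` satisfy `z S' = M S - S M⁻`, `z P' = M⁻ P - P M`
(`M⁻` is `M` at `λ - z`); a majorant argument bounds them for `‖z‖ ≥ δ` (`VHyp`), and `VMax` gives convergence for all `z`. The
formal identity `S W⁻ = W S₀` (uniqueness for `z Y' = M Y`) gives `Sv_mul`, and `P S = 1` gives `Sv_det`.
-/

open scoped BigOperators Topology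
open Filter

namespace Pool.Agent.DST

open Pool.Agent.SHF

variable {N : ℕ}

section abstract_bounds

open scoped Matrix.Norms.Operator

private theorem entry_le (M : Matrix (Fin N) (Fin N) ℂ) (i j : Fin N) : ‖M i j‖ ≤ ‖M‖ := by
  rw [Matrix.linfty_opNorm_def]
  have h1 : ‖M i j‖₊ ≤ ∑ j, ‖M i j‖₊ :=
    Finset.single_le_sum (f := fun j => ‖M i j‖₊) (fun _ _ => zero_le) (Finset.mem_univ j)
  have h2 : ∑ j, ‖M i j‖₊ ≤ (Finset.univ : Finset (Fin N)).sup fun i => ∑ j, ‖M i j‖₊ :=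
    Finset.le_sup (f := fun i => ∑ j, ‖M i j‖₊) (Finset.mem_univ i)
  exact_mod_cast h1.trans h2

private theorem norm_le_ent (M : Matrix (Fin N) (Fin N) ℂ) {k : ℝ} (hk : 0 ≤ k)
    (h : ∀ i j, ‖M i j‖ ≤ k) : ‖M‖ ≤ N * k := by
  rw [Matrix.linfty_opNorm_def]
  lift k to NNReal using hk
  have : (Finset.univ : Finset (Fin N)).sup (fun i => ∑ j, ‖M i j‖₊) ≤ (N : NNReal) * k := by
    refine Finset.sup_le fun i _ => ?_
    calc ∑ j, ‖M i j‖₊ ≤ ∑ _j : Fin N, k := Finset.sum_le_sum fun j _ => h i j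
      _ = (N : NNReal) * k := by simp
  exact_mod_cast this

/-- the majorant lemma -/
private theorem major {c R R' : ℝ} (hc : 0 ≤ c) (hR' : 0 < R') (hRR : R' < R) :
    ∃ B : ℝ, 0 ≤ B ∧ ∀ m : ℕ → ℝ, (∀ n, 0 ≤ m n) →
      (∀ n : ℕ, ((n : ℝ) + 1) * m (n + 1) ≤ c * ∑ p ∈ Finset.HasAntidiagonal.antidiagonal n, m p.2 / R ^ p.1) →
        ∀ n, m n ≤ m 0 * B / R' ^ n := by
  have hR : 0 < R := hR'.trans hRR
  set θ : ℝ := R' / R with hθ
  have hθ0 : 0 ≤ θ := by positivity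
  have hθ1 : θ < 1 := by rw [hθ, div_lt_one hR]; exact hRR
  have h1θ : 0 < 1 - θ := by linarith
  set κ : ℝ := c * R' / (1 - θ) with hκ
  have hκ0 : 0 ≤ κ := by positivity
  set K : ℝ := max 1 κ with hK
  have hK1 : 1 ≤ K := le_max_left _ _
  have hKκ : κ ≤ K := le_max_right _ _
  have hK0 : 0 ≤ K := by linarith
  set n₀ : ℕ := ⌈κ⌉₊ with hn₀
  have hκn : κ ≤ n₀ := Nat.le_ceil κ
  refine ⟨K ^ n₀, by positivity, fun m hm0 hrec => ?_⟩
  have hgeo : ∀ n : ℕ, ∑ p ∈ Finset.HasAntidiagonal.antidiagonal n, θ ^ p.1 ≤ (1 - θ)⁻¹ := by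
    intro n
    rw [Finset.Nat.sum_antidiagonal_eq_sum_range_succ (fun a _ => θ ^ a) n, ← tsum_geometric_of_lt_one hθ0 hθ1]
    exact (summable_geometric_of_lt_one hθ0 hθ1).sum_le_tsum _ fun _ _ => by positivity
  have claim : ∀ n, ∀ j ≤ n, m j * R' ^ j ≤ m 0 * K ^ min n n₀ := by
    intro n
    induction n with
    | zero =>
      intro j hj
      have : j = 0 := by omega
      subst this
      simp
    | succ n ih =>
      intro j hj
      have hmono : m 0 * K ^ min n n₀ ≤ m 0 * K ^ min (n + 1) n₀ :=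
        mul_le_mul_of_nonneg_left (pow_le_pow_right₀ hK1 (min_le_min_right _ (Nat.le_succ n))) (hm0 0)
      rcases Nat.lt_or_ge j (n + 1) with h | h
      · exact (ih j (by omega)).trans hmono
      have hj' : j = n + 1 := by omega
      subst hj'
      set T : ℝ := m (n + 1) * R' ^ (n + 1) with hT
      set Q : ℝ := m 0 * K ^ min n n₀ with hQ
      have hT0 : 0 ≤ T := mul_nonneg (hm0 _) (by positivity)
      have hQ0 : 0 ≤ Q := mul_nonneg (hm0 _) (by positivity)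
      have h1 : ((n : ℝ) + 1) * T ≤ κ * Q := by
        have h2 : ((n : ℝ) + 1) * T ≤ (c * ∑ p ∈ Finset.HasAntidiagonal.antidiagonal n, m p.2 / R ^ p.1) * R' ^ (n + 1) := by
          rw [hT, ← mul_assoc]
          exact mul_le_mul_of_nonneg_right (hrec n) (by positivity)
        refine h2.trans ?_
        have h3 : (c * ∑ p ∈ Finset.HasAntidiagonal.antidiagonal n, m p.2 / R ^ p.1) * R' ^ (n + 1) =
            c * R' * ∑ p ∈ Finset.HasAntidiagonal.antidiagonal n, θ ^ p.1 * (m p.2 * R' ^ p.2) := by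
          rw [Finset.mul_sum, Finset.mul_sum, Finset.sum_mul]
          refine Finset.sum_congr rfl fun p hp => ?_
          rw [← Finset.HasAntidiagonal.mem_antidiagonal.mp hp, hθ, div_pow, pow_succ, pow_add]
          field_simp
        rw [h3]
        have h4 : ∑ p ∈ Finset.HasAntidiagonal.antidiagonal n, θ ^ p.1 * (m p.2 * R' ^ p.2) ≤ (1 - θ)⁻¹ * Q := by
          calc ∑ p ∈ Finset.HasAntidiagonal.antidiagonal n, θ ^ p.1 * (m p.2 * R' ^ p.2)
              ≤ ∑ p ∈ Finset.HasAntidiagonal.antidiagonal n, θ ^ p.1 * Q := by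
                refine Finset.sum_le_sum fun p hp => mul_le_mul_of_nonneg_left ?_ (by positivity)
                have := Finset.HasAntidiagonal.mem_antidiagonal.mp hp
                exact ih p.2 (by omega)
            _ = (∑ p ∈ Finset.HasAntidiagonal.antidiagonal n, θ ^ p.1) * Q := by rw [Finset.sum_mul]
            _ ≤ (1 - θ)⁻¹ * Q := mul_le_mul_of_nonneg_right (hgeo n) hQ0
        calc c * R' * ∑ p ∈ Finset.HasAntidiagonal.antidiagonal n, θ ^ p.1 * (m p.2 * R' ^ p.2) ≤ c * R' * ((1 - θ)⁻¹ * Q) :=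
              mul_le_mul_of_nonneg_left h4 (by positivity)
          _ = κ * Q := by rw [hκ]; field_simp
      rcases Nat.lt_or_ge n n₀ with hn | hn
      · rw [min_eq_left (by omega : n + 1 ≤ n₀), pow_succ]
        have h5 : Q = m 0 * K ^ n := by rw [hQ, min_eq_left hn.le]
        have h6 : κ * Q ≤ K * Q := mul_le_mul_of_nonneg_right hKκ hQ0
        have h7 : T ≤ ((n : ℝ) + 1) * T := by
          have : (0 : ℝ) ≤ n := Nat.cast_nonneg n
          nlinarith
        calc T ≤ K * Q := by linarith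
          _ = m 0 * (K ^ n * K) := by rw [h5]; ring
      · have h5 : κ ≤ (n : ℝ) + 1 := by
          have : (n₀ : ℝ) ≤ n := by exact_mod_cast hn
          linarith
        have h6 : ((n : ℝ) + 1) * T ≤ ((n : ℝ) + 1) * Q := h1.trans (mul_le_mul_of_nonneg_right h5 hQ0)
        have h7 : T ≤ Q := le_of_mul_le_mul_left h6 (by positivity)
        exact h7.trans hmono
  intro n
  rw [le_div_iff₀ (by positivity)]
  refine (claim n n le_rfl).trans ?_
  exact mul_le_mul_of_nonneg_left (pow_le_pow_right₀ hK1 (min_le_right _ _)) (hm0 0)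

/-- matrices of coefficients -/
private noncomputable def cm (n : ℕ) (A : Matrix (Fin N) (Fin N) (PowerSeries ℂ)) : Matrix (Fin N) (Fin N) ℂ :=
  A.map fun f => PowerSeries.coeff n f

private theorem cm_mul (n : ℕ) (A B : Matrix (Fin N) (Fin N) (PowerSeries ℂ)) :
    cm n (A * B) = ∑ p ∈ Finset.HasAntidiagonal.antidiagonal n, cm p.1 A * cm p.2 B := by
  ext i j
  rw [Matrix.sum_apply]
  unfold cm
  rw [Matrix.map_apply, Matrix.mul_apply, map_sum]
  simp_rw [PowerSeries.coeff_mul]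
  rw [Finset.sum_comm]
  refine Finset.sum_congr rfl fun p _ => ?_
  rw [Matrix.mul_apply]
  rfl

private theorem cm_sub (n : ℕ) (A B : Matrix (Fin N) (Fin N) (PowerSeries ℂ)) :
    cm n (A - B) = cm n A - cm n B := by
  ext i j
  unfold cm
  rw [Matrix.map_apply, Matrix.sub_apply, map_sub]
  rfl

private theorem cm_deriv (n : ℕ) (z : ℂ) (Y : Matrix (Fin N) (Fin N) (PowerSeries ℂ)) :
    cm n ((PowerSeries.C z) • Y.map (PowerSeries.derivative ℂ)) = (((n : ℂ) + 1) * z) • cm (n + 1) Y := by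
  ext i j
  unfold cm
  rw [Matrix.map_apply, Matrix.smul_apply, Matrix.map_apply, smul_eq_mul, PowerSeries.coeff_C_mul,
    PowerSeries.coeff_derivative, Matrix.smul_apply, Matrix.map_apply, smul_eq_mul]
  ring

/-- the bound of the coefficients of the solutions of `z Y' = A Y - Y B` -/
private theorem bnd0 {a δ R R' : ℝ} (ha : 0 ≤ a) (hδ : 0 < δ) (hR' : 0 < R') (hRR : R' < R) :
    ∃ B₀ : ℝ, 0 ≤ B₀ ∧ ∀ (Y A B : Matrix (Fin N) (Fin N) (PowerSeries ℂ)) (z : ℂ), δ ≤ ‖z‖ →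
      (PowerSeries.C z) • Y.map (PowerSeries.derivative ℂ) = A * Y - Y * B →
      (∀ k, ‖cm k A‖ ≤ a / R ^ k) → (∀ k, ‖cm k B‖ ≤ a / R ^ k) → ∀ n, ‖cm n Y‖ ≤ ‖cm 0 Y‖ * B₀ / R' ^ n := by
  have hR : 0 < R := hR'.trans hRR
  obtain ⟨B₀, hB₀, hmaj⟩ := major (c := 2 * a / δ) (by positivity) hR' hRR
  refine ⟨B₀, hB₀, fun Y A B z hz hY hA hB => hmaj (fun n => ‖cm n Y‖) (fun n => norm_nonneg _) fun n => ?_⟩
  have h1 := congrArg (cm n) hY
  rw [cm_deriv, cm_sub, cm_mul, cm_mul, ← Finset.Nat.sum_antidiagonal_swap (f := fun p => cm p.1 Y * cm p.2 B)] at h1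
  have h2 : ‖(((n : ℂ) + 1) * z) • cm (n + 1) Y‖ ≤ 2 * a * ∑ p ∈ Finset.HasAntidiagonal.antidiagonal n, ‖cm p.2 Y‖ / R ^ p.1 := by
    rw [h1]
    refine (norm_sub_le _ _).trans ?_
    have h3 : ‖∑ p ∈ Finset.HasAntidiagonal.antidiagonal n, cm p.1 A * cm p.2 Y‖ ≤
        ∑ p ∈ Finset.HasAntidiagonal.antidiagonal n, a * (‖cm p.2 Y‖ / R ^ p.1) := by
      refine norm_sum_le_of_le _ fun p _ => ?_
      refine (norm_mul_le _ _).trans ?_
      calc ‖cm p.1 A‖ * ‖cm p.2 Y‖ ≤ a / R ^ p.1 * ‖cm p.2 Y‖ := mul_le_mul_of_nonneg_right (hA _) (norm_nonneg _)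
        _ = a * (‖cm p.2 Y‖ / R ^ p.1) := by ring
    have h4 : ‖∑ p ∈ Finset.HasAntidiagonal.antidiagonal n, cm p.swap.1 Y * cm p.swap.2 B‖ ≤
        ∑ p ∈ Finset.HasAntidiagonal.antidiagonal n, a * (‖cm p.2 Y‖ / R ^ p.1) := by
      refine norm_sum_le_of_le _ fun p _ => ?_
      refine (norm_mul_le _ _).trans ?_
      calc ‖cm p.2 Y‖ * ‖cm p.1 B‖ ≤ ‖cm p.2 Y‖ * (a / R ^ p.1) := mul_le_mul_of_nonneg_left (hB _) (norm_nonneg _)
        _ = a * (‖cm p.2 Y‖ / R ^ p.1) := by ring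
    rw [← Finset.mul_sum] at h3 h4
    calc _ ≤ _ := add_le_add h3 h4
      _ = _ := by ring
  have h5 : ‖(((n : ℂ) + 1) * z) • cm (n + 1) Y‖ = ((n : ℝ) + 1) * ‖z‖ * ‖cm (n + 1) Y‖ := by
    rw [norm_smul, norm_mul]
    congr 2
    rw [show ((n : ℂ) + 1) = ((n + 1 : ℕ) : ℂ) by push_cast; rfl, Complex.norm_natCast]
    push_cast
    rfl
  rw [h5] at h2
  have h6 : ((n : ℝ) + 1) * δ * ‖cm (n + 1) Y‖ ≤ ((n : ℝ) + 1) * ‖z‖ * ‖cm (n + 1) Y‖ := by
    refine mul_le_mul_of_nonneg_right (mul_le_mul_of_nonneg_left hz (by positivity)) (norm_nonneg _)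
  have h7 := h6.trans h2
  show ((n : ℝ) + 1) * ‖cm (n + 1) Y‖ ≤ 2 * a / δ * ∑ p ∈ Finset.HasAntidiagonal.antidiagonal n, ‖cm p.2 Y‖ / R ^ p.1
  rw [div_mul_eq_mul_div, le_div_iff₀ hδ]
  calc ((n : ℝ) + 1) * ‖cm (n + 1) Y‖ * δ = ((n : ℝ) + 1) * δ * ‖cm (n + 1) Y‖ := by ring
    _ ≤ _ := h7

end abstract_bounds


/-! formal identities -/

private theorem dmul {k : Type} [CommRing k] (A B : Matrix (Fin N) (Fin N) (PowerSeries k)) :
    (A * B).map (PowerSeries.derivative k) =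
      A.map (PowerSeries.derivative k) * B + A * B.map (PowerSeries.derivative k) := by
  ext1 i j
  rw [Matrix.map_apply, Matrix.mul_apply, map_sum, Matrix.add_apply, Matrix.mul_apply, Matrix.mul_apply,
    ← Finset.sum_add_distrib]
  refine Finset.sum_congr rfl fun l _ => ?_
  rw [Derivation.leibniz, Matrix.map_apply, Matrix.map_apply, smul_eq_mul, smul_eq_mul]
  ring

private theorem dmap {k k' : Type} [CommRing k] [CommRing k'] (φ : k →+* k') (f : PowerSeries k) :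
    PowerSeries.map φ (PowerSeries.derivative k f) = PowerSeries.derivative k' (PowerSeries.map φ f) := by
  ext n
  rw [PowerSeries.coeff_map, PowerSeries.coeff_derivative, PowerSeries.coeff_derivative, PowerSeries.coeff_map,
    map_mul, map_add, map_natCast, map_one]

/-- the equation of the inverse matrix -/
private theorem inv_eq {k : Type} [CommRing k] (c : PowerSeries k) {S P A B : Matrix (Fin N) (Fin N) (PowerSeries k)}
    (hSP : S * P = 1) (hPS : P * S = 1) (h : c • S.map (PowerSeries.derivative k) = A * S - S * B) :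
    c • P.map (PowerSeries.derivative k) = B * P - P * A := by
  have h1 : S.map (PowerSeries.derivative k) * P + S * P.map (PowerSeries.derivative k) = 0 := by
    rw [← dmul, hSP]
    ext1 i j
    rw [Matrix.map_apply, Matrix.zero_apply]
    by_cases hij : i = j
    · rw [hij, Matrix.one_apply_eq, PowerSeries.derivative_one]
    · rw [Matrix.one_apply_ne hij, map_zero]
  have h2 : P.map (PowerSeries.derivative k) = -(P * S.map (PowerSeries.derivative k) * P) := by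
    have h3 := congrArg (fun Z => P * Z) h1
    simp only [Matrix.mul_add, Matrix.mul_zero] at h3
    rw [← Matrix.mul_assoc P S, hPS, Matrix.one_mul, ← Matrix.mul_assoc] at h3
    exact eq_neg_of_add_eq_zero_right h3
  rw [h2, smul_neg]
  have h4 : c • (P * S.map (PowerSeries.derivative k) * P) = P * (c • S.map (PowerSeries.derivative k)) * P := by
    rw [Matrix.mul_smul, Matrix.smul_mul]
  rw [h4, h, Matrix.mul_sub, Matrix.sub_mul]
  have h5 : P * (A * S) * P = P * A := by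
    rw [Matrix.mul_assoc, Matrix.mul_assoc, hSP, Matrix.mul_one]
  have h6 : P * (S * B) * P = B * P := by
    rw [← Matrix.mul_assoc P S B, hPS, Matrix.one_mul]
  rw [h5, h6, neg_sub]

/-- uniqueness -/
private theorem uniq {z : ℂ} (hz : z ≠ 0) {A Y : Matrix (Fin N) (Fin N) (PowerSeries ℂ)}
    (hY : (PowerSeries.C z) • Y.map (PowerSeries.derivative ℂ) = A * Y) (h0 : cm 0 Y = 0) : Y = 0 := by
  have h : ∀ n, ∀ j ≤ n, cm j Y = 0 := by
    intro n
    induction n with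
    | zero =>
      intro j hj
      have : j = 0 := by omega
      rw [this, h0]
    | succ n ih =>
      intro j hj
      rcases Nat.lt_or_ge j (n + 1) with h | h
      · exact ih j (by omega)
      have hj' : j = n + 1 := by omega
      subst hj'
      have h1 := congrArg (cm n) hY
      rw [cm_deriv, cm_mul, Finset.sum_eq_zero] at h1
      · have h2 : ((n : ℂ) + 1) * z ≠ 0 := mul_ne_zero (Nat.cast_add_one_ne_zero n) hz
        exact (smul_eq_zero.mp h1).resolve_left h2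
      · intro p hp
        have := Finset.HasAntidiagonal.mem_antidiagonal.mp hp
        rw [ih p.2 (by omega), Matrix.mul_zero]
  ext i j n
  have h1 := congrFun (congrFun (h n n le_rfl) i) j
  exact h1

/-- the fundamental solution as a formal power series -/
private noncomputable def Wh (𝓡 : Ray N) (x z : ℂ) : Matrix (Fin N) (Fin N) (PowerSeries ℂ) :=
  Matrix.of fun i j => PowerSeries.mk fun n => 𝓡.Wc x z n i j

private noncomputable def Mh (𝓡 : Ray N) (x : ℂ) : Matrix (Fin N) (Fin N) (PowerSeries ℂ) :=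
  𝓡.M.map (PowerSeries.map (Polynomial.evalRingHom x))

private theorem cm_Wh (𝓡 : Ray N) (x z : ℂ) (n : ℕ) : cm n (Wh 𝓡 x z) = 𝓡.Wc x z n := by
  ext i j
  unfold cm Wh
  rw [Matrix.map_apply, Matrix.of_apply, PowerSeries.coeff_mk]

private theorem cm_Mh (𝓡 : Ray N) (x : ℂ) (n : ℕ) : cm n (Mh 𝓡 x) = 𝓡.Mc x n := by
  ext i j
  unfold cm Mh Ray.Mc
  rw [Matrix.map_apply, Matrix.map_apply, Matrix.map_apply, PowerSeries.coeff_map]
  rfl

private theorem ext_cm {A B : Matrix (Fin N) (Fin N) (PowerSeries ℂ)} (h : ∀ n, cm n A = cm n B) : A = B := by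
  ext i j n
  exact congrFun (congrFun (h n) i) j

private theorem W_formal (𝓡 : Ray N) (x : ℂ) {z : ℂ} (hz : z ≠ 0) :
    (PowerSeries.C z) • (Wh 𝓡 x z).map (PowerSeries.derivative ℂ) = Mh 𝓡 x * Wh 𝓡 x z := by
  apply ext_cm
  intro n
  rw [cm_deriv, cm_mul, cm_Wh, Ray.Wc, smul_smul, mul_inv_cancel₀ (mul_ne_zero (Nat.cast_add_one_ne_zero n) hz),
    one_smul]
  simp_rw [cm_Wh, cm_Mh]
  rw [Finset.Nat.sum_antidiagonal_eq_sum_range_succ (fun a b => 𝓡.Mc x a * 𝓡.Wc x z b) n, Finset.sum_range]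

/-- values of the coefficients -/
private noncomputable def Vh (x z : ℂ) (A : Matrix (Fin N) (Fin N) (PowerSeries (Polynomial (Polynomial ℂ)))) :
    Matrix (Fin N) (Fin N) (PowerSeries ℂ) := A.map (PowerSeries.map (Polynomial.evalEvalRingHom x z))

private theorem Vh_mul (x z : ℂ) (A B : Matrix (Fin N) (Fin N) (PowerSeries (Polynomial (Polynomial ℂ)))) :
    Vh x z (A * B) = Vh x z A * Vh x z B := Matrix.map_mul

private theorem Vh_one (x z : ℂ) : Vh x z (1 : Matrix (Fin N) (Fin N) (PowerSeries (Polynomial (Polynomial ℂ)))) = 1 :=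
  Matrix.map_one _ (map_zero _) (map_one _)

private theorem Vh_sub (x z : ℂ) (A B : Matrix (Fin N) (Fin N) (PowerSeries (Polynomial (Polynomial ℂ)))) :
    Vh x z (A - B) = Vh x z A - Vh x z B := by
  ext1 i j
  exact map_sub (PowerSeries.map (Polynomial.evalEvalRingHom x z)) (A i j) (B i j)

private theorem Vh_deriv (x z : ℂ) (A : Matrix (Fin N) (Fin N) (PowerSeries (Polynomial (Polynomial ℂ)))) :
    Vh x z ((PowerSeries.C (Polynomial.X : Polynomial (Polynomial ℂ))) •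
      A.map (PowerSeries.derivative (Polynomial (Polynomial ℂ)))) =
      (PowerSeries.C z) • (Vh x z A).map (PowerSeries.derivative ℂ) := by
  ext1 i j
  unfold Vh
  rw [Matrix.map_apply, Matrix.smul_apply, smul_eq_mul, map_mul, PowerSeries.map_C, Matrix.map_apply, dmap,
    Matrix.smul_apply, Matrix.map_apply, Matrix.map_apply, smul_eq_mul]
  congr 2
  exact Polynomial.evalEval_X x z

theorem shiftHom_evalEval (p : Polynomial ℂ) (x z : ℂ) :
    (shiftHom 1 p).evalEval x z = p.eval (x - z) := by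
  have h : ((Polynomial.evalEvalRingHom x z).comp (shiftHom 1)) = Polynomial.evalRingHom (x - z) := by
    refine Polynomial.ringHom_ext (fun a => ?_) ?_
    · rw [RingHom.comp_apply]
      unfold shiftHom
      rw [Polynomial.coe_eval₂RingHom, Polynomial.eval₂_C]
      show Polynomial.evalEval x z (Polynomial.C (Polynomial.C a)) = Polynomial.eval (x - z) (Polynomial.C a)
      rw [Polynomial.evalEval_C, Polynomial.eval_C, Polynomial.eval_C]
    · rw [RingHom.comp_apply]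
      unfold shiftHom
      rw [Polynomial.coe_eval₂RingHom, Polynomial.eval₂_X]
      show Polynomial.evalEval x z (Polynomial.C Polynomial.X - ((1 : ℤ) : Polynomial (Polynomial ℂ)) * Polynomial.X) =
        Polynomial.eval (x - z) Polynomial.X
      rw [Polynomial.evalEval_sub, Polynomial.evalEval_mul, Polynomial.evalEval_C, Polynomial.evalEval_intCast,
        Polynomial.evalEval_X, Polynomial.eval_X, Polynomial.eval_X, Int.cast_one, one_mul]
  exact congrArg (fun φ : Polynomial ℂ →+* ℂ => φ p) h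

private theorem Vh_C (𝓡 : Ray N) (x z : ℂ) : Vh x z (𝓡.M.map (PowerSeries.map Polynomial.C)) = Mh 𝓡 x := by
  ext1 i j
  unfold Vh Mh
  rw [Matrix.map_apply, Matrix.map_apply, Matrix.map_apply]
  ext n
  rw [PowerSeries.coeff_map, PowerSeries.coeff_map, PowerSeries.coeff_map]
  exact Polynomial.evalEval_C x z _

private theorem Vh_shift (𝓡 : Ray N) (x z : ℂ) :
    Vh x z (𝓡.M.map (PowerSeries.map (shiftHom 1))) = Mh 𝓡 (x - z) := by
  ext1 i j
  unfold Vh Mh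
  rw [Matrix.map_apply, Matrix.map_apply, Matrix.map_apply]
  ext n
  rw [PowerSeries.coeff_map, PowerSeries.coeff_map, PowerSeries.coeff_map]
  exact shiftHom_evalEval _ x z

private theorem S_formal (𝓡 : Ray N) (x z : ℂ) :
    (PowerSeries.C z) • (Vh x z 𝓡.S).map (PowerSeries.derivative ℂ) =
      Mh 𝓡 x * Vh x z 𝓡.S - Vh x z 𝓡.S * Mh 𝓡 (x - z) := by
  rw [← Vh_deriv, 𝓡.inter, Vh_sub, Vh_mul, Vh_mul, Vh_C, Vh_shift]

private theorem P_formal (𝓡 : Ray N) (x z : ℂ) :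
    (PowerSeries.C z) • (Vh x z 𝓡.S⁻¹).map (PowerSeries.derivative ℂ) =
      Mh 𝓡 (x - z) * Vh x z 𝓡.S⁻¹ - Vh x z 𝓡.S⁻¹ * Mh 𝓡 x := by
  rw [← Vh_deriv, inv_eq _ (Matrix.mul_nonsing_inv _ 𝓡.S_unit) (Matrix.nonsing_inv_mul _ 𝓡.S_unit) 𝓡.inter,
    Vh_sub, Vh_mul, Vh_mul, Vh_C, Vh_shift]

private theorem cm_S_zero (𝓡 : Ray N) (x z : ℂ) : cm 0 (Vh x z 𝓡.S) = 𝓡.Q.S x z := by
  ext i j
  unfold cm Vh
  rw [Matrix.map_apply, Matrix.map_apply, PowerSeries.coeff_map, 𝓡.S_zero, PowerSeries.coeff_zero_eq_constantCoeff]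
  rfl

/-- `S W⁻ = W S₀` -/
private theorem SW (𝓡 : Ray N) (x : ℂ) {z : ℂ} (hz : z ≠ 0) :
    Vh x z 𝓡.S * Wh 𝓡 (x - z) z = Wh 𝓡 x z * (𝓡.Q.S x z).map PowerSeries.C := by
  have h := uniq hz (A := Mh 𝓡 x)
    (Y := Vh x z 𝓡.S * Wh 𝓡 (x - z) z - Wh 𝓡 x z * (𝓡.Q.S x z).map PowerSeries.C) ?_ ?_
  · exact sub_eq_zero.mp h
  · have h1 : (Vh x z 𝓡.S * Wh 𝓡 (x - z) z - Wh 𝓡 x z * (𝓡.Q.S x z).map PowerSeries.C).map
        (PowerSeries.derivative ℂ) = (Vh x z 𝓡.S * Wh 𝓡 (x - z) z).map (PowerSeries.derivative ℂ) -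
          (Wh 𝓡 x z * (𝓡.Q.S x z).map PowerSeries.C).map (PowerSeries.derivative ℂ) := by
      ext1 i j
      exact map_sub (PowerSeries.derivative ℂ) _ _
    have h2 : (((𝓡.Q.S x z).map PowerSeries.C).map (PowerSeries.derivative ℂ) :
        Matrix (Fin N) (Fin N) (PowerSeries ℂ)) = 0 := by
      ext1 i j
      exact PowerSeries.derivative_C
    rw [h1, dmul, dmul, h2, Matrix.mul_zero, add_zero, smul_sub, smul_add, ← Matrix.smul_mul, ← Matrix.mul_smul,
      ← Matrix.smul_mul, S_formal, W_formal 𝓡 _ hz, W_formal 𝓡 _ hz, Matrix.sub_mul, Matrix.mul_sub]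
    simp only [Matrix.mul_assoc]
    abel
  · have h3 : cm 0 ((𝓡.Q.S x z).map PowerSeries.C) = 𝓡.Q.S x z := by
      ext i j
      exact PowerSeries.coeff_zero_C _
    rw [cm_sub, cm_mul, cm_mul, Finset.Nat.antidiagonal_zero, Finset.sum_singleton, Finset.sum_singleton,
      cm_S_zero, cm_Wh, cm_Wh, h3, Ray.Wc, Ray.Wc, Matrix.mul_one, Matrix.one_mul, sub_self]


/-! bounds -/

private theorem eval_bound {R r : ℝ} (hR : 0 < R) {f : PowerSeries (Polynomial ℂ)} (hf : PConv R r f) (hr : 0 ≤ r) :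
    ∃ a : ℝ, 0 ≤ a ∧ ∀ x : ℂ, ‖x‖ ≤ r → ∀ k, ‖(PowerSeries.coeff k f).eval x‖ ≤ a / R ^ k := by
  refine ⟨∑' p : ℕ × ℕ, ‖(PowerSeries.coeff p.1 f).coeff p.2‖ * R ^ p.1 * r ^ p.2,
    tsum_nonneg fun p => by positivity, fun x hx k => ?_⟩
  rw [le_div_iff₀ (by positivity)]
  set m := (PowerSeries.coeff k f).natDegree + 1 with hm
  have h1 : ‖(PowerSeries.coeff k f).eval x‖ * R ^ k ≤
      ∑ l ∈ Finset.range m, ‖(PowerSeries.coeff k f).coeff l‖ * R ^ k * r ^ l := by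
    rw [Polynomial.eval_eq_sum_range, ← hm]
    calc ‖∑ l ∈ Finset.range m, (PowerSeries.coeff k f).coeff l * x ^ l‖ * R ^ k
        ≤ (∑ l ∈ Finset.range m, ‖(PowerSeries.coeff k f).coeff l‖ * r ^ l) * R ^ k := by
          refine mul_le_mul_of_nonneg_right (norm_sum_le_of_le _ fun l _ => ?_) (by positivity)
          rw [norm_mul, norm_pow]
          exact mul_le_mul_of_nonneg_left (pow_le_pow_left₀ (norm_nonneg _) hx _) (norm_nonneg _)
      _ = _ := by
          rw [Finset.sum_mul]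
          refine Finset.sum_congr rfl fun l _ => ?_
          ring
  refine h1.trans ?_
  have h2 : ∑ l ∈ Finset.range m, ‖(PowerSeries.coeff k f).coeff l‖ * R ^ k * r ^ l =
      ∑ p ∈ {k} ×ˢ Finset.range m, ‖(PowerSeries.coeff p.1 f).coeff p.2‖ * R ^ p.1 * r ^ p.2 := by
    rw [Finset.sum_product, Finset.sum_singleton]
  rw [h2]
  exact Summable.sum_le_tsum _ (fun p _ => by positivity) hf

private theorem poly_bd (p : Polynomial (Polynomial ℂ)) (a b : ℝ) :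
    ∃ K : ℝ, 0 ≤ K ∧ ∀ x z : ℂ, ‖x‖ ≤ a → ‖z‖ ≤ b → ‖p.evalEval x z‖ ≤ K := by
  induction p using Polynomial.induction_on' with
  | add p q hp hq =>
    obtain ⟨K, hK, h1⟩ := hp
    obtain ⟨K', hK', h2⟩ := hq
    refine ⟨K + K', by positivity, fun x z hx hz => ?_⟩
    rw [Polynomial.evalEval_add]
    exact (norm_add_le _ _).trans (add_le_add (h1 x z hx hz) (h2 x z hx hz))
  | monomial n c =>
    obtain ⟨K, hK⟩ := (isCompact_closedBall (0 : ℂ) a).exists_bound_of_continuousOn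
      (f := fun x => c.eval x) c.continuous.continuousOn
    refine ⟨|K| * |b| ^ n, by positivity, fun x z hx hz => ?_⟩
    have h1 : (Polynomial.monomial n c).evalEval x z = c.eval x * z ^ n := by
      rw [← Polynomial.C_mul_X_pow_eq_monomial, Polynomial.evalEval_mul, Polynomial.evalEval_C,
        Polynomial.evalEval_pow, Polynomial.evalEval_X]
    rw [h1, norm_mul, norm_pow]
    refine mul_le_mul ((hK x (by simpa using hx)).trans (le_abs_self K))
      (pow_le_pow_left₀ (norm_nonneg _) (hz.trans (le_abs_self b)) n) (by positivity) (abs_nonneg K)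

section norms

open scoped Matrix.Norms.Operator

private theorem Mh_bound (𝓡 : Ray N) : ∃ a : ℝ, 0 ≤ a ∧ ∀ x : ℂ, ‖x‖ ≤ 𝓡.r → ∀ k, ‖cm k (Mh 𝓡 x)‖ ≤ a / 𝓡.R ^ k := by
  have hR : 0 < 𝓡.R := one_pos.trans 𝓡.hR
  choose a ha0 ha using fun i j => eval_bound hR (𝓡.M_conv i j) 𝓡.hr.le
  refine ⟨N * ∑ i, ∑ j, a i j, mul_nonneg (Nat.cast_nonneg N)
    (Finset.sum_nonneg fun i _ => Finset.sum_nonneg fun j _ => ha0 i j), fun x hx k => ?_⟩
  have h0 : 0 ≤ ∑ i, ∑ j, a i j := Finset.sum_nonneg fun i _ => Finset.sum_nonneg fun j _ => ha0 i j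
  have h1 : ‖cm k (Mh 𝓡 x)‖ ≤ N * ((∑ i, ∑ j, a i j) / 𝓡.R ^ k) := by
    refine norm_le_ent _ (by positivity) fun i j => ?_
    rw [cm_Mh]
    refine (ha i j x hx k).trans ?_
    refine div_le_div_of_nonneg_right ?_ (by positivity)
    calc a i j ≤ ∑ j, a i j := Finset.single_le_sum (fun j _ => ha0 i j) (Finset.mem_univ j)
      _ ≤ ∑ i, ∑ j, a i j := Finset.single_le_sum (f := fun i => ∑ j, a i j)
          (fun i _ => Finset.sum_nonneg fun j _ => ha0 i j) (Finset.mem_univ i)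
  rw [mul_div_assoc]
  exact h1

private theorem vhyp (𝓡 : Ray N) (Y : Matrix (Fin N) (Fin N) (PowerSeries (Polynomial (Polynomial ℂ))))
    (hY : ∀ x z : ℂ, ∃ x₁ x₂ : ℂ, (x₁ = x ∨ x₁ = x - z) ∧ (x₂ = x ∨ x₂ = x - z) ∧
      (PowerSeries.C z) • (Vh x z Y).map (PowerSeries.derivative ℂ) = Mh 𝓡 x₁ * Vh x z Y - Vh x z Y * Mh 𝓡 x₂)
    (i j : Fin N) : VHyp 𝓡.R 𝓡.r (fun n => PowerSeries.coeff n (Y i j)) := by
  intro r₁ hr₁ δ hδ R' hR' hRR
  obtain ⟨a, ha0, ha⟩ := Mh_bound 𝓡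
  obtain ⟨B₀, hB₀, hB⟩ := bnd0 (N := N) ha0 hδ hR' hRR
  choose K hK0 hK using fun i j => poly_bd (PowerSeries.coeff 0 (Y i j)) r₁ (2 * r₁)
  have h0 : 0 ≤ ∑ i, ∑ j, K i j := Finset.sum_nonneg fun i _ => Finset.sum_nonneg fun j _ => hK0 i j
  refine ⟨N * (∑ i, ∑ j, K i j) * B₀, fun n x z hx hxz hz => ?_⟩
  obtain ⟨x₁, x₂, hx₁, hx₂, heq⟩ := hY x z
  have hn : ∀ y : ℂ, (y = x ∨ y = x - z) → ‖y‖ ≤ 𝓡.r := by
    rintro y (rfl | rfl)
    · exact hx.trans hr₁.le
    · exact hxz.trans hr₁.le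
  have h1 := hB (Vh x z Y) (Mh 𝓡 x₁) (Mh 𝓡 x₂) z hz heq (ha x₁ (hn x₁ hx₁)) (ha x₂ (hn x₂ hx₂)) n
  have hz2 : ‖z‖ ≤ 2 * r₁ := by
    calc ‖z‖ = ‖x - (x - z)‖ := by rw [sub_sub_cancel]
      _ ≤ ‖x‖ + ‖x - z‖ := norm_sub_le _ _
      _ ≤ 2 * r₁ := by linarith
  have h2 : ‖cm 0 (Vh x z Y)‖ ≤ N * ∑ i, ∑ j, K i j := by
    refine norm_le_ent _ h0 fun i j => ?_
    have h3 : cm 0 (Vh x z Y) i j = (PowerSeries.coeff 0 (Y i j)).evalEval x z := by
      unfold cm Vh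
      rw [Matrix.map_apply, Matrix.map_apply, PowerSeries.coeff_map]
      rfl
    rw [h3]
    refine (hK i j x z hx hz2).trans ?_
    calc K i j ≤ ∑ j, K i j := Finset.single_le_sum (fun j _ => hK0 i j) (Finset.mem_univ j)
      _ ≤ ∑ i, ∑ j, K i j := Finset.single_le_sum (f := fun i => ∑ j, K i j)
          (fun i _ => Finset.sum_nonneg fun j _ => hK0 i j) (Finset.mem_univ i)
  have h4 : (PowerSeries.coeff n (Y i j)).evalEval x z = cm n (Vh x z Y) i j := by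
    unfold cm Vh
    rw [Matrix.map_apply, Matrix.map_apply, PowerSeries.coeff_map]
    rfl
  show ‖(PowerSeries.coeff n (Y i j)).evalEval x z‖ ≤ _
  rw [h4]
  refine (entry_le _ i j).trans (h1.trans ?_)
  refine div_le_div_of_nonneg_right ?_ (by positivity)
  exact mul_le_mul_of_nonneg_right h2 hB₀

end norms

private theorem vhyp_S (𝓡 : Ray N) (i j : Fin N) : VHyp 𝓡.R 𝓡.r (fun n => PowerSeries.coeff n (𝓡.S i j)) :=
  vhyp 𝓡 𝓡.S (fun x z => ⟨x, x - z, Or.inl rfl, Or.inr rfl, S_formal 𝓡 x z⟩) i j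

private theorem vhyp_P (𝓡 : Ray N) (i j : Fin N) : VHyp 𝓡.R 𝓡.r (fun n => PowerSeries.coeff n (𝓡.S⁻¹ i j)) :=
  vhyp 𝓡 𝓡.S⁻¹ (fun x z => ⟨x - z, x, Or.inr rfl, Or.inl rfl, P_formal 𝓡 x z⟩) i j

/-! values -/

private def SB (s : ℂ) (f : PowerSeries ℂ) : Prop := Summable fun n => ‖s ^ n * PowerSeries.coeff n f‖

private noncomputable def vs (s : ℂ) (f : PowerSeries ℂ) : ℂ := ∑' n, s ^ n * PowerSeries.coeff n f

private theorem term_mul (s : ℂ) (f g : PowerSeries ℂ) (n : ℕ) :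
    ∑ p ∈ Finset.HasAntidiagonal.antidiagonal n, (s ^ p.1 * PowerSeries.coeff p.1 f) * (s ^ p.2 * PowerSeries.coeff p.2 g) =
      s ^ n * PowerSeries.coeff n (f * g) := by
  rw [PowerSeries.coeff_mul, Finset.mul_sum]
  refine Finset.sum_congr rfl fun p hp => ?_
  rw [← Finset.HasAntidiagonal.mem_antidiagonal.mp hp, pow_add]
  ring

private theorem vs_mul {s : ℂ} {f g : PowerSeries ℂ} (hf : SB s f) (hg : SB s g) :
    vs s (f * g) = vs s f * vs s g := by
  unfold vs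
  rw [tsum_mul_tsum_eq_tsum_sum_antidiagonal_of_summable_norm hf hg]
  exact tsum_congr fun n => (term_mul s f g n).symm

private theorem SB_mul {s : ℂ} {f g : PowerSeries ℂ} (hf : SB s f) (hg : SB s g) : SB s (f * g) := by
  have h := summable_norm_sum_mul_antidiagonal_of_summable_norm hf hg
  refine h.congr fun n => ?_
  rw [term_mul]

private theorem mat_mul {s : ℂ} {A B : Matrix (Fin N) (Fin N) (PowerSeries ℂ)} (hA : ∀ i j, SB s (A i j))
    (hB : ∀ i j, SB s (B i j)) : (A * B).map (vs s) = A.map (vs s) * B.map (vs s) := by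
  ext i j
  rw [Matrix.map_apply, Matrix.mul_apply, Matrix.mul_apply]
  have h1 : vs s (∑ k, A i k * B k j) = ∑ k, vs s (A i k * B k j) := by
    unfold vs
    rw [← Summable.tsum_finsetSum]
    · refine tsum_congr fun n => ?_
      rw [map_sum, Finset.mul_sum]
    · intro k _
      exact (SB_mul (hA i k) (hB k j)).of_norm
  rw [h1]
  exact Finset.sum_congr rfl fun k _ => vs_mul (hA i k) (hB k j)

private theorem Sv_eq (𝓡 : Ray N) (s x z : ℂ) : 𝓡.Sv s x z = (Vh x z 𝓡.S).map (vs s) := by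
  ext i j
  unfold Ray.Sv Vh vs evs₂
  rw [Matrix.map_apply, Matrix.map_apply, Matrix.map_apply]
  refine tsum_congr fun n => ?_
  rw [PowerSeries.coeff_map]
  rfl

private theorem W_eq (𝓡 : Ray N) (s x z : ℂ) : 𝓡.W s x z = (Wh 𝓡 x z).map (vs s) := by
  ext i j
  unfold Ray.W Wh vs
  rw [Matrix.map_apply, Matrix.of_apply, Matrix.of_apply]
  refine tsum_congr fun n => ?_
  rw [PowerSeries.coeff_mk]

private theorem SB_W (𝓡 : Ray N) {s x z : ℂ} (hs : ‖s‖ < 𝓡.R) (hx : ‖x‖ < 𝓡.r) (hz : z ≠ 0) (i j : Fin N) :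
    SB s (Wh 𝓡 x z i j) := by
  obtain ⟨R', h1, h2⟩ := exists_between hs
  have hR' : 0 < R' := lt_of_le_of_lt (norm_nonneg s) h1
  obtain ⟨B, hB⟩ := 𝓡.Wc_bound (norm_pos_iff.mpr hz) hR' h2
  have h3 : Summable fun n : ℕ => B * (‖s‖ / R') ^ n :=
    (summable_geometric_of_lt_one (by positivity) ((div_lt_one hR').mpr h1)).mul_left B
  refine Summable.of_nonneg_of_le (fun n => norm_nonneg _) (fun n => ?_) h3
  have h4 : PowerSeries.coeff n (Wh 𝓡 x z i j) = 𝓡.Wc x z n i j := by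
    unfold Wh
    rw [Matrix.of_apply, PowerSeries.coeff_mk]
  rw [h4, norm_mul, norm_pow]
  calc ‖s‖ ^ n * ‖𝓡.Wc x z n i j‖ ≤ ‖s‖ ^ n * (B / R' ^ n) :=
        mul_le_mul_of_nonneg_left (hB x z hx.le le_rfl n i j) (by positivity)
    _ = B * (‖s‖ / R') ^ n := by rw [div_pow]; ring

private theorem SB_V (𝓡 : Ray N) {Y : Matrix (Fin N) (Fin N) (PowerSeries (Polynomial (Polynomial ℂ)))}
    {s x z : ℂ} (hs : ‖s‖ < 𝓡.R) (hx : ‖x‖ < 𝓡.r)
    (hxz : ‖x - z‖ < 𝓡.r) (i j : Fin N) (hY : VHyp 𝓡.R 𝓡.r (fun n => PowerSeries.coeff n (Y i j))) :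
    SB s (Vh x z Y i j) := by
  have h := vmax_summable (one_pos.trans 𝓡.hR) hY hs hx hxz
  refine h.congr fun n => ?_
  unfold Vh
  rw [Matrix.map_apply, PowerSeries.coeff_map]
  rfl

private theorem SB_C (s a : ℂ) : SB s (PowerSeries.C a) := by
  refine summable_of_ne_finset_zero (s := {0}) fun n hn => ?_
  rw [Finset.mem_singleton] at hn
  rw [PowerSeries.coeff_C, if_neg hn, mul_zero, norm_zero]

private theorem vs_C (s a : ℂ) : vs s (PowerSeries.C a) = a := by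
  unfold vs
  rw [tsum_eq_single 0]
  · rw [PowerSeries.coeff_C, if_pos rfl, pow_zero, one_mul]
  · intro n hn
    rw [PowerSeries.coeff_C, if_neg hn, mul_zero]

theorem Ray.Sv_diff (𝓡 : Ray N) {s x z : ℂ} (hs : ‖s‖ < 𝓡.R) (hx : ‖x‖ < 𝓡.r)
    (hxz : ‖x - z‖ < 𝓡.r) (i j : Fin N) :
    DifferentiableAt ℂ (fun p : ℂ × ℂ × ℂ => 𝓡.Sv p.1 p.2.1 p.2.2 i j) (s, x, z) :=
  vmax_diff (one_pos.trans 𝓡.hR) (vhyp_S 𝓡 i j) hs hx hxz

theorem Ray.Sv_zero (𝓡 : Ray N) (x z : ℂ) : 𝓡.Sv 0 x z = 𝓡.Q.S x z := by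
  ext i j
  rw [𝓡.S_zero]
  show ∑' n, (0 : ℂ) ^ n * (PowerSeries.coeff n (𝓡.S i j)).evalEval x z = _
  rw [tsum_eq_single 0]
  · rw [pow_zero, one_mul, PowerSeries.coeff_zero_eq_constantCoeff]
  · intro n hn
    rw [zero_pow hn, zero_mul]

theorem Ray.Sv_mul (𝓡 : Ray N) {s x z : ℂ} (hs : ‖s‖ < 𝓡.R) (hx : ‖x‖ < 𝓡.r)
    (hxz : ‖x - z‖ < 𝓡.r) (hz : z ≠ 0) :
    𝓡.Sv s x z * 𝓡.W s (x - z) z = 𝓡.W s x z * 𝓡.Q.S x z := by
  have h1 := congrArg (fun A => A.map (vs s)) (SW 𝓡 x hz)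
  rw [mat_mul (A := Vh x z 𝓡.S) (B := Wh 𝓡 (x - z) z) (fun i j => SB_V 𝓡 hs hx hxz i j (vhyp_S 𝓡 i j))
      (SB_W 𝓡 hs hxz hz),
    mat_mul (A := Wh 𝓡 x z) (B := (𝓡.Q.S x z).map PowerSeries.C) (SB_W 𝓡 hs hx hz) (fun i j => SB_C s _),
    ← Sv_eq, ← W_eq, ← W_eq] at h1
  rw [h1]
  congr 1
  ext i j
  exact vs_C s _

theorem Ray.Sv_det (𝓡 : Ray N) {s x z : ℂ} (hs : ‖s‖ < 𝓡.R) (hx : ‖x‖ < 𝓡.r)
    (hxz : ‖x - z‖ < 𝓡.r) : (𝓡.Sv s x z).det ≠ 0 := by
  have h1 : Vh x z 𝓡.S⁻¹ * Vh x z 𝓡.S = 1 := by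
    rw [← Vh_mul, Matrix.nonsing_inv_mul _ 𝓡.S_unit, Vh_one]
  have h2 := congrArg (fun A => A.map (vs s)) h1
  rw [mat_mul (A := Vh x z 𝓡.S⁻¹) (B := Vh x z 𝓡.S) (fun i j => SB_V 𝓡 hs hx hxz i j (vhyp_P 𝓡 i j))
      (fun i j => SB_V 𝓡 hs hx hxz i j (vhyp_S 𝓡 i j)), ← Sv_eq] at h2
  have h3 : (1 : Matrix (Fin N) (Fin N) (PowerSeries ℂ)).map (vs s) = 1 := by
    ext i j
    rw [Matrix.map_apply]
    by_cases hij : i = j
    · rw [hij, Matrix.one_apply_eq, Matrix.one_apply_eq, ← map_one (PowerSeries.C (R := ℂ)), vs_C]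
    · rw [Matrix.one_apply_ne hij, Matrix.one_apply_ne hij, ← map_zero (PowerSeries.C (R := ℂ)), vs_C]
  rw [h3] at h2
  have h4 := congrArg Matrix.det h2
  rw [Matrix.det_mul, Matrix.det_one] at h4
  intro h5
  rw [h5, mul_zero] at h4
  exact zero_ne_one h4

end Pool.Agent.DST
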