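import Pool.Agent.DST.VSer
import Pool.Agent.DST.SLim
import Pool.Agent.DST.SHol

/-!
# DST-VW: the fundamental solution in the `s` direction

Bounds for the coefficients of the power series solution of `z dW/ds = M W`, `W(0) = 1`, holomorphy in
`(s, λ, z)`, the differential equation and invertibility.
-/

open scoped BigOperators Topology
open Filter

namespace Pool.Agent.DST

variable {N : ℕ}

private theorem vw_Mc (𝓡 : Ray N) : ∃ A : ℝ, 0 ≤ A ∧ ∀ x : ℂ, ‖x‖ ≤ 𝓡.r → ∀ n i j,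
    ‖𝓡.Mc x n i j‖ ≤ A / 𝓡.R ^ n := by
  have hR0 : 0 < 𝓡.R := zero_lt_one.trans 𝓡.hR
  have hnn : ∀ i j, ∀ p : ℕ × ℕ, 0 ≤
      ‖(PowerSeries.coeff p.1 (𝓡.M i j)).coeff p.2‖ * 𝓡.R ^ p.1 * 𝓡.r ^ p.2 := fun i j p => by
    have := 𝓡.hr
    positivity
  have hnn' : ∀ i j, 0 ≤ ∑' p : ℕ × ℕ,
      ‖(PowerSeries.coeff p.1 (𝓡.M i j)).coeff p.2‖ * 𝓡.R ^ p.1 * 𝓡.r ^ p.2 :=
    fun i j => tsum_nonneg (hnn i j)
  refine ⟨∑ i, ∑ j, ∑' p : ℕ × ℕ,
    ‖(PowerSeries.coeff p.1 (𝓡.M i j)).coeff p.2‖ * 𝓡.R ^ p.1 * 𝓡.r ^ p.2,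
    Finset.sum_nonneg fun i _ => Finset.sum_nonneg fun j _ => hnn' i j, fun x hx n i j => ?_⟩
  rw [le_div_iff₀ (pow_pos hR0 n)]
  have h1 : ∑' p : ℕ × ℕ, ‖(PowerSeries.coeff p.1 (𝓡.M i j)).coeff p.2‖ * 𝓡.R ^ p.1 * 𝓡.r ^ p.2 ≤
      ∑ i, ∑ j, ∑' p : ℕ × ℕ,
        ‖(PowerSeries.coeff p.1 (𝓡.M i j)).coeff p.2‖ * 𝓡.R ^ p.1 * 𝓡.r ^ p.2 := by
    refine (Finset.single_le_sum (f := fun j => ∑' p : ℕ × ℕ,
      ‖(PowerSeries.coeff p.1 (𝓡.M i j)).coeff p.2‖ * 𝓡.R ^ p.1 * 𝓡.r ^ p.2)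
      (fun j _ => hnn' i j) (Finset.mem_univ j)).trans ?_
    exact Finset.single_le_sum (f := fun i => ∑ j, ∑' p : ℕ × ℕ,
      ‖(PowerSeries.coeff p.1 (𝓡.M i j)).coeff p.2‖ * 𝓡.R ^ p.1 * 𝓡.r ^ p.2)
      (fun i _ => Finset.sum_nonneg fun j _ => hnn' i j) (Finset.mem_univ i)
  refine le_trans ?_ h1
  have h2 := (𝓡.M_conv i j).sum_le_tsum
    ((Finset.range ((PowerSeries.coeff n (𝓡.M i j)).natDegree + 1)).map
      ⟨fun k => (n, k), fun k l h => (Prod.mk.inj h).2⟩) (fun p _ => hnn i j p)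
  refine le_trans ?_ h2
  rw [Finset.sum_map]
  have h3 : 𝓡.Mc x n i j = (PowerSeries.coeff n (𝓡.M i j)).eval x := rfl
  rw [h3, Polynomial.eval_eq_sum_range]
  refine (mul_le_mul_of_nonneg_right (norm_sum_le _ _) (pow_pos hR0 n).le).trans ?_
  rw [Finset.sum_mul]
  refine Finset.sum_le_sum fun k _ => ?_
  show ‖(PowerSeries.coeff n (𝓡.M i j)).coeff k * x ^ k‖ * 𝓡.R ^ n ≤
    ‖(PowerSeries.coeff n (𝓡.M i j)).coeff k‖ * 𝓡.R ^ n * 𝓡.r ^ k
  rw [norm_mul, norm_pow]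
  have h4 : ‖x‖ ^ k ≤ 𝓡.r ^ k := pow_le_pow_left₀ (norm_nonneg _) hx k
  have h5 : 0 ≤ ‖(PowerSeries.coeff n (𝓡.M i j)).coeff k‖ * 𝓡.R ^ n := by positivity
  have h6 := mul_le_mul_of_nonneg_left h4 h5
  calc ‖(PowerSeries.coeff n (𝓡.M i j)).coeff k‖ * ‖x‖ ^ k * 𝓡.R ^ n =
      ‖(PowerSeries.coeff n (𝓡.M i j)).coeff k‖ * 𝓡.R ^ n * ‖x‖ ^ k := by ring
    _ ≤ _ := h6

private theorem vw_zero (𝓡 : Ray N) (x z : ℂ) : 𝓡.Wc x z 0 = 1 := by
  rw [Ray.Wc]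

private theorem vw_succ (𝓡 : Ray N) (x z : ℂ) (n : ℕ) (i j : Fin N) :
    𝓡.Wc x z (n + 1) i j = (((n : ℂ) + 1) * z)⁻¹ *
      ∑ k ∈ Finset.range (n + 1), ∑ l, 𝓡.Mc x k i l * 𝓡.Wc x z (n - k) l j := by
  rw [Ray.Wc, Matrix.smul_apply, smul_eq_mul, Matrix.sum_apply,
    ← Fin.sum_univ_eq_sum_range (fun k => ∑ l, 𝓡.Mc x k i l * 𝓡.Wc x z (n - k) l j) (n + 1)]
  rfl

private theorem vw_geom {θ : ℝ} (h1 : θ < 1) (h0 : 0 ≤ θ) (n : ℕ) :
    ∑ k ∈ Finset.range n, θ ^ k ≤ 1 / (1 - θ) := by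
  rw [le_div_iff₀ (by linarith), geom_sum_mul_neg]
  linarith [pow_nonneg h0 n]

theorem Ray.Wc_bound (𝓡 : Ray N) {δ R' : ℝ} (hδ : 0 < δ) (hR'0 : 0 < R') (hR' : R' < 𝓡.R) :
    ∃ B : ℝ, ∀ x z : ℂ, ‖x‖ ≤ 𝓡.r → δ ≤ ‖z‖ → ∀ n i j, ‖𝓡.Wc x z n i j‖ ≤ B / R' ^ n := by
  obtain ⟨A, hA0, hA⟩ := vw_Mc 𝓡
  have hR0 : 0 < 𝓡.R := zero_lt_one.trans 𝓡.hR
  obtain ⟨θ, hθ⟩ : ∃ θ : ℝ, θ = R' / 𝓡.R := ⟨_, rfl⟩
  have hθ0 : 0 < θ := by rw [hθ]; positivity
  have hθ1 : θ < 1 := by rw [hθ, div_lt_one hR0]; exact hR'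
  have hθ1' : 0 < 1 - θ := by linarith
  obtain ⟨K, hK⟩ : ∃ K : ℝ, K = R' * (N * A * (1 / (1 - θ))) / δ := ⟨_, rfl⟩
  have hK0 : 0 ≤ K := by rw [hK]; positivity
  obtain ⟨Kx, hKx⟩ : ∃ Kx : ℝ, Kx = max 1 K := ⟨_, rfl⟩
  have hKx1 : 1 ≤ Kx := by rw [hKx]; exact le_max_left _ _
  have hKx2 : K ≤ Kx := by rw [hKx]; exact le_max_right _ _
  have hKx0 : 0 < Kx := zero_lt_one.trans_le hKx1
  refine ⟨Kx ^ ⌈K⌉₊, fun x z hx hz => ?_⟩
  have hz0 : 0 < ‖z‖ := hδ.trans_le hz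
  have key : ∀ n, ∀ i j, ‖𝓡.Wc x z n i j‖ * R' ^ n ≤ Kx ^ (min n ⌈K⌉₊) := by
    intro n
    induction n using Nat.strong_induction_on with
    | _ n ih =>
      intro i j
      rcases n with _ | n
      · rw [vw_zero, pow_zero, mul_one, Nat.zero_min, pow_zero, Matrix.one_apply]
        split_ifs <;> simp
      · obtain ⟨b, hb⟩ : ∃ b : ℝ, b = Kx ^ (min n ⌈K⌉₊) := ⟨_, rfl⟩
        have hb0 : 0 < b := by rw [hb]; positivity
        have h1 : ∀ m ≤ n, ∀ i j, ‖𝓡.Wc x z m i j‖ * R' ^ m ≤ b := by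
          intro m hm i j
          refine (ih m (by omega) i j).trans ?_
          rw [hb]
          exact pow_le_pow_right₀ hKx1 (min_le_min_right _ hm)
        have h2 : ‖∑ k ∈ Finset.range (n + 1), ∑ l, 𝓡.Mc x k i l * 𝓡.Wc x z (n - k) l j‖ *
            R' ^ n ≤ N * A * (1 / (1 - θ)) * b := by
          refine (mul_le_mul_of_nonneg_right (norm_sum_le _ _) (pow_pos hR'0 n).le).trans ?_
          rw [Finset.sum_mul]
          have h3 : ∀ k ∈ Finset.range (n + 1),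
              ‖∑ l, 𝓡.Mc x k i l * 𝓡.Wc x z (n - k) l j‖ * R' ^ n ≤ N * A * b * θ ^ k := by
            intro k hk
            rw [Finset.mem_range] at hk
            refine (mul_le_mul_of_nonneg_right (norm_sum_le _ _) (pow_pos hR'0 n).le).trans ?_
            rw [Finset.sum_mul]
            have h4 : ∀ l ∈ (Finset.univ : Finset (Fin N)),
                ‖𝓡.Mc x k i l * 𝓡.Wc x z (n - k) l j‖ * R' ^ n ≤ A * b * θ ^ k := by
              intro l _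
              have h5 := hA x hx k i l
              have h6 := h1 (n - k) (Nat.sub_le _ _) l j
              have h7 : R' ^ n = R' ^ k * R' ^ (n - k) := by
                rw [← pow_add]
                congr 1
                omega
              rw [norm_mul, h7]
              calc ‖𝓡.Mc x k i l‖ * ‖𝓡.Wc x z (n - k) l j‖ * (R' ^ k * R' ^ (n - k)) =
                  (‖𝓡.Mc x k i l‖ * R' ^ k) * (‖𝓡.Wc x z (n - k) l j‖ * R' ^ (n - k)) := by ring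
                _ ≤ (A / 𝓡.R ^ k * R' ^ k) * b := by
                    refine mul_le_mul (mul_le_mul_of_nonneg_right h5 (pow_pos hR'0 k).le) h6
                      (by positivity) (by positivity)
                _ = A * b * θ ^ k := by
                    rw [hθ, div_pow]
                    ring
            refine (Finset.sum_le_sum h4).trans (le_of_eq ?_)
            rw [Finset.sum_const, Finset.card_univ, Fintype.card_fin, nsmul_eq_mul]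
            ring
          refine (Finset.sum_le_sum h3).trans ?_
          rw [← Finset.mul_sum]
          have h8 := vw_geom hθ1 hθ0.le (n + 1)
          have h9 := mul_le_mul_of_nonneg_left h8 (show 0 ≤ N * A * b by positivity)
          refine h9.trans (le_of_eq ?_)
          ring
        have hn1 : (0 : ℝ) < (n : ℝ) + 1 := by positivity
        have h10 : ‖(((n : ℂ) + 1) * z)⁻¹‖ ≤ 1 / (((n : ℝ) + 1) * δ) := by
          have e1 : ((n : ℂ) + 1) = (((n : ℝ) + 1 : ℝ) : ℂ) := by push_cast; ring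
          rw [norm_inv, norm_mul, e1, Complex.norm_real, Real.norm_of_nonneg hn1.le, one_div]
          refine inv_anti₀ (by positivity) ?_
          exact mul_le_mul_of_nonneg_left hz hn1.le
        have h11 : ‖𝓡.Wc x z (n + 1) i j‖ * R' ^ (n + 1) ≤ K * b / ((n : ℝ) + 1) := by
          rw [vw_succ, norm_mul, pow_succ]
          calc ‖(((n : ℂ) + 1) * z)⁻¹‖ * ‖∑ k ∈ Finset.range (n + 1), ∑ l,
                𝓡.Mc x k i l * 𝓡.Wc x z (n - k) l j‖ * (R' ^ n * R') =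
              ‖(((n : ℂ) + 1) * z)⁻¹‖ * (‖∑ k ∈ Finset.range (n + 1), ∑ l,
                𝓡.Mc x k i l * 𝓡.Wc x z (n - k) l j‖ * R' ^ n) * R' := by ring
            _ ≤ 1 / (((n : ℝ) + 1) * δ) * (N * A * (1 / (1 - θ)) * b) * R' := by
                refine mul_le_mul_of_nonneg_right (mul_le_mul h10 h2 (by positivity)
                  (by positivity)) hR'0.le
            _ = K * b / ((n : ℝ) + 1) := by
                rw [hK]
                field_simp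
        refine h11.trans ?_
        rw [div_le_iff₀ hn1]
        rcases Nat.lt_or_ge n ⌈K⌉₊ with hn | hn
        · rw [Nat.min_eq_left (show n + 1 ≤ ⌈K⌉₊ by omega)]
          rw [hb, Nat.min_eq_left hn.le, pow_succ]
          have h12 : K * Kx ^ n ≤ Kx ^ n * Kx := by
            rw [mul_comm]
            exact mul_le_mul_of_nonneg_left hKx2 (by positivity)
          have h13 : Kx ^ n * Kx ≤ Kx ^ n * Kx * ((n : ℝ) + 1) := by
            have h14 : 0 < Kx ^ n * Kx := by positivity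
            have h15 : (0 : ℝ) ≤ n := Nat.cast_nonneg n
            nlinarith
          exact h12.trans h13
        · rw [Nat.min_eq_right (show ⌈K⌉₊ ≤ n + 1 by omega)]
          rw [hb, Nat.min_eq_right hn]
          have h12 : K ≤ (n : ℝ) + 1 := by
            have h13 : K ≤ (⌈K⌉₊ : ℝ) := Nat.le_ceil K
            have h14 : (⌈K⌉₊ : ℝ) ≤ n := by exact_mod_cast hn
            linarith
          have h13 : 0 < Kx ^ ⌈K⌉₊ := by positivity
          nlinarith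
  intro n i j
  rw [le_div_iff₀ (pow_pos hR'0 n)]
  refine (key n i j).trans ?_
  exact pow_le_pow_right₀ hKx1 (min_le_right _ _)

private theorem vw_Wc_diff (𝓡 : Ray N) (n : ℕ) : ∀ (p : ℂ × ℂ × ℂ), p.2.2 ≠ 0 → ∀ i j : Fin N,
    DifferentiableAt ℂ (fun p : ℂ × ℂ × ℂ => 𝓡.Wc p.2.1 p.2.2 n i j) p := by
  induction n using Nat.strong_induction_on with
  | _ n ih =>
    intro p hp i j
    rcases n with _ | n
    · simp only [vw_zero]
      exact differentiableAt_const _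
    · simp only [vw_succ]
      have hz : DifferentiableAt ℂ (fun p : ℂ × ℂ × ℂ => p.2.2) p :=
        differentiableAt_snd.comp p differentiableAt_snd
      have hx : DifferentiableAt ℂ (fun p : ℂ × ℂ × ℂ => p.2.1) p :=
        differentiableAt_fst.comp p differentiableAt_snd
      have hn1 : ((n : ℂ) + 1) ≠ 0 := Nat.cast_add_one_ne_zero n
      refine ((hz.const_mul ((n : ℂ) + 1)).inv (mul_ne_zero hn1 hp)).mul ?_
      refine DifferentiableAt.fun_sum fun k _ => DifferentiableAt.fun_sum fun l _ => ?_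
      refine DifferentiableAt.mul ?_ (ih (n - k) (by omega) p hp l j)
      exact DifferentiableAt.comp p
        (g := fun x : ℂ => (PowerSeries.coeff k (𝓡.M i l)).eval x)
        (Polynomial.differentiable _).differentiableAt hx

theorem Ray.W_diff (𝓡 : Ray N) {s x z : ℂ} (hs : ‖s‖ < 𝓡.R) (hx : ‖x‖ < 𝓡.r) (hz : z ≠ 0)
    (i j : Fin N) :
    DifferentiableAt ℂ (fun p : ℂ × ℂ × ℂ => 𝓡.W p.1 p.2.1 p.2.2 i j) (s, x, z) := by
  have hz0 : 0 < ‖z‖ := norm_pos_iff.2 hz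
  have hs0 := norm_nonneg s
  have hR0 : 0 < 𝓡.R := zero_lt_one.trans 𝓡.hR
  obtain ⟨R', hR'⟩ : ∃ R' : ℝ, R' = (‖s‖ + 2 * 𝓡.R) / 3 := ⟨_, rfl⟩
  obtain ⟨R'', hR''⟩ : ∃ R'' : ℝ, R'' = (2 * ‖s‖ + 𝓡.R) / 3 := ⟨_, rfl⟩
  have h1 : ‖s‖ < R'' := by rw [hR'']; linarith
  have h2 : R'' < R' := by rw [hR', hR'']; linarith
  have h3 : R' < 𝓡.R := by rw [hR']; linarith
  have h4 : 0 < R'' := hs0.trans_lt h1
  have h5 : 0 < R' := h4.trans h2
  obtain ⟨B, hB⟩ := 𝓡.Wc_bound (δ := ‖z‖ / 2) (by positivity) h5 h3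
  have hB0 : 0 ≤ B := by
    have := hB x z hx.le (by linarith) 0 i j
    rw [pow_zero, div_one] at this
    exact (norm_nonneg _).trans this
  have hU : IsOpen {p : ℂ × ℂ × ℂ | ‖p.1‖ < R'' ∧ ‖p.2.1‖ < 𝓡.r ∧ ‖z‖ / 2 < ‖p.2.2‖} := by
    exact (isOpen_lt (continuous_norm.comp continuous_fst) continuous_const).inter
      ((isOpen_lt (continuous_norm.comp (continuous_fst.comp continuous_snd))
        continuous_const).inter
        (isOpen_lt continuous_const (continuous_norm.comp (continuous_snd.comp continuous_snd))))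
  have h6 : Summable fun n : ℕ => B * (R'' / R') ^ n :=
    (summable_geometric_of_lt_one (by positivity) (by rw [div_lt_one h5]; exact h2)).mul_left B
  refine diff_tsum hU (F := fun n (p : ℂ × ℂ × ℂ) => p.1 ^ n * 𝓡.Wc p.2.1 p.2.2 n i j) h6
    (fun n p hp => ?_) (fun n p hp => ?_) ⟨h1, hx, by show ‖z‖ / 2 < ‖z‖; linarith⟩
  · have hp0 : p.2.2 ≠ 0 := by
      intro h0
      have := hp.2.2
      rw [h0, norm_zero] at this
      linarith
    exact (differentiableAt_fst.pow n).mul (vw_Wc_diff 𝓡 n p hp0 i j)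
  · have h7 := hB p.2.1 p.2.2 hp.2.1.le hp.2.2.le n i j
    rw [norm_mul, norm_pow]
    have h8 : ‖p.1‖ ^ n ≤ R'' ^ n := pow_le_pow_left₀ (norm_nonneg _) hp.1.le n
    calc ‖p.1‖ ^ n * ‖𝓡.Wc p.2.1 p.2.2 n i j‖ ≤ R'' ^ n * (B / R' ^ n) :=
          mul_le_mul h8 h7 (norm_nonneg _) (by positivity)
      _ = B * (R'' / R') ^ n := by
          rw [div_pow]
          ring

theorem Ray.W_zero (𝓡 : Ray N) (x z : ℂ) : 𝓡.W 0 x z = 1 := by
  ext i j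
  show ∑' n, (0 : ℂ) ^ n * 𝓡.Wc x z n i j = (1 : Matrix (Fin N) (Fin N) ℂ) i j
  rw [tsum_eq_single 0]
  · rw [vw_zero, pow_zero, one_mul]
  · intro n hn
    rw [zero_pow hn, zero_mul]

private theorem vw_summW (𝓡 : Ray N) {s x z : ℂ} (hs : ‖s‖ < 𝓡.R) (hx : ‖x‖ ≤ 𝓡.r)
    (hz : z ≠ 0) (i j : Fin N) : Summable fun n => ‖s ^ n * 𝓡.Wc x z n i j‖ := by
  have hz0 : 0 < ‖z‖ := norm_pos_iff.2 hz
  have hs0 := norm_nonneg s
  obtain ⟨R', hR'⟩ : ∃ R' : ℝ, R' = (‖s‖ + 𝓡.R) / 2 := ⟨_, rfl⟩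
  have h1 : ‖s‖ < R' := by rw [hR']; linarith
  have h3 : R' < 𝓡.R := by rw [hR']; linarith
  have h5 : 0 < R' := hs0.trans_lt h1
  obtain ⟨B, hB⟩ := 𝓡.Wc_bound hz0 h5 h3
  have h6 : Summable fun n : ℕ => B * (‖s‖ / R') ^ n :=
    (summable_geometric_of_lt_one (by positivity) (by rw [div_lt_one h5]; exact h1)).mul_left B
  refine Summable.of_nonneg_of_le (fun n => norm_nonneg _) (fun n => ?_) h6
  have h7 := hB x z hx le_rfl n i j
  rw [norm_mul, norm_pow]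
  calc ‖s‖ ^ n * ‖𝓡.Wc x z n i j‖ ≤ ‖s‖ ^ n * (B / R' ^ n) :=
        mul_le_mul_of_nonneg_left h7 (by positivity)
    _ = B * (‖s‖ / R') ^ n := by
        rw [div_pow]
        ring

private theorem vw_summM (𝓡 : Ray N) {s x : ℂ} (hs : ‖s‖ < 𝓡.R) (hx : ‖x‖ ≤ 𝓡.r)
    (i j : Fin N) : Summable fun n => ‖s ^ n * 𝓡.Mc x n i j‖ := by
  obtain ⟨A, hA0, hA⟩ := vw_Mc 𝓡
  have hR0 : 0 < 𝓡.R := zero_lt_one.trans 𝓡.hR
  have h6 : Summable fun n : ℕ => A * (‖s‖ / 𝓡.R) ^ n :=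
    (summable_geometric_of_lt_one (by positivity) (by rw [div_lt_one hR0]; exact hs)).mul_left A
  refine Summable.of_nonneg_of_le (fun n => norm_nonneg _) (fun n => ?_) h6
  have h7 := hA x hx n i j
  rw [norm_mul, norm_pow]
  calc ‖s‖ ^ n * ‖𝓡.Mc x n i j‖ ≤ ‖s‖ ^ n * (A / 𝓡.R ^ n) :=
        mul_le_mul_of_nonneg_left h7 (by positivity)
    _ = A * (‖s‖ / 𝓡.R) ^ n := by
        rw [div_pow]
        ring

theorem Ray.W_ode (𝓡 : Ray N) {s x z : ℂ} (hs : ‖s‖ < 𝓡.R) (hx : ‖x‖ < 𝓡.r) (hz : z ≠ 0)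
    (i j : Fin N) :
    HasDerivAt (fun s => 𝓡.W s x z i j) ((z⁻¹ • (𝓡.Mv s x * 𝓡.W s x z)) i j) s := by
  have hz0 : 0 < ‖z‖ := norm_pos_iff.2 hz
  have hs0 := norm_nonneg s
  have hR0 : 0 < 𝓡.R := zero_lt_one.trans 𝓡.hR
  obtain ⟨R', hR'⟩ : ∃ R' : ℝ, R' = (‖s‖ + 2 * 𝓡.R) / 3 := ⟨_, rfl⟩
  obtain ⟨R'', hR''⟩ : ∃ R'' : ℝ, R'' = (2 * ‖s‖ + 𝓡.R) / 3 := ⟨_, rfl⟩
  have h1 : ‖s‖ < R'' := by rw [hR'']; linarith
  have h2 : R'' < R' := by rw [hR', hR'']; linarith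
  have h3 : R' < 𝓡.R := by rw [hR']; linarith
  have h4 : 0 < R'' := hs0.trans_lt h1
  have h5 : 0 < R' := h4.trans h2
  obtain ⟨B, hB⟩ := 𝓡.Wc_bound hz0 h5 h3
  have hB' := hB x z hx.le le_rfl
  have hB0 : 0 ≤ B := by
    have := hB' 0 i j
    rw [pow_zero, div_one] at this
    exact (norm_nonneg _).trans this
  obtain ⟨θ, hθ⟩ : ∃ θ : ℝ, θ = R'' / R' := ⟨_, rfl⟩
  have hθ0 : 0 ≤ θ := by rw [hθ]; positivity
  have hθ1 : θ < 1 := by rw [hθ, div_lt_one h5]; exact h2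
  have hu : Summable fun n : ℕ => B / R'' * ((n : ℝ) ^ 1 * θ ^ n) :=
    (summable_pow_mul_geometric_of_norm_lt_one 1
      (by rw [Real.norm_of_nonneg hθ0]; exact hθ1)).mul_left _
  have hg' : ∀ (n : ℕ) (y : ℂ), y ∈ Metric.ball (0 : ℂ) R'' →
      ‖(n : ℂ) * y ^ (n - 1) * 𝓡.Wc x z n i j‖ ≤ B / R'' * ((n : ℝ) ^ 1 * θ ^ n) := by
    intro n y hy
    rw [Metric.mem_ball, dist_zero_right] at hy
    rcases n with _ | n
    · simp
    · rw [norm_mul, norm_mul, norm_pow, Complex.norm_natCast, Nat.add_sub_cancel, pow_one]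
      have h6 : ‖y‖ ^ n ≤ R'' ^ n := pow_le_pow_left₀ (norm_nonneg _) hy.le n
      have h7 := hB' (n + 1) i j
      calc ((n + 1 : ℕ) : ℝ) * ‖y‖ ^ n * ‖𝓡.Wc x z (n + 1) i j‖ ≤
          ((n + 1 : ℕ) : ℝ) * R'' ^ n * (B / R' ^ (n + 1)) := by
            refine mul_le_mul (mul_le_mul_of_nonneg_left h6 (Nat.cast_nonneg _)) h7
              (norm_nonneg _) (by positivity)
        _ = B / R'' * (((n + 1 : ℕ) : ℝ) * θ ^ (n + 1)) := by
            rw [hθ, div_pow, pow_succ R'']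
            field_simp
  have hder := hasDerivAt_tsum_of_isPreconnected (g := fun n (s : ℂ) => s ^ n * 𝓡.Wc x z n i j)
    (g' := fun n (s : ℂ) => (n : ℂ) * s ^ (n - 1) * 𝓡.Wc x z n i j) hu Metric.isOpen_ball
    (convex_ball (0 : ℂ) R'').isPreconnected
    (fun n y _ => (hasDerivAt_pow n y).mul_const _) hg'
    (Metric.mem_ball_self h4)
    (vw_summW 𝓡 (s := 0) (by rw [norm_zero]; exact hR0) hx.le hz i j).of_norm
    (show s ∈ Metric.ball (0 : ℂ) R'' by rw [Metric.mem_ball, dist_zero_right]; exact h1)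
  have hval : (z⁻¹ • (𝓡.Mv s x * 𝓡.W s x z)) i j =
      ∑' n : ℕ, (n : ℂ) * s ^ (n - 1) * 𝓡.Wc x z n i j := by
    have hsm : Summable fun n : ℕ => (n : ℂ) * s ^ (n - 1) * 𝓡.Wc x z n i j :=
      Summable.of_norm_bounded hu fun n => hg' n s
        (by rw [Metric.mem_ball, dist_zero_right]; exact h1)
    rw [hsm.tsum_eq_zero_add, Nat.cast_zero, zero_mul, zero_mul, zero_add]
    have e1 : ∀ n : ℕ, ((n + 1 : ℕ) : ℂ) * s ^ (n + 1 - 1) * 𝓡.Wc x z (n + 1) i j =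
        z⁻¹ * ∑ l, ∑ k ∈ Finset.range (n + 1),
          (s ^ k * 𝓡.Mc x k i l) * (s ^ (n - k) * 𝓡.Wc x z (n - k) l j) := by
      intro n
      rw [vw_succ, Nat.add_sub_cancel, Finset.sum_comm, Finset.mul_sum, Finset.mul_sum,
        Finset.mul_sum]
      refine Finset.sum_congr rfl fun l _ => ?_
      rw [Finset.mul_sum, Finset.mul_sum, Finset.mul_sum]
      refine Finset.sum_congr rfl fun k hk => ?_
      rw [Finset.mem_range] at hk
      have e2 : s ^ n = s ^ k * s ^ (n - k) := by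
        rw [← pow_add]
        congr 1
        omega
      have hn1 : ((n : ℂ) + 1) ≠ 0 := Nat.cast_add_one_ne_zero n
      rw [e2, mul_inv]
      push_cast
      field_simp
    rw [tsum_congr e1, tsum_mul_left, Matrix.smul_apply, smul_eq_mul, Matrix.mul_apply]
    congr 1
    have e3 : ∀ l, 𝓡.Mv s x i l * 𝓡.W s x z l j = ∑' n, ∑ k ∈ Finset.range (n + 1),
        (s ^ k * 𝓡.Mc x k i l) * (s ^ (n - k) * 𝓡.Wc x z (n - k) l j) := by
      intro l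
      rw [← tsum_mul_tsum_eq_tsum_sum_range_of_summable_norm (vw_summM 𝓡 hs hx.le i l)
        (vw_summW 𝓡 hs hx.le hz l j)]
      rfl
    rw [Finset.sum_congr rfl fun l _ => e3 l, Summable.tsum_finsetSum]
    intro l _
    exact (summable_norm_sum_mul_range_of_summable_norm (vw_summM 𝓡 hs hx.le i l)
      (vw_summW 𝓡 hs hx.le hz l j)).of_norm
  rw [hval]
  exact hder

private theorem vw_Mv_bound (𝓡 : Ray N) {R' : ℝ} (hR0' : 0 ≤ R') (hR' : R' < 𝓡.R) :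
    ∃ A : ℝ, 0 ≤ A ∧ ∀ s x : ℂ, ‖s‖ ≤ R' → ‖x‖ ≤ 𝓡.r → ∀ i j, ‖𝓡.Mv s x i j‖ ≤ A := by
  obtain ⟨A, hA0, hA⟩ := vw_Mc 𝓡
  have hR0 : 0 < 𝓡.R := zero_lt_one.trans 𝓡.hR
  have h1 : R' / 𝓡.R < 1 := by rw [div_lt_one hR0]; exact hR'
  have h2 : 0 < 1 - R' / 𝓡.R := by linarith
  refine ⟨A * (1 - R' / 𝓡.R)⁻¹, by positivity, fun s x hs hx i j => ?_⟩
  refine tsum_of_norm_bounded (f := fun n => s ^ n * 𝓡.Mc x n i j)
    ((hasSum_geometric_of_lt_one (by positivity) h1).mul_left A) fun n => ?_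
  have h7 := hA x hx n i j
  rw [norm_mul, norm_pow]
  calc ‖s‖ ^ n * ‖𝓡.Mc x n i j‖ ≤ R' ^ n * (A / 𝓡.R ^ n) :=
        mul_le_mul (pow_le_pow_left₀ (norm_nonneg _) hs n) h7 (norm_nonneg _) (by positivity)
    _ = A * (R' / 𝓡.R) ^ n := by
        rw [div_pow]
        ring

theorem Ray.W_det (𝓡 : Ray N) {s x z : ℂ} (hs : ‖s‖ < 𝓡.R) (hx : ‖x‖ < 𝓡.r) (hz : z ≠ 0) :
    (𝓡.W s x z).det ≠ 0 := by
  intro hdet
  obtain ⟨v, hv0, hv⟩ := Matrix.exists_mulVec_eq_zero_iff.2 hdet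
  obtain ⟨A, hA0, hA⟩ := vw_Mv_bound 𝓡 (norm_nonneg s) hs
  obtain ⟨f, hf⟩ : ∃ f : ℝ → Fin N → ℂ,
      f = fun t : ℝ => (𝓡.W ((1 - (t : ℂ)) * s) x z).mulVec v := ⟨_, rfl⟩
  obtain ⟨f', hf'⟩ : ∃ f' : ℝ → Fin N → ℂ, f' = fun t : ℝ =>
      (-s * z⁻¹) • (𝓡.Mv ((1 - (t : ℂ)) * s) x).mulVec (f t) := ⟨_, rfl⟩
  have hnorm : ∀ t ∈ Set.Icc (0 : ℝ) 1, ‖(1 - (t : ℂ)) * s‖ ≤ ‖s‖ := by
    intro t ht
    have e : (1 - (t : ℂ)) = ((1 - t : ℝ) : ℂ) := by push_cast; ring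
    rw [norm_mul, e, Complex.norm_real, Real.norm_of_nonneg (by linarith [ht.2])]
    have := norm_nonneg s
    nlinarith [ht.1]
  have hder : ∀ t ∈ Set.Icc (0 : ℝ) 1, HasDerivAt f (f' t) t := by
    intro t ht
    rw [hf]
    refine hasDerivAt_pi.2 fun i => ?_
    have h1 : ∀ j, HasDerivAt (fun t : ℝ => 𝓡.W ((1 - (t : ℂ)) * s) x z i j)
        ((z⁻¹ • (𝓡.Mv ((1 - (t : ℂ)) * s) x * 𝓡.W ((1 - (t : ℂ)) * s) x z)) i j * (-s)) t := by
      intro j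
      have h2 : HasDerivAt (fun t : ℝ => (1 - (t : ℂ)) * s) (-s) t := by
        have h3 : HasDerivAt (fun t : ℝ => (1 - (t : ℂ))) (-1) t := by
          have h4 : HasDerivAt (fun t : ℝ => (t : ℂ)) 1 t := Complex.ofRealCLM.hasDerivAt
          simpa using h4.const_sub 1
        have h5 := h3.mul_const s
        rw [neg_one_mul] at h5
        exact h5
      exact (𝓡.W_ode ((hnorm t ht).trans_lt hs) hx hz i j).comp t h2
    have h3 : HasDerivAt (fun t : ℝ => ∑ j, 𝓡.W ((1 - (t : ℂ)) * s) x z i j * v j)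
        (∑ j, (z⁻¹ • (𝓡.Mv ((1 - (t : ℂ)) * s) x * 𝓡.W ((1 - (t : ℂ)) * s) x z)) i j *
          (-s) * v j) t := HasDerivAt.fun_sum fun j _ => (h1 j).mul_const (v j)
    have h4 : f' t i = ∑ j, (z⁻¹ • (𝓡.Mv ((1 - (t : ℂ)) * s) x *
        𝓡.W ((1 - (t : ℂ)) * s) x z)) i j * (-s) * v j := by
      rw [hf', hf]
      show (-s * z⁻¹) * ((𝓡.Mv ((1 - (t : ℂ)) * s) x).mulVec
        ((𝓡.W ((1 - (t : ℂ)) * s) x z).mulVec v)) i = _
      rw [Matrix.mulVec_mulVec]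
      show (-s * z⁻¹) * ∑ j, (𝓡.Mv ((1 - (t : ℂ)) * s) x *
        𝓡.W ((1 - (t : ℂ)) * s) x z) i j * v j = _
      rw [Finset.mul_sum]
      refine Finset.sum_congr rfl fun j _ => ?_
      rw [Matrix.smul_apply, smul_eq_mul]
      ring
    rw [h4]
    exact h3
  have hbound : ∀ t ∈ Set.Icc (0 : ℝ) 1, ‖f' t‖ ≤ (‖s‖ * ‖z⁻¹‖ * (N * A)) * ‖f t‖ := by
    intro t ht
    rw [hf']
    show ‖(-s * z⁻¹) • (𝓡.Mv ((1 - (t : ℂ)) * s) x).mulVec (f t)‖ ≤ _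
    rw [norm_smul, norm_mul, norm_neg]
    have h1 : ‖(𝓡.Mv ((1 - (t : ℂ)) * s) x).mulVec (f t)‖ ≤ N * A * ‖f t‖ := by
      refine (pi_norm_le_iff_of_nonneg (by positivity)).2 fun i => ?_
      show ‖∑ j, 𝓡.Mv ((1 - (t : ℂ)) * s) x i j * f t j‖ ≤ _
      refine (norm_sum_le _ _).trans ?_
      have h2 : ∀ j ∈ (Finset.univ : Finset (Fin N)),
          ‖𝓡.Mv ((1 - (t : ℂ)) * s) x i j * f t j‖ ≤ A * ‖f t‖ := by
        intro j _
        rw [norm_mul]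
        exact mul_le_mul (hA _ x (hnorm t ht) hx.le i j) (norm_le_pi_norm (f t) j)
          (norm_nonneg _) hA0
      refine (Finset.sum_le_sum h2).trans (le_of_eq ?_)
      rw [Finset.sum_const, Finset.card_univ, Fintype.card_fin, nsmul_eq_mul]
      ring
    calc ‖s‖ * ‖z⁻¹‖ * ‖(𝓡.Mv ((1 - (t : ℂ)) * s) x).mulVec (f t)‖ ≤
        ‖s‖ * ‖z⁻¹‖ * (N * A * ‖f t‖) := mul_le_mul_of_nonneg_left h1 (by positivity)
      _ = _ := by ring
  have hzero := eq_zero_of_abs_deriv_le_mul_abs_self_of_eq_zero_right (f := f) (f' := f')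
    (K := ‖s‖ * ‖z⁻¹‖ * (N * A)) (a := 0) (b := 1)
    (fun t ht => (hder t ht).continuousAt.continuousWithinAt)
    (fun t ht => (hder t (Set.Ico_subset_Icc_self ht)).hasDerivWithinAt)
    (by
      rw [hf]
      show (𝓡.W ((1 - ((0 : ℝ) : ℂ)) * s) x z).mulVec v = 0
      rw [Complex.ofReal_zero, sub_zero, one_mul]
      exact hv)
    (fun t ht => hbound t (Set.Ico_subset_Icc_self ht)) 1 ⟨zero_le_one, le_rfl⟩
  rw [hf] at hzero
  apply hv0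
  have h1 : (𝓡.W ((1 - ((1 : ℝ) : ℂ)) * s) x z).mulVec v = 0 := hzero
  rw [Complex.ofReal_one, sub_self, zero_mul, 𝓡.W_zero, Matrix.one_mulVec] at h1
  exact h1

end Pool.Agent.DST
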