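import Mathlib

/-!
# Project DST, module Z-Const: two solutions of a linear equation on the domain

PLAN. `D = {ξ | a < Re ξ + κ|Im ξ|}` is open. `Φ ξ = (F ξ)⁻¹ W ξ`. Its entries are differentiable on `D`
(the inverse is `det⁻¹ • adjugate`) with derivative zero: from `F Φ = W`: `F' Φ + F Φ' = W'`, i.e.
`M F Φ + F Φ' = M W`, so `F Φ' = 0`, `Φ' = 0`. (Entrywise derivatives of a product of matrices: sums;
the differentiability of the entries of `(F ξ)⁻¹`: `Matrix.inv_def`, `Matrix.det_apply`, `adjugate_apply`,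
or `Ring.inverse`.) Constancy: if `Φ` has derivative `0` on `D`: along the ray `t ↦ ξ + t`, `t ≥ 0`,
which stays in `D`, `Φ` is constant (`is_const_of_deriv_eq_zero` on the ray/segments); and on the half plane
`{a < Re ξ} ⊆ D`, convex, `Φ` is constant (`Convex.is_const_of_fderivWithin_eq_zero`). Any point of `D` is
connected to the half plane by its ray. If `D` is not empty pick `X` = that constant value.
-/

open scoped BigOperators Topology
open Filter

namespace Pool.Agent.DST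

private theorem zc_mul {N : ℕ} {f g : ℂ → Matrix (Fin N) (Fin N) ℂ}
    {f' g' : Matrix (Fin N) (Fin N) ℂ}
    {s : ℂ} (hf : ∀ i j, HasDerivAt (fun s => f s i j) (f' i j) s)
    (hg : ∀ i j, HasDerivAt (fun s => g s i j) (g' i j) s) (i j : Fin N) :
    HasDerivAt (fun s => (f s * g s) i j) ((f' * g s + f s * g') i j) s := by
  simp only [Matrix.mul_apply, Matrix.add_apply]
  rw [← Finset.sum_add_distrib]
  exact HasDerivAt.fun_sum fun k _ => (hf i k).mul (hg k j)

private theorem zc_det {N : ℕ} {A : ℂ → Matrix (Fin N) (Fin N) ℂ} {x : ℂ}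
    (hA : ∀ i j, DifferentiableAt ℂ (fun x => A x i j) x) :
    DifferentiableAt ℂ (fun x => (A x).det) x := by
  simp only [Matrix.det_apply']
  refine DifferentiableAt.fun_sum fun σ _ => ?_
  refine DifferentiableAt.const_mul ?_ _
  have key : ∀ s : Finset (Fin N), DifferentiableAt ℂ (fun x => ∏ i ∈ s, A x (σ i) i) x := by
    intro s
    induction s using Finset.induction_on with
    | empty => simp
    | insert a s ha ih =>
      simp only [Finset.prod_insert ha]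
      exact (hA (σ a) a).mul ih
  exact key Finset.univ

private theorem zc_inv {N : ℕ} {A : ℂ → Matrix (Fin N) (Fin N) ℂ} {x : ℂ}
    (hA : ∀ i j, DifferentiableAt ℂ (fun x => A x i j) x) (hdet : (A x).det ≠ 0)
    (i j : Fin N) : DifferentiableAt ℂ (fun x => (A x)⁻¹ i j) x := by
  have h1 : (fun x => (A x)⁻¹ i j) =
      fun x => ((A x).det)⁻¹ * ((A x).updateRow j (Pi.single i 1)).det := by
    funext x
    rw [Matrix.inv_def, Ring.inverse_eq_inv', Matrix.smul_apply, Matrix.adjugate_apply, smul_eq_mul]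
  rw [h1]
  refine ((zc_det hA).inv hdet).mul (zc_det fun a b => ?_)
  by_cases ha : a = j
  · simp only [Matrix.updateRow_apply, ha, if_true]
    exact differentiableAt_const _
  · simp only [Matrix.updateRow_apply, ha, if_false]
    exact hA a b

private theorem zc_conn {κ a : ℝ} (hκ : 0 < κ) :
    IsPreconnected {ξ : ℂ | a < ξ.re + κ * |ξ.im|} := by
  apply isPreconnected_of_forall ((a + 1 : ℝ) : ℂ)
  intro ξ hξ
  have hξ' : a < ξ.re + κ * |ξ.im| := hξ
  refine ⟨{z : ℂ | a < z.re} ∪ (fun t : ℝ => ξ + t) '' Set.Ici 0, ?_, ?_, ?_, ?_⟩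
  · rintro z (hz | ⟨t, ht, rfl⟩)
    · have hz' : a < z.re := hz
      have h1 : 0 ≤ κ * |z.im| := mul_nonneg hκ.le (abs_nonneg _)
      show a < z.re + κ * |z.im|
      linarith
    · have ht' : (0 : ℝ) ≤ t := ht
      show a < (ξ + t).re + κ * |(ξ + t).im|
      rw [Complex.add_re, Complex.add_im, Complex.ofReal_re, Complex.ofReal_im, add_zero]
      linarith
  · left
    show a < ((a + 1 : ℝ) : ℂ).re
    rw [Complex.ofReal_re]
    linarith
  · right
    exact ⟨0, Set.mem_Ici.2 (le_refl _), by simp⟩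
  · have h1 : IsPreconnected {z : ℂ | a < z.re} := (convex_halfSpace_re_gt a).isPreconnected
    have h2 : IsPreconnected ((fun t : ℝ => ξ + t) '' Set.Ici 0) :=
      isPreconnected_Ici.image _
        (continuous_const.add Complex.continuous_ofReal).continuousOn
    have h3 : ξ + ((|a| + |ξ.re| + 1 : ℝ) : ℂ) ∈ {z : ℂ | a < z.re} := by
      show a < (ξ + ((|a| + |ξ.re| + 1 : ℝ) : ℂ)).re
      rw [Complex.add_re, Complex.ofReal_re]
      linarith [le_abs_self a, neg_abs_le ξ.re]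
    exact h1.union (ξ + ((|a| + |ξ.re| + 1 : ℝ) : ℂ)) h3
      ⟨|a| + |ξ.re| + 1, Set.mem_Ici.2 (by positivity), rfl⟩ h2

theorem const_of_ode {N : ℕ} {κ a : ℝ} (hκ : 0 < κ) {F W M : ℂ → Matrix (Fin N) (Fin N) ℂ}
    (hF : ∀ ξ : ℂ, a < ξ.re + κ * |ξ.im| → ∀ i j,
      HasDerivAt (fun ξ => F ξ i j) ((M ξ * F ξ) i j) ξ)
    (hW : ∀ ξ : ℂ, a < ξ.re + κ * |ξ.im| → ∀ i j,
      HasDerivAt (fun ξ => W ξ i j) ((M ξ * W ξ) i j) ξ)
    (hdet : ∀ ξ : ℂ, a < ξ.re + κ * |ξ.im| → (F ξ).det ≠ 0) :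
    ∃ X : Matrix (Fin N) (Fin N) ℂ, ∀ ξ : ℂ, a < ξ.re + κ * |ξ.im| → F ξ * X = W ξ := by
  have hopen : IsOpen {ξ : ℂ | a < ξ.re + κ * |ξ.im|} :=
    isOpen_lt continuous_const (Complex.continuous_re.add
      (continuous_const.mul (continuous_abs.comp Complex.continuous_im)))
  obtain ⟨Φ, hΦ⟩ : ∃ Φ : ℂ → Matrix (Fin N) (Fin N) ℂ, Φ = fun ξ => (F ξ)⁻¹ * W ξ := ⟨_, rfl⟩
  have hFΦ : ∀ ξ : ℂ, a < ξ.re + κ * |ξ.im| → F ξ * Φ ξ = W ξ := by
    intro ξ hξ
    simp only [hΦ]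
    rw [← Matrix.mul_assoc, Matrix.mul_nonsing_inv _ (isUnit_iff_ne_zero.2 (hdet ξ hξ)),
      Matrix.one_mul]
  have hd : ∀ ξ : ℂ, a < ξ.re + κ * |ξ.im| → ∀ i j, DifferentiableAt ℂ (fun ξ => Φ ξ i j) ξ := by
    intro ξ hξ i j
    simp only [hΦ, Matrix.mul_apply]
    exact DifferentiableAt.fun_sum fun k _ =>
      (zc_inv (fun i j => (hF ξ hξ i j).differentiableAt) (hdet ξ hξ) i k).mul
        (hW ξ hξ k j).differentiableAt
  have hz : ∀ ξ : ℂ, a < ξ.re + κ * |ξ.im| → ∀ i j, deriv (fun ξ => Φ ξ i j) ξ = 0 := by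
    intro ξ hξ i j
    have h1 : ∀ i j, HasDerivAt (fun ξ => Φ ξ i j)
        ((Matrix.of fun i j => deriv (fun ξ => Φ ξ i j) ξ : Matrix (Fin N) (Fin N) ℂ) i j) ξ :=
      fun i j => (hd ξ hξ i j).hasDerivAt
    have h2 := zc_mul (hF ξ hξ) h1
    have h3 : M ξ * F ξ * Φ ξ +
        F ξ * (Matrix.of fun i j => deriv (fun ξ => Φ ξ i j) ξ : Matrix (Fin N) (Fin N) ℂ) =
        M ξ * W ξ := by
      ext i j
      refine (h2 i j).unique ((hW ξ hξ i j).congr_of_eventuallyEq ?_)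
      filter_upwards [hopen.mem_nhds hξ] with z hz
      rw [hFΦ z hz]
    rw [Matrix.mul_assoc, hFΦ ξ hξ] at h3
    have h4 : F ξ * (Matrix.of fun i j => deriv (fun ξ => Φ ξ i j) ξ :
        Matrix (Fin N) (Fin N) ℂ) = 0 := left_eq_add.1 h3.symm
    have h5 : (Matrix.of fun i j => deriv (fun ξ => Φ ξ i j) ξ : Matrix (Fin N) (Fin N) ℂ) = 0 := by
      have h6 := congrArg (fun A => (F ξ)⁻¹ * A) h4
      simp only [← Matrix.mul_assoc, Matrix.mul_zero] at h6
      rw [Matrix.nonsing_inv_mul _ (isUnit_iff_ne_zero.2 (hdet ξ hξ)), Matrix.one_mul] at h6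
      exact h6
    exact congrFun (congrFun h5 i) j
  have hx0 : a < ((a + 1 : ℝ) : ℂ).re + κ * |((a + 1 : ℝ) : ℂ).im| := by
    rw [Complex.ofReal_re, Complex.ofReal_im, abs_zero, mul_zero]
    linarith
  refine ⟨Φ ((a + 1 : ℝ) : ℂ), fun ξ hξ => ?_⟩
  have h1 : Φ ((a + 1 : ℝ) : ℂ) = Φ ξ := by
    ext i j
    exact hopen.is_const_of_deriv_eq_zero (zc_conn hκ) (f := fun ξ => Φ ξ i j)
      (fun z hz => (hd z hz i j).differentiableWithinAt) (fun z hz' => hz z hz' i j) hx0 hξ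
  rw [h1]
  exact hFΦ ξ hξ

end Pool.Agent.DST
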