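import Pool.Agent.DST.Abs

/-!
# Project DST, block Z: definitions (complete, nothing to prove)

Notation of block Z: `ω = e^{iφ}`, `ξ = ω e^{-w}` (so `e^w = ω/ξ`), `λ = y e^w = y ω / ξ`. The differential equation
becomes `∂_ξ J = (ω⁻¹ C(λ) - ξ⁻¹ θ) J`; in the eigenbasis `P(λ)` of `C(λ)`, `J = P(λ) K`:
`∂_ξ K = (ω⁻¹ U(λ) - ξ⁻¹ B(λ)) K`, `U_j(λ) = u_j + λ² v_j(λ)`, `V_j' = v_j`, `V_j(0) = 0`,
`B = P⁻¹(θ P - λ P')` antisymmetric. Solutions `K_j = e^{A_j} (e_j + h_j)`,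
`A_j = ω⁻¹ u_j ξ - y V_j(λ)`, `∂_ξ A_j = ω⁻¹ U_j(λ)`, on the domain
`c₁ (1 + |y|) < Re ξ + κ |Im ξ|`.
-/

open scoped BigOperators Topology
open Filter

namespace Pool.Agent.DST

/-- Local data for the construction of the Stokes families near `λ = 0`. -/
structure SD (N : ℕ) where
  r : ℝ
  r_pos : 0 < r
  ω : ℂ
  ω_norm : ‖ω‖ = 1
  u : Fin N → ℂ
  v : Fin N → ℂ → ℂ
  V : Fin N → ℂ → ℂ
  B : ℂ → Matrix (Fin N) (Fin N) ℂ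
  b : ℝ
  v_hol : ∀ x ∈ Metric.ball (0 : ℂ) r, ∀ j, DifferentiableAt ℂ (v j) x
  V_deriv : ∀ x ∈ Metric.ball (0 : ℂ) r, ∀ j, HasDerivAt (V j) (v j x) x
  V_zero : ∀ j, V j 0 = 0
  B_hol : ∀ x ∈ Metric.ball (0 : ℂ) r, ∀ i j, DifferentiableAt ℂ (fun x => B x i j) x
  B_diag : ∀ x ∈ Metric.ball (0 : ℂ) r, ∀ j, B x j j = 0
  B_le : ∀ x ∈ Metric.ball (0 : ℂ) r, ∀ i j, ‖B x i j‖ ≤ b
  v_le : ∀ x ∈ Metric.ball (0 : ℂ) r, ∀ j, ‖v j x‖ ≤ b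
  κ : ℝ
  κ_pos : 0 < κ
  κ_le : κ ≤ 1
  /-- the direction `κ + i` or `κ - i` in which `e^{A_i - A_j}` grows -/
  d : Fin N → Fin N → ℂ
  d_eq : ∀ i j, d i j = κ + Complex.I ∨ d i j = κ - Complex.I
  c : ℝ
  c_pos : 0 < c
  d_re : ∀ x ∈ Metric.ball (0 : ℂ) r, ∀ i j, i ≠ j →
    c ≤ (ω⁻¹ * ((u i + x ^ 2 * v i x) - (u j + x ^ 2 * v j x)) * d i j).re

namespace SD

variable {N : ℕ} (s : SD N)

/-- The eigenvalues `U_j(λ) = u_j + λ² v_j(λ)`. -/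
noncomputable def U (j : Fin N) (x : ℂ) : ℂ := s.u j + x ^ 2 * s.v j x

/-- `λ = y ω / ξ`. -/
noncomputable def lam (y ξ : ℂ) : ℂ := y * s.ω / ξ

/-- The exponent `A_j(y, ξ) = ω⁻¹ u_j ξ - y V_j(λ)`. -/
noncomputable def Ax (j : Fin N) (y ξ : ℂ) : ℂ := s.ω⁻¹ * s.u j * ξ - y * s.V j (s.lam y ξ)

/-- The domain `c₁ (1 + |y|) < Re ξ + κ |Im ξ|`. -/
def dom (c₁ : ℝ) : Set (ℂ × ℂ) := {p | c₁ * (1 + ‖p.1‖) < p.2.re + s.κ * |p.2.im|}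

/-- Functions on the domain, separately holomorphic, with a bound `M / |ξ|^p`. -/
structure Good (c₁ M : ℝ) (p : ℕ) (h : ℂ → ℂ → ℂ) : Prop where
  hol : ∀ y ξ, (y, ξ) ∈ s.dom c₁ → DifferentiableAt ℂ (fun ξ => h y ξ) ξ
  holy : ∀ y ξ, (y, ξ) ∈ s.dom c₁ → DifferentiableAt ℂ (fun y => h y ξ) y
  le : ∀ y ξ, (y, ξ) ∈ s.dom c₁ → ‖h y ξ‖ ≤ M / ‖ξ‖ ^ p

/-- The constant `c₁` is large enough. -/
def Adm (c₁ : ℝ) : Prop := 2 ≤ c₁ ∧ 2 / s.r ≤ c₁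

/-- The matrix `K = (1 + H) diag(e^{A_j})`. -/
noncomputable def Kf (h : Fin N → Fin N → ℂ → ℂ → ℂ) (y ξ : ℂ) : Matrix (Fin N) (Fin N) ℂ :=
  (1 + Matrix.of fun i j => h i j y ξ) * Matrix.diagonal fun j => Complex.exp (s.Ax j y ξ)

/-- The remainder `H` of the Stokes families. -/
structure IsH (c₁ M : ℝ) (h : Fin N → Fin N → ℂ → ℂ → ℂ) : Prop where
  adm : s.Adm c₁
  good : ∀ i j, s.Good c₁ M 1 (h i j)
  ode : ∀ i j y ξ, (y, ξ) ∈ s.dom c₁ → HasDerivAt (fun ξ => h i j y ξ)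
    (s.ω⁻¹ * (s.U i (s.lam y ξ) - s.U j (s.lam y ξ)) * h i j y ξ -
      ξ⁻¹ * (s.B (s.lam y ξ) i j + ∑ k, s.B (s.lam y ξ) i k * h k j y ξ)) ξ

end SD

/-- The fundamental solution in the variable `ξ`. -/
noncomputable def QSys.Jt {N : ℕ} (Q : QSys N) (φ : ℝ) (y ξ : ℂ) : Matrix (Fin N) (Fin N) ℂ :=
  Q.J y (φ * Complex.I - Complex.log ξ)

/-- `s` and `P` are local data for `Q`; `e^{σ_j}` are the eigenvalues of `S(0,0)`. -/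
structure IsSD {N : ℕ} (Q : QSys N) (Ψ₀ : Matrix (Fin N) (Fin N) ℂ) (φ : ℝ) (s : SD N)
    (P : ℂ → Matrix (Fin N) (Fin N) ℂ) (σ : Fin N → ℂ) : Prop where
  ball : Metric.ball (0 : ℂ) s.r ⊆ Q.Λ
  ω : s.ω = Complex.exp (φ * Complex.I)
  P0 : P 0 = Ψ₀
  P_hol : ∀ x ∈ Metric.ball (0 : ℂ) s.r, ∀ i j, DifferentiableAt ℂ (fun x => P x i j) x
  eig : ∀ x ∈ Metric.ball (0 : ℂ) s.r, Q.C x * P x = P x * Matrix.diagonal fun j => s.U j x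
  norm : ∀ x ∈ Metric.ball (0 : ℂ) s.r, (P x).transpose * Q.g x * P x = 1
  B : ∀ x ∈ Metric.ball (0 : ℂ) s.r, P x * s.B x =
    Matrix.diagonal Q.θ * P x - x • Matrix.of fun i j => deriv (fun x => P x i j) x
  shift : Q.S 0 0 * Ψ₀ = Ψ₀ * Matrix.diagonal fun j => Complex.exp (σ j)

/-- The Stokes families as a matrix of functions. -/
noncomputable def SD.W {N : ℕ} (s : SD N) (P : ℂ → Matrix (Fin N) (Fin N) ℂ)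
    (h : Fin N → Fin N → ℂ → ℂ → ℂ) (y ξ : ℂ) : Matrix (Fin N) (Fin N) ℂ :=
  P (s.lam y ξ) * s.Kf h y ξ

/-- The exponents at `λ = e^t ω` of the difference equation. -/
noncomputable def SD.Gx {N : ℕ} (s : SD N) (σ : Fin N → ℂ) (t : ℝ) (j : Fin N) : ℂ :=
  σ j + s.ω⁻¹ * s.u j * Real.exp (-t) - s.V j (Real.exp t * s.ω)

end Pool.Agent.DST
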