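import Pool.Agent.DST.ZHol

/-!
# Project DST, module Z-Ray: solving `h' = a h - R` by integration along a ray

PLAN. `ray_integral`: `Φ ξ = ∫_{t>0} exp (A ξ - A (ξ + t d)) R (ξ + t d) d dt`.
(1) `Φ` is complex differentiable at every point of `D`: `hol_integral` on the ball `ball ξ ρ` of `hb`
  (the integrand is differentiable in `ξ`: `A`, `R` are differentiable on `D`, `ξ + t d ∈ D`; measurable in
  `t` because it is continuous on `t > 0`; constant factor `d`).
(2) Real direction `d`: for small `τ ≥ 0` (`ξ + τ d` in the ball):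
  `Φ(ξ + τ d) = exp (A (ξ + τ d)) ∫_{s > τ} exp (-A (ξ + s d)) R (ξ + s d) d ds`
  (substitution `s = t + τ`; `MeasureTheory.integral_Ioi` translation; or split the integral at `τ`), and the
  derivative from the right at `τ = 0` is `a ξ d Φ(ξ) - R ξ d` (product rule; fundamental theorem:
  `∫_{s>τ} = ∫_{s>0} - ∫_0^τ`, `intervalIntegral.integral_hasDerivWithinAt_right`, the integrand is continuous
  on `[0, ∞)`).
(3) By (1) the same derivative is `Φ'(ξ) d`; uniqueness of one-sided derivatives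
  (`HasDerivWithinAt`, `UniqueDiffWithinAt`) and `d ≠ 0` give `Φ'(ξ) = a ξ Φ ξ - R ξ`.
-/

open scoped BigOperators Topology
open Filter MeasureTheory

namespace Pool.Agent.DST

theorem ray_integral {D : Set ℂ} (hD : IsOpen D) {d : ℂ} (hd : d ≠ 0)
    (hDd : ∀ ξ ∈ D, ∀ t : ℝ, 0 ≤ t → ξ + t * d ∈ D) {A a R : ℂ → ℂ}
    (hA : ∀ ξ ∈ D, HasDerivAt A (a ξ) ξ) (hR : ∀ ξ ∈ D, DifferentiableAt ℂ R ξ)
    (hb : ∀ ξ ∈ D, ∃ ρ > 0, ∃ b : ℝ → ℝ, IntegrableOn b (Set.Ioi 0) ∧ Metric.ball ξ ρ ⊆ D ∧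
      ∀ ξ' ∈ Metric.ball ξ ρ, ∀ t : ℝ, 0 < t →
        ‖Complex.exp (A ξ' - A (ξ' + t * d)) * R (ξ' + t * d)‖ ≤ b t) {ξ : ℂ} (hξ : ξ ∈ D) :
    HasDerivAt
      (fun ξ => ∫ t in Set.Ioi (0 : ℝ), Complex.exp (A ξ - A (ξ + t * d)) * R (ξ + t * d) * d)
      (a ξ * (∫ t in Set.Ioi (0 : ℝ), Complex.exp (A ξ - A (ξ + t * d)) * R (ξ + t * d) * d) -
        R ξ) ξ := by
  obtain ⟨ρ, hρ, b, hbi, hsub, hble⟩ := hb ξ hξ
  have hAc : ∀ x ∈ D, ContinuousAt A x := fun x hx => (hA x hx).continuousAt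
  have hRc : ∀ x ∈ D, ContinuousAt R x := fun x hx => (hR x hx).continuousAt
  set F : ℂ → ℝ → ℂ :=
    fun ξ t => Complex.exp (A ξ - A (ξ + t * d)) * R (ξ + t * d) * d with hF
  have hlA : ∀ x ∈ D, ∀ t : ℝ, 0 ≤ t → ContinuousAt (fun t : ℝ => A (x + (t : ℂ) * d)) t := by
    intro x hx t ht
    have h0 : ContinuousAt (fun t : ℝ => x + (t : ℂ) * d) t := by fun_prop
    exact ContinuousAt.comp (f := fun t : ℝ => x + (t : ℂ) * d) (hAc _ (hDd x hx t ht)) h0
  have hlR : ∀ x ∈ D, ∀ t : ℝ, 0 ≤ t → ContinuousAt (fun t : ℝ => R (x + (t : ℂ) * d)) t := by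
    intro x hx t ht
    have h0 : ContinuousAt (fun t : ℝ => x + (t : ℂ) * d) t := by fun_prop
    exact ContinuousAt.comp (f := fun t : ℝ => x + (t : ℂ) * d) (hRc _ (hDd x hx t ht)) h0
  have hline : ∀ x ∈ D, ∀ t : ℝ, 0 ≤ t → ContinuousAt (F x) t := by
    intro x hx t ht
    have h3 : ContinuousAt (fun t : ℝ => Complex.exp (A x - A (x + (t : ℂ) * d))) t :=
      Complex.continuous_exp.continuousAt.comp (continuousAt_const.sub (hlA x hx t ht))
    exact (h3.mul (hlR x hx t ht)).mul continuousAt_const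
  have hmeas : ∀ x ∈ D, AEStronglyMeasurable (F x) (volume.restrict (Set.Ioi 0)) := by
    intro x hx
    exact ContinuousOn.aestronglyMeasurable
      (fun t ht => (hline x hx t (le_of_lt ht)).continuousWithinAt) measurableSet_Ioi
  have hΦd : DifferentiableAt ℂ (fun ξ => ∫ t in Set.Ioi (0 : ℝ), F ξ t) ξ := by
    apply hol_integral (U := Metric.ball ξ ρ) Metric.isOpen_ball
      (b := fun t => b t * ‖d‖) (hbi.mul_const _)
    · intro t ht y hy
      have hyD := hsub hy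
      have h1 : DifferentiableAt ℂ A y := (hA y hyD).differentiableAt
      have h4 : DifferentiableAt ℂ (fun y => y + (t : ℂ) * d) y := by fun_prop
      have h2 : DifferentiableAt ℂ (fun y => A (y + t * d)) y :=
        DifferentiableAt.comp y (f := fun y => y + (t : ℂ) * d)
          (hA _ (hDd y hyD t ht.le)).differentiableAt h4
      have h3 : DifferentiableAt ℂ (fun y => R (y + t * d)) y :=
        DifferentiableAt.comp y (f := fun y => y + (t : ℂ) * d) (hR _ (hDd y hyD t ht.le)) h4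
      exact (((h1.sub h2).cexp).mul h3).mul_const d
    · intro y hy
      exact hmeas y (hsub hy)
    · intro t ht y hy
      show ‖Complex.exp (A y - A (y + t * d)) * R (y + t * d) * d‖ ≤ b t * ‖d‖
      rw [norm_mul]
      exact mul_le_mul_of_nonneg_right (hble y hy t ht) (norm_nonneg _)
    · exact Metric.mem_ball_self hρ
  -- the function on the ray
  set g : ℝ → ℂ := fun s => Complex.exp (- A (ξ + s * d)) * R (ξ + s * d) * d with hg
  have hFg : ∀ s, F ξ s = Complex.exp (A ξ) * g s := by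
    intro s
    simp only [hF, hg, sub_eq_add_neg, Complex.exp_add]
    ring
  have hgc : ∀ s : ℝ, 0 ≤ s → ContinuousAt g s := by
    intro s hs
    have h3 : ContinuousAt (fun t : ℝ => Complex.exp (- A (ξ + (t : ℂ) * d))) s :=
      Complex.continuous_exp.continuousAt.comp ((hlA ξ hξ s hs).neg)
    exact (h3.mul (hlR ξ hξ s hs)).mul continuousAt_const
  have hFint : IntegrableOn (F ξ) (Set.Ioi 0) := by
    refine Integrable.mono' (hbi.mul_const ‖d‖) (hmeas ξ hξ) ?_
    filter_upwards [ae_restrict_mem measurableSet_Ioi] with t ht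
    show ‖Complex.exp (A ξ - A (ξ + t * d)) * R (ξ + t * d) * d‖ ≤ b t * ‖d‖
    rw [norm_mul]
    exact mul_le_mul_of_nonneg_right (hble ξ (Metric.mem_ball_self hρ) t ht) (norm_nonneg _)
  have hgint : IntegrableOn g (Set.Ioi 0) := by
    have h1 : g = fun s => Complex.exp (- A ξ) * F ξ s := by
      funext s
      rw [hFg, ← mul_assoc, ← Complex.exp_add, neg_add_cancel, Complex.exp_zero, one_mul]
    rw [h1]
    exact hFint.const_mul _
  have hgI : Complex.exp (A ξ) * ∫ s in Set.Ioi (0 : ℝ), g s = ∫ t in Set.Ioi (0 : ℝ), F ξ t := by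
    rw [← integral_const_mul]
    exact integral_congr_ae (Eventually.of_forall fun s => (hFg s).symm)
  -- values of the integral on the ray
  have hray : ∀ τ : ℝ, τ ∈ Set.Ici (0 : ℝ) →
      (∫ t in Set.Ioi (0 : ℝ), F (ξ + τ * d) t) =
        Complex.exp (A (ξ + τ * d)) *
          ((∫ s in Set.Ioi (0 : ℝ), g s) - ∫ s in (0 : ℝ)..τ, g s) := by
    intro τ hτ
    have h1 : ∀ t : ℝ, F (ξ + τ * d) t = Complex.exp (A (ξ + τ * d)) * g (t + τ) := by
      intro t
      have h2 : ξ + (τ : ℂ) * d + (t : ℂ) * d = ξ + ((t + τ : ℝ) : ℂ) * d := by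
        push_cast
        ring
      simp only [hF, hg]
      rw [h2, sub_eq_add_neg, Complex.exp_add]
      ring
    have h3 : (∫ t in Set.Ioi (0 : ℝ), F (ξ + τ * d) t) =
        Complex.exp (A (ξ + τ * d)) * ∫ t in Set.Ioi (0 : ℝ), g (t + τ) := by
      rw [← integral_const_mul]
      exact integral_congr_ae (Eventually.of_forall fun s => h1 s)
    have h4 : ∫ t in Set.Ioi (0 : ℝ), g (t + τ) = ∫ s in Set.Ioi τ, g s := by
      have h5 := (measurePreserving_add_right volume τ).setIntegral_preimage_emb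
        (measurableEmbedding_addRight τ) g (Set.Ioi τ)
      rw [Set.preimage_add_const_Ioi, sub_self] at h5
      exact h5
    have h6 := intervalIntegral.integral_interval_add_Ioi hgint
      (hgint.mono_set (Set.Ioi_subset_Ioi (show (0 : ℝ) ≤ τ from hτ)))
    rw [h3, h4, ← h6, add_sub_cancel_left]
  have hl : HasDerivAt (fun τ : ℝ => ξ + (τ : ℂ) * d) d 0 := by
    have h1 := ((Complex.ofRealCLM.hasDerivAt (x := (0 : ℝ))).mul_const d).const_add ξ
    simpa using h1
  have hz : ξ + ((0 : ℝ) : ℂ) * d = ξ := by simp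
  have hd1 : HasDerivWithinAt (fun τ : ℝ => ∫ t in Set.Ioi (0 : ℝ), F (ξ + τ * d) t)
      (deriv (fun ξ => ∫ t in Set.Ioi (0 : ℝ), F ξ t) ξ * d) (Set.Ici 0) 0 := by
    have h1 := hΦd.hasDerivAt
    exact (HasDerivAt.comp_of_eq (h := fun τ : ℝ => ξ + (τ : ℂ) * d) 0 h1 hl
      hz.symm).hasDerivWithinAt
  have hd2 : HasDerivWithinAt (fun τ : ℝ => ∫ t in Set.Ioi (0 : ℝ), F (ξ + τ * d) t)
      (Complex.exp (A ξ) * (a ξ * d) * (∫ s in Set.Ioi (0 : ℝ), g s) -
        Complex.exp (A ξ) * g 0) (Set.Ici 0) 0 := by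
    have h1 : HasDerivWithinAt (fun u : ℝ => ∫ x in (0 : ℝ)..u, g x) (g 0) (Set.Ici 0) 0 :=
      intervalIntegral.integral_hasDerivWithinAt_right (t := Set.Ioi 0)
        IntervalIntegrable.refl
        ⟨Set.Ioi 0, self_mem_nhdsWithin, hgint.aestronglyMeasurable⟩
        (hgc 0 le_rfl).continuousWithinAt
    have h2 : HasDerivAt (fun τ : ℝ => A (ξ + (τ : ℂ) * d)) (a ξ * d) 0 :=
      HasDerivAt.comp_of_eq (h := fun τ : ℝ => ξ + (τ : ℂ) * d) 0 (hA ξ hξ) hl hz.symm
    have h3 : HasDerivAt (fun τ : ℝ => Complex.exp (A (ξ + (τ : ℂ) * d)))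
        (Complex.exp (A ξ) * (a ξ * d)) 0 := by
      have h4 := HasDerivAt.comp_of_eq (h := fun τ : ℝ => A (ξ + (τ : ℂ) * d)) 0
        (Complex.hasDerivAt_exp (A ξ)) h2 (by rw [hz])
      exact h4
    have h5 := h3.hasDerivWithinAt.mul
      ((hasDerivWithinAt_const (0 : ℝ) (Set.Ici 0) (∫ s in Set.Ioi (0 : ℝ), g s)).sub h1)
    refine (h5.congr_deriv ?_).congr (fun τ hτ => ?_) ?_
    · simp only [Pi.sub_apply, intervalIntegral.integral_same, sub_zero, zero_sub, hz]
      ring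
    · exact hray τ hτ
    · exact hray 0 Set.self_mem_Ici
  have hu := UniqueDiffWithinAt.eq_deriv (Set.Ici (0 : ℝ))
    (uniqueDiffOn_Ici (0 : ℝ) 0 Set.self_mem_Ici) hd1 hd2
  have hg0 : Complex.exp (A ξ) * g 0 = R ξ * d := by
    have h1 := hFg 0
    rw [← h1]
    simp only [hF, hz, sub_self, Complex.exp_zero, one_mul]
  have hfin : deriv (fun ξ => ∫ t in Set.Ioi (0 : ℝ), F ξ t) ξ =
      a ξ * (∫ t in Set.Ioi (0 : ℝ), F ξ t) - R ξ := by
    apply mul_right_cancel₀ hd
    rw [hu, hg0, ← hgI]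
    ring
  rw [← hfin]
  exact hΦd.hasDerivAt

end Pool.Agent.DST
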