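import Pool.Agent.DST.ZGeo
import Pool.Agent.DST.ZRay

/-!
# Project DST, module Z-Dia: the diagonal operator

`h y ξ = ∫_{t>0} R y (ξ+t) dt`: `ray_integral` with `A = 0`, `a = 0`, `d = 1` (`dom_add_real`). By
`norm_add_real` `‖R y (ξ+t)‖ ≤ M/‖ξ+t‖² ≤ 36 M/(‖ξ‖+t)² ≤ 36 M/(1+t)²`, integrable on `t > 0`,
and `∫_{t>0} dt/(‖ξ‖+t)² = 1/‖ξ‖`. So `‖h y ξ‖ ≤ 36 M/‖ξ‖`, `K = 36`.
Holomorphy in `y`: `hol_integral` with the bound `36 M/(1+t)²`.
-/

open scoped BigOperators Topology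
open Filter MeasureTheory

namespace Pool.Agent.DST

private theorem dia_int {a C : ℝ} (ha : 0 < a) (hC : 0 ≤ C) :
    IntegrableOn (fun t : ℝ => C / (a + t) ^ 2) (Set.Ioi 0) ∧
      ∫ t in Set.Ioi (0 : ℝ), C / (a + t) ^ 2 = C / a := by
  have h1 : ∀ x ∈ Set.Ici (0 : ℝ), HasDerivAt (fun t => -(C / (a + t))) (C / (a + x) ^ 2) x := by
    intro x hx
    have hx' : 0 < a + x := by
      have := Set.mem_Ici.1 hx
      linarith
    have h2 : HasDerivAt (fun t => a + t) 1 x := by simpa using (hasDerivAt_id x).const_add a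
    have h3 := ((h2.inv hx'.ne').const_mul C).neg
    refine (h3.congr_deriv ?_).congr_of_eventuallyEq ?_
    · field_simp
    · exact Eventually.of_forall fun t => by
        simp only [Pi.neg_apply, Pi.inv_apply, div_eq_mul_inv]
  have h2 : ∀ x ∈ Set.Ioi (0 : ℝ), 0 ≤ C / (a + x) ^ 2 := fun x _ => by positivity
  have h3 : Tendsto (fun t : ℝ => -(C / (a + t))) atTop (𝓝 0) := by
    have h4 : Tendsto (fun t : ℝ => a + t) atTop atTop := tendsto_atTop_add_const_left _ _ tendsto_id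
    have h5 := (tendsto_const_nhds (x := C)).div_atTop h4
    simpa using h5.neg
  refine ⟨integrableOn_Ioi_deriv_of_nonneg' h1 h2 h3, ?_⟩
  rw [integral_Ioi_of_hasDerivAt_of_nonneg' h1 h2 h3]
  simp

private theorem dia_bound {N : ℕ} (s : SD N) {c₁ M : ℝ} (hc : s.Adm c₁) (hM : 0 ≤ M) {R : ℂ → ℂ → ℂ}
    (hR : s.Good c₁ M 2 R) {y ξ : ℂ} (h : (y, ξ) ∈ s.dom c₁) {t : ℝ} (ht : 0 ≤ t) :
    ‖R y (ξ + t)‖ ≤ 36 * M / (‖ξ‖ + t) ^ 2 := by
  have h1 := hR.le _ _ (s.dom_add_real h ht)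
  have h2 := s.norm_add_real hc h ht
  have h3 := (s.norm_lt hc h).2.1
  have h4 : 0 < ‖ξ‖ + t := by linarith
  have h5 : 0 < ‖ξ + t‖ := by linarith
  refine h1.trans ?_
  rw [div_le_div_iff₀ (by positivity) (by positivity)]
  have h6 : (‖ξ‖ + t) ^ 2 ≤ (6 * ‖ξ + t‖) ^ 2 := pow_le_pow_left₀ h4.le h2 2
  calc M * (‖ξ‖ + t) ^ 2 ≤ M * (6 * ‖ξ + t‖) ^ 2 := mul_le_mul_of_nonneg_left h6 hM
    _ = 36 * M * ‖ξ + t‖ ^ 2 := by ring

private theorem dia_bound1 {N : ℕ} (s : SD N) {c₁ M : ℝ} (hc : s.Adm c₁) (hM : 0 ≤ M) {R : ℂ → ℂ → ℂ}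
    (hR : s.Good c₁ M 2 R) {y ξ : ℂ} (h : (y, ξ) ∈ s.dom c₁) {t : ℝ} (ht : 0 ≤ t) :
    ‖R y (ξ + t)‖ ≤ 36 * M / (1 + t) ^ 2 := by
  refine (dia_bound s hc hM hR h ht).trans ?_
  have h3 := (s.norm_lt hc h).2.1
  refine div_le_div_of_nonneg_left (by positivity) (by positivity) ?_
  exact pow_le_pow_left₀ (by linarith) (by linarith) 2

theorem SD.solve_dia {N : ℕ} (s : SD N) : ∃ K : ℝ, 0 ≤ K ∧ ∀ c₁, s.Adm c₁ → ∀ M, 0 ≤ M →
    ∀ R, s.Good c₁ M 2 R → ∃ h, s.Good c₁ (K * M) 1 h ∧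
      ∀ y ξ, (y, ξ) ∈ s.dom c₁ → HasDerivAt (fun ξ => h y ξ) (-R y ξ) ξ := by
  refine ⟨36, by norm_num, fun c₁ hc M hM R hR => ?_⟩
  have hder : ∀ y ξ, (y, ξ) ∈ s.dom c₁ →
      HasDerivAt (fun ξ => ∫ t in Set.Ioi (0 : ℝ), R y (ξ + t)) (-R y ξ) ξ := by
    intro y ξ h
    have hO : IsOpen {ξ' : ℂ | (y, ξ') ∈ s.dom c₁} :=
      s.dom_open.preimage (by fun_prop : Continuous fun ξ' : ℂ => (y, ξ'))
    have h1 := ray_integral (D := {ξ' : ℂ | (y, ξ') ∈ s.dom c₁}) hO (d := 1) one_ne_zero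
      (fun ξ' hξ' t ht => by
        have := s.dom_add_real hξ' ht
        simpa using this) (A := fun _ => 0) (a := fun _ => 0) (R := R y)
      (fun ξ' _ => hasDerivAt_const ξ' (0 : ℂ)) (fun ξ' hξ' => hR.hol _ _ hξ')
      (fun ξ' hξ' => by
        obtain ⟨ρ, hρ, hb⟩ := Metric.isOpen_iff.1 hO ξ' hξ'
        refine ⟨ρ, hρ, fun t => 36 * M / (1 + t) ^ 2, (dia_int one_pos (by positivity)).1, hb, ?_⟩
        intro ξ'' hξ'' t ht
        have := dia_bound1 s hc hM hR (hb hξ'') ht.le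
        simpa using this) h
    simpa using h1
  refine ⟨fun y ξ => ∫ t in Set.Ioi (0 : ℝ), R y (ξ + t), ⟨?_, ?_, ?_⟩, hder⟩
  · intro y ξ h
    exact (hder y ξ h).differentiableAt
  · intro y ξ h
    have hO : IsOpen {y' : ℂ | (y', ξ) ∈ s.dom c₁} :=
      s.dom_open.preimage (by fun_prop : Continuous fun y' : ℂ => (y', ξ))
    refine hol_integral (U := {y' : ℂ | (y', ξ) ∈ s.dom c₁}) hO (f := fun y' t => R y' (ξ + t))
      (b := fun t => 36 * M / (1 + t) ^ 2) (dia_int one_pos (by positivity)).1 ?_ ?_ ?_ h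
    · intro t ht y' hy'
      exact hR.holy _ _ (s.dom_add_real hy' ht.le)
    · intro y' hy'
      refine ContinuousOn.aestronglyMeasurable ?_ measurableSet_Ioi
      intro t ht
      have h1 := (hR.hol _ _ (s.dom_add_real hy' (le_of_lt ht))).continuousAt
      have h2 : ContinuousAt (fun t : ℝ => ξ + (t : ℂ)) t := by fun_prop
      exact (ContinuousAt.comp (f := fun t : ℝ => ξ + (t : ℂ)) (g := fun ξ' => R y' ξ') h1 h2).continuousWithinAt
    · intro t ht y' hy'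
      exact dia_bound1 s hc hM hR hy' ht.le
  · intro y ξ h
    have h3 := (s.norm_lt hc h).2.1
    have h4 := dia_int (a := ‖ξ‖) (C := 36 * M) (by linarith) (by positivity)
    rw [pow_one, ← h4.2]
    refine norm_integral_le_of_norm_le h4.1 ?_
    refine (ae_restrict_iff' measurableSet_Ioi).2 (Eventually.of_forall fun t ht => ?_)
    exact dia_bound s hc hM hR h (le_of_lt ht)

end Pool.Agent.DST
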