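import Pool.Agent.DST.TRoot
import Pool.Agent.DST.SHol

/-!
# Project DST, module Z-EigC: holomorphic orthonormal eigenvectors near a point

The eigenvalues `U j` are given by `root_hol`; the columns of `adj (U j x - C x) Ψ₀` are eigenvectors, the `j`-th one is
nonzero at `x = 0`. They are orthogonal because `C` is self-adjoint, and are normalised with the principal branch of the
square root.
-/

open scoped BigOperators Topology
open Filter

namespace Pool.Agent.DST

variable {N : ℕ}

private theorem charpoly_eq {C₀ Ψ₀ : Matrix (Fin N) (Fin N) ℂ} {u : Fin N → ℂ} (hd : Ψ₀.det ≠ 0)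
    (heig : C₀ * Ψ₀ = Ψ₀ * Matrix.diagonal u) :
    C₀.charpoly = ∏ i, (Polynomial.X - Polynomial.C (u i)) := by
  apply Polynomial.funext
  intro t
  rw [Matrix.eval_charpoly, Polynomial.eval_prod]
  simp only [Polynomial.eval_sub, Polynomial.eval_X, Polynomial.eval_C]
  have h1 : (Matrix.scalar (Fin N) t - C₀) * Ψ₀ = Ψ₀ * Matrix.diagonal (fun i => t - u i) := by
    have h2 : Matrix.diagonal (fun i => t - u i) = Matrix.scalar (Fin N) t - Matrix.diagonal u := by
      rw [Matrix.scalar_apply, Matrix.diagonal_sub]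
    rw [h2, Matrix.sub_mul, Matrix.mul_sub, heig]
    congr 1
    rw [Matrix.scalar_apply, ← Matrix.smul_eq_diagonal_mul, ← Matrix.smul_eq_mul_diagonal]
  have h3 := congrArg Matrix.det h1
  rw [Matrix.det_mul, Matrix.det_mul, Matrix.det_diagonal, mul_comm] at h3
  exact mul_left_cancel₀ hd h3

private theorem deriv_charpoly_ne {u : Fin N → ℂ} (inj : Function.Injective u) (j : Fin N) :
    (Polynomial.derivative (∏ i, (Polynomial.X - Polynomial.C (u i)))).eval (u j) ≠ 0 := by
  classical
  rw [Polynomial.derivative_prod_finset, Polynomial.eval_finsetSum, Finset.sum_eq_single j]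
  · rw [Polynomial.eval_mul, Polynomial.eval_prod]
    simp only [Polynomial.eval_sub, Polynomial.eval_X, Polynomial.eval_C, Polynomial.derivative_sub,
      Polynomial.derivative_X, Polynomial.derivative_C, sub_zero, Polynomial.eval_one, mul_one]
    refine Finset.prod_ne_zero_iff.mpr fun i hi => ?_
    rw [sub_ne_zero]
    intro h
    exact (Finset.ne_of_mem_erase hi) (inj h).symm
  · intro i _ hij
    rw [Polynomial.eval_mul, Polynomial.eval_prod]
    have : ∏ k ∈ Finset.univ.erase i, (Polynomial.X - Polynomial.C (u k)).eval (u j) = 0 :=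
      Finset.prod_eq_zero (Finset.mem_erase.mpr ⟨fun h => hij h.symm, Finset.mem_univ j⟩) (by simp)
    rw [this, zero_mul]
  · intro h
    exact absurd (Finset.mem_univ j) h

private theorem adj_conj {C₀ Ψ₀ : Matrix (Fin N) (Fin N) ℂ} {u : Fin N → ℂ} (hd : Ψ₀.det ≠ 0)
    (heig : C₀ * Ψ₀ = Ψ₀ * Matrix.diagonal u) (t : ℂ) :
    (Matrix.scalar (Fin N) t - C₀).adjugate * Ψ₀ = Ψ₀ * (Matrix.diagonal (fun i => t - u i)).adjugate := by
  have h1 : (Matrix.scalar (Fin N) t - C₀) * Ψ₀ = Ψ₀ * Matrix.diagonal (fun i => t - u i) := by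
    have h2 : Matrix.diagonal (fun i => t - u i) = Matrix.scalar (Fin N) t - Matrix.diagonal u := by
      rw [Matrix.scalar_apply, Matrix.diagonal_sub]
    rw [h2, Matrix.sub_mul, Matrix.mul_sub, heig]
    congr 1
    rw [Matrix.scalar_apply, ← Matrix.smul_eq_diagonal_mul, ← Matrix.smul_eq_mul_diagonal]
  have h2 := congrArg Matrix.adjugate h1
  rw [Matrix.adjugate_mul_distrib, Matrix.adjugate_mul_distrib] at h2
  -- adj Ψ₀ * adj A = adj D * adj Ψ₀
  have h3 : Ψ₀ * (Ψ₀.adjugate * (Matrix.scalar (Fin N) t - C₀).adjugate) * Ψ₀ =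
      Ψ₀ * ((Matrix.diagonal (fun i => t - u i)).adjugate * Ψ₀.adjugate) * Ψ₀ := by rw [h2]
  rw [← Matrix.mul_assoc, Matrix.mul_adjugate, Matrix.smul_mul, Matrix.one_mul, Matrix.smul_mul,
    ← Matrix.mul_assoc, Matrix.mul_assoc _ Ψ₀.adjugate, Matrix.adjugate_mul, Matrix.mul_smul,
    Matrix.mul_one] at h3
  exact smul_right_injective _ hd h3

private theorem cpow_sq {n : ℂ} (hn : n ≠ 0) : n ^ (-(1 / 2) : ℂ) * n ^ (-(1 / 2) : ℂ) * n = 1 := by
  rw [← Complex.cpow_add _ _ hn, show (-(1 / 2) : ℂ) + -(1 / 2) = -1 by norm_num, Complex.cpow_neg_one,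
    inv_mul_cancel₀ hn]

theorem exists_eigC {Λ : Set ℂ} (hΛ : IsOpen Λ) (h0 : (0 : ℂ) ∈ Λ)
    {C g : ℂ → Matrix (Fin N) (Fin N) ℂ}
    (hC : ∀ x ∈ Λ, ∀ i j, DifferentiableAt ℂ (fun x => C x i j) x)
    (hg : ∀ x ∈ Λ, ∀ i j, DifferentiableAt ℂ (fun x => g x i j) x)
    (hself : ∀ x ∈ Λ, g x * C x = (C x).transpose * g x) {u : Fin N → ℂ}
    (inj : Function.Injective u) {Ψ₀ : Matrix (Fin N) (Fin N) ℂ}
    (heig : C 0 * Ψ₀ = Ψ₀ * Matrix.diagonal u) (hnorm : Ψ₀.transpose * g 0 * Ψ₀ = 1) :
    ∃ r > 0, Metric.ball (0 : ℂ) r ⊆ Λ ∧ ∃ (P : ℂ → Matrix (Fin N) (Fin N) ℂ)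
      (U : Fin N → ℂ → ℂ), P 0 = Ψ₀ ∧ (∀ j, U j 0 = u j) ∧ ∀ x ∈ Metric.ball (0 : ℂ) r,
        (∀ i j, DifferentiableAt ℂ (fun x => P x i j) x) ∧
        (∀ j, DifferentiableAt ℂ (U j) x) ∧
        C x * P x = P x * Matrix.diagonal (fun j => U j x) ∧
        (P x).transpose * g x * P x = 1 := by
  classical
  have hd : Ψ₀.det ≠ 0 := by
    intro h
    have h1 := congrArg Matrix.det hnorm
    rw [Matrix.det_mul, h, mul_zero, Matrix.det_one] at h1
    exact zero_ne_one h1
  have hcp := charpoly_eq hd heig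
  -- the eigenvalues
  have hroot : ∀ j, ∃ ρ > 0, Metric.ball (0 : ℂ) ρ ⊆ Λ ∧ ∃ a : ℂ → ℂ, a 0 = u j ∧
      ∀ s ∈ Metric.ball (0 : ℂ) ρ, DifferentiableAt ℂ a s ∧ (C s).charpoly.eval (a s) = 0 := by
    intro j
    refine root_hol hΛ hC h0 ?_ ?_
    · rw [hcp, Polynomial.eval_prod]
      exact Finset.prod_eq_zero (Finset.mem_univ j) (by simp)
    · rw [hcp]
      exact deriv_charpoly_ne inj j
  choose ρ hρ hρΛ U hU0 hU using hroot
  -- unnormalised eigenvectors
  obtain ⟨δ, hδ⟩ : ∃ δ : Fin N → ℂ, δ = fun j => ∏ k ∈ Finset.univ.erase j, (u j - u k) := ⟨_, rfl⟩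
  have hδ0 : ∀ j, δ j ≠ 0 := by
    intro j
    rw [hδ]
    refine Finset.prod_ne_zero_iff.mpr fun i hi => ?_
    rw [sub_ne_zero]
    intro h
    exact (Finset.ne_of_mem_erase hi) (inj h).symm
  obtain ⟨Q, hQ⟩ : ∃ Q : ℂ → Matrix (Fin N) (Fin N) ℂ, Q = fun x => Matrix.of fun i j =>
      (δ j)⁻¹ * ((Matrix.scalar (Fin N) (U j x) - C x).adjugate * Ψ₀) i j := ⟨_, rfl⟩
  have hQ0 : Q 0 = Ψ₀ := by
    ext i j
    rw [hQ]
    simp only [Matrix.of_apply]
    rw [hU0 j, adj_conj hd heig, Matrix.adjugate_diagonal, Matrix.mul_diagonal]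
    have h1 : (∏ k ∈ Finset.univ.erase j, (u j - u k)) = δ j := by rw [hδ]
    rw [h1]
    field_simp [hδ0 j]
  have hUev : ∀ᶠ x in 𝓝 (0 : ℂ), ∀ j, DifferentiableAt ℂ (U j) x ∧ (C x).charpoly.eval (U j x) = 0 := by
    rw [Filter.eventually_all]
    intro j
    filter_upwards [Metric.isOpen_ball.mem_nhds (Metric.mem_ball_self (hρ j))] with x hx
    exact hU j x hx
  have hQd : ∀ x ∈ Λ, (∀ j, DifferentiableAt ℂ (U j) x) → ∀ i j, DifferentiableAt ℂ (fun x => Q x i j) x := by
    intro x hx hUd i j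
    rw [hQ]
    simp only [Matrix.of_apply]
    refine DifferentiableAt.const_mul ?_ _
    have hA : ∀ a b, DifferentiableAt ℂ (fun x => (Matrix.scalar (Fin N) (U j x) - C x) a b) x := by
      intro a b
      simp only [Matrix.sub_apply, Matrix.scalar_apply]
      refine DifferentiableAt.sub ?_ (hC x hx a b)
      by_cases hab : a = b
      · subst hab
        simp only [Matrix.diagonal_apply_eq]
        exact hUd j
      · simp only [Matrix.diagonal_apply_ne _ hab]
        exact differentiableAt_const _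
    have hadj : ∀ a b, DifferentiableAt ℂ (fun x => (Matrix.scalar (Fin N) (U j x) - C x).adjugate a b) x := by
      intro a b
      simp only [Matrix.adjugate_apply]
      refine diffAt_det fun c d => ?_
      by_cases hc : c = b
      · simp only [Matrix.updateRow_apply, hc, if_true]
        exact differentiableAt_const _
      · simp only [Matrix.updateRow_apply, hc, if_false]
        exact hA c d
    exact diffAt_mul (A := fun x => (Matrix.scalar (Fin N) (U j x) - C x).adjugate) (B := fun _ => Ψ₀) hadj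
      (fun _ _ => differentiableAt_const _) i j
  have hQe : ∀ x, (∀ j, (C x).charpoly.eval (U j x) = 0) → C x * Q x = Q x * Matrix.diagonal (fun j => U j x) := by
    intro x hx
    ext i j
    have h1 : (Matrix.scalar (Fin N) (U j x) - C x) * (Matrix.scalar (Fin N) (U j x) - C x).adjugate = 0 := by
      rw [Matrix.mul_adjugate, ← Matrix.eval_charpoly, hx j, zero_smul]
    have h2 : C x * (Matrix.scalar (Fin N) (U j x) - C x).adjugate =
        U j x • (Matrix.scalar (Fin N) (U j x) - C x).adjugate := by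
      rw [Matrix.sub_mul, sub_eq_zero, Matrix.scalar_apply, ← Matrix.smul_eq_diagonal_mul] at h1
      exact h1.symm
    rw [Matrix.mul_diagonal, Matrix.mul_apply]
    have h3 : ∀ k, C x i k * Q x k j = (δ j)⁻¹ *
        (C x i k * ((Matrix.scalar (Fin N) (U j x) - C x).adjugate * Ψ₀) k j) := by
      intro k
      rw [hQ]
      simp only [Matrix.of_apply]
      ring
    simp only [h3]
    rw [← Finset.mul_sum, ← Matrix.mul_apply, ← Matrix.mul_assoc, h2, Matrix.smul_mul, Matrix.smul_apply, smul_eq_mul, hQ]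
    simp only [Matrix.of_apply]
    ring
  -- the Gram matrix
  obtain ⟨G, hG⟩ : ∃ G : ℂ → Matrix (Fin N) (Fin N) ℂ, G = fun x => (Q x).transpose * g x * Q x := ⟨_, rfl⟩
  have hGd : ∀ x ∈ Λ, (∀ j, DifferentiableAt ℂ (U j) x) → ∀ i j, DifferentiableAt ℂ (fun x => G x i j) x := by
    intro x hx hUd i j
    have hq := hQd x hx hUd
    rw [hG]
    exact diffAt_mul (A := fun x => (Q x).transpose * g x) (B := Q)
      (diffAt_mul (A := fun x => (Q x).transpose) (B := g) (fun a b => hq b a) (hg x hx)) hq i j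
  have hG0 : ∀ j, G 0 j j = 1 := by
    intro j
    rw [hG]
    simp only
    rw [hQ0, hnorm, Matrix.one_apply_eq]
  have hUd0 : ∀ j, DifferentiableAt ℂ (U j) 0 := fun j => (hUev.self_of_nhds j).1
  have hΛev : ∀ᶠ x in 𝓝 (0 : ℂ), x ∈ Λ := hΛ.mem_nhds h0
  have hne : ∀ᶠ x in 𝓝 (0 : ℂ), ∀ i j, i ≠ j → U i x ≠ U j x := by
    rw [Filter.eventually_all]
    intro i
    rw [Filter.eventually_all]
    intro j
    by_cases hij : i = j
    · exact Filter.Eventually.of_forall fun x h => absurd hij h
    · have h1 : ContinuousAt (fun x => U i x - U j x) 0 := (hUd0 i).continuousAt.sub (hUd0 j).continuousAt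
      have h2 : U i 0 - U j 0 ≠ 0 := by
        rw [hU0, hU0, sub_ne_zero]
        exact fun h => hij (inj h)
      filter_upwards [h1.eventually_ne h2] with x hx _
      exact sub_ne_zero.mp hx
  have hsl : ∀ᶠ x in 𝓝 (0 : ℂ), ∀ j, G x j j ∈ Complex.slitPlane := by
    rw [Filter.eventually_all]
    intro j
    have h1 : ContinuousAt (fun x => G x j j) 0 := (hGd 0 h0 hUd0 j j).continuousAt
    refine h1.eventually_mem (Complex.isOpen_slitPlane.mem_nhds ?_)
    show G 0 j j ∈ Complex.slitPlane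
    rw [hG0]
    exact Complex.one_mem_slitPlane
  obtain ⟨r, hr, hball⟩ := Metric.eventually_nhds_iff_ball.1 (((hΛev.and hUev).and hne).and hsl)
  refine ⟨r, hr, fun x hx => (hball x hx).1.1.1,
    fun x => Q x * Matrix.diagonal (fun j => G x j j ^ (-(1 / 2) : ℂ)), U, ?_, hU0, ?_⟩
  · have h1 : (fun j => G 0 j j ^ (-(1 / 2) : ℂ)) = fun _ => (1 : ℂ) := by
      funext j
      rw [hG0, Complex.one_cpow]
    simp only [h1, hQ0]
    rw [Matrix.diagonal_one, Matrix.mul_one]
  · intro x hx
    obtain ⟨⟨⟨hxΛ, hxU⟩, hxne⟩, hxs⟩ := hball x hx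
    have hUd : ∀ j, DifferentiableAt ℂ (U j) x := fun j => (hxU j).1
    have hq := hQe x fun j => (hxU j).2
    refine ⟨?_, hUd, ?_, ?_⟩
    · intro i j
      refine diffAt_mul (A := Q) (B := fun x => Matrix.diagonal (fun j => G x j j ^ (-(1 / 2) : ℂ)))
        (hQd x hxΛ hUd) (fun a b => ?_) i j
      by_cases hab : a = b
      · subst hab
        simp only [Matrix.diagonal_apply_eq]
        exact (hGd x hxΛ hUd a a).cpow_const (hxs a)
      · simp only [Matrix.diagonal_apply_ne _ hab]
        exact differentiableAt_const _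
    · rw [← Matrix.mul_assoc, hq, Matrix.mul_assoc, Matrix.mul_assoc, Matrix.diagonal_mul_diagonal,
        Matrix.diagonal_mul_diagonal]
      congr 2
      funext j
      ring
    · -- orthogonality
      have hcom : Matrix.diagonal (fun j => U j x) * G x = G x * Matrix.diagonal (fun j => U j x) := by
        rw [hG]
        simp only
        have h1 : (Q x).transpose * (C x).transpose = Matrix.diagonal (fun j => U j x) * (Q x).transpose := by
          rw [← Matrix.transpose_mul, hq, Matrix.transpose_mul, Matrix.diagonal_transpose]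
        calc Matrix.diagonal (fun j => U j x) * ((Q x).transpose * g x * Q x)
            = (Matrix.diagonal (fun j => U j x) * (Q x).transpose) * g x * Q x := by
              simp only [Matrix.mul_assoc]
          _ = (Q x).transpose * ((C x).transpose * g x) * Q x := by rw [← h1]; simp only [Matrix.mul_assoc]
          _ = (Q x).transpose * g x * (C x * Q x) := by rw [← hself x hxΛ]; simp only [Matrix.mul_assoc]
          _ = _ := by rw [hq]; simp only [Matrix.mul_assoc]
      have hoff : ∀ i j, i ≠ j → G x i j = 0 := by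
        intro i j hij
        have h1 := congrFun (congrFun hcom i) j
        rw [Matrix.diagonal_mul, Matrix.mul_diagonal] at h1
        have h2 : (U i x - U j x) * G x i j = 0 := by
          rw [sub_mul, h1]
          ring
        exact (mul_eq_zero.mp h2).resolve_left (sub_ne_zero.mpr (hxne i j hij))
      have hGdiag : G x = Matrix.diagonal (fun j => G x j j) := by
        ext i j
        by_cases hij : i = j
        · subst hij
          rw [Matrix.diagonal_apply_eq]
        · rw [Matrix.diagonal_apply_ne _ hij, hoff i j hij]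
      have h1 : (Q x * Matrix.diagonal (fun j => G x j j ^ (-(1 / 2) : ℂ))).transpose * g x *
          (Q x * Matrix.diagonal (fun j => G x j j ^ (-(1 / 2) : ℂ))) =
          Matrix.diagonal (fun j => G x j j ^ (-(1 / 2) : ℂ)) * G x *
            Matrix.diagonal (fun j => G x j j ^ (-(1 / 2) : ℂ)) := by
        rw [Matrix.transpose_mul, Matrix.diagonal_transpose, hG]
        simp only [Matrix.mul_assoc]
      rw [h1]
      nth_rewrite 2 [hGdiag]
      rw [Matrix.diagonal_mul_diagonal, Matrix.diagonal_mul_diagonal, ← Matrix.diagonal_one]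
      congr 1
      funext j
      have h2 := cpow_sq (Complex.slitPlane_ne_zero (hxs j))
      calc _ = G x j j ^ (-(1 / 2) : ℂ) * G x j j ^ (-(1 / 2) : ℂ) * G x j j := by ring
        _ = 1 := h2

end Pool.Agent.DST
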