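import Pool.Agent.DST.ZDefs

/-!
# Project DST, module Z-Geo: the domain and the exponents (elementary)

`κ ≤ 1`, so `Re ξ + κ|Im ξ| ≤ 2‖ξ‖` and on the domain `‖ξ‖ > c₁(1+‖y‖)/2 ≥ 1`, `‖λ‖ = ‖y‖/‖ξ‖ < r`. The real part of
`A_i - A_j` grows at least with the rate `c` in the direction `d i j` (`exp_le`).
-/

open scoped BigOperators Topology
open Filter

namespace Pool.Agent.DST

namespace SD

variable {N : ℕ} (s : SD N) {c₁ : ℝ}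

private theorem zg_omega : s.ω ≠ 0 := by
  have h := s.ω_norm
  intro h0
  rw [h0, norm_zero] at h
  exact zero_ne_one h

private theorem zg_d (i j : Fin N) : (s.d i j).re = s.κ ∧ |(s.d i j).im| = 1 ∧ ‖s.d i j‖ ≤ 2 := by
  have hk := s.κ_pos
  have hk1 := s.κ_le
  have h : (s.d i j).re = s.κ ∧ |(s.d i j).im| = 1 := by
    rcases s.d_eq i j with h | h
    · rw [h]; simp
    · rw [h]; simp
  refine ⟨h.1, h.2, ?_⟩
  have h2 := Complex.norm_le_abs_re_add_abs_im (s.d i j)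
  rw [h.1, h.2, abs_of_pos hk] at h2
  linarith

theorem dom_open : IsOpen (s.dom c₁) := by
  unfold dom
  exact isOpen_lt (by fun_prop) (by fun_prop)

theorem norm_lt (hc : s.Adm c₁) {y ξ : ℂ} (h : (y, ξ) ∈ s.dom c₁) :
    c₁ * (1 + ‖y‖) < 2 * ‖ξ‖ ∧ 1 ≤ ‖ξ‖ ∧ ξ ≠ 0 ∧ c₁ ≤ 2 * ‖ξ‖ := by
  have h0 : c₁ * (1 + ‖y‖) < ξ.re + s.κ * |ξ.im| := h
  have h1 : ξ.re ≤ ‖ξ‖ := Complex.re_le_norm ξ
  have h2 : |ξ.im| ≤ ‖ξ‖ := Complex.abs_im_le_norm ξ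
  have hk := s.κ_pos
  have hk1 := s.κ_le
  have h3 : s.κ * |ξ.im| ≤ ‖ξ‖ := by nlinarith [abs_nonneg ξ.im]
  have hc2 : 2 ≤ c₁ := hc.1
  have h4 : c₁ * (1 + ‖y‖) < 2 * ‖ξ‖ := by linarith
  have h5 : c₁ ≤ c₁ * (1 + ‖y‖) := by nlinarith [norm_nonneg y]
  have h6 : 1 ≤ ‖ξ‖ := by linarith
  exact ⟨h4, h6, norm_pos_iff.mp (by linarith), by linarith⟩

theorem lam_mem (hc : s.Adm c₁) {y ξ : ℂ} (h : (y, ξ) ∈ s.dom c₁) :
    s.lam y ξ ∈ Metric.ball (0 : ℂ) s.r := by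
  obtain ⟨h1, h2, h3, -⟩ := s.norm_lt hc h
  have hr := s.r_pos
  have h4 : 2 ≤ s.r * c₁ := by
    have := hc.2
    rw [div_le_iff₀ hr] at this
    linarith
  rw [Metric.mem_ball, dist_zero_right]
  unfold lam
  rw [norm_div, norm_mul, s.ω_norm, mul_one, div_lt_iff₀ (by linarith)]
  have h5 : s.r * (c₁ * (1 + ‖y‖)) < s.r * (2 * ‖ξ‖) := mul_lt_mul_of_pos_left h1 hr
  have h6 : 2 * (1 + ‖y‖) ≤ s.r * c₁ * (1 + ‖y‖) :=
    mul_le_mul_of_nonneg_right h4 (by positivity)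
  nlinarith

theorem mem_slit (hc : s.Adm c₁) {y ξ : ℂ} (h : (y, ξ) ∈ s.dom c₁) : ξ ∈ Complex.slitPlane := by
  have h0 : c₁ * (1 + ‖y‖) < ξ.re + s.κ * |ξ.im| := h
  have hc2 : 2 ≤ c₁ := hc.1
  rw [Complex.mem_slitPlane_iff]
  by_cases him : ξ.im = 0
  · left
    rw [him, abs_zero, mul_zero, add_zero] at h0
    have : 0 ≤ c₁ * (1 + ‖y‖) := by positivity
    linarith
  · exact Or.inr him

theorem dom_add_d {y ξ : ℂ} (h : (y, ξ) ∈ s.dom c₁) {t : ℝ} (ht : 0 ≤ t) (i j : Fin N) :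
    (y, ξ + t * s.d i j) ∈ s.dom c₁ := by
  have h0 : c₁ * (1 + ‖y‖) < ξ.re + s.κ * |ξ.im| := h
  show c₁ * (1 + ‖y‖) < (ξ + t * s.d i j).re + s.κ * |(ξ + t * s.d i j).im|
  obtain ⟨hd1, hd2, -⟩ := s.zg_d i j
  have e1 : (ξ + t * s.d i j).re = ξ.re + t * s.κ := by
    rw [Complex.add_re, Complex.re_ofReal_mul, hd1]
  have e2 : (ξ + t * s.d i j).im = ξ.im + t * (s.d i j).im := by
    rw [Complex.add_im, Complex.im_ofReal_mul]
  rw [e1, e2]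
  have h1 : |ξ.im| - t ≤ |ξ.im + t * (s.d i j).im| := by
    have h2 : |ξ.im| ≤ |ξ.im + t * (s.d i j).im| + |t * (s.d i j).im| := by
      have h3 : ξ.im = (ξ.im + t * (s.d i j).im) - t * (s.d i j).im := by ring
      calc |ξ.im| = |(ξ.im + t * (s.d i j).im) - t * (s.d i j).im| := by rw [← h3]
        _ ≤ _ := abs_sub _ _
    rw [abs_mul t, hd2, abs_of_nonneg ht, mul_one] at h2
    linarith
  have h4 := mul_le_mul_of_nonneg_left h1 s.κ_pos.le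
  nlinarith

theorem dom_add_real {y ξ : ℂ} (h : (y, ξ) ∈ s.dom c₁) {t : ℝ} (ht : 0 ≤ t) :
    (y, ξ + t) ∈ s.dom c₁ := by
  have h0 : c₁ * (1 + ‖y‖) < ξ.re + s.κ * |ξ.im| := h
  show c₁ * (1 + ‖y‖) < (ξ + t).re + s.κ * |(ξ + t).im|
  rw [Complex.add_re, Complex.add_im, Complex.ofReal_re, Complex.ofReal_im, add_zero]
  linarith

theorem norm_add_d (hc : s.Adm c₁) {y ξ : ℂ} (h : (y, ξ) ∈ s.dom c₁) {t : ℝ} (ht : 0 ≤ t)
    (i j : Fin N) : ‖ξ‖ ≤ ‖ξ + t * s.d i j‖ * (1 + 2 * t) := by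
  obtain ⟨-, -, hd⟩ := s.zg_d i j
  have h1 := (s.norm_lt hc (s.dom_add_d h ht i j)).2.1
  have h2 : ‖ξ‖ ≤ ‖ξ + t * s.d i j‖ + ‖(t : ℂ) * s.d i j‖ := by
    have h3 : ξ = (ξ + t * s.d i j) - t * s.d i j := by ring
    calc ‖ξ‖ = ‖(ξ + t * s.d i j) - t * s.d i j‖ := by rw [← h3]
      _ ≤ _ := norm_sub_le _ _
  rw [norm_mul, Complex.norm_real, Real.norm_of_nonneg ht] at h2
  have h3 : t * ‖s.d i j‖ ≤ t * 2 := mul_le_mul_of_nonneg_left hd ht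
  have h4 : t * 2 ≤ t * 2 * ‖ξ + t * s.d i j‖ := by nlinarith
  nlinarith

theorem norm_add_real (hc : s.Adm c₁) {y ξ : ℂ} (h : (y, ξ) ∈ s.dom c₁) {t : ℝ} (ht : 0 ≤ t) :
    ‖ξ‖ + t ≤ 6 * ‖ξ + t‖ := by
  have h0 : c₁ * (1 + ‖y‖) < ξ.re + s.κ * |ξ.im| := h
  have hc2 : 2 ≤ c₁ := hc.1
  have hk := s.κ_pos
  have hk1 := s.κ_le
  have hp : 0 ≤ c₁ * (1 + ‖y‖) := by positivity
  have h1 : |(ξ + t).re| ≤ ‖ξ + t‖ := Complex.abs_re_le_norm _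
  have h2 : |(ξ + t).im| ≤ ‖ξ + t‖ := Complex.abs_im_le_norm _
  rw [Complex.add_re, Complex.ofReal_re] at h1
  rw [Complex.add_im, Complex.ofReal_im, add_zero] at h2
  have h3 : s.κ * |ξ.im| ≤ ‖ξ + t‖ := by nlinarith [abs_nonneg ξ.im]
  have h4 : ξ.re + t ≤ ‖ξ + t‖ := (le_abs_self _).trans h1
  have h5 : t ≤ 2 * ‖ξ + t‖ := by linarith
  have h6 : |ξ.re| ≤ |ξ.re + t| + t := by
    have h7 : ξ.re = (ξ.re + t) - t := by ring
    calc |ξ.re| = |(ξ.re + t) - t| := by rw [← h7]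
      _ ≤ |ξ.re + t| + |t| := abs_sub _ _
      _ = _ := by rw [abs_of_nonneg ht]
  have h8 := Complex.norm_le_abs_re_add_abs_im ξ
  linarith

theorem lam_hol {y ξ : ℂ} (h : ξ ≠ 0) : DifferentiableAt ℂ (fun ξ => s.lam y ξ) ξ := by
  unfold lam
  exact (differentiableAt_const _).div differentiableAt_id h

theorem lam_holy (y ξ : ℂ) : DifferentiableAt ℂ (fun y => s.lam y ξ) y := by
  unfold lam
  fun_prop

theorem Ax_deriv (hc : s.Adm c₁) {y ξ : ℂ} (h : (y, ξ) ∈ s.dom c₁) (j : Fin N) :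
    HasDerivAt (fun ξ => s.Ax j y ξ) (s.ω⁻¹ * s.U j (s.lam y ξ)) ξ := by
  have hω := s.zg_omega
  obtain ⟨-, -, hξ, -⟩ := s.norm_lt hc h
  have hl : HasDerivAt (fun ξ => s.lam y ξ) (-(y * s.ω) / ξ ^ 2) ξ := by
    unfold lam
    have h1 := (hasDerivAt_const ξ (y * s.ω)).div (hasDerivAt_id ξ) hξ
    have h2 : (0 * id ξ - y * s.ω * 1) / id ξ ^ 2 = -(y * s.ω) / ξ ^ 2 := by
      simp only [id]; ring
    rw [h2] at h1
    exact h1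
  have hV := (s.V_deriv _ (s.lam_mem hc h) j).comp ξ hl
  have h3 : HasDerivAt (fun ξ : ℂ => s.ω⁻¹ * s.u j * ξ) (s.ω⁻¹ * s.u j * 1) ξ :=
    (hasDerivAt_id ξ).const_mul _
  have h4 := h3.sub (hV.const_mul y)
  have h5 : s.ω⁻¹ * s.u j * 1 - y * (s.v j (s.lam y ξ) * (-(y * s.ω) / ξ ^ 2)) =
      s.ω⁻¹ * s.U j (s.lam y ξ) := by
    unfold U
    have h6 : s.ω⁻¹ * (s.lam y ξ) ^ 2 = y ^ 2 * s.ω / ξ ^ 2 := by
      unfold lam; field_simp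
    calc s.ω⁻¹ * s.u j * 1 - y * (s.v j (s.lam y ξ) * (-(y * s.ω) / ξ ^ 2)) =
          s.ω⁻¹ * s.u j + (y ^ 2 * s.ω / ξ ^ 2) * s.v j (s.lam y ξ) := by ring
      _ = s.ω⁻¹ * s.u j + (s.ω⁻¹ * (s.lam y ξ) ^ 2) * s.v j (s.lam y ξ) := by rw [h6]
      _ = _ := by ring
  rw [h5] at h4
  exact h4

theorem Ax_holy (hc : s.Adm c₁) {y ξ : ℂ} (h : (y, ξ) ∈ s.dom c₁) (j : Fin N) :
    DifferentiableAt ℂ (fun y => s.Ax j y ξ) y := by
  have h1 : DifferentiableAt ℂ (fun y => s.V j (s.lam y ξ)) y :=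
    (s.V_deriv _ (s.lam_mem hc h) j).differentiableAt.comp y (s.lam_holy y ξ)
  unfold Ax
  exact (differentiableAt_const _).sub (differentiableAt_id.mul h1)

theorem exp_le (hc : s.Adm c₁) {y ξ : ℂ} (h : (y, ξ) ∈ s.dom c₁) {t : ℝ} (ht : 0 ≤ t)
    {i j : Fin N} (hij : i ≠ j) :
    ‖Complex.exp ((s.Ax i y ξ - s.Ax j y ξ) -
      (s.Ax i y (ξ + t * s.d i j) - s.Ax j y (ξ + t * s.d i j)))‖ ≤ Real.exp (-(s.c * t)) := by
  have hder : ∀ τ : ℝ, 0 ≤ τ → HasDerivAt (fun τ : ℝ => (s.Ax i y (ξ + τ * s.d i j) -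
      s.Ax j y (ξ + τ * s.d i j)).re) ((s.ω⁻¹ * s.U i (s.lam y (ξ + τ * s.d i j)) -
        s.ω⁻¹ * s.U j (s.lam y (ξ + τ * s.d i j))) * s.d i j).re τ := by
    intro τ hτ
    have hm := s.dom_add_d h hτ i j
    have h1 := (s.Ax_deriv hc hm i).sub (s.Ax_deriv hc hm j)
    have h2 : HasDerivAt (fun τ : ℝ => ξ + τ * s.d i j) (s.d i j) τ := by
      have h3 := ((Complex.ofRealCLM.hasDerivAt (x := τ)).mul_const (s.d i j)).const_add ξ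
      simpa using h3
    have h3 := h1.comp τ h2
    exact Complex.reCLM.hasFDerivAt.comp_hasDerivAt τ h3
  have hmv := (convex_Ici (0 : ℝ)).mul_sub_le_image_sub_of_le_deriv
    (f := fun τ : ℝ => (s.Ax i y (ξ + τ * s.d i j) - s.Ax j y (ξ + τ * s.d i j)).re) (C := s.c)
    (fun τ hτ => (hder τ hτ).continuousAt.continuousWithinAt)
    (fun τ hτ => (hder τ (interior_subset hτ)).differentiableAt.differentiableWithinAt)
    (fun τ hτ => by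
      have hτ0 : 0 ≤ τ := interior_subset hτ
      rw [(hder τ hτ0).deriv]
      have h1 := s.d_re _ (s.lam_mem hc (s.dom_add_d h hτ0 i j)) i j hij
      refine h1.trans (le_of_eq ?_)
      congr 1
      unfold U
      ring)
    0 (Set.mem_Ici.2 (le_refl 0)) t (Set.mem_Ici.2 ht) ht
  rw [Complex.norm_exp]
  refine Real.exp_le_exp.2 ?_
  simp only [Complex.ofReal_zero, zero_mul, add_zero, sub_zero] at hmv
  rw [Complex.sub_re]
  linarith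

end SD

end Pool.Agent.DST
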