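import Mathlib

/-!
# Project DST, module Z-Hol: holomorphy of parameter integrals on a half line

PLAN. `hol_integral`: fix `y₀ ∈ U`, a closed ball of radius `2ρ` in `U`. For `t > 0` and `y` in the ball of
radius `ρ`: `‖deriv (fun y => f y t) y‖ ≤ b t / ρ` by Cauchy
(`Complex.norm_deriv_le_of_forall_mem_sphere_norm_le`). Apply
`hasDerivAt_integral_of_dominated_loc_of_deriv_le`; measurability of `t ↦ deriv (fun y => f y t) y₀`: it is the
limit of the difference quotients `n (f (y₀ + 1/n) t - f y₀ t)` (`aestronglyMeasurable_of_tendsto_ae`).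
-/

open scoped BigOperators Topology
open Filter MeasureTheory

namespace Pool.Agent.DST

theorem hol_integral {U : Set ℂ} (hU : IsOpen U) {f : ℂ → ℝ → ℂ} {b : ℝ → ℝ}
    (hb : IntegrableOn b (Set.Ioi 0))
    (hf : ∀ t : ℝ, 0 < t → ∀ y ∈ U, DifferentiableAt ℂ (fun y => f y t) y)
    (hm : ∀ y ∈ U, AEStronglyMeasurable (f y) (volume.restrict (Set.Ioi 0)))
    (hle : ∀ t : ℝ, 0 < t → ∀ y ∈ U, ‖f y t‖ ≤ b t) {y : ℂ} (hy : y ∈ U) :
    DifferentiableAt ℂ (fun y => ∫ t in Set.Ioi (0 : ℝ), f y t) y := by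
  obtain ⟨ε, hε, hεU⟩ := Metric.isOpen_iff.1 hU y hy
  obtain ⟨ρ, hρ0, hρ⟩ : ∃ ρ : ℝ, 0 < ρ ∧ 2 * ρ < ε := ⟨ε / 3, by positivity, by linarith⟩
  have hsub : ∀ z ∈ Metric.ball y ρ, Metric.closedBall z ρ ⊆ U := by
    intro z hz w hw
    apply hεU
    rw [Metric.mem_ball] at hz ⊢
    rw [Metric.mem_closedBall] at hw
    calc dist w y ≤ dist w z + dist z y := dist_triangle _ _ _
      _ < ε := by linarith
  have hU' : ∀ z ∈ Metric.ball y ρ, z ∈ U :=
    fun z hz => hsub z hz (Metric.mem_closedBall_self hρ0.le)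
  have hder : ∀ t : ℝ, 0 < t → ∀ z ∈ Metric.ball y ρ, ‖deriv (fun z => f z t) z‖ ≤ b t / ρ := by
    intro t ht z hz
    apply Complex.norm_deriv_le_of_forall_mem_sphere_norm_le hρ0
    · apply DifferentiableOn.diffContOnCl
      rw [closure_ball _ hρ0.ne']
      intro w hw
      exact (hf t ht w (hsub z hz hw)).differentiableWithinAt
    · intro w hw
      exact hle t ht w (hsub z hz (Metric.sphere_subset_closedBall hw))
  have hball : Metric.ball y ρ ∈ 𝓝 y := Metric.ball_mem_nhds y hρ0
  have hq : ∀ n : ℕ, y + ((ρ / (n + 2) : ℝ) : ℂ) ∈ Metric.ball y ρ := by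
    intro n
    have h2 : (0 : ℝ) < (n : ℝ) + 2 := by positivity
    rw [Metric.mem_ball, dist_eq_norm, add_sub_cancel_left, Complex.norm_real, Real.norm_eq_abs,
      abs_of_pos (by positivity), div_lt_iff₀ h2]
    nlinarith [(Nat.cast_nonneg n : (0 : ℝ) ≤ n)]
  have hqt : Tendsto (fun n : ℕ => y + ((ρ / (n + 2) : ℝ) : ℂ)) atTop (𝓝[≠] y) := by
    rw [tendsto_nhdsWithin_iff]
    constructor
    · have h1 : Tendsto (fun n : ℕ => ρ / ((n : ℝ) + 2)) atTop (𝓝 0) := by
        apply Tendsto.div_atTop tendsto_const_nhds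
        exact tendsto_atTop_add_const_right _ _ tendsto_natCast_atTop_atTop
      have h2 : Tendsto (fun n : ℕ => ((ρ / (n + 2) : ℝ) : ℂ)) atTop (𝓝 ((0 : ℝ) : ℂ)) :=
        (Complex.continuous_ofReal.tendsto _).comp h1
      have h3 := h2.const_add y
      simpa using h3
    · refine Eventually.of_forall fun n => ?_
      have h2 : (0 : ℝ) < (n : ℝ) + 2 := by positivity
      simp only [Set.mem_compl_iff, Set.mem_singleton_iff, add_eq_left, Complex.ofReal_eq_zero]
      positivity
  have hmeas : AEStronglyMeasurable (fun t => deriv (fun z => f z t) y)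
      (volume.restrict (Set.Ioi 0)) := by
    apply aestronglyMeasurable_of_tendsto_ae atTop
      (f := fun (n : ℕ) t => slope (fun z => f z t) y (y + ((ρ / (n + 2) : ℝ) : ℂ)))
    · intro n
      have h1 := ((hm _ (hU' _ (hq n))).sub (hm y hy)).const_smul
        ((y + ((ρ / (n + 2) : ℝ) : ℂ) - y)⁻¹)
      exact h1
    · filter_upwards [ae_restrict_mem measurableSet_Ioi] with t ht
      exact (hf t ht y hy).hasDerivAt.tendsto_slope.comp hqt
  have hint : Integrable (f y) (volume.restrict (Set.Ioi 0)) := by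
    refine Integrable.mono' hb (hm y hy) ?_
    filter_upwards [ae_restrict_mem measurableSet_Ioi] with t ht
    exact hle t ht y hy
  refine (hasDerivAt_integral_of_dominated_loc_of_deriv_le (F := f) (s := Metric.ball y ρ)
    (bound := fun t => b t / ρ) hball ?_ hint (F' := fun z t => deriv (fun z => f z t) z)
    hmeas ?_ (hb.div_const ρ) ?_).2.differentiableAt
  · filter_upwards [hball] with z hz
    exact hm z (hU' z hz)
  · filter_upwards [ae_restrict_mem measurableSet_Ioi] with t ht z hz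
    exact hder t ht z hz
  · filter_upwards [ae_restrict_mem measurableSet_Ioi] with t ht z hz
    exact (hf t ht z (hU' z hz)).hasDerivAt

end Pool.Agent.DST
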