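import Pool.Agent.DST.ZStep

/-!
# Project DST, module Z-Iter: the remainder `H` by a Neumann series

Fix the column `j`; `K` from `step_col`. Choose `c₁` with `Adm c₁` and `4 N b K ≤ c₁`. Sequence: `h⁰ = step_col`
applied to the right sides `ξ⁻¹ B i j` (`good_src`); `hⁿ⁺¹ = step_col` applied to `ξ⁻¹ ∑_k B i k hⁿ k`
(`good_mul`, `Good.of_two`); `hⁿ k` is `Good (K b 2⁻ⁿ) 1`. Then `h i = ∑' n, hⁿ i`; holomorphy and the
differential equation by differentiation term by term (`hasSum_deriv_of_summable_norm`).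
-/

open scoped BigOperators Topology
open Filter

namespace Pool.Agent.DST

private theorem exists_seq_of_step {α : Type*} (P : ℕ → α → Prop) (Q : α → α → Prop) (a0 : α)
    (h0 : P 0 a0) (hs : ∀ n a, P n a → ∃ b, P (n + 1) b ∧ Q a b) :
    ∃ f : ℕ → α, f 0 = a0 ∧ (∀ n, P n (f n)) ∧ ∀ n, Q (f n) (f (n + 1)) := by
  classical
  have hs' : ∀ n a, ∃ b, P n a → P (n + 1) b ∧ Q a b := by
    intro n a
    by_cases h : P n a
    · obtain ⟨b, hb⟩ := hs n a h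
      exact ⟨b, fun _ => hb⟩
    · exact ⟨a, fun h' => absurd h' h⟩
  choose g hg using hs'
  let f : ℕ → α := fun n => Nat.rec a0 (fun n a => g n a) n
  have hf : ∀ n, P n (f n) := by
    intro n
    induction n with
    | zero => exact h0
    | succ n ih => exact (hg n (f n) ih).1
  exact ⟨f, rfl, hf, fun n => (hg n (f n) (hf n)).2⟩

private theorem good_mono {N : ℕ} (s : SD N) {c₁ M M' : ℝ} {p : ℕ} {h : ℂ → ℂ → ℂ}
    (hh : s.Good c₁ M p h) (hM : M ≤ M') : s.Good c₁ M' p h := by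
  refine ⟨hh.hol, hh.holy, fun y ξ hy => le_trans (hh.le y ξ hy) ?_⟩
  exact div_le_div_of_nonneg_right hM (by positivity)

private theorem col {N : ℕ} (s : SD N) {K c₁ : ℝ} (hK : 0 ≤ K) (hc : s.Adm c₁)
    (hcK : 4 * N * s.b * K ≤ c₁)
    (hstep : ∀ M, 0 ≤ M → ∀ j, ∀ R : Fin N → ℂ → ℂ → ℂ, (∀ i, i ≠ j → s.Good c₁ M 1 (R i)) →
      ∃ h : Fin N → ℂ → ℂ → ℂ, (∀ i, s.Good c₁ (K * M) 1 (h i)) ∧
        ∀ y ξ, (y, ξ) ∈ s.dom c₁ → (∀ i, i ≠ j → HasDerivAt (fun ξ => h i y ξ)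
          (s.ω⁻¹ * (s.U i (s.lam y ξ) - s.U j (s.lam y ξ)) * h i y ξ - R i y ξ) ξ) ∧
          HasDerivAt (fun ξ => h j y ξ) (-(ξ⁻¹ * ∑ k, s.B (s.lam y ξ) j k * h k y ξ)) ξ)
    (j : Fin N) :
    ∃ h : Fin N → ℂ → ℂ → ℂ, (∀ i, s.Good c₁ (2 * K * s.b) 1 (h i)) ∧
      ∀ i y ξ, (y, ξ) ∈ s.dom c₁ → HasDerivAt (fun ξ => h i y ξ)
        (s.ω⁻¹ * (s.U i (s.lam y ξ) - s.U j (s.lam y ξ)) * h i y ξ -
          ξ⁻¹ * (s.B (s.lam y ξ) i j + ∑ k, s.B (s.lam y ξ) i k * h k y ξ)) ξ := by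
  have hc0 : 0 < c₁ := by linarith [hc.1]
  have hb : 0 ≤ s.b := le_trans (norm_nonneg _) (s.B_le 0 (Metric.mem_ball_self s.r_pos) j j)
  obtain ⟨h0, h0g, h0e⟩ := hstep s.b hb j (fun i y ξ => ξ⁻¹ * s.B (s.lam y ξ) i j)
    (fun i _ => s.good_src hc i j)
  obtain ⟨f, hf0, hfg, hfe⟩ := exists_seq_of_step
    (fun n (h : Fin N → ℂ → ℂ → ℂ) => ∀ k, s.Good c₁ (K * (s.b * (1 / 2) ^ n)) 1 (h k))
    (fun h h' => ∀ y ξ, (y, ξ) ∈ s.dom c₁ → (∀ i, i ≠ j → HasDerivAt (fun ξ => h' i y ξ)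
          (s.ω⁻¹ * (s.U i (s.lam y ξ) - s.U j (s.lam y ξ)) * h' i y ξ -
            ξ⁻¹ * ∑ k, s.B (s.lam y ξ) i k * h k y ξ) ξ) ∧
          HasDerivAt (fun ξ => h' j y ξ) (-(ξ⁻¹ * ∑ k, s.B (s.lam y ξ) j k * h' k y ξ)) ξ)
    h0 (by simpa using h0g)
    (by
      intro n h hh
      have hM0 : 0 ≤ s.b * (1 / 2 : ℝ) ^ n := by positivity
      refine hstep (s.b * (1 / 2) ^ (n + 1)) (by positivity) j
        (fun i y ξ => ξ⁻¹ * ∑ k, s.B (s.lam y ξ) i k * h k y ξ) ?_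
      intro i _
      refine good_mono s (SD.Good.of_two s hc (by positivity)
        (s.good_mul hc (M := K * (s.b * (1 / 2) ^ n)) (by positivity) hh i)) ?_
      rw [div_le_iff₀ hc0]
      have h1 : 2 * (N * s.b * (K * (s.b * (1 / 2) ^ n))) =
          (4 * N * s.b * K) * ((s.b * (1 / 2) ^ n) / 2) := by ring
      have h2 : s.b * (1 / 2) ^ (n + 1) * c₁ = c₁ * ((s.b * (1 / 2) ^ n) / 2) := by ring
      rw [h1, h2]
      exact mul_le_mul_of_nonneg_right hcK (by positivity))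
  have hopen1 : ∀ y, IsOpen {ξ | (y, ξ) ∈ s.dom c₁} := fun y =>
    s.dom_open.preimage (by fun_prop : Continuous fun ξ : ℂ => (y, ξ))
  have hopen2 : ∀ ξ, IsOpen {y | (y, ξ) ∈ s.dom c₁} := fun ξ =>
    s.dom_open.preimage (by fun_prop : Continuous fun y : ℂ => (y, ξ))
  have hsum : Summable fun n : ℕ => K * (s.b * (1 / 2 : ℝ) ^ n) :=
    (summable_geometric_two.mul_left _).mul_left _
  have hbd : ∀ n i y ξ, (y, ξ) ∈ s.dom c₁ → ‖f n i y ξ‖ ≤ K * (s.b * (1 / 2 : ℝ) ^ n) := by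
    intro n i y ξ hy
    have h1 := (hfg n i).le y ξ hy
    rw [pow_one] at h1
    refine le_trans h1 (div_le_self (by positivity) (s.norm_lt hc hy).2.1)
  let h : Fin N → ℂ → ℂ → ℂ := fun i y ξ => ∑' n, f n i y ξ
  have hdif : ∀ i y, DifferentiableOn ℂ (fun ξ => h i y ξ) {ξ | (y, ξ) ∈ s.dom c₁} := fun i y =>
    Complex.differentiableOn_tsum_of_summable_norm hsum
      (fun n ξ hξ => ((hfg n i).hol y ξ hξ).differentiableWithinAt) (hopen1 y)
      (fun n ξ hξ => hbd n i y ξ hξ)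
  have hdify : ∀ i ξ, DifferentiableOn ℂ (fun y => h i y ξ) {y | (y, ξ) ∈ s.dom c₁} := fun i ξ =>
    Complex.differentiableOn_tsum_of_summable_norm hsum
      (fun n y hy => ((hfg n i).holy y ξ hy).differentiableWithinAt) (hopen2 ξ)
      (fun n y hy => hbd n i y ξ hy)
  refine ⟨h, ?_, ?_⟩
  · intro i
    refine ⟨fun y ξ hy => (hdif i y).differentiableAt ((hopen1 y).mem_nhds hy),
      fun y ξ hy => (hdify i ξ).differentiableAt ((hopen2 ξ).mem_nhds hy), ?_⟩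
    intro y ξ hy
    have h1 : HasSum (fun n : ℕ => K * (s.b * (1 / 2 : ℝ) ^ n) / ‖ξ‖ ^ 1) (2 * K * s.b / ‖ξ‖ ^ 1) := by
      have h2 := ((hasSum_geometric_two.mul_left s.b).mul_left K).div_const (‖ξ‖ ^ 1)
      have h3 : K * (s.b * 2) / ‖ξ‖ ^ 1 = 2 * K * s.b / ‖ξ‖ ^ 1 := by ring
      rwa [h3] at h2
    exact tsum_of_norm_bounded h1 fun n => (hfg n i).le y ξ hy
  · intro i y ξ hy
    have hS : ∀ k, HasSum (fun n => f n k y ξ) (h k y ξ) := fun k =>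
      (Summable.of_norm_bounded hsum fun n => hbd n k y ξ hy).hasSum
    have hdS := Complex.hasSum_deriv_of_summable_norm hsum
      (fun n ξ hξ => ((hfg n i).hol y ξ hξ).differentiableWithinAt) (hopen1 y)
      (fun n ξ hξ => hbd n i y ξ hξ) hy
    have hd := ((hdif i y).differentiableAt ((hopen1 y).mem_nhds hy)).hasDerivAt
    have hkey : deriv (fun ξ => h i y ξ) ξ =
        s.ω⁻¹ * (s.U i (s.lam y ξ) - s.U j (s.lam y ξ)) * h i y ξ -
          ξ⁻¹ * (s.B (s.lam y ξ) i j + ∑ k, s.B (s.lam y ξ) i k * h k y ξ) := by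
      refine HasSum.unique hdS ?_
      by_cases hij : i = j
      · subst hij
        have h1 : ∀ n, deriv (fun ξ => f n i y ξ) ξ =
            -(ξ⁻¹ * ∑ k, s.B (s.lam y ξ) i k * f n k y ξ) := by
          intro n
          rcases n with _ | n
          · rw [hf0]
            exact (h0e y ξ hy).2.deriv
          · exact (hfe n y ξ hy).2.deriv
        have h2 : HasSum (fun n => -(ξ⁻¹ * ∑ k, s.B (s.lam y ξ) i k * f n k y ξ))
            (-(ξ⁻¹ * ∑ k, s.B (s.lam y ξ) i k * h k y ξ)) :=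
          ((hasSum_sum fun k _ => (hS k).mul_left _).mul_left _).neg
        have h3 : s.ω⁻¹ * (s.U i (s.lam y ξ) - s.U i (s.lam y ξ)) * h i y ξ -
            ξ⁻¹ * (s.B (s.lam y ξ) i i + ∑ k, s.B (s.lam y ξ) i k * h k y ξ) =
            -(ξ⁻¹ * ∑ k, s.B (s.lam y ξ) i k * h k y ξ) := by
          rw [s.B_diag _ (s.lam_mem hc hy) i]
          ring
        rw [h3, show (fun n => deriv (fun ξ => f n i y ξ) ξ) = _ from funext h1]
        exact h2
      · have h1 : HasSum (fun n => ξ⁻¹ * ∑ k, s.B (s.lam y ξ) i k * f n k y ξ)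
            (ξ⁻¹ * ∑ k, s.B (s.lam y ξ) i k * h k y ξ) :=
          (hasSum_sum fun k _ => (hS k).mul_left _).mul_left _
        let R : ℕ → ℂ := fun n => Nat.casesOn n (ξ⁻¹ * s.B (s.lam y ξ) i j)
          (fun n => ξ⁻¹ * ∑ k, s.B (s.lam y ξ) i k * f n k y ξ)
        have h2 : HasSum R (R 0 + ξ⁻¹ * ∑ k, s.B (s.lam y ξ) i k * h k y ξ) := HasSum.zero_add h1
        have h3 := ((hS i).mul_left (s.ω⁻¹ * (s.U i (s.lam y ξ) - s.U j (s.lam y ξ)))).sub h2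
        have h4 : s.ω⁻¹ * (s.U i (s.lam y ξ) - s.U j (s.lam y ξ)) * h i y ξ -
            ξ⁻¹ * (s.B (s.lam y ξ) i j + ∑ k, s.B (s.lam y ξ) i k * h k y ξ) =
            s.ω⁻¹ * (s.U i (s.lam y ξ) - s.U j (s.lam y ξ)) * h i y ξ -
            (R 0 + ξ⁻¹ * ∑ k, s.B (s.lam y ξ) i k * h k y ξ) := by
          show _ = _ - (ξ⁻¹ * s.B (s.lam y ξ) i j + _)
          ring
        have h5 : ∀ n, deriv (fun ξ => f n i y ξ) ξ =
            s.ω⁻¹ * (s.U i (s.lam y ξ) - s.U j (s.lam y ξ)) * f n i y ξ - R n := by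
          intro n
          rcases n with _ | n
          · rw [hf0]
            exact ((h0e y ξ hy).1 i hij).deriv
          · exact ((hfe n y ξ hy).1 i hij).deriv
        rw [h4, show (fun n => deriv (fun ξ => f n i y ξ) ξ) = _ from funext h5]
        exact h3
    rw [hkey] at hd
    exact hd

theorem SD.exists_isH {N : ℕ} (s : SD N) : ∃ c₁ M : ℝ, ∃ h : Fin N → Fin N → ℂ → ℂ → ℂ,
    s.IsH c₁ M h := by
  obtain ⟨K, hK, hstep⟩ := s.step_col
  let c₁ : ℝ := max (max 2 (2 / s.r)) (4 * N * s.b * K)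
  have hc : s.Adm c₁ := ⟨le_trans (le_max_left _ _) (le_max_left _ _),
    le_trans (le_max_right _ _) (le_max_left _ _)⟩
  have hcol := fun j => col s hK hc (le_max_right _ _) (hstep c₁ hc) j
  choose h hg he using hcol
  exact ⟨c₁, 2 * K * s.b, fun i j => h j i, hc, fun i j => hg j i, fun i j y ξ hy => he j i y ξ hy⟩

end Pool.Agent.DST
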