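import Pool.Agent.DST.ZDefs

/-!
# Project DST, module Z-J: the fundamental solution in the variable `ξ = e^{iφ} e^{-w}`
-/

open scoped BigOperators Topology
open Filter

namespace Pool.Agent.DST

variable {N : ℕ}

private theorem zj_exp (φ : ℝ) {ξ : ℂ} (hξ : ξ ≠ 0) :
    Complex.exp (φ * Complex.I - Complex.log ξ) = Complex.exp (φ * Complex.I) / ξ := by
  rw [Complex.exp_sub, Complex.exp_log hξ]

private theorem zj_mul (φ : ℝ) (y : ℂ) {ξ : ℂ} (hξ : ξ ≠ 0) :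
    y * Complex.exp (φ * Complex.I - Complex.log ξ) = y * Complex.exp (φ * Complex.I) / ξ := by
  rw [zj_exp φ hξ, mul_div_assoc]

theorem QSys.Jt_det (Q : QSys N) {φ : ℝ} {y ξ : ℂ} (hξ : ξ ≠ 0)
    (h : y * Complex.exp (φ * Complex.I) / ξ ∈ Q.Λ) : (Q.Jt φ y ξ).det ≠ 0 := by
  intro h0
  have h1 := Q.J_pair y (φ * Complex.I - Complex.log ξ) (by rw [zj_mul φ y hξ]; exact h)
  have h2 := congrArg Matrix.det h1
  rw [Matrix.det_mul] at h2
  have h3 : (Q.J y (φ * Complex.I - Complex.log ξ)).det = 0 := h0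
  rw [h3, mul_zero] at h2
  have h4 : (Q.χ.map (evq y)).det = evq y Q.χ.det := ((evq y).map_det Q.χ).symm
  have h5 : IsUnit (evq y Q.χ.det) := Q.χ_det.map (evq y)
  rw [h4] at h2
  exact h5.ne_zero h2.symm

theorem QSys.Jt_deriv (Q : QSys N) {φ : ℝ} {y ξ : ℂ} (hξ : ξ ∈ Complex.slitPlane)
    (h : y * Complex.exp (φ * Complex.I) / ξ ∈ Q.Λ) (i j : Fin N) :
    HasDerivAt (fun ξ => Q.Jt φ y ξ i j)
      ((((Complex.exp (φ * Complex.I))⁻¹ • Q.C (y * Complex.exp (φ * Complex.I) / ξ) -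
        ξ⁻¹ • Matrix.diagonal Q.θ) * Q.Jt φ y ξ) i j) ξ := by
  have hξ0 : ξ ≠ 0 := Complex.slitPlane_ne_zero hξ
  have h1 := Q.J_ode y (φ * Complex.I - Complex.log ξ) (by rw [zj_mul φ y hξ0]; exact h) i j
  have h2 : HasDerivAt (fun ξ : ℂ => φ * Complex.I - Complex.log ξ) (-ξ⁻¹) ξ :=
    (Complex.hasDerivAt_log hξ).const_sub _
  have h3 := h1.comp ξ h2
  refine h3.congr_deriv ?_
  have h4 : Complex.exp (-(φ * Complex.I - Complex.log ξ)) = ξ / Complex.exp (φ * Complex.I) := by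
    rw [Complex.exp_neg, zj_exp φ hξ0, inv_div]
  rw [zj_mul φ y hξ0, h4]
  have h5 : (Complex.exp (φ * Complex.I))⁻¹ • Q.C (y * Complex.exp (φ * Complex.I) / ξ) -
      ξ⁻¹ • Matrix.diagonal Q.θ = (-ξ⁻¹) • (Matrix.diagonal Q.θ -
        (ξ / Complex.exp (φ * Complex.I)) • Q.C (y * Complex.exp (φ * Complex.I) / ξ)) := by
    rw [smul_sub, smul_smul, neg_smul, neg_mul, neg_smul]
    have h6 : ξ⁻¹ * (ξ / Complex.exp (φ * Complex.I)) = (Complex.exp (φ * Complex.I))⁻¹ := by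
      rw [← mul_div_assoc, inv_mul_cancel₀ hξ0, one_div]
    rw [h6]
    abel
  rw [h5, smul_mul_assoc, Matrix.smul_apply, smul_eq_mul, mul_comm]
  rfl

theorem QSys.Jt_shift (Q : QSys N) {φ : ℝ} {y ξ : ℂ} (hξ : ξ ≠ 0)
    (h : y * Complex.exp (φ * Complex.I) / ξ ∈ Q.Λ)
    (h' : (y - 1) * Complex.exp (φ * Complex.I) / ξ ∈ Q.Λ) :
    Q.Jt φ y ξ = Q.S (y * Complex.exp (φ * Complex.I) / ξ) (Complex.exp (φ * Complex.I) / ξ) *
      Q.Jt φ (y - 1) ξ := by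
  have h1 := Q.J_shift y (φ * Complex.I - Complex.log ξ) (by rw [zj_mul φ y hξ]; exact h)
    (by rw [zj_mul φ (y - 1) hξ]; exact h')
  rw [zj_mul φ y hξ, zj_exp φ hξ] at h1
  exact h1

theorem QSys.Jt_holy (Q : QSys N) {φ : ℝ} {y ξ : ℂ} (hξ : ξ ≠ 0)
    (h : y * Complex.exp (φ * Complex.I) / ξ ∈ Q.Λ) (i j : Fin N) :
    DifferentiableAt ℂ (fun y => Q.Jt φ y ξ i j) y := by
  have h1 := Q.J_hol y (φ * Complex.I - Complex.log ξ) (by rw [zj_mul φ y hξ]; exact h) i j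
  have h2 : DifferentiableAt ℂ (fun y : ℂ => (y, φ * Complex.I - Complex.log ξ)) y :=
    differentiableAt_id.prodMk (differentiableAt_const _)
  exact DifferentiableAt.comp (g := fun p : ℂ × ℂ => Q.J p.1 p.2 i j) y h1 h2

theorem QSys.f_eq_Jt (Q : QSys N) {φ t : ℝ} {y : ℂ} (hy : y ≠ 0) :
    Q.f (t + φ * Complex.I) y = Q.Jt φ y (Real.exp (-t) * y) := by
  unfold QSys.f QSys.Jt
  rw [Complex.log_ofReal_mul (Real.exp_pos _) hy, Real.log_exp]
  have h : (t + φ * Complex.I - Complex.log y : ℂ) =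
      φ * Complex.I - (((-t : ℝ) : ℂ) + Complex.log y) := by
    push_cast
    ring
  rw [h]

theorem QSys.J_zero_eq (Q : QSys N) {φ φ' r : ℝ} (h : |φ - φ'| < Real.pi) :
    Q.J 0 (r + φ' * Complex.I) = Q.Jt φ 0 (Complex.exp (-r + (φ - φ') * Complex.I)) := by
  unfold QSys.Jt
  have him : (-r + (φ - φ') * Complex.I : ℂ).im = φ - φ' := by simp
  obtain ⟨h1, h2⟩ := abs_lt.1 h
  rw [Complex.log_exp (by rw [him]; linarith) (by rw [him]; linarith)]
  have h3 : (r + φ' * Complex.I : ℂ) = φ * Complex.I - (-r + (φ - φ') * Complex.I) := by ring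
  rw [h3]

end Pool.Agent.DST
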