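import Pool.Agent.DST.ZGeo
import Pool.Agent.DST.ZRay

/-!
# Project DST, module Z-Off: the off-diagonal operator

PLAN. `h y ξ = ∫_{t>0} exp (A y ξ - A y (ξ+td)) R y (ξ+td) d dt`, `A y ξ = Ax i y ξ - Ax j y ξ`, `d = d i j`.
* Equation and holomorphy in `ξ`: `ray_integral` for fixed `y` on `D = {ξ | (y, ξ) ∈ dom}` (open;
  `dom_add_d`; `Ax_deriv`; `hR.hol`); dominated by `b t = M exp (-ct)` since `‖ξ+td‖ ≥ 1` (`exp_le`,
  `norm_lt`): integrable (`exp_neg_integrableOn_Ioi`), any small ball in `D` works.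
* Holomorphy in `y`: `hol_integral` on a small ball `U` around `y` with `U × {ξ} ⊆ dom` (`dom_open`); for
  `y' ∈ U` also `(y', ξ + t d) ∈ dom`; integrand holomorphic in `y'` (`Ax_holy`, `hR.holy`), continuous in `t`
  (`ξ ↦ Ax`, `R y'` are differentiable along the ray), bounded by `2 M exp (-ct)`.
* Bound: `‖R y (ξ+td)‖ ≤ M/‖ξ+td‖ ≤ M (1+2t)/‖ξ‖` (`norm_add_d`), so
  `‖h y ξ‖ ≤ 2 M/‖ξ‖ ∫_{t>0} exp (-ct)(1+2t) dt`; `K = 2 ∫ exp(-ct)(1+2t)`
  (`norm_integral_le_of_norm_le`; integrability: `integrableOn_rpow_mul_exp_neg_mul_rpow`-type or bound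
  `(1+2t) exp (-ct) ≤ K' exp (-ct/2)`).
-/

open scoped BigOperators Topology
open Filter MeasureTheory

namespace Pool.Agent.DST

private theorem d_ne {N : ℕ} (s : SD N) (i j : Fin N) : s.d i j ≠ 0 := by
  intro h
  rcases s.d_eq i j with h1 | h1
  · have h2 := congrArg Complex.im (h1.symm.trans h)
    simp at h2
  · have h2 := congrArg Complex.im (h1.symm.trans h)
    simp at h2

private theorem d_le {N : ℕ} (s : SD N) (i j : Fin N) : ‖s.d i j‖ ≤ 2 := by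
  have hκ : ‖(s.κ : ℂ)‖ ≤ 1 := by
    rw [Complex.norm_real, Real.norm_eq_abs, abs_of_pos s.κ_pos]
    exact s.κ_le
  rcases s.d_eq i j with h1 | h1
  · rw [h1]
    refine (norm_add_le _ _).trans ?_
    rw [Complex.norm_I]
    linarith
  · rw [h1]
    refine (norm_sub_le _ _).trans ?_
    rw [Complex.norm_I]
    linarith

private theorem lin_exp {c t : ℝ} (hc : 0 < c) (ht : 0 < t) :
    Real.exp (-(c * t)) * (1 + 2 * t) ≤ (1 + 4 / c) * Real.exp (-(c / 2) * t) := by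
  have h1 : 1 + c * t / 2 ≤ Real.exp (c * t / 2) := by
    have := Real.add_one_le_exp (c * t / 2)
    linarith
  have h2 : 1 + 2 * t ≤ (1 + 4 / c) * Real.exp (c * t / 2) := by
    have h3 : 2 * t ≤ 4 / c * (1 + c * t / 2) := by
      have h4 : 4 / c * (1 + c * t / 2) = 4 / c + 2 * t := by
        field_simp
        ring
      rw [h4]
      have : 0 < 4 / c := by positivity
      linarith
    have h5 : 4 / c * (1 + c * t / 2) ≤ 4 / c * Real.exp (c * t / 2) :=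
      mul_le_mul_of_nonneg_left h1 (by positivity)
    have h6 : 0 < c * t / 2 := by positivity
    rw [add_mul, one_mul]
    linarith
  have h7 : Real.exp (-(c / 2) * t) = Real.exp (-(c * t)) * Real.exp (c * t / 2) := by
    rw [← Real.exp_add]
    congr 1
    ring
  rw [h7]
  calc Real.exp (-(c * t)) * (1 + 2 * t)
      ≤ Real.exp (-(c * t)) * ((1 + 4 / c) * Real.exp (c * t / 2)) :=
        mul_le_mul_of_nonneg_left h2 (Real.exp_pos _).le
    _ = (1 + 4 / c) * (Real.exp (-(c * t)) * Real.exp (c * t / 2)) := by ring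

theorem SD.solve_off {N : ℕ} (s : SD N) : ∃ K : ℝ, 0 ≤ K ∧ ∀ c₁, s.Adm c₁ → ∀ M, 0 ≤ M →
    ∀ i j, i ≠ j → ∀ R, s.Good c₁ M 1 R → ∃ h, s.Good c₁ (K * M) 1 h ∧
      ∀ y ξ, (y, ξ) ∈ s.dom c₁ → HasDerivAt (fun ξ => h y ξ)
        (s.ω⁻¹ * (s.U i (s.lam y ξ) - s.U j (s.lam y ξ)) * h y ξ - R y ξ) ξ := by
  have hc0 : 0 < s.c := s.c_pos
  refine ⟨2 * ∫ t in Set.Ioi (0 : ℝ), (1 + 4 / s.c) * Real.exp (-(s.c / 2) * t), ?_, ?_⟩
  · refine mul_nonneg zero_le_two (setIntegral_nonneg measurableSet_Ioi fun t _ => ?_)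
    positivity
  intro c₁ hc M hM i j hij R hR
  obtain ⟨d, hd⟩ : ∃ d, d = s.d i j := ⟨_, rfl⟩
  obtain ⟨A, hA⟩ : ∃ A : ℂ → ℂ → ℂ, A = fun y ξ => s.Ax i y ξ - s.Ax j y ξ := ⟨_, rfl⟩
  obtain ⟨f, hf⟩ : ∃ f : ℂ → ℂ → ℝ → ℂ, f = fun y ξ (t : ℝ) =>
    Complex.exp (A y ξ - A y (ξ + (t : ℂ) * d)) * R y (ξ + (t : ℂ) * d) * d := ⟨_, rfl⟩
  -- basic facts
  have hmem : ∀ y ξ, (y, ξ) ∈ s.dom c₁ → ∀ t : ℝ, 0 ≤ t → (y, ξ + t * d) ∈ s.dom c₁ := by
    intro y ξ h t ht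
    rw [hd]
    exact s.dom_add_d h ht i j
  have hexp : ∀ y ξ, (y, ξ) ∈ s.dom c₁ → ∀ t : ℝ, 0 ≤ t →
      ‖Complex.exp (A y ξ - A y (ξ + t * d))‖ ≤ Real.exp (-(s.c * t)) := by
    intro y ξ h t ht
    rw [hA, hd]
    exact s.exp_le hc h ht hij
  have hRle : ∀ y ξ, (y, ξ) ∈ s.dom c₁ → ‖R y ξ‖ ≤ M := by
    intro y ξ h
    refine (hR.le y ξ h).trans ?_
    rw [pow_one]
    exact div_le_self hM (s.norm_lt hc h).2.1
  have hAξ : ∀ y ξ, (y, ξ) ∈ s.dom c₁ → HasDerivAt (fun ξ => A y ξ)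
      (s.ω⁻¹ * (s.U i (s.lam y ξ) - s.U j (s.lam y ξ))) ξ := by
    intro y ξ h
    have h1 := (s.Ax_deriv hc h i).sub (s.Ax_deriv hc h j)
    rw [mul_sub, hA]
    exact h1
  have hAy : ∀ y ξ, (y, ξ) ∈ s.dom c₁ → DifferentiableAt ℂ (fun y => A y ξ) y := by
    intro y ξ h
    rw [hA]
    exact (s.Ax_holy hc h i).sub (s.Ax_holy hc h j)
  have hint : IntegrableOn (fun t : ℝ => Real.exp (-(s.c * t))) (Set.Ioi 0) := by
    have h1 := exp_neg_integrableOn_Ioi 0 hc0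
    refine h1.congr_fun (fun t _ => ?_) measurableSet_Ioi
    show Real.exp (-s.c * t) = Real.exp (-(s.c * t))
    rw [neg_mul]
  have hint2 : IntegrableOn (fun t : ℝ => (1 + 4 / s.c) * Real.exp (-(s.c / 2) * t))
      (Set.Ioi 0) := (exp_neg_integrableOn_Ioi 0 (half_pos hc0)).const_mul _
  have hopenξ : ∀ y, IsOpen {ξ | (y, ξ) ∈ s.dom c₁} := fun y =>
    s.dom_open.preimage (Continuous.prodMk_right y)
  have hopeny : ∀ ξ, IsOpen {y | (y, ξ) ∈ s.dom c₁} := fun ξ =>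
    s.dom_open.preimage (Continuous.prodMk_left ξ)
  -- the differential equation
  have hode : ∀ y ξ, (y, ξ) ∈ s.dom c₁ → HasDerivAt
      (fun ξ => ∫ t in Set.Ioi (0 : ℝ), f y ξ t)
      (s.ω⁻¹ * (s.U i (s.lam y ξ) - s.U j (s.lam y ξ)) * (∫ t in Set.Ioi (0 : ℝ), f y ξ t) -
        R y ξ) ξ := by
    intro y ξ h
    rw [hf]
    refine ray_integral (hopenξ y) (A := A y) (R := R y)
      (a := fun ξ => s.ω⁻¹ * (s.U i (s.lam y ξ) - s.U j (s.lam y ξ)))
      (by rw [hd]; exact d_ne s i j) (fun ξ' h' t ht => hmem y ξ' h' t ht)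
      (fun ξ' h' => hAξ y ξ' h') (fun ξ' h' => hR.hol y ξ' h') (fun ξ' h' => ?_) h
    obtain ⟨ρ, hρ, hsub⟩ := Metric.isOpen_iff.1 (hopenξ y) ξ' h'
    refine ⟨ρ, hρ, fun t => Real.exp (-(s.c * t)) * M, hint.mul_const M, hsub,
      fun ξ'' h'' t ht => ?_⟩
    rw [norm_mul]
    exact mul_le_mul (hexp y ξ'' (hsub h'') t ht.le)
      (hRle _ _ (hmem y ξ'' (hsub h'') t ht.le)) (norm_nonneg _) (Real.exp_pos _).le
  refine ⟨fun y ξ => ∫ t in Set.Ioi (0 : ℝ), f y ξ t, ⟨?_, ?_, ?_⟩, hode⟩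
  · intro y ξ h
    exact (hode y ξ h).differentiableAt
  · intro y ξ h
    refine hol_integral (hopeny ξ) (f := fun y t => f y ξ t)
      (b := fun t => Real.exp (-(s.c * t)) * (M * 2)) (hint.mul_const _)
      (fun t ht y' h' => ?_) (fun y' h' => ?_) (fun t ht y' h' => ?_) h
    · rw [hf]
      have h2 := hmem y' ξ h' t ht.le
      exact ((((hAy y' ξ h').sub (hAy y' _ h2)).cexp).mul (hR.holy y' _ h2)).mul_const d
    · refine ContinuousOn.aestronglyMeasurable (fun t ht => ?_) measurableSet_Ioi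
      have ht' : (0 : ℝ) < t := ht
      have h2 := hmem y' ξ h' t ht'.le
      have hl : ContinuousAt (fun t : ℝ => ξ + (t : ℂ) * d) t :=
        continuousAt_const.add (Complex.continuous_ofReal.continuousAt.mul continuousAt_const)
      have h3 : ContinuousAt (fun t : ℝ => A y' (ξ + (t : ℂ) * d)) t :=
        ContinuousAt.comp (g := fun ξ => A y' ξ) (f := fun t : ℝ => ξ + (t : ℂ) * d)
          (hAξ y' _ h2).continuousAt hl
      have h4 : ContinuousAt (fun t : ℝ => R y' (ξ + (t : ℂ) * d)) t :=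
        ContinuousAt.comp (g := fun ξ => R y' ξ) (f := fun t : ℝ => ξ + (t : ℂ) * d)
          (hR.hol y' _ h2).continuousAt hl
      rw [hf]
      exact (((continuousAt_const.sub h3).cexp.mul h4).mul continuousAt_const).continuousWithinAt
    · have h2 := hmem y' ξ h' t ht.le
      rw [hf]
      show ‖Complex.exp (A y' ξ - A y' (ξ + t * d)) * R y' (ξ + t * d) * d‖ ≤
        Real.exp (-(s.c * t)) * (M * 2)
      rw [norm_mul, norm_mul, mul_assoc]
      refine mul_le_mul (hexp y' ξ h' t ht.le) ?_ (by positivity) (Real.exp_pos _).le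
      refine mul_le_mul (hRle _ _ h2) ?_ (norm_nonneg _) hM
      rw [hd]
      exact d_le s i j
  · intro y ξ h
    obtain ⟨-, hξ1, hξ0, -⟩ := s.norm_lt hc h
    have hξ : 0 < ‖ξ‖ := norm_pos_iff.2 hξ0
    have hbd : ∀ᵐ t ∂(volume.restrict (Set.Ioi (0 : ℝ))), ‖f y ξ t‖ ≤
        (2 * M / ‖ξ‖) * ((1 + 4 / s.c) * Real.exp (-(s.c / 2) * t)) := by
      refine ae_restrict_of_forall_mem measurableSet_Ioi fun t ht => ?_
      have ht' : (0 : ℝ) < t := ht
      have h2 := hmem y ξ h t ht'.le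
      have hn : 0 < ‖ξ + t * d‖ := by
        have := (s.norm_lt hc h2).2.1
        linarith
      have h3 : ‖R y (ξ + t * d)‖ ≤ M * (1 + 2 * t) / ‖ξ‖ := by
        refine (hR.le y _ h2).trans ?_
        rw [pow_one, div_le_div_iff₀ hn hξ]
        have h4 := s.norm_add_d hc h ht'.le i j
        rw [← hd] at h4
        calc M * ‖ξ‖ ≤ M * (‖ξ + t * d‖ * (1 + 2 * t)) := mul_le_mul_of_nonneg_left h4 hM
          _ = M * (1 + 2 * t) * ‖ξ + t * d‖ := by ring
      rw [hf]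
      show ‖Complex.exp (A y ξ - A y (ξ + t * d)) * R y (ξ + t * d) * d‖ ≤
        (2 * M / ‖ξ‖) * ((1 + 4 / s.c) * Real.exp (-(s.c / 2) * t))
      rw [norm_mul, norm_mul]
      calc ‖Complex.exp (A y ξ - A y (ξ + t * d))‖ * ‖R y (ξ + t * d)‖ * ‖d‖
          ≤ Real.exp (-(s.c * t)) * (M * (1 + 2 * t) / ‖ξ‖) * 2 := by
            refine mul_le_mul (mul_le_mul (hexp y ξ h t ht'.le) h3 (norm_nonneg _)
              (Real.exp_pos _).le) ?_ (norm_nonneg _) (by positivity)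
            rw [hd]
            exact d_le s i j
        _ = (2 * M / ‖ξ‖) * (Real.exp (-(s.c * t)) * (1 + 2 * t)) := by ring
        _ ≤ _ := mul_le_mul_of_nonneg_left (lin_exp hc0 ht') (by positivity)
    refine (norm_integral_le_of_norm_le (hint2.const_mul _) hbd).trans (le_of_eq ?_)
    rw [integral_const_mul, pow_one]
    ring

end Pool.Agent.DST
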