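import Pool.Agent.DST.ZOff
import Pool.Agent.DST.ZDia

/-!
# Project DST, module Z-Step: one step of the iteration for the column `j`

PLAN.
* `good_src`: `ξ⁻¹ B i j (λ)` is bounded by `b/‖ξ‖`, holomorphic in `ξ` and in `y` (`lam_hol`, `lam_holy`,
  `lam_mem`, `B_hol`). `0 ≤ b` from `B_le` at `0` (if `N > 0`, there is an index `i`).
* `good_mul`: `ξ⁻¹ ∑_k B i k (λ) h k` is bounded by `N b M/‖ξ‖²`.
* `Good.of_two`: `M/‖ξ‖² ≤ (2M/c₁)/‖ξ‖` (`c₁ ≤ 2‖ξ‖`).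
* `step_col`: for `i ≠ j` take `h i` from `solve_off` with the right side `R i`. Then the right side for the
  diagonal entry is `ξ⁻¹ ∑_{k ≠ j} B j k h k` (`good_mul` with `h j` replaced by `0`; bound
  `N b K_off M/‖ξ‖²`), and `solve_dia` gives `h j`. Since `B j j = 0` the sum over all `k` is the same.
-/

open scoped BigOperators Topology
open Filter

namespace Pool.Agent.DST

namespace SD

variable {N : ℕ} (s : SD N) {c₁ : ℝ}

private theorem b_nonneg (i : Fin N) : 0 ≤ s.b :=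
  (norm_nonneg _).trans (s.B_le 0 (Metric.mem_ball_self s.r_pos) i i)

private theorem Bhol (hc : s.Adm c₁) {y ξ : ℂ} (h : (y, ξ) ∈ s.dom c₁) (i j : Fin N) :
    DifferentiableAt ℂ (fun ξ => s.B (s.lam y ξ) i j) ξ :=
  DifferentiableAt.comp (g := fun x => s.B x i j) (f := fun ξ => s.lam y ξ) ξ
    (s.B_hol _ (s.lam_mem hc h) i j) (s.lam_hol (s.norm_lt hc h).2.2.1)

private theorem Bholy (hc : s.Adm c₁) {y ξ : ℂ} (h : (y, ξ) ∈ s.dom c₁) (i j : Fin N) :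
    DifferentiableAt ℂ (fun y => s.B (s.lam y ξ) i j) y :=
  DifferentiableAt.comp (g := fun x => s.B x i j) (f := fun y => s.lam y ξ) y
    (s.B_hol _ (s.lam_mem hc h) i j) (s.lam_holy y ξ)

theorem good_src (hc : s.Adm c₁) (i j : Fin N) :
    s.Good c₁ s.b 1 (fun y ξ => ξ⁻¹ * s.B (s.lam y ξ) i j) := by
  refine ⟨fun y ξ h => ?_, fun y ξ h => ?_, fun y ξ h => ?_⟩
  · exact (differentiableAt_inv (s.norm_lt hc h).2.2.1).mul (s.Bhol hc h i j)
  · exact (s.Bholy hc h i j).const_mul _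
  · rw [norm_mul, norm_inv, pow_one, div_eq_inv_mul]
    exact mul_le_mul_of_nonneg_left (s.B_le _ (s.lam_mem hc h) i j) (by positivity)

theorem good_mul (hc : s.Adm c₁) {M : ℝ} (hM : 0 ≤ M) {h : Fin N → ℂ → ℂ → ℂ}
    (hh : ∀ k, s.Good c₁ M 1 (h k)) (i : Fin N) :
    s.Good c₁ (N * s.b * M) 2 (fun y ξ => ξ⁻¹ * ∑ k, s.B (s.lam y ξ) i k * h k y ξ) := by
  refine ⟨fun y ξ hd => ?_, fun y ξ hd => ?_, fun y ξ hd => ?_⟩
  · exact (differentiableAt_inv (s.norm_lt hc hd).2.2.1).mul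
      (DifferentiableAt.fun_sum fun k _ => (s.Bhol hc hd i k).mul ((hh k).hol y ξ hd))
  · exact (DifferentiableAt.fun_sum fun k _ =>
      (s.Bholy hc hd i k).mul ((hh k).holy y ξ hd)).const_mul _
  · have hξ : 0 < ‖ξ‖ := norm_pos_iff.2 (s.norm_lt hc hd).2.2.1
    rw [norm_mul, norm_inv]
    have h1 : ‖∑ k, s.B (s.lam y ξ) i k * h k y ξ‖ ≤ N * (s.b * (M / ‖ξ‖)) := by
      refine (norm_sum_le _ _).trans ?_
      refine (Finset.sum_le_card_nsmul _ _ (s.b * (M / ‖ξ‖)) fun k _ => ?_).trans ?_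
      · rw [norm_mul]
        have h2 := (hh k).le y ξ hd
        rw [pow_one] at h2
        exact mul_le_mul (s.B_le _ (s.lam_mem hc hd) i k) h2 (norm_nonneg _) (s.b_nonneg i)
      · rw [Finset.card_univ, Fintype.card_fin, nsmul_eq_mul]
    refine (mul_le_mul_of_nonneg_left h1 (by positivity)).trans (le_of_eq ?_)
    field_simp

theorem Good.of_two (hc : s.Adm c₁) {M : ℝ} (hM : 0 ≤ M) {h : ℂ → ℂ → ℂ} (hh : s.Good c₁ M 2 h) :
    s.Good c₁ (2 * M / c₁) 1 h := by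
  refine ⟨hh.hol, hh.holy, fun y ξ hd => (hh.le y ξ hd).trans ?_⟩
  obtain ⟨-, -, h0, h1⟩ := s.norm_lt hc hd
  have hξ : 0 < ‖ξ‖ := norm_pos_iff.2 h0
  have hc0 : 0 < c₁ := lt_of_lt_of_le zero_lt_two hc.1
  rw [pow_one, div_div, div_le_div_iff₀ (by positivity) (by positivity)]
  have h2 : M * (c₁ * ‖ξ‖) ≤ M * (2 * ‖ξ‖ * ‖ξ‖) :=
    mul_le_mul_of_nonneg_left (mul_le_mul_of_nonneg_right h1 hξ.le) hM
  refine h2.trans (le_of_eq ?_)
  ring

private theorem good_mono {M M' : ℝ} {p : ℕ} {h : ℂ → ℂ → ℂ} (hh : s.Good c₁ M p h)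
    (hM : M ≤ M') : s.Good c₁ M' p h :=
  ⟨hh.hol, hh.holy, fun y ξ hd => (hh.le y ξ hd).trans
    (div_le_div_of_nonneg_right hM (by positivity))⟩

private theorem good_zero {M : ℝ} (hM : 0 ≤ M) (p : ℕ) : s.Good c₁ M p (fun _ _ => 0) :=
  ⟨fun _ _ _ => differentiableAt_const _, fun _ _ _ => differentiableAt_const _,
    fun y ξ _ => by
      rw [norm_zero]
      positivity⟩

theorem step_col : ∃ K : ℝ, 0 ≤ K ∧ ∀ c₁, s.Adm c₁ → ∀ M, 0 ≤ M → ∀ j,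
    ∀ R : Fin N → ℂ → ℂ → ℂ, (∀ i, i ≠ j → s.Good c₁ M 1 (R i)) →
      ∃ h : Fin N → ℂ → ℂ → ℂ, (∀ i, s.Good c₁ (K * M) 1 (h i)) ∧
        ∀ y ξ, (y, ξ) ∈ s.dom c₁ → (∀ i, i ≠ j → HasDerivAt (fun ξ => h i y ξ)
          (s.ω⁻¹ * (s.U i (s.lam y ξ) - s.U j (s.lam y ξ)) * h i y ξ - R i y ξ) ξ) ∧
          HasDerivAt (fun ξ => h j y ξ) (-(ξ⁻¹ * ∑ k, s.B (s.lam y ξ) j k * h k y ξ)) ξ := by
  obtain ⟨K₁, hK₁, off⟩ := s.solve_off
  obtain ⟨K₂, hK₂, dia⟩ := s.solve_dia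
  refine ⟨K₁ + K₂ * (N * |s.b| * K₁), by positivity, fun c₁ hc M hM j R hR => ?_⟩
  have hoff : ∀ i, ∃ h, i ≠ j → s.Good c₁ (K₁ * M) 1 h ∧
      ∀ y ξ, (y, ξ) ∈ s.dom c₁ → HasDerivAt (fun ξ => h y ξ)
        (s.ω⁻¹ * (s.U i (s.lam y ξ) - s.U j (s.lam y ξ)) * h y ξ - R i y ξ) ξ := by
    intro i
    by_cases hij : i = j
    · exact ⟨fun _ _ => 0, fun h => absurd hij h⟩
    · obtain ⟨h, h1, h2⟩ := off c₁ hc M hM i j hij (R i) (hR i hij)
      exact ⟨h, fun _ => ⟨h1, h2⟩⟩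
  choose h₁ hh₁ using hoff
  obtain ⟨h₀, hh₀⟩ : ∃ h₀ : Fin N → ℂ → ℂ → ℂ, h₀ = Function.update h₁ j (fun _ _ => 0) :=
    ⟨_, rfl⟩
  have hb : s.b = |s.b| := (abs_of_nonneg (s.b_nonneg j)).symm
  have hgood₀ : ∀ k, s.Good c₁ (K₁ * M) 1 (h₀ k) := by
    intro k
    by_cases hkj : k = j
    · rw [hh₀, hkj, Function.update_self]
      exact s.good_zero (mul_nonneg hK₁ hM) 1
    · rw [hh₀, Function.update_of_ne hkj]
      exact (hh₁ k hkj).1
  obtain ⟨hj, hhj, hhj'⟩ := dia c₁ hc (N * s.b * (K₁ * M))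
    (mul_nonneg (mul_nonneg (Nat.cast_nonneg _) (s.b_nonneg j)) (mul_nonneg hK₁ hM)) _
    (s.good_mul hc (mul_nonneg hK₁ hM) hgood₀ j)
  refine ⟨Function.update h₁ j hj, fun i => ?_, fun y ξ hd => ⟨fun i hij => ?_, ?_⟩⟩
  · by_cases hij : i = j
    · rw [hij, Function.update_self]
      refine s.good_mono hhj ?_
      rw [← hb]
      have : 0 ≤ K₁ * M := mul_nonneg hK₁ hM
      nlinarith
    · rw [Function.update_of_ne hij]
      refine s.good_mono (hh₁ i hij).1 ?_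
      have : 0 ≤ K₂ * (N * |s.b| * K₁) * M := by positivity
      rw [add_mul]
      linarith
  · rw [Function.update_of_ne hij]
    exact (hh₁ i hij).2 y ξ hd
  · rw [Function.update_self]
    have h1 : ∑ k, s.B (s.lam y ξ) j k * h₀ k y ξ =
        ∑ k, s.B (s.lam y ξ) j k * Function.update h₁ j hj k y ξ := by
      refine Finset.sum_congr rfl fun k _ => ?_
      by_cases hkj : k = j
      · rw [hkj, s.B_diag _ (s.lam_mem hc hd), zero_mul, zero_mul]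
      · rw [hh₀, Function.update_of_ne hkj, Function.update_of_ne hkj]
    rw [← h1]
    exact hhj' y ξ hd

end SD

end Pool.Agent.DST
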