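import Pool.Agent.DST.ZGeo
import Pool.Agent.DST.ZJ
import Pool.Agent.DST.ZConst

/-!
# Project DST, module Z-W: the Stokes families solve the equation; connection with `J`

PLAN.
* `Kf_deriv`: `Kf i j = (δ_ij + h i j) e^{A_j}`; `∂_ξ A_j = ω⁻¹ U_j(λ)` (`Ax_deriv`), `hH.ode`:
  derivative `[ω⁻¹(U_i - U_j) h_ij - ξ⁻¹(B_ij + ∑ B_ik h_kj) + ω⁻¹ U_j (δ_ij + h_ij)] e^{A_j}
  = [ω⁻¹ U_i (δ_ij + h_ij) - ξ⁻¹ ∑_k B_ik (δ_kj + h_kj)] e^{A_j}`.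
* `W_deriv`: `W = P(λ) Kf`, `∂_ξ λ = -λ/ξ`: `∂_ξ W = -ξ⁻¹ λ P'(λ) Kf + P (ω⁻¹ U - ξ⁻¹ B) Kf
  = (ω⁻¹ C P - ξ⁻¹ (λ P' + P B)) Kf = (ω⁻¹ C(λ) - ξ⁻¹ θ) P Kf` by `hs.eig`, `hs.B`.
* `W_tail`: `W(y, ξ) diag(e^{-A_j}) = P(λ) (1 + H)`.
* `exists_X`: `const_of_ode` for each `y` with `a = c₁ (1 + ‖y‖)`, `F = Jt`, `W`, `M = ω⁻¹ C(λ) - ξ⁻¹ θ`
  (`Jt_deriv`, `Jt_det`, `mem_slit`, `lam_mem`, `hs.ball`).
-/

open scoped BigOperators Topology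
open Filter

namespace Pool.Agent.DST

variable {N : ℕ} {Q : QSys N} {Ψ₀ : Matrix (Fin N) (Fin N) ℂ} {φ : ℝ} {s : SD N}
  {P : ℂ → Matrix (Fin N) (Fin N) ℂ} {σ : Fin N → ℂ} {c₁ M : ℝ} {h : Fin N → Fin N → ℂ → ℂ → ℂ}

private theorem Kf_apply (s : SD N) (h : Fin N → Fin N → ℂ → ℂ → ℂ) (y ξ : ℂ) (i j : Fin N) :
    s.Kf h y ξ i j = ((1 : Matrix (Fin N) (Fin N) ℂ) i j + h i j y ξ) * Complex.exp (s.Ax j y ξ) := by
  rw [SD.Kf, Matrix.mul_diagonal, Matrix.add_apply, Matrix.of_apply]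

theorem Kf_deriv (hH : s.IsH c₁ M h) {y ξ : ℂ} (hy : (y, ξ) ∈ s.dom c₁) (i j : Fin N) :
    HasDerivAt (fun ξ => s.Kf h y ξ i j)
      (((s.ω⁻¹ • Matrix.diagonal (fun k => s.U k (s.lam y ξ)) - ξ⁻¹ • s.B (s.lam y ξ)) *
        s.Kf h y ξ) i j) ξ := by
  have h1 := hH.ode i j y ξ hy
  have h2 := s.Ax_deriv hH.adm hy j
  have h3 := (h1.const_add ((1 : Matrix (Fin N) (Fin N) ℂ) i j)).mul h2.cexp
  have h4 : (fun ξ => s.Kf h y ξ i j) = fun ξ =>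
      ((1 : Matrix (Fin N) (Fin N) ℂ) i j + h i j y ξ) * Complex.exp (s.Ax j y ξ) := by
    funext ξ'
    exact Kf_apply s h y ξ' i j
  rw [h4]
  refine h3.congr_deriv ?_
  rw [Matrix.sub_mul, Matrix.smul_mul, Matrix.smul_mul, Matrix.sub_apply, Matrix.smul_apply, Matrix.smul_apply,
    Matrix.diagonal_mul, Matrix.mul_apply, Kf_apply]
  have h5 : ∑ k, s.B (s.lam y ξ) i k * s.Kf h y ξ k j =
      (s.B (s.lam y ξ) i j + ∑ k, s.B (s.lam y ξ) i k * h k j y ξ) * Complex.exp (s.Ax j y ξ) := by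
    have h6 : ∀ k, s.B (s.lam y ξ) i k * s.Kf h y ξ k j =
        (s.B (s.lam y ξ) i k * (1 : Matrix (Fin N) (Fin N) ℂ) k j + s.B (s.lam y ξ) i k * h k j y ξ) *
          Complex.exp (s.Ax j y ξ) := by
      intro k
      rw [Kf_apply]
      ring
    rw [Finset.sum_congr rfl fun k _ => h6 k, ← Finset.sum_mul, Finset.sum_add_distrib]
    have h7 : ∑ k, s.B (s.lam y ξ) i k * (1 : Matrix (Fin N) (Fin N) ℂ) k j = s.B (s.lam y ξ) i j := by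
      rw [← Matrix.mul_apply, Matrix.mul_one]
    rw [h7]
  rw [h5]
  simp only [smul_eq_mul]
  by_cases hij : i = j
  · subst hij
    ring
  · rw [Matrix.one_apply_ne hij]
    ring

private theorem mat_id {P P' D B C T K : Matrix (Fin N) (Fin N) ℂ} {w x l : ℂ} (h1 : C * P = P * D)
    (h2 : P * B = T * P - l • P') :
    (-(x * l)) • (P' * K) + P * ((w • D - x • B) * K) = (w • C - x • T) * (P * K) := by
  have h3 : P * ((w • D - x • B) * K) = w • (C * (P * K)) - x • (T * (P * K)) + (x * l) • (P' * K) := by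
    rw [← Matrix.mul_assoc, Matrix.mul_sub, Matrix.mul_smul, Matrix.mul_smul, ← h1, h2, Matrix.sub_mul,
      Matrix.smul_mul, Matrix.smul_mul, Matrix.sub_mul, Matrix.smul_mul, Matrix.mul_assoc, Matrix.mul_assoc,
      smul_sub, smul_smul]
    abel
  rw [h3, Matrix.sub_mul, Matrix.smul_mul, Matrix.smul_mul, neg_smul]
  abel

theorem W_deriv (hs : IsSD Q Ψ₀ φ s P σ) (hH : s.IsH c₁ M h) {y ξ : ℂ}
    (hy : (y, ξ) ∈ s.dom c₁) (i j : Fin N) :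
    HasDerivAt (fun ξ => s.W P h y ξ i j)
      (((s.ω⁻¹ • Q.C (s.lam y ξ) - ξ⁻¹ • Matrix.diagonal Q.θ) * s.W P h y ξ) i j) ξ := by
  have hξ : ξ ≠ 0 := (s.norm_lt hH.adm hy).2.2.1
  have hlm := s.lam_mem hH.adm hy
  have hlam : HasDerivAt (fun ξ => s.lam y ξ) (-(ξ⁻¹ * s.lam y ξ)) ξ := by
    have h1 := (hasDerivAt_inv hξ).const_mul (y * s.ω)
    have h2 : (fun ξ => s.lam y ξ) = fun ξ => y * s.ω * ξ⁻¹ := by
      funext ξ'
      rw [SD.lam, div_eq_mul_inv]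
    rw [h2]
    refine h1.congr_deriv ?_
    rw [SD.lam]
    field_simp
  have hP : ∀ k, HasDerivAt (fun ξ => P (s.lam y ξ) i k)
      (deriv (fun x => P x i k) (s.lam y ξ) * -(ξ⁻¹ * s.lam y ξ)) ξ := by
    intro k
    have h1 := (hs.P_hol _ hlm i k).hasDerivAt
    exact h1.comp ξ hlam
  have hW : (fun ξ => s.W P h y ξ i j) = fun ξ => ∑ k, P (s.lam y ξ) i k * s.Kf h y ξ k j := by
    funext ξ'
    rw [SD.W, Matrix.mul_apply]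
  rw [hW]
  have h3 := HasDerivAt.fun_sum (u := Finset.univ) fun k _ => (hP k).mul (Kf_deriv hH hy k j)
  refine h3.congr_deriv ?_
  have h4 := mat_id (w := s.ω⁻¹) (x := ξ⁻¹) (K := s.Kf h y ξ) (hs.eig _ hlm) (hs.B _ hlm)
  have h5 := congrFun (congrFun h4 i) j
  rw [SD.W, ← h5, Matrix.add_apply, Matrix.smul_apply, Matrix.mul_apply, Matrix.mul_apply, Finset.smul_sum,
    ← Finset.sum_add_distrib]
  refine Finset.sum_congr rfl fun k _ => ?_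
  rw [Matrix.of_apply, smul_eq_mul]
  ring

theorem W_tail (s : SD N) (P : ℂ → Matrix (Fin N) (Fin N) ℂ) (h : Fin N → Fin N → ℂ → ℂ → ℂ)
    (y ξ : ℂ) : s.W P h y ξ * Matrix.diagonal (fun j => Complex.exp (-s.Ax j y ξ)) =
      P (s.lam y ξ) * (1 + Matrix.of fun i j => h i j y ξ) := by
  rw [SD.W, SD.Kf, Matrix.mul_assoc, Matrix.mul_assoc, Matrix.diagonal_mul_diagonal]
  have h1 : (fun j => Complex.exp (s.Ax j y ξ) * Complex.exp (-s.Ax j y ξ)) = fun _ => (1 : ℂ) := by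
    funext j
    rw [← Complex.exp_add, add_neg_cancel, Complex.exp_zero]
  rw [h1, Matrix.diagonal_one, Matrix.mul_one]

theorem exists_X (hs : IsSD Q Ψ₀ φ s P σ) (hH : s.IsH c₁ M h) :
    ∃ X : ℂ → Matrix (Fin N) (Fin N) ℂ, ∀ y ξ, (y, ξ) ∈ s.dom c₁ →
      Q.Jt φ y ξ * X y = s.W P h y ξ := by
  have key : ∀ y, ∃ X : Matrix (Fin N) (Fin N) ℂ, ∀ ξ : ℂ, c₁ * (1 + ‖y‖) < ξ.re + s.κ * |ξ.im| →
      Q.Jt φ y ξ * X = s.W P h y ξ := by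
    intro y
    have hl : ∀ ξ : ℂ, c₁ * (1 + ‖y‖) < ξ.re + s.κ * |ξ.im| →
        y * Complex.exp (φ * Complex.I) / ξ ∈ Q.Λ := by
      intro ξ hξ
      have h1 := hs.ball (s.lam_mem hH.adm (y := y) (ξ := ξ) hξ)
      rw [SD.lam, hs.ω] at h1
      exact h1
    refine const_of_ode (κ := s.κ) (a := c₁ * (1 + ‖y‖)) s.κ_pos (F := fun ξ => Q.Jt φ y ξ)
      (W := fun ξ => s.W P h y ξ)
      (M := fun ξ => s.ω⁻¹ • Q.C (s.lam y ξ) - ξ⁻¹ • Matrix.diagonal Q.θ) ?_ ?_ ?_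
    · intro ξ hξ i j
      have h1 := Q.Jt_deriv (s.mem_slit hH.adm (y := y) (ξ := ξ) hξ) (hl ξ hξ) i j
      rw [← hs.ω] at h1
      exact h1
    · intro ξ hξ i j
      exact W_deriv hs hH hξ i j
    · intro ξ hξ
      exact Q.Jt_det (s.norm_lt hH.adm (y := y) (ξ := ξ) hξ).2.2.1 (hl ξ hξ)
  choose X hX using key
  exact ⟨X, fun y ξ hy => hX y ξ hy⟩

end Pool.Agent.DST
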